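import Mathlib
import Pool.Agent.Work.MP_0863b8_nt.Defs
import Pool.Agent.Work.MP_0863b8_nt.R.Defs

/-! Bundle of small proof modules (one section per former module). -/

section

/-!
MP_0863b8_nt, CASE II: small parameter inequalities (all of the form `∀ᶠ κ → 0+`).
-/

set_option autoImplicit false

namespace Pool.Agent.MP_0863b8.C2

open Filter Topology

theorem evPos : ∀ᶠ κ : ℝ in 𝓝[>] 0, 0 < κ := eventually_mem_nhdsWithin

theorem evLe (κ0 : ℝ) (h : 0 < κ0) : ∀ᶠ κ : ℝ in 𝓝[>] 0, κ ≤ κ0 := by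
  have := Ioo_mem_nhdsGT h
  filter_upwards [this] with κ hκ using hκ.2.le

/-- any `∀ᶠ` in `𝓝[>] 0` gives a threshold -/
theorem evOut (P : ℝ → Prop) (h : ∀ᶠ κ : ℝ in 𝓝[>] 0, P κ) :
    ∃ κ0 : ℝ, 0 < κ0 ∧ ∀ κ : ℝ, 0 < κ → κ ≤ κ0 → P κ := by
  rw [eventually_nhdsWithin_iff, Metric.eventually_nhds_iff] at h
  obtain ⟨ε, hε, h⟩ := h
  refine ⟨ε / 2, by positivity, fun κ hκ hκ' => h ?_ hκ⟩
  rw [Real.dist_eq, sub_zero, abs_of_pos hκ]
  linarith

theorem evX (c0 K : ℝ) (hc0 : 0 < c0) : ∀ᶠ κ : ℝ in 𝓝[>] 0, K ≤ κ ^ (-c0) :=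
  (tendsto_rpow_neg_nhdsGT_zero (y := -c0) (by linarith)).eventually_ge_atTop K

/-- `exp (-c κ^(-c0)) ≤ κ^K` -/
theorem evExp (c0 c K : ℝ) (hc0 : 0 < c0) (hc : 0 < c) :
    ∀ᶠ κ : ℝ in 𝓝[>] 0, Real.exp (-c * κ ^ (-c0)) ≤ κ ^ K := by
  have h1 := (isLittleO_exp_neg_mul_rpow_atTop hc (-K / c0)).bound (c := 1) one_pos
  have h2 : Tendsto (fun κ : ℝ => κ ^ (-c0)) (𝓝[>] 0) atTop :=
    tendsto_rpow_neg_nhdsGT_zero (y := -c0) (by linarith)
  have h3 := h2.eventually h1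
  filter_upwards [h3, evPos] with κ h hκ
  rw [one_mul, Real.norm_eq_abs, Real.norm_eq_abs, abs_of_pos (Real.exp_pos _),
    abs_of_nonneg (by positivity), ← Real.rpow_mul hκ.le] at h
  have h4 : -c0 * (-K / c0) = K := by field_simp
  rwa [h4] at h

/-- `c * log (1/κ) + 1 ≤ ε κ^(-c0)` -/
theorem evLog (c0 c ε : ℝ) (hc0 : 0 < c0) (hε : 0 < ε) :
    ∀ᶠ κ : ℝ in 𝓝[>] 0, c * Real.log (1 / κ) + 1 ≤ ε * κ ^ (-c0) := by
  filter_upwards [evExp c0 (ε / 2) c hc0 (by positivity), evPos, evX c0 (2 / ε) hc0]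
    with κ h hκ h2
  have h3 := (Real.le_log_iff_exp_le (by positivity)).2 h
  rw [Real.log_rpow hκ] at h3
  rw [one_div, Real.log_inv]
  rw [div_le_iff₀ hε] at h2
  nlinarith

/-- `A κ^a ≤ κ^b` for `b < a` -/
theorem evPow (A a b : ℝ) (hab : b < a) : ∀ᶠ κ : ℝ in 𝓝[>] 0, A * κ ^ a ≤ κ ^ b := by
  filter_upwards [evX (a - b) (max A 0) (by linarith), evPos] with κ h hκ
  have h1 : κ ^ b = κ ^ (-(a - b)) * κ ^ a := by
    rw [← Real.rpow_add hκ]; congr 1; ring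
  rw [h1]
  exact mul_le_mul_of_nonneg_right ((le_max_left _ _).trans h) (by positivity)

/-- the numeric inequality of Step 0 -/
theorem evZero (c0 C2 C a b : ℝ) (hc0 : 0 < c0) (hC2 : 0 < C2) (hC : 0 < C) :
    ∀ᶠ κ : ℝ in 𝓝[>] 0,
      C * (κ ^ (-C2)) ^ C * (Real.exp (κ ^ (-c0) / 100)) ^ (-(1 / Real.log (κ ^ (-C2)))) *
        κ ^ a ≤ κ ^ b := by
  filter_upwards [evExp (c0 / 2) 1 (b - a + C2 * C + 1) (by positivity) one_pos, evPos,
    evLog (c0 / 2) (100 * C2) 1 (by positivity) one_pos, evLe 1 one_pos,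
    evLe (1 / C) (by positivity), evX (c0 / 2) 1 (by positivity), evLe (1/2) (by norm_num)]
    with κ h hκ h2 h3 h4 h5 h6
  set x := κ ^ (-(c0 / 2)) with hx
  have hx0 : 0 < x := by positivity
  have hxx : κ ^ (-c0) = x * x := by
    rw [hx, ← Real.rpow_add hκ]; congr 1; ring
  have hL : 0 < Real.log (1 / κ) := by
    apply Real.log_pos
    rw [lt_div_iff₀ hκ]; linarith
  have hlQ : Real.log (κ ^ (-C2)) = C2 * Real.log (1 / κ) := by
    rw [Real.log_rpow hκ, one_div, Real.log_inv]; ring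
  have hD : (Real.exp (κ ^ (-c0) / 100)) ^ (-(1 / Real.log (κ ^ (-C2)))) ≤ Real.exp (-x) := by
    rw [← Real.exp_mul, Real.exp_le_exp, hlQ, hxx]
    have h7 : 0 < C2 * Real.log (1 / κ) := by positivity
    have h8 : x * x / 100 * -(1 / (C2 * Real.log (1 / κ))) =
      -(x * x / (100 * (C2 * Real.log (1 / κ)))) := by
      field_simp
    rw [h8, neg_le_neg_iff, le_div_iff₀ (by positivity)]
    apply mul_le_mul_of_nonneg_left _ hx0.le
    linarith
  have h9 : Real.exp (-x) ≤ κ ^ (b - a + C2 * C + 1) := by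
    have : -(1:ℝ) * x = -x := by ring
    rwa [this] at h
  calc C * (κ ^ (-C2)) ^ C * (Real.exp (κ ^ (-c0) / 100)) ^ (-(1 / Real.log (κ ^ (-C2)))) *
        κ ^ a
      ≤ C * (κ ^ (-C2)) ^ C * κ ^ (b - a + C2 * C + 1) * κ ^ a := by
        gcongr
        exact hD.trans h9
    _ = C * κ * κ ^ b := by
        rw [← Real.rpow_mul hκ.le, mul_assoc, mul_assoc, ← Real.rpow_add hκ, ← Real.rpow_add hκ,
          mul_assoc]
        congr 1
        nth_rewrite 2 [← Real.rpow_one κ]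
        rw [← Real.rpow_add hκ]
        congr 1
        ring
    _ ≤ 1 * κ ^ b := by
        apply mul_le_mul_of_nonneg_right _ (by positivity)
        rw [le_div_iff₀ hC] at h4
        linarith
    _ = κ ^ b := one_mul _

end Pool.Agent.MP_0863b8.C2

end

section

set_option autoImplicit false

namespace Pool.Agent.MP_0863b8

open MeasureTheory Filter

theorem bc_cs (S : Finset ℕ) (E : ℕ → Set ℝ) (hE : ∀ n, MeasurableSet (E n))
    (hE1 : ∀ n, E n ⊆ Set.Ico 0 1) (G : Set ℝ) (hG : MeasurableSet G) (hG1 : volume G ≠ ⊤)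
    (lam : ℝ) :
    2 * lam * ∑ v ∈ S, (volume (E v ∩ G)).toReal ≤
      lam ^ 2 * ∑ v ∈ S, ∑ w ∈ S, (volume (E v ∩ E w)).toReal + (volume G).toReal := by
  have hfin : ∀ n, volume (E n) ≠ ⊤ := by
    intro n
    refine ne_top_of_le_ne_top ?_ (measure_mono (hE1 n))
    simp
  have hint : ∀ s : Set ℝ, MeasurableSet s → volume s ≠ ⊤ →
      Integrable (s.indicator (1 : ℝ → ℝ)) volume := by
    intro s hs hs1
    rw [integrable_indicator_iff hs]
    exact integrableOn_const hs1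
  have key : 0 ≤ ∫ x : ℝ, (lam * ∑ v ∈ S, (E v).indicator (1 : ℝ → ℝ) x -
      G.indicator (1 : ℝ → ℝ) x) ^ 2 := integral_nonneg fun x => sq_nonneg _
  have hexp : (fun x : ℝ => (lam * ∑ v ∈ S, (E v).indicator (1 : ℝ → ℝ) x -
      G.indicator (1 : ℝ → ℝ) x) ^ 2) = fun x =>
      (lam ^ 2 * ∑ v ∈ S, ∑ w ∈ S, (E v ∩ E w).indicator (1 : ℝ → ℝ) x -
        2 * lam * ∑ v ∈ S, (E v ∩ G).indicator (1 : ℝ → ℝ) x) +
        G.indicator (1 : ℝ → ℝ) x := by
    funext x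
    simp only [Set.inter_indicator_one, Pi.mul_apply]
    have h1 : G.indicator (1 : ℝ → ℝ) x * G.indicator (1 : ℝ → ℝ) x =
        G.indicator (1 : ℝ → ℝ) x := by
      by_cases hx : x ∈ G <;> simp [hx]
    rw [← Finset.sum_mul, ← Finset.sum_mul_sum]
    linear_combination h1
  rw [hexp] at key
  have i1 : ∀ v w, Integrable ((E v ∩ E w).indicator (1 : ℝ → ℝ)) volume := fun v w =>
    hint _ ((hE v).inter (hE w)) (ne_top_of_le_ne_top (hfin v) (measure_mono Set.inter_subset_left))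
  have i2 : ∀ v, Integrable ((E v ∩ G).indicator (1 : ℝ → ℝ)) volume := fun v =>
    hint _ ((hE v).inter hG) (ne_top_of_le_ne_top (hfin v) (measure_mono Set.inter_subset_left))
  rw [integral_add, integral_sub, integral_const_mul, integral_const_mul,
    integral_finsetSum, integral_finsetSum, integral_indicator_one hG] at key
  · have e1 : ∀ v ∈ S, ∫ x, ∑ w ∈ S, (E v ∩ E w).indicator (1 : ℝ → ℝ) x =
        ∑ w ∈ S, (volume (E v ∩ E w)).toReal := by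
      intro v _
      rw [integral_finsetSum _ fun w _ => i1 v w]
      exact Finset.sum_congr rfl fun w _ => integral_indicator_one ((hE v).inter (hE w))
    have e2 : ∀ v ∈ S, ∫ x, (E v ∩ G).indicator (1 : ℝ → ℝ) x =
        (volume (E v ∩ G)).toReal := fun v _ => integral_indicator_one ((hE v).inter hG)
    rw [Finset.sum_congr rfl e1, Finset.sum_congr rfl e2] at key
    change 0 ≤ _ - _ + (volume G).toReal at key
    linarith
  · exact fun v _ => i2 v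
  · exact fun v _ => integrable_finsetSum _ fun w _ => i1 v w
  · exact (integrable_finsetSum _ fun v _ => integrable_finsetSum _ fun w _ => i1 v w).const_mul _
  · exact (integrable_finsetSum _ fun v _ => i2 v).const_mul _
  · exact ((integrable_finsetSum _ fun v _ =>
      integrable_finsetSum _ fun w _ => i1 v w).const_mul _).sub
      ((integrable_finsetSum _ fun v _ => i2 v).const_mul _)
  · exact hint G hG hG1

theorem bc : BCStmt := by
  intro S E C c hc hE hE1 hC hlow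
  have hfin : ∀ n, volume (E n) ≠ ⊤ := by
    intro n
    refine ne_top_of_le_ne_top ?_ (measure_mono (hE1 n))
    simp
  have hC0 : 0 ≤ C := le_trans (Finset.sum_nonneg fun v _ => Finset.sum_nonneg fun w _ =>
    ENNReal.toReal_nonneg) (hC 0)
  let Z : ℕ → Set ℝ := fun T => Set.Ico 0 1 ∩ ⋂ t, ⋂ (_ : T ≤ t), ⋂ v, ⋂ (_ : v ∈ S t), (E v)ᶜ
  have hZm : ∀ T, MeasurableSet (Z T) := by
    intro T
    refine measurableSet_Ico.inter ?_
    refine MeasurableSet.iInter fun t => MeasurableSet.iInter fun _ => ?_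
    exact MeasurableSet.iInter fun v => MeasurableSet.iInter fun _ => (hE v).compl
  have hZmem : ∀ T x, x ∈ Z T ↔ x ∈ Set.Ico (0:ℝ) 1 ∧ ∀ t, T ≤ t → ∀ v ∈ S t, x ∉ E v := by
    intro T x
    simp [Z]
  have hZ0 : ∀ T, volume (Z T) = 0 := by
    intro T
    by_contra hne
    obtain ⟨K, hKZ, hKc, hKpos⟩ := (hZm T).exists_lt_isCompact (μ := volume)
      (pos_iff_ne_zero.2 hne)
    have hK1 : K ⊆ Set.Ico 0 1 := fun x hx => ((hZmem T x).1 (hKZ hx)).1
    have hKfin : volume K ≠ ⊤ := hKc.measure_lt_top.ne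
    set κ : ℝ := (volume K).toReal with hκ
    have hκpos : 0 < κ := ENNReal.toReal_pos hKpos.ne' hKfin
    set lam : ℝ := c * κ / (C + 1) with hlam
    have hlampos : 0 < lam := by positivity
    set ε : ℝ := lam * (c * κ) / 2 with hε
    have hεpos : 0 < ε := by positivity
    obtain ⟨U, hKU, hUo, hUlt⟩ := K.exists_isOpen_lt_add (μ := volume) hKfin
      (ENNReal.ofReal_pos.2 hεpos).ne'
    have hUK : volume (U \ K) < ENNReal.ofReal ε :=
      measure_sdiff_lt_of_lt_add hKc.measurableSet.nullMeasurableSet hKU hKfin hUlt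
    obtain ⟨d, hd, hdU⟩ := hKc.exists_thickening_subset_open hUo hKU
    obtain ⟨M, hM⟩ := exists_nat_gt (1 / d)
    have hMpos : (0 : ℝ) < M := lt_trans (by positivity) hM
    have hMd : 1 / (M : ℝ) < d := by
      rw [div_lt_iff₀ hMpos]
      rw [div_lt_iff₀ hd] at hM
      linarith
    classical
    let Ic : ℕ → Set ℝ := fun j => Set.Ico ((j : ℝ) / M) (((j : ℝ) + 1) / M)
    let Io : ℕ → Set ℝ := fun j => Set.Ioo ((j : ℝ) / M) (((j : ℝ) + 1) / M)
    let J : Finset ℕ := (Finset.range M).filter fun j => (Ic j ∩ K).Nonempty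
    let F : Set ℝ := ⋃ j ∈ J, Ic j
    have hFm : MeasurableSet F := Finset.measurableSet_biUnion _ fun j _ => measurableSet_Ico
    have hKF : K ⊆ F := by
      intro x hx
      have hx1 := hK1 hx
      have h0 : 0 ≤ (M : ℝ) * x := mul_nonneg hMpos.le hx1.1
      have hxj : x ∈ Ic ⌊(M : ℝ) * x⌋₊ := by
        constructor
        · rw [div_le_iff₀ hMpos, mul_comm x]
          exact Nat.floor_le h0
        · rw [lt_div_iff₀ hMpos, mul_comm x]
          exact Nat.lt_floor_add_one _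
      refine Set.mem_biUnion (x := ⌊(M : ℝ) * x⌋₊) ?_ hxj
      rw [Finset.mem_coe, Finset.mem_filter, Finset.mem_range]
      refine ⟨?_, x, hxj, hx⟩
      rw [Nat.floor_lt h0]
      nlinarith [hx1.2]
    have hFU : F ⊆ U := by
      intro y hy
      obtain ⟨j, hj, hyj⟩ := Set.mem_iUnion₂.1 hy
      obtain ⟨x, hxj, hxK⟩ := (Finset.mem_filter.1 hj).2
      apply hdU
      rw [Metric.mem_thickening_iff]
      refine ⟨x, hxK, lt_trans ?_ hMd⟩
      rw [Real.dist_eq, abs_lt]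
      have e : ((j : ℝ) + 1) / M = (j : ℝ) / M + 1 / M := by ring
      obtain ⟨h1, h2⟩ := hyj
      obtain ⟨h3, h4⟩ := hxj
      rw [e] at h2 h4
      constructor <;> linarith
    have hvolI : ∀ j, volume (Ic j) = ENNReal.ofReal (1 / M) := by
      intro j
      change volume (Set.Ico _ _) = _
      rw [Real.volume_Ico]
      congr 1
      ring
    have hκJ : κ ≤ (J.card : ℝ) * (1 / M) := by
      have h1 : volume K ≤ ∑ j ∈ J, volume (Ic j) :=
        (measure_mono hKF).trans (measure_biUnion_finset_le _ _)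
      simp_rw [hvolI] at h1
      rw [Finset.sum_const, nsmul_eq_mul] at h1
      have h2 := ENNReal.toReal_mono (by finiteness) h1
      rwa [ENNReal.toReal_mul, ENNReal.toReal_natCast, ENNReal.toReal_ofReal (by positivity)] at h2
    have hev : ∀ᶠ t in atTop, ∀ j ∈ J, c * (1 / M) ≤
        ∑ v ∈ S t, (volume (E v ∩ Io j)).toReal := by
      rw [Filter.eventually_all_finset]
      intro j hj
      have hjM : j < M := Finset.mem_range.1 (Finset.mem_filter.1 hj).1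
      have h1 : (j : ℝ) / M < ((j : ℝ) + 1) / M := by
        apply div_lt_div_of_pos_right _ hMpos
        linarith
      have h2 : ((j : ℝ) + 1) / M ≤ 1 := by
        rw [div_le_one hMpos]
        exact_mod_cast hjM
      filter_upwards [hlow _ _ (by positivity) h1 h2] with t ht
      have e : ((j : ℝ) + 1) / M - (j : ℝ) / M = 1 / M := by ring
      rwa [e] at ht
    obtain ⟨t, ht, htT⟩ := (hev.and (eventually_ge_atTop T)).exists
    have hdisj : ∀ v, ∑ j ∈ J, (volume (E v ∩ Io j)).toReal ≤ (volume (E v ∩ F)).toReal := by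
      intro v
      rw [← ENNReal.toReal_sum fun j _ =>
        ne_top_of_le_ne_top (hfin v) (measure_mono Set.inter_subset_left)]
      refine ENNReal.toReal_mono
        (ne_top_of_le_ne_top (hfin v) (measure_mono Set.inter_subset_left)) ?_
      rw [← measure_biUnion_finset]
      · refine measure_mono ?_
        refine Set.iUnion₂_subset fun j hj => ?_
        refine Set.inter_subset_inter_right _ ?_
        exact Set.Ioo_subset_Ico_self.trans (Set.subset_biUnion_of_mem (u := Ic) hj)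
      · intro i _ j _ hij
        refine Set.disjoint_left.2 fun x hxi hxj => hij ?_
        obtain ⟨_, h1, h2⟩ := hxi
        obtain ⟨_, h3, h4⟩ := hxj
        have h5 : (i : ℝ) / M < ((j : ℝ) + 1) / M := h1.trans h4
        have h6 : (j : ℝ) / M < ((i : ℝ) + 1) / M := h3.trans h2
        rw [div_lt_div_iff_of_pos_right hMpos] at h5 h6
        have h7 : i < j + 1 := by exact_mod_cast h5
        have h8 : j < i + 1 := by exact_mod_cast h6
        omega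
      · exact fun j _ => (hE v).inter measurableSet_Ioo
    have hsum : c * κ ≤ ∑ v ∈ S t, (volume (E v ∩ (F \ K))).toReal := by
      have h1 : c * κ ≤ ∑ j ∈ J, ∑ v ∈ S t, (volume (E v ∩ Io j)).toReal := by
        calc c * κ ≤ c * ((J.card : ℝ) * (1 / M)) := mul_le_mul_of_nonneg_left hκJ hc.le
          _ = ∑ j ∈ J, c * (1 / M) := by rw [Finset.sum_const, nsmul_eq_mul]; ring
          _ ≤ _ := Finset.sum_le_sum ht
      rw [Finset.sum_comm] at h1
      refine h1.trans (Finset.sum_le_sum fun v hv => (hdisj v).trans (le_of_eq ?_))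
      congr 2
      ext x
      constructor
      · rintro ⟨hx1, hx2⟩
        exact ⟨hx1, hx2, fun hxK => ((hZmem T x).1 (hKZ hxK)).2 t htT v hv hx1⟩
      · rintro ⟨hx1, hx2, _⟩
        exact ⟨hx1, hx2⟩
    have hG : volume (F \ K) ≤ ENNReal.ofReal ε :=
      (measure_mono (Set.sdiff_subset_sdiff_left hFU)).trans hUK.le
    have hcs := bc_cs (S t) E hE hE1 (F \ K) (hFm.diff hKc.measurableSet)
      (ne_top_of_le_ne_top ENNReal.ofReal_ne_top hG) lam
    have hG' : (volume (F \ K)).toReal ≤ ε := by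
      have := ENNReal.toReal_mono ENNReal.ofReal_ne_top hG
      rwa [ENNReal.toReal_ofReal hεpos.le] at this
    have h1 : 2 * lam * (c * κ) ≤ lam ^ 2 * C + ε := by
      refine le_trans (mul_le_mul_of_nonneg_left hsum (by positivity)) (hcs.trans ?_)
      exact add_le_add (mul_le_mul_of_nonneg_left (hC t) (by positivity)) hG'
    have h2 : lam * (C + 1) = c * κ := by
      rw [hlam]
      field_simp
    have h3 : lam ^ 2 * C ≤ lam * (c * κ) := by
      rw [← h2]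
      nlinarith [sq_nonneg lam]
    have h4 : 0 < lam * (c * κ) := by positivity
    rw [hε] at h1
    nlinarith
  rw [ae_restrict_iff' measurableSet_Ico]
  have hnull : volume (⋃ T, Z T) = 0 := measure_iUnion_null hZ0
  rw [ae_iff]
  refine measure_mono_null ?_ hnull
  intro x hx
  simp only [Set.mem_ofPred_eq, Classical.not_imp, Filter.not_frequently, not_exists, not_and] at hx
  obtain ⟨hx1, hx2⟩ := hx
  obtain ⟨T, hT⟩ := Filter.eventually_atTop.1 hx2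
  exact Set.mem_iUnion.2 ⟨T, (hZmem T x).2 ⟨hx1, fun t ht v hv => hT t ht v hv⟩⟩

end Pool.Agent.MP_0863b8

end

section

/-!
MP_0863b8_nt, CASE I: smooth pairs.  The one-scale tree inequality with general exponents
`t + α + β = 1`, `t > 1/2`, and the statement of CASE I.
-/

namespace Pool.Agent.MP_0863b8.C1

open MeasureTheory Filter
open Pool.Agent.MP_0863b8

/-- the bounding expression with general exponents -/
noncomputable def bq (t α β : ℝ) (A B : ℝ) (Q : Finset (ℕ × ℕ)) (V W : Finset ℕ) : ℝ :=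
  (A * B) ^ β * (Q.card : ℝ) ^ α * ((V.card : ℝ) * W.card) ^ t

/-- admissible exponents -/
structure Ex (t α β : ℝ) : Prop where
  ht : 1/2 < t
  ha : 0 < α
  hb : 0 < β
  hs : t + α + β = 1

/-- the node inequality -/
def NodeQ : Prop :=
  ∀ t α β : ℝ, Ex t α β → ∃ C c : ℝ, 0 < C ∧ 0 < c ∧
    ∀ l : ℝ, 2 ≤ l → ∀ N : ℕ, 0 < N → ∀ (x y : ℕ → ℝ) (F : ℤ → ℝ),
    (∀ i, 0 ≤ x i) → (∀ i, 0 ≤ y i) → (∀ k, 0 ≤ F k) →
    ∑ i ∈ Finset.range N, x i ≤ 1 → ∑ i ∈ Finset.range N, y i ≤ 1 →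
    ∑ k ∈ Finset.Icc (-(N:ℤ)) N, F k ≤ 1 →
    ∃ m < N, ∑ i ∈ Finset.range N, ∑ j ∈ Finset.range N,
        l ^ (-(β * |(i:ℝ) - j|)) * (F ((i:ℤ) - j)) ^ α * (x i * y j) ^ t
      ≤ 1 - c * ((1 - x m) + (1 - y m)) + C / l

/-- the step -/
def StepQ : Prop :=
  ∀ t α β : ℝ, Ex t α β → ∃ C c : ℝ, 0 < C ∧ 0 < c ∧
    ∀ l : ℕ, l.Prime → ∀ (P : Set ℕ) (V W : Finset ℕ) (Q : Finset (ℕ × ℕ))
    (A B D : ℝ), 0 ≤ A → 0 ≤ B → 0 ≤ D → (∀ v ∈ V, 0 < v) → (∀ w ∈ W, 0 < w) →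
    (∀ i j : ℕ, (cnt (P \ {l}) (part l i V) (part l j W) (qpart l i j Q) : ℝ) ≤
      D * bq t α β (A / (l:ℝ) ^ (i - j)) (B / (l:ℝ) ^ (j - i)) (qpart l i j Q)
        (part l i V) (part l j W)) →
    ∃ m : ℕ, (cnt P V W Q : ℝ) ≤ D * bq t α β A B Q V W *
      (1 - c * ((1 - ((part l m V).card : ℝ) / V.card) +
        (1 - ((part l m W).card : ℝ) / W.card)) + C / l)

/-- finitely many primes -/
def FinQ : Prop :=
  ∀ t α β : ℝ, Ex t α β → ∃ C : ℝ, 0 < C ∧ ∀ P : Finset ℕ, (∀ p ∈ P, p.Prime) →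
    ∀ (V W : Finset ℕ) (Q : Finset (ℕ × ℕ)) (A B : ℝ), 0 ≤ A → 0 ≤ B →
    (∀ v ∈ V, 0 < v) → (∀ w ∈ W, 0 < w) → (∀ z ∈ Q, (z.1 : ℝ) ≤ A ∧ (z.2 : ℝ) ≤ B) →
    (cnt (P : Set ℕ) V W Q : ℝ) ≤ Real.exp (∑ p ∈ P, C / p) * bq t α β A B Q V W

/-- the tree inequality -/
def TreeQ : Prop :=
  ∀ t α β : ℝ, Ex t α β → ∀ C1 : ℝ, ∃ C : ℝ, 0 < C ∧
    ∀ (V W : Finset ℕ) (Q : Finset (ℕ × ℕ)) (A B : ℝ), 0 ≤ A → 0 ≤ B →
    (∀ v ∈ V, 0 < v ∧ rp v ≤ C1) → (∀ w ∈ W, 0 < w ∧ rp w ≤ C1) →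
    (∀ z ∈ Q, (z.1 : ℝ) ≤ A ∧ (z.2 : ℝ) ≤ B) →
    (cnt Set.univ V W Q : ℝ) ≤ C * bq t α β A B Q V W

end Pool.Agent.MP_0863b8.C1

end

section

/-!
MP_0863b8_nt, item F3: summation over the classes.
-/

namespace Pool.Agent.MP_0863b8

/-- finite partial sums of a geometric series -/
theorem cs_geom (r : ℝ) (hr0 : 0 ≤ r) (hr1 : r < 1) (S : Finset ℕ) :
    ∑ j ∈ S, r ^ j ≤ (1 - r)⁻¹ := by
  rw [← tsum_geometric_of_lt_one hr0 hr1]
  exact (summable_geometric_of_lt_one hr0 hr1).sum_le_tsum S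
    (fun _ _ => pow_nonneg hr0 _)

theorem cs_geom_image (r : ℝ) (hr0 : 0 ≤ r) (hr1 : r < 1) (S : Finset ℕ) (g : ℕ → ℕ)
    (hg : Set.InjOn g S) : ∑ j ∈ S, r ^ (g j) ≤ (1 - r)⁻¹ := by
  rw [← Finset.sum_image (f := fun j => r ^ j) hg]
  exact cs_geom r hr0 hr1 _

theorem cs_pow (c : ℝ) (z : ℝ) (n : ℕ) (h : z = - (c * n)) :
    (2:ℝ) ^ z = ((2:ℝ) ^ (-c)) ^ n := by
  rw [h, ← Real.rpow_natCast, ← Real.rpow_mul (by norm_num)]
  congr 1
  ring

theorem cs_lt_one (c : ℝ) (hc : 0 < c) : (2:ℝ) ^ (-c) < 1 :=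
  Real.rpow_lt_one_of_one_lt_of_neg (by norm_num) (by linarith)

theorem cs_pos (c : ℝ) : 0 < (2:ℝ) ^ (-c) := Real.rpow_pos_of_pos (by norm_num) _

/-- inner sum over `m` -/
theorem cs_inner (N s k : ℕ) :
    ∑ m ∈ (Finset.range N).filter (fun m => m + s ≤ k), (2:ℝ) ^ (((m:ℝ) + s - k) / 7) ≤
      (1 - (2:ℝ) ^ (-(1/7 : ℝ)))⁻¹ := by
  have h1 : ∀ m ∈ (Finset.range N).filter (fun m => m + s ≤ k),
      (2:ℝ) ^ (((m:ℝ) + s - k) / 7) = ((2:ℝ) ^ (-(1/7 : ℝ))) ^ (k - s - m) := by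
    intro m hm
    rw [Finset.mem_filter] at hm
    apply cs_pow
    rw [Nat.cast_sub (by omega), Nat.cast_sub (by omega)]
    ring
  rw [Finset.sum_congr rfl h1]
  apply cs_geom_image _ (cs_pos _).le (cs_lt_one _ (by norm_num)) _ (fun m => k - s - m)
  intro a ha b hb hab
  rw [Finset.mem_coe, Finset.mem_filter] at ha hb
  simp only at hab
  omega

/-- Cauchy-Schwarz in the form used -/
theorem cs_cauchy (N : ℕ) (f : ℕ → ℝ) (hf : ∀ s, 0 ≤ f s) (C0 : ℝ)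
    (h : ∑ s ∈ Finset.range N, (f s) ^ ((1:ℝ)/7) ≤ C0) :
    (∑ s ∈ Finset.range N, (f s) ^ ((4:ℝ)/7)) ^ 2 ≤ C0 * ∑ s ∈ Finset.range N, f s := by
  have h1 : ∀ s ∈ Finset.range N, (f s) ^ ((4:ℝ)/7) =
      (f s) ^ ((1:ℝ)/2) * (f s) ^ ((1:ℝ)/14) := by
    intro s _
    rw [← Real.rpow_add_of_nonneg (hf s) (by norm_num) (by norm_num)]
    norm_num
  rw [Finset.sum_congr rfl h1]
  refine (Finset.sum_mul_sq_le_sq_mul_sq _ _ _).trans ?_
  have h2 : ∀ s ∈ Finset.range N, ((f s) ^ ((1:ℝ)/2)) ^ 2 = f s := by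
    intro s _
    rw [← Real.rpow_natCast, ← Real.rpow_mul (hf s)]
    norm_num
  have h3 : ∀ s ∈ Finset.range N, ((f s) ^ ((1:ℝ)/14)) ^ 2 = (f s) ^ ((1:ℝ)/7) := by
    intro s _
    rw [← Real.rpow_natCast, ← Real.rpow_mul (hf s)]
    norm_num
  rw [Finset.sum_congr rfl h2, Finset.sum_congr rfl h3, mul_comm]
  exact mul_le_mul_of_nonneg_right h (Finset.sum_nonneg (fun s _ => hf s))

theorem class_sum : ClassSumStmt := by
  intro C0
  set G : ℝ := (1 - (2:ℝ) ^ (-(1/7 : ℝ)))⁻¹ with hG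
  set H : ℝ := (1 - (2:ℝ) ^ (-(3/7 : ℝ)))⁻¹ with hH
  have hGpos : 0 < G := by
    rw [hG]
    have := cs_lt_one (1/7) (by norm_num)
    exact inv_pos.mpr (by linarith)
  have hHpos : 0 < H := by
    rw [hH]
    have := cs_lt_one (3/7) (by norm_num)
    exact inv_pos.mpr (by linarith)
  refine ⟨G * (|C0| + 1) * H, by positivity, ?_⟩
  intro N x hx hsum hC
  set X : ℕ → ℝ := fun k => ∑ s ∈ Finset.range N, x k s with hX
  set Y : ℕ → ℝ := fun k => ∑ s ∈ Finset.range N, (x k s) ^ ((4:ℝ)/7) with hY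
  have hX0 : ∀ k, 0 ≤ X k := fun k => Finset.sum_nonneg (fun s _ => hx k s)
  have hY0 : ∀ k, 0 ≤ Y k := fun k => Finset.sum_nonneg (fun s _ => Real.rpow_nonneg (hx k s) _)
  have hYX : ∀ k ∈ Finset.range N, (Y k) ^ 2 ≤ (|C0| + 1) * X k := by
    intro k hk
    have := cs_cauchy N (x k) (hx k) C0 (hC k (Finset.mem_range.mp hk))
    refine this.trans (mul_le_mul_of_nonneg_right ?_ (hX0 k))
    have := le_abs_self C0
    linarith
  have hYY : ∀ k ∈ Finset.range N, ∀ l ∈ Finset.range N,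
      Y k * Y l ≤ (|C0| + 1) * (X k + X l) / 2 := by
    intro k hk l hl
    have h1 := hYX k hk
    have h2 := hYX l hl
    nlinarith [sq_nonneg (Y k - Y l)]
  -- the inner three sums
  have hin : ∀ k ∈ Finset.range N, ∀ l ∈ (Finset.range N).filter (fun l => k ≤ l),
      ∑ s ∈ Finset.range N, ∑ t ∈ Finset.range N,
      ∑ m ∈ (Finset.range N).filter (fun m => m + s ≤ k),
        (2:ℝ) ^ (((m:ℝ) + s - k) / 7) * (2:ℝ) ^ (-(3 * ((l:ℝ) - k)) / 7) *
          (x k s * x l t) ^ ((4:ℝ)/7) ≤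
      G * ((|C0| + 1) / 2 * (((2:ℝ) ^ (-(3/7 : ℝ))) ^ (l - k) * X k +
        ((2:ℝ) ^ (-(3/7 : ℝ))) ^ (l - k) * X l)) := by
    intro k hk l hl
    rw [Finset.mem_filter] at hl
    have hq : (2:ℝ) ^ (-(3 * ((l:ℝ) - k)) / 7) = ((2:ℝ) ^ (-(3/7 : ℝ))) ^ (l - k) := by
      apply cs_pow
      rw [Nat.cast_sub hl.2]
      ring
    rw [hq]
    set Q : ℝ := ((2:ℝ) ^ (-(3/7 : ℝ))) ^ (l - k) with hQ
    have hQ0 : 0 ≤ Q := by rw [hQ]; exact pow_nonneg (cs_pos _).le _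
    have h1 : ∀ s ∈ Finset.range N, ∀ t ∈ Finset.range N,
        ∑ m ∈ (Finset.range N).filter (fun m => m + s ≤ k),
        (2:ℝ) ^ (((m:ℝ) + s - k) / 7) * Q * (x k s * x l t) ^ ((4:ℝ)/7) ≤
        G * Q * ((x k s) ^ ((4:ℝ)/7) * (x l t) ^ ((4:ℝ)/7)) := by
      intro s _ t _
      rw [← Finset.sum_mul, ← Finset.sum_mul, Real.mul_rpow (hx k s) (hx l t)]
      apply mul_le_mul_of_nonneg_right _
        (mul_nonneg (Real.rpow_nonneg (hx k s) _) (Real.rpow_nonneg (hx l t) _))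
      exact mul_le_mul_of_nonneg_right (cs_inner N s k) hQ0
    refine (Finset.sum_le_sum (fun s hs => Finset.sum_le_sum (fun t ht => h1 s hs t ht))).trans ?_
    have h2 : ∑ s ∈ Finset.range N, ∑ t ∈ Finset.range N,
        G * Q * ((x k s) ^ ((4:ℝ)/7) * (x l t) ^ ((4:ℝ)/7)) = G * Q * (Y k * Y l) := by
      rw [hY]
      simp only
      rw [Finset.sum_mul_sum, Finset.mul_sum]
      apply Finset.sum_congr rfl
      intro s _
      rw [Finset.mul_sum]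
    rw [h2]
    have h3 := hYY k hk l hl.1
    have h4 : G * Q * (Y k * Y l) ≤ G * Q * ((|C0| + 1) * (X k + X l) / 2) :=
      mul_le_mul_of_nonneg_left h3 (mul_nonneg hGpos.le hQ0)
    refine h4.trans (le_of_eq ?_)
    ring
  refine (Finset.sum_le_sum (fun k hk => Finset.sum_le_sum (fun l hl => hin k hk l hl))).trans ?_
  have h5 : ∑ k ∈ Finset.range N, ∑ l ∈ (Finset.range N).filter (fun l => k ≤ l),
      G * ((|C0| + 1) / 2 * (((2:ℝ) ^ (-(3/7 : ℝ))) ^ (l - k) * X k +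
        ((2:ℝ) ^ (-(3/7 : ℝ))) ^ (l - k) * X l)) =
      G * ((|C0| + 1) / 2 * (
        ∑ k ∈ Finset.range N, ∑ l ∈ (Finset.range N).filter (fun l => k ≤ l),
          ((2:ℝ) ^ (-(3/7 : ℝ))) ^ (l - k) * X k +
        ∑ k ∈ Finset.range N, ∑ l ∈ (Finset.range N).filter (fun l => k ≤ l),
          ((2:ℝ) ^ (-(3/7 : ℝ))) ^ (l - k) * X l)) := by
    rw [← Finset.sum_add_distrib, Finset.mul_sum, Finset.mul_sum]
    apply Finset.sum_congr rfl
    intro k _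
    rw [← Finset.sum_add_distrib, Finset.mul_sum, Finset.mul_sum]
  rw [h5]
  have h6 : ∑ k ∈ Finset.range N, ∑ l ∈ (Finset.range N).filter (fun l => k ≤ l),
          ((2:ℝ) ^ (-(3/7 : ℝ))) ^ (l - k) * X k ≤ H := by
    have : ∀ k ∈ Finset.range N, ∑ l ∈ (Finset.range N).filter (fun l => k ≤ l),
          ((2:ℝ) ^ (-(3/7 : ℝ))) ^ (l - k) * X k ≤ H * X k := by
      intro k _
      rw [← Finset.sum_mul]
      apply mul_le_mul_of_nonneg_right _ (hX0 k)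
      apply cs_geom_image _ (cs_pos _).le (cs_lt_one _ (by norm_num)) _ (fun l => l - k)
      intro a ha b hb hab
      rw [Finset.mem_coe, Finset.mem_filter] at ha hb
      simp only at hab
      omega
    refine (Finset.sum_le_sum this).trans ?_
    rw [← Finset.mul_sum]
    calc H * ∑ k ∈ Finset.range N, X k ≤ H * 1 := mul_le_mul_of_nonneg_left hsum hHpos.le
      _ = H := mul_one H
  have h7 : ∑ k ∈ Finset.range N, ∑ l ∈ (Finset.range N).filter (fun l => k ≤ l),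
          ((2:ℝ) ^ (-(3/7 : ℝ))) ^ (l - k) * X l ≤ H := by
    have hsw : ∑ k ∈ Finset.range N, ∑ l ∈ (Finset.range N).filter (fun l => k ≤ l),
          ((2:ℝ) ^ (-(3/7 : ℝ))) ^ (l - k) * X l =
        ∑ l ∈ Finset.range N, ∑ k ∈ (Finset.range N).filter (fun k => k ≤ l),
          ((2:ℝ) ^ (-(3/7 : ℝ))) ^ (l - k) * X l := by
      simp only [Finset.sum_filter]
      rw [Finset.sum_comm]
    rw [hsw]
    have : ∀ l ∈ Finset.range N, ∑ k ∈ (Finset.range N).filter (fun k => k ≤ l),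
          ((2:ℝ) ^ (-(3/7 : ℝ))) ^ (l - k) * X l ≤ H * X l := by
      intro l _
      rw [← Finset.sum_mul]
      apply mul_le_mul_of_nonneg_right _ (hX0 l)
      apply cs_geom_image _ (cs_pos _).le (cs_lt_one _ (by norm_num)) _ (fun k => l - k)
      intro a ha b hb hab
      rw [Finset.mem_coe, Finset.mem_filter] at ha hb
      simp only at hab
      omega
    refine (Finset.sum_le_sum this).trans ?_
    rw [← Finset.mul_sum]
    calc H * ∑ k ∈ Finset.range N, X k ≤ H * 1 := mul_le_mul_of_nonneg_left hsum hHpos.le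
      _ = H := mul_one H
  have hC1 : 0 < |C0| + 1 := by positivity
  have h8 : (|C0| + 1) / 2 * (
        ∑ k ∈ Finset.range N, ∑ l ∈ (Finset.range N).filter (fun l => k ≤ l),
          ((2:ℝ) ^ (-(3/7 : ℝ))) ^ (l - k) * X k +
        ∑ k ∈ Finset.range N, ∑ l ∈ (Finset.range N).filter (fun l => k ≤ l),
          ((2:ℝ) ^ (-(3/7 : ℝ))) ^ (l - k) * X l) ≤ (|C0| + 1) * H := by
    have := mul_le_mul_of_nonneg_left (add_le_add h6 h7) (by positivity : 0 ≤ (|C0| + 1) / 2)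
    refine this.trans (le_of_eq ?_)
    ring
  calc _ ≤ G * ((|C0| + 1) * H) := mul_le_mul_of_nonneg_left h8 hGpos.le
    _ = G * (|C0| + 1) * H := by ring

end Pool.Agent.MP_0863b8

end

section

/-!
MP_0863b8_nt: classification of the pairs of overlapping sets.
-/

namespace Pool.Agent.MP_0863b8

open MeasureTheory Filter

theorem classify (h1 : OverlapStmt) (h2 : QminStmt) (h3 : DioStmt) : ClassifyStmt := by
  intro δ ψ x y a b κ Bd hx hy hxy hψx hψx8 hψy hψ ha hb hη ha2 hne hκ haB hbB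
  set g := x.gcd y with hg
  have hg0 : 0 < g := Nat.gcd_pos_of_pos_left _ hx
  have hxa : x = g * a := by rw [ha]; exact (Nat.mul_div_cancel' (Nat.gcd_dvd_left x y)).symm
  have hyb : y = g * b := by rw [hb]; exact (Nat.mul_div_cancel' (Nat.gcd_dvd_right x y)).symm
  have hb0 : 0 < b := by
    rcases Nat.eq_zero_or_pos b with h | h
    · rw [h, mul_zero] at hyb; omega
    · exact h
  have hab : a ≠ b := by
    intro h
    apply hxy
    rw [hxa, hyb, h]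
  set h : ℕ := Int.natAbs ((a:ℤ) - b) with hh
  have hh1 : 1 ≤ h := by
    rw [hh]
    omega
  set τ := tau (ψ x) with hτ
  have hτ0 : 0 < τ := Real.sqrt_pos.2 (by linarith)
  have hτ2 : τ ^ 2 = 2 * ψ x := Real.sq_sqrt (by linarith)
  obtain ⟨-, -, O3, O4⟩ := h1 δ (ψ x) (ψ y) x y a b h (qmin δ τ) (round ((qmin δ τ : ℝ) * δ))
    (qmin δ (tau (ψ y))) (round ((qmin δ (tau (ψ y)) : ℝ) * δ)) hx hy hxy hψx hψy hψ ha hb rfl
  have F1 : nd (h * δ) < 2 * b * ψ x := O3 hη hne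
  have F2 : ¬ (round ((h:ℝ) * δ) * (qmin δ τ : ℤ) = (h:ℤ) * round ((qmin δ τ : ℝ) * δ)) := by
    intro he
    have := O4 hη ha2 he
    have hne' := hne
    unfold BB at hne'
    rw [this] at hne'
    exact Set.not_nonempty_empty hne'
  have hbτ : 2 * b * ψ x = b * τ ^ 2 := by rw [hτ2]; ring
  have hbR : (0 : ℝ) < b := by exact_mod_cast hb0
  have haR : (0 : ℝ) < a := by exact_mod_cast (by omega : 0 < a)
  have hκ0 : 0 < κ := lt_of_lt_of_le (by positivity) hκ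
  have hBd0 : 0 < Bd := haR.trans_le haB
  obtain ⟨Q1, Q2, Q3, Q4⟩ := h2 δ τ hτ0
  obtain ⟨R1, R2, R3, R4⟩ := h2 δ κ hκ0
  have hhab : h < a ∨ h < b := by omega
  rcases lt_or_ge (b : ℝ) (1 / τ) with hbt | hbt
  · have hbt' : b * τ < 1 := by rwa [lt_div_iff₀ hτ0] at hbt
    rcases lt_or_ge (a : ℝ) (1 / τ) with hat | hat
    · -- both small
      have hnd : nd (h * δ) < τ := by
        rw [hbτ] at F1
        nlinarith
      have hhτ : (h : ℝ) < 1 / τ := by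
        rcases hhab with hlt | hlt
        · exact lt_trans (by exact_mod_cast hlt) hat
        · exact lt_trans (by exact_mod_cast hlt) hbt
      rcases h3 δ τ (1 / τ) hτ0 (by positivity) with hd | hd
      · right
        refine ⟨hab, Or.inl ⟨hbt, hat, hnd, ?_⟩⟩
        have e1 : 24 * τ * (1 / τ) = 24 := by field_simp
        rw [e1] at hd
        exact_mod_cast hd
      · exact absurd (hd.2 h hh1 hhτ hnd).2 F2
    · -- b < 1/τ ≤ a
      have hba : b < a := by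
        have : (b : ℝ) < a := hbt.trans_le hat
        exact_mod_cast this
      have hhv : h = a - b := by omega
      have hhBd : (h : ℝ) < Bd := by
        refine lt_of_lt_of_le ?_ haB
        exact_mod_cast (by omega : h < a)
      rcases h3 δ κ Bd hκ0 hBd0 with hd | hd
      · left; exact hd
      · right
        obtain ⟨hd1, hd2⟩ := hd
        obtain ⟨hd3, hd4⟩ := hd2 h hh1 hhBd (F1.trans_le hκ)
        set qs := qmin δ κ with hqs
        set ps : ℤ := round ((qs : ℝ) * δ) with hps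
        have hqsa : qs ≤ a := by
          have := Nat.le_of_dvd (by omega) hd3
          omega
        have hnd : nd (qs * δ) < 1 / (2 * a) := by
          rw [lt_div_iff₀ (by positivity)]
          have : a * nd (qs * δ) ≤ Bd * nd (qs * δ) :=
            mul_le_mul_of_nonneg_right haB (abs_nonneg _)
          linarith
        have h1a : 1 / (2 * (a : ℝ)) ≤ τ / 2 := by
          rw [div_le_div_iff₀ (by positivity) (by norm_num)]
          rw [div_le_iff₀ hτ0] at hat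
          linarith
        refine ⟨hab, Or.inr ⟨hbt, hat, qs, ?_, hqsa, R4, hnd, hd3⟩⟩
        by_contra hcon
        push Not at hcon
        have hqx : qmin δ τ ≤ qs := Q3 qs R1 (by linarith)
        set qx := qmin δ τ with hqx'
        set px : ℤ := round ((qx : ℝ) * δ) with hpx
        have hqs0 : (0 : ℝ) < qs := by exact_mod_cast R1
        have hqxR : (0 : ℝ) < qx := by exact_mod_cast Q1
        have hqxs : (qx : ℝ) ≤ qs := by exact_mod_cast hqx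
        have hcon' : qs * τ ≤ 1 / 2 := by
          rw [le_div_iff₀ (by positivity)] at hcon
          linarith
        have e1 : |((qx : ℝ) * ps - qs * px)| < 1 := by
          have e2 : (qx : ℝ) * ps - qs * px = qs * ((qx : ℝ) * δ - px) -
              qx * ((qs : ℝ) * δ - ps) := by ring
          rw [e2]
          refine lt_of_le_of_lt (abs_sub _ _) ?_
          rw [abs_mul, abs_mul, abs_of_pos hqs0, abs_of_pos hqxR]
          have e3 : |(qx : ℝ) * δ - px| < τ := Q2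
          have e4 : |(qs : ℝ) * δ - ps| < 1 / (2 * a) := hnd
          have e5 : qs * |(qx : ℝ) * δ - px| ≤ qs * τ :=
            mul_le_mul_of_nonneg_left e3.le hqs0.le
          have e6 : qx * |(qs : ℝ) * δ - ps| ≤ qs * (τ / 2) :=
            mul_le_mul hqxs (e4.le.trans h1a) (abs_nonneg _) hqs0.le
          linarith
        have e2 : (qx : ℤ) * ps - qs * px = 0 := by
          have : |(qx : ℤ) * ps - qs * px| < 1 := by exact_mod_cast e1
          exact Int.abs_lt_one_iff.1 this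
        apply F2
        have hqsZ : (qs : ℤ) ≠ 0 := by exact_mod_cast (by omega : qs ≠ 0)
        apply mul_left_cancel₀ hqsZ
        linear_combination (qx : ℤ) * hd4 + (h : ℤ) * e2
  · -- b ≥ 1/τ
    have hbt' : 1 ≤ b * τ := by rwa [div_le_iff₀ hτ0] at hbt
    have hκτ : τ ≤ κ := by
      refine le_trans ?_ hκ
      rw [hbτ]
      nlinarith
    have hhBd : (h : ℝ) < Bd := by
      rcases hhab with hlt | hlt
      · exact lt_of_lt_of_le (by exact_mod_cast hlt) haB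
      · exact lt_of_lt_of_le (by exact_mod_cast hlt) hbB
    rcases h3 δ κ Bd hκ0 hBd0 with hd | hd
    · left; exact hd
    · exfalso
      obtain ⟨hd1, hd2⟩ := hd
      obtain ⟨hd3, hd4⟩ := hd2 h hh1 hhBd (F1.trans_le hκ)
      have hnd : nd (qmin δ κ * δ) < τ := by
        have e1 : b * nd (qmin δ κ * δ) ≤ Bd * nd (qmin δ κ * δ) :=
          mul_le_mul_of_nonneg_right hbB (abs_nonneg _)
        have e2 : b * nd (qmin δ κ * δ) < b * τ := by linarith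
        exact lt_of_mul_lt_mul_left e2 hbR.le
      have e1 : qmin δ τ ≤ qmin δ κ := Q3 _ R1 hnd
      have e2 : qmin δ κ ≤ qmin δ τ := R3 _ Q1 (Q2.trans_le hκτ)
      have e3 : qmin δ κ = qmin δ τ := le_antisymm e2 e1
      rw [e3] at hd4
      exact F2 hd4

end Pool.Agent.MP_0863b8

end

section

/-!
MP_0863b8_nt: corollaries of the main theorem.
-/

namespace Pool.Agent.MP_0863b8

open MeasureTheory Filter

theorem mass_nonneg {Φ : ℕ → ℝ} (hΦ : ∀ n, 0 ≤ Φ n) (k : ℤ) (s : ℕ) : 0 ≤ mass Φ k s := by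
  unfold mass
  exact Finset.sum_nonneg fun n _ => hΦ n

theorem exists_of_mass_ne_zero {Φ : ℕ → ℝ} {k : ℤ} {s : ℕ} (h : mass Φ k s ≠ 0) :
    ∃ n : ℕ, 2 ^ s ≤ n ∧ n < 2 ^ (s + 1) ∧ (1/2 : ℝ) ^ (k + 1) * n < Φ n ∧
      Φ n ≤ (1/2 : ℝ) ^ k * n ∧ 0 < Φ n ∧ 0 < n := by
  unfold mass at h
  obtain ⟨n, hn, _⟩ := Finset.exists_ne_zero_of_sum_ne_zero h
  rw [Finset.mem_filter, Finset.mem_Ico] at hn
  obtain ⟨⟨h1, h2⟩, h3, h4⟩ := hn
  have hn0 : 0 < n := lt_of_lt_of_le (by positivity) h1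
  have hnR : (0 : ℝ) < n := by exact_mod_cast hn0
  rw [lt_div_iff₀ hnR] at h3
  rw [div_le_iff₀ hnR] at h4
  refine ⟨n, h1, h2, h3, h4, lt_trans (by positivity) h3, hn0⟩

theorem spread_of_gap {Φ : ℕ → ℝ} (hΦ : ∀ n, 0 ≤ Φ n) (M : ℕ)
    (h : ∀ (k : ℤ) (s t : ℕ), s < t → mass Φ k s ≠ 0 → mass Φ k t ≠ 0 → t ≤ s + M) :
    Spread Φ := by
  classical
  refine ⟨(M : ℝ) + 1, fun k T => ?_⟩
  set T' := T.filter (fun s => mass Φ k s ≠ 0) with hT'
  have h1 : ∑ s ∈ T, (min 1 (mass Φ k s)) ^ ((1:ℝ)/7) =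
      ∑ s ∈ T', (min 1 (mass Φ k s)) ^ ((1:ℝ)/7) := by
    rw [hT', Finset.sum_filter]
    refine Finset.sum_congr rfl fun s _ => ?_
    split_ifs with hs
    · rfl
    · push Not at hs
      rw [hs, min_eq_right zero_le_one, Real.zero_rpow (by norm_num)]
  rw [h1]
  have h2 : ∑ s ∈ T', (min 1 (mass Φ k s)) ^ ((1:ℝ)/7) ≤ ∑ s ∈ T', (1 : ℝ) := by
    refine Finset.sum_le_sum fun s _ => ?_
    exact Real.rpow_le_one (le_min zero_le_one (mass_nonneg hΦ k s)) (min_le_left _ _)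
      (by norm_num)
  refine h2.trans ?_
  rw [Finset.sum_const, nsmul_eq_mul, mul_one]
  rcases T'.eq_empty_or_nonempty with he | he
  · rw [he, Finset.card_empty]
    push_cast
    positivity
  · set a := T'.min' he with ha
    have hsub : T' ⊆ Finset.Icc a (a + M) := by
      intro s hs
      rw [Finset.mem_Icc]
      have h3 : a ≤ s := Finset.min'_le _ _ hs
      refine ⟨h3, ?_⟩
      rcases h3.eq_or_lt with h4 | h4
      · omega
      · have ha' := Finset.min'_mem T' he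
        rw [← ha, hT', Finset.mem_filter] at ha'
        rw [hT', Finset.mem_filter] at hs
        exact h k a s h4 ha'.2 hs.2
    have h3 := Finset.card_le_card hsub
    rw [Nat.card_Icc] at h3
    have h4 : T'.card ≤ M + 1 := by omega
    exact_mod_cast h4

theorem cor_mono (h : MainStmt) : CorMonoStmt := by
  intro δ Φ ψ hΦ hψ hor h1 h2
  refine h δ Φ hΦ h1 h2 (spread_of_gap hΦ 1 ?_)
  intro k s t hst hs ht
  obtain ⟨m, a1, a2, a3, a4, a5, a6⟩ := exists_of_mass_ne_zero hs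
  obtain ⟨n, b1, b2, b3, b4, b5, b6⟩ := exists_of_mass_ne_zero ht
  have hmn : m ≤ n := by
    have : 2 ^ (s + 1) ≤ 2 ^ t := Nat.pow_le_pow_right (by norm_num) hst
    omega
  have e1 : Φ m = ψ m := by
    rcases hor m a6 with g | g
    · linarith
    · exact g
  have e2 : Φ n = ψ n := by
    rcases hor n b6 with g | g
    · linarith
    · exact g
  have e3 := hψ m n a6 hmn
  have e4 : (1/2 : ℝ) ^ (k + 1) = (1/2) ^ k * (1/2) := zpow_add_one₀ (by norm_num) k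
  have e5 : (0 : ℝ) < (1/2) ^ k := by positivity
  have e6 : (n : ℝ) < 2 * m := by
    rw [e4] at b3
    by_contra hcon
    push Not at hcon
    have : (1/2 : ℝ) ^ k * (2 * m) ≤ (1/2 : ℝ) ^ k * n := mul_le_mul_of_nonneg_left hcon e5.le
    linarith
  have e7 : n < 2 * m := by exact_mod_cast e6
  have e8 : 2 ^ t < 2 ^ (s + 2) := by
    have : 2 ^ (s + 2) = 2 * 2 ^ (s + 1) := by ring
    omega
  have := (Nat.pow_lt_pow_iff_right (by norm_num : 1 < 2)).1 e8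
  omega

theorem cor_reg (h : MainStmt) : CorRegStmt := by
  intro δ Φ κ C hΦ hκ hreg h1 h2
  -- the bound for the ratio
  obtain ⟨M, hM⟩ : ∃ M : ℕ, 2 * (2 * |C|) ^ (1 / κ) ≤ (2 : ℝ) ^ M :=
    (pow_unbounded_of_one_lt _ (by norm_num : (1:ℝ) < 2)).imp fun _ h => h.le
  refine h δ Φ hΦ h1 h2 (spread_of_gap hΦ M ?_)
  intro k s t hst hs ht
  obtain ⟨m, a1, a2, a3, a4, a5, a6⟩ := exists_of_mass_ne_zero hs
  obtain ⟨n, b1, b2, b3, b4, b5, b6⟩ := exists_of_mass_ne_zero ht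
  have hmn : m < n := by
    have : 2 ^ (s + 1) ≤ 2 ^ t := Nat.pow_le_pow_right (by norm_num) hst
    omega
  have e3 := hreg m n a6 hmn a5 b5
  have e4 : (1/2 : ℝ) ^ (k + 1) = (1/2) ^ k * (1/2) := zpow_add_one₀ (by norm_num) k
  have e5 : (0 : ℝ) < (1/2) ^ k := by positivity
  have hm0 : (0 : ℝ) < m := by exact_mod_cast a6
  have hn0 : (0 : ℝ) < n := by exact_mod_cast b6
  set R : ℝ := (n : ℝ) / m with hR
  have hR0 : 0 < R := by positivity
  have e6 : R ^ (1 - κ) = R * R ^ (-κ) := by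
    rw [sub_eq_add_neg, Real.rpow_add hR0, Real.rpow_one]
  have e7 : R ^ κ < 2 * |C| := by
    have hRk : 0 < R ^ κ := Real.rpow_pos_of_pos hR0 _
    have g1 : C * R ^ (1 - κ) * Φ m ≤ |C| * R ^ (1 - κ) * ((1/2 : ℝ) ^ k * m) := by
      refine mul_le_mul (mul_le_mul_of_nonneg_right (le_abs_self C) (by positivity)) a4 a5.le
        (by positivity)
    have g2 : (1/2 : ℝ) ^ k * (1/2) * n < |C| * R ^ (1 - κ) * ((1/2 : ℝ) ^ k * m) := by
      rw [← e4]
      linarith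
    have g3 : (n : ℝ) = R * m := by rw [hR]; field_simp
    rw [e6, g3, Real.rpow_neg hR0.le] at g2
    have g4 : (1/2 : ℝ) ^ k * (1/2) * (R * m) = ((1/2 : ℝ) ^ k * R * m) * (1 / 2) := by ring
    have g5 : |C| * (R * (R ^ κ)⁻¹) * ((1/2 : ℝ) ^ k * m) =
        ((1/2 : ℝ) ^ k * R * m) * (|C| * (R ^ κ)⁻¹) := by ring
    rw [g4, g5] at g2
    have g6 := lt_of_mul_lt_mul_left g2 (by positivity)
    rw [← div_eq_mul_inv, lt_div_iff₀ hRk] at g6
    linarith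
  have e8 : R < (2 * |C|) ^ (1 / κ) := by
    have g1 : R = (R ^ κ) ^ (1 / κ) := by
      rw [← Real.rpow_mul hR0.le, mul_one_div_cancel hκ.ne', Real.rpow_one]
    rw [g1]
    exact Real.rpow_lt_rpow (by positivity) e7 (by positivity)
  have e9 : (n : ℝ) < 2 ^ M / 2 * m := by
    have : R < 2 ^ M / 2 := by linarith
    rwa [hR, div_lt_iff₀ hm0] at this
  have e10 : (2 : ℝ) ^ t < 2 ^ (s + M) := by
    have g1 : (2 : ℝ) ^ t ≤ n := by exact_mod_cast b1
    have g2 : (m : ℝ) < 2 ^ (s + 1) := by exact_mod_cast a2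
    have g3 : (2 : ℝ) ^ M / 2 * m < 2 ^ M / 2 * 2 ^ (s + 1) :=
      mul_lt_mul_of_pos_left g2 (by positivity)
    have g4 : (2 : ℝ) ^ M / 2 * 2 ^ (s + 1) = 2 ^ (s + M) := by
      rw [pow_add, pow_add]; ring
    linarith
  have e11 : t < s + M := (pow_lt_pow_iff_right₀ (by norm_num)).1 e10
  omega

theorem cor_inv (h : MainStmt) : CorInvStmt := by
  intro δ Φ C hΦ hC h1 h2
  refine h δ Φ hΦ h1 h2 ?_
  classical
  obtain ⟨M, hM⟩ : ∃ M : ℕ, 2 * C ≤ (2 : ℝ) ^ M :=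
    (pow_unbounded_of_one_lt _ (by norm_num : (1:ℝ) < 2)).imp fun _ h => h.le
  set r : ℝ := (2 : ℝ) ^ (-(1:ℝ)/7) with hr
  have hr0 : 0 < r := by positivity
  have hr1 : r < 1 := Real.rpow_lt_one_of_one_lt_of_neg (by norm_num) (by norm_num)
  refine ⟨(2 : ℝ) ^ ((M : ℝ) / 7) * (1 - r)⁻¹, fun k T => ?_⟩
  set T' := T.filter (fun s => mass Φ k s ≠ 0) with hT'
  have h3 : ∑ s ∈ T, (min 1 (mass Φ k s)) ^ ((1:ℝ)/7) =
      ∑ s ∈ T', (min 1 (mass Φ k s)) ^ ((1:ℝ)/7) := by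
    rw [hT', Finset.sum_filter]
    refine Finset.sum_congr rfl fun s _ => ?_
    split_ifs with hs
    · rfl
    · push Not at hs
      rw [hs, min_eq_right zero_le_one, Real.zero_rpow (by norm_num)]
  rw [h3]
  -- nonzero mass forces 2 s < k + M
  have hlt : ∀ s ∈ T', 2 * (s : ℤ) < k + M := by
    intro s hs
    rw [hT', Finset.mem_filter] at hs
    obtain ⟨n, a1, a2, a3, a4, a5, a6⟩ := exists_of_mass_ne_zero hs.2
    have hn0 : (0 : ℝ) < n := by exact_mod_cast a6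
    have e1 : Φ n * n ≤ C := by
      have := hC n a6
      rwa [le_div_iff₀ hn0] at this
    have e2 : (1/2 : ℝ) ^ (k + 1) = (1/2) ^ k * (1/2) := zpow_add_one₀ (by norm_num) k
    have e3 : (2 : ℝ) ^ s ≤ n := by exact_mod_cast a1
    have e4 : (1/2 : ℝ) ^ k * (1/2) * (2 ^ s * 2 ^ s) < C := by
      have g1 : (1/2 : ℝ) ^ k * (1/2) * (2 ^ s * 2 ^ s) ≤ (1/2 : ℝ) ^ (k+1) * n * n := by
        rw [e2, mul_assoc _ (n : ℝ) n]
        refine mul_le_mul_of_nonneg_left ?_ (by positivity)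
        exact mul_le_mul e3 e3 (by positivity) hn0.le
      have g2 : (1/2 : ℝ) ^ (k+1) * n * n < Φ n * n := mul_lt_mul_of_pos_right a3 hn0
      linarith
    have e5 : (2 : ℝ) ^ (2 * (s : ℤ) - k) < 2 ^ (M : ℤ) := by
      have g1 : (2 : ℝ) ^ (2 * (s : ℤ) - k) = (1/2 : ℝ) ^ k * (2 ^ s * 2 ^ s) := by
        rw [zpow_sub₀ (by norm_num : (2:ℝ) ≠ 0), two_mul, zpow_add₀ (by norm_num : (2:ℝ) ≠ 0),
          zpow_natCast, one_div, inv_zpow]
        field_simp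
      rw [g1, zpow_natCast]
      linarith
    have := (zpow_lt_zpow_iff_right₀ (by norm_num : (1:ℝ) < 2)).1 e5
    omega
  -- bound for the mass
  have hmass : ∀ s, mass Φ k s ≤ (2 : ℝ) ^ (2 * (s : ℤ) + 1 - k) := by
    intro s
    unfold mass
    calc _ ≤ ∑ n ∈ (Finset.Ico (2 ^ s) (2 ^ (s + 1))).filter
            (fun n : ℕ => (1/2 : ℝ) ^ (k + 1) < Φ n / n ∧ Φ n / n ≤ (1/2 : ℝ) ^ k),
            ((1/2 : ℝ) ^ k * 2 ^ (s + 1)) := by
          refine Finset.sum_le_sum fun n hn => ?_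
          rw [Finset.mem_filter, Finset.mem_Ico] at hn
          obtain ⟨⟨h1, h2⟩, h3, h4⟩ := hn
          have hn0 : 0 < n := lt_of_lt_of_le (by positivity) h1
          have hnR : (0 : ℝ) < n := by exact_mod_cast hn0
          rw [div_le_iff₀ hnR] at h4
          refine h4.trans (mul_le_mul_of_nonneg_left ?_ (by positivity))
          exact_mod_cast h2.le
      _ ≤ (2 : ℝ) ^ s * ((1/2 : ℝ) ^ k * 2 ^ (s + 1)) := by
          rw [Finset.sum_const, nsmul_eq_mul]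
          refine mul_le_mul_of_nonneg_right ?_ (by positivity)
          have g1 := Finset.card_filter_le (Finset.Ico (2 ^ s) (2 ^ (s + 1)))
            (fun n : ℕ => (1/2 : ℝ) ^ (k + 1) < Φ n / n ∧ Φ n / n ≤ (1/2 : ℝ) ^ k)
          rw [Nat.card_Ico] at g1
          have g2 : 2 ^ (s + 1) - 2 ^ s = 2 ^ s := by
            rw [pow_succ]; omega
          rw [g2] at g1
          exact_mod_cast g1
      _ = (2 : ℝ) ^ (2 * (s : ℤ) + 1 - k) := by
          rw [zpow_sub₀ (by norm_num : (2:ℝ) ≠ 0), zpow_add₀ (by norm_num : (2:ℝ) ≠ 0), two_mul,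
            zpow_add₀ (by norm_num : (2:ℝ) ≠ 0), zpow_natCast, zpow_one, one_div, inv_zpow]
          ring
  set u : ℕ → ℕ := fun s => (k + M - 1 - 2 * (s : ℤ)).toNat with hu
  have hterm : ∀ s ∈ T', (min 1 (mass Φ k s)) ^ ((1:ℝ)/7) ≤ (2 : ℝ) ^ ((M : ℝ) / 7) * r ^ (u s) := by
    intro s hs
    have e1 : (min 1 (mass Φ k s)) ^ ((1:ℝ)/7) ≤ ((2 : ℝ) ^ (2 * (s : ℤ) + 1 - k)) ^ ((1:ℝ)/7) :=
      Real.rpow_le_rpow (le_min zero_le_one (mass_nonneg hΦ k s))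
        ((min_le_right _ _).trans (hmass s)) (by norm_num)
    refine e1.trans (le_of_eq ?_)
    have e2 : ((u s : ℕ) : ℝ) = (k : ℝ) + M - 1 - 2 * s := by
      have := hlt s hs
      have g1 : ((u s : ℕ) : ℤ) = k + M - 1 - 2 * (s : ℤ) := by
        simp only [hu]
        rw [Int.toNat_of_nonneg (by omega)]
      exact_mod_cast g1
    rw [hr, ← Real.rpow_natCast, ← Real.rpow_intCast, ← Real.rpow_mul (by norm_num),
      ← Real.rpow_mul (by norm_num), ← Real.rpow_add (by norm_num), e2]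
    congr 1
    push_cast
    ring
  have hinj : Set.InjOn u T' := by
    intro s hs t ht hst
    have g1 := hlt s hs
    have g2 := hlt t ht
    simp only [hu] at hst
    omega
  calc ∑ s ∈ T', (min 1 (mass Φ k s)) ^ ((1:ℝ)/7) ≤
        ∑ s ∈ T', (2 : ℝ) ^ ((M : ℝ) / 7) * r ^ (u s) := Finset.sum_le_sum hterm
    _ = (2 : ℝ) ^ ((M : ℝ) / 7) * ∑ s ∈ T', r ^ (u s) := by rw [Finset.mul_sum]
    _ = (2 : ℝ) ^ ((M : ℝ) / 7) * ∑ j ∈ T'.image u, r ^ j := by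
        rw [Finset.sum_image hinj]
    _ ≤ (2 : ℝ) ^ ((M : ℝ) / 7) * (1 - r)⁻¹ := by
        refine mul_le_mul_of_nonneg_left ?_ (by positivity)
        rw [← tsum_geometric_of_lt_one hr0.le hr1]
        exact (summable_geometric_of_lt_one hr0.le hr1).sum_le_tsum _ fun j _ => by positivity

end Pool.Agent.MP_0863b8

end

section

/-!
MP_0863b8_nt: the least `q` with `nd (q δ) < κ` and the Diophantine dichotomy.
-/

namespace Pool.Agent.MP_0863b8

open MeasureTheory Filter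

theorem nd_nonneg (x : ℝ) : 0 ≤ nd x := abs_nonneg _

theorem nd_le (x : ℝ) (m : ℤ) : nd x ≤ |x - m| := round_le x m

theorem nd_neg_le (x : ℝ) : nd (-x) ≤ nd x := by
  have h := nd_le (-x) (-(round x))
  have h2 : |-x - ((-(round x) : ℤ) : ℝ)| = |x - round x| := by
    push_cast
    rw [← abs_neg]
    congr 1
    ring
  rw [h2] at h
  exact h

theorem nd_neg (x : ℝ) : nd (-x) = nd x := by
  refine le_antisymm (nd_neg_le x) ?_
  have := nd_neg_le (-x)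
  rwa [neg_neg] at this

theorem qmin_spec : QminStmt := by
  intro δ κ hκ
  have hne : {q : ℕ | 1 ≤ q ∧ nd (q * δ) < κ}.Nonempty := by
    obtain ⟨n, hn⟩ := exists_nat_gt (1 / κ)
    have hn0 : 0 < n := by
      have h1 : 0 < 1 / κ := by positivity
      have h2 : (0 : ℝ) < n := h1.trans hn
      exact_mod_cast h2
    obtain ⟨k, hk0, _, hk⟩ := Real.exists_nat_abs_mul_sub_round_le δ hn0
    refine ⟨k, hk0, lt_of_le_of_lt hk ?_⟩
    rw [div_lt_iff₀ (by positivity)]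
    rw [div_lt_iff₀ hκ] at hn
    nlinarith
  have hmem := Nat.sInf_mem hne
  have h1 : 1 ≤ qmin δ κ := hmem.1
  have h2 : nd (qmin δ κ * δ) < κ := hmem.2
  have h3 : ∀ q : ℕ, 1 ≤ q → nd (q * δ) < κ → qmin δ κ ≤ q := fun q hq hq' =>
    Nat.sInf_le ⟨hq, hq'⟩
  refine ⟨h1, h2, h3, ?_⟩
  set q := qmin δ κ with hq
  set p : ℤ := round ((q : ℝ) * δ) with hp
  set d : ℕ := Int.gcd q p with hd
  have hd0 : 0 < d := Int.gcd_pos_of_ne_zero_left _ (by exact_mod_cast (by omega : q ≠ 0))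
  by_contra hd1
  have hd2 : 2 ≤ d := by omega
  have hdq : (d : ℤ) ∣ (q : ℤ) := Int.gcd_dvd_left _ _
  have hdp : (d : ℤ) ∣ p := Int.gcd_dvd_right _ _
  obtain ⟨q', hq'⟩ := Int.natCast_dvd_natCast.1 hdq
  obtain ⟨p', hp'⟩ := hdp
  have hq'1 : 1 ≤ q' := by
    rcases Nat.eq_zero_or_pos q' with h | h
    · rw [h] at hq'; omega
    · exact h
  have h4 : (d : ℝ) * |(q' : ℝ) * δ - p'| = nd (q * δ) := by
    unfold nd
    rw [← hp, hp', hq']
    push_cast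
    rw [← abs_of_nonneg (by positivity : (0 : ℝ) ≤ d), ← abs_mul,
      abs_of_nonneg (by positivity : (0 : ℝ) ≤ d)]
    congr 1
    ring
  have h5 : |(q' : ℝ) * δ - p'| ≤ nd (q * δ) := by
    rw [← h4]
    have : (1 : ℝ) ≤ d := by exact_mod_cast hd0
    nlinarith [abs_nonneg ((q' : ℝ) * δ - p')]
  have h6 := h3 q' hq'1 (((nd_le _ p').trans h5).trans_lt h2)
  have h7 : q' < q := by rw [hq']; nlinarith
  omega

theorem dio : DioStmt := by
  classical
  intro δ κ B hκ hB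
  obtain ⟨hq1, hqk, hqmin, hqp⟩ := qmin_spec δ κ hκ
  set q := qmin δ κ with hq
  set p : ℤ := round ((q : ℝ) * δ) with hp
  set H := (Finset.Icc 1 ⌊B⌋₊).filter (fun h : ℕ => (h:ℝ) < B ∧ nd (h * δ) < κ) with hH
  have hHc : hcount δ κ B = H.card := by
    unfold hcount
    rw [hH]
  have hq0 : (0 : ℝ) < q := by exact_mod_cast hq1
  have hHmem : ∀ h ∈ H, 1 ≤ h ∧ (h : ℝ) < B ∧ nd (h * δ) < κ := by
    intro h hh
    rw [hH, Finset.mem_filter, Finset.mem_Icc] at hh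
    exact ⟨hh.1.1, hh.2.1, hh.2.2⟩
  rcases le_or_gt 1 (4 * κ * q) with hc | hc
  · -- large q
    left
    set f : ℕ → ℕ × Bool := fun h => (h / q, decide (0 ≤ (h : ℝ) * δ - round ((h : ℝ) * δ)))
      with hf
    have hmaps : ∀ h ∈ H, f h ∈ Finset.Icc 1 ⌊B / q⌋₊ ×ˢ (Finset.univ : Finset Bool) := by
      intro h hh
      obtain ⟨a1, a2, a3⟩ := hHmem h hh
      have a4 := hqmin h a1 a3
      rw [Finset.mem_product]
      refine ⟨?_, Finset.mem_univ _⟩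
      rw [Finset.mem_Icc]
      refine ⟨(Nat.one_le_div_iff (by omega)).2 a4, Nat.le_floor ?_⟩
      calc ((h / q : ℕ) : ℝ) ≤ (h : ℝ) / q := Nat.cast_div_le
        _ ≤ B / q := by gcongr
    have hinj : Set.InjOn f H := by
      intro h hh h' hh' heq
      by_contra hne
      obtain ⟨a1, a2, a3⟩ := hHmem h hh
      obtain ⟨b1, b2, b3⟩ := hHmem h' hh'
      simp only [hf, Prod.mk.injEq, decide_eq_decide] at heq
      -- wlog
      have key : ∀ u v : ℕ, u < v → u / q = v / q →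
          |((v : ℝ) * δ - round ((v : ℝ) * δ)) - ((u : ℝ) * δ - round ((u : ℝ) * δ))| < κ →
          False := by
        intro u v huv hw hlt
        have e1 : v - u < q := by
          have h1 := Nat.div_add_mod u q
          have h2 := Nat.div_add_mod v q
          have h3 := Nat.mod_lt v (show q > 0 by omega)
          rw [hw] at h1
          omega
        have e2 : nd (((v - u : ℕ) : ℝ) * δ) < κ := by
          refine lt_of_le_of_lt (nd_le _ (round ((v : ℝ) * δ) - round ((u : ℝ) * δ))) ?_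
          refine lt_of_eq_of_lt ?_ hlt
          rw [Nat.cast_sub huv.le]
          push_cast
          congr 1
          ring
        have := hqmin (v - u) (by omega) e2
        omega
      have hlt : |((h : ℝ) * δ - round ((h : ℝ) * δ)) - ((h' : ℝ) * δ - round ((h' : ℝ) * δ))| < κ := by
        unfold nd at a3 b3
        rw [abs_lt] at a3 b3 ⊢
        rcases le_or_gt 0 ((h : ℝ) * δ - round ((h : ℝ) * δ)) with g1 | g1
        · have g2 := heq.2.1 g1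
          constructor <;> linarith
        · have g2 : ¬ (0 ≤ (h' : ℝ) * δ - round ((h' : ℝ) * δ)) := fun g => by
            have := heq.2.2 g
            linarith
          push Not at g2
          constructor <;> linarith
      rcases lt_or_gt_of_ne hne with g | g
      · refine key h h' g heq.1 ?_
        rw [abs_sub_comm]
        exact hlt
      · exact key h' h g heq.1.symm hlt
    have hcard := Finset.card_le_card_of_injOn f hmaps hinj
    rw [Finset.card_product, Nat.card_Icc, Finset.card_univ, Fintype.card_bool] at hcard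
    rw [hHc]
    have h1 : (H.card : ℝ) ≤ (⌊B / q⌋₊ : ℝ) * 2 := by
      have : H.card ≤ ⌊B / q⌋₊ * 2 := by simpa using hcard
      exact_mod_cast this
    have h2 : (⌊B / q⌋₊ : ℝ) ≤ B / q := Nat.floor_le (by positivity)
    have h3 : B / q ≤ 4 * κ * B := by
      rw [div_le_iff₀ hq0]
      nlinarith
    nlinarith [mul_pos hκ hB]
  · -- small q
    set θs : ℝ := q * δ - p with hθs
    have hθκ : |θs| < κ := hqk
    obtain ⟨σ, hσ, hσ1⟩ : ∃ σ : ℤ, (σ : ℝ) * θs = |θs| ∧ (σ = 1 ∨ σ = -1) := by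
      rcases le_total 0 θs with g | g
      · exact ⟨1, by rw [abs_of_nonneg g]; simp, Or.inl rfl⟩
      · exact ⟨-1, by rw [abs_of_nonpos g]; simp, Or.inr rfl⟩
    set z : ℕ → ℤ := fun h => round ((h : ℝ) * δ) * q - h * p with hz
    have hzb : ∀ h ∈ H, |(z h : ℝ) - h * θs| < q * κ := by
      intro h hh
      obtain ⟨a1, a2, a3⟩ := hHmem h hh
      have e1 : (z h : ℝ) - h * θs = - (q * ((h : ℝ) * δ - round ((h : ℝ) * δ))) := by
        simp only [hz, hθs]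
        push_cast
        ring
      rw [e1, abs_neg, abs_mul, abs_of_pos hq0]
      exact mul_lt_mul_of_pos_left a3 hq0
    rcases lt_or_ge (B * |θs|) (1 / 2) with hs | hs
    · right
      refine ⟨hs, ?_⟩
      intro h a1 a2 a3
      have hh : h ∈ H := by
        rw [hH, Finset.mem_filter, Finset.mem_Icc]
        exact ⟨⟨a1, Nat.le_floor a2.le⟩, a2, a3⟩
      have e1 := hzb h hh
      have e2 : |(z h : ℝ)| < 1 := by
        have e3 : |(z h : ℝ)| ≤ |(z h : ℝ) - h * θs| + |(h : ℝ) * θs| := by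
          have := abs_add_le ((z h : ℝ) - h * θs) ((h : ℝ) * θs)
          rwa [sub_add_cancel] at this
        have e4 : |(h : ℝ) * θs| ≤ B * |θs| := by
          rw [abs_mul, abs_of_nonneg (by positivity : (0 : ℝ) ≤ h)]
          exact mul_le_mul_of_nonneg_right a2.le (abs_nonneg _)
        linarith
      have e3 : z h = 0 := by
        have : |z h| < 1 := by exact_mod_cast e2
        exact Int.abs_lt_one_iff.1 this
      have e4 : round ((h : ℝ) * δ) * (q : ℤ) = (h : ℤ) * p := by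
        simp only [hz] at e3
        linarith
      refine ⟨?_, e4⟩
      have e5 : (q : ℤ) ∣ (h : ℤ) * p := ⟨round ((h : ℝ) * δ), by rw [← e4, mul_comm]⟩
      have e6 : IsCoprime (q : ℤ) p := Int.isCoprime_iff_gcd_eq_one.2 hqp
      exact Int.natCast_dvd_natCast.1 (e6.dvd_of_dvd_mul_right e5)
    · left
      have hθ0 : 0 < |θs| := by
        rcases (abs_nonneg θs).eq_or_lt with g | g
        · rw [← g] at hs
          norm_num at hs
        · exact g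
      set θ := |θs| with hθ
      have hY : ∀ h ∈ H, |((σ * z h : ℤ) : ℝ) - h * θ| < q * κ := by
        intro h hh
        have e1 := hzb h hh
        have e2 : ((σ * z h : ℤ) : ℝ) - h * θ = σ * ((z h : ℝ) - h * θs) := by
          rw [← hσ]; push_cast; ring
        rw [e2, abs_mul]
        have e3 : |(σ : ℝ)| = 1 := by
          rcases hσ1 with g | g <;> simp [g]
        rw [e3, one_mul]
        exact e1
      set f : ℕ → ℤ × ℤ := fun h =>
        (σ * z h, ⌊((h : ℝ) * θ - ((σ * z h : ℤ) : ℝ) + q * κ) / (q * θ)⌋) with hf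
      have hqk4 : q * κ < 1 / 4 := by linarith
      have hmaps : ∀ h ∈ H, f h ∈ Finset.Icc (0 : ℤ) ⌊B * θ + 1 / 4⌋ ×ˢ
          Finset.Icc (0 : ℤ) ⌊2 * κ / θ⌋ := by
        intro h hh
        obtain ⟨a1, a2, a3⟩ := hHmem h hh
        have e1 := abs_lt.1 (hY h hh)
        have e2 : (0 : ℝ) ≤ h * θ := by positivity
        have e3 : (h : ℝ) * θ ≤ B * θ := mul_le_mul_of_nonneg_right a2.le hθ0.le
        rw [Finset.mem_product, Finset.mem_Icc, Finset.mem_Icc]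
        refine ⟨⟨?_, ?_⟩, ⟨?_, ?_⟩⟩
        · have : ((-1 : ℤ) : ℝ) < ((σ * z h : ℤ) : ℝ) := by
            push_cast at e1 ⊢
            linarith
          have := Int.cast_lt.1 this
          simp only [hf]
          omega
        · simp only [hf]
          refine Int.le_floor.2 ?_
          linarith
        · simp only [hf]
          refine Int.floor_nonneg.2 (div_nonneg ?_ (by positivity))
          linarith
        · simp only [hf]
          refine Int.floor_le_floor ?_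
          rw [div_le_div_iff₀ (by positivity) hθ0]
          nlinarith
      have hinj : Set.InjOn f H := by
        intro h hh h' hh' heq
        simp only [hf, Prod.mk.injEq] at heq
        obtain ⟨g1, g2⟩ := heq
        have g3 : z h = z h' := by
          rcases hσ1 with g | g
          · simpa [g] using g1
          · simpa [g] using g1
        have g4 : (q : ℤ) ∣ ((h : ℤ) - h') * p := by
          refine ⟨round ((h : ℝ) * δ) - round ((h' : ℝ) * δ), ?_⟩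
          simp only [hz] at g3
          linear_combination -g3
        have e6 : IsCoprime (q : ℤ) p := Int.isCoprime_iff_gcd_eq_one.2 hqp
        obtain ⟨w, hw⟩ := e6.dvd_of_dvd_mul_right g4
        rw [g1] at g2
        have g5 := Int.abs_sub_lt_one_of_floor_eq_floor g2
        have g6 : ((h : ℝ) * θ - ((σ * z h' : ℤ) : ℝ) + q * κ) / (q * θ) -
            ((h' : ℝ) * θ - ((σ * z h' : ℤ) : ℝ) + q * κ) / (q * θ) = w := by
          have : (h : ℝ) - h' = q * w := by exact_mod_cast hw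
          field_simp
          linear_combination θ * this
        rw [g6] at g5
        have g7 : |w| < 1 := by exact_mod_cast g5
        have g8 := Int.abs_lt_one_iff.1 g7
        rw [g8, mul_zero, sub_eq_zero] at hw
        exact_mod_cast hw
      have hcard := Finset.card_le_card_of_injOn f hmaps hinj
      rw [Finset.card_product, Int.card_Icc, Int.card_Icc] at hcard
      rw [hHc]
      have h1 : ((⌊B * θ + 1 / 4⌋ + 1 - 0).toNat : ℝ) ≤ 7 / 2 * (B * θ) := by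
        have e1 : (0 : ℤ) ≤ ⌊B * θ + 1 / 4⌋ := Int.floor_nonneg.2 (by positivity)
        have e2 : (((⌊B * θ + 1 / 4⌋ + 1 - 0).toNat : ℤ) : ℝ) = ⌊B * θ + 1 / 4⌋ + 1 := by
          rw [Int.toNat_of_nonneg (by omega)]
          push_cast
          ring
        have e3 := Int.floor_le (B * θ + 1 / 4)
        have e4 : ((⌊B * θ + 1 / 4⌋ + 1 - 0).toNat : ℝ) = ⌊B * θ + 1 / 4⌋ + 1 := by
          rw [← e2]; norm_cast
        rw [e4]
        linarith
      have h2 : ((⌊2 * κ / θ⌋ + 1 - 0).toNat : ℝ) ≤ 3 * (κ / θ) := by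
        have e1 : (0 : ℤ) ≤ ⌊2 * κ / θ⌋ := Int.floor_nonneg.2 (by positivity)
        have e2 : (((⌊2 * κ / θ⌋ + 1 - 0).toNat : ℤ) : ℝ) = ⌊2 * κ / θ⌋ + 1 := by
          rw [Int.toNat_of_nonneg (by omega)]
          push_cast
          ring
        have e3 := Int.floor_le (2 * κ / θ)
        have e4 : ((⌊2 * κ / θ⌋ + 1 - 0).toNat : ℝ) = ⌊2 * κ / θ⌋ + 1 := by
          rw [← e2]; norm_cast
        have e5 : 1 ≤ κ / θ := by
          rw [le_div_iff₀ hθ0]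
          linarith
        have e6 : 2 * κ / θ = 2 * (κ / θ) := by ring
        rw [e4]
        rw [e6] at e3 ⊢
        linarith
      calc (H.card : ℝ) ≤ ((⌊B * θ + 1 / 4⌋ + 1 - 0).toNat : ℝ) * ((⌊2 * κ / θ⌋ + 1 - 0).toNat : ℝ) := by
            exact_mod_cast hcard
        _ ≤ (7 / 2 * (B * θ)) * (3 * (κ / θ)) := by
            refine mul_le_mul h1 h2 (Nat.cast_nonneg _) (by positivity)
        _ = 21 / 2 * (κ * B) := by field_simp; ring
        _ ≤ 24 * κ * B := by nlinarith [mul_pos hκ hB]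

end Pool.Agent.MP_0863b8

end

section

/-!
MP_0863b8_nt: quickly decaying `Φ`.  Definitions and statements of the items (as Props).
-/

namespace Pool.Agent.MP_0863b8.F

open MeasureTheory Filter

/-- sum of the elements -/
noncomputable def ms (V : Finset ℕ) : ℝ := ∑ v ∈ V, (v : ℝ)

/-- sum of `p^(-(1-σ))` over the prime divisors -/
noncomputable def rps (σ : ℝ) (n : ℕ) : ℝ := ∑ p ∈ n.primeFactors, (p : ℝ) ^ (-(1 - σ))

open Classical in
/-- sum of `v w` over the pairs `(v, w)` of `V x W` with `lcm` in `(L/2, L]`, reduced pair in `Q`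
and all primes of the gcd in `P` -/
noncomputable def en (P : Set ℕ) (V W : Finset ℕ) (L : ℝ) (Q : Set (ℕ × ℕ)) : ℝ :=
  ∑ t ∈ (V ×ˢ W).filter (fun t => L / 2 < ((t.1.lcm t.2 : ℕ) : ℝ) ∧
      ((t.1.lcm t.2 : ℕ) : ℝ) ≤ L ∧ (t.1 / t.1.gcd t.2, t.2 / t.1.gcd t.2) ∈ Q ∧
      ∀ p ∈ (t.1.gcd t.2).primeFactors, p ∈ P),
    (t.1 : ℝ) * t.2

/-- the pairs which lie in `Q` after multiplication by the powers of `l` -/
def qp (l i j : ℕ) (Q : Set (ℕ × ℕ)) : Set (ℕ × ℕ) :=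
  {t | (t.1 * l ^ (i - j), t.2 * l ^ (j - i)) ∈ Q}

/-- the bounding expression -/
noncomputable def pot (K L : ℝ) (V W : Finset ℕ) : ℝ :=
  K ^ ((4:ℝ)/9) * L ^ ((8:ℝ)/9) * (ms V * ms W) ^ ((5:ℝ)/9)

/-- a dyadic box -/
def box (s t : ℕ) : Finset (ℕ × ℕ) :=
  Finset.Ico (2 ^ s) (2 ^ (s + 1)) ×ˢ Finset.Ico (2 ^ t) (2 ^ (t + 1))

open Classical in
/-- density of `Q` at all dilations -/
def Dens (K σ : ℝ) (Q : Set (ℕ × ℕ)) : Prop :=
  ∀ a b : ℕ, 0 < a → 0 < b → ∀ s t : ℕ,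
    (((box s t).filter (fun z => (a * z.1, b * z.2) ∈ Q)).card : ℝ) ≤
      K * ((a:ℝ) * b) ^ σ * ((2:ℝ) ^ s * 2 ^ t)

/-- F1: the node inequality -/
def NodeF : Prop :=
  ∃ C : ℝ, 0 < C ∧ ∀ l σ : ℝ, 2 ≤ l → 0 ≤ σ → σ ≤ 1/16 → ∀ N : ℕ, 0 < N → ∀ (x y : ℕ → ℝ),
    (∀ i, 0 ≤ x i) → (∀ i, 0 ≤ y i) →
    ∑ i ∈ Finset.range N, x i ≤ 1 → ∑ i ∈ Finset.range N, y i ≤ 1 →
    ∃ m < N, ∑ i ∈ Finset.range N, ∑ j ∈ Finset.range N,
        l ^ (-((4/9) * (1 - σ) * |(i:ℝ) - j|)) * (x i * y j) ^ ((5:ℝ)/9)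
      ≤ 1 - (1/40) * ((1 - x m) + (1 - y m)) + C * l ^ (-(1 - σ))

/-- F2: splitting at a prime -/
def SplitF : Prop :=
  ∀ l : ℕ, l.Prime → ∀ (P : Set ℕ) (V W : Finset ℕ) (L : ℝ) (Q : Set (ℕ × ℕ)) (N : ℕ),
    (∀ v ∈ V, 0 < v ∧ v.factorization l < N) → (∀ w ∈ W, 0 < w ∧ w.factorization l < N) →
    en P V W L Q ≤ ∑ i ∈ Finset.range N, ∑ j ∈ Finset.range N,
      (l:ℝ) ^ (i + j) *
        en (P \ {l}) (part l i V) (part l j W) (L / (l:ℝ) ^ (max i j)) (qp l i j Q)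

/-- share of the elements with valuation `m` at `l` -/
noncomputable def share (l m : ℕ) (V : Finset ℕ) : ℝ :=
  ms (V.filter (fun v => v.factorization l = m)) / ms V

/-- F3: the step -/
def StepF : Prop :=
  ∃ C : ℝ, 0 < C ∧ ∀ l : ℕ, l.Prime → ∀ σ : ℝ, 0 ≤ σ → σ ≤ 1/16 →
    ∀ (P : Set ℕ) (V W : Finset ℕ) (Q : Set (ℕ × ℕ)) (K L D : ℝ), 0 ≤ K → 0 ≤ L → 0 ≤ D →
    (∀ v ∈ V, 0 < v) → (∀ w ∈ W, 0 < w) →
    (∀ i j : ℕ, en (P \ {l}) (part l i V) (part l j W) (L / (l:ℝ) ^ (max i j)) (qp l i j Q) ≤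
      D * pot (K * (l:ℝ) ^ (σ * |(i:ℝ) - j|)) (L / (l:ℝ) ^ (max i j))
        (part l i V) (part l j W)) →
    ∃ m : ℕ, en P V W L Q ≤ D * pot K L V W *
      (1 - (1/40) * ((1 - share l m V) + (1 - share l m W)) + C * (l:ℝ) ^ (-(1 - σ)))

/-- F4: the base case -/
def BaseF : Prop :=
  ∀ (V W : Finset ℕ) (Q : Set (ℕ × ℕ)) (K L σ : ℝ), 0 ≤ K → 0 ≤ L →
    (∀ v ∈ V, 0 < v) → (∀ w ∈ W, 0 < w) → Dens K σ Q →
    en ∅ V W L Q ≤ 6 * pot K L V W

/-- F5: finitely many primes -/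
def FinF : Prop :=
  ∃ C : ℝ, 0 < C ∧ ∀ σ : ℝ, 0 ≤ σ → σ ≤ 1/16 → ∀ P : Finset ℕ, (∀ p ∈ P, p.Prime) →
    ∀ (V W : Finset ℕ) (Q : Set (ℕ × ℕ)) (K L : ℝ), 0 ≤ K → 0 ≤ L →
    (∀ v ∈ V, 0 < v) → (∀ w ∈ W, 0 < w) → Dens K σ Q →
    en (P : Set ℕ) V W L Q ≤
      6 * Real.exp (∑ p ∈ P, C * (p:ℝ) ^ (-(1 - σ))) * pot K L V W

/-- F6: the tree inequality -/
def TreeF : Prop :=
  ∀ C1 : ℝ, ∃ C : ℝ, 0 < C ∧ ∀ σ : ℝ, 0 ≤ σ → σ ≤ 1/16 →
    ∀ (V W : Finset ℕ) (Q : Set (ℕ × ℕ)) (K L : ℝ), 0 ≤ K → 0 ≤ L →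
    (∀ v ∈ V, 0 < v ∧ rps σ v ≤ C1) → (∀ w ∈ W, 0 < w ∧ rps σ w ≤ C1) → Dens K σ Q →
    en Set.univ V W L Q ≤ C * pot K L V W

/-! ### Diophantine counting -/

open Classical in
/-- F7b: slow rotation -/
def SlowRot : Prop :=
  ∀ (μ c ω : ℝ) (I : ℕ), 0 < μ → μ ≤ 1/8 → |ω| ≤ μ → μ ^ 2 / 8 ≤ I * |ω| → 2 / μ ≤ I →
    (((Finset.range I).filter (fun i : ℕ => nd (c + i * ω) < 2 * μ ^ 3)).card : ℝ) ≤
      100 * μ * I

open Classical in
/-- F7a: rotation without small denominators -/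
def FastRot : Prop :=
  ∀ (μ ε θ ξ : ℝ) (B : ℕ), 0 < μ → μ ≤ 1/8 → 0 < ε → ε ≤ μ ^ 2 / 3 → 1 / ε ≤ B →
    (∀ r : ℕ, 1 ≤ r → (r:ℝ) ≤ 1 / μ → ε ≤ nd (r * θ)) →
    (((Finset.Ico B (2 * B)).filter (fun b : ℕ => nd (b * θ - ξ) < 2 * μ ^ 3)).card : ℝ) ≤
      200 * μ * B

/-- distance of the coordinates -/
def hh (z : ℕ × ℕ) : ℕ := Int.natAbs ((z.1 : ℤ) - z.2)

/-- the pairs `(a, b)`, `a ≠ b`, with `|a - b| δ` near an integer, except those explained by
the convergent of type `ε = μ^2 / (4 W)` -/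
noncomputable def Bad (δ μ W : ℝ) : Set (ℕ × ℕ) :=
  {z | z.1 ≠ z.2 ∧ nd (hh z * δ) < 2 * μ ^ 3 ∧
    ¬ (round ((hh z : ℝ) * δ) * (qmin δ (μ ^ 2 / (4 * W)) : ℤ) =
        (hh z : ℤ) * round ((qmin δ (μ ^ 2 / (4 * W)) : ℝ) * δ) ∧
      (max z.1 z.2 : ℕ) * |δ - round ((qmin δ (μ ^ 2 / (4 * W)) : ℝ) * δ) /
        (qmin δ (μ ^ 2 / (4 * W)) : ℝ)| < μ ^ 2 / 4)}

open Classical in
/-- F7c: the density of the bad pairs -/
def BadDens : Prop :=
  ∀ (δ μ W : ℝ), 0 < μ → μ ≤ 1/8 → 1 ≤ W → ∀ a b s t : ℕ, 0 < a → 0 < b →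
    (a:ℝ) * b ≤ W → 4 * W / μ ^ 2 ≤ (2:ℝ) ^ s → 4 * W / μ ^ 2 ≤ (2:ℝ) ^ t →
    (((box s t).filter (fun z => (a * z.1, b * z.2) ∈ Bad δ μ W)).card : ℝ) ≤
      400 * μ * ((2:ℝ) ^ s * 2 ^ t)

/-- the bad pairs with large coordinates -/
def QQ (δ μ W : ℝ) : Set (ℕ × ℕ) :=
  {z | z ∈ Bad δ μ W ∧ 8 * W ^ 2 / μ ^ 2 ≤ z.1 ∧ 8 * W ^ 2 / μ ^ 2 ≤ z.2}

/-- F8a -/
def DensQQ : Prop :=
  ∀ (δ μ W σ : ℝ), 0 < μ → μ ≤ 1/8 → 1 ≤ W → 0 ≤ σ → 1 ≤ μ * W ^ σ →
    Dens (400 * μ) σ (QQ δ μ W)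

/-! ### Pairs of levels -/

/-- `n` has level `k` -/
def lv (ψ : ℕ → ℝ) (k n : ℕ) : Prop :=
  (1/2 : ℝ) ^ (k + 1) < ψ n / n ∧ ψ n / n ≤ (1/2 : ℝ) ^ k

noncomputable def muI (i : ℕ) : ℝ := (2:ℝ) ^ (-(i:ℝ) / 3)

noncomputable def WI (k i : ℕ) : ℝ := (muI i) ^ (-(16 * Real.log k))

/-- decay at level `k` -/
noncomputable def dec (k : ℕ) : ℝ := Real.exp (-(200 * (Real.log k) ^ 2))

/-- F8c: type of an overlapping pair -/
def PairType : Prop :=
  ∃ k0 : ℕ, ∀ (δ : ℝ) (ψ : ℕ → ℝ) (k l i x y : ℕ), k0 ≤ k → k ≤ l → l < k + i → 9 ≤ i →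
    2 ^ i ≤ k ^ 12 → 0 < x → 0 < y → x ≠ y → 0 < ψ x → 0 < ψ y → ψ x ≤ dec k → ψ y ≤ dec l →
    ψ y / y ≤ ψ x / x → lv ψ k x → lv ψ l y → 2 ≤ x / x.gcd y →
    (2:ℝ) ^ ((k:ℝ) - i) / 2 < ((x.lcm y : ℕ) : ℝ) → ((x.lcm y : ℕ) : ℝ) ≤ (2:ℝ) ^ ((k:ℝ) - i) →
    (BB δ ψ x ∩ BB δ ψ y).Nonempty →
    (x / x.gcd y, y / x.gcd y) ∈ QQ δ (muI i) (WI k i)

/-- F8d: the modified sums over primes -/
def RpsStmt : Prop :=
  ∃ k0 : ℕ, 3 ≤ k0 ∧ ∀ (k n : ℕ) (C1 : ℝ), k0 ≤ k → 0 < n → n < 2 ^ (2 * k) → rp n ≤ C1 →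
    rps (1 / (16 * Real.log k)) n ≤ 2 * C1 + 1

open Classical in
/-- F8b: overlapping pairs of two levels -/
def NewPair : Prop :=
  ∀ C1 : ℝ, ∃ C : ℝ, 0 < C ∧ ∃ k0 : ℕ, ∀ (δ : ℝ) (ψ : ℕ → ℝ) (k l i : ℕ) (V W : Finset ℕ),
    k0 ≤ k → k ≤ l → 1 ≤ i → 2 ^ i ≤ k ^ 12 →
    (∀ v ∈ V, 0 < v ∧ rp v ≤ C1 ∧ 0 < ψ v ∧ ψ v ≤ dec k ∧ lv ψ k v) →
    (∀ w ∈ W, 0 < w ∧ rp w ≤ C1 ∧ 0 < ψ w ∧ ψ w ≤ dec l ∧ lv ψ l w) →
    ∑ z ∈ (V ×ˢ W).filter (fun z => z.1 ≠ z.2 ∧ ψ z.2 / z.2 ≤ ψ z.1 / z.1 ∧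
        2 ≤ z.1 / z.1.gcd z.2 ∧ (2:ℝ) ^ ((k:ℝ) - i) / 2 < ((z.1.lcm z.2 : ℕ) : ℝ) ∧
        ((z.1.lcm z.2 : ℕ) : ℝ) ≤ (2:ℝ) ^ ((k:ℝ) - i) ∧
        (BB δ ψ z.1 ∩ BB δ ψ z.2).Nonempty),
      ψ z.2 / (z.2 / z.1.gcd z.2 : ℕ) ≤
    C * (2:ℝ) ^ (-(i:ℝ) / 27) * (2:ℝ) ^ (-((l:ℝ) - k) / 9) *
      ((∑ v ∈ V, ψ v) * (∑ w ∈ W, ψ w)) ^ ((5:ℝ)/9)

/-- F9a -/
def EarlySum : Prop :=
  ∃ C : ℝ, 0 < C ∧ ∀ (N : ℕ) (X : ℕ → ℝ), (∀ k, 0 ≤ X k) → ∑ k ∈ Finset.range N, X k ≤ 1 →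
    ∑ k ∈ Finset.range N, ∑ l ∈ (Finset.range N).filter (fun l => k ≤ l),
      ∑ i ∈ Finset.range N,
        (2:ℝ) ^ (-(i:ℝ) / 27) * (2:ℝ) ^ (-((l:ℝ) - k) / 9) * (X k * X l) ^ ((5:ℝ)/9) ≤ C

/-- F9b -/
def LateSum : Prop :=
  ∃ C : ℝ, 0 < C ∧ ∀ (N : ℕ) (x : ℕ → ℕ → ℝ), (∀ k s, 0 ≤ x k s) →
    ∑ k ∈ Finset.range N, ∑ s ∈ Finset.range N, x k s ≤ 1 →
    ∑ k ∈ Finset.range N, ∑ l ∈ (Finset.range N).filter (fun l => k ≤ l),
      ∑ s ∈ (Finset.range N).filter (fun s => s ≤ k),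
      ∑ t ∈ (Finset.range N).filter (fun t => t ≤ l),
      ∑ m ∈ (Finset.range N).filter (fun m => m + s ≤ k ∧ k ^ 12 * 2 ^ (m + s) ≤ 2 * 2 ^ k),
        (2:ℝ) ^ (((m:ℝ) + s - k) / 7) * (2:ℝ) ^ (-(3 * ((l:ℝ) - k)) / 7) *
          (x k s * x l t) ^ ((4:ℝ)/7) ≤ C

/-- F10: the second moment bound -/
def SecondF : Prop :=
  ∀ c : ℝ, 0 < c → ∃ C : ℝ, 0 < C ∧ ∃ k0 : ℕ, ∀ (δ : ℝ) (ψ : ℕ → ℝ) (S : Finset ℕ),
    (∀ n ∈ S, 0 < n ∧ c ≤ (Nat.totient n : ℝ) / n ∧ 0 < ψ n ∧ ψ n ≤ 1 / 8 ∧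
      ∀ k : ℕ, lv ψ k n → k0 ≤ k ∧ ψ n ≤ dec k) →
    ∑ n ∈ S, ψ n ≤ 1 →
    ∑ x ∈ S, ∑ y ∈ S, (volume (BB δ ψ x ∩ BB δ ψ y)).toReal ≤ C

/-- F11: the main theorem -/
def MainF : Prop :=
  ∀ (δ : ℝ) (Φ : ℕ → ℝ), (∀ n, 0 ≤ Φ n) → H1 Φ → H2 Φ →
    (∀ᶠ n : ℕ in atTop, Φ n ≤ Real.exp (-(1000 * (Real.log (Real.log n)) ^ 2))) → Concl δ Φ

end Pool.Agent.MP_0863b8.F

end

section

/-!
MP_0863b8_nt, full answer, section 8 of PROOF.md: the interface between the construction of the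
kept sets and the conclusion.
-/

set_option autoImplicit false

namespace Pool.Agent.MP_0863b8.FIN

open MeasureTheory Filter

/-- `μ(n) = n 2^(-lev n)` -/
noncomputable def mu (lev : ℕ → ℕ) (n : ℕ) : ℝ := (n:ℝ) * (1/2 : ℝ) ^ lev n

/-- The kept sets: what sections 1-7 deliver for one block. -/
def KeptStmt : Prop :=
  ∀ C1 : ℝ, ∃ (C c : ℝ) (n0 : ℝ → ℝ → ℕ), 0 < C ∧ 0 < c ∧
    ∀ (δ : ℝ) (S : Finset ℕ) (lev : ℕ → ℕ),
    (∀ n ∈ S, 0 < n ∧ rp n ≤ C1 ∧ mu lev n ≤ 1 / 8) → ∑ n ∈ S, mu lev n ≤ 1 →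
    ∃ B : ℕ → Set ℝ,
      (∀ n ∈ S, MeasurableSet (B n) ∧ ∀ t ∈ B n, nd (n * t - δ) < mu lev n) ∧
      ∑ n ∈ S, ∑ m ∈ S, (volume (B n ∩ B m ∩ Set.Ico (0:ℝ) 1)).toReal ≤ C ∧
      ∀ a b : ℝ, 0 ≤ a → a < b → b ≤ 1 → ∀ n ∈ S, n0 a b ≤ n →
        c * (b - a) * mu lev n ≤ (volume (B n ∩ Set.Ioo a b)).toReal

/-- Borel-Cantelli with sets depending on the block -/
def BC2 : Prop :=
  ∀ (S : ℕ → Finset ℕ) (E : ℕ → ℕ → Set ℝ) (C c : ℝ), 0 < c →
    (∀ t, ∀ n ∈ S t, MeasurableSet (E t n)) →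
    (∀ t, ∑ v ∈ S t, ∑ w ∈ S t, (volume (E t v ∩ E t w ∩ Set.Ico (0:ℝ) 1)).toReal ≤ C) →
    (∀ a b : ℝ, 0 ≤ a → a < b → b ≤ 1 → ∀ᶠ t in atTop,
      c * (b - a) ≤ ∑ v ∈ S t, (volume (E t v ∩ Set.Ioo a b)).toReal) →
    ∀ᵐ β ∂(volume.restrict (Set.Ico (0:ℝ) 1)), ∃ᶠ t in atTop, ∃ v ∈ S t, β ∈ E t v

/-- The full answer to Q1. -/
def FullStmt : Prop :=
  ∀ (δ : ℝ) (Φ : ℕ → ℝ), (∀ n, 0 ≤ Φ n) → H1 Φ → H2 Φ → Concl δ Φ

end Pool.Agent.MP_0863b8.FIN

end

section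

/-!
MP_0863b8_nt, item 4: the tree inequality for finitely many primes.
-/

namespace Pool.Agent.MP_0863b8

open MeasureTheory Filter

theorem bnd_nonneg {A B : ℝ} (hA : 0 ≤ A) (hB : 0 ≤ B) (Q : Finset (ℕ × ℕ)) (V W : Finset ℕ) :
    0 ≤ bnd A B Q V W := by
  unfold bnd
  positivity

theorem part_pos {l i : ℕ} {V : Finset ℕ} (hV : ∀ v ∈ V, 0 < v) :
    ∀ v ∈ part l i V, 0 < v := by
  intro v hv
  simp only [part, Finset.mem_image, Finset.mem_filter] at hv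
  obtain ⟨u, ⟨hu, hui⟩, rfl⟩ := hv
  have h0 := hV u hu
  have hdvd : l ^ i ∣ u := by
    rw [← hui]; exact Nat.ordProj_dvd u l
  exact Nat.div_pos (Nat.le_of_dvd h0 hdvd) (Nat.pos_of_ne_zero (fun h => by
    rw [h] at hdvd; exact h0.ne' (zero_dvd_iff.1 hdvd)))

theorem part_card_le (l i : ℕ) (V : Finset ℕ) : (part l i V).card ≤ V.card :=
  Finset.card_image_le.trans (Finset.card_filter_le _ _)

theorem fin_base (V W : Finset ℕ) (Q : Finset (ℕ × ℕ)) (A B : ℝ) (hA : 0 ≤ A) (hB : 0 ≤ B)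
    (hV : ∀ v ∈ V, 0 < v) (hW : ∀ w ∈ W, 0 < w)
    (hQ : ∀ t ∈ Q, (t.1 : ℝ) ≤ A ∧ (t.2 : ℝ) ≤ B) :
    (cnt ((∅ : Finset ℕ) : Set ℕ) V W Q : ℝ) ≤ bnd A B Q V W := by
  classical
  set S := (V ×ˢ W).filter (fun t => (t.1 / t.1.gcd t.2, t.2 / t.1.gcd t.2) ∈ Q ∧
    ∀ p ∈ (t.1.gcd t.2).primeFactors, p ∈ ((∅ : Finset ℕ) : Set ℕ)) with hS
  have hcnt : cnt ((∅ : Finset ℕ) : Set ℕ) V W Q = S.card := by
    rw [hS]; unfold cnt; congr
  have hSmem : ∀ t ∈ S, t ∈ V ×ˢ W ∧ t ∈ Q := by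
    intro t ht
    rw [hS, Finset.mem_filter] at ht
    obtain ⟨h1, h2, h3⟩ := ht
    refine ⟨h1, ?_⟩
    rw [Finset.mem_product] at h1
    have hg : t.1.gcd t.2 = 1 := by
      by_contra hne
      have hpos : 0 < t.1.gcd t.2 := Nat.gcd_pos_of_pos_left _ (hV _ h1.1)
      obtain ⟨p, hp, hpd⟩ := Nat.exists_prime_and_dvd hne
      have := h3 p (Nat.mem_primeFactors.2 ⟨hp, hpd, hpos.ne'⟩)
      simp at this
    rw [hg, Nat.div_one, Nat.div_one] at h2
    exact h2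
  have h1 : S.card ≤ Q.card := Finset.card_le_card fun t ht => (hSmem t ht).2
  have h2 : S.card ≤ V.card * W.card := by
    rw [← Finset.card_product]
    exact Finset.card_le_card fun t ht => (hSmem t ht).1
  have h3 : S.card ≤ ⌊A⌋₊ * ⌊B⌋₊ := by
    have : S ⊆ Finset.Icc 1 ⌊A⌋₊ ×ˢ Finset.Icc 1 ⌊B⌋₊ := by
      intro t ht
      obtain ⟨h4, h5⟩ := hSmem t ht
      rw [Finset.mem_product] at h4
      obtain ⟨h6, h7⟩ := hQ t h5
      simp only [Finset.mem_product, Finset.mem_Icc]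
      exact ⟨⟨hV _ h4.1, Nat.le_floor h6⟩, ⟨hW _ h4.2, Nat.le_floor h7⟩⟩
    have h8 := Finset.card_le_card this
    rw [Finset.card_product, Nat.card_Icc, Nat.card_Icc] at h8
    simpa using h8
  have h1' : (S.card : ℝ) ≤ Q.card := by exact_mod_cast h1
  have h2' : (S.card : ℝ) ≤ (V.card : ℝ) * W.card := by exact_mod_cast h2
  have h3' : (S.card : ℝ) ≤ A * B := by
    have h9 : (S.card : ℝ) ≤ (⌊A⌋₊ : ℝ) * ⌊B⌋₊ := by exact_mod_cast h3
    exact h9.trans (mul_le_mul (Nat.floor_le hA) (Nat.floor_le hB) (Nat.cast_nonneg _) hA)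
  rw [hcnt]
  rcases Nat.eq_zero_or_pos S.card with h0 | h0
  · rw [h0, Nat.cast_zero]
    exact bnd_nonneg hA hB Q V W
  · have hpos : (0 : ℝ) < S.card := by exact_mod_cast h0
    calc (S.card : ℝ) = (S.card : ℝ) ^ ((1:ℝ)/7) * (S.card : ℝ) ^ ((2:ℝ)/7) *
          (S.card : ℝ) ^ ((4:ℝ)/7) := by
          rw [← Real.rpow_add hpos, ← Real.rpow_add hpos]
          norm_num
      _ ≤ bnd A B Q V W := by
          unfold bnd
          gcongr

theorem fin (h : StepStmt) : FinStmt := by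
  classical
  obtain ⟨C, hC, hstep⟩ := h
  refine ⟨C, hC, ?_⟩
  intro P
  induction P using Finset.induction_on with
  | empty =>
    intro _ V W Q A B hA hB hV hW hQ
    have := fin_base V W Q A B hA hB hV hW hQ
    simpa using this
  | insert l P hl ih =>
    intro hP V W Q A B hA hB hV hW hQ
    have hlp : l.Prime := hP l (Finset.mem_insert_self _ _)
    have hl0 : (0 : ℝ) < l := by exact_mod_cast hlp.pos
    have ih' := ih (fun p hp => hP p (Finset.mem_insert_of_mem hp))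
    have hset : (((insert l P : Finset ℕ) : Set ℕ) \ {l}) = (P : Set ℕ) := by
      ext x
      simp only [Finset.coe_insert, Set.mem_sdiff, Set.mem_insert_iff, Finset.mem_coe,
        Set.mem_singleton_iff]
      constructor
      · rintro ⟨h1 | h1, h2⟩
        · exact absurd h1 h2
        · exact h1
      · intro h1
        exact ⟨Or.inr h1, fun h2 => hl (h2 ▸ h1)⟩
    obtain ⟨m, hm⟩ := hstep l hlp ((insert l P : Finset ℕ) : Set ℕ) V W Q A B
      (Real.exp (∑ p ∈ P, C / p)) hA hB (Real.exp_pos _).le hV hW (by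
        intro i j
        rw [hset]
        refine ih' (part l i V) (part l j W) (qpart l i j Q) _ _ (by positivity) (by positivity)
          (part_pos hV) (part_pos hW) ?_
        intro t ht
        simp only [qpart, Finset.mem_image, Finset.mem_filter] at ht
        obtain ⟨u, ⟨hu, -⟩, rfl⟩ := ht
        obtain ⟨h1, h2⟩ := hQ u hu
        constructor
        · refine Nat.cast_div_le.trans ?_
          push_cast
          gcongr
        · refine Nat.cast_div_le.trans ?_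
          push_cast
          gcongr)
    refine hm.trans ?_
    rw [Finset.sum_insert hl, Real.exp_add]
    have hb := bnd_nonneg hA hB Q V W
    have h1 : ((part l m V).card : ℝ) / V.card ≤ 1 :=
      div_le_one_of_le₀ (by exact_mod_cast part_card_le l m V) (Nat.cast_nonneg _)
    have h2 : ((part l m W).card : ℝ) / W.card ≤ 1 :=
      div_le_one_of_le₀ (by exact_mod_cast part_card_le l m W) (Nat.cast_nonneg _)
    have h3 : (1 - (1/25) * ((1 - ((part l m V).card : ℝ) / V.card) +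
        (1 - ((part l m W).card : ℝ) / W.card)) + C / l) ≤ Real.exp (C / l) := by
      have := Real.add_one_le_exp (C / l)
      linarith
    calc Real.exp (∑ p ∈ P, C / p) * bnd A B Q V W *
        (1 - (1/25) * ((1 - ((part l m V).card : ℝ) / V.card) +
        (1 - ((part l m W).card : ℝ) / W.card)) + C / l)
        ≤ Real.exp (∑ p ∈ P, C / p) * bnd A B Q V W * Real.exp (C / l) :=
          mul_le_mul_of_nonneg_left h3 (by positivity)
      _ = _ := by ring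

end Pool.Agent.MP_0863b8

end

section

/-!
Local first moment for the sets of the inhomogeneous Duffin-Schaeffer problem.
-/

namespace Pool.Agent.MP_0863b8

open MeasureTheory Filter

namespace First

/-- number of integers in `[U, V)` in a residue class -/
theorem card_class (U V : ℤ) (M : ℕ) (hM : 0 < M) (ρ : ℤ) (hUV : U ≤ V) :
    |(((Finset.Ico U V).filter (fun r => r ≡ ρ [ZMOD M])).card : ℝ) - (V - U) / M| ≤ 1 := by
  have h := Int.Ico_filter_modEq_card U V (r := (M:ℤ)) (by exact_mod_cast hM) ρ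
  set x : ℚ := ((V:ℚ) - ρ) / ((M:ℤ):ℚ) with hx
  set y : ℚ := ((U:ℚ) - ρ) / ((M:ℤ):ℚ) with hy
  have hM' : (0:ℚ) < ((M:ℤ):ℚ) := by exact_mod_cast hM
  have hyx : y ≤ x := by
    rw [hx, hy]
    apply div_le_div_of_nonneg_right _ hM'.le
    have : (U:ℚ) ≤ V := by exact_mod_cast hUV
    linarith
  have hc : ⌈y⌉ ≤ ⌈x⌉ := Int.ceil_le_ceil hyx
  rw [max_eq_left (by linarith)] at h
  have h2 : (((Finset.Ico U V).filter (fun r => r ≡ ρ [ZMOD M])).card : ℝ)
      = (⌈x⌉ : ℝ) - ⌈y⌉ := by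
    exact_mod_cast h
  have hxy : ((x - y : ℚ) : ℝ) = ((V:ℝ) - U) / M := by
    rw [hx, hy]
    push_cast
    ring
  have h3 : (x:ℝ) ≤ (⌈x⌉:ℝ) := by exact_mod_cast Int.le_ceil x
  have h4 : ((⌈x⌉:ℤ):ℝ) < x + 1 := by exact_mod_cast Int.ceil_lt_add_one x
  have h5 : (y:ℝ) ≤ (⌈y⌉:ℝ) := by exact_mod_cast Int.le_ceil y
  have h6 : ((⌈y⌉:ℤ):ℝ) < y + 1 := by exact_mod_cast Int.ceil_lt_add_one y
  rw [h2, ← hxy]
  push_cast
  rw [abs_le]
  constructor <;> linarith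

/-- the sieve, by induction on the set of primes -/
theorem sieve (U V : ℤ) (hUV : U ≤ V) (q p : ℤ) (hqp : Int.gcd q p = 1) (P : Finset ℕ) :
    (∀ l ∈ P, l.Prime) → ∀ (M : ℕ), 0 < M → (∀ l ∈ P, Nat.Coprime l M) → ∀ ρ : ℤ,
    |(((Finset.Ico U V).filter (fun r => r ≡ ρ [ZMOD M] ∧
        ∀ l ∈ P, ¬ ((l:ℤ) ∣ q * r + p))).card : ℝ) -
      (V - U) / M * ∏ l ∈ P.filter (fun l : ℕ => ¬ ((l:ℤ) ∣ q)), (1 - (1:ℝ) / l)| ≤ 2 ^ P.card := by
  induction P using Finset.induction_on with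
  | empty =>
    intro _ M hM _ ρ
    simpa using card_class U V M hM ρ hUV
  | insert l P hl IH =>
    intro hP M hM hcop ρ
    have hlp : l.Prime := hP l (Finset.mem_insert_self _ _)
    have hP' : ∀ l ∈ P, l.Prime := fun x hx => hP x (Finset.mem_insert_of_mem hx)
    have hcop' : ∀ l ∈ P, Nat.Coprime l M := fun x hx => hcop x (Finset.mem_insert_of_mem hx)
    have IH1 := IH hP' M hM hcop' ρ
    rw [Finset.card_insert_of_notMem hl]
    by_cases hlq : (l:ℤ) ∣ q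
    · have hset : (Finset.Ico U V).filter (fun r => r ≡ ρ [ZMOD M] ∧
          ∀ x ∈ insert l P, ¬ ((x:ℤ) ∣ q * r + p)) =
          (Finset.Ico U V).filter (fun r => r ≡ ρ [ZMOD M] ∧
          ∀ x ∈ P, ¬ ((x:ℤ) ∣ q * r + p)) := by
        apply Finset.filter_congr
        intro r _
        constructor
        · rintro ⟨h1, h2⟩
          exact ⟨h1, fun x hx => h2 x (Finset.mem_insert_of_mem hx)⟩
        · rintro ⟨h1, h2⟩
          refine ⟨h1, fun x hx => ?_⟩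
          rcases Finset.mem_insert.mp hx with rfl | hx
          · intro hd
            have hdp : (x:ℤ) ∣ p := (Int.dvd_add_right (hlq.mul_right r)).mp hd
            have := Int.dvd_coe_gcd hlq hdp
            rw [hqp] at this
            have h1 : x ∣ 1 := by exact_mod_cast this
            exact hlp.one_lt.ne' (Nat.dvd_one.mp h1)
          · exact h2 x hx
      have hprod : (insert l P).filter (fun l : ℕ => ¬ ((l:ℤ) ∣ q)) =
          P.filter (fun l : ℕ => ¬ ((l:ℤ) ∣ q)) := by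
        rw [Finset.filter_insert, if_neg (by simpa using hlq)]
      rw [hset, hprod]
      refine IH1.trans ?_
      exact pow_le_pow_right₀ (by norm_num) (Nat.le_succ _)
    · -- a residue class mod `M l`
      have hlM : Nat.Coprime l M := hcop l (Finset.mem_insert_self _ _)
      have hcop2 : ∀ x ∈ P, Nat.Coprime x (M * l) := by
        intro x hx
        refine Nat.Coprime.mul_right (hcop' x hx) ?_
        rw [Nat.coprime_primes (hP' x hx) hlp]
        rintro rfl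
        exact hl hx
      -- the root of `q r + p` mod `l`
      have hql : IsCoprime q (l:ℤ) := by
        have : IsCoprime (l:ℤ) q :=
          (Nat.prime_iff_prime_int.mp hlp).coprime_iff_not_dvd.mpr hlq
        exact this.symm
      obtain ⟨u, v, huv⟩ := hql
      obtain ⟨s, t, hst⟩ : IsCoprime (M:ℤ) (l:ℤ) := Nat.isCoprime_iff_coprime.mpr hlM.symm
      set ρ' : ℤ := ρ * (t * l) + (-(u * p)) * (s * M) with hρ'
      have hρM : ρ' ≡ ρ [ZMOD M] := by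
        have : ρ' = ρ + M * ((-(u * p)) * s - ρ * s) := by
          rw [hρ']
          linear_combination ρ * hst
        rw [this]
        exact (Int.modEq_iff_dvd.mpr ⟨-((-(u * p)) * s - ρ * s), by ring⟩)
      have hρl : (l:ℤ) ∣ q * ρ' + p := by
        refine ⟨q * ρ * t + q * u * p * t + p * v, ?_⟩
        rw [hρ']
        linear_combination (-q * u * p) * hst + (-p) * huv
      have hiff : ∀ r : ℤ, r ≡ ρ' [ZMOD (M * l : ℕ)] ↔
          (r ≡ ρ [ZMOD M] ∧ (l:ℤ) ∣ q * r + p) := by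
        intro r
        have hcopZ : (M:ℤ).natAbs.Coprime (l:ℤ).natAbs := by simpa using hlM.symm
        rw [Nat.cast_mul, ← Int.modEq_and_modEq_iff_modEq_mul hcopZ]
        constructor
        · rintro ⟨h1, h2⟩
          refine ⟨h1.trans hρM, ?_⟩
          have h3 : (l:ℤ) ∣ ρ' - r := h2.dvd
          have h4 : q * r + p = (q * ρ' + p) - q * (ρ' - r) := by ring
          rw [h4]
          exact dvd_sub hρl (h3.mul_left q)
        · rintro ⟨h1, h2⟩
          refine ⟨h1.trans hρM.symm, ?_⟩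
          rw [Int.modEq_iff_dvd]
          have h3 : (l:ℤ) ∣ q * (ρ' - r) := by
            have : q * (ρ' - r) = (q * ρ' + p) - (q * r + p) := by ring
            rw [this]
            exact dvd_sub hρl h2
          have h5 : IsCoprime (l:ℤ) q :=
            (Nat.prime_iff_prime_int.mp hlp).coprime_iff_not_dvd.mpr hlq
          exact h5.dvd_of_dvd_mul_left h3
      have IH2 := IH hP' (M * l) (Nat.mul_pos hM hlp.pos) hcop2 ρ'
      have hcard : (((Finset.Ico U V).filter (fun r => r ≡ ρ [ZMOD M] ∧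
          ∀ x ∈ insert l P, ¬ ((x:ℤ) ∣ q * r + p))).card : ℝ) =
          (((Finset.Ico U V).filter (fun r => r ≡ ρ [ZMOD M] ∧
          ∀ x ∈ P, ¬ ((x:ℤ) ∣ q * r + p))).card : ℝ) -
          (((Finset.Ico U V).filter (fun r => r ≡ ρ' [ZMOD (M * l : ℕ)] ∧
          ∀ x ∈ P, ¬ ((x:ℤ) ∣ q * r + p))).card : ℝ) := by
        rw [eq_sub_iff_add_eq]
        norm_cast
        rw [← Finset.card_union_of_disjoint]
        · congr 1
          ext r
          simp only [Finset.mem_union, Finset.mem_filter, Finset.mem_insert, forall_eq_or_imp,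
            hiff]
          tauto
        · rw [Finset.disjoint_left]
          intro r hr1 hr2
          simp only [Finset.mem_filter, Finset.mem_insert, forall_eq_or_imp, hiff] at hr1 hr2
          exact hr1.2.2.1 hr2.2.1.2
      have hprod : ∏ x ∈ (insert l P).filter (fun l : ℕ => ¬ ((l:ℤ) ∣ q)), (1 - (1:ℝ) / x) =
          (1 - (1:ℝ) / l) * ∏ x ∈ P.filter (fun l : ℕ => ¬ ((l:ℤ) ∣ q)), (1 - (1:ℝ) / x) := by
        rw [Finset.filter_insert, if_pos hlq, Finset.prod_insert]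
        intro h
        exact hl (Finset.mem_filter.mp h).1
      rw [hcard, hprod]
      set Pr := ∏ x ∈ P.filter (fun l : ℕ => ¬ ((l:ℤ) ∣ q)), (1 - (1:ℝ) / x)
      have hmain : ((V:ℝ) - U) / M * ((1 - (1:ℝ) / l) * Pr) =
          ((V:ℝ) - U) / M * Pr - ((V:ℝ) - U) / ((M * l : ℕ) : ℝ) * Pr := by
        push_cast
        have hl0 : (l:ℝ) ≠ 0 := by exact_mod_cast hlp.ne_zero
        have hM0 : (M:ℝ) ≠ 0 := by exact_mod_cast hM.ne'
        field_simp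
      rw [hmain]
      rw [abs_le] at IH1 IH2 ⊢
      rw [pow_succ]
      constructor <;> linarith [IH1.1, IH1.2, IH2.1, IH2.2]

/-- count of admissible `r`, lower bound -/
theorem count_lower (U V : ℤ) (hUV : U ≤ V) (q p : ℤ) (hqp : Int.gcd q p = 1) (n : ℕ)
    (hn : 0 < n) :
    ((V:ℝ) - U) * ((Nat.totient n : ℝ) / n) - 2 ^ n.primeFactors.card ≤
      (((Finset.Ico U V).filter (fun r => Int.gcd (q * r + p) n = 1)).card : ℝ) := by
  have h := sieve U V hUV q p hqp n.primeFactors (fun l hl => Nat.prime_of_mem_primeFactors hl)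
    1 one_pos (fun l _ => Nat.coprime_one_right l) 0
  have hset : (Finset.Ico U V).filter (fun r => r ≡ 0 [ZMOD (1:ℕ)] ∧
      ∀ l ∈ n.primeFactors, ¬ ((l:ℤ) ∣ q * r + p)) =
      (Finset.Ico U V).filter (fun r => Int.gcd (q * r + p) n = 1) := by
    apply Finset.filter_congr
    intro r _
    constructor
    · rintro ⟨-, h2⟩
      by_contra hne
      obtain ⟨l, hl, hld⟩ := Nat.exists_prime_and_dvd hne
      have h3 : (l:ℤ) ∣ q * r + p := (Int.natCast_dvd_natCast.mpr hld).trans (Int.gcd_dvd_left _ _)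
      have h4 : (l:ℤ) ∣ (n:ℤ) := (Int.natCast_dvd_natCast.mpr hld).trans (Int.gcd_dvd_right _ _)
      have h5 : l ∣ n := by exact_mod_cast h4
      exact h2 l (Nat.mem_primeFactors.mpr ⟨hl, h5, hn.ne'⟩) h3
    · intro h2
      refine ⟨by simpa using Int.modEq_one, fun l hl hd => ?_⟩
      have hl1 := Nat.prime_of_mem_primeFactors hl
      have hl2 := Nat.dvd_of_mem_primeFactors hl
      have h3 : (l:ℤ) ∣ Int.gcd (q * r + p) n :=
        Int.dvd_coe_gcd hd (by exact_mod_cast hl2)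
      rw [h2] at h3
      have h4 : l ∣ 1 := by exact_mod_cast h3
      exact hl1.one_lt.ne' (Nat.dvd_one.mp h4)
  rw [hset] at h
  have hphi : (Nat.totient n : ℝ) / n = ∏ l ∈ n.primeFactors, (1 - (1:ℝ) / l) := by
    have h1 := Nat.totient_eq_mul_prod_factors n
    have h2 : (Nat.totient n : ℝ) = n * ∏ p ∈ n.primeFactors, (1 - (p : ℝ)⁻¹) := by
      have h3 := congrArg (fun x : ℚ => (x : ℝ)) h1
      push_cast at h3
      exact h3
    rw [h2]
    have hn0 : (n:ℝ) ≠ 0 := by exact_mod_cast hn.ne'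
    rw [mul_div_assoc, mul_comm, div_mul_cancel₀ _ hn0]
    simp
  have hle : (Nat.totient n : ℝ) / n ≤
      ∏ l ∈ n.primeFactors.filter (fun l : ℕ => ¬ ((l:ℤ) ∣ q)), (1 - (1:ℝ) / l) := by
    rw [hphi]
    have hle1 : ∀ l ∈ n.primeFactors, (0:ℝ) ≤ 1 - (1:ℝ) / l ∧ 1 - (1:ℝ) / l ≤ 1 := by
      intro l hl
      have h2 : (1:ℝ) ≤ l := by exact_mod_cast (Nat.prime_of_mem_primeFactors hl).one_lt.le
      have h3 : (1:ℝ) / l ≤ 1 := by
        rw [div_le_one (by linarith)]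
        exact h2
      have h4 : (0:ℝ) ≤ 1 / l := by positivity
      constructor <;> linarith
    exact Finset.prod_le_prod_of_subset_of_le_one (Finset.filter_subset _ _)
      (fun i hi => (hle1 i hi).1) (fun i hi _ => (hle1 i hi).2)
  rw [abs_le] at h
  have h0 : (0:ℝ) ≤ (V:ℝ) - U := by
    have : (U:ℝ) ≤ V := by exact_mod_cast hUV
    linarith
  have h1 := mul_le_mul_of_nonneg_left hle h0
  have h2 := h.1
  rw [Nat.cast_one, div_one] at h2
  linarith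

theorem four_pow (P : Finset ℕ) (hP : ∀ p ∈ P, p.Prime) :
    (4:ℝ) ^ P.card ≤ 3 * ∏ p ∈ P, (p:ℝ) := by
  have h1 : (4:ℝ) ^ P.card ≤ (∏ p ∈ P, max 1 (4 / (p:ℝ))) * ∏ p ∈ P, (p:ℝ) := by
    rw [← Finset.prod_mul_distrib, ← Finset.prod_const]
    apply Finset.prod_le_prod (fun _ _ => by norm_num)
    intro p hp
    have hp0 : (0:ℝ) < p := by exact_mod_cast (hP p hp).pos
    calc (4:ℝ) = 4 / p * p := by field_simp
      _ ≤ max 1 (4 / (p:ℝ)) * p := by gcongr; exact le_max_right _ _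
  have h2 : ∏ p ∈ P, max 1 (4 / (p:ℝ)) ≤ 3 := by
    have h3 : ∏ p ∈ P, max 1 (4 / (p:ℝ)) ≤ ∏ p ∈ P ∪ {2, 3}, max 1 (4 / (p:ℝ)) :=
      Finset.prod_le_prod_of_subset_of_one_le Finset.subset_union_left
        (fun i _ => le_trans zero_le_one (le_max_left _ _)) (fun i _ _ => le_max_left _ _)
    refine h3.trans ?_
    have h4 : P ∪ {2, 3} = (P \ {2, 3}) ∪ {2, 3} := by
      rw [Finset.sdiff_union_self_eq_union]
    rw [h4, Finset.prod_union Finset.sdiff_disjoint]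
    have h5 : ∏ p ∈ P \ {2, 3}, max 1 (4 / (p:ℝ)) = 1 := by
      apply Finset.prod_eq_one
      intro p hp
      rw [Finset.mem_sdiff, Finset.mem_insert, Finset.mem_singleton, not_or] at hp
      have hpp := hP p hp.1
      have h6 : 4 ≤ p := by
        have := hpp.two_le
        omega
      have h7 : (4:ℝ) ≤ p := by exact_mod_cast h6
      rw [max_eq_left]
      rw [div_le_one (by linarith)]
      exact h7
    rw [h5, Finset.prod_pair (by norm_num)]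
    norm_num
  have h3 : (0:ℝ) ≤ ∏ p ∈ P, (p:ℝ) := Finset.prod_nonneg (fun p _ => Nat.cast_nonneg p)
  calc (4:ℝ) ^ P.card ≤ (∏ p ∈ P, max 1 (4 / (p:ℝ))) * ∏ p ∈ P, (p:ℝ) := h1
    _ ≤ 3 * ∏ p ∈ P, (p:ℝ) := by gcongr

theorem two_pow_le (n : ℕ) (hn : 0 < n) : (2:ℝ) ^ n.primeFactors.card ≤ 2 * Real.sqrt n := by
  have h1 := four_pow n.primeFactors (fun p hp => Nat.prime_of_mem_primeFactors hp)
  have h2 : ∏ p ∈ n.primeFactors, (p:ℝ) ≤ n := by
    have h3 := Nat.le_of_dvd hn (Nat.prod_primeFactors_dvd n)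
    rw [← Nat.cast_prod]
    exact Nat.cast_le.mpr h3
  have h3 : ((2:ℝ) ^ n.primeFactors.card) ^ 2 = 4 ^ n.primeFactors.card := by
    rw [← pow_mul, mul_comm, pow_mul]
    norm_num
  have hs := Real.sq_sqrt (Nat.cast_nonneg (α := ℝ) n)
  apply le_of_sq_le_sq _ (by positivity)
  rw [h3, mul_pow, hs]
  have h0 : (0:ℝ) ≤ n := Nat.cast_nonneg n
  linarith

theorem interval_sub (δ ψ a b : ℝ) (n : ℕ) (hn : 0 < n) (q p r : ℤ) (ha : 0 ≤ a) (hb : b ≤ 1)
    (hr1 : (n:ℝ) * a - δ + ψ ≤ r) (hr2 : (r:ℝ) ≤ n * b - δ - ψ)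
    (hg : Int.gcd (q * r + p) n = 1) :
    Set.Ioo ((δ + r - ψ) / n) ((δ + r + ψ) / n) ⊆ Bset δ ψ n q p ∩ Set.Ioo a b := by
  have hn0 : (0:ℝ) < n := by exact_mod_cast hn
  rintro β ⟨h1, h2⟩
  rw [div_lt_iff₀ hn0] at h1
  rw [lt_div_iff₀ hn0] at h2
  have h3 : a < β := by
    by_contra hcon
    push Not at hcon
    nlinarith
  have h4 : β < b := by
    by_contra hcon
    push Not at hcon
    nlinarith
  refine ⟨⟨by linarith, by linarith, r, hg, ?_⟩, h3, h4⟩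
  rw [abs_lt]
  constructor <;> linarith

theorem measure_lower (δ ψ a b : ℝ) (n : ℕ) (hn : 0 < n) (q p : ℤ) (ha : 0 ≤ a) (hb : b ≤ 1)
    (hψ : 0 < ψ) (hψ1 : ψ ≤ 1 / 8) (F : Finset ℤ)
    (hF : ∀ r ∈ F, (n:ℝ) * a - δ + ψ ≤ r ∧ (r:ℝ) ≤ n * b - δ - ψ ∧
      Int.gcd (q * r + p) n = 1) :
    (F.card : ℝ) * (2 * ψ / n) ≤ (volume (Bset δ ψ n q p ∩ Set.Ioo a b)).toReal := by
  have hn0 : (0:ℝ) < n := by exact_mod_cast hn
  have hsub : (⋃ r ∈ F, Set.Ioo ((δ + (r:ℝ) - ψ) / n) ((δ + r + ψ) / n)) ⊆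
      Bset δ ψ n q p ∩ Set.Ioo a b := by
    refine Set.iUnion₂_subset fun r hr => ?_
    exact interval_sub δ ψ a b n hn q p r ha hb (hF r hr).1 (hF r hr).2.1 (hF r hr).2.2
  have hfin : volume (Bset δ ψ n q p ∩ Set.Ioo a b) ≠ ⊤ := by
    refine ne_top_of_le_ne_top ?_ (measure_mono Set.inter_subset_right)
    simp
  have hvol : volume (⋃ r ∈ F, Set.Ioo ((δ + (r:ℝ) - ψ) / n) ((δ + r + ψ) / n)) =
      ∑ r ∈ F, ENNReal.ofReal (2 * ψ / n) := by
    rw [measure_biUnion_finset]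
    · apply Finset.sum_congr rfl
      intro r _
      rw [Real.volume_Ioo]
      congr 1
      field_simp
      ring
    · intro r _ s _ hrs
      change Disjoint _ _
      rw [Set.disjoint_left]
      rintro β ⟨h1, h2⟩ ⟨h3, h4⟩
      rw [div_lt_iff₀ hn0] at h1 h3
      rw [lt_div_iff₀ hn0] at h2 h4
      rcases lt_or_gt_of_ne hrs with h | h
      · have h5 : (r:ℝ) + 1 ≤ s := by exact_mod_cast h
        linarith
      · have h5 : (s:ℝ) + 1 ≤ r := by exact_mod_cast h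
        linarith
    · intro r _
      exact measurableSet_Ioo
  have h1 := ENNReal.toReal_mono hfin (measure_mono hsub)
  rw [hvol, Finset.sum_const, nsmul_eq_mul, ENNReal.toReal_mul, ENNReal.toReal_natCast,
    ENNReal.toReal_ofReal (by positivity)] at h1
  exact h1

end First

theorem first_moment : FirstStmt := by
  intro c a b hc ha hab hb
  have hba : 0 < b - a := sub_pos.mpr hab
  have hD : 0 < c * (b - a) := mul_pos hc hba
  refine ⟨⌈(16 / (c * (b - a))) ^ 2⌉₊ + 1, ?_⟩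
  intro n hn0 hphi δ ψ q p hψ hψ1 hqp
  have hn : 0 < n := by omega
  have hnR : (0:ℝ) < n := by exact_mod_cast hn
  have hc1 : c ≤ 1 := by
    refine hphi.trans ?_
    rw [div_le_one hnR]
    exact_mod_cast Nat.totient_le n
  have hb1 : b - a ≤ 1 := by linarith
  have hD1 : c * (b - a) ≤ 1 := by nlinarith
  have hbig : (16 / (c * (b - a))) ^ 2 ≤ n := by
    have h1 := Nat.le_ceil ((16 / (c * (b - a))) ^ 2)
    have h2 : ((⌈(16 / (c * (b - a))) ^ 2⌉₊ : ℕ) : ℝ) + 1 ≤ n := by exact_mod_cast hn0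
    linarith
  set s := Real.sqrt n with hs
  have hs2 : s * s = n := Real.mul_self_sqrt hnR.le
  have hs16 : 16 / (c * (b - a)) ≤ s := by
    rw [hs]
    apply Real.le_sqrt_of_sq_le
    exact hbig
  have hDs : 16 ≤ c * (b - a) * s := by
    rw [div_le_iff₀ hD] at hs16
    linarith
  have hs0 : 16 ≤ s := by nlinarith [Real.sqrt_nonneg (n:ℝ)]
  set U : ℤ := ⌈(n:ℝ) * a - δ + ψ⌉ with hU
  set V : ℤ := ⌊(n:ℝ) * b - δ - ψ⌋ + 1 with hV
  have hU1 : (n:ℝ) * a - δ + ψ ≤ U := Int.le_ceil _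
  have hU2 : (U:ℝ) < n * a - δ + ψ + 1 := Int.ceil_lt_add_one _
  have hV1 : (n:ℝ) * b - δ - ψ < V := by
    rw [hV]
    push_cast
    exact Int.lt_floor_add_one _
  have hVU : (n:ℝ) * (b - a) - 2 ≤ (V:ℝ) - U := by nlinarith
  have hnba : c * (b - a) * s * s ≤ n * (b - a) := by
    have : c * (b - a) * s * s = c * (n * (b - a)) := by rw [← hs2]; ring
    rw [this]
    have h0 : 0 ≤ (n:ℝ) * (b - a) := by positivity
    nlinarith
  have hnba2 : 256 ≤ (n:ℝ) * (b - a) := by nlinarith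
  have hUV : U ≤ V := by
    have : (U:ℝ) ≤ V := by linarith
    exact_mod_cast this
  have hcount := First.count_lower U V hUV q p hqp n hn
  have h2 := First.two_pow_le n hn
  have hmeas := First.measure_lower δ ψ a b n hn q p ha hb hψ hψ1
    ((Finset.Ico U V).filter (fun r => Int.gcd (q * r + p) n = 1)) (by
      intro r hr
      rw [Finset.mem_filter, Finset.mem_Ico] at hr
      refine ⟨?_, ?_, hr.2⟩
      · have : (U:ℝ) ≤ r := by exact_mod_cast hr.1.1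
        linarith
      · have h3 : r ≤ ⌊(n:ℝ) * b - δ - ψ⌋ := by
          have := hr.1.2
          rw [hV] at this
          omega
        exact Int.le_floor.mp h3)
  refine le_trans ?_ hmeas
  set K : ℝ := (((Finset.Ico U V).filter (fun r => Int.gcd (q * r + p) n = 1)).card : ℝ)
  have hK : c * (b - a) * n / 2 ≤ K := by
    have h3 : ((n:ℝ) * (b - a) - 2) * c ≤ ((V:ℝ) - U) * ((Nat.totient n : ℝ) / n) := by
      apply mul_le_mul hVU hphi hc.le
      linarith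
    have h4 : c * (b - a) * n = c * (b - a) * s * s := by rw [← hs2]; ring
    nlinarith
  calc c * ψ * (b - a) = (c * (b - a) * n / 2) * (2 * ψ / n) := by field_simp
    _ ≤ K * (2 * ψ / n) := by gcongr

end Pool.Agent.MP_0863b8

end

section

/-!
MP_0863b8_nt, KILLS: labels, windows, the kills of the explained pairs, the energy of the
explained pairs which are not killed, the number of classes per divisor, and the density of
the kept sets (also locally).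

A pair `(n, m)` has `g = gcd n m`, `u = n / g`, `v = m / g`.  `dep = max (v μ n) (u μ m)`
(`= lcm * max (ρ n) (ρ m)` with `μ n = n ρ n`), `ene = min (μ n / u) (μ m / v)`
(`= g * min (ρ n) (ρ m)`).

`Lab cs Ws δ μ D b c`: the reduced fraction `c / b` is the label, in the space `y = D t` (target
`D δ`, half width `D μ`, `W = 1 / (D μ)`), of a vertex of half width `μ`.
-/

namespace Pool.Agent.MP_0863b8.K

open MeasureTheory Filter
open R (Sm Ag Bs ov)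

/-- depth of a pair -/
noncomputable def dep (μ : ℕ → ℝ) (n m : ℕ) : ℝ :=
  max (((m / n.gcd m : ℕ) : ℝ) * μ n) (((n / n.gcd m : ℕ) : ℝ) * μ m)

/-- energy of a pair -/
noncomputable def ene (μ : ℕ → ℝ) (n m : ℕ) : ℝ :=
  min (μ n / ((n / n.gcd m : ℕ) : ℝ)) (μ m / ((m / n.gcd m : ℕ) : ℝ))

/-- length of the label `c / b` in the space `D` -/
noncomputable def Ln (δ μ : ℝ) (D b : ℕ) (c : ℤ) : ℝ :=
  b * max 1 (|(D : ℝ) * δ - c / b| / (D * μ))

/-- labels -/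
structure Lab (cs Ws δ μ : ℝ) (D b : ℕ) (c : ℤ) : Prop where
  hD : 0 < D
  hb : 0 < b
  hg : Int.gcd b c = 1
  hW : Ws ≤ 1 / (D * μ)
  hL : Ln δ μ D b c ≤ (1 / (D * μ)) ^ (3 * cs)

/-- the window of a label -/
structure Win (L0 δ μ : ℝ) (D b : ℕ) (c : ℤ) (v : ℕ) : Prop where
  h0 : L0 ≤ v
  h1 : (Ln δ μ D b c) ^ ((9:ℝ)/10) ≤ v
  h2 : 8 * Ln δ μ D b c * v < 1 / (D * μ)

/-- the kills: `Ch m` is the chain of spaces of the vertex `m` -/
def Kc (L0 cs Ws : ℝ) (q0 : ℕ) (δ : ℝ) (μ : ℕ → ℝ) (Ch : ℕ → Finset ℕ) (m v : ℕ) (r : ℤ) :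
    Prop :=
  v ∣ m ∧ Sm q0 v ∧ ∃ D ∈ Ch m, (∀ p : ℕ, p.Prime → p ∣ D → Sm p v) ∧
    ∃ (b : ℕ) (c : ℤ), Lab cs Ws δ (μ m) D b c ∧ Win L0 δ (μ m) D b c v ∧
      (v : ℤ) ∣ (b : ℤ) * D * r + c

/-- explained pairs -/
structure Expl (cs θ : ℝ) (μ : ℕ → ℝ) (n m b : ℕ) (c : ℤ) : Prop where
  hb : 0 < b
  hg : Int.gcd b c = 1
  hq : (b : ℝ) ≤ dep μ n m ^ (-cs)
  ht : |θ - c / b| * (max (n / n.gcd m) (m / n.gcd m) : ℕ) ≤ dep μ n m ^ (1 - cs)
  hr : dep μ n m ^ (1 + cs) ≤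
    min (((m / n.gcd m : ℕ) : ℝ) * μ n) (((n / n.gcd m : ℕ) : ℝ) * μ m)

/-! ### Overlaps -/

/-- K0: overlaps (from `OverlapStmt`) -/
def OvK : Prop :=
  ∀ (δ : ℝ) (μ : ℕ → ℝ) (K : ℕ → ℕ → ℤ → Prop) (q n m : ℕ), 0 < n → 0 < m → n ≠ m →
    0 < μ n → 0 < μ m →
    (1/4 ≤ dep μ n m → ov δ μ K q n m ≤ 48 * μ n * μ m) ∧
    (dep μ n m < 1/4 → ov δ μ K q n m ≤ 6 * ene μ n m) ∧
    (dep μ n m < 1/4 → (Bs δ μ K q n ∩ Bs δ μ K q m).Nonempty →
      nd ((((n / n.gcd m : ℕ) : ℝ) - ((m / n.gcd m : ℕ) : ℝ)) * δ) < 2 * dep μ n m)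

/-! ### Labels -/

/-- K1: an explained pair has its label at both ends -/
def LabK : Prop :=
  ∀ cs Ws : ℝ, 0 < cs → cs ≤ 1/20 → ∃ κ0 : ℝ, 0 < κ0 ∧
    ∀ (θ : ℝ) (μ : ℕ → ℝ) (n m b : ℕ) (c : ℤ), 0 < n → 0 < m → 0 < μ n → 0 < μ m →
      dep μ n m ≤ κ0 → Expl cs θ μ n m b c →
      Lab cs Ws θ (μ n) 1 b c ∧ Lab cs Ws θ (μ m) 1 b c ∧
      Ln θ (μ n) 1 b c ≤ dep μ n m ^ (-(3 * cs)) ∧ Ln θ (μ m) 1 b c ≤ dep μ n m ^ (-(3 * cs))

/-- K2: labels of two spaces -/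
def SpaceK : Prop :=
  ∀ (cs Ws δ μ : ℝ) (D D' b b' : ℕ) (c c' : ℤ), 0 < μ → D ∣ D' →
    Lab cs Ws δ μ D b c → Lab cs Ws δ μ D' b' c' →
    (c : ℝ) / (b * D) ≠ (c' : ℝ) / (b' * D') →
    1 / (D' * μ) ≤ 2 * (Ln δ μ D b c * Ln δ μ D' b' c')

/-- K3: the label of a space is unique -/
def UniqK : Prop :=
  ∀ cs : ℝ, 0 < cs → cs ≤ 1/20 → ∃ W0 : ℝ, ∀ Ws : ℝ, W0 ≤ Ws →
    ∀ (δ μ : ℝ) (D b b' : ℕ) (c c' : ℤ), 0 < μ →
    Lab cs Ws δ μ D b c → Lab cs Ws δ μ D b' c' → b = b' ∧ c = c'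

/-- K4: at most two classes for each divisor -/
def MultK : Prop :=
  ∀ cs : ℝ, 0 < cs → cs ≤ 1/20 → ∃ W0 : ℝ, ∀ Ws : ℝ, W0 ≤ Ws →
    ∀ (L0 δ : ℝ) (q0 : ℕ) (μ : ℕ → ℝ) (Ch : ℕ → Finset ℕ) (m : ℕ), 0 < m → 0 < μ m →
    (∀ D ∈ Ch m, ∀ D' ∈ Ch m, D ∣ D' ∨ D' ∣ D) →
    ∀ v : ℕ, ∃ A : Finset ℤ, A.card ≤ 2 ∧
      ∀ r : ℤ, Kc L0 cs Ws q0 δ μ Ch m v r → ∃ a ∈ A, r ≡ a [ZMOD (v : ℤ)]

/-! ### Explained pairs -/

/-- K5: the arithmetic of an intersection point of an explained pair -/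
def PairK : Prop :=
  ∀ (θ x : ℝ) (u v b : ℕ) (c k l : ℤ), Nat.Coprime u v → 0 < b → Int.gcd b c = 1 →
    |(v : ℝ) * k - u * l + ((v : ℝ) - u) * θ| ≤ x →
    b * (x + |((v : ℝ) - u) * (θ - c / b)|) < 1 →
    (v : ℤ) ∣ b * l + c ∧ (u : ℤ) ∣ b * k + c ∧ (b : ℤ) ∣ (v : ℤ) - u ∧
      |((v : ℝ) - u) * (θ - c / b)| ≤ x

/-- K6: explained pairs in the window are killed -/
def KillK : Prop :=
  ∀ cs Ws L0 : ℝ, 0 < cs → cs ≤ 1/20 → ∃ κ0 : ℝ, 0 < κ0 ∧
    ∀ (δ : ℝ) (μ : ℕ → ℝ) (Ch : ℕ → Finset ℕ) (q q0 n m b : ℕ) (c : ℤ), 0 < n → 0 < m →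
      0 < μ n → 0 < μ m → 1 ∈ Ch n → 1 ∈ Ch m → Ag q n m → Ag q0 n m →
      dep μ n m ≤ κ0 → Expl cs δ μ n m b c →
      (Win L0 δ (μ n) 1 b c (n / n.gcd m) ∨ Win L0 δ (μ m) 1 b c (m / n.gcd m)) →
      Bs δ μ (Kc L0 cs Ws q0 δ μ Ch) q n ∩ Bs δ μ (Kc L0 cs Ws q0 δ μ Ch) q m = ∅

/-- K7: explained pairs outside the windows -/
def PtK : Prop :=
  ∀ cs L0 : ℝ, 0 < cs → cs ≤ 1/20 → 2 ^ 20 ≤ L0 → ∃ κ0 : ℝ, 0 < κ0 ∧
    ∀ (θ : ℝ) (μ : ℕ → ℝ) (n m b : ℕ) (c : ℤ), 0 < n → 0 < m → 0 < μ n → 0 < μ m →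
      n / n.gcd m < m / n.gcd m → dep μ n m ≤ κ0 → Expl cs θ μ n m b c →
      nd ((((n / n.gcd m : ℕ) : ℝ) - ((m / n.gcd m : ℕ) : ℝ)) * θ) ≤ 2 * dep μ n m →
      ¬ Win L0 θ (μ n) 1 b c (n / n.gcd m) → ¬ Win L0 θ (μ m) 1 b c (m / n.gcd m) →
      (((n / n.gcd m : ℕ) : ℝ) < L0 ∨
        (n / n.gcd m ≡ m / n.gcd m [MOD b] ∧
          ene μ n m ≤ μ m / ((m / n.gcd m : ℕ) : ℝ) *
            min 1 (4 * b / ((n / n.gcd m : ℕ) : ℝ) ^ ((10:ℝ)/9))))

/-- the explained pairs which are not killed -/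
def Unk (cs L0 κ0 θ : ℝ) (μ : ℕ → ℝ) (n m : ℕ) : Prop :=
  n ≠ m ∧ dep μ n m ≤ κ0 ∧
  nd ((((n / n.gcd m : ℕ) : ℝ) - ((m / n.gcd m : ℕ) : ℝ)) * θ) ≤ 2 * dep μ n m ∧
  ∃ (b : ℕ) (c : ℤ), Expl cs θ μ n m b c ∧
    ¬ Win L0 θ (μ n) 1 b c (n / n.gcd m) ∧ ¬ Win L0 θ (μ m) 1 b c (m / n.gcd m)

open Classical in
/-- K8: their energy -/
def SumK : Prop :=
  ∀ cs L0 C1 : ℝ, 0 < cs → cs ≤ 1/20 → 2 ^ 20 ≤ L0 → ∃ κ0 C : ℝ, 0 < κ0 ∧ 0 < C ∧
    ∀ (θ : ℝ) (μ : ℕ → ℝ) (S : Finset ℕ),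
      (∀ n ∈ S, 0 < n ∧ 0 < μ n ∧ ∑ d ∈ n.divisors, (1 : ℝ) / d ≤ C1) →
      ∑ z ∈ (S ×ˢ S).filter (fun z => Unk cs L0 κ0 θ μ z.1 z.2), ene μ z.1 z.2 ≤
        C * ∑ n ∈ S, μ n

/-- K9: the kills of a new space come from kills of the old space -/
def LiftK : Prop :=
  ∀ (L0 cs Ws : ℝ) (q q0 : ℕ) (δ : ℝ) (μ : ℕ → ℝ) (f m' : ℕ) (Ch Ch' : ℕ → Finset ℕ),
    q.Prime → q ≤ q0 → (∀ D ∈ Ch' m', q * D ∈ Ch (f * m')) →
    ∀ (v : ℕ) (r : ℤ),
      Kc L0 cs Ws q ((q : ℝ) * δ) (fun x => (q : ℝ) * μ (f * x)) Ch' m' v r →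
      Sm q v ∧ ∃ r0 : ℤ, Kc L0 cs Ws q0 δ μ Ch (f * m') v r0 ∧ r ≡ (q : ℤ) * r0 [ZMOD (v : ℤ)]

/-! ### Density of the kept sets -/

open Classical in
/-- D1: the lemma of Filaseta, Ford, Konyagin, Pomerance and Yu -/
def FFK : Prop :=
  ∀ (ι : Type) (s : Finset ι) (n : ι → ℕ) (a : ι → ℤ) (N : ℕ), 0 < N →
    (∀ i ∈ s, n i ∣ N) →
    (N : ℝ) * (∏ i ∈ s, (1 - 1 / (n i : ℝ)) -
      ∑ i ∈ s, ∑ j ∈ s.filter (fun j => j ≠ i ∧ 1 < (n i).gcd (n j)), 1 / ((n i : ℝ) * n j)) ≤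
    (((Finset.range N).filter
      (fun l => ∀ i ∈ s, ¬ ((l : ℤ) ≡ a i [ZMOD (n i : ℤ)]))).card : ℝ)

/-- the integer `l` avoids the classes `A v`, `v ∣ m`, `v ≥ L0` -/
def Avd (L0 : ℝ) (A : ℕ → Finset ℤ) (m : ℕ) (l : ℤ) : Prop :=
  ∀ v ∈ m.divisors, L0 ≤ (v : ℝ) → ∀ a ∈ A v, ¬ (l ≡ a [ZMOD (v : ℤ)])

open Classical in
/-- D2: density of the kept residues -/
def DensK : Prop :=
  ∀ c : ℝ, 0 < c → ∃ L0 c1 : ℝ, 1 ≤ L0 ∧ 0 < c1 ∧ ∀ m : ℕ, 0 < m →
    c ≤ (Nat.totient m : ℝ) / m → ∀ A : ℕ → Finset ℤ, (∀ v, (A v).card ≤ 2) →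
    c1 * m ≤ (((Finset.range m).filter (fun l => Avd L0 A m (l : ℤ))).card : ℝ)

/-- D3: the part of `m` composed of small prime powers -/
def SmallPart : Prop :=
  ∀ c η : ℝ, 0 < c → 0 < η → ∃ m0 : ℕ, ∀ m : ℕ, m0 ≤ m → c ≤ (Nat.totient m : ℝ) / m →
    ∃ m1 : ℕ, m1 ∣ m ∧ (m1 : ℝ) ≤ (m : ℝ) ^ ((1:ℝ)/2) ∧
      ∑ v ∈ m.divisors.filter (fun v => ¬ v ∣ m1), (1 : ℝ) / v ≤ η

open Classical in
/-- D4: density of the kept integers in long intervals -/
def LocalK : Prop :=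
  ∀ c : ℝ, 0 < c → ∃ L0 c1 : ℝ, 1 ≤ L0 ∧ 0 < c1 ∧ ∀ ε : ℝ, 0 < ε → ∃ m0 : ℕ,
    ∀ m : ℕ, m0 ≤ m → c ≤ (Nat.totient m : ℝ) / m →
    ∀ A : ℕ → Finset ℤ, (∀ v, (A v).card ≤ 2) → ∀ (x : ℤ) (H : ℕ), ε * m ≤ H →
    c1 * H ≤ (((Finset.Ico x (x + H)).filter (fun l => Avd L0 A m l)).card : ℝ)

/-- D5: local first moment of the kept sets -/
def FirstK : Prop :=
  ∀ c : ℝ, 0 < c → ∃ L00 c1 : ℝ, 1 ≤ L00 ∧ 0 < c1 ∧ ∀ a b : ℝ, 0 ≤ a → a < b → b ≤ 1 →
    ∃ n0 : ℕ, ∀ n : ℕ, n0 ≤ n → c ≤ (Nat.totient n : ℝ) / n →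
    ∀ (L0 δ : ℝ) (μ : ℕ → ℝ) (K : ℕ → ℕ → ℤ → Prop) (q : ℕ), L00 ≤ L0 → 0 < μ n → μ n ≤ 1/4 →
    (∀ v : ℕ, ∃ A : Finset ℤ, A.card ≤ 2 ∧ ∀ r : ℤ, K n v r →
      v ∣ n ∧ L0 ≤ (v : ℝ) ∧ ∃ a ∈ A, r ≡ a [ZMOD (v : ℤ)]) →
    c1 * μ n * (b - a) ≤ (volume (Bs δ μ K q n ∩ Set.Ioo a b)).toReal

end Pool.Agent.MP_0863b8.K

end

section

/-! The node inequality. -/

set_option autoImplicit false

namespace Pool.Agent.MP_0863b8

open Finset

private theorem nd_geo_aux (ρ : ℝ) (h0 : 0 ≤ ρ) (h1 : ρ < 1) (s : Finset ℕ) :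
    ∑ k ∈ s, ρ ^ (k + 1) ≤ ρ / (1 - ρ) := by
  have hs : Summable fun k : ℕ => ρ ^ (k + 1) := by
    simp only [pow_succ]
    exact (summable_geometric_of_lt_one h0 h1).mul_right ρ
  refine (hs.sum_le_tsum s (fun i _ => by positivity)).trans (le_of_eq ?_)
  simp only [pow_succ]
  rw [tsum_mul_right, tsum_geometric_of_lt_one h0 h1]
  ring

/-- sum of `ρ ^ |i - j|` over `j ≠ i` -/
private theorem nd_geo (ρ : ℝ) (h0 : 0 ≤ ρ) (h1 : ρ < 1) (i N : ℕ) :
    ∑ j ∈ range N, (if j = i then 0 else ρ ^ Nat.dist i j) ≤ 2 * (ρ / (1 - ρ)) := by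
  have e1 : ∀ j ∈ range N, (if j = i then 0 else ρ ^ Nat.dist i j) =
      (if j < i then ρ ^ (i - j - 1 + 1) else 0) + (if i < j then ρ ^ (j - i - 1 + 1) else 0) := by
    intro j _
    rcases lt_trichotomy j i with h | h | h
    · rw [if_neg h.ne, if_pos h, if_neg (by omega), add_zero]
      congr 1
      unfold Nat.dist
      omega
    · rw [if_pos h, if_neg (by omega), if_neg (by omega), add_zero]
    · rw [if_neg h.ne', if_neg (by omega), if_pos h, zero_add]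
      congr 1
      unfold Nat.dist
      omega
  rw [sum_congr rfl e1, sum_add_distrib, ← sum_filter, ← sum_filter, two_mul]
  refine add_le_add ?_ ?_
  · have hinj : Set.InjOn (fun j => i - j - 1) ((range N).filter fun j => j < i) := by
      intro a ha b hb hab
      simp only [coe_filter, Set.mem_ofPred_eq] at ha hb
      simp only at hab
      omega
    rw [← sum_image (f := fun k => ρ ^ (k + 1)) hinj]
    exact nd_geo_aux ρ h0 h1 _
  · have hinj : Set.InjOn (fun j => j - i - 1) ((range N).filter fun j => i < j) := by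
      intro a ha b hb hab
      simp only [coe_filter, Set.mem_ofPred_eq] at ha hb
      simp only at hab
      omega
    rw [← sum_image (f := fun k => ρ ^ (k + 1)) hinj]
    exact nd_geo_aux ρ h0 h1 _

private theorem nd_dist_cast (i j : ℕ) : |(i : ℝ) - j| = ((Nat.dist i j : ℕ) : ℝ) := by
  rcases le_total i j with h | h
  · rw [Nat.dist_eq_sub_of_le h, Nat.cast_sub h, abs_sub_comm, abs_of_nonneg]
    exact sub_nonneg.2 (by exact_mod_cast h)
  · rw [Nat.dist_eq_sub_of_le_right h, Nat.cast_sub h, abs_of_nonneg]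
    exact sub_nonneg.2 (by exact_mod_cast h)

private theorem nd_bern (w a : ℝ) (hw : 0 ≤ w) (hw1 : w ≤ 1) (ha : a ≤ 1) :
    (1 - a) ^ w ≤ 1 - w * a := by
  have h := Real.geom_mean_le_arith_mean2_weighted (w₁ := w) (w₂ := 1 - w) (p₁ := 1 - a)
    (p₂ := 1) hw (by linarith) (by linarith) zero_le_one (by ring)
  rw [Real.one_rpow, mul_one] at h
  linarith

/-- the off-diagonal terms -/
private theorem nd_pair (t a b : ℝ) (ht : 0 < t) (ha : 0 ≤ a) (hb : 0 ≤ b) (hb1 : b ≤ 1)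
    (hat : a ≤ t) :
    (a * b) ^ ((4:ℝ)/7) ≤ t ^ ((4:ℝ)/7) / 2 * (a / t + b) := by
  have h1 : (a * b) ^ ((4:ℝ)/7) = t ^ ((4:ℝ)/7) * ((a / t) ^ ((4:ℝ)/7) * b ^ ((4:ℝ)/7)) := by
    rw [← Real.mul_rpow (by positivity) hb, ← Real.mul_rpow ht.le (by positivity)]
    congr 1
    field_simp
  have h2 : (a / t) ^ ((4:ℝ)/7) ≤ Real.sqrt (a / t) := by
    rw [Real.sqrt_eq_rpow]
    exact Real.rpow_le_rpow_of_exponent_ge' (by positivity) ((div_le_one ht).2 hat)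
      (by norm_num) (by norm_num)
  have h3 : b ^ ((4:ℝ)/7) ≤ Real.sqrt b := by
    rw [Real.sqrt_eq_rpow]
    exact Real.rpow_le_rpow_of_exponent_ge' hb hb1 (by norm_num) (by norm_num)
  have h4 : Real.sqrt (a / t) * Real.sqrt b ≤ (a / t + b) / 2 := by
    have e1 := Real.sq_sqrt (show 0 ≤ a / t by positivity)
    have e2 := Real.sq_sqrt hb
    nlinarith [sq_nonneg (Real.sqrt (a / t) - Real.sqrt b)]
  rw [h1]
  have h5 : (a / t) ^ ((4:ℝ)/7) * b ^ ((4:ℝ)/7) ≤ (a / t + b) / 2 :=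
    (mul_le_mul h2 h3 (by positivity) (Real.sqrt_nonneg _)).trans h4
  calc t ^ ((4:ℝ)/7) * ((a / t) ^ ((4:ℝ)/7) * b ^ ((4:ℝ)/7))
      ≤ t ^ ((4:ℝ)/7) * ((a / t + b) / 2) :=
        mul_le_mul_of_nonneg_left h5 (Real.rpow_nonneg ht.le _)
    _ = t ^ ((4:ℝ)/7) / 2 * (a / t + b) := by ring

/-- the off-diagonal sum -/
private theorem nd_off (ρ : ℝ) (h0 : 0 ≤ ρ) (h1 : ρ < 1) (N : ℕ) (x y : ℕ → ℝ)
    (hx : ∀ i, 0 ≤ x i) (hy : ∀ i, 0 ≤ y i) (hX : ∑ i ∈ range N, x i ≤ 1)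
    (hY : ∑ i ∈ range N, y i ≤ 1) (m : ℕ) (hm : m < N) (t : ℝ) (ht0 : 0 ≤ t)
    (htx : 1 - x m ≤ t) (hty : 1 - y m ≤ t) :
    ∑ i ∈ range N, ∑ j ∈ range N,
      (if j = i then 0 else ρ ^ Nat.dist i j * (x i * y j) ^ ((4:ℝ)/7)) ≤
      4 * (ρ / (1 - ρ)) * t ^ ((4:ℝ)/7) := by
  have hxle : ∀ i ∈ range N, x i ≤ 1 := fun i hi =>
    (single_le_sum (fun j _ => hx j) hi).trans hX
  have hyle : ∀ i ∈ range N, y i ≤ 1 := fun i hi =>
    (single_le_sum (fun j _ => hy j) hi).trans hY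
  have hmr : m ∈ range N := mem_range.2 hm
  have hxe : ∑ i ∈ (range N).erase m, x i ≤ t := by
    have := add_sum_erase (range N) x hmr
    linarith
  have hye : ∑ i ∈ (range N).erase m, y i ≤ t := by
    have := add_sum_erase (range N) y hmr
    linarith
  have hxt : ∀ i ∈ range N, i ≠ m → x i ≤ t := fun i hi him =>
    (single_le_sum (fun j _ => hx j) (mem_erase.2 ⟨him, hi⟩)).trans hxe
  have hyt : ∀ i ∈ range N, i ≠ m → y i ≤ t := fun i hi him =>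
    (single_le_sum (fun j _ => hy j) (mem_erase.2 ⟨him, hi⟩)).trans hye
  have hρ : 0 ≤ ρ / (1 - ρ) := div_nonneg h0 (by linarith)
  rcases ht0.eq_or_lt with ht | ht
  · -- t = 0: everything vanishes
    have hz : ∑ i ∈ range N, ∑ j ∈ range N,
        (if j = i then 0 else ρ ^ Nat.dist i j * (x i * y j) ^ ((4:ℝ)/7)) = 0 := by
      refine sum_eq_zero fun i hi => sum_eq_zero fun j hj => ?_
      split_ifs with hij
      · rfl
      · have hxy : x i * y j = 0 := by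
          by_cases him : i = m
          · have hjm : j ≠ m := fun h => hij (h.trans him.symm)
            have := hyt j hj hjm
            rw [le_antisymm (this.trans ht.symm.le) (hy j), mul_zero]
          · have := hxt i hi him
            rw [le_antisymm (this.trans ht.symm.le) (hx i), zero_mul]
        rw [hxy, Real.zero_rpow (by norm_num), mul_zero]
    rw [hz]
    have := Real.rpow_nonneg ht0 ((4:ℝ)/7)
    positivity
  · let u : ℕ → ℝ := fun i => x i + if i = m then 0 else x i / t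
    let v : ℕ → ℝ := fun j => y j + if j = m then 0 else y j / t
    have hu0 : ∀ i, 0 ≤ u i := by
      intro i
      simp only [u]
      split_ifs
      · linarith [hx i]
      · have := hx i; positivity
    have hv0 : ∀ i, 0 ≤ v i := by
      intro i
      simp only [v]
      split_ifs
      · linarith [hy i]
      · have := hy i; positivity
    have hsumu : ∑ i ∈ range N, u i ≤ 2 := by
      simp only [u]
      rw [sum_add_distrib]
      have : ∑ i ∈ range N, (if i = m then 0 else x i / t) = (∑ i ∈ (range N).erase m, x i) / t := by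
        rw [sum_div, ← sum_erase_add _ _ hmr, if_pos rfl, add_zero]
        refine sum_congr rfl fun i hi => ?_
        rw [if_neg (mem_erase.1 hi).1]
      rw [this]
      have h2 : (∑ i ∈ (range N).erase m, x i) / t ≤ 1 := (div_le_one ht).2 hxe
      linarith
    have hsumv : ∑ i ∈ range N, v i ≤ 2 := by
      simp only [v]
      rw [sum_add_distrib]
      have : ∑ i ∈ range N, (if i = m then 0 else y i / t) = (∑ i ∈ (range N).erase m, y i) / t := by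
        rw [sum_div, ← sum_erase_add _ _ hmr, if_pos rfl, add_zero]
        refine sum_congr rfl fun i hi => ?_
        rw [if_neg (mem_erase.1 hi).1]
      rw [this]
      have h2 : (∑ i ∈ (range N).erase m, y i) / t ≤ 1 := (div_le_one ht).2 hye
      linarith
    set T : ℝ := t ^ ((4:ℝ)/7) / 2 with hT
    have hT0 : 0 ≤ T := by rw [hT]; positivity
    have hpt : ∀ i ∈ range N, ∀ j ∈ range N,
        (if j = i then 0 else ρ ^ Nat.dist i j * (x i * y j) ^ ((4:ℝ)/7)) ≤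
        T * ((if j = i then 0 else ρ ^ Nat.dist i j) * u i +
          (if i = j then 0 else ρ ^ Nat.dist j i) * v j) := by
      intro i hi j hj
      by_cases hij : j = i
      · rw [if_pos hij, if_pos hij, if_pos hij.symm]
        simp
      · rw [if_neg hij, if_neg hij, if_neg (Ne.symm hij), Nat.dist_comm j i]
        have hp : (x i * y j) ^ ((4:ℝ)/7) ≤ T * (u i + v j) := by
          by_cases him : i = m
          · have hjm : j ≠ m := fun h => hij (h.trans him.symm)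
            have h3 := nd_pair t (y j) (x i) ht (hy j) (hx i) (hxle i hi) (hyt j hj hjm)
            rw [mul_comm (y j)] at h3
            refine h3.trans (mul_le_mul_of_nonneg_left ?_ hT0)
            simp only [u, v]
            rw [if_pos him, if_neg hjm]
            linarith [hy j]
          · have h3 := nd_pair t (x i) (y j) ht (hx i) (hy j) (hyle j hj) (hxt i hi him)
            refine h3.trans (mul_le_mul_of_nonneg_left ?_ hT0)
            have h4 : y j ≤ v j := by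
              simp only [v]
              split_ifs
              · linarith
              · have := hy j
                have h5 : 0 ≤ y j / t := by positivity
                linarith
            simp only [u]
            rw [if_neg him]
            linarith [hx i]
        calc ρ ^ Nat.dist i j * (x i * y j) ^ ((4:ℝ)/7) ≤ ρ ^ Nat.dist i j * (T * (u i + v j)) :=
              mul_le_mul_of_nonneg_left hp (pow_nonneg h0 _)
          _ = T * (ρ ^ Nat.dist i j * u i + ρ ^ Nat.dist i j * v j) := by ring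
    refine (sum_le_sum fun i hi => sum_le_sum fun j hj => hpt i hi j hj).trans ?_
    have e1 : ∑ i ∈ range N, ∑ j ∈ range N, T * ((if j = i then 0 else ρ ^ Nat.dist i j) * u i +
          (if i = j then 0 else ρ ^ Nat.dist j i) * v j) =
        T * (∑ i ∈ range N, (∑ j ∈ range N, (if j = i then 0 else ρ ^ Nat.dist i j)) * u i +
          ∑ j ∈ range N, (∑ i ∈ range N, (if i = j then 0 else ρ ^ Nat.dist j i)) * v j) := by
      simp only [← mul_sum]
      congr 1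
      simp only [sum_add_distrib]
      congr 1
      · refine sum_congr rfl fun i _ => ?_
        rw [sum_mul]
      · rw [sum_comm]
        refine sum_congr rfl fun i _ => ?_
        rw [sum_mul]
    rw [e1]
    have h5 : ∑ i ∈ range N, (∑ j ∈ range N, (if j = i then 0 else ρ ^ Nat.dist i j)) * u i ≤
        2 * (ρ / (1 - ρ)) * 2 := by
      calc _ ≤ ∑ i ∈ range N, 2 * (ρ / (1 - ρ)) * u i :=
            sum_le_sum fun i _ => mul_le_mul_of_nonneg_right (nd_geo ρ h0 h1 i N) (hu0 i)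
        _ = 2 * (ρ / (1 - ρ)) * ∑ i ∈ range N, u i := by rw [mul_sum]
        _ ≤ _ := mul_le_mul_of_nonneg_left hsumu (by positivity)
    have h6 : ∑ j ∈ range N, (∑ i ∈ range N, (if i = j then 0 else ρ ^ Nat.dist j i)) * v j ≤
        2 * (ρ / (1 - ρ)) * 2 := by
      calc _ ≤ ∑ i ∈ range N, 2 * (ρ / (1 - ρ)) * v i :=
            sum_le_sum fun i _ => mul_le_mul_of_nonneg_right (nd_geo ρ h0 h1 i N) (hv0 i)
        _ = 2 * (ρ / (1 - ρ)) * ∑ i ∈ range N, v i := by rw [mul_sum]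
        _ ≤ _ := mul_le_mul_of_nonneg_left hsumv (by positivity)
    calc T * _ ≤ T * (2 * (ρ / (1 - ρ)) * 2 + 2 * (ρ / (1 - ρ)) * 2) :=
          mul_le_mul_of_nonneg_left (add_le_add h5 h6) hT0
      _ = 4 * (ρ / (1 - ρ)) * t ^ ((4:ℝ)/7) := by rw [hT]; ring

/-- the diagonal sum -/
private theorem nd_diag (N : ℕ) (x y : ℕ → ℝ)
    (hx : ∀ i, 0 ≤ x i) (hy : ∀ i, 0 ≤ y i) (hX : ∑ i ∈ range N, x i ≤ 1)
    (hY : ∑ i ∈ range N, y i ≤ 1) (m : ℕ) (hmax : ∀ i ∈ range N, x i * y i ≤ x m * y m) :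
    ∑ i ∈ range N, (x i * y i) ^ ((4:ℝ)/7) ≤ ((x m + y m) / 2) ^ ((1:ℝ)/7) := by
  have h1 : ∀ i ∈ range N, (x i * y i) ^ ((4:ℝ)/7) ≤
      ((x m + y m) / 2) ^ ((1:ℝ)/7) * (Real.sqrt (x i) * Real.sqrt (y i)) := by
    intro i hi
    have hxy : 0 ≤ x i * y i := mul_nonneg (hx i) (hy i)
    have e1 : (x i * y i) ^ ((4:ℝ)/7) = (x i * y i) ^ ((1:ℝ)/14) * Real.sqrt (x i * y i) := by
      rw [Real.sqrt_eq_rpow, ← Real.rpow_add_of_nonneg hxy (by norm_num) (by norm_num)]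
      norm_num
    have e2 : (x i * y i) ^ ((1:ℝ)/14) ≤ ((x m + y m) / 2) ^ ((1:ℝ)/7) := by
      have e3 : (x i * y i) ^ ((1:ℝ)/14) ≤ (((x m + y m) / 2) ^ 2) ^ ((1:ℝ)/14) := by
        refine Real.rpow_le_rpow hxy ((hmax i hi).trans ?_) (by norm_num)
        nlinarith [sq_nonneg (x m - y m)]
      refine e3.trans (le_of_eq ?_)
      have h2 : 0 ≤ (x m + y m) / 2 := by linarith [hx m, hy m]
      rw [← Real.rpow_natCast, ← Real.rpow_mul h2]
      norm_num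
    rw [e1, Real.sqrt_mul (hx i)]
    exact mul_le_mul_of_nonneg_right e2 (by positivity)
  refine (sum_le_sum h1).trans ?_
  rw [← mul_sum]
  have h2 := Real.sum_sqrt_mul_sqrt_le (range N) hx hy
  have h3 : Real.sqrt (∑ i ∈ range N, x i) * Real.sqrt (∑ i ∈ range N, y i) ≤ 1 := by
    have a1 : Real.sqrt (∑ i ∈ range N, x i) ≤ 1 := Real.sqrt_le_one.2 hX
    have a2 : Real.sqrt (∑ i ∈ range N, y i) ≤ 1 := Real.sqrt_le_one.2 hY
    exact mul_le_one₀ a1 (Real.sqrt_nonneg _) a2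
  have h4 : 0 ≤ ((x m + y m) / 2) ^ ((1:ℝ)/7) :=
    Real.rpow_nonneg (by linarith [hx m, hy m]) _
  calc _ ≤ ((x m + y m) / 2) ^ ((1:ℝ)/7) * 1 :=
        mul_le_mul_of_nonneg_left (h2.trans h3) h4
    _ = _ := mul_one _

/-- final numerical estimate -/
private theorem nd_final (s f K l : ℝ) (hs0 : 0 ≤ s) (hs1 : s ≤ 1) (hf0 : 0 ≤ f) (hf1 : f ≤ 1)
    (hK : 0 ≤ K) (hl : 0 < l) :
    (1 - f) ^ ((2:ℝ)/7) * (1 - s) ^ ((1:ℝ)/7) +
      f ^ ((2:ℝ)/7) * (K * l ^ (-(1:ℝ)/7) * s ^ ((4:ℝ)/7)) ≤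
    1 - (2/25) * s + (K ^ 7 * 12 ^ 6 / 7) / l := by
  have h1 := nd_bern (2/7) f (by norm_num) (by norm_num) hf1
  have h2 := nd_bern (1/7) s (by norm_num) (by norm_num) hs1
  have h3 : (1 - f) ^ ((2:ℝ)/7) * (1 - s) ^ ((1:ℝ)/7) ≤ (1 - 2/7 * f) * (1 - 1/7 * s) :=
    mul_le_mul h1 h2 (Real.rpow_nonneg (by linarith) _) (by linarith)
  have h4 := Real.geom_mean_le_arith_mean3_weighted (w₁ := 4/7) (w₂ := 2/7) (w₃ := 1/7)
    (p₁ := s / 12) (p₂ := f / 12) (p₃ := K ^ 7 * 12 ^ 6 / l) (by norm_num) (by norm_num)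
    (by norm_num) (by positivity) (by positivity) (by positivity) (by norm_num)
  have h5 : (s / 12) ^ ((4:ℝ)/7) * (f / 12) ^ ((2:ℝ)/7) * (K ^ 7 * 12 ^ 6 / l) ^ ((1:ℝ)/7) =
      f ^ ((2:ℝ)/7) * (K * l ^ (-(1:ℝ)/7) * s ^ ((4:ℝ)/7)) := by
    rw [Real.div_rpow hs0 (by norm_num), Real.div_rpow hf0 (by norm_num),
      Real.div_rpow (by positivity) hl.le, Real.mul_rpow (by positivity) (by positivity)]
    have a1 : (K ^ 7) ^ ((1:ℝ)/7) = K := by
      rw [← Real.rpow_natCast, ← Real.rpow_mul hK]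
      norm_num
    have a2 : ((12:ℝ) ^ 6) ^ ((1:ℝ)/7) = 12 ^ ((4:ℝ)/7) * 12 ^ ((2:ℝ)/7) := by
      rw [← Real.rpow_natCast, ← Real.rpow_mul (by norm_num), ← Real.rpow_add (by norm_num)]
      norm_num
    have a3 : l ^ (-(1:ℝ)/7) = (l ^ ((1:ℝ)/7))⁻¹ := by
      rw [← Real.rpow_neg hl.le]
      congr 1
      ring
    rw [a1, a2, a3]
    have b1 : (12:ℝ) ^ ((4:ℝ)/7) ≠ 0 := by positivity
    have b2 : (12:ℝ) ^ ((2:ℝ)/7) ≠ 0 := by positivity
    field_simp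
  rw [h5] at h4
  have h6 : (1:ℝ)/7 * (K ^ 7 * 12 ^ 6 / l) = (K ^ 7 * 12 ^ 6 / 7) / l := by ring
  rw [h6] at h4
  nlinarith [mul_nonneg hs0 hf0, mul_le_mul_of_nonneg_right hs1 hf0]

theorem node : NodeStmt := by
  set ρ0 : ℝ := (2:ℝ) ^ (-(1:ℝ)/7) with hρ0
  have hρ01 : ρ0 < 1 := Real.rpow_lt_one_of_one_lt_of_neg (by norm_num) (by norm_num)
  have hρ00 : 0 < ρ0 := by rw [hρ0]; positivity
  set K : ℝ := 4 / (1 - ρ0) * 2 ^ ((4:ℝ)/7) with hK
  have hK0 : 0 < K := by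
    rw [hK]
    have : 0 < 1 - ρ0 := by linarith
    positivity
  refine ⟨K ^ 7 * 12 ^ 6 / 7, by positivity, ?_⟩
  intro l hl N hN x y F hx hy hF hX hY hFs
  have hl0 : 0 < l := by linarith
  set ρ : ℝ := l ^ (-(1:ℝ)/7) with hρ
  have hρpos : 0 < ρ := by rw [hρ]; positivity
  have hρle : ρ ≤ ρ0 := by
    rw [hρ, hρ0]
    exact Real.rpow_le_rpow_of_nonpos (by norm_num) hl (by norm_num)
  have hρ1 : ρ < 1 := hρle.trans_lt hρ01
  obtain ⟨m, hm, hmax⟩ := exists_max_image (range N) (fun i => x i * y i) ⟨0, mem_range.2 hN⟩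
  have hmN : m < N := mem_range.1 hm
  refine ⟨m, hmN, ?_⟩
  have hxm : x m ≤ 1 := (single_le_sum (fun j _ => hx j) hm).trans hX
  have hym : y m ≤ 1 := (single_le_sum (fun j _ => hy j) hm).trans hY
  set s : ℝ := ((1 - x m) + (1 - y m)) / 2 with hs
  have hs0 : 0 ≤ s := by rw [hs]; linarith
  have hs1 : s ≤ 1 := by rw [hs]; linarith [hx m, hy m]
  -- the total of F outside zero
  set fb : ℝ := ∑ k ∈ (Finset.Icc (-(N:ℤ)) N).erase 0, F k with hfb
  have h0mem : (0:ℤ) ∈ Finset.Icc (-(N:ℤ)) N := by rw [Finset.mem_Icc]; omega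
  have hfsum : F 0 + fb ≤ 1 := by
    rw [hfb, add_sum_erase _ _ h0mem]
    exact hFs
  have hfb0 : 0 ≤ fb := sum_nonneg fun k _ => hF k
  have hfb1 : fb ≤ 1 := by linarith [hF 0]
  have hFk : ∀ i ∈ range N, ∀ j ∈ range N, j ≠ i → F ((i:ℤ) - j) ≤ fb := by
    intro i hi j hj hij
    rw [mem_range] at hi hj
    refine single_le_sum (f := F) (fun k _ => hF k) ?_
    rw [mem_erase, Finset.mem_Icc]
    refine ⟨?_, ?_, ?_⟩ <;> omega
  -- pointwise comparison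
  have hw : ∀ i j : ℕ, l ^ (-(|(i:ℝ) - j|) / 7) = ρ ^ Nat.dist i j := by
    intro i j
    rw [nd_dist_cast, hρ, ← Real.rpow_natCast, ← Real.rpow_mul hl0.le]
    congr 1
    ring
  have hpt : ∀ i ∈ range N, ∀ j ∈ range N,
      l ^ (-(|(i:ℝ) - j|) / 7) * (F ((i:ℤ) - j)) ^ ((2:ℝ)/7) * (x i * y j) ^ ((4:ℝ)/7) ≤
      (if j = i then (F 0) ^ ((2:ℝ)/7) * (x i * y i) ^ ((4:ℝ)/7) else 0) +
      fb ^ ((2:ℝ)/7) * (if j = i then 0 else ρ ^ Nat.dist i j * (x i * y j) ^ ((4:ℝ)/7)) := by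
    intro i hi j hj
    rw [hw]
    by_cases hij : j = i
    · subst hij
      rw [if_pos rfl, if_pos rfl, Nat.dist_self, sub_self]
      simp
    · rw [if_neg hij, if_neg hij, zero_add]
      have h1 : (F ((i:ℤ) - j)) ^ ((2:ℝ)/7) ≤ fb ^ ((2:ℝ)/7) :=
        Real.rpow_le_rpow (hF _) (hFk i hi j hj hij) (by norm_num)
      have h2 : 0 ≤ (x i * y j) ^ ((4:ℝ)/7) := Real.rpow_nonneg (mul_nonneg (hx i) (hy j)) _
      have h3 : 0 ≤ ρ ^ Nat.dist i j := by positivity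
      calc ρ ^ Nat.dist i j * (F ((i:ℤ) - j)) ^ ((2:ℝ)/7) * (x i * y j) ^ ((4:ℝ)/7)
          = (F ((i:ℤ) - j)) ^ ((2:ℝ)/7) * (ρ ^ Nat.dist i j * (x i * y j) ^ ((4:ℝ)/7)) := by ring
        _ ≤ _ := mul_le_mul_of_nonneg_right h1 (by positivity)
  refine (sum_le_sum fun i hi => sum_le_sum fun j hj => hpt i hi j hj).trans ?_
  simp only [sum_add_distrib, ← mul_sum]
  have e1 : ∑ i ∈ range N, ∑ j ∈ range N,
      (if j = i then (F 0) ^ ((2:ℝ)/7) * (x i * y i) ^ ((4:ℝ)/7) else 0) =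
      (F 0) ^ ((2:ℝ)/7) * ∑ i ∈ range N, (x i * y i) ^ ((4:ℝ)/7) := by
    rw [mul_sum]
    refine sum_congr rfl fun i hi => ?_
    rw [sum_ite_eq' (range N) i (fun _ => (F 0) ^ ((2:ℝ)/7) * (x i * y i) ^ ((4:ℝ)/7)), if_pos hi]
  rw [e1]
  have hdiag := nd_diag N x y hx hy hX hY m hmax
  have hoff := nd_off ρ hρpos.le hρ1 N x y hx hy hX hY m hmN (2 * s) (by linarith)
    (by rw [hs]; linarith) (by rw [hs]; linarith)
  have e2 : (x m + y m) / 2 = 1 - s := by rw [hs]; ring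
  rw [e2] at hdiag
  have h1 : (F 0) ^ ((2:ℝ)/7) * ∑ i ∈ range N, (x i * y i) ^ ((4:ℝ)/7) ≤
      (1 - fb) ^ ((2:ℝ)/7) * (1 - s) ^ ((1:ℝ)/7) := by
    refine mul_le_mul ?_ hdiag ?_ ?_
    · exact Real.rpow_le_rpow (hF 0) (by linarith) (by norm_num)
    · exact sum_nonneg fun i _ => Real.rpow_nonneg (mul_nonneg (hx i) (hy i)) _
    · exact Real.rpow_nonneg (by linarith) _
  have h2 : 4 * (ρ / (1 - ρ)) * (2 * s) ^ ((4:ℝ)/7) ≤ K * ρ * s ^ ((4:ℝ)/7) := by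
    rw [Real.mul_rpow (by norm_num) hs0, hK]
    have a1 : ρ / (1 - ρ) ≤ ρ / (1 - ρ0) :=
      div_le_div_of_nonneg_left hρpos.le (by linarith) (by linarith)
    have a2 : 0 ≤ (2:ℝ) ^ ((4:ℝ)/7) * s ^ ((4:ℝ)/7) := by positivity
    calc 4 * (ρ / (1 - ρ)) * ((2:ℝ) ^ ((4:ℝ)/7) * s ^ ((4:ℝ)/7))
        ≤ 4 * (ρ / (1 - ρ0)) * ((2:ℝ) ^ ((4:ℝ)/7) * s ^ ((4:ℝ)/7)) :=
          mul_le_mul_of_nonneg_right (by linarith) a2
      _ = 4 / (1 - ρ0) * 2 ^ ((4:ℝ)/7) * ρ * s ^ ((4:ℝ)/7) := by ring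
  have h3 := mul_le_mul_of_nonneg_left (hoff.trans h2) (Real.rpow_nonneg hfb0 ((2:ℝ)/7))
  have hfin := nd_final s fb K l hs0 hs1 hfb0 hfb1 hK0.le hl0
  rw [← hρ] at hfin
  have e3 : (1:ℝ)/25 * ((1 - x m) + (1 - y m)) = 2/25 * s := by rw [hs]; ring
  rw [e3]
  linarith

end Pool.Agent.MP_0863b8

end
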