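import Pool.Agent.Work.MP_0863b8_nt.Defs
import Pool.Agent.Work.MP_0863b8_nt.R.Defs
import Pool.Agent.Work.MP_0863b8_nt.Bd.B01
import Pool.Agent.Work.MP_0863b8_nt.Overlap

/-! Bundle of small proof modules (one section per former module). -/

section

namespace Pool.Agent.MP_0863b8

open MeasureTheory Filter

theorem nd_le_abs (x : ℝ) (m : ℤ) : nd x ≤ |x - m| := round_le x m

theorem nd_add_int (x : ℝ) (m : ℤ) : nd (x + m) = nd x := by
  unfold nd
  rw [round_add_intCast]
  congr 1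
  push_cast
  ring

/-- from (H1), (H2): divergence on the set `φ(n)/n >= c` -/
theorem diverge (Φ : ℕ → ℝ) (h0 : ∀ n, 0 ≤ Φ n) (h1 : H1 Φ) (h2 : H2 Φ) :
    ∃ c : ℝ, 0 < c ∧ ∀ M : ℝ, ∃ N : ℕ, M ≤ ∑ n ∈ (Finset.Icc 1 N).filter
      (fun n => c ≤ (Nat.totient n : ℝ) / n ∧ 0 < Φ n), Φ n := by
  classical
  set A : ℕ → ℝ := fun N => ∑ n ∈ Finset.Icc 1 N, (Nat.totient n : ℝ) / n * Φ n with hA
  set T : ℕ → ℝ := fun N => ∑ n ∈ Finset.Icc 1 N, Φ n with hT
  have hA0 : ∀ N, 0 ≤ A N := by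
    intro N
    apply Finset.sum_nonneg
    intro n _
    have := h0 n
    positivity
  have hT0 : ∀ N, 0 ≤ T N := fun N => Finset.sum_nonneg (fun n _ => h0 n)
  have h2' : 0 < limsup (fun N : ℕ => A N * (T N)⁻¹) atTop := h2
  obtain ⟨c', hc'0, hc'⟩ := exists_between h2'
  have hfreq : ∃ᶠ N in atTop, c' < A N * (T N)⁻¹ := by
    apply frequently_lt_of_lt_limsup _ hc'
    exact isCoboundedUnder_le_of_le atTop (x := 0)
      (fun N => mul_nonneg (hA0 N) (inv_nonneg.mpr (hT0 N)))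
  refine ⟨c' / 2, by positivity, ?_⟩
  intro M
  have hev : ∀ᶠ N in atTop, 2 * M ≤ A N := h1.eventually_ge_atTop (2 * M)
  obtain ⟨N, hN1, hN2⟩ := (hfreq.and_eventually hev).exists
  refine ⟨N, ?_⟩
  have hTpos : 0 < T N := by
    rcases (hT0 N).lt_or_eq with h | h
    · exact h
    · rw [← h] at hN1
      simp at hN1
      linarith
  have hlt : c' * T N < A N := by
    rw [← div_eq_mul_inv, lt_div_iff₀ hTpos] at hN1
    exact hN1
  -- split A N
  have hsplit : A N = ∑ n ∈ (Finset.Icc 1 N).filter (fun n => c' / 2 ≤ (Nat.totient n : ℝ) / n),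
      (Nat.totient n : ℝ) / n * Φ n + ∑ n ∈ (Finset.Icc 1 N).filter
      (fun n => ¬ (c' / 2 ≤ (Nat.totient n : ℝ) / n)), (Nat.totient n : ℝ) / n * Φ n := by
    rw [Finset.sum_filter_add_sum_filter_not]
  have hsmall : ∑ n ∈ (Finset.Icc 1 N).filter
      (fun n => ¬ (c' / 2 ≤ (Nat.totient n : ℝ) / n)), (Nat.totient n : ℝ) / n * Φ n ≤
      c' / 2 * T N := by
    calc ∑ n ∈ (Finset.Icc 1 N).filter
          (fun n => ¬ (c' / 2 ≤ (Nat.totient n : ℝ) / n)), (Nat.totient n : ℝ) / n * Φ n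
        ≤ ∑ n ∈ (Finset.Icc 1 N).filter
          (fun n => ¬ (c' / 2 ≤ (Nat.totient n : ℝ) / n)), c' / 2 * Φ n := by
          apply Finset.sum_le_sum
          intro n hn
          rw [Finset.mem_filter] at hn
          apply mul_le_mul_of_nonneg_right _ (h0 n)
          linarith [hn.2]
      _ ≤ ∑ n ∈ Finset.Icc 1 N, c' / 2 * Φ n := by
          apply Finset.sum_le_sum_of_subset_of_nonneg (Finset.filter_subset _ _)
          intro n _ _
          have := h0 n
          positivity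
      _ = c' / 2 * T N := by rw [hT]; simp only; rw [Finset.mul_sum]
  have hlarge : ∑ n ∈ (Finset.Icc 1 N).filter (fun n => c' / 2 ≤ (Nat.totient n : ℝ) / n),
      (Nat.totient n : ℝ) / n * Φ n ≤ ∑ n ∈ (Finset.Icc 1 N).filter
      (fun n => c' / 2 ≤ (Nat.totient n : ℝ) / n ∧ 0 < Φ n), Φ n := by
    calc ∑ n ∈ (Finset.Icc 1 N).filter (fun n => c' / 2 ≤ (Nat.totient n : ℝ) / n),
        (Nat.totient n : ℝ) / n * Φ n
        ≤ ∑ n ∈ (Finset.Icc 1 N).filter (fun n => c' / 2 ≤ (Nat.totient n : ℝ) / n), Φ n := by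
          apply Finset.sum_le_sum
          intro n hn
          rw [Finset.mem_filter, Finset.mem_Icc] at hn
          have hn0 : (0:ℝ) < n := by exact_mod_cast hn.1.1
          have : (Nat.totient n : ℝ) / n ≤ 1 := by
            rw [div_le_one hn0]
            exact_mod_cast Nat.totient_le n
          calc (Nat.totient n : ℝ) / n * Φ n ≤ 1 * Φ n :=
                mul_le_mul_of_nonneg_right this (h0 n)
            _ = Φ n := one_mul _
      _ = ∑ n ∈ (Finset.Icc 1 N).filter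
          (fun n => c' / 2 ≤ (Nat.totient n : ℝ) / n ∧ 0 < Φ n), Φ n := by
          symm
          apply Finset.sum_subset
          · intro n hn
            rw [Finset.mem_filter] at hn ⊢
            exact ⟨hn.1, hn.2.1⟩
          · intro n hn hn'
            rw [Finset.mem_filter] at hn hn'
            by_contra hne
            apply hn'
            exact ⟨hn.1, hn.2, lt_of_le_of_ne (h0 n) (Ne.symm hne)⟩
  nlinarith [hN2]

/-- blocks of mass between 1/2 and 1 -/
theorem blocks (Φ : ℕ → ℝ) (h0 : ∀ n, 0 ≤ Φ n) (c : ℝ)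
    (hdiv : ∀ M : ℝ, ∃ N : ℕ, M ≤ ∑ n ∈ (Finset.Icc 1 N).filter
      (fun n => c ≤ (Nat.totient n : ℝ) / n ∧ 0 < Φ n), Φ n) (t : ℕ) :
    ∃ S : Finset ℕ, (∀ n ∈ S, t ≤ n ∧ 0 < n ∧ c ≤ (Nat.totient n : ℝ) / n ∧ 0 < Φ n) ∧
      1 / 2 ≤ ∑ n ∈ S, min (Φ n) (1/8) ∧ ∑ n ∈ S, min (Φ n) (1/8) ≤ 1 := by
  classical
  set p : ℕ → Prop := fun n => c ≤ (Nat.totient n : ℝ) / n ∧ 0 < Φ n with hp
  set ψ : ℕ → ℝ := fun n => min (Φ n) (1/8) with hψ
  have hψ0 : ∀ n, 0 ≤ ψ n := fun n => le_min (h0 n) (by norm_num)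
  have hψ8 : ∀ n, ψ n ≤ 1/8 := fun n => min_le_right _ _
  -- divergence of ψ
  have hdivψ : ∀ M : ℝ, ∃ N : ℕ, M ≤ ∑ n ∈ (Finset.Icc 1 N).filter p, ψ n := by
    by_contra hcon
    push Not at hcon
    obtain ⟨M, hM⟩ := hcon
    -- the set of large values is finite
    have hfin : {n : ℕ | 1 ≤ n ∧ p n ∧ 1/8 < Φ n}.Finite := by
      by_contra hinf
      have hinf' : {n : ℕ | 1 ≤ n ∧ p n ∧ 1/8 < Φ n}.Infinite := hinf
      obtain ⟨K, hK1, hK2⟩ := hinf'.exists_subset_card_eq (⌈8 * M⌉₊ + 1)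
      obtain ⟨N, hN⟩ : ∃ N : ℕ, ∀ n ∈ K, n ≤ N := ⟨K.sup id, fun n hn => Finset.le_sup (f := id) hn⟩
      have h1 : ∑ n ∈ K, ψ n ≤ ∑ n ∈ (Finset.Icc 1 N).filter p, ψ n := by
        apply Finset.sum_le_sum_of_subset_of_nonneg
        · intro n hn
          have := hK1 hn
          rw [Finset.mem_filter, Finset.mem_Icc]
          exact ⟨⟨this.1, hN n hn⟩, this.2.1⟩
        · intro n _ _
          exact hψ0 n
      have h2 : ∑ n ∈ K, ψ n = (K.card : ℝ) * (1/8) := by
        rw [← nsmul_eq_mul, ← Finset.sum_const]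
        apply Finset.sum_congr rfl
        intro n hn
        have := (hK1 hn).2.2
        exact min_eq_right this.le
      rw [hK2] at h2
      push_cast at h2
      have h3 := Nat.le_ceil (8 * M)
      have h4 := hM N
      linarith
    obtain ⟨N, hN⟩ := hdiv (M + ∑ n ∈ hfin.toFinset, Φ n)
    have h1 : ∑ n ∈ (Finset.Icc 1 N).filter p, Φ n ≤
        ∑ n ∈ (Finset.Icc 1 N).filter p, ψ n + ∑ n ∈ hfin.toFinset, Φ n := by
      calc ∑ n ∈ (Finset.Icc 1 N).filter p, Φ n
          ≤ ∑ n ∈ (Finset.Icc 1 N).filter p, (ψ n + if n ∈ hfin.toFinset then Φ n else 0) := by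
            apply Finset.sum_le_sum
            intro n hn
            rw [Finset.mem_filter, Finset.mem_Icc] at hn
            by_cases h8 : 1/8 < Φ n
            · have : n ∈ hfin.toFinset := by
                rw [Set.Finite.mem_toFinset]
                exact ⟨hn.1.1, hn.2, h8⟩
              rw [if_pos this]
              linarith [hψ0 n]
            · have : n ∉ hfin.toFinset := by
                rw [Set.Finite.mem_toFinset]
                intro h
                exact h8 h.2.2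
              rw [if_neg this]
              push Not at h8
              have : ψ n = Φ n := min_eq_left h8
              linarith
        _ = ∑ n ∈ (Finset.Icc 1 N).filter p, ψ n +
            ∑ n ∈ (Finset.Icc 1 N).filter p, (if n ∈ hfin.toFinset then Φ n else 0) :=
            Finset.sum_add_distrib
        _ ≤ ∑ n ∈ (Finset.Icc 1 N).filter p, ψ n + ∑ n ∈ hfin.toFinset, Φ n := by
            rw [← Finset.sum_filter]
            have : ∑ n ∈ ((Finset.Icc 1 N).filter p).filter (fun n => n ∈ hfin.toFinset), Φ n ≤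
                ∑ n ∈ hfin.toFinset, Φ n := by
              apply Finset.sum_le_sum_of_subset_of_nonneg
              · intro n hn
                rw [Finset.mem_filter] at hn
                exact hn.2
              · intro n _ _
                exact h0 n
            linarith
    have := hM N
    linarith
  -- start at t
  have hex : ∃ N : ℕ, 1/2 ≤ ∑ n ∈ ((Finset.Icc 1 N).filter p).filter (fun n => t ≤ n), ψ n := by
    obtain ⟨N, hN⟩ := hdivψ (1/2 + ∑ n ∈ Finset.range t, ψ n)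
    refine ⟨N, ?_⟩
    have h1 : ∑ n ∈ (Finset.Icc 1 N).filter p, ψ n =
        ∑ n ∈ ((Finset.Icc 1 N).filter p).filter (fun n => t ≤ n), ψ n +
        ∑ n ∈ ((Finset.Icc 1 N).filter p).filter (fun n => ¬ t ≤ n), ψ n := by
      rw [Finset.sum_filter_add_sum_filter_not]
    have h2 : ∑ n ∈ ((Finset.Icc 1 N).filter p).filter (fun n => ¬ t ≤ n), ψ n ≤
        ∑ n ∈ Finset.range t, ψ n := by
      apply Finset.sum_le_sum_of_subset_of_nonneg
      · intro n hn
        rw [Finset.mem_filter] at hn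
        rw [Finset.mem_range]
        omega
      · intro n _ _
        exact hψ0 n
    linarith
  set N0 := Nat.find hex with hN0
  have hN0s := Nat.find_spec hex
  rw [← hN0] at hN0s
  refine ⟨((Finset.Icc 1 N0).filter p).filter (fun n => t ≤ n), ?_, hN0s, ?_⟩
  · intro n hn
    rw [Finset.mem_filter, Finset.mem_filter, Finset.mem_Icc] at hn
    exact ⟨hn.2, hn.1.1.1, hn.1.2.1, hn.1.2.2⟩
  · have hN0pos : N0 ≠ 0 := by
      intro h
      rw [h] at hN0s
      simp at hN0s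
      norm_num at hN0s
    obtain ⟨N1, hN1⟩ := Nat.exists_eq_succ_of_ne_zero hN0pos
    have hlt : N1 < Nat.find hex := by omega
    have hmin := Nat.find_min hex hlt
    push Not at hmin
    have hsub : ∑ n ∈ ((Finset.Icc 1 N0).filter p).filter (fun n => t ≤ n), ψ n ≤
        ∑ n ∈ ((Finset.Icc 1 N1).filter p).filter (fun n => t ≤ n), ψ n + ψ N0 := by
      calc ∑ n ∈ ((Finset.Icc 1 N0).filter p).filter (fun n => t ≤ n), ψ n
          ≤ ∑ n ∈ insert N0 (((Finset.Icc 1 N1).filter p).filter (fun n => t ≤ n)), ψ n := by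
            apply Finset.sum_le_sum_of_subset_of_nonneg
            · intro n hn
              rw [Finset.mem_filter, Finset.mem_filter, Finset.mem_Icc] at hn
              rw [Finset.mem_insert, Finset.mem_filter, Finset.mem_filter, Finset.mem_Icc]
              by_cases h : n = N0
              · exact Or.inl h
              · right
                exact ⟨⟨⟨hn.1.1.1, by omega⟩, hn.1.2⟩, hn.2⟩
            · intro n _ _
              exact hψ0 n
        _ = ψ N0 + ∑ n ∈ ((Finset.Icc 1 N1).filter p).filter (fun n => t ≤ n), ψ n := by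
            apply Finset.sum_insert
            rw [Finset.mem_filter, Finset.mem_filter, Finset.mem_Icc]
            omega
        _ = _ := by ring
    have := hψ8 N0
    change ∑ n ∈ ((Finset.Icc 1 N0).filter p).filter (fun n => t ≤ n), ψ n ≤ 1
    linarith

open Classical in
/-- class masses of the truncated function on a block -/
theorem cmass_le (Φ : ℕ → ℝ) (h0 : ∀ n, 0 ≤ Φ n) (S : Finset ℕ)
    (hS : ∀ n ∈ S, 0 < n)
    (hsum : ∑ n ∈ S, min (Φ n) (1/8) ≤ 1) (C0 : ℝ)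
    (hC0 : ∀ (k : ℤ) (T : Finset ℕ), ∑ s ∈ T, (min 1 (mass Φ k s)) ^ ((1:ℝ)/7) ≤ C0)
    (k : ℕ) (T : Finset ℕ) :
    ∑ s ∈ T, (cmass (fun n => min (Φ n) (1/8)) S k s) ^ ((1:ℝ)/7) ≤ C0 + 1 := by
  set ψ : ℕ → ℝ := fun n => min (Φ n) (1/8) with hψ
  have hψ0 : ∀ n, 0 ≤ ψ n := fun n => le_min (h0 n) (by norm_num)
  have hc0 : ∀ s, 0 ≤ cmass ψ S k s := fun s => Finset.sum_nonneg (fun n _ => hψ0 n)
  have hc1 : ∀ s, cmass ψ S k s ≤ 1 := by
    intro s
    refine le_trans ?_ hsum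
    apply Finset.sum_le_sum_of_subset_of_nonneg (Finset.filter_subset _ _)
    intro n _ _
    exact hψ0 n
  have hm0 : ∀ s, 0 ≤ mass Φ k s := fun s => Finset.sum_nonneg (fun n _ => h0 n)
  have hcm : ∀ s, s + 3 ≠ k → cmass ψ S k s ≤ mass Φ k s := by
    intro s hs
    have hkey : ∀ n ∈ S.filter (fun n => inClass ψ k s n), ψ n = Φ n ∧
        n ∈ (Finset.Ico (2 ^ s) (2 ^ (s + 1))).filter
          (fun n : ℕ => (1/2 : ℝ) ^ ((k:ℤ) + 1) < Φ n / n ∧ Φ n / n ≤ (1/2 : ℝ) ^ (k:ℤ)) := by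
      intro n hn
      rw [Finset.mem_filter] at hn
      obtain ⟨hnS, g1, g2, g3, g4⟩ := hn
      have hn0 : 0 < n := hS n hnS
      have hnR : (0:ℝ) < n := by exact_mod_cast hn0
      have h8 : Φ n ≤ 1/8 := by
        by_contra hcon
        push Not at hcon
        have e : ψ n = 1/8 := min_eq_right hcon.le
        rw [e] at g3 g4
        apply hs
        -- 2^k <= 8 n < 2^(k+1)
        have a1 : (2:ℝ) ^ k ≤ 8 * n := by
          rw [div_le_iff₀ hnR] at g4
          have : (2:ℝ) ^ k * (1/8) ≤ (2:ℝ) ^ k * ((1/2) ^ k * n) :=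
            mul_le_mul_of_nonneg_left g4 (by positivity)
          have e2 : (2:ℝ) ^ k * ((1/2) ^ k * n) = n := by
            rw [← mul_assoc, ← mul_pow]
            norm_num
          linarith
        have a2 : (8:ℝ) * n < 2 ^ (k + 1) := by
          rw [lt_div_iff₀ hnR] at g3
          have : (2:ℝ) ^ (k + 1) * ((1/2) ^ (k + 1) * n) < (2:ℝ) ^ (k + 1) * (1/8) :=
            mul_lt_mul_of_pos_left g3 (by positivity)
          have e2 : (2:ℝ) ^ (k + 1) * ((1/2) ^ (k + 1) * n) = n := by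
            rw [← mul_assoc, ← mul_pow]
            norm_num
          linarith
        have a1' : 2 ^ k ≤ 8 * n := by exact_mod_cast a1
        have a2' : 8 * n < 2 ^ (k + 1) := by exact_mod_cast a2
        have b1 : 2 ^ (s + 3) ≤ 8 * n := by
          rw [pow_add]
          omega
        have b2 : 8 * n < 2 ^ (s + 4) := by
          have : 2 ^ (s + 4) = 8 * 2 ^ (s + 1) := by ring
          omega
        have c1 : k < s + 4 := by
          have : 2 ^ k < 2 ^ (s + 4) := lt_of_le_of_lt a1' b2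
          exact (Nat.pow_lt_pow_iff_right (by norm_num)).mp this
        have c2 : s + 3 < k + 1 := by
          have : 2 ^ (s + 3) < 2 ^ (k + 1) := lt_of_le_of_lt b1 a2'
          exact (Nat.pow_lt_pow_iff_right (by norm_num)).mp this
        omega
      have e : ψ n = Φ n := min_eq_left h8
      refine ⟨e, ?_⟩
      rw [Finset.mem_filter, Finset.mem_Ico]
      refine ⟨⟨g1, g2⟩, ?_, ?_⟩
      · rw [← e]
        exact_mod_cast g3
      · rw [← e]
        exact_mod_cast g4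
    calc cmass ψ S k s = ∑ n ∈ S.filter (fun n => inClass ψ k s n), Φ n := by
          apply Finset.sum_congr rfl
          intro n hn
          exact (hkey n hn).1
      _ ≤ mass Φ k s := by
          apply Finset.sum_le_sum_of_subset_of_nonneg
          · intro n hn
            exact (hkey n hn).2
          · intro n _ _
            exact h0 n
  calc ∑ s ∈ T, (cmass ψ S k s) ^ ((1:ℝ)/7)
      ≤ ∑ s ∈ T, ((min 1 (mass Φ k s)) ^ ((1:ℝ)/7) + (if s + 3 = k then 1 else 0)) := by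
        apply Finset.sum_le_sum
        intro s _
        by_cases h : s + 3 = k
        · rw [if_pos h]
          have e1 : (cmass ψ S k s) ^ ((1:ℝ)/7) ≤ 1 :=
            Real.rpow_le_one (hc0 s) (hc1 s) (by norm_num)
          have e2 : 0 ≤ (min 1 (mass Φ k s)) ^ ((1:ℝ)/7) :=
            Real.rpow_nonneg (le_min zero_le_one (hm0 s)) _
          linarith
        · rw [if_neg h, add_zero]
          apply Real.rpow_le_rpow (hc0 s) (le_min (hc1 s) (hcm s h)) (by norm_num)
    _ = ∑ s ∈ T, (min 1 (mass Φ k s)) ^ ((1:ℝ)/7) + ∑ s ∈ T, (if s + 3 = k then (1:ℝ) else 0) :=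
        Finset.sum_add_distrib
    _ ≤ C0 + 1 := by
        apply add_le_add (hC0 k T)
        calc ∑ s ∈ T, (if s + 3 = k then (1:ℝ) else 0)
            ≤ ∑ s ∈ T, (if s = k - 3 then (1:ℝ) else 0) := by
              apply Finset.sum_le_sum
              intro s _
              split_ifs with h1 h2 h2
              · exact le_refl _
              · exfalso
                omega
              · norm_num
              · exact le_refl _
          _ ≤ 1 := by
              rw [Finset.sum_ite_eq']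
              split_ifs <;> norm_num

/-- from almost every point of the unit interval to almost every point -/
theorem ae_of_unit (δ : ℝ) (Φ : ℕ → ℝ)
    (h : ∀ᵐ β ∂(volume.restrict (Set.Ico (0:ℝ) 1)),
      {n : ℕ | 1 ≤ n ∧ nd (n * β - δ) < Φ n}.Infinite) : Concl δ Φ := by
  unfold Concl
  rw [ae_restrict_iff' measurableSet_Ico] at h
  rw [ae_iff] at h ⊢
  set Bad : Set ℝ := {β : ℝ | ¬ {n : ℕ | 1 ≤ n ∧ nd (n * β - δ) < Φ n}.Infinite} with hBad
  set Z : Set ℝ := {a : ℝ | ¬(a ∈ Set.Ico (0:ℝ) 1 → {n : ℕ | 1 ≤ n ∧ nd (n * a - δ) < Φ n}.Infinite)}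
    with hZ
  have hsub : Bad ⊆ ⋃ m : ℤ, (fun β => β + (m:ℝ)) ⁻¹' Z := by
    intro β hβ
    rw [Set.mem_iUnion]
    refine ⟨-⌊β⌋, ?_⟩
    simp only [Set.mem_preimage, hZ, Set.mem_ofPred_eq]
    rw [Classical.not_imp]
    constructor
    · constructor
      · push_cast
        linarith [Int.floor_le β]
      · push_cast
        linarith [Int.lt_floor_add_one β]
    · intro hinf
      apply hβ
      have : {n : ℕ | 1 ≤ n ∧ nd (n * (β + ((-⌊β⌋ : ℤ) : ℝ)) - δ) < Φ n} =
          {n : ℕ | 1 ≤ n ∧ nd (n * β - δ) < Φ n} := by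
        ext n
        simp only [Set.mem_ofPred_eq]
        have e : (n:ℝ) * (β + ((-⌊β⌋ : ℤ) : ℝ)) - δ =
            (n * β - δ) + (((n:ℤ) * (-⌊β⌋) : ℤ) : ℝ) := by
          push_cast
          ring
        rw [e, nd_add_int]
      rw [this] at hinf
      exact hinf
  refine measure_mono_null hsub ?_
  rw [measure_iUnion_null_iff]
  intro m
  have := measurePreserving_add_right (volume : Measure ℝ) (m:ℝ)
  exact this.quasiMeasurePreserving.preimage_null h

theorem main (h1 : SecondStmt) (h2 : FirstStmt) (h3 : BCStmt) (h4 : SingleStmt)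
    (h5 : QminStmt) : MainStmt := by
  classical
  intro δ Φ h0 hH1 hH2 ⟨C0, hC0⟩
  obtain ⟨c, hc, hdiv⟩ := diverge Φ h0 hH1 hH2
  choose S hSmem hSlo hShi using blocks Φ h0 c hdiv
  set ψ : ℕ → ℝ := fun n => min (Φ n) (1/8) with hψ
  have hψ0 : ∀ n, 0 ≤ ψ n := fun n => le_min (h0 n) (by norm_num)
  have hψ8 : ∀ n, ψ n ≤ 1/8 := fun n => min_le_right _ _
  obtain ⟨C, hC, hsec⟩ := h1 c (C0 + 1) hc
  set E : ℕ → Set ℝ := fun n => if n = 0 then ∅ else BB δ ψ n with hE
  have hEpos : ∀ n, 0 < n → E n = BB δ ψ n := by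
    intro n hn
    simp only [hE]
    rw [if_neg hn.ne']
  have hEm : ∀ n, MeasurableSet (E n) := by
    intro n
    by_cases hn : n = 0
    · simp [hE, hn]
    · rw [hEpos n (Nat.pos_of_ne_zero hn)]
      exact (h4 δ (ψ n) n _ _ (Nat.pos_of_ne_zero hn) (hψ0 n)).1
  have hEsub : ∀ n, E n ⊆ Set.Ico 0 1 := by
    intro n
    by_cases hn : n = 0
    · simp [hE, hn]
    · rw [hEpos n (Nat.pos_of_ne_zero hn)]
      intro β hβ
      exact ⟨hβ.1, hβ.2.1⟩
  have hψS : ∀ t, ∀ n ∈ S t, 0 < ψ n := by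
    intro t n hn
    exact lt_min (hSmem t n hn).2.2.2 (by norm_num)
  have hbc := h3 S E C (c / 2) (by positivity) hEm hEsub
    (by
      intro t
      have := hsec δ ψ (S t)
        (fun n hn => ⟨(hSmem t n hn).2.1, (hSmem t n hn).2.2.1, hψS t n hn, hψ8 n⟩)
        (hShi t)
        (fun k T => cmass_le Φ h0 (S t) (fun n hn => (hSmem t n hn).2.1) (hShi t) C0 hC0 k T)
      refine le_trans (le_of_eq ?_) this
      apply Finset.sum_congr rfl
      intro x hx
      apply Finset.sum_congr rfl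
      intro y hy
      rw [hEpos x (hSmem t x hx).2.1, hEpos y (hSmem t y hy).2.1])
    (by
      intro a b ha hab hb
      obtain ⟨n0, hn0⟩ := h2 c a b hc ha hab hb
      filter_upwards [eventually_ge_atTop n0] with t ht
      calc c / 2 * (b - a) = 1 / 2 * (c * (b - a)) := by ring
        _ ≤ (∑ n ∈ S t, ψ n) * (c * (b - a)) := by
            apply mul_le_mul_of_nonneg_right (hSlo t)
            have : 0 < b - a := by linarith
            positivity
        _ = ∑ n ∈ S t, c * ψ n * (b - a) := by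
            rw [Finset.sum_mul]
            apply Finset.sum_congr rfl
            intro n _
            ring
        _ ≤ ∑ v ∈ S t, (volume (E v ∩ Set.Ioo a b)).toReal := by
            apply Finset.sum_le_sum
            intro n hn
            obtain ⟨m1, m2, m3, m4⟩ := hSmem t n hn
            rw [hEpos n m2]
            have hτ : 0 < tau (ψ n) := by
              unfold tau
              apply Real.sqrt_pos.mpr
              have := hψS t n hn
              linarith
            exact hn0 n (le_trans ht m1) m3 δ (ψ n) _ _ (hψS t n hn) (hψ8 n)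
              (h5 δ (tau (ψ n)) hτ).2.2.2)
  apply ae_of_unit
  filter_upwards [hbc] with β hβ
  rw [Set.infinite_iff_exists_gt]
  intro M
  have hβ' := (hβ.and_eventually (eventually_gt_atTop M)).exists
  obtain ⟨t, ⟨v, hv, hβv⟩, htM⟩ := hβ'
  obtain ⟨m1, m2, m3, m4⟩ := hSmem t v hv
  refine ⟨v, ⟨m2, ?_⟩, lt_of_lt_of_le htM m1⟩
  rw [hEpos v m2] at hβv
  obtain ⟨-, -, r, -, hr⟩ := hβv
  calc nd (v * β - δ) ≤ |(v:ℝ) * β - δ - r| := nd_le_abs _ r
    _ < ψ v := hr
    _ ≤ Φ v := min_le_left _ _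

end Pool.Agent.MP_0863b8

end

section

/-!
MP_0863b8_nt, item F0: multiplicity of exceptional pairs; divisor sums.
-/

namespace Pool.Agent.MP_0863b8

/-! ### divisor sums -/

theorem ds_prime_pow (p k : ℕ) (hp : p.Prime) :
    (∑ d ∈ (p ^ k).divisors, (1 : ℝ) / d) * ((Nat.totient (p ^ k) : ℝ) / (p ^ k : ℕ)) ≤ 1 := by
  have hp1 : (1:ℝ) < p := by exact_mod_cast hp.one_lt
  have hp0 : (0:ℝ) < p := by linarith
  rw [Nat.sum_divisors_prime_pow hp]
  rcases Nat.eq_zero_or_pos k with h | h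
  · subst h
    simp
  · rw [Nat.totient_prime_pow hp h]
    set r : ℝ := (p:ℝ)⁻¹ with hr
    have hr1 : r < 1 := inv_lt_one_of_one_lt₀ hp1
    have hr0 : 0 < r := inv_pos.mpr hp0
    have h1 : ∀ x ∈ Finset.range (k+1), (1:ℝ) / ((p ^ x : ℕ) : ℝ) = r ^ x := by
      intro x _
      rw [Nat.cast_pow, hr, inv_pow, one_div]
    rw [Finset.sum_congr rfl h1]
    have h2 : (((p ^ (k - 1) * (p - 1) : ℕ) : ℝ)) / ((p ^ k : ℕ) : ℝ) = 1 - r := by
      obtain ⟨j, rfl⟩ : ∃ j, k = j + 1 := ⟨k - 1, by omega⟩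
      rw [Nat.add_sub_cancel]
      push_cast [Nat.cast_sub hp.one_lt.le]
      rw [hr]
      field_simp
      ring
    rw [h2]
    have h3 := geom_sum_mul_neg r (k+1)
    rw [h3]
    have : 0 < r ^ (k+1) := pow_pos hr0 _
    linarith

theorem ds_mul (m n : ℕ) (h : m.Coprime n) :
    ∑ d ∈ (m * n).divisors, (1 : ℝ) / d =
      (∑ d ∈ m.divisors, (1 : ℝ) / d) * ∑ d ∈ n.divisors, (1 : ℝ) / d := by
  have h1 : (m * n).divisors = (m.divisors ×ˢ n.divisors).image (fun p => p.1 * p.2) := by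
    rw [Nat.divisors_mul]
    rfl
  rw [h1, Finset.sum_image h.mul_injOn_divisors, Finset.sum_product, Finset.sum_mul_sum]
  apply Finset.sum_congr rfl
  intro a _
  apply Finset.sum_congr rfl
  intro b _
  push_cast
  rw [one_div_mul_one_div]

theorem ds_main (n : ℕ) (hn : 0 < n) :
    (∑ d ∈ n.divisors, (1 : ℝ) / d) * ((Nat.totient n : ℝ) / n) ≤ 1 := by
  induction n using Nat.recOnPosPrimePosCoprime with
  | zero => omega
  | one => simp
  | prime_pow p k hp hk => exact ds_prime_pow p k hp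
  | coprime a b ha hb hab iha ihb =>
    have h1 := iha (by omega)
    have h2 := ihb (by omega)
    rw [ds_mul a b hab, Nat.totient_mul hab]
    have e : (∑ d ∈ a.divisors, (1 : ℝ) / d) * (∑ d ∈ b.divisors, (1 : ℝ) / d) *
        (((Nat.totient a * Nat.totient b : ℕ) : ℝ) / ((a * b : ℕ) : ℝ)) =
        ((∑ d ∈ a.divisors, (1 : ℝ) / d) * ((Nat.totient a : ℝ) / a)) *
        ((∑ d ∈ b.divisors, (1 : ℝ) / d) * ((Nat.totient b : ℝ) / b)) := by
      push_cast
      rw [mul_div_mul_comm]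
      ring
    rw [e]
    have n2 : 0 ≤ (∑ d ∈ b.divisors, (1 : ℝ) / d) * ((Nat.totient b : ℝ) / b) := by positivity
    exact mul_le_one₀ h1 n2 h2

theorem divsum : DivSumStmt := by
  intro c n hc hn h
  have h1 := ds_main n hn
  have h0 : 0 ≤ ∑ d ∈ n.divisors, (1 : ℝ) / d := Finset.sum_nonneg (fun d _ => by positivity)
  have h2 : ∑ d ∈ n.divisors, (1 : ℝ) / d ≤ 1 / c := by
    rw [le_div_iff₀ hc]
    exact (mul_le_mul_of_nonneg_left h h0).trans h1
  refine ⟨h2, le_trans ?_ h2⟩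
  apply Finset.sum_le_sum_of_subset_of_nonneg
  · intro p hp
    rw [Nat.mem_divisors]
    exact ⟨Nat.dvd_of_mem_primeFactors hp, by omega⟩
  · intro d _ _
    positivity

/-! ### multiplicity of exceptional pairs -/

/-- uniqueness of the denominator for pairs of the second kind -/
theorem mult_uniq (δ : ℝ) (a q1 q2 : ℕ) (ha : 0 < a) (h1 : q1 ≤ a) (h2 : q2 ≤ a)
    (p1 : 0 < q1) (p2 : 0 < q2)
    (g1 : Int.gcd q1 (round ((q1:ℝ) * δ)) = 1) (g2 : Int.gcd q2 (round ((q2:ℝ) * δ)) = 1)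
    (n1 : nd (q1 * δ) < 1 / (2 * a)) (n2 : nd (q2 * δ) < 1 / (2 * a)) : q1 = q2 := by
  have ha' : (0:ℝ) < a := by exact_mod_cast ha
  set r1 : ℤ := round ((q1:ℝ) * δ) with hr1
  set r2 : ℤ := round ((q2:ℝ) * δ) with hr2
  have hq1 : (q1:ℝ) ≤ a := by exact_mod_cast h1
  have hq2 : (q2:ℝ) ≤ a := by exact_mod_cast h2
  have hq1' : (0:ℝ) < q1 := by exact_mod_cast p1
  have hq2' : (0:ℝ) < q2 := by exact_mod_cast p2
  unfold nd at n1 n2
  rw [← hr1] at n1
  rw [← hr2] at n2
  have e : (q1:ℝ) * r2 - q2 * r1 = q2 * (q1 * δ - r1) - q1 * (q2 * δ - r2) := by ring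
  have b1 : (q2:ℝ) * |q1 * δ - r1| < 1 / 2 := by
    calc (q2:ℝ) * |q1 * δ - r1| < q2 * (1 / (2 * a)) := mul_lt_mul_of_pos_left n1 hq2'
      _ ≤ a * (1 / (2 * a)) := mul_le_mul_of_nonneg_right hq2 (by positivity)
      _ = 1 / 2 := by field_simp
  have b2 : (q1:ℝ) * |q2 * δ - r2| < 1 / 2 := by
    calc (q1:ℝ) * |q2 * δ - r2| < q1 * (1 / (2 * a)) := mul_lt_mul_of_pos_left n2 hq1'
      _ ≤ a * (1 / (2 * a)) := mul_le_mul_of_nonneg_right hq1 (by positivity)
      _ = 1 / 2 := by field_simp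
  have b3 : |(q1:ℝ) * r2 - q2 * r1| < 1 := by
    rw [e]
    calc |(q2:ℝ) * (q1 * δ - r1) - q1 * (q2 * δ - r2)|
        ≤ |(q2:ℝ) * (q1 * δ - r1)| + |q1 * (q2 * δ - r2)| := abs_sub _ _
      _ = q2 * |q1 * δ - r1| + q1 * |q2 * δ - r2| := by
          rw [abs_mul, abs_mul, abs_of_pos hq1', abs_of_pos hq2']
      _ < 1 := by linarith
  have b4 : (q1:ℤ) * r2 - q2 * r1 = 0 := by
    have : |(((q1:ℤ) * r2 - q2 * r1 : ℤ) : ℝ)| < 1 := by
      push_cast
      exact b3
    rw [← Int.cast_abs] at this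
    have h' : |(q1:ℤ) * r2 - q2 * r1| < 1 := by exact_mod_cast this
    exact Int.abs_lt_one_iff.mp h'
  have b5 : (q1:ℤ) * r2 = q2 * r1 := by linarith
  have c1 : IsCoprime (q1:ℤ) r1 := Int.isCoprime_iff_gcd_eq_one.mpr g1
  have c2 : IsCoprime (q2:ℤ) r2 := Int.isCoprime_iff_gcd_eq_one.mpr g2
  have d1 : (q1:ℤ) ∣ q2 := c1.dvd_of_dvd_mul_right ⟨r2, b5.symm⟩
  have d2 : (q2:ℤ) ∣ q1 := c2.dvd_of_dvd_mul_right ⟨r1, b5⟩
  exact Nat.dvd_antisymm (by exact_mod_cast d1) (by exact_mod_cast d2)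

theorem mult : MultStmt := by
  classical
  intro δ ψ a hψ ha T hT
  set τ : ℝ := tau ψ with hτ
  have hτ0 : 0 < τ := by
    rw [hτ]
    unfold tau
    exact Real.sqrt_pos.mpr (by linarith)
  -- first kind
  set T1 := T.filter (fun b : ℕ => (b:ℝ) < 1 / τ ∧ (a:ℝ) < 1 / τ ∧
    nd ((Int.natAbs ((a:ℤ) - b) : ℕ) * δ) < τ ∧ hcount δ τ (1 / τ) ≤ 24) with hT1
  set T2 := T.filter (fun b : ℕ => ¬ ((b:ℝ) < 1 / τ ∧ (a:ℝ) < 1 / τ ∧
    nd ((Int.natAbs ((a:ℤ) - b) : ℕ) * δ) < τ ∧ hcount δ τ (1 / τ) ≤ 24)) with hT2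
  have hcard : T1.card + T2.card = T.card := Finset.card_filter_add_card_filter_not _
  have c1 : T1.card ≤ 48 := by
    rcases T1.eq_empty_or_nonempty with h | ⟨b0, hb0⟩
    · rw [h]; simp
    · have hh : hcount δ τ (1 / τ) ≤ 24 := by
        rw [hT1, Finset.mem_filter] at hb0
        exact hb0.2.2.2.2
      set Hs := (Finset.Icc 1 ⌊1 / τ⌋₊).filter
        (fun h : ℕ => (h:ℝ) < 1 / τ ∧ nd (h * δ) < τ) with hHs
      have hHc : Hs.card ≤ 24 := by
        have : hcount δ τ (1 / τ) = Hs.card := by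
          unfold hcount
          rw [hHs]
        omega
      have hmaps : ∀ b ∈ T1, (fun b : ℕ => Int.natAbs ((a:ℤ) - b)) b ∈ Hs := by
        intro b hb
        rw [hT1, Finset.mem_filter] at hb
        obtain ⟨hbT, hb1, hb2, hb3, _⟩ := hb
        obtain ⟨hbpos, hE⟩ := hT b hbT
        have hne := hE.1
        have hlt : ((Int.natAbs ((a:ℤ) - b) : ℕ) : ℝ) < 1 / τ := by
          rcases le_total a b with hab | hab
          · have : Int.natAbs ((a:ℤ) - b) ≤ b := by omega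
            calc ((Int.natAbs ((a:ℤ) - b) : ℕ) : ℝ) ≤ b := by exact_mod_cast this
              _ < 1 / τ := hb1
          · have : Int.natAbs ((a:ℤ) - b) ≤ a := by omega
            calc ((Int.natAbs ((a:ℤ) - b) : ℕ) : ℝ) ≤ a := by exact_mod_cast this
              _ < 1 / τ := hb2
        simp only [hHs, Finset.mem_filter, Finset.mem_Icc]
        refine ⟨⟨by omega, Nat.le_floor hlt.le⟩, hlt, hb3⟩
      have hfib : ∀ h ∈ Hs, (T1.filter (fun b : ℕ => Int.natAbs ((a:ℤ) - b) = h)).card ≤ 2 := by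
        intro h _
        have : T1.filter (fun b : ℕ => Int.natAbs ((a:ℤ) - b) = h) ⊆ {a + h, a - h} := by
          intro b hb
          rw [Finset.mem_filter] at hb
          rw [Finset.mem_insert, Finset.mem_singleton]
          omega
        exact (Finset.card_le_card this).trans Finset.card_le_two
      have := Finset.card_le_mul_card_image_of_maps_to hmaps 2 hfib
      omega
  have c2 : T2.card ≤ 2 := by
    rcases T2.eq_empty_or_nonempty with h | ⟨b0, hb0⟩
    · rw [h]; simp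
    · have key : ∀ b ∈ T2, 0 < b ∧ (b:ℝ) < 1 / τ ∧ ∃ q : ℕ, 1 / (2 * τ) < q ∧ q ≤ a ∧
          Int.gcd q (round ((q:ℝ) * δ)) = 1 ∧ nd (q * δ) < 1 / (2 * a) ∧
          q ∣ Int.natAbs ((a:ℤ) - b) := by
        intro b hb
        rw [hT2, Finset.mem_filter] at hb
        obtain ⟨hbT, hb1⟩ := hb
        obtain ⟨hbpos, hE⟩ := hT b hbT
        rcases hE.2 with h' | h'
        · exact absurd h' hb1
        · exact ⟨hbpos, h'.1, h'.2.2⟩
      obtain ⟨_, _, q, q1, q2, q3, q4, q5⟩ := key b0 hb0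
      have hq0 : 0 < q := by
        have : (0:ℝ) < q := lt_trans (by positivity) q1
        exact_mod_cast this
      have hall : ∀ b ∈ T2, 0 < b ∧ b < 2 * q ∧ q ∣ Int.natAbs ((a:ℤ) - b) := by
        intro b hb
        obtain ⟨b1, b2, r, r1, r2, r3, r4, r5⟩ := key b hb
        have hr0 : 0 < r := by
          have : (0:ℝ) < r := lt_trans (by positivity) r1
          exact_mod_cast this
        have hrq : r = q := mult_uniq δ a r q ha r2 q2 hr0 hq0 r3 q3 r4 q4
        refine ⟨b1, ?_, hrq ▸ r5⟩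
        have : (b:ℝ) < ((2 * q : ℕ) : ℝ) := by
          push_cast
          calc (b:ℝ) < 1 / τ := b2
            _ = 2 * (1 / (2 * τ)) := by field_simp
            _ < 2 * q := by linarith
        exact_mod_cast this
      have hinj : Set.InjOn (fun b : ℕ => b / q) T2 := by
        intro b hb b' hb' hbb
        simp only at hbb
        obtain ⟨_, _, d1⟩ := hall b hb
        obtain ⟨_, _, d2⟩ := hall b' hb'
        have e1 : (q:ℤ) ∣ (a:ℤ) - b := Int.natCast_dvd.mpr d1
        have e2 : (q:ℤ) ∣ (a:ℤ) - b' := Int.natCast_dvd.mpr d2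
        have e3 : (q:ℤ) ∣ (b':ℤ) - b := by
          have := dvd_sub e1 e2
          have e : (a:ℤ) - b - (a - b') = b' - b := by ring
          rwa [e] at this
        have e4 : b % q = b' % q := (Nat.modEq_iff_dvd.mpr e3)
        rw [← Nat.div_add_mod b q, ← Nat.div_add_mod b' q, hbb, e4]
      have himg : T2.image (fun b : ℕ => b / q) ⊆ Finset.range 2 := by
        intro c hc
        rw [Finset.mem_image] at hc
        obtain ⟨b, hb, rfl⟩ := hc
        rw [Finset.mem_range]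
        exact Nat.div_lt_of_lt_mul (by have := (hall b hb).2.1; linarith)
      have := Finset.card_le_card himg
      rw [Finset.card_image_of_injOn hinj, Finset.card_range] at this
      exact this
  omega

end Pool.Agent.MP_0863b8

end

section

/-!
MP_0863b8_nt, item 12: nonspecial pairs of two classes.
-/

namespace Pool.Agent.MP_0863b8

open MeasureTheory Filter

theorem half_card (δ κ M : ℝ) (a0 b0 : ℕ) (hM : (a0 : ℝ) ≤ M) (S : Finset (ℕ × ℕ))
    (hS : ∀ t ∈ S, t.1 ∈ Finset.Icc 1 a0 ∧ t.2 ∈ Finset.Icc 1 b0 ∧ t.2 < t.1 ∧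
      nd (((t.1 - t.2 : ℕ) : ℝ) * δ) < κ) :
    S.card ≤ min a0 b0 * hcount δ κ M := by
  classical
  unfold hcount
  refine Finset.card_le_mul_card_image_of_maps_to (f := fun t : ℕ × ℕ => t.1 - t.2) ?_ _ ?_
  · intro t ht
    obtain ⟨h1, h2, h3, h4⟩ := hS t ht
    rw [Finset.mem_Icc] at h1 h2
    have h5 : ((t.1 - t.2 : ℕ) : ℝ) < M := by
      refine lt_of_lt_of_le ?_ hM
      have : t.1 - t.2 < a0 := by omega
      exact_mod_cast this
    rw [Finset.mem_filter, Finset.mem_Icc]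
    exact ⟨⟨by omega, Nat.le_floor h5.le⟩, h5, h4⟩
  · intro h _
    refine le_min ?_ ?_
    · have : (S.filter (fun t => t.1 - t.2 = h)).card ≤ (Finset.Icc 1 a0).card := by
        refine Finset.card_le_card_of_injOn (fun t => t.1) ?_ ?_
        · intro t ht
          rw [Finset.mem_coe, Finset.mem_filter] at ht
          exact (hS t ht.1).1
        · intro t ht t' ht' heq
          rw [Finset.mem_coe, Finset.mem_filter] at ht ht'
          obtain ⟨-, -, h3, -⟩ := hS t ht.1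
          obtain ⟨-, -, h3', -⟩ := hS t' ht'.1
          have h6 := ht.2
          have h6' := ht'.2
          simp only at heq h6 h6'
          refine Prod.ext heq ?_
          omega
      simpa using this
    · have : (S.filter (fun t => t.1 - t.2 = h)).card ≤ (Finset.Icc 1 b0).card := by
        refine Finset.card_le_card_of_injOn (fun t => t.2) ?_ ?_
        · intro t ht
          rw [Finset.mem_coe, Finset.mem_filter] at ht
          exact (hS t ht.1).2.1
        · intro t ht t' ht' heq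
          rw [Finset.mem_coe, Finset.mem_filter] at ht ht'
          obtain ⟨-, -, h3, -⟩ := hS t ht.1
          obtain ⟨-, -, h3', -⟩ := hS t' ht'.1
          have h6 := ht.2
          have h6' := ht'.2
          simp only at heq h6 h6'
          refine Prod.ext ?_ heq
          omega
      simpa using this

/-- The pairs with small distance. -/
noncomputable def Qset (δ κ : ℝ) (a0 b0 : ℕ) : Finset (ℕ × ℕ) :=
  open Classical in
  (Finset.Icc 1 a0 ×ˢ Finset.Icc 1 b0).filter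
    (fun t => t.1 ≠ t.2 ∧ nd (((Int.natAbs ((t.1 : ℤ) - t.2) : ℕ) : ℝ) * δ) < κ)

theorem Qset_card (δ κ M : ℝ) (a0 b0 : ℕ) (hM : (a0 : ℝ) ≤ M) (hM' : (b0 : ℝ) ≤ M) :
    (Qset δ κ a0 b0).card ≤ 2 * (min a0 b0 * hcount δ κ M) := by
  classical
  have h1 := half_card δ κ M a0 b0 hM ((Qset δ κ a0 b0).filter (fun t => t.2 < t.1)) (by
    intro t ht
    rw [Finset.mem_filter] at ht
    obtain ⟨h2, h3⟩ := ht
    rw [Qset, Finset.mem_filter, Finset.mem_product] at h2
    refine ⟨h2.1.1, h2.1.2, h3, ?_⟩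
    have h4 : Int.natAbs ((t.1 : ℤ) - t.2) = t.1 - t.2 := by omega
    rw [← h4]
    exact h2.2.2)
  have h2 := half_card δ κ M b0 a0 hM'
    (((Qset δ κ a0 b0).filter (fun t => ¬ t.2 < t.1)).image Prod.swap) (by
    intro t ht
    rw [Finset.mem_image] at ht
    obtain ⟨u, hu, rfl⟩ := ht
    rw [Finset.mem_filter] at hu
    obtain ⟨h2, h3⟩ := hu
    rw [Qset, Finset.mem_filter, Finset.mem_product] at h2
    have h5 : u.1 < u.2 := by
      have := h2.2.1
      omega
    refine ⟨h2.1.2, h2.1.1, h5, ?_⟩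
    have h4 : Int.natAbs ((u.1 : ℤ) - u.2) = u.2 - u.1 := by omega
    simp only [Prod.fst_swap, Prod.snd_swap]
    rw [← h4]
    exact h2.2.2)
  rw [Finset.card_image_of_injective _ Prod.swap_injective, min_comm] at h2
  have h3 := Finset.card_filter_add_card_filter_not (s := Qset δ κ a0 b0)
    (fun t : ℕ × ℕ => t.2 < t.1)
  omega

/-- Size of a class from its mass. -/
theorem class_card (ψ : ℕ → ℝ) (k s : ℕ) (V : Finset ℕ) (hV : ∀ v ∈ V, inClass ψ k s v) :
    (V.card : ℝ) ≤ (∑ v ∈ V, ψ v) * (2:ℝ) ^ ((k:ℝ) + 1 - s) := by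
  have h1 : ∀ v ∈ V, (2:ℝ) ^ ((s:ℝ) - k - 1) ≤ ψ v := by
    intro v hv
    obtain ⟨h1, -, h3, -⟩ := hV v hv
    have hv0 : (0:ℝ) < v := by
      have : 0 < v := lt_of_lt_of_le (by positivity) h1
      exact_mod_cast this
    rw [lt_div_iff₀ hv0] at h3
    have h4 : (2:ℝ) ^ s ≤ v := by exact_mod_cast h1
    refine le_trans ?_ h3.le
    calc (2:ℝ) ^ ((s:ℝ) - k - 1) = (1/2 : ℝ) ^ (k + 1) * (2:ℝ) ^ s := by
          rw [sub_sub, Real.rpow_sub two_pos, Real.rpow_natCast]
          have : (2:ℝ) ^ ((k:ℝ) + 1) = 2 ^ (k + 1) := by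
            rw [← Real.rpow_natCast]; push_cast; rfl
          rw [this, one_div, inv_pow]
          field_simp
      _ ≤ _ := mul_le_mul_of_nonneg_left h4 (by positivity)
  have h2 : (V.card : ℝ) * (2:ℝ) ^ ((s:ℝ) - k - 1) ≤ ∑ v ∈ V, ψ v := by
    have := Finset.card_nsmul_le_sum V ψ _ h1
    rwa [nsmul_eq_mul] at this
  calc (V.card : ℝ) = ((V.card : ℝ) * (2:ℝ) ^ ((s:ℝ) - k - 1)) * (2:ℝ) ^ ((k:ℝ) + 1 - s) := by
        rw [mul_assoc, ← Real.rpow_add two_pos]
        have : (s:ℝ) - k - 1 + ((k:ℝ) + 1 - s) = 0 := by ring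
        rw [this, Real.rpow_zero, mul_one]
    _ ≤ _ := mul_le_mul_of_nonneg_right h2 (by positivity)

theorem class_nonneg (ψ : ℕ → ℝ) (k s : ℕ) {v : ℕ} (hv : inClass ψ k s v) : 0 ≤ ψ v := by
  obtain ⟨h1, -, h3, -⟩ := hv
  have hv0 : (0:ℝ) < v := by
    have : 0 < v := lt_of_lt_of_le (by positivity) h1
    exact_mod_cast this
  rw [lt_div_iff₀ hv0] at h3
  exact le_trans (by positivity) h3.le

theorem nonspec (h : TreeStmt) : NonspecStmt := by
  classical
  intro C1
  obtain ⟨C, hC, htree⟩ := h C1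
  refine ⟨C * ((48:ℝ) ^ ((2:ℝ)/7) * (2:ℝ) ^ ((29:ℝ)/7)), by positivity, ?_⟩
  intro δ ψ k s l t m V W hkl hmsk hV hW hcount_le
  set A : ℝ := (2:ℝ) ^ ((m:ℝ) + s + 1 - t) with hA
  set B : ℝ := (2:ℝ) ^ (m:ℝ) with hB
  set κ : ℝ := (2:ℝ) ^ ((m:ℝ) + s + 2 - k) with hκ
  have hApos : 0 < A := by positivity
  have hBpos : 0 < B := by positivity
  have hκpos : 0 < κ := by positivity
  have eA : (2:ℝ) ^ ((m:ℤ) + s + 1 - t) = A := by
    rw [hA, ← Real.rpow_intCast]; push_cast; rfl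
  have eB : (2:ℝ) ^ m = B := by rw [hB, Real.rpow_natCast]
  have eκ : (2:ℝ) ^ ((m:ℤ) + s + 2 - k) = κ := by
    rw [hκ, ← Real.rpow_intCast]; push_cast; rfl
  rw [eA, eB, eκ] at hcount_le
  rw [eκ]
  set Q := Qset δ κ ⌊A⌋₊ (2 ^ m) with hQ
  have hfl : (⌊A⌋₊ : ℝ) ≤ A := Nat.floor_le hApos.le
  have hBc : ((2 ^ m : ℕ) : ℝ) = B := by rw [← eB]; push_cast; rfl
  have hQcard : (Q.card : ℝ) ≤ 48 * κ * (A * B) := by
    have h1 := Qset_card δ κ (max A B) ⌊A⌋₊ (2 ^ m) (hfl.trans (le_max_left _ _))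
      (hBc.le.trans (le_max_right _ _))
    have h2 : (Q.card : ℝ) ≤ 2 * ((min ⌊A⌋₊ (2 ^ m) : ℕ) * (hcount δ κ (max A B) : ℝ)) := by
      exact_mod_cast h1
    have h3 : ((min ⌊A⌋₊ (2 ^ m) : ℕ) : ℝ) * max A B ≤ A * B := by
      rcases le_total A B with hAB | hAB
      · rw [max_eq_right hAB]
        refine mul_le_mul_of_nonneg_right ?_ hBpos.le
        refine le_trans ?_ hfl
        exact_mod_cast min_le_left _ _
      · rw [max_eq_left hAB, mul_comm]
        refine mul_le_mul_of_nonneg_left ?_ hApos.le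
        refine le_trans ?_ hBc.le
        exact_mod_cast min_le_right _ _
    have h4 : ((min ⌊A⌋₊ (2 ^ m) : ℕ) : ℝ) * (hcount δ κ (max A B) : ℝ) ≤
        ((min ⌊A⌋₊ (2 ^ m) : ℕ) : ℝ) * (24 * κ * max A B) :=
      mul_le_mul_of_nonneg_left hcount_le (Nat.cast_nonneg _)
    calc (Q.card : ℝ) ≤ 2 * ((min ⌊A⌋₊ (2 ^ m) : ℕ) * (hcount δ κ (max A B) : ℝ)) := h2
      _ ≤ 2 * (((min ⌊A⌋₊ (2 ^ m) : ℕ) : ℝ) * (24 * κ * max A B)) := by linarith
      _ = 48 * κ * (((min ⌊A⌋₊ (2 ^ m) : ℕ) : ℝ) * max A B) := by ring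
      _ ≤ 48 * κ * (A * B) := mul_le_mul_of_nonneg_left h3 (by positivity)
  set F := (V ×ˢ W).filter (fun z => z.1 ≠ z.2 ∧ z.2 / z.1.gcd z.2 ≤ 2 ^ m ∧
        2 ^ m < 2 * (z.2 / z.1.gcd z.2) ∧
        nd ((Int.natAbs ((z.1 / z.1.gcd z.2 : ℕ) - (z.2 / z.1.gcd z.2 : ℕ) : ℤ) : ℕ) * δ) <
          κ) with hF
  have hFcnt : F.card ≤ cnt Set.univ V W Q := by
    have h5 : F ⊆ (V ×ˢ W).filter (fun t => (t.1 / t.1.gcd t.2, t.2 / t.1.gcd t.2) ∈ Q ∧
        ∀ p ∈ (t.1.gcd t.2).primeFactors, p ∈ (Set.univ : Set ℕ)) := by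
      rintro ⟨x, y⟩ hz
      rw [hF, Finset.mem_filter, Finset.mem_product] at hz
      obtain ⟨⟨hx, hy⟩, hne, hb1, hb2, hnd⟩ := hz
      simp only at hx hy hne hb1 hb2 hnd
      have hx0 : 0 < x := (hV x hx).1
      have hy0 : 0 < y := (hW y hy).1
      have hg : 0 < x.gcd y := Nat.gcd_pos_of_pos_left _ hx0
      have hxg : x.gcd y * (x / x.gcd y) = x := Nat.mul_div_cancel' (Nat.gcd_dvd_left x y)
      have hyg : x.gcd y * (y / x.gcd y) = y := Nat.mul_div_cancel' (Nat.gcd_dvd_right x y)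
      set g := x.gcd y with hgdef
      set a := x / g with ha
      set b := y / g with hb
      have ha0 : 0 < a := Nat.pos_of_ne_zero (by rintro h0; rw [h0, mul_zero] at hxg; omega)
      have hb0 : 0 < b := Nat.pos_of_ne_zero (by rintro h0; rw [h0, mul_zero] at hyg; omega)
      have hab : a ≠ b := by
        intro h0
        exact hne (by rw [← hxg, ← hyg, h0])
      have haA : (a : ℝ) ≤ A := by
        obtain ⟨-, hx2, -, -⟩ := (hV x hx).2.2
        obtain ⟨hy1, -, -, -⟩ := (hW y hy).2.2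
        have h6 : a * 2 ^ t ≤ 2 ^ m * 2 ^ (s + 1) := by
          calc a * 2 ^ t ≤ a * y := Nat.mul_le_mul_left _ hy1
            _ = b * x := by rw [← hyg, ← hxg]; ring
            _ ≤ 2 ^ m * 2 ^ (s + 1) := Nat.mul_le_mul hb1 hx2.le
        have h7 : (a : ℝ) * 2 ^ t ≤ 2 ^ m * 2 ^ (s + 1) := by exact_mod_cast h6
        have h8 : A = 2 ^ m * 2 ^ (s + 1) / 2 ^ t := by
          rw [← eA, zpow_sub₀ two_ne_zero, zpow_natCast]
          congr 1
          rw [add_assoc, zpow_add₀ two_ne_zero, zpow_natCast]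
          congr 1
        rw [h8, le_div_iff₀ (by positivity)]
        exact h7
      rw [Finset.mem_filter, Finset.mem_product]
      refine ⟨⟨hx, hy⟩, ?_, fun _ _ => Set.mem_univ _⟩
      rw [hQ, Qset, Finset.mem_filter, Finset.mem_product, Finset.mem_Icc, Finset.mem_Icc]
      exact ⟨⟨⟨ha0, Nat.le_floor haA⟩, ⟨hb0, hb1⟩⟩, hab, hnd⟩
    refine (Finset.card_le_card h5).trans (le_of_eq ?_)
    unfold cnt
    congr
  have hterm : ∀ z ∈ F, ψ z.2 / (z.2 / z.1.gcd z.2 : ℕ) ≤ (2:ℝ) ^ ((t:ℝ) + 2 - l - m) := by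
    rintro ⟨x, y⟩ hz
    rw [hF, Finset.mem_filter, Finset.mem_product] at hz
    obtain ⟨⟨hx, hy⟩, -, -, hb2, -⟩ := hz
    simp only at hx hy hb2 ⊢
    obtain ⟨-, hy2, -, hy4⟩ := (hW y hy).2.2
    have hy0 : (0:ℝ) < y := by exact_mod_cast (hW y hy).1
    set b := y / x.gcd y with hb
    have hb0 : (0:ℝ) < b := by
      have : 0 < b := by
        have : 0 < 2 ^ m := by positivity
        omega
      exact_mod_cast this
    rw [div_le_iff₀ hy0] at hy4
    have hb2' : (2:ℝ) ^ m < 2 * b := by exact_mod_cast hb2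
    have hy2' : (y:ℝ) < 2 ^ (t + 1) := by exact_mod_cast hy2
    rw [div_le_iff₀ hb0]
    have e1 : (2:ℝ) ^ ((t:ℝ) + 2 - l - m) = (1/2:ℝ) ^ l * 2 ^ (t + 1) * (2 / 2 ^ m) := by
      have : (t:ℝ) + 2 - l - m = ((t + 2 : ℕ) : ℝ) - l - m := by push_cast; ring
      rw [this, Real.rpow_sub two_pos, Real.rpow_sub two_pos, Real.rpow_natCast,
        Real.rpow_natCast, Real.rpow_natCast, one_div, inv_pow]
      field_simp
      ring
    rw [e1]
    calc ψ y ≤ (1/2:ℝ) ^ l * y := hy4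
      _ ≤ (1/2:ℝ) ^ l * 2 ^ (t + 1) := mul_le_mul_of_nonneg_left hy2'.le (by positivity)
      _ = (1/2:ℝ) ^ l * 2 ^ (t + 1) * 1 := by ring
      _ ≤ (1/2:ℝ) ^ l * 2 ^ (t + 1) * (2 / 2 ^ m * b) := by
          refine mul_le_mul_of_nonneg_left ?_ (by positivity)
          rw [div_mul_eq_mul_div, le_div_iff₀ (by positivity)]
          linarith
      _ = _ := by ring
  have hsum : ∑ z ∈ F, ψ z.2 / (z.2 / z.1.gcd z.2 : ℕ) ≤
      (cnt Set.univ V W Q : ℝ) * (2:ℝ) ^ ((t:ℝ) + 2 - l - m) := by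
    have h9 := Finset.sum_le_card_nsmul F _ _ hterm
    rw [nsmul_eq_mul] at h9
    refine h9.trans (mul_le_mul_of_nonneg_right ?_ (by positivity))
    exact_mod_cast hFcnt
  have ht := htree V W Q A B hApos.le hBpos.le (fun v hv => ⟨(hV v hv).1, (hV v hv).2.1⟩)
    (fun w hw => ⟨(hW w hw).1, (hW w hw).2.1⟩) (by
      intro z hz
      rw [hQ, Qset, Finset.mem_filter, Finset.mem_product, Finset.mem_Icc, Finset.mem_Icc] at hz
      obtain ⟨⟨⟨-, h1⟩, ⟨-, h2⟩⟩, -⟩ := hz
      constructor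
      · exact le_trans (by exact_mod_cast h1) hfl
      · exact le_trans (by exact_mod_cast h2) hBc.le)
  set SV := ∑ v ∈ V, ψ v with hSV
  set SW := ∑ w ∈ W, ψ w with hSW
  have hSV0 : 0 ≤ SV := Finset.sum_nonneg fun v hv => class_nonneg ψ k s (hV v hv).2.2
  have hSW0 : 0 ≤ SW := Finset.sum_nonneg fun w hw => class_nonneg ψ l t (hW w hw).2.2
  have hVc := class_card ψ k s V (fun v hv => (hV v hv).2.2)
  have hWc := class_card ψ l t W (fun w hw => (hW w hw).2.2)
  have hVW : (V.card : ℝ) * W.card ≤ (SV * SW) * ((2:ℝ) ^ ((k:ℝ) + 1 - s + (l + 1 - t))) := by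
    rw [Real.rpow_add two_pos]
    calc (V.card : ℝ) * W.card ≤ (SV * (2:ℝ) ^ ((k:ℝ) + 1 - s)) * (SW * (2:ℝ) ^ ((l:ℝ) + 1 - t)) :=
          mul_le_mul hVc hWc (Nat.cast_nonneg _) (by positivity)
      _ = _ := by ring
  have hb : bnd A B Q V W ≤ (A * B) ^ ((1:ℝ)/7) * (48 * κ * (A * B)) ^ ((2:ℝ)/7) *
      ((SV * SW) * ((2:ℝ) ^ ((k:ℝ) + 1 - s + (l + 1 - t)))) ^ ((4:ℝ)/7) := by
    unfold bnd
    gcongr
  have hAB : A * B = (2:ℝ) ^ ((m:ℝ) + s + 1 - t + m) := by
    rw [hA, hB, ← Real.rpow_add two_pos]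
  rw [hAB, Real.mul_rpow (by positivity) (by positivity),
    Real.mul_rpow (x := 48) (by positivity) (by positivity),
    Real.mul_rpow (x := SV * SW) (by positivity) (by positivity), hκ,
    ← Real.rpow_mul two_pos.le, ← Real.rpow_mul two_pos.le, ← Real.rpow_mul two_pos.le,
    ← Real.rpow_mul two_pos.le] at hb
  refine hsum.trans ?_
  calc (cnt Set.univ V W Q : ℝ) * (2:ℝ) ^ ((t:ℝ) + 2 - l - m)
      ≤ (C * bnd A B Q V W) * (2:ℝ) ^ ((t:ℝ) + 2 - l - m) :=
        mul_le_mul_of_nonneg_right ht (by positivity)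
    _ ≤ (C * _) * (2:ℝ) ^ ((t:ℝ) + 2 - l - m) :=
        mul_le_mul_of_nonneg_right (mul_le_mul_of_nonneg_left hb hC.le) (by positivity)
    _ = C * (48:ℝ) ^ ((2:ℝ)/7) * (SV * SW) ^ ((4:ℝ)/7) *
          ((2:ℝ) ^ (((m:ℝ) + s + 1 - t + m) * (1/7)) * (2:ℝ) ^ (((m:ℝ) + s + 2 - k) * (2/7)) *
          (2:ℝ) ^ (((m:ℝ) + s + 1 - t + m) * (2/7)) *
          (2:ℝ) ^ (((k:ℝ) + 1 - s + (l + 1 - t)) * (4/7)) * (2:ℝ) ^ ((t:ℝ) + 2 - l - m)) := by
        ring
    _ = C * (48:ℝ) ^ ((2:ℝ)/7) * (SV * SW) ^ ((4:ℝ)/7) *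
          ((2:ℝ) ^ ((29:ℝ)/7) * (2:ℝ) ^ (((m:ℝ) + s - k) / 7) *
            (2:ℝ) ^ (-(3 * ((l:ℝ) - k)) / 7)) := by
        rw [← Real.rpow_add two_pos, ← Real.rpow_add two_pos, ← Real.rpow_add two_pos,
          ← Real.rpow_add two_pos, ← Real.rpow_add two_pos, ← Real.rpow_add two_pos]
        congr 2
        ring
    _ = _ := by ring

end Pool.Agent.MP_0863b8

end

section

/-!
MP_0863b8_nt, RECURSION block: the statements of the items.
-/

set_option autoImplicit false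

namespace Pool.Agent.MP_0863b8.R

open MeasureTheory

/-- indicator of the kept set -/
noncomputable def ch (δ : ℝ) (μ : ℕ → ℝ) (K : ℕ → ℕ → ℤ → Prop) (q m : ℕ) (t : ℝ) : ℝ :=
  (Bs δ μ K q m).indicator (1 : ℝ → ℝ) t

/-- sum of the indicators -/
noncomputable def FN (δ : ℝ) (μ : ℕ → ℝ) (K : ℕ → ℕ → ℤ → Prop) (q : ℕ) (N : Finset ℕ)
    (t : ℝ) : ℝ := ∑ n ∈ N, ch δ μ K q n t

/-- P1: splitting of an integral over a period into `Q` pieces -/
def P1Stmt : Prop :=
  ∀ (f : ℝ → ℝ), IntervalIntegrable f volume 0 1 → ∀ Q : ℕ, 0 < Q →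
    ∫ t in (0:ℝ)..1, f t = (1 / (Q:ℝ)) * ∑ i ∈ Finset.range Q, ∫ y in (0:ℝ)..1, f ((y + i) / Q)

/-- P2: the kept sets are measurable; overlaps are integrals -/
def P2Stmt : Prop :=
  (∀ (δ : ℝ) (μ : ℕ → ℝ) (K : ℕ → ℕ → ℤ → Prop) (q m : ℕ), MeasurableSet (Bs δ μ K q m)) ∧
  (∀ (δ : ℝ) (μ : ℕ → ℝ) (K : ℕ → ℕ → ℤ → Prop) (q : ℕ) (L T : Finset ℕ),
    ∑ m ∈ L, ∑ n ∈ T, ov δ μ K q m n =
      ∫ t in (0:ℝ)..1, FN δ μ K q L t * FN δ μ K q T t) ∧
  (∀ (δ : ℝ) (μ : ℕ → ℝ) (K : ℕ → ℕ → ℤ → Prop) (q : ℕ) (N : Finset ℕ),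
    Measurable (FN δ μ K q N) ∧ ∀ t, 0 ≤ FN δ μ K q N t ∧ FN δ μ K q N t ≤ N.card)

/-- P3: pushing the indicators of `L` to the new space -/
def P3Stmt : Prop :=
  ∀ (δ : ℝ) (μ : ℕ → ℝ) (K K' : ℕ → ℕ → ℤ → Prop) (q j : ℕ) (L : Finset ℕ), q.Prime →
    (∀ m ∈ L, 0 < m ∧ m.factorization q = j ∧ (q:ℝ) * μ m < 1 / 2) →
    (∀ m ∈ L, ∀ v r, K m v r → v ∣ m) →
    (∀ m ∈ L, ∀ v r, K' (m / q ^ j) v r →
      Sm q v ∧ ∃ r0, K m v r0 ∧ r ≡ (q : ℤ) * r0 [ZMOD (v : ℤ)]) →
    ∀ y : ℝ, ∑ i ∈ Finset.range (q ^ (j + 1)), FN δ μ K q L ((y + i) / ((q ^ (j + 1) : ℕ) : ℝ)) ≤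
      (q:ℝ) ^ j * FN ((q:ℝ) * δ) (fun m' => (q:ℝ) * μ (q ^ j * m')) K' q
        (L.image (fun m => m / q ^ j)) y

/-- P4: the indicators of `T` are constant on the fibres -/
def P4Stmt : Prop :=
  ∀ (δ : ℝ) (μ : ℕ → ℝ) (K : ℕ → ℕ → ℤ → Prop) (q j : ℕ) (T : Finset ℕ), q.Prime →
    (∀ n ∈ T, 0 < n ∧ n.factorization q = j + 1) →
    (∀ n ∈ T, ∀ v r, K n v r → v ∣ n) →
    ∀ (y : ℝ) (i : ℕ), FN δ μ K q T ((y + i) / ((q ^ (j + 1) : ℕ) : ℝ)) =
      FN δ μ K q T (y / ((q ^ (j + 1) : ℕ) : ℝ))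

/-- P5: Cauchy-Schwarz -/
def P5Stmt : Prop :=
  ∀ (F G : ℝ → ℝ) (C : ℝ), Measurable F → Measurable G → (∀ t, 0 ≤ F t ∧ F t ≤ C) →
    (∀ t, 0 ≤ G t ∧ G t ≤ C) →
    ∫ t in (0:ℝ)..1, F t * G t ≤
      Real.sqrt (∫ t in (0:ℝ)..1, F t * F t) * Real.sqrt (∫ t in (0:ℝ)..1, G t * G t)

/-- PS: the product inequality -/
def PSStmt : Prop :=
  ∀ (δ : ℝ) (μ : ℕ → ℝ) (K K' : ℕ → ℕ → ℤ → Prop) (q j : ℕ) (L T : Finset ℕ), q.Prime →
    (∀ m ∈ L, 0 < m ∧ m.factorization q = j ∧ (q:ℝ) * μ m < 1 / 2) →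
    (∀ m ∈ L, ∀ v r, K m v r → v ∣ m) →
    (∀ m ∈ L, ∀ v r, K' (m / q ^ j) v r →
      Sm q v ∧ ∃ r0, K m v r0 ∧ r ≡ (q : ℤ) * r0 [ZMOD (v : ℤ)]) →
    (∀ n ∈ T, 0 < n ∧ n.factorization q = j + 1) →
    (∀ n ∈ T, ∀ v r, K n v r → v ∣ n) →
    ∑ m ∈ L, ∑ n ∈ T, ov δ μ K q m n ≤ (1 / (q:ℝ)) *
      (Real.sqrt (En ((q:ℝ) * δ) (fun m' => (q:ℝ) * μ (q ^ j * m')) K' q
        (L.image (fun m => m / q ^ j))) * Real.sqrt (En δ μ K q T))

/-- BUD: the budget lemma -/
def BudStmt : Prop :=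
  ∀ (K P b : ℝ), 0 < K → 0 < P → ∀ s : Finset ℕ, (∀ p ∈ s, P < (p:ℝ)) →
    ∑ q ∈ s, (1 / (q:ℝ)) *
      Real.exp (2 * K * (b - ∑ p ∈ s.filter (fun p => q < p), (1:ℝ) / p)) ≤
      Real.exp (2 * K / P) / (2 * K) * Real.exp (2 * K * b)

/-- NUM: the numerical lemma (`l = λ`, `ps = ψ`) -/
def NumStmt : Prop :=
  ∀ (ι : Type) (I : Finset ι) (c K1 η l α ps M MS V : ℝ) (q L T X Y a W : ι → ℝ),
    0 ≤ c → c < 1 / 2 → 1 ≤ K1 → 0 ≤ η → 0 ≤ l → 0 ≤ α → 0 ≤ M → M ≤ MS → 0 ≤ V →
    ps = (1 + MS) ^ c → K1 ^ c * η ≤ 1 / 20 → K1 ^ (c - 1 / 2) ≤ 1 / 20 →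
    (∀ i ∈ I, 1 ≤ q i ∧ 0 ≤ L i ∧ 0 ≤ T i ∧ T i ≤ M ∧ 0 ≤ W i ∧ W i ≤ V ∧ 0 ≤ a i ∧
      a i ≤ 2 * α) →
    (∀ i ∈ I, 0 ≤ X i ∧
      X i ≤ l * (q i * L i) + a i * (1 + q i * L i) ^ c * Real.sqrt (q i * L i)) →
    (∀ i ∈ I, 0 ≤ Y i ∧ Y i ≤ l * T i + α * ps * Real.sqrt (T i) + Real.sqrt (W i)) →
    ∑ i ∈ I, L i ≤ M → 2 * ∑ i ∈ I, L i * T i ≤ M ^ 2 →
    ∑ i ∈ I, a i ^ 2 * T i / q i ≤ η ^ 2 * α ^ 2 * M →
    ∑ i ∈ I, a i ^ 2 * W i / q i ≤ η ^ 2 * α ^ 2 * V →
    ∑ i ∈ I, 2 / q i * (X i * Y i) ≤ 2 * l ^ 2 * ∑ i ∈ I, L i * T i +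
      2 * l * α * ps * (M * Real.sqrt M) + α ^ 2 * ps ^ 2 * M + 2 * l * M * Real.sqrt V +
      2 * α * ps * (Real.sqrt M * Real.sqrt V)

end Pool.Agent.MP_0863b8.R

end

section

namespace Pool.Agent.MP_0863b8

open MeasureTheory Filter

/-- contribution of the pairs with `x ∣ y` -/
theorem sum_dvd_pairs (S : Finset ℕ) (ψ : ℕ → ℝ) (c : ℝ) (hc : 0 < c)
    (h7 : DivSumStmt)
    (hS : ∀ n ∈ S, 0 < n ∧ c ≤ (Nat.totient n : ℝ) / n ∧ 0 < ψ n ∧ ψ n ≤ 1 / 8) (y : ℕ)
    (hy : y ∈ S) :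
    ∑ x ∈ S.filter (fun x => x / x.gcd y = 1), ψ y / ((y / x.gcd y : ℕ) : ℝ) ≤ ψ y * (1 / c) := by
  obtain ⟨hy0, hyc, hψ, -⟩ := hS y hy
  have h := (h7 c y hc hy0 hyc).1
  have hkey : ∀ x ∈ S.filter (fun x => x / x.gcd y = 1), x ∣ y ∧ x.gcd y = x := by
    intro x hx
    rw [Finset.mem_filter] at hx
    have hx0 : 0 < x := (hS x hx.1).1
    have hg : x.gcd y ∣ x := Nat.gcd_dvd_left x y
    have hgx : x = x.gcd y := by
      have := Nat.div_mul_cancel hg
      rw [hx.2, one_mul] at this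
      exact this.symm
    exact ⟨hgx ▸ Nat.gcd_dvd_right x y, hgx.symm⟩
  calc ∑ x ∈ S.filter (fun x => x / x.gcd y = 1), ψ y / ((y / x.gcd y : ℕ) : ℝ)
      = ∑ x ∈ S.filter (fun x => x / x.gcd y = 1), ψ y / ((y / x : ℕ) : ℝ) := by
        apply Finset.sum_congr rfl
        intro x hx
        rw [(hkey x hx).2]
    _ ≤ ∑ x ∈ y.divisors, ψ y / ((y / x : ℕ) : ℝ) := by
        apply Finset.sum_le_sum_of_subset_of_nonneg
        · intro x hx
          rw [Nat.mem_divisors]
          exact ⟨(hkey x hx).1, hy0.ne'⟩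
        · intro x _ _
          positivity
    _ = ψ y * ∑ d ∈ y.divisors, (1:ℝ) / ((y / d : ℕ) : ℝ) := by
        rw [Finset.mul_sum]
        apply Finset.sum_congr rfl
        intro x _
        ring
    _ = ψ y * ∑ d ∈ y.divisors, (1:ℝ) / (d : ℝ) := by
        congr 1
        exact Nat.sum_div_divisors y (fun d => (1:ℝ) / (d : ℝ))
    _ ≤ ψ y * (1 / c) := by
        apply mul_le_mul_of_nonneg_left h hψ.le

open Classical in
/-- contribution of the exceptional pairs -/
theorem sum_exc_pairs (S : Finset ℕ) (δ : ℝ) (ψ : ℕ → ℝ) (c : ℝ) (hc : 0 < c)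
    (h3 : MultStmt) (h7 : DivSumStmt)
    (hS : ∀ n ∈ S, 0 < n ∧ c ≤ (Nat.totient n : ℝ) / n ∧ 0 < ψ n ∧ ψ n ≤ 1 / 8) (x : ℕ)
    (hx : x ∈ S) :
    ∑ y ∈ S.filter (fun y => Exc δ (ψ x) (x / x.gcd y) (y / x.gcd y)),
      ψ x / ((x / x.gcd y : ℕ) : ℝ) ≤ 50 * (ψ x * (1 / c)) := by
  obtain ⟨hx0, hxc, hψ, -⟩ := hS x hx
  have h := (h7 c x hc hx0 hxc).1
  have hmaps : ∀ y ∈ S.filter (fun y => Exc δ (ψ x) (x / x.gcd y) (y / x.gcd y)),
      x / x.gcd y ∈ x.divisors := by
    intro y _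
    rw [Nat.mem_divisors]
    exact ⟨Nat.div_dvd_of_dvd (Nat.gcd_dvd_left x y), hx0.ne'⟩
  rw [← Finset.sum_fiberwise_of_maps_to hmaps]
  calc ∑ a ∈ x.divisors, ∑ y ∈ (S.filter (fun y => Exc δ (ψ x) (x / x.gcd y) (y / x.gcd y))).filter
        (fun y => x / x.gcd y = a), ψ x / ((x / x.gcd y : ℕ) : ℝ)
      ≤ ∑ a ∈ x.divisors, 50 * (ψ x * (1 / (a:ℝ))) := by
        apply Finset.sum_le_sum
        intro a ha
        have ha0 : 0 < a := Nat.pos_of_mem_divisors ha
        have hadvd : a ∣ x := Nat.dvd_of_mem_divisors ha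
        set F := (S.filter (fun y => Exc δ (ψ x) (x / x.gcd y) (y / x.gcd y))).filter
          (fun y => x / x.gcd y = a) with hF
        have hmem : ∀ y ∈ F, y ∈ S ∧ Exc δ (ψ x) a (y / x.gcd y) ∧ x.gcd y = x / a := by
          intro y hy
          rw [hF, Finset.mem_filter, Finset.mem_filter] at hy
          refine ⟨hy.1.1, hy.2 ▸ hy.1.2, ?_⟩
          rw [← hy.2]
          exact (Nat.div_div_self (Nat.gcd_dvd_left x y) hx0.ne').symm
        have hcard : F.card ≤ 50 := by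
          have hinj : Set.InjOn (fun y => y / x.gcd y) (F : Set ℕ) := by
            intro y1 hy1 y2 hy2 h12
            simp only at h12
            have e1 := (hmem y1 hy1).2.2
            have e2 := (hmem y2 hy2).2.2
            have d1 := Nat.div_mul_cancel (Nat.gcd_dvd_right x y1)
            have d2 := Nat.div_mul_cancel (Nat.gcd_dvd_right x y2)
            rw [← d1, ← d2, h12, e1, e2]
          rw [← Finset.card_image_of_injOn hinj]
          apply h3 δ (ψ x) a hψ ha0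
          intro b hb
          rw [Finset.mem_image] at hb
          obtain ⟨y, hy, rfl⟩ := hb
          refine ⟨?_, (hmem y hy).2.1⟩
          have hy0 : 0 < y := (hS y (hmem y hy).1).1
          exact Nat.div_pos (Nat.le_of_dvd hy0 (Nat.gcd_dvd_right x y))
            (Nat.gcd_pos_of_pos_left y hx0)
        calc ∑ y ∈ F, ψ x / ((x / x.gcd y : ℕ) : ℝ) = ∑ y ∈ F, ψ x / (a:ℝ) := by
              apply Finset.sum_congr rfl
              intro y hy
              rw [(hmem y hy).2.2, Nat.div_div_self hadvd hx0.ne']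
          _ = F.card * (ψ x / a) := by rw [Finset.sum_const, nsmul_eq_mul]
          _ ≤ 50 * (ψ x / a) := by
              apply mul_le_mul_of_nonneg_right
              · exact_mod_cast hcard
              · positivity
          _ = 50 * (ψ x * (1 / (a:ℝ))) := by ring
    _ = 50 * (ψ x * ∑ a ∈ x.divisors, (1:ℝ) / a) := by
        rw [Finset.mul_sum, Finset.mul_sum]
    _ ≤ 50 * (ψ x * (1 / c)) := by
        apply mul_le_mul_of_nonneg_left _ (by norm_num)
        apply mul_le_mul_of_nonneg_left h hψ.le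

theorem sum_fiber_le {ι : Type*} (P : Finset ι) (T : Finset ℕ) (g : ι → ℕ) (f : ι → ℝ)
    (F : ℕ → ℝ) (hmaps : ∀ z ∈ P, g z ∈ T)
    (h : ∀ k ∈ T, ∑ z ∈ P.filter (fun z => g z = k), f z ≤ F k) :
    ∑ z ∈ P, f z ≤ ∑ k ∈ T, F k := by
  rw [← Finset.sum_fiberwise_of_maps_to hmaps]
  exact Finset.sum_le_sum h

/-- the pair is nonspecial with respect to its class data -/
def NSP (δ : ℝ) (lev : ℕ → ℕ) (z : ℕ × ℕ) : Prop :=
  z.1 ≠ z.2 ∧ lev z.1 ≤ lev z.2 ∧
  Nat.clog 2 (z.2 / z.1.gcd z.2) + Nat.log 2 z.1 ≤ lev z.1 ∧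
  (hcount δ ((2:ℝ) ^ (((Nat.clog 2 (z.2 / z.1.gcd z.2) : ℕ):ℤ) + (Nat.log 2 z.1 : ℕ) + 2 -
      (lev z.1 : ℕ)))
    (max ((2:ℝ) ^ (((Nat.clog 2 (z.2 / z.1.gcd z.2) : ℕ):ℤ) + (Nat.log 2 z.1 : ℕ) + 1 -
      (Nat.log 2 z.2 : ℕ))) (2 ^ (Nat.clog 2 (z.2 / z.1.gcd z.2)))) : ℝ) ≤
    24 * ((2:ℝ) ^ (((Nat.clog 2 (z.2 / z.1.gcd z.2) : ℕ):ℤ) + (Nat.log 2 z.1 : ℕ) + 2 -
      (lev z.1 : ℕ))) *
    (max ((2:ℝ) ^ (((Nat.clog 2 (z.2 / z.1.gcd z.2) : ℕ):ℤ) + (Nat.log 2 z.1 : ℕ) + 1 -
      (Nat.log 2 z.2 : ℕ))) (2 ^ (Nat.clog 2 (z.2 / z.1.gcd z.2)))) ∧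
  nd ((Int.natAbs ((z.1 / z.1.gcd z.2 : ℕ) - (z.2 / z.1.gcd z.2 : ℕ) : ℤ) : ℕ) * δ) <
    (2:ℝ) ^ (((Nat.clog 2 (z.2 / z.1.gcd z.2) : ℕ):ℤ) + (Nat.log 2 z.1 : ℕ) + 2 -
      (lev z.1 : ℕ))

open Classical in
theorem sum_ns_pairs (h5 : NonspecStmt) (h6 : ClassSumStmt) (h7 : DivSumStmt) (c C0 : ℝ)
    (hc : 0 < c) :
    ∃ C : ℝ, 0 < C ∧ ∀ (δ : ℝ) (ψ : ℕ → ℝ) (S : Finset ℕ) (lev : ℕ → ℕ),
    (∀ n ∈ S, 0 < n ∧ c ≤ (Nat.totient n : ℝ) / n ∧ 0 < ψ n ∧ ψ n ≤ 1 / 8) →
    ∑ n ∈ S, ψ n ≤ 1 →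
    (∀ (k : ℕ) (T : Finset ℕ), ∑ s ∈ T, (cmass ψ S k s) ^ ((1:ℝ)/7) ≤ C0) →
    (∀ n ∈ S, (1/2 : ℝ) ^ (lev n + 1) < ψ n / n ∧ ψ n / n ≤ (1/2 : ℝ) ^ (lev n)) →
    ∑ z ∈ (S ×ˢ S).filter (fun z => NSP δ lev z), ψ z.2 / ((z.2 / z.1.gcd z.2 : ℕ) : ℝ) ≤ C := by
  obtain ⟨Cn, hCn, hn⟩ := h5 (1 / c)
  obtain ⟨Cs, hCs, hs⟩ := h6 C0
  refine ⟨Cn * Cs, by positivity, ?_⟩
  intro δ ψ S lev hS hsum hL hlev
  -- a bound for all indices
  obtain ⟨N, hN⟩ : ∃ N : ℕ, ∀ n ∈ S, lev n < N ∧ Nat.log 2 n < N ∧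
      ∀ b : ℕ, b ≤ n → Nat.clog 2 b < N := by
    refine ⟨∑ n ∈ S, (lev n + Nat.log 2 n + Nat.clog 2 n + 1), ?_⟩
    intro n hn
    have h1 : lev n + Nat.log 2 n + Nat.clog 2 n + 1 ≤
        ∑ n ∈ S, (lev n + Nat.log 2 n + Nat.clog 2 n + 1) :=
      Finset.single_le_sum (f := fun n => lev n + Nat.log 2 n + Nat.clog 2 n + 1)
        (fun _ _ => Nat.zero_le _) hn
    refine ⟨by omega, by omega, ?_⟩
    intro b hb
    have := Nat.clog_mono_right 2 hb
    omega
  -- class masses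
  set xx : ℕ → ℕ → ℝ := fun k s => cmass ψ S k s with hxx
  have hcm : ∀ k s, cmass ψ S k s = ∑ n ∈ S.filter (fun n => inClass ψ k s n), ψ n := by
    intro k s
    rfl
  have hclass : ∀ n ∈ S, inClass ψ (lev n) (Nat.log 2 n) n := by
    intro n hn
    have hn0 := (hS n hn).1
    exact ⟨Nat.pow_log_le_self 2 hn0.ne', Nat.lt_pow_succ_log_self (by norm_num) n,
      (hlev n hn).1, (hlev n hn).2⟩
  have hclassu : ∀ n k s, inClass ψ k s n → n ∈ S → k = lev n ∧ s = Nat.log 2 n := by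
    intro n k s hk hn
    obtain ⟨g1, g2, g3, g4⟩ := hk
    obtain ⟨l1, l2⟩ := hlev n hn
    constructor
    · apply le_antisymm
      · by_contra hcon
        push Not at hcon
        have : (1/2:ℝ) ^ k ≤ (1/2) ^ (lev n + 1) :=
          pow_le_pow_of_le_one (by norm_num) (by norm_num) hcon
        linarith
      · by_contra hcon
        push Not at hcon
        have : (1/2:ℝ) ^ (lev n) ≤ (1/2) ^ (k + 1) :=
          pow_le_pow_of_le_one (by norm_num) (by norm_num) hcon
        linarith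
    · exact (Nat.log_eq_of_pow_le_of_lt_pow g1 g2).symm
  have hx0 : ∀ k s, 0 ≤ xx k s := by
    intro k s
    apply Finset.sum_nonneg
    intro n hn
    rw [Finset.mem_filter] at hn
    exact (hS n hn.1).2.2.1.le
  have hxsum : ∑ k ∈ Finset.range N, ∑ s ∈ Finset.range N, xx k s ≤ 1 := by
    refine le_trans (le_of_eq ?_) hsum
    have hm1 : ∀ n ∈ S, lev n ∈ Finset.range N := fun n hn => Finset.mem_range.mpr (hN n hn).1
    rw [← Finset.sum_fiberwise_of_maps_to hm1]
    apply Finset.sum_congr rfl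
    intro k _
    have hm2 : ∀ n ∈ S.filter (fun n => lev n = k), Nat.log 2 n ∈ Finset.range N := by
      intro n hn
      rw [Finset.mem_filter] at hn
      exact Finset.mem_range.mpr (hN n hn.1).2.1
    rw [← Finset.sum_fiberwise_of_maps_to hm2]
    apply Finset.sum_congr rfl
    intro s _
    rw [hxx]
    simp only
    rw [hcm]
    apply Finset.sum_congr _ (fun _ _ => rfl)
    ext n
    simp only [Finset.mem_filter]
    constructor
    · rintro ⟨h1, h2⟩
      obtain ⟨e1, e2⟩ := hclassu n k s h2 h1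
      exact ⟨⟨h1, e1.symm⟩, e2.symm⟩
    · rintro ⟨⟨h1, h2⟩, h3⟩
      refine ⟨h1, ?_⟩
      rw [← h2, ← h3]
      exact hclass n h1
  have hmain := hs N xx hx0 hxsum (fun k _ => hL k (Finset.range N))
  have hrp : ∀ n ∈ S, rp n ≤ 1 / c := fun n hn => (h7 c n hc (hS n hn).1 (hS n hn).2.1).2
  have hψ0 : ∀ n ∈ S, 0 < ψ n := fun n hn => (hS n hn).2.2.1
  calc ∑ z ∈ (S ×ˢ S).filter (fun z => NSP δ lev z), ψ z.2 / ((z.2 / z.1.gcd z.2 : ℕ) : ℝ)
      ≤ ∑ k ∈ Finset.range N, ∑ l ∈ (Finset.range N).filter (fun l => k ≤ l),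
      ∑ s ∈ Finset.range N, ∑ t ∈ Finset.range N,
      ∑ m ∈ (Finset.range N).filter (fun m => m + s ≤ k),
        Cn * ((2:ℝ) ^ (((m:ℝ) + s - k) / 7) * (2:ℝ) ^ (-(3 * ((l:ℝ) - k)) / 7) *
          (xx k s * xx l t) ^ ((4:ℝ)/7)) := by
        apply sum_fiber_le _ _ (fun z => lev z.1)
        · intro z hz
          rw [Finset.mem_filter, Finset.mem_product] at hz
          exact Finset.mem_range.mpr (hN z.1 hz.1.1).1
        intro k _
        apply sum_fiber_le _ _ (fun z => lev z.2)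
        · intro z hz
          rw [Finset.mem_filter, Finset.mem_filter, Finset.mem_product] at hz
          rw [Finset.mem_filter]
          refine ⟨Finset.mem_range.mpr (hN z.2 hz.1.1.2).1, ?_⟩
          rw [← hz.2]
          exact hz.1.2.2.1
        intro l hl
        apply sum_fiber_le _ _ (fun z => Nat.log 2 z.1)
        · intro z hz
          rw [Finset.mem_filter, Finset.mem_filter, Finset.mem_filter, Finset.mem_product] at hz
          exact Finset.mem_range.mpr (hN z.1 hz.1.1.1.1).2.1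
        intro s _
        apply sum_fiber_le _ _ (fun z => Nat.log 2 z.2)
        · intro z hz
          rw [Finset.mem_filter, Finset.mem_filter, Finset.mem_filter, Finset.mem_filter,
            Finset.mem_product] at hz
          exact Finset.mem_range.mpr (hN z.2 hz.1.1.1.1.2).2.1
        intro t _
        apply sum_fiber_le _ _ (fun z => Nat.clog 2 (z.2 / z.1.gcd z.2))
        · intro z hz
          simp only [Finset.mem_filter, Finset.mem_product] at hz
          obtain ⟨⟨⟨⟨⟨⟨hz1, hz2⟩, hzN⟩, e1⟩, e2⟩, e3⟩, e4⟩ := hz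
          rw [Finset.mem_filter]
          refine ⟨Finset.mem_range.mpr ((hN z.2 hz2).2.2 _ (Nat.div_le_self _ _)), ?_⟩
          have := hzN.2.2.1
          rw [e1, e3] at this
          exact this
        intro m hm
        rw [Finset.mem_filter] at hl hm
        set V := S.filter (fun n => inClass ψ k s n) with hV
        set W := S.filter (fun n => inClass ψ l t n) with hW
        set G := ((((((S ×ˢ S).filter (fun z => NSP δ lev z)).filter
          (fun z => lev z.1 = k)).filter (fun z => lev z.2 = l)).filter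
          (fun z => Nat.log 2 z.1 = s)).filter (fun z => Nat.log 2 z.2 = t)).filter
          (fun z => Nat.clog 2 (z.2 / z.1.gcd z.2) = m) with hG
        have hGmem : ∀ z ∈ G, z.1 ∈ S ∧ z.2 ∈ S ∧ NSP δ lev z ∧ lev z.1 = k ∧ lev z.2 = l ∧
            Nat.log 2 z.1 = s ∧ Nat.log 2 z.2 = t ∧ Nat.clog 2 (z.2 / z.1.gcd z.2) = m := by
          intro z hz
          simp only [hG, Finset.mem_filter, Finset.mem_product] at hz
          obtain ⟨⟨⟨⟨⟨⟨⟨hz1, hz2⟩, hzN⟩, e1⟩, e2⟩, e3⟩, e4⟩, e5⟩ := hz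
          exact ⟨hz1, hz2, hzN, e1, e2, e3, e4, e5⟩
        rcases G.eq_empty_or_nonempty with hGe | ⟨z0, hz0⟩
        · rw [hGe, Finset.sum_empty]
          have := hx0 k s
          have := hx0 l t
          positivity
        · have hcond : (hcount δ ((2:ℝ) ^ ((m:ℤ) + s + 2 - k))
              (max ((2:ℝ) ^ ((m:ℤ) + s + 1 - t)) (2 ^ m)) : ℝ) ≤
              24 * ((2:ℝ) ^ ((m:ℤ) + s + 2 - k)) *
              (max ((2:ℝ) ^ ((m:ℤ) + s + 1 - t)) (2 ^ m)) := by
            obtain ⟨-, -, hzN, e1, e2, e3, e4, e5⟩ := hGmem z0 hz0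
            have := hzN.2.2.2.1
            rw [e1, e3, e4, e5] at this
            exact this
          have hb := hn δ ψ k s l t m V W hl.2 hm.2
            (by
              intro v hv
              rw [hV, Finset.mem_filter] at hv
              exact ⟨(hS v hv.1).1, hrp v hv.1, hv.2⟩)
            (by
              intro v hv
              rw [hW, Finset.mem_filter] at hv
              exact ⟨(hS v hv.1).1, hrp v hv.1, hv.2⟩) hcond
          have hxk : ∑ v ∈ V, ψ v = xx k s := rfl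
          have hxl : ∑ v ∈ W, ψ v = xx l t := rfl
          rw [hxk, hxl] at hb
          refine le_trans ?_ (hb.trans (le_of_eq (by ring)))
          apply Finset.sum_le_sum_of_subset_of_nonneg
          · intro z hz
            obtain ⟨z1, z2, hzN, e1, e2, e3, e4, e5⟩ := hGmem z hz
            have hz10 : 0 < z.1 := (hS z.1 z1).1
            have hz20 : 0 < z.2 := (hS z.2 z2).1
            have hb0 : 0 < z.2 / z.1.gcd z.2 :=
              Nat.div_pos (Nat.le_of_dvd hz20 (Nat.gcd_dvd_right _ _))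
                (Nat.gcd_pos_of_pos_left _ hz10)
            rw [Finset.mem_filter, Finset.mem_product]
            refine ⟨⟨?_, ?_⟩, hzN.1, ?_, ?_, ?_⟩
            · rw [hV, Finset.mem_filter]
              refine ⟨z1, ?_⟩
              rw [← e1, ← e3]
              exact hclass z.1 z1
            · rw [hW, Finset.mem_filter]
              refine ⟨z2, ?_⟩
              rw [← e2, ← e4]
              exact hclass z.2 z2
            · rw [← e5]
              exact Nat.le_pow_clog (by norm_num) _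
            · rw [← e5]
              rcases Nat.eq_or_lt_of_le (show 1 ≤ z.2 / z.1.gcd z.2 from hb0) with h1 | h1
              · rw [← h1]
                simp
              · have := Nat.pow_pred_clog_lt_self (b := 2) (by norm_num) h1
                have hcl : 0 < Nat.clog 2 (z.2 / z.1.gcd z.2) :=
                  Nat.clog_pos (by norm_num) h1
                obtain ⟨q, hq⟩ := Nat.exists_eq_succ_of_ne_zero hcl.ne'
                rw [hq] at this ⊢
                simp only [Nat.pred_succ] at this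
                rw [pow_succ]
                omega
            · have := hzN.2.2.2.2
              rw [e1, e3, e5] at this
              exact this
          · intro z hz _
            rw [Finset.mem_filter, Finset.mem_product] at hz
            have := hψ0 z.2 (Finset.mem_filter.mp hz.1.2).1
            positivity
    _ = Cn * ∑ k ∈ Finset.range N, ∑ l ∈ (Finset.range N).filter (fun l => k ≤ l),
      ∑ s ∈ Finset.range N, ∑ t ∈ Finset.range N,
      ∑ m ∈ (Finset.range N).filter (fun m => m + s ≤ k),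
        ((2:ℝ) ^ (((m:ℝ) + s - k) / 7) * (2:ℝ) ^ (-(3 * ((l:ℝ) - k)) / 7) *
          (xx k s * xx l t) ^ ((4:ℝ)/7)) := by
        simp only [Finset.mul_sum]
    _ ≤ Cn * Cs := by
        apply mul_le_mul_of_nonneg_left hmain hCn.le

open Classical in
/-- the bound for a single pair -/
theorem pair_bound (h1 : OverlapStmt) (h4 : ClassifyStmt)
    (δ : ℝ) (ψ : ℕ → ℝ) (lev : ℕ → ℕ) (x y : ℕ) (hx0 : 0 < x) (hy0 : 0 < y)
    (hxy : x ≠ y) (hψx : 0 < ψ x) (hψx8 : ψ x ≤ 1 / 8) (hψy : 0 < ψ y)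
    (hρ : ψ y / y ≤ ψ x / x)
    (hlx : (1/2 : ℝ) ^ (lev x + 1) < ψ x / x ∧ ψ x / x ≤ (1/2 : ℝ) ^ (lev x))
    (hly : (1/2 : ℝ) ^ (lev y + 1) < ψ y / y ∧ ψ y / y ≤ (1/2 : ℝ) ^ (lev y)) :
    (volume (BB δ ψ x ∩ BB δ ψ y)).toReal ≤
      48 * (ψ x * ψ y) +
      (if x / x.gcd y = 1 then 6 * (ψ y / ((y / x.gcd y : ℕ) : ℝ)) else 0) +
      (if Exc δ (ψ x) (x / x.gcd y) (y / x.gcd y) then
        6 * (ψ x / ((x / x.gcd y : ℕ) : ℝ)) else 0) +
      (if NSP δ lev (x, y) then 6 * (ψ y / ((y / x.gcd y : ℕ) : ℝ)) else 0) := by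
  set a := x / x.gcd y with ha
  set b := y / x.gcd y with hb
  have hg0 : 0 < x.gcd y := Nat.gcd_pos_of_pos_left _ hx0
  have ha0 : 0 < a := Nat.div_pos (Nat.le_of_dvd hx0 (Nat.gcd_dvd_left _ _)) hg0
  have hb0 : 0 < b := Nat.div_pos (Nat.le_of_dvd hy0 (Nat.gcd_dvd_right _ _)) hg0
  have hag : x.gcd y * a = x := Nat.mul_div_cancel' (Nat.gcd_dvd_left _ _)
  have hbg : x.gcd y * b = y := Nat.mul_div_cancel' (Nat.gcd_dvd_right _ _)
  have haR : (0:ℝ) < a := by exact_mod_cast ha0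
  have hbR : (0:ℝ) < b := by exact_mod_cast hb0
  have hgR : (0:ℝ) < (x.gcd y : ℕ) := by exact_mod_cast hg0
  have hxR : (0:ℝ) < x := by exact_mod_cast hx0
  have hyR : (0:ℝ) < y := by exact_mod_cast hy0
  obtain ⟨o1, o2, o3, o4⟩ := h1 δ (ψ x) (ψ y) x y a b (Int.natAbs ((a:ℤ) - b))
    (qmin δ (tau (ψ x))) (round ((qmin δ (tau (ψ x)) : ℝ) * δ))
    (qmin δ (tau (ψ y))) (round ((qmin δ (tau (ψ y)) : ℝ) * δ)) hx0 hy0 hxy hψx hψy hρ
    ha hb rfl
  have n1 : 0 ≤ 48 * (ψ x * ψ y) := by positivity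
  have n2 : 0 ≤ (if a = 1 then 6 * (ψ y / (b : ℝ)) else 0) := by
    split_ifs <;> positivity
  have n3 : 0 ≤ (if Exc δ (ψ x) a b then 6 * (ψ x / (a : ℝ)) else 0) := by
    split_ifs <;> positivity
  have n4 : 0 ≤ (if NSP δ lev (x, y) then 6 * (ψ y / (b : ℝ)) else 0) := by
    split_ifs <;> positivity
  change (volume (BB δ ψ x ∩ BB δ ψ y)).toReal ≤ 48 * (ψ x * ψ y) +
      (if a = 1 then 6 * (ψ y / (b : ℝ)) else 0) +
      (if Exc δ (ψ x) a b then 6 * (ψ x / (a : ℝ)) else 0) +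
      (if NSP δ lev (x, y) then 6 * (ψ y / (b : ℝ)) else 0)
  rcases le_or_gt (1/2) (2 * b * ψ x) with hη | hη
  · have := o1 hη
    unfold BB
    nlinarith [this]
  have hov := o2 hη
  change (volume (BB δ ψ x ∩ BB δ ψ y)).toReal ≤ 6 * (ψ y / b) at hov
  rcases Nat.lt_or_ge 1 a with ha2 | ha1
  swap
  · have : a = 1 := by omega
    rw [if_pos this] at n2 ⊢
    linarith
  rcases (BB δ ψ x ∩ BB δ ψ y).eq_empty_or_nonempty with he | hne
  · rw [he, measure_empty]
    simp only [ENNReal.toReal_zero]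
    linarith
  by_cases hE : Exc δ (ψ x) a b
  · rw [if_pos hE] at n3 ⊢
    have : ψ y / b ≤ ψ x / a := by
      have e1 : ψ y / b = (x.gcd y : ℕ) * (ψ y / y) := by
        have : (y:ℝ) = (x.gcd y : ℕ) * b := by exact_mod_cast hbg.symm
        rw [this]
        field_simp
      have e2 : ψ x / a = (x.gcd y : ℕ) * (ψ x / x) := by
        have : (x:ℝ) = (x.gcd y : ℕ) * a := by exact_mod_cast hag.symm
        rw [this]
        field_simp
      rw [e1, e2]
      exact mul_le_mul_of_nonneg_left hρ hgR.le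
    linarith
  -- nonspecial
  have hNSP : NSP δ lev (x, y) := by
    set m := Nat.clog 2 b with hm
    set s := Nat.log 2 x with hs
    set t := Nat.log 2 y with ht
    have hbm : b ≤ 2 ^ m := Nat.le_pow_clog (by norm_num) _
    have hbm2 : 2 ^ m < 2 * b := by
      rcases Nat.eq_or_lt_of_le (show 1 ≤ b from hb0) with h1 | h1
      · rw [hm, ← h1]
        simp
      · have := Nat.pow_pred_clog_lt_self (b := 2) (by norm_num) h1
        have hcl : 0 < Nat.clog 2 b := Nat.clog_pos (by norm_num) h1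
        obtain ⟨q, hq⟩ := Nat.exists_eq_succ_of_ne_zero hcl.ne'
        rw [hm]
        rw [hq] at this ⊢
        simp only [Nat.pred_succ] at this
        rw [pow_succ]
        omega
    have hbmR : (b:ℝ) ≤ 2 ^ m := by exact_mod_cast hbm
    have hbm2R : (2:ℝ) ^ m < 2 * b := by exact_mod_cast hbm2
    have hxs : x < 2 ^ (s + 1) := Nat.lt_pow_succ_log_self (by norm_num) x
    have hxs' : 2 ^ s ≤ x := Nat.pow_log_le_self 2 hx0.ne'
    have hyt' : 2 ^ t ≤ y := Nat.pow_log_le_self 2 hy0.ne'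
    have hxsR : (x:ℝ) < 2 ^ (s + 1) := by exact_mod_cast hxs
    have hxsR' : (2:ℝ) ^ s ≤ x := by exact_mod_cast hxs'
    have hytR' : (2:ℝ) ^ t ≤ y := by exact_mod_cast hyt'
    have hlev : lev x ≤ lev y := by
      by_contra hcon
      push Not at hcon
      have : (1/2:ℝ) ^ (lev x) ≤ (1/2) ^ (lev y + 1) :=
        pow_le_pow_of_le_one (by norm_num) (by norm_num) hcon
      linarith [hlx.2, hly.1]
    have hψlo : (2:ℝ) ^ s * (1/2) ^ (lev x + 1) < ψ x := by
      have := hlx.1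
      rw [lt_div_iff₀ hxR] at this
      calc (2:ℝ) ^ s * (1/2) ^ (lev x + 1) ≤ x * (1/2) ^ (lev x + 1) := by
            apply mul_le_mul_of_nonneg_right hxsR' (by positivity)
        _ = (1/2) ^ (lev x + 1) * x := by ring
        _ < ψ x := this
    have hψhi : ψ x ≤ 2 ^ (s + 1) * (1/2) ^ (lev x) := by
      have := hlx.2
      rw [div_le_iff₀ hxR] at this
      calc ψ x ≤ (1/2) ^ (lev x) * x := this
        _ ≤ (1/2) ^ (lev x) * 2 ^ (s + 1) := by
            apply mul_le_mul_of_nonneg_left hxsR.le (by positivity)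
        _ = 2 ^ (s + 1) * (1/2) ^ (lev x) := by ring
    have hms : m + s ≤ lev x := by
      by_contra hcon
      push Not at hcon
      -- 2^m 2^s (1/2)^(lev+1) >= 1
      have e1 : (2:ℝ) ^ (m + s) * (1/2) ^ (lev x + 1) ≥ 1 := by
        have : (2:ℝ) ^ (lev x + 1) ≤ 2 ^ (m + s) := pow_le_pow_right₀ (by norm_num) hcon
        calc (2:ℝ) ^ (m + s) * (1/2) ^ (lev x + 1)
            ≥ (2:ℝ) ^ (lev x + 1) * (1/2) ^ (lev x + 1) := by
              apply mul_le_mul_of_nonneg_right this (by positivity)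
          _ = 1 := by rw [← mul_pow]; norm_num
      have e2 : (2:ℝ) ^ (m + s) * (1/2) ^ (lev x + 1) ≤ 2 ^ m * ψ x := by
        rw [pow_add, mul_assoc]
        apply mul_le_mul_of_nonneg_left hψlo.le (by positivity)
      have e3 : (2:ℝ) ^ m * ψ x < 2 * b * ψ x := by
        apply mul_lt_mul_of_pos_right hbm2R hψx
      linarith
    have hκ : 2 * b * ψ x ≤ (2:ℝ) ^ ((m:ℤ) + s + 2 - (lev x : ℕ)) := by
      have e : (2:ℝ) ^ ((m:ℤ) + s + 2 - (lev x : ℕ)) =
          2 * (2 ^ m) * (2 ^ (s + 1) * (1/2) ^ (lev x)) := by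
        rw [zpow_sub₀ (by norm_num : (2:ℝ) ≠ 0)]
        have : (2:ℝ) ^ ((m:ℤ) + s + 2) = 2 ^ (m + s + 2) := by
          exact_mod_cast rfl
        rw [this, zpow_natCast, one_div, inv_pow, pow_add, pow_add, pow_add]
        field_simp
      rw [e]
      apply mul_le_mul _ hψhi hψx.le (by positivity)
      apply mul_le_mul_of_nonneg_left hbmR (by norm_num)
    have hB : (b:ℝ) ≤ max ((2:ℝ) ^ ((m:ℤ) + s + 1 - t)) (2 ^ m) := le_max_of_le_right hbmR
    have hA : (a:ℝ) ≤ max ((2:ℝ) ^ ((m:ℤ) + s + 1 - t)) (2 ^ m) := by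
      apply le_max_of_le_left
      have e : (2:ℝ) ^ ((m:ℤ) + s + 1 - t) = 2 ^ m * 2 ^ (s + 1) / 2 ^ t := by
        rw [zpow_sub₀ (by norm_num : (2:ℝ) ≠ 0)]
        have : (2:ℝ) ^ ((m:ℤ) + s + 1) = 2 ^ (m + (s + 1)) := by
          have : ((m:ℤ) + s + 1) = ((m + (s + 1) : ℕ) : ℤ) := by push_cast; ring
          rw [this, zpow_natCast]
        rw [this, zpow_natCast, pow_add]
      rw [e, le_div_iff₀ (by positivity)]
      have hab : (a:ℝ) * y = b * x := by
        have : a * y = b * x := by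
          calc a * y = a * (x.gcd y * b) := by rw [hbg]
            _ = b * (x.gcd y * a) := by ring
            _ = b * x := by rw [hag]
        exact_mod_cast this
      calc (a:ℝ) * 2 ^ t ≤ a * y := mul_le_mul_of_nonneg_left hytR' haR.le
        _ = b * x := hab
        _ ≤ 2 ^ m * 2 ^ (s + 1) := by
            apply mul_le_mul hbmR hxsR.le hxR.le (by positivity)
    have hcl := h4 δ ψ x y a b ((2:ℝ) ^ ((m:ℤ) + s + 2 - (lev x : ℕ)))
      (max ((2:ℝ) ^ ((m:ℤ) + s + 1 - t)) (2 ^ m)) hx0 hy0 hxy hψx hψx8 hψy hρ ha hb hη ha2 hne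
      hκ hA hB
    have hcount := hcl.resolve_right hE
    have hnd := o3 hη hne
    exact ⟨hxy, hlev, hms, hcount, lt_of_lt_of_le hnd hκ⟩
  rw [if_pos hNSP] at n4 ⊢
  linarith

theorem second (h1 : OverlapStmt) (h2 : SingleStmt) (h3 : MultStmt) (h4 : ClassifyStmt)
    (h5 : NonspecStmt) (h6 : ClassSumStmt) (h7 : DivSumStmt) : SecondStmt := by
  classical
  intro c C0 hc
  obtain ⟨Cns, hCns, hns⟩ := sum_ns_pairs h5 h6 h7 c C0 hc
  refine ⟨6 + 2 * (48 + 6 * (1 / c) + 6 * (50 * (1 / c)) + 6 * Cns), by positivity, ?_⟩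
  intro δ ψ S hS hsum hL
  have hρ1 : ∀ n ∈ S, ∃ k : ℕ, (1/2 : ℝ) ^ (k + 1) < ψ n / n ∧ ψ n / n ≤ (1/2 : ℝ) ^ k := by
    intro n hn
    obtain ⟨hn0, -, hψ, hψ8⟩ := hS n hn
    have hnR : (1:ℝ) ≤ n := by exact_mod_cast hn0
    apply exists_nat_pow_near_of_lt_one (by positivity) _ (by norm_num) (by norm_num)
    rw [div_le_one (by linarith)]
    linarith
  choose! lev hlev using hρ1
  have hNS := hns δ ψ S lev hS hsum hL hlev
  set ov : ℕ → ℕ → ℝ := fun x y => (volume (BB δ ψ x ∩ BB δ ψ y)).toReal with hov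
  have hov0 : ∀ x y, 0 ≤ ov x y := fun x y => ENNReal.toReal_nonneg
  have hovs : ∀ x y, ov x y = ov y x := by
    intro x y
    simp only [hov]
    rw [Set.inter_comm]
  set F : ℕ → ℕ → ℝ := fun x y => 48 * (ψ x * ψ y) +
      (if x / x.gcd y = 1 then 6 * (ψ y / ((y / x.gcd y : ℕ) : ℝ)) else 0) +
      (if Exc δ (ψ x) (x / x.gcd y) (y / x.gcd y) then
        6 * (ψ x / ((x / x.gcd y : ℕ) : ℝ)) else 0) +
      (if NSP δ lev (x, y) then 6 * (ψ y / ((y / x.gcd y : ℕ) : ℝ)) else 0) with hF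
  have hF0 : ∀ x ∈ S, ∀ y ∈ S, 0 ≤ F x y := by
    intro x hx y hy
    have := (hS x hx).2.2.1
    have := (hS y hy).2.2.1
    simp only [hF]
    have n2 : 0 ≤ (if x / x.gcd y = 1 then 6 * (ψ y / ((y / x.gcd y : ℕ) : ℝ)) else 0) := by
      split_ifs <;> positivity
    have n3 : 0 ≤ (if Exc δ (ψ x) (x / x.gcd y) (y / x.gcd y) then
        6 * (ψ x / ((x / x.gcd y : ℕ) : ℝ)) else 0) := by
      split_ifs <;> positivity
    have n4 : 0 ≤ (if NSP δ lev (x, y) then
        6 * (ψ y / ((y / x.gcd y : ℕ) : ℝ)) else 0) := by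
      split_ifs <;> positivity
    positivity
  have hpt : ∀ x ∈ S, ∀ y ∈ S, ov x y ≤ (if x = y then 6 * ψ x else 0) + F x y + F y x := by
    intro x hx y hy
    obtain ⟨hx0, hxc, hψx, hψx8⟩ := hS x hx
    obtain ⟨hy0, hyc, hψy, hψy8⟩ := hS y hy
    by_cases hxy : x = y
    · rw [if_pos hxy]
      subst hxy
      have e : ov x x = (volume (BB δ ψ x)).toReal := by
        simp only [hov, Set.inter_self]
      have := (h2 δ (ψ x) x (qmin δ (tau (ψ x))) (round ((qmin δ (tau (ψ x)) : ℝ) * δ)) hx0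
        hψx.le).2
      rw [e]
      have h3 := hF0 x hx x hx
      change (volume (BB δ ψ x)).toReal ≤ _ at this
      linarith
    · rw [if_neg hxy]
      rcases le_total (ψ y / y) (ψ x / x) with hρ | hρ
      · have := pair_bound h1 h4 δ ψ lev x y hx0 hy0 hxy hψx hψx8 hψy hρ (hlev x hx) (hlev y hy)
        have h3 := hF0 y hy x hx
        change ov x y ≤ F x y at this
        linarith
      · have := pair_bound h1 h4 δ ψ lev y x hy0 hx0 (Ne.symm hxy) hψy hψy8 hψx hρ
          (hlev y hy) (hlev x hx)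
        have h3 := hF0 x hx y hy
        change ov y x ≤ F y x at this
        rw [hovs x y]
        linarith
  have hFsum : ∑ x ∈ S, ∑ y ∈ S, F x y ≤
      48 + 6 * (1 / c) + 6 * (50 * (1 / c)) + 6 * Cns := by
    have s0 : 0 ≤ ∑ n ∈ S, ψ n := Finset.sum_nonneg (fun n hn => (hS n hn).2.2.1.le)
    have s1 : ∑ x ∈ S, ∑ y ∈ S, 48 * (ψ x * ψ y) ≤ 48 := by
      have : ∑ x ∈ S, ∑ y ∈ S, 48 * (ψ x * ψ y) = 48 * ((∑ n ∈ S, ψ n) * (∑ n ∈ S, ψ n)) := by
        rw [Finset.sum_mul_sum, Finset.mul_sum]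
        apply Finset.sum_congr rfl
        intro x _
        rw [Finset.mul_sum]
      rw [this]
      nlinarith
    have s2 : ∑ x ∈ S, ∑ y ∈ S,
        (if x / x.gcd y = 1 then 6 * (ψ y / ((y / x.gcd y : ℕ) : ℝ)) else 0) ≤ 6 * (1 / c) := by
      rw [Finset.sum_comm]
      calc ∑ y ∈ S, ∑ x ∈ S,
          (if x / x.gcd y = 1 then 6 * (ψ y / ((y / x.gcd y : ℕ) : ℝ)) else 0)
          ≤ ∑ y ∈ S, 6 * (ψ y * (1 / c)) := by
            apply Finset.sum_le_sum
            intro y hy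
            rw [← Finset.sum_filter, ← Finset.mul_sum]
            apply mul_le_mul_of_nonneg_left _ (by norm_num)
            exact sum_dvd_pairs S ψ c hc h7 hS y hy
        _ = 6 * (1 / c) * ∑ y ∈ S, ψ y := by
            rw [Finset.mul_sum]
            apply Finset.sum_congr rfl
            intro y _
            ring
        _ ≤ 6 * (1 / c) * 1 := by
            apply mul_le_mul_of_nonneg_left hsum (by positivity)
        _ = 6 * (1 / c) := by ring
    have s3 : ∑ x ∈ S, ∑ y ∈ S,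
        (if Exc δ (ψ x) (x / x.gcd y) (y / x.gcd y) then
        6 * (ψ x / ((x / x.gcd y : ℕ) : ℝ)) else 0) ≤ 6 * (50 * (1 / c)) := by
      calc ∑ x ∈ S, ∑ y ∈ S,
          (if Exc δ (ψ x) (x / x.gcd y) (y / x.gcd y) then
          6 * (ψ x / ((x / x.gcd y : ℕ) : ℝ)) else 0)
          ≤ ∑ x ∈ S, 6 * (50 * (ψ x * (1 / c))) := by
            apply Finset.sum_le_sum
            intro x hx
            rw [← Finset.sum_filter, ← Finset.mul_sum]
            apply mul_le_mul_of_nonneg_left _ (by norm_num)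
            exact sum_exc_pairs S δ ψ c hc h3 h7 hS x hx
        _ = 6 * (50 * (1 / c)) * ∑ x ∈ S, ψ x := by
            rw [Finset.mul_sum]
            apply Finset.sum_congr rfl
            intro y _
            ring
        _ ≤ 6 * (50 * (1 / c)) * 1 := by
            apply mul_le_mul_of_nonneg_left hsum (by positivity)
        _ = 6 * (50 * (1 / c)) := by ring
    have s4 : ∑ x ∈ S, ∑ y ∈ S,
        (if NSP δ lev (x, y) then 6 * (ψ y / ((y / x.gcd y : ℕ) : ℝ)) else 0) ≤ 6 * Cns := by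
      rw [← Finset.sum_product' S S (fun x y =>
        (if NSP δ lev (x, y) then 6 * (ψ y / ((y / x.gcd y : ℕ) : ℝ)) else 0))]
      have : ∑ z ∈ S ×ˢ S, (if NSP δ lev (z.1, z.2) then
          6 * (ψ z.2 / ((z.2 / z.1.gcd z.2 : ℕ) : ℝ)) else 0) =
          6 * ∑ z ∈ (S ×ˢ S).filter (fun z => NSP δ lev z),
            ψ z.2 / ((z.2 / z.1.gcd z.2 : ℕ) : ℝ) := by
        rw [Finset.mul_sum, Finset.sum_filter]
      rw [this]
      apply mul_le_mul_of_nonneg_left hNS (by norm_num)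
    calc ∑ x ∈ S, ∑ y ∈ S, F x y = ∑ x ∈ S, ∑ y ∈ S, 48 * (ψ x * ψ y) +
        ∑ x ∈ S, ∑ y ∈ S,
        (if x / x.gcd y = 1 then 6 * (ψ y / ((y / x.gcd y : ℕ) : ℝ)) else 0) +
        ∑ x ∈ S, ∑ y ∈ S,
        (if Exc δ (ψ x) (x / x.gcd y) (y / x.gcd y) then
        6 * (ψ x / ((x / x.gcd y : ℕ) : ℝ)) else 0) +
        ∑ x ∈ S, ∑ y ∈ S,
        (if NSP δ lev (x, y) then 6 * (ψ y / ((y / x.gcd y : ℕ) : ℝ)) else 0) := by
          simp only [hF, Finset.sum_add_distrib]
      _ ≤ _ := by linarith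
  calc ∑ x ∈ S, ∑ y ∈ S, (volume (BB δ ψ x ∩ BB δ ψ y)).toReal
      = ∑ x ∈ S, ∑ y ∈ S, ov x y := rfl
    _ ≤ ∑ x ∈ S, ∑ y ∈ S, ((if x = y then 6 * ψ x else 0) + F x y + F y x) := by
        apply Finset.sum_le_sum
        intro x hx
        apply Finset.sum_le_sum
        intro y hy
        exact hpt x hx y hy
    _ = ∑ x ∈ S, 6 * ψ x + ∑ x ∈ S, ∑ y ∈ S, F x y + ∑ x ∈ S, ∑ y ∈ S, F y x := by
        simp only [Finset.sum_add_distrib]
        congr 2
        apply Finset.sum_congr rfl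
        intro x hx
        rw [Finset.sum_ite_eq]
        rw [if_pos hx]
    _ = 6 * ∑ x ∈ S, ψ x + 2 * ∑ x ∈ S, ∑ y ∈ S, F x y := by
        rw [Finset.sum_comm (f := fun x y => F y x), ← Finset.mul_sum]
        ring
    _ ≤ 6 * 1 + 2 * (48 + 6 * (1 / c) + 6 * (50 * (1 / c)) + 6 * Cns) := by
        have : 6 * ∑ x ∈ S, ψ x ≤ 6 * 1 := by linarith
        linarith
    _ = _ := by ring

end Pool.Agent.MP_0863b8

end

section

/-!
MP_0863b8_nt: splitting of the gcd count at a prime.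
-/

namespace Pool.Agent.MP_0863b8

open MeasureTheory Filter

theorem gcd_split {l : ℕ} (hl : l.Prime) {v w : ℕ} (hv : ¬ l ∣ v) (hw : ¬ l ∣ w) (i j : ℕ) :
    (l ^ i * v).gcd (l ^ j * w) = l ^ (min i j) * v.gcd w := by
  rcases le_total i j with h | h
  · rw [min_eq_left h]
    obtain ⟨k, rfl⟩ := Nat.exists_eq_add_of_le h
    rw [pow_add, mul_assoc, Nat.gcd_mul_left]
    congr 1
    exact Nat.Coprime.gcd_mul_left_cancel_right w
      (((Nat.Prime.coprime_iff_not_dvd hl).2 hv).symm.pow_right k).symm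
  · rw [min_eq_right h]
    obtain ⟨k, rfl⟩ := Nat.exists_eq_add_of_le h
    rw [pow_add, mul_assoc, Nat.gcd_mul_left]
    congr 1
    exact Nat.Coprime.gcd_mul_left_cancel v
      (((Nat.Prime.coprime_iff_not_dvd hl).2 hw).pow_left k)

theorem split : SplitStmt := by
  classical
  intro l hl P V W Q N hV hW
  set S := (V ×ˢ W).filter (fun t => (t.1 / t.1.gcd t.2, t.2 / t.1.gcd t.2) ∈ Q ∧
    ∀ p ∈ (t.1.gcd t.2).primeFactors, p ∈ P) with hS
  have hcnt : cnt P V W Q = S.card := by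
    unfold cnt
    rw [hS]
  set f : ℕ × ℕ → ℕ × ℕ := fun t => (t.1.factorization l, t.2.factorization l) with hf
  have hmaps : Set.MapsTo f S (Finset.range N ×ˢ Finset.range N : Finset (ℕ × ℕ)) := by
    intro t ht
    rw [Finset.mem_coe, hS, Finset.mem_filter, Finset.mem_product] at ht
    rw [Finset.mem_coe, Finset.mem_product, Finset.mem_range, Finset.mem_range]
    exact ⟨(hV _ ht.1.1).2, (hW _ ht.1.2).2⟩
  rw [hcnt, Finset.card_eq_sum_card_fiberwise hmaps, Finset.sum_product]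
  refine Finset.sum_le_sum fun i _ => Finset.sum_le_sum fun j _ => ?_
  unfold cnt
  refine Finset.card_le_card_of_injOn (fun t => (t.1 / l ^ i, t.2 / l ^ j)) ?_ ?_
  · intro t ht
    rw [Finset.mem_coe, Finset.mem_filter, hS, Finset.mem_filter, Finset.mem_product] at ht
    obtain ⟨⟨⟨hv, hw⟩, hQ, hP⟩, hij⟩ := ht
    obtain ⟨v, w⟩ := t
    simp only [hf, Prod.mk.injEq] at hij hv hw hQ hP
    obtain ⟨hi, hj⟩ := hij
    have hv0 := (hV v hv).1
    have hw0 := (hW w hw).1
    set v' := v / l ^ i with hv'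
    set w' := w / l ^ j with hw'
    have ev : v = l ^ i * v' := by
      rw [hv', ← hi, mul_comm]
      exact (Nat.div_mul_cancel (Nat.ordProj_dvd v l)).symm
    have ew : w = l ^ j * w' := by
      rw [hw', ← hj, mul_comm]
      exact (Nat.div_mul_cancel (Nat.ordProj_dvd w l)).symm
    have hv'l : ¬ l ∣ v' := by
      rw [hv', ← hi]
      exact Nat.not_dvd_ordCompl hl hv0.ne'
    have hw'l : ¬ l ∣ w' := by
      rw [hw', ← hj]
      exact Nat.not_dvd_ordCompl hl hw0.ne'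
    have hv'0 : 0 < v' := Nat.pos_of_ne_zero fun h => hv'l (by rw [h]; exact dvd_zero l)
    have hw'0 : 0 < w' := Nat.pos_of_ne_zero fun h => hw'l (by rw [h]; exact dvd_zero l)
    have hg := gcd_split hl hv'l hw'l i j
    rw [← ev, ← ew] at hg
    set g' := v'.gcd w' with hg'
    have hg'0 : 0 < g' := Nat.gcd_pos_of_pos_left _ hv'0
    obtain ⟨a', ha'⟩ : g' ∣ v' := Nat.gcd_dvd_left _ _
    obtain ⟨b', hb'⟩ : g' ∣ w' := Nat.gcd_dvd_right _ _
    have hl0 : 0 < l := hl.pos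
    have hmin0 : 0 < l ^ (min i j) * g' := Nat.mul_pos (pow_pos hl0 _) hg'0
    have ea : v / v.gcd w = l ^ (i - j) * a' := by
      rw [hg]
      apply Nat.div_eq_of_eq_mul_right hmin0
      have e1 : l ^ i = l ^ (min i j) * l ^ (i - j) := by
        rw [← pow_add]; congr 1; omega
      conv_lhs => rw [ev, ha', e1]
      ring
    have eb : w / v.gcd w = l ^ (j - i) * b' := by
      rw [hg]
      apply Nat.div_eq_of_eq_mul_right hmin0
      have e1 : l ^ j = l ^ (min i j) * l ^ (j - i) := by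
        rw [← pow_add]; congr 1; omega
      conv_lhs => rw [ew, hb', e1]
      ring
    have hla : ¬ l ∣ a' := fun h => hv'l (by rw [ha']; exact h.mul_left _)
    have hlb : ¬ l ∣ b' := fun h => hw'l (by rw [hb']; exact h.mul_left _)
    have ha'0 : a' ≠ 0 := fun h => hla (by rw [h]; exact dvd_zero l)
    have hb'0 : b' ≠ 0 := fun h => hlb (by rw [h]; exact dvd_zero l)
    have fa : (l ^ (i - j) * a').factorization l = i - j := by
      rw [Nat.factorization_mul (pow_pos hl0 _).ne' ha'0, Finsupp.add_apply,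
        hl.factorization_pow, Finsupp.single_eq_same, Nat.factorization_eq_zero_of_not_dvd hla,
        add_zero]
    have fb : (l ^ (j - i) * b').factorization l = j - i := by
      rw [Nat.factorization_mul (pow_pos hl0 _).ne' hb'0, Finsupp.add_apply,
        hl.factorization_pow, Finsupp.single_eq_same, Nat.factorization_eq_zero_of_not_dvd hlb,
        add_zero]
    simp only [Finset.coe_filter, Set.mem_ofPred_eq, Finset.mem_product]
    refine ⟨⟨?_, ?_⟩, ?_, ?_⟩
    · unfold part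
      exact Finset.mem_image.2 ⟨v, Finset.mem_filter.2 ⟨hv, hi⟩, rfl⟩
    · unfold part
      exact Finset.mem_image.2 ⟨w, Finset.mem_filter.2 ⟨hw, hj⟩, rfl⟩
    · unfold qpart
      refine Finset.mem_image.2 ⟨(v / v.gcd w, w / v.gcd w), Finset.mem_filter.2 ⟨hQ, ?_⟩, ?_⟩
      · simp only
        rw [ea, eb]
        exact ⟨fa, fb⟩
      · simp only
        rw [ea, eb, Nat.mul_div_cancel_left _ (pow_pos hl0 _),
          Nat.mul_div_cancel_left _ (pow_pos hl0 _), ← hg']
        refine Prod.ext ?_ ?_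
        · show a' = v' / g'
          exact (Nat.div_eq_of_eq_mul_right hg'0 ha').symm
        · show b' = w' / g'
          exact (Nat.div_eq_of_eq_mul_right hg'0 hb').symm
    · intro p hp
      have hp1 := Nat.mem_primeFactors.1 hp
      refine ⟨?_, ?_⟩
      · apply hP
        rw [hg]
        exact Nat.mem_primeFactors.2 ⟨hp1.1, hp1.2.1.mul_left _, hmin0.ne'⟩
      · intro h
        rw [Set.mem_singleton_iff] at h
        subst h
        exact hv'l (hp1.2.1.trans (Nat.gcd_dvd_left _ _))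
  · intro t ht t' ht' heq
    rw [Finset.mem_coe, Finset.mem_filter] at ht ht'
    obtain ⟨v, w⟩ := t
    obtain ⟨v', w'⟩ := t'
    simp only [hf, Prod.mk.injEq] at ht ht' heq ⊢
    obtain ⟨-, h1, h2⟩ := ht
    obtain ⟨-, h1', h2'⟩ := ht'
    have e1 : v = v / l ^ i * l ^ i := by
      rw [← h1]; exact (Nat.div_mul_cancel (Nat.ordProj_dvd v l)).symm
    have e2 : w = w / l ^ j * l ^ j := by
      rw [← h2]; exact (Nat.div_mul_cancel (Nat.ordProj_dvd w l)).symm
    have e1' : v' = v' / l ^ i * l ^ i := by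
      rw [← h1']; exact (Nat.div_mul_cancel (Nat.ordProj_dvd v' l)).symm
    have e2' : w' = w' / l ^ j * l ^ j := by
      rw [← h2']; exact (Nat.div_mul_cancel (Nat.ordProj_dvd w' l)).symm
    exact ⟨by rw [e1, e1', heq.1], by rw [e2, e2', heq.2]⟩

end Pool.Agent.MP_0863b8

end

section

/-!
MP_0863b8_nt item 3: the step lemma.
-/

namespace Pool.Agent.MP_0863b8

lemma qpart_trunc (l i j : ℕ) (Q : Finset (ℕ × ℕ)) :
    qpart l (i - j) (j - i) Q = qpart l i j Q := by
  have h1 : (i - j) - (j - i) = i - j := by omega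
  have h2 : (j - i) - (i - j) = j - i := by omega
  unfold qpart
  rw [h1, h2]

lemma sum_card_part_le (l N : ℕ) (V : Finset ℕ) :
    ∑ i ∈ Finset.range N, (part l i V).card ≤ V.card := by
  calc ∑ i ∈ Finset.range N, (part l i V).card
      ≤ ∑ i ∈ Finset.range N, (V.filter (fun v => v.factorization l = i)).card :=
        Finset.sum_le_sum (fun i _ => Finset.card_image_le)
    _ = (V.filter (fun v => v.factorization l ∈ Finset.range N)).card :=
        Finset.sum_card_fiberwise_eq_card_filter V (Finset.range N)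
          (fun v => v.factorization l)
    _ ≤ V.card := Finset.card_filter_le _ _

lemma sum_card_qpart_le (l : ℕ) (K : Finset ℤ) (Q : Finset (ℕ × ℕ)) :
    ∑ k ∈ K, (qpart l k.toNat (-k).toNat Q).card ≤ Q.card := by
  classical
  calc ∑ k ∈ K, (qpart l k.toNat (-k).toNat Q).card
      ≤ ∑ k ∈ K, (Q.filter (fun t => (t.1.factorization l : ℤ) - t.2.factorization l = k)).card := by
        refine Finset.sum_le_sum (fun k _ => ?_)
        refine le_trans Finset.card_image_le (Finset.card_le_card ?_)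
        intro t ht
        rw [Finset.mem_filter] at ht ⊢
        refine ⟨ht.1, ?_⟩
        rw [ht.2.1, ht.2.2]
        omega
    _ = (Q.filter (fun t => ((t.1.factorization l : ℤ) - t.2.factorization l) ∈ K)).card :=
        Finset.sum_card_fiberwise_eq_card_filter Q K
          (fun t => (t.1.factorization l : ℤ) - t.2.factorization l)
    _ ≤ Q.card := Finset.card_filter_le _ _

lemma bnd_piece (l i j : ℕ) (hl : 2 ≤ l) (A B : ℝ) (hA : 0 ≤ A) (hB : 0 ≤ B)
    (Q Q' : Finset (ℕ × ℕ)) (V W V' W' : Finset ℕ) (hQ : Q.Nonempty) (hV : V.Nonempty)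
    (hW : W.Nonempty) :
    bnd (A / (l:ℝ) ^ (i - j)) (B / (l:ℝ) ^ (j - i)) Q' V' W' =
      bnd A B Q V W * ((l:ℝ) ^ (-(|(i:ℝ) - j|) / 7) * ((Q'.card : ℝ) / Q.card) ^ ((2:ℝ)/7) *
        (((V'.card : ℝ) / V.card) * ((W'.card : ℝ) / W.card)) ^ ((4:ℝ)/7)) := by
  have hl0 : (0:ℝ) < l := by
    have : 0 < l := by omega
    exact_mod_cast this
  have hQc : (0:ℝ) < Q.card := by exact_mod_cast hQ.card_pos
  have hVc : (0:ℝ) < V.card := by exact_mod_cast hV.card_pos
  have hWc : (0:ℝ) < W.card := by exact_mod_cast hW.card_pos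
  have e1 : (A / (l:ℝ) ^ (i - j)) * (B / (l:ℝ) ^ (j - i)) =
      (A * B) * ((l:ℝ) ^ (-(|(i:ℝ) - j|))) := by
    have e : (l:ℝ) ^ (-(|(i:ℝ) - j|)) = ((l:ℝ) ^ (i - j) * (l:ℝ) ^ (j - i))⁻¹ := by
      rw [← pow_add, Real.rpow_neg hl0.le, ← Real.rpow_natCast]
      congr 2
      rcases le_total i j with h | h
      · have : (i:ℝ) - j ≤ 0 := by
          have : (i:ℝ) ≤ j := by exact_mod_cast h
          linarith
        rw [abs_of_nonpos this]
        have h1 : i - j = 0 := by omega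
        rw [h1, Nat.zero_add, Nat.cast_sub h]
        ring
      · have : 0 ≤ (i:ℝ) - j := by
          have : (j:ℝ) ≤ i := by exact_mod_cast h
          linarith
        rw [abs_of_nonneg this]
        have h1 : j - i = 0 := by omega
        rw [h1, Nat.add_zero, Nat.cast_sub h]
    rw [e]
    field_simp
  have e2 : (((A / (l:ℝ) ^ (i - j)) * (B / (l:ℝ) ^ (j - i)))) ^ ((1:ℝ)/7) =
      (A * B) ^ ((1:ℝ)/7) * (l:ℝ) ^ (-(|(i:ℝ) - j|) / 7) := by
    rw [e1, Real.mul_rpow (mul_nonneg hA hB) (Real.rpow_nonneg hl0.le _),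
      ← Real.rpow_mul hl0.le]
    congr 2
    ring
  have e3 : (Q'.card : ℝ) ^ ((2:ℝ)/7) =
      (Q.card : ℝ) ^ ((2:ℝ)/7) * ((Q'.card : ℝ) / Q.card) ^ ((2:ℝ)/7) := by
    rw [← Real.mul_rpow hQc.le (by positivity)]
    congr 1
    field_simp
  have e4 : ((V'.card : ℝ) * W'.card) ^ ((4:ℝ)/7) =
      ((V.card : ℝ) * W.card) ^ ((4:ℝ)/7) *
        (((V'.card : ℝ) / V.card) * ((W'.card : ℝ) / W.card)) ^ ((4:ℝ)/7) := by
    rw [← Real.mul_rpow (by positivity) (by positivity)]
    congr 1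
    field_simp
  unfold bnd
  rw [e2, e3, e4]
  ring

theorem step (h1 : NodeStmt) (h2 : SplitStmt) : StepStmt := by
  classical
  obtain ⟨C, hC, hnode⟩ := h1
  refine ⟨C, hC, ?_⟩
  intro l hl P V W Q A B D hA hB hD hV hW hcnt
  by_cases hVe : V = ∅
  · refine ⟨0, ?_⟩
    subst hVe
    simp [cnt, bnd]
  by_cases hWe : W = ∅
  · refine ⟨0, ?_⟩
    subst hWe
    simp [cnt, bnd]
  by_cases hQe : Q = ∅
  · refine ⟨0, ?_⟩
    subst hQe
    simp [cnt, bnd]
  have hVn : V.Nonempty := Finset.nonempty_iff_ne_empty.mpr hVe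
  have hWn : W.Nonempty := Finset.nonempty_iff_ne_empty.mpr hWe
  have hQn : Q.Nonempty := Finset.nonempty_iff_ne_empty.mpr hQe
  have hQc : (0:ℝ) < Q.card := by exact_mod_cast hQn.card_pos
  have hVc : (0:ℝ) < V.card := by exact_mod_cast hVn.card_pos
  have hWc : (0:ℝ) < W.card := by exact_mod_cast hWn.card_pos
  have hl2 : 2 ≤ l := hl.two_le
  set N : ℕ := (V ∪ W).sup (fun v => v.factorization l) + 1 with hN
  have hVN : ∀ v ∈ V, 0 < v ∧ v.factorization l < N := by
    intro v hv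
    refine ⟨hV v hv, ?_⟩
    have := Finset.le_sup (f := fun v : ℕ => v.factorization l)
      (Finset.mem_union_left W hv)
    omega
  have hWN : ∀ w ∈ W, 0 < w ∧ w.factorization l < N := by
    intro v hv
    refine ⟨hW v hv, ?_⟩
    have := Finset.le_sup (f := fun v : ℕ => v.factorization l)
      (Finset.mem_union_right V hv)
    omega
  have hsplit := h2 l hl P V W Q N hVN hWN
  obtain ⟨m, hmN, hm⟩ := hnode (l:ℝ) (by exact_mod_cast hl2) N (by omega)
    (fun i => ((part l i V).card : ℝ) / V.card) (fun j => ((part l j W).card : ℝ) / W.card)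
    (fun k => ((qpart l k.toNat (-k).toNat Q).card : ℝ) / Q.card)
    (fun i => by positivity) (fun i => by positivity) (fun i => by positivity)
    (by
      rw [← Finset.sum_div, div_le_one hVc]
      exact_mod_cast sum_card_part_le l N V)
    (by
      rw [← Finset.sum_div, div_le_one hWc]
      exact_mod_cast sum_card_part_le l N W)
    (by
      rw [← Finset.sum_div, div_le_one hQc]
      exact_mod_cast sum_card_qpart_le l _ Q)
  refine ⟨m, ?_⟩
  have hbn : 0 ≤ D * bnd A B Q V W := by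
    unfold bnd
    positivity
  calc (cnt P V W Q : ℝ)
      ≤ ∑ i ∈ Finset.range N, ∑ j ∈ Finset.range N,
        (cnt (P \ {l}) (part l i V) (part l j W) (qpart l i j Q) : ℝ) := by
        exact_mod_cast hsplit
    _ ≤ ∑ i ∈ Finset.range N, ∑ j ∈ Finset.range N,
        D * bnd A B Q V W * ((l:ℝ) ^ (-(|(i:ℝ) - j|) / 7) *
          (((qpart l ((i:ℤ) - j).toNat (-((i:ℤ) - j)).toNat Q).card : ℝ) / Q.card) ^ ((2:ℝ)/7) *
          ((((part l i V).card : ℝ) / V.card) * (((part l j W).card : ℝ) / W.card)) ^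
            ((4:ℝ)/7)) := by
        refine Finset.sum_le_sum (fun i _ => Finset.sum_le_sum (fun j _ => ?_))
        refine le_trans (hcnt i j) ?_
        rw [bnd_piece l i j hl2 A B hA hB Q _ V W _ _ hQn hVn hWn]
        have e1 : ((i:ℤ) - j).toNat = i - j := by omega
        have e2 : (-((i:ℤ) - j)).toNat = j - i := by omega
        rw [e1, e2, qpart_trunc]
        exact le_of_eq (by ring)
    _ = D * bnd A B Q V W * ∑ i ∈ Finset.range N, ∑ j ∈ Finset.range N,
        ((l:ℝ) ^ (-(|(i:ℝ) - j|) / 7) *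
          (((qpart l ((i:ℤ) - j).toNat (-((i:ℤ) - j)).toNat Q).card : ℝ) / Q.card) ^ ((2:ℝ)/7) *
          ((((part l i V).card : ℝ) / V.card) * (((part l j W).card : ℝ) / W.card)) ^
            ((4:ℝ)/7)) := by
        rw [Finset.mul_sum]
        refine Finset.sum_congr rfl (fun i _ => ?_)
        rw [Finset.mul_sum]
    _ ≤ _ := mul_le_mul_of_nonneg_left hm hbn

end Pool.Agent.MP_0863b8

end

section

/-! The tree inequality. -/

set_option autoImplicit false

namespace Pool.Agent.MP_0863b8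

open Finset

private theorem tr_injOn (l i : ℕ) (V : Finset ℕ) :
    Set.InjOn (fun v => v / l ^ i) (V.filter (fun v => v.factorization l = i)) := by
  intro a ha b hb hab
  rw [mem_coe, mem_filter] at ha hb
  simp only at hab
  have h1 : l ^ i ∣ a := by
    have := Nat.ordProj_dvd a l
    rwa [ha.2] at this
  have h2 : l ^ i ∣ b := by
    have := Nat.ordProj_dvd b l
    rwa [hb.2] at this
  rw [← Nat.div_mul_cancel h1, hab, Nat.div_mul_cancel h2]

private theorem tr_card_part_le (l i : ℕ) (V : Finset ℕ) : (part l i V).card ≤ V.card :=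
  card_image_le.trans (card_filter_le _ _)

private theorem tr_sum_part (l i : ℕ) (V : Finset ℕ) :
    ∑ u ∈ part l i V, u = ∑ v ∈ V.filter (fun v => v.factorization l = i), v / l ^ i := by
  unfold part
  exact sum_image (f := fun u => u) (tr_injOn l i V)

private theorem tr_sum_part_le (l i : ℕ) (V : Finset ℕ) : ∑ u ∈ part l i V, u ≤ ∑ v ∈ V, v := by
  rw [tr_sum_part]
  calc ∑ v ∈ V.filter (fun v => v.factorization l = i), v / l ^ i
      ≤ ∑ v ∈ V.filter (fun v => v.factorization l = i), v :=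
        sum_le_sum fun v _ => Nat.div_le_self _ _
    _ ≤ ∑ v ∈ V, v := sum_le_sum_of_subset (filter_subset _ _)

private theorem tr_sum_pos (V : Finset ℕ) (hne : V.Nonempty) (hpos : ∀ v ∈ V, 0 < v) :
    0 < ∑ v ∈ V, v := sum_pos hpos hne

private theorem tr_sum_part_lt (l i : ℕ) (hl : l.Prime) (hi : 1 ≤ i) (V : Finset ℕ)
    (hne : V.Nonempty) (hpos : ∀ v ∈ V, 0 < v) : ∑ u ∈ part l i V, u < ∑ v ∈ V, v := by
  have h0 := tr_sum_pos V hne hpos
  have h1 : 2 * ∑ u ∈ part l i V, u ≤ ∑ v ∈ V, v := by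
    rw [tr_sum_part, mul_sum]
    calc ∑ v ∈ V.filter (fun v => v.factorization l = i), 2 * (v / l ^ i)
        ≤ ∑ v ∈ V.filter (fun v => v.factorization l = i), v := by
          refine sum_le_sum fun v _ => ?_
          have h2 : 2 ≤ l ^ i := by
            calc 2 ≤ l := hl.two_le
              _ = l ^ 1 := (pow_one l).symm
              _ ≤ l ^ i := Nat.pow_le_pow_right hl.pos hi
          calc 2 * (v / l ^ i) ≤ l ^ i * (v / l ^ i) := Nat.mul_le_mul_right _ h2
            _ ≤ v := Nat.mul_div_le v _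
      _ ≤ ∑ v ∈ V, v := sum_le_sum_of_subset (filter_subset _ _)
  omega

private theorem tr_sum_part_zero_lt (l : ℕ) (hl : l.Prime) (V : Finset ℕ)
    (hpos : ∀ v ∈ V, 0 < v) (v0 : ℕ) (hv0 : v0 ∈ V) (hd : l ∣ v0) :
    ∑ u ∈ part l 0 V, u < ∑ v ∈ V, v := by
  rw [tr_sum_part]
  calc ∑ v ∈ V.filter (fun v => v.factorization l = 0), v / l ^ 0
      = ∑ v ∈ V.filter (fun v => v.factorization l = 0), v := by simp
    _ < ∑ v ∈ V, v := by
        refine sum_lt_sum_of_subset (filter_subset _ _) hv0 ?_ (hpos v0 hv0)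
          (fun _ _ _ => Nat.zero_le _)
        rw [mem_filter]
        rintro ⟨_, h⟩
        have h2 := (hl.dvd_iff_one_le_factorization (hpos v0 hv0).ne').1 hd
        omega

private theorem tr_filter_dvd_lt (V : Finset ℕ) (hpos : ∀ v ∈ V, 0 < v) (p : ℕ)
    (h : (V.filter (fun v => p ∣ v)).card < V.card) :
    ∑ v ∈ V.filter (fun v => p ∣ v), v < ∑ v ∈ V, v := by
  have hss : V.filter (fun v => p ∣ v) ⊂ V := by
    refine (filter_subset _ _).ssubset_of_ne ?_
    intro he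
    rw [he] at h
    exact lt_irrefl _ h
  obtain ⟨v0, hv0, hn⟩ := exists_of_ssubset hss
  exact sum_lt_sum_of_subset hss.1 hv0 hn (hpos v0 hv0) (fun _ _ _ => Nat.zero_le _)

private theorem tr_part_pos (l i : ℕ) (V : Finset ℕ) (C1 : ℝ)
    (hV : ∀ v ∈ V, 0 < v ∧ rp v ≤ C1) : ∀ u ∈ part l i V, 0 < u ∧ rp u ≤ C1 := by
  intro u hu
  unfold part at hu
  rw [mem_image] at hu
  obtain ⟨v, hv, rfl⟩ := hu
  rw [mem_filter] at hv
  have hd : l ^ i ∣ v := by
    have := Nat.ordProj_dvd v l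
    rwa [hv.2] at this
  have hv0 := (hV v hv.1).1
  have hpos : 0 < v / l ^ i := Nat.div_pos (Nat.le_of_dvd hv0 hd) (Nat.pos_of_dvd_of_pos hd hv0)
  refine ⟨hpos, le_trans ?_ (hV v hv.1).2⟩
  unfold rp
  refine sum_le_sum_of_subset_of_nonneg ?_ (fun _ _ _ => by positivity)
  exact Nat.primeFactors_mono (Nat.div_dvd_of_dvd hd) hv0.ne'

private theorem tr_qpart_bd (l i j : ℕ) (Q : Finset (ℕ × ℕ)) (A B : ℝ)
    (hQ : ∀ t ∈ Q, (t.1 : ℝ) ≤ A ∧ (t.2 : ℝ) ≤ B) :
    ∀ t ∈ qpart l i j Q, (t.1 : ℝ) ≤ A / (l:ℝ) ^ (i - j) ∧ (t.2 : ℝ) ≤ B / (l:ℝ) ^ (j - i) := by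
  intro t ht
  unfold qpart at ht
  rw [mem_image] at ht
  obtain ⟨t', ht', rfl⟩ := ht
  rw [mem_filter] at ht'
  obtain ⟨h1, h2⟩ := hQ t' ht'.1
  constructor
  · refine (Nat.cast_div_le (α := ℝ)).trans ?_
    rw [Nat.cast_pow]
    exact div_le_div_of_nonneg_right h1 (by positivity)
  · refine (Nat.cast_div_le (α := ℝ)).trans ?_
    rw [Nat.cast_pow]
    exact div_le_div_of_nonneg_right h2 (by positivity)

open Classical in
/-- the set counted by `cnt` -/
private noncomputable def tr_set (P : Set ℕ) (V W : Finset ℕ) (Q : Finset (ℕ × ℕ)) :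
    Finset (ℕ × ℕ) :=
  (V ×ˢ W).filter (fun t => (t.1 / t.1.gcd t.2, t.2 / t.1.gcd t.2) ∈ Q ∧
    ∀ p ∈ (t.1.gcd t.2).primeFactors, p ∈ P)

private theorem tr_cnt_eq (P : Set ℕ) (V W : Finset ℕ) (Q : Finset (ℕ × ℕ)) :
    cnt P V W Q = (tr_set P V W Q).card := rfl

private theorem tr_mem (P : Set ℕ) (V W : Finset ℕ) (Q : Finset (ℕ × ℕ)) (t : ℕ × ℕ) :
    t ∈ tr_set P V W Q ↔ (t.1 ∈ V ∧ t.2 ∈ W) ∧ (t.1 / t.1.gcd t.2, t.2 / t.1.gcd t.2) ∈ Q ∧
    ∀ p ∈ (t.1.gcd t.2).primeFactors, p ∈ P := by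
  classical
  unfold tr_set
  rw [mem_filter, mem_product]

private theorem tr_cnt_mono (P P' : Set ℕ) (h : P ⊆ P') (V W : Finset ℕ) (Q : Finset (ℕ × ℕ)) :
    cnt P V W Q ≤ cnt P' V W Q := by
  rw [tr_cnt_eq, tr_cnt_eq]
  refine card_le_card fun t ht => ?_
  rw [tr_mem] at ht ⊢
  exact ⟨ht.1, ht.2.1, fun p hp => h (ht.2.2 p hp)⟩

private theorem tr_cnt_split (P : Set ℕ) (R : Finset ℕ) (V W : Finset ℕ) (Q : Finset (ℕ × ℕ))
    (hpos : ∀ v ∈ V, 0 < v) (hR : ∀ v ∈ V, ∀ p ∈ v.primeFactors, p ∈ P ∨ p ∈ R) :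
    cnt Set.univ V W Q ≤ cnt P V W Q +
      ∑ p ∈ R, cnt Set.univ (V.filter (fun v => p ∣ v)) (W.filter (fun w => p ∣ w)) Q := by
  classical
  have hsub : tr_set Set.univ V W Q ⊆ tr_set P V W Q ∪ R.biUnion (fun p =>
      tr_set Set.univ (V.filter (fun v => p ∣ v)) (W.filter (fun w => p ∣ w)) Q) := by
    intro t ht
    rw [tr_mem] at ht
    obtain ⟨⟨h1, h2⟩, h3, h4⟩ := ht
    rw [mem_union]
    by_cases hP : ∀ p ∈ (t.1.gcd t.2).primeFactors, p ∈ P
    · left
      rw [tr_mem]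
      exact ⟨⟨h1, h2⟩, h3, hP⟩
    · right
      push Not at hP
      obtain ⟨p, hp, hpP⟩ := hP
      have hpp := Nat.prime_of_mem_primeFactors hp
      have hpd := Nat.dvd_of_mem_primeFactors hp
      have hd1 : p ∣ t.1 := hpd.trans (Nat.gcd_dvd_left _ _)
      have hd2 : p ∣ t.2 := hpd.trans (Nat.gcd_dvd_right _ _)
      have hmem : p ∈ t.1.primeFactors := by
        rw [Nat.mem_primeFactors]
        exact ⟨hpp, hd1, (hpos _ h1).ne'⟩
      have hpR : p ∈ R := (hR _ h1 p hmem).resolve_left hpP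
      rw [mem_biUnion]
      refine ⟨p, hpR, ?_⟩
      rw [tr_mem, mem_filter, mem_filter]
      exact ⟨⟨⟨h1, hd1⟩, ⟨h2, hd2⟩⟩, h3, h4⟩
  rw [tr_cnt_eq, tr_cnt_eq]
  refine (card_le_card hsub).trans ((card_union_le _ _).trans ?_)
  exact Nat.add_le_add_left card_biUnion_le _

private theorem tr_bnd_nonneg (A B : ℝ) (hA : 0 ≤ A) (hB : 0 ≤ B) (Q : Finset (ℕ × ℕ))
    (V W : Finset ℕ) : 0 ≤ bnd A B Q V W := by
  unfold bnd
  positivity

/-- smaller sets -/
private theorem tr_bnd_small (A B : ℝ) (hA : 0 ≤ A) (hB : 0 ≤ B) (Q : Finset (ℕ × ℕ))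
    (V W V' W' : Finset ℕ) (ε : ℝ) (hε : 0 ≤ ε) (hV : (V'.card : ℝ) ≤ ε * V.card)
    (hW : (W'.card : ℝ) ≤ ε * W.card) :
    bnd A B Q V' W' ≤ bnd A B Q V W * ε ^ ((8:ℝ)/7) := by
  unfold bnd
  have h1 : ((V'.card : ℝ) * W'.card) ^ ((4:ℝ)/7) ≤
      (ε ^ 2 * ((V.card : ℝ) * W.card)) ^ ((4:ℝ)/7) := by
    refine Real.rpow_le_rpow (by positivity) ?_ (by norm_num)
    calc (V'.card : ℝ) * W'.card ≤ (ε * V.card) * (ε * W.card) := by gcongr
      _ = ε ^ 2 * ((V.card : ℝ) * W.card) := by ring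
  have h2 : (ε ^ 2) ^ ((4:ℝ)/7) = ε ^ ((8:ℝ)/7) := by
    rw [← Real.rpow_natCast, ← Real.rpow_mul hε]
    norm_num
  rw [Real.mul_rpow (x := ε ^ 2) (by positivity) (by positivity), h2] at h1
  calc (A * B) ^ ((1:ℝ)/7) * (Q.card : ℝ) ^ ((2:ℝ)/7) * ((V'.card : ℝ) * W'.card) ^ ((4:ℝ)/7)
      ≤ (A * B) ^ ((1:ℝ)/7) * (Q.card : ℝ) ^ ((2:ℝ)/7) *
        (ε ^ ((8:ℝ)/7) * ((V.card : ℝ) * W.card) ^ ((4:ℝ)/7)) := by
        have : 0 ≤ (A * B) ^ ((1:ℝ)/7) * (Q.card : ℝ) ^ ((2:ℝ)/7) := by positivity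
        exact mul_le_mul_of_nonneg_left h1 this
    _ = _ := by ring

private theorem tr_tail (C2 : ℝ) (hC2 : 0 < C2) : ∃ z : ℕ, 2 * C2 + 2 ≤ z ∧
    ∀ s : Finset ℕ, (∀ n ∈ s, z < n) → ∑ n ∈ s, (C2 / n) ^ ((8:ℝ)/7) ≤ 1 / 2 := by
  have hsum : Summable fun n : ℕ => (C2 / n) ^ ((8:ℝ)/7) := by
    have h1 : Summable fun n : ℕ => C2 ^ ((8:ℝ)/7) * (1 / (n:ℝ) ^ ((8:ℝ)/7)) :=
      (Real.summable_one_div_nat_rpow.2 (by norm_num)).mul_left _
    refine h1.congr fun n => ?_
    rw [Real.div_rpow hC2.le (Nat.cast_nonneg n)]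
    ring
  obtain ⟨s0, hs0⟩ := (summable_iff_vanishing_norm.1 hsum) (1/2) (by norm_num)
  obtain ⟨z1, hz1⟩ := exists_nat_ge (2 * C2 + 2)
  refine ⟨max z1 (s0.sup id), ?_, ?_⟩
  · refine hz1.trans ?_
    exact_mod_cast le_max_left _ _
  · intro s hs
    have hdis : Disjoint s s0 := by
      rw [disjoint_left]
      intro n hn hn0
      have h1 := hs n hn
      have h2 : n ≤ s0.sup id := le_sup (f := id) hn0
      have h3 := le_max_right z1 (s0.sup id)
      omega
    have := hs0 s hdis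
    exact (le_abs_self _).trans (by rw [← Real.norm_eq_abs]; exact this.le)

theorem tree (h1 : StepStmt) (h2 : FinStmt) : TreeStmt := by
  classical
  obtain ⟨Cs, hCs, step⟩ := h1
  obtain ⟨Cf, hCf, fin⟩ := h2
  intro C1
  obtain ⟨z, hz, htail⟩ := tr_tail (25 * Cs) (by positivity)
  set C2 : ℝ := 25 * Cs with hC2
  have hC2pos : 0 < C2 := by rw [hC2]; positivity
  set E : ℝ := Real.exp (Cf * (z + 2 * max C1 0)) with hE
  have hEpos : 0 < E := Real.exp_pos _
  refine ⟨2 * E, by positivity, ?_⟩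
  have main : ∀ (n : ℕ) (V W : Finset ℕ), ∑ v ∈ V, v + ∑ w ∈ W, w = n →
      ∀ (Q : Finset (ℕ × ℕ)) (A B : ℝ), 0 ≤ A → 0 ≤ B →
      (∀ v ∈ V, 0 < v ∧ rp v ≤ C1) → (∀ w ∈ W, 0 < w ∧ rp w ≤ C1) →
      (∀ t ∈ Q, (t.1 : ℝ) ≤ A ∧ (t.2 : ℝ) ≤ B) →
      (cnt Set.univ V W Q : ℝ) ≤ 2 * E * bnd A B Q V W := by
    intro n
    induction n using Nat.strong_induction_on with
    | _ n ih =>
      intro V W hn Q A B hA hB hV hW hQ
      have hVp : ∀ v ∈ V, 0 < v := fun v hv => (hV v hv).1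
      have hWp : ∀ w ∈ W, 0 < w := fun w hw => (hW w hw).1
      have hb0 : 0 ≤ bnd A B Q V W := tr_bnd_nonneg A B hA hB Q V W
      rcases V.eq_empty_or_nonempty with hVe | hVne
      · have : cnt Set.univ V W Q = 0 := by
          unfold cnt
          rw [hVe]
          simp
        rw [this]
        have : 0 ≤ 2 * E * bnd A B Q V W := by positivity
        simpa using this
      rcases W.eq_empty_or_nonempty with hWe | hWne
      · have : cnt Set.univ V W Q = 0 := by
          unfold cnt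
          rw [hWe]
          simp
        rw [this]
        have : 0 ≤ 2 * E * bnd A B Q V W := by positivity
        simpa using this
      have hVc : (0:ℝ) < V.card := by exact_mod_cast hVne.card_pos
      have hWc : (0:ℝ) < W.card := by exact_mod_cast hWne.card_pos
      -- the step at a relevant prime
      let Rel : Finset ℕ := V.biUnion Nat.primeFactors
      have hstep : ∀ l ∈ Rel, ∃ m : ℕ, (cnt Set.univ V W Q : ℝ) ≤ 2 * E * bnd A B Q V W *
          (1 - (1/25) * ((1 - ((part l m V).card : ℝ) / V.card) +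
          (1 - ((part l m W).card : ℝ) / W.card)) + Cs / l) := by
        intro l hl
        rw [mem_biUnion] at hl
        obtain ⟨v0, hv0, hlv0⟩ := hl
        have hlp := Nat.prime_of_mem_primeFactors hlv0
        have hld := Nat.dvd_of_mem_primeFactors hlv0
        refine step l hlp Set.univ V W Q A B (2 * E) hA hB (by positivity) hVp hWp ?_
        intro i j
        have hlt : ∑ v ∈ part l i V, v + ∑ w ∈ part l j W, w < n := by
          rw [← hn]
          have a1 := tr_sum_part_le l i V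
          have a2 := tr_sum_part_le l j W
          rcases Nat.eq_zero_or_pos i with hi | hi
          · have := tr_sum_part_zero_lt l hlp V hVp v0 hv0 hld
            rw [← hi] at this
            omega
          · have := tr_sum_part_lt l i hlp hi V hVne hVp
            omega
        have h3 := ih _ hlt (part l i V) (part l j W) rfl (qpart l i j Q)
          (A / (l:ℝ) ^ (i - j)) (B / (l:ℝ) ^ (j - i)) (by positivity) (by positivity)
          (tr_part_pos l i V C1 hV) (tr_part_pos l j W C1 hW) (tr_qpart_bd l i j Q A B hQ)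
        refine le_trans ?_ h3
        exact_mod_cast tr_cnt_mono _ _ (Set.subset_univ _) _ _ _
      by_cases hgain : ∃ l ∈ Rel, ∃ m : ℕ, (cnt Set.univ V W Q : ℝ) ≤ 2 * E * bnd A B Q V W *
          (1 - (1/25) * ((1 - ((part l m V).card : ℝ) / V.card) +
          (1 - ((part l m W).card : ℝ) / W.card)) + Cs / l) ∧
          (1 - (1/25) * ((1 - ((part l m V).card : ℝ) / V.card) +
          (1 - ((part l m W).card : ℝ) / W.card)) + Cs / l) ≤ 1
      · obtain ⟨l, _, m, h3, h4⟩ := hgain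
        refine h3.trans ?_
        calc 2 * E * bnd A B Q V W * _ ≤ 2 * E * bnd A B Q V W * 1 :=
              mul_le_mul_of_nonneg_left h4 (by positivity)
          _ = _ := mul_one _
      · push Not at hgain
        -- no gain: dense parts
        have hdense : ∀ l ∈ Rel, ∃ m : ℕ, (1 - C2 / l) * V.card ≤ (part l m V).card ∧
            (1 - C2 / l) * W.card ≤ (part l m W).card := by
          intro l hl
          obtain ⟨m, hm⟩ := hstep l hl
          have h4 := hgain l hl m hm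
          have hv1 : ((part l m V).card : ℝ) / V.card ≤ 1 := by
            rw [div_le_one hVc]
            exact_mod_cast tr_card_part_le l m V
          have hw1 : ((part l m W).card : ℝ) / W.card ≤ 1 := by
            rw [div_le_one hWc]
            exact_mod_cast tr_card_part_le l m W
          have e1 : C2 / (l:ℝ) = 25 * (Cs / l) := by rw [hC2]; ring
          refine ⟨m, ?_, ?_⟩
          · rw [← le_div_iff₀ hVc, e1]
            linarith
          · rw [← le_div_iff₀ hWc, e1]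
            linarith
        choose! m hmV hmW using hdense
        have hprime : ∀ l ∈ Rel, l.Prime := by
          intro l hl
          rw [mem_biUnion] at hl
          obtain ⟨v0, _, h⟩ := hl
          exact Nat.prime_of_mem_primeFactors h
        have hhalf : ∀ l : ℕ, z < l → C2 / l ≤ 1 / 2 := by
          intro l hl
          have hl' : (z:ℝ) < l := by exact_mod_cast hl
          have hlpos : (0:ℝ) < l := by linarith
          rw [div_le_div_iff₀ hlpos (by norm_num)]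
          linarith
        let P1 : Finset ℕ := Rel.filter (fun l => l ≤ z)
        let P2 : Finset ℕ := Rel.filter (fun l => z < l ∧ 1 ≤ m l)
        let P : Finset ℕ := P1 ∪ P2
        let R : Finset ℕ := Rel.filter (fun l => z < l ∧ m l = 0)
        -- the sum of the reciprocals over P
        have hP1 : ∑ p ∈ P1, (1:ℝ) / p ≤ z := by
          have a1 : ∑ p ∈ P1, (1:ℝ) / p ≤ ∑ p ∈ P1, (1:ℝ) := by
            refine sum_le_sum fun p hp => ?_
            have hp' := (hprime p (mem_filter.1 hp).1).one_le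
            have : (1:ℝ) ≤ p := by exact_mod_cast hp'
            rw [div_le_one (by linarith)]
            exact this
          have a2 : P1 ⊆ Finset.Icc 1 z := by
            intro p hp
            rw [Finset.mem_Icc]
            exact ⟨(hprime p (mem_filter.1 hp).1).one_le, (mem_filter.1 hp).2⟩
          have a3 := card_le_card a2
          rw [Nat.card_Icc] at a3
          rw [sum_const, nsmul_eq_mul, mul_one] at a1
          refine a1.trans ?_
          exact_mod_cast a3.trans (by omega)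
        have hP2 : ∑ p ∈ P2, (1:ℝ) / p ≤ 2 * max C1 0 := by
          -- double counting
          have a1 : ∑ v ∈ V, rp v ≤ max C1 0 * V.card := by
            calc ∑ v ∈ V, rp v ≤ ∑ v ∈ V, max C1 0 :=
                  sum_le_sum fun v hv => (hV v hv).2.trans (le_max_left _ _)
              _ = max C1 0 * V.card := by rw [sum_const, nsmul_eq_mul, mul_comm]
          have a2 : ∑ p ∈ P2, (1:ℝ) / p * (V.filter (fun v => p ∣ v)).card ≤ ∑ v ∈ V, rp v := by
            have b1 : ∀ p ∈ P2, (1:ℝ) / p * (V.filter (fun v => p ∣ v)).card =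
                ∑ v ∈ V, if p ∣ v then (1:ℝ) / p else 0 := by
              intro p _
              rw [← sum_filter, sum_const, nsmul_eq_mul, mul_comm]
            rw [sum_congr rfl b1, sum_comm]
            refine sum_le_sum fun v hv => ?_
            rw [← sum_filter]
            unfold rp
            refine sum_le_sum_of_subset_of_nonneg ?_ (fun _ _ _ => by positivity)
            intro p hp
            rw [mem_filter] at hp
            rw [Nat.mem_primeFactors]
            exact ⟨hprime p (mem_filter.1 hp.1).1, hp.2, (hVp v hv).ne'⟩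
          have a3 : ∀ p ∈ P2, (V.card : ℝ) / 2 ≤ (V.filter (fun v => p ∣ v)).card := by
            intro p hp
            have hp' := (mem_filter.1 hp)
            have b1 := hmV p hp'.1
            have b2 := hhalf p hp'.2.1
            have b3 : (part p (m p) V).card ≤ (V.filter (fun v => p ∣ v)).card := by
              unfold part
              refine card_image_le.trans (card_le_card fun v hv => ?_)
              rw [mem_filter] at hv ⊢
              refine ⟨hv.1, ?_⟩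
              rw [(hprime p hp'.1).dvd_iff_one_le_factorization (hVp v hv.1).ne', hv.2]
              exact hp'.2.2
            have b3' : ((part p (m p) V).card : ℝ) ≤ (V.filter (fun v => p ∣ v)).card := by
              exact_mod_cast b3
            nlinarith
          have a4 : (∑ p ∈ P2, (1:ℝ) / p) * (V.card / 2) ≤ max C1 0 * V.card := by
            rw [sum_mul]
            refine le_trans (sum_le_sum fun p hp => ?_) (a2.trans a1)
            exact mul_le_mul_of_nonneg_left (a3 p hp) (by positivity)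
          have a5 : (∑ p ∈ P2, (1:ℝ) / p) * (V.card / 2) ≤ 2 * max C1 0 * (V.card / 2) := by
            refine a4.trans (le_of_eq ?_)
            ring
          exact le_of_mul_le_mul_right a5 (by positivity)
        have hPsum : ∑ p ∈ P, Cf / p ≤ Cf * (z + 2 * max C1 0) := by
          have b1 : ∀ p : ℕ, Cf / (p:ℝ) = Cf * (1 / p) := fun p => by ring
          have b2 : ∑ p ∈ P, (1:ℝ) / p ≤ ∑ p ∈ P1, (1:ℝ) / p + ∑ p ∈ P2, (1:ℝ) / p := by
            have := sum_union_inter (s₁ := P1) (s₂ := P2) (f := fun p : ℕ => (1:ℝ) / p)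
            have b3 : 0 ≤ ∑ p ∈ P1 ∩ P2, (1:ℝ) / p := sum_nonneg fun _ _ => by positivity
            linarith
          rw [sum_congr rfl fun p _ => b1 p, ← mul_sum]
          exact mul_le_mul_of_nonneg_left (by linarith) hCf.le
        have hPprime : ∀ p ∈ P, p.Prime := by
          intro p hp
          rw [mem_union] at hp
          rcases hp with hp | hp
          · exact hprime p (mem_filter.1 hp).1
          · exact hprime p (mem_filter.1 hp).1
        have hfin := fin P hPprime V W Q A B hA hB hVp hWp hQ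
        have hfin2 : (cnt (P : Set ℕ) V W Q : ℝ) ≤ E * bnd A B Q V W :=
          hfin.trans (mul_le_mul_of_nonneg_right (Real.exp_le_exp.2 hPsum) hb0)
        -- splitting
        have hsplit := tr_cnt_split (P : Set ℕ) R V W Q hVp (by
          intro v hv p hp
          have hpR : p ∈ Rel := by
            rw [mem_biUnion]
            exact ⟨v, hv, hp⟩
          by_cases h5 : p ≤ z
          · left
            exact mem_coe.2 (mem_union_left _ (mem_filter.2 ⟨hpR, h5⟩))
          · by_cases h6 : m p = 0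
            · right
              exact mem_filter.2 ⟨hpR, by omega, h6⟩
            · left
              exact mem_coe.2 (mem_union_right _ (mem_filter.2 ⟨hpR, by omega, by omega⟩)))
        have hRterm : ∀ p ∈ R,
            (cnt Set.univ (V.filter (fun v => p ∣ v)) (W.filter (fun w => p ∣ w)) Q : ℝ) ≤
              2 * E * bnd A B Q V W * (C2 / p) ^ ((8:ℝ)/7) := by
          intro p hp
          obtain ⟨hpR, hzp, hm0⟩ := mem_filter.1 hp
          have hpp := hprime p hpR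
          have b2 := hhalf p hzp
          have hp0 : (0:ℝ) < p := by exact_mod_cast hpp.pos
          have hgen : ∀ U : Finset ℕ, (∀ u ∈ U, 0 < u) →
              (1 - C2 / p) * U.card ≤ (part p (m p) U).card →
              ((U.filter (fun v => p ∣ v)).card : ℝ) ≤ C2 / p * U.card := by
            intro U hU hd
            have c1 : (part p (m p) U).card ≤ (U.filter (fun v => ¬ p ∣ v)).card := by
              unfold part
              refine card_image_le.trans (card_le_card fun v hv => ?_)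
              rw [mem_filter] at hv ⊢
              refine ⟨hv.1, ?_⟩
              rw [hpp.dvd_iff_one_le_factorization (hU v hv.1).ne', hv.2, hm0]
              norm_num
            have c2 := card_filter_add_card_filter_not (s := U) (fun v => p ∣ v)
            have c1' : ((part p (m p) U).card : ℝ) ≤ (U.filter (fun v => ¬ p ∣ v)).card := by
              exact_mod_cast c1
            have c2' : ((U.filter (fun v => p ∣ v)).card : ℝ) +
                (U.filter (fun v => ¬ p ∣ v)).card = U.card := by exact_mod_cast c2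
            linarith
          have hVs := hgen V hVp (hmV p hpR)
          have hWs := hgen W hWp (hmW p hpR)
          have hcardlt : (V.filter (fun v => p ∣ v)).card < V.card := by
            have : ((V.filter (fun v => p ∣ v)).card : ℝ) < V.card := by
              refine hVs.trans_lt ?_
              nlinarith
            exact_mod_cast this
          have hsumlt := tr_filter_dvd_lt V hVp p hcardlt
          have hsumle : ∑ w ∈ W.filter (fun w => p ∣ w), w ≤ ∑ w ∈ W, w :=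
            sum_le_sum_of_subset (filter_subset _ _)
          have h7 := ih _ (by rw [← hn]; omega) (V.filter (fun v => p ∣ v))
            (W.filter (fun w => p ∣ w)) rfl Q A B hA hB
            (fun v hv => hV v (mem_filter.1 hv).1) (fun w hw => hW w (mem_filter.1 hw).1) hQ
          refine h7.trans ?_
          have h8 := tr_bnd_small A B hA hB Q V W (V.filter (fun v => p ∣ v))
            (W.filter (fun w => p ∣ w)) (C2 / p) (by positivity) hVs hWs
          calc 2 * E * bnd A B Q (V.filter (fun v => p ∣ v)) (W.filter (fun w => p ∣ w))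
              ≤ 2 * E * (bnd A B Q V W * (C2 / p) ^ ((8:ℝ)/7)) :=
                mul_le_mul_of_nonneg_left h8 (by positivity)
            _ = _ := by ring
        have hRsum : ∑ p ∈ R,
            (cnt Set.univ (V.filter (fun v => p ∣ v)) (W.filter (fun w => p ∣ w)) Q : ℝ) ≤
              E * bnd A B Q V W := by
          refine (sum_le_sum hRterm).trans ?_
          rw [← mul_sum]
          have h9 := htail R (fun p hp => (mem_filter.1 hp).2.1)
          calc 2 * E * bnd A B Q V W * ∑ p ∈ R, (C2 / (p:ℝ)) ^ ((8:ℝ)/7)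
              ≤ 2 * E * bnd A B Q V W * (1 / 2) := mul_le_mul_of_nonneg_left h9 (by positivity)
            _ = E * bnd A B Q V W := by ring
        have hsplit' : (cnt Set.univ V W Q : ℝ) ≤ cnt (P : Set ℕ) V W Q +
            ∑ p ∈ R, (cnt Set.univ (V.filter (fun v => p ∣ v))
              (W.filter (fun w => p ∣ w)) Q : ℝ) := by
          exact_mod_cast hsplit
        linarith
  intro V W Q A B hA hB hV hW hQ
  exact main _ V W rfl Q A B hA hB hV hW hQ

end Pool.Agent.MP_0863b8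

end

section

namespace Pool.Agent.MP_0863b8

theorem treeStmt : TreeStmt := by
  have hs : StepStmt := step node split
  exact tree hs (fin hs)

theorem classifyStmt : ClassifyStmt := classify overlap qmin_spec dio

theorem secondStmt : SecondStmt :=
  second overlap single mult classifyStmt (nonspec treeStmt) class_sum divsum

theorem mainStmt : MainStmt := main secondStmt first_moment bc single qmin_spec

end Pool.Agent.MP_0863b8

end
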