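import Pool.Agent.Work.MP_0863b8_nt.Bd.B01
import Pool.Agent.Work.MP_0863b8_nt.Bd.B02

/-! Bundle of small proof modules (one section per former module). -/

section

namespace Pool.Agent.MP_0863b8.C1

open MeasureTheory Filter
open Pool.Agent.MP_0863b8

theorem bq_nonneg (t α β : ℝ) {A B : ℝ} (hA : 0 ≤ A) (hB : 0 ≤ B) (Q : Finset (ℕ × ℕ))
    (V W : Finset ℕ) : 0 ≤ bq t α β A B Q V W := by
  unfold bq
  positivity

theorem fin_baseQ (t α β : ℝ) (hE : Ex t α β) (V W : Finset ℕ) (Q : Finset (ℕ × ℕ)) (A B : ℝ) (hA : 0 ≤ A) (hB : 0 ≤ B)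
    (hV : ∀ v ∈ V, 0 < v) (hW : ∀ w ∈ W, 0 < w)
    (hQ : ∀ z ∈ Q, (z.1 : ℝ) ≤ A ∧ (z.2 : ℝ) ≤ B) :
    (cnt ((∅ : Finset ℕ) : Set ℕ) V W Q : ℝ) ≤ bq t α β A B Q V W := by
  classical
  set S := (V ×ˢ W).filter (fun t => (t.1 / t.1.gcd t.2, t.2 / t.1.gcd t.2) ∈ Q ∧
    ∀ p ∈ (t.1.gcd t.2).primeFactors, p ∈ ((∅ : Finset ℕ) : Set ℕ)) with hS
  have hcnt : cnt ((∅ : Finset ℕ) : Set ℕ) V W Q = S.card := by
    rw [hS]; unfold cnt; congr
  have hSmem : ∀ t ∈ S, t ∈ V ×ˢ W ∧ t ∈ Q := by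
    intro t ht
    rw [hS, Finset.mem_filter] at ht
    obtain ⟨h1, h2, h3⟩ := ht
    refine ⟨h1, ?_⟩
    rw [Finset.mem_product] at h1
    have hg : t.1.gcd t.2 = 1 := by
      by_contra hne
      have hpos : 0 < t.1.gcd t.2 := Nat.gcd_pos_of_pos_left _ (hV _ h1.1)
      obtain ⟨p, hp, hpd⟩ := Nat.exists_prime_and_dvd hne
      have := h3 p (Nat.mem_primeFactors.2 ⟨hp, hpd, hpos.ne'⟩)
      simp at this
    rw [hg, Nat.div_one, Nat.div_one] at h2
    exact h2
  have h1 : S.card ≤ Q.card := Finset.card_le_card fun t ht => (hSmem t ht).2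
  have h2 : S.card ≤ V.card * W.card := by
    rw [← Finset.card_product]
    exact Finset.card_le_card fun t ht => (hSmem t ht).1
  have h3 : S.card ≤ ⌊A⌋₊ * ⌊B⌋₊ := by
    have : S ⊆ Finset.Icc 1 ⌊A⌋₊ ×ˢ Finset.Icc 1 ⌊B⌋₊ := by
      intro t ht
      obtain ⟨h4, h5⟩ := hSmem t ht
      rw [Finset.mem_product] at h4
      obtain ⟨h6, h7⟩ := hQ t h5
      simp only [Finset.mem_product, Finset.mem_Icc]
      exact ⟨⟨hV _ h4.1, Nat.le_floor h6⟩, ⟨hW _ h4.2, Nat.le_floor h7⟩⟩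
    have h8 := Finset.card_le_card this
    rw [Finset.card_product, Nat.card_Icc, Nat.card_Icc] at h8
    simpa using h8
  have h1' : (S.card : ℝ) ≤ Q.card := by exact_mod_cast h1
  have h2' : (S.card : ℝ) ≤ (V.card : ℝ) * W.card := by exact_mod_cast h2
  have h3' : (S.card : ℝ) ≤ A * B := by
    have h9 : (S.card : ℝ) ≤ (⌊A⌋₊ : ℝ) * ⌊B⌋₊ := by exact_mod_cast h3
    exact h9.trans (mul_le_mul (Nat.floor_le hA) (Nat.floor_le hB) (Nat.cast_nonneg _) hA)
  rw [hcnt]
  rcases Nat.eq_zero_or_pos S.card with h0 | h0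
  · rw [h0, Nat.cast_zero]
    exact bq_nonneg t α β hA hB Q V W
  · have hpos : (0 : ℝ) < S.card := by exact_mod_cast h0
    have ht := hE.ht
    have ha := hE.ha
    have hb := hE.hb
    calc (S.card : ℝ) = (S.card : ℝ) ^ β * (S.card : ℝ) ^ α *
          (S.card : ℝ) ^ t := by
          rw [← Real.rpow_add hpos, ← Real.rpow_add hpos]
          have := hE.hs
          have h9 : β + α + t = 1 := by linarith
          rw [h9, Real.rpow_one]
      _ ≤ bq t α β A B Q V W := by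
          unfold bq
          gcongr

theorem finQ (h : StepQ) : FinQ := by
  classical
  intro t α β hE
  obtain ⟨C, c, hC, hc, hstep⟩ := h t α β hE
  refine ⟨C, hC, ?_⟩
  intro P
  induction P using Finset.induction_on with
  | empty =>
    intro _ V W Q A B hA hB hV hW hQ
    have := fin_baseQ t α β hE V W Q A B hA hB hV hW hQ
    simpa using this
  | insert l P hl ih =>
    intro hP V W Q A B hA hB hV hW hQ
    have hlp : l.Prime := hP l (Finset.mem_insert_self _ _)
    have hl0 : (0 : ℝ) < l := by exact_mod_cast hlp.pos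
    have ih' := ih (fun p hp => hP p (Finset.mem_insert_of_mem hp))
    have hset : (((insert l P : Finset ℕ) : Set ℕ) \ {l}) = (P : Set ℕ) := by
      ext x
      simp only [Finset.coe_insert, Set.mem_sdiff, Set.mem_insert_iff, Finset.mem_coe,
        Set.mem_singleton_iff]
      constructor
      · rintro ⟨h1 | h1, h2⟩
        · exact absurd h1 h2
        · exact h1
      · intro h1
        exact ⟨Or.inr h1, fun h2 => hl (h2 ▸ h1)⟩
    obtain ⟨m, hm⟩ := hstep l hlp ((insert l P : Finset ℕ) : Set ℕ) V W Q A B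
      (Real.exp (∑ p ∈ P, C / p)) hA hB (Real.exp_pos _).le hV hW (by
        intro i j
        rw [hset]
        refine ih' (part l i V) (part l j W) (qpart l i j Q) _ _ (by positivity) (by positivity)
          (part_pos hV) (part_pos hW) ?_
        intro z hz
        simp only [qpart, Finset.mem_image, Finset.mem_filter] at hz
        obtain ⟨u, ⟨hu, -⟩, rfl⟩ := hz
        obtain ⟨h1, h2⟩ := hQ u hu
        constructor
        · refine Nat.cast_div_le.trans ?_
          push_cast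
          gcongr
        · refine Nat.cast_div_le.trans ?_
          push_cast
          gcongr)
    refine hm.trans ?_
    rw [Finset.sum_insert hl, Real.exp_add]
    have hb := bq_nonneg t α β hA hB Q V W
    have h1 : ((part l m V).card : ℝ) / V.card ≤ 1 :=
      div_le_one_of_le₀ (by exact_mod_cast part_card_le l m V) (Nat.cast_nonneg _)
    have h2 : ((part l m W).card : ℝ) / W.card ≤ 1 :=
      div_le_one_of_le₀ (by exact_mod_cast part_card_le l m W) (Nat.cast_nonneg _)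
    have h3 : (1 - c * ((1 - ((part l m V).card : ℝ) / V.card) +
        (1 - ((part l m W).card : ℝ) / W.card)) + C / l) ≤ Real.exp (C / l) := by
      have h5 := Real.add_one_le_exp (C / l)
      have h6 : 0 ≤ c * ((1 - ((part l m V).card : ℝ) / V.card) +
        (1 - ((part l m W).card : ℝ) / W.card)) := mul_nonneg hc.le (by linarith)
      linarith
    calc Real.exp (∑ p ∈ P, C / p) * bq t α β A B Q V W *
        (1 - c * ((1 - ((part l m V).card : ℝ) / V.card) +
        (1 - ((part l m W).card : ℝ) / W.card)) + C / l)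
        ≤ Real.exp (∑ p ∈ P, C / p) * bq t α β A B Q V W * Real.exp (C / l) :=
          mul_le_mul_of_nonneg_left h3 (by positivity)
      _ = _ := by ring

end Pool.Agent.MP_0863b8.C1

end

section

/-! The node inequality. -/

set_option autoImplicit false

namespace Pool.Agent.MP_0863b8.C1

open Pool.Agent.MP_0863b8

open Finset

private theorem nd_geo_aux (ρ : ℝ) (h0 : 0 ≤ ρ) (h1 : ρ < 1) (s : Finset ℕ) :
    ∑ k ∈ s, ρ ^ (k + 1) ≤ ρ / (1 - ρ) := by
  have hs : Summable fun k : ℕ => ρ ^ (k + 1) := by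
    simp only [pow_succ]
    exact (summable_geometric_of_lt_one h0 h1).mul_right ρ
  refine (hs.sum_le_tsum s (fun i _ => by positivity)).trans (le_of_eq ?_)
  simp only [pow_succ]
  rw [tsum_mul_right, tsum_geometric_of_lt_one h0 h1]
  ring

/-- sum of `ρ ^ |i - j|` over `j ≠ i` -/
private theorem nd_geo (ρ : ℝ) (h0 : 0 ≤ ρ) (h1 : ρ < 1) (i N : ℕ) :
    ∑ j ∈ range N, (if j = i then 0 else ρ ^ Nat.dist i j) ≤ 2 * (ρ / (1 - ρ)) := by
  have e1 : ∀ j ∈ range N, (if j = i then 0 else ρ ^ Nat.dist i j) =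
      (if j < i then ρ ^ (i - j - 1 + 1) else 0) + (if i < j then ρ ^ (j - i - 1 + 1) else 0) := by
    intro j _
    rcases lt_trichotomy j i with h | h | h
    · rw [if_neg h.ne, if_pos h, if_neg (by omega), add_zero]
      congr 1
      unfold Nat.dist
      omega
    · rw [if_pos h, if_neg (by omega), if_neg (by omega), add_zero]
    · rw [if_neg h.ne', if_neg (by omega), if_pos h, zero_add]
      congr 1
      unfold Nat.dist
      omega
  rw [sum_congr rfl e1, sum_add_distrib, ← sum_filter, ← sum_filter, two_mul]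
  refine add_le_add ?_ ?_
  · have hinj : Set.InjOn (fun j => i - j - 1) ((range N).filter fun j => j < i) := by
      intro a ha b hb hab
      simp only [coe_filter, Set.mem_ofPred_eq] at ha hb
      simp only at hab
      omega
    rw [← sum_image (f := fun k => ρ ^ (k + 1)) hinj]
    exact nd_geo_aux ρ h0 h1 _
  · have hinj : Set.InjOn (fun j => j - i - 1) ((range N).filter fun j => i < j) := by
      intro a ha b hb hab
      simp only [coe_filter, Set.mem_ofPred_eq] at ha hb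
      simp only at hab
      omega
    rw [← sum_image (f := fun k => ρ ^ (k + 1)) hinj]
    exact nd_geo_aux ρ h0 h1 _

private theorem nd_dist_cast (i j : ℕ) : |(i : ℝ) - j| = ((Nat.dist i j : ℕ) : ℝ) := by
  rcases le_total i j with h | h
  · rw [Nat.dist_eq_sub_of_le h, Nat.cast_sub h, abs_sub_comm, abs_of_nonneg]
    exact sub_nonneg.2 (by exact_mod_cast h)
  · rw [Nat.dist_eq_sub_of_le_right h, Nat.cast_sub h, abs_of_nonneg]
    exact sub_nonneg.2 (by exact_mod_cast h)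

private theorem nd_bern (w a : ℝ) (hw : 0 ≤ w) (hw1 : w ≤ 1) (ha : a ≤ 1) :
    (1 - a) ^ w ≤ 1 - w * a := by
  have h := Real.geom_mean_le_arith_mean2_weighted (w₁ := w) (w₂ := 1 - w) (p₁ := 1 - a)
    (p₂ := 1) hw (by linarith) (by linarith) zero_le_one (by ring)
  rw [Real.one_rpow, mul_one] at h
  linarith

/-- the off-diagonal terms -/
private theorem nd_pair (e : ℝ) (he : 1/2 ≤ e) (t a b : ℝ) (ht : 0 < t) (ha : 0 ≤ a) (hb : 0 ≤ b)
    (hb1 : b ≤ 1) (hat : a ≤ t) :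
    (a * b) ^ e ≤ t ^ e / 2 * (a / t + b) := by
  have h1 : (a * b) ^ e = t ^ e * ((a / t) ^ e * b ^ e) := by
    rw [← Real.mul_rpow (by positivity) hb, ← Real.mul_rpow ht.le (by positivity)]
    congr 1
    field_simp
  have h2 : (a / t) ^ e ≤ Real.sqrt (a / t) := by
    rw [Real.sqrt_eq_rpow]
    exact Real.rpow_le_rpow_of_exponent_ge' (by positivity) ((div_le_one ht).2 hat)
      (by norm_num) he
  have h3 : b ^ e ≤ Real.sqrt b := by
    rw [Real.sqrt_eq_rpow]
    exact Real.rpow_le_rpow_of_exponent_ge' hb hb1 (by norm_num) he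
  have h4 : Real.sqrt (a / t) * Real.sqrt b ≤ (a / t + b) / 2 := by
    have e1 := Real.sq_sqrt (show 0 ≤ a / t by positivity)
    have e2 := Real.sq_sqrt hb
    nlinarith [sq_nonneg (Real.sqrt (a / t) - Real.sqrt b)]
  rw [h1]
  have h5 : (a / t) ^ e * b ^ e ≤ (a / t + b) / 2 :=
    (mul_le_mul h2 h3 (by positivity) (Real.sqrt_nonneg _)).trans h4
  calc t ^ e * ((a / t) ^ e * b ^ e)
      ≤ t ^ e * ((a / t + b) / 2) :=
        mul_le_mul_of_nonneg_left h5 (Real.rpow_nonneg ht.le _)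
    _ = t ^ e / 2 * (a / t + b) := by ring

/-- the off-diagonal sum -/
private theorem nd_off (e : ℝ) (he : 1/2 ≤ e) (ρ : ℝ) (h0 : 0 ≤ ρ) (h1 : ρ < 1) (N : ℕ) (x y : ℕ → ℝ)
    (hx : ∀ i, 0 ≤ x i) (hy : ∀ i, 0 ≤ y i) (hX : ∑ i ∈ range N, x i ≤ 1)
    (hY : ∑ i ∈ range N, y i ≤ 1) (m : ℕ) (hm : m < N) (t : ℝ) (ht0 : 0 ≤ t)
    (htx : 1 - x m ≤ t) (hty : 1 - y m ≤ t) :
    ∑ i ∈ range N, ∑ j ∈ range N,
      (if j = i then 0 else ρ ^ Nat.dist i j * (x i * y j) ^ e) ≤
      4 * (ρ / (1 - ρ)) * t ^ e := by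
  have hxle : ∀ i ∈ range N, x i ≤ 1 := fun i hi =>
    (single_le_sum (fun j _ => hx j) hi).trans hX
  have hyle : ∀ i ∈ range N, y i ≤ 1 := fun i hi =>
    (single_le_sum (fun j _ => hy j) hi).trans hY
  have hmr : m ∈ range N := mem_range.2 hm
  have hxe : ∑ i ∈ (range N).erase m, x i ≤ t := by
    have := add_sum_erase (range N) x hmr
    linarith
  have hye : ∑ i ∈ (range N).erase m, y i ≤ t := by
    have := add_sum_erase (range N) y hmr
    linarith
  have hxt : ∀ i ∈ range N, i ≠ m → x i ≤ t := fun i hi him =>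
    (single_le_sum (fun j _ => hx j) (mem_erase.2 ⟨him, hi⟩)).trans hxe
  have hyt : ∀ i ∈ range N, i ≠ m → y i ≤ t := fun i hi him =>
    (single_le_sum (fun j _ => hy j) (mem_erase.2 ⟨him, hi⟩)).trans hye
  have hρ : 0 ≤ ρ / (1 - ρ) := div_nonneg h0 (by linarith)
  rcases ht0.eq_or_lt with ht | ht
  · -- t = 0: everything vanishes
    have hz : ∑ i ∈ range N, ∑ j ∈ range N,
        (if j = i then 0 else ρ ^ Nat.dist i j * (x i * y j) ^ e) = 0 := by
      refine sum_eq_zero fun i hi => sum_eq_zero fun j hj => ?_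
      split_ifs with hij
      · rfl
      · have hxy : x i * y j = 0 := by
          by_cases him : i = m
          · have hjm : j ≠ m := fun h => hij (h.trans him.symm)
            have := hyt j hj hjm
            rw [le_antisymm (this.trans ht.symm.le) (hy j), mul_zero]
          · have := hxt i hi him
            rw [le_antisymm (this.trans ht.symm.le) (hx i), zero_mul]
        rw [hxy, Real.zero_rpow (by linarith), mul_zero]
    rw [hz]
    have := Real.rpow_nonneg ht0 e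
    positivity
  · let u : ℕ → ℝ := fun i => x i + if i = m then 0 else x i / t
    let v : ℕ → ℝ := fun j => y j + if j = m then 0 else y j / t
    have hu0 : ∀ i, 0 ≤ u i := by
      intro i
      simp only [u]
      split_ifs
      · linarith [hx i]
      · have := hx i; positivity
    have hv0 : ∀ i, 0 ≤ v i := by
      intro i
      simp only [v]
      split_ifs
      · linarith [hy i]
      · have := hy i; positivity
    have hsumu : ∑ i ∈ range N, u i ≤ 2 := by
      simp only [u]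
      rw [sum_add_distrib]
      have : ∑ i ∈ range N, (if i = m then 0 else x i / t) = (∑ i ∈ (range N).erase m, x i) / t := by
        rw [sum_div, ← sum_erase_add _ _ hmr, if_pos rfl, add_zero]
        refine sum_congr rfl fun i hi => ?_
        rw [if_neg (mem_erase.1 hi).1]
      rw [this]
      have h2 : (∑ i ∈ (range N).erase m, x i) / t ≤ 1 := (div_le_one ht).2 hxe
      linarith
    have hsumv : ∑ i ∈ range N, v i ≤ 2 := by
      simp only [v]
      rw [sum_add_distrib]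
      have : ∑ i ∈ range N, (if i = m then 0 else y i / t) = (∑ i ∈ (range N).erase m, y i) / t := by
        rw [sum_div, ← sum_erase_add _ _ hmr, if_pos rfl, add_zero]
        refine sum_congr rfl fun i hi => ?_
        rw [if_neg (mem_erase.1 hi).1]
      rw [this]
      have h2 : (∑ i ∈ (range N).erase m, y i) / t ≤ 1 := (div_le_one ht).2 hye
      linarith
    set T : ℝ := t ^ e / 2 with hT
    have hT0 : 0 ≤ T := by rw [hT]; positivity
    have hpt : ∀ i ∈ range N, ∀ j ∈ range N,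
        (if j = i then 0 else ρ ^ Nat.dist i j * (x i * y j) ^ e) ≤
        T * ((if j = i then 0 else ρ ^ Nat.dist i j) * u i +
          (if i = j then 0 else ρ ^ Nat.dist j i) * v j) := by
      intro i hi j hj
      by_cases hij : j = i
      · rw [if_pos hij, if_pos hij, if_pos hij.symm]
        simp
      · rw [if_neg hij, if_neg hij, if_neg (Ne.symm hij), Nat.dist_comm j i]
        have hp : (x i * y j) ^ e ≤ T * (u i + v j) := by
          by_cases him : i = m
          · have hjm : j ≠ m := fun h => hij (h.trans him.symm)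
            have h3 := nd_pair e he t (y j) (x i) ht (hy j) (hx i) (hxle i hi) (hyt j hj hjm)
            rw [mul_comm (y j)] at h3
            refine h3.trans (mul_le_mul_of_nonneg_left ?_ hT0)
            simp only [u, v]
            rw [if_pos him, if_neg hjm]
            linarith [hy j]
          · have h3 := nd_pair e he t (x i) (y j) ht (hx i) (hy j) (hyle j hj) (hxt i hi him)
            refine h3.trans (mul_le_mul_of_nonneg_left ?_ hT0)
            have h4 : y j ≤ v j := by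
              simp only [v]
              split_ifs
              · linarith
              · have := hy j
                have h5 : 0 ≤ y j / t := by positivity
                linarith
            simp only [u]
            rw [if_neg him]
            linarith [hx i]
        calc ρ ^ Nat.dist i j * (x i * y j) ^ e ≤ ρ ^ Nat.dist i j * (T * (u i + v j)) :=
              mul_le_mul_of_nonneg_left hp (pow_nonneg h0 _)
          _ = T * (ρ ^ Nat.dist i j * u i + ρ ^ Nat.dist i j * v j) := by ring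
    refine (sum_le_sum fun i hi => sum_le_sum fun j hj => hpt i hi j hj).trans ?_
    have e1 : ∑ i ∈ range N, ∑ j ∈ range N, T * ((if j = i then 0 else ρ ^ Nat.dist i j) * u i +
          (if i = j then 0 else ρ ^ Nat.dist j i) * v j) =
        T * (∑ i ∈ range N, (∑ j ∈ range N, (if j = i then 0 else ρ ^ Nat.dist i j)) * u i +
          ∑ j ∈ range N, (∑ i ∈ range N, (if i = j then 0 else ρ ^ Nat.dist j i)) * v j) := by
      simp only [← mul_sum]
      congr 1
      simp only [sum_add_distrib]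
      congr 1
      · refine sum_congr rfl fun i _ => ?_
        rw [sum_mul]
      · rw [sum_comm]
        refine sum_congr rfl fun i _ => ?_
        rw [sum_mul]
    rw [e1]
    have h5 : ∑ i ∈ range N, (∑ j ∈ range N, (if j = i then 0 else ρ ^ Nat.dist i j)) * u i ≤
        2 * (ρ / (1 - ρ)) * 2 := by
      calc _ ≤ ∑ i ∈ range N, 2 * (ρ / (1 - ρ)) * u i :=
            sum_le_sum fun i _ => mul_le_mul_of_nonneg_right (nd_geo ρ h0 h1 i N) (hu0 i)
        _ = 2 * (ρ / (1 - ρ)) * ∑ i ∈ range N, u i := by rw [mul_sum]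
        _ ≤ _ := mul_le_mul_of_nonneg_left hsumu (by positivity)
    have h6 : ∑ j ∈ range N, (∑ i ∈ range N, (if i = j then 0 else ρ ^ Nat.dist j i)) * v j ≤
        2 * (ρ / (1 - ρ)) * 2 := by
      calc _ ≤ ∑ i ∈ range N, 2 * (ρ / (1 - ρ)) * v i :=
            sum_le_sum fun i _ => mul_le_mul_of_nonneg_right (nd_geo ρ h0 h1 i N) (hv0 i)
        _ = 2 * (ρ / (1 - ρ)) * ∑ i ∈ range N, v i := by rw [mul_sum]
        _ ≤ _ := mul_le_mul_of_nonneg_left hsumv (by positivity)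
    calc T * _ ≤ T * (2 * (ρ / (1 - ρ)) * 2 + 2 * (ρ / (1 - ρ)) * 2) :=
          mul_le_mul_of_nonneg_left (add_le_add h5 h6) hT0
      _ = 4 * (ρ / (1 - ρ)) * t ^ e := by rw [hT]; ring

/-- the diagonal sum -/
private theorem nd_diag (e : ℝ) (he : 1/2 < e) (N : ℕ) (x y : ℕ → ℝ)
    (hx : ∀ i, 0 ≤ x i) (hy : ∀ i, 0 ≤ y i) (hX : ∑ i ∈ range N, x i ≤ 1)
    (hY : ∑ i ∈ range N, y i ≤ 1) (m : ℕ) (hmax : ∀ i ∈ range N, x i * y i ≤ x m * y m) :
    ∑ i ∈ range N, (x i * y i) ^ e ≤ ((x m + y m) / 2) ^ (2 * e - 1) := by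
  have h1 : ∀ i ∈ range N, (x i * y i) ^ e ≤
      ((x m + y m) / 2) ^ (2 * e - 1) * (Real.sqrt (x i) * Real.sqrt (y i)) := by
    intro i hi
    have hxy : 0 ≤ x i * y i := mul_nonneg (hx i) (hy i)
    have e1 : (x i * y i) ^ e = (x i * y i) ^ (e - 1/2) * Real.sqrt (x i * y i) := by
      rw [Real.sqrt_eq_rpow, ← Real.rpow_add_of_nonneg hxy (by linarith) (by norm_num)]
      congr 1
      ring
    have e2 : (x i * y i) ^ (e - 1/2) ≤ ((x m + y m) / 2) ^ (2 * e - 1) := by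
      have e3 : (x i * y i) ^ (e - 1/2) ≤ (((x m + y m) / 2) ^ 2) ^ (e - 1/2) := by
        refine Real.rpow_le_rpow hxy ((hmax i hi).trans ?_) (by linarith)
        nlinarith [sq_nonneg (x m - y m)]
      refine e3.trans (le_of_eq ?_)
      have h2 : 0 ≤ (x m + y m) / 2 := by linarith [hx m, hy m]
      rw [← Real.rpow_natCast, ← Real.rpow_mul h2]
      congr 1
      push_cast
      ring
    rw [e1, Real.sqrt_mul (hx i)]
    exact mul_le_mul_of_nonneg_right e2 (by positivity)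
  refine (sum_le_sum h1).trans ?_
  rw [← mul_sum]
  have h2 := Real.sum_sqrt_mul_sqrt_le (range N) hx hy
  have h3 : Real.sqrt (∑ i ∈ range N, x i) * Real.sqrt (∑ i ∈ range N, y i) ≤ 1 := by
    have a1 : Real.sqrt (∑ i ∈ range N, x i) ≤ 1 := Real.sqrt_le_one.2 hX
    have a2 : Real.sqrt (∑ i ∈ range N, y i) ≤ 1 := Real.sqrt_le_one.2 hY
    exact mul_le_one₀ a1 (Real.sqrt_nonneg _) a2
  have h4 : 0 ≤ ((x m + y m) / 2) ^ (2 * e - 1) :=
    Real.rpow_nonneg (by linarith [hx m, hy m]) _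
  calc _ ≤ ((x m + y m) / 2) ^ (2 * e - 1) * 1 :=
        mul_le_mul_of_nonneg_left (h2.trans h3) h4
    _ = _ := mul_one _

/-- final numerical estimate -/
private theorem nd_final (e α β : ℝ) (hE : Ex e α β) (s f K l : ℝ) (hs0 : 0 ≤ s) (hs1 : s ≤ 1)
    (hf0 : 0 ≤ f) (hf1 : f ≤ 1) (hK : 0 < K) (hl : 0 < l) :
    (1 - f) ^ α * (1 - s) ^ (2 * e - 1) + f ^ α * (K * l ^ (-β) * s ^ e) ≤
    1 - ((2 * e - 1) / 4) * s +
      (β * (K ^ (1/β) * ((2 * e - 1) / 4) ^ (-((1 - β) / β)))) / l := by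
  obtain ⟨ht, ha, hb, hsum⟩ := hE
  have he1 : e ≤ 1 := by linarith
  have ha1 : α ≤ 1/2 := by linarith
  have hγ0 : 0 < 2 * e - 1 := by linarith
  have hγ1 : 2 * e - 1 ≤ 1 := by linarith
  have h1 := nd_bern α f ha.le (by linarith) hf1
  have h2 := nd_bern (2 * e - 1) s (by linarith) hγ1 hs1
  have h3 : (1 - f) ^ α * (1 - s) ^ (2 * e - 1) ≤ (1 - α * f) * (1 - (2 * e - 1) * s) :=
    mul_le_mul h1 h2 (Real.rpow_nonneg (by linarith) _) (by nlinarith)
  set ε : ℝ := (2 * e - 1) / 4 with hε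
  have hε0 : 0 < ε := by rw [hε]; linarith
  have hεK : 0 < K ^ (1/β) * ε ^ (-((1 - β) / β)) := by positivity
  have h4 := Real.geom_mean_le_arith_mean3_weighted (w₁ := e) (w₂ := α) (w₃ := β)
    (p₁ := ε * s) (p₂ := ε * f) (p₃ := K ^ (1/β) * ε ^ (-((1 - β) / β)) / l) (by linarith) ha.le
    hb.le (by positivity) (by positivity) (by positivity) hsum
  have h5 : (ε * s) ^ e * (ε * f) ^ α * (K ^ (1/β) * ε ^ (-((1 - β) / β)) / l) ^ β =
      f ^ α * (K * l ^ (-β) * s ^ e) := by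
    rw [Real.mul_rpow hε0.le hs0, Real.mul_rpow hε0.le hf0,
      Real.div_rpow hεK.le hl.le, Real.mul_rpow (by positivity) (by positivity)]
    have a1 : (K ^ (1/β)) ^ β = K := by
      rw [← Real.rpow_mul hK.le, one_div, inv_mul_cancel₀ hb.ne', Real.rpow_one]
    have a2 : (ε ^ (-((1 - β) / β))) ^ β = (ε ^ e * ε ^ α)⁻¹ := by
      rw [← Real.rpow_mul hε0.le, ← Real.rpow_add hε0, ← Real.rpow_neg hε0.le]
      congr 1
      field_simp
      linarith
    rw [a1, a2, Real.rpow_neg hl.le]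
    have b1 : ε ^ e ≠ 0 := by positivity
    have b2 : ε ^ α ≠ 0 := by positivity
    field_simp
  rw [h5] at h4
  have h6 : β * (K ^ (1/β) * ε ^ (-((1 - β) / β)) / l) =
      (β * (K ^ (1/β) * ε ^ (-((1 - β) / β)))) / l := by ring
  rw [h6] at h4
  have h7 : e * (ε * s) ≤ ε * s := by nlinarith [mul_nonneg hε0.le hs0]
  have h8 : α * (ε * f) ≤ α * f / 4 := by
    have : ε ≤ 1/4 := by rw [hε]; linarith
    nlinarith [mul_nonneg ha.le hf0]
  have h9 : (1 - α * f) * (1 - (2 * e - 1) * s) ≤ 1 - (α * f + (2 * e - 1) * s) / 2 := by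
    have c1 : α * f ≤ 1 := by nlinarith
    have c2 : (2 * e - 1) * s ≤ 1 := by nlinarith
    have c3 : 0 ≤ α * f := by positivity
    have c4 : 0 ≤ (2 * e - 1) * s := by positivity
    nlinarith [mul_nonneg c3 c4, mul_nonneg (sub_nonneg.2 c1) c4, mul_nonneg (sub_nonneg.2 c2) c3]
  have h10 : (2 * e - 1) * s = 4 * (ε * s) := by rw [hε]; ring
  nlinarith [mul_nonneg ha.le hf0, mul_nonneg hε0.le hs0]

theorem nodeQ : NodeQ := by
  intro e α β hE
  obtain ⟨ht, ha, hb, hsum⟩ := hE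
  have he : 1/2 ≤ e := ht.le
  set ρ0 : ℝ := (2:ℝ) ^ (-β) with hρ0
  have hρ01 : ρ0 < 1 := Real.rpow_lt_one_of_one_lt_of_neg (by norm_num) (by linarith)
  have hρ00 : 0 < ρ0 := by rw [hρ0]; positivity
  set K : ℝ := 4 / (1 - ρ0) * 2 ^ e with hK
  have hK0 : 0 < K := by
    rw [hK]
    have : 0 < 1 - ρ0 := by linarith
    positivity
  have hγ0 : 0 < (2 * e - 1) / 4 := by linarith
  refine ⟨β * (K ^ (1/β) * ((2 * e - 1) / 4) ^ (-((1 - β) / β))), (2 * e - 1) / 8,
    by positivity, by linarith, ?_⟩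
  intro l hl N hN x y F hx hy hF hX hY hFs
  have hl0 : 0 < l := by linarith
  set ρ : ℝ := l ^ (-β) with hρ
  have hρpos : 0 < ρ := by rw [hρ]; positivity
  have hρle : ρ ≤ ρ0 := by
    rw [hρ, hρ0]
    exact Real.rpow_le_rpow_of_nonpos (by norm_num) hl (by linarith)
  have hρ1 : ρ < 1 := hρle.trans_lt hρ01
  obtain ⟨m, hm, hmax⟩ := exists_max_image (range N) (fun i => x i * y i) ⟨0, mem_range.2 hN⟩
  have hmN : m < N := mem_range.1 hm
  refine ⟨m, hmN, ?_⟩
  have hxm : x m ≤ 1 := (single_le_sum (fun j _ => hx j) hm).trans hX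
  have hym : y m ≤ 1 := (single_le_sum (fun j _ => hy j) hm).trans hY
  set s : ℝ := ((1 - x m) + (1 - y m)) / 2 with hs
  have hs0 : 0 ≤ s := by rw [hs]; linarith
  have hs1 : s ≤ 1 := by rw [hs]; linarith [hx m, hy m]
  -- the total of F outside zero
  set fb : ℝ := ∑ k ∈ (Finset.Icc (-(N:ℤ)) N).erase 0, F k with hfb
  have h0mem : (0:ℤ) ∈ Finset.Icc (-(N:ℤ)) N := by rw [Finset.mem_Icc]; omega
  have hfsum : F 0 + fb ≤ 1 := by
    rw [hfb, add_sum_erase _ _ h0mem]
    exact hFs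
  have hfb0 : 0 ≤ fb := sum_nonneg fun k _ => hF k
  have hfb1 : fb ≤ 1 := by linarith [hF 0]
  have hFk : ∀ i ∈ range N, ∀ j ∈ range N, j ≠ i → F ((i:ℤ) - j) ≤ fb := by
    intro i hi j hj hij
    rw [mem_range] at hi hj
    refine single_le_sum (f := F) (fun k _ => hF k) ?_
    rw [mem_erase, Finset.mem_Icc]
    refine ⟨?_, ?_, ?_⟩ <;> omega
  -- pointwise comparison
  have hw : ∀ i j : ℕ, l ^ (-(β * |(i:ℝ) - j|)) = ρ ^ Nat.dist i j := by
    intro i j
    rw [nd_dist_cast, hρ, ← Real.rpow_natCast, ← Real.rpow_mul hl0.le]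
    congr 1
    ring
  have hpt : ∀ i ∈ range N, ∀ j ∈ range N,
      l ^ (-(β * |(i:ℝ) - j|)) * (F ((i:ℤ) - j)) ^ α * (x i * y j) ^ e ≤
      (if j = i then (F 0) ^ α * (x i * y i) ^ e else 0) +
      fb ^ α * (if j = i then 0 else ρ ^ Nat.dist i j * (x i * y j) ^ e) := by
    intro i hi j hj
    rw [hw]
    by_cases hij : j = i
    · subst hij
      rw [if_pos rfl, if_pos rfl, Nat.dist_self, sub_self]
      simp
    · rw [if_neg hij, if_neg hij, zero_add]
      have h1 : (F ((i:ℤ) - j)) ^ α ≤ fb ^ α :=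
        Real.rpow_le_rpow (hF _) (hFk i hi j hj hij) ha.le
      have h2 : 0 ≤ (x i * y j) ^ e := Real.rpow_nonneg (mul_nonneg (hx i) (hy j)) _
      have h3 : 0 ≤ ρ ^ Nat.dist i j := by positivity
      calc ρ ^ Nat.dist i j * (F ((i:ℤ) - j)) ^ α * (x i * y j) ^ e
          = (F ((i:ℤ) - j)) ^ α * (ρ ^ Nat.dist i j * (x i * y j) ^ e) := by ring
        _ ≤ _ := mul_le_mul_of_nonneg_right h1 (by positivity)
  refine (sum_le_sum fun i hi => sum_le_sum fun j hj => hpt i hi j hj).trans ?_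
  simp only [sum_add_distrib, ← mul_sum]
  have e1 : ∑ i ∈ range N, ∑ j ∈ range N,
      (if j = i then (F 0) ^ α * (x i * y i) ^ e else 0) =
      (F 0) ^ α * ∑ i ∈ range N, (x i * y i) ^ e := by
    rw [mul_sum]
    refine sum_congr rfl fun i hi => ?_
    rw [sum_ite_eq' (range N) i (fun _ => (F 0) ^ α * (x i * y i) ^ e), if_pos hi]
  rw [e1]
  have hdiag := nd_diag e ht N x y hx hy hX hY m hmax
  have hoff := nd_off e he ρ hρpos.le hρ1 N x y hx hy hX hY m hmN (2 * s) (by linarith)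
    (by rw [hs]; linarith) (by rw [hs]; linarith)
  have e2 : (x m + y m) / 2 = 1 - s := by rw [hs]; ring
  rw [e2] at hdiag
  have h1 : (F 0) ^ α * ∑ i ∈ range N, (x i * y i) ^ e ≤
      (1 - fb) ^ α * (1 - s) ^ (2 * e - 1) := by
    refine mul_le_mul ?_ hdiag ?_ ?_
    · exact Real.rpow_le_rpow (hF 0) (by linarith) ha.le
    · exact sum_nonneg fun i _ => Real.rpow_nonneg (mul_nonneg (hx i) (hy i)) _
    · exact Real.rpow_nonneg (by linarith) _
  have h2 : 4 * (ρ / (1 - ρ)) * (2 * s) ^ e ≤ K * ρ * s ^ e := by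
    rw [Real.mul_rpow (by norm_num) hs0, hK]
    have a1 : ρ / (1 - ρ) ≤ ρ / (1 - ρ0) :=
      div_le_div_of_nonneg_left hρpos.le (by linarith) (by linarith)
    have a2 : 0 ≤ (2:ℝ) ^ e * s ^ e := by positivity
    calc 4 * (ρ / (1 - ρ)) * ((2:ℝ) ^ e * s ^ e)
        ≤ 4 * (ρ / (1 - ρ0)) * ((2:ℝ) ^ e * s ^ e) :=
          mul_le_mul_of_nonneg_right (by linarith) a2
      _ = 4 / (1 - ρ0) * 2 ^ e * ρ * s ^ e := by ring
  have h3 := mul_le_mul_of_nonneg_left (hoff.trans h2) (Real.rpow_nonneg hfb0 α)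
  have hfin := nd_final e α β ⟨ht, ha, hb, hsum⟩ s fb K l hs0 hs1 hfb0 hfb1 hK0 hl0
  rw [← hρ] at hfin
  have e3 : (2 * e - 1) / 8 * ((1 - x m) + (1 - y m)) = (2 * e - 1) / 4 * s := by rw [hs]; ring
  rw [e3]
  linarith

end Pool.Agent.MP_0863b8.C1

end

section

namespace Pool.Agent.MP_0863b8.C1

open Pool.Agent.MP_0863b8

lemma bq_piece (t α β : ℝ) (hE : Ex t α β) (l i j : ℕ) (hl : 2 ≤ l) (A B : ℝ) (hA : 0 ≤ A) (hB : 0 ≤ B)
    (Q Q' : Finset (ℕ × ℕ)) (V W V' W' : Finset ℕ) (hQ : Q.Nonempty) (hV : V.Nonempty)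
    (hW : W.Nonempty) :
    bq t α β (A / (l:ℝ) ^ (i - j)) (B / (l:ℝ) ^ (j - i)) Q' V' W' =
      bq t α β A B Q V W * ((l:ℝ) ^ (-(β * |(i:ℝ) - j|)) * ((Q'.card : ℝ) / Q.card) ^ α *
        (((V'.card : ℝ) / V.card) * ((W'.card : ℝ) / W.card)) ^ t) := by
  have hl0 : (0:ℝ) < l := by
    have : 0 < l := by omega
    exact_mod_cast this
  have hQc : (0:ℝ) < Q.card := by exact_mod_cast hQ.card_pos
  have hVc : (0:ℝ) < V.card := by exact_mod_cast hV.card_pos
  have hWc : (0:ℝ) < W.card := by exact_mod_cast hW.card_pos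
  have e1 : (A / (l:ℝ) ^ (i - j)) * (B / (l:ℝ) ^ (j - i)) =
      (A * B) * ((l:ℝ) ^ (-(|(i:ℝ) - j|))) := by
    have e : (l:ℝ) ^ (-(|(i:ℝ) - j|)) = ((l:ℝ) ^ (i - j) * (l:ℝ) ^ (j - i))⁻¹ := by
      rw [← pow_add, Real.rpow_neg hl0.le, ← Real.rpow_natCast]
      congr 2
      rcases le_total i j with h | h
      · have : (i:ℝ) - j ≤ 0 := by
          have : (i:ℝ) ≤ j := by exact_mod_cast h
          linarith
        rw [abs_of_nonpos this]
        have h1 : i - j = 0 := by omega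
        rw [h1, Nat.zero_add, Nat.cast_sub h]
        ring
      · have : 0 ≤ (i:ℝ) - j := by
          have : (j:ℝ) ≤ i := by exact_mod_cast h
          linarith
        rw [abs_of_nonneg this]
        have h1 : j - i = 0 := by omega
        rw [h1, Nat.add_zero, Nat.cast_sub h]
    rw [e]
    field_simp
  have e2 : (((A / (l:ℝ) ^ (i - j)) * (B / (l:ℝ) ^ (j - i)))) ^ β =
      (A * B) ^ β * (l:ℝ) ^ (-(β * |(i:ℝ) - j|)) := by
    rw [e1, Real.mul_rpow (mul_nonneg hA hB) (Real.rpow_nonneg hl0.le _),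
      ← Real.rpow_mul hl0.le]
    congr 2
    ring
  have e3 : (Q'.card : ℝ) ^ α =
      (Q.card : ℝ) ^ α * ((Q'.card : ℝ) / Q.card) ^ α := by
    rw [← Real.mul_rpow hQc.le (by positivity)]
    congr 1
    field_simp
  have e4 : ((V'.card : ℝ) * W'.card) ^ t =
      ((V.card : ℝ) * W.card) ^ t *
        (((V'.card : ℝ) / V.card) * ((W'.card : ℝ) / W.card)) ^ t := by
    rw [← Real.mul_rpow (by positivity) (by positivity)]
    congr 1
    field_simp
  unfold bq
  rw [e2, e3, e4]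
  ring

theorem stepQ (h1 : NodeQ) (h2 : SplitStmt) : StepQ := by
  classical
  intro t α β hE
  obtain ⟨C, c, hC, hc, hnode⟩ := h1 t α β hE
  refine ⟨C, c, hC, hc, ?_⟩
  intro l hl P V W Q A B D hA hB hD hV hW hcnt
  by_cases hVe : V = ∅
  · refine ⟨0, ?_⟩
    subst hVe
    have := hE.ht
    have := hE.ha
    have h0 : t ≠ 0 := by linarith
    have h0' : α ≠ 0 := this.ne'
    simp [cnt, bq, h0, h0']
  by_cases hWe : W = ∅
  · refine ⟨0, ?_⟩
    subst hWe
    have := hE.ht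
    have := hE.ha
    have h0 : t ≠ 0 := by linarith
    have h0' : α ≠ 0 := this.ne'
    simp [cnt, bq, h0, h0']
  by_cases hQe : Q = ∅
  · refine ⟨0, ?_⟩
    subst hQe
    have := hE.ht
    have := hE.ha
    have h0 : t ≠ 0 := by linarith
    have h0' : α ≠ 0 := this.ne'
    simp [cnt, bq, h0, h0']
  have hVn : V.Nonempty := Finset.nonempty_iff_ne_empty.mpr hVe
  have hWn : W.Nonempty := Finset.nonempty_iff_ne_empty.mpr hWe
  have hQn : Q.Nonempty := Finset.nonempty_iff_ne_empty.mpr hQe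
  have hQc : (0:ℝ) < Q.card := by exact_mod_cast hQn.card_pos
  have hVc : (0:ℝ) < V.card := by exact_mod_cast hVn.card_pos
  have hWc : (0:ℝ) < W.card := by exact_mod_cast hWn.card_pos
  have hl2 : 2 ≤ l := hl.two_le
  set N : ℕ := (V ∪ W).sup (fun v => v.factorization l) + 1 with hN
  have hVN : ∀ v ∈ V, 0 < v ∧ v.factorization l < N := by
    intro v hv
    refine ⟨hV v hv, ?_⟩
    have := Finset.le_sup (f := fun v : ℕ => v.factorization l)
      (Finset.mem_union_left W hv)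
    omega
  have hWN : ∀ w ∈ W, 0 < w ∧ w.factorization l < N := by
    intro v hv
    refine ⟨hW v hv, ?_⟩
    have := Finset.le_sup (f := fun v : ℕ => v.factorization l)
      (Finset.mem_union_right V hv)
    omega
  have hsplit := h2 l hl P V W Q N hVN hWN
  obtain ⟨m, hmN, hm⟩ := hnode (l:ℝ) (by exact_mod_cast hl2) N (by omega)
    (fun i => ((part l i V).card : ℝ) / V.card) (fun j => ((part l j W).card : ℝ) / W.card)
    (fun k => ((qpart l k.toNat (-k).toNat Q).card : ℝ) / Q.card)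
    (fun i => by positivity) (fun i => by positivity) (fun i => by positivity)
    (by
      rw [← Finset.sum_div, div_le_one hVc]
      exact_mod_cast sum_card_part_le l N V)
    (by
      rw [← Finset.sum_div, div_le_one hWc]
      exact_mod_cast sum_card_part_le l N W)
    (by
      rw [← Finset.sum_div, div_le_one hQc]
      exact_mod_cast sum_card_qpart_le l _ Q)
  refine ⟨m, ?_⟩
  have hbn : 0 ≤ D * bq t α β A B Q V W := by
    unfold bq
    positivity
  calc (cnt P V W Q : ℝ)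
      ≤ ∑ i ∈ Finset.range N, ∑ j ∈ Finset.range N,
        (cnt (P \ {l}) (part l i V) (part l j W) (qpart l i j Q) : ℝ) := by
        exact_mod_cast hsplit
    _ ≤ ∑ i ∈ Finset.range N, ∑ j ∈ Finset.range N,
        D * bq t α β A B Q V W * ((l:ℝ) ^ (-(β * |(i:ℝ) - j|)) *
          (((qpart l ((i:ℤ) - j).toNat (-((i:ℤ) - j)).toNat Q).card : ℝ) / Q.card) ^ α *
          ((((part l i V).card : ℝ) / V.card) * (((part l j W).card : ℝ) / W.card)) ^
            t) := by
        refine Finset.sum_le_sum (fun i _ => Finset.sum_le_sum (fun j _ => ?_))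
        refine le_trans (hcnt i j) ?_
        rw [bq_piece t α β hE l i j hl2 A B hA hB Q _ V W _ _ hQn hVn hWn]
        have e1 : ((i:ℤ) - j).toNat = i - j := by omega
        have e2 : (-((i:ℤ) - j)).toNat = j - i := by omega
        rw [e1, e2, qpart_trunc]
        exact le_of_eq (by ring)
    _ = D * bq t α β A B Q V W * ∑ i ∈ Finset.range N, ∑ j ∈ Finset.range N,
        ((l:ℝ) ^ (-(β * |(i:ℝ) - j|)) *
          (((qpart l ((i:ℤ) - j).toNat (-((i:ℤ) - j)).toNat Q).card : ℝ) / Q.card) ^ α *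
          ((((part l i V).card : ℝ) / V.card) * (((part l j W).card : ℝ) / W.card)) ^
            t) := by
        rw [Finset.mul_sum]
        refine Finset.sum_congr rfl (fun i _ => ?_)
        rw [Finset.mul_sum]
    _ ≤ _ := mul_le_mul_of_nonneg_left hm hbn

end Pool.Agent.MP_0863b8.C1

end

section

/-! The tree inequality. -/

set_option autoImplicit false

namespace Pool.Agent.MP_0863b8.C1

open Pool.Agent.MP_0863b8

open Finset

private theorem tr_injOn (l i : ℕ) (V : Finset ℕ) :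
    Set.InjOn (fun v => v / l ^ i) (V.filter (fun v => v.factorization l = i)) := by
  intro a ha b hb hab
  rw [mem_coe, mem_filter] at ha hb
  simp only at hab
  have h1 : l ^ i ∣ a := by
    have := Nat.ordProj_dvd a l
    rwa [ha.2] at this
  have h2 : l ^ i ∣ b := by
    have := Nat.ordProj_dvd b l
    rwa [hb.2] at this
  rw [← Nat.div_mul_cancel h1, hab, Nat.div_mul_cancel h2]

private theorem tr_card_part_le (l i : ℕ) (V : Finset ℕ) : (part l i V).card ≤ V.card :=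
  card_image_le.trans (card_filter_le _ _)

private theorem tr_sum_part (l i : ℕ) (V : Finset ℕ) :
    ∑ u ∈ part l i V, u = ∑ v ∈ V.filter (fun v => v.factorization l = i), v / l ^ i := by
  unfold part
  exact sum_image (f := fun u => u) (tr_injOn l i V)

private theorem tr_sum_part_le (l i : ℕ) (V : Finset ℕ) : ∑ u ∈ part l i V, u ≤ ∑ v ∈ V, v := by
  rw [tr_sum_part]
  calc ∑ v ∈ V.filter (fun v => v.factorization l = i), v / l ^ i
      ≤ ∑ v ∈ V.filter (fun v => v.factorization l = i), v :=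
        sum_le_sum fun v _ => Nat.div_le_self _ _
    _ ≤ ∑ v ∈ V, v := sum_le_sum_of_subset (filter_subset _ _)

private theorem tr_sum_pos (V : Finset ℕ) (hne : V.Nonempty) (hpos : ∀ v ∈ V, 0 < v) :
    0 < ∑ v ∈ V, v := sum_pos hpos hne

private theorem tr_sum_part_lt (l i : ℕ) (hl : l.Prime) (hi : 1 ≤ i) (V : Finset ℕ)
    (hne : V.Nonempty) (hpos : ∀ v ∈ V, 0 < v) : ∑ u ∈ part l i V, u < ∑ v ∈ V, v := by
  have h0 := tr_sum_pos V hne hpos
  have h1 : 2 * ∑ u ∈ part l i V, u ≤ ∑ v ∈ V, v := by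
    rw [tr_sum_part, mul_sum]
    calc ∑ v ∈ V.filter (fun v => v.factorization l = i), 2 * (v / l ^ i)
        ≤ ∑ v ∈ V.filter (fun v => v.factorization l = i), v := by
          refine sum_le_sum fun v _ => ?_
          have h2 : 2 ≤ l ^ i := by
            calc 2 ≤ l := hl.two_le
              _ = l ^ 1 := (pow_one l).symm
              _ ≤ l ^ i := Nat.pow_le_pow_right hl.pos hi
          calc 2 * (v / l ^ i) ≤ l ^ i * (v / l ^ i) := Nat.mul_le_mul_right _ h2
            _ ≤ v := Nat.mul_div_le v _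
      _ ≤ ∑ v ∈ V, v := sum_le_sum_of_subset (filter_subset _ _)
  omega

private theorem tr_sum_part_zero_lt (l : ℕ) (hl : l.Prime) (V : Finset ℕ)
    (hpos : ∀ v ∈ V, 0 < v) (v0 : ℕ) (hv0 : v0 ∈ V) (hd : l ∣ v0) :
    ∑ u ∈ part l 0 V, u < ∑ v ∈ V, v := by
  rw [tr_sum_part]
  calc ∑ v ∈ V.filter (fun v => v.factorization l = 0), v / l ^ 0
      = ∑ v ∈ V.filter (fun v => v.factorization l = 0), v := by simp
    _ < ∑ v ∈ V, v := by
        refine sum_lt_sum_of_subset (filter_subset _ _) hv0 ?_ (hpos v0 hv0)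
          (fun _ _ _ => Nat.zero_le _)
        rw [mem_filter]
        rintro ⟨_, h⟩
        have h2 := (hl.dvd_iff_one_le_factorization (hpos v0 hv0).ne').1 hd
        omega

private theorem tr_filter_dvd_lt (V : Finset ℕ) (hpos : ∀ v ∈ V, 0 < v) (p : ℕ)
    (h : (V.filter (fun v => p ∣ v)).card < V.card) :
    ∑ v ∈ V.filter (fun v => p ∣ v), v < ∑ v ∈ V, v := by
  have hss : V.filter (fun v => p ∣ v) ⊂ V := by
    refine (filter_subset _ _).ssubset_of_ne ?_
    intro he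
    rw [he] at h
    exact lt_irrefl _ h
  obtain ⟨v0, hv0, hn⟩ := exists_of_ssubset hss
  exact sum_lt_sum_of_subset hss.1 hv0 hn (hpos v0 hv0) (fun _ _ _ => Nat.zero_le _)

private theorem tr_part_pos (l i : ℕ) (V : Finset ℕ) (C1 : ℝ)
    (hV : ∀ v ∈ V, 0 < v ∧ rp v ≤ C1) : ∀ u ∈ part l i V, 0 < u ∧ rp u ≤ C1 := by
  intro u hu
  unfold part at hu
  rw [mem_image] at hu
  obtain ⟨v, hv, rfl⟩ := hu
  rw [mem_filter] at hv
  have hd : l ^ i ∣ v := by
    have := Nat.ordProj_dvd v l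
    rwa [hv.2] at this
  have hv0 := (hV v hv.1).1
  have hpos : 0 < v / l ^ i := Nat.div_pos (Nat.le_of_dvd hv0 hd) (Nat.pos_of_dvd_of_pos hd hv0)
  refine ⟨hpos, le_trans ?_ (hV v hv.1).2⟩
  unfold rp
  refine sum_le_sum_of_subset_of_nonneg ?_ (fun _ _ _ => by positivity)
  exact Nat.primeFactors_mono (Nat.div_dvd_of_dvd hd) hv0.ne'

private theorem tr_qpart_bd (l i j : ℕ) (Q : Finset (ℕ × ℕ)) (A B : ℝ)
    (hQ : ∀ z ∈ Q, (z.1 : ℝ) ≤ A ∧ (z.2 : ℝ) ≤ B) :
    ∀ t ∈ qpart l i j Q, (t.1 : ℝ) ≤ A / (l:ℝ) ^ (i - j) ∧ (t.2 : ℝ) ≤ B / (l:ℝ) ^ (j - i) := by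
  intro t ht
  unfold qpart at ht
  rw [mem_image] at ht
  obtain ⟨t', ht', rfl⟩ := ht
  rw [mem_filter] at ht'
  obtain ⟨h1, h2⟩ := hQ t' ht'.1
  constructor
  · refine (Nat.cast_div_le (α := ℝ)).trans ?_
    rw [Nat.cast_pow]
    exact div_le_div_of_nonneg_right h1 (by positivity)
  · refine (Nat.cast_div_le (α := ℝ)).trans ?_
    rw [Nat.cast_pow]
    exact div_le_div_of_nonneg_right h2 (by positivity)

open Classical in
/-- the set counted by `cnt` -/
private noncomputable def tr_set (P : Set ℕ) (V W : Finset ℕ) (Q : Finset (ℕ × ℕ)) :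
    Finset (ℕ × ℕ) :=
  (V ×ˢ W).filter (fun t => (t.1 / t.1.gcd t.2, t.2 / t.1.gcd t.2) ∈ Q ∧
    ∀ p ∈ (t.1.gcd t.2).primeFactors, p ∈ P)

private theorem tr_cnt_eq (P : Set ℕ) (V W : Finset ℕ) (Q : Finset (ℕ × ℕ)) :
    cnt P V W Q = (tr_set P V W Q).card := rfl

private theorem tr_mem (P : Set ℕ) (V W : Finset ℕ) (Q : Finset (ℕ × ℕ)) (t : ℕ × ℕ) :
    t ∈ tr_set P V W Q ↔ (t.1 ∈ V ∧ t.2 ∈ W) ∧ (t.1 / t.1.gcd t.2, t.2 / t.1.gcd t.2) ∈ Q ∧
    ∀ p ∈ (t.1.gcd t.2).primeFactors, p ∈ P := by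
  classical
  unfold tr_set
  rw [mem_filter, mem_product]

private theorem tr_cnt_mono (P P' : Set ℕ) (h : P ⊆ P') (V W : Finset ℕ) (Q : Finset (ℕ × ℕ)) :
    cnt P V W Q ≤ cnt P' V W Q := by
  rw [tr_cnt_eq, tr_cnt_eq]
  refine card_le_card fun t ht => ?_
  rw [tr_mem] at ht ⊢
  exact ⟨ht.1, ht.2.1, fun p hp => h (ht.2.2 p hp)⟩

private theorem tr_cnt_split (P : Set ℕ) (R : Finset ℕ) (V W : Finset ℕ) (Q : Finset (ℕ × ℕ))
    (hpos : ∀ v ∈ V, 0 < v) (hR : ∀ v ∈ V, ∀ p ∈ v.primeFactors, p ∈ P ∨ p ∈ R) :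
    cnt Set.univ V W Q ≤ cnt P V W Q +
      ∑ p ∈ R, cnt Set.univ (V.filter (fun v => p ∣ v)) (W.filter (fun w => p ∣ w)) Q := by
  classical
  have hsub : tr_set Set.univ V W Q ⊆ tr_set P V W Q ∪ R.biUnion (fun p =>
      tr_set Set.univ (V.filter (fun v => p ∣ v)) (W.filter (fun w => p ∣ w)) Q) := by
    intro t ht
    rw [tr_mem] at ht
    obtain ⟨⟨h1, h2⟩, h3, h4⟩ := ht
    rw [mem_union]
    by_cases hP : ∀ p ∈ (t.1.gcd t.2).primeFactors, p ∈ P
    · left
      rw [tr_mem]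
      exact ⟨⟨h1, h2⟩, h3, hP⟩
    · right
      push Not at hP
      obtain ⟨p, hp, hpP⟩ := hP
      have hpp := Nat.prime_of_mem_primeFactors hp
      have hpd := Nat.dvd_of_mem_primeFactors hp
      have hd1 : p ∣ t.1 := hpd.trans (Nat.gcd_dvd_left _ _)
      have hd2 : p ∣ t.2 := hpd.trans (Nat.gcd_dvd_right _ _)
      have hmem : p ∈ t.1.primeFactors := by
        rw [Nat.mem_primeFactors]
        exact ⟨hpp, hd1, (hpos _ h1).ne'⟩
      have hpR : p ∈ R := (hR _ h1 p hmem).resolve_left hpP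
      rw [mem_biUnion]
      refine ⟨p, hpR, ?_⟩
      rw [tr_mem, mem_filter, mem_filter]
      exact ⟨⟨⟨h1, hd1⟩, ⟨h2, hd2⟩⟩, h3, h4⟩
  rw [tr_cnt_eq, tr_cnt_eq]
  refine (card_le_card hsub).trans ((card_union_le _ _).trans ?_)
  exact Nat.add_le_add_left card_biUnion_le _

private theorem tr_bnd_nonneg (e α β : ℝ) (A B : ℝ) (hA : 0 ≤ A) (hB : 0 ≤ B) (Q : Finset (ℕ × ℕ))
    (V W : Finset ℕ) : 0 ≤ bq e α β A B Q V W := by
  unfold bq
  positivity

/-- smaller sets -/
private theorem tr_bnd_small (e α β : ℝ) (he : 0 < e) (A B : ℝ) (hA : 0 ≤ A) (hB : 0 ≤ B) (Q : Finset (ℕ × ℕ))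
    (V W V' W' : Finset ℕ) (ε : ℝ) (hε : 0 ≤ ε) (hV : (V'.card : ℝ) ≤ ε * V.card)
    (hW : (W'.card : ℝ) ≤ ε * W.card) :
    bq e α β A B Q V' W' ≤ bq e α β A B Q V W * ε ^ (2 * e) := by
  unfold bq
  have h1 : ((V'.card : ℝ) * W'.card) ^ e ≤
      (ε ^ 2 * ((V.card : ℝ) * W.card)) ^ e := by
    refine Real.rpow_le_rpow (by positivity) ?_ he.le
    calc (V'.card : ℝ) * W'.card ≤ (ε * V.card) * (ε * W.card) := by gcongr
      _ = ε ^ 2 * ((V.card : ℝ) * W.card) := by ring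
  have h2 : (ε ^ 2) ^ e = ε ^ (2 * e) := by
    rw [← Real.rpow_natCast, ← Real.rpow_mul hε]
    norm_num
  rw [Real.mul_rpow (x := ε ^ 2) (by positivity) (by positivity), h2] at h1
  calc (A * B) ^ β * (Q.card : ℝ) ^ α * ((V'.card : ℝ) * W'.card) ^ e
      ≤ (A * B) ^ β * (Q.card : ℝ) ^ α *
        (ε ^ (2 * e) * ((V.card : ℝ) * W.card) ^ e) := by
        have : 0 ≤ (A * B) ^ β * (Q.card : ℝ) ^ α := by positivity
        exact mul_le_mul_of_nonneg_left h1 this
    _ = _ := by ring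

private theorem tr_tail (e : ℝ) (he : 1/2 < e) (C2 : ℝ) (hC2 : 0 < C2) : ∃ z : ℕ, 2 * C2 + 2 ≤ z ∧
    ∀ s : Finset ℕ, (∀ n ∈ s, z < n) → ∑ n ∈ s, (C2 / n) ^ (2 * e) ≤ 1 / 2 := by
  have hsum : Summable fun n : ℕ => (C2 / n) ^ (2 * e) := by
    have h1 : Summable fun n : ℕ => C2 ^ (2 * e) * (1 / (n:ℝ) ^ (2 * e)) :=
      (Real.summable_one_div_nat_rpow.2 (by linarith)).mul_left _
    refine h1.congr fun n => ?_
    rw [Real.div_rpow hC2.le (Nat.cast_nonneg n)]
    ring
  obtain ⟨s0, hs0⟩ := (summable_iff_vanishing_norm.1 hsum) (1/2) (by norm_num)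
  obtain ⟨z1, hz1⟩ := exists_nat_ge (2 * C2 + 2)
  refine ⟨max z1 (s0.sup id), ?_, ?_⟩
  · refine hz1.trans ?_
    exact_mod_cast le_max_left _ _
  · intro s hs
    have hdis : Disjoint s s0 := by
      rw [disjoint_left]
      intro n hn hn0
      have h1 := hs n hn
      have h2 : n ≤ s0.sup id := le_sup (f := id) hn0
      have h3 := le_max_right z1 (s0.sup id)
      omega
    have := hs0 s hdis
    exact (le_abs_self _).trans (by rw [← Real.norm_eq_abs]; exact this.le)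

theorem treeQ (h1 : StepQ) (h2 : FinQ) : TreeQ := by
  classical
  intro e α β hE
  obtain ⟨Cs, c, hCs, hc, step⟩ := h1 e α β hE
  obtain ⟨Cf, hCf, fin⟩ := h2 e α β hE
  have he : 0 < e := by linarith [hE.ht]
  intro C1
  obtain ⟨z, hz, htail⟩ := tr_tail e hE.ht (Cs / c) (by positivity)
  set C2 : ℝ := Cs / c with hC2
  have hC2pos : 0 < C2 := by rw [hC2]; positivity
  set E : ℝ := Real.exp (Cf * (z + 2 * max C1 0)) with hE
  have hEpos : 0 < E := Real.exp_pos _
  refine ⟨2 * E, by positivity, ?_⟩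
  have main : ∀ (n : ℕ) (V W : Finset ℕ), ∑ v ∈ V, v + ∑ w ∈ W, w = n →
      ∀ (Q : Finset (ℕ × ℕ)) (A B : ℝ), 0 ≤ A → 0 ≤ B →
      (∀ v ∈ V, 0 < v ∧ rp v ≤ C1) → (∀ w ∈ W, 0 < w ∧ rp w ≤ C1) →
      (∀ z ∈ Q, (z.1 : ℝ) ≤ A ∧ (z.2 : ℝ) ≤ B) →
      (cnt Set.univ V W Q : ℝ) ≤ 2 * E * bq e α β A B Q V W := by
    intro n
    induction n using Nat.strong_induction_on with
    | _ n ih =>
      intro V W hn Q A B hA hB hV hW hQ
      have hVp : ∀ v ∈ V, 0 < v := fun v hv => (hV v hv).1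
      have hWp : ∀ w ∈ W, 0 < w := fun w hw => (hW w hw).1
      have hb0 : 0 ≤ bq e α β A B Q V W := tr_bnd_nonneg e α β A B hA hB Q V W
      rcases V.eq_empty_or_nonempty with hVe | hVne
      · have : cnt Set.univ V W Q = 0 := by
          unfold cnt
          rw [hVe]
          simp
        rw [this]
        have : 0 ≤ 2 * E * bq e α β A B Q V W := by positivity
        simpa using this
      rcases W.eq_empty_or_nonempty with hWe | hWne
      · have : cnt Set.univ V W Q = 0 := by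
          unfold cnt
          rw [hWe]
          simp
        rw [this]
        have : 0 ≤ 2 * E * bq e α β A B Q V W := by positivity
        simpa using this
      have hVc : (0:ℝ) < V.card := by exact_mod_cast hVne.card_pos
      have hWc : (0:ℝ) < W.card := by exact_mod_cast hWne.card_pos
      -- the step at a relevant prime
      let Rel : Finset ℕ := V.biUnion Nat.primeFactors
      have hstep : ∀ l ∈ Rel, ∃ m : ℕ, (cnt Set.univ V W Q : ℝ) ≤ 2 * E * bq e α β A B Q V W *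
          (1 - c * ((1 - ((part l m V).card : ℝ) / V.card) +
          (1 - ((part l m W).card : ℝ) / W.card)) + Cs / l) := by
        intro l hl
        rw [mem_biUnion] at hl
        obtain ⟨v0, hv0, hlv0⟩ := hl
        have hlp := Nat.prime_of_mem_primeFactors hlv0
        have hld := Nat.dvd_of_mem_primeFactors hlv0
        refine step l hlp Set.univ V W Q A B (2 * E) hA hB (by positivity) hVp hWp ?_
        intro i j
        have hlt : ∑ v ∈ part l i V, v + ∑ w ∈ part l j W, w < n := by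
          rw [← hn]
          have a1 := tr_sum_part_le l i V
          have a2 := tr_sum_part_le l j W
          rcases Nat.eq_zero_or_pos i with hi | hi
          · have := tr_sum_part_zero_lt l hlp V hVp v0 hv0 hld
            rw [← hi] at this
            omega
          · have := tr_sum_part_lt l i hlp hi V hVne hVp
            omega
        have h3 := ih _ hlt (part l i V) (part l j W) rfl (qpart l i j Q)
          (A / (l:ℝ) ^ (i - j)) (B / (l:ℝ) ^ (j - i)) (by positivity) (by positivity)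
          (tr_part_pos l i V C1 hV) (tr_part_pos l j W C1 hW) (tr_qpart_bd l i j Q A B hQ)
        refine le_trans ?_ h3
        exact_mod_cast tr_cnt_mono _ _ (Set.subset_univ _) _ _ _
      by_cases hgain : ∃ l ∈ Rel, ∃ m : ℕ, (cnt Set.univ V W Q : ℝ) ≤ 2 * E * bq e α β A B Q V W *
          (1 - c * ((1 - ((part l m V).card : ℝ) / V.card) +
          (1 - ((part l m W).card : ℝ) / W.card)) + Cs / l) ∧
          (1 - c * ((1 - ((part l m V).card : ℝ) / V.card) +
          (1 - ((part l m W).card : ℝ) / W.card)) + Cs / l) ≤ 1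
      · obtain ⟨l, _, m, h3, h4⟩ := hgain
        refine h3.trans ?_
        calc 2 * E * bq e α β A B Q V W * _ ≤ 2 * E * bq e α β A B Q V W * 1 :=
              mul_le_mul_of_nonneg_left h4 (by positivity)
          _ = _ := mul_one _
      · push Not at hgain
        -- no gain: dense parts
        have hdense : ∀ l ∈ Rel, ∃ m : ℕ, (1 - C2 / l) * V.card ≤ (part l m V).card ∧
            (1 - C2 / l) * W.card ≤ (part l m W).card := by
          intro l hl
          obtain ⟨m, hm⟩ := hstep l hl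
          have h4 := hgain l hl m hm
          have hv1 : ((part l m V).card : ℝ) / V.card ≤ 1 := by
            rw [div_le_one hVc]
            exact_mod_cast tr_card_part_le l m V
          have hw1 : ((part l m W).card : ℝ) / W.card ≤ 1 := by
            rw [div_le_one hWc]
            exact_mod_cast tr_card_part_le l m W
          have e1 : C2 / (l:ℝ) = (Cs / l) / c := by rw [hC2]; field_simp
          have e2 : (1 - ((part l m V).card : ℝ) / V.card) +
              (1 - ((part l m W).card : ℝ) / W.card) < (Cs / l) / c := by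
            rw [lt_div_iff₀ hc]
            linarith
          refine ⟨m, ?_, ?_⟩
          · rw [← le_div_iff₀ hVc, e1]
            linarith
          · rw [← le_div_iff₀ hWc, e1]
            linarith
        choose! m hmV hmW using hdense
        have hprime : ∀ l ∈ Rel, l.Prime := by
          intro l hl
          rw [mem_biUnion] at hl
          obtain ⟨v0, _, h⟩ := hl
          exact Nat.prime_of_mem_primeFactors h
        have hhalf : ∀ l : ℕ, z < l → C2 / l ≤ 1 / 2 := by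
          intro l hl
          have hl' : (z:ℝ) < l := by exact_mod_cast hl
          have hlpos : (0:ℝ) < l := by linarith
          rw [div_le_div_iff₀ hlpos (by norm_num)]
          linarith
        let P1 : Finset ℕ := Rel.filter (fun l => l ≤ z)
        let P2 : Finset ℕ := Rel.filter (fun l => z < l ∧ 1 ≤ m l)
        let P : Finset ℕ := P1 ∪ P2
        let R : Finset ℕ := Rel.filter (fun l => z < l ∧ m l = 0)
        -- the sum of the reciprocals over P
        have hP1 : ∑ p ∈ P1, (1:ℝ) / p ≤ z := by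
          have a1 : ∑ p ∈ P1, (1:ℝ) / p ≤ ∑ p ∈ P1, (1:ℝ) := by
            refine sum_le_sum fun p hp => ?_
            have hp' := (hprime p (mem_filter.1 hp).1).one_le
            have : (1:ℝ) ≤ p := by exact_mod_cast hp'
            rw [div_le_one (by linarith)]
            exact this
          have a2 : P1 ⊆ Finset.Icc 1 z := by
            intro p hp
            rw [Finset.mem_Icc]
            exact ⟨(hprime p (mem_filter.1 hp).1).one_le, (mem_filter.1 hp).2⟩
          have a3 := card_le_card a2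
          rw [Nat.card_Icc] at a3
          rw [sum_const, nsmul_eq_mul, mul_one] at a1
          refine a1.trans ?_
          exact_mod_cast a3.trans (by omega)
        have hP2 : ∑ p ∈ P2, (1:ℝ) / p ≤ 2 * max C1 0 := by
          -- double counting
          have a1 : ∑ v ∈ V, rp v ≤ max C1 0 * V.card := by
            calc ∑ v ∈ V, rp v ≤ ∑ v ∈ V, max C1 0 :=
                  sum_le_sum fun v hv => (hV v hv).2.trans (le_max_left _ _)
              _ = max C1 0 * V.card := by rw [sum_const, nsmul_eq_mul, mul_comm]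
          have a2 : ∑ p ∈ P2, (1:ℝ) / p * (V.filter (fun v => p ∣ v)).card ≤ ∑ v ∈ V, rp v := by
            have b1 : ∀ p ∈ P2, (1:ℝ) / p * (V.filter (fun v => p ∣ v)).card =
                ∑ v ∈ V, if p ∣ v then (1:ℝ) / p else 0 := by
              intro p _
              rw [← sum_filter, sum_const, nsmul_eq_mul, mul_comm]
            rw [sum_congr rfl b1, sum_comm]
            refine sum_le_sum fun v hv => ?_
            rw [← sum_filter]
            unfold rp
            refine sum_le_sum_of_subset_of_nonneg ?_ (fun _ _ _ => by positivity)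
            intro p hp
            rw [mem_filter] at hp
            rw [Nat.mem_primeFactors]
            exact ⟨hprime p (mem_filter.1 hp.1).1, hp.2, (hVp v hv).ne'⟩
          have a3 : ∀ p ∈ P2, (V.card : ℝ) / 2 ≤ (V.filter (fun v => p ∣ v)).card := by
            intro p hp
            have hp' := (mem_filter.1 hp)
            have b1 := hmV p hp'.1
            have b2 := hhalf p hp'.2.1
            have b3 : (part p (m p) V).card ≤ (V.filter (fun v => p ∣ v)).card := by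
              unfold part
              refine card_image_le.trans (card_le_card fun v hv => ?_)
              rw [mem_filter] at hv ⊢
              refine ⟨hv.1, ?_⟩
              rw [(hprime p hp'.1).dvd_iff_one_le_factorization (hVp v hv.1).ne', hv.2]
              exact hp'.2.2
            have b3' : ((part p (m p) V).card : ℝ) ≤ (V.filter (fun v => p ∣ v)).card := by
              exact_mod_cast b3
            nlinarith
          have a4 : (∑ p ∈ P2, (1:ℝ) / p) * (V.card / 2) ≤ max C1 0 * V.card := by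
            rw [sum_mul]
            refine le_trans (sum_le_sum fun p hp => ?_) (a2.trans a1)
            exact mul_le_mul_of_nonneg_left (a3 p hp) (by positivity)
          have a5 : (∑ p ∈ P2, (1:ℝ) / p) * (V.card / 2) ≤ 2 * max C1 0 * (V.card / 2) := by
            refine a4.trans (le_of_eq ?_)
            ring
          exact le_of_mul_le_mul_right a5 (by positivity)
        have hPsum : ∑ p ∈ P, Cf / p ≤ Cf * (z + 2 * max C1 0) := by
          have b1 : ∀ p : ℕ, Cf / (p:ℝ) = Cf * (1 / p) := fun p => by ring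
          have b2 : ∑ p ∈ P, (1:ℝ) / p ≤ ∑ p ∈ P1, (1:ℝ) / p + ∑ p ∈ P2, (1:ℝ) / p := by
            have := sum_union_inter (s₁ := P1) (s₂ := P2) (f := fun p : ℕ => (1:ℝ) / p)
            have b3 : 0 ≤ ∑ p ∈ P1 ∩ P2, (1:ℝ) / p := sum_nonneg fun _ _ => by positivity
            linarith
          rw [sum_congr rfl fun p _ => b1 p, ← mul_sum]
          exact mul_le_mul_of_nonneg_left (by linarith) hCf.le
        have hPprime : ∀ p ∈ P, p.Prime := by
          intro p hp
          rw [mem_union] at hp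
          rcases hp with hp | hp
          · exact hprime p (mem_filter.1 hp).1
          · exact hprime p (mem_filter.1 hp).1
        have hfin := fin P hPprime V W Q A B hA hB hVp hWp hQ
        have hfin2 : (cnt (P : Set ℕ) V W Q : ℝ) ≤ E * bq e α β A B Q V W :=
          hfin.trans (mul_le_mul_of_nonneg_right (Real.exp_le_exp.2 hPsum) hb0)
        -- splitting
        have hsplit := tr_cnt_split (P : Set ℕ) R V W Q hVp (by
          intro v hv p hp
          have hpR : p ∈ Rel := by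
            rw [mem_biUnion]
            exact ⟨v, hv, hp⟩
          by_cases h5 : p ≤ z
          · left
            exact mem_coe.2 (mem_union_left _ (mem_filter.2 ⟨hpR, h5⟩))
          · by_cases h6 : m p = 0
            · right
              exact mem_filter.2 ⟨hpR, by omega, h6⟩
            · left
              exact mem_coe.2 (mem_union_right _ (mem_filter.2 ⟨hpR, by omega, by omega⟩)))
        have hRterm : ∀ p ∈ R,
            (cnt Set.univ (V.filter (fun v => p ∣ v)) (W.filter (fun w => p ∣ w)) Q : ℝ) ≤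
              2 * E * bq e α β A B Q V W * (C2 / p) ^ (2 * e) := by
          intro p hp
          obtain ⟨hpR, hzp, hm0⟩ := mem_filter.1 hp
          have hpp := hprime p hpR
          have b2 := hhalf p hzp
          have hp0 : (0:ℝ) < p := by exact_mod_cast hpp.pos
          have hgen : ∀ U : Finset ℕ, (∀ u ∈ U, 0 < u) →
              (1 - C2 / p) * U.card ≤ (part p (m p) U).card →
              ((U.filter (fun v => p ∣ v)).card : ℝ) ≤ C2 / p * U.card := by
            intro U hU hd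
            have c1 : (part p (m p) U).card ≤ (U.filter (fun v => ¬ p ∣ v)).card := by
              unfold part
              refine card_image_le.trans (card_le_card fun v hv => ?_)
              rw [mem_filter] at hv ⊢
              refine ⟨hv.1, ?_⟩
              rw [hpp.dvd_iff_one_le_factorization (hU v hv.1).ne', hv.2, hm0]
              norm_num
            have c2 := card_filter_add_card_filter_not (s := U) (fun v => p ∣ v)
            have c1' : ((part p (m p) U).card : ℝ) ≤ (U.filter (fun v => ¬ p ∣ v)).card := by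
              exact_mod_cast c1
            have c2' : ((U.filter (fun v => p ∣ v)).card : ℝ) +
                (U.filter (fun v => ¬ p ∣ v)).card = U.card := by exact_mod_cast c2
            linarith
          have hVs := hgen V hVp (hmV p hpR)
          have hWs := hgen W hWp (hmW p hpR)
          have hcardlt : (V.filter (fun v => p ∣ v)).card < V.card := by
            have : ((V.filter (fun v => p ∣ v)).card : ℝ) < V.card := by
              refine hVs.trans_lt ?_
              nlinarith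
            exact_mod_cast this
          have hsumlt := tr_filter_dvd_lt V hVp p hcardlt
          have hsumle : ∑ w ∈ W.filter (fun w => p ∣ w), w ≤ ∑ w ∈ W, w :=
            sum_le_sum_of_subset (filter_subset _ _)
          have h7 := ih _ (by rw [← hn]; omega) (V.filter (fun v => p ∣ v))
            (W.filter (fun w => p ∣ w)) rfl Q A B hA hB
            (fun v hv => hV v (mem_filter.1 hv).1) (fun w hw => hW w (mem_filter.1 hw).1) hQ
          refine h7.trans ?_
          have h8 := tr_bnd_small e α β he A B hA hB Q V W (V.filter (fun v => p ∣ v))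
            (W.filter (fun w => p ∣ w)) (C2 / p) (by positivity) hVs hWs
          calc 2 * E * bq e α β A B Q (V.filter (fun v => p ∣ v)) (W.filter (fun w => p ∣ w))
              ≤ 2 * E * (bq e α β A B Q V W * (C2 / p) ^ (2 * e)) :=
                mul_le_mul_of_nonneg_left h8 (by positivity)
            _ = _ := by ring
        have hRsum : ∑ p ∈ R,
            (cnt Set.univ (V.filter (fun v => p ∣ v)) (W.filter (fun w => p ∣ w)) Q : ℝ) ≤
              E * bq e α β A B Q V W := by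
          refine (sum_le_sum hRterm).trans ?_
          rw [← mul_sum]
          have h9 := htail R (fun p hp => (mem_filter.1 hp).2.1)
          calc 2 * E * bq e α β A B Q V W * ∑ p ∈ R, (C2 / (p:ℝ)) ^ (2 * e)
              ≤ 2 * E * bq e α β A B Q V W * (1 / 2) := mul_le_mul_of_nonneg_left h9 (by positivity)
            _ = E * bq e α β A B Q V W := by ring
        have hsplit' : (cnt Set.univ V W Q : ℝ) ≤ cnt (P : Set ℕ) V W Q +
            ∑ p ∈ R, (cnt Set.univ (V.filter (fun v => p ∣ v))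
              (W.filter (fun w => p ∣ w)) Q : ℝ) := by
          exact_mod_cast hsplit
        linarith
  intro V W Q A B hA hB hV hW hQ
  exact main _ V W rfl Q A B hA hB hV hW hQ

end Pool.Agent.MP_0863b8.C1

end

section

/-!
MP_0863b8_nt, CASE II, F3: the one-dimensional fact.
-/

set_option autoImplicit false

namespace Pool.Agent.MP_0863b8.C2

open Pool.Agent.MP_0863b8

theorem nd_sub_le (x y : ℝ) : nd (x - y) ≤ nd x + nd y := by
  have h := nd_le (x - y) (round x - round y)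
  refine h.trans ?_
  have h2 : x - y - ((round x - round y : ℤ) : ℝ) = (x - round x) - (y - round y) := by
    push_cast; ring
  rw [h2]
  exact abs_sub _ _

theorem nd_eq_of_lt (x : ℝ) (m : ℤ) (h : |x - m| < 1 / 2) : round x = m := by
  have h1 := round_le x m
  have h2 : |((round x - m : ℤ) : ℝ)| < 1 := by
    have h3 : ((round x - m : ℤ) : ℝ) = (x - m) - (x - round x) := by push_cast; ring
    rw [h3]
    calc |x - m - (x - round x)| ≤ |x - m| + |x - round x| := abs_sub _ _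
      _ < 1 := by linarith
  have h4 : |round x - m| < 1 := by
    rw [← Int.cast_abs] at h2
    exact_mod_cast h2
  have h5 := Int.abs_lt_one_iff.1 h4
  omega

/-- multiples: if `j * nd y < 1/2` then `nd (j * y) = j * nd y` -/
theorem nd_mul_nat (j : ℕ) (y : ℝ) (h : (j : ℝ) * nd y < 1 / 2) : nd (j * y) = j * nd y := by
  have h1 : |(j : ℝ) * y - ((j * round y : ℤ) : ℝ)| = j * nd y := by
    unfold nd
    rw [← abs_of_nonneg (Nat.cast_nonneg j : (0 : ℝ) ≤ j), ← abs_mul,
      abs_of_nonneg (Nat.cast_nonneg j : (0 : ℝ) ≤ j)]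
    congr 1
    push_cast; ring
  have h2 := nd_eq_of_lt ((j : ℝ) * y) (j * round y) (by rw [h1]; exact h)
  unfold nd
  rw [h2]
  exact h1

/-- **F3**, the one-dimensional fact.  `Y` is a set of integers of diameter `< N`. -/
theorem oneDim (d e N α β : ℝ) (Y : Finset ℕ) (hd : 0 < d) (_he : 0 ≤ e)
    (hed : e ≤ d / 100) (hN : 100 / d ≤ N)
    (hdiam : ∀ y ∈ Y, ∀ y' ∈ Y, (y : ℝ) - y' < N)
    (hY : ∀ y ∈ Y, nd ((y : ℝ) * α - β) ≤ e) (hc : d * N ≤ Y.card) :
    ∃ q : ℕ, 1 ≤ q ∧ (q : ℝ) ≤ 2 / d ∧ nd (q * α) ≤ 4 * e / (d * N) := by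
  classical
  have hN0 : 0 < N := lt_of_lt_of_le (by positivity) hN
  have hdN : 100 ≤ d * N := by
    rw [div_le_iff₀ hd] at hN
    linarith
  have hYc : (0 : ℝ) < Y.card := by linarith
  have hYne : Y.Nonempty := by
    rw [Finset.nonempty_iff_ne_empty]
    intro h0
    rw [h0] at hYc
    simp at hYc
  set y0 := Y.min' hYne with hy0
  have hy0Y : y0 ∈ Y := Y.min'_mem hYne
  set Z := (Y.erase y0).image (fun y => y - y0) with hZ
  have hZc : (Z.card : ℝ) = Y.card - 1 := by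
    rw [hZ, Finset.card_image_of_injOn]
    · rw [Finset.card_erase_of_mem hy0Y, Nat.cast_sub (Finset.card_pos.2 hYne)]
      simp
    · intro a ha b hb hab
      have ha' := Y.min'_le a (Finset.mem_of_mem_erase ha)
      have hb' := Y.min'_le b (Finset.mem_of_mem_erase hb)
      simp only at hab
      omega
  have hZmem : ∀ z ∈ Z, 1 ≤ z ∧ (z : ℝ) < N ∧ nd (z * α) ≤ 2 * e := by
    intro z hz
    rw [hZ, Finset.mem_image] at hz
    obtain ⟨y, hy, rfl⟩ := hz
    have hyY := Finset.mem_of_mem_erase hy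
    have h1 := Y.min'_le y hyY
    have h2 : y ≠ y0 := Finset.ne_of_mem_erase hy
    have h3 : y0 < y := lt_of_le_of_ne h1 (Ne.symm h2)
    refine ⟨by omega, ?_, ?_⟩
    · rw [Nat.cast_sub h1]
      exact hdiam y hyY y0 hy0Y
    · rw [Nat.cast_sub h1]
      have h4 : ((y : ℝ) - y0) * α = ((y : ℝ) * α - β) - ((y0 : ℝ) * α - β) := by ring
      rw [h4]
      have := nd_sub_le ((y : ℝ) * α - β) ((y0 : ℝ) * α - β)
      have := hY y hyY
      have := hY y0 hy0Y
      linarith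
  have hκ : 0 < d / 30 := by positivity
  have hsub : Z ⊆ (Finset.Icc 1 ⌊N⌋₊).filter
      (fun h : ℕ => (h : ℝ) < N ∧ nd (h * α) < d / 30) := by
    intro z hz
    obtain ⟨a1, a2, a3⟩ := hZmem z hz
    rw [Finset.mem_filter, Finset.mem_Icc]
    refine ⟨⟨a1, Nat.le_floor a2.le⟩, a2, ?_⟩
    linarith
  have hcnt : (Z.card : ℝ) ≤ hcount α (d / 30) N := by
    unfold hcount
    exact_mod_cast Finset.card_le_card hsub
  rcases dio α (d / 30) N hκ hN0 with h | ⟨hq1, hq2⟩
  · exfalso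
    rw [hZc] at hcnt
    have : 24 * (d / 30) * N = 0.8 * (d * N) := by ring
    rw [this] at h
    linarith
  · obtain ⟨g1, g2, g3, g4⟩ := qmin_spec α (d / 30) hκ
    set q := qmin α (d / 30) with hq
    have hq0 : (0 : ℝ) < q := by exact_mod_cast g1
    -- all elements of `Z` are multiples of `q`
    have hdvd : ∀ z ∈ Z, q ∣ z := by
      intro z hz
      obtain ⟨a1, a2, a3⟩ := hZmem z hz
      exact (hq2 z a1 a2 (by linarith)).1
    -- the quotients
    set J := Z.image (fun z => z / q) with hJ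
    have hJc : J.card = Z.card := by
      rw [hJ, Finset.card_image_of_injOn]
      intro a ha b hb hab
      obtain ⟨a', ha'⟩ := hdvd a ha
      obtain ⟨b', hb'⟩ := hdvd b hb
      simp only at hab
      rw [ha', hb', Nat.mul_div_cancel_left _ (by omega), Nat.mul_div_cancel_left _ (by omega)]
        at hab
      rw [ha', hb', hab]
    have hZpos : 0 < Z.card := by
      have : (0 : ℝ) < Z.card := by rw [hZc]; linarith
      exact_mod_cast this
    have hJne : J.Nonempty := by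
      rw [← Finset.card_pos, hJc]; exact hZpos
    set jm := J.max' hJne with hjm
    have hjmJ : jm ∈ J := J.max'_mem hJne
    have hJsub : J ⊆ Finset.Icc 1 jm := by
      intro j hj
      rw [Finset.mem_Icc]
      refine ⟨?_, J.le_max' j hj⟩
      rw [hJ, Finset.mem_image] at hj
      obtain ⟨z, hz, rfl⟩ := hj
      obtain ⟨a1, a2, a3⟩ := hZmem z hz
      exact (Nat.one_le_div_iff (by omega)).2 (Nat.le_of_dvd (by omega) (hdvd z hz))
    have hcard : Z.card ≤ jm := by
      have := Finset.card_le_card hJsub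
      rw [Nat.card_Icc, hJc] at this
      omega
    have hjm1 : d * N - 1 ≤ jm := by
      have : (Z.card : ℝ) ≤ jm := by exact_mod_cast hcard
      rw [hZc] at this
      linarith
    have hjm2 : d * N / 2 ≤ jm := by linarith
    rw [hJ, Finset.mem_image] at hjmJ
    obtain ⟨z, hz, hzj⟩ := hjmJ
    obtain ⟨a1, a2, a3⟩ := hZmem z hz
    have hzq : z = q * jm := by
      rw [← hzj]
      exact (Nat.mul_div_cancel' (hdvd z hz)).symm
    have hzr : (z : ℝ) = q * jm := by rw [hzq]; push_cast; ring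
    have hjm0 : (0 : ℝ) < jm := by linarith
    refine ⟨q, g1, ?_, ?_⟩
    · rw [le_div_iff₀ hd]
      rw [hzr] at a2
      -- q * jm < N, jm ≥ dN/2
      have h1 : (q : ℝ) * (d * N / 2) ≤ q * jm := by gcongr
      have h2 : (q : ℝ) * (d * N / 2) < N := lt_of_le_of_lt h1 a2
      have h3 : (q * d) * N < 2 * N := by nlinarith
      exact (lt_of_mul_lt_mul_right h3 hN0.le).le
    · have hjN : (jm : ℝ) ≤ N := by
        rw [hzr] at a2
        have : (1 : ℝ) ≤ q := by exact_mod_cast g1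
        nlinarith
      have h1 : (jm : ℝ) * nd (q * α) < 1 / 2 := by
        refine lt_of_le_of_lt ?_ hq1
        gcongr
        exact nd_nonneg _
      have h2 := nd_mul_nat jm ((q : ℝ) * α) h1
      have h3 : (z : ℝ) * α = jm * (q * α) := by rw [hzr]; ring
      rw [h3, h2] at a3
      rw [le_div_iff₀ (by positivity)]
      have h4 : nd (q * α) * (d * N / 2) ≤ nd (q * α) * jm := by
        gcongr
        exact nd_nonneg _
      nlinarith

end Pool.Agent.MP_0863b8.C2

end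

section

/-!
MP_0863b8_nt, item F5: the tree inequality for finitely many primes (quickly decaying `Φ`).
-/

namespace Pool.Agent.MP_0863b8.F

open MeasureTheory Filter

theorem ms_nonneg (V : Finset ℕ) : 0 ≤ ms V :=
  Finset.sum_nonneg fun v _ => Nat.cast_nonneg v

theorem pot_nonneg {K L : ℝ} (hK : 0 ≤ K) (hL : 0 ≤ L) (V W : Finset ℕ) : 0 ≤ pot K L V W := by
  have h1 := ms_nonneg V
  have h2 := ms_nonneg W
  unfold pot
  positivity

theorem share_le_one (l m : ℕ) (V : Finset ℕ) : share l m V ≤ 1 := by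
  unfold share
  apply div_le_one_of_le₀ _ (ms_nonneg V)
  unfold ms
  exact Finset.sum_le_sum_of_subset_of_nonneg (Finset.filter_subset _ _)
    fun v _ _ => Nat.cast_nonneg v

theorem sub_add_sub_cast (i j : ℕ) : (((i - j) + (j - i) : ℕ) : ℝ) = |(i : ℝ) - j| := by
  rcases le_total i j with h | h
  · have e : ((i - j) + (j - i) : ℕ) = j - i := by omega
    rw [e, Nat.cast_sub h, abs_of_nonpos (by
      have : (i : ℝ) ≤ j := by exact_mod_cast h
      linarith)]
    ring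
  · have e : ((i - j) + (j - i) : ℕ) = i - j := by omega
    rw [e, Nat.cast_sub h, abs_of_nonneg (by
      have : (j : ℝ) ≤ i := by exact_mod_cast h
      linarith)]

/-- density of the sets `qp l i j Q` -/
theorem dens_qp (l : ℕ) (hl : 0 < l) (K σ : ℝ) (Q : Set (ℕ × ℕ)) (hQ : Dens K σ Q) (i j : ℕ) :
    Dens (K * (l : ℝ) ^ (σ * |(i : ℝ) - j|)) σ (qp l i j Q) := by
  classical
  intro a b ha hb s t
  have ha' : 0 < a * l ^ (i - j) := Nat.mul_pos ha (pow_pos hl _)
  have hb' : 0 < b * l ^ (j - i) := Nat.mul_pos hb (pow_pos hl _)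
  have h := hQ (a * l ^ (i - j)) (b * l ^ (j - i)) ha' hb' s t
  have hl0 : (0 : ℝ) < l := by exact_mod_cast hl
  have ha0 : (0 : ℝ) < a := by exact_mod_cast ha
  have hb0 : (0 : ℝ) < b := by exact_mod_cast hb
  have e1 : (((a * l ^ (i - j) : ℕ) : ℝ) * ((b * l ^ (j - i) : ℕ) : ℝ)) ^ σ =
      (l : ℝ) ^ (σ * |(i : ℝ) - j|) * ((a : ℝ) * b) ^ σ := by
    have e2 : ((a * l ^ (i - j) : ℕ) : ℝ) * ((b * l ^ (j - i) : ℕ) : ℝ) =
        (l : ℝ) ^ ((i - j) + (j - i) : ℕ) * ((a : ℝ) * b) := by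
      push_cast
      rw [pow_add]
      ring
    rw [e2, Real.mul_rpow (by positivity) (by positivity), ← Real.rpow_natCast, ← Real.rpow_mul hl0.le,
      sub_add_sub_cast, mul_comm (|(i : ℝ) - j|) σ]
  rw [e1] at h
  have hset : (box s t).filter (fun z => (a * z.1, b * z.2) ∈ qp l i j Q) =
      (box s t).filter (fun z => (a * l ^ (i - j) * z.1, b * l ^ (j - i) * z.2) ∈ Q) := by
    apply Finset.filter_congr
    intro z _
    change (a * z.1 * l ^ (i - j), b * z.2 * l ^ (j - i)) ∈ Q ↔ _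
    have e3 : a * z.1 * l ^ (i - j) = a * l ^ (i - j) * z.1 := by ring
    have e4 : b * z.2 * l ^ (j - i) = b * l ^ (j - i) * z.2 := by ring
    rw [e3, e4]
  have hcard : (((box s t).filter (fun z => (a * z.1, b * z.2) ∈ qp l i j Q)).card : ℝ) ≤
      K * (l : ℝ) ^ (σ * |(i : ℝ) - j|) * ((a : ℝ) * b) ^ σ * ((2 : ℝ) ^ s * 2 ^ t) := by
    rw [hset]
    refine le_trans (le_of_eq ?_) (h.trans (le_of_eq ?_))
    · congr
    · ring
  convert hcard

/-- F5: finitely many primes -/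
theorem fin (h1 : StepF) (h2 : BaseF) : FinF := by
  classical
  obtain ⟨C, hC, hstep⟩ := h1
  refine ⟨C, hC, ?_⟩
  intro σ hσ0 hσ1 P
  induction P using Finset.induction_on with
  | empty =>
    intro _ V W Q K L hK hL hV hW hQ
    have := h2 V W Q K L σ hK hL hV hW hQ
    simpa using this
  | insert l P hl ih =>
    intro hP V W Q K L hK hL hV hW hQ
    have hlp : l.Prime := hP l (Finset.mem_insert_self _ _)
    have hl0 : (0 : ℝ) < l := by exact_mod_cast hlp.pos
    have ih' := ih (fun p hp => hP p (Finset.mem_insert_of_mem hp))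
    have hset : (((insert l P : Finset ℕ) : Set ℕ) \ {l}) = (P : Set ℕ) := by
      ext x
      simp only [Finset.coe_insert, Set.mem_sdiff, Set.mem_insert_iff, Finset.mem_coe,
        Set.mem_singleton_iff]
      constructor
      · rintro ⟨h1 | h1, h2⟩
        · exact absurd h1 h2
        · exact h1
      · intro h1
        exact ⟨Or.inr h1, fun h2 => hl (h2 ▸ h1)⟩
    obtain ⟨m, hm⟩ := hstep l hlp σ hσ0 hσ1 ((insert l P : Finset ℕ) : Set ℕ) V W Q K L
      (6 * Real.exp (∑ p ∈ P, C * (p : ℝ) ^ (-(1 - σ)))) hK hL (by positivity) hV hW (by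
        intro i j
        rw [hset]
        exact ih' (part l i V) (part l j W) (qp l i j Q) _ _ (by positivity) (by positivity)
          (part_pos hV) (part_pos hW) (dens_qp l hlp.pos K σ Q hQ i j))
    refine hm.trans ?_
    rw [Finset.sum_insert hl, Real.exp_add]
    have hb := pot_nonneg hK hL V W
    have h3 := share_le_one l m V
    have h4 := share_le_one l m W
    have h5 : (1 - (1/40) * ((1 - share l m V) + (1 - share l m W)) +
        C * (l : ℝ) ^ (-(1 - σ))) ≤ Real.exp (C * (l : ℝ) ^ (-(1 - σ))) := by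
      have := Real.add_one_le_exp (C * (l : ℝ) ^ (-(1 - σ)))
      linarith
    calc 6 * Real.exp (∑ p ∈ P, C * (p : ℝ) ^ (-(1 - σ))) * pot K L V W *
        (1 - (1/40) * ((1 - share l m V) + (1 - share l m W)) + C * (l : ℝ) ^ (-(1 - σ)))
        ≤ 6 * Real.exp (∑ p ∈ P, C * (p : ℝ) ^ (-(1 - σ))) * pot K L V W *
          Real.exp (C * (l : ℝ) ^ (-(1 - σ))) :=
          mul_le_mul_of_nonneg_left h5 (by positivity)
      _ = _ := by ring

end Pool.Agent.MP_0863b8.F

end

section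

/-!
MP_0863b8_nt: splitting of the weighted sum at a prime.
-/

set_option autoImplicit false

namespace Pool.Agent.MP_0863b8.F

open MeasureTheory Filter

theorem split : SplitF := by
  classical
  intro l hl P V W L Q N hV hW
  have hl0 : 0 < l := hl.pos
  have hlR : (0:ℝ) < l := by exact_mod_cast hl0
  set S := (V ×ˢ W).filter (fun t => L / 2 < ((t.1.lcm t.2 : ℕ) : ℝ) ∧
      ((t.1.lcm t.2 : ℕ) : ℝ) ≤ L ∧ (t.1 / t.1.gcd t.2, t.2 / t.1.gcd t.2) ∈ Q ∧
      ∀ p ∈ (t.1.gcd t.2).primeFactors, p ∈ P) with hS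
  have hen : en P V W L Q = ∑ t ∈ S, (t.1 : ℝ) * t.2 := by
    unfold en
    rw [hS]
  set f : ℕ × ℕ → ℕ × ℕ := fun t => (t.1.factorization l, t.2.factorization l) with hf
  have hmaps : ∀ t ∈ S, f t ∈ (Finset.range N ×ˢ Finset.range N : Finset (ℕ × ℕ)) := by
    intro t ht
    rw [hS, Finset.mem_filter, Finset.mem_product] at ht
    rw [Finset.mem_product, Finset.mem_range, Finset.mem_range]
    exact ⟨(hV _ ht.1.1).2, (hW _ ht.1.2).2⟩
  rw [hen, ← Finset.sum_fiberwise_of_maps_to hmaps, Finset.sum_product]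
  refine Finset.sum_le_sum fun i _ => Finset.sum_le_sum fun j _ => ?_
  unfold en
  -- the map
  set g : ℕ × ℕ → ℕ × ℕ := fun t => (t.1 / l ^ i, t.2 / l ^ j) with hg
  -- facts about one pair of the fibre
  have key : ∀ t ∈ S.filter (fun t => f t = (i, j)),
      (t.1 : ℝ) * t.2 = (l:ℝ) ^ (i + j) * (((g t).1 : ℝ) * (g t).2) ∧
      g t ∈ (part l i V ×ˢ part l j W).filter (fun t =>
        L / (l:ℝ) ^ (max i j) / 2 < ((t.1.lcm t.2 : ℕ) : ℝ) ∧
        ((t.1.lcm t.2 : ℕ) : ℝ) ≤ L / (l:ℝ) ^ (max i j) ∧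
        (t.1 / t.1.gcd t.2, t.2 / t.1.gcd t.2) ∈ qp l i j Q ∧
        ∀ p ∈ (t.1.gcd t.2).primeFactors, p ∈ P \ {l}) := by
    intro t ht
    rw [Finset.mem_filter, hS, Finset.mem_filter, Finset.mem_product] at ht
    obtain ⟨⟨⟨hv, hw⟩, hL1, hL2, hQ, hP⟩, hij⟩ := ht
    obtain ⟨v, w⟩ := t
    simp only [hf, Prod.mk.injEq] at hij hv hw hL1 hL2 hQ hP
    obtain ⟨hi, hj⟩ := hij
    have hv0 := (hV v hv).1
    have hw0 := (hW w hw).1
    set v' := v / l ^ i with hv'
    set w' := w / l ^ j with hw'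
    have ev : v = l ^ i * v' := by
      rw [hv', ← hi, mul_comm]
      exact (Nat.div_mul_cancel (Nat.ordProj_dvd v l)).symm
    have ew : w = l ^ j * w' := by
      rw [hw', ← hj, mul_comm]
      exact (Nat.div_mul_cancel (Nat.ordProj_dvd w l)).symm
    have hv'l : ¬ l ∣ v' := by
      rw [hv', ← hi]
      exact Nat.not_dvd_ordCompl hl hv0.ne'
    have hw'l : ¬ l ∣ w' := by
      rw [hw', ← hj]
      exact Nat.not_dvd_ordCompl hl hw0.ne'
    have hv'0 : 0 < v' := Nat.pos_of_ne_zero fun h => hv'l (by rw [h]; exact dvd_zero l)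
    have hw'0 : 0 < w' := Nat.pos_of_ne_zero fun h => hw'l (by rw [h]; exact dvd_zero l)
    have hgg := gcd_split hl hv'l hw'l i j
    rw [← ev, ← ew] at hgg
    have hlcm : v.lcm w = l ^ (max i j) * v'.lcm w' := by
      have h1 := Nat.gcd_mul_lcm v w
      have h2 := Nat.gcd_mul_lcm v' w'
      have h3 : 0 < l ^ (min i j) * v'.gcd w' :=
        Nat.mul_pos (pow_pos hl0 _) (Nat.gcd_pos_of_pos_left _ hv'0)
      apply Nat.eq_of_mul_eq_mul_left h3
      rw [← hgg, h1, hgg]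
      have h4 : l ^ i * l ^ j = l ^ (min i j) * l ^ (max i j) := by
        rw [← pow_add, ← pow_add]
        congr 1
        omega
      calc v * w = (l ^ i * v') * (l ^ j * w') := by rw [← ev, ← ew]
        _ = (l ^ i * l ^ j) * (v' * w') := by ring
        _ = (l ^ (min i j) * l ^ (max i j)) * (v'.gcd w' * v'.lcm w') := by rw [h4, h2]
        _ = _ := by ring
    set g' := v'.gcd w' with hg'
    have hg'0 : 0 < g' := Nat.gcd_pos_of_pos_left _ hv'0
    obtain ⟨a', ha'⟩ : g' ∣ v' := Nat.gcd_dvd_left _ _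
    obtain ⟨b', hb'⟩ : g' ∣ w' := Nat.gcd_dvd_right _ _
    have hmin0 : 0 < l ^ (min i j) * g' := Nat.mul_pos (pow_pos hl0 _) hg'0
    have ea : v / v.gcd w = l ^ (i - j) * a' := by
      rw [hgg]
      apply Nat.div_eq_of_eq_mul_right hmin0
      have e1 : l ^ i = l ^ (min i j) * l ^ (i - j) := by
        rw [← pow_add]; congr 1; omega
      conv_lhs => rw [ev, ha', e1]
      ring
    have eb : w / v.gcd w = l ^ (j - i) * b' := by
      rw [hgg]
      apply Nat.div_eq_of_eq_mul_right hmin0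
      have e1 : l ^ j = l ^ (min i j) * l ^ (j - i) := by
        rw [← pow_add]; congr 1; omega
      conv_lhs => rw [ew, hb', e1]
      ring
    have ea' : v' / g' = a' := Nat.div_eq_of_eq_mul_right hg'0 ha'
    have eb' : w' / g' = b' := Nat.div_eq_of_eq_mul_right hg'0 hb'
    have hpow : (0:ℝ) < (l:ℝ) ^ (max i j) := by positivity
    have hlcmR : ((v.lcm w : ℕ) : ℝ) = (l:ℝ) ^ (max i j) * ((v'.lcm w' : ℕ) : ℝ) := by
      rw [hlcm]; push_cast; ring
    refine ⟨?_, ?_⟩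
    · show (v:ℝ) * w = (l:ℝ) ^ (i + j) * ((v':ℝ) * w')
      have e1 : (v:ℝ) = (l:ℝ) ^ i * v' := by
        conv_lhs => rw [ev]
        push_cast; ring
      have e2 : (w:ℝ) = (l:ℝ) ^ j * w' := by
        conv_lhs => rw [ew]
        push_cast; ring
      rw [e1, e2, pow_add]
      ring
    · show (v', w') ∈ _
      rw [Finset.mem_filter, Finset.mem_product]
      refine ⟨⟨?_, ?_⟩, ?_, ?_, ?_, ?_⟩
      · unfold part
        exact Finset.mem_image.2 ⟨v, Finset.mem_filter.2 ⟨hv, hi⟩, rfl⟩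
      · unfold part
        exact Finset.mem_image.2 ⟨w, Finset.mem_filter.2 ⟨hw, hj⟩, rfl⟩
      · show L / (l:ℝ) ^ (max i j) / 2 < ((v'.lcm w' : ℕ) : ℝ)
        rw [hlcmR] at hL1
        rw [div_div, mul_comm, ← div_div, div_lt_iff₀ hpow]
        linarith
      · show ((v'.lcm w' : ℕ) : ℝ) ≤ L / (l:ℝ) ^ (max i j)
        rw [hlcmR] at hL2
        rw [le_div_iff₀ hpow]
        linarith
      · show (v' / v'.gcd w', w' / v'.gcd w') ∈ qp l i j Q
        rw [← hg', ea', eb']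
        show (a' * l ^ (i - j), b' * l ^ (j - i)) ∈ Q
        rw [ea, eb] at hQ
        rw [mul_comm a', mul_comm b']
        exact hQ
      · intro p hp
        have hp1 := Nat.mem_primeFactors.1 hp
        refine ⟨?_, ?_⟩
        · apply hP
          rw [hgg]
          exact Nat.mem_primeFactors.2 ⟨hp1.1, hp1.2.1.mul_left _, hmin0.ne'⟩
        · intro h
          rw [Set.mem_singleton_iff] at h
          subst h
          exact hv'l (hp1.2.1.trans (Nat.gcd_dvd_left _ _))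
  have hinj : Set.InjOn g (S.filter (fun t => f t = (i, j)) : Finset (ℕ × ℕ)) := by
    intro t ht t' ht' heq
    rw [Finset.mem_coe, Finset.mem_filter] at ht ht'
    obtain ⟨v, w⟩ := t
    obtain ⟨v', w'⟩ := t'
    simp only [hf, hg, Prod.mk.injEq] at ht ht' heq ⊢
    obtain ⟨-, h1, h2⟩ := ht
    obtain ⟨-, h1', h2'⟩ := ht'
    have e1 : v = v / l ^ i * l ^ i := by
      rw [← h1]; exact (Nat.div_mul_cancel (Nat.ordProj_dvd v l)).symm
    have e2 : w = w / l ^ j * l ^ j := by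
      rw [← h2]; exact (Nat.div_mul_cancel (Nat.ordProj_dvd w l)).symm
    have e1' : v' = v' / l ^ i * l ^ i := by
      rw [← h1']; exact (Nat.div_mul_cancel (Nat.ordProj_dvd v' l)).symm
    have e2' : w' = w' / l ^ j * l ^ j := by
      rw [← h2']; exact (Nat.div_mul_cancel (Nat.ordProj_dvd w' l)).symm
    exact ⟨by rw [e1, e1', heq.1], by rw [e2, e2', heq.2]⟩
  rw [Finset.sum_congr rfl (fun t ht => (key t ht).1), ← Finset.mul_sum]
  refine mul_le_mul_of_nonneg_left ?_ (by positivity)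
  rw [← Finset.sum_image (f := fun t : ℕ × ℕ => (t.1:ℝ) * t.2) hinj]
  refine Finset.sum_le_sum_of_subset_of_nonneg ?_ (fun t _ _ => by positivity)
  intro t ht
  obtain ⟨s, hs, rfl⟩ := Finset.mem_image.1 ht
  convert (key s hs).2

end Pool.Agent.MP_0863b8.F

end

section

/-!
MP_0863b8_nt, theorem A, item F3: the step lemma.
-/

namespace Pool.Agent.MP_0863b8.F

namespace StepAux

lemma ms_nonneg (V : Finset ℕ) : 0 ≤ ms V := Finset.sum_nonneg (fun _ _ => by positivity)

lemma ms_pos {V : Finset ℕ} (hV : V.Nonempty) (h : ∀ v ∈ V, 0 < v) : 0 < ms V :=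
  Finset.sum_pos (fun v hv => by exact_mod_cast h v hv) hV

lemma ms_part (l i : ℕ) (hl : l.Prime) (V : Finset ℕ) :
    ms (part l i V) = ms (V.filter (fun v => v.factorization l = i)) / (l:ℝ) ^ i := by
  classical
  have hl0 : (l:ℝ) ≠ 0 := by exact_mod_cast hl.ne_zero
  have hdvd : ∀ v ∈ V.filter (fun v => v.factorization l = i), l ^ i ∣ v := by
    intro v hv
    rw [Finset.mem_filter] at hv
    rw [← hv.2]
    exact Nat.ordProj_dvd v l
  unfold ms part
  rw [Finset.sum_image]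
  · rw [Finset.sum_div]
    refine Finset.sum_congr rfl (fun v hv => ?_)
    rw [Nat.cast_div (hdvd v hv) (by push_cast; positivity)]
    push_cast
    rfl
  · intro a ha b hb hab
    have h1 := Nat.div_mul_cancel (hdvd a ha)
    have h2 := Nat.div_mul_cancel (hdvd b hb)
    have h3 : a / l ^ i = b / l ^ i := hab
    rw [← h1, ← h2, h3]

lemma sum_share_le (l N : ℕ) (V : Finset ℕ) (hV : 0 < ms V) :
    ∑ i ∈ Finset.range N, share l i V ≤ 1 := by
  classical
  unfold share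
  rw [← Finset.sum_div, div_le_one hV]
  unfold ms
  have h := Finset.sum_fiberwise_eq_sum_filter V (Finset.range N)
    (fun v => v.factorization l) (fun v => (v:ℝ))
  rw [h]
  exact Finset.sum_le_sum_of_subset_of_nonneg (Finset.filter_subset _ _)
    (fun _ _ _ => by positivity)

lemma expo (l : ℝ) (hl : 0 < l) (σ : ℝ) (i j : ℕ) :
    l ^ (i + j) * ((l ^ (σ * |(i:ℝ) - j|)) ^ ((4:ℝ)/9) * ((l ^ (max i j))⁻¹) ^ ((8:ℝ)/9) *
      ((l ^ i)⁻¹ * (l ^ j)⁻¹) ^ ((5:ℝ)/9)) =
    l ^ (-((4/9) * (1 - σ) * |(i:ℝ) - j|)) := by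
  have e1 : l ^ (i + j) = l ^ (((i:ℝ) + j)) := by
    rw [← Real.rpow_natCast]; push_cast; rfl
  have e2 : (l ^ (σ * |(i:ℝ) - j|)) ^ ((4:ℝ)/9) = l ^ (σ * |(i:ℝ) - j| * (4/9)) := by
    rw [← Real.rpow_mul hl.le]
  have e3 : ((l ^ (max i j))⁻¹) ^ ((8:ℝ)/9) = l ^ (-(((max i j : ℕ) : ℝ) * (8/9))) := by
    rw [← Real.rpow_natCast, ← Real.rpow_neg hl.le, ← Real.rpow_mul hl.le]
    congr 1
    ring
  have e4 : ((l ^ i)⁻¹ * (l ^ j)⁻¹) ^ ((5:ℝ)/9) = l ^ (-(((i:ℝ) + j) * (5/9))) := by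
    rw [← mul_inv, ← pow_add, ← Real.rpow_natCast, ← Real.rpow_neg hl.le, ← Real.rpow_mul hl.le]
    congr 1
    push_cast
    ring
  rw [e1, e2, e3, e4, ← Real.rpow_add hl, ← Real.rpow_add hl, ← Real.rpow_add hl]
  congr 1
  rcases le_total i j with h | h
  · have h' : (i:ℝ) ≤ j := by exact_mod_cast h
    rw [abs_of_nonpos (by linarith), max_eq_right h]
    ring
  · have h' : (j:ℝ) ≤ i := by exact_mod_cast h
    rw [abs_of_nonneg (by linarith), max_eq_left h]
    ring

lemma pot_piece (l i j : ℕ) (hl : l.Prime) (K L D σ : ℝ) (hK : 0 ≤ K) (hL : 0 ≤ L)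
    (V W : Finset ℕ) (hV : 0 < ms V) (hW : 0 < ms W) :
    (l:ℝ) ^ (i + j) * (D * pot (K * (l:ℝ) ^ (σ * |(i:ℝ) - j|)) (L / (l:ℝ) ^ (max i j))
        (part l i V) (part l j W)) =
      D * pot K L V W * ((l:ℝ) ^ (-((4/9) * (1 - σ) * |(i:ℝ) - j|)) *
        (share l i V * share l j W) ^ ((5:ℝ)/9)) := by
  have hl0 : (0:ℝ) < l := by exact_mod_cast hl.pos
  rw [← expo (l:ℝ) hl0 σ i j]
  have hx : 0 ≤ share l i V := div_nonneg (ms_nonneg _) hV.le
  have hy : 0 ≤ share l j W := div_nonneg (ms_nonneg _) hW.le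
  have eV : ms (part l i V) = ms V * share l i V * ((l:ℝ) ^ i)⁻¹ := by
    rw [ms_part l i hl V, share]
    field_simp
  have eW : ms (part l j W) = ms W * share l j W * ((l:ℝ) ^ j)⁻¹ := by
    rw [ms_part l j hl W, share]
    field_simp
  have e1 : (K * (l:ℝ) ^ (σ * |(i:ℝ) - j|)) ^ ((4:ℝ)/9) =
      K ^ ((4:ℝ)/9) * ((l:ℝ) ^ (σ * |(i:ℝ) - j|)) ^ ((4:ℝ)/9) :=
    Real.mul_rpow hK (Real.rpow_nonneg hl0.le _)
  have e2 : (L / (l:ℝ) ^ (max i j)) ^ ((8:ℝ)/9) =
      L ^ ((8:ℝ)/9) * (((l:ℝ) ^ (max i j))⁻¹) ^ ((8:ℝ)/9) := by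
    rw [div_eq_mul_inv]
    exact Real.mul_rpow hL (by positivity)
  have e3 : (ms (part l i V) * ms (part l j W)) ^ ((5:ℝ)/9) =
      (ms V * ms W) ^ ((5:ℝ)/9) * (share l i V * share l j W) ^ ((5:ℝ)/9) *
        (((l:ℝ) ^ i)⁻¹ * ((l:ℝ) ^ j)⁻¹) ^ ((5:ℝ)/9) := by
    rw [← Real.mul_rpow (by positivity) (by positivity), ← Real.mul_rpow (by positivity)
      (by positivity), eV, eW]
    congr 1
    ring
  unfold pot
  rw [e1, e2, e3]
  ring

end StepAux

open StepAux in
theorem step (h1 : NodeF) (h2 : SplitF) : StepF := by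
  classical
  obtain ⟨C, hC, hnode⟩ := h1
  refine ⟨C, hC, ?_⟩
  intro l hl σ hσ hσ1 P V W Q K L D hK hL hD hV hW hen
  by_cases hVe : V = ∅
  · refine ⟨0, ?_⟩
    subst hVe
    simp [en, pot, ms]
  by_cases hWe : W = ∅
  · refine ⟨0, ?_⟩
    subst hWe
    simp [en, pot, ms]
  have hVn : V.Nonempty := Finset.nonempty_iff_ne_empty.mpr hVe
  have hWn : W.Nonempty := Finset.nonempty_iff_ne_empty.mpr hWe
  have hVc : 0 < ms V := ms_pos hVn hV
  have hWc : 0 < ms W := ms_pos hWn hW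
  have hl2 : 2 ≤ l := hl.two_le
  have hl0 : (0:ℝ) < l := by exact_mod_cast hl.pos
  set N : ℕ := (V ∪ W).sup (fun v => v.factorization l) + 1 with hN
  have hVN : ∀ v ∈ V, 0 < v ∧ v.factorization l < N := by
    intro v hv
    refine ⟨hV v hv, ?_⟩
    have := Finset.le_sup (f := fun v : ℕ => v.factorization l)
      (Finset.mem_union_left W hv)
    omega
  have hWN : ∀ w ∈ W, 0 < w ∧ w.factorization l < N := by
    intro v hv
    refine ⟨hW v hv, ?_⟩
    have := Finset.le_sup (f := fun v : ℕ => v.factorization l)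
      (Finset.mem_union_right V hv)
    omega
  have hsplit := h2 l hl P V W L Q N hVN hWN
  obtain ⟨m, hmN, hm⟩ := hnode (l:ℝ) σ (by exact_mod_cast hl2) hσ hσ1 N (by omega)
    (fun i => share l i V) (fun j => share l j W)
    (fun i => div_nonneg (ms_nonneg _) hVc.le) (fun i => div_nonneg (ms_nonneg _) hWc.le)
    (sum_share_le l N V hVc) (sum_share_le l N W hWc)
  refine ⟨m, ?_⟩
  have hbn : 0 ≤ D * pot K L V W := by
    unfold pot
    positivity
  calc en P V W L Q
      ≤ ∑ i ∈ Finset.range N, ∑ j ∈ Finset.range N, (l:ℝ) ^ (i + j) *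
        en (P \ {l}) (part l i V) (part l j W) (L / (l:ℝ) ^ (max i j)) (qp l i j Q) := hsplit
    _ ≤ ∑ i ∈ Finset.range N, ∑ j ∈ Finset.range N,
        D * pot K L V W * ((l:ℝ) ^ (-((4/9) * (1 - σ) * |(i:ℝ) - j|)) *
        (share l i V * share l j W) ^ ((5:ℝ)/9)) := by
        refine Finset.sum_le_sum (fun i _ => Finset.sum_le_sum (fun j _ => ?_))
        rw [← pot_piece l i j hl K L D σ hK hL V W hVc hWc]
        exact mul_le_mul_of_nonneg_left (hen i j) (by positivity)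
    _ = D * pot K L V W * ∑ i ∈ Finset.range N, ∑ j ∈ Finset.range N,
        ((l:ℝ) ^ (-((4/9) * (1 - σ) * |(i:ℝ) - j|)) *
        (share l i V * share l j W) ^ ((5:ℝ)/9)) := by
        rw [Finset.mul_sum]
        refine Finset.sum_congr rfl (fun i _ => ?_)
        rw [Finset.mul_sum]
    _ ≤ _ := mul_le_mul_of_nonneg_left hm hbn

end Pool.Agent.MP_0863b8.F

end

section

set_option autoImplicit false

namespace Pool.Agent.MP_0863b8.FIN

open MeasureTheory Filter

theorem bc2 : BC2 := by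
  classical
  intro S E C c hc hm hE2 hE1
  -- encode the pairs `(t, n)`
  set S' : ℕ → Finset ℕ := fun t => (S t).image (fun n => Nat.pair t n) with hS'
  set E' : ℕ → Set ℝ := fun k => if (Nat.unpair k).2 ∈ S (Nat.unpair k).1 then
    E (Nat.unpair k).1 (Nat.unpair k).2 ∩ Set.Ico (0:ℝ) 1 else ∅ with hE'
  have hE'p : ∀ t, ∀ n ∈ S t, E' (Nat.pair t n) = E t n ∩ Set.Ico (0:ℝ) 1 := by
    intro t n hn
    simp only [hE', Nat.unpair_pair]
    rw [if_pos hn]
  have hinj : ∀ t, Set.InjOn (fun n => Nat.pair t n) (S t) := by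
    intro t a _ b _ hab
    have := congrArg Nat.unpair hab
    simp only [Nat.unpair_pair, Prod.mk.injEq] at this
    exact this.2
  have key := bc S' E' C c hc
    (by
      intro k
      simp only [hE']
      split_ifs with h
      · exact (hm _ _ h).inter measurableSet_Ico
      · exact MeasurableSet.empty)
    (by
      intro k
      simp only [hE']
      split_ifs with h
      · exact Set.inter_subset_right
      · exact Set.empty_subset _)
    (by
      intro t
      refine le_trans (le_of_eq ?_) (hE2 t)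
      simp only [hS']
      rw [Finset.sum_image (hinj t)]
      apply Finset.sum_congr rfl
      intro v hv
      rw [Finset.sum_image (hinj t)]
      apply Finset.sum_congr rfl
      intro w hw
      rw [hE'p t v hv, hE'p t w hw]
      congr 2
      ext x
      constructor
      · rintro ⟨⟨h1, h2⟩, ⟨h3, h4⟩⟩
        exact ⟨⟨h1, h3⟩, h2⟩
      · rintro ⟨⟨h1, h3⟩, h2⟩
        exact ⟨⟨h1, h2⟩, ⟨h3, h2⟩⟩)
    (by
      intro a b ha hab hb
      filter_upwards [hE1 a b ha hab hb] with t ht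
      refine ht.trans (le_of_eq ?_)
      simp only [hS']
      rw [Finset.sum_image (hinj t)]
      apply Finset.sum_congr rfl
      intro v hv
      rw [hE'p t v hv]
      congr 2
      ext x
      constructor
      · rintro ⟨h1, h2⟩
        exact ⟨⟨h1, ⟨by linarith [h2.1], by linarith [h2.2]⟩⟩, h2⟩
      · rintro ⟨⟨h1, _⟩, h2⟩
        exact ⟨h1, h2⟩)
  filter_upwards [key] with β hβ
  refine hβ.mono ?_
  rintro t ⟨k, hk, hβk⟩
  simp only [hS'] at hk
  rw [Finset.mem_image] at hk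
  obtain ⟨n, hn, rfl⟩ := hk
  rw [hE'p t n hn] at hβk
  exact ⟨n, hn, hβk.1⟩

end Pool.Agent.MP_0863b8.FIN

end

section

/-!
MP_0863b8_nt: extra divergence theorem.  Definitions and statements of the items (as Props).

Everything here is the case `Q = univ`, `K = 1`, `σ = 0` of the folder `F`, but with a general
exponent `γ` in `(1/2, 5/9]` instead of `5/9` (the loss `2^((2γ-1) i)` at the `i`-th scale is
eaten by the weights), and a second moment with weights `wt ε (ψ n) = (log (1/ψ n))^(-ε)`.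
-/

namespace Pool.Agent.MP_0863b8.G

open MeasureTheory Filter
open F (ms en share lv)

/-- the bounding expression -/
noncomputable def potG (γ L : ℝ) (V W : Finset ℕ) : ℝ :=
  L ^ (2 * (1 - γ)) * (ms V * ms W) ^ γ

/-- G1: the node inequality (copy of `F/Node.lean`) -/
def NodeG : Prop :=
  ∀ γ : ℝ, 1/2 < γ → γ ≤ 5/9 → ∃ C c : ℝ, 0 < C ∧ 0 < c ∧
    ∀ l : ℝ, 2 ≤ l → ∀ N : ℕ, 0 < N → ∀ (x y : ℕ → ℝ),
    (∀ i, 0 ≤ x i) → (∀ i, 0 ≤ y i) →
    ∑ i ∈ Finset.range N, x i ≤ 1 → ∑ i ∈ Finset.range N, y i ≤ 1 →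
    ∃ m < N, ∑ i ∈ Finset.range N, ∑ j ∈ Finset.range N,
        l ^ (-((1 - γ) * |(i:ℝ) - j|)) * (x i * y j) ^ γ
      ≤ 1 - c * ((1 - x m) + (1 - y m)) + C / l

/-- G2: the step (copy of `F/Step.lean`; `F.SplitF` is proved in `F/Split.lean`) -/
def StepG : Prop :=
  ∀ γ : ℝ, 1/2 < γ → γ ≤ 5/9 → ∃ C c : ℝ, 0 < C ∧ 0 < c ∧ ∀ l : ℕ, l.Prime →
    ∀ (P : Set ℕ) (V W : Finset ℕ) (L D : ℝ), 0 ≤ L → 0 ≤ D →
    (∀ v ∈ V, 0 < v) → (∀ w ∈ W, 0 < w) →
    (∀ i j : ℕ, en (P \ {l}) (part l i V) (part l j W) (L / (l:ℝ) ^ (max i j)) Set.univ ≤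
      D * potG γ (L / (l:ℝ) ^ (max i j)) (part l i V) (part l j W)) →
    ∃ m : ℕ, en P V W L Set.univ ≤ D * potG γ L V W *
      (1 - c * ((1 - share l m V) + (1 - share l m W)) + C / l)

/-- G3: the base case (copy of `F/Base.lean`) -/
def BaseG : Prop :=
  ∀ (γ : ℝ), 1/2 < γ → γ ≤ 5/9 → ∀ (V W : Finset ℕ) (L : ℝ), 0 ≤ L →
    (∀ v ∈ V, 0 < v) → (∀ w ∈ W, 0 < w) →
    en ∅ V W L Set.univ ≤ 6 * potG γ L V W

/-- G4: finitely many primes (copy of `F/Fin.lean`) -/
def FinG : Prop :=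
  ∀ γ : ℝ, 1/2 < γ → γ ≤ 5/9 → ∃ C : ℝ, 0 < C ∧ ∀ P : Finset ℕ, (∀ p ∈ P, p.Prime) →
    ∀ (V W : Finset ℕ) (L : ℝ), 0 ≤ L → (∀ v ∈ V, 0 < v) → (∀ w ∈ W, 0 < w) →
    en (P : Set ℕ) V W L Set.univ ≤ 6 * Real.exp (∑ p ∈ P, C / p) * potG γ L V W

/-- G5: the tree inequality (copy of `F/Tree.lean`) -/
def TreeG : Prop :=
  ∀ γ C1 : ℝ, 1/2 < γ → γ ≤ 5/9 → ∃ C : ℝ, 0 < C ∧
    ∀ (V W : Finset ℕ) (L : ℝ), 0 ≤ L →
    (∀ v ∈ V, 0 < v ∧ rp v ≤ C1) → (∀ w ∈ W, 0 < w ∧ rp w ≤ C1) →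
    en Set.univ V W L Set.univ ≤ C * potG γ L V W

open Classical in
/-- G6: pairs of two levels with given dyadic size of the lcm -/
def PairG : Prop :=
  ∀ γ C1 : ℝ, 1/2 < γ → γ ≤ 5/9 → ∃ C : ℝ, 0 < C ∧
    ∀ (ψ : ℕ → ℝ) (k l i : ℕ) (V W : Finset ℕ),
    (∀ v ∈ V, 0 < v ∧ rp v ≤ C1 ∧ 0 < ψ v ∧ lv ψ k v) →
    (∀ w ∈ W, 0 < w ∧ rp w ≤ C1 ∧ 0 < ψ w ∧ lv ψ l w) →
    ∑ z ∈ (V ×ˢ W).filter (fun z => (2:ℝ) ^ ((k:ℝ) + 1 - i) / 2 < ((z.1.lcm z.2 : ℕ) : ℝ) ∧
        ((z.1.lcm z.2 : ℕ) : ℝ) ≤ (2:ℝ) ^ ((k:ℝ) + 1 - i)),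
      ψ z.2 / (z.2 / z.1.gcd z.2 : ℕ) ≤
    C * (2:ℝ) ^ ((2 * γ - 1) * i) * (2:ℝ) ^ (-((1 - γ) * ((l:ℝ) - k))) *
      ((∑ v ∈ V, ψ v) * (∑ w ∈ W, ψ w)) ^ γ

/-- G7: summation of the shallow part -/
def ShalSumG : Prop :=
  ∀ γ η c : ℝ, 1/2 < γ → γ ≤ 5/9 → 0 < η → 0 < c → ∃ C : ℝ, 0 < C ∧
    ∀ (N : ℕ) (X : ℕ → ℝ), (∀ k, 0 ≤ X k) → ∑ k ∈ Finset.range N, X k ≤ 1 →
    ∑ k ∈ Finset.range N, ∑ l ∈ (Finset.range N).filter (fun l => k ≤ l),
      ∑ u ∈ Finset.range N, ∑ v ∈ Finset.range N, ∑ i ∈ Finset.range N,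
        (2:ℝ) ^ (-(η * i)) * (2:ℝ) ^ (-(c * ((u:ℝ) + v))) *
          (2:ℝ) ^ (-((1 - γ) * ((l:ℝ) - k))) * (X k * X l) ^ γ ≤ C

/-- G8: summation of the deep part -/
def DeepSumG : Prop :=
  ∃ C : ℝ, 0 < C ∧ ∀ (N : ℕ) (X : ℕ → ℝ), (∀ k, 0 ≤ X k) → ∑ k ∈ Finset.range N, X k ≤ 1 →
    ∑ k ∈ Finset.range N, ∑ l ∈ (Finset.range N).filter (fun l => k ≤ l),
      ∑ s ∈ (Finset.range N).filter (fun s => s ≤ k),
      ∑ t ∈ (Finset.range N).filter (fun t => t ≤ l),
      ∑ m ∈ (Finset.range N).filter (fun m => m + s ≤ k ∧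
          ((k - s) + (l - t) + 1) ^ 28 * 2 ^ (m + s) ≤ 2 * 2 ^ k),
        (2:ℝ) ^ (((m:ℝ) + s - k) / 7) * (2:ℝ) ^ (-(3 * ((l:ℝ) - k)) / 7) *
          (X k * X l) ^ ((4:ℝ)/7) ≤ C

/-! ### Weights -/

/-- the weight of a value `p` of `ψ` -/
noncomputable def wt (ε p : ℝ) : ℝ := (Real.log (1 / p)) ^ (-ε)

/-- G9: the weights in terms of the block -/
def WtG : Prop :=
  ∀ (ε : ℝ) (ψ : ℕ → ℝ) (k n : ℕ), 0 ≤ ε → 0 < n → 0 < ψ n → ψ n ≤ 1 / 8 → lv ψ k n →
    Nat.log 2 n + 3 ≤ k ∧ 0 < wt ε (ψ n) ∧ wt ε (ψ n) ≤ 1 ∧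
    (((k - Nat.log 2 n : ℕ) : ℝ) + 1) ^ (-ε) ≤ wt ε (ψ n) ∧
    wt ε (ψ n) ≤ 3 ^ ε * ((k - Nat.log 2 n : ℕ) : ℝ) ^ (-ε)

/-- the depth factor of a pair -/
def dp (lev : ℕ → ℕ) (z : ℕ × ℕ) : ℕ :=
  ((lev z.1 - Nat.log 2 z.1) + (lev z.2 - Nat.log 2 z.2) + 1) ^ 28

/-- deep pairs: nonspecial with small lcm -/
def DeepP (δ : ℝ) (lev : ℕ → ℕ) (z : ℕ × ℕ) : Prop :=
  NSP δ lev z ∧ dp lev z * (z.1.lcm z.2) < 2 ^ (lev z.1)

/-- shallow pairs -/
def ShalP (lev : ℕ → ℕ) (z : ℕ × ℕ) : Prop :=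
  lev z.1 ≤ lev z.2 ∧ Nat.clog 2 (z.2 / z.1.gcd z.2) + Nat.log 2 z.1 ≤ lev z.1 ∧
  2 ^ (lev z.1) ≤ dp lev z * (z.1.lcm z.2)

open Classical in
/-- G10: the deep pairs (copy of `sum_late` in `F/Second.lean`) -/
def DeepG : Prop :=
  ∀ c ε : ℝ, 0 < c → 0 ≤ ε → ∃ C : ℝ, 0 < C ∧ ∀ (δ : ℝ) (ψ : ℕ → ℝ) (S : Finset ℕ)
    (lev : ℕ → ℕ),
    (∀ n ∈ S, 0 < n ∧ c ≤ (Nat.totient n : ℝ) / n ∧ 0 < ψ n ∧ ψ n ≤ 1 / 8) →
    ∑ n ∈ S, wt ε (ψ n) * ψ n ≤ 1 →
    (∀ n ∈ S, lv ψ (lev n) n) →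
    ∑ z ∈ (S ×ˢ S).filter (fun z => DeepP δ lev z), wt ε (ψ z.1) * wt ε (ψ z.2) *
      (ψ z.2 / ((z.2 / z.1.gcd z.2 : ℕ) : ℝ)) ≤ C

open Classical in
/-- G11: the shallow pairs (similar to `sum_early` in `F/Second.lean`) -/
def ShalG : Prop :=
  ∀ c ε : ℝ, 0 < c → 0 < ε → ∃ C : ℝ, 0 < C ∧ ∀ (ψ : ℕ → ℝ) (S : Finset ℕ)
    (lev : ℕ → ℕ),
    (∀ n ∈ S, 0 < n ∧ c ≤ (Nat.totient n : ℝ) / n ∧ 0 < ψ n ∧ ψ n ≤ 1 / 8) →
    ∑ n ∈ S, wt ε (ψ n) * ψ n ≤ 1 →
    (∀ n ∈ S, lv ψ (lev n) n) →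
    ∑ z ∈ (S ×ˢ S).filter (fun z => ShalP lev z), wt ε (ψ z.1) * wt ε (ψ z.2) *
      (ψ z.2 / ((z.2 / z.1.gcd z.2 : ℕ) : ℝ)) ≤ C

/-- G12: the weighted second moment (copy of `second` in `Second.lean`) -/
def SecondG : Prop :=
  ∀ c ε : ℝ, 0 < c → 0 < ε → ∃ C : ℝ, 0 < C ∧ ∀ (δ : ℝ) (ψ : ℕ → ℝ) (S : Finset ℕ),
    (∀ n ∈ S, 0 < n ∧ c ≤ (Nat.totient n : ℝ) / n ∧ 0 < ψ n ∧ ψ n ≤ 1 / 8) →
    ∑ n ∈ S, wt ε (ψ n) * ψ n ≤ 1 →
    ∑ x ∈ S, ∑ y ∈ S, wt ε (ψ x) * wt ε (ψ y) *
      (volume (BB δ ψ x ∩ BB δ ψ y)).toReal ≤ C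

/-- G13: weighted Borel-Cantelli lemma (copy of `BC.lean`) -/
def BCG : Prop :=
  ∀ (S : ℕ → Finset ℕ) (a : ℕ → ℝ) (E : ℕ → Set ℝ) (C c : ℝ), 0 < c → (∀ n, 0 ≤ a n) →
    (∀ n, MeasurableSet (E n)) → (∀ n, E n ⊆ Set.Ico 0 1) →
    (∀ t, ∑ v ∈ S t, ∑ w ∈ S t, a v * a w * (volume (E v ∩ E w)).toReal ≤ C) →
    (∀ u v : ℝ, 0 ≤ u → u < v → v ≤ 1 → ∀ᶠ t in atTop,
      c * (v - u) ≤ ∑ n ∈ S t, a n * (volume (E n ∩ Set.Ioo u v)).toReal) →
    ∀ᵐ β ∂(volume.restrict (Set.Ico (0:ℝ) 1)), ∃ᶠ t in atTop, ∃ v ∈ S t, β ∈ E v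

/-- G14: blocks of weighted mass between 1/2 and 1 (similar to `blocks` in `Main.lean`) -/
def BlocksG : Prop :=
  ∀ (Φ : ℕ → ℝ) (ε c : ℝ), 0 < ε → (∀ n, 0 ≤ Φ n) →
    (∀ M : ℝ, ∃ N : ℕ, M ≤ ∑ n ∈ (Finset.Icc 1 N).filter
      (fun n => c ≤ (Nat.totient n : ℝ) / n), Φ n * (Real.log (2 + 1 / Φ n)) ^ (-ε)) →
    ∀ t : ℕ, ∃ S : Finset ℕ,
      (∀ n ∈ S, t ≤ n ∧ 0 < n ∧ c ≤ (Nat.totient n : ℝ) / n ∧ 0 < Φ n) ∧
      1 / 2 ≤ ∑ n ∈ S, wt ε (min (Φ n) (1/8)) * min (Φ n) (1/8) ∧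
      ∑ n ∈ S, wt ε (min (Φ n) (1/8)) * min (Φ n) (1/8) ≤ 1

/-- G15: the extra divergence theorem (copy of `main` in `Main.lean`) -/
def MainG : Prop :=
  ∀ (δ : ℝ) (Φ : ℕ → ℝ) (ε c : ℝ), 0 < ε → 0 < c → (∀ n, 0 ≤ Φ n) →
    (∀ M : ℝ, ∃ N : ℕ, M ≤ ∑ n ∈ (Finset.Icc 1 N).filter
      (fun n => c ≤ (Nat.totient n : ℝ) / n), Φ n * (Real.log (2 + 1 / Φ n)) ^ (-ε)) →
    Concl δ Φ

open Classical in
/-- the corrected function: no correction where `Φ n <= exp (-1000 (log log n)^2)`, division by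
`(log (2 + 1 / Φ n))^ε` elsewhere -/
noncomputable def cor (ε : ℝ) (Φ : ℕ → ℝ) (n : ℕ) : ℝ :=
  if Φ n ≤ Real.exp (-(1000 * (Real.log (Real.log n)) ^ 2)) then Φ n
  else Φ n * (Real.log (2 + 1 / Φ n)) ^ (-ε)

/-- G16: the combination with `F.MainF` -/
def FinalG : Prop :=
  ∀ (δ : ℝ) (Φ : ℕ → ℝ) (ε : ℝ), 0 < ε → (∀ n, 0 ≤ Φ n) → H1 (cor ε Φ) → H2 (cor ε Φ) →
    Concl δ Φ

end Pool.Agent.MP_0863b8.G

end

section

/-!
MP_0863b8_nt, KILLS, item Dens: density of the kept residues.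
-/

namespace Pool.Agent.MP_0863b8.K

open Finset

/-- smooth and rough part -/
private theorem Dens_split (P0 : ℕ) (m : ℕ) (hm : 0 < m) : ∃ s r : ℕ, m = s * r ∧
    (∀ p : ℕ, p.Prime → p ∣ s → p ≤ P0) ∧ (∀ p : ℕ, p.Prime → p ∣ r → P0 < p) := by
  induction m using Nat.recOnPosPrimePosCoprime with
  | zero => omega
  | one =>
    exact ⟨1, 1, by simp, fun p hp h => absurd (Nat.dvd_one.1 h) hp.one_lt.ne',
      fun p hp h => absurd (Nat.dvd_one.1 h) hp.one_lt.ne'⟩
  | prime_pow p k hp hk =>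
    by_cases h : p ≤ P0
    · refine ⟨p ^ k, 1, by simp, ?_, fun p hp h => absurd (Nat.dvd_one.1 h) hp.one_lt.ne'⟩
      intro q hq hd
      have := (Nat.prime_dvd_prime_iff_eq hq hp).1 (hq.dvd_of_dvd_pow hd)
      omega
    · refine ⟨1, p ^ k, by simp, fun p hp h => absurd (Nat.dvd_one.1 h) hp.one_lt.ne', ?_⟩
      intro q hq hd
      have := (Nat.prime_dvd_prime_iff_eq hq hp).1 (hq.dvd_of_dvd_pow hd)
      omega
  | coprime a b ha hb hab iha ihb =>
    obtain ⟨s1, r1, h1, p1, q1⟩ := iha (by omega)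
    obtain ⟨s2, r2, h2, p2, q2⟩ := ihb (by omega)
    refine ⟨s1 * s2, r1 * r2, by rw [h1, h2]; ring, ?_, ?_⟩
    · intro p hp hd
      rcases (Nat.Prime.dvd_mul hp).1 hd with h | h
      · exact p1 p hp h
      · exact p2 p hp h
    · intro p hp hd
      rcases (Nat.Prime.dvd_mul hp).1 hd with h | h
      · exact q1 p hp h
      · exact q2 p hp h

/-- number of residues in a class -/
private theorem Dens_cnt1 (s x : ℕ) (a : ℤ) (hs : 0 < s) (hx : x ∣ s) :
    (((range s).filter (fun l : ℕ => (l : ℤ) ≡ a [ZMOD (x : ℤ)])).card : ℝ) ≤ (s : ℝ) / x := by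
  obtain ⟨k, rfl⟩ := hx
  have hx0 : 0 < x := Nat.pos_of_mul_pos_right hs |> fun h => by
    rcases Nat.eq_zero_or_pos x with h' | h'
    · subst h'; simp at hs
    · exact h'
  have h1 : ((range (x * k)).filter (fun l : ℕ => (l : ℤ) ≡ a [ZMOD (x : ℤ)])).card ≤ k := by
    have h2 : ((range (x * k)).filter (fun l : ℕ => (l : ℤ) ≡ a [ZMOD (x : ℤ)])).card ≤
        (range k).card := by
      apply Finset.card_le_card_of_injOn (fun l => l / x)
      · intro l hl
        simp only [Finset.coe_filter, Finset.mem_range, Set.mem_ofPred_eq, Finset.coe_range,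
          Set.mem_Iio] at hl ⊢
        exact Nat.div_lt_of_lt_mul hl.1
      · intro l hl l' hl' he
        simp only [Finset.coe_filter, Finset.mem_range, Set.mem_ofPred_eq] at hl hl'
        have h3 : (l : ℤ) ≡ l' [ZMOD (x : ℤ)] := hl.2.trans hl'.2.symm
        have h4 : l ≡ l' [MOD x] := (Int.natCast_modEq_iff).1 h3
        have h5 : l % x = l' % x := h4
        simp only at he
        rw [← Nat.div_add_mod l x, ← Nat.div_add_mod l' x, he, h5]
    simpa using h2
  have hx1 : (0 : ℝ) < x := by exact_mod_cast hx0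
  rw [le_div_iff₀ hx1]
  push_cast
  have : (((range (x * k)).filter (fun l : ℕ => (l : ℤ) ≡ a [ZMOD (x : ℤ)])).card : ℝ) ≤ k := by
    exact_mod_cast h1
  nlinarith

/-- number of residues in two classes -/
private theorem Dens_cnt2 (s x x' : ℕ) (a a' : ℤ) (hs : 0 < s) (hx : x ∣ s) (hx' : x' ∣ s) :
    (((range s).filter (fun l : ℕ => (l : ℤ) ≡ a [ZMOD (x : ℤ)] ∧
      (l : ℤ) ≡ a' [ZMOD (x' : ℤ)])).card : ℝ) ≤ (s : ℝ) * ((x.gcd x' : ℕ) / ((x : ℝ) * x')) := by
  rcases ((range s).filter (fun l : ℕ => (l : ℤ) ≡ a [ZMOD (x : ℤ)] ∧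
      (l : ℤ) ≡ a' [ZMOD (x' : ℤ)])).eq_empty_or_nonempty with h | ⟨l0, hl0⟩
  · rw [h]
    simp only [Finset.card_empty, Nat.cast_zero]
    positivity
  · rw [Finset.mem_filter] at hl0
    have h1 : (range s).filter (fun l : ℕ => (l : ℤ) ≡ a [ZMOD (x : ℤ)] ∧
      (l : ℤ) ≡ a' [ZMOD (x' : ℤ)]) ⊆
      (range s).filter (fun l : ℕ => (l : ℤ) ≡ l0 [ZMOD ((x.lcm x' : ℕ) : ℤ)]) := by
      intro l hl
      rw [Finset.mem_filter] at hl ⊢
      refine ⟨hl.1, ?_⟩
      have e1 : (x : ℤ) ∣ (l0 : ℤ) - l := (hl.2.1.trans hl0.2.1.symm).dvd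
      have e2 : (x' : ℤ) ∣ (l0 : ℤ) - l := (hl.2.2.trans hl0.2.2.symm).dvd
      apply Int.modEq_of_dvd
      rw [Int.natCast_dvd] at e1 e2 ⊢
      exact Nat.lcm_dvd e1 e2
    have h2 := Dens_cnt1 s (x.lcm x') l0 hs (Nat.lcm_dvd hx hx')
    have h3 : (((range s).filter (fun l : ℕ => (l : ℤ) ≡ a [ZMOD (x : ℤ)] ∧
      (l : ℤ) ≡ a' [ZMOD (x' : ℤ)])).card : ℝ) ≤
      ((range s).filter (fun l : ℕ => (l : ℤ) ≡ l0 [ZMOD ((x.lcm x' : ℕ) : ℤ)])).card := by
      exact_mod_cast Finset.card_le_card h1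
    refine h3.trans (h2.trans (le_of_eq ?_))
    have hx0 : 0 < x := Nat.pos_of_dvd_of_pos hx hs
    have hx0' : 0 < x' := Nat.pos_of_dvd_of_pos hx' hs
    have hg : (x.gcd x' : ℝ) * (x.lcm x' : ℕ) = x * x' := by
      exact_mod_cast Nat.gcd_mul_lcm x x'
    have hl : (0 : ℝ) < (x.lcm x' : ℕ) := by exact_mod_cast Nat.lcm_pos hx0 hx0'
    have hx1 : (0 : ℝ) < x := by exact_mod_cast hx0
    have hx2 : (0 : ℝ) < x' := by exact_mod_cast hx0'
    rw [← hg]
    have hgp : (0 : ℝ) < (x.gcd x' : ℕ) := by exact_mod_cast Nat.gcd_pos_of_pos_left _ hx0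
    field_simp

/-- divisors which are multiples of `d` -/
private theorem Dens_mul (n d : ℕ) (K : ℝ) (hd : 0 < d)
    (hK : ∑ x ∈ n.divisors, (1 : ℝ) / x ≤ K) :
    ∑ x ∈ n.divisors.filter (fun x => d ∣ x), (1 : ℝ) / x ≤ K / d := by
  have hd' : (0 : ℝ) < d := by exact_mod_cast hd
  have h1 : ∑ x ∈ n.divisors.filter (fun x => d ∣ x), (1 : ℝ) / x =
      ∑ x ∈ n.divisors.filter (fun x => d ∣ x), (1 / d) * ((1 : ℝ) / (x / d : ℕ)) := by
    apply Finset.sum_congr rfl
    intro x hx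
    rw [Finset.mem_filter, Nat.mem_divisors] at hx
    obtain ⟨k, rfl⟩ := hx.2
    rw [Nat.mul_div_cancel_left _ hd]
    push_cast
    rw [one_div_mul_one_div]
  rw [h1, ← Finset.mul_sum]
  have h2 : ∑ x ∈ n.divisors.filter (fun x => d ∣ x), ((1 : ℝ) / (x / d : ℕ)) =
      ∑ y ∈ (n.divisors.filter (fun x => d ∣ x)).image (fun x => x / d), ((1 : ℝ) / y) := by
    rw [Finset.sum_image]
    intro x hx y hy he
    simp only [Finset.coe_filter, Nat.mem_divisors, Set.mem_ofPred_eq] at hx hy he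
    rw [← Nat.mul_div_cancel' hx.2, ← Nat.mul_div_cancel' hy.2, he]
  rw [h2]
  have h3 : ∑ y ∈ (n.divisors.filter (fun x => d ∣ x)).image (fun x => x / d), ((1 : ℝ) / y) ≤
      ∑ y ∈ n.divisors, ((1 : ℝ) / y) := by
    apply Finset.sum_le_sum_of_subset_of_nonneg
    · intro y hy
      rw [Finset.mem_image] at hy
      obtain ⟨x, hx, rfl⟩ := hy
      rw [Finset.mem_filter, Nat.mem_divisors] at hx
      rw [Nat.mem_divisors]
      exact ⟨(Nat.div_dvd_of_dvd hx.2).trans hx.1.1, hx.1.2⟩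
    · intro y _ _
      positivity
  calc (1 : ℝ) / d * ∑ y ∈ (n.divisors.filter (fun x => d ∣ x)).image (fun x => x / d),
        ((1 : ℝ) / y) ≤ 1 / d * K := by
        apply mul_le_mul_of_nonneg_left (h3.trans hK) (by positivity)
    _ = K / d := by ring

/-- the sum of `gcd / (x y)` -/
private theorem Dens_gcd (n : ℕ) (K : ℝ)
    (hK : ∑ x ∈ n.divisors, (1 : ℝ) / x ≤ K) :
    ∑ x ∈ n.divisors, ∑ y ∈ n.divisors, ((x.gcd y : ℕ) : ℝ) / ((x : ℝ) * y) ≤ K ^ 3 := by
  have hK0 : 0 ≤ K := le_trans (Finset.sum_nonneg (fun d _ => by positivity)) hK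
  calc ∑ x ∈ n.divisors, ∑ y ∈ n.divisors, ((x.gcd y : ℕ) : ℝ) / ((x : ℝ) * y)
      ≤ ∑ x ∈ n.divisors, ∑ y ∈ n.divisors, ∑ d ∈ n.divisors,
          (if d ∣ x then (1 : ℝ) / x else 0) * (if d ∣ y then (1 : ℝ) / y else 0) * d := by
        apply Finset.sum_le_sum
        intro x hx
        apply Finset.sum_le_sum
        intro y hy
        rw [Nat.mem_divisors] at hx hy
        have hg : x.gcd y ∈ n.divisors := by
          rw [Nat.mem_divisors]
          exact ⟨(Nat.gcd_dvd_left x y).trans hx.1, hx.2⟩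
        have h1 := Finset.single_le_sum (f := fun d : ℕ =>
          (if d ∣ x then (1 : ℝ) / x else 0) * (if d ∣ y then (1 : ℝ) / y else 0) * d)
          (fun d _ => by
            split_ifs <;> positivity) hg
        refine le_trans (le_of_eq ?_) h1
        simp only [Nat.gcd_dvd_left, Nat.gcd_dvd_right, if_true]
        rw [one_div_mul_one_div]
        ring
    _ = ∑ d ∈ n.divisors, (∑ x ∈ n.divisors.filter (fun x => d ∣ x), (1 : ℝ) / x) ^ 2 * d := by
        have e1 : ∀ x ∈ n.divisors, ∑ y ∈ n.divisors, ∑ d ∈ n.divisors,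
          (if d ∣ x then (1 : ℝ) / x else 0) * (if d ∣ y then (1 : ℝ) / y else 0) * d =
          ∑ d ∈ n.divisors, ∑ y ∈ n.divisors,
          (if d ∣ x then (1 : ℝ) / x else 0) * (if d ∣ y then (1 : ℝ) / y else 0) * d := by
          intro x _
          exact Finset.sum_comm
        rw [Finset.sum_congr rfl e1, Finset.sum_comm]
        apply Finset.sum_congr rfl
        intro d _
        rw [Finset.sum_filter, sq, Finset.sum_mul_sum, Finset.sum_mul]
        apply Finset.sum_congr rfl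
        intro x _
        rw [Finset.sum_mul]
    _ ≤ ∑ d ∈ n.divisors, K ^ 2 * (1 / d) := by
        apply Finset.sum_le_sum
        intro d hd
        have hd0 : 0 < d := Nat.pos_of_mem_divisors hd
        have hd' : (0 : ℝ) < d := by exact_mod_cast hd0
        have h1 := Dens_mul n d K hd0 hK
        have h0 : 0 ≤ ∑ x ∈ n.divisors.filter (fun x => d ∣ x), (1 : ℝ) / x :=
          Finset.sum_nonneg (fun d _ => by positivity)
        calc (∑ x ∈ n.divisors.filter (fun x => d ∣ x), (1 : ℝ) / x) ^ 2 * d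
            ≤ (K / d) ^ 2 * d := by
              apply mul_le_mul_of_nonneg_right _ hd'.le
              exact pow_le_pow_left₀ h0 h1 2
          _ = K ^ 2 * (1 / d) := by
              field_simp
    _ = K ^ 2 * ∑ d ∈ n.divisors, (1 : ℝ) / d := by rw [Finset.mul_sum]
    _ ≤ K ^ 2 * K := mul_le_mul_of_nonneg_left hK (by positivity)
    _ = K ^ 3 := by ring

/-- pairs of rough divisors with a common prime -/
private theorem Dens_rough (n P0 : ℕ) (K : ℝ) (hn : 0 < n) (hP : 0 < P0)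
    (hr : ∀ p : ℕ, p.Prime → p ∣ n → P0 < p)
    (hK : ∑ x ∈ n.divisors, (1 : ℝ) / x ≤ K) :
    ∑ x ∈ n.divisors, ∑ y ∈ n.divisors,
      (if 1 < x.gcd y then (1 : ℝ) / ((x : ℝ) * y) else 0) ≤ K ^ 3 / P0 := by
  have hK0 : 0 ≤ K := le_trans (Finset.sum_nonneg (fun d _ => by positivity)) hK
  have hP' : (0 : ℝ) < P0 := by exact_mod_cast hP
  calc ∑ x ∈ n.divisors, ∑ y ∈ n.divisors,
      (if 1 < x.gcd y then (1 : ℝ) / ((x : ℝ) * y) else 0)
      ≤ ∑ x ∈ n.divisors, ∑ y ∈ n.divisors, ∑ d ∈ n.primeFactors,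
          (if d ∣ x then (1 : ℝ) / x else 0) * (if d ∣ y then (1 : ℝ) / y else 0) := by
        apply Finset.sum_le_sum
        intro x hx
        apply Finset.sum_le_sum
        intro y hy
        rw [Nat.mem_divisors] at hx hy
        have hnn : ∀ d ∈ n.primeFactors, (0 : ℝ) ≤
          (if d ∣ x then (1 : ℝ) / x else 0) * (if d ∣ y then (1 : ℝ) / y else 0) := by
          intro d _
          split_ifs <;> positivity
        split_ifs with hg
        · obtain ⟨p, hp, hd⟩ := Nat.exists_prime_and_dvd hg.ne'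
          have hpx : p ∣ x := hd.trans (Nat.gcd_dvd_left x y)
          have hpy : p ∣ y := hd.trans (Nat.gcd_dvd_right x y)
          have hpm : p ∈ n.primeFactors := by
            rw [Nat.mem_primeFactors]
            exact ⟨hp, hpx.trans hx.1, hx.2⟩
          have h1 := Finset.single_le_sum hnn hpm
          refine le_trans (le_of_eq ?_) h1
          simp only [hpx, hpy, if_true]
          rw [one_div_mul_one_div]
        · exact Finset.sum_nonneg hnn
    _ = ∑ d ∈ n.primeFactors, (∑ x ∈ n.divisors.filter (fun x => d ∣ x), (1 : ℝ) / x) ^ 2 := by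
        have e1 : ∀ x ∈ n.divisors, ∑ y ∈ n.divisors, ∑ d ∈ n.primeFactors,
          (if d ∣ x then (1 : ℝ) / x else 0) * (if d ∣ y then (1 : ℝ) / y else 0) =
          ∑ d ∈ n.primeFactors, ∑ y ∈ n.divisors,
          (if d ∣ x then (1 : ℝ) / x else 0) * (if d ∣ y then (1 : ℝ) / y else 0) := by
          intro x _
          exact Finset.sum_comm
        rw [Finset.sum_congr rfl e1, Finset.sum_comm]
        apply Finset.sum_congr rfl
        intro d _
        rw [Finset.sum_filter, sq, Finset.sum_mul_sum]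
    _ ≤ ∑ d ∈ n.primeFactors, K ^ 2 / P0 * (1 / d) := by
        apply Finset.sum_le_sum
        intro d hd
        rw [Nat.mem_primeFactors] at hd
        have hd0 : 0 < d := hd.1.pos
        have hd' : (0 : ℝ) < d := by exact_mod_cast hd0
        have h1 := Dens_mul n d K hd0 hK
        have h0 : 0 ≤ ∑ x ∈ n.divisors.filter (fun x => d ∣ x), (1 : ℝ) / x :=
          Finset.sum_nonneg (fun d _ => by positivity)
        have hPd : (P0 : ℝ) ≤ d := by exact_mod_cast (hr d hd.1 hd.2.1).le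
        calc (∑ x ∈ n.divisors.filter (fun x => d ∣ x), (1 : ℝ) / x) ^ 2
            ≤ (K / d) ^ 2 := pow_le_pow_left₀ h0 h1 2
          _ = K ^ 2 / d * (1 / d) := by
              field_simp
          _ ≤ K ^ 2 / P0 * (1 / d) := by
              apply mul_le_mul_of_nonneg_right _ (by positivity)
              exact div_le_div_of_nonneg_left (by positivity) hP' hPd
    _ = K ^ 2 / P0 * ∑ d ∈ n.primeFactors, (1 : ℝ) / d := by rw [Finset.mul_sum]
    _ ≤ K ^ 2 / P0 * K := by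
        apply mul_le_mul_of_nonneg_left _ (by positivity)
        refine le_trans ?_ hK
        apply Finset.sum_le_sum_of_subset_of_nonneg
        · intro p hp
          rw [Nat.mem_divisors]
          exact ⟨Nat.dvd_of_mem_primeFactors hp, by omega⟩
        · intro d _ _
          positivity
    _ = K ^ 3 / P0 := by ring

/-- smooth numbers: tails of the sum of reciprocals -/
private theorem Dens_tail (P0 : ℕ) (η : ℝ) (hη : 0 < η) : ∃ L0 : ℝ, 1 ≤ L0 ∧ ∀ s : ℕ, 0 < s →
    (∀ p : ℕ, p.Prime → p ∣ s → p ≤ P0) →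
    ∑ x ∈ s.divisors.filter (fun x : ℕ => L0 ≤ (x : ℝ)), (1 : ℝ) / x ≤ η := by
  classical
  let f : ℕ →* ℝ :=
    { toFun := fun n => (n : ℝ)⁻¹
      map_one' := by simp
      map_mul' := fun a b => by
        push_cast
        rw [mul_inv] }
  have hf : ∀ n : ℕ, f n = (n : ℝ)⁻¹ := fun n => rfl
  have h1 : Summable (fun m : (P0 + 1).smoothNumbers => ‖f m‖) :=
    (EulerProduct.summable_and_hasSum_smoothNumbers_prod_primesBelow_geometric (f := f)
      (fun {p} hp => by
        rw [hf, norm_inv, Real.norm_natCast]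
        exact inv_lt_one_of_one_lt₀ (by exact_mod_cast hp.one_lt)) (P0 + 1)).1
  rw [summable_iff_vanishing_norm] at h1
  obtain ⟨T, hT⟩ := h1 η hη
  refine ⟨((∑ t ∈ T, (t : ℕ) : ℕ) : ℝ) + 1, by
    have : (0 : ℝ) ≤ ((∑ t ∈ T, (t : ℕ) : ℕ) : ℝ) := Nat.cast_nonneg _
    linarith, ?_⟩
  intro s hs hp
  have hmem : ∀ x ∈ s.divisors, x ∈ (P0 + 1).smoothNumbers := by
    intro x hx
    rw [Nat.mem_smoothNumbers']
    intro p hp' hpx
    have := hp p hp' (hpx.trans (Nat.dvd_of_mem_divisors hx))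
    omega
  set F := s.divisors.filter (fun x : ℕ => ((∑ t ∈ T, (t : ℕ) : ℕ) : ℝ) + 1 ≤ (x : ℝ)) with hF
  have h2 : ∑ x ∈ F.subtype (fun x => x ∈ (P0 + 1).smoothNumbers), ‖f x‖ =
      ∑ x ∈ F, ‖f x‖ :=
    Finset.sum_subtype_of_mem (fun x : ℕ => ‖f x‖) (fun x hx => hmem x (by
      rw [hF, Finset.mem_filter] at hx
      exact hx.1))
  have h3 := hT (F.subtype (fun x => x ∈ (P0 + 1).smoothNumbers)) (by
    rw [Finset.disjoint_left]
    intro x hx hxT
    rw [Finset.mem_subtype, hF, Finset.mem_filter] at hx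
    have h4 : (x : ℕ) ≤ ∑ t ∈ T, (t : ℕ) :=
      Finset.single_le_sum (f := fun t : (P0 + 1).smoothNumbers => (t : ℕ))
        (fun t _ => Nat.zero_le _) hxT
    have h5 : ((x : ℕ) : ℝ) ≤ ((∑ t ∈ T, (t : ℕ) : ℕ) : ℝ) := by exact_mod_cast h4
    linarith [hx.2])
  rw [h2, Real.norm_of_nonneg (Finset.sum_nonneg (fun _ _ => norm_nonneg _))] at h3
  refine le_trans (le_of_eq ?_) h3.le
  apply Finset.sum_congr rfl
  intro x _
  rw [hf, norm_inv, Real.norm_natCast, one_div]

private theorem Dens_exp (y : ℕ) (hy : 2 ≤ y) :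
    Real.exp (-(2 * (1 / (y : ℝ)))) ≤ 1 - 1 / (y : ℝ) := by
  have hy' : (2 : ℝ) ≤ y := by exact_mod_cast hy
  set u : ℝ := 1 / (y : ℝ) with hu
  have hu0 : 0 < u := by positivity
  have hu1 : u ≤ 1 / 2 := by
    rw [hu]
    exact div_le_div_of_nonneg_left (by norm_num) (by norm_num) hy'
  have h := Real.quadratic_le_exp_of_nonneg (x := 2 * u) (by positivity)
  rw [Real.exp_neg, inv_le_iff_one_le_mul₀ (Real.exp_pos _)]
  have h1 : (1 - u) * (1 + 2 * u + (2 * u) ^ 2 / 2) ≤ (1 - u) * Real.exp (2 * u) :=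
    mul_le_mul_of_nonneg_left h (by linarith)
  nlinarith [mul_pos hu0 hu0, mul_nonneg hu0.le (mul_nonneg hu0.le (by linarith : 0 ≤ 1/2 - u)),
    mul_nonneg hu0.le (by linarith : 0 ≤ 1/2 - u)]

/-- the sets of integers in the statements are images of sets of natural numbers -/
private theorem Dens_bridge (inst : (P : Prop) → Decidable P) (N : ℕ) (P : ℤ → Prop)
    [DecidablePred P] :
    ((Finset.range N).filter (fun l : ℕ => P (l : ℤ))).card =
      (Finset.filter P (Finset.range N >>= fun a => (pure (a : ℤ) : Finset ℤ))).card := by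
  have h1 : Finset.filter P (Finset.range N >>= fun a => (pure (a : ℤ) : Finset ℤ)) =
      ((Finset.range N).filter (fun l : ℕ => P (l : ℤ))).image (fun l : ℕ => (l : ℤ)) := by
    ext z
    rw [Finset.mem_filter, Finset.mem_image]
    simp only [Finset.bind_def, Finset.pure_def, Finset.mem_sup, Finset.mem_singleton,
      Finset.mem_filter]
    constructor
    · rintro ⟨⟨a, ha, rfl⟩, hz⟩
      exact ⟨a, ⟨ha, hz⟩, rfl⟩
    · rintro ⟨a, ⟨ha, hz⟩, rfl⟩
      exact ⟨⟨a, ha, rfl⟩, hz⟩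
  rw [h1, Finset.card_image_of_injective _ Nat.cast_injective]

/-- the indices: `v = x y`, `x ∣ s`, `y ∣ r`, `y > 1`, and a class of `A v` -/
private noncomputable def DensI (s r : ℕ) (A : ℕ → Finset ℤ) : Finset (Σ _ : ℕ × ℕ, ℤ) :=
  ((s.divisors ×ˢ r.divisors).filter (fun p => 1 < p.2)).sigma (fun p => A (p.1 * p.2))

private theorem DensI_mem (s r : ℕ) (A : ℕ → Finset ℤ) (i : Σ _ : ℕ × ℕ, ℤ) :
    i ∈ DensI s r A ↔ i.1.1 ∈ s.divisors ∧ i.1.2 ∈ r.divisors ∧ 1 < i.1.2 ∧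
      i.2 ∈ A (i.1.1 * i.1.2) := by
  unfold DensI
  rw [Finset.mem_sigma, Finset.mem_filter, Finset.mem_product]
  tauto

private theorem DensI_sum (s r : ℕ) (A : ℕ → Finset ℤ) (hA : ∀ v, (A v).card ≤ 2)
    (f : ℕ × ℕ → ℝ) (hf : ∀ p, 0 ≤ f p) :
    ∑ i ∈ DensI s r A, f i.1 ≤ 2 * ∑ p ∈ s.divisors ×ˢ r.divisors, f p := by
  unfold DensI
  rw [Finset.sum_sigma, Finset.mul_sum]
  have h1 : ∑ a ∈ (s.divisors ×ˢ r.divisors).filter (fun p => 1 < p.2),
      ∑ _b ∈ A (a.1 * a.2), f a ≤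
      ∑ a ∈ (s.divisors ×ˢ r.divisors).filter (fun p => 1 < p.2), 2 * f a := by
    apply Finset.sum_le_sum
    intro a _
    rw [Finset.sum_const, nsmul_eq_mul]
    apply mul_le_mul_of_nonneg_right _ (hf a)
    exact_mod_cast hA _
  refine h1.trans ?_
  apply Finset.sum_le_sum_of_subset_of_nonneg (Finset.filter_subset _ _)
  intro p _ _
  have := hf p
  positivity

open Classical in
/-- the indices compatible with `σ` -/
private noncomputable def DensJ (s r : ℕ) (A : ℕ → Finset ℤ) (σ : ℕ) :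
    Finset (Σ _ : ℕ × ℕ, ℤ) :=
  (DensI s r A).filter (fun i => (σ : ℤ) ≡ i.2 [ZMOD (i.1.1 : ℤ)])

open Classical in
private noncomputable def DensE (s r : ℕ) (A : ℕ → Finset ℤ) (σ : ℕ) : ℝ :=
  ∑ i ∈ DensJ s r A σ, ∑ j ∈ DensJ s r A σ,
    (if 1 < (i.1.2).gcd j.1.2 then (1 : ℝ) / ((i.1.2 : ℝ) * j.1.2) else 0)

private noncomputable def DensP (s r : ℕ) (A : ℕ → Finset ℤ) (σ : ℕ) : ℝ :=
  ∏ i ∈ DensJ s r A σ, (1 - 1 / (i.1.2 : ℝ))

private noncomputable def DensY (s r : ℕ) (A : ℕ → Finset ℤ) (σ : ℕ) : ℝ :=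
  ∑ i ∈ DensJ s r A σ, 1 / (i.1.2 : ℝ)

open Classical in
private theorem Dens_fix (hF : FFK) (s r : ℕ) (hs : 0 < s) (hr : 0 < r) (hco : s.Coprime r)
    (A : ℕ → Finset ℤ) (L0 : ℝ) (σ : ℕ)
    (hgood : ∀ x ∈ s.divisors, L0 ≤ (x : ℝ) → ∀ a ∈ A x, ¬ ((σ : ℤ) ≡ a [ZMOD (x : ℤ)])) :
    (r : ℝ) * (DensP s r A σ - DensE s r A σ) ≤
      (((range r).filter (fun t : ℕ => Avd L0 A (s * r) ((σ : ℤ) + s * t))).card : ℝ) := by
  obtain ⟨s', hs'⟩ := Int.mod_coprime hco
  have hJ : ∀ i ∈ DensJ s r A σ, i ∈ DensI s r A ∧ (σ : ℤ) ≡ i.2 [ZMOD (i.1.1 : ℤ)] := by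
    intro i hi
    unfold DensJ at hi
    rwa [Finset.mem_filter] at hi
  have h1 := hF (Σ _ : ℕ × ℕ, ℤ) (DensJ s r A σ) (fun i => i.1.2)
    (fun i => s' * (i.2 - σ)) r hr (by
      intro i hi
      exact Nat.dvd_of_mem_divisors ((DensI_mem s r A i).1 (hJ i hi).1).2.1)
  refine le_trans ?_ (h1.trans ?_)
  · apply mul_le_mul_of_nonneg_left _ (Nat.cast_nonneg _)
    apply sub_le_sub_left
    unfold DensE
    apply Finset.sum_le_sum
    intro i _
    rw [Finset.sum_filter]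
    apply Finset.sum_le_sum
    intro j _
    by_cases hg : 1 < (i.1.2).gcd j.1.2
    · rw [if_pos hg]
      split_ifs
      · exact le_rfl
      · positivity
    · rw [if_neg hg, if_neg (fun h => hg h.2)]
  · have h2 : (range r).filter (fun l : ℕ => ∀ i ∈ DensJ s r A σ,
        ¬ ((l : ℤ) ≡ s' * (i.2 - σ) [ZMOD ((i.1.2 : ℕ) : ℤ)])) ⊆
        (range r).filter (fun t : ℕ => Avd L0 A (s * r) ((σ : ℤ) + s * t)) := by
      intro t ht
      rw [Finset.mem_filter] at ht ⊢
      refine ⟨ht.1, ?_⟩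
      intro v hv hL a ha hc
      rw [Nat.mem_divisors] at hv
      obtain ⟨x, y, hx, hy, rfl⟩ := (Nat.dvd_mul).1 hv.1
      have c1 : (σ : ℤ) ≡ a [ZMOD (x : ℤ)] := by
        have e1 : ((σ : ℤ) + s * t) ≡ a [ZMOD (x : ℤ)] := by
          apply hc.of_dvd
          push_cast
          exact Dvd.intro _ rfl
        have e2 : ((σ : ℤ) + s * t) ≡ σ [ZMOD (x : ℤ)] := by
          apply Int.modEq_of_dvd
          have : (x : ℤ) ∣ s := by exact_mod_cast hx
          have e3 : (σ : ℤ) - (σ + s * t) = - (s * t) := by ring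
          rw [e3]
          exact (this.mul_right _).neg_right
        exact e2.symm.trans e1
      rcases Nat.lt_or_ge 1 y with hy1 | hy1
      · have hi : (⟨(x, y), a⟩ : Σ _ : ℕ × ℕ, ℤ) ∈ DensJ s r A σ := by
          unfold DensJ
          rw [Finset.mem_filter, DensI_mem]
          refine ⟨⟨?_, ?_, hy1, ha⟩, c1⟩
          · rw [Nat.mem_divisors]
            exact ⟨hx, hs.ne'⟩
          · rw [Nat.mem_divisors]
            exact ⟨hy, hr.ne'⟩
        apply ht.2 _ hi
        simp only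
        have e1 : ((σ : ℤ) + s * t) ≡ a [ZMOD (y : ℤ)] := by
          apply hc.of_dvd
          push_cast
          exact Dvd.intro_left _ rfl
        have e2 : (s : ℤ) * s' ≡ 1 [ZMOD (y : ℤ)] := hs'.of_dvd (by exact_mod_cast hy)
        have e3 : (s : ℤ) * t ≡ a - σ [ZMOD (y : ℤ)] := by
          have := e1.sub_right (σ : ℤ)
          have e4 : (σ : ℤ) + s * t - σ = s * t := by ring
          rwa [e4] at this
        have e5 : s' * ((s : ℤ) * t) ≡ s' * (a - σ) [ZMOD (y : ℤ)] := e3.mul_left s'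
        have e6 : s' * ((s : ℤ) * t) ≡ t [ZMOD (y : ℤ)] := by
          have := e2.mul_right (t : ℤ)
          have e7 : s' * ((s : ℤ) * t) = s * s' * t := by ring
          rw [e7]
          rwa [one_mul] at this
        exact e6.symm.trans e5
      · have hy0 : 0 < y := Nat.pos_of_dvd_of_pos hy hr
        have hy2 : y = 1 := by omega
        subst hy2
        rw [mul_one] at hL ha
        exact hgood x (by rw [Nat.mem_divisors]; exact ⟨hx, hs.ne'⟩) hL a ha c1
    rw [Nat.cast_le]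
    refine le_trans (le_of_eq ?_) (Finset.card_le_card h2)
    symm
    exact Dens_bridge _ r (fun l : ℤ => ∀ i ∈ DensJ s r A σ,
      ¬ (l ≡ s' * (i.2 - σ) [ZMOD ((i.1.2 : ℕ) : ℤ)]))

private theorem Dens_P1 (s r : ℕ) (A : ℕ → Finset ℤ) (σ : ℕ) :
    DensP s r A σ ≤ 1 := by
  unfold DensP
  apply Finset.prod_le_one
  · intro i hi
    unfold DensJ at hi
    rw [Finset.mem_filter, DensI_mem] at hi
    have h1 : (1 : ℝ) ≤ (i.1.2 : ℕ) := by exact_mod_cast hi.1.2.2.1.le
    have : 1 / ((i.1.2 : ℕ) : ℝ) ≤ 1 := by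
      rw [div_le_one (by linarith)]
      exact h1
    linarith
  · intro i _
    have : (0 : ℝ) ≤ 1 / ((i.1.2 : ℕ) : ℝ) := by positivity
    linarith

private theorem Dens_E0 (s r : ℕ) (A : ℕ → Finset ℤ) (σ : ℕ) : 0 ≤ DensE s r A σ := by
  unfold DensE
  apply Finset.sum_nonneg
  intro i _
  apply Finset.sum_nonneg
  intro j _
  split_ifs <;> positivity

private theorem Dens_PY (s r : ℕ) (A : ℕ → Finset ℤ) (σ : ℕ) (K : ℝ) :
    Real.exp (-(4 * K)) * (1 + 4 * K - 2 * DensY s r A σ) ≤ DensP s r A σ := by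
  have h1 : Real.exp (-(2 * DensY s r A σ)) ≤ DensP s r A σ := by
    unfold DensY DensP
    rw [Finset.mul_sum, ← Finset.sum_neg_distrib, Real.exp_sum]
    apply Finset.prod_le_prod
    · intro i _
      exact (Real.exp_pos _).le
    · intro i hi
      unfold DensJ at hi
      rw [Finset.mem_filter, DensI_mem] at hi
      exact Dens_exp _ hi.1.2.2.1
  refine le_trans ?_ h1
  have h2 : Real.exp (-(2 * DensY s r A σ)) =
      Real.exp (-(4 * K)) * Real.exp (4 * K - 2 * DensY s r A σ) := by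
    rw [← Real.exp_add]
    congr 1
    ring
  rw [h2]
  apply mul_le_mul_of_nonneg_left _ (Real.exp_pos _).le
  have := Real.add_one_le_exp (4 * K - 2 * DensY s r A σ)
  linarith

private theorem Dens_Ysum (s r : ℕ) (hs : 0 < s) (hco : s.Coprime r)
    (A : ℕ → Finset ℤ) (hA : ∀ v, (A v).card ≤ 2) (K : ℝ)
    (hK : ∑ x ∈ (s * r).divisors, (1 : ℝ) / x ≤ K) :
    ∑ σ ∈ range s, DensY s r A σ ≤ 2 * s * K := by
  classical
  have h1 : ∑ σ ∈ range s, DensY s r A σ = ∑ i ∈ DensI s r A,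
      ((((range s).filter (fun l : ℕ => (l : ℤ) ≡ i.2 [ZMOD (i.1.1 : ℤ)])).card : ℝ) *
        (1 / (i.1.2 : ℝ))) := by
    unfold DensY DensJ
    have e1 : ∀ σ ∈ range s, ∑ i ∈ (DensI s r A).filter
        (fun i => (σ : ℤ) ≡ i.2 [ZMOD (i.1.1 : ℤ)]), 1 / (i.1.2 : ℝ) =
        ∑ i ∈ DensI s r A, (if (σ : ℤ) ≡ i.2 [ZMOD (i.1.1 : ℤ)] then 1 / (i.1.2 : ℝ) else 0) := by
      intro σ _
      rw [Finset.sum_filter]
    rw [Finset.sum_congr rfl e1, Finset.sum_comm]
    apply Finset.sum_congr rfl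
    intro i _
    rw [← Finset.sum_filter, Finset.sum_const, nsmul_eq_mul]
  rw [h1]
  have h2 : ∑ i ∈ DensI s r A,
      ((((range s).filter (fun l : ℕ => (l : ℤ) ≡ i.2 [ZMOD (i.1.1 : ℤ)])).card : ℝ) *
        (1 / (i.1.2 : ℝ))) ≤
      ∑ i ∈ DensI s r A, (fun p : ℕ × ℕ => (s : ℝ) / p.1 * (1 / (p.2 : ℝ))) i.1 := by
    apply Finset.sum_le_sum
    intro i hi
    rw [DensI_mem] at hi
    apply mul_le_mul_of_nonneg_right _ (by positivity)
    exact Dens_cnt1 s i.1.1 i.2 hs (Nat.dvd_of_mem_divisors hi.1)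
  refine h2.trans ((DensI_sum s r A hA (fun p : ℕ × ℕ => (s : ℝ) / p.1 * (1 / (p.2 : ℝ)))
    (fun p => by positivity)).trans ?_)
  have h3 : ∑ p ∈ s.divisors ×ˢ r.divisors, (s : ℝ) / p.1 * (1 / (p.2 : ℝ)) =
      s * ∑ x ∈ (s * r).divisors, (1 : ℝ) / x := by
    rw [ds_mul s r hco, Finset.sum_product, Finset.sum_mul_sum, Finset.mul_sum]
    apply Finset.sum_congr rfl
    intro x _
    rw [Finset.mul_sum]
    apply Finset.sum_congr rfl
    intro y _
    simp only
    ring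
  rw [h3]
  have : (s : ℝ) * ∑ x ∈ (s * r).divisors, (1 : ℝ) / x ≤ s * K :=
    mul_le_mul_of_nonneg_left hK (Nat.cast_nonneg _)
  linarith

private theorem Dens_Esum (s r P0 : ℕ) (hs : 0 < s) (hr : 0 < r) (hP : 0 < P0)
    (hrr : ∀ p : ℕ, p.Prime → p ∣ r → P0 < p)
    (A : ℕ → Finset ℤ) (hA : ∀ v, (A v).card ≤ 2) (K : ℝ)
    (hK1 : ∑ x ∈ s.divisors, (1 : ℝ) / x ≤ K) (hK2 : ∑ x ∈ r.divisors, (1 : ℝ) / x ≤ K) :
    ∑ σ ∈ range s, DensE s r A σ ≤ s * (4 * K ^ 6 / P0) := by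
  classical
  have hK0 : 0 ≤ K := le_trans (Finset.sum_nonneg (fun d _ => by positivity)) hK1
  set G : ℕ × ℕ → ℕ × ℕ → ℝ := fun p q =>
    (s * ((p.1.gcd q.1 : ℕ) / ((p.1 : ℝ) * q.1))) *
      (if 1 < (p.2).gcd q.2 then (1 : ℝ) / ((p.2 : ℝ) * q.2) else 0) with hG
  have hG0 : ∀ p q, 0 ≤ G p q := by
    intro p q
    rw [hG]
    simp only
    split_ifs <;> positivity
  have h1 : ∑ σ ∈ range s, DensE s r A σ = ∑ i ∈ DensI s r A, ∑ j ∈ DensI s r A,
      ((((range s).filter (fun l : ℕ => (l : ℤ) ≡ i.2 [ZMOD (i.1.1 : ℤ)] ∧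
        (l : ℤ) ≡ j.2 [ZMOD (j.1.1 : ℤ)])).card : ℝ) *
        (if 1 < (i.1.2).gcd j.1.2 then (1 : ℝ) / ((i.1.2 : ℝ) * j.1.2) else 0)) := by
    unfold DensE DensJ
    have e1 : ∀ σ ∈ range s, ∑ i ∈ (DensI s r A).filter
        (fun i => (σ : ℤ) ≡ i.2 [ZMOD (i.1.1 : ℤ)]), ∑ j ∈ (DensI s r A).filter
        (fun i => (σ : ℤ) ≡ i.2 [ZMOD (i.1.1 : ℤ)]),
          (if 1 < (i.1.2).gcd j.1.2 then (1 : ℝ) / ((i.1.2 : ℝ) * j.1.2) else 0) =
        ∑ i ∈ DensI s r A, ∑ j ∈ DensI s r A, (if (σ : ℤ) ≡ i.2 [ZMOD (i.1.1 : ℤ)] ∧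
          (σ : ℤ) ≡ j.2 [ZMOD (j.1.1 : ℤ)] then
          (if 1 < (i.1.2).gcd j.1.2 then (1 : ℝ) / ((i.1.2 : ℝ) * j.1.2) else 0) else 0) := by
      intro σ _
      rw [Finset.sum_filter]
      apply Finset.sum_congr rfl
      intro i _
      by_cases hi : (σ : ℤ) ≡ i.2 [ZMOD (i.1.1 : ℤ)]
      · rw [if_pos hi, Finset.sum_filter]
        apply Finset.sum_congr rfl
        intro j _
        by_cases hj : (σ : ℤ) ≡ j.2 [ZMOD (j.1.1 : ℤ)]
        · rw [if_pos hj, if_pos (show (σ : ℤ) ≡ i.2 [ZMOD (i.1.1 : ℤ)] ∧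
            (σ : ℤ) ≡ j.2 [ZMOD (j.1.1 : ℤ)] from ⟨hi, hj⟩)]
        · rw [if_neg hj, if_neg (show ¬ ((σ : ℤ) ≡ i.2 [ZMOD (i.1.1 : ℤ)] ∧
            (σ : ℤ) ≡ j.2 [ZMOD (j.1.1 : ℤ)]) from fun h => hj h.2)]
      · rw [if_neg hi]
        symm
        apply Finset.sum_eq_zero
        intro j _
        rw [if_neg (show ¬ ((σ : ℤ) ≡ i.2 [ZMOD (i.1.1 : ℤ)] ∧
            (σ : ℤ) ≡ j.2 [ZMOD (j.1.1 : ℤ)]) from fun h => hi h.1)]
    rw [Finset.sum_congr rfl e1, Finset.sum_comm]
    apply Finset.sum_congr rfl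
    intro i _
    rw [Finset.sum_comm]
    apply Finset.sum_congr rfl
    intro j _
    rw [← Finset.sum_filter, Finset.sum_const, nsmul_eq_mul]
  rw [h1]
  have h2 : ∑ i ∈ DensI s r A, ∑ j ∈ DensI s r A,
      ((((range s).filter (fun l : ℕ => (l : ℤ) ≡ i.2 [ZMOD (i.1.1 : ℤ)] ∧
        (l : ℤ) ≡ j.2 [ZMOD (j.1.1 : ℤ)])).card : ℝ) *
        (if 1 < (i.1.2).gcd j.1.2 then (1 : ℝ) / ((i.1.2 : ℝ) * j.1.2) else 0)) ≤
      ∑ i ∈ DensI s r A, ∑ j ∈ DensI s r A, G i.1 j.1 := by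
    apply Finset.sum_le_sum
    intro i hi
    apply Finset.sum_le_sum
    intro j hj
    rw [DensI_mem] at hi hj
    rw [hG]
    simp only
    apply mul_le_mul_of_nonneg_right _ (by split_ifs <;> positivity)
    exact Dens_cnt2 s i.1.1 j.1.1 i.2 j.2 hs (Nat.dvd_of_mem_divisors hi.1)
      (Nat.dvd_of_mem_divisors hj.1)
  have h3 : ∑ i ∈ DensI s r A, ∑ j ∈ DensI s r A, G i.1 j.1 ≤
      2 * ∑ p ∈ s.divisors ×ˢ r.divisors, (2 * ∑ q ∈ s.divisors ×ˢ r.divisors, G p q) := by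
    have e1 := DensI_sum s r A hA (fun p => ∑ j ∈ DensI s r A, G p j.1)
      (fun p => Finset.sum_nonneg (fun j _ => hG0 _ _))
    refine e1.trans ?_
    apply mul_le_mul_of_nonneg_left _ (by norm_num)
    apply Finset.sum_le_sum
    intro p _
    exact DensI_sum s r A hA (fun q => G p q) (fun q => hG0 _ _)
  refine h2.trans (h3.trans ?_)
  have h4 : ∑ p ∈ s.divisors ×ˢ r.divisors, (2 * ∑ q ∈ s.divisors ×ˢ r.divisors, G p q) =
      2 * (s * ((∑ x ∈ s.divisors, ∑ y ∈ s.divisors, ((x.gcd y : ℕ) : ℝ) / ((x : ℝ) * y)) *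
        (∑ x ∈ r.divisors, ∑ y ∈ r.divisors,
          (if 1 < x.gcd y then (1 : ℝ) / ((x : ℝ) * y) else 0)))) := by
    rw [← Finset.mul_sum]
    congr 1
    rw [Finset.sum_product, Finset.sum_mul_sum, Finset.mul_sum]
    apply Finset.sum_congr rfl
    intro x _
    rw [Finset.mul_sum]
    apply Finset.sum_congr rfl
    intro y _
    rw [Finset.sum_product, Finset.sum_mul_sum, Finset.mul_sum]
    apply Finset.sum_congr rfl
    intro x' _
    rw [Finset.mul_sum]
    apply Finset.sum_congr rfl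
    intro y' _
    rw [hG]
    simp only
    ring
  rw [h4]
  have h5 := Dens_gcd s K hK1
  have h6 := Dens_rough r P0 K hr hP hrr hK2
  have h60 : (0 : ℝ) ≤ ∑ x ∈ r.divisors, ∑ y ∈ r.divisors,
          (if 1 < x.gcd y then (1 : ℝ) / ((x : ℝ) * y) else 0) := by
    apply Finset.sum_nonneg
    intro x _
    apply Finset.sum_nonneg
    intro y _
    split_ifs <;> positivity
  have h7 : (∑ x ∈ s.divisors, ∑ y ∈ s.divisors, ((x.gcd y : ℕ) : ℝ) / ((x : ℝ) * y)) *
        (∑ x ∈ r.divisors, ∑ y ∈ r.divisors,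
          (if 1 < x.gcd y then (1 : ℝ) / ((x : ℝ) * y) else 0)) ≤ K ^ 3 * (K ^ 3 / P0) :=
    mul_le_mul h5 h6 h60 (by positivity)
  have h8 : (s : ℝ) * ((∑ x ∈ s.divisors, ∑ y ∈ s.divisors,
      ((x.gcd y : ℕ) : ℝ) / ((x : ℝ) * y)) *
        (∑ x ∈ r.divisors, ∑ y ∈ r.divisors,
          (if 1 < x.gcd y then (1 : ℝ) / ((x : ℝ) * y) else 0))) ≤ s * (K ^ 3 * (K ^ 3 / P0)) :=
    mul_le_mul_of_nonneg_left h7 (Nat.cast_nonneg _)
  calc _ ≤ 2 * (2 * ((s : ℝ) * (K ^ 3 * (K ^ 3 / P0)))) := by linarith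
    _ = s * (4 * K ^ 6 / P0) := by ring

open Classical in
private theorem Dens_bad (s : ℕ) (hs : 0 < s) (A : ℕ → Finset ℤ) (hA : ∀ v, (A v).card ≤ 2)
    (L0 η : ℝ) (hL : ∑ x ∈ s.divisors.filter (fun x : ℕ => L0 ≤ (x : ℝ)), (1 : ℝ) / x ≤ η) :
    (((range s).filter (fun σ : ℕ => ∃ x ∈ s.divisors, L0 ≤ (x : ℝ) ∧ ∃ a ∈ A x,
      (σ : ℤ) ≡ a [ZMOD (x : ℤ)])).card : ℝ) ≤ s * (2 * η) := by
  have h1 : (range s).filter (fun σ : ℕ => ∃ x ∈ s.divisors, L0 ≤ (x : ℝ) ∧ ∃ a ∈ A x,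
      (σ : ℤ) ≡ a [ZMOD (x : ℤ)]) ⊆
      (s.divisors.filter (fun x : ℕ => L0 ≤ (x : ℝ))).biUnion (fun x => (A x).biUnion (fun a =>
        (range s).filter (fun l : ℕ => (l : ℤ) ≡ a [ZMOD (x : ℤ)]))) := by
    intro σ hσ
    rw [Finset.mem_filter] at hσ
    obtain ⟨h0, x, hx, hL, a, ha, hc⟩ := hσ
    rw [Finset.mem_biUnion]
    refine ⟨x, Finset.mem_filter.2 ⟨hx, hL⟩, ?_⟩
    rw [Finset.mem_biUnion]
    exact ⟨a, ha, Finset.mem_filter.2 ⟨h0, hc⟩⟩
  have h2 := (Finset.card_le_card h1).trans Finset.card_biUnion_le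
  have h3 : (((range s).filter (fun σ : ℕ => ∃ x ∈ s.divisors, L0 ≤ (x : ℝ) ∧ ∃ a ∈ A x,
      (σ : ℤ) ≡ a [ZMOD (x : ℤ)])).card : ℝ) ≤
      ∑ x ∈ s.divisors.filter (fun x : ℕ => L0 ≤ (x : ℝ)), (((A x).biUnion (fun a =>
        (range s).filter (fun l : ℕ => (l : ℤ) ≡ a [ZMOD (x : ℤ)]))).card : ℝ) := by
    exact_mod_cast h2
  refine h3.trans ?_
  calc ∑ x ∈ s.divisors.filter (fun x : ℕ => L0 ≤ (x : ℝ)), (((A x).biUnion (fun a =>
        (range s).filter (fun l : ℕ => (l : ℤ) ≡ a [ZMOD (x : ℤ)]))).card : ℝ)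
      ≤ ∑ x ∈ s.divisors.filter (fun x : ℕ => L0 ≤ (x : ℝ)), (2 * s) * ((1 : ℝ) / x) := by
        apply Finset.sum_le_sum
        intro x hx
        rw [Finset.mem_filter] at hx
        have e1 : (((A x).biUnion (fun a =>
          (range s).filter (fun l : ℕ => (l : ℤ) ≡ a [ZMOD (x : ℤ)]))).card : ℝ) ≤
          ∑ a ∈ A x, (((range s).filter
            (fun l : ℕ => (l : ℤ) ≡ a [ZMOD (x : ℤ)])).card : ℝ) := by
          exact_mod_cast Finset.card_biUnion_le
        refine e1.trans ?_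
        have e2 : ∑ a ∈ A x, (((range s).filter
            (fun l : ℕ => (l : ℤ) ≡ a [ZMOD (x : ℤ)])).card : ℝ) ≤
            ∑ _a ∈ A x, (s : ℝ) / x := by
          apply Finset.sum_le_sum
          intro a _
          exact Dens_cnt1 s x a hs (Nat.dvd_of_mem_divisors hx.1)
        refine e2.trans ?_
        rw [Finset.sum_const, nsmul_eq_mul]
        have e3 : ((A x).card : ℝ) ≤ 2 := by exact_mod_cast hA x
        calc ((A x).card : ℝ) * (s / x) ≤ 2 * (s / x) :=
              mul_le_mul_of_nonneg_right e3 (by positivity)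
          _ = (2 * s) * ((1 : ℝ) / x) := by ring
    _ = (2 * s) * ∑ x ∈ s.divisors.filter (fun x : ℕ => L0 ≤ (x : ℝ)), (1 : ℝ) / x := by
        rw [Finset.mul_sum]
    _ ≤ (2 * s) * η := mul_le_mul_of_nonneg_left hL (by positivity)
    _ = s * (2 * η) := by ring

theorem pr_Dens (hF : FFK) : DensK := by
  classical
  intro c hc
  set K : ℝ := 1 / c with hKd
  have hK0 : 0 < K := by positivity
  obtain ⟨P0, hP0⟩ := exists_nat_ge (16 * K ^ 6 * Real.exp (4 * K) + 1)
  have hPr : 0 < P0 := by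
    have h : (0 : ℝ) < P0 := lt_of_lt_of_le (by positivity) hP0
    exact_mod_cast h
  obtain ⟨L0, hL0, hL⟩ := Dens_tail P0 (Real.exp (-(4 * K)) / 8) (by positivity)
  refine ⟨L0, Real.exp (-(4 * K)) / 2, hL0, by positivity, ?_⟩
  intro m hm hφ A hA
  obtain ⟨s, r, rfl, hsm, hro⟩ := Dens_split P0 m hm
  have hs : 0 < s := Nat.pos_of_ne_zero (by rintro rfl; simp at hm)
  have hr : 0 < r := Nat.pos_of_ne_zero (by rintro rfl; simp at hm)
  have hco : s.Coprime r := by
    apply Nat.Coprime.symm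
    apply Nat.coprime_of_dvd
    intro p hp h1 h2
    have := hsm p hp h2
    have := hro p hp h1
    omega
  have hK := (divsum c (s * r) hc hm hφ).1
  have hsub : ∀ n, n ∣ s * r → ∑ x ∈ n.divisors, (1 : ℝ) / x ≤ K := by
    intro n hn
    refine le_trans ?_ hK
    apply Finset.sum_le_sum_of_subset_of_nonneg
    · exact Nat.divisors_subset_of_dvd hm.ne' hn
    · intro x _ _
      positivity
  have hK1 := hsub s (Dvd.intro _ rfl)
  have hK2 := hsub r (Dvd.intro_left _ rfl)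
  set Bad := (range s).filter (fun σ : ℕ => ∃ x ∈ s.divisors, L0 ≤ (x : ℝ) ∧ ∃ a ∈ A x,
      (σ : ℤ) ≡ a [ZMOD (x : ℤ)]) with hBad
  have hbad : (Bad.card : ℝ) ≤ s * (2 * (Real.exp (-(4 * K)) / 8)) :=
    Dens_bad s hs A hA L0 _ (hL s hs hsm)
  -- the fibres
  have hfib : ∑ σ ∈ range s,
      (((range r).filter (fun t : ℕ => Avd L0 A (s * r) ((σ : ℤ) + s * t))).card : ℝ) ≤
      ((Finset.filter (fun l : ℤ => Avd L0 A (s * r) l)
        (Finset.range (s * r) >>= fun a => (pure (a : ℤ) : Finset ℤ))).card : ℝ) := by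
    have h1 : ((range s).sigma (fun σ : ℕ => (range r).filter
        (fun t : ℕ => Avd L0 A (s * r) ((σ : ℤ) + s * t)))).card ≤
        ((range (s * r)).filter (fun l : ℕ => Avd L0 A (s * r) (l : ℤ))).card := by
      apply Finset.card_le_card_of_injOn (fun z => z.1 + s * z.2)
      · rintro ⟨σ, t⟩ hz
        rw [Finset.mem_coe, Finset.mem_sigma, Finset.mem_filter, Finset.mem_range,
          Finset.mem_range] at hz
        simp only at hz
        rw [Finset.mem_coe, Finset.mem_filter, Finset.mem_range]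
        constructor
        · simp only
          calc σ + s * t < s + s * t := by omega
            _ = s * (t + 1) := by ring
            _ ≤ s * r := Nat.mul_le_mul_left s (by omega)
        · have := hz.2.2
          simp only
          push_cast
          exact this
      · rintro ⟨σ, t⟩ hz ⟨σ', t'⟩ hz' he
        rw [Finset.mem_coe, Finset.mem_sigma, Finset.mem_filter, Finset.mem_range,
          Finset.mem_range] at hz hz'
        simp only at hz hz' he
        have e1 : σ = σ' := by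
          have h3 : (σ + s * t) % s = (σ' + s * t') % s := by rw [he]
          rw [Nat.add_mul_mod_self_left, Nat.add_mul_mod_self_left, Nat.mod_eq_of_lt hz.1,
            Nat.mod_eq_of_lt hz'.1] at h3
          exact h3
        subst e1
        have e2 : s * t = s * t' := by omega
        have e3 : t = t' := Nat.eq_of_mul_eq_mul_left hs e2
        subst e3
        rfl
    rw [Finset.card_sigma, Dens_bridge (fun P => Classical.propDecidable P) (s * r)
      (fun l : ℤ => Avd L0 A (s * r) l)] at h1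
    exact_mod_cast h1
  -- one fibre
  have hone : ∀ σ ∈ range s, (r : ℝ) * (DensP s r A σ - DensE s r A σ) ≤
      (((range r).filter (fun t : ℕ => Avd L0 A (s * r) ((σ : ℤ) + s * t))).card : ℝ) +
      (if σ ∈ Bad then (r : ℝ) else 0) := by
    intro σ hσ
    by_cases hb : σ ∈ Bad
    · rw [if_pos hb]
      have e1 := Dens_P1 s r A σ
      have e2 := Dens_E0 s r A σ
      have e3 : (r : ℝ) * (DensP s r A σ - DensE s r A σ) ≤ r * 1 :=
        mul_le_mul_of_nonneg_left (by linarith) (Nat.cast_nonneg _)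
      have e4 : (0 : ℝ) ≤ (((range r).filter
        (fun t : ℕ => Avd L0 A (s * r) ((σ : ℤ) + s * t))).card : ℝ) := Nat.cast_nonneg _
      linarith
    · rw [if_neg hb, add_zero]
      apply Dens_fix hF s r hs hr hco A L0 σ
      intro x hx hLx a ha hcx
      apply hb
      rw [hBad, Finset.mem_filter]
      exact ⟨hσ, x, hx, hLx, a, ha, hcx⟩
  have hsum := Finset.sum_le_sum hone
  rw [← Finset.mul_sum, Finset.sum_sub_distrib, Finset.sum_add_distrib,
    ← Finset.sum_filter, Finset.sum_const, nsmul_eq_mul] at hsum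
  have hBc : ((range s).filter (fun σ => σ ∈ Bad)).card = Bad.card := by
    congr 1
    ext σ
    rw [Finset.mem_filter, hBad, Finset.mem_filter]
    tauto
  rw [hBc] at hsum
  have hE := Dens_Esum s r P0 hs hr hPr hro A hA K hK1 hK2
  have hY := Dens_Ysum s r hs hco A hA K hK
  have hP : (s : ℝ) * Real.exp (-(4 * K)) ≤ ∑ σ ∈ range s, DensP s r A σ := by
    have e1 : ∑ σ ∈ range s, Real.exp (-(4 * K)) * (1 + 4 * K - 2 * DensY s r A σ) ≤
        ∑ σ ∈ range s, DensP s r A σ :=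
      Finset.sum_le_sum (fun σ _ => Dens_PY s r A σ K)
    refine le_trans ?_ e1
    rw [← Finset.mul_sum, Finset.sum_sub_distrib, Finset.sum_const, Finset.card_range,
      nsmul_eq_mul, ← Finset.mul_sum, mul_comm (s : ℝ)]
    apply mul_le_mul_of_nonneg_left _ (Real.exp_pos _).le
    nlinarith
  have hE2 : 4 * K ^ 6 / P0 ≤ Real.exp (-(4 * K)) / 4 := by
    have hP0' : (0 : ℝ) < P0 := by exact_mod_cast hPr
    rw [div_le_iff₀ hP0']
    have e1 : Real.exp (-(4 * K)) * Real.exp (4 * K) = 1 := by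
      rw [← Real.exp_add]
      simp
    have e2 : Real.exp (-(4 * K)) * (16 * K ^ 6 * Real.exp (4 * K) + 1) ≤
      Real.exp (-(4 * K)) * P0 := mul_le_mul_of_nonneg_left hP0 (Real.exp_pos _).le
    have e3 : Real.exp (-(4 * K)) * (16 * K ^ 6 * Real.exp (4 * K) + 1) =
      16 * K ^ 6 * (Real.exp (-(4 * K)) * Real.exp (4 * K)) + Real.exp (-(4 * K)) := by ring
    rw [e3, e1] at e2
    have := Real.exp_pos (-(4 * K))
    linarith
  have hs' : (0 : ℝ) < s := by exact_mod_cast hs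
  have hr' : (0 : ℝ) < r := by exact_mod_cast hr
  have hE3 : ∑ σ ∈ range s, DensE s r A σ ≤ s * (Real.exp (-(4 * K)) / 4) :=
    hE.trans (mul_le_mul_of_nonneg_left hE2 hs'.le)
  have h9 : (r : ℝ) * (s * Real.exp (-(4 * K)) - s * (Real.exp (-(4 * K)) / 4)) ≤
      r * (∑ σ ∈ range s, DensP s r A σ - ∑ σ ∈ range s, DensE s r A σ) :=
    mul_le_mul_of_nonneg_left (by linarith) hr'.le
  have h10 : (Bad.card : ℝ) * r ≤ s * (2 * (Real.exp (-(4 * K)) / 8)) * r :=
    mul_le_mul_of_nonneg_right hbad hr'.le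
  push_cast
  have h11 := h9.trans hsum
  calc Real.exp (-(4 * K)) / 2 * (s * r) =
      (r : ℝ) * (s * Real.exp (-(4 * K)) - s * (Real.exp (-(4 * K)) / 4)) -
        s * (2 * (Real.exp (-(4 * K)) / 8)) * r := by ring
    _ ≤ ∑ σ ∈ range s,
      (((range r).filter (fun t : ℕ => Avd L0 A (s * r) ((σ : ℤ) + s * t))).card : ℝ) := by
        linarith
    _ ≤ _ := hfib

end Pool.Agent.MP_0863b8.K

end

section

/-!
MP_0863b8_nt, KILLS, item FFK: the lemma of Filaseta, Ford, Konyagin, Pomerance and Yu.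
-/

namespace Pool.Agent.MP_0863b8.K

open Finset

open Classical in
/-- translation of a count over a full period -/
private lemma FFK_translate {N q : ℕ} (hqN : q ∣ N) {P : ℕ → Prop}
    (hN : ∀ l, P (l + N) ↔ P l) {T : ℕ} (hT : ∀ l, P (l + T) ↔ P l) (b : ℤ) :
    ((range N).filter (fun l : ℕ => (l : ℤ) ≡ b + T [ZMOD (q : ℤ)] ∧ P l)).card =
    ((range N).filter (fun l : ℕ => (l : ℤ) ≡ b [ZMOD (q : ℤ)] ∧ P l)).card := by
  have hper : Function.Periodic (fun l : ℕ => (l : ℤ) ≡ b + T [ZMOD (q : ℤ)] ∧ P l) N := by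
    intro l
    have h1 : (((l + N : ℕ) : ℤ) ≡ b + T [ZMOD (q : ℤ)]) ↔ ((l : ℤ) ≡ b + T [ZMOD (q : ℤ)]) := by
      have h2 : ((l + N : ℕ) : ℤ) ≡ (l : ℤ) [ZMOD (q : ℤ)] := by
        push_cast
        have : (N : ℤ) ≡ 0 [ZMOD (q : ℤ)] := (Int.modEq_zero_iff_dvd).2 (by exact_mod_cast hqN)
        simpa using Int.ModEq.add_left (l : ℤ) this
      exact ⟨fun h => h2.symm.trans h, fun h => h2.trans h⟩
    simp only [h1, hN]
  have e1 := Nat.filter_Ico_card_eq_of_periodic T N _ hper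
  have e2 := Nat.filter_Ico_card_eq_of_periodic 0 N _ hper
  rw [← e2, zero_add, ← Finset.range_eq_Ico] at e1
  rw [← e1]
  refine (Finset.card_bij (fun l _ => l + T) ?_ ?_ ?_).symm
  · intro l hl
    rw [mem_filter, mem_range] at hl
    rw [mem_filter, mem_Ico]
    refine ⟨⟨by omega, by omega⟩, ?_, (hT l).2 hl.2.2⟩
    push_cast
    exact Int.ModEq.add_right _ hl.2.1
  · intro l _ l' _ h
    exact Nat.add_right_cancel h
  · intro l hl
    rw [mem_filter, mem_Ico] at hl
    obtain ⟨⟨h1, h2⟩, h3, h4⟩ := hl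
    refine ⟨l - T, ?_, by omega⟩
    rw [mem_filter, mem_range]
    have h5 : l - T + T = l := by omega
    refine ⟨by omega, ?_, ?_⟩
    · have h6 : ((l - T : ℕ) : ℤ) + T = (l : ℤ) := by exact_mod_cast h5
      have h7 : ((l - T : ℕ) : ℤ) + T ≡ b + T [ZMOD (q : ℤ)] := by rw [h6]; exact h3
      exact Int.ModEq.add_right_cancel' _ h7
    · rw [← hT, h5]
      exact h4

open Classical in
/-- independence -/
private lemma FFK_indep {N q M : ℕ} (hq : 0 < q) (hqN : q ∣ N) (hc : Nat.Coprime M q)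
    {P : ℕ → Prop} (hN : ∀ l, P (l + N) ↔ P l) (hM : ∀ l, P (l + M) ↔ P l) (a : ℤ) :
    q * ((range N).filter (fun l : ℕ => (l : ℤ) ≡ a [ZMOD (q : ℤ)] ∧ P l)).card =
      ((range N).filter (fun l : ℕ => P l)).card := by
  have hMt : ∀ t l, P (l + M * t) ↔ P l := by
    intro t
    induction t with
    | zero => intro l; simp
    | succ t ih =>
      intro l
      have : l + M * (t + 1) = (l + M * t) + M := by ring
      rw [this, hM, ih]
  -- all classes have the same count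
  have hall : ∀ b : ℕ, ((range N).filter (fun l : ℕ => (l : ℤ) ≡ (b : ℤ) [ZMOD (q : ℤ)] ∧ P l)).card
      = ((range N).filter (fun l : ℕ => (l : ℤ) ≡ a [ZMOD (q : ℤ)] ∧ P l)).card := by
    intro b
    have hcz : IsCoprime (M : ℤ) (q : ℤ) := Nat.isCoprime_iff_coprime.2 hc
    obtain ⟨u, v, huv⟩ := hcz
    have hqz : (0 : ℤ) < q := by exact_mod_cast hq
    set t0 : ℤ := ((a - b) * u) % q with ht0
    have ht0n : 0 ≤ t0 := Int.emod_nonneg _ hqz.ne'
    obtain ⟨t, ht⟩ := Int.eq_ofNat_of_zero_le ht0n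
    have hT := FFK_translate hqN hN (T := M * t) (hMt t) (b : ℤ)
    have hcl : (b : ℤ) + ((M * t : ℕ) : ℤ) ≡ a [ZMOD (q : ℤ)] := by
      have h1 : t0 ≡ (a - b) * u [ZMOD (q : ℤ)] := Int.mod_modEq _ _
      have h2 : (M : ℤ) * t0 ≡ (M : ℤ) * ((a - b) * u) [ZMOD (q : ℤ)] := h1.mul_left _
      have h3 : (M : ℤ) * ((a - b) * u) ≡ a - b [ZMOD (q : ℤ)] := by
        have h4 : (M : ℤ) * ((a - b) * u) = (a - b) + (q : ℤ) * (-(v * (a - b))) := by
          have : u * M = 1 - v * q := by linarith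
          calc (M : ℤ) * ((a - b) * u) = (a - b) * (u * M) := by ring
            _ = (a - b) * (1 - v * q) := by rw [this]
            _ = _ := by ring
        rw [h4]
        exact (Int.modEq_iff_dvd.2 ⟨v * (a - b), by ring⟩)
      have h5 : (M : ℤ) * t0 ≡ a - b [ZMOD (q : ℤ)] := h2.trans h3
      push_cast
      rw [ht] at h5
      have h6 := Int.ModEq.add_left (b : ℤ) h5
      have h7 : (b : ℤ) + (a - b) = a := by ring
      rw [h7] at h6
      simpa using h6
    rw [← hT]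
    congr 1
    ext l
    simp only [mem_filter, mem_range]
    constructor
    · rintro ⟨h1, h2, h3⟩
      exact ⟨h1, h2.trans hcl, h3⟩
    · rintro ⟨h1, h2, h3⟩
      exact ⟨h1, h2.trans hcl.symm, h3⟩
  have hsum := Finset.card_eq_sum_card_fiberwise
    (s := (range N).filter (fun l : ℕ => P l)) (t := range q) (f := fun l => l % q)
    (fun l _ => by
      simp only [Finset.coe_range, Set.mem_Iio]
      exact Nat.mod_lt _ hq)
  rw [hsum]
  have hfib : ∀ b ∈ range q,
      (((range N).filter (fun l : ℕ => P l)).filter (fun l => l % q = b)).card =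
      ((range N).filter (fun l : ℕ => (l : ℤ) ≡ a [ZMOD (q : ℤ)] ∧ P l)).card := by
    intro b hb
    rw [mem_range] at hb
    rw [← hall b, Finset.filter_filter]
    congr 1
    ext l
    simp only [mem_filter, mem_range]
    have h1 : ((l : ℤ) ≡ (b : ℤ) [ZMOD (q : ℤ)]) ↔ l % q = b := by
      rw [Int.natCast_modEq_iff]
      unfold Nat.ModEq
      rw [Nat.mod_eq_of_lt hb]
    rw [h1]
    tauto
  rw [Finset.sum_congr rfl hfib, Finset.sum_const, card_range, smul_eq_mul]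

open Classical in
/-- the number of elements of a class -/
private lemma FFK_class {N q : ℕ} (hq : 0 < q) (hqN : q ∣ N) (a : ℤ) :
    q * ((range N).filter (fun l : ℕ => (l : ℤ) ≡ a [ZMOD (q : ℤ)])).card = N := by
  have h := FFK_indep (N := N) (q := q) (M := 1) hq hqN (Nat.coprime_one_left q)
    (P := fun _ => True) (fun _ => Iff.rfl) (fun _ => Iff.rfl) a
  simpa using h

open Classical in
/-- in `FFK` and `DensK` the variable `l` has type `ℤ` and `range N` is coerced; this lemma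
goes back to natural numbers -/
theorem FFK_cast (N : ℕ) (p : ℤ → Prop) {d : DecidablePred p}
    [d' : DecidablePred fun l : ℕ => p (l : ℤ)] :
    (@Finset.filter ℤ p d (do let a ← Finset.range N; pure (a : ℤ))).card =
      (@Finset.filter ℕ (fun l : ℕ => p (l : ℤ)) d' (Finset.range N)).card := by
  have h : (do let a ← Finset.range N; pure (a : ℤ) : Finset ℤ) =
      (Finset.range N).image (fun l : ℕ => (l : ℤ)) := by
    ext x
    simp
  rw [h, Finset.filter_image, Finset.card_image_of_injective _ Nat.cast_injective]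
  congr

open Classical in
private lemma FFK_nat (ι : Type) (s : Finset ι) (n : ι → ℕ) (a : ι → ℤ) (N : ℕ) (hN : 0 < N)
    (hdvd : ∀ i ∈ s, n i ∣ N) :
    (N : ℝ) * (∏ i ∈ s, (1 - 1 / (n i : ℝ)) -
      ∑ i ∈ s, ∑ j ∈ s.filter (fun j => j ≠ i ∧ 1 < (n i).gcd (n j)), 1 / ((n i : ℝ) * n j)) ≤
    (((Finset.range N).filter
      (fun l : ℕ => ∀ i ∈ s, ¬ ((l : ℤ) ≡ a i [ZMOD (n i : ℤ)]))).card : ℝ) := by
  have hNR : (0 : ℝ) < N := by exact_mod_cast hN
  induction s using Finset.induction_on with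
  | empty =>
    simp
  | insert k s hk ih =>
    have hds : ∀ i ∈ s, n i ∣ N := fun i hi => hdvd i (mem_insert_of_mem hi)
    have hkN : n k ∣ N := hdvd k (mem_insert_self _ _)
    have hnk : 0 < n k := Nat.pos_of_dvd_of_pos hkN hN
    have hni : ∀ i ∈ s, 0 < n i := fun i hi => Nat.pos_of_dvd_of_pos (hds i hi) hN
    have hnkR : (1 : ℝ) ≤ n k := by exact_mod_cast hnk
    have IH := ih hds
    -- notation
    set A : Finset ℕ := (range N).filter (fun l : ℕ => ∀ i ∈ s, ¬ ((l : ℤ) ≡ a i [ZMOD (n i : ℤ)]))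
      with hA
    set A' : Finset ℕ := (range N).filter
      (fun l : ℕ => ∀ i ∈ insert k s, ¬ ((l : ℤ) ≡ a i [ZMOD (n i : ℤ)])) with hA'
    set s' : Finset ι := s.filter (fun i => (n i).gcd (n k) = 1) with hs'
    set P : ℕ → Prop := fun l => ∀ i ∈ s', ¬ ((l : ℤ) ≡ a i [ZMOD (n i : ℤ)]) with hP
    set s'' : Finset ι := s.filter (fun i => 1 < (n i).gcd (n k)) with hs''
    -- periodicity
    have hper : ∀ (i : ι) (D : ℕ), n i ∣ D → ∀ l : ℕ,
        (((l + D : ℕ) : ℤ) ≡ a i [ZMOD (n i : ℤ)]) ↔ ((l : ℤ) ≡ a i [ZMOD (n i : ℤ)]) := by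
      intro i D hD l
      have h2 : ((l + D : ℕ) : ℤ) ≡ (l : ℤ) [ZMOD (n i : ℤ)] := by
        push_cast
        have : (D : ℤ) ≡ 0 [ZMOD (n i : ℤ)] := (Int.modEq_zero_iff_dvd).2 (by exact_mod_cast hD)
        simpa using Int.ModEq.add_left (l : ℤ) this
      exact ⟨fun h => h2.symm.trans h, fun h => h2.trans h⟩
    have hPN : ∀ l, P (l + N) ↔ P l := by
      intro l
      refine forall_congr' fun i => ?_
      refine forall_congr' fun hi => ?_
      rw [hper i N (hds i (mem_filter.1 hi).1)]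
    set M : ℕ := ∏ i ∈ s', n i with hM
    have hPM : ∀ l, P (l + M) ↔ P l := by
      intro l
      refine forall_congr' fun i => ?_
      refine forall_congr' fun hi => ?_
      rw [hper i M (Finset.dvd_prod_of_mem n hi)]
    have hMc : Nat.Coprime M (n k) := Nat.Coprime.prod_left (fun i hi => (mem_filter.1 hi).2)
    have hind := FFK_indep hnk hkN hMc hPN hPM (a k)
    -- upper bound for the removed part
    set B : Finset ℕ := (range N).filter (fun l : ℕ => (l : ℤ) ≡ a k [ZMOD (n k : ℤ)] ∧ P l)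
      with hB
    have hAB : A.card ≤ A'.card + B.card := by
      have hsub : A ⊆ A' ∪ B := by
        intro l hl
        rw [hA, mem_filter] at hl
        rw [mem_union]
        by_cases hlk : (l : ℤ) ≡ a k [ZMOD (n k : ℤ)]
        · right
          rw [hB, mem_filter]
          exact ⟨hl.1, hlk, fun i hi => hl.2 i (mem_filter.1 hi).1⟩
        · left
          rw [hA', mem_filter]
          refine ⟨hl.1, fun i hi => ?_⟩
          rcases mem_insert.1 hi with h | h
          · rw [h]; exact hlk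
          · exact hl.2 i h
      exact le_trans (card_le_card hsub) (card_union_le _ _)
    have hPA : (((range N).filter (fun l : ℕ => P l)).card : ℝ) ≤
        A.card + ∑ i ∈ s'', (N : ℝ) / n i := by
      have hsub : (range N).filter (fun l : ℕ => P l) ⊆ A ∪ s''.biUnion
          (fun i => (range N).filter (fun l : ℕ => (l : ℤ) ≡ a i [ZMOD (n i : ℤ)])) := by
        intro l hl
        rw [mem_filter] at hl
        rw [mem_union]
        by_cases hlA : l ∈ A
        · left; exact hlA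
        · right
          rw [hA, mem_filter] at hlA
          push Not at hlA
          obtain ⟨i, hi, hli⟩ := hlA hl.1
          rw [mem_biUnion]
          refine ⟨i, ?_, ?_⟩
          · rw [hs'', mem_filter]
            refine ⟨hi, ?_⟩
            by_contra hcon
            have h0 : 0 < (n i).gcd (n k) := Nat.gcd_pos_of_pos_left _ (hni i hi)
            have h1 : (n i).gcd (n k) = 1 := by omega
            exact hl.2 i (by rw [hs', mem_filter]; exact ⟨hi, h1⟩) hli
          · rw [mem_filter]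
            exact ⟨hl.1, hli⟩
      have h1 := le_trans (card_le_card hsub) (card_union_le _ _)
      have h2 := card_biUnion_le (s := s'')
        (t := fun i => (range N).filter (fun l : ℕ => (l : ℤ) ≡ a i [ZMOD (n i : ℤ)]))
      have h3 : ((range N).filter (fun l : ℕ => P l)).card ≤ A.card +
          ∑ i ∈ s'', ((range N).filter (fun l : ℕ => (l : ℤ) ≡ a i [ZMOD (n i : ℤ)])).card := by
        omega
      have h4 : ((((range N).filter (fun l : ℕ => P l)).card : ℕ) : ℝ) ≤ A.card +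
          ∑ i ∈ s'', (((range N).filter (fun l : ℕ => (l : ℤ) ≡ a i [ZMOD (n i : ℤ)])).card : ℝ) := by
        exact_mod_cast h3
      refine le_trans h4 ?_
      refine add_le_add le_rfl (Finset.sum_le_sum fun i hi => ?_)
      have hi' := (mem_filter.1 hi).1
      have h5 := FFK_class (hni i hi') (hds i hi') (a i)
      have h6 : (n i : ℝ) * (((range N).filter
          (fun l : ℕ => (l : ℤ) ≡ a i [ZMOD (n i : ℤ)])).card : ℝ) = N := by exact_mod_cast h5
      have h7 : (0 : ℝ) < n i := by exact_mod_cast hni i hi'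
      rw [le_div_iff₀ h7, ← h6]
      ring_nf
      exact le_rfl
    -- combine
    have hBr : (n k : ℝ) * B.card ≤ A.card + ∑ i ∈ s'', (N : ℝ) / n i := by
      have hind' : n k * B.card = ((range N).filter (fun l : ℕ => P l)).card := by
        rw [hB]
        convert hind
      have : (n k : ℝ) * B.card = (((range N).filter (fun l : ℕ => P l)).card : ℝ) := by
        exact_mod_cast hind'
      rw [this]
      exact hPA
    have hABr : (A.card : ℝ) ≤ A'.card + B.card := by exact_mod_cast hAB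
    have hnkpos : (0 : ℝ) < n k := by linarith
    -- the error sums
    set E : ℝ := ∑ i ∈ s, ∑ j ∈ s.filter (fun j => j ≠ i ∧ 1 < (n i).gcd (n j)),
      1 / ((n i : ℝ) * n j) with hE
    set E' : ℝ := ∑ i ∈ insert k s, ∑ j ∈ (insert k s).filter
      (fun j => j ≠ i ∧ 1 < (n i).gcd (n j)), 1 / ((n i : ℝ) * n j) with hE'
    have hE0 : 0 ≤ E := by
      rw [hE]
      refine Finset.sum_nonneg fun i _ => Finset.sum_nonneg fun j _ => ?_
      positivity
    have hEE : E + ∑ i ∈ s'', 1 / ((n k : ℝ) * n i) ≤ E' := by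
      rw [hE', Finset.sum_insert hk, add_comm]
      refine add_le_add ?_ ?_
      · refine Finset.sum_le_sum_of_subset_of_nonneg ?_ ?_
        · intro i hi
          rw [hs'', mem_filter] at hi
          rw [mem_filter]
          refine ⟨mem_insert_of_mem hi.1, ?_, ?_⟩
          · intro h
            exact hk (h ▸ hi.1)
          · rw [Nat.gcd_comm]
            exact hi.2
        · intro i _ _
          positivity
      · rw [hE]
        refine Finset.sum_le_sum fun i _ => ?_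
        refine Finset.sum_le_sum_of_subset_of_nonneg ?_ ?_
        · intro j hj
          rw [mem_filter] at hj ⊢
          exact ⟨mem_insert_of_mem hj.1, hj.2⟩
        · intro j _ _
          positivity
    -- final inequality
    have hprod : ∏ i ∈ insert k s, (1 - 1 / (n i : ℝ)) =
        (1 - 1 / (n k : ℝ)) * ∏ i ∈ s, (1 - 1 / (n i : ℝ)) := Finset.prod_insert hk
    have hS : ∑ i ∈ s'', (N : ℝ) / n i = N * (n k * ∑ i ∈ s'', 1 / ((n k : ℝ) * n i)) := by
      rw [Finset.mul_sum, Finset.mul_sum]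
      refine Finset.sum_congr rfl fun i hi => ?_
      have h7 : (0 : ℝ) < n i := by exact_mod_cast hni i (mem_filter.1 hi).1
      have h8 : (n k : ℝ) * (1 / ((n k : ℝ) * n i)) = 1 / n i := by
        field_simp
      rw [h8]
      ring
    have hBle : (B.card : ℝ) ≤ (1 / n k) * A.card + N * ∑ i ∈ s'', 1 / ((n k : ℝ) * n i) := by
      rw [hS] at hBr
      have hr : (1 / (n k : ℝ)) * n k = 1 := by
        rw [one_div, inv_mul_cancel₀ hnkpos.ne']
      have h8 : (B.card : ℝ) = (1 / n k) * (n k * B.card) := by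
        rw [← mul_assoc, hr, one_mul]
      rw [h8]
      have h9 := mul_le_mul_of_nonneg_left hBr (by positivity : (0 : ℝ) ≤ 1 / n k)
      refine le_trans h9 (le_of_eq ?_)
      have h9' : (1 / (n k : ℝ)) * (A.card + N * (n k * ∑ i ∈ s'', 1 / ((n k : ℝ) * n i))) =
          (1 / n k) * A.card +
            (1 / (n k : ℝ)) * n k * (N * ∑ i ∈ s'', 1 / ((n k : ℝ) * n i)) := by ring
      rw [h9', hr, one_mul]
    have h10 : (1 - 1 / (n k : ℝ)) * A.card - N * ∑ i ∈ s'', 1 / ((n k : ℝ) * n i) ≤ A'.card := by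
      linarith
    have h11 : (0 : ℝ) ≤ 1 - 1 / (n k : ℝ) := by
      rw [sub_nonneg, div_le_one hnkpos]
      exact hnkR
    have h12 : 1 - 1 / (n k : ℝ) ≤ 1 := by
      have : (0 : ℝ) ≤ 1 / (n k : ℝ) := by positivity
      linarith
    have h13 := mul_le_mul_of_nonneg_left IH h11
    have h14 : (1 - 1 / (n k : ℝ)) * ((N : ℝ) * E) ≤ (N : ℝ) * E := by
      have : 0 ≤ (N : ℝ) * E := by positivity
      nlinarith
    rw [hprod]
    calc (N : ℝ) * ((1 - 1 / (n k : ℝ)) * ∏ i ∈ s, (1 - 1 / (n i : ℝ)) - E')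
        ≤ (N : ℝ) * ((1 - 1 / (n k : ℝ)) * ∏ i ∈ s, (1 - 1 / (n i : ℝ)) -
            (E + ∑ i ∈ s'', 1 / ((n k : ℝ) * n i))) := by
          refine mul_le_mul_of_nonneg_left ?_ hNR.le
          linarith
      _ ≤ (1 - 1 / (n k : ℝ)) * A.card - N * ∑ i ∈ s'', 1 / ((n k : ℝ) * n i) := by
          nlinarith
      _ ≤ A'.card := h10

open Classical in
theorem pr_FFK : FFK := by
  intro ι s n a N hN hdvd
  have h := FFK_nat ι s n a N hN hdvd
  refine le_trans h (le_of_eq ?_)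
  congr 1
  symm
  exact FFK_cast N (fun l => ∀ i ∈ s, ¬ (l ≡ a i [ZMOD (n i : ℤ)]))

end Pool.Agent.MP_0863b8.K

end

section

/-!
MP_0863b8_nt, KILLS, item First: local first moment of the kept sets.
-/

namespace Pool.Agent.MP_0863b8.K

open MeasureTheory Filter
open R (Sm Ag Bs ov)

/-- lower bound for the measure of a set containing many disjoint short intervals -/
private theorem First_measure (S : Set ℝ) (δ ψ a b : ℝ) (n : ℕ) (hn : 0 < n)
    (hψ : 0 < ψ) (hψ1 : ψ ≤ 1 / 4) (F : Finset ℤ)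
    (hF : ∀ r ∈ F, Set.Ioo ((δ + (r:ℝ) - ψ) / n) ((δ + r + ψ) / n) ⊆ S ∩ Set.Ioo a b) :
    (F.card : ℝ) * (2 * ψ / n) ≤ (volume (S ∩ Set.Ioo a b)).toReal := by
  have hn0 : (0:ℝ) < n := by exact_mod_cast hn
  have hsub : (⋃ r ∈ F, Set.Ioo ((δ + (r:ℝ) - ψ) / n) ((δ + r + ψ) / n)) ⊆
      S ∩ Set.Ioo a b := Set.iUnion₂_subset fun r hr => hF r hr
  have hfin : volume (S ∩ Set.Ioo a b) ≠ ⊤ := by
    refine ne_top_of_le_ne_top ?_ (measure_mono Set.inter_subset_right)
    simp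
  have hvol : volume (⋃ r ∈ F, Set.Ioo ((δ + (r:ℝ) - ψ) / n) ((δ + r + ψ) / n)) =
      ∑ r ∈ F, ENNReal.ofReal (2 * ψ / n) := by
    rw [measure_biUnion_finset]
    · apply Finset.sum_congr rfl
      intro r _
      rw [Real.volume_Ioo]
      congr 1
      field_simp
      ring
    · intro r _ s _ hrs
      change Disjoint _ _
      rw [Set.disjoint_left]
      rintro β ⟨h1, h2⟩ ⟨h3, h4⟩
      rw [div_lt_iff₀ hn0] at h1 h3
      rw [lt_div_iff₀ hn0] at h2 h4
      rcases lt_or_gt_of_ne hrs with h | h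
      · have h5 : (r:ℝ) + 1 ≤ s := by exact_mod_cast h
        linarith
      · have h5 : (s:ℝ) + 1 ≤ r := by exact_mod_cast h
        linarith
    · intro r _
      exact measurableSet_Ioo
  have h1 := ENNReal.toReal_mono hfin (measure_mono hsub)
  rw [hvol, Finset.sum_const, nsmul_eq_mul, ENNReal.toReal_mul, ENNReal.toReal_natCast,
    ENNReal.toReal_ofReal (by positivity)] at h1
  exact h1

open Classical in
theorem pr_First (hL : LocalK) : FirstK := by
  intro c hc
  obtain ⟨L00, c0, hL00, hc0, HL⟩ := hL c hc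
  refine ⟨L00, c0, hL00, hc0, ?_⟩
  intro a b ha hab hb
  have hε : 0 < (b - a) / 2 := by linarith
  obtain ⟨m0, hm0⟩ := HL ((b - a) / 2) hε
  obtain ⟨N1, hN1⟩ := exists_nat_gt (10 / (b - a))
  refine ⟨max (max m0 N1) 1, fun n hn hcn L0 δ μ K q hL0 hμ hμ4 hA => ?_⟩
  have hnm0 : m0 ≤ n := le_trans (le_trans (le_max_left _ _) (le_max_left _ _)) hn
  have hnN1 : N1 ≤ n := le_trans (le_trans (le_max_right _ _) (le_max_left _ _)) hn
  have hn1 : 1 ≤ n := le_trans (le_max_right _ _) hn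
  have hn0 : (0:ℝ) < n := by exact_mod_cast hn1
  have hba : 0 < b - a := by linarith
  have hnlarge : 10 < (b - a) * n := by
    have h1 : (10 / (b - a) : ℝ) < n := lt_of_lt_of_le hN1 (by exact_mod_cast hnN1)
    rw [div_lt_iff₀ hba] at h1
    linarith
  -- the interval of integers
  set x : ℤ := ⌈a * n - δ⌉ + 1 with hx
  set H : ℕ := ⌊(b - a) * n - 4⌋₊ with hH
  have hHle : (H : ℝ) ≤ (b - a) * n - 4 := Nat.floor_le (by linarith)
  have hHge : (b - a) * n - 5 < H := by
    have := Nat.lt_floor_add_one ((b - a) * (n:ℝ) - 4)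
    rw [← hH] at this
    linarith
  have hHε : (b - a) / 2 * n ≤ H := by linarith
  choose A hAc hAr using hA
  have hcount := hm0 n hnm0 hcn A hAc x H hHε
  set F : Finset ℤ := (Finset.Ico x (x + H)).filter (fun l => Avd L00 A n l) with hF
  have hx1 : a * n - δ + 1 ≤ x := by
    have := Int.le_ceil (a * n - δ)
    rw [hx]
    push_cast
    linarith
  have hx2 : (x : ℝ) < a * n - δ + 2 := by
    have := Int.ceil_lt_add_one (a * n - δ)
    rw [hx]
    push_cast
    linarith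
  have hmeas := First_measure (Bs δ μ K q n) δ (μ n) a b n hn1 hμ hμ4 F (by
    intro k hk
    rw [hF, Finset.mem_filter, Finset.mem_Ico] at hk
    obtain ⟨⟨hk1, hk2⟩, hav⟩ := hk
    have hk1' : (x : ℝ) ≤ k := by exact_mod_cast hk1
    have hk2' : (k : ℝ) + 1 ≤ x + H := by exact_mod_cast hk2
    rintro t ⟨h1, h2⟩
    rw [div_lt_iff₀ hn0] at h1
    rw [lt_div_iff₀ hn0] at h2
    refine ⟨⟨k, ?_, ?_⟩, ?_, ?_⟩
    · rw [abs_lt]
      constructor <;> linarith
    · intro v r hK _ hkr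
      obtain ⟨hvn, hLv, a', ha', hra⟩ := hAr v r hK
      have hvd : v ∈ n.divisors := Nat.mem_divisors.2 ⟨hvn, by omega⟩
      exact hav v hvd (le_trans hL0 hLv) a' ha' (hkr.trans hra)
    · by_contra hcon
      push Not at hcon
      nlinarith
    · by_contra hcon
      push Not at hcon
      nlinarith)
  refine le_trans ?_ hmeas
  have h1 : c0 * ((b - a) / 2 * n) ≤ (F.card : ℝ) :=
    le_trans (mul_le_mul_of_nonneg_left hHε hc0.le) hcount
  have h2 : (0:ℝ) ≤ 2 * μ n / n := by positivity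
  have h3 := mul_le_mul_of_nonneg_right h1 h2
  refine le_trans (le_of_eq ?_) h3
  field_simp

end Pool.Agent.MP_0863b8.K

end

section

/-!
MP_0863b8_nt, K6: explained pairs in the window are killed.
-/

set_option autoImplicit false

namespace Pool.Agent.MP_0863b8.K

open MeasureTheory Filter
open R (Sm Ag Bs ov)

private lemma Kill_Sm (q n m : ℕ) (hn : 0 < n) (hm : 0 < m) (h : Ag q n m) :
    Sm q (n / n.gcd m) := by
  intro p hp hd
  by_contra hle
  push Not at hle
  have h1 := h p hp hle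
  have hg : 0 < n.gcd m := Nat.gcd_pos_of_pos_left m hn
  have hu : 0 < n / n.gcd m := Nat.div_pos (Nat.le_of_dvd hn (Nat.gcd_dvd_left n m)) hg
  have h2 : (n / n.gcd m).factorization p = 0 := by
    rw [Nat.factorization_div (Nat.gcd_dvd_left n m), Nat.factorization_gcd hn.ne' hm.ne']
    simp [h1]
  have h3 : 0 < (n / n.gcd m).factorization p := hp.factorization_pos_of_dvd hu.ne' hd
  omega

private lemma Kill_Sm' (q n m : ℕ) (hn : 0 < n) (hm : 0 < m) (h : Ag q n m) :
    Sm q (m / n.gcd m) := by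
  rw [Nat.gcd_comm]
  exact Kill_Sm q m n hm hn fun r hr hq => (h r hr hq).symm

private lemma Kill_small (K cs : ℝ) (hK : 0 < K) (hK1 : K ≤ 1 / 16) (hcs : 0 < cs)
    (hcs' : cs ≤ 1 / 20) (b : ℝ) (hb : 0 < b) (hbq : b ≤ K ^ (-cs)) (Z : ℝ)
    (hZ : Z ≤ K ^ (1 - cs)) : b * (2 * K + Z) < 1 := by
  have hK1' : K ≤ 1 := by linarith
  have h1 : K ^ (1 - 2 * cs) ≤ 1 / 4 := by
    have e1 : K ^ (1 - 2 * cs) ≤ K ^ ((1 : ℝ) / 2) :=
      Real.rpow_le_rpow_of_exponent_ge hK hK1' (by linarith)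
    have e2 : K ^ ((1 : ℝ) / 2) ≤ (1 / 16 : ℝ) ^ ((1 : ℝ) / 2) :=
      Real.rpow_le_rpow hK.le hK1 (by norm_num)
    have e3 : (1 / 16 : ℝ) ^ ((1 : ℝ) / 2) = 1 / 4 := by
      rw [← Real.sqrt_eq_rpow]
      rw [show (1 / 16 : ℝ) = (1 / 4) ^ 2 by norm_num]
      exact Real.sqrt_sq (by norm_num)
    linarith
  have h2 : K ^ (-cs) * K ^ (1 - cs) = K ^ (1 - 2 * cs) := by
    rw [← Real.rpow_add hK]
    congr 1
    ring
  have h3 : K ≤ K ^ (1 - cs) := by
    calc K = K ^ (1 : ℝ) := (Real.rpow_one K).symm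
      _ ≤ K ^ (1 - cs) := Real.rpow_le_rpow_of_exponent_ge hK hK1' (by linarith)
  have h4 : 0 < K ^ (1 - cs) := Real.rpow_pos_of_pos hK _
  calc b * (2 * K + Z) ≤ b * (3 * K ^ (1 - cs)) := by
        apply mul_le_mul_of_nonneg_left _ hb.le
        linarith
    _ ≤ K ^ (-cs) * (3 * K ^ (1 - cs)) := by
        apply mul_le_mul_of_nonneg_right hbq
        positivity
    _ = 3 * K ^ (1 - 2 * cs) := by rw [← h2]; ring
    _ < 1 := by linarith

theorem pr_Kill (hL : LabK) (hP : PairK) : KillK := by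
  intro cs Ws L0 hcs hcs'
  obtain ⟨κ, hκ, hLab⟩ := hL cs Ws hcs hcs'
  refine ⟨min κ (1 / 16), lt_min hκ (by norm_num), ?_⟩
  intro δ μ Ch q q0 n m b c hn hm hμn hμm h1n h1m hq hq0 hdep hE hW
  obtain ⟨hLn, hLm, -, -⟩ := hLab δ μ n m b c hn hm hμn hμm (hdep.trans (min_le_left _ _)) hE
  have hsn := Kill_Sm q n m hn hm hq
  have hsm := Kill_Sm' q n m hn hm hq
  have hsn0 := Kill_Sm q0 n m hn hm hq0
  have hsm0 := Kill_Sm' q0 n m hn hm hq0
  rw [Set.eq_empty_iff_forall_notMem]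
  rintro t ⟨⟨k, hk, hkill⟩, ⟨l, hl, hlill⟩⟩
  have hg : 0 < n.gcd m := Nat.gcd_pos_of_pos_left m hn
  have hcop : Nat.Coprime (n / n.gcd m) (m / n.gcd m) := Nat.coprime_div_gcd_div_gcd hg
  have hu1 : n / n.gcd m ∣ n := Nat.div_dvd_of_dvd (Nat.gcd_dvd_left n m)
  have hv1 : m / n.gcd m ∣ m := Nat.div_dvd_of_dvd (Nat.gcd_dvd_right n m)
  have hng : n = n.gcd m * (n / n.gcd m) := (Nat.mul_div_cancel' (Nat.gcd_dvd_left n m)).symm
  have hmg : m = n.gcd m * (m / n.gcd m) := (Nat.mul_div_cancel' (Nat.gcd_dvd_right n m)).symm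
  have hvn : ((m / n.gcd m : ℕ) : ℝ) * μ n ≤ dep μ n m := le_max_left _ _
  have hum : ((n / n.gcd m : ℕ) : ℝ) * μ m ≤ dep μ n m := le_max_right _ _
  have ht := hE.ht
  have hbq := hE.hq
  have hK16 : dep μ n m ≤ 1 / 16 := hdep.trans (min_le_right _ _)
  set g := n.gcd m with hgdef
  set u := n / g with hu
  set v := m / g with hv
  set K := dep μ n m with hKdef
  have hv0 : 0 < v := by
    rcases Nat.eq_zero_or_pos v with h0 | h0
    · rw [h0, mul_zero] at hmg; omega
    · exact h0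
  have hvR : (0 : ℝ) < v := by exact_mod_cast hv0
  have huR : (0 : ℝ) ≤ u := Nat.cast_nonneg u
  have hK : 0 < K := lt_of_lt_of_le (by positivity) hvn
  have hnm : (v : ℝ) * n = u * m := by
    have e1 : (n : ℝ) = g * u := by
      conv_lhs => rw [hng]
      push_cast; ring
    have e2 : (m : ℝ) = g * v := by
      conv_lhs => rw [hmg]
      push_cast; ring
    rw [e1, e2]; ring
  have hA : |(v : ℝ) * k - u * l + ((v : ℝ) - u) * δ| ≤ 2 * K := by
    have e1 : (v : ℝ) * k - u * l + ((v : ℝ) - u) * δ =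
        u * ((m : ℝ) * t - δ - l) - v * ((n : ℝ) * t - δ - k) := by
      linear_combination t * hnm
    rw [e1]
    calc |u * ((m : ℝ) * t - δ - l) - v * ((n : ℝ) * t - δ - k)| ≤
        |u * ((m : ℝ) * t - δ - l)| + |v * ((n : ℝ) * t - δ - k)| := abs_sub _ _
      _ = u * |(m : ℝ) * t - δ - l| + v * |(n : ℝ) * t - δ - k| := by
          rw [abs_mul, abs_mul, abs_of_nonneg huR, abs_of_pos hvR]
      _ ≤ u * μ m + v * μ n := by
          apply add_le_add
          · exact mul_le_mul_of_nonneg_left hl.le huR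
          · exact mul_le_mul_of_nonneg_left hk.le hvR.le
      _ ≤ 2 * K := by linarith
  have hZ : |((v : ℝ) - u) * (δ - c / b)| ≤ K ^ (1 - cs) := by
    refine le_trans ?_ ht
    rw [abs_mul, mul_comm]
    apply mul_le_mul_of_nonneg_left _ (abs_nonneg _)
    rw [Nat.cast_max, abs_le]
    have e1 : (u : ℝ) ≤ max (u : ℝ) v := le_max_left _ _
    have e2 : (v : ℝ) ≤ max (u : ℝ) v := le_max_right _ _
    constructor <;> linarith
  have hbR : (0 : ℝ) < b := by exact_mod_cast hE.hb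
  have hx := Kill_small K cs hK hK16 hcs hcs' b hbR hbq _ hZ
  obtain ⟨hvd, hud, -, -⟩ := hP δ (2 * K) u v b c k l hcop hE.hb hE.hg hA hx
  rcases hW with hW | hW
  · refine hkill u k ⟨hu1, hsn0, 1, h1n, ?_, b, c, hLn, hW, ?_⟩ hsn (Int.ModEq.refl k)
    · intro p hp hp1
      exact absurd (Nat.dvd_one.mp hp1) hp.one_lt.ne'
    · simpa using hud
  · refine hlill v l ⟨hv1, hsm0, 1, h1m, ?_, b, c, hLm, hW, ?_⟩ hsm (Int.ModEq.refl l)
    · intro p hp hp1
      exact absurd (Nat.dvd_one.mp hp1) hp.one_lt.ne'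
    · simpa using hvd

end Pool.Agent.MP_0863b8.K

end

section

/-!
MP_0863b8_nt, KILLS, item Lab: labels of explained pairs.
-/

namespace Pool.Agent.MP_0863b8.K

open MeasureTheory Filter

private theorem Lab_aux (cs Ws K w μ θ : ℝ) (b : ℕ) (c : ℤ) (hcs : 0 < cs)
    (hK : 0 < K) (hK1 : K ≤ 1) (hWs : Ws ≤ 1 / K) (hw : 1 ≤ w) (hμ : 0 < μ) (h1 : w * μ ≤ K)
    (h2 : K ^ (1 + cs) ≤ w * μ) (h3 : |θ - c / b| * w ≤ K ^ (1 - cs)) (h4 : (b : ℝ) ≤ K ^ (-cs))
    (hb : 0 < b) (hg : Int.gcd b c = 1) :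
    Lab cs Ws θ μ 1 b c ∧ Ln θ μ 1 b c ≤ K ^ (-(3 * cs)) := by
  have hμK : μ ≤ K := by nlinarith
  have hinv : 1 / K ≤ 1 / μ := one_div_le_one_div_of_le hμ hμK
  have hratio : |θ - c / b| / μ ≤ K ^ (-(2 * cs)) := by
    have e1 : K ^ (-(2 * cs)) * K ^ (1 + cs) = K ^ (1 - cs) := by
      rw [← Real.rpow_add hK]
      congr 1
      ring
    have e2 : |θ - c / b| * w ≤ K ^ (-(2 * cs)) * (w * μ) := by
      calc |θ - c / b| * w ≤ K ^ (1 - cs) := h3
        _ = K ^ (-(2 * cs)) * K ^ (1 + cs) := e1.symm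
        _ ≤ K ^ (-(2 * cs)) * (w * μ) :=
          mul_le_mul_of_nonneg_left h2 (Real.rpow_nonneg hK.le _)
    rw [div_le_iff₀ hμ]
    have hw0 : 0 < w := by linarith
    have e3 : w * |θ - c / b| ≤ w * (K ^ (-(2 * cs)) * μ) := by
      calc w * |θ - c / b| = |θ - c / b| * w := by ring
        _ ≤ K ^ (-(2 * cs)) * (w * μ) := e2
        _ = w * (K ^ (-(2 * cs)) * μ) := by ring
    exact le_of_mul_le_mul_left e3 hw0
  have hone : (1 : ℝ) ≤ K ^ (-(2 * cs)) :=
    Real.one_le_rpow_of_pos_of_le_one_of_nonpos hK hK1 (by linarith)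
  have hLn : Ln θ μ 1 b c ≤ K ^ (-(3 * cs)) := by
    unfold Ln
    rw [Nat.cast_one, one_mul, one_mul]
    calc (b : ℝ) * max 1 (|θ - c / b| / μ) ≤ K ^ (-cs) * K ^ (-(2 * cs)) := by
          apply mul_le_mul h4 (max_le hone hratio) (le_trans zero_le_one (le_max_left _ _))
            (Real.rpow_nonneg hK.le _)
      _ = K ^ (-(3 * cs)) := by
          rw [← Real.rpow_add hK]
          congr 1
          ring
  refine ⟨⟨one_pos, hb, hg, ?_, ?_⟩, hLn⟩
  · rw [Nat.cast_one, one_mul]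
    exact le_trans hWs hinv
  · refine le_trans hLn ?_
    rw [Nat.cast_one, one_mul]
    have e4 : K ^ (-(3 * cs)) = (1 / K) ^ (3 * cs) := by
      rw [one_div, Real.inv_rpow hK.le, Real.rpow_neg hK.le]
    rw [e4]
    exact Real.rpow_le_rpow (by positivity) hinv (by linarith)

theorem pr_Lab : LabK := by
  intro cs Ws hcs _
  refine ⟨min 1 (1 / max Ws 1), lt_min one_pos (by positivity), ?_⟩
  intro θ μ n m b c hn hm hμn hμm hdep hE
  have hg0 : 0 < n.gcd m := Nat.gcd_pos_of_pos_left _ hn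
  have hu : 1 ≤ n / n.gcd m := Nat.div_pos (Nat.le_of_dvd hn (Nat.gcd_dvd_left n m)) hg0
  have hv : 1 ≤ m / n.gcd m := Nat.div_pos (Nat.le_of_dvd hm (Nat.gcd_dvd_right n m)) hg0
  have hu' : (1 : ℝ) ≤ ((n / n.gcd m : ℕ) : ℝ) := by exact_mod_cast hu
  have hv' : (1 : ℝ) ≤ ((m / n.gcd m : ℕ) : ℝ) := by exact_mod_cast hv
  have h1 : ((m / n.gcd m : ℕ) : ℝ) * μ n ≤ dep μ n m := le_max_left _ _
  have h2 : ((n / n.gcd m : ℕ) : ℝ) * μ m ≤ dep μ n m := le_max_right _ _
  have hK : 0 < dep μ n m := by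
    have : 0 < ((m / n.gcd m : ℕ) : ℝ) * μ n := by positivity
    linarith
  have hK1 : dep μ n m ≤ 1 := le_trans hdep (min_le_left _ _)
  have hWs : Ws ≤ 1 / dep μ n m := by
    have e1 : dep μ n m ≤ 1 / max Ws 1 := le_trans hdep (min_le_right _ _)
    have e2 : max Ws 1 ≤ 1 / dep μ n m := by
      have hm1 : 0 < max Ws 1 := lt_of_lt_of_le one_pos (le_max_right _ _)
      rw [le_div_iff₀ hK]
      rw [le_div_iff₀ hm1] at e1
      linarith
    exact le_trans (le_max_left _ _) e2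
  have ht1 : |θ - c / b| * ((m / n.gcd m : ℕ) : ℝ) ≤ dep μ n m ^ (1 - cs) := by
    refine le_trans (mul_le_mul_of_nonneg_left ?_ (abs_nonneg _)) hE.ht
    exact_mod_cast le_max_right _ _
  have ht2 : |θ - c / b| * ((n / n.gcd m : ℕ) : ℝ) ≤ dep μ n m ^ (1 - cs) := by
    refine le_trans (mul_le_mul_of_nonneg_left ?_ (abs_nonneg _)) hE.ht
    exact_mod_cast le_max_left _ _
  have hr1 : dep μ n m ^ (1 + cs) ≤ ((m / n.gcd m : ℕ) : ℝ) * μ n :=
    le_trans hE.hr (min_le_left _ _)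
  have hr2 : dep μ n m ^ (1 + cs) ≤ ((n / n.gcd m : ℕ) : ℝ) * μ m :=
    le_trans hE.hr (min_le_right _ _)
  obtain ⟨a1, a2⟩ := Lab_aux cs Ws (dep μ n m) _ (μ n) θ b c hcs hK hK1 hWs hv' hμn h1 hr1 ht1
    hE.hq hE.hb hE.hg
  obtain ⟨a3, a4⟩ := Lab_aux cs Ws (dep μ n m) _ (μ m) θ b c hcs hK hK1 hWs hu' hμm h2 hr2 ht2
    hE.hq hE.hb hE.hg
  exact ⟨a1, a3, a2, a4⟩

end Pool.Agent.MP_0863b8.K

end

section

/-!
MP_0863b8_nt, KILLS, item Lift: the kills of a new space come from kills of the old space.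
-/

namespace Pool.Agent.MP_0863b8.K

open MeasureTheory Filter
open R (Sm Ag Bs ov)

namespace Lift_aux

theorem prod_eq (q D : ℕ) (x : ℝ) : (((q * D : ℕ) : ℝ)) * x = (D : ℝ) * ((q : ℝ) * x) := by
  push_cast; ring

theorem Ln_eq (δ μ : ℝ) (q D b : ℕ) (c : ℤ) :
    Ln δ μ (q * D) b c = Ln ((q : ℝ) * δ) ((q : ℝ) * μ) D b c := by
  unfold Ln
  rw [prod_eq, prod_eq]

theorem Lab_of (cs Ws δ μ : ℝ) (q D b : ℕ) (c : ℤ) (hq : 0 < q)
    (h : Lab cs Ws ((q : ℝ) * δ) ((q : ℝ) * μ) D b c) : Lab cs Ws δ μ (q * D) b c := by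
  refine ⟨Nat.mul_pos hq h.hD, h.hb, h.hg, ?_, ?_⟩
  · rw [prod_eq]; exact h.hW
  · rw [prod_eq, Ln_eq]; exact h.hL

theorem Win_of (L0 δ μ : ℝ) (q D b : ℕ) (c : ℤ) (v : ℕ)
    (h : Win L0 ((q : ℝ) * δ) ((q : ℝ) * μ) D b c v) : Win L0 δ μ (q * D) b c v := by
  refine ⟨h.h0, ?_, ?_⟩
  · rw [Ln_eq]; exact h.h1
  · rw [prod_eq, Ln_eq]; exact h.h2

end Lift_aux

open Lift_aux in
theorem pr_Lift : LiftK := by
  intro L0 cs Ws q q0 δ μ f m' Ch Ch' hq hqq hCh v r hK
  obtain ⟨hv, hS, D, hD, hDS, b, c, hLab, hWin, hdvd⟩ := hK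
  have hqv : ¬ q ∣ v := fun h => lt_irrefl q (hS q hq h)
  have hcop : IsCoprime (q : ℤ) (v : ℤ) :=
    Nat.isCoprime_iff_coprime.mpr ((Nat.Prime.coprime_iff_not_dvd hq).mpr hqv)
  obtain ⟨a, b', hab⟩ := hcop
  refine ⟨hS, a * r, ⟨hv.mul_left f, fun p hp hpv => lt_of_lt_of_le (hS p hp hpv) hqq, q * D,
    hCh D hD, ?_, b, c, Lab_of _ _ _ _ _ _ _ _ hq.pos hLab, Win_of _ _ _ _ _ _ _ _ hWin, ?_⟩, ?_⟩
  · intro p hp hpd
    rcases (Nat.Prime.dvd_mul hp).mp hpd with h | h
    · have : p = q := (Nat.prime_dvd_prime_iff_eq hp hq).mp h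
      rw [this]; exact hS
    · exact hDS p hp h
  · have h1 : (b : ℤ) * ((q * D : ℕ) : ℤ) * (a * r) + c
        = ((b : ℤ) * D * r + c) - v * ((b : ℤ) * D * b' * r) := by
      have h2 : a * (q : ℤ) = 1 - b' * v := by linarith
      push_cast
      calc (b : ℤ) * (q * D) * (a * r) + c = b * D * r * (a * q) + c := by ring
        _ = b * D * r * (1 - b' * v) + c := by rw [h2]
        _ = _ := by ring
    rw [h1]
    exact dvd_sub hdvd (dvd_mul_right _ _)
  · rw [Int.modEq_iff_dvd]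
    refine ⟨-(b' * r), ?_⟩
    have h2 : a * (q : ℤ) = 1 - b' * v := by linarith
    calc (q : ℤ) * (a * r) - r = (a * q) * r - r := by ring
      _ = (1 - b' * v) * r - r := by rw [h2]
      _ = _ := by ring

end Pool.Agent.MP_0863b8.K

end
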