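import Pool.Agent.Work.MP_0863b8_nt.Bd.B01
import Pool.Agent.Work.MP_0863b8_nt.Overlap
import Pool.Agent.Work.MP_0863b8_nt.Bd.B02

/-! Bundle of small proof modules (one section per former module). -/

section

/-!
MP_0863b8_nt, K, item Local: density of the kept integers in long intervals.
-/

set_option autoImplicit false

namespace Pool.Agent.MP_0863b8.K

open Finset

namespace NLocal

theorem tot_le {c : ℝ} {m m1 : ℕ} (hm : 0 < m) (h1 : m1 ∣ m) (hc : c ≤ (Nat.totient m : ℝ) / m) :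
    c ≤ (Nat.totient m1 : ℝ) / m1 := by
  have hm1 : 0 < m1 := Nat.pos_of_dvd_of_pos h1 hm
  have key : ∀ n : ℕ, 0 < n →
      (Nat.totient n : ℝ) / n = ∏ p ∈ n.primeFactors, (1 - (p : ℝ)⁻¹) := by
    intro n hn
    have h := congrArg (fun q : ℚ => (q : ℝ)) (Nat.totient_eq_mul_prod_factors n)
    push_cast at h
    have hn' : (n : ℝ) ≠ 0 := by exact_mod_cast hn.ne'
    rw [h, mul_comm, mul_div_assoc, div_self hn', mul_one]
  rw [key m hm] at hc
  rw [key m1 hm1]
  refine hc.trans ?_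
  have hsub : m1.primeFactors ⊆ m.primeFactors := Nat.primeFactors_mono h1 hm.ne'
  rw [← Finset.prod_sdiff hsub]
  have hfac : ∀ p : ℕ, p.Prime → 0 ≤ (1 - (p : ℝ)⁻¹) ∧ (1 - (p : ℝ)⁻¹) ≤ 1 := by
    intro p hp
    have h2 : (0 : ℝ) < (p : ℝ) := by exact_mod_cast hp.pos
    have h3 : (1 : ℝ) ≤ (p : ℝ) := by exact_mod_cast hp.one_lt.le
    have h4 : (p : ℝ)⁻¹ ≤ 1 := inv_le_one_of_one_le₀ h3
    have h5 : 0 < (p : ℝ)⁻¹ := inv_pos.2 h2
    constructor <;> linarith
  have hA : ∏ p ∈ m.primeFactors \ m1.primeFactors, (1 - (p : ℝ)⁻¹) ≤ 1 := by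
    apply Finset.prod_le_one
    · intro p hp
      exact (hfac p (Nat.prime_of_mem_primeFactors (Finset.mem_sdiff.1 hp).1)).1
    · intro p hp
      exact (hfac p (Nat.prime_of_mem_primeFactors (Finset.mem_sdiff.1 hp).1)).2
  have hB : 0 ≤ ∏ p ∈ m1.primeFactors, (1 - (p : ℝ)⁻¹) := by
    apply Finset.prod_nonneg
    intro p hp
    exact (hfac p (Nat.prime_of_mem_primeFactors hp)).1
  calc _ ≤ 1 * ∏ p ∈ m1.primeFactors, (1 - (p : ℝ)⁻¹) := mul_le_mul_of_nonneg_right hA hB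
    _ = _ := one_mul _

/-- the number of elements of a class in an interval -/
theorem class_card (x a : ℤ) (H v : ℕ) (hv : 0 < v) :
    (((Finset.Ico x (x + H)).filter (fun l => l ≡ a [ZMOD (v : ℤ)])).card : ℝ) ≤ H / v + 1 := by
  have hv' : (0 : ℤ) < (v : ℤ) := by exact_mod_cast hv
  have h1 := Int.Ico_filter_modEq_card x (x + H) hv' a
  have hvr : (0 : ℚ) < (v : ℚ) := by exact_mod_cast hv
  have h2 : (((Finset.Ico x (x + H)).filter (fun l => l ≡ a [ZMOD (v : ℤ)])).card : ℚ) ≤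
      H / v + 1 := by
    have h3 : ((((Finset.Ico x (x + H)).filter (fun l => l ≡ a [ZMOD (v : ℤ)])).card : ℤ) : ℚ) ≤
      H / v + 1 := by
      rw [h1]
      push_cast
      apply max_le
      · have h4 : ((x : ℚ) + H - a) / v = (x - a) / v + H / v := by ring
        rw [h4]
        have h5 : (⌈((x : ℚ) - a) / v + H / v⌉ : ℤ) ≤ ⌈((x : ℚ) - a) / v⌉ + ⌈(H : ℚ) / v⌉ :=
          Int.ceil_add_le _ _
        have h6 : ((⌈(H : ℚ) / v⌉ : ℤ) : ℚ) < H / v + 1 := Int.ceil_lt_add_one _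
        have h7 : ((⌈((x : ℚ) - a) / v + H / v⌉ : ℤ) : ℚ) ≤
            ((⌈((x : ℚ) - a) / v⌉ : ℤ) : ℚ) + ((⌈(H : ℚ) / v⌉ : ℤ) : ℚ) := by exact_mod_cast h5
        linarith
      · have : (0 : ℚ) ≤ H / v := by positivity
        linarith
    exact_mod_cast h3
  have h8 : ((((Finset.Ico x (x + H)).filter (fun l => l ≡ a [ZMOD (v : ℤ)])).card : ℚ) : ℝ) ≤
      (((H : ℚ) / v + 1 : ℚ) : ℝ) := by exact_mod_cast h2
  push_cast at h8
  exact h8

theorem per_card (P : ℕ → Prop) [DecidablePred P] (m : ℕ) (hP : ∀ l, P (l + m) ↔ P l)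
    (x q : ℕ) : ((Ico x (x + q * m)).filter P).card = q * ((range m).filter P).card := by
  induction q with
  | zero => simp
  | succ q ih =>
    have h1 : Ico x (x + (q + 1) * m) = Ico x (x + q * m) ∪ Ico (x + q * m) (x + q * m + m) := by
      rw [Finset.Ico_union_Ico_eq_Ico (by omega) (by omega)]
      congr 1
      ring
    have h2 : Disjoint (Ico x (x + q * m)) (Ico (x + q * m) (x + q * m + m)) :=
      Finset.Ico_disjoint_Ico_consecutive _ _ _
    have hper : Function.Periodic P m := fun l => propext (hP l)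
    rw [h1, filter_union, card_union_of_disjoint (Finset.disjoint_filter_filter h2), ih,
      Nat.filter_Ico_card_eq_of_periodic _ _ _ hper, Nat.count_eq_card_filter_range]
    ring

theorem lower (P : ℤ → Prop) [DecidablePred P] (m : ℕ) (hm : 0 < m)
    (hP : ∀ l k : ℤ, P (l + m * k) ↔ P l) (x : ℤ) (H : ℕ) :
    (H / m) * ((range m).filter (fun l : ℕ => P (l : ℤ))).card ≤
      ((Ico x (x + H)).filter P).card := by
  obtain ⟨x0, k, hx⟩ : ∃ (x0 : ℕ) (k : ℤ), x = x0 + m * k := by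
    refine ⟨(x % m).toNat, x / m, ?_⟩
    have h1 : 0 ≤ x % m := Int.emod_nonneg _ (by exact_mod_cast hm.ne')
    rw [Int.toNat_of_nonneg h1]
    exact (Int.emod_add_mul_ediv x m).symm
  rw [← per_card (fun l : ℕ => P (l : ℤ)) m (fun l => by
    have := hP l 1
    push_cast
    rw [mul_one] at this
    exact this) x0 (H / m)]
  apply Finset.card_le_card_of_injOn (fun n : ℕ => (n : ℤ) + m * k)
  · intro n hn
    simp only [coe_filter, mem_Ico, Set.mem_ofPred_eq] at hn ⊢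
    have h1 : H / m * m ≤ H := Nat.div_mul_le_self H m
    refine ⟨⟨?_, ?_⟩, (hP _ _).2 hn.2⟩
    · rw [hx]
      have : (x0 : ℤ) ≤ n := by exact_mod_cast hn.1.1
      linarith
    · rw [hx]
      have : (n : ℤ) < x0 + H := by
        have : n < x0 + H := by omega
        exact_mod_cast this
      linarith
  · intro n _ n' _ h
    have h' : (n : ℤ) + m * k = n' + m * k := h
    have : (n : ℤ) = n' := by linarith
    exact_mod_cast this

open Classical in
/-- the coerced range in `DensK` has the same count as the range of natural numbers -/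
theorem lift_card (m : ℕ) (P : ℤ → Prop) :
    ((Finset.range m).filter (fun l => P (l : ℤ))).card ≤
      ((Finset.range m).filter (fun l : ℕ => P (l : ℤ))).card := by
  have h : ((Finset.range m).filter (fun l => P (l : ℤ))) ⊆
      ((Finset.range m).filter (fun l : ℕ => P (l : ℤ))).image (fun l : ℕ => (l : ℤ)) := by
    intro l hl
    rw [Finset.mem_filter] at hl
    obtain ⟨h1, h2⟩ := hl
    simp only [Finset.bind_def, Finset.mem_sup, Finset.pure_def, Finset.mem_singleton] at h1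
    obtain ⟨a, ha, rfl⟩ := h1
    exact Finset.mem_image.2 ⟨a, Finset.mem_filter.2 ⟨ha, h2⟩, rfl⟩
  exact (Finset.card_le_card h).trans Finset.card_image_le

end NLocal

open Classical in
theorem pr_Local (hD : DensK) (hS : SmallPart) : LocalK := by
  intro c hc
  obtain ⟨L0, c1, hL0, hc1, hD'⟩ := hD c hc
  refine ⟨L0, c1 / 2, hL0, by positivity, ?_⟩
  intro ε hε
  obtain ⟨m0, hm0⟩ := hS c (c1 / 40) hc (by positivity)
  obtain ⟨N, hN⟩ := exists_nat_ge (64 / ε ^ 2 + 40 / (c1 * ε ^ 2) + 1)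
  refine ⟨max m0 N, ?_⟩
  intro m hm hcm A hA x H hH
  have hmm0 : m0 ≤ m := (le_max_left _ _).trans hm
  have hmN : (N : ℝ) ≤ m := by exact_mod_cast (le_max_right _ _).trans hm
  have hpos1 : 0 < 64 / ε ^ 2 := by positivity
  have hpos2 : 0 < 40 / (c1 * ε ^ 2) := by positivity
  have hmpos : (0 : ℝ) < m := by linarith
  have hmpos' : 0 < m := by exact_mod_cast hmpos
  have hHpos : (0 : ℝ) < H := lt_of_lt_of_le (by positivity) hH
  obtain ⟨m1, hm1, hm1s, hsum⟩ := hm0 m hmm0 hcm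
  have hm1pos : 0 < m1 := Nat.pos_of_dvd_of_pos hm1 hmpos'
  have hdens0 := hD' m1 hm1pos (NLocal.tot_le hmpos' hm1 hcm) A hA
  have hdens : c1 * m1 ≤ (((range m1).filter (fun l : ℕ => Avd L0 A m1 (l : ℤ))).card : ℝ) := by
    refine hdens0.trans ?_
    exact_mod_cast NLocal.lift_card m1 (fun l => Avd L0 A m1 l)
  -- `m1 ≤ H / 8`
  have hm1H : (m1 : ℝ) ≤ H / 8 := by
    have h1 : (m : ℝ) ^ ((1 : ℝ) / 2) = Real.sqrt m := (Real.sqrt_eq_rpow m).symm
    rw [h1] at hm1s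
    have h2 : Real.sqrt m * Real.sqrt m = m := Real.mul_self_sqrt hmpos.le
    have h3 : 8 / ε ≤ Real.sqrt m := by
      apply Real.le_sqrt_of_sq_le
      have : (8 / ε) ^ 2 = 64 / ε ^ 2 := by
        rw [div_pow]
        norm_num
      rw [this]
      linarith
    have h4 : 8 ≤ Real.sqrt m * ε := by
      rw [div_le_iff₀ hε] at h3
      exact h3
    have h5 : 0 < Real.sqrt m := Real.sqrt_pos.2 hmpos
    have h6 : 8 * Real.sqrt m ≤ ε * m := by
      calc 8 * Real.sqrt m ≤ (Real.sqrt m * ε) * Real.sqrt m := by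
            exact mul_le_mul_of_nonneg_right h4 h5.le
        _ = ε * (Real.sqrt m * Real.sqrt m) := by ring
        _ = ε * m := by rw [h2]
    linarith
  set V := m.divisors.filter (fun v => ¬ v ∣ m1) with hV
  set T := (Finset.Ico x (x + H)).filter (fun l => Avd L0 A m l) with hT
  set G1 := (Finset.Ico x (x + H)).filter (fun l => Avd L0 A m1 l) with hG1
  -- periodicity
  have hper : ∀ l k : ℤ, Avd L0 A m1 (l + m1 * k) ↔ Avd L0 A m1 l := by
    have h1 : ∀ (v : ℕ), v ∈ m1.divisors → ∀ l k a : ℤ,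
        (l + m1 * k ≡ a [ZMOD (v : ℤ)]) ↔ (l ≡ a [ZMOD (v : ℤ)]) := by
      intro v hv l k a
      have h2 : (v : ℤ) ∣ m1 := by exact_mod_cast (Nat.mem_divisors.1 hv).1
      have h3 : l + m1 * k ≡ l [ZMOD (v : ℤ)] := by
        have h4 : (m1 : ℤ) * k ≡ 0 [ZMOD (v : ℤ)] :=
          (Int.modEq_zero_iff_dvd).2 (h2.mul_right k)
        simpa using (Int.ModEq.refl l).add h4
      exact ⟨fun h => h3.symm.trans h, fun h => h3.trans h⟩
    intro l k
    constructor
    · intro h v hv hL a ha h'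
      exact h v hv hL a ha ((h1 v hv l k a).2 h')
    · intro h v hv hL a ha h'
      exact h v hv hL a ha ((h1 v hv l k a).1 h')
  have hG1card : c1 * (H - m1) ≤ (G1.card : ℝ) := by
    have h1 := NLocal.lower (fun l => Avd L0 A m1 l) m1 hm1pos hper x H
    have h2 : ((H / m1 : ℕ) : ℝ) * (((range m1).filter (fun l : ℕ => Avd L0 A m1 (l : ℤ))).card : ℝ) ≤
        G1.card := by exact_mod_cast h1
    have h3 : (H : ℝ) - m1 ≤ ((H / m1 : ℕ) : ℝ) * m1 := by
      have h4 : H < m1 * (H / m1) + m1 := by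
        have := Nat.lt_mul_div_succ H hm1pos
        rw [mul_add, mul_one] at this
        exact this
      have h5 : (H : ℝ) < m1 * ((H / m1 : ℕ) : ℝ) + m1 := by exact_mod_cast h4
      linarith
    calc c1 * (H - m1) ≤ c1 * (((H / m1 : ℕ) : ℝ) * m1) := mul_le_mul_of_nonneg_left h3 hc1.le
      _ = ((H / m1 : ℕ) : ℝ) * (c1 * m1) := by ring
      _ ≤ ((H / m1 : ℕ) : ℝ) * (((range m1).filter (fun l : ℕ => Avd L0 A m1 (l : ℤ))).card : ℝ) :=
          mul_le_mul_of_nonneg_left hdens (by positivity)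
      _ ≤ _ := h2
  -- the removed classes
  have hcover : G1 ⊆ T ∪ V.biUnion (fun v => (A v).biUnion (fun a =>
      (Finset.Ico x (x + H)).filter (fun l => l ≡ a [ZMOD (v : ℤ)]))) := by
    intro l hl
    rw [hG1, Finset.mem_filter] at hl
    by_cases hlT : Avd L0 A m l
    · exact Finset.mem_union_left _ (Finset.mem_filter.2 ⟨hl.1, hlT⟩)
    · apply Finset.mem_union_right
      unfold Avd at hlT
      push Not at hlT
      obtain ⟨v, hv, hL, a, ha, hla⟩ := hlT
      refine Finset.mem_biUnion.2 ⟨v, ?_, Finset.mem_biUnion.2 ⟨a, ha,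
        Finset.mem_filter.2 ⟨hl.1, hla⟩⟩⟩
      rw [hV, Finset.mem_filter]
      refine ⟨hv, fun hv1 => ?_⟩
      exact hl.2 v (Nat.mem_divisors.2 ⟨hv1, hm1pos.ne'⟩) hL a ha hla
  have hVpos : ∀ v ∈ V, 0 < v := by
    intro v hv
    rw [hV, Finset.mem_filter] at hv
    exact Nat.pos_of_mem_divisors hv.1
  have hbad : ((V.biUnion (fun v => (A v).biUnion (fun a =>
      (Finset.Ico x (x + H)).filter (fun l => l ≡ a [ZMOD (v : ℤ)])))).card : ℝ) ≤
      ∑ v ∈ V, 2 * ((H : ℝ) / v + 1) := by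
    calc ((V.biUnion (fun v => (A v).biUnion (fun a =>
          (Finset.Ico x (x + H)).filter (fun l => l ≡ a [ZMOD (v : ℤ)])))).card : ℝ)
        ≤ ((∑ v ∈ V, ((A v).biUnion (fun a =>
          (Finset.Ico x (x + H)).filter (fun l => l ≡ a [ZMOD (v : ℤ)]))).card : ℕ) : ℝ) := by
          exact_mod_cast Finset.card_biUnion_le
      _ = ∑ v ∈ V, (((A v).biUnion (fun a =>
          (Finset.Ico x (x + H)).filter (fun l => l ≡ a [ZMOD (v : ℤ)]))).card : ℝ) := by
          push_cast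
          rfl
      _ ≤ ∑ v ∈ V, 2 * ((H : ℝ) / v + 1) := by
          apply Finset.sum_le_sum
          intro v hv
          have hv0 := hVpos v hv
          calc (((A v).biUnion (fun a =>
              (Finset.Ico x (x + H)).filter (fun l => l ≡ a [ZMOD (v : ℤ)]))).card : ℝ)
              ≤ ((∑ a ∈ A v,
                ((Finset.Ico x (x + H)).filter (fun l => l ≡ a [ZMOD (v : ℤ)])).card : ℕ) : ℝ) := by
                exact_mod_cast Finset.card_biUnion_le
            _ = ∑ a ∈ A v,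
                (((Finset.Ico x (x + H)).filter (fun l => l ≡ a [ZMOD (v : ℤ)])).card : ℝ) := by
                push_cast
                rfl
            _ ≤ ∑ _a ∈ A v, ((H : ℝ) / v + 1) :=
                Finset.sum_le_sum fun a _ => NLocal.class_card x a H v hv0
            _ = ((A v).card : ℝ) * ((H : ℝ) / v + 1) := by
                rw [Finset.sum_const, nsmul_eq_mul]
            _ ≤ 2 * ((H : ℝ) / v + 1) := by
                apply mul_le_mul_of_nonneg_right _ (by positivity)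
                exact_mod_cast hA v
  have hsplit : ∑ v ∈ V, 2 * ((H : ℝ) / v + 1) ≤ c1 * H / 10 + 4 / ε := by
    rw [← Finset.sum_filter_add_sum_filter_not V (fun v => v ≤ H)]
    apply add_le_add
    · calc ∑ v ∈ V.filter (fun v => v ≤ H), 2 * ((H : ℝ) / v + 1)
          ≤ ∑ v ∈ V.filter (fun v => v ≤ H), 4 * H * (1 / (v : ℝ)) := by
            apply Finset.sum_le_sum
            intro v hv
            rw [Finset.mem_filter] at hv
            have hv0 : (0 : ℝ) < v := by exact_mod_cast hVpos v hv.1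
            have hvH : (v : ℝ) ≤ H := by exact_mod_cast hv.2
            have h1 : 1 ≤ (H : ℝ) / v := by
              rw [le_div_iff₀ hv0]
              linarith
            have h2 : 4 * (H : ℝ) * (1 / (v : ℝ)) = 4 * ((H : ℝ) / v) := by ring
            rw [h2]
            linarith
        _ ≤ ∑ v ∈ V, 4 * H * (1 / (v : ℝ)) := by
            apply Finset.sum_le_sum_of_subset_of_nonneg (Finset.filter_subset _ _)
            intro v _ _
            positivity
        _ = 4 * H * ∑ v ∈ V, 1 / (v : ℝ) := by rw [Finset.mul_sum]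
        _ ≤ 4 * H * (c1 / 40) := mul_le_mul_of_nonneg_left hsum (by positivity)
        _ = c1 * H / 10 := by ring
    · have hcardV : ((V.filter (fun v => ¬ v ≤ H)).card : ℝ) ≤ 1 / ε := by
        have h1 : (V.filter (fun v => ¬ v ≤ H)).card ≤ (Finset.Icc 1 ⌊1 / ε⌋₊).card := by
          apply Finset.card_le_card_of_injOn (fun v => m / v)
          · intro v hv
            simp only [coe_filter, Set.mem_ofPred_eq, not_le] at hv
            have hvm : v ∣ m := by
              have := hv.1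
              rw [hV, Finset.mem_filter] at this
              exact Nat.dvd_of_mem_divisors this.1
            have hv0 : 0 < v := hVpos v hv.1
            simp only [coe_Icc, Set.mem_Icc]
            refine ⟨Nat.div_pos (Nat.le_of_dvd hmpos' hvm) hv0, ?_⟩
            apply Nat.le_floor
            rw [Nat.cast_div hvm (by exact_mod_cast hv0.ne')]
            have hv0' : (0 : ℝ) < v := by exact_mod_cast hv0
            rw [div_le_div_iff₀ hv0' hε]
            have h2 : (H : ℝ) < v := by exact_mod_cast hv.2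
            linarith
          · intro v hv v' hv' h
            simp only [coe_filter, Set.mem_ofPred_eq, not_le] at hv hv'
            have hvm : v ∣ m := by
              have := hv.1
              rw [hV, Finset.mem_filter] at this
              exact Nat.dvd_of_mem_divisors this.1
            have hvm' : v' ∣ m := by
              have := hv'.1
              rw [hV, Finset.mem_filter] at this
              exact Nat.dvd_of_mem_divisors this.1
            have h3 : m / v = m / v' := h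
            have h4 : m / v * v = m := Nat.div_mul_cancel hvm
            have h5 : m / v' * v' = m := Nat.div_mul_cancel hvm'
            rw [← h3] at h5
            have h6 : 0 < m / v := Nat.div_pos (Nat.le_of_dvd hmpos' hvm) (hVpos v hv.1)
            exact Nat.eq_of_mul_eq_mul_left h6 (h4.trans h5.symm)
        rw [Nat.card_Icc, Nat.add_sub_cancel] at h1
        calc ((V.filter (fun v => ¬ v ≤ H)).card : ℝ) ≤ (⌊1 / ε⌋₊ : ℝ) := by exact_mod_cast h1
          _ ≤ 1 / ε := Nat.floor_le (by positivity)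
      calc ∑ v ∈ V.filter (fun v => ¬ v ≤ H), 2 * ((H : ℝ) / v + 1)
          ≤ ∑ _v ∈ V.filter (fun v => ¬ v ≤ H), (4 : ℝ) := by
            apply Finset.sum_le_sum
            intro v hv
            rw [Finset.mem_filter, not_le] at hv
            have hv0 : (0 : ℝ) < v := by exact_mod_cast hVpos v hv.1
            have hvH : (H : ℝ) < v := by exact_mod_cast hv.2
            have h1 : (H : ℝ) / v ≤ 1 := by
              rw [div_le_iff₀ hv0]
              linarith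
            linarith
        _ = ((V.filter (fun v => ¬ v ≤ H)).card : ℝ) * 4 := by
            rw [Finset.sum_const, nsmul_eq_mul]
        _ ≤ 1 / ε * 4 := mul_le_mul_of_nonneg_right hcardV (by norm_num)
        _ = 4 / ε := by ring
  have h4ε : 4 / ε ≤ c1 * H / 10 := by
    have h1 : 40 / (c1 * ε ^ 2) ≤ m := by linarith
    have h2 : 40 ≤ m * (c1 * ε ^ 2) := by
      rw [div_le_iff₀ (by positivity)] at h1
      exact h1
    rw [div_le_div_iff₀ hε (by norm_num)]
    have h3 : c1 * (ε * m) * ε ≤ c1 * H * ε :=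
      mul_le_mul_of_nonneg_right (mul_le_mul_of_nonneg_left hH hc1.le) hε.le
    nlinarith
  have hfin : (G1.card : ℝ) ≤ T.card + (c1 * H / 10 + 4 / ε) := by
    have h1 : G1.card ≤ T.card + (V.biUnion (fun v => (A v).biUnion (fun a =>
      (Finset.Ico x (x + H)).filter (fun l => l ≡ a [ZMOD (v : ℤ)])))).card :=
      (Finset.card_le_card hcover).trans (Finset.card_union_le _ _)
    have h2 : (G1.card : ℝ) ≤ T.card + ((V.biUnion (fun v => (A v).biUnion (fun a =>
      (Finset.Ico x (x + H)).filter (fun l => l ≡ a [ZMOD (v : ℤ)])))).card : ℝ) := by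
      exact_mod_cast h1
    linarith
  have h7 : c1 * (H - m1) ≥ c1 * (H - H / 8) :=
    mul_le_mul_of_nonneg_left (by linarith) hc1.le
  nlinarith

end Pool.Agent.MP_0863b8.K

end

section

set_option autoImplicit false

namespace Pool.Agent.MP_0863b8.K

open R (Sm Ag Bs ov)

theorem Mult_Ln_ge (δ μ : ℝ) (D b : ℕ) (c : ℤ) (hb : 0 < b) : 1 ≤ Ln δ μ D b c := by
  unfold Ln
  have h1 : (1 : ℝ) ≤ b := by exact_mod_cast hb
  have h2 : (1 : ℝ) ≤ max 1 (|(D : ℝ) * δ - c / b| / (D * μ)) := le_max_left _ _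
  nlinarith

theorem Mult_Ln_log (cs Ws δ μ : ℝ) (D b : ℕ) (c : ℤ) (hcs2 : cs ≤ 1 / 20)
    (hWs : 16 ≤ Ws) (h : Lab cs Ws δ μ D b c) :
    Real.log (Ln δ μ D b c) ≤ 3 / 20 * Real.log (1 / (D * μ)) := by
  have hW : 16 ≤ 1 / (D * μ) := hWs.trans h.hW
  have hL1 := Mult_Ln_ge δ μ D b c h.hb
  have h1 : Real.log (Ln δ μ D b c) ≤ Real.log ((1 / (D * μ)) ^ (3 * cs)) :=
    Real.log_le_log (by linarith) h.hL
  rw [Real.log_rpow (by linarith)] at h1
  have h2 : 0 ≤ Real.log (1 / (D * μ)) := Real.log_nonneg (by linarith)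
  nlinarith

theorem Mult_space_log (hS : SpaceK) (cs Ws δ μ : ℝ) (D D' b b' : ℕ) (c c' : ℤ)
    (hμ : 0 < μ) (hWs : 16 ≤ Ws) (hD : D ∣ D') (h : Lab cs Ws δ μ D b c)
    (h' : Lab cs Ws δ μ D' b' c') (hne : (c : ℝ) / (b * D) ≠ (c' : ℝ) / (b' * D')) :
    Real.log (1 / (D' * μ)) ≤ Real.log 2 + Real.log (Ln δ μ D b c) +
      Real.log (Ln δ μ D' b' c') := by
  have h1 := hS cs Ws δ μ D D' b b' c c' hμ hD h h' hne
  have hL := Mult_Ln_ge δ μ D b c h.hb
  have hL' := Mult_Ln_ge δ μ D' b' c' h'.hb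
  have hW : 16 ≤ 1 / (D' * μ) := hWs.trans h'.hW
  have h2 := Real.log_le_log (by linarith) h1
  rw [Real.log_mul (by norm_num) (by positivity), Real.log_mul (by positivity) (by positivity)]
    at h2
  linarith

theorem Mult_order (hS : SpaceK) (cs Ws L0 δ μ : ℝ) (v : ℕ) (hcs2 : cs ≤ 1 / 20)
    (hWs : 16 ≤ Ws) (hμ : 0 < μ) (hv : 0 < v) {D1 D2 D3 b1 b2 b3 : ℕ} {c1 c2 c3 : ℤ}
    (h12 : D1 ∣ D2) (h23 : D2 ∣ D3) (L1 : Lab cs Ws δ μ D1 b1 c1) (L2 : Lab cs Ws δ μ D2 b2 c2)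
    (L3 : Lab cs Ws δ μ D3 b3 c3) (w1 : Win L0 δ μ D1 b1 c1 v) (w3 : Win L0 δ μ D3 b3 c3 v)
    (n12 : (c1 : ℝ) / (b1 * D1) ≠ (c2 : ℝ) / (b2 * D2))
    (n23 : (c2 : ℝ) / (b2 * D2) ≠ (c3 : ℝ) / (b3 * D3)) : False := by
  have e12 := Mult_space_log hS cs Ws δ μ D1 D2 b1 b2 c1 c2 hμ hWs h12 L1 L2 n12
  have e23 := Mult_space_log hS cs Ws δ μ D2 D3 b2 b3 c2 c3 hμ hWs h23 L2 L3 n23
  have l2 := Mult_Ln_log cs Ws δ μ D2 b2 c2 hcs2 hWs L2
  have l3 := Mult_Ln_log cs Ws δ μ D3 b3 c3 hcs2 hWs L3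
  have hv0 : (0 : ℝ) < v := by exact_mod_cast hv
  have g1 := Mult_Ln_ge δ μ D1 b1 c1 L1.hb
  have g3 := Mult_Ln_ge δ μ D3 b3 c3 L3.hb
  have hW3 : 16 ≤ 1 / (D3 * μ) := hWs.trans L3.hW
  have hv1 : 9 / 10 * Real.log (Ln δ μ D1 b1 c1) ≤ Real.log v := by
    have h := Real.log_le_log (by positivity) w1.h1
    rw [Real.log_rpow (by linarith)] at h
    exact h
  have hv3 : 3 * Real.log 2 + Real.log v < Real.log (1 / (D3 * μ)) := by
    have h8 : (8 : ℝ) * v ≤ 8 * Ln δ μ D3 b3 c3 * v := by nlinarith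
    have h := Real.log_lt_log (by positivity) (lt_of_le_of_lt h8 w3.h2)
    rw [Real.log_mul (by norm_num) (by positivity)] at h
    have h9 : Real.log 8 = 3 * Real.log 2 := by
      have : (8 : ℝ) = 2 ^ 3 := by norm_num
      rw [this, Real.log_pow]; norm_num
    rw [h9] at h
    exact h
  have h16 : 4 * Real.log 2 ≤ Real.log (1 / (D3 * μ)) := by
    have h := Real.log_le_log (by norm_num) hW3
    have h9 : Real.log 16 = 4 * Real.log 2 := by
      have : (16 : ℝ) = 2 ^ 4 := by norm_num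
      rw [this, Real.log_pow]; norm_num
    rw [h9] at h
    exact h
  have ha : 0 < Real.log 2 := Real.log_pos (by norm_num)
  linarith

theorem Mult_coprime {v b D : ℕ} {c r : ℤ} (hg : Int.gcd b c = 1)
    (hD : ∀ p : ℕ, p.Prime → p ∣ D → Sm p v) (hd : (v : ℤ) ∣ (b : ℤ) * D * r + c) :
    IsCoprime (v : ℤ) ((b : ℤ) * D) := by
  have h1 : Nat.Coprime v b := by
    by_contra hn
    obtain ⟨p, hp, hpv, hpb⟩ := Nat.Prime.not_coprime_iff_dvd.mp hn
    have h2 : (p : ℤ) ∣ (b : ℤ) * D * r + c := (Int.natCast_dvd_natCast.mpr hpv).trans hd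
    have h3 : (p : ℤ) ∣ (b : ℤ) := Int.natCast_dvd_natCast.mpr hpb
    have h4 : (p : ℤ) ∣ c := (dvd_add_right ((h3.mul_right _).mul_right _)).mp h2
    have h5 : p ∣ Int.gcd b c := by
      have := Int.dvd_coe_gcd h3 h4
      exact_mod_cast this
    rw [hg] at h5
    exact hp.one_lt.ne' (Nat.dvd_one.mp h5)
  have h2 : Nat.Coprime v D := by
    by_contra hn
    obtain ⟨p, hp, hpv, hpD⟩ := Nat.Prime.not_coprime_iff_dvd.mp hn
    exact lt_irrefl _ (hD p hp hpD p hp hpv)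
  exact IsCoprime.mul_right (Nat.isCoprime_iff_coprime.mpr h1) (Nat.isCoprime_iff_coprime.mpr h2)

theorem Mult_same {v b D b' D' : ℕ} {c c' r r' : ℤ} (hb : 0 < b) (hb' : 0 < b') (hD : 0 < D)
    (hD' : 0 < D') (hg : Int.gcd b c = 1) (hg' : Int.gcd b' c' = 1)
    (hs : ∀ p : ℕ, p.Prime → p ∣ D → Sm p v) (hs' : ∀ p : ℕ, p.Prime → p ∣ D' → Sm p v)
    (hd : (v : ℤ) ∣ (b : ℤ) * D * r + c) (hd' : (v : ℤ) ∣ (b' : ℤ) * D' * r' + c')
    (he : (c : ℝ) / (b * D) = (c' : ℝ) / (b' * D')) : r ≡ r' [ZMOD (v : ℤ)] := by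
  have hb0 : (b : ℝ) * D ≠ 0 := by positivity
  have hb0' : (b' : ℝ) * D' ≠ 0 := by positivity
  have h1 : c * ((b' : ℤ) * D') = c' * ((b : ℤ) * D) := by
    rw [div_eq_div_iff hb0 hb0'] at he
    exact_mod_cast he
  have c1 := Mult_coprime hg hs hd
  have c2 := Mult_coprime hg' hs' hd'
  have h2 : (v : ℤ) ∣ ((b : ℤ) * D) * (((b' : ℤ) * D') * (r - r')) := by
    have e : ((b : ℤ) * D) * (((b' : ℤ) * D') * (r - r')) =
        ((b' : ℤ) * D') * ((b : ℤ) * D * r + c) - ((b : ℤ) * D) * ((b' : ℤ) * D' * r' + c') := by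
      linear_combination -h1
    rw [e]
    exact dvd_sub (hd.mul_left _) (hd'.mul_left _)
  have h3 := c2.dvd_of_dvd_mul_left (c1.dvd_of_dvd_mul_left h2)
  exact ((Int.modEq_iff_dvd).mpr h3).symm

theorem pr_Mult (hS : SpaceK) (hU : UniqK) : MultK := by
  classical
  intro cs hcs hcs2
  obtain ⟨W0, hW0⟩ := hU cs hcs hcs2
  refine ⟨max 16 W0, ?_⟩
  intro Ws hWs L0 δ q0 μ Ch m hm hμ hch v
  have h16 : 16 ≤ Ws := (le_max_left _ _).trans hWs
  have hun := hW0 Ws ((le_max_right _ _).trans hWs)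
  -- three killed classes
  have key : ∀ r1 r2 r3 : ℤ, Kc L0 cs Ws q0 δ μ Ch m v r1 → Kc L0 cs Ws q0 δ μ Ch m v r2 →
      Kc L0 cs Ws q0 δ μ Ch m v r3 → r1 ≡ r2 [ZMOD (v : ℤ)] ∨ r3 ≡ r1 [ZMOD (v : ℤ)] ∨
      r3 ≡ r2 [ZMOD (v : ℤ)] := by
    intro r1 r2 r3 k1 k2 k3
    obtain ⟨hvm, -, D1, hD1, s1, b1, c1, L1, w1, d1⟩ := k1
    obtain ⟨-, -, D2, hD2, s2, b2, c2, L2, w2, d2⟩ := k2
    obtain ⟨-, -, D3, hD3, s3, b3, c3, L3, w3, d3⟩ := k3
    have hv : 0 < v := Nat.pos_of_dvd_of_pos hvm hm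
    by_contra hcon
    push Not at hcon
    obtain ⟨m12, m31, m32⟩ := hcon
    have n12 : (c1 : ℝ) / (b1 * D1) ≠ (c2 : ℝ) / (b2 * D2) := fun he =>
      m12 (Mult_same L1.hb L2.hb L1.hD L2.hD L1.hg L2.hg s1 s2 d1 d2 he)
    have n31 : (c3 : ℝ) / (b3 * D3) ≠ (c1 : ℝ) / (b1 * D1) := fun he =>
      m31 (Mult_same L3.hb L1.hb L3.hD L1.hD L3.hg L1.hg s3 s1 d3 d1 he)
    have n32 : (c3 : ℝ) / (b3 * D3) ≠ (c2 : ℝ) / (b2 * D2) := fun he =>
      m32 (Mult_same L3.hb L2.hb L3.hD L2.hD L3.hg L2.hg s3 s2 d3 d2 he)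
    rcases hch D1 hD1 D2 hD2 with h12 | h21
    · rcases hch D2 hD2 D3 hD3 with h23 | h32
      · exact Mult_order hS cs Ws L0 δ (μ m) v hcs2 h16 hμ hv h12 h23 L1 L2 L3 w1 w3 n12 n32.symm
      · rcases hch D1 hD1 D3 hD3 with h13 | h31
        · exact Mult_order hS cs Ws L0 δ (μ m) v hcs2 h16 hμ hv h13 h32 L1 L3 L2 w1 w2
            n31.symm n32
        · exact Mult_order hS cs Ws L0 δ (μ m) v hcs2 h16 hμ hv h31 h12 L3 L1 L2 w3 w2
            n31 n12
    · rcases hch D1 hD1 D3 hD3 with h13 | h31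
      · exact Mult_order hS cs Ws L0 δ (μ m) v hcs2 h16 hμ hv h21 h13 L2 L1 L3 w2 w3
          n12.symm n31.symm
      · rcases hch D2 hD2 D3 hD3 with h23 | h32
        · exact Mult_order hS cs Ws L0 δ (μ m) v hcs2 h16 hμ hv h23 h31 L2 L3 L1 w2 w1
            n32.symm n31
        · exact Mult_order hS cs Ws L0 δ (μ m) v hcs2 h16 hμ hv h32 h21 L3 L2 L1 w3 w1
            n32 n12.symm
  by_cases h1 : ∃ r, Kc L0 cs Ws q0 δ μ Ch m v r
  · obtain ⟨r1, k1⟩ := h1
    by_cases h2 : ∀ r, Kc L0 cs Ws q0 δ μ Ch m v r → r ≡ r1 [ZMOD (v : ℤ)]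
    · exact ⟨{r1}, by simp, fun r hr => ⟨r1, by simp, h2 r hr⟩⟩
    · push Not at h2
      obtain ⟨r2, k2, hne⟩ := h2
      refine ⟨{r1, r2}, Finset.card_le_two, fun r hr => ?_⟩
      rcases key r1 r2 r k1 k2 hr with h | h | h
      · exact absurd h.symm hne
      · exact ⟨r1, by simp, h⟩
      · exact ⟨r2, by simp, h⟩
  · exact ⟨∅, by simp, fun r hr => absurd ⟨r, hr⟩ h1⟩

end Pool.Agent.MP_0863b8.K

end

section

/-!
MP_0863b8_nt, K0: overlaps of two kept sets.
-/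

namespace Pool.Agent.MP_0863b8.K

open MeasureTheory Filter
open R (Sm Ag Bs ov)

private lemma Ov_dep_comm (μ : ℕ → ℝ) (n m : ℕ) : dep μ n m = dep μ m n := by
  unfold dep
  rw [Nat.gcd_comm n m, max_comm]

private lemma Ov_ene_comm (μ : ℕ → ℝ) (n m : ℕ) : ene μ n m = ene μ m n := by
  unfold ene
  rw [Nat.gcd_comm n m, min_comm]

private lemma Ov_ov_comm (δ : ℝ) (μ : ℕ → ℝ) (K : ℕ → ℕ → ℤ → Prop) (q n m : ℕ) :
    ov δ μ K q n m = ov δ μ K q m n := by
  unfold ov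
  rw [Set.inter_comm (Bs δ μ K q n)]

private lemma Ov_sub (δ : ℝ) (μ : ℕ → ℝ) (K : ℕ → ℕ → ℤ → Prop) (q n m : ℕ) :
    Bs δ μ K q n ∩ Bs δ μ K q m ∩ Set.Ico (0:ℝ) 1 ⊆
      Bset δ (μ n) n 0 1 ∩ Bset δ (μ m) m 0 1 := by
  rintro t ⟨⟨⟨k, hk, _⟩, ⟨l, hl, _⟩⟩, h0, h1⟩
  refine ⟨⟨h0, h1, k, ?_, hk⟩, ⟨h0, h1, l, ?_, hl⟩⟩
  · simp
  · simp

private lemma Ov_le (δ : ℝ) (μ : ℕ → ℝ) (K : ℕ → ℕ → ℤ → Prop) (q n m : ℕ) :
    ov δ μ K q n m ≤ (volume (Bset δ (μ n) n 0 1 ∩ Bset δ (μ m) m 0 1)).toReal := by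
  unfold ov
  apply ENNReal.toReal_mono
  · have h : volume (Bset δ (μ n) n 0 1 ∩ Bset δ (μ m) m 0 1) ≤ volume (Set.Ico (0:ℝ) 1) := by
      apply measure_mono
      rintro t ⟨⟨h0, h1, _⟩, _⟩
      exact ⟨h0, h1⟩
    rw [Real.volume_Ico] at h
    exact ne_of_lt (lt_of_le_of_lt h ENNReal.ofReal_lt_top)
  · exact measure_mono (Ov_sub δ μ K q n m)

private lemma Ov_ord (δ : ℝ) (μ : ℕ → ℝ) (K : ℕ → ℕ → ℤ → Prop) (q n m : ℕ) (hn : 0 < n)
    (hm : 0 < m) (hne : n ≠ m) (hμn : 0 < μ n) (hμm : 0 < μ m)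
    (hw : μ m / m ≤ μ n / n) :
    (1/4 ≤ dep μ n m → ov δ μ K q n m ≤ 48 * μ n * μ m) ∧
    (dep μ n m < 1/4 → ov δ μ K q n m ≤ 6 * ene μ n m) := by
  obtain ⟨h1, h2, _, _⟩ := overlap δ (μ n) (μ m) n m (n / n.gcd m) (m / n.gcd m)
    (Int.natAbs (((n / n.gcd m : ℕ):ℤ) - (m / n.gcd m : ℕ))) 0 1 0 1 hn hm hne hμn hμm hw
    rfl rfl rfl
  have hg : 0 < n.gcd m := Nat.gcd_pos_of_pos_left m hn
  set g := n.gcd m with hgdef
  set u := n / g with hu
  set v := m / g with hv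
  have hng : n = g * u := (Nat.mul_div_cancel' (Nat.gcd_dvd_left n m)).symm
  have hmg : m = g * v := (Nat.mul_div_cancel' (Nat.gcd_dvd_right n m)).symm
  have hu0 : 0 < u := by
    rcases Nat.eq_zero_or_pos u with h0 | h0
    · rw [h0, mul_zero] at hng; omega
    · exact h0
  have hv0 : 0 < v := by
    rcases Nat.eq_zero_or_pos v with h0 | h0
    · rw [h0, mul_zero] at hmg; omega
    · exact h0
  have hgR : (0:ℝ) < g := by exact_mod_cast hg
  have huR : (0:ℝ) < u := by exact_mod_cast hu0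
  have hvR : (0:ℝ) < v := by exact_mod_cast hv0
  have hnR : (n:ℝ) = g * u := by
    conv_lhs => rw [hng]
    push_cast; ring
  have hmR : (m:ℝ) = g * v := by
    conv_lhs => rw [hmg]
    push_cast; ring
  have hcomp : (u:ℝ) * μ m ≤ v * μ n := by
    rw [hnR, hmR, div_le_div_iff₀ (by positivity) (by positivity)] at hw
    have : (g:ℝ) * (u * μ m) ≤ g * (v * μ n) := by nlinarith
    exact le_of_mul_le_mul_left this hgR
  have hdep : dep μ n m = v * μ n := by
    unfold dep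
    rw [← hgdef, ← hu, ← hv]
    exact max_eq_left hcomp
  have hene : ene μ n m = μ m / v := by
    unfold ene
    rw [← hgdef, ← hu, ← hv]
    apply min_eq_right
    rw [div_le_div_iff₀ hvR huR]
    linarith
  have hle := Ov_le δ μ K q n m
  refine ⟨fun h => ?_, fun h => ?_⟩
  · rw [hdep] at h
    exact le_trans hle (h1 (by linarith))
  · rw [hdep] at h
    rw [hene]
    exact le_trans hle (h2 (by linarith))

/-- K0 -/
theorem pr_Ov : OvK := by
  intro δ μ K q n m hn hm hne hμn hμm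
  refine ⟨?_, ?_, ?_⟩
  · intro h
    rcases le_total (μ m / m) (μ n / n) with hw | hw
    · exact (Ov_ord δ μ K q n m hn hm hne hμn hμm hw).1 h
    · rw [Ov_dep_comm] at h
      rw [Ov_ov_comm]
      have := (Ov_ord δ μ K q m n hm hn (Ne.symm hne) hμm hμn hw).1 h
      linarith
  · intro h
    rcases le_total (μ m / m) (μ n / n) with hw | hw
    · exact (Ov_ord δ μ K q n m hn hm hne hμn hμm hw).2 h
    · rw [Ov_dep_comm] at h
      rw [Ov_ov_comm, Ov_ene_comm]
      exact (Ov_ord δ μ K q m n hm hn (Ne.symm hne) hμm hμn hw).2 h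
  · intro _ hnon
    obtain ⟨t, ⟨k, hk, _⟩, ⟨l, hl, _⟩⟩ := hnon
    have hg : 0 < n.gcd m := Nat.gcd_pos_of_pos_left m hn
    unfold dep
    set g := n.gcd m with hgdef
    set u := n / g with hu
    set v := m / g with hv
    have hng : n = g * u := (Nat.mul_div_cancel' (Nat.gcd_dvd_left n m)).symm
    have hmg : m = g * v := (Nat.mul_div_cancel' (Nat.gcd_dvd_right n m)).symm
    have hu0 : 0 < u := by
      rcases Nat.eq_zero_or_pos u with h0 | h0
      · rw [h0, mul_zero] at hng; omega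
      · exact h0
    have hv0 : 0 < v := by
      rcases Nat.eq_zero_or_pos v with h0 | h0
      · rw [h0, mul_zero] at hmg; omega
      · exact h0
    have huR : (0:ℝ) < u := by exact_mod_cast hu0
    have hvR : (0:ℝ) < v := by exact_mod_cast hv0
    have hnR : (n:ℝ) = g * u := by
      conv_lhs => rw [hng]
      push_cast; ring
    have hmR : (m:ℝ) = g * v := by
      conv_lhs => rw [hmg]
      push_cast; ring
    set X : ℝ := (n:ℝ) * t - δ - k with hX
    set Y : ℝ := (m:ℝ) * t - δ - l with hY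
    have he : ((u:ℝ) - v) * δ - (((v:ℤ) * k - (u:ℤ) * l : ℤ) : ℝ) = v * X - u * Y := by
      rw [hX, hY, hnR, hmR]
      push_cast
      ring
    have h1 := nd_le (((u:ℝ) - v) * δ) ((v:ℤ) * k - (u:ℤ) * l)
    rw [he] at h1
    have h2 : |(v:ℝ) * X - u * Y| ≤ v * |X| + u * |Y| := by
      calc |(v:ℝ) * X - u * Y| ≤ |(v:ℝ) * X| + |u * Y| := abs_sub _ _
        _ = v * |X| + u * |Y| := by
          rw [abs_mul, abs_mul, abs_of_pos huR, abs_of_pos hvR]
    have h3 : (v:ℝ) * |X| < v * μ n := mul_lt_mul_of_pos_left hk hvR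
    have h4 : (u:ℝ) * |Y| < u * μ m := mul_lt_mul_of_pos_left hl huR
    have h5 : (v:ℝ) * μ n ≤ max ((v:ℝ) * μ n) (u * μ m) := le_max_left _ _
    have h6 : (u:ℝ) * μ m ≤ max ((v:ℝ) * μ n) (u * μ m) := le_max_right _ _
    linarith

end Pool.Agent.MP_0863b8.K

end

section

/-!
MP_0863b8_nt, item K5 Pair: the arithmetic of an intersection point of an explained pair.
-/

set_option autoImplicit false

namespace Pool.Agent.MP_0863b8.K

theorem pr_Pair : PairK := by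
  intro θ x u v b c k l huv hb hbc hA hx
  have hbR : (0:ℝ) < b := by exact_mod_cast hb
  set A : ℝ := (v : ℝ) * k - u * l + ((v : ℝ) - u) * θ with hAdef
  set Z : ℝ := ((v : ℝ) - u) * (θ - c / b) with hZ
  have hN : (((b : ℤ) * ((v : ℤ) * k - (u : ℤ) * l) + ((v : ℤ) - u) * c : ℤ) : ℝ) =
      b * A - b * Z := by
    push_cast
    rw [hAdef, hZ]
    field_simp
    ring
  have hlt : |(((b : ℤ) * ((v : ℤ) * k - (u : ℤ) * l) + ((v : ℤ) - u) * c : ℤ) : ℝ)| < 1 := by
    rw [hN]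
    calc |b * A - b * Z| ≤ |b * A| + |b * Z| := abs_sub _ _
      _ = b * |A| + b * |Z| := by rw [abs_mul, abs_mul, abs_of_pos hbR]
      _ ≤ b * (x + |Z|) := by nlinarith
      _ < 1 := hx
  have hN0 : (b : ℤ) * ((v : ℤ) * k - (u : ℤ) * l) + ((v : ℤ) - u) * c = 0 := by
    have h1 : |(b : ℤ) * ((v : ℤ) * k - (u : ℤ) * l) + ((v : ℤ) - u) * c| < 1 := by
      exact_mod_cast hlt
    exact Int.abs_lt_one_iff.mp h1
  have huvZ : IsCoprime (u : ℤ) (v : ℤ) := Nat.isCoprime_iff_coprime.mpr huv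
  have hbcZ : IsCoprime (b : ℤ) c := Int.isCoprime_iff_gcd_eq_one.mpr hbc
  have hkey : (v : ℤ) * (b * k + c) = u * (b * l + c) := by linear_combination hN0
  refine ⟨?_, ?_, ?_, ?_⟩
  · exact huvZ.symm.dvd_of_dvd_mul_left (⟨_, hkey.symm⟩ : (v : ℤ) ∣ (u : ℤ) * (b * l + c))
  · exact huvZ.dvd_of_dvd_mul_left (⟨_, hkey⟩ : (u : ℤ) ∣ (v : ℤ) * (b * k + c))
  · have h1 : (b : ℤ) ∣ ((v : ℤ) - u) * c :=
      ⟨-((v : ℤ) * k - (u : ℤ) * l), by linear_combination hN0⟩
    exact hbcZ.dvd_of_dvd_mul_right h1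
  · have h2 : (b : ℝ) * A - b * Z = 0 := by rw [← hN, hN0]; simp
    have h3 : A = Z := by
      have h4 : (b : ℝ) * (A - Z) = 0 := by linarith
      rcases mul_eq_zero.mp h4 with h5 | h5
      · exact absurd h5 hbR.ne'
      · linarith
    rw [← h3]
    exact hA

end Pool.Agent.MP_0863b8.K

end

section

/-!
MP_0863b8_nt, KILLS, item Pt: explained pairs outside the windows.
-/

namespace Pool.Agent.MP_0863b8.K

private theorem Pt_half (K e : ℝ) (hK : 0 < K) (hK1 : K ≤ 1 / 256) (he : 1 / 2 ≤ e) :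
    K ^ e ≤ 1 / 16 := by
  have h1 : K ^ e ≤ K ^ (1 / 2 : ℝ) :=
    Real.rpow_le_rpow_of_exponent_ge hK (by linarith) he
  have h2 : K ^ (1 / 2 : ℝ) ≤ (1 / 256 : ℝ) ^ (1 / 2 : ℝ) :=
    Real.rpow_le_rpow hK.le hK1 (by norm_num)
  have h3 : (1 / 256 : ℝ) ^ (1 / 2 : ℝ) = 1 / 16 := by
    rw [← Real.sqrt_eq_rpow, show (1 / 256 : ℝ) = (1 / 16) ^ 2 by norm_num,
      Real.sqrt_sq (by norm_num)]
  linarith

/-- `x < y^(9/10)` gives `x^(10/9) < y` -/
private theorem Pt_pow (x y : ℝ) (hx : 0 < x) (hy : 0 < y) (h : x < y ^ ((9:ℝ)/10)) :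
    x ^ ((10:ℝ)/9) < y := by
  have h1 : x ^ ((10:ℝ)/9) < (y ^ ((9:ℝ)/10)) ^ ((10:ℝ)/9) :=
    Real.rpow_lt_rpow hx.le h (by norm_num)
  rwa [← Real.rpow_mul hy.le, show (9:ℝ)/10 * (10/9) = 1 by norm_num, Real.rpow_one] at h1

/-- `x < (a x)^(9/10)` gives `x < a^9` -/
private theorem Pt_pow9 (x a : ℝ) (hx : 0 < x) (ha : 0 < a) (h : x < (a * x) ^ ((9:ℝ)/10)) :
    x < a ^ 9 := by
  have h1 := Pt_pow x (a * x) hx (by positivity) h
  have h2 : x ^ ((10:ℝ)/9) = x * x ^ ((1:ℝ)/9) := by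
    rw [show (10:ℝ)/9 = 1 + 1/9 by norm_num, Real.rpow_add hx, Real.rpow_one]
  rw [h2, mul_comm a x] at h1
  have h3 : x ^ ((1:ℝ)/9) < a := lt_of_mul_lt_mul_left h1 hx.le
  have h4 : (x ^ ((1:ℝ)/9)) ^ 9 < a ^ 9 :=
    pow_lt_pow_left₀ h3 (Real.rpow_nonneg hx.le _) (by norm_num)
  rwa [← Real.rpow_natCast, ← Real.rpow_mul hx.le, show (1:ℝ)/9 * (9:ℕ) = 1 by norm_num,
    Real.rpow_one] at h4

private theorem Pt_Ln (θ μ : ℝ) (b : ℕ) (c : ℤ) :
    Ln θ μ 1 b c = b * max 1 (|θ - c / b| / μ) := by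
  unfold Ln
  simp

private theorem Pt_win {L0 δ μ : ℝ} {b : ℕ} {c : ℤ} {v : ℕ} (h : ¬ Win L0 δ μ 1 b c v) :
    (v:ℝ) < L0 ∨ (v:ℝ) < (Ln δ μ 1 b c) ^ ((9:ℝ)/10) ∨ 1 / μ ≤ 8 * Ln δ μ 1 b c * v := by
  by_contra hc
  push Not at hc
  exact h ⟨hc.1, hc.2.1, by simpa using hc.2.2⟩

theorem pr_Pt (hL : LabK) (hP : PairK) : PtK := by
  intro cs L0 hcs hcs2 hL0
  obtain ⟨κ1, hκ1, hLab⟩ := hL cs 1 hcs hcs2
  refine ⟨min κ1 (1/256), lt_min hκ1 (by norm_num), ?_⟩
  intro θ μ n m b c hn hm hμn hμm huv hdep hE hnd hw1 hw2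
  obtain ⟨_, _, l3, l4⟩ := hLab θ μ n m b c hn hm hμn hμm (hdep.trans (min_le_left _ _)) hE
  have hdep2 : dep μ n m ≤ 1/256 := hdep.trans (min_le_right _ _)
  obtain ⟨hb, hg, hq, ht, hr⟩ := hE
  have hcop : Nat.Coprime (n / n.gcd m) (m / n.gcd m) :=
    Nat.coprime_div_gcd_div_gcd (Nat.gcd_pos_of_pos_left m hn)
  have hu0 : 0 < n / n.gcd m :=
    Nat.div_pos (Nat.le_of_dvd hn (Nat.gcd_dvd_left n m)) (Nat.gcd_pos_of_pos_left m hn)
  have hKdef : dep μ n m = max (((m / n.gcd m : ℕ) : ℝ) * μ n)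
      (((n / n.gcd m : ℕ) : ℝ) * μ m) := rfl
  have hene : ene μ n m = min (μ n / ((n / n.gcd m : ℕ) : ℝ)) (μ m / ((m / n.gcd m : ℕ) : ℝ)) :=
    rfl
  have hmax : max (n / n.gcd m) (m / n.gcd m) = m / n.gcd m := max_eq_right huv.le
  rw [hmax] at ht
  have hw1' := Pt_win hw1
  have hw2' := Pt_win hw2
  rw [Pt_Ln] at l3 l4 hw1' hw2'
  generalize hK : dep μ n m = K at *
  generalize hen : ene μ n m = en at *
  generalize hu : n / n.gcd m = u at *
  generalize hv : m / n.gcd m = v at *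
  clear hw1 hw2 hLab
  have hU : (0:ℝ) < u := by exact_mod_cast hu0
  have hUV : (u:ℝ) < v := by exact_mod_cast huv
  have hU1 : (1:ℝ) ≤ u := by exact_mod_cast hu0
  have hV : (0:ℝ) < v := hU.trans hUV
  have hB : (0:ℝ) < b := by exact_mod_cast hb
  have hd : (0:ℝ) < (v:ℝ) - u := by linarith
  have hKpos : 0 < K := by
    rw [hKdef]; exact lt_max_of_lt_left (mul_pos hV hμn)
  set w : ℝ := |θ - c / b| with hw
  have hw0 : 0 ≤ w := abs_nonneg _
  -- powers of `K`
  have p1 : K ^ (1 - cs) ≤ 1/16 := Pt_half K _ hKpos hdep2 (by linarith)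
  have p2 : K ^ (1 - 2 * cs) ≤ 1/16 := Pt_half K _ hKpos hdep2 (by linarith)
  have p3 : K ^ (1 - 3 * cs) ≤ 1/16 := Pt_half K _ hKpos hdep2 (by linarith)
  have e1 : K ^ (-cs) * K = K ^ (1 - cs) := by
    rw [show (1:ℝ) - cs = -cs + 1 by ring, Real.rpow_add hKpos, Real.rpow_one]
  have e2 : K ^ (-cs) * K ^ (1 - cs) = K ^ (1 - 2 * cs) := by
    rw [← Real.rpow_add hKpos]; ring_nf
  have e3 : K ^ (-(3 * cs)) * K = K ^ (1 - 3 * cs) := by
    rw [show (1:ℝ) - 3 * cs = -(3 * cs) + 1 by ring, Real.rpow_add hKpos, Real.rpow_one]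
  -- the arithmetic
  have hvw : ((v:ℝ) - u) * w ≤ K ^ (1 - cs) := by
    calc ((v:ℝ) - u) * w ≤ v * w := mul_le_mul_of_nonneg_right (by linarith) hw0
      _ = w * v := mul_comm _ _
      _ ≤ _ := ht
  have habs : |((v:ℝ) - u) * (θ - c / b)| = ((v:ℝ) - u) * w := by
    rw [abs_mul, abs_of_pos hd]
  have hsmall : (b:ℝ) * (2 * K + |((v:ℝ) - u) * (θ - c / b)|) < 1 := by
    rw [habs]
    have h1 : (b:ℝ) * K ≤ K ^ (1 - cs) := by
      rw [← e1]; exact mul_le_mul_of_nonneg_right hq hKpos.le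
    have h2 : (b:ℝ) * (((v:ℝ) - u) * w) ≤ K ^ (1 - 2 * cs) := by
      rw [← e2]
      exact mul_le_mul hq hvw (mul_nonneg hd.le hw0) (Real.rpow_nonneg hKpos.le _)
    calc (b:ℝ) * (2 * K + ((v:ℝ) - u) * w) = 2 * ((b:ℝ) * K) + b * (((v:ℝ) - u) * w) := by ring
      _ ≤ 2 * (1/16) + 1/16 := by linarith
      _ < 1 := by norm_num
  obtain ⟨k, l, hkl⟩ : ∃ k l : ℤ, (v:ℤ) * k - u * l = round (((u:ℝ) - v) * θ) := by
    obtain ⟨a1, a2, ha⟩ : IsCoprime (u:ℤ) (v:ℤ) := Nat.isCoprime_iff_coprime.mpr hcop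
    refine ⟨a2 * round (((u:ℝ) - v) * θ), -(a1 * round (((u:ℝ) - v) * θ)), ?_⟩
    linear_combination (round (((u:ℝ) - v) * θ)) * ha
  have hint : |(v : ℝ) * k - u * l + ((v : ℝ) - u) * θ| ≤ 2 * K := by
    have h1 : (v : ℝ) * k - u * l = ((round (((u:ℝ) - v) * θ) : ℤ) : ℝ) := by
      exact_mod_cast hkl
    rw [h1]
    have h2 : |((u:ℝ) - v) * θ - (round (((u:ℝ) - v) * θ) : ℤ)| ≤ 2 * K := hnd
    rw [← abs_neg] at h2
    convert h2 using 2
    ring
  obtain ⟨_, _, hbdvd, hvK⟩ := hP θ (2 * K) u v b c k l hcop hb hg hint hsmall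
  rw [habs] at hvK
  have hble : (b:ℝ) ≤ (v:ℝ) - u := by
    have h1 : (b:ℤ) ≤ (v:ℤ) - u := Int.le_of_dvd (by
      have : (u:ℤ) < v := by exact_mod_cast huv
      linarith) hbdvd
    exact_mod_cast h1
  have hmod : u ≡ v [MOD b] := by
    rw [Nat.modEq_iff_dvd]; exact hbdvd
  have h210 : (2:ℝ) ^ 20 ≤ L0 := hL0
  have hbig : (2:ℝ) ^ 18 ≤ L0 := le_trans (by norm_num) h210
  have hK8 : 8 * K ^ (1 - 3 * cs) < 1 := by linarith
  -- a vertex at which the third alternative is impossible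
  have third : ∀ (ℓ μ' x y : ℝ), 0 < μ' → 0 < x → x < y → ℓ ≤ K ^ (-(3 * cs)) →
      y / K ≤ 1 / μ' → 1 / μ' ≤ 8 * ℓ * x → False := by
    intro ℓ μ' x y _ hx hxy hℓ h1 h2
    have h3 : y / K ≤ 8 * ℓ * x := h1.trans h2
    rw [div_le_iff₀ hKpos] at h3
    have h4 : 8 * ℓ * x * K ≤ 8 * K ^ (1 - 3 * cs) * x := by
      rw [← e3]
      have : ℓ * (x * K) ≤ K ^ (-(3 * cs)) * (x * K) :=
        mul_le_mul_of_nonneg_right hℓ (by positivity)
      nlinarith
    have h5 : 8 * K ^ (1 - 3 * cs) * x < 1 * x := mul_lt_mul_of_pos_right hK8 hx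
    linarith
  rcases lt_or_ge (v * μ n) (u * μ m) with hc | hc
  · -- CASE B
    have hKm : K = u * μ m := by rw [hKdef]; exact max_eq_right hc.le
    have hKn : v * μ n < K := by rw [hKm]; exact hc
    have hinvm : 1 / μ m = u / K := by
      rw [hKm]; field_simp
    have hlm : w / μ m ≤ 2 * u / (v - u) := by
      rw [div_le_div_iff₀ hμm hd]
      calc w * (v - u) = (v - u) * w := mul_comm _ _
        _ ≤ 2 * K := hvK
        _ = _ := by rw [hKm]; ring
    have hLm : (b:ℝ) * max 1 (w / μ m) ≤ 2 * v := by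
      rcases le_total 1 (w / μ m) with h | h
      · rw [max_eq_right h]
        calc (b:ℝ) * (w / μ m) ≤ (v - u) * (2 * u / (v - u)) :=
              mul_le_mul hble hlm (by positivity) hd.le
          _ = 2 * u := by field_simp
          _ ≤ 2 * v := by linarith
      · rw [max_eq_left h]; linarith
    rcases hw2' with h | h | h
    · left; linarith
    · left
      have h1 : (v:ℝ) < (2 * v) ^ ((9:ℝ)/10) := by
        refine h.trans_le (Real.rpow_le_rpow (by positivity) hLm (by norm_num))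
      have h2 := Pt_pow9 v 2 hV (by norm_num) h1
      have h3 : (2:ℝ) ^ 9 ≤ 2 ^ 18 := by norm_num
      linarith
    · -- `v ≥ 2 u`
      have hv2 : 2 * (u:ℝ) ≤ v := by
        rw [hinvm, div_le_iff₀ hKpos] at h
        have h4 : 8 * ((b:ℝ) * max 1 (w / μ m)) * v * K ≤ 8 * K ^ (1 - 3 * cs) * v := by
          rw [← e3]
          have : ((b:ℝ) * max 1 (w / μ m)) * (v * K) ≤ K ^ (-(3 * cs)) * (v * K) :=
            mul_le_mul_of_nonneg_right l4 (by positivity)
          nlinarith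
        have h5 : 8 * K ^ (1 - 3 * cs) * v ≤ 8 * (1/16) * v :=
          mul_le_mul_of_nonneg_right (by linarith) hV.le
        linarith
      set r : ℝ := K / (v * μ n) with hrd
      have hr1 : 1 ≤ r := by
        rw [hrd, le_div_iff₀ (by positivity)]; linarith
      have hr0 : 0 < r := by linarith
      have hμnr : μ n = K / (v * r) := by
        rw [hrd]; field_simp
      have hw4 : w ≤ 4 * K / v := by
        rw [le_div_iff₀ hV]
        have h1 : (v:ℝ) / 2 * w ≤ (v - u) * w :=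
          mul_le_mul_of_nonneg_right (by linarith) hw0
        nlinarith
      have hln : w / μ n ≤ 4 * r := by
        rw [div_le_iff₀ hμn, hμnr]
        calc w ≤ 4 * K / v := hw4
          _ = 4 * r * (K / (v * r)) := by field_simp
      have hLn : (b:ℝ) * max 1 (w / μ n) ≤ 4 * b * r := by
        have h1 : max 1 (w / μ n) ≤ 4 * r := max_le (by linarith) hln
        calc (b:ℝ) * max 1 (w / μ n) ≤ b * (4 * r) := mul_le_mul_of_nonneg_left h1 hB.le
          _ = _ := by ring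
      rcases hw1' with h' | h' | h'
      · left; exact h'
      · right
        refine ⟨hmod, ?_⟩
        have h1 : (u:ℝ) < (4 * b * r) ^ ((9:ℝ)/10) :=
          h'.trans_le (Real.rpow_le_rpow (by positivity) hLn (by norm_num))
        have h2 : (u:ℝ) ^ ((10:ℝ)/9) < 4 * b * r := Pt_pow u _ hU (by positivity) h1
        have hup : 0 < (u:ℝ) ^ ((10:ℝ)/9) := Real.rpow_pos_of_pos hU _
        have h3 : 1 / r ≤ min 1 (4 * b / (u:ℝ) ^ ((10:ℝ)/9)) := by
          refine le_min ?_ ?_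
          · rw [div_le_iff₀ hr0]; linarith
          · rw [div_le_div_iff₀ hr0 hup]
            linarith
        have h4 : en ≤ μ m / v * (1 / r) := by
          rw [hene]
          refine (min_le_left _ _).trans ?_
          rw [hμnr, hKm]
          apply le_of_eq
          field_simp
        exact h4.trans (mul_le_mul_of_nonneg_left h3 (by positivity))
      · exfalso
        refine third _ (μ n) u v hμn hU hUV l3 ?_ h'
        rw [div_le_div_iff₀ hKpos hμn]
        linarith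
  · -- CASE A
    have hKn : K = v * μ n := by rw [hKdef]; exact max_eq_left hc
    have hinvn : 1 / μ n = v / K := by
      rw [hKn]; field_simp
    have hln : w / μ n ≤ 2 * v / (v - u) := by
      rw [div_le_div_iff₀ hμn hd]
      calc w * (v - u) = (v - u) * w := mul_comm _ _
        _ ≤ 2 * K := hvK
        _ = _ := by rw [hKn]; ring
    rcases hw1' with h | h | h
    · left; exact h
    · rcases le_total (2 * (u:ℝ)) v with hv2 | hv2
      · right
        refine ⟨hmod, ?_⟩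
        have h4 : 2 * (v:ℝ) / (v - u) ≤ 4 := by
          rw [div_le_iff₀ hd]; linarith
        have hLn : (b:ℝ) * max 1 (w / μ n) ≤ 4 * b := by
          have h1 : max 1 (w / μ n) ≤ 4 := max_le (by norm_num) (hln.trans h4)
          calc (b:ℝ) * max 1 (w / μ n) ≤ b * 4 := mul_le_mul_of_nonneg_left h1 hB.le
            _ = _ := by ring
        have h1 : (u:ℝ) < (4 * b) ^ ((9:ℝ)/10) :=
          h.trans_le (Real.rpow_le_rpow (by positivity) hLn (by norm_num))
        have h2 : (u:ℝ) ^ ((10:ℝ)/9) < 4 * b := Pt_pow u _ hU (by positivity) h1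
        have hup : 0 < (u:ℝ) ^ ((10:ℝ)/9) := Real.rpow_pos_of_pos hU _
        have h3 : min 1 (4 * b / (u:ℝ) ^ ((10:ℝ)/9)) = 1 := by
          apply min_eq_left
          rw [le_div_iff₀ hup]; linarith
        rw [h3, mul_one, hene]
        exact min_le_right _ _
      · left
        have hLn : (b:ℝ) * max 1 (w / μ n) ≤ 4 * u := by
          rcases le_total 1 (w / μ n) with h' | h'
          · rw [max_eq_right h']
            calc (b:ℝ) * (w / μ n) ≤ (v - u) * (2 * v / (v - u)) :=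
                  mul_le_mul hble hln (by positivity) hd.le
              _ = 2 * v := by field_simp
              _ ≤ 4 * u := by linarith
          · rw [max_eq_left h']; linarith
        have h1 : (u:ℝ) < (4 * u) ^ ((9:ℝ)/10) := by
          refine h.trans_le (Real.rpow_le_rpow (by positivity) hLn (by norm_num))
        have h2 := Pt_pow9 u 4 hU (by norm_num) h1
        have h3 : (4:ℝ) ^ 9 = 2 ^ 18 := by norm_num
        linarith
    · exfalso
      exact third _ (μ n) u v hμn hU hUV l3 hinvn.ge h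

end Pool.Agent.MP_0863b8.K

end

section

/-!
MP_0863b8_nt, kills, item D3: the part of `m` composed of small prime powers.

With `Z = ⌊δ log m⌋`, `δ = 1 / (2 (log 4 + 4))`, the divisor is `m1 = gcd m (lcmUpto Z)`.  A
divisor `v` of `m` which does not divide `m1` is divisible by some `p ^ k > Z`, `p ∣ m`, so the
sum is at most `ω(m) / Z * ∑_{d ∣ m} 1 / d ≤ ω(m) / (Z c)`, and `ω(m) ≤ T + log m / log T`.
-/

namespace Pool.Agent.MP_0863b8.K

/-- the number of prime factors -/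
private theorem Small_omega (m T : ℕ) (hm : 0 < m) (hT : 2 ≤ T) :
    (m.primeFactors.card : ℝ) ≤ T + Real.log m / Real.log T := by
  classical
  have hT1 : (1 : ℝ) < T := by exact_mod_cast (by omega : 1 < T)
  have hlT : 0 < Real.log T := Real.log_pos hT1
  set A := m.primeFactors.filter (fun p => p < T) with hA0
  set B := m.primeFactors.filter (fun p => ¬ p < T) with hB0
  have hAB : A.card + B.card = m.primeFactors.card :=
    Finset.card_filter_add_card_filter_not _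
  have hA : A.card ≤ T := by
    calc A.card ≤ (Finset.range T).card := by
          apply Finset.card_le_card
          intro p hp
          rw [Finset.mem_range]
          exact (Finset.mem_filter.mp hp).2
      _ = T := Finset.card_range T
  have hB : T ^ B.card ≤ m := by
    calc T ^ B.card = ∏ _p ∈ B, T := by rw [Finset.prod_const]
      _ ≤ ∏ p ∈ B, p := by
          apply Finset.prod_le_prod'
          intro p hp
          have := (Finset.mem_filter.mp hp).2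
          omega
      _ ≤ ∏ p ∈ m.primeFactors, p := by
          apply Finset.prod_le_prod_of_subset_of_one_le'
          · exact Finset.filter_subset _ _
          · intro p hp _
            exact (Nat.prime_of_mem_primeFactors hp).one_lt.le
      _ ≤ m := Nat.le_of_dvd hm (Nat.prod_primeFactors_dvd m)
  have hB2 : (B.card : ℝ) * Real.log T ≤ Real.log m := by
    rw [← Real.log_pow]
    apply Real.log_le_log (by positivity)
    exact_mod_cast hB
  have hB3 : (B.card : ℝ) ≤ Real.log m / Real.log T := by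
    rw [le_div_iff₀ hlT]
    exact hB2
  have hA' : (A.card : ℝ) ≤ T := by exact_mod_cast hA
  rw [← hAB]
  push_cast
  linarith

/-- divisors which are multiples of `q` -/
private theorem Small_mult (m q Z : ℕ) (hZ : 0 < Z) (hq : Z < q) :
    ∑ v ∈ m.divisors.filter (fun v => q ∣ v), (1 : ℝ) / v ≤
      (1 / Z) * ∑ d ∈ m.divisors, (1 : ℝ) / d := by
  classical
  have hq0 : 0 < q := by omega
  have hq' : (0 : ℝ) < q := by exact_mod_cast hq0
  have hZ' : (0 : ℝ) < Z := by exact_mod_cast hZ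
  have h1 : ∀ v ∈ m.divisors.filter (fun v => q ∣ v),
      (1 : ℝ) / v = (1 / q) * (1 / ((v / q : ℕ) : ℝ)) := by
    intro v hv
    obtain ⟨hv1, w, rfl⟩ := Finset.mem_filter.mp hv
    rw [Nat.mul_div_cancel_left _ hq0]
    push_cast
    rw [one_div_mul_one_div]
  rw [Finset.sum_congr rfl h1, ← Finset.mul_sum]
  have h2 : ∑ v ∈ m.divisors.filter (fun v => q ∣ v), (1 : ℝ) / ((v / q : ℕ) : ℝ) ≤
      ∑ d ∈ m.divisors, (1 : ℝ) / d := by
    rw [← Finset.sum_image (f := fun w : ℕ => (1 : ℝ) / w) (g := fun v : ℕ => v / q)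
      (s := m.divisors.filter (fun v => q ∣ v))]
    · apply Finset.sum_le_sum_of_subset_of_nonneg
      · intro w hw
        obtain ⟨v, hv, rfl⟩ := Finset.mem_image.mp hw
        obtain ⟨hv1, u, rfl⟩ := Finset.mem_filter.mp hv
        rw [Nat.mem_divisors] at hv1 ⊢
        refine ⟨?_, hv1.2⟩
        simp only [Nat.mul_div_cancel_left _ hq0]
        exact (Dvd.intro_left q rfl).trans hv1.1
      · intro d _ _
        positivity
    · intro a ha b hb hab
      obtain ⟨_, u, rfl⟩ := Finset.mem_filter.mp ha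
      obtain ⟨_, w, rfl⟩ := Finset.mem_filter.mp hb
      simp only [Nat.mul_div_cancel_left _ hq0] at hab
      rw [hab]
  have h3 : (1 : ℝ) / q ≤ 1 / Z := by
    apply one_div_le_one_div_of_le hZ'
    exact_mod_cast hq.le
  have h4 : 0 ≤ ∑ d ∈ m.divisors, (1 : ℝ) / d := Finset.sum_nonneg (fun d _ => by positivity)
  calc (1 : ℝ) / q * ∑ v ∈ m.divisors.filter (fun v => q ∣ v), (1 : ℝ) / ((v / q : ℕ) : ℝ)
      ≤ 1 / q * ∑ d ∈ m.divisors, (1 : ℝ) / d := mul_le_mul_of_nonneg_left h2 (by positivity)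
    _ ≤ 1 / Z * ∑ d ∈ m.divisors, (1 : ℝ) / d := mul_le_mul_of_nonneg_right h3 h4

/-- the sum over the divisors which do not divide `lcmUpto Z` -/
private theorem Small_sum (m Z : ℕ) (hm : 0 < m) (hZ : 0 < Z) :
    ∑ v ∈ m.divisors.filter (fun v => ¬ v ∣ m.gcd (Nat.lcmUpto Z)), (1 : ℝ) / v ≤
      (m.primeFactors.card : ℝ) * ((1 / Z) * ∑ d ∈ m.divisors, (1 : ℝ) / d) := by
  classical
  have h1 : ∀ v ∈ m.divisors.filter (fun v => ¬ v ∣ m.gcd (Nat.lcmUpto Z)), (1 : ℝ) / v ≤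
      ∑ p ∈ m.primeFactors, if p ^ (Nat.log p Z + 1) ∣ v then (1 : ℝ) / v else 0 := by
    intro v hv
    obtain ⟨hv1, hv2⟩ := Finset.mem_filter.mp hv
    have hvm : v ∣ m := (Nat.mem_divisors.mp hv1).1
    have hv0 : v ≠ 0 := by
      rintro rfl
      exact hm.ne' (Nat.eq_zero_of_zero_dvd hvm)
    have hv3 : ¬ v ∣ Nat.lcmUpto Z := fun h => hv2 (Nat.dvd_gcd hvm h)
    obtain ⟨p, hp, hlt⟩ : ∃ p, p.Prime ∧ Nat.log p Z < v.factorization p := by
      by_contra hcon
      push Not at hcon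
      apply hv3
      rw [← Nat.factorization_prime_le_iff_dvd hv0 (Nat.lcmUpto_ne_zero Z)]
      intro p hp
      rw [Nat.factorization_lcmUpto Z hp]
      exact hcon p hp
    have hpv : p ^ (Nat.log p Z + 1) ∣ v := (hp.pow_dvd_iff_le_factorization hv0).mpr hlt
    have hpm : p ∈ m.primeFactors := by
      rw [Nat.mem_primeFactors]
      exact ⟨hp, ((dvd_pow_self p (Nat.succ_ne_zero _)).trans hpv).trans hvm, hm.ne'⟩
    have h2 := Finset.single_le_sum (s := m.primeFactors)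
      (f := fun p => if p ^ (Nat.log p Z + 1) ∣ v then (1 : ℝ) / v else 0)
      (fun p _ => by split_ifs <;> positivity) hpm
    simp only [hpv, if_true] at h2
    exact h2
  calc ∑ v ∈ m.divisors.filter (fun v => ¬ v ∣ m.gcd (Nat.lcmUpto Z)), (1 : ℝ) / v
      ≤ ∑ v ∈ m.divisors.filter (fun v => ¬ v ∣ m.gcd (Nat.lcmUpto Z)),
        ∑ p ∈ m.primeFactors, (if p ^ (Nat.log p Z + 1) ∣ v then (1 : ℝ) / v else 0) :=
        Finset.sum_le_sum h1
    _ ≤ ∑ v ∈ m.divisors,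
        ∑ p ∈ m.primeFactors, (if p ^ (Nat.log p Z + 1) ∣ v then (1 : ℝ) / v else 0) := by
        apply Finset.sum_le_sum_of_subset_of_nonneg (Finset.filter_subset _ _)
        intro v _ _
        exact Finset.sum_nonneg (fun p _ => by split_ifs <;> positivity)
    _ = ∑ p ∈ m.primeFactors,
        ∑ v ∈ m.divisors, (if p ^ (Nat.log p Z + 1) ∣ v then (1 : ℝ) / v else 0) :=
        Finset.sum_comm
    _ ≤ ∑ _p ∈ m.primeFactors, (1 / Z) * ∑ d ∈ m.divisors, (1 : ℝ) / d := by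
        apply Finset.sum_le_sum
        intro p hp
        rw [← Finset.sum_filter]
        apply Small_mult m _ Z hZ
        exact Nat.lt_pow_succ_log_self (Nat.prime_of_mem_primeFactors hp).one_lt Z
    _ = (m.primeFactors.card : ℝ) * ((1 / Z) * ∑ d ∈ m.divisors, (1 : ℝ) / d) := by
        rw [Finset.sum_const, nsmul_eq_mul]

theorem pr_Small : SmallPart := by
  intro c η hc hη
  set δ : ℝ := 1 / (2 * (Real.log 4 + 4)) with hδ
  have hl4 : 0 < Real.log 4 := Real.log_pos (by norm_num)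
  have hδ0 : 0 < δ := by rw [hδ]; positivity
  set κ : ℝ := η * c * δ / 4 with hκ
  have hκ0 : 0 < κ := by rw [hκ]; positivity
  set T : ℕ := ⌈Real.exp (1 / κ)⌉₊ + 2 with hT
  have hT2 : 2 ≤ T := by omega
  have hTl : 1 / κ ≤ Real.log T := by
    rw [Real.le_log_iff_exp_le (by positivity)]
    have := Nat.le_ceil (Real.exp (1 / κ))
    rw [hT]
    push_cast
    linarith
  have hlT : 0 < Real.log T := lt_of_lt_of_le (by positivity) hTl
  have hTinv : 1 / Real.log T ≤ κ := by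
    rw [div_le_iff₀ hlT]
    rw [div_le_iff₀ hκ0] at hTl
    linarith
  refine ⟨⌈Real.exp (max (2 / δ) (T / κ))⌉₊ + 1, ?_⟩
  intro m hm0 hcm
  have hm : 0 < m := by omega
  have hmR : (0 : ℝ) < m := by exact_mod_cast hm
  have hexp : Real.exp (max (2 / δ) (T / κ)) ≤ m := by
    have h1 := Nat.le_ceil (Real.exp (max (2 / δ) (T / κ)))
    have h2 : ((⌈Real.exp (max (2 / δ) (T / κ))⌉₊ : ℕ) : ℝ) ≤ m := by
      exact_mod_cast (by omega : ⌈Real.exp (max (2 / δ) (T / κ))⌉₊ ≤ m)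
    linarith
  have hlog : max (2 / δ) (T / κ) ≤ Real.log m := by
    rw [Real.le_log_iff_exp_le hmR]
    exact hexp
  have hlog1 : 2 ≤ δ * Real.log m := by
    have := (le_max_left (2 / δ) (T / κ)).trans hlog
    rw [div_le_iff₀ hδ0] at this
    linarith
  have hlog2 : (T : ℝ) ≤ κ * Real.log m := by
    have := (le_max_right (2 / δ) (T / κ)).trans hlog
    rw [div_le_iff₀ hκ0] at this
    linarith
  have hlm : 0 ≤ Real.log m := by
    by_contra h
    push Not at h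
    nlinarith
  set Z : ℕ := ⌊δ * Real.log m⌋₊ with hZ
  have hZle : (Z : ℝ) ≤ δ * Real.log m := Nat.floor_le (by linarith)
  have hZge : δ * Real.log m / 2 ≤ Z := by
    have := Nat.lt_floor_add_one (δ * Real.log m)
    rw [← hZ] at this
    linarith
  have hZ0' : (0 : ℝ) < Z := by linarith
  have hZ0 : 0 < Z := by exact_mod_cast hZ0'
  refine ⟨m.gcd (Nat.lcmUpto Z), Nat.gcd_dvd_left _ _, ?_, ?_⟩
  · have h1 : ((m.gcd (Nat.lcmUpto Z) : ℕ) : ℝ) ≤ (Nat.lcmUpto Z : ℝ) := by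
      exact_mod_cast Nat.le_of_dvd (Nat.lcmUpto_pos Z) (Nat.gcd_dvd_right _ _)
    have h2 : (0 : ℝ) < (Nat.lcmUpto Z : ℝ) := by exact_mod_cast Nat.lcmUpto_pos Z
    have h3 : Real.log (Nat.lcmUpto Z : ℝ) ≤ (Real.log 4 + 4) * Z := by
      rw [← Chebyshev.psi_eq_log_lcmUpto]
      exact Chebyshev.psi_le_const_mul_self hZ0'.le
    have h4 : (Real.log 4 + 4) * Z ≤ Real.log m * (1 / 2) := by
      calc (Real.log 4 + 4) * Z ≤ (Real.log 4 + 4) * (δ * Real.log m) :=
            mul_le_mul_of_nonneg_left hZle (by linarith)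
        _ = Real.log m * (1 / 2) := by
            rw [hδ]
            field_simp
    calc ((m.gcd (Nat.lcmUpto Z) : ℕ) : ℝ) ≤ (Nat.lcmUpto Z : ℝ) := h1
      _ = Real.exp (Real.log (Nat.lcmUpto Z : ℝ)) := (Real.exp_log h2).symm
      _ ≤ Real.exp (Real.log m * (1 / 2)) := Real.exp_le_exp.mpr (h3.trans h4)
      _ = (m : ℝ) ^ ((1:ℝ)/2) := (Real.rpow_def_of_pos hmR _).symm
  · have h1 := Small_sum m Z hm hZ0
    have h2 := (divsum c m hc hm hcm).1
    have h3 := Small_omega m T hm hT2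
    have h4 : (m.primeFactors.card : ℝ) ≤ η * c * Z := by
      calc (m.primeFactors.card : ℝ) ≤ T + Real.log m / Real.log T := h3
        _ = T + Real.log m * (1 / Real.log T) := by rw [mul_one_div]
        _ ≤ κ * Real.log m + Real.log m * κ :=
            add_le_add hlog2 (mul_le_mul_of_nonneg_left hTinv hlm)
        _ = η * c * (δ * Real.log m / 2) := by rw [hκ]; ring
        _ ≤ η * c * Z := mul_le_mul_of_nonneg_left hZge (by positivity)
    calc ∑ v ∈ m.divisors.filter (fun v => ¬ v ∣ m.gcd (Nat.lcmUpto Z)), (1 : ℝ) / v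
        ≤ (m.primeFactors.card : ℝ) * ((1 / Z) * ∑ d ∈ m.divisors, (1 : ℝ) / d) := h1
      _ ≤ (η * c * Z) * ((1 / Z) * (1 / c)) := by
          apply mul_le_mul h4 _ _ (by positivity)
          · exact mul_le_mul_of_nonneg_left h2 (by positivity)
          · have : 0 ≤ ∑ d ∈ m.divisors, (1 : ℝ) / d :=
              Finset.sum_nonneg (fun d _ => by positivity)
            positivity
      _ = η := by
          field_simp

end Pool.Agent.MP_0863b8.K

end

section

namespace Pool.Agent.MP_0863b8.K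

theorem pr_Space : SpaceK := by
  intro cs Ws δ μ D D' b b' c c' hμ hDD h1 h2 hne
  obtain ⟨e, rfl⟩ := hDD
  have hD : (0:ℝ) < D := by exact_mod_cast h1.hD
  have hb : (0:ℝ) < b := by exact_mod_cast h1.hb
  have hb' : (0:ℝ) < b' := by exact_mod_cast h2.hb
  have hDe : (0:ℝ) < ((D * e : ℕ) : ℝ) := by exact_mod_cast h2.hD
  have he : (0:ℝ) < e := by
    have := h2.hD
    exact_mod_cast Nat.pos_of_mul_pos_left this
  set l : ℝ := |(D : ℝ) * δ - c / b| / (D * μ) with hl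
  set l' : ℝ := |((D * e : ℕ) : ℝ) * δ - c' / b'| / (((D * e : ℕ) : ℝ) * μ) with hl'
  have e1 : |δ - c / (b * D)| = l * μ := by
    rw [hl]
    have : (D : ℝ) * δ - c / b = D * (δ - c / (b * D)) := by field_simp
    rw [this, abs_mul, abs_of_pos hD]
    field_simp
  have e2 : |δ - c' / (b' * ((D * e : ℕ) : ℝ))| = l' * μ := by
    rw [hl']
    have : ((D * e : ℕ) : ℝ) * δ - c' / b'
        = ((D * e : ℕ) : ℝ) * (δ - c' / (b' * ((D * e : ℕ) : ℝ))) := by field_simp
    rw [this, abs_mul, abs_of_pos hDe]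
    field_simp
  have e3 : |(c : ℝ) / (b * D) - c' / (b' * ((D * e : ℕ) : ℝ))| ≤ (l + l') * μ := by
    calc |(c : ℝ) / (b * D) - c' / (b' * ((D * e : ℕ) : ℝ))|
        = |(δ - c' / (b' * ((D * e : ℕ) : ℝ))) - (δ - c / (b * D))| := by
          congr 1; ring
      _ ≤ |δ - c' / (b' * ((D * e : ℕ) : ℝ))| + |δ - c / (b * D)| := abs_sub _ _
      _ = (l + l') * μ := by rw [e1, e2]; ring
  have e4 : (c : ℝ) / (b * D) - c' / (b' * ((D * e : ℕ) : ℝ))
      = ((c * b' * e - c' * b : ℤ) : ℝ) / (b * b' * ((D * e : ℕ) : ℝ)) := by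
    push_cast
    field_simp
  have hz : (c * b' * e - c' * b : ℤ) ≠ 0 := by
    intro h0
    apply hne
    have : (c : ℝ) / (b * D) - c' / (b' * ((D * e : ℕ) : ℝ)) = 0 := by
      rw [e4, h0]; simp
    linarith
  have e5 : 1 / ((b:ℝ) * b' * ((D * e : ℕ) : ℝ)) ≤ (l + l') * μ := by
    refine le_trans ?_ e3
    rw [e4, abs_div, abs_of_pos (a := (b:ℝ) * b' * ((D * e : ℕ) : ℝ)) (by positivity)]
    apply div_le_div_of_nonneg_right _ (by positivity)
    have h3 : (1:ℤ) ≤ |c * b' * e - c' * b| := Int.one_le_abs hz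
    rw [← Int.cast_abs]
    exact_mod_cast h3
  have hl0 : 0 ≤ l := by positivity
  have hl0' : 0 ≤ l' := by positivity
  have e6 : 1 / (((D * e : ℕ) : ℝ) * μ) ≤ b * b' * (l + l') := by
    rw [div_le_iff₀ (by positivity)] at e5 ⊢
    calc (1:ℝ) ≤ (l + l') * μ * (b * b' * ((D * e : ℕ) : ℝ)) := e5
      _ = b * b' * (l + l') * (((D * e : ℕ) : ℝ) * μ) := by ring
  refine e6.trans ?_
  unfold Ln
  rw [← hl, ← hl']
  have m1 : 1 ≤ max 1 l := le_max_left _ _
  have m2 : l ≤ max 1 l := le_max_right _ _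
  have m3 : 1 ≤ max 1 l' := le_max_left _ _
  have m4 : l' ≤ max 1 l' := le_max_right _ _
  have m5 : l + l' ≤ 2 * (max 1 l * max 1 l') := by nlinarith
  calc (b:ℝ) * b' * (l + l') ≤ b * b' * (2 * (max 1 l * max 1 l')) :=
        mul_le_mul_of_nonneg_left m5 (by positivity)
    _ = _ := by ring

end Pool.Agent.MP_0863b8.K

end

section

/-!
MP_0863b8_nt, KILLS, item Sum: the energy of the explained pairs which are not killed.
-/

namespace Pool.Agent.MP_0863b8.K

open MeasureTheory Filter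
open R (Sm Ag Bs ov)

namespace Sum_aux

/-- the constant -/
noncomputable def C9 : ℝ := ∑' j : ℕ, 1 / (j : ℝ) ^ ((10:ℝ)/9)

theorem summ : Summable (fun j : ℕ => 1 / (j : ℝ) ^ ((10:ℝ)/9)) :=
  Real.summable_one_div_nat_rpow.2 (by norm_num)

theorem C9_nonneg : 0 ≤ C9 := tsum_nonneg fun j => by positivity

/-- the sum over a fibre -/
theorem fibre_sum {ι : Type*} (G : Finset ι) (u : ι → ℕ) (e : ι → ℝ)
    (hinj : Set.InjOn u (G : Set ι)) (A L0 : ℝ) (hA : 0 ≤ A) (hL0 : 0 ≤ L0) (v b : ℕ)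
    (hb : 0 < b) (hu : ∀ z ∈ G, 0 < u z) (he : ∀ z ∈ G, e z ≤ A)
    (h : ∀ z ∈ G, (u z : ℝ) < L0 ∨ (u z ≡ v [MOD b] ∧
      e z ≤ A * min 1 (4 * b / (u z : ℝ) ^ ((10:ℝ)/9)))) :
    ∑ z ∈ G, e z ≤ A * (L0 + 2 + 4 * C9) := by
  classical
  rw [← Finset.sum_filter_add_sum_filter_not G (fun z => (u z : ℝ) < L0)]
  have h1 : ∑ z ∈ G.filter (fun z => (u z : ℝ) < L0), e z ≤ A * (L0 + 1) := by
    have hc : ((G.filter (fun z => (u z : ℝ) < L0)).card : ℝ) ≤ L0 + 1 := by
      have h2 : (G.filter (fun z => (u z : ℝ) < L0)).card ≤ (Finset.range ⌈L0⌉₊).card := by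
        refine Finset.card_le_card_of_injOn u ?_ ?_
        · intro z hz
          have := (Finset.mem_filter.1 (Finset.mem_coe.1 hz)).2
          rw [Finset.mem_coe, Finset.mem_range]
          exact Nat.lt_ceil.2 this
        · intro z hz z' hz' hzz
          exact hinj (Finset.mem_coe.2 (Finset.mem_filter.1 (Finset.mem_coe.1 hz)).1)
            (Finset.mem_coe.2 (Finset.mem_filter.1 (Finset.mem_coe.1 hz')).1) hzz
      rw [Finset.card_range] at h2
      have h3 : ((G.filter (fun z => (u z : ℝ) < L0)).card : ℝ) ≤ (⌈L0⌉₊ : ℝ) := by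
        exact_mod_cast h2
      have h4 := Nat.ceil_lt_add_one hL0
      linarith
    calc ∑ z ∈ G.filter (fun z => (u z : ℝ) < L0), e z
        ≤ ∑ _z ∈ G.filter (fun z => (u z : ℝ) < L0), A :=
          Finset.sum_le_sum fun z hz => he z (Finset.mem_filter.1 hz).1
      _ = ((G.filter (fun z => (u z : ℝ) < L0)).card : ℝ) * A := by
          rw [Finset.sum_const, nsmul_eq_mul]
      _ ≤ (L0 + 1) * A := mul_le_mul_of_nonneg_right hc hA
      _ = A * (L0 + 1) := mul_comm _ _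
  have h2 : ∑ z ∈ G.filter (fun z => ¬ (u z : ℝ) < L0), e z ≤ A * (1 + 4 * C9) := by
    set G2 := G.filter (fun z => ¬ (u z : ℝ) < L0) with hG2
    have hG2' : ∀ z ∈ G2, z ∈ G ∧ u z ≡ v [MOD b] ∧
        e z ≤ A * min 1 (4 * b / (u z : ℝ) ^ ((10:ℝ)/9)) := by
      intro z hz
      rw [hG2, Finset.mem_filter] at hz
      exact ⟨hz.1, (h z hz.1).resolve_left hz.2⟩
    set g : ℕ → ℝ := fun j => (if j = 0 then 1 else 0) + 4 * (1 / (j : ℝ) ^ ((10:ℝ)/9)) with hg
    have hbR : (1:ℝ) ≤ b := by exact_mod_cast hb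
    have hle : ∀ z ∈ G2, e z ≤ A * g ((u z - 1) / b) := by
      intro z hz
      obtain ⟨hzG, -, hez⟩ := hG2' z hz
      refine hez.trans (mul_le_mul_of_nonneg_left ?_ hA)
      have hu0 := hu z hzG
      rcases Nat.eq_zero_or_pos ((u z - 1) / b) with h0 | h0
      · rw [h0]
        refine (min_le_left _ _).trans ?_
        simp only [hg]
        norm_num
      · refine (min_le_right _ _).trans ?_
        simp only [hg]
        rw [if_neg h0.ne', zero_add]
        set j := (u z - 1) / b with hj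
        have hjb : (j : ℝ) * b ≤ u z := by
          have h5 : j * b ≤ u z - 1 := Nat.div_mul_le_self _ _
          have h6 : j * b ≤ u z := by omega
          exact_mod_cast h6
        have hj0 : (0:ℝ) < j := by exact_mod_cast h0
        have hb0 : (0:ℝ) < b := by linarith
        have hjb0 : (0:ℝ) < (j:ℝ) * b := by positivity
        have hp : ((j:ℝ) * b) ^ ((10:ℝ)/9) ≤ (u z : ℝ) ^ ((10:ℝ)/9) :=
          Real.rpow_le_rpow hjb0.le hjb (by norm_num)
        have hb1 : (b:ℝ) ≤ (b:ℝ) ^ ((10:ℝ)/9) := by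
          calc (b:ℝ) = (b:ℝ) ^ (1:ℝ) := (Real.rpow_one _).symm
            _ ≤ (b:ℝ) ^ ((10:ℝ)/9) := Real.rpow_le_rpow_of_exponent_le hbR (by norm_num)
        have hj1 : (0:ℝ) < (j:ℝ) ^ ((10:ℝ)/9) := Real.rpow_pos_of_pos hj0 _
        have hb2 : (0:ℝ) < (b:ℝ) ^ ((10:ℝ)/9) := Real.rpow_pos_of_pos hb0 _
        rw [Real.mul_rpow hj0.le hb0.le] at hp
        have hu1 : (0:ℝ) < (u z : ℝ) ^ ((10:ℝ)/9) := lt_of_lt_of_le (mul_pos hj1 hb2) hp
        rw [mul_one_div, div_le_div_iff₀ hu1 hj1]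
        calc 4 * (b:ℝ) * (j:ℝ) ^ ((10:ℝ)/9) ≤ 4 * ((j:ℝ) ^ ((10:ℝ)/9) * (b:ℝ) ^ ((10:ℝ)/9)) := by
              nlinarith
          _ ≤ 4 * (u z : ℝ) ^ ((10:ℝ)/9) := by linarith
    have hinj2 : Set.InjOn (fun z => (u z - 1) / b) (G2 : Set ι) := by
      intro z hz z' hz' hzz
      obtain ⟨a1, a2, -⟩ := hG2' z (Finset.mem_coe.1 hz)
      obtain ⟨b1, b2, -⟩ := hG2' z' (Finset.mem_coe.1 hz')
      refine hinj (Finset.mem_coe.2 a1) (Finset.mem_coe.2 b1) ?_
      have c1 := hu z a1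
      have c2 := hu z' b1
      have hmod : u z ≡ u z' [MOD b] := a2.trans b2.symm
      have hmod' : u z - 1 ≡ u z' - 1 [MOD b] := by
        apply Nat.ModEq.add_right_cancel' 1
        rwa [Nat.sub_add_cancel c1, Nat.sub_add_cancel c2]
      have e1 := Nat.div_add_mod (u z - 1) b
      have e2 := Nat.div_add_mod (u z' - 1) b
      have e3 : (u z - 1) / b = (u z' - 1) / b := hzz
      have e4 : (u z - 1) % b = (u z' - 1) % b := hmod'
      rw [e3, e4] at e1
      omega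
    calc ∑ z ∈ G2, e z ≤ ∑ z ∈ G2, A * g ((u z - 1) / b) := Finset.sum_le_sum hle
      _ = A * ∑ z ∈ G2, g ((u z - 1) / b) := by rw [Finset.mul_sum]
      _ = A * ∑ j ∈ G2.image (fun z => (u z - 1) / b), g j := by
          rw [Finset.sum_image hinj2]
      _ ≤ A * (1 + 4 * C9) := by
          refine mul_le_mul_of_nonneg_left ?_ hA
          simp only [hg]
          rw [Finset.sum_add_distrib, ← Finset.mul_sum]
          refine add_le_add ?_ (mul_le_mul_of_nonneg_left ?_ (by norm_num))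
          · rw [Finset.sum_ite_eq']
            split_ifs <;> norm_num
          · exact summ.sum_le_tsum _ (fun j _ => by positivity)
  calc _ ≤ A * (L0 + 1) + A * (1 + 4 * C9) := add_le_add h1 h2
    _ = A * (L0 + 2 + 4 * C9) := by ring

theorem dep_comm (μ : ℕ → ℝ) (n m : ℕ) : dep μ n m = dep μ m n := by
  unfold dep
  rw [Nat.gcd_comm m n, max_comm]

theorem ene_comm (μ : ℕ → ℝ) (n m : ℕ) : ene μ n m = ene μ m n := by
  unfold ene
  rw [Nat.gcd_comm m n, min_comm]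

theorem nd_neg' (x : ℝ) : nd (-x) = nd x := by
  unfold nd
  have h1 : |x - round x| = min (Int.fract x) (1 - Int.fract x) := abs_sub_round_eq_min x
  have h2 : |(-x) - round (-x)| = min (Int.fract (-x)) (1 - Int.fract (-x)) :=
    abs_sub_round_eq_min (-x)
  rw [h1, h2]
  by_cases hx : Int.fract x = 0
  · have : Int.fract (-x) = 0 := Int.fract_neg_eq_zero.2 hx
    rw [this, hx]
  · rw [Int.fract_neg hx, min_comm]
    congr 1
    ring

theorem unk_comm {cs L0 κ0 θ : ℝ} {μ : ℕ → ℝ} {n m : ℕ} (h : Unk cs L0 κ0 θ μ n m) :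
    Unk cs L0 κ0 θ μ m n := by
  obtain ⟨h1, h2, h3, b, c, h4, h5, h6⟩ := h
  refine ⟨h1.symm, by rwa [dep_comm], ?_, b, c, ⟨h4.hb, h4.hg, ?_, ?_, ?_⟩, ?_, ?_⟩
  · rw [Nat.gcd_comm m n, dep_comm μ m n]
    have e : (((m / n.gcd m : ℕ) : ℝ) - ((n / n.gcd m : ℕ) : ℝ)) * θ =
        -((((n / n.gcd m : ℕ) : ℝ) - ((m / n.gcd m : ℕ) : ℝ)) * θ) := by ring
    rw [e, nd_neg']
    exact h3
  · rw [dep_comm]; exact h4.hq
  · have := h4.ht
    rw [Nat.gcd_comm m n, dep_comm μ m n, max_comm]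
    exact this
  · have := h4.hr
    rw [Nat.gcd_comm m n, dep_comm μ m n, min_comm]
    exact this
  · rw [Nat.gcd_comm m n]; exact h6
  · rw [Nat.gcd_comm m n]; exact h5

end Sum_aux

open Sum_aux in
open Classical in
theorem pr_Sum (hL : LabK) (hU : UniqK) (hT : PtK) : SumK := by
  intro cs L0 C1 hcs hcs' hL0
  have hL00 : (0:ℝ) ≤ L0 := le_trans (by norm_num) hL0
  obtain ⟨W0, hW0⟩ := hU cs hcs hcs'
  set Ws := max W0 1 with hWs
  obtain ⟨κL, hκL, hLab⟩ := hL cs Ws hcs hcs'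
  obtain ⟨κT, hκT, hPt⟩ := hT cs L0 hcs hcs' hL0
  have hUn := hW0 Ws (le_max_left _ _)
  set M := L0 + 2 + 4 * C9 with hM
  have hM0 : 0 < M := by
    have := C9_nonneg
    rw [hM]; linarith
  refine ⟨min κT κL, 2 * (max C1 1 * M), lt_min hκT hκL, by positivity, ?_⟩
  intro θ μ S hS
  set κ0 := min κT κL with hκ0
  set F := (S ×ˢ S).filter (fun z => Unk cs L0 κ0 θ μ z.1 z.2) with hF
  set F1 := F.filter (fun z => z.1 / z.1.gcd z.2 < z.2 / z.1.gcd z.2) with hF1
  set F2 := F.filter (fun z => ¬ (z.1 / z.1.gcd z.2 < z.2 / z.1.gcd z.2)) with hF2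
  have hsplit : ∑ z ∈ F, ene μ z.1 z.2 = ∑ z ∈ F1, ene μ z.1 z.2 + ∑ z ∈ F2, ene μ z.1 z.2 := by
    rw [hF1, hF2, Finset.sum_filter_add_sum_filter_not]
  have hene0 : ∀ z ∈ F, 0 ≤ ene μ z.1 z.2 := by
    intro z hz
    rw [hF, Finset.mem_filter, Finset.mem_product] at hz
    have a := (hS _ hz.1.1).2.1
    have b := (hS _ hz.1.2).2.1
    unfold ene
    positivity
  have h21 : ∑ z ∈ F2, ene μ z.1 z.2 ≤ ∑ z ∈ F1, ene μ z.1 z.2 := by
    have e : ∑ z ∈ F2, ene μ z.1 z.2 = ∑ z ∈ F2.image Prod.swap, ene μ z.1 z.2 := by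
      rw [Finset.sum_image (fun _ _ _ _ h => Prod.swap_injective h)]
      refine Finset.sum_congr rfl fun z _ => ?_
      exact ene_comm μ z.1 z.2
    rw [e]
    refine Finset.sum_le_sum_of_subset_of_nonneg ?_ ?_
    · intro w hw
      obtain ⟨z, hz, rfl⟩ := Finset.mem_image.1 hw
      rw [hF2, Finset.mem_filter, hF, Finset.mem_filter, Finset.mem_product] at hz
      obtain ⟨⟨⟨h1, h2⟩, h3⟩, h4⟩ := hz
      rw [hF1, Finset.mem_filter, hF, Finset.mem_filter, Finset.mem_product]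
      refine ⟨⟨⟨h2, h1⟩, unk_comm h3⟩, ?_⟩
      show z.2 / z.2.gcd z.1 < z.1 / z.2.gcd z.1
      rw [Nat.gcd_comm z.2 z.1]
      refine lt_of_le_of_ne (not_lt.1 h4) ?_
      intro h5
      apply h3.1
      have g1 := Nat.div_mul_cancel (Nat.gcd_dvd_left z.1 z.2)
      have g2 := Nat.div_mul_cancel (Nat.gcd_dvd_right z.1 z.2)
      calc z.1 = z.1 / z.1.gcd z.2 * z.1.gcd z.2 := g1.symm
        _ = z.2 / z.1.gcd z.2 * z.1.gcd z.2 := by rw [h5]
        _ = z.2 := g2
    · intro z hz _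
      exact hene0 z (Finset.mem_filter.1 hz).1
  -- the label of `m`
  have hlab : ∀ m ∈ S, ∃ b : ℕ, 0 < b ∧ ∀ n ∈ S, Unk cs L0 κ0 θ μ n m →
      n / n.gcd m < m / n.gcd m → ((n / n.gcd m : ℕ) : ℝ) < L0 ∨
        (n / n.gcd m ≡ m / n.gcd m [MOD b] ∧
          ene μ n m ≤ μ m / ((m / n.gcd m : ℕ) : ℝ) *
            min 1 (4 * b / ((n / n.gcd m : ℕ) : ℝ) ^ ((10:ℝ)/9))) := by
    intro m hm
    by_cases hex : ∃ (b : ℕ) (c : ℤ), Lab cs Ws θ (μ m) 1 b c
    · obtain ⟨b, c, hbc⟩ := hex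
      refine ⟨b, hbc.hb, ?_⟩
      intro n hn hun huv
      obtain ⟨h1, h2, h3, b', c', h4, h5, h6⟩ := hun
      have a1 := hLab θ μ n m b' c' (hS n hn).1 (hS m hm).1 (hS n hn).2.1 (hS m hm).2.1
        (h2.trans (min_le_right _ _)) h4
      have a2 := hUn θ (μ m) 1 b b' c c' (hS m hm).2.1 hbc a1.2.1
      have a3 := hPt θ μ n m b' c' (hS n hn).1 (hS m hm).1 (hS n hn).2.1 (hS m hm).2.1 huv
        (h2.trans (min_le_left _ _)) h4 h3 h5 h6
      rw [← a2.1] at a3
      exact a3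
    · refine ⟨1, one_pos, ?_⟩
      intro n hn hun huv
      exfalso
      obtain ⟨h1, h2, h3, b', c', h4, h5, h6⟩ := hun
      exact hex ⟨b', c', (hLab θ μ n m b' c' (hS n hn).1 (hS m hm).1 (hS n hn).2.1
        (hS m hm).2.1 (h2.trans (min_le_right _ _)) h4).2.1⟩
  have hF1mem : ∀ z ∈ F1, z.1 ∈ S ∧ z.2 ∈ S ∧ Unk cs L0 κ0 θ μ z.1 z.2 ∧
      z.1 / z.1.gcd z.2 < z.2 / z.1.gcd z.2 := by
    intro z hz
    rw [hF1, Finset.mem_filter, hF, Finset.mem_filter, Finset.mem_product] at hz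
    exact ⟨hz.1.1.1, hz.1.1.2, hz.1.2, hz.2⟩
  have hF1sum : ∑ z ∈ F1, ene μ z.1 z.2 ≤ (max C1 1 * M) * ∑ n ∈ S, μ n := by
    rw [← Finset.sum_fiberwise_of_maps_to (g := fun z : ℕ × ℕ => z.2) (t := S)
      (fun z hz => (hF1mem z hz).2.1), Finset.mul_sum]
    refine Finset.sum_le_sum fun m hm => ?_
    obtain ⟨b, hb, hbm⟩ := hlab m hm
    obtain ⟨hm0, hμm, hC1⟩ := hS m hm
    have hmaps : ∀ z ∈ F1.filter (fun z => z.2 = m), z.2 / z.1.gcd z.2 ∈ m.divisors := by
      intro z hz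
      rw [Finset.mem_filter] at hz
      rw [Nat.mem_divisors]
      refine ⟨?_, hm0.ne'⟩
      rw [hz.2]
      exact Nat.div_dvd_of_dvd (Nat.gcd_dvd_right _ _)
    rw [← Finset.sum_fiberwise_of_maps_to hmaps]
    have hstep : ∀ v ∈ m.divisors, ∑ z ∈ (F1.filter (fun z => z.2 = m)).filter
        (fun z => z.2 / z.1.gcd z.2 = v), ene μ z.1 z.2 ≤ (μ m / v) * M := by
      intro v hv
      have hv0 : 0 < v := Nat.pos_of_mem_divisors hv
      have hv0R : (0:ℝ) < v := by exact_mod_cast hv0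
      have hmem : ∀ z ∈ (F1.filter (fun z => z.2 = m)).filter
          (fun z => z.2 / z.1.gcd z.2 = v), z ∈ F1 ∧ z.2 = m ∧ z.2 / z.1.gcd z.2 = v := by
        intro z hz
        rw [Finset.mem_filter, Finset.mem_filter] at hz
        exact ⟨hz.1.1, hz.1.2, hz.2⟩
      refine fibre_sum _ (fun z : ℕ × ℕ => z.1 / z.1.gcd z.2) _ ?_ (μ m / v) L0
        (by positivity) hL00 v b hb ?_ ?_ ?_
      · intro z hz z' hz' hzz
        obtain ⟨-, a1, a2⟩ := hmem z (Finset.mem_coe.1 hz)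
        obtain ⟨-, b1, b2⟩ := hmem z' (Finset.mem_coe.1 hz')
        simp only at hzz
        have g1 : z.1.gcd z.2 = m / v := by
          rw [← a2, a1, Nat.div_div_self _ hm0.ne']
          rw [← a1]
          exact Nat.gcd_dvd_right _ _
        have g2 : z'.1.gcd z'.2 = m / v := by
          rw [← b2, b1, Nat.div_div_self _ hm0.ne']
          rw [← b1]
          exact Nat.gcd_dvd_right _ _
        have e1 := Nat.div_mul_cancel (Nat.gcd_dvd_left z.1 z.2)
        have e2 := Nat.div_mul_cancel (Nat.gcd_dvd_left z'.1 z'.2)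
        refine Prod.ext ?_ (a1.trans b1.symm)
        rw [← e1, ← e2, hzz, g1, g2]
      · intro z hz
        have hz1 := hF1mem z (hmem z hz).1
        have hn0 := (hS _ hz1.1).1
        exact Nat.div_pos (Nat.le_of_dvd hn0 (Nat.gcd_dvd_left _ _))
          (Nat.gcd_pos_of_pos_left _ hn0)
      · intro z hz
        obtain ⟨a1, a2, a3⟩ := hmem z hz
        unfold ene
        refine (min_le_right _ _).trans (le_of_eq ?_)
        rw [a3, a2]
      · intro z hz
        obtain ⟨a1, a2, a3⟩ := hmem z hz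
        obtain ⟨c1, c2, c3, c4⟩ := hF1mem z a1
        obtain ⟨n, m'⟩ := z
        simp only at a2 a3 c1 c2 c3 c4 ⊢
        subst a2
        have := hbm n c1 c3 c4
        rw [a3] at this
        exact this
    calc _ ≤ ∑ v ∈ m.divisors, (μ m / v) * M := Finset.sum_le_sum hstep
      _ = μ m * M * ∑ v ∈ m.divisors, (1:ℝ) / v := by
          rw [Finset.mul_sum]
          refine Finset.sum_congr rfl fun v _ => ?_
          ring
      _ ≤ μ m * M * max C1 1 := by
          refine mul_le_mul_of_nonneg_left (hC1.trans (le_max_left _ _)) (by positivity)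
      _ = max C1 1 * M * μ m := by ring
  rw [hsplit]
  have := hF1sum
  nlinarith [h21, hF1sum]

end Pool.Agent.MP_0863b8.K

end

section

/-!
MP_0863b8_nt, KILLS: the label of a space is unique.
-/

set_option autoImplicit false

namespace Pool.Agent.MP_0863b8.K

theorem Uniq_Ln_nonneg (δ μ : ℝ) (D b : ℕ) (c : ℤ) : 0 ≤ Ln δ μ D b c := by
  unfold Ln
  have : (0:ℝ) ≤ max 1 (|(D : ℝ) * δ - c / b| / (D * μ)) := le_trans zero_le_one (le_max_left _ _)
  positivity

theorem Uniq_frac (b b' : ℕ) (c c' : ℤ) (hb : 0 < b) (hg : Int.gcd b c = 1)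
    (hg' : Int.gcd b' c' = 1) (h : c * b' = c' * b) : b = b' ∧ c = c' := by
  have h1 : (b : ℤ) ∣ b' := by
    have hd : (b : ℤ) ∣ c * b' := ⟨c', by rw [h, mul_comm]⟩
    exact (Int.isCoprime_iff_gcd_eq_one.2 hg).dvd_of_dvd_mul_left hd
  have h2 : (b' : ℤ) ∣ b := by
    have hd : (b' : ℤ) ∣ c' * b := ⟨c, by rw [← h, mul_comm]⟩
    exact (Int.isCoprime_iff_gcd_eq_one.2 hg').dvd_of_dvd_mul_left hd
  have hbb : b = b' := Nat.dvd_antisymm (Int.natCast_dvd_natCast.1 h1) (Int.natCast_dvd_natCast.1 h2)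
  refine ⟨hbb, ?_⟩
  rw [← hbb] at h
  have hb0 : (b : ℤ) ≠ 0 := by exact_mod_cast hb.ne'
  exact mul_right_cancel₀ hb0 h

theorem pr_Uniq (hS : SpaceK) : UniqK := by
  intro cs hcs hcs1
  refine ⟨16, fun Ws hWs δ μ D b b' c c' hμ h h' => ?_⟩
  by_cases hne : (c : ℝ) / (b * D) ≠ (c' : ℝ) / (b' * D)
  · exfalso
    have hsp := hS cs Ws δ μ D D b b' c c' hμ (dvd_refl D) h h' hne
    obtain ⟨W, hW⟩ : ∃ W : ℝ, W = 1 / (D * μ) := ⟨_, rfl⟩
    have hW16 : 16 ≤ W := by
      rw [hW]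
      exact le_trans hWs h.hW
    have hW0 : 0 < W := by linarith
    have hL : Ln δ μ D b c ≤ W ^ (3 * cs) := by rw [hW]; exact h.hL
    have hL' : Ln δ μ D b' c' ≤ W ^ (3 * cs) := by rw [hW]; exact h'.hL
    rw [← hW] at hsp
    have h1 : Ln δ μ D b c * Ln δ μ D b' c' ≤ W ^ (3 * cs) * W ^ (3 * cs) :=
      mul_le_mul hL hL' (Uniq_Ln_nonneg _ _ _ _ _) (Real.rpow_nonneg hW0.le _)
    have h2 : W ^ (3 * cs) * W ^ (3 * cs) ≤ W ^ ((1:ℝ)/2) := by
      rw [← Real.rpow_add hW0]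
      exact Real.rpow_le_rpow_of_exponent_le (by linarith) (by linarith)
    have h3 : W ^ ((1:ℝ)/2) * W ^ ((1:ℝ)/2) = W := by
      rw [← Real.rpow_add hW0]
      norm_num
    have h4 : 4 ≤ W ^ ((1:ℝ)/2) := by
      calc (4:ℝ) = (16:ℝ) ^ ((1:ℝ)/2) := by
            rw [← Real.sqrt_eq_rpow]
            rw [show (16:ℝ) = 4 ^ 2 by norm_num, Real.sqrt_sq (by norm_num)]
        _ ≤ W ^ ((1:ℝ)/2) := Real.rpow_le_rpow (by norm_num) hW16 (by norm_num)
    nlinarith
  · rw [not_not] at hne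
    have hD : (D : ℝ) ≠ 0 := by
      have := h.hD
      positivity
    have hb : (b : ℝ) ≠ 0 := by
      have := h.hb
      positivity
    have hb' : (b' : ℝ) ≠ 0 := by
      have := h'.hb
      positivity
    rw [div_eq_div_iff (mul_ne_zero hb hD) (mul_ne_zero hb' hD)] at hne
    have h1 : (c : ℝ) * b' = c' * b := by
      have h2 : ((c : ℝ) * b') * D = (c' * b) * D := by linarith
      exact mul_right_cancel₀ hD h2
    exact Uniq_frac b b' c c' h.hb h.hg h'.hg (by exact_mod_cast h1)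

end Pool.Agent.MP_0863b8.K

end

section

/-!
MP_0863b8_nt, RECURSION block: combinatorics of the nodes.
-/

set_option autoImplicit false

namespace Pool.Agent.MP_0863b8.R

open MeasureTheory Classical

theorem hi_eq_iff (q n m : ℕ) :
    hi q n = hi q m ↔ ∀ r, q < r → n.factorization r = m.factorization r := by
  unfold hi
  constructor
  · intro h r hr
    have := DFunLike.congr_fun h r
    rwa [Finsupp.filter_apply_pos _ _ hr, Finsupp.filter_apply_pos _ _ hr] at this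
  · intro h
    ext r
    by_cases hr : q < r
    · rw [Finsupp.filter_apply_pos _ _ hr, Finsupp.filter_apply_pos _ _ hr, h r hr]
    · rw [Finsupp.filter_apply_neg _ _ hr, Finsupp.filter_apply_neg _ _ hr]

theorem Sm_mono {q q' v : ℕ} (h : q ≤ q') (hv : Sm q v) : Sm q' v :=
  fun p hp hd => lt_of_lt_of_le (hv p hp hd) h

theorem Bs_mono (δ : ℝ) (μ : ℕ → ℝ) (K : ℕ → ℕ → ℤ → Prop) {q q' : ℕ} (h : q ≤ q') (m : ℕ) :
    Bs δ μ K q' m ⊆ Bs δ μ K q m := by
  rintro t ⟨k, hk, hk2⟩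
  exact ⟨k, hk, fun v r hK hs => hk2 v r hK (Sm_mono h hs)⟩

theorem Bs_restrict (δ : ℝ) (μ : ℕ → ℝ) (K : ℕ → ℕ → ℤ → Prop) (q m : ℕ) :
    Bs δ μ (fun m v r => K m v r ∧ Sm q v) q m = Bs δ μ K q m := by
  ext t
  constructor
  · rintro ⟨k, hk, hk2⟩
    exact ⟨k, hk, fun v r hK hs => hk2 v r ⟨hK, hs⟩ hs⟩
  · rintro ⟨k, hk, hk2⟩
    exact ⟨k, hk, fun v r hK hs => hk2 v r hK.1 hs⟩

theorem En_restrict (δ : ℝ) (μ : ℕ → ℝ) (K : ℕ → ℕ → ℤ → Prop) (q : ℕ) (N : Finset ℕ) :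
    En δ μ (fun m v r => K m v r ∧ Sm q v) q N = En δ μ K q N := by
  unfold En ov
  simp only [Bs_restrict]

theorem vol_ne_top (s : Set ℝ) : volume (s ∩ Set.Ico (0:ℝ) 1) ≠ ⊤ := by
  refine ne_top_of_le_ne_top ?_ (measure_mono Set.inter_subset_right)
  simp

theorem ov_nonneg (δ : ℝ) (μ : ℕ → ℝ) (K : ℕ → ℕ → ℤ → Prop) (q n m : ℕ) :
    0 ≤ ov δ μ K q n m := ENNReal.toReal_nonneg

theorem ov_mono (δ : ℝ) (μ : ℕ → ℝ) (K : ℕ → ℕ → ℤ → Prop) {q q' : ℕ} (h : q ≤ q')
    (n m : ℕ) : ov δ μ K q' n m ≤ ov δ μ K q n m := by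
  unfold ov
  apply ENNReal.toReal_mono (vol_ne_top _)
  apply measure_mono
  apply Set.inter_subset_inter_left
  exact Set.inter_subset_inter (Bs_mono δ μ K h n) (Bs_mono δ μ K h m)

theorem ov_symm (δ : ℝ) (μ : ℕ → ℝ) (K : ℕ → ℕ → ℤ → Prop) (q n m : ℕ) :
    ov δ μ K q n m = ov δ μ K q m n := by
  unfold ov
  rw [Set.inter_comm (Bs δ μ K q n)]

theorem En_nonneg (δ : ℝ) (μ : ℕ → ℝ) (K : ℕ → ℕ → ℤ → Prop) (q : ℕ) (N : Finset ℕ) :
    0 ≤ En δ μ K q N :=
  Finset.sum_nonneg fun _ _ => Finset.sum_nonneg fun _ _ => ov_nonneg _ _ _ _ _ _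

/-- the upper product factor -/
noncomputable def Tset (N : Finset ℕ) (i : ℕ × (ℕ →₀ ℕ) × ℕ) : Finset ℕ :=
  N.filter (fun n => hi i.1 n = i.2.1 ∧ n.factorization i.1 = i.2.2 + 1)

/-- the lower product factor -/
noncomputable def Lk (p : ℕ → ℕ) (N : Finset ℕ) (i : ℕ × (ℕ →₀ ℕ) × ℕ) : Finset ℕ :=
  N.filter (fun m => key p m = i)

theorem rel_iff (p : ℕ → ℕ) (N : Finset ℕ) (n m : ℕ) (hn : n ∈ N) :
    Rel p n m ↔ n ∈ Tset N (key p m) := by
  unfold Tset key Rel
  simp [hn]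

/-- the index set of a node -/
noncomputable def Idx (p : ℕ → ℕ) (N : Finset ℕ) : Finset (ℕ × (ℕ →₀ ℕ) × ℕ) :=
  (N.filter (fun m => ∃ n ∈ N, Rel p n m)).image (key p)

theorem mem_Idx {p : ℕ → ℕ} {N : Finset ℕ} {i : ℕ × (ℕ →₀ ℕ) × ℕ} :
    i ∈ Idx p N ↔ ∃ m ∈ N, (∃ n ∈ N, Rel p n m) ∧ key p m = i := by
  unfold Idx
  simp only [Finset.mem_image, Finset.mem_filter]
  constructor
  · rintro ⟨m, ⟨h1, h2⟩, h3⟩
    exact ⟨m, h1, h2, h3⟩
  · rintro ⟨m, h1, h2, h3⟩
    exact ⟨m, ⟨h1, h2⟩, h3⟩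

/-- sum over the relevant pairs -/
theorem sum_rel (p : ℕ → ℕ) (N : Finset ℕ) (g : ℕ → ℕ → ℝ) :
    ∑ m ∈ N, ∑ n ∈ N, (if Rel p n m then g n m else 0) =
      ∑ i ∈ Idx p N, ∑ m ∈ Lk p N i, ∑ n ∈ Tset N i, g n m := by
  have h1 : ∀ m ∈ N, ∑ n ∈ N, (if Rel p n m then g n m else 0) =
      ∑ n ∈ Tset N (key p m), g n m := by
    intro m _
    rw [← Finset.sum_filter]
    apply Finset.sum_congr _ fun _ _ => rfl
    ext n
    rw [Finset.mem_filter]
    constructor
    · rintro ⟨hn, hr⟩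
      exact (rel_iff p N n m hn).1 hr
    · intro hn
      have hnN : n ∈ N := (Finset.mem_filter.1 hn).1
      exact ⟨hnN, (rel_iff p N n m hnN).2 hn⟩
  rw [Finset.sum_congr rfl h1]
  have h2 : ∀ i ∈ Idx p N, ∑ m ∈ Lk p N i, ∑ n ∈ Tset N i, g n m =
      ∑ m ∈ (N.filter (fun m => key p m ∈ Idx p N)) with key p m = i,
        ∑ n ∈ Tset N (key p m), g n m := by
    intro i hi
    have e : Lk p N i = (N.filter (fun m => key p m ∈ Idx p N)).filter (fun m => key p m = i) := by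
      ext m
      unfold Lk
      simp only [Finset.mem_filter]
      constructor
      · rintro ⟨a, b⟩
        exact ⟨⟨a, b ▸ hi⟩, b⟩
      · rintro ⟨⟨a, _⟩, b⟩
        exact ⟨a, b⟩
    rw [e]
    apply Finset.sum_congr rfl
    intro m hm
    rw [(Finset.mem_filter.1 hm).2]
  rw [Finset.sum_congr rfl h2]
  rw [Finset.sum_fiberwise_of_maps_to (s := N.filter (fun m => key p m ∈ Idx p N))
    (t := Idx p N) (g := key p) (fun m hm => (Finset.mem_filter.1 hm).2)
    (fun m => ∑ n ∈ Tset N (key p m), g n m)]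
  rw [Finset.sum_filter]
  apply Finset.sum_congr rfl
  intro m hm
  split_ifs with h
  · rfl
  · apply Finset.sum_eq_zero
    intro n hn
    exfalso
    apply h
    rw [mem_Idx]
    have hnN : n ∈ N := (Finset.mem_filter.1 hn).1
    exact ⟨m, hm, ⟨n, hnN, (rel_iff p N n m hnN).2 hn⟩, rfl⟩

theorem rel_asymm (p : ℕ → ℕ) (n m : ℕ) (h : Rel p n m) : ¬ Rel p m n := by
  intro h'
  obtain ⟨h1, h2⟩ := h
  obtain ⟨h3, h4⟩ := h'
  rw [hi_eq_iff] at h1 h3
  rcases lt_trichotomy (p m) (p n) with hlt | heq | hgt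
  · have := h1 _ hlt
    omega
  · rw [heq] at h2
    omega
  · have := h3 _ hgt
    omega

/-- decomposition of the energy of a node -/
theorem En_decomp (δ : ℝ) (μ : ℕ → ℝ) (K : ℕ → ℕ → ℤ → Prop) (q : ℕ) (N : Finset ℕ)
    (p : ℕ → ℕ) (e : ℕ → ℕ → ℝ) (Cr : ℝ) (he : ∀ n m, 0 ≤ e n m)
    (h : ∀ n ∈ N, ∀ m ∈ N, ¬ Rel p n m → ¬ Rel p m n →
      ov δ μ K q n m ≤ Cr * ((2 * μ n) * (2 * μ m)) + e n m) :
    En δ μ K q N ≤ Cr * (mass μ N ^ 2 - 2 * ∑ i ∈ Idx p N, mass μ (Lk p N i) * mass μ (Tset N i))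
      + ∑ n ∈ N, ∑ m ∈ N, e n m +
      2 * ∑ i ∈ Idx p N, ∑ m ∈ Lk p N i, ∑ n ∈ Tset N i, ov δ μ K q m n := by
  have hpt : ∀ n ∈ N, ∀ m ∈ N, ov δ μ K q n m ≤
      Cr * ((2 * μ n) * (2 * μ m)) - (if Rel p n m then Cr * ((2 * μ n) * (2 * μ m)) else 0)
       - (if Rel p m n then Cr * ((2 * μ n) * (2 * μ m)) else 0)
      + e n m + (if Rel p n m then ov δ μ K q n m else 0)
      + (if Rel p m n then ov δ μ K q n m else 0) := by
    intro n hn m hm
    by_cases h1 : Rel p n m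
    · have h2 := rel_asymm p n m h1
      rw [if_pos h1, if_pos h1, if_neg h2, if_neg h2]
      have := he n m
      linarith
    · by_cases h2 : Rel p m n
      · rw [if_neg h1, if_neg h1, if_pos h2, if_pos h2]
        have := he n m
        linarith
      · rw [if_neg h1, if_neg h1, if_neg h2, if_neg h2]
        have := h n hn m hm h1 h2
        linarith
  have hsum : En δ μ K q N ≤ ∑ n ∈ N, ∑ m ∈ N, (
      Cr * ((2 * μ n) * (2 * μ m)) - (if Rel p n m then Cr * ((2 * μ n) * (2 * μ m)) else 0)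
       - (if Rel p m n then Cr * ((2 * μ n) * (2 * μ m)) else 0)
      + e n m + (if Rel p n m then ov δ μ K q n m else 0)
      + (if Rel p m n then ov δ μ K q n m else 0)) := by
    unfold En
    exact Finset.sum_le_sum fun n hn => Finset.sum_le_sum fun m hm => hpt n hn m hm
  refine hsum.trans (le_of_eq ?_)
  simp only [Finset.sum_add_distrib, Finset.sum_sub_distrib]
  have e1 : ∑ n ∈ N, ∑ m ∈ N, Cr * ((2 * μ n) * (2 * μ m)) = Cr * mass μ N ^ 2 := by
    unfold mass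
    rw [pow_two, Finset.sum_mul_sum, Finset.mul_sum]
    apply Finset.sum_congr rfl
    intro n _
    rw [Finset.mul_sum]
  have e2 : ∀ g : ℕ → ℕ → ℝ, ∑ n ∈ N, ∑ m ∈ N, (if Rel p n m then g n m else 0) =
      ∑ i ∈ Idx p N, ∑ m ∈ Lk p N i, ∑ n ∈ Tset N i, g n m := by
    intro g
    rw [Finset.sum_comm]
    exact sum_rel p N g
  have e3 : ∀ g : ℕ → ℕ → ℝ, ∑ n ∈ N, ∑ m ∈ N, (if Rel p m n then g n m else 0) =
      ∑ i ∈ Idx p N, ∑ m ∈ Lk p N i, ∑ n ∈ Tset N i, g m n := by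
    intro g
    exact sum_rel p N (fun n m => g m n)
  rw [e1, e2, e3, e2, e3]
  have e4 : ∑ i ∈ Idx p N, ∑ m ∈ Lk p N i, ∑ n ∈ Tset N i, ov δ μ K q n m =
      ∑ i ∈ Idx p N, ∑ m ∈ Lk p N i, ∑ n ∈ Tset N i, ov δ μ K q m n :=
    Finset.sum_congr rfl fun i _ => Finset.sum_congr rfl fun m _ =>
      Finset.sum_congr rfl fun n _ => ov_symm _ _ _ _ _ _
  have e5 : ∑ i ∈ Idx p N, ∑ m ∈ Lk p N i, ∑ n ∈ Tset N i, Cr * ((2 * μ n) * (2 * μ m)) =
      Cr * ∑ i ∈ Idx p N, mass μ (Lk p N i) * mass μ (Tset N i) := by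
    rw [Finset.mul_sum]
    apply Finset.sum_congr rfl
    intro i _
    unfold mass
    rw [Finset.sum_mul_sum, Finset.mul_sum]
    apply Finset.sum_congr rfl
    intro n _
    rw [Finset.mul_sum]
    apply Finset.sum_congr rfl
    intro m _
    ring
  have e6 : ∑ i ∈ Idx p N, ∑ m ∈ Lk p N i, ∑ n ∈ Tset N i, Cr * ((2 * μ m) * (2 * μ n)) =
      Cr * ∑ i ∈ Idx p N, mass μ (Lk p N i) * mass μ (Tset N i) := by
    rw [← e5]
    exact Finset.sum_congr rfl fun i _ => Finset.sum_congr rfl fun m _ =>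
      Finset.sum_congr rfl fun n _ => by ring
  rw [e4, e5, e6]
  ring

/-- the product sets are disjoint -/
theorem sum_LT (μ : ℕ → ℝ) (N : Finset ℕ) (p : ℕ → ℕ) (hμ : ∀ n ∈ N, 0 ≤ μ n) :
    2 * ∑ i ∈ Idx p N, mass μ (Lk p N i) * mass μ (Tset N i) ≤ mass μ N ^ 2 := by
  have e1 : mass μ N ^ 2 = ∑ n ∈ N, ∑ m ∈ N, ((2 * μ n) * (2 * μ m)) := by
    unfold mass
    rw [pow_two, Finset.sum_mul_sum]
  have e5 : ∑ i ∈ Idx p N, ∑ m ∈ Lk p N i, ∑ n ∈ Tset N i, ((2 * μ n) * (2 * μ m)) =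
      ∑ i ∈ Idx p N, mass μ (Lk p N i) * mass μ (Tset N i) := by
    apply Finset.sum_congr rfl
    intro i _
    unfold mass
    rw [Finset.sum_mul_sum]
    apply Finset.sum_congr rfl
    intro n _
    apply Finset.sum_congr rfl
    intro m _
    ring
  have e2 : ∑ n ∈ N, ∑ m ∈ N, (if Rel p n m then (2 * μ n) * (2 * μ m) else 0) =
      ∑ i ∈ Idx p N, mass μ (Lk p N i) * mass μ (Tset N i) := by
    rw [Finset.sum_comm, sum_rel p N (fun n m => (2 * μ n) * (2 * μ m)), e5]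
  have e3 : ∑ n ∈ N, ∑ m ∈ N, (if Rel p m n then (2 * μ n) * (2 * μ m) else 0) =
      ∑ i ∈ Idx p N, mass μ (Lk p N i) * mass μ (Tset N i) := by
    rw [sum_rel p N (fun n m => (2 * μ m) * (2 * μ n)), ← e5]
    exact Finset.sum_congr rfl fun i _ => Finset.sum_congr rfl fun m _ =>
      Finset.sum_congr rfl fun n _ => by ring
  have : ∑ n ∈ N, ∑ m ∈ N, (if Rel p n m then (2 * μ n) * (2 * μ m) else 0) +
      ∑ n ∈ N, ∑ m ∈ N, (if Rel p m n then (2 * μ n) * (2 * μ m) else 0) ≤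
      ∑ n ∈ N, ∑ m ∈ N, ((2 * μ n) * (2 * μ m)) := by
    rw [← Finset.sum_add_distrib]
    refine Finset.sum_le_sum fun n hn => ?_
    rw [← Finset.sum_add_distrib]
    refine Finset.sum_le_sum fun m hm => ?_
    have h0 : 0 ≤ (2 * μ n) * (2 * μ m) := by
      have := hμ n hn
      have := hμ m hm
      positivity
    by_cases h1 : Rel p n m
    · rw [if_pos h1, if_neg (rel_asymm p n m h1)]
      linarith
    · rw [if_neg h1]
      split_ifs
      · linarith
      · linarith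
  rw [e1]
  rw [e2, e3] at this
  linarith

end Pool.Agent.MP_0863b8.R

end

section

/-!
MP_0863b8_nt, item BUD: the budget lemma.
-/

set_option autoImplicit false

namespace Pool.Agent.MP_0863b8.R

namespace ItBUD

theorem one (K P b a : ℝ) (hK : 0 < K) (hP : 0 < P) (ha : P < a) :
    1 / a * Real.exp (2 * K * b) ≤
      Real.exp (2 * K / P) / (2 * K) *
        (Real.exp (2 * K * b) - Real.exp (2 * K * (b - 1 / a))) := by
  have ha0 : 0 < a := hP.trans ha
  have h1 : Real.exp (2 * K * b) = Real.exp (2 * K * (b - 1 / a)) * Real.exp (2 * K / a) := by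
    rw [← Real.exp_add]
    congr 1
    field_simp
    ring
  have h2 : 2 * K / a ≤ Real.exp (2 * K / a) - 1 := by
    have := Real.add_one_le_exp (2 * K / a)
    linarith
  have h3 : Real.exp (2 * K * (b - 1 / a)) * (2 * K / a) ≤
      Real.exp (2 * K * b) - Real.exp (2 * K * (b - 1 / a)) := by
    have h4 := mul_le_mul_of_nonneg_left h2 (Real.exp_pos (2 * K * (b - 1 / a))).le
    rw [h1]
    nlinarith
  have h5 : Real.exp (2 * K / a) ≤ Real.exp (2 * K / P) := by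
    apply Real.exp_le_exp.2
    exact div_le_div_of_nonneg_left (by positivity) hP ha.le
  have h6 : 0 < Real.exp (2 * K / P) / (2 * K) := by positivity
  calc 1 / a * Real.exp (2 * K * b)
      = (1 / a * Real.exp (2 * K * (b - 1 / a))) * Real.exp (2 * K / a) := by
        rw [h1]; ring
    _ ≤ (1 / a * Real.exp (2 * K * (b - 1 / a))) * Real.exp (2 * K / P) :=
        mul_le_mul_of_nonneg_left h5 (by positivity)
    _ = Real.exp (2 * K / P) / (2 * K) *
        (Real.exp (2 * K * (b - 1 / a)) * (2 * K / a)) := by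
        field_simp
    _ ≤ _ := mul_le_mul_of_nonneg_left h3 h6.le

theorem main (K P : ℝ) (hK : 0 < K) (hP : 0 < P) (s : Finset ℕ) :
    (∀ p ∈ s, P < (p : ℝ)) → ∀ b : ℝ,
    ∑ q ∈ s, (1 / (q : ℝ)) *
      Real.exp (2 * K * (b - ∑ p ∈ s.filter (fun p => q < p), (1 : ℝ) / p)) ≤
      Real.exp (2 * K / P) / (2 * K) *
        (Real.exp (2 * K * b) - Real.exp (2 * K * (b - ∑ p ∈ s, (1 : ℝ) / p))) := by
  induction s using Finset.induction_on_max with
  | empty => intro _ b; simp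
  | insert a s ha ih =>
    intro hs b
    have has : a ∉ s := fun h => lt_irrefl _ (ha a h)
    have h1 : (insert a s).filter (fun p => a < p) = ∅ := by
      rw [Finset.filter_eq_empty_iff]
      intro x hx
      rcases Finset.mem_insert.1 hx with h | h
      · omega
      · have := ha x h
        omega
    have h2 : ∀ q ∈ s, (1 / (q : ℝ)) * Real.exp (2 * K *
        (b - ∑ p ∈ (insert a s).filter (fun p => q < p), (1 : ℝ) / p)) =
        (1 / (q : ℝ)) * Real.exp (2 * K *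
          ((b - 1 / (a : ℝ)) - ∑ p ∈ s.filter (fun p => q < p), (1 : ℝ) / p)) := by
      intro q hq
      rw [Finset.filter_insert, if_pos (ha q hq), Finset.sum_insert]
      · congr 3
        ring
      · intro h
        exact has (Finset.mem_filter.1 h).1
    rw [Finset.sum_insert has, h1, Finset.sum_empty, sub_zero, Finset.sum_congr rfl h2,
      Finset.sum_insert has]
    have h3 := ih (fun p hp => hs p (Finset.mem_insert_of_mem hp)) (b - 1 / (a : ℝ))
    have h4 := one K P b a hK hP (hs a (Finset.mem_insert_self _ _))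
    have h5 : b - (1 / (a : ℝ) + ∑ p ∈ s, (1 : ℝ) / p) = b - 1 / (a : ℝ) - ∑ p ∈ s, (1 : ℝ) / p := by
      ring
    rw [h5]
    calc _ ≤ _ := add_le_add h4 h3
      _ = _ := by ring

end ItBUD

theorem bud : BudStmt := by
  intro K P b hK hP s hs
  refine (ItBUD.main K P hK hP s hs b).trans ?_
  have h6 : 0 < Real.exp (2 * K / P) / (2 * K) := by positivity
  apply mul_le_mul_of_nonneg_left _ h6.le
  have := Real.exp_pos (2 * K * (b - ∑ p ∈ s, (1 : ℝ) / p))
  linarith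

end Pool.Agent.MP_0863b8.R

end

section

set_option autoImplicit false

namespace Pool.Agent.MP_0863b8.R

namespace ItNUM

lemma sum_bd {ι : Type} (I : Finset ι) (f g : ι → ℝ) (A B C : ℝ) (hC : 0 ≤ C) (hA0 : 0 ≤ A)
    (hA : ∑ i ∈ I, f i ^ 2 ≤ A) (hB : ∑ i ∈ I, g i ^ 2 ≤ B) (hAB : A * B ≤ C ^ 2) :
    ∑ i ∈ I, f i * g i ≤ C := by
  have h := Finset.sum_mul_sq_le_sq_mul_sq I f g
  have h2 : (∑ i ∈ I, f i ^ 2) * (∑ i ∈ I, g i ^ 2) ≤ A * B :=
    mul_le_mul hA hB (Finset.sum_nonneg (fun i _ => sq_nonneg _)) hA0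
  exact le_trans (le_abs_self _) (abs_le_of_sq_le_sq (h.trans (h2.trans hAB)) hC)

lemma heavy (c K1 MS x : ℝ) (hc : 0 ≤ c) (hc2 : c < 1 / 2) (hK : 1 ≤ K1) (hMS : 0 < MS)
    (hx : K1 * MS < x) :
    (1 + x) ^ c * Real.sqrt x ≤ K1 ^ (c - 1 / 2) * (1 + MS) ^ c * x * (Real.sqrt MS)⁻¹ := by
  have hK0 : 0 < K1 := by linarith
  set y := K1 * MS with hy
  have hy0 : 0 < y := mul_pos hK0 hMS
  have hx0 : 0 < x := hy0.trans hx
  have h1 : (1 + x) ≤ (1 + y) * (x / y) := by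
    rw [← mul_div_assoc, le_div_iff₀ hy0]
    nlinarith
  have h2 : (1 + x) ^ c ≤ (1 + y) ^ c * (x / y) ^ c := by
    rw [← Real.mul_rpow (by positivity) (by positivity)]
    exact Real.rpow_le_rpow (by positivity) h1 hc
  have h3 : (x / y) ^ c ≤ (x / y) ^ (1 / 2 : ℝ) := by
    apply Real.rpow_le_rpow_of_exponent_le _ hc2.le
    rw [le_div_iff₀ hy0]; linarith
  have h4 : (1 + y) ^ c ≤ K1 ^ c * (1 + MS) ^ c := by
    rw [← Real.mul_rpow (by positivity) (by positivity)]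
    apply Real.rpow_le_rpow (by positivity) _ hc
    rw [hy]; nlinarith
  have h5 : (x / y) ^ (1 / 2 : ℝ) * Real.sqrt x = x * ((Real.sqrt K1)⁻¹ * (Real.sqrt MS)⁻¹) := by
    rw [← Real.sqrt_eq_rpow, Real.sqrt_div hx0.le, hy, Real.sqrt_mul hK0.le]
    have : Real.sqrt x * Real.sqrt x = x := Real.mul_self_sqrt hx0.le
    have hk : Real.sqrt K1 ≠ 0 := (Real.sqrt_pos.mpr hK0).ne'
    have hm : Real.sqrt MS ≠ 0 := (Real.sqrt_pos.mpr hMS).ne'
    field_simp
    nlinarith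
  have h6 : K1 ^ (c - 1 / 2) = K1 ^ c * (Real.sqrt K1)⁻¹ := by
    rw [Real.rpow_sub hK0, Real.sqrt_eq_rpow, div_eq_mul_inv]
  have h7 : (1 + x) ^ c ≤ K1 ^ c * (1 + MS) ^ c * (x / y) ^ (1 / 2 : ℝ) :=
    h2.trans (mul_le_mul h4 h3 (by positivity) (by positivity))
  calc (1 + x) ^ c * Real.sqrt x
      ≤ K1 ^ c * (1 + MS) ^ c * (x / y) ^ (1 / 2 : ℝ) * Real.sqrt x :=
        mul_le_mul_of_nonneg_right h7 (Real.sqrt_nonneg _)
    _ = K1 ^ c * (1 + MS) ^ c * ((x / y) ^ (1 / 2 : ℝ) * Real.sqrt x) := by ring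
    _ = K1 ^ (c - 1 / 2) * (1 + MS) ^ c * x * (Real.sqrt MS)⁻¹ := by
        rw [h5, h6]; ring

lemma Zbd (c K1 MS a α x : ℝ) (hc : 0 ≤ c) (hc2 : c < 1 / 2) (hK : 1 ≤ K1) (hMS : 0 ≤ MS)
    (ha : 0 ≤ a) (ha2 : a ≤ 2 * α) (hx : 0 ≤ x) (h0 : MS = 0 → x = 0) :
    a * (1 + x) ^ c * Real.sqrt x ≤ K1 ^ c * (1 + MS) ^ c * a * Real.sqrt x +
      2 * α * K1 ^ (c - 1 / 2) * (1 + MS) ^ c * x * (Real.sqrt MS)⁻¹ := by
  have hK0 : 0 < K1 := by linarith
  have hα : 0 ≤ α := by linarith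
  rcases le_or_gt x (K1 * MS) with h | h
  · have h1 : (1 + x) ^ c ≤ K1 ^ c * (1 + MS) ^ c := by
      rw [← Real.mul_rpow (by positivity) (by positivity)]
      apply Real.rpow_le_rpow (by positivity) _ hc
      nlinarith
    have h2 : a * (1 + x) ^ c * Real.sqrt x ≤ K1 ^ c * (1 + MS) ^ c * a * Real.sqrt x := by
      apply mul_le_mul_of_nonneg_right _ (Real.sqrt_nonneg _)
      nlinarith
    have h3 : 0 ≤ 2 * α * K1 ^ (c - 1 / 2) * (1 + MS) ^ c * x * (Real.sqrt MS)⁻¹ := by positivity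
    linarith
  · have hM : 0 < MS := by
      rcases hMS.lt_or_eq with h' | h'
      · exact h'
      · rw [h0 h'.symm, ← h'] at h; simp at h
    have h1 := heavy c K1 MS x hc hc2 hK hM h
    have h2 : a * (1 + x) ^ c * Real.sqrt x ≤ 2 * α *
        (K1 ^ (c - 1 / 2) * (1 + MS) ^ c * x * (Real.sqrt MS)⁻¹) := by
      rw [mul_assoc]
      exact mul_le_mul ha2 h1 (by positivity) (by positivity)
    have h3 : 0 ≤ K1 ^ c * (1 + MS) ^ c * a * Real.sqrt x := by positivity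
    nlinarith

/-- the polynomial core -/
lemma core {ι : Type} (I : Finset ι) (l α ps M sM sV ka k1 η m : ℝ) (u t w b : ι → ℝ)
    (hl : 0 ≤ l) (hα : 0 ≤ α) (hps : 0 ≤ ps) (hM : 0 ≤ M) (hsM : 0 ≤ sM) (hsV : 0 ≤ sV)
    (hη : 0 ≤ η) (hka : 0 ≤ ka) (hk10 : 0 ≤ k1) (hm : 0 ≤ m)
    (hMM : M = sM ^ 2) (hka2 : ka * η ≤ 1 / 20) (hk1 : k1 ≤ 1 / 20) (hmM : m * sM ≤ 1)
    (hu : ∀ i ∈ I, 0 ≤ u i) (ht : ∀ i ∈ I, 0 ≤ t i ∧ t i ≤ sM) (hw : ∀ i ∈ I, 0 ≤ w i ∧ w i ≤ sV)
    (h1 : ∑ i ∈ I, u i ^ 2 ≤ M) (h2 : 2 * ∑ i ∈ I, u i ^ 2 * t i ^ 2 ≤ M ^ 2)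
    (h3 : ∑ i ∈ I, b i ^ 2 * t i ^ 2 ≤ η ^ 2 * α ^ 2 * M)
    (h4 : ∑ i ∈ I, b i ^ 2 * w i ^ 2 ≤ η ^ 2 * α ^ 2 * sV ^ 2) :
    ∑ i ∈ I, (2 * l * u i ^ 2 + 2 * ka * ps * (b i * u i) + 4 * α * k1 * ps * m * u i ^ 2) *
      (l * t i ^ 2 + α * ps * t i + w i) ≤ 2 * l ^ 2 * ∑ i ∈ I, u i ^ 2 * t i ^ 2 +
      2 * l * α * ps * (M * sM) + α ^ 2 * ps ^ 2 * M + 2 * l * M * sV +
      2 * α * ps * (sM * sV) := by
  set S1 := ∑ i ∈ I, u i ^ 2 * t i ^ 2 with hS1
  set S2 := ∑ i ∈ I, u i ^ 2 * t i with hS2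
  set S3 := ∑ i ∈ I, u i ^ 2 * w i with hS3
  set S4 := ∑ i ∈ I, (b i * u i) * t i ^ 2 with hS4
  set S5 := ∑ i ∈ I, (b i * u i) * t i with hS5
  set S6 := ∑ i ∈ I, (b i * u i) * w i with hS6
  have hexp : ∑ i ∈ I, (2 * l * u i ^ 2 + 2 * ka * ps * (b i * u i) +
      4 * α * k1 * ps * m * u i ^ 2) * (l * t i ^ 2 + α * ps * t i + w i) =
      2 * l ^ 2 * S1 + 2 * l * α * ps * S2 + 2 * l * S3 + 2 * ka * ps * l * S4 +
      2 * ka * ps ^ 2 * α * S5 + 2 * ka * ps * S6 + 4 * α * k1 * ps * m * l * S1 +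
      4 * α ^ 2 * k1 * ps ^ 2 * m * S2 + 4 * α * k1 * ps * m * S3 := by
    rw [hS1, hS2, hS3, hS4, hS5, hS6]
    simp only [Finset.mul_sum, ← Finset.sum_add_distrib]
    apply Finset.sum_congr rfl
    intro i _
    ring
  rw [hexp]
  have b1 : S1 ≤ M ^ 2 / 2 := by linarith
  have b10 : 0 ≤ S1 := Finset.sum_nonneg (fun i _ => by positivity)
  have b2 : S2 ≤ 3 / 4 * (M * sM) := by
    have := sum_bd I (fun i => u i) (fun i => u i * t i) M (M ^ 2 / 2) (3 / 4 * (M * sM))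
      (by positivity) hM h1 (by
        have : ∑ i ∈ I, (u i * t i) ^ 2 = S1 := by
          rw [hS1]; apply Finset.sum_congr rfl; intro i _; ring
        rw [this]; exact b1) (by
        have : (3 / 4 * (M * sM)) ^ 2 = 9 / 16 * M ^ 2 * sM ^ 2 := by ring
        rw [this, ← hMM]
        have : 0 ≤ M ^ 3 := by positivity
        nlinarith)
    refine le_trans (le_of_eq ?_) this
    rw [hS2]; apply Finset.sum_congr rfl; intro i _; ring
  have b2' : S2 ≤ M * sM := by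
    have : 0 ≤ M * sM := by positivity
    linarith
  have b3 : S3 ≤ M * sV := by
    calc S3 ≤ ∑ i ∈ I, u i ^ 2 * sV := by
          rw [hS3]
          exact Finset.sum_le_sum (fun i hi => mul_le_mul_of_nonneg_left (hw i hi).2 (sq_nonneg _))
      _ = (∑ i ∈ I, u i ^ 2) * sV := by rw [Finset.sum_mul]
      _ ≤ M * sV := mul_le_mul_of_nonneg_right h1 hsV
  have b4 : S4 ≤ 3 / 4 * M * (η * α * sM) := by
    have := sum_bd I (fun i => u i * t i) (fun i => b i * t i) (M ^ 2 / 2) (η ^ 2 * α ^ 2 * M)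
      (3 / 4 * M * (η * α * sM)) (by positivity) (by positivity) (by
        have : ∑ i ∈ I, (u i * t i) ^ 2 = S1 := by
          rw [hS1]; apply Finset.sum_congr rfl; intro i _; ring
        rw [this]; exact b1) (by
        have : ∑ i ∈ I, (b i * t i) ^ 2 = ∑ i ∈ I, b i ^ 2 * t i ^ 2 := by
          apply Finset.sum_congr rfl; intro i _; ring
        rw [this]; exact h3) (by
        have : (3 / 4 * M * (η * α * sM)) ^ 2 = 9 / 16 * M ^ 2 * (η ^ 2 * α ^ 2 * sM ^ 2) := by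
          ring
        rw [this, ← hMM]
        have : 0 ≤ M ^ 2 * (η ^ 2 * α ^ 2 * M) := by positivity
        nlinarith)
    refine le_trans (le_of_eq ?_) this
    rw [hS4]; apply Finset.sum_congr rfl; intro i _; ring
  have b5 : S5 ≤ η * α * M := by
    have := sum_bd I (fun i => u i) (fun i => b i * t i) M (η ^ 2 * α ^ 2 * M)
      (η * α * M) (by positivity) hM h1 (by
        have : ∑ i ∈ I, (b i * t i) ^ 2 = ∑ i ∈ I, b i ^ 2 * t i ^ 2 := by
          apply Finset.sum_congr rfl; intro i _; ring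
        rw [this]; exact h3) (by apply le_of_eq; ring)
    refine le_trans (le_of_eq ?_) this
    rw [hS5]; apply Finset.sum_congr rfl; intro i _; ring
  have b6 : S6 ≤ η * α * (sM * sV) := by
    have := sum_bd I (fun i => u i) (fun i => b i * w i) M (η ^ 2 * α ^ 2 * sV ^ 2)
      (η * α * (sM * sV)) (by positivity) hM h1 (by
        have : ∑ i ∈ I, (b i * w i) ^ 2 = ∑ i ∈ I, b i ^ 2 * w i ^ 2 := by
          apply Finset.sum_congr rfl; intro i _; ring
        rw [this]; exact h4) (by apply le_of_eq; rw [hMM]; ring)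
    refine le_trans (le_of_eq ?_) this
    rw [hS6]; apply Finset.sum_congr rfl; intro i _; ring
  -- the nine terms
  have P := mul_nonneg (mul_nonneg hα hps) (mul_nonneg hM hsM)
  have c2 : 2 * l * α * ps * S2 ≤ 2 * l * α * ps * (3 / 4 * (M * sM)) :=
    mul_le_mul_of_nonneg_left b2 (by positivity)
  have c3 : 2 * l * S3 ≤ 2 * l * (M * sV) := mul_le_mul_of_nonneg_left b3 (by positivity)
  have c4 : 2 * ka * ps * l * S4 ≤ (ka * η) * (3 / 2 * (l * α * ps * (M * sM))) := by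
    calc 2 * ka * ps * l * S4 ≤ 2 * ka * ps * l * (3 / 4 * M * (η * α * sM)) :=
          mul_le_mul_of_nonneg_left b4 (by positivity)
      _ = _ := by ring
  have c4' : (ka * η) * (3 / 2 * (l * α * ps * (M * sM))) ≤
      1 / 20 * (3 / 2 * (l * α * ps * (M * sM))) :=
    mul_le_mul_of_nonneg_right hka2 (by positivity)
  have c5 : 2 * ka * ps ^ 2 * α * S5 ≤ (ka * η) * (2 * (α ^ 2 * ps ^ 2 * M)) := by
    calc 2 * ka * ps ^ 2 * α * S5 ≤ 2 * ka * ps ^ 2 * α * (η * α * M) :=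
          mul_le_mul_of_nonneg_left b5 (by positivity)
      _ = _ := by ring
  have c5' : (ka * η) * (2 * (α ^ 2 * ps ^ 2 * M)) ≤ 1 / 20 * (2 * (α ^ 2 * ps ^ 2 * M)) :=
    mul_le_mul_of_nonneg_right hka2 (by positivity)
  have c6 : 2 * ka * ps * S6 ≤ (ka * η) * (2 * (α * ps * (sM * sV))) := by
    calc 2 * ka * ps * S6 ≤ 2 * ka * ps * (η * α * (sM * sV)) :=
          mul_le_mul_of_nonneg_left b6 (by positivity)
      _ = _ := by ring
  have c6' : (ka * η) * (2 * (α * ps * (sM * sV))) ≤ 1 / 20 * (2 * (α * ps * (sM * sV))) :=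
    mul_le_mul_of_nonneg_right hka2 (by positivity)
  have c7 : 4 * α * k1 * ps * m * l * S1 ≤ k1 * (2 * (l * α * ps * (M * sM))) := by
    calc 4 * α * k1 * ps * m * l * S1 ≤ 4 * α * k1 * ps * m * l * (M ^ 2 / 2) :=
          mul_le_mul_of_nonneg_left b1 (by positivity)
      _ = (2 * k1 * (l * α * ps * (M * sM))) * (m * sM) := by
          have : M ^ 2 = M * sM ^ 2 := by rw [← hMM]; ring
          rw [this]; ring
      _ ≤ (2 * k1 * (l * α * ps * (M * sM))) * 1 :=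
          mul_le_mul_of_nonneg_left hmM (by positivity)
      _ = _ := by ring
  have c7' : k1 * (2 * (l * α * ps * (M * sM))) ≤ 1 / 20 * (2 * (l * α * ps * (M * sM))) :=
    mul_le_mul_of_nonneg_right hk1 (by positivity)
  have c8 : 4 * α ^ 2 * k1 * ps ^ 2 * m * S2 ≤ k1 * (4 * (α ^ 2 * ps ^ 2 * M)) := by
    calc 4 * α ^ 2 * k1 * ps ^ 2 * m * S2 ≤ 4 * α ^ 2 * k1 * ps ^ 2 * m * (M * sM) :=
          mul_le_mul_of_nonneg_left b2' (by positivity)
      _ = (4 * k1 * (α ^ 2 * ps ^ 2 * M)) * (m * sM) := by ring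
      _ ≤ (4 * k1 * (α ^ 2 * ps ^ 2 * M)) * 1 :=
          mul_le_mul_of_nonneg_left hmM (by positivity)
      _ = _ := by ring
  have c8' : k1 * (4 * (α ^ 2 * ps ^ 2 * M)) ≤ 1 / 20 * (4 * (α ^ 2 * ps ^ 2 * M)) :=
    mul_le_mul_of_nonneg_right hk1 (by positivity)
  have c9 : 4 * α * k1 * ps * m * S3 ≤ k1 * (4 * (α * ps * (sM * sV))) := by
    calc 4 * α * k1 * ps * m * S3 ≤ 4 * α * k1 * ps * m * (M * sV) :=
          mul_le_mul_of_nonneg_left b3 (by positivity)
      _ = (4 * k1 * (α * ps * (sM * sV))) * (m * sM) := by rw [hMM]; ring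
      _ ≤ (4 * k1 * (α * ps * (sM * sV))) * 1 :=
          mul_le_mul_of_nonneg_left hmM (by positivity)
      _ = _ := by ring
  have c9' : k1 * (4 * (α * ps * (sM * sV))) ≤ 1 / 20 * (4 * (α * ps * (sM * sV))) :=
    mul_le_mul_of_nonneg_right hk1 (by positivity)
  have Q1 : 0 ≤ l * α * ps * (M * sM) := by positivity
  have Q2 : 0 ≤ α ^ 2 * ps ^ 2 * M := by positivity
  have Q3 : 0 ≤ α * ps * (sM * sV) := by positivity
  linarith

end ItNUM

open ItNUM in
theorem num : NumStmt := by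
  intro ι I c K1 η l α ps M MS V q L T X Y a W hc hc2 hK hη hl hα hM hMS hV hps hka hk1
    hb hX hY hL hLT hT hW
  have hK0 : 0 < K1 := by linarith
  have hMS0 : 0 ≤ MS := hM.trans hMS
  have hps0 : 0 ≤ ps := by rw [hps]; positivity
  set u : ι → ℝ := fun i => Real.sqrt (L i) with hu
  set t : ι → ℝ := fun i => Real.sqrt (T i) with ht
  set w : ι → ℝ := fun i => Real.sqrt (W i) with hw
  set b : ι → ℝ := fun i => a i / Real.sqrt (q i) with hbb
  have eu : ∀ i ∈ I, u i ^ 2 = L i := fun i hi => Real.sq_sqrt (hb i hi).2.1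
  have et : ∀ i ∈ I, t i ^ 2 = T i := fun i hi => Real.sq_sqrt (hb i hi).2.2.1
  have ew : ∀ i ∈ I, w i ^ 2 = W i := fun i hi => Real.sq_sqrt (hb i hi).2.2.2.2.1
  have eb : ∀ i ∈ I, b i ^ 2 = a i ^ 2 / q i := by
    intro i hi
    have hq : 1 ≤ q i := (hb i hi).1
    rw [hbb]
    simp only
    rw [div_pow, Real.sq_sqrt (by linarith)]
  have s1 : ∑ i ∈ I, u i ^ 2 * t i ^ 2 = ∑ i ∈ I, L i * T i :=
    Finset.sum_congr rfl (fun i hi => by rw [eu i hi, et i hi])
  have hcore := core I l α ps M (Real.sqrt M) (Real.sqrt V) (K1 ^ c) (K1 ^ (c - 1 / 2)) η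
    (Real.sqrt MS)⁻¹ u t w b hl hα hps0 hM (Real.sqrt_nonneg _) (Real.sqrt_nonneg _) hη
    (by positivity) (by positivity) (by positivity) (Real.sq_sqrt hM).symm hka hk1
    (by
      rcases hMS0.lt_or_eq with h | h
      · rw [inv_mul_le_iff₀ (Real.sqrt_pos.mpr h), mul_one]
        exact Real.sqrt_le_sqrt hMS
      · rw [← h]; simp)
    (fun i _ => Real.sqrt_nonneg _)
    (fun i hi => ⟨Real.sqrt_nonneg _, Real.sqrt_le_sqrt (hb i hi).2.2.2.1⟩)
    (fun i hi => ⟨Real.sqrt_nonneg _, Real.sqrt_le_sqrt (hb i hi).2.2.2.2.2.1⟩)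
    (by rw [Finset.sum_congr rfl eu]; exact hL)
    (by rw [s1]; exact hLT)
    (by
      refine le_trans (le_of_eq (Finset.sum_congr rfl (fun i hi => ?_))) hT
      rw [eb i hi, et i hi]; ring)
    (by
      rw [Real.sq_sqrt hV]
      refine le_trans (le_of_eq (Finset.sum_congr rfl (fun i hi => ?_))) hW
      rw [eb i hi, ew i hi]; ring)
  rw [s1] at hcore
  refine le_trans (Finset.sum_le_sum (fun i hi => ?_)) hcore
  obtain ⟨hq, hL0, hT0, hTM, hW0, hWV, ha, ha2⟩ := hb i hi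
  obtain ⟨hX0, hX1⟩ := hX i hi
  obtain ⟨hY0, hY1⟩ := hY i hi
  have hq0 : 0 < q i := by linarith
  have hz : MS = 0 → q i * L i = 0 := by
    intro h
    have h1 : L i ≤ ∑ j ∈ I, L j := Finset.single_le_sum (fun j hj => (hb j hj).2.1) hi
    have : L i = 0 := by linarith
    rw [this, mul_zero]
  have hZ := Zbd c K1 MS (a i) α (q i * L i) hc hc2 hK hMS0 ha ha2 (by positivity) hz
  rw [← hps] at hZ
  have hsq : Real.sqrt (q i * L i) = Real.sqrt (q i) * u i := Real.sqrt_mul hq0.le _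
  have hbq : b i * q i = a i * Real.sqrt (q i) := by
    have h1 : Real.sqrt (q i) ≠ 0 := (Real.sqrt_pos.mpr hq0).ne'
    have h2 : Real.sqrt (q i) * Real.sqrt (q i) = q i := Real.mul_self_sqrt hq0.le
    rw [hbb]
    simp only
    rw [div_mul_eq_mul_div, div_eq_iff h1]
    nlinarith
  have hX2 : 2 / q i * X i ≤ 2 * l * u i ^ 2 + 2 * K1 ^ c * ps * (b i * u i) +
      4 * α * K1 ^ (c - 1 / 2) * ps * (Real.sqrt MS)⁻¹ * u i ^ 2 := by
    rw [div_mul_eq_mul_div, div_le_iff₀ hq0]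
    have e1 : (2 * l * u i ^ 2 + 2 * K1 ^ c * ps * (b i * u i) +
      4 * α * K1 ^ (c - 1 / 2) * ps * (Real.sqrt MS)⁻¹ * u i ^ 2) * q i =
      2 * (l * (q i * L i)) + 2 * (K1 ^ c * ps * a i * Real.sqrt (q i * L i)) +
      2 * (2 * α * K1 ^ (c - 1 / 2) * ps * (q i * L i) * (Real.sqrt MS)⁻¹) := by
      rw [hsq, eu i hi]
      have : 2 * K1 ^ c * ps * (b i * u i) * q i = 2 * (K1 ^ c * ps * a i *
          (Real.sqrt (q i) * u i)) := by
        calc 2 * K1 ^ c * ps * (b i * u i) * q i = 2 * K1 ^ c * ps * u i * (b i * q i) := by ring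
          _ = _ := by rw [hbq]; ring
      rw [add_mul, add_mul, this]
      ring
    rw [e1]
    linarith
  have hY2 : Y i ≤ l * t i ^ 2 + α * ps * t i + w i := by
    rw [et i hi]; exact hY1
  calc 2 / q i * (X i * Y i) = (2 / q i * X i) * Y i := by ring
    _ ≤ _ := mul_le_mul hX2 hY2 hY0 (le_trans (by positivity) hX2)

end Pool.Agent.MP_0863b8.R

end

section

set_option autoImplicit false

namespace Pool.Agent.MP_0863b8.R

open MeasureTheory

theorem p1 : P1Stmt := by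
  intro f hf Q hQ
  have hQ0 : (Q : ℝ) ≠ 0 := by exact_mod_cast hQ.ne'
  have hQp : (0 : ℝ) < Q := by exact_mod_cast hQ
  have hpiece : ∀ i : ℕ, ∫ y in (0:ℝ)..1, f ((y + i) / Q) =
      (Q : ℝ) * ∫ t in ((i : ℕ) : ℝ) / Q..((i + 1 : ℕ) : ℝ) / Q, f t := by
    intro i
    have h1 : ∀ y : ℝ, f ((y + i) / Q) = f ((Q : ℝ)⁻¹ * y + i / Q) := by
      intro y
      congr 1
      field_simp
    simp only [h1]
    rw [intervalIntegral.integral_comp_mul_add f (inv_ne_zero hQ0) ((i : ℝ) / Q), inv_inv,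
      smul_eq_mul]
    congr 2
    · simp
    · push_cast
      field_simp
      ring
  have hint : ∀ k < Q, IntervalIntegrable f volume ((k : ℝ) / Q) (((k + 1 : ℕ) : ℝ) / Q) := by
    intro k hk
    apply hf.mono_set
    have h1 : (0 : ℝ) ≤ (k : ℝ) / Q := by positivity
    have h2 : (k : ℝ) / Q ≤ ((k + 1 : ℕ) : ℝ) / Q := by
      apply div_le_div_of_nonneg_right _ hQp.le
      push_cast; linarith
    have h3 : ((k + 1 : ℕ) : ℝ) / Q ≤ 1 := by
      rw [div_le_one hQp]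
      exact_mod_cast hk
    rw [Set.uIcc_of_le h2, Set.uIcc_of_le zero_le_one]
    exact Set.Icc_subset_Icc h1 h3
  have hsum := intervalIntegral.sum_integral_adjacent_intervals
    (f := f) (μ := volume) (a := fun k : ℕ => (k : ℝ) / Q) (n := Q) hint
  simp only [Nat.cast_zero, zero_div, div_self hQ0] at hsum
  simp only [hpiece]
  rw [← Finset.mul_sum, ← mul_assoc, one_div, inv_mul_cancel₀ hQ0, one_mul, ← hsum]

end Pool.Agent.MP_0863b8.R

end

section

/-!
MP_0863b8_nt, RECURSION block, item P2: kept sets are open; overlaps are integrals.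
-/

set_option autoImplicit false

namespace Pool.Agent.MP_0863b8.R

open MeasureTheory

namespace ItP2

theorem isOpen_Bs (δ : ℝ) (μ : ℕ → ℝ) (K : ℕ → ℕ → ℤ → Prop) (q m : ℕ) :
    IsOpen (Bs δ μ K q m) := by
  have h : Bs δ μ K q m = ⋃ k ∈ {k : ℤ | ∀ (v : ℕ) (r : ℤ), K m v r → Sm q v →
      ¬ (k ≡ r [ZMOD (v : ℤ)])}, {t : ℝ | |(m : ℝ) * t - δ - k| < μ m} := by
    ext t
    simp only [Bs, Set.mem_ofPred_eq, Set.mem_iUnion, exists_prop]
    constructor
    · rintro ⟨k, h1, h2⟩; exact ⟨k, h2, h1⟩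
    · rintro ⟨k, h2, h1⟩; exact ⟨k, h1, h2⟩
  rw [h]
  refine isOpen_biUnion (fun k _ => ?_)
  exact isOpen_lt (by fun_prop) continuous_const

theorem meas_Bs (δ : ℝ) (μ : ℕ → ℝ) (K : ℕ → ℕ → ℤ → Prop) (q m : ℕ) :
    MeasurableSet (Bs δ μ K q m) := (isOpen_Bs δ μ K q m).measurableSet

theorem ch_nonneg (δ : ℝ) (μ : ℕ → ℝ) (K : ℕ → ℕ → ℤ → Prop) (q m : ℕ) (t : ℝ) :
    0 ≤ ch δ μ K q m t := Set.indicator_nonneg (fun _ _ => by simp) t

theorem ch_le_one (δ : ℝ) (μ : ℕ → ℝ) (K : ℕ → ℕ → ℤ → Prop) (q m : ℕ) (t : ℝ) :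
    ch δ μ K q m t ≤ 1 := by
  unfold ch
  by_cases h : t ∈ Bs δ μ K q m
  · rw [Set.indicator_of_mem h]; simp
  · rw [Set.indicator_of_notMem h]; norm_num

theorem meas_ch (δ : ℝ) (μ : ℕ → ℝ) (K : ℕ → ℕ → ℤ → Prop) (q m : ℕ) :
    Measurable (ch δ μ K q m) := by
  unfold ch
  exact (measurable_one).indicator (meas_Bs δ μ K q m)

theorem ov_eq (δ : ℝ) (μ : ℕ → ℝ) (K : ℕ → ℕ → ℤ → Prop) (q n m : ℕ) :
    ov δ μ K q n m = ∫ t in (0:ℝ)..1, ch δ μ K q n t * ch δ μ K q m t := by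
  unfold ov
  rw [intervalIntegral.integral_of_le zero_le_one, ← integral_Ico_eq_integral_Ioc]
  have h1 : (fun t => ch δ μ K q n t * ch δ μ K q m t) =
      (Bs δ μ K q n ∩ Bs δ μ K q m).indicator (1 : ℝ → ℝ) := by
    funext t
    unfold ch
    rw [Set.inter_indicator_one]
    rfl
  rw [h1, integral_indicator_one ((meas_Bs δ μ K q n).inter (meas_Bs δ μ K q m))]
  rw [Measure.real, Measure.restrict_apply ((meas_Bs δ μ K q n).inter (meas_Bs δ μ K q m))]

theorem int_ch (δ : ℝ) (μ : ℕ → ℝ) (K : ℕ → ℕ → ℤ → Prop) (q n m : ℕ) :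
    IntervalIntegrable (fun t => ch δ μ K q n t * ch δ μ K q m t) volume 0 1 := by
  rw [intervalIntegrable_iff]
  refine Measure.integrableOn_of_bounded (M := 1) (by simp) ?_ ?_
  · exact ((meas_ch δ μ K q n).mul (meas_ch δ μ K q m)).aestronglyMeasurable
  · refine Filter.Eventually.of_forall (fun t => ?_)
    have a := ch_nonneg δ μ K q n t
    have b := ch_nonneg δ μ K q m t
    have c := ch_le_one δ μ K q n t
    have d := ch_le_one δ μ K q m t
    rw [Real.norm_eq_abs, abs_of_nonneg (mul_nonneg a b)]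
    nlinarith

end ItP2

open ItP2 in
theorem p2 : P2Stmt := by
  refine ⟨meas_Bs, ?_, ?_⟩
  · intro δ μ K q L T
    have h : ∀ t, FN δ μ K q L t * FN δ μ K q T t =
        ∑ m ∈ L, ∑ n ∈ T, ch δ μ K q m t * ch δ μ K q n t := by
      intro t
      unfold FN
      rw [Finset.sum_mul_sum]
    simp_rw [h]
    rw [intervalIntegral.integral_finsetSum]
    · refine Finset.sum_congr rfl (fun m _ => ?_)
      rw [intervalIntegral.integral_finsetSum]
      · refine Finset.sum_congr rfl (fun n _ => ?_)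
        exact ov_eq δ μ K q m n
      · intro n _
        exact int_ch δ μ K q m n
    · intro m _
      have h2 := IntervalIntegrable.sum T (f := fun n t => ch δ μ K q m t * ch δ μ K q n t)
        (fun n _ => int_ch δ μ K q m n)
      have h3 : (∑ n ∈ T, fun t => ch δ μ K q m t * ch δ μ K q n t) =
          fun t => ∑ n ∈ T, ch δ μ K q m t * ch δ μ K q n t := by
        funext t; simp
      rw [h3] at h2
      exact h2
  · intro δ μ K q N
    refine ⟨?_, fun t => ⟨?_, ?_⟩⟩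
    · unfold FN
      exact Finset.measurable_fun_sum _ (fun n _ => meas_ch δ μ K q n)
    · exact Finset.sum_nonneg (fun n _ => ch_nonneg δ μ K q n t)
    · unfold FN
      calc ∑ n ∈ N, ch δ μ K q n t ≤ ∑ _n ∈ N, (1:ℝ) :=
            Finset.sum_le_sum (fun n _ => ch_le_one δ μ K q n t)
        _ = N.card := by simp

end Pool.Agent.MP_0863b8.R

end

section

/-!
MP_0863b8_nt, RECURSION block, item P3: the fibre inequality.
-/

set_option autoImplicit false

namespace Pool.Agent.MP_0863b8.R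

open MeasureTheory

namespace ItP3

/-- two integers at distance `< 1` are equal -/
theorem int_eq (x : ℝ) (a b : ℤ) (e : ℝ) (he : e ≤ 1 / 2) (ha : |x - a| < e) (hb : |x - b| < e) :
    a = b := by
  have h1 : |((a - b : ℤ) : ℝ)| < 1 := by
    have h3 : ((a - b : ℤ) : ℝ) = (x - b) - (x - a) := by push_cast; ring
    rw [h3]
    calc |x - b - (x - a)| ≤ |x - b| + |x - a| := abs_sub _ _
      _ < 1 := by linarith
  have h4 : |a - b| < 1 := by
    rw [← Int.cast_abs] at h1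
    exact_mod_cast h1
  have h5 := Int.abs_lt_one_iff.1 h4
  omega

theorem one (δ : ℝ) (μ : ℕ → ℝ) (K K' : ℕ → ℕ → ℤ → Prop) (q j m m' : ℕ) (hq : q.Prime)
    (hm : m = q ^ j * m') (hqm : ¬ q ∣ m') (hμ : (q:ℝ) * μ m < 1 / 2)
    (hK : ∀ v r, K m v r → v ∣ m)
    (hK' : ∀ v r, K' m' v r → Sm q v ∧ ∃ r0, K m v r0 ∧ r ≡ (q : ℤ) * r0 [ZMOD (v : ℤ)])
    (y : ℝ) :
    ∑ i ∈ Finset.range (q ^ (j + 1)), ch δ μ K q m ((y + i) / ((q ^ (j + 1) : ℕ) : ℝ)) ≤
      (q:ℝ) ^ j * ch ((q:ℝ) * δ) (fun m' => (q:ℝ) * μ (q ^ j * m')) K' q m' y := by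
  classical
  have hq0 : 0 < q := hq.pos
  have hqr : (0 : ℝ) < q := by exact_mod_cast hq0
  have hQ : (0 : ℝ) < ((q ^ (j + 1) : ℕ) : ℝ) := by
    exact_mod_cast Nat.pow_pos hq0
  set Q : ℝ := ((q ^ (j + 1) : ℕ) : ℝ) with hQdef
  have hQ2 : Q = (q : ℝ) ^ j * q := by
    rw [hQdef]; push_cast; ring
  set I := (Finset.range (q ^ (j + 1))).filter (fun i : ℕ => (y + i) / Q ∈ Bs δ μ K q m) with hI
  have hsum : ∑ i ∈ Finset.range (q ^ (j + 1)), ch δ μ K q m ((y + i) / Q) = I.card := by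
    rw [hI, Finset.card_filter]
    push_cast
    refine Finset.sum_congr rfl (fun i _ => ?_)
    unfold ch
    by_cases h : (y + i) / Q ∈ Bs δ μ K q m
    · rw [Set.indicator_of_mem h]; simp [h]
    · rw [Set.indicator_of_notMem h]; simp [h]
  rw [hsum]
  rcases I.eq_empty_or_nonempty with h0 | hne
  · rw [h0]
    simp only [Finset.card_empty, Nat.cast_zero]
    refine mul_nonneg (by positivity) ?_
    unfold ch
    exact Set.indicator_nonneg (fun _ _ => zero_le_one) _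
  · obtain ⟨i0, hi0⟩ := hne
    -- the witness for an element of `I`
    have hwit : ∀ i ∈ I, ∃ k : ℤ, |(m' : ℝ) * y - (q:ℝ) * δ - ((q * k - m' * i : ℤ) : ℝ)| <
        (q:ℝ) * μ m ∧ ∀ (v : ℕ) (r : ℤ), K m v r → Sm q v → ¬ (k ≡ r [ZMOD (v : ℤ)]) := by
      intro i hi
      rw [hI, Finset.mem_filter] at hi
      obtain ⟨_, k, hk1, hk2⟩ := hi
      refine ⟨k, ?_, hk2⟩
      have h1 : (m' : ℝ) * y - (q:ℝ) * δ - ((q * k - m' * i : ℤ) : ℝ) =
          q * ((m : ℝ) * ((y + i) / Q) - δ - k) := by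
        rw [hQ2, hm]
        push_cast
        have : (q : ℝ) ^ j ≠ 0 := by positivity
        field_simp
        ring
      rw [h1, abs_mul, abs_of_pos hqr]
      gcongr
    obtain ⟨k0, hk0, hkill0⟩ := hwit i0 hi0
    set z : ℤ := q * k0 - m' * i0 with hz
    have hcop : IsCoprime (q : ℤ) (m' : ℤ) := by
      rw [Nat.isCoprime_iff_coprime]
      exact (Nat.Prime.coprime_iff_not_dvd hq).2 hqm
    have hmod : ∀ i ∈ I, i % q = i0 % q := by
      intro i hi
      obtain ⟨k, hk, _⟩ := hwit i hi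
      have h1 : (q * k - m' * i : ℤ) = z :=
        int_eq _ _ _ _ hμ.le hk hk0
      have h2 : (m' : ℤ) * (i - i0) = q * (k - k0) := by
        rw [hz] at h1
        linarith
      have h3 : (q : ℤ) ∣ m' * (i - i0) := ⟨_, h2⟩
      have h4 : (q : ℤ) ∣ (i : ℤ) - i0 := hcop.dvd_of_dvd_mul_left h3
      have h5 : (i : ℤ) ≡ i0 [ZMOD (q : ℤ)] := (Int.modEq_iff_dvd.2 (by
        have := (dvd_neg (α := ℤ)).2 h4
        rwa [neg_sub] at this))
      have h6 := Int.natCast_modEq_iff.1 h5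
      exact h6
    have hcard : I.card ≤ q ^ j := by
      have hinj : Set.InjOn (fun i => i / q) (I : Set ℕ) := by
        intro a ha b hb hab
        simp only at hab
        have h1 := hmod a ha
        have h2 := hmod b hb
        rw [← Nat.div_add_mod a q, ← Nat.div_add_mod b q, hab, h1, h2]
      have hmaps : ∀ i ∈ I, i / q ∈ Finset.range (q ^ j) := by
        intro i hi
        rw [hI, Finset.mem_filter, Finset.mem_range] at hi
        rw [Finset.mem_range, Nat.div_lt_iff_lt_mul hq0]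
        have := hi.1
        rwa [pow_succ] at this
      have := Finset.card_le_card_of_injOn _ hmaps hinj
      simpa using this
    have hmem : y ∈ Bs ((q:ℝ) * δ) (fun m' => (q:ℝ) * μ (q ^ j * m')) K' q m' := by
      refine ⟨z, ?_, ?_⟩
      · show |(m' : ℝ) * y - q * δ - z| < q * μ (q ^ j * m')
        rw [← hm]
        exact hk0
      · intro v r hKv hSm hzr
        obtain ⟨_, r0, hr0, hrr⟩ := hK' v r hKv
        have hvm : v ∣ m := hK v r0 hr0
        have hqv : ¬ q ∣ v := fun h => absurd (hSm q hq h) (lt_irrefl q)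
        have hcv : Nat.Coprime q v := (Nat.Prime.coprime_iff_not_dvd hq).2 hqv
        have hvm' : v ∣ m' := by
          rw [hm] at hvm
          exact (Nat.Coprime.pow_right j hcv.symm).dvd_of_dvd_mul_left hvm
        have h1 : (q : ℤ) * k0 ≡ (q : ℤ) * r0 [ZMOD (v : ℤ)] := by
          have h2 : (q : ℤ) * k0 ≡ z [ZMOD (v : ℤ)] := by
            apply Int.modEq_iff_dvd.2
            rw [hz]
            have : (v : ℤ) ∣ (m' : ℤ) := by exact_mod_cast hvm'
            have h3 : (q : ℤ) * k0 - m' * i0 - q * k0 = -(m' * i0) := by ring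
            rw [h3]
            exact (this.mul_right _).neg_right
          exact h2.trans (hzr.trans hrr)
        have h4 : k0 ≡ r0 [ZMOD (v : ℤ)] := by
          apply Int.modEq_iff_dvd.2
          have h5 := Int.modEq_iff_dvd.1 h1
          have h6 : (v : ℤ) ∣ q * (r0 - k0) := by
            have : (q : ℤ) * (r0 - k0) = q * r0 - q * k0 := by ring
            rw [this]; exact h5
          have hc : IsCoprime (v : ℤ) (q : ℤ) := by
            rw [Nat.isCoprime_iff_coprime]; exact hcv.symm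
          exact hc.dvd_of_dvd_mul_left h6
        exact hkill0 v r0 hr0 hSm h4
    have hch : ch ((q:ℝ) * δ) (fun m' => (q:ℝ) * μ (q ^ j * m')) K' q m' y = 1 := by
      unfold ch
      rw [Set.indicator_of_mem hmem]
      rfl
    rw [hch, mul_one]
    exact_mod_cast hcard

end ItP3

theorem p3 : P3Stmt := by
  classical
  intro δ μ K K' q j L hq hL hK hK' y
  have hdec : ∀ m ∈ L, m = q ^ j * (m / q ^ j) := by
    intro m hm
    obtain ⟨h1, h2, h3⟩ := hL m hm
    have h4 : q ^ j ∣ m := by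
      rw [← h2]; exact Nat.ordProj_dvd m q
    exact (Nat.mul_div_cancel' h4).symm
  have hnd : ∀ m ∈ L, ¬ q ∣ m / q ^ j := by
    intro m hm
    obtain ⟨h1, h2, h3⟩ := hL m hm
    rw [← h2]
    exact Nat.not_dvd_ordCompl hq h1.ne'
  have hinj : Set.InjOn (fun m => m / q ^ j) (L : Set ℕ) := by
    intro a ha b hb hab
    simp only at hab
    rw [hdec a ha, hdec b hb, hab]
  unfold FN
  rw [Finset.sum_comm, Finset.sum_image hinj, Finset.mul_sum]
  refine Finset.sum_le_sum (fun m hm => ?_)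
  obtain ⟨h1, h2, h3⟩ := hL m hm
  exact ItP3.one δ μ K K' q j m (m / q ^ j) hq (hdec m hm) (hnd m hm) h3 (hK m hm)
    (hK' m hm) y

end Pool.Agent.MP_0863b8.R

end
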