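import Mathlib
import Pool.Agent.Work.MP_0863b8_nt.Bd.B02
import Pool.Agent.Work.MP_0863b8_nt.Bd.B01
import Pool.Agent.Work.MP_0863b8_nt.Bd.B03
import Pool.Agent.Work.MP_0863b8_nt.Bd.B04

/-! Bundle of small proof modules (one section per former module). -/

section

/-!
MP_0863b8_nt, RECURSION block, item P4: the indicators of `T` are constant on the fibres.
-/

set_option autoImplicit false

namespace Pool.Agent.MP_0863b8.R

namespace ItP4

/-- a modulus with small prime factors dividing `Q n'` divides `n'` -/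
lemma dvd_of_sm {q j n n' v : ℕ} (hq : q.Prime) (hn : n = q ^ (j + 1) * n')
    (hv : v ∣ n) (hs : Sm q v) : v ∣ n' := by
  have hcop : Nat.Coprime v q := by
    rw [Nat.coprime_comm, hq.coprime_iff_not_dvd]
    intro h
    exact lt_irrefl q (hs q hq h)
  have hcop' : Nat.Coprime v (q ^ (j + 1)) := Nat.Coprime.pow_right _ hcop
  rw [hn] at hv
  exact hcop'.dvd_of_dvd_mul_left hv

/-- shifting the integer by a multiple of `n'` -/
lemma shift_mem {δ : ℝ} {μ : ℕ → ℝ} {K : ℕ → ℕ → ℤ → Prop} {q j n n' : ℕ} (hq : q.Prime)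
    (hn : n = q ^ (j + 1) * n') (hK : ∀ v r, K n v r → v ∣ n) (s t : ℝ) (i : ℤ)
    (hst : (n : ℝ) * s = (n : ℝ) * t + (n' : ℝ) * i) (h : t ∈ Bs δ μ K q n) :
    s ∈ Bs δ μ K q n := by
  obtain ⟨k, hk1, hk2⟩ := h
  refine ⟨k + n' * i, ?_, ?_⟩
  · have : (n : ℝ) * s - δ - ((k + n' * i : ℤ) : ℝ) = (n : ℝ) * t - δ - k := by
      rw [hst]; push_cast; ring
    rw [this]; exact hk1
  · intro v r hKr hs hmod
    refine hk2 v r hKr hs ?_
    have hd : v ∣ n' := dvd_of_sm hq hn (hK v r hKr) hs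
    have hz : (n' : ℤ) * i ≡ 0 [ZMOD (v : ℤ)] :=
      Int.modEq_zero_iff_dvd.mpr (Dvd.dvd.mul_right (Int.natCast_dvd_natCast.mpr hd) i)
    have h2 : k + n' * i ≡ k + 0 [ZMOD (v : ℤ)] := Int.ModEq.add_left k hz
    rw [add_zero] at h2
    exact h2.symm.trans hmod

end ItP4

open ItP4 in
theorem p4 : P4Stmt := by
  intro δ μ K q j T hq hT hK y i
  unfold FN
  refine Finset.sum_congr rfl fun n hn => ?_
  obtain ⟨hpos, hfac⟩ := hT n hn
  have hdvd : q ^ (j + 1) ∣ n := by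
    rw [← hfac]; exact Nat.ordProj_dvd n q
  obtain ⟨n', hn'⟩ := hdvd
  have hQ : ((q ^ (j + 1) : ℕ) : ℝ) ≠ 0 := by
    exact_mod_cast (pow_pos hq.pos _).ne'
  have hcast : (n : ℝ) = ((q ^ (j + 1) : ℕ) : ℝ) * (n' : ℝ) := by
    rw [hn']; push_cast; ring
  have e1 : (n : ℝ) * ((y + i) / ((q ^ (j + 1) : ℕ) : ℝ)) =
      (n : ℝ) * (y / ((q ^ (j + 1) : ℕ) : ℝ)) + (n' : ℝ) * ((i : ℤ) : ℝ) := by
    rw [hcast]; push_cast at hQ ⊢; field_simp
  have e2 : (n : ℝ) * (y / ((q ^ (j + 1) : ℕ) : ℝ)) =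
      (n : ℝ) * ((y + i) / ((q ^ (j + 1) : ℕ) : ℝ)) + (n' : ℝ) * ((-(i : ℤ) : ℤ) : ℝ) := by
    rw [e1]; push_cast; ring
  have hiff : ((y + i) / ((q ^ (j + 1) : ℕ) : ℝ)) ∈ Bs δ μ K q n ↔
      (y / ((q ^ (j + 1) : ℕ) : ℝ)) ∈ Bs δ μ K q n :=
    ⟨fun h => shift_mem hq hn' (hK n hn) _ _ _ e2 h, fun h => shift_mem hq hn' (hK n hn) _ _ _ e1 h⟩
  unfold ch
  by_cases h : (y / ((q ^ (j + 1) : ℕ) : ℝ)) ∈ Bs δ μ K q n
  · rw [Set.indicator_of_mem h, Set.indicator_of_mem (hiff.mpr h)]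
    rfl
  · rw [Set.indicator_of_notMem h, Set.indicator_of_notMem (fun h' => h (hiff.mp h'))]

end Pool.Agent.MP_0863b8.R

end

section

/-!
MP_0863b8_nt, RECURSION block, item P5: Cauchy-Schwarz on [0,1].
-/

set_option autoImplicit false

namespace Pool.Agent.MP_0863b8.R

open MeasureTheory

namespace ItP5

theorem ii {F : ℝ → ℝ} {C : ℝ} (hF : Measurable F) (h : ∀ t, |F t| ≤ C) :
    IntervalIntegrable F volume 0 1 := by
  have hc : IntervalIntegrable (fun _ : ℝ => C) volume 0 1 := intervalIntegrable_const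
  refine hc.mono_fun hF.aestronglyMeasurable (Filter.Eventually.of_forall (fun t => ?_))
  show ‖F t‖ ≤ ‖C‖
  rw [Real.norm_eq_abs, Real.norm_eq_abs]
  exact (h t).trans (le_abs_self C)

end ItP5

open ItP5 in
theorem p5 : P5Stmt := by
  intro F G C hF hG hFb hGb
  have hC : 0 ≤ C := (hFb 0).1.trans (hFb 0).2
  have bd : ∀ (f g : ℝ → ℝ), (∀ t, 0 ≤ f t ∧ f t ≤ C) → (∀ t, 0 ≤ g t ∧ g t ≤ C) →
      ∀ t, |f t * g t| ≤ C * C := by
    intro f g hf hg t
    rw [abs_of_nonneg (mul_nonneg (hf t).1 (hg t).1)]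
    exact mul_le_mul (hf t).2 (hg t).2 (hg t).1 hC
  have iFF : IntervalIntegrable (fun t => F t * F t) volume 0 1 :=
    ii (hF.mul hF) (bd F F hFb hFb)
  have iFG : IntervalIntegrable (fun t => F t * G t) volume 0 1 :=
    ii (hF.mul hG) (bd F G hFb hGb)
  have iGG : IntervalIntegrable (fun t => G t * G t) volume 0 1 :=
    ii (hG.mul hG) (bd G G hGb hGb)
  have key : ∀ x : ℝ, 0 ≤ (∫ t in (0:ℝ)..1, F t * F t) * (x * x) +
      (-(2 * ∫ t in (0:ℝ)..1, F t * G t)) * x + ∫ t in (0:ℝ)..1, G t * G t := by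
    intro x
    have h1 : 0 ≤ ∫ t in (0:ℝ)..1, (x * F t - G t) * (x * F t - G t) :=
      intervalIntegral.integral_nonneg (by norm_num) (fun t _ => mul_self_nonneg _)
    have h2 : (∫ t in (0:ℝ)..1, (x * F t - G t) * (x * F t - G t)) =
        ∫ t in (0:ℝ)..1, ((x * x) * (F t * F t) - (2 * x) * (F t * G t)) + G t * G t := by
      refine intervalIntegral.integral_congr (fun t _ => ?_)
      ring
    rw [h2, intervalIntegral.integral_add ((iFF.const_mul _).sub (iFG.const_mul _)) iGG,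
      intervalIntegral.integral_sub (iFF.const_mul _) (iFG.const_mul _),
      intervalIntegral.integral_const_mul, intervalIntegral.integral_const_mul] at h1
    linarith
  have hd := discrim_le_zero key
  rw [discrim] at hd
  have ha : 0 ≤ ∫ t in (0:ℝ)..1, F t * F t :=
    intervalIntegral.integral_nonneg (by norm_num) (fun t _ => mul_self_nonneg _)
  rw [← Real.sqrt_mul ha]
  refine Real.le_sqrt_of_sq_le ?_
  nlinarith

end Pool.Agent.MP_0863b8.R

end

section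

/-!
MP_0863b8_nt, RECURSION block, item PS: the product inequality.
-/

set_option autoImplicit false

namespace Pool.Agent.MP_0863b8.R

open MeasureTheory

namespace ItPS

lemma integrable_of_bdd {f : ℝ → ℝ} (hf : Measurable f) {C : ℝ} (hC : ∀ t, 0 ≤ f t ∧ f t ≤ C)
    (a b : ℝ) : IntervalIntegrable f volume a b := by
  have h0 : IntervalIntegrable (fun _ : ℝ => C) volume a b := intervalIntegrable_const
  refine h0.mono_fun hf.aestronglyMeasurable ?_
  refine Filter.Eventually.of_forall (fun t => ?_)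
  have h1 := hC t
  simp only [Real.norm_eq_abs]
  rw [abs_of_nonneg h1.1, abs_of_nonneg (le_trans h1.1 h1.2)]
  exact h1.2

end ItPS

open ItPS in
theorem ps (h1 : P1Stmt) (h2 : P2Stmt) (h3 : P3Stmt) (h4 : P4Stmt) (h5 : P5Stmt) : PSStmt := by
  intro δ μ K K' q j L T hq hL hKL hK' hT hKT
  obtain ⟨_, h2b, h2c⟩ := h2
  set Q : ℕ := q ^ (j + 1) with hQ
  have hqpos : 0 < q := hq.pos
  have hQpos : 0 < Q := by rw [hQ]; positivity
  have hQR : (0 : ℝ) < (Q : ℝ) := by exact_mod_cast hQpos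
  have hqR : (0 : ℝ) < (q : ℝ) := by exact_mod_cast hqpos
  set F : ℝ → ℝ := FN δ μ K q L with hF
  set H : ℝ → ℝ := FN δ μ K q T with hH
  set L' : Finset ℕ := L.image (fun m => m / q ^ j) with hL'
  set μ' : ℕ → ℝ := fun m' => (q:ℝ) * μ (q ^ j * m') with hμ'
  set Fy : ℝ → ℝ := FN ((q:ℝ) * δ) μ' K' q L' with hFy
  set G : ℝ → ℝ := fun y => H (y / Q) with hG
  have hFm : Measurable F := (h2c δ μ K q L).1
  have hFb : ∀ t, 0 ≤ F t ∧ F t ≤ (L.card : ℝ) := (h2c δ μ K q L).2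
  have hHm : Measurable H := (h2c δ μ K q T).1
  have hHb : ∀ t, 0 ≤ H t ∧ H t ≤ (T.card : ℝ) := (h2c δ μ K q T).2
  have hFym : Measurable Fy := (h2c ((q:ℝ) * δ) μ' K' q L').1
  have hFyb : ∀ t, 0 ≤ Fy t ∧ Fy t ≤ (L'.card : ℝ) := (h2c ((q:ℝ) * δ) μ' K' q L').2
  have hGm : Measurable G := hHm.comp (measurable_id.div_const _)
  have hGb : ∀ t, 0 ≤ G t ∧ G t ≤ (T.card : ℝ) := fun t => hHb _
  -- fibres
  have hfib : ∀ (y : ℝ) (i : ℕ), H ((y + i) / (Q : ℝ)) = G y := by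
    intro y i
    exact h4 δ μ K q j T hq hT hKT y i
  -- the energy of T
  have hET : En δ μ K q T = ∫ t in (0:ℝ)..1, G t * G t := by
    have e1 : En δ μ K q T = ∫ t in (0:ℝ)..1, H t * H t := h2b δ μ K q T T
    have hi : IntervalIntegrable (fun t => H t * H t) volume 0 1 := by
      refine integrable_of_bdd (hHm.mul hHm) (C := (T.card : ℝ) * T.card) (fun t => ?_) 0 1
      have := hHb t
      exact ⟨mul_nonneg this.1 this.1, mul_le_mul this.2 this.2 this.1 (le_trans this.1 this.2)⟩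
    have e2 := h1 (fun t => H t * H t) hi Q hQpos
    rw [e1, e2]
    have e3 : ∀ i ∈ Finset.range Q, ∫ y in (0:ℝ)..1, H ((y + i) / Q) * H ((y + i) / Q) =
        ∫ t in (0:ℝ)..1, G t * G t := by
      intro i _
      refine intervalIntegral.integral_congr (fun y _ => ?_)
      simp only [hfib]
    rw [Finset.sum_congr rfl e3, Finset.sum_const, Finset.card_range, nsmul_eq_mul]
    field_simp
  -- the energy of the new space
  have hEL : En ((q:ℝ) * δ) μ' K' q L' = ∫ t in (0:ℝ)..1, Fy t * Fy t :=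
    h2b ((q:ℝ) * δ) μ' K' q L' L'
  -- left side
  have hleft : ∑ m ∈ L, ∑ n ∈ T, ov δ μ K q m n = ∫ t in (0:ℝ)..1, F t * H t :=
    h2b δ μ K q L T
  have hFHi : IntervalIntegrable (fun t => F t * H t) volume 0 1 := by
    refine integrable_of_bdd (hFm.mul hHm) (C := (L.card : ℝ) * T.card) (fun t => ?_) 0 1
    have a1 := hFb t
    have a2 := hHb t
    exact ⟨mul_nonneg a1.1 a2.1, mul_le_mul a1.2 a2.2 a2.1 (le_trans a1.1 a1.2)⟩
  have hsplit := h1 (fun t => F t * H t) hFHi Q hQpos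
  have hsum1 : ∑ i ∈ Finset.range Q, ∫ y in (0:ℝ)..1, F ((y + i) / Q) * H ((y + i) / Q) =
      ∫ y in (0:ℝ)..1, (∑ i ∈ Finset.range Q, F ((y + i) / Q)) * G y := by
    have e3 : ∀ i ∈ Finset.range Q, ∫ y in (0:ℝ)..1, F ((y + i) / Q) * H ((y + i) / Q) =
        ∫ y in (0:ℝ)..1, F ((y + i) / Q) * G y := by
      intro i _
      refine intervalIntegral.integral_congr (fun y _ => ?_)
      simp only [hfib]
    rw [Finset.sum_congr rfl e3, ← intervalIntegral.integral_finsetSum]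
    · refine intervalIntegral.integral_congr (fun y _ => ?_)
      simp only [Finset.sum_mul]
    · intro i _
      refine integrable_of_bdd
        ((hFm.comp ((measurable_id.add_const _).div_const _)).mul hGm)
        (C := (L.card : ℝ) * T.card) (fun t => ?_) 0 1
      have a1 := hFb ((t + i) / Q)
      have a2 := hGb t
      exact ⟨mul_nonneg a1.1 a2.1, mul_le_mul a1.2 a2.2 a2.1 (le_trans a1.1 a1.2)⟩
  have hmono : ∫ y in (0:ℝ)..1, (∑ i ∈ Finset.range Q, F ((y + i) / Q)) * G y ≤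
      ∫ y in (0:ℝ)..1, ((q:ℝ) ^ j) * (Fy y * G y) := by
    refine intervalIntegral.integral_mono_on (by norm_num) ?_ ?_ (fun y _ => ?_)
    · refine integrable_of_bdd (C := (Q : ℝ) * L.card * T.card) ?_ (fun t => ?_) 0 1
      · refine Measurable.mul ?_ hGm
        refine Finset.measurable_sum _ (fun i _ => ?_)
        exact hFm.comp ((measurable_id.add_const _).div_const _)
      · have a2 := hGb t
        have a3 : 0 ≤ ∑ i ∈ Finset.range Q, F ((t + i) / Q) :=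
          Finset.sum_nonneg (fun i _ => (hFb _).1)
        have a4 : ∑ i ∈ Finset.range Q, F ((t + i) / Q) ≤ (Q : ℝ) * L.card := by
          calc ∑ i ∈ Finset.range Q, F ((t + i) / Q) ≤ ∑ i ∈ Finset.range Q, (L.card : ℝ) :=
                Finset.sum_le_sum (fun i _ => (hFb _).2)
            _ = (Q : ℝ) * L.card := by
                rw [Finset.sum_const, Finset.card_range, nsmul_eq_mul]
        exact ⟨mul_nonneg a3 a2.1, mul_le_mul a4 a2.2 a2.1 (le_trans a3 a4)⟩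
    · refine integrable_of_bdd (C := (q:ℝ) ^ j * ((L'.card : ℝ) * T.card))
        ((hFym.mul hGm).const_mul _) (fun t => ?_) 0 1
      have a1 := hFyb t
      have a2 := hGb t
      have a5 : (0:ℝ) ≤ (q:ℝ) ^ j := by positivity
      exact ⟨mul_nonneg a5 (mul_nonneg a1.1 a2.1),
        mul_le_mul_of_nonneg_left (mul_le_mul a1.2 a2.2 a2.1 (le_trans a1.1 a1.2)) a5⟩
    · have key := h3 δ μ K K' q j L hq hL hKL hK' y
      have := mul_le_mul_of_nonneg_right key (hGb y).1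
      calc (∑ i ∈ Finset.range Q, F ((y + i) / Q)) * G y
          ≤ (q:ℝ) ^ j * Fy y * G y := this
        _ = (q:ℝ) ^ j * (Fy y * G y) := by ring
  have hcs : ∫ y in (0:ℝ)..1, Fy y * G y ≤
      Real.sqrt (∫ t in (0:ℝ)..1, Fy t * Fy t) * Real.sqrt (∫ t in (0:ℝ)..1, G t * G t) := by
    refine h5 Fy G (max (L'.card : ℝ) T.card) hFym hGm (fun t => ?_) (fun t => ?_)
    · exact ⟨(hFyb t).1, le_trans (hFyb t).2 (le_max_left _ _)⟩
    · exact ⟨(hGb t).1, le_trans (hGb t).2 (le_max_right _ _)⟩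
  have hQq : (1 / (Q : ℝ)) * (q:ℝ) ^ j = 1 / (q : ℝ) := by
    rw [hQ]
    push_cast
    rw [pow_succ]
    field_simp
  rw [hleft]
  calc ∫ t in (0:ℝ)..1, F t * H t
      = (1 / (Q:ℝ)) * ∑ i ∈ Finset.range Q,
          ∫ y in (0:ℝ)..1, F ((y + i) / Q) * H ((y + i) / Q) := hsplit
    _ = (1 / (Q:ℝ)) * ∫ y in (0:ℝ)..1, (∑ i ∈ Finset.range Q, F ((y + i) / Q)) * G y := by
        rw [hsum1]
    _ ≤ (1 / (Q:ℝ)) * ∫ y in (0:ℝ)..1, ((q:ℝ) ^ j) * (Fy y * G y) :=
        mul_le_mul_of_nonneg_left hmono (by positivity)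
    _ = (1 / (q:ℝ)) * ∫ y in (0:ℝ)..1, Fy y * G y := by
        rw [intervalIntegral.integral_const_mul, ← mul_assoc, hQq]
    _ ≤ (1 / (q:ℝ)) * (Real.sqrt (∫ t in (0:ℝ)..1, Fy t * Fy t) *
          Real.sqrt (∫ t in (0:ℝ)..1, G t * G t)) :=
        mul_le_mul_of_nonneg_left hcs (by positivity)
    _ = _ := by rw [hET, hEL]

end Pool.Agent.MP_0863b8.R

end

section

/-!
MP_0863b8_nt, CASE I (smooth pairs): statements.

Notation: a pair `(n, m)` has `g = gcd n m`, `u = n / g`, `v = m / g`.  `κ` is small.  `UX` = the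
reduced pairs which are aligned (`‖(u-v) θ‖ ≤ 4 κ`) but not explained by a rational `c / b` with
`b ≤ κ^(-cs)` and `|θ - c/b| ≤ κ^(1-cs) / max (u, v)`.

Proof of `DensI`: let `κ' = 5 κ`, `R = max A B`; apply `dio θ κ' (2 R)` (`DioStmt`, file `Dio`).
* first alternative: at most `240 κ R` values `h = |u - v| ≥ 1`, each with at most `2 min A B` pairs.
* second alternative, `q = qmin θ κ' > κ^(-cs/2)`: `h` is a multiple of `q`: at most
  `2 R κ^(cs/2)` values of `h`.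
* second alternative, `q ≤ κ^(-cs/2)`: a pair with `h ≥ κ^(cs/2) R` is explained by
  `round (q θ) / q` (`|θ - p/q| < 5κ/h`, `5 ≤ κ^(-cs/2)`; `gcd (p, q) = 1` by `QminStmt`), so
  `h < κ^(cs/2) R`: at most `κ^(cs/2) R` values of `h`.

Proof of `BoxI` from `TreeQ` (proved: `treeQ_holds` in `C1/TreeAll.lean`) with
`t = γ`, `α = β = (1 - γ) / 2`: for `n ∈ [N1, 2 N1)`, `m ∈ [N2, 2 N2)` and `κ X ≤ lcm < 2 κ X` one
has `g = n m / lcm ≤ 4 N1 N2 / (κ X)`, `u ≤ A = 4 κ X / N2`, `v ≤ B = 4 κ X / N1`.  `Q` = the set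
of the pairs of `[1, A] × [1, B]` in `UX`; `card V ≤ ms V / N1`, `card W ≤ ms W / N2`; the powers of
`N1, N2` cancel.

Proof of `SumI`: boxes `N1 = 2^i`, `N2 = 2^j`; a box with a pair with `u, v ≤ Y` satisfies
`κ X / (4 Y) ≤ N1, N2 ≤ 4 κ X` (if `Y ≥ 1`): at most `(log Y / log 2 + 6)^2` boxes.

`SmoothBig`: tree inequality with the weights `(u v)^(1 / log y)` at the primes `≤ y` (helper76's
lemma SB = F2 of `C2/CASE2.md`, with the trivial bound `∑_{p ≤ y} 1/p ≤ 1 + log y`).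

`CaseI`: pairs with `u, v ≤ Y = exp (κ^(-3 c0))` by `SumI`, the others by `SmoothBig` with
`y = exp (κ^(-c0))`, `T = Y`, in the two ranges `L = 2 κ X` and `L = κ X` (lcm `= κ X`), and
`g = n m / lcm ≤ n m / (κ X)`; the gain is `exp (-κ^(-2 c0))` against `exp (C (1 + κ^(-c0)))`.
-/

namespace Pool.Agent.MP_0863b8.C1

open MeasureTheory Filter
open F (ms)
open G (potG)

/-- explained pairs -/
def EX (cs θ κ : ℝ) (z : ℕ × ℕ) : Prop :=
  ∃ (b : ℕ) (c : ℤ), 0 < b ∧ Int.gcd b c = 1 ∧ (b : ℝ) ≤ κ ^ (-cs) ∧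
    |θ - c / b| * (max z.1 z.2 : ℕ) ≤ κ ^ (1 - cs)

/-- aligned and unexplained pairs -/
def UX (cs θ κ : ℝ) (z : ℕ × ℕ) : Prop :=
  z.1 ≠ z.2 ∧ nd (((z.1 : ℝ) - z.2) * θ) ≤ 4 * κ ∧ ¬ EX cs θ κ z

/-- the reduced pair -/
def rd (z : ℕ × ℕ) : ℕ × ℕ := (z.1 / z.1.gcd z.2, z.2 / z.1.gcd z.2)

/-- depth `κ` at level `X` -/
def Dp (κ X : ℝ) (z : ℕ × ℕ) : Prop :=
  κ * X ≤ ((z.1.lcm z.2 : ℕ) : ℝ) ∧ ((z.1.lcm z.2 : ℕ) : ℝ) < 2 * (κ * X)

open Classical in
/-- I1: the density of the unexplained pairs -/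
def DensI : Prop :=
  ∀ cs : ℝ, 0 < cs → cs ≤ 1 → ∃ κ0 C : ℝ, 0 < κ0 ∧ 0 < C ∧ ∀ κ : ℝ, 0 < κ → κ ≤ κ0 →
    ∀ (θ : ℝ) (A B : ℝ), 1 ≤ A → 1 ≤ B →
    (((Finset.Icc 1 ⌊A⌋₊ ×ˢ Finset.Icc 1 ⌊B⌋₊).filter (fun z => UX cs θ κ z)).card : ℝ) ≤
      C * κ ^ (cs / 2) * (A * B)

open Classical in
/-- I2: one box -/
def BoxI : Prop :=
  ∀ γ cs C1 : ℝ, 1/2 < γ → γ ≤ 5/9 → 0 < cs → cs ≤ 1 → ∃ κ0 C : ℝ, 0 < κ0 ∧ 0 < C ∧
    ∀ κ : ℝ, 0 < κ → κ ≤ κ0 → ∀ (θ X N1 N2 : ℝ), 0 < X → 0 < N1 → 0 < N2 →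
    ∀ V W : Finset ℕ, (∀ v ∈ V, 0 < v ∧ rp v ≤ C1 ∧ N1 ≤ v ∧ (v : ℝ) < 2 * N1) →
      (∀ w ∈ W, 0 < w ∧ rp w ≤ C1 ∧ N2 ≤ w ∧ (w : ℝ) < 2 * N2) →
    ∑ z ∈ (V ×ˢ W).filter (fun z => Dp κ X z ∧ UX cs θ κ (rd z)), ((z.1.gcd z.2 : ℕ) : ℝ) ≤
      C * κ ^ ((1 - γ) / 4 * cs) * (κ * X) ^ (1 - 2 * γ) * (ms V * ms W) ^ γ

open Classical in
/-- I3: all boxes with `u, v ≤ Y` -/
def SumI : Prop :=
  ∀ γ cs C1 : ℝ, 1/2 < γ → γ ≤ 5/9 → 0 < cs → cs ≤ 1 → ∃ κ0 C : ℝ, 0 < κ0 ∧ 0 < C ∧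
    ∀ κ : ℝ, 0 < κ → κ ≤ κ0 → ∀ (θ X Y : ℝ), 0 < X → 3 ≤ Y →
    ∀ V W : Finset ℕ, (∀ v ∈ V, 0 < v ∧ rp v ≤ C1) → (∀ w ∈ W, 0 < w ∧ rp w ≤ C1) →
    ∑ z ∈ (V ×ˢ W).filter (fun z => Dp κ X z ∧ UX cs θ κ (rd z) ∧
        ((rd z).1 : ℝ) ≤ Y ∧ ((rd z).2 : ℝ) ≤ Y), ((z.1.gcd z.2 : ℕ) : ℝ) ≤
      C * (Real.log Y) ^ 2 * κ ^ ((1 - γ) / 4 * cs) * (κ * X) ^ (1 - 2 * γ) * (ms V * ms W) ^ γ

open Classical in
/-- I4: smooth pairs with large product -/
def SmoothBig : Prop :=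
  ∀ γ C1 : ℝ, 1/2 < γ → γ ≤ 5/9 → ∃ C y0 : ℝ, 0 < C ∧ 3 ≤ y0 ∧
    ∀ y T L : ℝ, y0 ≤ y → 1 ≤ T → 0 ≤ L →
    ∀ V W : Finset ℕ, (∀ v ∈ V, 0 < v ∧ rp v ≤ C1) → (∀ w ∈ W, 0 < w ∧ rp w ≤ C1) →
    ∑ z ∈ (V ×ˢ W).filter (fun z => L / 2 < ((z.1.lcm z.2 : ℕ) : ℝ) ∧
        ((z.1.lcm z.2 : ℕ) : ℝ) ≤ L ∧ T ≤ ((rd z).1 : ℝ) * (rd z).2 ∧
        ∀ p : ℕ, p.Prime → p ∣ (rd z).1 * (rd z).2 → (p : ℝ) ≤ y), (z.1 : ℝ) * z.2 ≤
      Real.exp (C * Real.log y) * T ^ (-(1 / Real.log y)) * potG γ L V W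

open Classical in
/-- I5: **CASE I**: aligned, unexplained pairs of depth `κ` with `P⁺(u v) ≤ exp (κ^(-c0))` -/
def CaseI : Prop :=
  ∀ γ c0 cs C1 : ℝ, 1/2 < γ → γ ≤ 5/9 → 0 < c0 → 0 < cs → cs ≤ 1 →
    ∃ κ0 C : ℝ, 0 < κ0 ∧ 0 < C ∧
    ∀ κ : ℝ, 0 < κ → κ ≤ κ0 → ∀ (θ X : ℝ), 0 < X →
    ∀ V W : Finset ℕ, (∀ v ∈ V, 0 < v ∧ rp v ≤ C1) → (∀ w ∈ W, 0 < w ∧ rp w ≤ C1) →
    ∑ z ∈ (V ×ˢ W).filter (fun z => Dp κ X z ∧ UX cs θ κ (rd z) ∧
        ∀ p : ℕ, p.Prime → p ∣ (rd z).1 * (rd z).2 → (p : ℝ) ≤ Real.exp (κ ^ (-c0))),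
        ((z.1.gcd z.2 : ℕ) : ℝ) ≤
      C * κ ^ ((1 - γ) / 4 * cs - 6 * c0) * (κ * X) ^ (1 - 2 * γ) * (ms V * ms W) ^ γ

end Pool.Agent.MP_0863b8.C1

end

section

/-! The one-scale tree inequality with general exponents is proved. -/

namespace Pool.Agent.MP_0863b8.C1

theorem treeQ_holds : TreeQ := treeQ (stepQ nodeQ split) (finQ (stepQ nodeQ split))

end Pool.Agent.MP_0863b8.C1

end

section

/-!
MP_0863b8_nt, CASE II (thick extras): definitions and statements.  Mathematics: `CASE2.md`.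
-/

set_option autoImplicit false

namespace Pool.Agent.MP_0863b8.C2

open Pool.Agent.MP_0863b8 F G

/-- the gcd of a pair -/
def cg (z : ℕ × ℕ) : ℕ := z.1.gcd z.2

/-- the own cofactor `u = n / gcd` -/
def cu (z : ℕ × ℕ) : ℕ := z.1 / z.1.gcd z.2

/-- the other cofactor `v = m / gcd` -/
def cv (z : ℕ × ℕ) : ℕ := z.2 / z.1.gcd z.2

/-- the `Q`-smooth part of `n` -/
noncomputable def smp (Q : ℝ) (n : ℕ) : ℕ :=
  ∏ p ∈ n.primeFactors.filter (fun p : ℕ => (p : ℝ) ≤ Q), p ^ n.factorization p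

open Classical in
/-- the pairs of `V × W` with `lcm` in `(L/2, L]` -/
noncomputable def prs (V W : Finset ℕ) (L : ℝ) : Finset (ℕ × ℕ) :=
  (V ×ˢ W).filter (fun t => L / 2 < ((t.1.lcm t.2 : ℕ) : ℝ) ∧ ((t.1.lcm t.2 : ℕ) : ℝ) ≤ L)

/-- **SB** (F2): small prime bonus. -/
def SB : Prop :=
  ∀ γ C1 : ℝ, 1/2 < γ → γ ≤ 5/9 → ∃ C : ℝ, 0 < C ∧ ∀ Q : ℝ, Real.exp 9 ≤ Q →
    ∀ P : Finset ℕ, (∀ p ∈ P, p.Prime ∧ (p : ℝ) ≤ Q) →
    ∀ (V W : Finset ℕ) (L : ℝ), 0 ≤ L →
    (∀ v ∈ V, 0 < v ∧ rp v ≤ C1) → (∀ w ∈ W, 0 < w ∧ rp w ≤ C1) →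
    ∑ t ∈ prs V W L, ((t.1 : ℝ) * t.2) *
        ∏ p ∈ P, (p : ℝ) ^ (|(t.1.factorization p : ℝ) - t.2.factorization p| / Real.log Q) ≤
      C * Real.exp (C * ∑ p ∈ P, (1 : ℝ) / p) * potG γ L V W

/-- **SBC**: the corollary with the smooth parts. -/
def SBC : Prop :=
  ∀ γ C1 : ℝ, 1/2 < γ → γ ≤ 5/9 → ∃ C : ℝ, 0 < C ∧ ∀ Q : ℝ, Real.exp 9 ≤ Q →
    ∀ (V W : Finset ℕ) (L : ℝ), 0 < L →
    (∀ v ∈ V, 0 < v ∧ rp v ≤ C1) → (∀ w ∈ W, 0 < w ∧ rp w ≤ C1) →
    ∑ t ∈ prs V W L, (cg t : ℝ) *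
        ((smp Q (cu t) : ℝ) * smp Q (cv t)) ^ (1 / Real.log Q) ≤
      C * Q ^ C * L ^ (1 - 2 * γ) * (ms V * ms W) ^ γ

/-- **RANK** (F4): Rankin's trick. -/
def Rank : Prop :=
  ∃ A0 : ℝ, ∀ A : ℝ, A0 ≤ A → ∀ S : Finset ℕ,
    (∀ a ∈ S, Real.exp ((Real.log A) ^ 3) < a ∧ ∀ p : ℕ, p.Prime → p ∣ a → (p : ℝ) ≤ A ^ 2) →
    ∑ a ∈ S, (1 : ℝ) / a ≤ 1 / A

/-- `ε_i` -/
noncomputable def epsI (κ c4 : ℝ) (i : ℕ) : ℝ := 16 * κ ^ (1 - c4) / 2 ^ i

/-- special numbers `a` at the scale `2^i` -/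
def Spec (θ κ c4 : ℝ) (i a : ℕ) : Prop :=
  ∃ h : ℕ, 1 ≤ h ∧ (h : ℝ) ≤ 2 * κ ^ (-c4) ∧ nd ((h : ℝ) * a * θ) ≤ epsI κ c4 i

open Classical in
/-- sparse dyadic scales of special numbers -/
def SparseScale (θ κ c4 : ℝ) (i k : ℕ) : Prop :=
  (((Finset.Ico (2 ^ k) (2 ^ (k + 1))).filter (fun a => Spec θ κ c4 i a)).card : ℝ) ≤
    ((2 : ℝ) ^ i) ^ (-(1 / 30) : ℝ) * 2 ^ k

/-- the special numbers which are pointwise negligible -/
def BadA (θ κ c4 : ℝ) (i a : ℕ) : Prop :=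
  Spec θ κ c4 i a ∧
    (SparseScale θ κ c4 i (Nat.log 2 a) ∨ Real.exp ((Real.log ((2 : ℝ) ^ i)) ^ 3) < a)

/-- **SPS**: the sum over the negligible special numbers. -/
def SPS : Prop :=
  ∃ i0 : ℕ, ∀ i : ℕ, i0 ≤ i → ∀ (θ κ c4 : ℝ) (S : Finset ℕ),
    (∀ a ∈ S, 0 < a ∧ BadA θ κ c4 i a ∧
      ∀ p : ℕ, p.Prime → p ∣ a → (p : ℝ) ≤ ((2 : ℝ) ^ i) ^ 2) →
    ∑ a ∈ S, (1 : ℝ) / a ≤ ((2 : ℝ) ^ i) ^ (-(1 / 31) : ℝ)

/-- **LAB** (Step 4, one side): a special number in a dense scale has a label. -/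
def Lab : Prop :=
  ∀ c4 c0 : ℝ, 0 < c4 → c4 ≤ 1/4 → 0 < c0 → ∃ κ0 : ℝ, 0 < κ0 ∧ ∀ κ : ℝ, 0 < κ → κ ≤ κ0 →
    ∀ (θ : ℝ) (i a : ℕ), Real.exp (κ ^ (-c0) / 2) ≤ (2 : ℝ) ^ i → 0 < a →
    Spec θ κ c4 i a → ¬ BadA θ κ c4 i a →
    ∃ (q h : ℕ) (c : ℤ), 1 ≤ q ∧ 1 ≤ h ∧ (h : ℝ) ≤ 2 * κ ^ (-c4) ∧ q ∣ h * a ∧
      Int.gcd q c = 1 ∧ (q : ℝ) ≤ ((2 : ℝ) ^ i) ^ ((1 : ℝ) / 12) ∧
      |θ - c / q| ≤ epsI κ c4 i / a

open Classical in
/-- the aligned pairs of a dyadic box -/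
noncomputable def box2 (θ κ : ℝ) (a b i j : ℕ) : Finset (ℕ × ℕ) :=
  (Finset.Ico (2 ^ i) (2 ^ (i + 1)) ×ˢ Finset.Ico (2 ^ j) (2 ^ (j + 1))).filter
    (fun t => nd (((a : ℝ) * t.1 - b * t.2) * θ) ≤ 4 * κ)

/-- **SPE** (Step 3): a dense box makes `a` and `b` special. -/
def Spe : Prop :=
  ∀ c4 c0 : ℝ, 0 < c4 → c4 ≤ 1/4 → 0 < c0 → ∃ κ0 : ℝ, 0 < κ0 ∧ ∀ κ : ℝ, 0 < κ → κ ≤ κ0 →
    ∀ (θ : ℝ) (a b i j : ℕ), Real.exp (κ ^ (-c0) / 2) ≤ (2 : ℝ) ^ i →
    Real.exp (κ ^ (-c0) / 2) ≤ (2 : ℝ) ^ j →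
    κ ^ c4 * 2 ^ (i + j) ≤ (box2 θ κ a b i j).card →
    Spec θ κ c4 i a ∧ Spec θ κ c4 j b

/-- **PT** (2.2): pointwise bound of the edges at `n`. -/
def Pt : Prop :=
  ∀ (Y : ℝ) (n A h : ℕ) (E S : Finset ℕ), 0 < Y → 0 < n → 0 < A → 0 < h →
    (∀ m ∈ E, 0 < m ∧ Y ≤ ((n.lcm m : ℕ) : ℝ) ∧ ((n.lcm m : ℕ) : ℝ) < 2 * Y ∧
      A ∣ n / n.gcd m ∧ h ∣ m / n.gcd m ∧ n / n.gcd m / A ∈ S) →
    ∑ m ∈ E, ((n.gcd m : ℕ) : ℝ) ≤ 3 * Y / (h * A) * ∑ a ∈ S, (1 : ℝ) / a

open Classical in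
/-- **DENS** (Step 2) for one pair of dyadic classes. -/
def Dns : Prop :=
  ∀ γ C1 : ℝ, 1/2 < γ → γ ≤ 5/9 → ∃ C : ℝ, 0 < C ∧
    ∀ (Y T : ℝ) (i j : ℕ) (N M : Finset ℕ) (A A' : ℕ → ℕ) (G : Finset (ℕ × ℕ)),
    0 < Y → 0 ≤ T → T ≤ 1 →
    (∀ n ∈ N, 0 < n ∧ rp n ≤ C1 ∧ 2 ^ i ≤ A n ∧ A n < 2 ^ (i + 1) ∧ A n ∣ n) →
    (∀ m ∈ M, 0 < m ∧ rp m ≤ C1 ∧ 2 ^ j ≤ A' m ∧ A' m < 2 ^ (j + 1) ∧ A' m ∣ m) →
    (∀ z ∈ G, z.1 ∈ N ∧ z.2 ∈ M ∧ Y ≤ ((z.1.lcm z.2 : ℕ) : ℝ) ∧
      ((z.1.lcm z.2 : ℕ) : ℝ) < 2 * Y ∧ A z.1 ∣ cu z ∧ A' z.2 ∣ cv z) →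
    (∀ ν μ : ℕ, ((G.filter (fun z => z.1 / A z.1 = ν ∧ z.2 / A' z.2 = μ)).card : ℝ) ≤
      T * 2 ^ (i + j)) →
    ∑ z ∈ G, (cg z : ℝ) ≤ C * T ^ ((1 - γ) / 2) * Y ^ (1 - 2 * γ) * (ms N * ms M) ^ γ

open Classical in
/-- **STEP2**: all dyadic classes with `|i - j| ≤ s`. -/
def Dns2 : Prop :=
  ∀ γ C1 : ℝ, 1/2 < γ → γ ≤ 5/9 → ∃ C : ℝ, 0 < C ∧
    ∀ (θ κ Y T : ℝ) (s : ℕ) (N M : Finset ℕ) (A A' : ℕ → ℕ) (G : Finset (ℕ × ℕ)),
    0 < Y → 0 ≤ T → T ≤ 1 →
    (∀ n ∈ N, 0 < n ∧ rp n ≤ C1 ∧ 0 < A n ∧ A n ∣ n) →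
    (∀ m ∈ M, 0 < m ∧ rp m ≤ C1 ∧ 0 < A' m ∧ A' m ∣ m) →
    (∀ z ∈ G, z.1 ∈ N ∧ z.2 ∈ M ∧ Y ≤ ((z.1.lcm z.2 : ℕ) : ℝ) ∧
      ((z.1.lcm z.2 : ℕ) : ℝ) < 2 * Y ∧ A z.1 ∣ cu z ∧ A' z.2 ∣ cv z ∧
      nd (((cu z : ℝ) - cv z) * θ) ≤ 4 * κ ∧
      Nat.log 2 (A z.1) ≤ Nat.log 2 (A' z.2) + s ∧ Nat.log 2 (A' z.2) ≤ Nat.log 2 (A z.1) + s ∧
      ((box2 θ κ (cu z / A z.1) (cv z / A' z.2) (Nat.log 2 (A z.1))
        (Nat.log 2 (A' z.2))).card : ℝ) ≤
        T * 2 ^ (Nat.log 2 (A z.1) + Nat.log 2 (A' z.2))) →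
    ∑ z ∈ G, (cg z : ℝ) ≤
      C * (2 * s + 1) * T ^ ((1 - γ) / 2) * Y ^ (1 - 2 * γ) * (ms N * ms M) ^ γ

/-- the data of CASE II -/
structure Conf (θ κ X r Q Ast C1 cm : ℝ) (N M : Finset ℕ) (A h A' h' : ℕ → ℕ)
    (G : Finset (ℕ × ℕ)) : Prop where
  hG : ∀ z ∈ G, z.1 ∈ N ∧ z.2 ∈ M
  hN : ∀ n ∈ N, 0 < n ∧ rp n ≤ C1 ∧ 0 < A n ∧ 0 < h n ∧ A n ∣ n
  hM : ∀ m ∈ M, 0 < m ∧ rp m ≤ C1 ∧ 0 < A' m ∧ 0 < h' m ∧ A' m ∣ m
  I1 : ∀ z ∈ G, κ * X ≤ ((z.1.lcm z.2 : ℕ) : ℝ) ∧ ((z.1.lcm z.2 : ℕ) : ℝ) < 2 * (κ * X)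
  I2 : ∀ z ∈ G, nd (((cu z : ℝ) - cv z) * θ) ≤ 4 * κ
  I3 : ∀ z ∈ G, ∃ su sv : ℕ, cu z = su * A z.1 * h' z.2 ∧ cv z = sv * A' z.2 * h z.1 ∧
    ∀ p : ℕ, p.Prime → p ∣ su * sv → (p : ℝ) ≤ Q
  I4 : ∀ z ∈ G, (∀ p : ℕ, p.Prime → p ∣ cu z * cv z → p ≤ max (A z.1) (A' z.2)) ∧
    Ast ≤ ((max (A z.1) (A' z.2) : ℕ) : ℝ)
  mN : ms N ≤ κ ^ (-cm) * X
  mM : ms M ≤ κ ^ (-cm) * (r * X)

/-- explained pairs -/
def Expl (θ κ c4 : ℝ) (z : ℕ × ℕ) : Prop :=
  ∃ (q : ℕ) (c : ℤ), 1 ≤ q ∧ (q : ℝ) ≤ 4 * κ ^ (-(2 * c4)) ∧ Int.gcd q c = 1 ∧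
    |θ - c / q| ≤ 32 * κ ^ (1 - c4) / ((max (cu z) (cv z) : ℕ) : ℝ)

open Classical in
/-- **THEOREM II.** -/
def ThmII : Prop :=
  ∀ γ c4 c3 c0 cm C1 C2 : ℝ, 1/2 < γ → γ ≤ 5/9 → 0 < c4 → c4 ≤ 1/4 → 0 < c3 → 0 < c0 →
    0 ≤ cm → 0 < C2 → (2 * γ - 1) + 2 * c0 + cm * (2 * γ - 1) < c4 * (1 - γ) / 2 →
    ∃ κ0 c' : ℝ, 0 < κ0 ∧ 0 < c' ∧ ∀ (κ θ X r : ℝ) (N M : Finset ℕ) (A h A' h' : ℕ → ℕ)
      (G : Finset (ℕ × ℕ)), 0 < κ → κ ≤ κ0 → 0 < X → 1 ≤ r →
      Conf θ κ X r (κ ^ (-C2)) (Real.exp (κ ^ (-c0))) C1 cm N M A h A' h' G →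
      ∑ z ∈ G.filter (fun z => ¬ Expl θ κ c4 z), (cg z : ℝ) ≤ κ ^ c' * (r * ms N + ms M)

end Pool.Agent.MP_0863b8.C2

end

section

set_option autoImplicit false

namespace Pool.Agent.MP_0863b8.FIN

open MeasureTheory Filter

/-- the level of a small positive number -/
theorem exists_lev (n : ℕ) (ψ : ℝ) (hn : 0 < n) (h0 : 0 < ψ) (h8 : ψ ≤ 1 / 8) :
    ∃ k : ℕ, (n:ℝ) * (1/2 : ℝ) ^ k < ψ ∧ ψ ≤ 2 * ((n:ℝ) * (1/2 : ℝ) ^ k) := by
  have hnR : (1:ℝ) ≤ n := by exact_mod_cast hn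
  have hx : 0 < ψ / n := by positivity
  have hx1 : ψ / n ≤ 1 := by
    rw [div_le_one (by linarith)]
    linarith
  obtain ⟨k, hk1, hk2⟩ := exists_nat_pow_near_of_lt_one hx hx1
    (by norm_num : (0:ℝ) < 1/2) (by norm_num : (1/2 : ℝ) < 1)
  refine ⟨k + 1, ?_, ?_⟩
  · rw [lt_div_iff₀ (by linarith)] at hk1
    linarith
  · rw [div_le_iff₀ (by linarith)] at hk2
    rw [pow_succ]
    linarith

theorem full (hK : KeptStmt) : FullStmt := by
  classical
  intro δ Φ h0 hH1 hH2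
  obtain ⟨c, hc, hdiv⟩ := diverge Φ h0 hH1 hH2
  choose S hSmem hSlo hShi using blocks Φ h0 c hdiv
  set ψ : ℕ → ℝ := fun n => min (Φ n) (1/8) with hψ
  have hψ8 : ∀ n, ψ n ≤ 1/8 := fun n => min_le_right _ _
  have hlev : ∀ n : ℕ, ∃ k : ℕ, 0 < n → 0 < Φ n →
      (n:ℝ) * (1/2 : ℝ) ^ k < ψ n ∧ ψ n ≤ 2 * ((n:ℝ) * (1/2 : ℝ) ^ k) := by
    intro n
    by_cases hn : 0 < n ∧ 0 < Φ n
    · obtain ⟨k, hk⟩ := exists_lev n (ψ n) hn.1 (lt_min hn.2 (by norm_num)) (hψ8 n)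
      exact ⟨k, fun _ _ => hk⟩
    · exact ⟨0, fun h1 h2 => absurd ⟨h1, h2⟩ hn⟩
  choose lev hlev using hlev
  have hmu : ∀ t, ∀ n ∈ S t, mu lev n < ψ n ∧ ψ n ≤ 2 * mu lev n := by
    intro t n hn
    obtain ⟨m1, m2, m3, m4⟩ := hSmem t n hn
    exact hlev n m2 m4
  obtain ⟨C, c', n0, hC, hc', hkept⟩ := hK (1 / c)
  have hk : ∀ t, ∃ B : ℕ → Set ℝ,
      (∀ n ∈ S t, MeasurableSet (B n) ∧ ∀ x ∈ B n, nd (n * x - δ) < mu lev n) ∧
      ∑ n ∈ S t, ∑ m ∈ S t, (volume (B n ∩ B m ∩ Set.Ico (0:ℝ) 1)).toReal ≤ C ∧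
      ∀ a b : ℝ, 0 ≤ a → a < b → b ≤ 1 → ∀ n ∈ S t, n0 a b ≤ n →
        c' * (b - a) * mu lev n ≤ (volume (B n ∩ Set.Ioo a b)).toReal := by
    intro t
    apply hkept δ (S t) lev
    · intro n hn
      obtain ⟨m1, m2, m3, m4⟩ := hSmem t n hn
      refine ⟨m2, (divsum c n hc m2 m3).2, ?_⟩
      have := (hmu t n hn).1
      linarith [hψ8 n]
    · refine le_trans (Finset.sum_le_sum (fun n hn => (hmu t n hn).1.le)) (hShi t)
  choose B hB1 hB2 hB3 using hk
  have hbc := bc2 S B C (c' / 4) (by positivity) (fun t n hn => (hB1 t n hn).1) hB2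
    (by
      intro a b ha hab hb
      filter_upwards [eventually_ge_atTop (n0 a b)] with t ht
      have hba : 0 < b - a := by linarith
      calc c' / 4 * (b - a) = (1 / 4) * (c' * (b - a)) := by ring
        _ ≤ (∑ n ∈ S t, mu lev n) * (c' * (b - a)) := by
            apply mul_le_mul_of_nonneg_right _ (by positivity)
            have h1 : ∑ n ∈ S t, ψ n ≤ ∑ n ∈ S t, 2 * mu lev n :=
              Finset.sum_le_sum (fun n hn => (hmu t n hn).2)
            rw [← Finset.mul_sum] at h1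
            have h2 := hSlo t
            change 1 / 2 ≤ ∑ n ∈ S t, ψ n at h2
            linarith
        _ = ∑ n ∈ S t, c' * (b - a) * mu lev n := by
            rw [Finset.sum_mul]
            exact Finset.sum_congr rfl (fun n _ => by ring)
        _ ≤ ∑ n ∈ S t, (volume (B t n ∩ Set.Ioo a b)).toReal := by
            apply Finset.sum_le_sum
            intro n hn
            exact hB3 t a b ha hab hb n hn (le_trans ht (hSmem t n hn).1))
  apply ae_of_unit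
  filter_upwards [hbc] with β hβ
  rw [Set.infinite_iff_exists_gt]
  intro M
  have hβ' := (hβ.and_eventually (eventually_gt_atTop M)).exists
  obtain ⟨t, ⟨v, hv, hβv⟩, htM⟩ := hβ'
  obtain ⟨m1, m2, m3, m4⟩ := hSmem t v hv
  refine ⟨v, ⟨m2, ?_⟩, lt_of_lt_of_le htM m1⟩
  calc nd (v * β - δ) < mu lev v := (hB1 t v hv).2 β hβv
    _ ≤ ψ v := (hmu t v hv).1.le
    _ ≤ Φ v := min_le_left _ _

end Pool.Agent.MP_0863b8.FIN

end

section

/-!
MP_0863b8_nt, G3: the base case.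
-/

namespace Pool.Agent.MP_0863b8.G

open F (ms en share lv box)

private lemma base_nine {γ : ℝ} (hγ : 1 / 2 < γ) {a b : ℝ} (ha : 0 ≤ a) (hb : 0 ≤ b)
    (ha1 : a ≤ 1) (hb1 : b ≤ 1) : (a * b) ^ γ ≤ (a + b) / 2 := by
  have hab : 0 ≤ a * b := mul_nonneg ha hb
  have hab1 : a * b ≤ 1 := mul_le_one₀ ha1 hb hb1
  have h1 : (a * b) ^ γ ≤ (a * b) ^ ((1:ℝ)/2) :=
    Real.rpow_le_rpow_of_exponent_ge' hab hab1 (by norm_num) hγ.le
  rw [← Real.sqrt_eq_rpow] at h1
  refine h1.trans ?_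
  rw [Real.sqrt_le_left (by linarith)]
  nlinarith [sq_nonneg (a - b)]

private lemma base_sum {γ : ℝ} (hγ : 1 / 2 < γ) (S : Finset ℕ) (x y : ℕ → ℝ) (X Y : ℝ) (hx : ∀ i, 0 ≤ x i)
    (hy : ∀ i, 0 ≤ y i) (hX : ∑ i ∈ S, x i ≤ X) (hY : ∑ i ∈ S, y i ≤ Y) :
    ∑ i ∈ S, (x i * y i) ^ γ ≤ (X * Y) ^ γ := by
  have hx1 : ∀ i ∈ S, x i ≤ X := fun i hi =>
    (Finset.single_le_sum (fun j _ => hx j) hi).trans hX
  have hy1 : ∀ i ∈ S, y i ≤ Y := fun i hi =>
    (Finset.single_le_sum (fun j _ => hy j) hi).trans hY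
  have hX0 : 0 ≤ X := (Finset.sum_nonneg fun i _ => hx i).trans hX
  have hY0 : 0 ≤ Y := (Finset.sum_nonneg fun i _ => hy i).trans hY
  rcases hX0.eq_or_lt with hX' | hX'
  · have : ∀ i ∈ S, (x i * y i) ^ γ = 0 := by
      intro i hi
      have : x i = 0 := le_antisymm (by rw [hX']; exact hx1 i hi) (hx i)
      rw [this, zero_mul, Real.zero_rpow (by linarith)]
    rw [Finset.sum_eq_zero this]
    positivity
  rcases hY0.eq_or_lt with hY' | hY'
  · have : ∀ i ∈ S, (x i * y i) ^ γ = 0 := by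
      intro i hi
      have : y i = 0 := le_antisymm (by rw [hY']; exact hy1 i hi) (hy i)
      rw [this, mul_zero, Real.zero_rpow (by linarith)]
    rw [Finset.sum_eq_zero this]
    positivity
  have hterm : ∀ i ∈ S, (x i * y i) ^ γ ≤
      (X * Y) ^ γ * ((x i / X + y i / Y) / 2) := by
    intro i hi
    have h1 := base_nine hγ (div_nonneg (hx i) hX'.le) (div_nonneg (hy i) hY'.le)
      ((div_le_one hX').2 (hx1 i hi)) ((div_le_one hY').2 (hy1 i hi))
    have h2 : x i * y i = (X * Y) * (x i / X * (y i / Y)) := by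
      field_simp
    rw [h2, Real.mul_rpow (by positivity)
      (mul_nonneg (div_nonneg (hx i) hX'.le) (div_nonneg (hy i) hY'.le))]
    exact mul_le_mul_of_nonneg_left h1 (by positivity)
  refine (Finset.sum_le_sum hterm).trans ?_
  rw [← Finset.mul_sum]
  have h3 : ∑ i ∈ S, (x i / X + y i / Y) / 2 ≤ 1 := by
    rw [← Finset.sum_div, Finset.sum_add_distrib, ← Finset.sum_div, ← Finset.sum_div]
    have h4 : (∑ i ∈ S, x i) / X ≤ 1 := (div_le_one hX').2 hX
    have h5 : (∑ i ∈ S, y i) / Y ≤ 1 := (div_le_one hY').2 hY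
    linarith
  calc (X * Y) ^ γ * ∑ i ∈ S, (x i / X + y i / Y) / 2
      ≤ (X * Y) ^ γ * 1 := mul_le_mul_of_nonneg_left h3 (by positivity)
    _ = _ := mul_one _

private lemma base_class_sum (V : Finset ℕ) (n : ℕ) :
    ∑ s ∈ Finset.range n, ms (V.filter (fun v => Nat.log 2 v = s)) ≤ ms V := by
  classical
  unfold ms
  have h : ∑ s ∈ Finset.range n, ∑ v ∈ V.filter (fun v => Nat.log 2 v = s), (v : ℝ) =
      ∑ v ∈ V.filter (fun v => Nat.log 2 v < n), (v : ℝ) := by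
    rw [← Finset.sum_fiberwise_of_maps_to (s := V.filter (fun v => Nat.log 2 v < n))
      (t := Finset.range n) (g := fun v => Nat.log 2 v)]
    · apply Finset.sum_congr rfl
      intro s hs
      apply Finset.sum_congr _ fun _ _ => rfl
      ext v
      simp only [Finset.mem_filter]
      rw [Finset.mem_range] at hs
      constructor
      · rintro ⟨h1, h2⟩
        exact ⟨⟨h1, by omega⟩, h2⟩
      · rintro ⟨⟨h1, _⟩, h2⟩
        exact ⟨h1, h2⟩
    · intro v hv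
      exact Finset.mem_range.2 (Finset.mem_filter.1 hv).2
  rw [h]
  exact Finset.sum_le_sum_of_subset_of_nonneg (Finset.filter_subset _ _)
    fun v _ _ => Nat.cast_nonneg v

theorem base : BaseG := by
  classical
  intro γ hγ hγ2 V W L hL hV hW
  have hmsV : ∀ U : Finset ℕ, 0 ≤ ms U := fun U => Finset.sum_nonneg fun v _ => Nat.cast_nonneg v
  have hpot : 0 ≤ potG γ L V W := by
    unfold potG
    have := hmsV V
    have := hmsV W
    positivity
  obtain ⟨A, hA⟩ : ∃ A : Finset (ℕ × ℕ), A = (V ×ˢ W).filter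
      (fun t => L / 2 < ((t.1.lcm t.2 : ℕ) : ℝ) ∧
      ((t.1.lcm t.2 : ℕ) : ℝ) ≤ L ∧ (t.1 / t.1.gcd t.2, t.2 / t.1.gcd t.2) ∈ (Set.univ : Set (ℕ × ℕ)) ∧
      ∀ p ∈ (t.1.gcd t.2).primeFactors, p ∈ (∅ : Set ℕ)) := ⟨_, rfl⟩
  have hen : en ∅ V W L Set.univ = ∑ t ∈ A, (t.1 : ℝ) * t.2 := by
    unfold en
    rw [hA]
    apply Finset.sum_congr _ fun _ _ => rfl
    ext t
    simp only [Finset.mem_filter]
  rw [hen]
  -- the elements of `A`
  have hAm : ∀ t ∈ A, t.1 ∈ V ∧ t.2 ∈ W ∧ L / 2 < (t.1 : ℝ) * t.2 ∧ (t.1 : ℝ) * t.2 ≤ L := by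
    intro t ht
    rw [hA, Finset.mem_filter, Finset.mem_product] at ht
    obtain ⟨⟨h1, h2⟩, h3, h4, h5, h6⟩ := ht
    have hg : t.1.gcd t.2 = 1 := by
      have h7 : (t.1.gcd t.2).primeFactors = ∅ := by
        rw [Finset.eq_empty_iff_forall_notMem]
        exact fun p hp => h6 p hp
      rw [Nat.primeFactors_eq_empty] at h7
      rcases h7 with h7 | h7
      · have := hV _ h1
        have := Nat.gcd_pos_of_pos_left t.2 this
        omega
      · exact h7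
    have hlcm : ((t.1.lcm t.2 : ℕ) : ℝ) = (t.1 : ℝ) * t.2 := by
      have h8 := Nat.gcd_mul_lcm t.1 t.2
      rw [hg, one_mul] at h8
      rw [h8]
      push_cast
      ring
    rw [hlcm] at h3 h4
    exact ⟨h1, h2, h3, h4⟩
  rcases hL.eq_or_lt with hL0 | hL0
  · have : A = ∅ := by
      rw [Finset.eq_empty_iff_forall_notMem]
      intro t ht
      obtain ⟨_, _, h3, h4⟩ := hAm t ht
      rw [← hL0] at h3 h4
      linarith
    rw [this, Finset.sum_empty]
    linarith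
  set r0 := Nat.log 2 ⌊L⌋₊ with hr0
  have hlog : ∀ t ∈ A, 2 ^ Nat.log 2 t.1 ≤ t.1 ∧ t.1 < 2 ^ (Nat.log 2 t.1 + 1) ∧
      2 ^ Nat.log 2 t.2 ≤ t.2 ∧ t.2 < 2 ^ (Nat.log 2 t.2 + 1) := by
    intro t ht
    obtain ⟨h1, h2, _⟩ := hAm t ht
    exact ⟨Nat.pow_log_le_self 2 (hV _ h1).ne', Nat.lt_pow_succ_log_self (by norm_num) _,
      Nat.pow_log_le_self 2 (hW _ h2).ne', Nat.lt_pow_succ_log_self (by norm_num) _⟩
  have hmaps : ∀ t ∈ A, Nat.log 2 t.1 + Nat.log 2 t.2 ∈ Finset.Icc (r0 - 2) r0 := by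
    intro t ht
    obtain ⟨h1, h2, h3, h4⟩ := hAm t ht
    obtain ⟨g1, g2, g3, g4⟩ := hlog t ht
    have hfl : t.1 * t.2 ≤ ⌊L⌋₊ := by
      apply Nat.le_floor
      push_cast
      exact h4
    have hpos : 0 < t.1 * t.2 := Nat.mul_pos (hV _ h1) (hW _ h2)
    have hfl0 : ⌊L⌋₊ ≠ 0 := by omega
    have e1 : 2 ^ (Nat.log 2 t.1 + Nat.log 2 t.2) ≤ t.1 * t.2 := by
      rw [pow_add]
      exact Nat.mul_le_mul g1 g3
    have e2 : t.1 * t.2 < 2 ^ (Nat.log 2 t.1 + Nat.log 2 t.2 + 2) := by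
      calc t.1 * t.2 < 2 ^ (Nat.log 2 t.1 + 1) * 2 ^ (Nat.log 2 t.2 + 1) :=
            Nat.mul_lt_mul'' g2 g4
        _ = _ := by rw [← pow_add]; congr 1; ring
    have e3 : 2 ^ r0 ≤ ⌊L⌋₊ := Nat.pow_log_le_self 2 hfl0
    have e4 : ⌊L⌋₊ < 2 ^ (r0 + 1) := Nat.lt_pow_succ_log_self (by norm_num) _
    have e5 : ⌊L⌋₊ < 2 * (t.1 * t.2) := by
      have h5 : (⌊L⌋₊ : ℝ) ≤ L := Nat.floor_le hL
      have h6 : (⌊L⌋₊ : ℝ) < ((2 * (t.1 * t.2) : ℕ) : ℝ) := by
        push_cast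
        linarith
      exact_mod_cast h6
    rw [Finset.mem_Icc]
    constructor
    · have h7 : 2 ^ r0 < 2 ^ (Nat.log 2 t.1 + Nat.log 2 t.2 + 3) := by
        calc 2 ^ r0 ≤ ⌊L⌋₊ := e3
          _ < 2 * (t.1 * t.2) := e5
          _ < 2 * 2 ^ (Nat.log 2 t.1 + Nat.log 2 t.2 + 2) := by omega
          _ = _ := by rw [← pow_succ']
      have := (Nat.pow_lt_pow_iff_right (by norm_num : 1 < 2)).1 h7
      omega
    · have h7 : 2 ^ (Nat.log 2 t.1 + Nat.log 2 t.2) < 2 ^ (r0 + 1) :=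
        lt_of_le_of_lt (e1.trans hfl) e4
      have := (Nat.pow_lt_pow_iff_right (by norm_num : 1 < 2)).1 h7
      omega
  set M : ℕ → ℝ := fun s => ms (V.filter (fun v => Nat.log 2 v = s)) with hM
  set N : ℕ → ℝ := fun s => ms (W.filter (fun v => Nat.log 2 v = s)) with hN
  -- one class
  have hclass : ∀ r s : ℕ, s ≤ r →
      ∑ t ∈ (A.filter (fun t => Nat.log 2 t.1 + Nat.log 2 t.2 = r)).filter
        (fun t => Nat.log 2 t.1 = s), (t.1 : ℝ) * t.2 ≤
      L ^ (2 * (1 - γ)) * (M s * N (r - s)) ^ γ := by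
    intro r s hsr
    set F := (A.filter (fun t => Nat.log 2 t.1 + Nat.log 2 t.2 = r)).filter
        (fun t => Nat.log 2 t.1 = s) with hF
    have hFm : ∀ t ∈ F, t ∈ A ∧ Nat.log 2 t.1 = s ∧ Nat.log 2 t.2 = r - s := by
      intro t ht
      rw [hF, Finset.mem_filter, Finset.mem_filter] at ht
      exact ⟨ht.1.1, ht.2, by omega⟩
    set Sg := ∑ t ∈ F, (t.1 : ℝ) * t.2 with hSg
    have hSg0 : 0 ≤ Sg := Finset.sum_nonneg fun t _ => by positivity
    have b1 : Sg ≤ M s * N (r - s) := by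
      have : M s * N (r - s) = ∑ t ∈ (V.filter (fun v => Nat.log 2 v = s)) ×ˢ
          (W.filter (fun v => Nat.log 2 v = r - s)), (t.1 : ℝ) * t.2 := by
        rw [Finset.sum_product, hM, hN]
        simp only [ms]
        rw [Finset.sum_mul_sum]
      rw [this]
      apply Finset.sum_le_sum_of_subset_of_nonneg
      · intro t ht
        obtain ⟨h1, h2, h3⟩ := hFm t ht
        obtain ⟨h4, h5, _⟩ := hAm t h1
        rw [Finset.mem_product, Finset.mem_filter, Finset.mem_filter]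
        exact ⟨⟨h4, h2⟩, h5, h3⟩
      · intro t _ _
        positivity
    have b2 : Sg ≤ L ^ 2 := by
      rcases F.eq_empty_or_nonempty with hE | ⟨t0, ht0⟩
      · rw [hSg, hE, Finset.sum_empty]
        positivity
      have hle : ∀ t ∈ F, (t.1 : ℝ) * t.2 ≤ L := fun t ht => (hAm t (hFm t ht).1).2.2.2
      have h1 : Sg ≤ F.card * L := by
        have := Finset.sum_le_card_nsmul F (fun t => (t.1 : ℝ) * t.2) L hle
        rwa [nsmul_eq_mul] at this
      have h2 : (F.card : ℝ) ≤ ((2:ℝ) ^ s * 2 ^ (r - s)) := by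
        have h3 : ((box s (r - s)).card : ℝ) = (2:ℝ) ^ s * 2 ^ (r - s) := by
          unfold box
          rw [Finset.card_product, Nat.card_Ico, Nat.card_Ico, pow_succ, pow_succ]
          have e1 : 2 ^ s * 2 - 2 ^ s = 2 ^ s := by omega
          have e2 : 2 ^ (r - s) * 2 - 2 ^ (r - s) = 2 ^ (r - s) := by omega
          rw [e1, e2]
          push_cast
          ring
        rw [← h3]
        have h4 : F ⊆ box s (r - s) := by
          intro t ht
          obtain ⟨h5, h6, h7⟩ := hFm t ht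
          obtain ⟨g1, g2, g3, g4⟩ := hlog t h5
          rw [h6] at g1 g2
          rw [h7] at g3 g4
          unfold box
          rw [Finset.mem_product, Finset.mem_Ico, Finset.mem_Ico]
          exact ⟨⟨g1, g2⟩, g3, g4⟩
        exact_mod_cast Finset.card_le_card h4
      have h3 : (2:ℝ) ^ s * 2 ^ (r - s) ≤ L := by
        obtain ⟨h5, h6, h7⟩ := hFm t0 ht0
        obtain ⟨g1, g2, g3, g4⟩ := hlog t0 h5
        rw [h6] at g1
        rw [h7] at g3
        refine le_trans ?_ (hle t0 ht0)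
        have g1' : (2:ℝ) ^ s ≤ t0.1 := by exact_mod_cast g1
        have g3' : (2:ℝ) ^ (r - s) ≤ t0.2 := by exact_mod_cast g3
        exact mul_le_mul g1' g3' (by positivity) (by positivity)
      calc Sg ≤ F.card * L := h1
        _ ≤ ((2:ℝ) ^ s * 2 ^ (r - s)) * L := mul_le_mul_of_nonneg_right h2 hL
        _ ≤ L * L := mul_le_mul_of_nonneg_right h3 hL
        _ = L ^ 2 := by ring
    have hMN : 0 ≤ M s * N (r - s) := mul_nonneg (hmsV _) (hmsV _)
    calc Sg = Sg ^ γ * Sg ^ (1 - γ) := by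
          rw [← Real.rpow_add_of_nonneg hSg0 (by linarith) (by linarith)]
          norm_num
      _ ≤ (M s * N (r - s)) ^ γ * (L ^ 2) ^ (1 - γ) := by
          apply mul_le_mul
          · exact Real.rpow_le_rpow hSg0 b1 (by linarith)
          · exact Real.rpow_le_rpow hSg0 b2 (by linarith)
          · exact Real.rpow_nonneg hSg0 _
          · exact Real.rpow_nonneg hMN _
      _ = L ^ (2 * (1 - γ)) * (M s * N (r - s)) ^ γ := by
          rw [← Real.rpow_natCast L 2, ← Real.rpow_mul hL]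
          push_cast
          ring
  -- sum over the classes
  have hr : ∀ r : ℕ, ∑ t ∈ A.filter (fun t => Nat.log 2 t.1 + Nat.log 2 t.2 = r),
      (t.1 : ℝ) * t.2 ≤ potG γ L V W := by
    intro r
    rw [← Finset.sum_fiberwise_of_maps_to (t := Finset.range (r + 1))
      (g := fun t : ℕ × ℕ => Nat.log 2 t.1)]
    · calc ∑ s ∈ Finset.range (r + 1), ∑ t ∈ (A.filter (fun t => Nat.log 2 t.1 +
            Nat.log 2 t.2 = r)).filter (fun t => Nat.log 2 t.1 = s), (t.1 : ℝ) * t.2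
          ≤ ∑ s ∈ Finset.range (r + 1),
            L ^ (2 * (1 - γ)) * (M s * N (r - s)) ^ γ := by
            apply Finset.sum_le_sum
            intro s hs
            exact hclass r s (by rw [Finset.mem_range] at hs; omega)
        _ = L ^ (2 * (1 - γ)) *
            ∑ s ∈ Finset.range (r + 1), (M s * N (r - s)) ^ γ := by
            rw [Finset.mul_sum]
        _ ≤ L ^ (2 * (1 - γ)) * (ms V * ms W) ^ γ := by
            apply mul_le_mul_of_nonneg_left _ (by positivity)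
            apply base_sum hγ _ _ _ _ _ (fun i => hmsV _) (fun i => hmsV _)
            · exact base_class_sum V (r + 1)
            · have h8 := Finset.sum_range_reflect N (r + 1)
              have h9 : ∑ s ∈ Finset.range (r + 1), N (r - s) =
                  ∑ s ∈ Finset.range (r + 1), N s := by
                rw [← h8]
                apply Finset.sum_congr rfl
                intro s _
                congr 1
              rw [h9]
              exact base_class_sum W (r + 1)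
        _ = potG γ L V W := rfl
    · intro t ht
      rw [Finset.mem_filter] at ht
      rw [Finset.mem_range]
      omega
  rw [← Finset.sum_fiberwise_of_maps_to hmaps]
  calc ∑ r ∈ Finset.Icc (r0 - 2) r0, ∑ t ∈ A.filter (fun t => Nat.log 2 t.1 +
        Nat.log 2 t.2 = r), (t.1 : ℝ) * t.2
      ≤ ∑ _r ∈ Finset.Icc (r0 - 2) r0, potG γ L V W := Finset.sum_le_sum fun r _ => hr r
    _ = ((Finset.Icc (r0 - 2) r0).card : ℝ) * potG γ L V W := by
        rw [Finset.sum_const, nsmul_eq_mul]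
    _ ≤ 6 * potG γ L V W := by
        apply mul_le_mul_of_nonneg_right _ hpot
        have : (Finset.Icc (r0 - 2) r0).card ≤ 6 := by
          rw [Nat.card_Icc]
          omega
        exact_mod_cast this

end Pool.Agent.MP_0863b8.G

end

section

/-!
MP_0863b8_nt, item G4: the tree inequality for finitely many primes.
-/

set_option autoImplicit false

namespace Pool.Agent.MP_0863b8.G

open MeasureTheory Filter
open F (ms en share lv)

theorem fin_potG_nonneg {γ L : ℝ} (hL : 0 ≤ L) (V W : Finset ℕ) : 0 ≤ potG γ L V W := by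
  have h1 := F.ms_nonneg V
  have h2 := F.ms_nonneg W
  unfold potG
  positivity

/-- G4: finitely many primes -/
theorem fin (h1 : StepG) (h2 : BaseG) : FinG := by
  classical
  intro γ hγ0 hγ1
  obtain ⟨C, c, hC, hc, hstep⟩ := h1 γ hγ0 hγ1
  refine ⟨C, hC, ?_⟩
  intro P
  induction P using Finset.induction_on with
  | empty =>
    intro _ V W L hL hV hW
    have := h2 γ hγ0 hγ1 V W L hL hV hW
    simpa using this
  | insert l P hl ih =>
    intro hP V W L hL hV hW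
    have hlp : l.Prime := hP l (Finset.mem_insert_self _ _)
    have hl0 : (0 : ℝ) < l := by exact_mod_cast hlp.pos
    have ih' := ih (fun p hp => hP p (Finset.mem_insert_of_mem hp))
    have hset : (((insert l P : Finset ℕ) : Set ℕ) \ {l}) = (P : Set ℕ) := by
      ext x
      simp only [Finset.coe_insert, Set.mem_sdiff, Set.mem_insert_iff, Finset.mem_coe,
        Set.mem_singleton_iff]
      constructor
      · rintro ⟨h1 | h1, h2⟩
        · exact absurd h1 h2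
        · exact h1
      · intro h1
        exact ⟨Or.inr h1, fun h2 => hl (h2 ▸ h1)⟩
    obtain ⟨m, hm⟩ := hstep l hlp ((insert l P : Finset ℕ) : Set ℕ) V W L
      (6 * Real.exp (∑ p ∈ P, C / p)) hL (by positivity) hV hW (by
        intro i j
        rw [hset]
        exact ih' (part l i V) (part l j W) _ (by positivity) (part_pos hV) (part_pos hW))
    refine hm.trans ?_
    rw [Finset.sum_insert hl, Real.exp_add]
    have hb := fin_potG_nonneg (γ := γ) hL V W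
    have h3 := F.share_le_one l m V
    have h4 := F.share_le_one l m W
    have h5 : (1 - c * ((1 - share l m V) + (1 - share l m W)) + C / l) ≤
        Real.exp (C / l) := by
      have := Real.add_one_le_exp (C / (l : ℝ))
      have h6 : 0 ≤ c * ((1 - share l m V) + (1 - share l m W)) :=
        mul_nonneg hc.le (by linarith)
      linarith
    calc 6 * Real.exp (∑ p ∈ P, C / p) * potG γ L V W *
        (1 - c * ((1 - share l m V) + (1 - share l m W)) + C / l)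
        ≤ 6 * Real.exp (∑ p ∈ P, C / p) * potG γ L V W * Real.exp (C / l) :=
          mul_le_mul_of_nonneg_left h5 (by positivity)
      _ = _ := by ring

end Pool.Agent.MP_0863b8.G

end

section

/-! The node inequality for a general exponent `γ` in `(1/2, 5/9]`. -/

set_option autoImplicit false

namespace Pool.Agent.MP_0863b8.G

open Finset

private theorem nd_geo_aux (ρ : ℝ) (h0 : 0 ≤ ρ) (h1 : ρ < 1) (s : Finset ℕ) :
    ∑ k ∈ s, ρ ^ (k + 1) ≤ ρ / (1 - ρ) := by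
  have hs : Summable fun k : ℕ => ρ ^ (k + 1) := by
    simp only [pow_succ]
    exact (summable_geometric_of_lt_one h0 h1).mul_right ρ
  refine (hs.sum_le_tsum s (fun i _ => by positivity)).trans (le_of_eq ?_)
  simp only [pow_succ]
  rw [tsum_mul_right, tsum_geometric_of_lt_one h0 h1]
  ring

/-- sum of `ρ ^ |i - j|` over `j ≠ i` -/
private theorem nd_geo (ρ : ℝ) (h0 : 0 ≤ ρ) (h1 : ρ < 1) (i N : ℕ) :
    ∑ j ∈ range N, (if j = i then 0 else ρ ^ Nat.dist i j) ≤ 2 * (ρ / (1 - ρ)) := by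
  have e1 : ∀ j ∈ range N, (if j = i then 0 else ρ ^ Nat.dist i j) =
      (if j < i then ρ ^ (i - j - 1 + 1) else 0) + (if i < j then ρ ^ (j - i - 1 + 1) else 0) := by
    intro j _
    rcases lt_trichotomy j i with h | h | h
    · rw [if_neg h.ne, if_pos h, if_neg (by omega), add_zero]
      congr 1
      unfold Nat.dist
      omega
    · rw [if_pos h, if_neg (by omega), if_neg (by omega), add_zero]
    · rw [if_neg h.ne', if_neg (by omega), if_pos h, zero_add]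
      congr 1
      unfold Nat.dist
      omega
  rw [sum_congr rfl e1, sum_add_distrib, ← sum_filter, ← sum_filter, two_mul]
  refine add_le_add ?_ ?_
  · have hinj : Set.InjOn (fun j => i - j - 1) ((range N).filter fun j => j < i) := by
      intro a ha b hb hab
      simp only [coe_filter, Set.mem_ofPred_eq] at ha hb
      simp only at hab
      omega
    rw [← sum_image (f := fun k => ρ ^ (k + 1)) hinj]
    exact nd_geo_aux ρ h0 h1 _
  · have hinj : Set.InjOn (fun j => j - i - 1) ((range N).filter fun j => i < j) := by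
      intro a ha b hb hab
      simp only [coe_filter, Set.mem_ofPred_eq] at ha hb
      simp only at hab
      omega
    rw [← sum_image (f := fun k => ρ ^ (k + 1)) hinj]
    exact nd_geo_aux ρ h0 h1 _

private theorem nd_dist_cast (i j : ℕ) : |(i : ℝ) - j| = ((Nat.dist i j : ℕ) : ℝ) := by
  rcases le_total i j with h | h
  · rw [Nat.dist_eq_sub_of_le h, Nat.cast_sub h, abs_sub_comm, abs_of_nonneg]
    exact sub_nonneg.2 (by exact_mod_cast h)
  · rw [Nat.dist_eq_sub_of_le_right h, Nat.cast_sub h, abs_of_nonneg]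
    exact sub_nonneg.2 (by exact_mod_cast h)

private theorem nd_bern (w a : ℝ) (hw : 0 ≤ w) (hw1 : w ≤ 1) (ha : a ≤ 1) :
    (1 - a) ^ w ≤ 1 - w * a := by
  have h := Real.geom_mean_le_arith_mean2_weighted (w₁ := w) (w₂ := 1 - w) (p₁ := 1 - a)
    (p₂ := 1) hw (by linarith) (by linarith) zero_le_one (by ring)
  rw [Real.one_rpow, mul_one] at h
  linarith

/-- the off-diagonal terms -/
private theorem nd_pair (γ t a b : ℝ) (hγ : 1/2 ≤ γ) (ht : 0 < t) (ha : 0 ≤ a) (hb : 0 ≤ b)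
    (hb1 : b ≤ 1) (hat : a ≤ t) :
    (a * b) ^ γ ≤ t ^ γ / 2 * (a / t + b) := by
  have h1 : (a * b) ^ γ = t ^ γ * ((a / t) ^ γ * b ^ γ) := by
    rw [← Real.mul_rpow (by positivity) hb, ← Real.mul_rpow ht.le (by positivity)]
    congr 1
    field_simp
  have h2 : (a / t) ^ γ ≤ Real.sqrt (a / t) := by
    rw [Real.sqrt_eq_rpow]
    exact Real.rpow_le_rpow_of_exponent_ge' (by positivity) ((div_le_one ht).2 hat)
      (by norm_num) hγ
  have h3 : b ^ γ ≤ Real.sqrt b := by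
    rw [Real.sqrt_eq_rpow]
    exact Real.rpow_le_rpow_of_exponent_ge' hb hb1 (by norm_num) hγ
  have h4 : Real.sqrt (a / t) * Real.sqrt b ≤ (a / t + b) / 2 := by
    have e1 := Real.sq_sqrt (show 0 ≤ a / t by positivity)
    have e2 := Real.sq_sqrt hb
    nlinarith [sq_nonneg (Real.sqrt (a / t) - Real.sqrt b)]
  rw [h1]
  have h5 : (a / t) ^ γ * b ^ γ ≤ (a / t + b) / 2 :=
    (mul_le_mul h2 h3 (by positivity) (Real.sqrt_nonneg _)).trans h4
  calc t ^ γ * ((a / t) ^ γ * b ^ γ)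
      ≤ t ^ γ * ((a / t + b) / 2) :=
        mul_le_mul_of_nonneg_left h5 (Real.rpow_nonneg ht.le _)
    _ = t ^ γ / 2 * (a / t + b) := by ring

/-- the off-diagonal sum -/
private theorem nd_off (γ ρ : ℝ) (hγ : 1/2 ≤ γ) (h0 : 0 ≤ ρ) (h1 : ρ < 1) (N : ℕ) (x y : ℕ → ℝ)
    (hx : ∀ i, 0 ≤ x i) (hy : ∀ i, 0 ≤ y i) (hX : ∑ i ∈ range N, x i ≤ 1)
    (hY : ∑ i ∈ range N, y i ≤ 1) (m : ℕ) (hm : m < N) (t : ℝ) (ht0 : 0 ≤ t)
    (htx : 1 - x m ≤ t) (hty : 1 - y m ≤ t) :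
    ∑ i ∈ range N, ∑ j ∈ range N,
      (if j = i then 0 else ρ ^ Nat.dist i j * (x i * y j) ^ γ) ≤
      4 * (ρ / (1 - ρ)) * t ^ γ := by
  have hxle : ∀ i ∈ range N, x i ≤ 1 := fun i hi =>
    (single_le_sum (fun j _ => hx j) hi).trans hX
  have hyle : ∀ i ∈ range N, y i ≤ 1 := fun i hi =>
    (single_le_sum (fun j _ => hy j) hi).trans hY
  have hmr : m ∈ range N := mem_range.2 hm
  have hxe : ∑ i ∈ (range N).erase m, x i ≤ t := by
    have := add_sum_erase (range N) x hmr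
    linarith
  have hye : ∑ i ∈ (range N).erase m, y i ≤ t := by
    have := add_sum_erase (range N) y hmr
    linarith
  have hxt : ∀ i ∈ range N, i ≠ m → x i ≤ t := fun i hi him =>
    (single_le_sum (fun j _ => hx j) (mem_erase.2 ⟨him, hi⟩)).trans hxe
  have hyt : ∀ i ∈ range N, i ≠ m → y i ≤ t := fun i hi him =>
    (single_le_sum (fun j _ => hy j) (mem_erase.2 ⟨him, hi⟩)).trans hye
  have hρ : 0 ≤ ρ / (1 - ρ) := div_nonneg h0 (by linarith)
  rcases ht0.eq_or_lt with ht | ht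
  · -- t = 0: everything vanishes
    have hz : ∑ i ∈ range N, ∑ j ∈ range N,
        (if j = i then 0 else ρ ^ Nat.dist i j * (x i * y j) ^ γ) = 0 := by
      refine sum_eq_zero fun i hi => sum_eq_zero fun j hj => ?_
      split_ifs with hij
      · rfl
      · have hxy : x i * y j = 0 := by
          by_cases him : i = m
          · have hjm : j ≠ m := fun h => hij (h.trans him.symm)
            have := hyt j hj hjm
            rw [le_antisymm (this.trans ht.symm.le) (hy j), mul_zero]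
          · have := hxt i hi him
            rw [le_antisymm (this.trans ht.symm.le) (hx i), zero_mul]
        rw [hxy, Real.zero_rpow (by linarith), mul_zero]
    rw [hz]
    have := Real.rpow_nonneg ht0 γ
    positivity
  · let u : ℕ → ℝ := fun i => x i + if i = m then 0 else x i / t
    let v : ℕ → ℝ := fun j => y j + if j = m then 0 else y j / t
    have hu0 : ∀ i, 0 ≤ u i := by
      intro i
      simp only [u]
      split_ifs
      · linarith [hx i]
      · have := hx i; positivity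
    have hv0 : ∀ i, 0 ≤ v i := by
      intro i
      simp only [v]
      split_ifs
      · linarith [hy i]
      · have := hy i; positivity
    have hsumu : ∑ i ∈ range N, u i ≤ 2 := by
      simp only [u]
      rw [sum_add_distrib]
      have : ∑ i ∈ range N, (if i = m then 0 else x i / t) = (∑ i ∈ (range N).erase m, x i) / t := by
        rw [sum_div, ← sum_erase_add _ _ hmr, if_pos rfl, add_zero]
        refine sum_congr rfl fun i hi => ?_
        rw [if_neg (mem_erase.1 hi).1]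
      rw [this]
      have h2 : (∑ i ∈ (range N).erase m, x i) / t ≤ 1 := (div_le_one ht).2 hxe
      linarith
    have hsumv : ∑ i ∈ range N, v i ≤ 2 := by
      simp only [v]
      rw [sum_add_distrib]
      have : ∑ i ∈ range N, (if i = m then 0 else y i / t) = (∑ i ∈ (range N).erase m, y i) / t := by
        rw [sum_div, ← sum_erase_add _ _ hmr, if_pos rfl, add_zero]
        refine sum_congr rfl fun i hi => ?_
        rw [if_neg (mem_erase.1 hi).1]
      rw [this]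
      have h2 : (∑ i ∈ (range N).erase m, y i) / t ≤ 1 := (div_le_one ht).2 hye
      linarith
    set T : ℝ := t ^ γ / 2 with hT
    have hT0 : 0 ≤ T := by rw [hT]; positivity
    have hpt : ∀ i ∈ range N, ∀ j ∈ range N,
        (if j = i then 0 else ρ ^ Nat.dist i j * (x i * y j) ^ γ) ≤
        T * ((if j = i then 0 else ρ ^ Nat.dist i j) * u i +
          (if i = j then 0 else ρ ^ Nat.dist j i) * v j) := by
      intro i hi j hj
      by_cases hij : j = i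
      · rw [if_pos hij, if_pos hij, if_pos hij.symm]
        simp
      · rw [if_neg hij, if_neg hij, if_neg (Ne.symm hij), Nat.dist_comm j i]
        have hp : (x i * y j) ^ γ ≤ T * (u i + v j) := by
          by_cases him : i = m
          · have hjm : j ≠ m := fun h => hij (h.trans him.symm)
            have h3 := nd_pair γ t (y j) (x i) hγ ht (hy j) (hx i) (hxle i hi) (hyt j hj hjm)
            rw [mul_comm (y j)] at h3
            refine h3.trans (mul_le_mul_of_nonneg_left ?_ hT0)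
            simp only [u, v]
            rw [if_pos him, if_neg hjm]
            linarith [hy j]
          · have h3 := nd_pair γ t (x i) (y j) hγ ht (hx i) (hy j) (hyle j hj) (hxt i hi him)
            refine h3.trans (mul_le_mul_of_nonneg_left ?_ hT0)
            have h4 : y j ≤ v j := by
              simp only [v]
              split_ifs
              · linarith
              · have := hy j
                have h5 : 0 ≤ y j / t := by positivity
                linarith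
            simp only [u]
            rw [if_neg him]
            linarith [hx i]
        calc ρ ^ Nat.dist i j * (x i * y j) ^ γ ≤ ρ ^ Nat.dist i j * (T * (u i + v j)) :=
              mul_le_mul_of_nonneg_left hp (pow_nonneg h0 _)
          _ = T * (ρ ^ Nat.dist i j * u i + ρ ^ Nat.dist i j * v j) := by ring
    refine (sum_le_sum fun i hi => sum_le_sum fun j hj => hpt i hi j hj).trans ?_
    have e1 : ∑ i ∈ range N, ∑ j ∈ range N, T * ((if j = i then 0 else ρ ^ Nat.dist i j) * u i +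
          (if i = j then 0 else ρ ^ Nat.dist j i) * v j) =
        T * (∑ i ∈ range N, (∑ j ∈ range N, (if j = i then 0 else ρ ^ Nat.dist i j)) * u i +
          ∑ j ∈ range N, (∑ i ∈ range N, (if i = j then 0 else ρ ^ Nat.dist j i)) * v j) := by
      simp only [← mul_sum]
      congr 1
      simp only [sum_add_distrib]
      congr 1
      · refine sum_congr rfl fun i _ => ?_
        rw [sum_mul]
      · rw [sum_comm]
        refine sum_congr rfl fun i _ => ?_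
        rw [sum_mul]
    rw [e1]
    have h5 : ∑ i ∈ range N, (∑ j ∈ range N, (if j = i then 0 else ρ ^ Nat.dist i j)) * u i ≤
        2 * (ρ / (1 - ρ)) * 2 := by
      calc _ ≤ ∑ i ∈ range N, 2 * (ρ / (1 - ρ)) * u i :=
            sum_le_sum fun i _ => mul_le_mul_of_nonneg_right (nd_geo ρ h0 h1 i N) (hu0 i)
        _ = 2 * (ρ / (1 - ρ)) * ∑ i ∈ range N, u i := by rw [mul_sum]
        _ ≤ _ := mul_le_mul_of_nonneg_left hsumu (by positivity)
    have h6 : ∑ j ∈ range N, (∑ i ∈ range N, (if i = j then 0 else ρ ^ Nat.dist j i)) * v j ≤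
        2 * (ρ / (1 - ρ)) * 2 := by
      calc _ ≤ ∑ i ∈ range N, 2 * (ρ / (1 - ρ)) * v i :=
            sum_le_sum fun i _ => mul_le_mul_of_nonneg_right (nd_geo ρ h0 h1 i N) (hv0 i)
        _ = 2 * (ρ / (1 - ρ)) * ∑ i ∈ range N, v i := by rw [mul_sum]
        _ ≤ _ := mul_le_mul_of_nonneg_left hsumv (by positivity)
    calc T * _ ≤ T * (2 * (ρ / (1 - ρ)) * 2 + 2 * (ρ / (1 - ρ)) * 2) :=
          mul_le_mul_of_nonneg_left (add_le_add h5 h6) hT0
      _ = 4 * (ρ / (1 - ρ)) * t ^ γ := by rw [hT]; ring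

/-- the diagonal sum -/
private theorem nd_diag (γ : ℝ) (hγ : 1/2 ≤ γ) (N : ℕ) (x y : ℕ → ℝ)
    (hx : ∀ i, 0 ≤ x i) (hy : ∀ i, 0 ≤ y i) (hX : ∑ i ∈ range N, x i ≤ 1)
    (hY : ∑ i ∈ range N, y i ≤ 1) (m : ℕ) (hmax : ∀ i ∈ range N, x i * y i ≤ x m * y m) :
    ∑ i ∈ range N, (x i * y i) ^ γ ≤ ((x m + y m) / 2) ^ (2 * γ - 1) := by
  have h1 : ∀ i ∈ range N, (x i * y i) ^ γ ≤
      ((x m + y m) / 2) ^ (2 * γ - 1) * (Real.sqrt (x i) * Real.sqrt (y i)) := by
    intro i hi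
    have hxy : 0 ≤ x i * y i := mul_nonneg (hx i) (hy i)
    have e1 : (x i * y i) ^ γ = (x i * y i) ^ (γ - 1/2) * Real.sqrt (x i * y i) := by
      rw [Real.sqrt_eq_rpow, ← Real.rpow_add_of_nonneg hxy (by linarith) (by norm_num)]
      congr 1
      ring
    have e2 : (x i * y i) ^ (γ - 1/2) ≤ ((x m + y m) / 2) ^ (2 * γ - 1) := by
      have e3 : (x i * y i) ^ (γ - 1/2) ≤ (((x m + y m) / 2) ^ 2) ^ (γ - 1/2) := by
        refine Real.rpow_le_rpow hxy ((hmax i hi).trans ?_) (by linarith)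
        nlinarith [sq_nonneg (x m - y m)]
      refine e3.trans (le_of_eq ?_)
      have h2 : 0 ≤ (x m + y m) / 2 := by linarith [hx m, hy m]
      rw [← Real.rpow_natCast, ← Real.rpow_mul h2]
      congr 1
      push_cast
      ring
    rw [e1, Real.sqrt_mul (hx i)]
    exact mul_le_mul_of_nonneg_right e2 (by positivity)
  refine (sum_le_sum h1).trans ?_
  rw [← mul_sum]
  have h2 := Real.sum_sqrt_mul_sqrt_le (range N) hx hy
  have h3 : Real.sqrt (∑ i ∈ range N, x i) * Real.sqrt (∑ i ∈ range N, y i) ≤ 1 := by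
    have a1 : Real.sqrt (∑ i ∈ range N, x i) ≤ 1 := Real.sqrt_le_one.2 hX
    have a2 : Real.sqrt (∑ i ∈ range N, y i) ≤ 1 := Real.sqrt_le_one.2 hY
    exact mul_le_one₀ a1 (Real.sqrt_nonneg _) a2
  have h4 : 0 ≤ ((x m + y m) / 2) ^ (2 * γ - 1) :=
    Real.rpow_nonneg (by linarith [hx m, hy m]) _
  calc _ ≤ ((x m + y m) / 2) ^ (2 * γ - 1) * 1 :=
        mul_le_mul_of_nonneg_left (h2.trans h3) h4
    _ = _ := mul_one _

/-- final numerical estimate -/
private theorem nd_final (γ s K l A : ℝ) (hγ : 1/2 < γ) (hγ1 : γ ≤ 5/9) (hs0 : 0 ≤ s)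
    (hs1 : s ≤ 1) (hK : 0 ≤ K) (hl : 0 < l) (hA : A = 2 * γ / (2 * γ - 1)) :
    (1 - s) ^ (2 * γ - 1) + K * l ^ (-(1 - γ)) * s ^ γ ≤
    1 - (2 * γ - 1) / 2 * s + ((1 - γ) * (K ^ (1 / (1 - γ)) * A ^ (γ / (1 - γ)))) / l := by
  have hg1 : 0 < 1 - γ := by linarith
  have hg2 : 0 < 2 * γ - 1 := by linarith
  have hg0 : 0 < γ := by linarith
  have hA0 : 0 < A := by rw [hA]; positivity
  have h2 := nd_bern (2 * γ - 1) s hg2.le (by linarith) hs1
  have h4 := Real.geom_mean_le_arith_mean2_weighted (w₁ := γ) (w₂ := 1 - γ)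
    (p₁ := s / A) (p₂ := K ^ (1 / (1 - γ)) * A ^ (γ / (1 - γ)) / l) hg0.le
    hg1.le (by positivity) (by positivity) (by ring)
  have h5 : (s / A) ^ γ * (K ^ (1 / (1 - γ)) * A ^ (γ / (1 - γ)) / l) ^ (1 - γ) =
      K * l ^ (-(1 - γ)) * s ^ γ := by
    rw [Real.div_rpow hs0 hA0.le, Real.div_rpow (by positivity) hl.le,
      Real.mul_rpow (by positivity) (by positivity), ← Real.rpow_mul hK,
      ← Real.rpow_mul hA0.le]
    have a1 : 1 / (1 - γ) * (1 - γ) = 1 := by field_simp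
    have a2 : γ / (1 - γ) * (1 - γ) = γ := by field_simp
    rw [a1, a2, Real.rpow_one, Real.rpow_neg hl.le]
    have b1 : A ^ γ ≠ 0 := by positivity
    field_simp
  have h6 : γ * (s / A) = (2 * γ - 1) / 2 * s := by
    rw [hA]
    field_simp
  rw [h5, h6] at h4
  have h7 : (1 - γ) * (K ^ (1 / (1 - γ)) * A ^ (γ / (1 - γ)) / l) =
      ((1 - γ) * (K ^ (1 / (1 - γ)) * A ^ (γ / (1 - γ)))) / l := by ring
  rw [h7] at h4
  nlinarith

theorem node : NodeG := by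
  intro γ hγ hγ1
  have hg1 : 0 < 1 - γ := by linarith
  have hg2 : 0 < 2 * γ - 1 := by linarith
  have hg0 : 0 < γ := by linarith
  set ρ0 : ℝ := (2:ℝ) ^ (-(4/9) : ℝ) with hρ0
  have hρ01 : ρ0 < 1 := Real.rpow_lt_one_of_one_lt_of_neg (by norm_num) (by norm_num)
  have hρ00 : 0 < ρ0 := by rw [hρ0]; positivity
  set K : ℝ := 4 / (1 - ρ0) * 2 ^ γ with hK
  have hK0 : 0 < K := by
    rw [hK]
    have : 0 < 1 - ρ0 := by linarith
    positivity
  have hA0 : 0 < 2 * γ / (2 * γ - 1) := by positivity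
  refine ⟨(1 - γ) * (K ^ (1 / (1 - γ)) * (2 * γ / (2 * γ - 1)) ^ (γ / (1 - γ))),
    (2 * γ - 1) / 4, by positivity, by positivity, ?_⟩
  intro l hl N hN x y hx hy hX hY
  have hl0 : 0 < l := by linarith
  set ρ : ℝ := l ^ (-(1 - γ)) with hρ
  have hρpos : 0 < ρ := by rw [hρ]; positivity
  have hρle : ρ ≤ ρ0 := by
    rw [hρ, hρ0]
    calc l ^ (-(1 - γ)) ≤ (2:ℝ) ^ (-(1 - γ)) :=
          Real.rpow_le_rpow_of_nonpos (by norm_num) hl (by linarith)
      _ ≤ _ := Real.rpow_le_rpow_of_exponent_le (by norm_num) (by linarith)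
  have hρ1 : ρ < 1 := hρle.trans_lt hρ01
  obtain ⟨m, hm, hmax⟩ := exists_max_image (range N) (fun i => x i * y i) ⟨0, mem_range.2 hN⟩
  have hmN : m < N := mem_range.1 hm
  refine ⟨m, hmN, ?_⟩
  have hxm : x m ≤ 1 := (single_le_sum (fun j _ => hx j) hm).trans hX
  have hym : y m ≤ 1 := (single_le_sum (fun j _ => hy j) hm).trans hY
  set s : ℝ := ((1 - x m) + (1 - y m)) / 2 with hs
  have hs0 : 0 ≤ s := by rw [hs]; linarith
  have hs1 : s ≤ 1 := by rw [hs]; linarith [hx m, hy m]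
  -- pointwise comparison
  have hw : ∀ i j : ℕ, l ^ (-((1 - γ) * |(i:ℝ) - j|)) = ρ ^ Nat.dist i j := by
    intro i j
    rw [nd_dist_cast, hρ, ← Real.rpow_natCast, ← Real.rpow_mul hl0.le]
    congr 1
    ring
  have hpt : ∀ i ∈ range N, ∀ j ∈ range N,
      l ^ (-((1 - γ) * |(i:ℝ) - j|)) * (x i * y j) ^ γ ≤
      (if j = i then (x i * y i) ^ γ else 0) +
      (if j = i then 0 else ρ ^ Nat.dist i j * (x i * y j) ^ γ) := by
    intro i hi j hj
    rw [hw]
    by_cases hij : j = i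
    · subst hij
      rw [if_pos rfl, if_pos rfl, Nat.dist_self]
      simp
    · rw [if_neg hij, if_neg hij, zero_add]
  refine (sum_le_sum fun i hi => sum_le_sum fun j hj => hpt i hi j hj).trans ?_
  simp only [sum_add_distrib]
  have e1 : ∑ i ∈ range N, ∑ j ∈ range N,
      (if j = i then (x i * y i) ^ γ else 0) =
      ∑ i ∈ range N, (x i * y i) ^ γ := by
    refine sum_congr rfl fun i hi => ?_
    rw [sum_ite_eq' (range N) i (fun _ => (x i * y i) ^ γ), if_pos hi]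
  rw [e1]
  have hdiag := nd_diag γ hγ.le N x y hx hy hX hY m hmax
  have hoff := nd_off γ ρ hγ.le hρpos.le hρ1 N x y hx hy hX hY m hmN (2 * s) (by linarith)
    (by rw [hs]; linarith) (by rw [hs]; linarith)
  have e2 : (x m + y m) / 2 = 1 - s := by rw [hs]; ring
  rw [e2] at hdiag
  have h2 : 4 * (ρ / (1 - ρ)) * (2 * s) ^ γ ≤ K * ρ * s ^ γ := by
    rw [Real.mul_rpow (by norm_num) hs0, hK]
    have a1 : ρ / (1 - ρ) ≤ ρ / (1 - ρ0) :=
      div_le_div_of_nonneg_left hρpos.le (by linarith) (by linarith)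
    have a2 : 0 ≤ (2:ℝ) ^ γ * s ^ γ := by positivity
    calc 4 * (ρ / (1 - ρ)) * ((2:ℝ) ^ γ * s ^ γ)
        ≤ 4 * (ρ / (1 - ρ0)) * ((2:ℝ) ^ γ * s ^ γ) :=
          mul_le_mul_of_nonneg_right (by linarith) a2
      _ = 4 / (1 - ρ0) * 2 ^ γ * ρ * s ^ γ := by ring
  have hfin := nd_final γ s K l (2 * γ / (2 * γ - 1)) hγ hγ1 hs0 hs1 hK0.le hl0 rfl
  rw [← hρ] at hfin
  have e3 : (2 * γ - 1) / 4 * ((1 - x m) + (1 - y m)) = (2 * γ - 1) / 2 * s := by rw [hs]; ring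
  rw [e3]
  have h6 := hoff.trans h2
  linarith

end Pool.Agent.MP_0863b8.G

end

section

/-!
MP_0863b8_nt, extra divergence theorem, item G2: the step lemma.
-/

set_option autoImplicit false

namespace Pool.Agent.MP_0863b8.G

open F (ms en share)
open F.StepAux (ms_nonneg ms_pos ms_part sum_share_le)

private theorem st_expo (l : ℝ) (hl : 0 < l) (γ : ℝ) (i j : ℕ) :
    l ^ (i + j) * (((l ^ (max i j))⁻¹) ^ (2 * (1 - γ)) *
      ((l ^ i)⁻¹ * (l ^ j)⁻¹) ^ γ) =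
    l ^ (-((1 - γ) * |(i:ℝ) - j|)) := by
  have e1 : l ^ (i + j) = l ^ (((i:ℝ) + j)) := by
    rw [← Real.rpow_natCast]; push_cast; rfl
  have e3 : ((l ^ (max i j))⁻¹) ^ (2 * (1 - γ)) =
      l ^ (-(((max i j : ℕ) : ℝ) * (2 * (1 - γ)))) := by
    rw [← Real.rpow_natCast, ← Real.rpow_neg hl.le, ← Real.rpow_mul hl.le]
    congr 1
    ring
  have e4 : ((l ^ i)⁻¹ * (l ^ j)⁻¹) ^ γ = l ^ (-(((i:ℝ) + j) * γ)) := by
    rw [← mul_inv, ← pow_add, ← Real.rpow_natCast, ← Real.rpow_neg hl.le, ← Real.rpow_mul hl.le]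
    congr 1
    push_cast
    ring
  rw [e1, e3, e4, ← Real.rpow_add hl, ← Real.rpow_add hl]
  congr 1
  rcases le_total i j with h | h
  · have h' : (i:ℝ) ≤ j := by exact_mod_cast h
    rw [abs_of_nonpos (by linarith), max_eq_right h]
    ring
  · have h' : (j:ℝ) ≤ i := by exact_mod_cast h
    rw [abs_of_nonneg (by linarith), max_eq_left h]
    ring

private theorem st_piece (l i j : ℕ) (hl : l.Prime) (γ L D : ℝ) (hL : 0 ≤ L)
    (V W : Finset ℕ) (hV : 0 < ms V) (hW : 0 < ms W) :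
    (l:ℝ) ^ (i + j) * (D * potG γ (L / (l:ℝ) ^ (max i j)) (part l i V) (part l j W)) =
      D * potG γ L V W * ((l:ℝ) ^ (-((1 - γ) * |(i:ℝ) - j|)) *
        (share l i V * share l j W) ^ γ) := by
  have hl0 : (0:ℝ) < l := by exact_mod_cast hl.pos
  rw [← st_expo (l:ℝ) hl0 γ i j]
  have hx : 0 ≤ share l i V := div_nonneg (ms_nonneg _) hV.le
  have hy : 0 ≤ share l j W := div_nonneg (ms_nonneg _) hW.le
  have eV : ms (part l i V) = ms V * share l i V * ((l:ℝ) ^ i)⁻¹ := by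
    rw [ms_part l i hl V, share]
    field_simp
  have eW : ms (part l j W) = ms W * share l j W * ((l:ℝ) ^ j)⁻¹ := by
    rw [ms_part l j hl W, share]
    field_simp
  have e2 : (L / (l:ℝ) ^ (max i j)) ^ (2 * (1 - γ)) =
      L ^ (2 * (1 - γ)) * (((l:ℝ) ^ (max i j))⁻¹) ^ (2 * (1 - γ)) := by
    rw [div_eq_mul_inv]
    exact Real.mul_rpow hL (by positivity)
  have e3 : (ms (part l i V) * ms (part l j W)) ^ γ =
      (ms V * ms W) ^ γ * (share l i V * share l j W) ^ γ *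
        (((l:ℝ) ^ i)⁻¹ * ((l:ℝ) ^ j)⁻¹) ^ γ := by
    rw [← Real.mul_rpow (by positivity) (by positivity), ← Real.mul_rpow (by positivity)
      (by positivity), eV, eW]
    congr 1
    ring
  unfold potG
  rw [e2, e3]
  ring

private theorem st_qp (l i j : ℕ) : F.qp l i j Set.univ = Set.univ := by
  ext t
  simp [F.qp]

theorem step (h : NodeG) : StepG := by
  classical
  intro γ hγ hγ1
  obtain ⟨C, c, hC, hc, hnode⟩ := h γ hγ hγ1
  refine ⟨C, c, hC, hc, ?_⟩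
  intro l hl P V W L D hL hD hV hW hen
  have hγ0 : γ ≠ 0 := by linarith
  by_cases hVe : V = ∅
  · refine ⟨0, ?_⟩
    subst hVe
    simp [en, potG, ms, hγ0]
  by_cases hWe : W = ∅
  · refine ⟨0, ?_⟩
    subst hWe
    simp [en, potG, ms, hγ0]
  have hVn : V.Nonempty := Finset.nonempty_iff_ne_empty.mpr hVe
  have hWn : W.Nonempty := Finset.nonempty_iff_ne_empty.mpr hWe
  have hVc : 0 < ms V := ms_pos hVn hV
  have hWc : 0 < ms W := ms_pos hWn hW
  have hl2 : 2 ≤ l := hl.two_le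
  have hl0 : (0:ℝ) < l := by exact_mod_cast hl.pos
  set N : ℕ := (V ∪ W).sup (fun v => v.factorization l) + 1 with hN
  have hVN : ∀ v ∈ V, 0 < v ∧ v.factorization l < N := by
    intro v hv
    refine ⟨hV v hv, ?_⟩
    have := Finset.le_sup (f := fun v : ℕ => v.factorization l)
      (Finset.mem_union_left W hv)
    omega
  have hWN : ∀ w ∈ W, 0 < w ∧ w.factorization l < N := by
    intro v hv
    refine ⟨hW v hv, ?_⟩
    have := Finset.le_sup (f := fun v : ℕ => v.factorization l)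
      (Finset.mem_union_right V hv)
    omega
  have hsplit := F.split l hl P V W L Set.univ N hVN hWN
  obtain ⟨m, hmN, hm⟩ := hnode (l:ℝ) (by exact_mod_cast hl2) N (by omega)
    (fun i => share l i V) (fun j => share l j W)
    (fun i => div_nonneg (ms_nonneg _) hVc.le) (fun i => div_nonneg (ms_nonneg _) hWc.le)
    (sum_share_le l N V hVc) (sum_share_le l N W hWc)
  refine ⟨m, ?_⟩
  have hbn : 0 ≤ D * potG γ L V W := by
    unfold potG
    positivity
  calc en P V W L Set.univ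
      ≤ ∑ i ∈ Finset.range N, ∑ j ∈ Finset.range N, (l:ℝ) ^ (i + j) *
        en (P \ {l}) (part l i V) (part l j W) (L / (l:ℝ) ^ (max i j))
          (F.qp l i j Set.univ) := hsplit
    _ ≤ ∑ i ∈ Finset.range N, ∑ j ∈ Finset.range N,
        D * potG γ L V W * ((l:ℝ) ^ (-((1 - γ) * |(i:ℝ) - j|)) *
        (share l i V * share l j W) ^ γ) := by
        refine Finset.sum_le_sum (fun i _ => Finset.sum_le_sum (fun j _ => ?_))
        rw [← st_piece l i j hl γ L D hL V W hVc hWc, st_qp]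
        exact mul_le_mul_of_nonneg_left (hen i j) (by positivity)
    _ = D * potG γ L V W * ∑ i ∈ Finset.range N, ∑ j ∈ Finset.range N,
        ((l:ℝ) ^ (-((1 - γ) * |(i:ℝ) - j|)) *
        (share l i V * share l j W) ^ γ) := by
        rw [Finset.mul_sum]
        refine Finset.sum_congr rfl (fun i _ => ?_)
        rw [Finset.mul_sum]
    _ ≤ _ := mul_le_mul_of_nonneg_left hm hbn

end Pool.Agent.MP_0863b8.G

end

section

/-! The tree inequality, with masses and a general exponent. -/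

set_option autoImplicit false

namespace Pool.Agent.MP_0863b8.G

open Finset
open F (ms en share)

private theorem tf_injOn (l i : ℕ) (V : Finset ℕ) :
    Set.InjOn (fun v => v / l ^ i) (V.filter (fun v => v.factorization l = i)) := by
  intro a ha b hb hab
  rw [mem_coe, mem_filter] at ha hb
  simp only at hab
  have h1 : l ^ i ∣ a := by
    have := Nat.ordProj_dvd a l
    rwa [ha.2] at this
  have h2 : l ^ i ∣ b := by
    have := Nat.ordProj_dvd b l
    rwa [hb.2] at this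
  rw [← Nat.div_mul_cancel h1, hab, Nat.div_mul_cancel h2]

private theorem tf_sum_part (l i : ℕ) (V : Finset ℕ) :
    ∑ u ∈ part l i V, u = ∑ v ∈ V.filter (fun v => v.factorization l = i), v / l ^ i := by
  unfold part
  exact sum_image (f := fun u => u) (tf_injOn l i V)

private theorem tf_sum_part_le (l i : ℕ) (V : Finset ℕ) : ∑ u ∈ part l i V, u ≤ ∑ v ∈ V, v := by
  rw [tf_sum_part]
  calc ∑ v ∈ V.filter (fun v => v.factorization l = i), v / l ^ i
      ≤ ∑ v ∈ V.filter (fun v => v.factorization l = i), v :=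
        sum_le_sum fun v _ => Nat.div_le_self _ _
    _ ≤ ∑ v ∈ V, v := sum_le_sum_of_subset (filter_subset _ _)

private theorem tf_sum_pos (V : Finset ℕ) (hne : V.Nonempty) (hpos : ∀ v ∈ V, 0 < v) :
    0 < ∑ v ∈ V, v := sum_pos hpos hne

private theorem tf_sum_part_lt (l i : ℕ) (hl : l.Prime) (hi : 1 ≤ i) (V : Finset ℕ)
    (hne : V.Nonempty) (hpos : ∀ v ∈ V, 0 < v) : ∑ u ∈ part l i V, u < ∑ v ∈ V, v := by
  have h0 := tf_sum_pos V hne hpos
  have h1 : 2 * ∑ u ∈ part l i V, u ≤ ∑ v ∈ V, v := by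
    rw [tf_sum_part, mul_sum]
    calc ∑ v ∈ V.filter (fun v => v.factorization l = i), 2 * (v / l ^ i)
        ≤ ∑ v ∈ V.filter (fun v => v.factorization l = i), v := by
          refine sum_le_sum fun v _ => ?_
          have h2 : 2 ≤ l ^ i := by
            calc 2 ≤ l := hl.two_le
              _ = l ^ 1 := (pow_one l).symm
              _ ≤ l ^ i := Nat.pow_le_pow_right hl.pos hi
          calc 2 * (v / l ^ i) ≤ l ^ i * (v / l ^ i) := Nat.mul_le_mul_right _ h2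
            _ ≤ v := Nat.mul_div_le v _
      _ ≤ ∑ v ∈ V, v := sum_le_sum_of_subset (filter_subset _ _)
  omega

private theorem tf_sum_part_zero_lt (l : ℕ) (hl : l.Prime) (V : Finset ℕ)
    (hpos : ∀ v ∈ V, 0 < v) (v0 : ℕ) (hv0 : v0 ∈ V) (hd : l ∣ v0) :
    ∑ u ∈ part l 0 V, u < ∑ v ∈ V, v := by
  rw [tf_sum_part]
  calc ∑ v ∈ V.filter (fun v => v.factorization l = 0), v / l ^ 0
      = ∑ v ∈ V.filter (fun v => v.factorization l = 0), v := by simp
    _ < ∑ v ∈ V, v := by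
        refine sum_lt_sum_of_subset (filter_subset _ _) hv0 ?_ (hpos v0 hv0)
          (fun _ _ _ => Nat.zero_le _)
        rw [mem_filter]
        rintro ⟨_, h⟩
        have h2 := (hl.dvd_iff_one_le_factorization (hpos v0 hv0).ne').1 hd
        omega

private theorem tf_rps_mono (u v : ℕ) (h : u ∣ v) (hv : 0 < v) : rp u ≤ rp v := by
  unfold rp
  refine sum_le_sum_of_subset_of_nonneg ?_ (fun p _ _ => by positivity)
  exact Nat.primeFactors_mono h hv.ne'

private theorem tf_part_pos (l i : ℕ) (V : Finset ℕ) (C1 : ℝ)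
    (hV : ∀ v ∈ V, 0 < v ∧ rp v ≤ C1) : ∀ u ∈ part l i V, 0 < u ∧ rp u ≤ C1 := by
  intro u hu
  unfold part at hu
  rw [mem_image] at hu
  obtain ⟨v, hv, rfl⟩ := hu
  rw [mem_filter] at hv
  have hd : l ^ i ∣ v := by
    have := Nat.ordProj_dvd v l
    rwa [hv.2] at this
  have hv0 := (hV v hv.1).1
  have hpos : 0 < v / l ^ i := Nat.div_pos (Nat.le_of_dvd hv0 hd) (Nat.pos_of_dvd_of_pos hd hv0)
  refine ⟨hpos, le_trans ?_ (hV v hv.1).2⟩
  exact tf_rps_mono _ _ (Nat.div_dvd_of_dvd hd) hv0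

open Classical in
/-- the set over which `en` sums -/
private noncomputable def tf_set (P : Set ℕ) (V W : Finset ℕ) (L : ℝ) (Q : Set (ℕ × ℕ)) :
    Finset (ℕ × ℕ) :=
  (V ×ˢ W).filter (fun t => L / 2 < ((t.1.lcm t.2 : ℕ) : ℝ) ∧
      ((t.1.lcm t.2 : ℕ) : ℝ) ≤ L ∧ (t.1 / t.1.gcd t.2, t.2 / t.1.gcd t.2) ∈ Q ∧
      ∀ p ∈ (t.1.gcd t.2).primeFactors, p ∈ P)

private theorem tf_en_eq (P : Set ℕ) (V W : Finset ℕ) (L : ℝ) (Q : Set (ℕ × ℕ)) :
    en P V W L Q = ∑ t ∈ tf_set P V W L Q, (t.1 : ℝ) * t.2 := rfl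

private theorem tf_mem (P : Set ℕ) (V W : Finset ℕ) (L : ℝ) (Q : Set (ℕ × ℕ)) (t : ℕ × ℕ) :
    t ∈ tf_set P V W L Q ↔ (t.1 ∈ V ∧ t.2 ∈ W) ∧ L / 2 < ((t.1.lcm t.2 : ℕ) : ℝ) ∧
      ((t.1.lcm t.2 : ℕ) : ℝ) ≤ L ∧ (t.1 / t.1.gcd t.2, t.2 / t.1.gcd t.2) ∈ Q ∧
      ∀ p ∈ (t.1.gcd t.2).primeFactors, p ∈ P := by
  classical
  unfold tf_set
  rw [mem_filter, mem_product]

private theorem tf_en_mono (P P' : Set ℕ) (h : P ⊆ P') (V W : Finset ℕ) (L : ℝ)
    (Q : Set (ℕ × ℕ)) : en P V W L Q ≤ en P' V W L Q := by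
  rw [tf_en_eq, tf_en_eq]
  refine sum_le_sum_of_subset_of_nonneg (fun t ht => ?_) (fun _ _ _ => by positivity)
  rw [tf_mem] at ht ⊢
  exact ⟨ht.1, ht.2.1, ht.2.2.1, ht.2.2.2.1, fun p hp => h (ht.2.2.2.2 p hp)⟩

private theorem tf_sum_biUnion_le (R : Finset ℕ) (S : ℕ → Finset (ℕ × ℕ)) (f : ℕ × ℕ → ℝ)
    (hf : ∀ a, 0 ≤ f a) : ∑ a ∈ R.biUnion S, f a ≤ ∑ i ∈ R, ∑ a ∈ S i, f a := by
  classical
  induction R using Finset.induction_on with
  | empty => simp
  | insert p R hp ih =>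
    rw [biUnion_insert, sum_insert hp]
    have h1 := sum_union_inter (s₁ := S p) (s₂ := R.biUnion S) (f := f)
    have h2 : 0 ≤ ∑ a ∈ S p ∩ R.biUnion S, f a := sum_nonneg fun _ _ => hf _
    linarith

private theorem tf_en_split (P : Set ℕ) (R : Finset ℕ) (V W : Finset ℕ) (L : ℝ)
    (Q : Set (ℕ × ℕ))
    (hpos : ∀ v ∈ V, 0 < v) (hR : ∀ v ∈ V, ∀ p ∈ v.primeFactors, p ∈ P ∨ p ∈ R) :
    en Set.univ V W L Q ≤ en P V W L Q +
      ∑ p ∈ R, en Set.univ (V.filter (fun v => p ∣ v)) (W.filter (fun w => p ∣ w)) L Q := by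
  classical
  have hsub : tf_set Set.univ V W L Q ⊆ tf_set P V W L Q ∪ R.biUnion (fun p =>
      tf_set Set.univ (V.filter (fun v => p ∣ v)) (W.filter (fun w => p ∣ w)) L Q) := by
    intro t ht
    rw [tf_mem] at ht
    obtain ⟨⟨h1, h2⟩, ha, hb, h3, h4⟩ := ht
    rw [mem_union]
    by_cases hP : ∀ p ∈ (t.1.gcd t.2).primeFactors, p ∈ P
    · left
      rw [tf_mem]
      exact ⟨⟨h1, h2⟩, ha, hb, h3, hP⟩
    · right
      push Not at hP
      obtain ⟨p, hp, hpP⟩ := hP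
      have hpp := Nat.prime_of_mem_primeFactors hp
      have hpd := Nat.dvd_of_mem_primeFactors hp
      have hd1 : p ∣ t.1 := hpd.trans (Nat.gcd_dvd_left _ _)
      have hd2 : p ∣ t.2 := hpd.trans (Nat.gcd_dvd_right _ _)
      have hmem : p ∈ t.1.primeFactors := by
        rw [Nat.mem_primeFactors]
        exact ⟨hpp, hd1, (hpos _ h1).ne'⟩
      have hpR : p ∈ R := (hR _ h1 p hmem).resolve_left hpP
      rw [mem_biUnion]
      refine ⟨p, hpR, ?_⟩
      rw [tf_mem, mem_filter, mem_filter]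
      exact ⟨⟨⟨h1, hd1⟩, ⟨h2, hd2⟩⟩, ha, hb, h3, h4⟩
  have hnn : ∀ t : ℕ × ℕ, 0 ≤ (t.1 : ℝ) * t.2 := fun t => by positivity
  rw [tf_en_eq, tf_en_eq]
  refine (sum_le_sum_of_subset_of_nonneg hsub (fun _ _ _ => hnn _)).trans ?_
  have h1 := sum_union_inter (s₁ := tf_set P V W L Q) (s₂ := R.biUnion (fun p =>
      tf_set Set.univ (V.filter (fun v => p ∣ v)) (W.filter (fun w => p ∣ w)) L Q))
      (f := fun t : ℕ × ℕ => (t.1 : ℝ) * t.2)
  have h2 : 0 ≤ ∑ t ∈ tf_set P V W L Q ∩ R.biUnion (fun p =>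
      tf_set Set.univ (V.filter (fun v => p ∣ v)) (W.filter (fun w => p ∣ w)) L Q),
      (t.1 : ℝ) * t.2 := sum_nonneg fun _ _ => hnn _
  have h3 := tf_sum_biUnion_le R (fun p =>
      tf_set Set.univ (V.filter (fun v => p ∣ v)) (W.filter (fun w => p ∣ w)) L Q)
      (fun t : ℕ × ℕ => (t.1 : ℝ) * t.2) hnn
  have h4 : ∑ p ∈ R, ∑ t ∈ tf_set Set.univ (V.filter (fun v => p ∣ v))
      (W.filter (fun w => p ∣ w)) L Q, (t.1 : ℝ) * t.2 =
      ∑ p ∈ R, en Set.univ (V.filter (fun v => p ∣ v)) (W.filter (fun w => p ∣ w)) L Q := rfl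
  linarith

private theorem tf_ms_nonneg (V : Finset ℕ) : 0 ≤ ms V := sum_nonneg fun _ _ => Nat.cast_nonneg _

private theorem tf_ms_cast (V : Finset ℕ) : ms V = ((∑ v ∈ V, v : ℕ) : ℝ) := by
  unfold ms
  push_cast
  rfl

private theorem tf_ms_mono (V V' : Finset ℕ) (h : V' ⊆ V) : ms V' ≤ ms V :=
  sum_le_sum_of_subset_of_nonneg h (fun _ _ _ => Nat.cast_nonneg _)

private theorem tf_pot_nonneg (γ L : ℝ) (hL : 0 ≤ L) (V W : Finset ℕ) :
    0 ≤ potG γ L V W := by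
  unfold potG
  have := tf_ms_nonneg V
  have := tf_ms_nonneg W
  positivity

/-- smaller sets -/
private theorem tf_pot_small (γ L : ℝ) (hγ : 0 ≤ γ) (hL : 0 ≤ L)
    (V W V' W' : Finset ℕ) (ε : ℝ) (hε : 0 ≤ ε) (hV : ms V' ≤ ε * ms V)
    (hW : ms W' ≤ ε * ms W) :
    potG γ L V' W' ≤ potG γ L V W * ε ^ (2 * γ) := by
  unfold potG
  have a1 := tf_ms_nonneg V
  have a2 := tf_ms_nonneg W
  have a3 := tf_ms_nonneg V'
  have a4 := tf_ms_nonneg W'
  have h1 : (ms V' * ms W') ^ γ ≤ (ε ^ 2 * (ms V * ms W)) ^ γ := by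
    refine Real.rpow_le_rpow (by positivity) ?_ hγ
    calc ms V' * ms W' ≤ (ε * ms V) * (ε * ms W) := mul_le_mul hV hW a4 (by positivity)
      _ = ε ^ 2 * (ms V * ms W) := by ring
  have h2 : (ε ^ 2) ^ γ = ε ^ (2 * γ) := by
    rw [← Real.rpow_natCast, ← Real.rpow_mul hε]
    norm_num
  rw [Real.mul_rpow (x := ε ^ 2) (by positivity) (by positivity), h2] at h1
  calc L ^ (2 * (1 - γ)) * (ms V' * ms W') ^ γ
      ≤ L ^ (2 * (1 - γ)) * (ε ^ (2 * γ) * (ms V * ms W) ^ γ) := by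
        have : 0 ≤ L ^ (2 * (1 - γ)) := by positivity
        exact mul_le_mul_of_nonneg_left h1 this
    _ = _ := by ring

private theorem tf_tail (C2 γ : ℝ) (hC2 : 0 < C2) (hγ : 1 / 2 < γ) : ∃ z : ℕ,
    (∀ n : ℕ, z < n → C2 * (1 / (n:ℝ)) ≤ 1 / 2) ∧
    ∀ s : Finset ℕ, (∀ n ∈ s, z < n) →
      ∑ n ∈ s, (C2 * (1 / (n:ℝ))) ^ (2 * γ) ≤ 1 / 2 := by
  have hsum : Summable fun n : ℕ => (C2 * (1 / (n:ℝ))) ^ (2 * γ) := by
    have h1 : Summable fun n : ℕ => C2 ^ (2 * γ) * (1 / (n:ℝ) ^ (2 * γ)) :=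
      (Real.summable_one_div_nat_rpow.2 (by linarith)).mul_left _
    refine h1.congr fun n => ?_
    rw [Real.mul_rpow hC2.le (by positivity), Real.div_rpow (by positivity) (by positivity),
      Real.one_rpow]
  obtain ⟨s0, hs0⟩ := (summable_iff_vanishing_norm.1 hsum) (1/2) (by norm_num)
  have hlim : Filter.Tendsto (fun n : ℕ => C2 * (1 / (n:ℝ))) Filter.atTop
      (nhds (C2 * 0)) := by
    refine Filter.Tendsto.const_mul _ ?_
    exact tendsto_one_div_atTop_nhds_zero_nat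
  rw [mul_zero] at hlim
  have hev : ∀ᶠ n : ℕ in Filter.atTop, C2 * (1 / (n:ℝ)) < 1 / 2 :=
    hlim.eventually_lt_const (by norm_num)
  obtain ⟨z1, hz1⟩ := Filter.eventually_atTop.1 hev
  refine ⟨max z1 (s0.sup id), ?_, ?_⟩
  · intro n hn
    exact (hz1 n (by
      have := le_max_left z1 (s0.sup id)
      omega)).le
  · intro s hs
    have hdis : Disjoint s s0 := by
      rw [disjoint_left]
      intro n hn hn0
      have h1 := hs n hn
      have h2 : n ≤ s0.sup id := le_sup (f := id) hn0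
      have h3 := le_max_right z1 (s0.sup id)
      omega
    have := hs0 s hdis
    exact (le_abs_self _).trans (by rw [← Real.norm_eq_abs]; exact this.le)

private theorem tf_share_le (l m : ℕ) (V : Finset ℕ) (hV : 0 < ms V) : share l m V ≤ 1 := by
  unfold share
  rw [div_le_one hV]
  exact tf_ms_mono _ _ (filter_subset _ _)

theorem tree (h1 : StepG) (h2 : FinG) : TreeG := by
  classical
  intro γ C1 hγ hγ2
  obtain ⟨Cs, cs, hCs, hcs, step⟩ := h1 γ hγ hγ2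
  obtain ⟨Cf, hCf, fin⟩ := h2 γ hγ hγ2
  obtain ⟨C2, hC2⟩ : ∃ C2 : ℝ, C2 = Cs / cs := ⟨_, rfl⟩
  have hC2pos : 0 < C2 := by rw [hC2]; positivity
  obtain ⟨z, hz, htail⟩ := tf_tail C2 γ hC2pos hγ
  obtain ⟨E, hE⟩ : ∃ E : ℝ, E = 6 * Real.exp (Cf * (z + 2 * max C1 0)) := ⟨_, rfl⟩
  have hEpos : 0 < E := by rw [hE]; positivity
  refine ⟨2 * E, by positivity, ?_⟩
  -- the weights
  obtain ⟨ω, hω⟩ : ∃ ω : ℕ → ℝ, ω = fun n : ℕ => 1 / (n:ℝ) := ⟨_, rfl⟩
  have hω0 : ∀ n, 0 ≤ ω n := fun n => by rw [hω]; positivity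
  have hωe : ∀ n : ℕ, 1 / (n:ℝ) = ω n := fun n => by rw [hω]
  have hω1 : ∀ n : ℕ, 1 ≤ n → ω n ≤ 1 := by
    intro n hn
    rw [hω]
    have : (1:ℝ) ≤ n := by exact_mod_cast hn
    simp only
    rw [div_le_one (by linarith)]
    exact this
  have main : ∀ (n : ℕ) (V W : Finset ℕ), ∑ v ∈ V, v + ∑ w ∈ W, w = n →
      ∀ (L : ℝ), 0 ≤ L →
      (∀ v ∈ V, 0 < v ∧ rp v ≤ C1) → (∀ w ∈ W, 0 < w ∧ rp w ≤ C1) →
      en Set.univ V W L Set.univ ≤ 2 * E * potG γ L V W := by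
    intro n
    induction n using Nat.strong_induction_on with
    | _ n ih =>
      intro V W hn L hL hV hW
      have hVp : ∀ v ∈ V, 0 < v := fun v hv => (hV v hv).1
      have hWp : ∀ w ∈ W, 0 < w := fun w hw => (hW w hw).1
      have hb0 : 0 ≤ potG γ L V W := tf_pot_nonneg γ L hL V W
      rcases V.eq_empty_or_nonempty with hVe | hVne
      · have : en Set.univ V W L Set.univ = 0 := by
          unfold en
          rw [hVe]
          simp
        rw [this]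
        positivity
      rcases W.eq_empty_or_nonempty with hWe | hWne
      · have : en Set.univ V W L Set.univ = 0 := by
          unfold en
          rw [hWe]
          simp
        rw [this]
        positivity
      have hVc : 0 < ms V := by
        rw [tf_ms_cast]
        exact_mod_cast tf_sum_pos V hVne hVp
      have hWc : 0 < ms W := by
        rw [tf_ms_cast]
        exact_mod_cast tf_sum_pos W hWne hWp
      -- the step at a relevant prime
      obtain ⟨Rel, hRel⟩ : ∃ Rel : Finset ℕ, Rel = V.biUnion Nat.primeFactors := ⟨_, rfl⟩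
      have hstep : ∀ l ∈ Rel, ∃ m : ℕ, en Set.univ V W L Set.univ ≤ 2 * E * potG γ L V W *
          (1 - cs * ((1 - share l m V) + (1 - share l m W)) + Cs * ω l) := by
        intro l hl
        rw [hRel, mem_biUnion] at hl
        obtain ⟨v0, hv0, hlv0⟩ := hl
        have hlp := Nat.prime_of_mem_primeFactors hlv0
        have hld := Nat.dvd_of_mem_primeFactors hlv0
        have hst := step l hlp Set.univ V W L (2 * E) hL (by positivity) hVp hWp
        rw [show Cs / (l:ℝ) = Cs * ω l by rw [← hωe]; ring] at hst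
        refine hst ?_
        intro i j
        have hlt : ∑ v ∈ part l i V, v + ∑ w ∈ part l j W, w < n := by
          rw [← hn]
          have a1 := tf_sum_part_le l i V
          have a2 := tf_sum_part_le l j W
          rcases Nat.eq_zero_or_pos i with hi | hi
          · have := tf_sum_part_zero_lt l hlp V hVp v0 hv0 hld
            rw [← hi] at this
            omega
          · have := tf_sum_part_lt l i hlp hi V hVne hVp
            omega
        have hl0 : (0:ℝ) ≤ l := Nat.cast_nonneg _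
        have h3 := ih _ hlt (part l i V) (part l j W) rfl (L / (l:ℝ) ^ (max i j))
          (div_nonneg hL (pow_nonneg hl0 _))
          (tf_part_pos l i V C1 hV) (tf_part_pos l j W C1 hW)
        exact (tf_en_mono _ _ (Set.subset_univ _) _ _ _ _).trans h3
      by_cases hgain : ∃ l ∈ Rel, ∃ m : ℕ, en Set.univ V W L Set.univ ≤ 2 * E * potG γ L V W *
          (1 - cs * ((1 - share l m V) + (1 - share l m W)) + Cs * ω l) ∧
          (1 - cs * ((1 - share l m V) + (1 - share l m W)) + Cs * ω l) ≤ 1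
      · obtain ⟨l, _, m, h3, h4⟩ := hgain
        refine h3.trans ?_
        calc 2 * E * potG γ L V W * _ ≤ 2 * E * potG γ L V W * 1 :=
              mul_le_mul_of_nonneg_left h4 (by positivity)
          _ = _ := mul_one _
      · push Not at hgain
        -- no gain: one valuation dominates
        have hdense : ∀ l ∈ Rel, ∃ m : ℕ,
            (1 - C2 * ω l) * ms V ≤ ms (V.filter (fun v => v.factorization l = m)) ∧
            (1 - C2 * ω l) * ms W ≤ ms (W.filter (fun v => v.factorization l = m)) := by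
          intro l hl
          obtain ⟨m, hm⟩ := hstep l hl
          have h4 := hgain l hl m hm
          have hv1 := tf_share_le l m V hVc
          have hw1 := tf_share_le l m W hWc
          have e1 : cs * (C2 * ω l) = Cs * ω l := by rw [hC2]; field_simp
          refine ⟨m, ?_, ?_⟩
          · rw [← le_div_iff₀ hVc]
            change 1 - C2 * ω l ≤ share l m V
            have h5 : cs * (1 - share l m V) ≤ cs * (C2 * ω l) := by
              have : 0 ≤ cs * (1 - share l m W) := mul_nonneg hcs.le (by linarith)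
              rw [e1]
              nlinarith
            have := le_of_mul_le_mul_left h5 hcs
            linarith
          · rw [← le_div_iff₀ hWc]
            change 1 - C2 * ω l ≤ share l m W
            have h5 : cs * (1 - share l m W) ≤ cs * (C2 * ω l) := by
              have : 0 ≤ cs * (1 - share l m V) := mul_nonneg hcs.le (by linarith)
              rw [e1]
              nlinarith
            have := le_of_mul_le_mul_left h5 hcs
            linarith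
        choose! m hmV hmW using hdense
        have hprime : ∀ l ∈ Rel, l.Prime := by
          intro l hl
          rw [hRel, mem_biUnion] at hl
          obtain ⟨v0, _, h⟩ := hl
          exact Nat.prime_of_mem_primeFactors h
        have hhalf : ∀ l : ℕ, z < l → C2 * ω l ≤ 1 / 2 := by
          intro l hl
          rw [← hωe]
          exact hz l hl
        obtain ⟨P1, hP1d⟩ : ∃ P1 : Finset ℕ, P1 = Rel.filter (fun l => l ≤ z) := ⟨_, rfl⟩
        obtain ⟨P2, hP2d⟩ : ∃ P2 : Finset ℕ, P2 = Rel.filter (fun l => z < l ∧ 1 ≤ m l) :=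
          ⟨_, rfl⟩
        obtain ⟨P, hPd⟩ : ∃ P : Finset ℕ, P = P1 ∪ P2 := ⟨_, rfl⟩
        obtain ⟨R, hRd⟩ : ∃ R : Finset ℕ, R = Rel.filter (fun l => z < l ∧ m l = 0) := ⟨_, rfl⟩
        have memP1 : ∀ p, p ∈ P1 ↔ p ∈ Rel ∧ p ≤ z := fun p => by rw [hP1d, mem_filter]
        have memP2 : ∀ p, p ∈ P2 ↔ p ∈ Rel ∧ z < p ∧ 1 ≤ m p := fun p => by rw [hP2d, mem_filter]
        have memR : ∀ p, p ∈ R ↔ p ∈ Rel ∧ z < p ∧ m p = 0 := fun p => by rw [hRd, mem_filter]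
        -- the sum of the weights over P
        have hP1 : ∑ p ∈ P1, ω p ≤ z := by
          have a1 : ∑ p ∈ P1, ω p ≤ ∑ p ∈ P1, (1:ℝ) := by
            refine sum_le_sum fun p hp => ?_
            exact hω1 p (hprime p ((memP1 p).1 hp).1).one_le
          have a2 : P1 ⊆ Finset.Icc 1 z := by
            intro p hp
            rw [Finset.mem_Icc]
            exact ⟨(hprime p ((memP1 p).1 hp).1).one_le, ((memP1 p).1 hp).2⟩
          have a3 := card_le_card a2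
          rw [Nat.card_Icc] at a3
          rw [sum_const, nsmul_eq_mul, mul_one] at a1
          refine a1.trans ?_
          exact_mod_cast a3.trans (by omega)
        have hP2 : ∑ p ∈ P2, ω p ≤ 2 * max C1 0 := by
          -- double counting
          have a1 : ∑ v ∈ V, (v:ℝ) * rp v ≤ max C1 0 * ms V := by
            unfold ms
            rw [mul_sum]
            refine sum_le_sum fun v hv => ?_
            rw [mul_comm]
            exact mul_le_mul_of_nonneg_right ((hV v hv).2.trans (le_max_left _ _))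
              (Nat.cast_nonneg _)
          have a2 : ∑ p ∈ P2, ω p * ms (V.filter (fun v => p ∣ v)) ≤
              ∑ v ∈ V, (v:ℝ) * rp v := by
            have b1 : ∀ p ∈ P2, ω p * ms (V.filter (fun v => p ∣ v)) =
                ∑ v ∈ V, if p ∣ v then (v:ℝ) * ω p else 0 := by
              intro p _
              unfold ms
              rw [← sum_filter, mul_sum]
              exact sum_congr rfl fun v _ => mul_comm _ _
            rw [sum_congr rfl b1, sum_comm]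
            refine sum_le_sum fun v hv => ?_
            rw [← sum_filter]
            unfold rp
            rw [mul_sum]
            have b2 : ∀ p ∈ v.primeFactors, (v:ℝ) * (1 / (p:ℝ)) = (v:ℝ) * ω p :=
              fun p _ => by rw [hωe]
            rw [sum_congr rfl b2]
            refine sum_le_sum_of_subset_of_nonneg ?_
              (fun p _ _ => mul_nonneg (Nat.cast_nonneg _) (hω0 p))
            intro p hp
            rw [mem_filter] at hp
            rw [Nat.mem_primeFactors]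
            exact ⟨hprime p ((memP2 p).1 hp.1).1, hp.2, (hVp v hv).ne'⟩
          have a3 : ∀ p ∈ P2, ms V / 2 ≤ ms (V.filter (fun v => p ∣ v)) := by
            intro p hp
            have hp' := (memP2 p).1 hp
            have b1 := hmV p hp'.1
            have b2 := hhalf p hp'.2.1
            have b3 : ms (V.filter (fun v => v.factorization p = m p)) ≤
                ms (V.filter (fun v => p ∣ v)) := by
              refine tf_ms_mono _ _ fun v hv => ?_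
              rw [mem_filter] at hv ⊢
              refine ⟨hv.1, ?_⟩
              rw [(hprime p hp'.1).dvd_iff_one_le_factorization (hVp v hv.1).ne', hv.2]
              exact hp'.2.2
            have b4 : (1 / 2 : ℝ) * ms V ≤ (1 - C2 * ω p) * ms V :=
              mul_le_mul_of_nonneg_right (by linarith) hVc.le
            linarith
          have a4 : (∑ p ∈ P2, ω p) * (ms V / 2) ≤ max C1 0 * ms V := by
            rw [sum_mul]
            refine le_trans (sum_le_sum fun p hp => ?_) (a2.trans a1)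
            exact mul_le_mul_of_nonneg_left (a3 p hp) (hω0 p)
          have a5 : (∑ p ∈ P2, ω p) * (ms V / 2) ≤ 2 * max C1 0 * (ms V / 2) := by
            refine a4.trans (le_of_eq ?_)
            ring
          exact le_of_mul_le_mul_right a5 (by positivity)
        have hPsum : ∑ p ∈ P, Cf / (p:ℝ) ≤ Cf * (z + 2 * max C1 0) := by
          have b1 : ∀ p ∈ P, Cf / (p:ℝ) = Cf * ω p := fun p _ => by rw [← hωe]; ring
          have b2 : ∑ p ∈ P, ω p ≤ ∑ p ∈ P1, ω p + ∑ p ∈ P2, ω p := by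
            have := sum_union_inter (s₁ := P1) (s₂ := P2) (f := ω)
            have b3 : 0 ≤ ∑ p ∈ P1 ∩ P2, ω p := sum_nonneg fun p _ => hω0 p
            rw [hPd]
            linarith
          rw [sum_congr rfl b1, ← mul_sum]
          exact mul_le_mul_of_nonneg_left (by linarith) hCf.le
        have hPprime : ∀ p ∈ P, p.Prime := by
          intro p hp
          rw [hPd, mem_union] at hp
          rcases hp with hp | hp
          · exact hprime p ((memP1 p).1 hp).1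
          · exact hprime p ((memP2 p).1 hp).1
        have hfin := fin P hPprime V W L hL hVp hWp
        have hfin2 : en (P : Set ℕ) V W L Set.univ ≤ E * potG γ L V W := by
          refine hfin.trans (mul_le_mul_of_nonneg_right ?_ hb0)
          rw [hE]
          exact mul_le_mul_of_nonneg_left (Real.exp_le_exp.2 hPsum) (by norm_num)
        -- splitting
        have hsplit := tf_en_split (P : Set ℕ) R V W L Set.univ hVp (by
          intro v hv p hp
          have hpR : p ∈ Rel := by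
            rw [hRel, mem_biUnion]
            exact ⟨v, hv, hp⟩
          by_cases h5 : p ≤ z
          · left
            rw [hPd]
            exact mem_coe.2 (mem_union_left _ ((memP1 p).2 ⟨hpR, h5⟩))
          · by_cases h6 : m p = 0
            · right
              exact (memR p).2 ⟨hpR, by omega, h6⟩
            · left
              rw [hPd]
              exact mem_coe.2 (mem_union_right _ ((memP2 p).2 ⟨hpR, by omega, by omega⟩)))
        have hRterm : ∀ p ∈ R,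
            en Set.univ (V.filter (fun v => p ∣ v)) (W.filter (fun w => p ∣ w)) L Set.univ ≤
              2 * E * potG γ L V W * (C2 * (1 / (p:ℝ))) ^ (2 * γ) := by
          intro p hp
          obtain ⟨hpR, hzp, hm0⟩ := (memR p).1 hp
          have hpp := hprime p hpR
          have b2 := hhalf p hzp
          have hε0 : 0 ≤ C2 * ω p := mul_nonneg hC2pos.le (hω0 p)
          have hgen : ∀ U : Finset ℕ, (∀ u ∈ U, 0 < u) →
              (1 - C2 * ω p) * ms U ≤ ms (U.filter (fun v => v.factorization p = m p)) →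
              ms (U.filter (fun v => p ∣ v)) ≤ C2 * ω p * ms U := by
            intro U hU hd
            have c1 : ms (U.filter (fun v => v.factorization p = m p)) ≤
                ms (U.filter (fun v => ¬ p ∣ v)) := by
              refine tf_ms_mono _ _ fun v hv => ?_
              rw [mem_filter] at hv ⊢
              refine ⟨hv.1, ?_⟩
              rw [hpp.dvd_iff_one_le_factorization (hU v hv.1).ne', hv.2, hm0]
              norm_num
            have c2 : ms (U.filter (fun v => p ∣ v)) + ms (U.filter (fun v => ¬ p ∣ v)) = ms U :=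
              sum_filter_add_sum_filter_not U (fun v => p ∣ v) (fun v => (v:ℝ))
            linarith
          have hVs := hgen V hVp (hmV p hpR)
          have hWs := hgen W hWp (hmW p hpR)
          have hsumlt : ∑ v ∈ V.filter (fun v => p ∣ v), v < ∑ v ∈ V, v := by
            have h7 : ms (V.filter (fun v => p ∣ v)) < ms V := by
              have : C2 * ω p * ms V ≤ 1 / 2 * ms V := mul_le_mul_of_nonneg_right b2 hVc.le
              linarith
            rw [tf_ms_cast, tf_ms_cast] at h7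
            exact_mod_cast h7
          have hsumle : ∑ w ∈ W.filter (fun w => p ∣ w), w ≤ ∑ w ∈ W, w :=
            sum_le_sum_of_subset (filter_subset _ _)
          have h7 := ih _ (by rw [← hn]; omega) (V.filter (fun v => p ∣ v))
            (W.filter (fun w => p ∣ w)) rfl L hL
            (fun v hv => hV v (mem_filter.1 hv).1) (fun w hw => hW w (mem_filter.1 hw).1)
          refine h7.trans ?_
          have h8 := tf_pot_small γ L (by linarith) hL V W (V.filter (fun v => p ∣ v))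
            (W.filter (fun w => p ∣ w)) (C2 * ω p) hε0 hVs hWs
          have h9 : (C2 * ω p) ^ (2 * γ) ≤ (C2 * (1 / (p:ℝ))) ^ (2 * γ) := by
            rw [← hωe]
          calc 2 * E * potG γ L (V.filter (fun v => p ∣ v)) (W.filter (fun w => p ∣ w))
              ≤ 2 * E * (potG γ L V W * (C2 * ω p) ^ (2 * γ)) :=
                mul_le_mul_of_nonneg_left h8 (by positivity)
            _ = 2 * E * potG γ L V W * (C2 * ω p) ^ (2 * γ) := by ring
            _ ≤ _ := mul_le_mul_of_nonneg_left h9 (by positivity)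
        have hRsum : ∑ p ∈ R,
            en Set.univ (V.filter (fun v => p ∣ v)) (W.filter (fun w => p ∣ w)) L Set.univ ≤
              E * potG γ L V W := by
          refine (sum_le_sum hRterm).trans ?_
          rw [← mul_sum]
          have h9 := htail R (fun p hp => ((memR p).1 hp).2.1)
          calc 2 * E * potG γ L V W * ∑ p ∈ R, (C2 * (1 / (p:ℝ))) ^ (2 * γ)
              ≤ 2 * E * potG γ L V W * (1 / 2) := mul_le_mul_of_nonneg_left h9 (by positivity)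
            _ = E * potG γ L V W := by ring
        linarith
  intro V W L hL hV hW
  exact main _ V W rfl L hL hV hW

end Pool.Agent.MP_0863b8.G

end

section

/-!
MP_0863b8_nt: the canonical hub theorem (CHT).  Definitions and statements of the items (as Props).

The primes are processed in decreasing order `P, P-1, …, Q+1`.  At a prime `p` a set `C` has a top
level `top e p C` (the first `f` such that at most a share `p^(e-1)` of the weight of
`{v_p ≥ f}` has `v_p ≥ f + 1`), and is cut into the cells `v_p = 0, …, f - 1` (exact) and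
`v_p ≥ f` (open).  The elements of a cell are divided by the common power of `p`.
-/

set_option autoImplicit false

namespace Pool.Agent.MP_0863b8.H

open Finset
open F (ms en)
open G (potG)

/-! ### Real sequences -/

/-- the exponent `e` of the thresholds -/
noncomputable def eg (γ : ℝ) : ℝ := (2 * γ - 1) / 4

/-- the exponent of the gain -/
noncomputable def cg (γ : ℝ) : ℝ := (2 * γ - 1) / 16

/-- tail sums -/
noncomputable def TL (N : ℕ) (x : ℕ → ℝ) (k : ℕ) : ℝ := ∑ a ∈ Finset.Ico k N, x a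

/-- `f` is the top level of `x` for the threshold `t` -/
def IsTop (t : ℝ) (N : ℕ) (x : ℕ → ℝ) (f : ℕ) : Prop :=
  f < N ∧ TL N x (f + 1) ≤ t * TL N x f ∧ ∀ k < f, t * TL N x k < TL N x (k + 1)

/-- shares of the cells -/
noncomputable def cs (N : ℕ) (x : ℕ → ℝ) (f i : ℕ) : ℝ :=
  if i < f then x i else if i = f then TL N x f else 0

/-- hub type -/
def HubR (t : ℝ) (N : ℕ) (x : ℕ → ℝ) (f : ℕ) : Prop := 1 ≤ f ∧ 1 - TL N x f ≤ t

/-- good pairs of exact valuations; `H`, `K` say that the first, second class is a hub.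
(An element of a hub below the top level is only good for elements of a hub with the same top
level `f`, one of the valuations being `f` and the other one `f - 1`.) -/
def gv (H K : Prop) (f g a b : ℕ) : Prop :=
  (a = b ∧ a ≤ f ∧ b ≤ g ∧ ¬ (H ∧ a < f) ∧ ¬ (K ∧ b < g)) ∨
  (f = g ∧ ((a = f ∧ f ≤ b) ∨ (b = f ∧ f ≤ a))) ∨
  (H ∧ K ∧ f = g ∧ ((a + 1 = f ∧ b = f) ∨ (a = f ∧ b + 1 = f)))

/-- pairs of cells containing good pairs (and some more); `H` says that both classes are hubs -/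
def gc (H : Prop) (f g i j : ℕ) : Prop :=
  (i = j ∧ i ≤ f ∧ j ≤ g) ∨ (H ∧ f = g ∧ ((i + 1 = f ∧ j = f) ∨ (i = f ∧ j + 1 = f)))

/-- the kernel -/
noncomputable def kn (γ p : ℝ) (a b : ℕ) : ℝ := p ^ (-((1 - γ) * |(a:ℝ) - b|))

/-- the loss of weight of a cell -/
noncomputable def om (γ p : ℝ) (i : ℕ) : ℝ := if i = 0 then 1 else (1 + 2 / p) ^ (-γ)

open Classical in
/-- the sum over the good pairs of cells -/
noncomputable def GS (γ p : ℝ) (N : ℕ) (x y : ℕ → ℝ) (H : Prop) (f g : ℕ) : ℝ :=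
  ∑ i ∈ range (f + 1), ∑ j ∈ range (g + 1),
    if gc H f g i j then kn γ p i j * (om γ p i * om γ p j) * (cs N x f i * cs N y g j) ^ γ
    else 0

open Classical in
/-- the sum over the bad pairs of exact valuations -/
noncomputable def BS (γ p : ℝ) (N : ℕ) (x y : ℕ → ℝ) (H K : Prop) (f g : ℕ) : ℝ :=
  ∑ a ∈ range N, ∑ b ∈ range N, if gv H K f g a b then 0 else kn γ p a b * (x a * y b) ^ γ

/-- admissible pairs of profiles -/
structure Prof (t : ℝ) (N : ℕ) (x y : ℕ → ℝ) (f g : ℕ) : Prop where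
  x0 : ∀ a, 0 ≤ x a
  y0 : ∀ a, 0 ≤ y a
  x1 : ∑ a ∈ range N, x a = 1
  y1 : ∑ a ∈ range N, y a = 1
  tx : IsTop t N x f
  ty : IsTop t N y g

/-- H1: the Schur bound.  `A` is a set of pairs at distance at least `d` -/
def SchurH : Prop :=
  ∀ γ : ℝ, 1/2 < γ → γ ≤ 5/9 → ∃ C : ℝ, 0 < C ∧ ∀ p : ℝ, 2 ≤ p → ∀ (N d : ℕ) (x y : ℕ → ℝ)
    (A : Finset (ℕ × ℕ)), (∀ a, 0 ≤ x a) → (∀ a, 0 ≤ y a) →
    (∀ z ∈ A, z.1 < N ∧ z.2 < N ∧ (d:ℝ) ≤ |(z.1:ℝ) - z.2|) →
    ∑ z ∈ A, kn γ p z.1 z.2 * (x z.1 * y z.2) ^ γ ≤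
      C * p ^ (-((1 - γ) * d)) * ((∑ a ∈ range N, x a) * ∑ a ∈ range N, y a) ^ γ

/-- H2: the gain of the diagonal.  `z`, `w` are lower bounds for the spreads -/
def DiagH : Prop :=
  ∀ γ : ℝ, 1/2 < γ → γ ≤ 5/9 → ∃ c : ℝ, 0 < c ∧ c ≤ 1/2 ∧ ∀ (N : ℕ) (u v : ℕ → ℝ) (z w : ℝ),
    (∀ a, 0 ≤ u a) → (∀ a, 0 ≤ v a) → ∑ a ∈ range N, u a ≤ 1 → ∑ a ∈ range N, v a ≤ 1 →
    0 ≤ z → z ≤ 1 → 0 ≤ w → w ≤ 1 → (∀ a < N, u a ≤ 1 - z) → (∀ a < N, v a ≤ 1 - w) →
    ∑ a ∈ range N, (u a * v a) ^ γ ≤ 1 - c * (z + w)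

/-- H3: the gain when the maxima are at different places -/
def DiagNeH : Prop :=
  ∀ γ : ℝ, 1/2 < γ → γ ≤ 5/9 → ∃ c : ℝ, 0 < c ∧ ∀ (N : ℕ) (u v : ℕ → ℝ) (i j : ℕ),
    (∀ a, 0 ≤ u a) → (∀ a, 0 ≤ v a) → ∑ a ∈ range N, u a ≤ 1 → ∑ a ∈ range N, v a ≤ 1 →
    i < N → j < N → i ≠ j → (∀ a < N, u a ≤ u i) → (∀ a < N, v a ≤ v j) →
    ∑ a ∈ range N, (u a * v a) ^ γ ≤ 1 - c

/-- H4: general bound for the bad sum -/
def BadGenH : Prop :=
  ∀ γ : ℝ, 1/2 < γ → γ ≤ 5/9 → ∃ C : ℝ, 0 < C ∧ ∀ p : ℝ, 2 ≤ p → ∀ (N : ℕ) (x y : ℕ → ℝ)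
    (f g : ℕ) (H K : Prop), p ^ (eg γ - 1) ≤ 1/4 → Prof (p ^ (eg γ - 1)) N x y f g →
    (H → HubR (p ^ (eg γ - 1)) N x f) → (K → HubR (p ^ (eg γ - 1)) N y g) →
    BS γ p N x y H K f g ≤ C * (p ^ (-(1 - γ)) + (p ^ (eg γ - 1)) ^ γ)

/-- H5: bad sum in terms of the complements of the cells `i` (used when the largest cells of
`x` and `y` are both the cell `i`) -/
def BadSameH : Prop :=
  ∀ γ : ℝ, 1/2 < γ → γ ≤ 5/9 → ∃ C : ℝ, 0 < C ∧ ∀ p : ℝ, 2 ≤ p → ∀ (N : ℕ) (x y : ℕ → ℝ)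
    (f g i : ℕ) (H K : Prop), p ^ (eg γ - 1) ≤ 1/4 → Prof (p ^ (eg γ - 1)) N x y f g →
    (H → HubR (p ^ (eg γ - 1)) N x f) → (K → HubR (p ^ (eg γ - 1)) N y g) → i ≤ f → i ≤ g →
    BS γ p N x y H K f g ≤ C * ((p ^ (-(1 - γ)) + (p ^ (eg γ - 1)) ^ γ) *
        ((1 - cs N x f i) ^ γ + (1 - cs N y g i) ^ γ) +
      p ^ (-(1 - γ)) * (p ^ (eg γ - 1)) ^ γ + (p ^ (eg γ - 1)) ^ (2 * γ))

/-- H6: bad sum for two generic classes -/
def BadGGH : Prop :=
  ∀ γ : ℝ, 1/2 < γ → γ ≤ 5/9 → ∃ C : ℝ, 0 < C ∧ ∀ p : ℝ, 2 ≤ p → ∀ (N : ℕ) (x y : ℕ → ℝ)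
    (H K : Prop), Prof (p ^ (eg γ - 1)) N x y 0 0 →
    BS γ p N x y H K 0 0 ≤ C * (p ^ (eg γ - 1)) ^ (2 * γ)

/-- H7: bad sum for two hub classes with the same top level -/
def BadHHH : Prop :=
  ∀ γ : ℝ, 1/2 < γ → γ ≤ 5/9 → ∃ C : ℝ, 0 < C ∧ ∀ p : ℝ, 2 ≤ p → ∀ (N : ℕ) (x y : ℕ → ℝ)
    (f : ℕ) (H K : Prop), H → K → Prof (p ^ (eg γ - 1)) N x y f f →
    HubR (p ^ (eg γ - 1)) N x f → HubR (p ^ (eg γ - 1)) N y f →
    BS γ p N x y H K f f ≤ C * (p ^ (-(2 * (1 - γ))) * (p ^ (eg γ - 1)) ^ γ +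
      (p ^ (eg γ - 1)) ^ (2 * γ))

/-- H8: the good sum without the pairs of cells `(f-1, f)` -/
def GoodNHH : Prop :=
  ∀ (γ p : ℝ) (N : ℕ) (x y : ℕ → ℝ) (f g : ℕ) (H : Prop), 0 < γ → 2 ≤ p →
    (∀ a, 0 ≤ x a) → (∀ a, 0 ≤ y a) → ¬ (H ∧ f = g) →
    GS γ p N x y H f g ≤ ∑ a ∈ range (max f g + 1), (cs N x f a * cs N y g a) ^ γ

/-- H9: the good sum for two hub classes with the same top level -/
def GoodHHH : Prop :=
  ∀ γ : ℝ, 1/2 < γ → γ ≤ 5/9 → ∃ p0 : ℝ, ∀ p : ℝ, p0 ≤ p → ∀ (N : ℕ) (x y : ℕ → ℝ)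
    (f : ℕ) (H : Prop), Prof (p ^ (eg γ - 1)) N x y f f →
    HubR (p ^ (eg γ - 1)) N x f → HubR (p ^ (eg γ - 1)) N y f →
    GS γ p N x y H f f ≤ 1 + p ^ (-1 - cg γ) / 2

/-- H10: properties of the shares of the cells -/
def CellShareH : Prop :=
  ∀ (t : ℝ) (N : ℕ) (x : ℕ → ℝ) (f : ℕ), 0 < t → t ≤ 1/4 → (∀ a, 0 ≤ x a) →
    ∑ a ∈ range N, x a = 1 → IsTop t N x f →
    (∀ a, 0 ≤ cs N x f a) ∧ (∀ M, f < M → ∑ a ∈ range M, cs N x f a = 1) ∧
    (f = 0 → cs N x f 0 = 1) ∧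
    (HubR t N x f → ∀ a ≠ f, cs N x f a ≤ t) ∧
    (1 ≤ f → ¬ HubR t N x f → ∀ a, cs N x f a ≤ 1 - t / 2)

/-- H11: comparison of the powers of `p` -/
def PowH : Prop :=
  ∀ γ C δ : ℝ, 1/2 < γ → γ ≤ 5/9 → 0 < C → 0 < δ → ∃ p0 : ℝ, 2 ≤ p0 ∧ ∀ p : ℝ, p0 ≤ p →
    p ^ (eg γ - 1) ≤ 1/4 ∧
    C * (p ^ cg γ * (p ^ (-(1 - γ)) + (p ^ (eg γ - 1)) ^ γ)) ≤ δ ∧
    (∀ s : ℝ, p ^ (eg γ - 1) / 2 ≤ s → s ≤ 2 →
      C * (p ^ cg γ * ((p ^ (-(1 - γ)) + (p ^ (eg γ - 1)) ^ γ) * s ^ γ +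
        p ^ (-(1 - γ)) * (p ^ (eg γ - 1)) ^ γ + (p ^ (eg γ - 1)) ^ (2 * γ))) ≤ δ * s) ∧
    C * (p ^ cg γ * (p ^ (-(2 * (1 - γ))) * (p ^ (eg γ - 1)) ^ γ +
      (p ^ (eg γ - 1)) ^ (2 * γ))) ≤ δ * p ^ (-1 - cg γ)

/-- H12: the cell inequality -/
def CellH : Prop :=
  ∀ γ : ℝ, 1/2 < γ → γ ≤ 5/9 → ∃ p0 : ℝ, 2 ≤ p0 ∧ ∀ p : ℝ, p0 ≤ p → ∀ (N : ℕ) (x y : ℕ → ℝ)
    (f g : ℕ), Prof (p ^ (eg γ - 1)) N x y f g →
    GS γ p N x y (HubR (p ^ (eg γ - 1)) N x f ∧ HubR (p ^ (eg γ - 1)) N y g) f g +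
      p ^ cg γ * BS γ p N x y (HubR (p ^ (eg γ - 1)) N x f) (HubR (p ^ (eg γ - 1)) N y g) f g ≤
    1 + p ^ (-1 - cg γ)

/-! ### Sets of integers -/

/-- weight: `n * ∏_{q ∣ n, q ≤ P} (1 + 2/q)` -/
noncomputable def wt (P n : ℕ) : ℝ :=
  (n:ℝ) * ∏ q ∈ n.primeFactors.filter (fun q => q ≤ P), (1 + 2 / (q:ℝ))

noncomputable def mt (P : ℕ) (C : Finset ℕ) : ℝ := ∑ n ∈ C, wt P n

/-- weight of the elements of valuation at least `k` -/
noncomputable def tl (p k : ℕ) (C : Finset ℕ) : ℝ :=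
  mt p (C.filter (fun n => k ≤ n.factorization p))

/-- top level of `C` at `p` -/
noncomputable def top (e : ℝ) (p : ℕ) (C : Finset ℕ) : ℕ :=
  sInf {k : ℕ | tl p (k + 1) C ≤ (p:ℝ) ^ (e - 1) * tl p k C}

/-- hubs -/
def Hub (e : ℝ) (p : ℕ) (C : Finset ℕ) : Prop :=
  1 ≤ top e p C ∧ mt p C - tl p (top e p C) C ≤ (p:ℝ) ^ (e - 1) * mt p C

/-- the level of (the cell of) `n` -/
noncomputable def lev (e : ℝ) (p : ℕ) (C : Finset ℕ) (n : ℕ) : ℕ :=
  min (n.factorization p) (top e p C)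

/-- the cell of level `i`, divided by `p ^ i` -/
noncomputable def cell (e : ℝ) (p i : ℕ) (C : Finset ℕ) : Finset ℕ :=
  (C.filter (fun n => lev e p C n = i)).image (fun n => n / p ^ i)

/-- the pair `(n, m)` of `C × D` is good at `p` -/
def gat (e : ℝ) (p : ℕ) (C D : Finset ℕ) (n m : ℕ) : Prop :=
  gv (Hub e p C) (Hub e p D) (top e p C) (top e p D) (n.factorization p) (m.factorization p)

open Classical in
/-- the pair `(n, m)` of `C × D` is good at all primes of `(Q, P]` -/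
def Good (e : ℝ) (Q : ℕ) : ℕ → Finset ℕ → Finset ℕ → ℕ → ℕ → Prop
  | 0, _, _, _, _ => True
  | P + 1, C, D, n, m =>
    if (P + 1).Prime ∧ Q < P + 1 then
      gat e (P + 1) C D n m ∧
      Good e Q P (cell e (P + 1) (lev e (P + 1) C n) C) (cell e (P + 1) (lev e (P + 1) D m) D)
        (n / (P + 1) ^ (lev e (P + 1) C n)) (m / (P + 1) ^ (lev e (P + 1) D m))
    else Good e Q P C D n m

open Classical in
/-- the extras of `n` in `C` at the primes of `(Q, P]` -/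
noncomputable def ex (e : ℝ) (Q : ℕ) : ℕ → Finset ℕ → ℕ → ℕ
  | 0, _, _ => 1
  | P + 1, C, n =>
    if (P + 1).Prime ∧ Q < P + 1 then
      (P + 1) ^ (n.factorization (P + 1) - lev e (P + 1) C n) *
      ex e Q P (cell e (P + 1) (lev e (P + 1) C n) C) (n / (P + 1) ^ (lev e (P + 1) C n))
    else ex e Q P C n

open Classical in
/-- the primes of `(Q, P]` at which `n` lies one level below a hub -/
noncomputable def hb (e : ℝ) (Q : ℕ) : ℕ → Finset ℕ → ℕ → ℕ
  | 0, _, _ => 1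
  | P + 1, C, n =>
    if (P + 1).Prime ∧ Q < P + 1 then
      (if Hub e (P + 1) C ∧ n.factorization (P + 1) + 1 = top e (P + 1) C then P + 1 else 1) *
      hb e Q P (cell e (P + 1) (lev e (P + 1) C n) C) (n / (P + 1) ^ (lev e (P + 1) C n))
    else hb e Q P C n

open Classical in
/-- sum of `n m` over the bad pairs with lcm in `(L/2, L]` -/
noncomputable def bad (e : ℝ) (Q P : ℕ) (V W : Finset ℕ) (L : ℝ) : ℝ :=
  ∑ z ∈ (V ×ˢ W).filter (fun z => L / 2 < ((z.1.lcm z.2 : ℕ) : ℝ) ∧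
      ((z.1.lcm z.2 : ℕ) : ℝ) ≤ L ∧ ¬ Good e Q P V W z.1 z.2), (z.1:ℝ) * z.2

/-- weight of the elements of valuation `a` -/
noncomputable def sh (p a : ℕ) (C : Finset ℕ) : ℝ :=
  mt p (C.filter (fun n => n.factorization p = a))

/-- M1: the weight of a cell -/
def CellMass : Prop :=
  ∀ (e : ℝ) (P : ℕ) (C : Finset ℕ) (i : ℕ), (P + 1).Prime → (∀ n ∈ C, 0 < n) →
    mt P (cell e (P + 1) i C) * ((P + 1 : ℕ) : ℝ) ^ i *
      (if i = 0 then 1 else 1 + 2 / ((P + 1 : ℕ) : ℝ)) ≤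
    (if i < top e (P + 1) C then sh (P + 1) i C
      else if i = top e (P + 1) C then tl (P + 1) i C else 0)

/-- M2: monotonicity and comparison with `ms` -/
def MassCmp : Prop :=
  (∀ (P : ℕ) (C : Finset ℕ), 0 ≤ mt P C ∧ mt P C ≤ mt (P + 1) C ∧ ms C ≤ mt P C) ∧
  ∀ (C1 : ℝ) (P : ℕ) (C : Finset ℕ), (∀ n ∈ C, rp n ≤ C1) →
    mt P C ≤ Real.exp (2 * C1) * ms C

/-- M3: the shares form an admissible profile -/
def ShareProf : Prop :=
  ∀ (e : ℝ) (p N : ℕ) (C : Finset ℕ), p.Prime → (∀ n ∈ C, 0 < n ∧ n.factorization p < N) →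
    C.Nonempty →
    (∀ a, 0 ≤ sh p a C / mt p C) ∧ ∑ a ∈ range N, sh p a C / mt p C = 1 ∧
    IsTop ((p:ℝ) ^ (e - 1)) N (fun a => sh p a C / mt p C) (top e p C) ∧
    (∀ k, TL N (fun a => sh p a C / mt p C) k = tl p k C / mt p C) ∧
    (Hub e p C ↔ HubR ((p:ℝ) ^ (e - 1)) N (fun a => sh p a C / mt p C) (top e p C))

open Classical in
/-- M4: splitting of the bad pairs at `P + 1` -/
def SplitBad : Prop :=
  ∀ (e : ℝ) (Q P N : ℕ) (V W : Finset ℕ) (L : ℝ), (P + 1).Prime → Q < P + 1 →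
    (∀ v ∈ V, 0 < v ∧ v.factorization (P + 1) < N) →
    (∀ w ∈ W, 0 < w ∧ w.factorization (P + 1) < N) →
    bad e Q (P + 1) V W L ≤
      (∑ a ∈ range N, ∑ b ∈ range N,
        if gv (Hub e (P + 1) V) (Hub e (P + 1) W) (top e (P + 1) V) (top e (P + 1) W) a b then 0
        else ((P + 1 : ℕ) : ℝ) ^ (a + b) *
          en Set.univ (part (P + 1) a V) (part (P + 1) b W)
            (L / ((P + 1 : ℕ) : ℝ) ^ (max a b)) Set.univ) +
      ∑ i ∈ range (top e (P + 1) V + 1), ∑ j ∈ range (top e (P + 1) W + 1),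
        if gc (Hub e (P + 1) V ∧ Hub e (P + 1) W) (top e (P + 1) V) (top e (P + 1) W) i j then
          ((P + 1 : ℕ) : ℝ) ^ (i + j) *
          bad e Q P (cell e (P + 1) i V) (cell e (P + 1) j W)
            (L / ((P + 1 : ℕ) : ℝ) ^ (max i j))
        else 0

/-- M5: elements of cells -/
def CellElt : Prop :=
  ∀ (e C1 : ℝ) (p i : ℕ) (C : Finset ℕ), p.Prime → (∀ n ∈ C, 0 < n ∧ rp n ≤ C1) →
    ∀ n ∈ cell e p i C, 0 < n ∧ rp n ≤ C1

/-- M6: the induction step -/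
def StepBad : Prop :=
  ∀ γ C1 : ℝ, 1/2 < γ → γ ≤ 5/9 → ∃ CT : ℝ, 0 < CT ∧ ∃ p0 : ℕ, ∀ (Q P : ℕ), p0 ≤ Q → 1 ≤ Q →
    (P + 1).Prime → Q < P + 1 → ∀ D : ℝ, CT * (Q:ℝ) ^ (-cg γ) ≤ D →
    (∀ (V W : Finset ℕ) (L : ℝ), (∀ v ∈ V, 0 < v ∧ rp v ≤ C1) → (∀ w ∈ W, 0 < w ∧ rp w ≤ C1) →
      0 ≤ L → bad (eg γ) Q P V W L ≤ D * L ^ (2 * (1 - γ)) * (mt P V * mt P W) ^ γ) →
    ∀ (V W : Finset ℕ) (L : ℝ), (∀ v ∈ V, 0 < v ∧ rp v ≤ C1) → (∀ w ∈ W, 0 < w ∧ rp w ≤ C1) →
      0 ≤ L → bad (eg γ) Q (P + 1) V W L ≤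
        D * (1 + ((P + 1 : ℕ) : ℝ) ^ (-1 - cg γ)) * L ^ (2 * (1 - γ)) *
          (mt (P + 1) V * mt (P + 1) W) ^ γ

/-- M7: CHT, the energy of the bad pairs -/
def BadStmt : Prop :=
  ∀ γ C1 : ℝ, 1/2 < γ → γ ≤ 5/9 → ∃ K : ℝ, 0 < K ∧ ∃ Q0 : ℕ, ∀ Q P : ℕ, Q0 ≤ Q →
    ∀ (V W : Finset ℕ) (L : ℝ), (∀ v ∈ V, 0 < v ∧ rp v ≤ C1) → (∀ w ∈ W, 0 < w ∧ rp w ≤ C1) →
      0 ≤ L → bad (eg γ) Q P V W L ≤ K * (Q:ℝ) ^ (-cg γ) * potG γ L V W

/-- M8: CHT, the structure of the good pairs (one prime of `(Q, P]`) -/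
def GoodVal : Prop :=
  ∀ (e : ℝ) (Q P : ℕ) (V W : Finset ℕ) (n m : ℕ), 0 < n → 0 < m → n ∈ V → m ∈ W →
    Good e Q P V W n m → ∀ p : ℕ, p.Prime → Q < p → p ≤ P →
    n.factorization p - m.factorization p =
      (ex e Q P V n).factorization p + (hb e Q P W m).factorization p ∧
    m.factorization p - n.factorization p =
      (ex e Q P W m).factorization p + (hb e Q P V n).factorization p ∧
    (hb e Q P V n).factorization p ≤ 1 ∧
    (p ∣ hb e Q P W m → n.factorization p = m.factorization p + 1) ∧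
    (p ∣ hb e Q P V n → m.factorization p = n.factorization p + 1)

/-- M9: properties of `ex` and `hb` -/
def ExHb : Prop :=
  ∀ (e : ℝ) (Q P : ℕ) (V : Finset ℕ) (n : ℕ), 0 < n →
    0 < ex e Q P V n ∧ 0 < hb e Q P V n ∧ ex e Q P V n ∣ n ∧
    (∀ p : ℕ, p ∣ ex e Q P V n → p.Prime → Q < p ∧ p ≤ P) ∧
    (∀ p : ℕ, p ∣ hb e Q P V n → p.Prime → Q < p ∧ p ≤ P) ∧
    (∀ p : ℕ, Q < p → (ex e Q P V n).factorization p = (ex e 0 P V n).factorization p ∧
      (hb e Q P V n).factorization p = (hb e 0 P V n).factorization p)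

/-- M10: CHT, the structure of the good pairs -/
def GoodStruct : Prop :=
  ∀ (e : ℝ) (Q P : ℕ) (V W : Finset ℕ) (n m : ℕ), 0 < n → 0 < m → n ∈ V → m ∈ W →
    (∀ p ∈ n.primeFactors, p ≤ P) → (∀ p ∈ m.primeFactors, p ≤ P) →
    Good e Q P V W n m →
    ∃ s t : ℕ, 0 < s ∧ 0 < t ∧ (∀ p ∈ s.primeFactors, p ≤ Q) ∧ (∀ p ∈ t.primeFactors, p ≤ Q) ∧
      n / n.gcd m = s * ex e Q P V n * hb e Q P W m ∧
      m / n.gcd m = t * ex e Q P W m * hb e Q P V n

end Pool.Agent.MP_0863b8.H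

end

section

/-!
MP_0863b8_nt, KILLS: all statements of `K/Defs.lean`, without hypotheses.
-/

namespace Pool.Agent.MP_0863b8.K

theorem ovK : OvK := pr_Ov

theorem labK : LabK := pr_Lab

theorem spaceK : SpaceK := pr_Space

theorem uniqK : UniqK := pr_Uniq spaceK

theorem multK : MultK := pr_Mult spaceK uniqK

theorem pairK : PairK := pr_Pair

theorem killK : KillK := pr_Kill labK pairK

theorem ptK : PtK := pr_Pt labK pairK

theorem sumK : SumK := pr_Sum labK uniqK ptK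

theorem liftK : LiftK := pr_Lift

theorem ffk : FFK := pr_FFK

theorem densK : DensK := pr_Dens ffk

theorem smallPart : SmallPart := pr_Small

theorem localK : LocalK := pr_Local densK smallPart

theorem firstK : FirstK := pr_First localK

end Pool.Agent.MP_0863b8.K

end

section

/-!
MP_0863b8_nt, RECURSION block: the induction.
-/

set_option autoImplicit false

namespace Pool.Agent.MP_0863b8.R

open MeasureTheory Classical

/-- part of the budget -/
noncomputable def bdg (P q m : ℕ) : ℝ :=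
  ∑ r ∈ m.primeFactors.filter (fun r => P < r ∧ r < q), (1:ℝ) / r

/-- part of the budget between two primes -/
noncomputable def bdg2 (P q' q m : ℕ) : ℝ :=
  ∑ r ∈ m.primeFactors.filter (fun r => P < r ∧ q' < r ∧ r < q), (1:ℝ) / r

theorem bdg_nonneg (P q m : ℕ) : 0 ≤ bdg P q m := Finset.sum_nonneg fun _ _ => by positivity

theorem bdg2_nonneg (P q' q m : ℕ) : 0 ≤ bdg2 P q' q m :=
  Finset.sum_nonneg fun _ _ => by positivity

theorem bdg_mono (P : ℕ) {q' q : ℕ} (h : q' ≤ q) (m : ℕ) : bdg P q' m ≤ bdg P q m := by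
  unfold bdg
  apply Finset.sum_le_sum_of_subset_of_nonneg
  · intro r hr
    rw [Finset.mem_filter] at hr ⊢
    exact ⟨hr.1, hr.2.1, hr.2.2.trans_le h⟩
  · intro _ _ _
    positivity

theorem bdg_add (P : ℕ) {q' q : ℕ} (h : q' ≤ q) (m : ℕ) :
    bdg P q' m + bdg2 P q' q m ≤ bdg P q m := by
  unfold bdg bdg2
  rw [← Finset.sum_union]
  · apply Finset.sum_le_sum_of_subset_of_nonneg
    · intro r hr
      rw [Finset.mem_union, Finset.mem_filter, Finset.mem_filter] at hr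
      rw [Finset.mem_filter]
      rcases hr with hr | hr
      · exact ⟨hr.1, hr.2.1, hr.2.2.trans_le h⟩
      · exact ⟨hr.1, hr.2.1, hr.2.2.2⟩
    · intro _ _ _
      positivity
  · rw [Finset.disjoint_left]
    intro r h1 h2
    rw [Finset.mem_filter] at h1 h2
    omega

theorem bdg2_congr (P q' q : ℕ) {n m : ℕ} (h : hi q' n = hi q' m) :
    bdg2 P q' q n = bdg2 P q' q m := by
  rw [hi_eq_iff] at h
  unfold bdg2
  apply Finset.sum_congr _ fun _ _ => rfl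
  ext r
  simp only [Finset.mem_filter]
  constructor
  · rintro ⟨h1, h2, h3, h4⟩
    refine ⟨?_, h2, h3, h4⟩
    rw [← Nat.support_factorization, Finsupp.mem_support_iff] at h1 ⊢
    rwa [← h r h3]
  · rintro ⟨h1, h2, h3, h4⟩
    refine ⟨?_, h2, h3, h4⟩
    rw [← Nat.support_factorization, Finsupp.mem_support_iff] at h1 ⊢
    rwa [h r h3]

theorem bdg_dvd (P q : ℕ) {n m : ℕ} (h : n ∣ m) (hm : m ≠ 0) : bdg P q n ≤ bdg P q m := by
  unfold bdg
  apply Finset.sum_le_sum_of_subset_of_nonneg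
  · intro r hr
    rw [Finset.mem_filter] at hr ⊢
    exact ⟨Nat.primeFactors_mono h hm hr.1, hr.2⟩
  · intro _ _ _
    positivity

/-- node of a system -/
structure Nd (P : ℕ) (S : Finset ℕ) (q : ℕ) (b : ℝ) (N : Finset ℕ) : Prop where
  sub : N ⊆ S
  ag : ∀ n ∈ N, ∀ m ∈ N, Ag q n m
  cl : ∀ m0 ∈ N, ∀ m ∈ S, Ag q m m0 → m ∈ N
  bd : ∀ n ∈ N, bdg P q n ≤ b

theorem key_eq {p : ℕ → ℕ} {n m : ℕ} (h : key p n = key p m) :
    p n = p m ∧ hi (p m) n = hi (p m) m ∧ n.factorization (p m) = m.factorization (p m) := by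
  unfold key at h
  rw [Prod.mk.injEq, Prod.mk.injEq] at h
  obtain ⟨h1, h2, h3⟩ := h
  rw [h1] at h2 h3
  exact ⟨h1, h2, h3⟩

section node

variable {P : ℕ} {p : ℕ → ℕ} {S N : Finset ℕ} {q : ℕ} {b : ℝ}

/-- data of an index -/
theorem idx_data (hp : ∀ m ∈ S, p m = 0 ∨ ((p m).Prime ∧ P < p m)) (hN : Nd P S q b N)
    {i : ℕ × (ℕ →₀ ℕ) × ℕ} (hix : i ∈ Idx p N) :
    i.1.Prime ∧ P < i.1 ∧ i.1 < q ∧ ∃ m0 ∈ N, ∃ n0 ∈ N, Rel p n0 m0 ∧ key p m0 = i ∧
      Lk p N i = Lset p S m0 ∧ p m0 = i.1 ∧ hi i.1 m0 = i.2.1 ∧ m0.factorization i.1 = i.2.2 := by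
  obtain ⟨m0, hm0, ⟨n0, hn0, hrel⟩, hkey⟩ := mem_Idx.1 hix
  have hpm : i.1 = p m0 := by rw [← hkey]; rfl
  have hprime : (p m0).Prime ∧ P < p m0 := by
    rcases hp m0 (hN.sub hm0) with h | h
    · exfalso
      have := hrel.2
      rw [h, Nat.factorization_zero_right, Nat.factorization_zero_right] at this
      omega
    · exact h
  have hq : p m0 < q := by
    by_contra hge
    push Not at hge
    have := hN.ag n0 hn0 m0 hm0 (p m0) hprime.1 hge
    have h2 := hrel.2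
    omega
  rw [hpm]
  refine ⟨hprime.1, hprime.2, hq, m0, hm0, n0, hn0, hrel, hkey, ?_, rfl, ?_, ?_⟩
  · unfold Lk Lset
    ext m
    simp only [Finset.mem_filter]
    rw [hkey]
    constructor
    · rintro ⟨h1, h2⟩
      exact ⟨hN.sub h1, h2⟩
    · rintro ⟨h1, h2⟩
      refine ⟨hN.cl m0 hm0 m h1 ?_, h2⟩
      obtain ⟨k1, k2, k3⟩ := key_eq (h2.trans hkey.symm)
      intro r _ hr
      exact (hi_eq_iff _ _ _).1 k2 r (hq.trans_le hr)
  · rw [← hkey]; rfl
  · rw [← hkey]; rfl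

/-- the upper factor is a node -/
theorem node_T (hp : ∀ m ∈ S, p m = 0 ∨ ((p m).Prime ∧ P < p m)) (hN : Nd P S q b N)
    {i : ℕ × (ℕ →₀ ℕ) × ℕ} (hix : i ∈ Idx p N) : Nd P S i.1 b (Tset N i) := by
  obtain ⟨hpr, hP, hq, -⟩ := idx_data hp hN hix
  refine ⟨?_, ?_, ?_, ?_⟩
  · intro n hn
    exact hN.sub (Finset.mem_filter.1 hn).1
  · intro n hn m hm r hr hqr
    obtain ⟨-, h2, h3⟩ := Finset.mem_filter.1 hn
    obtain ⟨-, h2', h3'⟩ := Finset.mem_filter.1 hm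
    rcases Nat.lt_or_ge i.1 r with h | h
    · exact (hi_eq_iff i.1 n m).1 (h2.trans h2'.symm) r h
    · have : r = i.1 := le_antisymm h hqr
      rw [this, h3, h3']
  · intro m0 hm0 m hm hk
    obtain ⟨h0, h2, h3⟩ := Finset.mem_filter.1 hm0
    have hmN := hN.cl m0 h0 m hm (fun r hr hqr => hk r hr (hq.le.trans hqr))
    refine Finset.mem_filter.2 ⟨hmN, ?_, ?_⟩
    · rw [← h2, hi_eq_iff]
      intro r hr
      by_cases hrp : r.Prime
      · exact hk r hrp hr.le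
      · rw [Nat.factorization_eq_zero_of_not_prime _ hrp,
          Nat.factorization_eq_zero_of_not_prime _ hrp]
    · rw [hk _ hpr le_rfl, h3]
  · intro n hn
    exact (bdg_mono P hq.le n).trans (hN.bd n (Finset.mem_filter.1 hn).1)

theorem card_T_lt {i : ℕ × (ℕ →₀ ℕ) × ℕ} (hix : i ∈ Idx p N) :
    (Tset N i).card < N.card := by
  obtain ⟨m0, hm0, -, hkey⟩ := mem_Idx.1 hix
  apply Finset.card_lt_card
  refine ⟨Finset.filter_subset _ _, fun h => ?_⟩
  have := h hm0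
  obtain ⟨-, -, h1⟩ := Finset.mem_filter.1 this
  rw [← hkey] at h1
  unfold key at h1
  simp only at h1
  omega

end node

/-! ### the new space -/

theorem fac_dvd {p : ℕ → ℕ} {S : Finset ℕ} {m0 m : ℕ} (hm : m ∈ Lset p S m0) :
    fac p m0 ∣ m ∧ m.factorization (p m0) = m0.factorization (p m0) ∧
      hi (p m0) m = hi (p m0) m0 := by
  have hk : key p m = key p m0 := by
    unfold Lset at hm
    exact (Finset.mem_filter.1 hm).2
  obtain ⟨h1, h2, h3⟩ := key_eq hk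
  refine ⟨?_, h3, h2⟩
  unfold fac
  rw [← h3]
  exact Nat.ordProj_dvd m (p m0)

theorem fac_mul {p : ℕ → ℕ} {S : Finset ℕ} {m0 m : ℕ} (hm : m ∈ Lset p S m0) :
    fac p m0 * (m / fac p m0) = m := Nat.mul_div_cancel' (fac_dvd hm).1

theorem mass_SY (p : ℕ → ℕ) (μ : ℕ → ℝ) (S : Finset ℕ) (m0 : ℕ) :
    mass (muY p μ m0) (SY p S m0) = (p m0 : ℝ) * mass μ (Lset p S m0) := by
  unfold mass SY
  rw [Finset.sum_image]
  · rw [Finset.mul_sum]
    apply Finset.sum_congr rfl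
    intro m hm
    unfold muY
    rw [fac_mul hm]
    ring
  · intro a ha b hb hab
    simp only at hab
    rw [← fac_mul ha, hab, fac_mul hb]

theorem fact_div {p : ℕ → ℕ} {S : Finset ℕ} {m0 m : ℕ} (hm : m ∈ Lset p S m0) (r : ℕ) :
    (m / fac p m0).factorization r = m.factorization r - (fac p m0).factorization r := by
  rw [Nat.factorization_div (fac_dvd hm).1]
  rfl

theorem ag_SY {p : ℕ → ℕ} {S : Finset ℕ} {m0 : ℕ} :
    ∀ n ∈ SY p S m0, ∀ m ∈ SY p S m0, Ag (p m0) n m := by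
  have key1 : ∀ n ∈ SY p S m0, ∀ r, p m0 ≤ r →
      n.factorization r = m0.factorization r - (fac p m0).factorization r := by
    intro n hn r hr
    unfold SY at hn
    rw [Finset.mem_image] at hn
    obtain ⟨a, ha, rfl⟩ := hn
    rw [fact_div ha]
    obtain ⟨-, h2, h3⟩ := fac_dvd ha
    rcases Nat.lt_or_ge (p m0) r with h | h
    · rw [(hi_eq_iff _ _ _).1 h3 r h]
    · have : r = p m0 := le_antisymm h hr
      rw [this, h2]
  intro n hn m hm r _ hqr
  rw [key1 n hn r hqr, key1 m hm r hqr]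

/-- the claim for the root of a system -/
def Claim (P : ℕ) (c Cr C1 α0 κ : ℝ) (δ : ℝ) (μ : ℕ → ℝ) (S : Finset ℕ)
    (K : ℕ → ℕ → ℤ → Prop) : Prop :=
  ∀ (q : ℕ) (b : ℝ), 0 ≤ b → (∀ n ∈ S, ∀ m ∈ S, Ag q n m) → (∀ n ∈ S, bdg P q n ≤ b) →
    Real.sqrt (En δ μ K q S) ≤ Real.sqrt Cr * mass μ S +
      (α0 * Real.exp (κ * b) + Real.sqrt C1) * (1 + mass μ S) ^ c * Real.sqrt (mass μ S)

theorem mass_nonneg' {μ : ℕ → ℝ} {N : Finset ℕ} (h : ∀ n ∈ N, 0 ≤ μ n) : 0 ≤ mass μ N :=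
  Finset.sum_nonneg fun n hn => by have := h n hn; positivity

theorem mass_mono' {μ : ℕ → ℝ} {N N' : Finset ℕ} (h : ∀ n ∈ N', 0 ≤ μ n) (hs : N ⊆ N') :
    mass μ N ≤ mass μ N' :=
  Finset.sum_le_sum_of_subset_of_nonneg hs fun n hn _ => by have := h n hn; positivity

/-- total mass of the lower factors -/
theorem sum_L {μ : ℕ → ℝ} {N : Finset ℕ} (p : ℕ → ℕ) (h : ∀ n ∈ N, 0 ≤ μ n) :
    ∑ i ∈ Idx p N, mass μ (Lk p N i) ≤ mass μ N := by
  have e : ∀ i ∈ Idx p N, mass μ (Lk p N i) =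
      ∑ m ∈ (N.filter (fun m => key p m ∈ Idx p N)) with key p m = i, 2 * μ m := by
    intro i hix
    unfold mass
    apply Finset.sum_congr _ fun _ _ => rfl
    ext m
    unfold Lk
    simp only [Finset.mem_filter]
    constructor
    · rintro ⟨a, b⟩
      exact ⟨⟨a, b ▸ hix⟩, b⟩
    · rintro ⟨⟨a, _⟩, b⟩
      exact ⟨a, b⟩
  rw [Finset.sum_congr rfl e]
  rw [Finset.sum_fiberwise_of_maps_to (s := N.filter (fun m => key p m ∈ Idx p N))
    (t := Idx p N) (g := key p) (fun m hm => (Finset.mem_filter.1 hm).2) (fun m => 2 * μ m)]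
  exact Finset.sum_le_sum_of_subset_of_nonneg (Finset.filter_subset _ _)
    fun n hn _ => by have := h n hn; positivity

/-- the budget sums -/
theorem bud_sum (hBud : BudStmt) {P : ℕ} {p : ℕ → ℕ} {S N : Finset ℕ} {q : ℕ} {b : ℝ}
    (hp : ∀ m ∈ S, p m = 0 ∨ ((p m).Prime ∧ P < p m)) (hN : Nd P S q b N) (hP : 0 < P)
    (κ α0 η C1 : ℝ) (hκ : 0 < κ) (hα0 : Real.sqrt C1 ≤ α0)
    (hη : 4 * (Real.exp (2 * κ / P) / (2 * κ)) ≤ η ^ 2)
    (rep : ℕ × (ℕ →₀ ℕ) × ℕ → ℕ)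
    (hrep : ∀ i ∈ Idx p N, rep i ∈ N ∧ hi i.1 (rep i) = i.2.1)
    (g : ℕ → ℝ) (hg : ∀ n ∈ N, 0 ≤ g n) :
    ∑ i ∈ Idx p N, (α0 * Real.exp (κ * (b - bdg2 P i.1 q (rep i))) + Real.sqrt C1) ^ 2 *
      (∑ n ∈ Tset N i, g n) / (i.1 : ℝ) ≤
      η ^ 2 * (α0 * Real.exp (κ * b)) ^ 2 * ∑ n ∈ N, g n := by
  set a : ℕ × (ℕ →₀ ℕ) × ℕ → ℝ := fun i =>
    α0 * Real.exp (κ * (b - bdg2 P i.1 q (rep i))) + Real.sqrt C1 with ha
  have hs0 : 0 ≤ Real.sqrt C1 := Real.sqrt_nonneg _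
  have hα00 : 0 ≤ α0 := hs0.trans hα0
  have hb0 : ∀ i ∈ Idx p N, 0 ≤ b - bdg2 P i.1 q (rep i) := by
    intro i hix
    obtain ⟨-, -, hq, -⟩ := idx_data hp hN hix
    have h1 := hN.bd (rep i) (hrep i hix).1
    have h2 := bdg_add P hq.le (rep i)
    have h3 := bdg_nonneg P i.1 (rep i)
    linarith
  have ha2 : ∀ i ∈ Idx p N, a i ^ 2 ≤
      4 * α0 ^ 2 * Real.exp (2 * κ * (b - bdg2 P i.1 q (rep i))) := by
    intro i hix
    have h1 : 1 ≤ Real.exp (κ * (b - bdg2 P i.1 q (rep i))) :=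
      Real.one_le_exp (mul_nonneg hκ.le (hb0 i hix))
    have h2 : a i ≤ 2 * (α0 * Real.exp (κ * (b - bdg2 P i.1 q (rep i)))) := by
      simp only [ha]
      have : Real.sqrt C1 ≤ α0 * Real.exp (κ * (b - bdg2 P i.1 q (rep i))) := by
        calc Real.sqrt C1 ≤ α0 * 1 := by linarith
          _ ≤ _ := mul_le_mul_of_nonneg_left h1 hα00
      linarith
    have h0 : 0 ≤ a i := by
      simp only [ha]
      positivity
    calc a i ^ 2 ≤ (2 * (α0 * Real.exp (κ * (b - bdg2 P i.1 q (rep i))))) ^ 2 :=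
          pow_le_pow_left₀ h0 h2 2
      _ = 4 * α0 ^ 2 * Real.exp (2 * κ * (b - bdg2 P i.1 q (rep i))) := by
          rw [mul_pow, mul_pow, ← Real.exp_nat_mul]
          rw [show ((2:ℕ):ℝ) * (κ * (b - bdg2 P i.1 q (rep i))) =
            2 * κ * (b - bdg2 P i.1 q (rep i)) by push_cast; ring]
          ring
  have hq0 : ∀ i ∈ Idx p N, (0:ℝ) < i.1 := by
    intro i hix
    obtain ⟨h1, -⟩ := idx_data hp hN hix
    exact_mod_cast h1.pos
  -- exchange the sums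
  have hex : ∑ i ∈ Idx p N, a i ^ 2 * (∑ n ∈ Tset N i, g n) / (i.1 : ℝ) =
      ∑ n ∈ N, g n * ∑ i ∈ (Idx p N).filter (fun i => n ∈ Tset N i), a i ^ 2 / (i.1:ℝ) := by
    have : ∀ i ∈ Idx p N, a i ^ 2 * (∑ n ∈ Tset N i, g n) / (i.1 : ℝ) =
        ∑ n ∈ N, (if n ∈ Tset N i then g n * (a i ^ 2 / (i.1:ℝ)) else 0) := by
      intro i _
      rw [← Finset.sum_filter]
      have e : N.filter (fun n => n ∈ Tset N i) = Tset N i := by
        ext n
        rw [Finset.mem_filter]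
        exact ⟨fun h => h.2, fun h => ⟨(Finset.mem_filter.1 h).1, h⟩⟩
      rw [e, Finset.mul_sum, Finset.sum_div]
      exact Finset.sum_congr rfl fun n _ => by ring
    rw [Finset.sum_congr rfl this, Finset.sum_comm]
    apply Finset.sum_congr rfl
    intro n _
    rw [← Finset.sum_filter, Finset.mul_sum]
  rw [hex, Finset.mul_sum]
  refine Finset.sum_le_sum fun n hn => ?_
  rw [mul_comm]
  apply mul_le_mul_of_nonneg_right _ (hg n hn)
  -- the budget lemma at `n`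
  set s : Finset ℕ := n.primeFactors.filter (fun r => P < r ∧ r < q) with hs
  have hB := hBud κ P b hκ (by exact_mod_cast hP) s (by
    intro r hr
    rw [hs, Finset.mem_filter] at hr
    exact_mod_cast hr.2.1)
  set h : ℕ → ℝ := fun r => 4 * α0 ^ 2 * ((1 / (r:ℝ)) *
    Real.exp (2 * κ * (b - ∑ x ∈ s.filter (fun x => r < x), (1:ℝ) / x))) with hh
  have hh0 : ∀ r, 0 ≤ h r := by
    intro r
    simp only [hh]
    positivity
  have hterm : ∀ i ∈ (Idx p N).filter (fun i => n ∈ Tset N i), a i ^ 2 / (i.1:ℝ) ≤ h i.1 := by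
    intro i hix
    rw [Finset.mem_filter] at hix
    obtain ⟨hix, hnT⟩ := hix
    obtain ⟨-, hT2, -⟩ := Finset.mem_filter.1 hnT
    have e1 : bdg2 P i.1 q (rep i) = ∑ x ∈ s.filter (fun x => i.1 < x), (1:ℝ) / x := by
      rw [bdg2_congr P i.1 q ((hrep i hix).2.trans hT2.symm)]
      unfold bdg2
      rw [hs, Finset.filter_filter]
      apply Finset.sum_congr _ fun _ _ => rfl
      apply Finset.filter_congr
      intro x _
      constructor
      · rintro ⟨x1, x2, x3⟩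
        exact ⟨⟨x1, x3⟩, x2⟩
      · rintro ⟨⟨x1, x3⟩, x2⟩
        exact ⟨x1, x2, x3⟩
    have := ha2 i hix
    rw [e1] at this
    simp only [hh]
    rw [div_le_iff₀ (hq0 i hix)]
    calc a i ^ 2 ≤ _ := this
      _ = _ := by
        have := (hq0 i hix).ne'
        field_simp
  calc ∑ i ∈ (Idx p N).filter (fun i => n ∈ Tset N i), a i ^ 2 / (i.1:ℝ)
      ≤ ∑ i ∈ (Idx p N).filter (fun i => n ∈ Tset N i), h i.1 := Finset.sum_le_sum hterm
    _ = ∑ r ∈ ((Idx p N).filter (fun i => n ∈ Tset N i)).image (fun i => i.1), h r := by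
        rw [Finset.sum_image]
        intro i hix i' hix' hii
        simp only [Finset.coe_filter, Set.mem_ofPred_eq] at hix hix'
        simp only at hii
        obtain ⟨-, h1, h2⟩ := Finset.mem_filter.1 hix.2
        obtain ⟨-, h1', h2'⟩ := Finset.mem_filter.1 hix'.2
        rw [hii] at h1 h2
        have e2 : i.2.1 = i'.2.1 := h1.symm.trans h1'
        have e3 : i.2.2 = i'.2.2 := by omega
        exact Prod.ext hii (Prod.ext e2 e3)
    _ ≤ ∑ r ∈ s, h r := by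
        apply Finset.sum_le_sum_of_subset_of_nonneg
        · intro r hr
          rw [Finset.mem_image] at hr
          obtain ⟨i, hix, rfl⟩ := hr
          rw [Finset.mem_filter] at hix
          obtain ⟨hpr, hPi, hqi, -⟩ := idx_data hp hN hix.1
          obtain ⟨-, -, h3⟩ := Finset.mem_filter.1 hix.2
          rw [hs, Finset.mem_filter]
          refine ⟨?_, hPi, hqi⟩
          rw [← Nat.support_factorization, Finsupp.mem_support_iff]
          omega
        · intro r _ _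
          exact hh0 r
    _ = 4 * α0 ^ 2 * ∑ r ∈ s, (1 / (r:ℝ)) *
          Real.exp (2 * κ * (b - ∑ x ∈ s.filter (fun x => r < x), (1:ℝ) / x)) := by
        rw [Finset.mul_sum]
    _ ≤ 4 * α0 ^ 2 * (Real.exp (2 * κ / P) / (2 * κ) * Real.exp (2 * κ * b)) :=
        mul_le_mul_of_nonneg_left hB (by positivity)
    _ = (4 * (Real.exp (2 * κ / P) / (2 * κ))) * (α0 * Real.exp (κ * b)) ^ 2 := by
        rw [mul_pow, ← Real.exp_nat_mul,
          show ((2:ℕ):ℝ) * (κ * b) = 2 * κ * b by push_cast; ring]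
        ring
    _ ≤ η ^ 2 * (α0 * Real.exp (κ * b)) ^ 2 := by
        apply mul_le_mul_of_nonneg_right hη (by positivity)

end Pool.Agent.MP_0863b8.R

end

section

/-!
MP_0863b8_nt, CASE II: `SBC` from `SB`.
-/

set_option autoImplicit false

namespace Pool.Agent.MP_0863b8.C2

open Pool.Agent.MP_0863b8 F G

theorem sbc_smp (Q : ℝ) (hQ : 0 ≤ Q) (n : ℕ) (hn : n ≠ 0) :
    smp Q n = ∏ p ∈ (Finset.range (⌊Q⌋₊ + 1)).filter Nat.Prime, p ^ n.factorization p := by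
  unfold smp
  apply Finset.prod_subset
  · intro p hp
    rw [Finset.mem_filter] at hp
    rw [Finset.mem_filter, Finset.mem_range]
    exact ⟨Nat.lt_succ_of_le (Nat.le_floor hp.2), Nat.prime_of_mem_primeFactors hp.1⟩
  · intro p hp hp'
    rw [Finset.mem_filter, Finset.mem_range] at hp
    have hpQ : (p : ℝ) ≤ Q := le_trans (by exact_mod_cast Nat.lt_succ_iff.1 hp.1)
      (Nat.floor_le hQ)
    have h1 : ¬ p ∣ n := by
      intro h
      apply hp'
      rw [Finset.mem_filter]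
      exact ⟨Nat.mem_primeFactors.2 ⟨hp.2, h, hn⟩, hpQ⟩
    rw [Nat.factorization_eq_zero_of_not_dvd h1, pow_zero]

theorem sbc_fac (n m p : ℕ) (hn : n ≠ 0) (hm : m ≠ 0) :
    (((n / n.gcd m).factorization p + (m / n.gcd m).factorization p : ℕ) : ℝ) =
      |(n.factorization p : ℝ) - m.factorization p| := by
  rw [Nat.factorization_div (Nat.gcd_dvd_left n m), Nat.factorization_div (Nat.gcd_dvd_right n m),
    Nat.factorization_gcd hn hm]
  simp only [Finsupp.coe_tsub, Pi.sub_apply, Finsupp.inf_apply]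
  rcases le_total (n.factorization p) (m.factorization p) with h | h
  · rw [inf_eq_left.2 h, Nat.sub_self, zero_add, Nat.cast_sub h, abs_of_nonpos, neg_sub]
    have : (n.factorization p : ℝ) ≤ m.factorization p := by exact_mod_cast h
    linarith
  · rw [inf_eq_right.2 h, Nat.sub_self, add_zero, Nat.cast_sub h, abs_of_nonneg]
    have : (m.factorization p : ℝ) ≤ n.factorization p := by exact_mod_cast h
    linarith

theorem sbc_prod (Q : ℝ) (hQ : 0 ≤ Q) (n m : ℕ) (hn : n ≠ 0) (hm : m ≠ 0) (r : ℝ) :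
    ((smp Q (n / n.gcd m) : ℝ) * smp Q (m / n.gcd m)) ^ (1 / r) =
      ∏ p ∈ (Finset.range (⌊Q⌋₊ + 1)).filter Nat.Prime,
        (p : ℝ) ^ (|(n.factorization p : ℝ) - m.factorization p| / r) := by
  have hg : 0 < n.gcd m := Nat.gcd_pos_of_pos_left _ (Nat.pos_of_ne_zero hn)
  have h1 : n / n.gcd m ≠ 0 := by
    have := Nat.div_pos (Nat.le_of_dvd (Nat.pos_of_ne_zero hn) (Nat.gcd_dvd_left n m)) hg
    omega
  have h2 : m / n.gcd m ≠ 0 := by
    have := Nat.div_pos (Nat.le_of_dvd (Nat.pos_of_ne_zero hm) (Nat.gcd_dvd_right n m)) hg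
    omega
  rw [sbc_smp Q hQ _ h1, sbc_smp Q hQ _ h2]
  push_cast
  rw [← Finset.prod_mul_distrib, ← Real.finsetProd_rpow _ _ (fun i _ => by positivity)]
  refine Finset.prod_congr rfl fun p _ => ?_
  rw [← pow_add, ← Real.rpow_natCast, ← Real.rpow_mul (Nat.cast_nonneg p), sbc_fac n m p hn hm,
    mul_one_div]

theorem sbc (h : SB) : SBC := by
  classical
  intro γ C1 hγ hγ'
  obtain ⟨C, hC, hSB⟩ := h γ C1 hγ hγ'
  refine ⟨2 * C * Real.exp C, by positivity, fun Q hQ V W L hL hV hW => ?_⟩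
  have hQ1 : 1 ≤ Q := le_trans (Real.one_le_exp (by norm_num)) hQ
  have hQ0 : 0 < Q := by linarith
  have hms : ∀ V : Finset ℕ, 0 ≤ ms V := fun V => Finset.sum_nonneg fun v _ => Nat.cast_nonneg v
  set P : Finset ℕ := (Finset.range (⌊Q⌋₊ + 1)).filter Nat.Prime with hP
  have hPQ : ∀ p ∈ P, p.Prime ∧ (p : ℝ) ≤ Q := by
    intro p hp
    rw [hP, Finset.mem_filter, Finset.mem_range] at hp
    exact ⟨hp.2, le_trans (by exact_mod_cast Nat.lt_succ_iff.1 hp.1) (Nat.floor_le hQ0.le)⟩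
  have h1 := hSB Q hQ P hPQ V W L hL.le hV hW
  have hS : ∑ p ∈ P, (1 : ℝ) / p ≤ 1 + Real.log Q := by
    have h2 := harmonic_floor_le_one_add_log Q hQ1
    refine le_trans ?_ h2
    have h3 : ((harmonic ⌊Q⌋₊ : ℚ) : ℝ) = ∑ i ∈ Finset.range ⌊Q⌋₊, (1 : ℝ) / ((i + 1 : ℕ) : ℝ) := by
      rw [harmonic]
      push_cast
      exact Finset.sum_congr rfl fun i _ => by rw [one_div]
    rw [h3]
    have h4 : P ⊆ (Finset.range ⌊Q⌋₊).image (fun i => i + 1) := by
      intro p hp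
      rw [hP, Finset.mem_filter, Finset.mem_range] at hp
      rw [Finset.mem_image]
      have := hp.2.pos
      exact ⟨p - 1, Finset.mem_range.2 (by omega), by omega⟩
    refine le_trans (Finset.sum_le_sum_of_subset_of_nonneg h4 fun i _ _ => by positivity) ?_
    rw [Finset.sum_image (fun a _ b _ hab => Nat.succ_injective hab)]
  have hE : Real.exp (C * ∑ p ∈ P, (1 : ℝ) / p) ≤ Real.exp C * Q ^ C := by
    rw [Real.rpow_def_of_pos hQ0, ← Real.exp_add]
    apply Real.exp_le_exp.2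
    have := mul_le_mul_of_nonneg_left hS hC.le
    linarith
  have hpot : 0 ≤ potG γ L V W := by
    unfold potG
    have := hms V
    have := hms W
    positivity
  have h2 : ∑ t ∈ prs V W L, (cg t : ℝ) *
        ((smp Q (cu t) : ℝ) * smp Q (cv t)) ^ (1 / Real.log Q) ≤
      (2 / L) * ∑ t ∈ prs V W L, ((t.1 : ℝ) * t.2) *
        ∏ p ∈ P, (p : ℝ) ^ (|(t.1.factorization p : ℝ) - t.2.factorization p| / Real.log Q) := by
    rw [Finset.mul_sum]
    refine Finset.sum_le_sum fun t ht => ?_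
    rw [prs, Finset.mem_filter, Finset.mem_product] at ht
    have hn : t.1 ≠ 0 := (hV _ ht.1.1).1.ne'
    have hm : t.2 ≠ 0 := (hW _ ht.1.2).1.ne'
    have h3 := sbc_prod Q hQ0.le t.1 t.2 hn hm (Real.log Q)
    unfold cg cu cv
    rw [h3, ← mul_assoc]
    refine mul_le_mul_of_nonneg_right ?_ (Finset.prod_nonneg fun p _ => by positivity)
    have h4 : ((t.1.gcd t.2 : ℕ) : ℝ) * ((t.1.lcm t.2 : ℕ) : ℝ) = (t.1 : ℝ) * t.2 := by
      exact_mod_cast Nat.gcd_mul_lcm t.1 t.2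
    rw [← h4, div_mul_eq_mul_div, le_div_iff₀ hL]
    have h5 : (0 : ℝ) ≤ ((t.1.gcd t.2 : ℕ) : ℝ) := Nat.cast_nonneg _
    nlinarith [ht.2.1]
  refine h2.trans ?_
  refine (mul_le_mul_of_nonneg_left h1 (by positivity)).trans ?_
  have h3 : C * Real.exp (C * ∑ p ∈ P, (1 : ℝ) / p) * potG γ L V W ≤
      C * (Real.exp C * Q ^ C) * potG γ L V W :=
    mul_le_mul_of_nonneg_right (mul_le_mul_of_nonneg_left hE hC.le) hpot
  refine (mul_le_mul_of_nonneg_left h3 (by positivity)).trans ?_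
  have h4 : (2 / L) * (C * (Real.exp C * Q ^ C) * potG γ L V W) =
      2 * C * Real.exp C * Q ^ C * L ^ (1 - 2 * γ) * (ms V * ms W) ^ γ := by
    unfold potG
    have h5 : L ^ (2 * (1 - γ)) = L ^ (1 - 2 * γ) * L := by
      rw [← Real.rpow_add_one hL.ne']
      congr 1
      ring
    rw [h5]
    field_simp
  rw [h4]
  have h6 : Q ^ C ≤ Q ^ (2 * C * Real.exp C) := by
    apply Real.rpow_le_rpow_of_exponent_le hQ1
    have := Real.one_le_exp hC.le
    nlinarith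
  have h7 : (0 : ℝ) ≤ L ^ (1 - 2 * γ) := by positivity
  have h8 : (0 : ℝ) ≤ (ms V * ms W) ^ γ := by
    have := hms V
    have := hms W
    positivity
  exact mul_le_mul_of_nonneg_right (mul_le_mul_of_nonneg_right
    (mul_le_mul_of_nonneg_left h6 (by positivity)) h7) h8

end Pool.Agent.MP_0863b8.C2

end
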