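import Pool.Agent.Work.MP_0863b8_nt.Bd.B05
import Pool.Agent.Work.MP_0863b8_nt.Bd.B01
import Pool.Agent.Work.MP_0863b8_nt.Bd.B02
import Pool.Agent.Work.MP_0863b8_nt.R.Defs

/-! Bundle of small proof modules (one section per former module). -/

section

/-!
MP_0863b8_nt, CASE I, item Big: smooth pairs with large product.
-/

set_option autoImplicit false

namespace Pool.Agent.MP_0863b8.C1

open Finset
open F (ms en share)
open G (potG)
open F.StepAux (ms_nonneg ms_pos ms_part sum_share_le)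

namespace Big

/-! ### numerical part -/

private theorem geo_aux (ρ : ℝ) (h0 : 0 ≤ ρ) (h1 : ρ < 1) (s : Finset ℕ) :
    ∑ k ∈ s, ρ ^ k ≤ 1 / (1 - ρ) := by
  have hs : Summable fun k : ℕ => ρ ^ k := summable_geometric_of_lt_one h0 h1
  refine (hs.sum_le_tsum s (fun i _ => by positivity)).trans (le_of_eq ?_)
  rw [tsum_geometric_of_lt_one h0 h1, one_div]

private theorem geo (ρ : ℝ) (h0 : 0 ≤ ρ) (h1 : ρ < 1) (i N : ℕ) :
    ∑ j ∈ range N, ρ ^ ((i - j) + (j - i)) ≤ 2 * (1 / (1 - ρ)) := by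
  have e1 : ∀ j ∈ range N, ρ ^ ((i - j) + (j - i)) ≤
      (if j ≤ i then ρ ^ (i - j) else 0) + (if i < j then ρ ^ (j - i) else 0) := by
    intro j _
    rcases le_or_gt j i with h | h
    · rw [if_pos h, if_neg (by omega), add_zero]
      have : i - j + (j - i) = i - j := by omega
      rw [this]
    · rw [if_neg (by omega), if_pos h, zero_add]
      have : i - j + (j - i) = j - i := by omega
      rw [this]
  refine (sum_le_sum e1).trans ?_
  rw [sum_add_distrib, ← sum_filter, ← sum_filter, two_mul]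
  refine add_le_add ?_ ?_
  · have hinj : Set.InjOn (fun j => i - j) ((range N).filter fun j => j ≤ i) := by
      intro a ha b hb hab
      simp only [coe_filter, Set.mem_ofPred_eq] at ha hb
      simp only at hab
      omega
    rw [← sum_image (f := fun k => ρ ^ k) hinj]
    exact geo_aux ρ h0 h1 _
  · have hinj : Set.InjOn (fun j => j - i) ((range N).filter fun j => i < j) := by
      intro a ha b hb hab
      simp only [coe_filter, Set.mem_ofPred_eq] at ha hb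
      simp only at hab
      omega
    rw [← sum_image (f := fun k => ρ ^ k) hinj]
    exact geo_aux ρ h0 h1 _

private theorem pair_le {γ : ℝ} (hγ : 1 / 2 < γ) {a b : ℝ} (ha : 0 ≤ a) (hb : 0 ≤ b)
    (ha1 : a ≤ 1) (hb1 : b ≤ 1) : (a * b) ^ γ ≤ (a + b) / 2 := by
  have hab : 0 ≤ a * b := mul_nonneg ha hb
  have hab1 : a * b ≤ 1 := mul_le_one₀ ha1 hb hb1
  have h1 : (a * b) ^ γ ≤ (a * b) ^ ((1:ℝ)/2) :=
    Real.rpow_le_rpow_of_exponent_ge' hab hab1 (by norm_num) hγ.le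
  rw [← Real.sqrt_eq_rpow] at h1
  refine h1.trans ?_
  rw [Real.sqrt_le_left (by linarith)]
  nlinarith [sq_nonneg (a - b)]

/-- the crude bound -/
private theorem crude {γ ρ : ℝ} (hγ : 1 / 2 < γ) (h0 : 0 ≤ ρ) (h1 : ρ < 1) (N : ℕ)
    (x y : ℕ → ℝ) (hx : ∀ i, 0 ≤ x i) (hy : ∀ i, 0 ≤ y i)
    (hx1 : ∑ i ∈ range N, x i ≤ 1) (hy1 : ∑ i ∈ range N, y i ≤ 1) :
    ∑ i ∈ range N, ∑ j ∈ range N, ρ ^ ((i - j) + (j - i)) * (x i * y j) ^ γ ≤
      2 * (1 / (1 - ρ)) := by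
  set K := 2 * (1 / (1 - ρ)) with hK
  have hx' : ∀ i ∈ range N, x i ≤ 1 := fun i hi =>
    (single_le_sum (fun j _ => hx j) hi).trans hx1
  have hy' : ∀ i ∈ range N, y i ≤ 1 := fun i hi =>
    (single_le_sum (fun j _ => hy j) hi).trans hy1
  have s1 : ∑ i ∈ range N, ∑ j ∈ range N, ρ ^ ((i - j) + (j - i)) * x i ≤ K := by
    calc ∑ i ∈ range N, ∑ j ∈ range N, ρ ^ ((i - j) + (j - i)) * x i
        = ∑ i ∈ range N, (∑ j ∈ range N, ρ ^ ((i - j) + (j - i))) * x i := by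
          refine sum_congr rfl fun i _ => ?_
          rw [sum_mul]
      _ ≤ ∑ i ∈ range N, K * x i :=
          sum_le_sum fun i _ => mul_le_mul_of_nonneg_right (geo ρ h0 h1 i N) (hx i)
      _ = K * ∑ i ∈ range N, x i := by rw [mul_sum]
      _ ≤ K * 1 := by
          apply mul_le_mul_of_nonneg_left hx1
          have : 0 < 1 - ρ := by linarith
          positivity
      _ = K := mul_one K
  have s2 : ∑ i ∈ range N, ∑ j ∈ range N, ρ ^ ((i - j) + (j - i)) * y j ≤ K := by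
    rw [sum_comm]
    calc ∑ j ∈ range N, ∑ i ∈ range N, ρ ^ ((i - j) + (j - i)) * y j
        = ∑ j ∈ range N, (∑ i ∈ range N, ρ ^ ((j - i) + (i - j))) * y j := by
          refine sum_congr rfl fun j _ => ?_
          rw [sum_mul]
          refine sum_congr rfl fun i _ => ?_
          rw [add_comm (i - j)]
      _ ≤ ∑ j ∈ range N, K * y j :=
          sum_le_sum fun j _ => mul_le_mul_of_nonneg_right (geo ρ h0 h1 j N) (hy j)
      _ = K * ∑ i ∈ range N, y i := by rw [mul_sum]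
      _ ≤ K * 1 := by
          apply mul_le_mul_of_nonneg_left hy1
          have : 0 < 1 - ρ := by linarith
          positivity
      _ = K := mul_one K
  calc ∑ i ∈ range N, ∑ j ∈ range N, ρ ^ ((i - j) + (j - i)) * (x i * y j) ^ γ
      ≤ ∑ i ∈ range N, ∑ j ∈ range N, (ρ ^ ((i - j) + (j - i)) * x i / 2 +
          ρ ^ ((i - j) + (j - i)) * y j / 2) := by
        refine sum_le_sum fun i hi => sum_le_sum fun j hj => ?_
        have := pair_le hγ (hx i) (hy j) (hx' i hi) (hy' j hj)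
        have h3 : 0 ≤ ρ ^ ((i - j) + (j - i)) := pow_nonneg h0 _
        calc ρ ^ ((i - j) + (j - i)) * (x i * y j) ^ γ
            ≤ ρ ^ ((i - j) + (j - i)) * ((x i + y j) / 2) := mul_le_mul_of_nonneg_left this h3
          _ = _ := by ring
    _ = (∑ i ∈ range N, ∑ j ∈ range N, ρ ^ ((i - j) + (j - i)) * x i) / 2 +
        (∑ i ∈ range N, ∑ j ∈ range N, ρ ^ ((i - j) + (j - i)) * y j) / 2 := by
        simp only [sum_add_distrib, sum_div]
    _ ≤ K / 2 + K / 2 := by linarith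
    _ = K := by ring

/-- the bound for the node sum -/
private theorem nodeBound (hN : G.NodeG) (γ : ℝ) (hγ : 1 / 2 < γ) (hγ1 : γ ≤ 5 / 9) :
    ∃ C' : ℝ, 0 < C' ∧ ∀ (y : ℝ), 1 < y → 1 / Real.log y ≤ (1 - γ) / 2 →
      ∀ l : ℕ, 2 ≤ l → (l : ℝ) ≤ y → ∀ N : ℕ, 0 < N → ∀ x z : ℕ → ℝ, (∀ i, 0 ≤ x i) →
      (∀ i, 0 ≤ z i) → ∑ i ∈ range N, x i ≤ 1 → ∑ i ∈ range N, z i ≤ 1 →
      ∑ i ∈ range N, ∑ j ∈ range N, (l : ℝ) ^ (-((1 - γ - 1 / Real.log y) * |(i : ℝ) - j|)) *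
        (x i * z j) ^ γ ≤ Real.exp (C' / l) := by
  obtain ⟨C, c, hC, hc, hnode⟩ := hN γ hγ hγ1
  have hγ' : 0 < 1 - γ := by linarith
  set r0 : ℝ := (2 : ℝ) ^ (-((1 - γ) / 2)) with hr0
  have hr00 : 0 < r0 := Real.rpow_pos_of_pos (by norm_num) _
  have hr01 : r0 < 1 := Real.rpow_lt_one_of_one_lt_of_neg (by norm_num) (by linarith)
  set K := 2 * (1 / (1 - r0)) with hK
  have hK1 : 1 ≤ K := by
    have h1 : 1 ≤ 1 / (1 - r0) := by
      rw [le_div_iff₀ (by linarith)]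
      linarith
    linarith
  have hlogK : 0 ≤ Real.log K := Real.log_nonneg hK1
  refine ⟨C * Real.exp (1 / (1 - γ)) + 4 * Real.log K, by positivity, ?_⟩
  intro y hy hσ l hl hly N hN0 x z hx hz hx1 hz1
  have hlogy : 0 < Real.log y := Real.log_pos hy
  set σ := 1 / Real.log y with hσd
  have hσ0 : 0 < σ := by positivity
  have hl0 : (0 : ℝ) < l := by
    have : 0 < l := by omega
    exact_mod_cast this
  have hl2 : (2 : ℝ) ≤ l := by exact_mod_cast hl
  have hl1 : (1 : ℝ) ≤ l := by linarith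
  set a := (1 - γ - σ) / (1 - γ) with ha
  have haγ : a * (1 - γ) = 1 - γ - σ := by
    rw [ha]
    field_simp
  have ha2 : 1 / 2 ≤ a := by
    rw [ha, le_div_iff₀ hγ']
    linarith
  set lam := (l : ℝ) ^ a with hlam
  have hlam0 : 0 < lam := Real.rpow_pos_of_pos hl0 _
  have hker : ∀ i j : ℕ, (l : ℝ) ^ (-((1 - γ - σ) * |(i : ℝ) - j|)) =
      lam ^ (-((1 - γ) * |(i : ℝ) - j|)) := by
    intro i j
    rw [hlam, ← Real.rpow_mul hl0.le, ← haγ]
    congr 1
    ring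
  by_cases hl2' : 2 ≤ lam
  · -- large primes
    obtain ⟨m, hm, hle⟩ := hnode lam hl2' N hN0 x z hx hz hx1 hz1
    have hxm : x m ≤ 1 := (single_le_sum (fun j _ => hx j) (mem_range.2 hm)).trans hx1
    have hzm : z m ≤ 1 := (single_le_sum (fun j _ => hz j) (mem_range.2 hm)).trans hz1
    have h1 : ∑ i ∈ range N, ∑ j ∈ range N, (l : ℝ) ^ (-((1 - γ - σ) * |(i : ℝ) - j|)) *
        (x i * z j) ^ γ ≤ 1 + C / lam := by
      have h2 : ∑ i ∈ range N, ∑ j ∈ range N, (l : ℝ) ^ (-((1 - γ - σ) * |(i : ℝ) - j|)) *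
          (x i * z j) ^ γ = ∑ i ∈ range N, ∑ j ∈ range N,
          lam ^ (-((1 - γ) * |(i : ℝ) - j|)) * (x i * z j) ^ γ := by
        refine sum_congr rfl fun i _ => sum_congr rfl fun j _ => ?_
        rw [hker]
      rw [h2]
      refine hle.trans ?_
      have h3 : 0 ≤ c * ((1 - x m) + (1 - z m)) := mul_nonneg hc.le (by linarith)
      linarith
    have h4 : C / lam ≤ C * Real.exp (1 / (1 - γ)) / l := by
      rw [div_le_div_iff₀ hlam0 hl0]
      have h5 : (l : ℝ) = lam * (l : ℝ) ^ (σ / (1 - γ)) := by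
        rw [hlam, ← Real.rpow_add hl0]
        have : a + σ / (1 - γ) = 1 := by
          rw [ha]
          field_simp
          ring
        rw [this, Real.rpow_one]
      have h6 : (l : ℝ) ^ (σ / (1 - γ)) ≤ Real.exp (1 / (1 - γ)) := by
        rw [Real.rpow_def_of_pos hl0]
        apply Real.exp_le_exp.2
        rw [mul_div_assoc']
        apply div_le_div_of_nonneg_right _ hγ'.le
        rw [hσd, mul_one_div, div_le_one hlogy]
        exact Real.log_le_log hl0 hly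
      calc C * (l : ℝ) = C * (lam * (l : ℝ) ^ (σ / (1 - γ))) := by rw [← h5]
        _ ≤ C * (lam * Real.exp (1 / (1 - γ))) :=
          mul_le_mul_of_nonneg_left (mul_le_mul_of_nonneg_left h6 hlam0.le) hC.le
        _ = C * Real.exp (1 / (1 - γ)) * lam := by ring
    calc _ ≤ 1 + C / lam := h1
      _ ≤ 1 + C * Real.exp (1 / (1 - γ)) / l := by linarith
      _ ≤ Real.exp (C * Real.exp (1 / (1 - γ)) / l) := by
          have := Real.add_one_le_exp (C * Real.exp (1 / (1 - γ)) / l)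
          linarith
      _ ≤ _ := by
          apply Real.exp_le_exp.2
          apply div_le_div_of_nonneg_right _ hl0.le
          linarith
  · -- small primes
    have hl4 : (l : ℝ) ≤ 4 := by
      by_contra hcon
      have hcon' : (4 : ℝ) < l := not_le.mp hcon
      apply hl2'
      calc (2 : ℝ) = (4 : ℝ) ^ ((1 : ℝ) / 2) := by
            rw [← Real.sqrt_eq_rpow]
            rw [show (4 : ℝ) = 2 ^ 2 by norm_num, Real.sqrt_sq (by norm_num)]
        _ ≤ (l : ℝ) ^ ((1 : ℝ) / 2) := Real.rpow_le_rpow (by norm_num) hcon'.le (by norm_num)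
        _ ≤ lam := Real.rpow_le_rpow_of_exponent_le hl1 ha2
    have h1 : ∀ i j : ℕ, (l : ℝ) ^ (-((1 - γ - σ) * |(i : ℝ) - j|)) ≤
        r0 ^ ((i - j) + (j - i)) := by
      intro i j
      rw [← Real.rpow_natCast r0, F.sub_add_sub_cast, hr0, ← Real.rpow_mul (by norm_num)]
      have hab : 0 ≤ |(i : ℝ) - j| := abs_nonneg _
      have e1 : -((1 - γ - σ) * |(i : ℝ) - j|) ≤ -((1 - γ) / 2) * |(i : ℝ) - j| := by
        have : (1 - γ) / 2 * |(i : ℝ) - j| ≤ (1 - γ - σ) * |(i : ℝ) - j| :=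
          mul_le_mul_of_nonneg_right (by linarith) hab
        linarith
      calc (l : ℝ) ^ (-((1 - γ - σ) * |(i : ℝ) - j|))
          ≤ (l : ℝ) ^ (-((1 - γ) / 2) * |(i : ℝ) - j|) :=
            Real.rpow_le_rpow_of_exponent_le hl1 e1
        _ ≤ (2 : ℝ) ^ (-((1 - γ) / 2) * |(i : ℝ) - j|) := by
            apply Real.rpow_le_rpow_of_nonpos (by norm_num) hl2
            have : 0 ≤ (1 - γ) / 2 * |(i : ℝ) - j| := mul_nonneg (by linarith) hab
            linarith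
    calc _ ≤ ∑ i ∈ range N, ∑ j ∈ range N, r0 ^ ((i - j) + (j - i)) * (x i * z j) ^ γ := by
          refine sum_le_sum fun i _ => sum_le_sum fun j _ => ?_
          exact mul_le_mul_of_nonneg_right (h1 i j)
            (Real.rpow_nonneg (mul_nonneg (hx i) (hz j)) _)
      _ ≤ K := crude hγ hr00.le hr01 N x z hx hz hx1 hz1
      _ = Real.exp (Real.log K) := (Real.exp_log (by linarith)).symm
      _ ≤ _ := by
          apply Real.exp_le_exp.2
          rw [le_div_iff₀ hl0]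
          have h2 : Real.log K * l ≤ Real.log K * 4 := mul_le_mul_of_nonneg_left hl4 hlogK
          have h3 : 0 < C * Real.exp (1 / (1 - γ)) := by positivity
          linarith

/-! ### weighted energy -/

/-- the weight of a pair -/
noncomputable def wp (σ : ℝ) (P : Finset ℕ) (t : ℕ × ℕ) : ℝ :=
  ∏ p ∈ P, (p : ℝ) ^ (σ * |(t.1.factorization p : ℝ) - t.2.factorization p|)

theorem wp_nonneg (σ : ℝ) (P : Finset ℕ) (t : ℕ × ℕ) : 0 ≤ wp σ P t :=
  Finset.prod_nonneg fun p _ => Real.rpow_nonneg (Nat.cast_nonneg p) _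

/-- the pairs with lcm in `(L/2, L]` -/
noncomputable def prs (V W : Finset ℕ) (L : ℝ) : Finset (ℕ × ℕ) := by
  classical
  exact (V ×ˢ W).filter (fun t => L / 2 < ((t.1.lcm t.2 : ℕ) : ℝ) ∧
      ((t.1.lcm t.2 : ℕ) : ℝ) ≤ L)

theorem mem_prs {V W : Finset ℕ} {L : ℝ} {t : ℕ × ℕ} :
    t ∈ prs V W L ↔ (t.1 ∈ V ∧ t.2 ∈ W) ∧ L / 2 < ((t.1.lcm t.2 : ℕ) : ℝ) ∧
      ((t.1.lcm t.2 : ℕ) : ℝ) ≤ L := by
  unfold prs
  rw [mem_filter, mem_product]

theorem en_all {V W : Finset ℕ} {L : ℝ} (P : Set ℕ) (Q : Set (ℕ × ℕ)) (hP : ∀ x, x ∈ P)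
    (hQ : ∀ x, x ∈ Q) : en P V W L Q = ∑ t ∈ prs V W L, (t.1 : ℝ) * t.2 := by
  classical
  unfold en
  refine Finset.sum_congr ?_ (fun _ _ => rfl)
  ext t
  rw [mem_prs, Finset.mem_filter, Finset.mem_product]
  constructor
  · rintro ⟨h1, h2, h3, h4, h5⟩
    exact ⟨h1, h2, h3⟩
  · rintro ⟨h1, h2, h3⟩
    exact ⟨h1, h2, h3, hQ _, fun p _ => hP p⟩

/-- weighted energy -/
noncomputable def we (σ : ℝ) (P : Finset ℕ) (V W : Finset ℕ) (L : ℝ) : ℝ :=
  ∑ t ∈ prs V W L, (t.1 : ℝ) * t.2 * wp σ P t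

theorem split (σ : ℝ) (P : Finset ℕ) (l : ℕ) (hl : l.Prime) (hlP : l ∉ P) (V W : Finset ℕ) (L : ℝ)
    (N : ℕ) (hV : ∀ v ∈ V, 0 < v ∧ v.factorization l < N)
    (hW : ∀ w ∈ W, 0 < w ∧ w.factorization l < N) :
    we σ (insert l P) V W L ≤ ∑ i ∈ range N, ∑ j ∈ range N,
      (l:ℝ) ^ (i + j) * ((l : ℝ) ^ (σ * |(i : ℝ) - j|) *
        we σ P (part l i V) (part l j W) (L / (l:ℝ) ^ (max i j))) := by
  classical
  have hl0 : 0 < l := hl.pos
  have hlR : (0:ℝ) < l := by exact_mod_cast hl0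
  set f : ℕ × ℕ → ℕ × ℕ := fun t => (t.1.factorization l, t.2.factorization l) with hf
  have hmaps : ∀ t ∈ prs V W L, f t ∈ (Finset.range N ×ˢ Finset.range N : Finset (ℕ × ℕ)) := by
    intro t ht
    rw [mem_prs] at ht
    rw [Finset.mem_product, Finset.mem_range, Finset.mem_range]
    exact ⟨(hV _ ht.1.1).2, (hW _ ht.1.2).2⟩
  unfold we
  rw [← Finset.sum_fiberwise_of_maps_to hmaps, Finset.sum_product]
  refine Finset.sum_le_sum fun i _ => Finset.sum_le_sum fun j _ => ?_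
  -- the map
  set g : ℕ × ℕ → ℕ × ℕ := fun t => (t.1 / l ^ i, t.2 / l ^ j) with hg
  -- facts about one pair of the fibre
  have key : ∀ t ∈ (prs V W L).filter (fun t => f t = (i, j)),
      (t.1 : ℝ) * t.2 * wp σ (insert l P) t = (l:ℝ) ^ (i + j) * ((l : ℝ) ^ (σ * |(i : ℝ) - j|) *
        (((g t).1 : ℝ) * (g t).2 * wp σ P (g t))) ∧
      g t ∈ prs (part l i V) (part l j W) (L / (l:ℝ) ^ (max i j)) := by
    intro t ht
    rw [Finset.mem_filter, mem_prs] at ht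
    obtain ⟨⟨⟨hv, hw⟩, hL1, hL2⟩, hij⟩ := ht
    obtain ⟨v, w⟩ := t
    simp only [hf, Prod.mk.injEq] at hij hv hw hL1 hL2
    obtain ⟨hi, hj⟩ := hij
    have hv0 := (hV v hv).1
    have hw0 := (hW w hw).1
    set v' := v / l ^ i with hv'
    set w' := w / l ^ j with hw'
    have ev : v = l ^ i * v' := by
      rw [hv', ← hi, mul_comm]
      exact (Nat.div_mul_cancel (Nat.ordProj_dvd v l)).symm
    have ew : w = l ^ j * w' := by
      rw [hw', ← hj, mul_comm]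
      exact (Nat.div_mul_cancel (Nat.ordProj_dvd w l)).symm
    have hv'l : ¬ l ∣ v' := by
      rw [hv', ← hi]
      exact Nat.not_dvd_ordCompl hl hv0.ne'
    have hw'l : ¬ l ∣ w' := by
      rw [hw', ← hj]
      exact Nat.not_dvd_ordCompl hl hw0.ne'
    have hv'0 : 0 < v' := Nat.pos_of_ne_zero fun h => hv'l (by rw [h]; exact dvd_zero l)
    have hw'0 : 0 < w' := Nat.pos_of_ne_zero fun h => hw'l (by rw [h]; exact dvd_zero l)
    have hgg := gcd_split hl hv'l hw'l i j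
    rw [← ev, ← ew] at hgg
    have hlcm : v.lcm w = l ^ (max i j) * v'.lcm w' := by
      have h1 := Nat.gcd_mul_lcm v w
      have h2 := Nat.gcd_mul_lcm v' w'
      have h3 : 0 < l ^ (min i j) * v'.gcd w' :=
        Nat.mul_pos (pow_pos hl0 _) (Nat.gcd_pos_of_pos_left _ hv'0)
      apply Nat.eq_of_mul_eq_mul_left h3
      rw [← hgg, h1, hgg]
      have h4 : l ^ i * l ^ j = l ^ (min i j) * l ^ (max i j) := by
        rw [← pow_add, ← pow_add]
        congr 1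
        omega
      calc v * w = (l ^ i * v') * (l ^ j * w') := by rw [← ev, ← ew]
        _ = (l ^ i * l ^ j) * (v' * w') := by ring
        _ = (l ^ (min i j) * l ^ (max i j)) * (v'.gcd w' * v'.lcm w') := by rw [h4, h2]
        _ = _ := by ring
    have hpow : (0:ℝ) < (l:ℝ) ^ (max i j) := by positivity
    have hlcmR : ((v.lcm w : ℕ) : ℝ) = (l:ℝ) ^ (max i j) * ((v'.lcm w' : ℕ) : ℝ) := by
      rw [hlcm]; push_cast; ring
    -- factorizations
    have hfac : ∀ (u : ℕ) (k p : ℕ), 0 < u → p ≠ l →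
        (l ^ k * u).factorization p = u.factorization p := by
      intro u k p hu hp
      rw [Nat.factorization_mul (pow_pos hl0 _).ne' hu.ne', Nat.factorization_pow,
        Finsupp.add_apply, Finsupp.smul_apply, hl.factorization, Finsupp.single_apply,
        if_neg (Ne.symm hp)]
      simp
    refine ⟨?_, ?_⟩
    · show (v:ℝ) * w * wp σ (insert l P) (v, w) =
        (l:ℝ) ^ (i + j) * ((l : ℝ) ^ (σ * |(i : ℝ) - j|) * ((v':ℝ) * w' * wp σ P (v', w')))
      have e1 : (v:ℝ) = (l:ℝ) ^ i * v' := by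
        conv_lhs => rw [ev]
        push_cast; ring
      have e2 : (w:ℝ) = (l:ℝ) ^ j * w' := by
        conv_lhs => rw [ew]
        push_cast; ring
      have e3 : wp σ (insert l P) (v, w) = (l : ℝ) ^ (σ * |(i : ℝ) - j|) * wp σ P (v', w') := by
        unfold wp
        rw [Finset.prod_insert hlP]
        congr 1
        · simp only
          rw [hi, hj]
        · refine Finset.prod_congr rfl fun p hp => ?_
          have hpl : p ≠ l := fun h => hlP (h ▸ hp)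
          simp only
          have e4 : v.factorization p = v'.factorization p := by
            conv_lhs => rw [ev]
            exact hfac v' i p hv'0 hpl
          have e5 : w.factorization p = w'.factorization p := by
            conv_lhs => rw [ew]
            exact hfac w' j p hw'0 hpl
          rw [e4, e5]
      rw [e3, e1, e2, pow_add]
      ring
    · show (v', w') ∈ _
      rw [mem_prs]
      refine ⟨⟨?_, ?_⟩, ?_, ?_⟩
      · unfold part
        exact Finset.mem_image.2 ⟨v, Finset.mem_filter.2 ⟨hv, hi⟩, rfl⟩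
      · unfold part
        exact Finset.mem_image.2 ⟨w, Finset.mem_filter.2 ⟨hw, hj⟩, rfl⟩
      · show L / (l:ℝ) ^ (max i j) / 2 < ((v'.lcm w' : ℕ) : ℝ)
        rw [hlcmR] at hL1
        rw [div_div, mul_comm, ← div_div, div_lt_iff₀ hpow]
        linarith
      · show ((v'.lcm w' : ℕ) : ℝ) ≤ L / (l:ℝ) ^ (max i j)
        rw [hlcmR] at hL2
        rw [le_div_iff₀ hpow]
        linarith
  have hinj : Set.InjOn g ((prs V W L).filter (fun t => f t = (i, j)) : Finset (ℕ × ℕ)) := by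
    intro t ht t' ht' heq
    rw [Finset.mem_coe, Finset.mem_filter] at ht ht'
    obtain ⟨v, w⟩ := t
    obtain ⟨v', w'⟩ := t'
    simp only [hf, hg, Prod.mk.injEq] at ht ht' heq ⊢
    obtain ⟨-, h1, h2⟩ := ht
    obtain ⟨-, h1', h2'⟩ := ht'
    have e1 : v = v / l ^ i * l ^ i := by
      rw [← h1]; exact (Nat.div_mul_cancel (Nat.ordProj_dvd v l)).symm
    have e2 : w = w / l ^ j * l ^ j := by
      rw [← h2]; exact (Nat.div_mul_cancel (Nat.ordProj_dvd w l)).symm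
    have e1' : v' = v' / l ^ i * l ^ i := by
      rw [← h1']; exact (Nat.div_mul_cancel (Nat.ordProj_dvd v' l)).symm
    have e2' : w' = w' / l ^ j * l ^ j := by
      rw [← h2']; exact (Nat.div_mul_cancel (Nat.ordProj_dvd w' l)).symm
    exact ⟨by rw [e1, e1', heq.1], by rw [e2, e2', heq.2]⟩
  rw [Finset.sum_congr rfl (fun t ht => (key t ht).1), ← Finset.mul_sum, ← Finset.mul_sum]
  refine mul_le_mul_of_nonneg_left ?_ (by positivity)
  refine mul_le_mul_of_nonneg_left ?_ (by positivity)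
  rw [← Finset.sum_image (f := fun t : ℕ × ℕ => (t.1:ℝ) * t.2 * wp σ P t) hinj]
  refine Finset.sum_le_sum_of_subset_of_nonneg ?_
    (fun t _ _ => mul_nonneg (by positivity) (wp_nonneg σ P t))
  intro t ht
  obtain ⟨s, hs, rfl⟩ := Finset.mem_image.1 ht
  exact (key s hs).2

/-! ### the step -/

private theorem st_expo (l : ℝ) (hl : 0 < l) (γ : ℝ) (i j : ℕ) :
    l ^ (i + j) * (((l ^ (max i j))⁻¹) ^ (2 * (1 - γ)) *
      ((l ^ i)⁻¹ * (l ^ j)⁻¹) ^ γ) =
    l ^ (-((1 - γ) * |(i:ℝ) - j|)) := by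
  have e1 : l ^ (i + j) = l ^ (((i:ℝ) + j)) := by
    rw [← Real.rpow_natCast]; push_cast; rfl
  have e3 : ((l ^ (max i j))⁻¹) ^ (2 * (1 - γ)) =
      l ^ (-(((max i j : ℕ) : ℝ) * (2 * (1 - γ)))) := by
    rw [← Real.rpow_natCast, ← Real.rpow_neg hl.le, ← Real.rpow_mul hl.le]
    congr 1
    ring
  have e4 : ((l ^ i)⁻¹ * (l ^ j)⁻¹) ^ γ = l ^ (-(((i:ℝ) + j) * γ)) := by
    rw [← mul_inv, ← pow_add, ← Real.rpow_natCast, ← Real.rpow_neg hl.le, ← Real.rpow_mul hl.le]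
    congr 1
    push_cast
    ring
  rw [e1, e3, e4, ← Real.rpow_add hl, ← Real.rpow_add hl]
  congr 1
  rcases le_total i j with h | h
  · have h' : (i:ℝ) ≤ j := by exact_mod_cast h
    rw [abs_of_nonpos (by linarith), max_eq_right h]
    ring
  · have h' : (j:ℝ) ≤ i := by exact_mod_cast h
    rw [abs_of_nonneg (by linarith), max_eq_left h]
    ring

private theorem st_piece (l i j : ℕ) (hl : l.Prime) (γ L D : ℝ) (hL : 0 ≤ L)
    (V W : Finset ℕ) (hV : 0 < ms V) (hW : 0 < ms W) :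
    (l:ℝ) ^ (i + j) * (D * potG γ (L / (l:ℝ) ^ (max i j)) (part l i V) (part l j W)) =
      D * potG γ L V W * ((l:ℝ) ^ (-((1 - γ) * |(i:ℝ) - j|)) *
        (share l i V * share l j W) ^ γ) := by
  have hl0 : (0:ℝ) < l := by exact_mod_cast hl.pos
  rw [← st_expo (l:ℝ) hl0 γ i j]
  have hx : 0 ≤ share l i V := div_nonneg (ms_nonneg _) hV.le
  have hy : 0 ≤ share l j W := div_nonneg (ms_nonneg _) hW.le
  have eV : ms (part l i V) = ms V * share l i V * ((l:ℝ) ^ i)⁻¹ := by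
    rw [ms_part l i hl V, share]
    field_simp
  have eW : ms (part l j W) = ms W * share l j W * ((l:ℝ) ^ j)⁻¹ := by
    rw [ms_part l j hl W, share]
    field_simp
  have e2 : (L / (l:ℝ) ^ (max i j)) ^ (2 * (1 - γ)) =
      L ^ (2 * (1 - γ)) * (((l:ℝ) ^ (max i j))⁻¹) ^ (2 * (1 - γ)) := by
    rw [div_eq_mul_inv]
    exact Real.mul_rpow hL (by positivity)
  have e3 : (ms (part l i V) * ms (part l j W)) ^ γ =
      (ms V * ms W) ^ γ * (share l i V * share l j W) ^ γ *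
        (((l:ℝ) ^ i)⁻¹ * ((l:ℝ) ^ j)⁻¹) ^ γ := by
    rw [← Real.mul_rpow (by positivity) (by positivity), ← Real.mul_rpow (by positivity)
      (by positivity), eV, eW]
    congr 1
    ring
  unfold potG
  rw [e2, e3]
  ring

private theorem part_rp (l i : ℕ) (V : Finset ℕ) (C1 : ℝ)
    (hV : ∀ v ∈ V, 0 < v ∧ rp v ≤ C1) : ∀ u ∈ part l i V, 0 < u ∧ rp u ≤ C1 := by
  intro u hu
  unfold part at hu
  rw [mem_image] at hu
  obtain ⟨v, hv, rfl⟩ := hu
  rw [mem_filter] at hv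
  have hd : l ^ i ∣ v := by
    have := Nat.ordProj_dvd v l
    rwa [hv.2] at this
  have hv0 := (hV v hv.1).1
  have hpos : 0 < v / l ^ i := Nat.div_pos (Nat.le_of_dvd hv0 hd) (Nat.pos_of_dvd_of_pos hd hv0)
  refine ⟨hpos, le_trans ?_ (hV v hv.1).2⟩
  unfold rp
  refine sum_le_sum_of_subset_of_nonneg ?_ (fun p _ _ => by positivity)
  exact Nat.primeFactors_mono (Nat.div_dvd_of_dvd hd) hv0.ne'

/-- the weighted tree inequality -/
theorem wtree (hN : G.NodeG) (hT : G.TreeG) (γ C1 : ℝ) (hγ : 1 / 2 < γ) (hγ1 : γ ≤ 5 / 9) :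
    ∃ C' CT : ℝ, 0 < C' ∧ 0 < CT ∧ ∀ (y : ℝ), 1 < y → 1 / Real.log y ≤ (1 - γ) / 2 →
      ∀ P : Finset ℕ, (∀ p ∈ P, p.Prime ∧ (p : ℝ) ≤ y) →
      ∀ (V W : Finset ℕ) (L : ℝ), 0 ≤ L →
      (∀ v ∈ V, 0 < v ∧ rp v ≤ C1) → (∀ w ∈ W, 0 < w ∧ rp w ≤ C1) →
      we (1 / Real.log y) P V W L ≤ CT * Real.exp (∑ p ∈ P, C' / p) * potG γ L V W := by
  classical
  obtain ⟨C', hC', hnb⟩ := nodeBound hN γ hγ hγ1
  obtain ⟨CT, hCT, htree⟩ := hT γ C1 hγ hγ1
  refine ⟨C', CT, hC', hCT, ?_⟩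
  intro y hy hσ P
  set σ := 1 / Real.log y with hσd
  have hpot : ∀ (V W : Finset ℕ) (L : ℝ), 0 ≤ L → 0 ≤ potG γ L V W := by
    intro V W L hL
    have h1 := ms_nonneg V
    have h2 := ms_nonneg W
    unfold potG
    positivity
  induction P using Finset.induction_on with
  | empty =>
    intro _ V W L hL hV hW
    have h := htree V W L hL hV hW
    rw [Finset.sum_empty, Real.exp_zero, mul_one]
    refine le_trans (le_of_eq ?_) h
    rw [en_all Set.univ Set.univ (fun _ => trivial) (fun _ => trivial)]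
    unfold we
    refine Finset.sum_congr rfl fun t _ => ?_
    simp [wp]
  | insert l P hl ih =>
    intro hP V W L hL hV hW
    obtain ⟨hlp, hly⟩ := hP l (Finset.mem_insert_self _ _)
    have hl0 : (0 : ℝ) < l := by exact_mod_cast hlp.pos
    have ih' := ih (fun p hp => hP p (Finset.mem_insert_of_mem hp))
    have hrhs : 0 ≤ CT * Real.exp (∑ p ∈ insert l P, C' / p) * potG γ L V W :=
      mul_nonneg (by positivity) (hpot V W L hL)
    rcases V.eq_empty_or_nonempty with hVe | hVne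
    · have : we σ (insert l P) V W L = 0 := by
        unfold we prs
        rw [hVe]
        simp
      rw [this]
      exact hrhs
    rcases W.eq_empty_or_nonempty with hWe | hWne
    · have : we σ (insert l P) V W L = 0 := by
        unfold we prs
        rw [hWe]
        simp
      rw [this]
      exact hrhs
    have hVc : 0 < ms V := ms_pos hVne (fun v hv => (hV v hv).1)
    have hWc : 0 < ms W := ms_pos hWne (fun v hv => (hW v hv).1)
    set N : ℕ := (V ∪ W).sup (fun v => v.factorization l) + 1 with hNd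
    have hVN : ∀ v ∈ V, 0 < v ∧ v.factorization l < N := by
      intro v hv
      refine ⟨(hV v hv).1, ?_⟩
      have := Finset.le_sup (f := fun v : ℕ => v.factorization l)
        (Finset.mem_union_left W hv)
      omega
    have hWN : ∀ w ∈ W, 0 < w ∧ w.factorization l < N := by
      intro v hv
      refine ⟨(hW v hv).1, ?_⟩
      have := Finset.le_sup (f := fun v : ℕ => v.factorization l)
        (Finset.mem_union_right V hv)
      omega
    have hsplit := split σ P l hlp hl V W L N hVN hWN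
    have hnode := hnb y hy hσ l hlp.two_le hly N (by omega)
      (fun i => share l i V) (fun j => share l j W)
      (fun i => div_nonneg (ms_nonneg _) hVc.le) (fun i => div_nonneg (ms_nonneg _) hWc.le)
      (sum_share_le l N V hVc) (sum_share_le l N W hWc)
    set D := CT * Real.exp (∑ p ∈ P, C' / p) with hD
    have hD0 : 0 ≤ D := by positivity
    have hbn : 0 ≤ D * potG γ L V W := mul_nonneg hD0 (hpot V W L hL)
    calc we σ (insert l P) V W L
        ≤ ∑ i ∈ Finset.range N, ∑ j ∈ Finset.range N, (l:ℝ) ^ (i + j) *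
          ((l : ℝ) ^ (σ * |(i : ℝ) - j|) *
            we σ P (part l i V) (part l j W) (L / (l:ℝ) ^ (max i j))) := hsplit
      _ ≤ ∑ i ∈ Finset.range N, ∑ j ∈ Finset.range N,
          D * potG γ L V W * ((l:ℝ) ^ (-((1 - γ - σ) * |(i:ℝ) - j|)) *
          (share l i V * share l j W) ^ γ) := by
          refine Finset.sum_le_sum (fun i _ => Finset.sum_le_sum (fun j _ => ?_))
          have h1 := ih' (part l i V) (part l j W) (L / (l:ℝ) ^ (max i j)) (by positivity)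
            (part_rp l i V C1 hV) (part_rp l j W C1 hW)
          have h2 := st_piece l i j hlp γ L D hL V W hVc hWc
          have h3 : (l:ℝ) ^ (-((1 - γ - σ) * |(i:ℝ) - j|)) =
              (l : ℝ) ^ (σ * |(i : ℝ) - j|) * (l:ℝ) ^ (-((1 - γ) * |(i:ℝ) - j|)) := by
            rw [← Real.rpow_add hl0]
            congr 1
            ring
          have h4 : 0 ≤ (l : ℝ) ^ (σ * |(i : ℝ) - j|) := Real.rpow_nonneg hl0.le _
          calc (l:ℝ) ^ (i + j) * ((l : ℝ) ^ (σ * |(i : ℝ) - j|) *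
                we σ P (part l i V) (part l j W) (L / (l:ℝ) ^ (max i j)))
              ≤ (l:ℝ) ^ (i + j) * ((l : ℝ) ^ (σ * |(i : ℝ) - j|) *
                (D * potG γ (L / (l:ℝ) ^ (max i j)) (part l i V) (part l j W))) := by
                apply mul_le_mul_of_nonneg_left _ (by positivity)
                exact mul_le_mul_of_nonneg_left h1 h4
            _ = (l : ℝ) ^ (σ * |(i : ℝ) - j|) * ((l:ℝ) ^ (i + j) *
                (D * potG γ (L / (l:ℝ) ^ (max i j)) (part l i V) (part l j W))) := by ring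
            _ = _ := by rw [h2, h3]; ring
      _ = D * potG γ L V W * ∑ i ∈ Finset.range N, ∑ j ∈ Finset.range N,
          ((l:ℝ) ^ (-((1 - γ - σ) * |(i:ℝ) - j|)) *
          (share l i V * share l j W) ^ γ) := by
          rw [Finset.mul_sum]
          refine Finset.sum_congr rfl (fun i _ => ?_)
          rw [Finset.mul_sum]
      _ ≤ D * potG γ L V W * Real.exp (C' / l) := mul_le_mul_of_nonneg_left hnode hbn
      _ = _ := by
          rw [Finset.sum_insert hl, Real.exp_add, hD]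
          ring

/-- the primes up to `y` -/
noncomputable def pr (y : ℝ) : Finset ℕ := (Finset.Icc 1 ⌊y⌋₊).filter Nat.Prime

theorem mem_pr {y : ℝ} (hy : 0 ≤ y) {p : ℕ} : p ∈ pr y ↔ p.Prime ∧ (p : ℝ) ≤ y := by
  unfold pr
  rw [mem_filter, mem_Icc]
  constructor
  · rintro ⟨⟨_, h⟩, hp⟩
    exact ⟨hp, (Nat.le_floor_iff hy).1 h⟩
  · rintro ⟨hp, h⟩
    exact ⟨⟨hp.one_le, Nat.le_floor h⟩, hp⟩

theorem sum_pr (y C' : ℝ) (hy : 1 ≤ y) (hC : 0 ≤ C') :
    ∑ p ∈ pr y, C' / (p : ℝ) ≤ C' * (1 + Real.log y) := by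
  have h1 : ∑ p ∈ pr y, C' / (p : ℝ) ≤ ∑ p ∈ Finset.Icc 1 ⌊y⌋₊, C' / (p : ℝ) :=
    Finset.sum_le_sum_of_subset_of_nonneg (Finset.filter_subset _ _) fun p _ _ => by positivity
  refine h1.trans ?_
  have h2 : ∑ p ∈ Finset.Icc 1 ⌊y⌋₊, C' / (p : ℝ) = C' * ((harmonic ⌊y⌋₊ : ℚ) : ℝ) := by
    rw [harmonic_eq_sum_Icc]
    push_cast
    rw [Finset.mul_sum]
    refine Finset.sum_congr rfl fun p _ => ?_
    rw [div_eq_mul_inv]
  rw [h2]
  exact mul_le_mul_of_nonneg_left (harmonic_floor_le_one_add_log y hy) hC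

/-- the weight of a smooth pair -/
theorem wp_smooth (σ y : ℝ) (hσ : 0 ≤ σ) (hy : 0 ≤ y) (z : ℕ × ℕ) (h1 : 0 < z.1) (h2 : 0 < z.2)
    (hsm : ∀ p : ℕ, p.Prime → p ∣ (rd z).1 * (rd z).2 → (p : ℝ) ≤ y) :
    (((rd z).1 : ℝ) * (rd z).2) ^ σ = wp σ (pr y) z := by
  obtain ⟨n, m⟩ := z
  simp only [rd] at h1 h2 hsm ⊢
  set g := n.gcd m with hg
  have hg0 : 0 < g := Nat.gcd_pos_of_pos_left _ h1
  obtain ⟨u, hu⟩ : g ∣ n := Nat.gcd_dvd_left _ _
  obtain ⟨v, hv⟩ : g ∣ m := Nat.gcd_dvd_right _ _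
  have eu : n / g = u := Nat.div_eq_of_eq_mul_right hg0 hu
  have ev : m / g = v := Nat.div_eq_of_eq_mul_right hg0 hv
  have hcop : Nat.Coprime u v := by
    rw [← eu, ← ev]
    exact Nat.coprime_div_gcd_div_gcd hg0
  rw [eu, ev] at hsm ⊢
  have hu0 : 0 < u := Nat.pos_of_ne_zero fun h => by rw [h, mul_zero] at hu; omega
  have hv0 : 0 < v := Nat.pos_of_ne_zero fun h => by rw [h, mul_zero] at hv; omega
  have huv : 0 < u * v := Nat.mul_pos hu0 hv0
  -- the product formula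
  have e1 : ((u : ℝ) * v) = ∏ p ∈ pr y, (p : ℝ) ^ ((u * v).factorization p) := by
    have e2 : u * v = ∏ p ∈ pr y, p ^ ((u * v).factorization p) := by
      conv_lhs => rw [← Nat.prod_factorization_pow_eq_self huv.ne']
      rw [Finsupp.prod]
      apply Finset.prod_subset
      · intro p hp
        rw [Nat.support_factorization] at hp
        have hp' := Nat.mem_primeFactors.1 hp
        exact (mem_pr hy).2 ⟨hp'.1, hsm p hp'.1 hp'.2.1⟩
      · intro p _ hp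
        rw [Finsupp.notMem_support_iff] at hp
        rw [hp, pow_zero]
    have e3 : ((u * v : ℕ) : ℝ) = ((∏ p ∈ pr y, p ^ ((u * v).factorization p) : ℕ) : ℝ) := by
      rw [← e2]
    push_cast at e3
    exact e3
  rw [e1, ← Real.finsetProd_rpow _ _ (fun p _ => by positivity)]
  unfold wp
  refine Finset.prod_congr rfl fun p hp => ?_
  have hpp := ((mem_pr hy).1 hp).1
  have hp0 : (0 : ℝ) ≤ p := Nat.cast_nonneg p
  rw [← Real.rpow_natCast, ← Real.rpow_mul hp0]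
  congr 1
  simp only
  have f1 : n.factorization p = g.factorization p + u.factorization p := by
    rw [hu, Nat.factorization_mul hg0.ne' hu0.ne', Finsupp.add_apply]
  have f2 : m.factorization p = g.factorization p + v.factorization p := by
    rw [hv, Nat.factorization_mul hg0.ne' hv0.ne', Finsupp.add_apply]
  have f3 : (u * v).factorization p = u.factorization p + v.factorization p := by
    rw [Nat.factorization_mul hu0.ne' hv0.ne', Finsupp.add_apply]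
  have f4 : u.factorization p = 0 ∨ v.factorization p = 0 := by
    by_contra hcon
    rw [not_or] at hcon
    have d1 : p ∣ u := Nat.dvd_of_factorization_pos hcon.1
    have d2 : p ∣ v := Nat.dvd_of_factorization_pos hcon.2
    exact Nat.not_coprime_of_dvd_of_dvd hpp.one_lt d1 d2 hcop
  rw [f1, f2, f3]
  rcases f4 with h | h
  · rw [h]
    push_cast
    have : ((g.factorization p : ℝ) + 0 - ((g.factorization p : ℝ) + v.factorization p)) =
        -(v.factorization p : ℝ) := by ring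
    rw [this, abs_neg, abs_of_nonneg (Nat.cast_nonneg _)]
    ring
  · rw [h]
    push_cast
    have : ((g.factorization p : ℝ) + u.factorization p - ((g.factorization p : ℝ) + 0)) =
        (u.factorization p : ℝ) := by ring
    rw [this, abs_of_nonneg (Nat.cast_nonneg _)]
    ring

end Big

open Big in
theorem pr_Big : SmoothBig := by
  classical
  intro γ C1 hγ hγ1
  have hs : G.StepG := G.step G.node
  have hT : G.TreeG := G.tree hs (G.fin hs G.base)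
  obtain ⟨C', CT, hC', hCT, hw⟩ := wtree G.node hT γ C1 hγ hγ1
  have hγ' : 0 < 1 - γ := by linarith
  set LT := max (Real.log CT) 0 with hLT
  have hLT0 : 0 ≤ LT := le_max_right _ _
  refine ⟨2 * C' + LT, max 3 (Real.exp (2 / (1 - γ))), by positivity, le_max_left _ _, ?_⟩
  intro y T L hy hT1 hL V W hV hW
  have hy3 : 3 ≤ y := (le_max_left _ _).trans hy
  have hyE : Real.exp (2 / (1 - γ)) ≤ y := (le_max_right _ _).trans hy
  have hy0 : 0 < y := by linarith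
  have hlog : 2 / (1 - γ) ≤ Real.log y := by
    rw [Real.le_log_iff_exp_le hy0]
    exact hyE
  have hlog1 : 1 ≤ Real.log y := by
    rw [Real.le_log_iff_exp_le hy0]
    have := Real.exp_one_lt_d9
    linarith
  have hlog0 : 0 < Real.log y := by linarith
  have hσ : 1 / Real.log y ≤ (1 - γ) / 2 := by
    rw [div_le_div_iff₀ hlog0 (by norm_num)]
    rw [div_le_iff₀ hγ'] at hlog
    linarith
  have hσ0 : 0 < 1 / Real.log y := by positivity
  have hwy := hw y (by linarith) hσ (pr y) (fun p hp => (mem_pr hy0.le).1 hp) V W L hL hV hW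
  have hT0 : 0 < T := by linarith
  have hTσ : 0 < T ^ (1 / Real.log y) := Real.rpow_pos_of_pos hT0 _
  have hpot : 0 ≤ potG γ L V W := by
    have h1 := ms_nonneg V
    have h2 := ms_nonneg W
    unfold potG
    positivity
  -- comparison of the sums
  have hcmp : T ^ (1 / Real.log y) *
      ∑ z ∈ (V ×ˢ W).filter (fun z => L / 2 < ((z.1.lcm z.2 : ℕ) : ℝ) ∧
        ((z.1.lcm z.2 : ℕ) : ℝ) ≤ L ∧ T ≤ ((rd z).1 : ℝ) * (rd z).2 ∧
        ∀ p : ℕ, p.Prime → p ∣ (rd z).1 * (rd z).2 → (p : ℝ) ≤ y), (z.1 : ℝ) * z.2 ≤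
      we (1 / Real.log y) (pr y) V W L := by
    rw [Finset.mul_sum]
    have hsub : (V ×ˢ W).filter (fun z => L / 2 < ((z.1.lcm z.2 : ℕ) : ℝ) ∧
        ((z.1.lcm z.2 : ℕ) : ℝ) ≤ L ∧ T ≤ ((rd z).1 : ℝ) * (rd z).2 ∧
        ∀ p : ℕ, p.Prime → p ∣ (rd z).1 * (rd z).2 → (p : ℝ) ≤ y) ⊆ prs V W L := by
      intro z hz
      rw [mem_filter, mem_product] at hz
      rw [mem_prs]
      exact ⟨hz.1, hz.2.1, hz.2.2.1⟩
    refine le_trans ?_ (Finset.sum_le_sum_of_subset_of_nonneg hsub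
      (fun z _ _ => mul_nonneg (by positivity) (wp_nonneg _ _ z)))
    refine Finset.sum_le_sum fun z hz => ?_
    rw [mem_filter, mem_product] at hz
    obtain ⟨⟨hz1, hz2⟩, -, -, hz3, hz4⟩ := hz
    rw [← wp_smooth (1 / Real.log y) y hσ0.le hy0.le z (hV _ hz1).1 (hW _ hz2).1 hz4,
      mul_comm]
    apply mul_le_mul_of_nonneg_left _ (by positivity)
    exact Real.rpow_le_rpow hT0.le hz3 hσ0.le
  have hexp : CT * Real.exp (∑ p ∈ pr y, C' / p) ≤ Real.exp ((2 * C' + LT) * Real.log y) := by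
    have h1 : CT ≤ Real.exp (LT * Real.log y) := by
      calc CT = Real.exp (Real.log CT) := (Real.exp_log hCT).symm
        _ ≤ Real.exp LT := Real.exp_le_exp.2 (le_max_left _ _)
        _ ≤ Real.exp (LT * Real.log y) := by
          apply Real.exp_le_exp.2
          nlinarith
    have h2 : Real.exp (∑ p ∈ pr y, C' / p) ≤ Real.exp (2 * C' * Real.log y) := by
      apply Real.exp_le_exp.2
      refine (sum_pr y C' (by linarith) hC'.le).trans ?_
      nlinarith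
    calc CT * Real.exp (∑ p ∈ pr y, C' / p)
        ≤ Real.exp (LT * Real.log y) * Real.exp (2 * C' * Real.log y) :=
          mul_le_mul h1 h2 (Real.exp_pos _).le (Real.exp_pos _).le
      _ = _ := by
          rw [← Real.exp_add]
          congr 1
          ring
  rw [Real.rpow_neg hT0.le]
  have hfin : T ^ (1 / Real.log y) *
      ∑ z ∈ (V ×ˢ W).filter (fun z => L / 2 < ((z.1.lcm z.2 : ℕ) : ℝ) ∧
        ((z.1.lcm z.2 : ℕ) : ℝ) ≤ L ∧ T ≤ ((rd z).1 : ℝ) * (rd z).2 ∧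
        ∀ p : ℕ, p.Prime → p ∣ (rd z).1 * (rd z).2 → (p : ℝ) ≤ y), (z.1 : ℝ) * z.2 ≤
      Real.exp ((2 * C' + LT) * Real.log y) * potG γ L V W :=
    hcmp.trans (hwy.trans (mul_le_mul_of_nonneg_right hexp hpot))
  rw [← le_div_iff₀' hTσ] at hfin
  refine hfin.trans (le_of_eq ?_)
  field_simp

end Pool.Agent.MP_0863b8.C1

end

section

/-!
MP_0863b8_nt, CASE I, item Box: one box.
-/

namespace Pool.Agent.MP_0863b8.C1

open MeasureTheory Filter
open F (ms)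
open G (potG)

private theorem ibox_ex {γ : ℝ} (h1 : 1/2 < γ) (h2 : γ ≤ 5/9) :
    Ex γ ((1 - γ) / 2) ((1 - γ) / 2) where
  ht := h1
  ha := by linarith
  hb := by linarith
  hs := by ring

/-- the algebra of the exponents -/
private theorem ibox_alg (γ cs CT CD κ K P M : ℝ) (hκ : 0 < κ) (hK : 0 < K)
    (hP : 0 < P) (hM : 0 ≤ M) (hCD : 0 < CD) :
    (4 * P / K) * (CT * ((16 * K ^ 2 / P) ^ ((1 - γ) / 2) *
      (CD * κ ^ (cs / 2) * (16 * K ^ 2 / P)) ^ ((1 - γ) / 2) * (M / P) ^ γ)) =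
    (4 * CT * CD ^ ((1 - γ) / 2) * 16 ^ (1 - γ)) * κ ^ ((1 - γ) / 4 * cs) *
      K ^ (1 - 2 * γ) * M ^ γ := by
  have hQ : 0 < 16 * K ^ 2 / P := by positivity
  have e1 : (CD * κ ^ (cs / 2) * (16 * K ^ 2 / P)) ^ ((1 - γ) / 2) =
      CD ^ ((1 - γ) / 2) * κ ^ ((1 - γ) / 4 * cs) * (16 * K ^ 2 / P) ^ ((1 - γ) / 2) := by
    rw [Real.mul_rpow (by positivity) hQ.le, Real.mul_rpow hCD.le (by positivity),
      ← Real.rpow_mul hκ.le]
    congr 3
    ring
  have e2 : (16 * K ^ 2 / P) ^ ((1 - γ) / 2) * (16 * K ^ 2 / P) ^ ((1 - γ) / 2) =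
      16 ^ (1 - γ) * (K ^ (1 - 2 * γ) * K) / P ^ (1 - γ) := by
    rw [← Real.rpow_add hQ, add_halves, Real.div_rpow (by positivity) hP.le,
      Real.mul_rpow (by norm_num) (by positivity)]
    congr 2
    have h3 : K ^ (1 - 2 * γ) * K = K ^ (1 - 2 * γ + 1) := by
      rw [Real.rpow_add hK, Real.rpow_one]
    rw [h3, ← Real.rpow_natCast, ← Real.rpow_mul hK.le]
    congr 1
    push_cast
    ring
  have e3 : (M / P) ^ γ = M ^ γ / P ^ γ := Real.div_rpow hM hP.le γ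
  have e4 : P ^ (1 - γ) * P ^ γ = P := by
    rw [← Real.rpow_add hP, sub_add_cancel, Real.rpow_one]
  have hPg : 0 < P ^ γ := Real.rpow_pos_of_pos hP γ
  have hPg' : 0 < P ^ (1 - γ) := Real.rpow_pos_of_pos hP _
  rw [e1, e3]
  calc (4 * P / K) * (CT * ((16 * K ^ 2 / P) ^ ((1 - γ) / 2) *
        (CD ^ ((1 - γ) / 2) * κ ^ ((1 - γ) / 4 * cs) * (16 * K ^ 2 / P) ^ ((1 - γ) / 2)) *
        (M ^ γ / P ^ γ)))
      = (4 * P / K) * (CT * (((16 * K ^ 2 / P) ^ ((1 - γ) / 2) *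
        (16 * K ^ 2 / P) ^ ((1 - γ) / 2)) * (CD ^ ((1 - γ) / 2) * κ ^ ((1 - γ) / 4 * cs)) *
        (M ^ γ / P ^ γ))) := by ring
    _ = (4 * P / K) * (CT * ((16 ^ (1 - γ) * (K ^ (1 - 2 * γ) * K) / P ^ (1 - γ)) *
        (CD ^ ((1 - γ) / 2) * κ ^ ((1 - γ) / 4 * cs)) * (M ^ γ / P ^ γ))) := by rw [e2]
    _ = (4 * CT * CD ^ ((1 - γ) / 2) * 16 ^ (1 - γ)) * κ ^ ((1 - γ) / 4 * cs) *
        K ^ (1 - 2 * γ) * M ^ γ * (K / K) * (P / (P ^ (1 - γ) * P ^ γ)) := by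
          field_simp
    _ = _ := by rw [e4, div_self hK.ne', div_self hP.ne', mul_one, mul_one]

/-- the arithmetic of a pair in the box -/
private theorem ibox_pair {a b : ℕ} (ha : 0 < a) (hb : 0 < b) {N1 N2 K : ℝ} (hN1 : 0 < N1)
    (hN2 : 0 < N2) (hK : 0 < K) (ha1 : N1 ≤ a) (ha2 : (a : ℝ) < 2 * N1) (hb1 : N2 ≤ b)
    (hb2 : (b : ℝ) < 2 * N2) (h1 : K ≤ ((a.lcm b : ℕ) : ℝ)) (h2 : ((a.lcm b : ℕ) : ℝ) < 2 * K) :
    ((a.gcd b : ℕ) : ℝ) ≤ 4 * (N1 * N2) / K ∧ ((a / a.gcd b : ℕ) : ℝ) ≤ 4 * K / N2 ∧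
      ((b / a.gcd b : ℕ) : ℝ) ≤ 4 * K / N1 ∧ 1 ≤ a / a.gcd b ∧ 1 ≤ b / a.gcd b := by
  have hg : 0 < a.gcd b := Nat.gcd_pos_of_pos_left b ha
  have hgl : a.gcd b * a.lcm b = a * b := Nat.gcd_mul_lcm a b
  have hglR : ((a.gcd b : ℕ) : ℝ) * ((a.lcm b : ℕ) : ℝ) = a * b := by exact_mod_cast hgl
  have hu : a / a.gcd b * a.gcd b = a := Nat.div_mul_cancel (Nat.gcd_dvd_left a b)
  have hv : b / a.gcd b * a.gcd b = b := Nat.div_mul_cancel (Nat.gcd_dvd_right a b)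
  have huR : ((a / a.gcd b : ℕ) : ℝ) * ((a.gcd b : ℕ) : ℝ) = a := by exact_mod_cast hu
  have hvR : ((b / a.gcd b : ℕ) : ℝ) * ((a.gcd b : ℕ) : ℝ) = b := by exact_mod_cast hv
  have hgR : (0 : ℝ) < ((a.gcd b : ℕ) : ℝ) := by exact_mod_cast hg
  have haR : (0 : ℝ) < a := by exact_mod_cast ha
  have hbR : (0 : ℝ) < b := by exact_mod_cast hb
  have hu1 : ((a / a.gcd b : ℕ) : ℝ) * b = ((a.lcm b : ℕ) : ℝ) := by
    have : ((a.gcd b : ℕ) : ℝ) * (((a / a.gcd b : ℕ) : ℝ) * b) =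
        ((a.gcd b : ℕ) : ℝ) * ((a.lcm b : ℕ) : ℝ) := by
      rw [hglR, ← mul_assoc, mul_comm ((a.gcd b : ℕ) : ℝ), huR]
    exact mul_left_cancel₀ hgR.ne' this
  have hv1 : ((b / a.gcd b : ℕ) : ℝ) * a = ((a.lcm b : ℕ) : ℝ) := by
    have : ((a.gcd b : ℕ) : ℝ) * (((b / a.gcd b : ℕ) : ℝ) * a) =
        ((a.gcd b : ℕ) : ℝ) * ((a.lcm b : ℕ) : ℝ) := by
      rw [hglR, ← mul_assoc, mul_comm ((a.gcd b : ℕ) : ℝ), hvR, mul_comm]
    exact mul_left_cancel₀ hgR.ne' this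
  refine ⟨?_, ?_, ?_, ?_, ?_⟩
  · rw [le_div_iff₀ hK]
    calc ((a.gcd b : ℕ) : ℝ) * K ≤ ((a.gcd b : ℕ) : ℝ) * ((a.lcm b : ℕ) : ℝ) :=
          mul_le_mul_of_nonneg_left h1 hgR.le
      _ = a * b := hglR
      _ ≤ (2 * N1) * (2 * N2) := mul_le_mul ha2.le hb2.le hbR.le (by positivity)
      _ = 4 * (N1 * N2) := by ring
  · rw [le_div_iff₀ hN2]
    calc ((a / a.gcd b : ℕ) : ℝ) * N2 ≤ ((a / a.gcd b : ℕ) : ℝ) * b :=
          mul_le_mul_of_nonneg_left hb1 (Nat.cast_nonneg _)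
      _ = ((a.lcm b : ℕ) : ℝ) := hu1
      _ ≤ 4 * K := by linarith
  · rw [le_div_iff₀ hN1]
    calc ((b / a.gcd b : ℕ) : ℝ) * N1 ≤ ((b / a.gcd b : ℕ) : ℝ) * a :=
          mul_le_mul_of_nonneg_left ha1 (Nat.cast_nonneg _)
      _ = ((a.lcm b : ℕ) : ℝ) := hv1
      _ ≤ 4 * K := by linarith
  · exact Nat.div_pos (Nat.gcd_le_left b ha) hg
  · exact Nat.div_pos (Nat.gcd_le_right a hb) hg

private theorem ibox_ms {V : Finset ℕ} {N : ℝ} (h : ∀ v ∈ V, N ≤ v) :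
    (V.card : ℝ) * N ≤ ms V := by
  unfold F.ms
  calc (V.card : ℝ) * N = ∑ _v ∈ V, N := by rw [Finset.sum_const, nsmul_eq_mul]
    _ ≤ ∑ v ∈ V, (v : ℝ) := Finset.sum_le_sum h

open Classical in
theorem pr_Box (hD : DensI) : BoxI := by
  intro γ cs C1 hγ1 hγ2 hcs hcs1
  obtain ⟨κ0, CD, hκ0, hCD, hdens⟩ := hD cs hcs hcs1
  obtain ⟨CT, hCT, htree⟩ := treeQ_holds γ ((1 - γ) / 2) ((1 - γ) / 2) (ibox_ex hγ1 hγ2) C1
  refine ⟨κ0, 4 * CT * CD ^ ((1 - γ) / 2) * 16 ^ (1 - γ), hκ0, by positivity, ?_⟩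
  intro κ hκ hκκ0 θ X N1 N2 hX hN1 hN2 V W hV hW
  have hK : 0 < κ * X := mul_pos hκ hX
  have hP : 0 < N1 * N2 := mul_pos hN1 hN2
  have hmsV : 0 ≤ ms V := Finset.sum_nonneg fun v _ => Nat.cast_nonneg v
  have hmsW : 0 ≤ ms W := Finset.sum_nonneg fun v _ => Nat.cast_nonneg v
  have hM : 0 ≤ ms V * ms W := mul_nonneg hmsV hmsW
  have halpha : 0 ≤ (1 - γ) / 2 := by linarith
  set S := (V ×ˢ W).filter (fun z => Dp κ X z ∧ UX cs θ κ (rd z)) with hS
  have hRHS : 0 ≤ (4 * CT * CD ^ ((1 - γ) / 2) * 16 ^ (1 - γ)) * κ ^ ((1 - γ) / 4 * cs) *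
      (κ * X) ^ (1 - 2 * γ) * (ms V * ms W) ^ γ := by positivity
  rcases S.eq_empty_or_nonempty with hSe | ⟨z0, hz0⟩
  · rw [hSe, Finset.sum_empty]
    exact hRHS
  -- facts about the pairs of `S`
  have hpair : ∀ z ∈ S, ((z.1.gcd z.2 : ℕ) : ℝ) ≤ 4 * (N1 * N2) / (κ * X) ∧
      ((rd z).1 : ℝ) ≤ 4 * (κ * X) / N2 ∧ ((rd z).2 : ℝ) ≤ 4 * (κ * X) / N1 ∧
      1 ≤ (rd z).1 ∧ 1 ≤ (rd z).2 := by
    intro z hz
    rw [hS, Finset.mem_filter, Finset.mem_product] at hz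
    obtain ⟨⟨hz1, hz2⟩, ⟨hd1, hd2⟩, -⟩ := hz
    obtain ⟨h1, -, h2, h3⟩ := hV z.1 hz1
    obtain ⟨h4, -, h5, h6⟩ := hW z.2 hz2
    exact ibox_pair h1 h4 hN1 hN2 hK h2 h3 h5 h6 hd1 hd2
  set A : ℝ := 4 * (κ * X) / N2 with hA
  set B : ℝ := 4 * (κ * X) / N1 with hB
  have hA0 : 0 < A := by positivity
  have hB0 : 0 < B := by positivity
  have hA1 : 1 ≤ A := by
    obtain ⟨-, h1, -, h2, -⟩ := hpair z0 hz0
    have h3 : (1 : ℝ) ≤ ((rd z0).1 : ℝ) := by exact_mod_cast h2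
    linarith
  have hB1 : 1 ≤ B := by
    obtain ⟨-, -, h1, -, h2⟩ := hpair z0 hz0
    have h3 : (1 : ℝ) ≤ ((rd z0).2 : ℝ) := by exact_mod_cast h2
    linarith
  set Q := (Finset.Icc 1 ⌊A⌋₊ ×ˢ Finset.Icc 1 ⌊B⌋₊).filter (fun z => UX cs θ κ z) with hQ
  have hQc : (Q.card : ℝ) ≤ CD * κ ^ (cs / 2) * (A * B) := hdens κ hκ hκκ0 θ A B hA1 hB1
  have hQAB : ∀ z ∈ Q, (z.1 : ℝ) ≤ A ∧ (z.2 : ℝ) ≤ B := by
    intro z hz
    rw [hQ, Finset.mem_filter, Finset.mem_product, Finset.mem_Icc, Finset.mem_Icc] at hz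
    exact ⟨(Nat.le_floor_iff hA0.le).mp hz.1.1.2, (Nat.le_floor_iff hB0.le).mp hz.1.2.2⟩
  have hcard : (S.card : ℝ) ≤ (cnt Set.univ V W Q : ℝ) := by
    unfold cnt
    norm_cast
    refine Finset.card_le_card fun z hz => ?_
    obtain ⟨-, h1, h2, h3, h4⟩ := hpair z hz
    rw [hS, Finset.mem_filter] at hz
    simp only [Finset.mem_filter]
    refine ⟨hz.1, ?_, fun p _ => Set.mem_univ p⟩
    rw [hQ, Finset.mem_filter, Finset.mem_product, Finset.mem_Icc, Finset.mem_Icc]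
    exact ⟨⟨⟨h3, (Nat.le_floor_iff hA0.le).mpr h1⟩, ⟨h4, (Nat.le_floor_iff hB0.le).mpr h2⟩⟩,
      hz.2.2⟩
  have htr := htree V W Q A B hA0.le hB0.le (fun v hv => ⟨(hV v hv).1, (hV v hv).2.1⟩)
    (fun w hw => ⟨(hW w hw).1, (hW w hw).2.1⟩) hQAB
  have hAB : A * B = 16 * (κ * X) ^ 2 / (N1 * N2) := by
    rw [hA, hB]
    field_simp
    ring
  have hcV : (V.card : ℝ) * N1 ≤ ms V := ibox_ms fun v hv => (hV v hv).2.2.1
  have hcW : (W.card : ℝ) * N2 ≤ ms W := ibox_ms fun w hw => (hW w hw).2.2.1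
  have hcVW : (V.card : ℝ) * W.card ≤ ms V * ms W / (N1 * N2) := by
    rw [le_div_iff₀ hP]
    calc (V.card : ℝ) * W.card * (N1 * N2) = ((V.card : ℝ) * N1) * ((W.card : ℝ) * N2) := by ring
      _ ≤ ms V * ms W := mul_le_mul hcV hcW (by positivity) hmsV
  calc ∑ z ∈ S, ((z.1.gcd z.2 : ℕ) : ℝ)
      ≤ ∑ _z ∈ S, 4 * (N1 * N2) / (κ * X) := Finset.sum_le_sum fun z hz => (hpair z hz).1
    _ = 4 * (N1 * N2) / (κ * X) * S.card := by
        rw [Finset.sum_const, nsmul_eq_mul, mul_comm]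
    _ ≤ 4 * (N1 * N2) / (κ * X) * (CT * bq γ ((1 - γ) / 2) ((1 - γ) / 2) A B Q V W) :=
        mul_le_mul_of_nonneg_left (hcard.trans htr) (by positivity)
    _ ≤ 4 * (N1 * N2) / (κ * X) * (CT * ((16 * (κ * X) ^ 2 / (N1 * N2)) ^ ((1 - γ) / 2) *
        (CD * κ ^ (cs / 2) * (16 * (κ * X) ^ 2 / (N1 * N2))) ^ ((1 - γ) / 2) *
        (ms V * ms W / (N1 * N2)) ^ γ)) := by
        unfold bq
        rw [hAB] at hQc ⊢
        have g1 : (Q.card : ℝ) ^ ((1 - γ) / 2) ≤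
            (CD * κ ^ (cs / 2) * (16 * (κ * X) ^ 2 / (N1 * N2))) ^ ((1 - γ) / 2) :=
          Real.rpow_le_rpow (Nat.cast_nonneg _) hQc halpha
        have g2 : ((V.card : ℝ) * W.card) ^ γ ≤ (ms V * ms W / (N1 * N2)) ^ γ :=
          Real.rpow_le_rpow (by positivity) hcVW (by linarith)
        gcongr
    _ = _ := ibox_alg γ cs CT CD κ (κ * X) (N1 * N2) (ms V * ms W) hκ hK hP hM hCD

end Pool.Agent.MP_0863b8.C1

end

section

/-!
MP_0863b8_nt, CASE I: the assembly `SumI → SmoothBig → CaseI`.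
-/

set_option autoImplicit false

namespace Pool.Agent.MP_0863b8.C1

open MeasureTheory Filter
open F (ms)
open G (potG)

private theorem ca_ms_nonneg (V : Finset ℕ) : 0 ≤ ms V :=
  Finset.sum_nonneg fun _ _ => Nat.cast_nonneg _

private theorem ca_gcd_lcm (z : ℕ × ℕ) : ((z.1.gcd z.2 : ℕ) : ℝ) * ((z.1.lcm z.2 : ℕ) : ℝ)
    = (z.1 : ℝ) * z.2 := by
  exact_mod_cast Nat.gcd_mul_lcm z.1 z.2

/-- the analytic estimate -/
private theorem ca_exp (a c0 CB κ : ℝ) (hc0 : 0 < c0) (hκ : 0 < κ) (ha : 0 ≤ a)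
    (h : a / c0 + CB ≤ κ ^ (-c0)) (h1 : 1 ≤ κ ^ (-c0)) (hCB : 0 ≤ CB) :
    Real.exp (CB * κ ^ (-c0)) * Real.exp (-(κ ^ (-c0)) ^ 2) ≤ κ ^ (a - 6 * c0) := by
  set t := κ ^ (-c0) with ht
  have htpos : 0 < t := Real.rpow_pos_of_pos hκ _
  have hlog : Real.log t = -c0 * Real.log κ := by rw [ht, Real.log_rpow hκ]
  have hlogt : Real.log t ≤ t := (Real.log_le_sub_one_of_pos htpos).trans (by linarith)
  have hlogt0 : 0 ≤ Real.log t := Real.log_nonneg h1
  rw [← Real.exp_add, Real.rpow_def_of_pos hκ, Real.exp_le_exp]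
  -- log κ = - log t / c0
  have hk : Real.log κ = -(Real.log t) / c0 := by
    rw [hlog]; field_simp
  rw [hk]
  have e1 : -(Real.log t) / c0 * (a - 6 * c0) = 6 * Real.log t - a / c0 * Real.log t := by
    field_simp
    ring
  rw [e1]
  have hac : 0 ≤ a / c0 := div_nonneg ha hc0.le
  have h2 : a / c0 * Real.log t ≤ a / c0 * t := mul_le_mul_of_nonneg_left hlogt hac
  nlinarith [mul_le_mul_of_nonneg_right h htpos.le]

open Classical in
theorem pr_CaseI (hS : SumI) (hB : SmoothBig) : CaseI := by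
  intro γ c0 cs C1 hγ hγ' hc0 hcs hcs'
  obtain ⟨κ1, CS, hκ1, hCS, hS'⟩ := hS γ cs C1 hγ hγ' hcs hcs'
  obtain ⟨CB, y0, hCB, hy0, hB'⟩ := hB γ C1 hγ hγ'
  set a : ℝ := (1 - γ) / 4 * cs with ha
  have ha0 : 0 ≤ a := by
    have : 0 ≤ 1 - γ := by linarith
    positivity
  set M : ℝ := max 2 (max (Real.log y0) (a / c0 + CB)) with hM
  have hM2 : 2 ≤ M := le_max_left _ _
  have hMy : Real.log y0 ≤ M := (le_max_left _ _).trans (le_max_right _ _)
  have hMa : a / c0 + CB ≤ M := (le_max_right _ _).trans (le_max_right _ _)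
  have hM0 : 0 < M := by linarith
  refine ⟨min κ1 (M ^ (-(1 / c0))), CS + 4, lt_min hκ1 (Real.rpow_pos_of_pos hM0 _),
    by linarith, ?_⟩
  intro κ hκ hκle θ X hX V W hV hW
  have hκ1' : κ ≤ κ1 := hκle.trans (min_le_left _ _)
  have hκM : κ ≤ M ^ (-(1 / c0)) := hκle.trans (min_le_right _ _)
  set t : ℝ := κ ^ (-c0) with ht
  have htM : M ≤ t := by
    have h1 : (M ^ (-(1 / c0))) ^ (-c0) ≤ κ ^ (-c0) :=
      Real.rpow_le_rpow_of_nonpos hκ hκM (by linarith)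
    rw [← Real.rpow_mul hM0.le] at h1
    have h2 : -(1 / c0) * -c0 = 1 := by field_simp
    rw [h2, Real.rpow_one] at h1
    exact h1
  have ht2 : 2 ≤ t := hM2.trans htM
  have ht0 : 0 < t := by linarith
  set y : ℝ := Real.exp t with hy
  set Y : ℝ := Real.exp (t ^ 3) with hY
  have hlogy : Real.log y = t := Real.log_exp t
  have hlogY : Real.log Y = t ^ 3 := Real.log_exp _
  have hyy0 : y0 ≤ y := by
    have hy0' : 0 < y0 := by linarith
    rw [hy, ← Real.log_le_iff_le_exp hy0']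
    exact hMy.trans htM
  have hY3 : 3 ≤ Y := by
    have h1 : t ^ 3 + 1 ≤ Y := Real.add_one_le_exp _
    have h2 : (2 : ℝ) ^ 3 ≤ t ^ 3 := pow_le_pow_left₀ (by norm_num) ht2 3
    linarith
  have hκX : 0 < κ * X := mul_pos hκ hX
  set S := (V ×ˢ W).filter (fun z => Dp κ X z ∧ UX cs θ κ (rd z) ∧
        ∀ p : ℕ, p.Prime → p ∣ (rd z).1 * (rd z).2 → (p : ℝ) ≤ Real.exp (κ ^ (-c0))) with hSd
  set S1 := (V ×ˢ W).filter (fun z => Dp κ X z ∧ UX cs θ κ (rd z) ∧
        ((rd z).1 : ℝ) ≤ Y ∧ ((rd z).2 : ℝ) ≤ Y) with hS1d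
  set R : ℝ → Finset (ℕ × ℕ) := fun L => (V ×ˢ W).filter (fun z =>
        L / 2 < ((z.1.lcm z.2 : ℕ) : ℝ) ∧
        ((z.1.lcm z.2 : ℕ) : ℝ) ≤ L ∧ Y ≤ ((rd z).1 : ℝ) * (rd z).2 ∧
        ∀ p : ℕ, p.Prime → p ∣ (rd z).1 * (rd z).2 → (p : ℝ) ≤ y) with hRd
  have hsub : S ⊆ S1 ∪ (R (2 * (κ * X)) ∪ R (κ * X)) := by
    intro z hz
    rw [hSd, Finset.mem_filter] at hz
    obtain ⟨hzVW, hD, hU, hsm⟩ := hz
    rw [Finset.mem_union]
    by_cases hle : ((rd z).1 : ℝ) ≤ Y ∧ ((rd z).2 : ℝ) ≤ Y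
    · left
      rw [hS1d, Finset.mem_filter]
      exact ⟨hzVW, hD, hU, hle.1, hle.2⟩
    · right
      have hz1 : 0 < z.1 := (hV z.1 (Finset.mem_product.mp hzVW).1).1
      have hz2 : 0 < z.2 := (hW z.2 (Finset.mem_product.mp hzVW).2).1
      have hg : 0 < z.1.gcd z.2 := Nat.gcd_pos_of_pos_left _ hz1
      have hu : 1 ≤ (rd z).1 :=
        Nat.div_pos (Nat.le_of_dvd hz1 (Nat.gcd_dvd_left _ _)) hg
      have hv : 1 ≤ (rd z).2 :=
        Nat.div_pos (Nat.le_of_dvd hz2 (Nat.gcd_dvd_right _ _)) hg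
      have hu' : (1 : ℝ) ≤ ((rd z).1 : ℝ) := by exact_mod_cast hu
      have hv' : (1 : ℝ) ≤ ((rd z).2 : ℝ) := by exact_mod_cast hv
      have hprod : Y ≤ ((rd z).1 : ℝ) * (rd z).2 := by
        rw [not_and_or, not_le, not_le] at hle
        rcases hle with h | h
        · nlinarith
        · nlinarith
      rw [Finset.mem_union]
      rcases lt_or_ge (κ * X) ((z.1.lcm z.2 : ℕ) : ℝ) with h | h
      · left
        rw [hRd]
        simp only [Finset.mem_filter]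
        refine ⟨hzVW, ?_, hD.2.le, hprod, hsm⟩
        linarith
      · right
        rw [hRd]
        simp only [Finset.mem_filter]
        refine ⟨hzVW, ?_, h, hprod, hsm⟩
        have := hD.1
        linarith
  have hbig : ∀ L : ℝ, 0 ≤ L → L ≤ 2 * (κ * X) → κ * X ≤ L →
      ∑ z ∈ (R L).filter (fun z => κ * X ≤ ((z.1.lcm z.2 : ℕ) : ℝ)), ((z.1.gcd z.2 : ℕ) : ℝ) ≤
        1 / (κ * X) * (Real.exp (CB * t) * Real.exp (-t ^ 2) * potG γ L V W) := by
    intro L hL0 hL2 hL1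
    have h1 := hB' y Y L hyy0 (by linarith) hL0 V W hV hW
    have h2 : Y ^ (-(1 / Real.log y)) = Real.exp (-t ^ 2) := by
      rw [hlogy, Real.rpow_def_of_pos (by linarith), hlogY]
      congr 1
      field_simp
    rw [h2, hlogy] at h1
    calc ∑ z ∈ (R L).filter (fun z => κ * X ≤ ((z.1.lcm z.2 : ℕ) : ℝ)), ((z.1.gcd z.2 : ℕ) : ℝ)
        ≤ ∑ z ∈ (R L).filter (fun z => κ * X ≤ ((z.1.lcm z.2 : ℕ) : ℝ)),
            1 / (κ * X) * ((z.1 : ℝ) * z.2) := by
          refine Finset.sum_le_sum fun z hz => ?_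
          have hz' := (Finset.mem_filter.mp hz).2
          rw [← ca_gcd_lcm z, one_div, inv_mul_eq_div, le_div_iff₀ hκX]
          exact mul_le_mul_of_nonneg_left hz' (Nat.cast_nonneg _)
      _ ≤ ∑ z ∈ R L, 1 / (κ * X) * ((z.1 : ℝ) * z.2) := by
          refine Finset.sum_le_sum_of_subset_of_nonneg (Finset.filter_subset _ _) ?_
          intro z _ _
          positivity
      _ = 1 / (κ * X) * ∑ z ∈ R L, (z.1 : ℝ) * z.2 := by rw [Finset.mul_sum]
      _ ≤ _ := mul_le_mul_of_nonneg_left h1 (by positivity)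
  -- the potential
  have hm0 : 0 ≤ (ms V * ms W) ^ γ :=
    Real.rpow_nonneg (mul_nonneg (ca_ms_nonneg V) (ca_ms_nonneg W)) _
  have hpot : ∀ L : ℝ, 0 ≤ L → L ≤ 2 * (κ * X) →
      1 / (κ * X) * potG γ L V W ≤ 2 * ((κ * X) ^ (1 - 2 * γ) * (ms V * ms W) ^ γ) := by
    intro L hL0 hL2
    have h1 : L ^ (2 * (1 - γ)) ≤ 2 * (κ * X) ^ (2 * (1 - γ)) := by
      calc L ^ (2 * (1 - γ)) ≤ (2 * (κ * X)) ^ (2 * (1 - γ)) :=
            Real.rpow_le_rpow hL0 hL2 (by linarith)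
        _ = 2 ^ (2 * (1 - γ)) * (κ * X) ^ (2 * (1 - γ)) :=
            Real.mul_rpow (by norm_num) hκX.le
        _ ≤ 2 ^ (1 : ℝ) * (κ * X) ^ (2 * (1 - γ)) := by
            refine mul_le_mul_of_nonneg_right ?_ (Real.rpow_nonneg hκX.le _)
            exact Real.rpow_le_rpow_of_exponent_le (by norm_num) (by linarith)
        _ = _ := by rw [Real.rpow_one]
    have h2 : (κ * X) ^ (1 - 2 * γ) = 1 / (κ * X) * (κ * X) ^ (2 * (1 - γ)) := by
      have : (1 - 2 * γ) = 2 * (1 - γ) - 1 := by ring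
      rw [this, Real.rpow_sub_one hκX.ne']
      field_simp
    rw [h2, potG]
    calc 1 / (κ * X) * (L ^ (2 * (1 - γ)) * (ms V * ms W) ^ γ)
        ≤ 1 / (κ * X) * ((2 * (κ * X) ^ (2 * (1 - γ))) * (ms V * ms W) ^ γ) := by
          refine mul_le_mul_of_nonneg_left ?_ (by positivity)
          exact mul_le_mul_of_nonneg_right h1 hm0
      _ = _ := by ring
  set Z : ℝ := (κ * X) ^ (1 - 2 * γ) * (ms V * ms W) ^ γ with hZ
  have hZ0 : 0 ≤ Z := mul_nonneg (Real.rpow_nonneg hκX.le _) hm0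
  have hexp := ca_exp a c0 CB κ hc0 hκ ha0 (hMa.trans htM) (by linarith) hCB.le
  rw [← ht] at hexp
  set K : ℝ := κ ^ (a - 6 * c0) with hK
  have hK0 : 0 < K := Real.rpow_pos_of_pos hκ _
  have hbig2 : ∀ L : ℝ, 0 ≤ L → L ≤ 2 * (κ * X) → κ * X ≤ L →
      ∑ z ∈ (R L).filter (fun z => κ * X ≤ ((z.1.lcm z.2 : ℕ) : ℝ)), ((z.1.gcd z.2 : ℕ) : ℝ) ≤
        2 * (K * Z) := by
    intro L hL0 hL2 hL1
    refine (hbig L hL0 hL2 hL1).trans ?_
    calc 1 / (κ * X) * (Real.exp (CB * t) * Real.exp (-t ^ 2) * potG γ L V W)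
        = (Real.exp (CB * t) * Real.exp (-t ^ 2)) * (1 / (κ * X) * potG γ L V W) := by ring
      _ ≤ (Real.exp (CB * t) * Real.exp (-t ^ 2)) * (2 * Z) :=
          mul_le_mul_of_nonneg_left (hpot L hL0 hL2) (by positivity)
      _ ≤ K * (2 * Z) := mul_le_mul_of_nonneg_right hexp (by positivity)
      _ = _ := by ring
  have hsmall := hS' κ hκ hκ1' θ X Y hX hY3 V W hV hW
  have hlogY2 : (Real.log Y) ^ 2 = κ ^ (-(6 * c0)) := by
    rw [hlogY, ht, ← Real.rpow_natCast (κ ^ (-c0)) 3, ← Real.rpow_mul hκ.le,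
      ← Real.rpow_natCast _ 2, ← Real.rpow_mul hκ.le]
    congr 1
    push_cast
    ring
  have hsmall2 : ∑ z ∈ S1, ((z.1.gcd z.2 : ℕ) : ℝ) ≤ CS * (K * Z) := by
    refine hsmall.trans (le_of_eq ?_)
    rw [hlogY2, hK, hZ]
    have : κ ^ (a - 6 * c0) = κ ^ (-(6 * c0)) * κ ^ a := by
      rw [← Real.rpow_add hκ]; congr 1; ring
    rw [this]
    ring
  -- combine
  have hDp : ∀ z ∈ S, κ * X ≤ ((z.1.lcm z.2 : ℕ) : ℝ) := by
    intro z hz
    rw [hSd, Finset.mem_filter] at hz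
    exact hz.2.1.1
  set R' : ℝ → Finset (ℕ × ℕ) := fun L =>
    (R L).filter (fun z => κ * X ≤ ((z.1.lcm z.2 : ℕ) : ℝ)) with hR'
  have hsub2 : S ⊆ S1 ∪ (R' (2 * (κ * X)) ∪ R' (κ * X)) := by
    intro z hz
    have h1 := hsub hz
    have h2 := hDp z hz
    simp only [Finset.mem_union] at h1 ⊢
    rcases h1 with h | h | h
    · exact Or.inl h
    · exact Or.inr (Or.inl (Finset.mem_filter.mpr ⟨h, h2⟩))
    · exact Or.inr (Or.inr (Finset.mem_filter.mpr ⟨h, h2⟩))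
  have hnn : ∀ z : ℕ × ℕ, 0 ≤ ((z.1.gcd z.2 : ℕ) : ℝ) := fun _ => Nat.cast_nonneg _
  have hunion : ∀ P Q : Finset (ℕ × ℕ), ∑ z ∈ P ∪ Q, ((z.1.gcd z.2 : ℕ) : ℝ) ≤
      ∑ z ∈ P, ((z.1.gcd z.2 : ℕ) : ℝ) + ∑ z ∈ Q, ((z.1.gcd z.2 : ℕ) : ℝ) := by
    intro P Q
    rw [← Finset.sum_union_inter]
    exact le_add_of_nonneg_right (Finset.sum_nonneg fun z _ => hnn z)
  have hR1 := hbig2 (2 * (κ * X)) (by linarith) le_rfl (by linarith)
  have hR2 := hbig2 (κ * X) hκX.le (by linarith) le_rfl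
  have hKZ : 0 ≤ K * Z := mul_nonneg hK0.le hZ0
  calc ∑ z ∈ S, ((z.1.gcd z.2 : ℕ) : ℝ)
      ≤ ∑ z ∈ S1 ∪ (R' (2 * (κ * X)) ∪ R' (κ * X)), ((z.1.gcd z.2 : ℕ) : ℝ) :=
        Finset.sum_le_sum_of_subset_of_nonneg hsub2 fun z _ _ => hnn z
    _ ≤ ∑ z ∈ S1, ((z.1.gcd z.2 : ℕ) : ℝ) + (∑ z ∈ R' (2 * (κ * X)), ((z.1.gcd z.2 : ℕ) : ℝ)
          + ∑ z ∈ R' (κ * X), ((z.1.gcd z.2 : ℕ) : ℝ)) :=
        (hunion _ _).trans (by gcongr; exact hunion _ _)
    _ ≤ CS * (K * Z) + (2 * (K * Z) + 2 * (K * Z)) := by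
        exact add_le_add hsmall2 (add_le_add hR1 hR2)
    _ = (CS + 4) * K * Z := by ring
    _ = _ := by rw [hZ]; ring

end Pool.Agent.MP_0863b8.C1

end

section

/-!
MP_0863b8_nt, CASE I: the density of the unexplained aligned pairs.
-/

set_option autoImplicit false

namespace Pool.Agent.MP_0863b8.C1

/-- the distance of the coordinates -/
def Dens_h (z : ℕ × ℕ) : ℕ := ((z.1 : ℤ) - z.2).natAbs

theorem Dens_fibre (a b h : ℕ) (s : Finset (ℕ × ℕ))
    (hs : ∀ z ∈ s, (1 ≤ z.1 ∧ z.1 ≤ a) ∧ (1 ≤ z.2 ∧ z.2 ≤ b)) (hh : ∀ z ∈ s, Dens_h z = h) :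
    s.card ≤ 2 * min a b := by
  have h1 : s.card ≤ 2 * a := by
    have hc : (Finset.Icc 1 a ×ˢ (Finset.univ : Finset Bool)).card = 2 * a := by
      rw [Finset.card_product, Nat.card_Icc, Finset.card_univ, Fintype.card_bool]
      omega
    rw [← hc]
    refine Finset.card_le_card_of_injOn (fun z => (z.1, decide (z.1 ≤ z.2))) ?_ ?_
    · intro z hz
      have := hs z hz
      simp only [Finset.coe_product, Set.mem_prod, Finset.mem_coe, Finset.mem_Icc,
        Finset.mem_univ, and_true]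
      exact this.1
    · intro z hz z' hz' heq
      have e1 := hh z hz
      have e2 := hh z' hz'
      simp only [Prod.mk.injEq, decide_eq_decide] at heq
      unfold Dens_h at e1 e2
      obtain ⟨q1, q2⟩ := heq
      apply Prod.ext q1
      by_cases hle : z.1 ≤ z.2
      · have := q2.1 hle
        omega
      · have : ¬ z'.1 ≤ z'.2 := fun hc => hle (q2.2 hc)
        omega
  have h2 : s.card ≤ 2 * b := by
    have hc : (Finset.Icc 1 b ×ˢ (Finset.univ : Finset Bool)).card = 2 * b := by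
      rw [Finset.card_product, Nat.card_Icc, Finset.card_univ, Fintype.card_bool]
      omega
    rw [← hc]
    refine Finset.card_le_card_of_injOn (fun z => (z.2, decide (z.1 ≤ z.2))) ?_ ?_
    · intro z hz
      have := hs z hz
      simp only [Finset.coe_product, Set.mem_prod, Finset.mem_coe, Finset.mem_Icc,
        Finset.mem_univ, and_true]
      exact this.2
    · intro z hz z' hz' heq
      have e1 := hh z hz
      have e2 := hh z' hz'
      simp only [Prod.mk.injEq, decide_eq_decide] at heq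
      unfold Dens_h at e1 e2
      obtain ⟨q1, q2⟩ := heq
      refine Prod.ext ?_ q1
      by_cases hle : z.1 ≤ z.2
      · have := q2.1 hle
        omega
      · have : ¬ z'.1 ≤ z'.2 := fun hc => hle (q2.2 hc)
        omega
  omega

theorem Dens_nd (θ : ℝ) (z : ℕ × ℕ) :
    nd ((Dens_h z : ℝ) * θ) = nd (((z.1 : ℝ) - z.2) * θ) := by
  have h1 : (Dens_h z : ℝ) = |(z.1 : ℝ) - z.2| := by
    unfold Dens_h
    rw [Nat.cast_natAbs]
    push_cast
    rfl
  rw [h1]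
  rcases abs_cases ((z.1 : ℝ) - z.2) with h | h
  · rw [h.1]
  · rw [h.1, neg_mul, nd_neg]

theorem pr_Dens : DensI := by
  classical
  intro cs hcs hcs1
  refine ⟨min 1 ((5:ℝ) ^ (-2 / cs)), 480, lt_min one_pos (Real.rpow_pos_of_pos (by norm_num) _),
    by norm_num, fun κ hκ hκ0 θ A B hA hB => ?_⟩
  have hκ1 : κ ≤ 1 := le_trans hκ0 (min_le_left _ _)
  have hκ5 : κ ≤ (5:ℝ) ^ (-2 / cs) := le_trans hκ0 (min_le_right _ _)
  obtain ⟨R, hR⟩ : ∃ R : ℝ, R = max A B := ⟨_, rfl⟩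
  have hR1 : 1 ≤ R := by rw [hR]; exact le_trans hA (le_max_left _ _)
  have hAR : A ≤ R := by rw [hR]; exact le_max_left _ _
  have hBR : B ≤ R := by rw [hR]; exact le_max_right _ _
  obtain ⟨Z, hZ⟩ : ∃ Z : Finset (ℕ × ℕ), Z = (Finset.Icc 1 ⌊A⌋₊ ×ˢ Finset.Icc 1 ⌊B⌋₊).filter
    (fun z => UX cs θ κ z) := ⟨_, rfl⟩
  have hZcard : (((Finset.Icc 1 ⌊A⌋₊ ×ˢ Finset.Icc 1 ⌊B⌋₊).filter (fun z => UX cs θ κ z)).card : ℝ)
      = (Z.card : ℝ) := by
    rw [hZ]
  rw [hZcard]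
  have hZm : ∀ z ∈ Z, ((1 ≤ z.1 ∧ z.1 ≤ ⌊A⌋₊) ∧ (1 ≤ z.2 ∧ z.2 ≤ ⌊B⌋₊)) ∧ UX cs θ κ z := by
    intro z hz
    rw [hZ, Finset.mem_filter, Finset.mem_product, Finset.mem_Icc, Finset.mem_Icc] at hz
    exact hz
  -- facts on the distance
  have hfact : ∀ z ∈ Z, 1 ≤ Dens_h z ∧ (Dens_h z : ℝ) < R ∧ nd ((Dens_h z : ℝ) * θ) < 5 * κ ∧
      ((max z.1 z.2 : ℕ) : ℝ) ≤ R := by
    intro z hz
    obtain ⟨⟨⟨a1, a2⟩, b1, b2⟩, u1, u2, u3⟩ := hZm z hz
    have ha : (z.1 : ℝ) ≤ A := le_trans (by exact_mod_cast a2) (Nat.floor_le (by linarith))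
    have hb : (z.2 : ℝ) ≤ B := le_trans (by exact_mod_cast b2) (Nat.floor_le (by linarith))
    have hmax : ((max z.1 z.2 : ℕ) : ℝ) ≤ R := by
      rw [Nat.cast_max]
      exact max_le (by linarith) (by linarith)
    have hlt : Dens_h z < max z.1 z.2 := by
      unfold Dens_h
      omega
    refine ⟨by unfold Dens_h; omega, lt_of_lt_of_le (by exact_mod_cast hlt) hmax, ?_, hmax⟩
    rw [Dens_nd]
    linarith
  -- powers
  have hp0 : 0 < κ ^ (cs / 2) := Real.rpow_pos_of_pos hκ _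
  have hpκ : κ ≤ κ ^ (cs / 2) := by
    calc κ = κ ^ (1:ℝ) := (Real.rpow_one κ).symm
      _ ≤ κ ^ (cs / 2) := Real.rpow_le_rpow_of_exponent_ge hκ hκ1 (by linarith)
  have hp5 : 5 ≤ κ ^ (-(cs / 2)) := by
    calc (5:ℝ) = ((5:ℝ) ^ (-2 / cs)) ^ (-(cs / 2)) := by
          rw [← Real.rpow_mul (by norm_num)]
          have : -2 / cs * -(cs / 2) = 1 := by field_simp
          rw [this, Real.rpow_one]
      _ ≤ κ ^ (-(cs / 2)) := Real.rpow_le_rpow_of_nonpos hκ hκ5 (by linarith)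
  -- the number of distances
  have himg : ((Z.image Dens_h).card : ℝ) ≤ 240 * κ ^ (cs / 2) * R := by
    rcases dio θ (5 * κ) (2 * R) (by positivity) (by positivity) with h | ⟨-, h⟩
    · have hsub : (Z.image Dens_h).card ≤ hcount θ (5 * κ) (2 * R) := by
        unfold hcount
        refine Finset.card_le_card fun n hn => ?_
        obtain ⟨z, hz, rfl⟩ := Finset.mem_image.1 hn
        obtain ⟨f1, f2, f3, f4⟩ := hfact z hz
        rw [Finset.mem_filter, Finset.mem_Icc]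
        refine ⟨⟨f1, Nat.le_floor (by linarith)⟩, by linarith, f3⟩
      calc ((Z.image Dens_h).card : ℝ) ≤ (hcount θ (5 * κ) (2 * R) : ℝ) := by exact_mod_cast hsub
        _ ≤ 24 * (5 * κ) * (2 * R) := h
        _ = 240 * κ * R := by ring
        _ ≤ 240 * κ ^ (cs / 2) * R := by
            refine mul_le_mul_of_nonneg_right ?_ (by linarith)
            linarith
    · obtain ⟨q1, q2, q3, q4⟩ := qmin_spec θ (5 * κ) (by positivity)
      obtain ⟨q, hq⟩ : ∃ q : ℕ, q = qmin θ (5 * κ) := ⟨_, rfl⟩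
      rw [← hq] at q1 q2 q3 q4 h
      have hq0 : (0:ℝ) < q := by exact_mod_cast q1
      rcases lt_or_ge (κ ^ (-(cs / 2))) (q:ℝ) with hbig | hsmall
      · have hcard : (Z.image Dens_h).card ≤ ⌊2 * R / q⌋₊ := by
          have hI : (Finset.Icc 1 ⌊2 * R / q⌋₊).card = ⌊2 * R / q⌋₊ := by
            rw [Nat.card_Icc]; omega
          rw [← hI]
          refine Finset.card_le_card_of_injOn (fun n => n / q) ?_ ?_
          · intro n hn
            obtain ⟨z, hz, rfl⟩ := Finset.mem_image.1 hn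
            obtain ⟨f1, f2, f3, f4⟩ := hfact z hz
            obtain ⟨⟨m, hm⟩, -⟩ := h (Dens_h z) f1 (by linarith) f3
            have hdiv : Dens_h z / q = m := by
              rw [hm]
              exact Nat.mul_div_cancel_left m (by omega)
            simp only [Finset.coe_Icc, Set.mem_Icc]
            rw [hdiv]
            refine ⟨?_, Nat.le_floor ?_⟩
            · rcases Nat.eq_zero_or_pos m with h0 | h0
              · rw [h0, mul_zero] at hm
                omega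
              · exact h0
            · rw [le_div_iff₀ hq0]
              have : ((q * m : ℕ) : ℝ) = Dens_h z := by rw [hm]
              push_cast at this
              nlinarith
          · intro n hn n' hn' heq
            obtain ⟨z, hz, rfl⟩ := Finset.mem_image.1 hn
            obtain ⟨z', hz', rfl⟩ := Finset.mem_image.1 hn'
            obtain ⟨f1, f2, f3, f4⟩ := hfact z hz
            obtain ⟨g1, g2, g3, g4⟩ := hfact z' hz'
            obtain ⟨hd, -⟩ := h (Dens_h z) f1 (by linarith) f3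
            obtain ⟨hd', -⟩ := h (Dens_h z') g1 (by linarith) g3
            have e1 := Nat.div_mul_cancel hd
            have e2 := Nat.div_mul_cancel hd'
            simp only at heq
            rw [← e1, ← e2, heq]
        have hinv : 1 / (q:ℝ) ≤ κ ^ (cs / 2) := by
          rw [div_le_iff₀ hq0]
          have h1 : κ ^ (cs / 2) * κ ^ (-(cs / 2)) = 1 := by
            rw [← Real.rpow_add hκ, add_neg_cancel, Real.rpow_zero]
          calc (1:ℝ) = κ ^ (cs / 2) * κ ^ (-(cs / 2)) := h1.symm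
            _ ≤ κ ^ (cs / 2) * q := mul_le_mul_of_nonneg_left hbig.le hp0.le
        calc ((Z.image Dens_h).card : ℝ) ≤ (⌊2 * R / q⌋₊ : ℝ) := by exact_mod_cast hcard
          _ ≤ 2 * R / q := Nat.floor_le (by positivity)
          _ = 2 * R * (1 / q) := by ring
          _ ≤ 2 * R * κ ^ (cs / 2) := mul_le_mul_of_nonneg_left hinv (by linarith)
          _ ≤ 240 * κ ^ (cs / 2) * R := by nlinarith [mul_pos hp0 (by linarith : (0:ℝ) < R)]
      · -- explained pairs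
        have hlt : ∀ z ∈ Z, (Dens_h z : ℝ) < κ ^ (cs / 2) * R := by
          intro z hz
          by_contra hge
          rw [not_lt] at hge
          obtain ⟨f1, f2, f3, f4⟩ := hfact z hz
          obtain ⟨-, hround⟩ := h (Dens_h z) f1 (by linarith) f3
          have hnot := (hZm z hz).2.2.2
          apply hnot
          have hh0 : (0:ℝ) < Dens_h z := by exact_mod_cast f1
          have hpR : 0 < κ ^ (cs / 2) * R := mul_pos hp0 (by linarith)
          refine ⟨q, round ((q:ℝ) * θ), q1, q4, le_trans hsmall ?_, ?_⟩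
          · exact Real.rpow_le_rpow_of_exponent_ge hκ hκ1 (by linarith)
          · have hr : (round ((Dens_h z : ℝ) * θ) : ℝ) * q = Dens_h z * (round ((q:ℝ) * θ) : ℝ) := by
              exact_mod_cast hround
            have hfrac : ((round ((q:ℝ) * θ) : ℤ) : ℝ) / q =
                (round ((Dens_h z : ℝ) * θ) : ℝ) / Dens_h z := by
              rw [div_eq_div_iff hq0.ne' hh0.ne']
              linarith
            have habs : |θ - ((round ((q:ℝ) * θ) : ℤ) : ℝ) / q| =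
                nd ((Dens_h z : ℝ) * θ) / Dens_h z := by
              rw [hfrac]
              unfold nd
              rw [eq_div_iff hh0.ne', ← abs_of_pos hh0, ← abs_mul, abs_of_pos hh0]
              congr 1
              field_simp
            rw [habs]
            have h1 : nd ((Dens_h z : ℝ) * θ) / Dens_h z ≤ 5 * κ / (κ ^ (cs / 2) * R) :=
              div_le_div₀ (by linarith) f3.le hpR hge
            calc nd ((Dens_h z : ℝ) * θ) / Dens_h z * ((max z.1 z.2 : ℕ) : ℝ)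
                ≤ 5 * κ / (κ ^ (cs / 2) * R) * R :=
                  mul_le_mul h1 f4 (Nat.cast_nonneg _) (by positivity)
              _ = 5 * (κ / κ ^ (cs / 2)) := by
                  have : R ≠ 0 := by linarith
                  field_simp
              _ = 5 * κ ^ (1 - cs / 2) := by rw [Real.rpow_sub hκ, Real.rpow_one]
              _ ≤ κ ^ (-(cs / 2)) * κ ^ (1 - cs / 2) :=
                  mul_le_mul_of_nonneg_right hp5 (Real.rpow_nonneg hκ.le _)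
              _ = κ ^ (1 - cs) := by
                  rw [← Real.rpow_add hκ]
                  congr 1
                  ring
        have hcard : (Z.image Dens_h).card ≤ ⌊κ ^ (cs / 2) * R⌋₊ := by
          have hI : (Finset.Icc 1 ⌊κ ^ (cs / 2) * R⌋₊).card = ⌊κ ^ (cs / 2) * R⌋₊ := by
            rw [Nat.card_Icc]; omega
          rw [← hI]
          refine Finset.card_le_card fun n hn => ?_
          obtain ⟨z, hz, rfl⟩ := Finset.mem_image.1 hn
          rw [Finset.mem_Icc]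
          exact ⟨(hfact z hz).1, Nat.le_floor (hlt z hz).le⟩
        calc ((Z.image Dens_h).card : ℝ) ≤ (⌊κ ^ (cs / 2) * R⌋₊ : ℝ) := by exact_mod_cast hcard
          _ ≤ κ ^ (cs / 2) * R := Nat.floor_le (by positivity)
          _ ≤ 240 * κ ^ (cs / 2) * R := by nlinarith [mul_pos hp0 (by linarith : (0:ℝ) < R)]
  -- conclusion
  have hfib : Z.card ≤ (2 * min ⌊A⌋₊ ⌊B⌋₊) * (Z.image Dens_h).card := by
    refine Finset.card_le_mul_card_image Z _ (fun n _ => ?_)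
    refine Dens_fibre ⌊A⌋₊ ⌊B⌋₊ n _ (fun z hz => ?_) (fun z hz => ?_)
    · exact (hZm z (Finset.mem_filter.1 hz).1).1
    · exact (Finset.mem_filter.1 hz).2
  have hmin : ((min ⌊A⌋₊ ⌊B⌋₊ : ℕ) : ℝ) ≤ min A B := by
    rw [Nat.cast_min]
    exact min_le_min (Nat.floor_le (by linarith)) (Nat.floor_le (by linarith))
  have hmm : min A B * R = A * B := by rw [hR, min_mul_max]
  calc (Z.card : ℝ) ≤ (((2 * min ⌊A⌋₊ ⌊B⌋₊) * (Z.image Dens_h).card : ℕ) : ℝ) := by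
        exact_mod_cast hfib
    _ = 2 * ((min ⌊A⌋₊ ⌊B⌋₊ : ℕ) : ℝ) * ((Z.image Dens_h).card : ℝ) := by push_cast; ring
    _ ≤ 2 * min A B * (240 * κ ^ (cs / 2) * R) := by
        have : 0 ≤ min A B := le_min (by linarith) (by linarith)
        refine mul_le_mul (by linarith) himg (Nat.cast_nonneg _) (by linarith)
    _ = 480 * κ ^ (cs / 2) * (min A B * R) := by ring
    _ = 480 * κ ^ (cs / 2) * (A * B) := by rw [hmm]

end Pool.Agent.MP_0863b8.C1

end

section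

/-!
MP_0863b8_nt, CASE I: all boxes with `u, v ≤ Y`.
-/

set_option autoImplicit false

namespace Pool.Agent.MP_0863b8.C1

open MeasureTheory Filter
open F (ms)
open G (potG)

private theorem su_ms_nonneg (V : Finset ℕ) : 0 ≤ ms V :=
  Finset.sum_nonneg fun _ _ => Nat.cast_nonneg _

private theorem su_ms_mono {V V' : Finset ℕ} (h : V' ⊆ V) : ms V' ≤ ms V :=
  Finset.sum_le_sum_of_subset_of_nonneg h fun _ _ _ => Nat.cast_nonneg _

/-- a set of exponents in a short interval is small -/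
private theorem su_card (I : Finset ℕ) (a b Y : ℝ) (ha : 0 < a) (hY : 3 ≤ Y) (hb : b ≤ 4 * Y * a)
    (h1 : ∀ i ∈ I, a < 2 ^ i) (h2 : ∀ i ∈ I, (2 : ℝ) ^ i < b) :
    (I.card : ℝ) ≤ 8 * Real.log Y := by
  have hlog3 : 1 ≤ Real.log Y := by
    rw [Real.le_log_iff_exp_le (by linarith)]
    exact (Real.exp_one_lt_d9.le.trans (by norm_num)).trans hY
  rcases I.eq_empty_or_nonempty with rfl | hne
  · simp only [Finset.card_empty, Nat.cast_zero]; linarith
  · set i0 := I.min' hne with hi0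
    have hi0m : i0 ∈ I := I.min'_mem hne
    have hlt : ∀ i ∈ I, ((i - i0 : ℕ) : ℝ) ≤ Real.log (4 * Y) / Real.log 2 := by
      intro i hi
      have hle : i0 ≤ i := I.min'_le i hi
      have h3 : (2 : ℝ) ^ (i - i0) * a < 4 * Y * a := by
        calc (2 : ℝ) ^ (i - i0) * a < (2 : ℝ) ^ (i - i0) * 2 ^ i0 :=
              mul_lt_mul_of_pos_left (h1 i0 hi0m) (by positivity)
          _ = 2 ^ i := by rw [← pow_add, Nat.sub_add_cancel hle]
          _ < b := h2 i hi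
          _ ≤ _ := hb
      have h4 : (2 : ℝ) ^ (i - i0) < 4 * Y := lt_of_mul_lt_mul_right h3 ha.le
      have h5 := Real.log_le_log (by positivity) h4.le
      rw [Real.log_pow] at h5
      rw [le_div_iff₀ (Real.log_pos (by norm_num))]
      exact h5
    have hsub : I ⊆ Finset.Icc i0 (i0 + ⌊Real.log (4 * Y) / Real.log 2⌋₊) := by
      intro i hi
      rw [Finset.mem_Icc]
      refine ⟨I.min'_le i hi, ?_⟩
      have := Nat.le_floor (hlt i hi)
      omega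
    have hc := Finset.card_le_card hsub
    rw [Nat.card_Icc] at hc
    have hc2 : (I.card : ℝ) ≤ Real.log (4 * Y) / Real.log 2 + 1 := by
      have hfl : ((⌊Real.log (4 * Y) / Real.log 2⌋₊ : ℕ) : ℝ) ≤ Real.log (4 * Y) / Real.log 2 := by
        apply Nat.floor_le
        apply div_nonneg (Real.log_nonneg (by linarith)) (Real.log_nonneg (by norm_num))
      have : (I.card : ℝ) ≤ ((⌊Real.log (4 * Y) / Real.log 2⌋₊ : ℕ) : ℝ) + 1 := by
        have : I.card ≤ ⌊Real.log (4 * Y) / Real.log 2⌋₊ + 1 := by omega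
        exact_mod_cast this
      linarith
    refine hc2.trans ?_
    have hl2 : 0.69 < Real.log 2 := by
      have := Real.log_two_gt_d9
      linarith
    have hl2' : 0 < Real.log 2 := by linarith
    have h4Y : Real.log (4 * Y) = 2 * Real.log 2 + Real.log Y := by
      rw [Real.log_mul (by norm_num) (by linarith)]
      have : (4 : ℝ) = 2 ^ 2 := by norm_num
      rw [this, Real.log_pow]
      push_cast
      ring
    rw [h4Y, add_div, mul_div_assoc, div_self hl2'.ne']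
    have h6 : Real.log Y / Real.log 2 ≤ 2 * Real.log Y := by
      rw [div_le_iff₀ hl2']
      nlinarith
    linarith

open Classical in
theorem pr_Sum (hB : BoxI) : SumI := by
  intro γ cs C1 hγ hγ' hcs hcs'
  obtain ⟨κ0, C, hκ0, hC, hB'⟩ := hB γ cs C1 hγ hγ' hcs hcs'
  refine ⟨κ0, 64 * C, hκ0, by linarith, ?_⟩
  intro κ hκ hκle θ X Y hX hY V W hV hW
  have hκX : 0 < κ * X := mul_pos hκ hX
  set S := (V ×ˢ W).filter (fun z => Dp κ X z ∧ UX cs θ κ (rd z) ∧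
        ((rd z).1 : ℝ) ≤ Y ∧ ((rd z).2 : ℝ) ≤ Y) with hSd
  -- the coordinates
  have hco : ∀ z ∈ S, κ * X / Y ≤ (z.1 : ℝ) ∧ (z.1 : ℝ) < 2 * (κ * X) ∧
      κ * X / Y ≤ (z.2 : ℝ) ∧ (z.2 : ℝ) < 2 * (κ * X) := by
    intro z hz
    rw [hSd, Finset.mem_filter] at hz
    obtain ⟨hzVW, hD, -, hu, hv⟩ := hz
    have hz1 : 0 < z.1 := (hV z.1 (Finset.mem_product.mp hzVW).1).1
    have hz2 : 0 < z.2 := (hW z.2 (Finset.mem_product.mp hzVW).2).1
    have hY0 : 0 < Y := by linarith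
    have e1 : z.1.lcm z.2 = z.1 * (rd z).2 := by
      rw [Nat.lcm, rd]
      exact Nat.mul_div_assoc _ (Nat.gcd_dvd_right _ _)
    have e2 : z.1.lcm z.2 = z.2 * (rd z).1 := by
      rw [Nat.lcm, rd, mul_comm z.1 z.2]
      exact Nat.mul_div_assoc _ (Nat.gcd_dvd_left _ _)
    have e1' : ((z.1.lcm z.2 : ℕ) : ℝ) = z.1 * (rd z).2 := by rw [e1]; push_cast; ring
    have e2' : ((z.1.lcm z.2 : ℕ) : ℝ) = z.2 * (rd z).1 := by rw [e2]; push_cast; ring
    have hl1 : (z.1 : ℝ) ≤ ((z.1.lcm z.2 : ℕ) : ℝ) := by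
      exact_mod_cast Nat.le_of_dvd (Nat.lcm_pos hz1 hz2) (Nat.dvd_lcm_left _ _)
    have hl2 : (z.2 : ℝ) ≤ ((z.1.lcm z.2 : ℕ) : ℝ) := by
      exact_mod_cast Nat.le_of_dvd (Nat.lcm_pos hz1 hz2) (Nat.dvd_lcm_right _ _)
    refine ⟨?_, lt_of_le_of_lt hl1 hD.2, ?_, lt_of_le_of_lt hl2 hD.2⟩
    · rw [div_le_iff₀ hY0]
      refine hD.1.trans ?_
      rw [e1']
      exact mul_le_mul_of_nonneg_left hv (Nat.cast_nonneg _)
    · rw [div_le_iff₀ hY0]
      refine hD.1.trans ?_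
      rw [e2']
      exact mul_le_mul_of_nonneg_left hu (Nat.cast_nonneg _)
  have hlog : ∀ n : ℕ, κ * X / Y ≤ (n : ℝ) → (n : ℝ) < 2 * (κ * X) →
      κ * X / (2 * Y) < (2 : ℝ) ^ (Nat.log 2 n) ∧ (2 : ℝ) ^ (Nat.log 2 n) < 2 * (κ * X) := by
    intro n h1 h2
    have hn0 : n ≠ 0 := by
      rintro rfl
      have : 0 < κ * X / Y := div_pos hκX (by linarith)
      simp only [Nat.cast_zero] at h1
      linarith
    have h3 : (2 : ℝ) ^ (Nat.log 2 n) ≤ n := by exact_mod_cast Nat.pow_log_le_self 2 hn0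
    have h4 : (n : ℝ) < 2 ^ (Nat.log 2 n + 1) := by
      exact_mod_cast Nat.lt_pow_succ_log_self (by norm_num) n
    refine ⟨?_, lt_of_le_of_lt h3 h2⟩
    rw [pow_succ] at h4
    have h5 : κ * X / (2 * Y) = κ * X / Y / 2 := by rw [div_div, mul_comm Y 2]
    rw [h5]
    linarith
  set I := S.image (fun z => Nat.log 2 z.1) with hI
  set J := S.image (fun z => Nat.log 2 z.2) with hJ
  have hIc : (I.card : ℝ) ≤ 8 * Real.log Y := by
    apply su_card I (κ * X / (2 * Y)) (2 * (κ * X)) Y (by positivity) hY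
    · apply le_of_eq
      field_simp
      ring
    · intro i hi
      obtain ⟨z, hz, rfl⟩ := Finset.mem_image.mp hi
      exact (hlog z.1 (hco z hz).1 (hco z hz).2.1).1
    · intro i hi
      obtain ⟨z, hz, rfl⟩ := Finset.mem_image.mp hi
      exact (hlog z.1 (hco z hz).1 (hco z hz).2.1).2
  have hJc : (J.card : ℝ) ≤ 8 * Real.log Y := by
    apply su_card J (κ * X / (2 * Y)) (2 * (κ * X)) Y (by positivity) hY
    · apply le_of_eq
      field_simp
      ring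
    · intro i hi
      obtain ⟨z, hz, rfl⟩ := Finset.mem_image.mp hi
      exact (hlog z.2 (hco z hz).2.2.1 (hco z hz).2.2.2).1
    · intro i hi
      obtain ⟨z, hz, rfl⟩ := Finset.mem_image.mp hi
      exact (hlog z.2 (hco z hz).2.2.1 (hco z hz).2.2.2).2
  set Bd : ℝ := C * κ ^ ((1 - γ) / 4 * cs) * (κ * X) ^ (1 - 2 * γ) * (ms V * ms W) ^ γ with hBd
  have hBd0 : 0 ≤ Bd := by
    rw [hBd]
    have h1 : 0 ≤ (ms V * ms W) ^ γ :=
      Real.rpow_nonneg (mul_nonneg (su_ms_nonneg V) (su_ms_nonneg W)) _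
    have h2 : 0 ≤ κ ^ ((1 - γ) / 4 * cs) := Real.rpow_nonneg hκ.le _
    have h3 : 0 ≤ (κ * X) ^ (1 - 2 * γ) := Real.rpow_nonneg hκX.le _
    positivity
  -- one box
  have hbox : ∀ p ∈ I ×ˢ J, ∑ z ∈ S.filter (fun z => (Nat.log 2 z.1, Nat.log 2 z.2) = p),
      ((z.1.gcd z.2 : ℕ) : ℝ) ≤ Bd := by
    intro p _
    set Vi := V.filter (fun v => Nat.log 2 v = p.1) with hVi
    set Wj := W.filter (fun w => Nat.log 2 w = p.2) with hWj
    have hVi' : ∀ v ∈ Vi, 0 < v ∧ rp v ≤ C1 ∧ ((2 : ℝ) ^ p.1) ≤ v ∧ (v : ℝ) < 2 * 2 ^ p.1 := by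
      intro v hv
      rw [hVi, Finset.mem_filter] at hv
      obtain ⟨hv1, hv2⟩ := hv
      have h0 := hV v hv1
      refine ⟨h0.1, h0.2, ?_, ?_⟩
      · rw [← hv2]; exact_mod_cast Nat.pow_log_le_self 2 h0.1.ne'
      · rw [← hv2, ← pow_succ']
        exact_mod_cast Nat.lt_pow_succ_log_self (by norm_num) v
    have hWj' : ∀ w ∈ Wj, 0 < w ∧ rp w ≤ C1 ∧ ((2 : ℝ) ^ p.2) ≤ w ∧ (w : ℝ) < 2 * 2 ^ p.2 := by
      intro v hv
      rw [hWj, Finset.mem_filter] at hv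
      obtain ⟨hv1, hv2⟩ := hv
      have h0 := hW v hv1
      refine ⟨h0.1, h0.2, ?_, ?_⟩
      · rw [← hv2]; exact_mod_cast Nat.pow_log_le_self 2 h0.1.ne'
      · rw [← hv2, ← pow_succ']
        exact_mod_cast Nat.lt_pow_succ_log_self (by norm_num) v
    have h1 := hB' κ hκ hκle θ X ((2 : ℝ) ^ p.1) ((2 : ℝ) ^ p.2) hX (by positivity)
      (by positivity) Vi Wj hVi' hWj'
    refine le_trans ?_ (h1.trans ?_)
    · refine Finset.sum_le_sum_of_subset_of_nonneg ?_ fun _ _ _ => Nat.cast_nonneg _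
      intro z hz
      rw [Finset.mem_filter] at hz
      obtain ⟨hzS, hzp⟩ := hz
      rw [hSd, Finset.mem_filter] at hzS
      obtain ⟨hzVW, hD, hU, -⟩ := hzS
      rw [Finset.mem_product] at hzVW
      rw [Finset.mem_filter, Finset.mem_product, hVi, hWj, Finset.mem_filter, Finset.mem_filter]
      have hpp : Nat.log 2 z.1 = p.1 ∧ Nat.log 2 z.2 = p.2 := by
        rw [← hzp]
        exact ⟨rfl, rfl⟩
      exact ⟨⟨⟨hzVW.1, hpp.1⟩, ⟨hzVW.2, hpp.2⟩⟩, hD, hU⟩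
    · rw [hBd]
      refine mul_le_mul_of_nonneg_left ?_ ?_
      · refine Real.rpow_le_rpow (mul_nonneg (su_ms_nonneg _) (su_ms_nonneg _)) ?_ (by linarith)
        exact mul_le_mul (su_ms_mono (Finset.filter_subset _ _))
          (su_ms_mono (Finset.filter_subset _ _)) (su_ms_nonneg _) (su_ms_nonneg _)
      · have h2 : 0 ≤ κ ^ ((1 - γ) / 4 * cs) := Real.rpow_nonneg hκ.le _
        have h3 : 0 ≤ (κ * X) ^ (1 - 2 * γ) := Real.rpow_nonneg hκX.le _
        positivity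
  have hfib : ∑ z ∈ S, ((z.1.gcd z.2 : ℕ) : ℝ) = ∑ p ∈ I ×ˢ J,
      ∑ z ∈ S.filter (fun z => (Nat.log 2 z.1, Nat.log 2 z.2) = p), ((z.1.gcd z.2 : ℕ) : ℝ) := by
    symm
    apply Finset.sum_fiberwise_of_maps_to
    intro z hz
    rw [Finset.mem_product]
    exact ⟨Finset.mem_image_of_mem _ hz, Finset.mem_image_of_mem _ hz⟩
  have hL0 : 0 ≤ Real.log Y := Real.log_nonneg (by linarith)
  calc ∑ z ∈ S, ((z.1.gcd z.2 : ℕ) : ℝ)
      = _ := hfib
    _ ≤ ∑ p ∈ I ×ˢ J, Bd := Finset.sum_le_sum hbox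
    _ = (I.card : ℝ) * J.card * Bd := by
        rw [Finset.sum_const, Finset.card_product, nsmul_eq_mul]
        push_cast
        ring
    _ ≤ (8 * Real.log Y) * (8 * Real.log Y) * Bd := by
        refine mul_le_mul_of_nonneg_right ?_ hBd0
        exact mul_le_mul hIc hJc (Nat.cast_nonneg _) (by positivity)
    _ = _ := by rw [hBd]; ring

end Pool.Agent.MP_0863b8.C1

end

section

/-!
MP_0863b8_nt, CASE II: Step 2 for one pair of dyadic classes.
-/

set_option autoImplicit false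

namespace Pool.Agent.MP_0863b8.C2

open Pool.Agent.MP_0863b8 F G

private theorem dn_ms_nonneg (V : Finset ℕ) : 0 ≤ ms V :=
  Finset.sum_nonneg fun _ _ => Nat.cast_nonneg _

private theorem dn_gcd_lcm (z : ℕ × ℕ) : (cg z : ℝ) * ((z.1.lcm z.2 : ℕ) : ℝ)
    = (z.1 : ℝ) * z.2 := by
  exact_mod_cast Nat.gcd_mul_lcm z.1 z.2

/-- dividing out the factors `A | u`, `A' | v` -/
private theorem dn_struct (n m A A' : ℕ) (hn : 0 < n) (hm : 0 < m) (hA : 0 < A) (hA' : 0 < A')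
    (h1 : A ∣ n / n.gcd m) (h2 : A' ∣ m / n.gcd m) :
    (n / A).gcd (m / A') = n.gcd m ∧ (n / A).lcm (m / A') * (A * A') = n.lcm m ∧
      n / A * A = n ∧ m / A' * A' = m := by
  have hg : 0 < n.gcd m := Nat.gcd_pos_of_pos_left _ hn
  set g := n.gcd m with hgd
  obtain ⟨a, ha⟩ := h1
  obtain ⟨b, hb⟩ := h2
  have hcop : Nat.Coprime (n / g) (m / g) := Nat.coprime_div_gcd_div_gcd hg
  have hnu : n = g * (A * a) := by
    rw [← ha, Nat.mul_div_cancel' (Nat.gcd_dvd_left n m)]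
  have hmu : m = g * (A' * b) := by
    rw [← hb, Nat.mul_div_cancel' (Nat.gcd_dvd_right n m)]
  have hcop' : Nat.Coprime (A * a) (A' * b) := by rw [← ha, ← hb]; exact hcop
  have hab : Nat.Coprime a b := hcop'.coprime_mul_left.coprime_mul_left_right
  have e1 : n / A = g * a := by
    rw [hnu, show g * (A * a) = A * (g * a) by ring, Nat.mul_div_cancel_left _ hA]
  have e2 : m / A' = g * b := by
    rw [hmu, show g * (A' * b) = A' * (g * b) by ring, Nat.mul_div_cancel_left _ hA']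
  have hgcd : (n / A).gcd (m / A') = g := by
    rw [e1, e2, Nat.gcd_mul_left, hab.gcd_eq_one, mul_one]
  refine ⟨hgcd, ?_, ?_, ?_⟩
  · have l1 : (n / A).lcm (m / A') = g * (a * b) := by
      rw [e1, e2, Nat.lcm_mul_left, hab.lcm_eq_mul]
    have l2 : n.lcm m = g * ((A * a) * (A' * b)) := by
      conv_lhs => rw [hnu, hmu]
      rw [Nat.lcm_mul_left, hcop'.lcm_eq_mul]
    rw [l1, l2]
    ring
  · rw [e1]; conv_rhs => rw [hnu]
    ring
  · rw [e2]; conv_rhs => rw [hmu]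
    ring

/-- the tree inequality for the sum of the gcd -/
private theorem dn_tree : ∀ γ C1 : ℝ, 1/2 < γ → γ ≤ 5/9 → ∃ C : ℝ, 0 < C ∧
    ∀ (V W : Finset ℕ) (L : ℝ), 0 < L →
    (∀ v ∈ V, 0 < v ∧ rp v ≤ C1) → (∀ w ∈ W, 0 < w ∧ rp w ≤ C1) →
    ∑ t ∈ prs V W L, (cg t : ℝ) ≤ C * L ^ (1 - 2 * γ) * (ms V * ms W) ^ γ := by
  intro γ C1 hγ hγ'
  have hs : StepG := G.step G.node
  have ht : TreeG := G.tree hs (G.fin hs G.base)
  obtain ⟨C, hC, h⟩ := ht γ C1 hγ hγ'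
  refine ⟨2 * C, by linarith, ?_⟩
  intro V W L hL hV hW
  have h1 := h V W L hL.le hV hW
  have h2 : ∑ t ∈ prs V W L, (t.1 : ℝ) * t.2 ≤ C * potG γ L V W := by
    refine le_trans (le_of_eq ?_) h1
    unfold en prs
    refine Finset.sum_congr ?_ fun _ _ => rfl
    ext t
    simp only [Finset.mem_filter, Set.mem_univ, implies_true, and_true]
  calc ∑ t ∈ prs V W L, (cg t : ℝ)
      ≤ ∑ t ∈ prs V W L, 2 / L * ((t.1 : ℝ) * t.2) := by
        refine Finset.sum_le_sum fun t ht => ?_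
        have ht' : L / 2 < ((t.1.lcm t.2 : ℕ) : ℝ) := by
          unfold prs at ht
          exact (Finset.mem_filter.mp ht).2.1
        rw [← dn_gcd_lcm t]
        have h3 : (1 : ℝ) ≤ 2 / L * ((t.1.lcm t.2 : ℕ) : ℝ) := by
          rw [div_mul_eq_mul_div, le_div_iff₀ hL]
          linarith
        calc (cg t : ℝ) = cg t * 1 := (mul_one _).symm
          _ ≤ cg t * (2 / L * ((t.1.lcm t.2 : ℕ) : ℝ)) :=
            mul_le_mul_of_nonneg_left h3 (Nat.cast_nonneg _)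
          _ = _ := by ring
    _ = 2 / L * ∑ t ∈ prs V W L, (t.1 : ℝ) * t.2 := by rw [Finset.mul_sum]
    _ ≤ 2 / L * (C * potG γ L V W) := mul_le_mul_of_nonneg_left h2 (by positivity)
    _ = _ := by
        have h3 : L ^ (1 - 2 * γ) = 1 / L * L ^ (2 * (1 - γ)) := by
          have : (1 - 2 * γ) = 2 * (1 - γ) - 1 := by ring
          rw [this, Real.rpow_sub_one hL.ne']
          field_simp
        rw [h3, potG]
        ring

/-! ### layers -/

section Layers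

variable (N : Finset ℕ) (A : ℕ → ℕ) (i : ℕ)

/-- multiplicity of `ν` -/
private def dn_c (ν : ℕ) : ℕ := (N.filter (fun n => n / A n = ν)).card

/-- the index of the layer of `ν` -/
private def dn_k (ν : ℕ) : ℕ := Nat.log 2 (2 ^ i / dn_c N A ν)

/-- the layers -/
private def dn_V (k : ℕ) : Finset ℕ :=
  (N.image (fun n => n / A n)).filter (fun ν => dn_k N A i ν = k)

variable {N A i}

private theorem dn_c_pos (ν : ℕ) (hν : ν ∈ N.image (fun n => n / A n)) : 0 < dn_c N A ν := by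
  obtain ⟨n, hn, rfl⟩ := Finset.mem_image.mp hν
  exact Finset.card_pos.mpr ⟨n, Finset.mem_filter.mpr ⟨hn, rfl⟩⟩

private theorem dn_c_le (h : ∀ n ∈ N, 0 < n ∧ 2 ^ i ≤ A n ∧ A n < 2 ^ (i + 1) ∧ A n ∣ n) (ν : ℕ) :
    dn_c N A ν ≤ 2 ^ i := by
  have h1 : (N.filter (fun n => n / A n = ν)).card ≤ (Finset.Ico (2 ^ i) (2 ^ (i + 1))).card := by
    refine Finset.card_le_card_of_injOn A ?_ ?_
    · intro n hn
      have hn' := (Finset.mem_filter.mp hn).1
      have := h n hn'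
      exact Finset.mem_coe.mpr (Finset.mem_Ico.mpr ⟨this.2.1, this.2.2.1⟩)
    · intro n hn m hm hnm
      have hn' := Finset.mem_filter.mp hn
      have hm' := Finset.mem_filter.mp hm
      have e1 : n / A n * A n = n := Nat.div_mul_cancel (h n hn'.1).2.2.2
      have e2 : m / A m * A m = m := Nat.div_mul_cancel (h m hm'.1).2.2.2
      rw [hn'.2] at e1
      rw [hm'.2] at e2
      rw [← e1, ← e2, hnm]
  rw [Nat.card_Ico, pow_succ] at h1
  unfold dn_c
  omega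

private theorem dn_k_spec (h : ∀ n ∈ N, 0 < n ∧ 2 ^ i ≤ A n ∧ A n < 2 ^ (i + 1) ∧ A n ∣ n) (ν : ℕ)
    (hν : ν ∈ N.image (fun n => n / A n)) :
    dn_k N A i ν ≤ i ∧ 2 ^ (dn_k N A i ν) * dn_c N A ν ≤ 2 ^ i ∧
      2 ^ i ≤ 2 ^ (dn_k N A i ν + 1) * dn_c N A ν := by
  have hc := dn_c_pos ν hν
  have hc2 := dn_c_le h ν
  set c := dn_c N A ν with hcd
  have hq : 0 < 2 ^ i / c := Nat.div_pos hc2 hc
  have h1 : 2 ^ (dn_k N A i ν) ≤ 2 ^ i / c := Nat.pow_log_le_self 2 hq.ne'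
  have h2 : 2 ^ i / c < 2 ^ (dn_k N A i ν + 1) := Nat.lt_pow_succ_log_self (by norm_num) _
  refine ⟨?_, ?_, ?_⟩
  · have h3 : 2 ^ (dn_k N A i ν) ≤ 2 ^ i := h1.trans (Nat.div_le_self _ _)
    exact (Nat.pow_le_pow_iff_right (by norm_num)).mp h3
  · exact (Nat.mul_le_mul_right c h1).trans (Nat.div_mul_le_self _ _)
  · have h4 : 2 ^ i < (2 ^ i / c + 1) * c := by
      have := Nat.lt_mul_div_succ (2 ^ i) hc
      rw [mul_comm]
      exact this
    exact h4.le.trans (Nat.mul_le_mul_right c h2)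

private theorem dn_ms (h : ∀ n ∈ N, 0 < n ∧ 2 ^ i ≤ A n ∧ A n < 2 ^ (i + 1) ∧ A n ∣ n) (k : ℕ) :
    ms (dn_V N A i k) ≤ 2 * 2 ^ k / (2 ^ i) ^ 2 * ms N := by
  have h1 : ∑ ν ∈ dn_V N A i k, ∑ n ∈ N.filter (fun n => n / A n = ν), (n : ℝ) ≤ ms N := by
    have hd : ∑ ν ∈ dn_V N A i k, ∑ n ∈ N.filter (fun n => n / A n = ν), (n : ℝ)
        ≤ ∑ ν ∈ N.image (fun n => n / A n), ∑ n ∈ N.filter (fun n => n / A n = ν), (n : ℝ) := by
      refine Finset.sum_le_sum_of_subset_of_nonneg (Finset.filter_subset _ _) ?_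
      intro _ _ _
      exact Finset.sum_nonneg fun _ _ => Nat.cast_nonneg _
    refine hd.trans (le_of_eq ?_)
    unfold ms
    apply Finset.sum_fiberwise_of_maps_to
    intro n hn
    exact Finset.mem_image_of_mem _ hn
  have h2 : ∀ ν ∈ dn_V N A i k, (ν : ℝ) * ((2 ^ i) ^ 2 / (2 * 2 ^ k)) ≤
      ∑ n ∈ N.filter (fun n => n / A n = ν), (n : ℝ) := by
    intro ν hν
    obtain ⟨hν1, hν2⟩ := Finset.mem_filter.mp hν
    have h3 := (dn_k_spec h ν hν1).2.2
    rw [hν2] at h3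
    have h3' : (2 : ℝ) ^ i ≤ 2 ^ (k + 1) * (dn_c N A ν : ℝ) := by exact_mod_cast h3
    have h4 : ∑ n ∈ N.filter (fun n => n / A n = ν), (ν : ℝ) * 2 ^ i ≤
        ∑ n ∈ N.filter (fun n => n / A n = ν), (n : ℝ) := by
      refine Finset.sum_le_sum fun n hn => ?_
      obtain ⟨hn1, hn2⟩ := Finset.mem_filter.mp hn
      have e1 : n / A n * A n = n := Nat.div_mul_cancel (h n hn1).2.2.2
      rw [hn2] at e1
      have : ν * 2 ^ i ≤ n := by
        conv_rhs => rw [← e1]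
        exact Nat.mul_le_mul_left _ (h n hn1).2.1
      exact_mod_cast this
    rw [Finset.sum_const, nsmul_eq_mul] at h4
    refine le_trans ?_ h4
    have h5 : ((N.filter (fun n => n / A n = ν)).card : ℝ) = (dn_c N A ν : ℝ) := rfl
    rw [h5]
    have h6 : (2 : ℝ) ^ i / (2 * 2 ^ k) ≤ (dn_c N A ν : ℝ) := by
      rw [div_le_iff₀ (by positivity)]
      calc (2 : ℝ) ^ i ≤ 2 ^ (k + 1) * (dn_c N A ν : ℝ) := h3'
        _ = _ := by rw [pow_succ]; ring
    calc (ν : ℝ) * ((2 ^ i) ^ 2 / (2 * 2 ^ k)) = (2 ^ i / (2 * 2 ^ k)) * (ν * 2 ^ i) := by ring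
      _ ≤ _ := mul_le_mul_of_nonneg_right h6 (by positivity)
  have h3 := (Finset.sum_le_sum h2).trans h1
  rw [← Finset.sum_mul] at h3
  have h4 : ms (dn_V N A i k) * ((2 ^ i) ^ 2 / (2 * 2 ^ k)) ≤ ms N := h3
  rw [div_mul_eq_mul_div, le_div_iff₀ (by positivity)]
  calc ms (dn_V N A i k) * (2 ^ i) ^ 2
      = 2 * 2 ^ k * (ms (dn_V N A i k) * ((2 ^ i) ^ 2 / (2 * 2 ^ k))) := by
        field_simp
    _ ≤ _ := mul_le_mul_of_nonneg_left h4 (by positivity)

private theorem dn_V_rp {C1 : ℝ} (h : ∀ n ∈ N, 0 < n ∧ 2 ^ i ≤ A n ∧ A n < 2 ^ (i + 1) ∧ A n ∣ n)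
    (hrp : ∀ n ∈ N, rp n ≤ C1) (k : ℕ) : ∀ ν ∈ dn_V N A i k, 0 < ν ∧ rp ν ≤ C1 := by
  intro ν hν
  obtain ⟨hν1, -⟩ := Finset.mem_filter.mp hν
  obtain ⟨n, hn, rfl⟩ := Finset.mem_image.mp hν1
  have h1 := h n hn
  have hA : 0 < A n := lt_of_lt_of_le (by positivity) h1.2.1
  have hdvd : n / A n ∣ n := Nat.div_dvd_of_dvd h1.2.2.2
  refine ⟨Nat.div_pos (Nat.le_of_dvd h1.1 h1.2.2.2) hA, le_trans ?_ (hrp n hn)⟩
  unfold rp
  exact Finset.sum_le_sum_of_subset_of_nonneg (Nat.primeFactors_mono hdvd h1.1.ne')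
    fun _ _ _ => by positivity

end Layers

/-- geometric mean -/
private theorem dn_gm (x a b θ : ℝ) (hx : 0 ≤ x) (ha : x ≤ a) (hb : x ≤ b) (h0 : 0 < θ)
    (h1 : θ < 1) : x ≤ a ^ (1 - θ) * b ^ θ := by
  rcases hx.eq_or_lt with rfl | hx
  · exact mul_nonneg (Real.rpow_nonneg ha _) (Real.rpow_nonneg hb _)
  · have h2 : x = x ^ (1 - θ) * x ^ θ := by
      rw [← Real.rpow_add hx]
      simp
    conv_lhs => rw [h2]
    exact mul_le_mul (Real.rpow_le_rpow hx.le ha (by linarith))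
      (Real.rpow_le_rpow hx.le hb h0.le) (Real.rpow_nonneg hx.le _)
      (Real.rpow_nonneg (hx.le.trans ha) _)

/-- the powers cancel -/
private theorem dn_pow (γ T Y R q Z : ℝ) (hT : 0 ≤ T) (hY : 0 < Y) (hR : 0 < R) (hq : 0 < q)
    (hZ : 0 ≤ Z) :
    (T * R) ^ (1 - (1 + γ) / 2) * (R / q) ^ ((1 + γ) / 2) *
        ((Y / R) ^ (1 - 2 * γ) * (4 * q / R ^ 2 * Z) ^ γ) =
      4 ^ γ * (T ^ ((1 - γ) / 2) * Y ^ (1 - 2 * γ) * Z ^ γ) * q ^ (-((1 - γ) / 2)) := by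
  have e0 : 1 - (1 + γ) / 2 = (1 - γ) / 2 := by ring
  rw [e0, Real.mul_rpow hT hR.le, Real.div_rpow hR.le hq.le, Real.div_rpow hY.le hR.le,
    Real.mul_rpow (by positivity) hZ, Real.div_rpow (by positivity) (by positivity),
    Real.mul_rpow (by norm_num) hq.le, ← Real.rpow_natCast R 2, ← Real.rpow_mul hR.le]
  have e1 : R ^ ((1 - γ) / 2) * R ^ ((1 + γ) / 2) = R := by
    rw [← Real.rpow_add hR]
    have : (1 - γ) / 2 + (1 + γ) / 2 = 1 := by ring
    rw [this, Real.rpow_one]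
  have e2 : R ^ (1 - 2 * γ) * R ^ (((2 : ℕ) : ℝ) * γ) = R := by
    rw [← Real.rpow_add hR]
    have : 1 - 2 * γ + ((2 : ℕ) : ℝ) * γ = 1 := by push_cast; ring
    rw [this, Real.rpow_one]
  have e3 : q ^ γ / q ^ ((1 + γ) / 2) = q ^ (-((1 - γ) / 2)) := by
    rw [← Real.rpow_sub hq]
    congr 1
    ring
  have hA : 0 < R ^ (1 - 2 * γ) := Real.rpow_pos_of_pos hR _
  have hB : 0 < R ^ (((2 : ℕ) : ℝ) * γ) := Real.rpow_pos_of_pos hR _
  have hCq : 0 < q ^ ((1 + γ) / 2) := Real.rpow_pos_of_pos hq _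
  rw [← e3]
  calc T ^ ((1 - γ) / 2) * R ^ ((1 - γ) / 2) * (R ^ ((1 + γ) / 2) / q ^ ((1 + γ) / 2)) *
        (Y ^ (1 - 2 * γ) / R ^ (1 - 2 * γ) * (4 ^ γ * q ^ γ / R ^ (((2 : ℕ) : ℝ) * γ) * Z ^ γ))
      = (R ^ ((1 - γ) / 2) * R ^ ((1 + γ) / 2)) / (R ^ (1 - 2 * γ) * R ^ (((2 : ℕ) : ℝ) * γ)) *
        (4 ^ γ * (T ^ ((1 - γ) / 2) * Y ^ (1 - 2 * γ) * Z ^ γ) * (q ^ γ / q ^ ((1 + γ) / 2))) := by
        field_simp
    _ = _ := by rw [e1, e2, div_self hR.ne', one_mul]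

open Classical in
theorem dns : Dns := by
  intro γ C1 hγ hγ'
  obtain ⟨CT, hCT, htree⟩ := dn_tree γ C1 hγ hγ'
  set ρ : ℝ := (2 : ℝ) ^ (-((1 - γ) / 2)) with hρ
  have hρ0 : 0 < ρ := Real.rpow_pos_of_pos (by norm_num) _
  have hρ1 : ρ < 1 := Real.rpow_lt_one_of_one_lt_of_neg (by norm_num) (by linarith)
  have h1ρ : 0 < 1 - ρ := by linarith
  refine ⟨6 * CT * 4 ^ γ * ((1 - ρ)⁻¹ * (1 - ρ)⁻¹), by positivity, ?_⟩
  intro Y T i j N M A A' G hY hT0 hT1 hN hM hG hden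
  have hN' : ∀ n ∈ N, 0 < n ∧ 2 ^ i ≤ A n ∧ A n < 2 ^ (i + 1) ∧ A n ∣ n := fun n hn =>
    ⟨(hN n hn).1, (hN n hn).2.2.1, (hN n hn).2.2.2.1, (hN n hn).2.2.2.2⟩
  have hM' : ∀ n ∈ M, 0 < n ∧ 2 ^ j ≤ A' n ∧ A' n < 2 ^ (j + 1) ∧ A' n ∣ n := fun n hn =>
    ⟨(hM n hn).1, (hM n hn).2.2.1, (hM n hn).2.2.2.1, (hM n hn).2.2.2.2⟩
  set R : ℝ := 2 ^ (i + j) with hR
  have hR0 : 0 < R := by positivity
  set Y' : ℝ := Y / R with hY'
  have hY'0 : 0 < Y' := div_pos hY hR0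
  set Z : ℝ := ms N * ms M with hZ
  have hZ0 : 0 ≤ Z := mul_nonneg (dn_ms_nonneg _) (dn_ms_nonneg _)
  set Bd : ℝ := T ^ ((1 - γ) / 2) * Y ^ (1 - 2 * γ) * Z ^ γ with hBd
  have hBd0 : 0 ≤ Bd := by
    have h1 : 0 ≤ T ^ ((1 - γ) / 2) := Real.rpow_nonneg hT0 _
    have h2 : 0 ≤ Y ^ (1 - 2 * γ) := Real.rpow_nonneg hY.le _
    have h3 : 0 ≤ Z ^ γ := Real.rpow_nonneg hZ0 _
    positivity
  -- the projections
  set pr : ℕ × ℕ → ℕ × ℕ := fun z => (z.1 / A z.1, z.2 / A' z.2) with hpr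
  have hprN : ∀ z ∈ G, (pr z).1 ∈ N.image (fun n => n / A n) := fun z hz =>
    Finset.mem_image_of_mem _ (hG z hz).1
  have hprM : ∀ z ∈ G, (pr z).2 ∈ M.image (fun n => n / A' n) := fun z hz =>
    Finset.mem_image_of_mem _ (hG z hz).2.1
  have hstr : ∀ z ∈ G, cg (pr z) = cg z ∧ Y' / 4 < (((pr z).1.lcm (pr z).2 : ℕ) : ℝ) ∧
      (((pr z).1.lcm (pr z).2 : ℕ) : ℝ) < 2 * Y' := by
    intro z hz
    obtain ⟨h1, h2, h3, h4, h5, h6⟩ := hG z hz
    have hn := hN' _ h1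
    have hm := hM' _ h2
    have hA : 0 < A z.1 := lt_of_lt_of_le (by positivity) hn.2.1
    have hA' : 0 < A' z.2 := lt_of_lt_of_le (by positivity) hm.2.1
    obtain ⟨s1, s2, -, -⟩ := dn_struct z.1 z.2 (A z.1) (A' z.2) hn.1 hm.1 hA hA' h5 h6
    refine ⟨s1, ?_, ?_⟩
    · have e1 : (((pr z).1.lcm (pr z).2 : ℕ) : ℝ) * ((A z.1 : ℝ) * A' z.2)
          = ((z.1.lcm z.2 : ℕ) : ℝ) := by exact_mod_cast s2
      have e2 : ((A z.1 : ℝ) * A' z.2) < 4 * R := by
        have a1 : (A z.1 : ℝ) < 2 ^ (i + 1) := by exact_mod_cast hn.2.2.1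
        have a2 : (A' z.2 : ℝ) < 2 ^ (j + 1) := by exact_mod_cast hm.2.2.1
        have a3 : (0 : ℝ) < A' z.2 := by exact_mod_cast hA'
        calc ((A z.1 : ℝ) * A' z.2) < 2 ^ (i + 1) * A' z.2 := mul_lt_mul_of_pos_right a1 a3
          _ ≤ 2 ^ (i + 1) * 2 ^ (j + 1) := mul_le_mul_of_nonneg_left a2.le (by positivity)
          _ = 4 * R := by rw [hR, pow_succ, pow_succ, pow_add]; ring
      have hl : (0 : ℝ) < (((pr z).1.lcm (pr z).2 : ℕ) : ℝ) := by
        by_contra hcon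
        have : (((pr z).1.lcm (pr z).2 : ℕ) : ℝ) = 0 :=
          le_antisymm (not_lt.mp hcon) (Nat.cast_nonneg _)
        rw [this, zero_mul] at e1
        rw [← e1] at h3
        linarith
      rw [hY', div_div, div_lt_iff₀ (by positivity)]
      calc Y ≤ _ := h3
        _ = _ := e1.symm
        _ < (((pr z).1.lcm (pr z).2 : ℕ) : ℝ) * (4 * R) := mul_lt_mul_of_pos_left e2 hl
        _ = _ := by ring
    · have e1 : (((pr z).1.lcm (pr z).2 : ℕ) : ℝ) * ((A z.1 : ℝ) * A' z.2)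
          = ((z.1.lcm z.2 : ℕ) : ℝ) := by exact_mod_cast s2
      have e2 : R ≤ ((A z.1 : ℝ) * A' z.2) := by
        have a1 : (2 : ℝ) ^ i ≤ A z.1 := by exact_mod_cast hn.2.1
        have a2 : (2 : ℝ) ^ j ≤ A' z.2 := by exact_mod_cast hm.2.1
        rw [hR, pow_add]
        exact mul_le_mul a1 a2 (by positivity) (Nat.cast_nonneg _)
      rw [hY', ← mul_div_assoc, lt_div_iff₀ hR0]
      calc (((pr z).1.lcm (pr z).2 : ℕ) : ℝ) * R
          ≤ (((pr z).1.lcm (pr z).2 : ℕ) : ℝ) * ((A z.1 : ℝ) * A' z.2) :=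
            mul_le_mul_of_nonneg_left e2 (Nat.cast_nonneg _)
        _ = _ := e1
        _ < 2 * Y := h4
  -- one pair of layers
  have hlayer : ∀ k l : ℕ, ∑ z ∈ G.filter (fun z => (dn_k N A i (pr z).1, dn_k M A' j (pr z).2)
      = (k, l)), (cg z : ℝ) ≤ 6 * CT * 4 ^ γ * Bd * (ρ ^ k * ρ ^ l) := by
    intro k l
    set Gkl := G.filter (fun z => (dn_k N A i (pr z).1, dn_k M A' j (pr z).2) = (k, l)) with hGkl
    set Vk := dn_V N A i k with hVk
    set Wl := dn_V M A' j l with hWl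
    set P := (Vk ×ˢ Wl).filter (fun p => Y' / 4 < ((p.1.lcm p.2 : ℕ) : ℝ) ∧
      ((p.1.lcm p.2 : ℕ) : ℝ) < 2 * Y') with hP
    have hmaps : ∀ z ∈ Gkl, pr z ∈ P := by
      intro z hz
      obtain ⟨hz1, hz2⟩ := Finset.mem_filter.mp hz
      rw [Prod.mk.injEq] at hz2
      rw [hP, Finset.mem_filter, Finset.mem_product]
      refine ⟨⟨?_, ?_⟩, (hstr z hz1).2⟩
      · rw [hVk]
        unfold dn_V
        exact Finset.mem_filter.mpr ⟨hprN z hz1, hz2.1⟩
      · rw [hWl]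
        unfold dn_V
        exact Finset.mem_filter.mpr ⟨hprM z hz1, hz2.2⟩
    set q : ℝ := 2 ^ (k + l) with hq
    have hq0 : 0 < q := by positivity
    set Bc : ℝ := (T * R) ^ (1 - (1 + γ) / 2) * (R / q) ^ ((1 + γ) / 2) with hBc
    have hBc0 : 0 ≤ Bc := by
      rw [hBc]
      exact mul_nonneg (Real.rpow_nonneg (mul_nonneg hT0 hR0.le) _)
        (Real.rpow_nonneg (by positivity) _)
    have hcard : ∀ p ∈ P, ((Gkl.filter (fun z => pr z = p)).card : ℝ) ≤ Bc := by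
      intro p hp
      rw [hP, Finset.mem_filter, Finset.mem_product] at hp
      obtain ⟨⟨hp1, hp2⟩, -⟩ := hp
      rw [hVk] at hp1
      rw [hWl] at hp2
      obtain ⟨hp1a, hp1b⟩ := Finset.mem_filter.mp hp1
      obtain ⟨hp2a, hp2b⟩ := Finset.mem_filter.mp hp2
      refine dn_gm _ _ _ _ (Nat.cast_nonneg _) ?_ ?_ (by linarith) (by linarith)
      · refine le_trans ?_ (hden p.1 p.2)
        have : (Gkl.filter (fun z => pr z = p)).card ≤
            (G.filter (fun z => z.1 / A z.1 = p.1 ∧ z.2 / A' z.2 = p.2)).card := by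
          refine Finset.card_le_card ?_
          intro z hz
          obtain ⟨hz1, hz2⟩ := Finset.mem_filter.mp hz
          exact Finset.mem_filter.mpr ⟨(Finset.mem_filter.mp hz1).1,
            congrArg Prod.fst hz2, congrArg Prod.snd hz2⟩
        exact_mod_cast this
      · have hc : (Gkl.filter (fun z => pr z = p)).card ≤ dn_c N A p.1 * dn_c M A' p.2 := by
          unfold dn_c
          rw [← Finset.card_product]
          refine Finset.card_le_card ?_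
          intro z hz
          obtain ⟨hz1, hz2⟩ := Finset.mem_filter.mp hz
          have hzG := (Finset.mem_filter.mp hz1).1
          rw [Finset.mem_product, Finset.mem_filter, Finset.mem_filter]
          exact ⟨⟨(hG z hzG).1, congrArg Prod.fst hz2⟩, ⟨(hG z hzG).2.1, congrArg Prod.snd hz2⟩⟩
        have h1 := (dn_k_spec hN' p.1 hp1a).2.1
        have h2 := (dn_k_spec hM' p.2 hp2a).2.1
        rw [hp1b] at h1
        rw [hp2b] at h2
        rw [le_div_iff₀ hq0, hq, hR]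
        have h3 : (Gkl.filter (fun z => pr z = p)).card * 2 ^ (k + l) ≤ 2 ^ (i + j) := by
          calc (Gkl.filter (fun z => pr z = p)).card * 2 ^ (k + l)
              ≤ dn_c N A p.1 * dn_c M A' p.2 * 2 ^ (k + l) := Nat.mul_le_mul_right _ hc
            _ = (2 ^ k * dn_c N A p.1) * (2 ^ l * dn_c M A' p.2) := by rw [pow_add]; ring
            _ ≤ 2 ^ i * 2 ^ j := Nat.mul_le_mul h1 h2
            _ = _ := (pow_add 2 i j).symm
        exact_mod_cast h3
    have hsum1 : ∑ z ∈ Gkl, (cg z : ℝ) ≤ Bc * ∑ p ∈ P, (cg p : ℝ) := by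
      rw [← Finset.sum_fiberwise_of_maps_to hmaps, Finset.mul_sum]
      refine Finset.sum_le_sum fun p hp => ?_
      have h1 : ∑ z ∈ Gkl.filter (fun z => pr z = p), (cg z : ℝ)
          = ((Gkl.filter (fun z => pr z = p)).card : ℝ) * cg p := by
        rw [← nsmul_eq_mul, ← Finset.sum_const]
        refine Finset.sum_congr rfl fun z hz => ?_
        obtain ⟨hz1, hz2⟩ := Finset.mem_filter.mp hz
        rw [← hz2, (hstr z (Finset.mem_filter.mp hz1).1).1]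
      rw [h1]
      exact mul_le_mul_of_nonneg_right (hcard p hp) (Nat.cast_nonneg _)
    have hVrp := dn_V_rp hN' (fun n hn => (hN n hn).2.1) k
    have hWrp := dn_V_rp hM' (fun n hn => (hM n hn).2.1) l
    set E : ℝ := (Y' / 2) ^ (1 - 2 * γ) * (ms Vk * ms Wl) ^ γ with hE
    have hmk : 0 ≤ (ms Vk * ms Wl) ^ γ :=
      Real.rpow_nonneg (mul_nonneg (dn_ms_nonneg _) (dn_ms_nonneg _)) _
    have hE1 : ∀ L : ℝ, Y' / 2 ≤ L → ∑ p ∈ prs Vk Wl L, (cg p : ℝ) ≤ CT * E := by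
      intro L hL
      refine (htree Vk Wl L (by linarith [half_pos hY'0]) hVrp hWrp).trans ?_
      rw [hE, mul_assoc]
      refine mul_le_mul_of_nonneg_left ?_ hCT.le
      refine mul_le_mul_of_nonneg_right ?_ hmk
      exact Real.rpow_le_rpow_of_nonpos (half_pos hY'0) hL (by linarith)
    have hsum2 : ∑ p ∈ P, (cg p : ℝ) ≤ 3 * (CT * E) := by
      have hPsub : P ⊆ prs Vk Wl (2 * Y') ∪ (prs Vk Wl Y' ∪ prs Vk Wl (Y' / 2)) := by
        intro p hp
        rw [hP, Finset.mem_filter] at hp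
        obtain ⟨hp1, hp2, hp3⟩ := hp
        simp only [Finset.mem_union, prs, Finset.mem_filter]
        rcases lt_or_ge Y' ((p.1.lcm p.2 : ℕ) : ℝ) with h | h
        · exact Or.inl ⟨hp1, by linarith, hp3.le⟩
        · rcases lt_or_ge (Y' / 2) ((p.1.lcm p.2 : ℕ) : ℝ) with h' | h'
          · exact Or.inr (Or.inl ⟨hp1, h', h⟩)
          · exact Or.inr (Or.inr ⟨hp1, by linarith, h'⟩)
      have hun : ∀ P Q : Finset (ℕ × ℕ), ∑ z ∈ P ∪ Q, (cg z : ℝ) ≤
          ∑ z ∈ P, (cg z : ℝ) + ∑ z ∈ Q, (cg z : ℝ) := by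
        intro P Q
        rw [← Finset.sum_union_inter]
        exact le_add_of_nonneg_right (Finset.sum_nonneg fun z _ => Nat.cast_nonneg _)
      calc ∑ p ∈ P, (cg p : ℝ)
          ≤ ∑ p ∈ prs Vk Wl (2 * Y') ∪ (prs Vk Wl Y' ∪ prs Vk Wl (Y' / 2)), (cg p : ℝ) :=
            Finset.sum_le_sum_of_subset_of_nonneg hPsub fun _ _ _ => Nat.cast_nonneg _
        _ ≤ ∑ p ∈ prs Vk Wl (2 * Y'), (cg p : ℝ) + (∑ p ∈ prs Vk Wl Y', (cg p : ℝ)
              + ∑ p ∈ prs Vk Wl (Y' / 2), (cg p : ℝ)) :=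
            (hun _ _).trans (by gcongr; exact hun _ _)
        _ ≤ CT * E + (CT * E + CT * E) :=
            add_le_add (hE1 _ (by linarith)) (add_le_add (hE1 _ (by linarith)) (hE1 _ le_rfl))
        _ = _ := by ring
    have hE2 : E ≤ 2 * (Y' ^ (1 - 2 * γ) * (4 * q / R ^ 2 * Z) ^ γ) := by
      have h1 : (Y' / 2) ^ (1 - 2 * γ) ≤ 2 * Y' ^ (1 - 2 * γ) := by
        rw [Real.div_rpow hY'0.le (by norm_num), div_eq_mul_inv, ← Real.rpow_neg (by norm_num),
          mul_comm]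
        refine mul_le_mul_of_nonneg_right ?_ (Real.rpow_nonneg hY'0.le _)
        calc (2 : ℝ) ^ (-(1 - 2 * γ)) ≤ 2 ^ (1 : ℝ) :=
              Real.rpow_le_rpow_of_exponent_le (by norm_num) (by linarith)
          _ = 2 := Real.rpow_one _
      have h2 : ms Vk * ms Wl ≤ 4 * q / R ^ 2 * Z := by
        calc ms Vk * ms Wl ≤ (2 * 2 ^ k / (2 ^ i) ^ 2 * ms N) * (2 * 2 ^ l / (2 ^ j) ^ 2 * ms M) :=
              mul_le_mul (dn_ms hN' k) (dn_ms hM' l) (dn_ms_nonneg _)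
                (mul_nonneg (by positivity) (dn_ms_nonneg _))
          _ = _ := by
              rw [hq, hR, hZ, pow_add, pow_add]
              field_simp
              ring
      rw [hE]
      calc (Y' / 2) ^ (1 - 2 * γ) * (ms Vk * ms Wl) ^ γ
          ≤ (2 * Y' ^ (1 - 2 * γ)) * (4 * q / R ^ 2 * Z) ^ γ := by
            refine mul_le_mul h1 ?_ hmk ?_
            · exact Real.rpow_le_rpow (mul_nonneg (dn_ms_nonneg _) (dn_ms_nonneg _)) h2
                (by linarith)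
            · exact mul_nonneg (by norm_num) (Real.rpow_nonneg hY'0.le _)
        _ = _ := by ring
    have hqρ : q ^ (-((1 - γ) / 2)) = ρ ^ k * ρ ^ l := by
      rw [hq, hρ, ← pow_add, ← Real.rpow_natCast (2 : ℝ) (k + l), ← Real.rpow_mul (by norm_num),
        ← Real.rpow_natCast (_ ^ _) (k + l), ← Real.rpow_mul (by norm_num)]
      congr 1
      ring
    calc ∑ z ∈ Gkl, (cg z : ℝ) ≤ Bc * ∑ p ∈ P, (cg p : ℝ) := hsum1
      _ ≤ Bc * (3 * (CT * E)) := mul_le_mul_of_nonneg_left hsum2 hBc0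
      _ ≤ Bc * (3 * (CT * (2 * (Y' ^ (1 - 2 * γ) * (4 * q / R ^ 2 * Z) ^ γ)))) := by
          refine mul_le_mul_of_nonneg_left ?_ hBc0
          refine mul_le_mul_of_nonneg_left ?_ (by norm_num)
          exact mul_le_mul_of_nonneg_left hE2 hCT.le
      _ = 6 * CT * (Bc * (Y' ^ (1 - 2 * γ) * (4 * q / R ^ 2 * Z) ^ γ)) := by ring
      _ = 6 * CT * (4 ^ γ * Bd * q ^ (-((1 - γ) / 2))) := by
          rw [hBc, hY', dn_pow γ T Y R q Z hT0 hY hR0 hq0 hZ0]
      _ = _ := by rw [hqρ]; ring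
  -- sum over the layers
  have hmaps2 : ∀ z ∈ G, (dn_k N A i (pr z).1, dn_k M A' j (pr z).2) ∈
      Finset.range (i + 1) ×ˢ Finset.range (j + 1) := by
    intro z hz
    rw [Finset.mem_product, Finset.mem_range, Finset.mem_range]
    exact ⟨Nat.lt_succ_of_le (dn_k_spec hN' _ (hprN z hz)).1,
      Nat.lt_succ_of_le (dn_k_spec hM' _ (hprM z hz)).1⟩
  have hgeo : ∀ n : ℕ, ∑ k ∈ Finset.range n, ρ ^ k ≤ (1 - ρ)⁻¹ := by
    intro n
    have hs : Summable (fun k : ℕ => ρ ^ k) := summable_geometric_of_lt_one hρ0.le hρ1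
    rw [← tsum_geometric_of_lt_one hρ0.le hρ1]
    exact hs.sum_le_tsum _ (fun k _ => pow_nonneg hρ0.le k)
  calc ∑ z ∈ G, (cg z : ℝ)
      = ∑ p ∈ Finset.range (i + 1) ×ˢ Finset.range (j + 1),
          ∑ z ∈ G.filter (fun z => (dn_k N A i (pr z).1, dn_k M A' j (pr z).2) = p),
            (cg z : ℝ) := (Finset.sum_fiberwise_of_maps_to hmaps2 _).symm
    _ ≤ ∑ p ∈ Finset.range (i + 1) ×ˢ Finset.range (j + 1),
          6 * CT * 4 ^ γ * Bd * (ρ ^ p.1 * ρ ^ p.2) :=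
        Finset.sum_le_sum fun p _ => hlayer p.1 p.2
    _ = 6 * CT * 4 ^ γ * Bd * ((∑ k ∈ Finset.range (i + 1), ρ ^ k) *
          ∑ l ∈ Finset.range (j + 1), ρ ^ l) := by
        rw [← Finset.mul_sum, Finset.sum_product, Finset.sum_mul_sum]
    _ ≤ 6 * CT * 4 ^ γ * Bd * ((1 - ρ)⁻¹ * (1 - ρ)⁻¹) := by
        refine mul_le_mul_of_nonneg_left ?_ (by positivity)
        exact mul_le_mul (hgeo _) (hgeo _) (Finset.sum_nonneg fun _ _ => pow_nonneg hρ0.le _)
          (by positivity)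
    _ = _ := by rw [hBd]; ring

end Pool.Agent.MP_0863b8.C2

end

section

/-!
MP_0863b8_nt, CASE II: `Dns2` from `Dns` (sum over the dyadic classes).
-/

set_option autoImplicit false

namespace Pool.Agent.MP_0863b8.C2

open Pool.Agent.MP_0863b8 F G

namespace Dns2Aux

/-- number of the scales near a given one -/
lemma card_band (J : Finset ℕ) (s i : ℕ) :
    ((J.filter (fun j => i ≤ j + s ∧ j ≤ i + s)).card : ℝ) ≤ 2 * s + 1 := by
  have h1 : J.filter (fun j => i ≤ j + s ∧ j ≤ i + s) ⊆ Finset.Icc (i - s) (i + s) := by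
    intro j hj
    rw [Finset.mem_filter] at hj
    rw [Finset.mem_Icc]
    omega
  have h2 := Finset.card_le_card h1
  rw [Nat.card_Icc] at h2
  have h3 : (J.filter (fun j => i ≤ j + s ∧ j ≤ i + s)).card ≤ 2 * s + 1 := by omega
  exact_mod_cast h3

/-- one half of the band sum -/
lemma band_half (I J : Finset ℕ) (s : ℕ) (x : ℕ → ℝ) (hx : ∀ i, 0 ≤ x i)
    (hx1 : ∑ i ∈ I, x i ≤ 1) :
    ∑ ij ∈ (I ×ˢ J).filter (fun ij => ij.1 ≤ ij.2 + s ∧ ij.2 ≤ ij.1 + s), x ij.1 ≤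
      2 * s + 1 := by
  rw [Finset.sum_filter, Finset.sum_product]
  calc ∑ i ∈ I, ∑ j ∈ J, (if i ≤ j + s ∧ j ≤ i + s then x i else 0)
      = ∑ i ∈ I, ((J.filter (fun j => i ≤ j + s ∧ j ≤ i + s)).card : ℝ) * x i := by
        refine Finset.sum_congr rfl fun i _ => ?_
        rw [← Finset.sum_filter, Finset.sum_const, nsmul_eq_mul]
    _ ≤ ∑ i ∈ I, (2 * (s:ℝ) + 1) * x i :=
        Finset.sum_le_sum fun i _ => mul_le_mul_of_nonneg_right (card_band J s i) (hx i)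
    _ = (2 * (s:ℝ) + 1) * ∑ i ∈ I, x i := by rw [Finset.mul_sum]
    _ ≤ (2 * (s:ℝ) + 1) * 1 := by
        refine mul_le_mul_of_nonneg_left hx1 (by positivity)
    _ = _ := by ring

/-- the other half -/
lemma band_half' (I J : Finset ℕ) (s : ℕ) (y : ℕ → ℝ) (hy : ∀ i, 0 ≤ y i)
    (hy1 : ∑ j ∈ J, y j ≤ 1) :
    ∑ ij ∈ (I ×ˢ J).filter (fun ij => ij.1 ≤ ij.2 + s ∧ ij.2 ≤ ij.1 + s), y ij.2 ≤
      2 * s + 1 := by
  rw [Finset.sum_filter, Finset.sum_product_right]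
  calc ∑ j ∈ J, ∑ i ∈ I, (if i ≤ j + s ∧ j ≤ i + s then y j else 0)
      = ∑ j ∈ J, ((I.filter (fun i => j ≤ i + s ∧ i ≤ j + s)).card : ℝ) * y j := by
        refine Finset.sum_congr rfl fun j _ => ?_
        rw [← Finset.sum_filter, Finset.sum_const, nsmul_eq_mul]
        congr 3
        ext i
        simp only [Finset.mem_filter]
        tauto
    _ ≤ ∑ j ∈ J, (2 * (s:ℝ) + 1) * y j :=
        Finset.sum_le_sum fun j _ => mul_le_mul_of_nonneg_right (card_band I s j) (hy j)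
    _ = (2 * (s:ℝ) + 1) * ∑ j ∈ J, y j := by rw [Finset.mul_sum]
    _ ≤ (2 * (s:ℝ) + 1) * 1 := by
        refine mul_le_mul_of_nonneg_left hy1 (by positivity)
    _ = _ := by ring

/-- `(xy)^γ ≤ (x+y)/2` -/
lemma rpow_amgm {γ x y : ℝ} (hγ : 1/2 < γ) (hx0 : 0 ≤ x) (hx1 : x ≤ 1) (hy0 : 0 ≤ y)
    (hy1 : y ≤ 1) : (x * y) ^ γ ≤ (x + y) / 2 := by
  have h0 : 0 ≤ x * y := mul_nonneg hx0 hy0
  have h1 : x * y ≤ 1 := mul_le_one₀ hx1 hy0 hy1
  rcases eq_or_lt_of_le h0 with h | h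
  · rw [← h, Real.zero_rpow (by linarith)]; linarith
  calc (x * y) ^ γ ≤ (x * y) ^ ((1:ℝ)/2) :=
        Real.rpow_le_rpow_of_exponent_ge h h1 hγ.le
    _ = Real.sqrt (x * y) := by rw [Real.sqrt_eq_rpow]
    _ ≤ (x + y) / 2 := by
        rw [show (x + y) / 2 = Real.sqrt (((x + y) / 2) ^ 2) from
          (Real.sqrt_sq (by linarith)).symm]
        apply Real.sqrt_le_sqrt
        nlinarith [sq_nonneg (x - y)]

lemma ms_fiber (N : Finset ℕ) (l : ℕ → ℕ) :
    ∑ i ∈ N.image l, ms (N.filter (fun n => l n = i)) = ms N := by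
  unfold ms
  exact Finset.sum_fiberwise_of_maps_to (fun n hn => Finset.mem_image_of_mem l hn) _

lemma ms_nn (N : Finset ℕ) : 0 ≤ ms N := Finset.sum_nonneg fun _ _ => Nat.cast_nonneg _

lemma ms_filter_le (N : Finset ℕ) (p : ℕ → Prop) [DecidablePred p] :
    ms (N.filter p) ≤ ms N :=
  Finset.sum_le_sum_of_subset_of_nonneg (Finset.filter_subset _ _)
    fun _ _ _ => Nat.cast_nonneg _

/-- the cofactors of an edge are determined by `ν`, `μ` -/
lemma cof {n m A B : ℕ} (hn : 0 < n) (hm : 0 < m)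
    (hAu : A ∣ n / n.gcd m) (hBv : B ∣ m / n.gcd m) (hA : 0 < A) (hB : 0 < B) :
    n / n.gcd m = n / A / (n / A).gcd (m / B) * A ∧
    m / n.gcd m = m / B / (n / A).gcd (m / B) * B := by
  obtain ⟨a, ha⟩ := hAu
  obtain ⟨b, hb⟩ := hBv
  set g := n.gcd m with hg
  have hg0 : 0 < g := Nat.gcd_pos_of_pos_left _ hn
  have hn' : n = g * (A * a) := by
    rw [← ha]; exact (Nat.mul_div_cancel' (Nat.gcd_dvd_left n m)).symm
  have hm' : m = g * (B * b) := by
    rw [← hb]; exact (Nat.mul_div_cancel' (Nat.gcd_dvd_right n m)).symm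
  have hcop : Nat.Coprime (n / g) (m / g) := Nat.coprime_div_gcd_div_gcd hg0
  rw [ha, hb] at hcop
  have hab : Nat.Coprime a b := Nat.Coprime.coprime_mul_left (Nat.Coprime.coprime_mul_left_right hcop)
  have h1 : n / A = g * a := by
    rw [hn', show g * (A * a) = A * (g * a) by ring]
    exact Nat.mul_div_cancel_left _ hA
  have h2 : m / B = g * b := by
    rw [hm', show g * (B * b) = B * (g * b) by ring]
    exact Nat.mul_div_cancel_left _ hB
  have h3 : (n / A).gcd (m / B) = g := by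
    rw [h1, h2, Nat.gcd_mul_left, hab.gcd_eq_one, mul_one]
  rw [h3, h1, h2, Nat.mul_div_cancel_left _ hg0, Nat.mul_div_cancel_left _ hg0, ha, hb]
  exact ⟨mul_comm _ _, mul_comm _ _⟩

end Dns2Aux

open Dns2Aux in
theorem dns2 (h : Dns) : Dns2 := by
  classical
  intro γ C1 hγ1 hγ2
  obtain ⟨C, hC, hD⟩ := h γ C1 hγ1 hγ2
  refine ⟨C, hC, ?_⟩
  intro θ κ Y T s N M A A' G hY hT0 hT1 hN hM hG
  rcases G.eq_empty_or_nonempty with hGe | ⟨z0, hz0⟩
  · subst hGe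
    rw [Finset.sum_empty]
    have := ms_nn N; have := ms_nn M
    positivity
  have hms : 0 < ms N ∧ 0 < ms M := by
    obtain ⟨h1, h2, -⟩ := hG z0 hz0
    constructor
    · exact lt_of_lt_of_le (by exact_mod_cast (hN _ h1).1)
        (Finset.single_le_sum (f := fun v : ℕ => (v:ℝ)) (fun _ _ => Nat.cast_nonneg _) h1)
    · exact lt_of_lt_of_le (by exact_mod_cast (hM _ h2).1)
        (Finset.single_le_sum (f := fun v : ℕ => (v:ℝ)) (fun _ _ => Nat.cast_nonneg _) h2)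
  set lN : ℕ → ℕ := fun n => Nat.log 2 (A n) with hlN
  set lM : ℕ → ℕ := fun m => Nat.log 2 (A' m) with hlM
  set I : Finset ℕ := N.image lN with hI
  set J : Finset ℕ := M.image lM with hJ
  set t : Finset (ℕ × ℕ) :=
    (I ×ˢ J).filter (fun ij => ij.1 ≤ ij.2 + s ∧ ij.2 ≤ ij.1 + s) with ht
  have hmaps : ∀ z ∈ G, (lN z.1, lM z.2) ∈ t := by
    intro z hz
    obtain ⟨h1, h2, -, -, -, -, -, h3, h4, -⟩ := hG z hz
    rw [ht, Finset.mem_filter, Finset.mem_product]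
    exact ⟨⟨Finset.mem_image_of_mem _ h1, Finset.mem_image_of_mem _ h2⟩, h3, h4⟩
  set Ni : ℕ → Finset ℕ := fun i => N.filter (fun n => lN n = i) with hNi
  set Mj : ℕ → Finset ℕ := fun j => M.filter (fun m => lM m = j) with hMj
  -- one class
  have hclass : ∀ ij ∈ t, ∑ z ∈ G.filter (fun z => (lN z.1, lM z.2) = ij), (cg z : ℝ) ≤
      C * T ^ ((1 - γ) / 2) * Y ^ (1 - 2 * γ) * (ms (Ni ij.1) * ms (Mj ij.2)) ^ γ := by
    intro ij _
    obtain ⟨i, j⟩ := ij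
    refine hD Y T i j (Ni i) (Mj j) A A' _ hY hT0 hT1 ?_ ?_ ?_ ?_
    · intro n hn
      rw [hNi, Finset.mem_filter] at hn
      obtain ⟨h1, h2, h3, h4⟩ := hN n hn.1
      refine ⟨h1, h2, ?_, ?_, h4⟩
      · rw [← hn.2]; exact Nat.pow_log_le_self 2 h3.ne'
      · rw [← hn.2]; exact Nat.lt_pow_succ_log_self (by norm_num) _
    · intro m hm
      rw [hMj, Finset.mem_filter] at hm
      obtain ⟨h1, h2, h3, h4⟩ := hM m hm.1
      refine ⟨h1, h2, ?_, ?_, h4⟩
      · rw [← hm.2]; exact Nat.pow_log_le_self 2 h3.ne'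
      · rw [← hm.2]; exact Nat.lt_pow_succ_log_self (by norm_num) _
    · intro z hz
      rw [Finset.mem_filter] at hz
      obtain ⟨hz, hz2⟩ := hz
      obtain ⟨h1, h2, h3, h4, h5, h6, -⟩ := hG z hz
      have e1 : lN z.1 = i := congrArg Prod.fst hz2
      have e2 : lM z.2 = j := congrArg Prod.snd hz2
      exact ⟨Finset.mem_filter.mpr ⟨h1, e1⟩, Finset.mem_filter.mpr ⟨h2, e2⟩, h3, h4, h5, h6⟩
    · intro ν μ
      set E := (G.filter (fun z => (lN z.1, lM z.2) = (i, j))).filter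
        (fun z => z.1 / A z.1 = ν ∧ z.2 / A' z.2 = μ) with hE
      rcases E.eq_empty_or_nonempty with hEe | ⟨y0, hy0⟩
      · rw [hEe, Finset.card_empty]; push_cast; positivity
      have hEm : ∀ z ∈ E, z ∈ G ∧ lN z.1 = i ∧ lM z.2 = j ∧ z.1 / A z.1 = ν ∧
          z.2 / A' z.2 = μ := by
        intro z hz
        rw [hE, Finset.mem_filter, Finset.mem_filter] at hz
        exact ⟨hz.1.1, congrArg Prod.fst hz.1.2, congrArg Prod.snd hz.1.2, hz.2.1, hz.2.2⟩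
      -- cofactors
      have hco : ∀ z ∈ E, cu z = ν / ν.gcd μ * A z.1 ∧ cv z = μ / ν.gcd μ * A' z.2 := by
        intro z hz
        obtain ⟨hzG, -, -, e3, e4⟩ := hEm z hz
        obtain ⟨h1, h2, -, -, h5, h6, -⟩ := hG z hzG
        have := cof (hN _ h1).1 (hM _ h2).1 h5 h6 (hN _ h1).2.2.1 (hM _ h2).2.2.1
        rw [e3, e4] at this
        exact this
      obtain ⟨hy0G, f1, f2, -, -⟩ := hEm y0 hy0
      obtain ⟨g1, g2, -, -, -, -, -, -, -, hbox⟩ := hG y0 hy0G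
      obtain ⟨c1, c2⟩ := hco y0 hy0
      have q1 : cu y0 / A y0.1 = ν / ν.gcd μ := by
        rw [c1]; exact Nat.mul_div_cancel _ (hN _ g1).2.2.1
      have q2 : cv y0 / A' y0.2 = μ / ν.gcd μ := by
        rw [c2]; exact Nat.mul_div_cancel _ (hM _ g2).2.2.1
      have f1' : Nat.log 2 (A y0.1) = i := f1
      have f2' : Nat.log 2 (A' y0.2) = j := f2
      rw [q1, q2, f1', f2'] at hbox
      refine le_trans ?_ hbox
      have hcard : E.card ≤ (box2 θ κ (ν / ν.gcd μ) (μ / ν.gcd μ) i j).card := by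
        refine Finset.card_le_card_of_injOn (fun z => (A z.1, A' z.2)) ?_ ?_
        · intro z hz
          have hz' : z ∈ E := hz
          obtain ⟨hzG, e1, e2, -, -⟩ := hEm z hz'
          obtain ⟨h1, h2, -, -, -, -, h7, -⟩ := hG z hzG
          obtain ⟨d1, d2⟩ := hco z hz'
          have a0 := (hN _ h1).2.2.1
          have b0 := (hM _ h2).2.2.1
          show (A z.1, A' z.2) ∈ (box2 θ κ (ν / ν.gcd μ) (μ / ν.gcd μ) i j : Finset (ℕ × ℕ))
          unfold box2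
          rw [Finset.mem_filter, Finset.mem_product, Finset.mem_Ico, Finset.mem_Ico]
          refine ⟨⟨⟨?_, ?_⟩, ⟨?_, ?_⟩⟩, ?_⟩
          · show 2 ^ i ≤ A z.1
            rw [← e1]; exact Nat.pow_log_le_self 2 a0.ne'
          · show A z.1 < 2 ^ (i + 1)
            rw [← e1]; exact Nat.lt_pow_succ_log_self (by norm_num) _
          · show 2 ^ j ≤ A' z.2
            rw [← e2]; exact Nat.pow_log_le_self 2 b0.ne'
          · show A' z.2 < 2 ^ (j + 1)
            rw [← e2]; exact Nat.lt_pow_succ_log_self (by norm_num) _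
          · show nd ((((ν / ν.gcd μ : ℕ) : ℝ) * ((A z.1 : ℕ) : ℝ) -
              ((μ / ν.gcd μ : ℕ) : ℝ) * ((A' z.2 : ℕ) : ℝ)) * θ) ≤ 4 * κ
            rw [d1, d2] at h7
            push_cast at h7
            exact_mod_cast h7
        · intro z hz z' hz' hzz
          have hz1 : z ∈ E := hz
          have hz1' : z' ∈ E := hz'
          obtain ⟨hzG, -, -, e3, e4⟩ := hEm z hz1
          obtain ⟨hzG', -, -, e3', e4'⟩ := hEm z' hz1'
          obtain ⟨h1, h2, -⟩ := hG z hzG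
          obtain ⟨h1', h2', -⟩ := hG z' hzG'
          have k1 : A z.1 = A z'.1 := congrArg Prod.fst hzz
          have k2 : A' z.2 = A' z'.2 := congrArg Prod.snd hzz
          have m1 : z.1 = ν * A z.1 := by
            rw [← e3]; exact (Nat.div_mul_cancel (hN _ h1).2.2.2).symm
          have m1' : z'.1 = ν * A z'.1 := by
            rw [← e3']; exact (Nat.div_mul_cancel (hN _ h1').2.2.2).symm
          have m2 : z.2 = μ * A' z.2 := by
            rw [← e4]; exact (Nat.div_mul_cancel (hM _ h2).2.2.2).symm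
          have m2' : z'.2 = μ * A' z'.2 := by
            rw [← e4']; exact (Nat.div_mul_cancel (hM _ h2').2.2.2).symm
          refine Prod.ext ?_ ?_
          · rw [m1, m1', k1]
          · rw [m2, m2', k2]
      exact_mod_cast hcard
  -- the sum over the classes
  set x : ℕ → ℝ := fun i => ms (Ni i) / ms N with hx
  set y : ℕ → ℝ := fun j => ms (Mj j) / ms M with hy
  have hx0 : ∀ i, 0 ≤ x i := fun i => div_nonneg (ms_nn _) (ms_nn _)
  have hy0 : ∀ i, 0 ≤ y i := fun i => div_nonneg (ms_nn _) (ms_nn _)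
  have hx1 : ∀ i, x i ≤ 1 := fun i => (div_le_one hms.1).mpr (ms_filter_le _ _)
  have hy1 : ∀ i, y i ≤ 1 := fun i => (div_le_one hms.2).mpr (ms_filter_le _ _)
  have hxs : ∑ i ∈ I, x i ≤ 1 := by
    rw [hx, ← Finset.sum_div, ms_fiber N lN, div_self hms.1.ne']
  have hys : ∑ j ∈ J, y j ≤ 1 := by
    rw [hy, ← Finset.sum_div, ms_fiber M lM, div_self hms.2.ne']
  have hpair : ∀ ij : ℕ × ℕ, (ms (Ni ij.1) * ms (Mj ij.2)) ^ γ ≤
      (ms N * ms M) ^ γ * ((x ij.1 + y ij.2) / 2) := by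
    intro ij
    have e1 : ms (Ni ij.1) * ms (Mj ij.2) = (ms N * ms M) * (x ij.1 * y ij.2) := by
      have h1 := hms.1.ne'
      have h2 := hms.2.ne'
      simp only [hx, hy]
      field_simp
    rw [e1, Real.mul_rpow (mul_nonneg (ms_nn _) (ms_nn _)) (mul_nonneg (hx0 _) (hy0 _))]
    refine mul_le_mul_of_nonneg_left (rpow_amgm hγ1 (hx0 _) (hx1 _) (hy0 _) (hy1 _)) ?_
    exact Real.rpow_nonneg (mul_nonneg (ms_nn _) (ms_nn _)) _
  have hK0 : 0 ≤ C * T ^ ((1 - γ) / 2) * Y ^ (1 - 2 * γ) := by positivity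
  have hP0 : 0 ≤ (ms N * ms M) ^ γ := Real.rpow_nonneg (mul_nonneg (ms_nn _) (ms_nn _)) _
  calc ∑ z ∈ G, (cg z : ℝ)
      = ∑ ij ∈ t, ∑ z ∈ G.filter (fun z => (lN z.1, lM z.2) = ij), (cg z : ℝ) :=
        (Finset.sum_fiberwise_of_maps_to hmaps _).symm
    _ ≤ ∑ ij ∈ t, C * T ^ ((1 - γ) / 2) * Y ^ (1 - 2 * γ) *
          (ms (Ni ij.1) * ms (Mj ij.2)) ^ γ := Finset.sum_le_sum hclass
    _ ≤ ∑ ij ∈ t, C * T ^ ((1 - γ) / 2) * Y ^ (1 - 2 * γ) *
          ((ms N * ms M) ^ γ * ((x ij.1 + y ij.2) / 2)) :=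
        Finset.sum_le_sum fun ij _ => mul_le_mul_of_nonneg_left (hpair ij) hK0
    _ = C * T ^ ((1 - γ) / 2) * Y ^ (1 - 2 * γ) * (ms N * ms M) ^ γ *
          ((∑ ij ∈ t, x ij.1 + ∑ ij ∈ t, y ij.2) / 2) := by
        rw [← Finset.sum_add_distrib, Finset.sum_div, Finset.mul_sum]
        refine Finset.sum_congr rfl fun ij _ => ?_
        ring
    _ ≤ C * T ^ ((1 - γ) / 2) * Y ^ (1 - 2 * γ) * (ms N * ms M) ^ γ * (2 * s + 1) := by
        refine mul_le_mul_of_nonneg_left ?_ (mul_nonneg hK0 hP0)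
        have b1 := band_half I J s x hx0 hxs
        have b2 := band_half' I J s y hy0 hys
        linarith
    _ = _ := by ring

end Pool.Agent.MP_0863b8.C2

end

section

/-!
MP_0863b8_nt, CASE II: the size facts of a remaining edge, equality of the two labels.
-/

set_option autoImplicit false

namespace Pool.Agent.MP_0863b8.C2

open Pool.Agent.MP_0863b8 F G

theorem fact1 (κ c3 x A A' sv : ℝ) (hκ : 0 < κ) (hA : 0 ≤ A) (hA' : 0 ≤ A')
    (e1 : c3 * Real.log (1 / κ) + 1 ≤ x / 100) (h : κ ^ c3 * A ≤ sv * A')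
    (hsv : sv ≤ Real.exp (x / 100)) : Real.exp 1 * A ≤ Real.exp (x / 50) * A' := by
  have h1 : Real.exp (1 - x / 100) ≤ κ ^ c3 := by
    rw [Real.rpow_def_of_pos hκ, Real.exp_le_exp]
    rw [one_div, Real.log_inv] at e1
    linarith
  have h2 : Real.exp (1 - x / 100) * A ≤ Real.exp (x / 100) * A' :=
    (mul_le_mul_of_nonneg_right h1 hA).trans (h.trans (mul_le_mul_of_nonneg_right hsv hA'))
  have h3 := mul_le_mul_of_nonneg_left h2 (Real.exp_pos (x / 100)).le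
  rw [← mul_assoc, ← mul_assoc, ← Real.exp_add, ← Real.exp_add] at h3
  have e2 : x / 100 + (1 - x / 100) = 1 := by ring
  have e3 : x / 100 + x / 100 = x / 50 := by ring
  rwa [e2, e3] at h3

theorem fact2 (x A A' : ℝ) (h1 : Real.exp 1 * A' ≤ Real.exp (x / 50) * A)
    (hmax : Real.exp x ≤ A ∨ Real.exp x ≤ A') (hx : 50 ≤ x) :
    Real.exp 1 * Real.exp (0.98 * x) ≤ A := by
  rw [← Real.exp_add]
  rcases hmax with h | h
  · refine le_trans (Real.exp_le_exp.2 ?_) h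
    linarith
  · have h2 : Real.exp 1 * Real.exp x ≤ Real.exp (x / 50) * A :=
      (mul_le_mul_of_nonneg_left h (Real.exp_pos _).le).trans h1
    have h3 : Real.exp (1 + 0.98 * x) = Real.exp (-(x / 50)) * (Real.exp 1 * Real.exp x) := by
      rw [← Real.exp_add, ← Real.exp_add]; congr 1; ring
    rw [h3]
    calc Real.exp (-(x / 50)) * (Real.exp 1 * Real.exp x)
        ≤ Real.exp (-(x / 50)) * (Real.exp (x / 50) * A) := by gcongr
      _ = A := by rw [← mul_assoc, ← Real.exp_add]; simp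

/-- equality of two labels which are close -/
theorem lab_eq (q1 q2 : ℕ) (c1 c2 : ℤ) (θ e1 e2 : ℝ) (hq1 : 1 ≤ q1) (hq2 : 1 ≤ q2)
    (g1 : Int.gcd q1 c1 = 1) (g2 : Int.gcd q2 c2 = 1) (h1 : |θ - c1 / q1| ≤ e1)
    (h2 : |θ - c2 / q2| ≤ e2) (h : (e1 + e2) * (q1 * q2) < 1) : q1 = q2 ∧ c1 = c2 := by
  have hq1' : (0 : ℝ) < q1 := by exact_mod_cast hq1
  have hq2' : (0 : ℝ) < q2 := by exact_mod_cast hq2
  have h3 : |(c1 : ℝ) / q1 - c2 / q2| ≤ e1 + e2 := by
    have : (c1 : ℝ) / q1 - c2 / q2 = (θ - c2 / q2) - (θ - c1 / q1) := by ring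
    rw [this]
    calc |(θ - c2 / q2) - (θ - c1 / q1)| ≤ |θ - c2 / q2| + |θ - c1 / q1| := abs_sub _ _
      _ ≤ e1 + e2 := by linarith
  have h4 : |((c1 * q2 - c2 * q1 : ℤ) : ℝ)| < 1 := by
    have : ((c1 * q2 - c2 * q1 : ℤ) : ℝ) = ((c1 : ℝ) / q1 - c2 / q2) * (q1 * q2) := by
      push_cast
      field_simp
    rw [this, abs_mul, abs_of_pos (by positivity : (0:ℝ) < q1 * q2)]
    exact lt_of_le_of_lt (mul_le_mul_of_nonneg_right h3 (by positivity)) h
  have h5 : c1 * q2 = c2 * q1 := by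
    rw [← Int.cast_abs] at h4
    have h6 : |c1 * q2 - c2 * q1| < 1 := by exact_mod_cast h4
    have := Int.abs_lt_one_iff.1 h6
    omega
  have d1 : (q1 : ℤ) ∣ q2 := by
    have : (q1 : ℤ) ∣ c1 * q2 := ⟨c2, by rw [h5]; ring⟩
    exact (Int.isCoprime_iff_gcd_eq_one.2 g1).dvd_of_dvd_mul_left this
  have d2 : (q2 : ℤ) ∣ q1 := by
    have : (q2 : ℤ) ∣ c2 * q1 := ⟨c1, by rw [← h5]; ring⟩
    exact (Int.isCoprime_iff_gcd_eq_one.2 g2).dvd_of_dvd_mul_left this
  have h7 : q1 = q2 := Nat.dvd_antisymm (Int.natCast_dvd_natCast.1 d1)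
    (Int.natCast_dvd_natCast.1 d2)
  refine ⟨h7, ?_⟩
  subst h7
  exact mul_right_cancel₀ (by exact_mod_cast (by omega : q1 ≠ 0)) h5

/-- numeric part of the equality of the labels -/
theorem lab_num (x Bi Bj e q1 q2 a b : ℝ) (hx : 100 ≤ x) (hi : Real.exp (0.98 * x) ≤ Bi)
    (hj : Real.exp (0.98 * x) ≤ Bj) (hij : Bi ≤ Real.exp (x / 50) * Bj)
    (hji : Bj ≤ Real.exp (x / 50) * Bi) (_he : 0 ≤ e) (he1 : e ≤ 1) (ha : 1 ≤ a) (hb : 1 ≤ b)
    (hq10 : 0 ≤ q1) (hq20 : 0 ≤ q2)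
    (hq1 : q1 ≤ Bi ^ ((1:ℝ)/12)) (hq2 : q2 ≤ Bj ^ ((1:ℝ)/12)) :
    (16 * e / Bi / a + 16 * e / Bj / b) * (q1 * q2) < 1 := by
  set m := min Bi Bj with hm
  have hm0 : Real.exp (0.98 * x) ≤ m := le_min hi hj
  have hexp : (1000000 : ℝ) < Real.exp (0.98 * x) := by
    have h1 : Real.exp 20 ≤ Real.exp (0.98 * x) := Real.exp_le_exp.2 (by linarith)
    have h2 : (1000000 : ℝ) < Real.exp 20 := by
      have h3 : (2 : ℝ) < Real.exp 1 := by
        have := Real.exp_one_gt_d9; linarith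
      have h4 : Real.exp 20 = (Real.exp 1) ^ 20 := by rw [← Real.exp_nat_mul]; norm_num
      rw [h4]
      calc (1000000 : ℝ) < 2 ^ 20 := by norm_num
        _ ≤ (Real.exp 1) ^ 20 := by gcongr
    linarith
  have hmpos : 0 < m := by linarith
  have hBi : 0 < Bi := by linarith
  have hBj : 0 < Bj := by linarith
  have hmi : m ≤ Bi := min_le_left _ _
  have hmj : m ≤ Bj := min_le_right _ _
  have h50 : Real.exp (x / 50) ≤ m := le_trans (Real.exp_le_exp.2 (by linarith)) hm0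
  have hprod : q1 * q2 ≤ m ^ ((1:ℝ)/4) := by
    have hBB : Bi * Bj ≤ m ^ (3:ℝ) := by
      have e3 : m ^ (3:ℝ) = m * (m * m) := by
        rw [show (3:ℝ) = ((3:ℕ):ℝ) by norm_num, Real.rpow_natCast]; ring
      rw [e3]
      rcases le_total Bi Bj with h | h
      · have : m = Bi := min_eq_left h
        rw [this] at h50 ⊢
        exact mul_le_mul_of_nonneg_left (hji.trans (mul_le_mul_of_nonneg_right h50 hBi.le)) hBi.le
      · have : m = Bj := min_eq_right h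
        rw [this] at h50 ⊢
        rw [mul_comm]
        exact mul_le_mul_of_nonneg_left (hij.trans (mul_le_mul_of_nonneg_right h50 hBj.le)) hBj.le
    calc q1 * q2 ≤ Bi ^ ((1:ℝ)/12) * Bj ^ ((1:ℝ)/12) := mul_le_mul hq1 hq2 hq20 (by positivity)
      _ = (Bi * Bj) ^ ((1:ℝ)/12) := (Real.mul_rpow hBi.le hBj.le).symm
      _ ≤ (m ^ (3:ℝ)) ^ ((1:ℝ)/12) := Real.rpow_le_rpow (by positivity) hBB (by norm_num)
      _ = m ^ ((1:ℝ)/4) := by rw [← Real.rpow_mul hmpos.le]; norm_num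
  have hs1 : 16 * e / Bi / a ≤ 16 / m := by
    rw [div_div]
    apply div_le_div₀ (by norm_num) (by linarith) hmpos
    nlinarith
  have hs2 : 16 * e / Bj / b ≤ 16 / m := by
    rw [div_div]
    apply div_le_div₀ (by norm_num) (by linarith) hmpos
    nlinarith
  have hlt : 32 / m * m ^ ((1:ℝ)/4) < 1 := by
    have h1 : m = m ^ ((3:ℝ)/4) * m ^ ((1:ℝ)/4) := by
      rw [← Real.rpow_add hmpos]; norm_num
    have h2 : (32 : ℝ) < m ^ ((3:ℝ)/4) := by
      have h3 : (1000000 : ℝ) ^ ((3:ℝ)/4) ≤ m ^ ((3:ℝ)/4) :=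
        Real.rpow_le_rpow (by norm_num) (by linarith) (by norm_num)
      have h4 : (32 : ℝ) < (1000000 : ℝ) ^ ((3:ℝ)/4) := by
        have h5 : (10000 : ℝ) ^ ((3:ℝ)/4) ≤ (1000000 : ℝ) ^ ((3:ℝ)/4) :=
          Real.rpow_le_rpow (by norm_num) (by norm_num) (by norm_num)
        have h6 : (10000 : ℝ) ^ ((3:ℝ)/4) = 1000 := by
          rw [show (10000:ℝ) = (10:ℝ) ^ (4:ℝ) by norm_num, ← Real.rpow_mul (by norm_num)]
          norm_num
        linarith
      linarith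
    have h7 : 0 < m ^ ((1:ℝ)/4) := by positivity
    rw [div_mul_eq_mul_div, div_lt_one hmpos]
    nth_rewrite 2 [h1]
    exact mul_lt_mul_of_pos_right h2 h7
  calc (16 * e / Bi / a + 16 * e / Bj / b) * (q1 * q2)
      ≤ (16 / m + 16 / m) * m ^ ((1:ℝ)/4) := by
        apply mul_le_mul (add_le_add hs1 hs2) hprod (by positivity) (by positivity)
    _ = 32 / m * m ^ ((1:ℝ)/4) := by ring
    _ < 1 := hlt

/-- a pair with two labels is explained -/
theorem explain (θ κ c4 x : ℝ) (z : ℕ × ℕ) (A A' a b i j q1 h1 q2 h2 : ℕ) (c1 c2 : ℤ)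
    (hκ : 0 < κ) (hκ1 : κ < 1) (hc4 : c4 ≤ 1) (hx : 100 ≤ x)
    (hcu : cu z = a * A) (hcv : cv z = b * A') (hab : a.gcd b = 1) (ha : 0 < a) (hb : 0 < b)
    (hA0 : 0 < A) (hA0' : 0 < A')
    (hA : (A : ℝ) < 2 * 2 ^ i) (hA' : (A' : ℝ) < 2 * 2 ^ j)
    (hi : Real.exp (0.98 * x) ≤ 2 ^ i) (hj : Real.exp (0.98 * x) ≤ 2 ^ j)
    (hij : (2 : ℝ) ^ i ≤ Real.exp (x / 50) * 2 ^ j) (hji : (2 : ℝ) ^ j ≤ Real.exp (x / 50) * 2 ^ i)
    (hq1 : 1 ≤ q1) (hh1 : 1 ≤ h1) (hh1' : (h1 : ℝ) ≤ 2 * κ ^ (-c4)) (hd1 : q1 ∣ h1 * a)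
    (g1 : Int.gcd q1 c1 = 1) (hq1' : (q1 : ℝ) ≤ ((2 : ℝ) ^ i) ^ ((1 : ℝ) / 12))
    (t1 : |θ - c1 / q1| ≤ epsI κ c4 i / a)
    (hq2 : 1 ≤ q2) (hh2 : 1 ≤ h2) (hh2' : (h2 : ℝ) ≤ 2 * κ ^ (-c4)) (hd2 : q2 ∣ h2 * b)
    (g2 : Int.gcd q2 c2 = 1) (hq2' : (q2 : ℝ) ≤ ((2 : ℝ) ^ j) ^ ((1 : ℝ) / 12))
    (t2 : |θ - c2 / q2| ≤ epsI κ c4 j / b) : Expl θ κ c4 z := by
  have hκe : κ ^ (1 - c4) ≤ 1 := Real.rpow_le_one hκ.le hκ1.le (by linarith)
  have hκe0 : 0 < κ ^ (1 - c4) := by positivity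
  have ha1 : (1 : ℝ) ≤ a := by exact_mod_cast ha
  have hb1 : (1 : ℝ) ≤ b := by exact_mod_cast hb
  have hnum := lab_num x (2 ^ i) (2 ^ j) (κ ^ (1 - c4)) q1 q2 a b hx hi hj hij hji hκe0.le hκe
    ha1 hb1 (Nat.cast_nonneg _) (Nat.cast_nonneg _) hq1' hq2'
  obtain ⟨rfl, rfl⟩ := lab_eq q1 q2 c1 c2 θ _ _ hq1 hq2 g1 g2 t1 t2 hnum
  refine ⟨q1, c1, hq1, ?_, g1, ?_⟩
  · have hdvd : q1 ∣ h1 * h2 := by
      have e1 : q1 ∣ (h1 * h2) * a := by
        have := hd1.mul_right h2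
        rwa [show h1 * a * h2 = (h1 * h2) * a by ring] at this
      have e2 : q1 ∣ (h1 * h2) * b := by
        have := hd2.mul_left h1
        rwa [← mul_assoc] at this
      have e3 := Nat.dvd_gcd e1 e2
      rwa [Nat.gcd_mul_left, hab, mul_one] at e3
    have h3 : q1 ≤ h1 * h2 := Nat.le_of_dvd (Nat.mul_pos hh1 hh2) hdvd
    calc (q1 : ℝ) ≤ h1 * h2 := by exact_mod_cast h3
      _ ≤ (2 * κ ^ (-c4)) * (2 * κ ^ (-c4)) := mul_le_mul hh1' hh2' (by positivity) (by positivity)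
      _ = 4 * κ ^ (-(2 * c4)) := by
          have : κ ^ (-(2 * c4)) = κ ^ (-c4) * κ ^ (-c4) := by
            rw [← Real.rpow_add hκ]; congr 1; ring
          rw [this]; ring
  · have key1 : |θ - c1 / q1| ≤ 32 * κ ^ (1 - c4) / (cu z : ℕ) := by
      refine t1.trans ?_
      unfold epsI
      rw [hcu, div_div]
      push_cast
      rw [div_le_div_iff₀ (by positivity) (by positivity)]
      have : (a : ℝ) * A ≤ a * (2 * 2 ^ i) := by gcongr
      nlinarith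
    have key2 : |θ - c1 / q1| ≤ 32 * κ ^ (1 - c4) / (cv z : ℕ) := by
      refine t2.trans ?_
      unfold epsI
      rw [hcv, div_div]
      push_cast
      rw [div_le_div_iff₀ (by positivity) (by positivity)]
      have : (b : ℝ) * A' ≤ b * (2 * 2 ^ j) := by gcongr
      nlinarith
    rcases le_total (cu z) (cv z) with h | h
    · rw [max_eq_right h]; exact key2
    · rw [max_eq_left h]; exact key1

end Pool.Agent.MP_0863b8.C2

end

section

/-!
MP_0863b8_nt, CASE II, item Lab: a special number in a dense scale has a label.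
-/

set_option autoImplicit false

namespace Pool.Agent.MP_0863b8.C2

open Pool.Agent.MP_0863b8 F G

theorem Lab_core (θ ε H D : ℝ) (k : ℕ) (S : Finset ℕ) (hε : 0 < ε) (hH : 1 ≤ H)
    (hS : ∀ a ∈ S, 2 ^ k ≤ a ∧ a < 2 ^ (k + 1) ∧
      ∃ h : ℕ, 1 ≤ h ∧ (h : ℝ) ≤ H ∧ nd ((h : ℝ) * a * θ) ≤ ε)
    (hcard : D * 2 ^ k < (S.card : ℝ)) (hDε : 96 * ε * H ^ 2 ≤ D) (a : ℕ) (ha : a ∈ S) :
    ∃ (q h : ℕ) (c : ℤ), 1 ≤ q ∧ 1 ≤ h ∧ (h : ℝ) ≤ H ∧ q ∣ h * a ∧ Int.gcd q c = 1 ∧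
      (q : ℝ) * D ≤ 2 * H ^ 2 ∧ |θ - c / q| ≤ ε / a := by
  classical
  have hH0 : 0 < H := by linarith
  have hS' : ∀ a : ℕ, ∃ h : ℕ, a ∈ S → 1 ≤ h ∧ (h : ℝ) ≤ H ∧ nd ((h : ℝ) * a * θ) ≤ ε := by
    intro a
    by_cases h1 : a ∈ S
    · obtain ⟨h, hh⟩ := (hS a h1).2.2
      exact ⟨h, fun _ => hh⟩
    · exact ⟨0, fun h => absurd h h1⟩
  choose f hf using hS'
  have hSpos : ∀ b ∈ S, 0 < b := fun b hb => lt_of_lt_of_le (by positivity) (hS b hb).1
  set T : ℝ := 2 ^ k with hT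
  have hT0 : 0 < T := by positivity
  set B' : ℝ := 2 * H * T with hB'
  have hB'0 : 0 < B' := by positivity
  set Z : Finset ℕ := S.image (fun b => f b * b) with hZ
  have hZmem : ∀ z ∈ Z, 1 ≤ z ∧ (z : ℝ) < B' ∧ nd ((z : ℝ) * θ) < 2 * ε := by
    intro z hz
    rw [hZ, Finset.mem_image] at hz
    obtain ⟨b, hb, rfl⟩ := hz
    obtain ⟨h1, h2, h3⟩ := hf b hb
    have hb0 := hSpos b hb
    refine ⟨Nat.mul_pos (by omega) hb0, ?_, ?_⟩
    · have h4 : (b : ℝ) < 2 * T := by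
        have h5 : (b : ℝ) < ((2 ^ (k + 1) : ℕ) : ℝ) := by exact_mod_cast (hS b hb).2.1
        rw [hT]
        push_cast at h5
        rw [pow_succ] at h5
        linarith
      push_cast
      have h6 : (0 : ℝ) < b := by exact_mod_cast hb0
      calc (f b : ℝ) * b ≤ H * b := mul_le_mul_of_nonneg_right h2 h6.le
        _ < H * (2 * T) := mul_lt_mul_of_pos_left h4 hH0
        _ = B' := by rw [hB']; ring
    · push_cast
      linarith
  have hZcard : (S.card : ℝ) ≤ H * Z.card := by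
    have h1 : S.card ≤ ⌊H⌋₊ * Z.card := by
      refine Finset.card_le_mul_card_image S ⌊H⌋₊ ?_
      intro z hz
      have hz0 : 0 < z := (hZmem z hz).1
      have h2 : ∀ b ∈ S.filter (fun b => f b * b = z), f b ∈ Finset.Icc 1 ⌊H⌋₊ := by
        intro b hb
        rw [Finset.mem_filter] at hb
        obtain ⟨h3, h4, -⟩ := hf b hb.1
        rw [Finset.mem_Icc]
        exact ⟨h3, Nat.le_floor h4⟩
      have h3 := Finset.card_le_card_of_injOn f h2 (by
        intro b hb b' hb' hbb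
        rw [Finset.mem_coe, Finset.mem_filter] at hb hb'
        have h4 : f b * b = f b * b' := by rw [hb.2, hbb, hb'.2]
        have h5 := (hf b hb.1).1
        exact Nat.eq_of_mul_eq_mul_left (by omega) h4)
      rw [Nat.card_Icc] at h3
      simpa using h3
    have h2 : (S.card : ℝ) ≤ (⌊H⌋₊ : ℝ) * Z.card := by exact_mod_cast h1
    refine h2.trans (mul_le_mul_of_nonneg_right (Nat.floor_le hH0.le) (Nat.cast_nonneg _))
  rcases dio θ (2 * ε) B' (by positivity) hB'0 with hdio | ⟨-, hdio⟩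
  · exfalso
    have h1 : (Z.card : ℝ) ≤ hcount θ (2 * ε) B' := by
      unfold hcount
      exact_mod_cast Finset.card_le_card (by
        intro z hz
        obtain ⟨h2, h3, h4⟩ := hZmem z hz
        rw [Finset.mem_filter, Finset.mem_Icc]
        exact ⟨⟨h2, Nat.le_floor h3.le⟩, h3, h4⟩)
    have h2 : (Z.card : ℝ) ≤ 24 * (2 * ε) * B' := h1.trans hdio
    have h3 : (S.card : ℝ) ≤ H * (24 * (2 * ε) * B') :=
      hZcard.trans (mul_le_mul_of_nonneg_left h2 hH0.le)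
    have h4 : H * (24 * (2 * ε) * B') = (96 * ε * H ^ 2) * T := by rw [hB']; ring
    rw [h4] at h3
    have h5 : (96 * ε * H ^ 2) * T ≤ D * T := mul_le_mul_of_nonneg_right hDε hT0.le
    linarith
  · obtain ⟨hq1, -, -, hgcd⟩ := qmin_spec θ (2 * ε) (by positivity)
    set q := qmin θ (2 * ε) with hq
    have hq0 : (0 : ℝ) < q := by exact_mod_cast hq1
    have hdvd : ∀ z ∈ Z, q ∣ z := fun z hz =>
      (hdio z (hZmem z hz).1 (hZmem z hz).2.1 (hZmem z hz).2.2).1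
    obtain ⟨ha1, ha2, ha3⟩ := hf a ha
    have haZ : f a * a ∈ Z := Finset.mem_image_of_mem _ ha
    have ha0 : (0 : ℝ) < a := by exact_mod_cast hSpos a ha
    have hza := hdio (f a * a) (hZmem _ haZ).1 (hZmem _ haZ).2.1 (hZmem _ haZ).2.2
    refine ⟨q, f a, round ((q : ℝ) * θ), hq1, ha1, ha2, hza.1, hgcd, ?_, ?_⟩
    · have h1 : (Z.card : ℝ) ≤ B' / q := by
        have h2 : ∀ z ∈ Z, z / q ∈ Finset.Icc 1 ⌊B' / q⌋₊ := by
          intro z hz
          rw [Finset.mem_Icc]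
          obtain ⟨m, hm⟩ := hdvd z hz
          have h3 : z / q = m := by rw [hm]; exact Nat.mul_div_cancel_left m hq1
          rw [h3]
          refine ⟨?_, Nat.le_floor ?_⟩
          · have h4 := (hZmem z hz).1
            by_contra h5
            have h6 : m = 0 := by omega
            rw [h6] at hm
            omega
          · rw [le_div_iff₀ hq0]
            have h4 := (hZmem z hz).2.1
            rw [hm] at h4
            push_cast at h4
            linarith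
        have h3 := Finset.card_le_card_of_injOn (fun z => z / q) h2 (by
          intro z hz z' hz' hzz
          have h4 : z / q = z' / q := hzz
          rw [← Nat.div_mul_cancel (hdvd z hz), ← Nat.div_mul_cancel (hdvd z' hz'), h4])
        rw [Nat.card_Icc] at h3
        have h4 : Z.card ≤ ⌊B' / q⌋₊ := by simpa using h3
        have h5 : (Z.card : ℝ) ≤ (⌊B' / q⌋₊ : ℝ) := by exact_mod_cast h4
        exact h5.trans (Nat.floor_le (by positivity))
      have h2 : D * T < H * (B' / q) :=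
        lt_of_lt_of_le hcard (hZcard.trans (mul_le_mul_of_nonneg_left h1 hH0.le))
      have h3 : D * T * q < H * B' := by
        rw [← mul_div_assoc, lt_div_iff₀ hq0] at h2
        exact h2
      have h4 : H * B' = 2 * H ^ 2 * T := by rw [hB']; ring
      rw [h4] at h3
      have h5 : (q * D) * T < (2 * H ^ 2) * T := by linarith
      exact (lt_of_mul_lt_mul_right h5 hT0.le).le
    · have hz0 : (0 : ℝ) < ((f a * a : ℕ) : ℝ) := by exact_mod_cast (hZmem _ haZ).1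
      have h1 : ((round ((q : ℝ) * θ) : ℤ) : ℝ) / q =
          ((round (((f a * a : ℕ) : ℝ) * θ) : ℤ) : ℝ) / ((f a * a : ℕ) : ℝ) := by
        rw [div_eq_div_iff hq0.ne' hz0.ne']
        have h2 := congrArg (fun x : ℤ => (x : ℝ)) hza.2
        push_cast at h2 ⊢
        linarith
      rw [h1]
      have h2 : θ - ((round (((f a * a : ℕ) : ℝ) * θ) : ℤ) : ℝ) / ((f a * a : ℕ) : ℝ) =
          (((f a * a : ℕ) : ℝ) * θ - ((round (((f a * a : ℕ) : ℝ) * θ) : ℤ) : ℝ)) /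
            ((f a * a : ℕ) : ℝ) := by
        field_simp
      rw [h2, abs_div, abs_of_pos hz0]
      have h3 : |((f a * a : ℕ) : ℝ) * θ - ((round (((f a * a : ℕ) : ℝ) * θ) : ℤ) : ℝ)| ≤ ε := by
        have h4 : nd (((f a * a : ℕ) : ℝ) * θ) ≤ ε := by
          push_cast
          exact ha3
        exact h4
      have h5 : (a : ℝ) ≤ ((f a * a : ℕ) : ℝ) := by
        exact_mod_cast Nat.le_mul_of_pos_left a ha1
      calc _ ≤ ε / ((f a * a : ℕ) : ℝ) := div_le_div_of_nonneg_right h3 hz0.le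
        _ ≤ ε / a := div_le_div_of_nonneg_left hε.le ha0 h5

theorem Lab_growth (s : ℝ) : ∃ y0 : ℝ, 1 ≤ y0 ∧ ∀ y : ℝ, y0 ≤ y →
    8 * y ^ s ≤ Real.exp (y / 40) ∧ 2000 ≤ Real.exp (y / 2) := by
  have h1 := (isLittleO_rpow_exp_pos_mul_atTop s (b := 1 / 40) (by norm_num)).bound
    (show (0 : ℝ) < 1 / 8 by norm_num)
  have h2 : ∀ᶠ y : ℝ in Filter.atTop, 2000 ≤ Real.exp (y / 2) := by
    have h3 : Filter.Tendsto (fun y : ℝ => Real.exp (y / 2)) Filter.atTop Filter.atTop :=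
      Real.tendsto_exp_atTop.comp (Filter.tendsto_id.atTop_div_const (by norm_num))
    exact h3.eventually_ge_atTop 2000
  obtain ⟨y0, hy0⟩ := Filter.eventually_atTop.1 (h1.and (h2.and (Filter.eventually_ge_atTop 1)))
  refine ⟨max y0 1, le_max_right _ _, fun y hy => ?_⟩
  obtain ⟨h3, h4, h5⟩ := hy0 y ((le_max_left _ _).trans hy)
  refine ⟨?_, h4⟩
  rw [Real.norm_of_nonneg (by positivity), Real.norm_of_nonneg (Real.exp_pos _).le] at h3
  have h6 : 1 / 40 * y = y / 40 := by ring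
  rw [h6] at h3
  linarith

theorem lab : Lab := by
  classical
  intro c4 c0 hc4 hc4' hc0
  obtain ⟨y0, hy0, hy⟩ := Lab_growth (2 * c4 / c0)
  have hy00 : 0 < y0 := by linarith
  refine ⟨min 1 (y0 ^ (-(1 / c0))), lt_min one_pos (Real.rpow_pos_of_pos hy00 _), ?_⟩
  intro κ hκ0 hκ θ i a hB ha hsp hnb
  have hκ1 : κ ≤ 1 := hκ.trans (min_le_left _ _)
  have hκ2 : κ ≤ y0 ^ (-(1 / c0)) := hκ.trans (min_le_right _ _)
  set y : ℝ := κ ^ (-c0) with hydef
  have hyy : y0 ≤ y := by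
    have h1 : (y0 ^ (-(1 / c0))) ^ (-c0) ≤ κ ^ (-c0) :=
      Real.rpow_le_rpow_of_nonpos hκ0 hκ2 (by linarith)
    have h2 : (y0 ^ (-(1 / c0))) ^ (-c0) = y0 := by
      rw [← Real.rpow_mul hy00.le]
      have h3 : -(1 / c0) * -c0 = 1 := by field_simp
      rw [h3, Real.rpow_one]
    rw [h2] at h1
    exact h1
  obtain ⟨hg1, hg2⟩ := hy y hyy
  have hy0' : 0 < y := hy00.trans_le hyy
  set B : ℝ := 2 ^ i with hBdef
  have hB0 : 0 < B := by positivity
  have hB2000 : 2000 ≤ B := hg2.trans hB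
  have hB1 : 1 ≤ B := by linarith
  set H : ℝ := 2 * κ ^ (-c4) with hHdef
  have hκc4 : 1 ≤ κ ^ (-c4) := Real.one_le_rpow_of_pos_of_le_one_of_nonpos hκ0 hκ1 (by linarith)
  have hH : 1 ≤ H := by rw [hHdef]; linarith
  have hH2 : 2 * H ^ 2 ≤ B ^ ((1 : ℝ) / 20) := by
    have h1 : 2 * H ^ 2 = 8 * y ^ (2 * c4 / c0) := by
      have h2 : y ^ (2 * c4 / c0) = κ ^ (-(2 * c4)) := by
        rw [hydef, ← Real.rpow_mul hκ0.le]
        congr 1
        field_simp
      have h4 : (κ ^ (-c4)) ^ 2 = κ ^ (-(2 * c4)) := by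
        rw [← Real.rpow_natCast, ← Real.rpow_mul hκ0.le]
        congr 1
        push_cast
        ring
      rw [h2, hHdef, mul_pow, h4]
      ring
    rw [h1]
    refine hg1.trans ?_
    have h5 : Real.exp (y / 40) = (Real.exp (y / 2)) ^ ((1 : ℝ) / 20) := by
      rw [← Real.exp_mul]
      congr 1
      ring
    rw [h5]
    exact Real.rpow_le_rpow (Real.exp_pos _).le hB (by norm_num)
  set ε : ℝ := epsI κ c4 i with hεdef
  have hκ1c : κ ^ (1 - c4) ≤ 1 := Real.rpow_le_one hκ0.le hκ1 (by linarith)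
  have hκ1p : 0 < κ ^ (1 - c4) := Real.rpow_pos_of_pos hκ0 _
  have hε : 0 < ε := by
    rw [hεdef]
    unfold epsI
    positivity
  have hε2 : ε ≤ 16 / B := by
    rw [hεdef]
    unfold epsI
    exact div_le_div_of_nonneg_right (by linarith) hB0.le
  set D : ℝ := B ^ (-(1 / 30) : ℝ) with hDdef
  have hD : 0 < D := Real.rpow_pos_of_pos hB0 _
  have hDε : 96 * ε * H ^ 2 ≤ D := by
    have h1 : 96 * ε * H ^ 2 ≤ 96 * (16 / B) * (B ^ ((1 : ℝ) / 20) / 2) := by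
      have h2 : H ^ 2 ≤ B ^ ((1 : ℝ) / 20) / 2 := by linarith
      have h3 : 96 * ε ≤ 96 * (16 / B) := by linarith
      exact mul_le_mul h3 h2 (by positivity) (by positivity)
    refine h1.trans ?_
    have h2 : 96 * (16 / B) * (B ^ ((1 : ℝ) / 20) / 2) = 768 * B ^ (-(19 / 20) : ℝ) := by
      have h3 : B ^ (-(19 / 20) : ℝ) = B ^ ((1 : ℝ) / 20) / B := by
        have h4 : (-(19 / 20) : ℝ) = 1 / 20 - 1 := by norm_num
        rw [h4, Real.rpow_sub hB0, Real.rpow_one]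
      rw [h3]
      ring
    rw [h2]
    have h3 : B ^ (-(1 / 30) : ℝ) = B ^ (-(19 / 20) : ℝ) * B ^ ((11 : ℝ) / 12) := by
      rw [← Real.rpow_add hB0]
      norm_num
    rw [hDdef, h3, mul_comm]
    apply mul_le_mul_of_nonneg_left _ (Real.rpow_pos_of_pos hB0 _).le
    have h4 : (2000 : ℝ) ^ ((11 : ℝ) / 12) ≤ B ^ ((11 : ℝ) / 12) :=
      Real.rpow_le_rpow (by norm_num) hB2000 (by norm_num)
    refine le_trans ?_ h4
    have h5 : (768 : ℝ) = ((768 : ℝ) ^ ((12 : ℝ) / 11)) ^ ((11 : ℝ) / 12) := by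
      rw [← Real.rpow_mul (by norm_num)]
      norm_num
    rw [h5]
    apply Real.rpow_le_rpow (by positivity) _ (by norm_num)
    have h6 : ((768 : ℝ) ^ ((12 : ℝ) / 11)) ≤ 2000 := by
      have h7 : (768 : ℝ) ^ ((12 : ℝ) / 11) = ((768 : ℝ) ^ (12 : ℕ)) ^ ((1 : ℝ) / 11) := by
        rw [← Real.rpow_natCast, ← Real.rpow_mul (by norm_num)]
        norm_num
      have h8 : (2000 : ℝ) = ((2000 : ℝ) ^ (11 : ℕ)) ^ ((1 : ℝ) / 11) := by
        rw [← Real.rpow_natCast, ← Real.rpow_mul (by norm_num)]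
        norm_num
      rw [h7, h8]
      apply Real.rpow_le_rpow (by positivity) _ (by norm_num)
      norm_num
    exact h6
  -- the set of special numbers in the scale
  set k := Nat.log 2 a with hk
  have hns : ¬ SparseScale θ κ c4 i k := by
    intro h
    exact hnb ⟨hsp, Or.inl h⟩
  unfold SparseScale at hns
  rw [not_le] at hns
  have haS : a ∈ (Finset.Ico (2 ^ k) (2 ^ (k + 1))).filter (fun a => Spec θ κ c4 i a) := by
    rw [Finset.mem_filter, Finset.mem_Ico]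
    exact ⟨⟨Nat.pow_log_le_self 2 ha.ne', Nat.lt_pow_succ_log_self (by norm_num) a⟩, hsp⟩
  obtain ⟨q, h, c, hq1, hh1, hh2, hdvd, hgcd, hqD, hθ⟩ := Lab_core θ ε H D k
    ((Finset.Ico (2 ^ k) (2 ^ (k + 1))).filter (fun a => Spec θ κ c4 i a)) hε hH (by
      intro b hb
      rw [Finset.mem_filter, Finset.mem_Ico] at hb
      exact ⟨hb.1.1, hb.1.2, hb.2⟩) hns hDε a haS
  refine ⟨q, h, c, hq1, hh1, hh2, hdvd, hgcd, ?_, hθ⟩
  have h1 : (q : ℝ) ≤ 2 * H ^ 2 * B ^ ((1 : ℝ) / 30) := by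
    have h2 : D * B ^ ((1 : ℝ) / 30) = 1 := by
      rw [hDdef, ← Real.rpow_add hB0]
      norm_num
    have h3 : 0 < B ^ ((1 : ℝ) / 30) := Real.rpow_pos_of_pos hB0 _
    calc (q : ℝ) = (q * D) * B ^ ((1 : ℝ) / 30) := by rw [mul_assoc, h2, mul_one]
      _ ≤ 2 * H ^ 2 * B ^ ((1 : ℝ) / 30) := mul_le_mul_of_nonneg_right hqD h3.le
  refine h1.trans ?_
  have h2 : B ^ ((1 : ℝ) / 12) = B ^ ((1 : ℝ) / 20) * B ^ ((1 : ℝ) / 30) := by
    rw [← Real.rpow_add hB0]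
    norm_num
  rw [h2]
  exact mul_le_mul_of_nonneg_right hH2 (Real.rpow_pos_of_pos hB0 _).le

end Pool.Agent.MP_0863b8.C2

end

section

/-!
MP_0863b8_nt, CASE II: mass lemma, divisor sums, Step 0 and the pointwise summation.
-/

set_option autoImplicit false

namespace Pool.Agent.MP_0863b8.C2

open Pool.Agent.MP_0863b8 F G

theorem mass (γ κ cm X r S R : ℝ) (hγ : 1/2 < γ) (hγ' : γ ≤ 5/9) (hκ : 0 < κ)
    (hX : 0 < X) (hr : 1 ≤ r) (hS : 0 ≤ S) (hR : 0 ≤ R) (h1 : S ≤ κ ^ (-cm) * X)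
    (h2 : R ≤ κ ^ (-cm) * (r * X)) :
    (κ * X) ^ (1 - 2 * γ) * (S * R) ^ γ ≤
      κ ^ (1 - 2 * γ - cm * (2 * γ - 1)) * (r * S + R) := by
  have hr0 : 0 < r := by linarith
  rcases (mul_nonneg hS hR).eq_or_lt with h0 | h0
  · rw [← h0, Real.zero_rpow (by linarith), mul_zero]
    have : 0 ≤ r * S + R := by positivity
    positivity
  · have e1 : (S * R) ^ γ = (S * R) ^ ((1:ℝ)/2) * (S * R) ^ (γ - 1/2) := by
      rw [← Real.rpow_add h0]; congr 1; ring
    have e2 : (S * R) ^ (γ - 1/2) ≤ (κ ^ (-cm) * X * (κ ^ (-cm) * (r * X))) ^ (γ - 1/2) := by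
      apply Real.rpow_le_rpow h0.le _ (by linarith)
      exact mul_le_mul h1 h2 hR (by positivity)
    have e3 : (κ ^ (-cm) * X * (κ ^ (-cm) * (r * X))) ^ (γ - 1/2) =
        κ ^ (-cm * (2 * γ - 1)) * X ^ (2 * γ - 1) * r ^ (γ - 1/2) := by
      have : κ ^ (-cm) * X * (κ ^ (-cm) * (r * X)) = (κ ^ (-cm) * X) ^ (2:ℝ) * r := by
        rw [Real.rpow_two]; ring
      rw [this, Real.mul_rpow (by positivity) hr0.le, ← Real.rpow_mul (by positivity),
        Real.mul_rpow (by positivity) hX.le, ← Real.rpow_mul hκ.le]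
      have : (2:ℝ) * (γ - 1/2) = 2 * γ - 1 := by ring
      rw [this]
    have e4 : (κ * X) ^ (1 - 2 * γ) = κ ^ (1 - 2 * γ) * X ^ (1 - 2 * γ) :=
      Real.mul_rpow hκ.le hX.le
    have e5 : X ^ (1 - 2 * γ) * X ^ (2 * γ - 1) = 1 := by
      rw [← Real.rpow_add hX]
      have : 1 - 2 * γ + (2 * γ - 1) = 0 := by ring
      rw [this, Real.rpow_zero]
    have e6 : κ ^ (1 - 2 * γ - cm * (2 * γ - 1)) = κ ^ (1 - 2 * γ) * κ ^ (-cm * (2 * γ - 1)) := by
      rw [← Real.rpow_add hκ]; congr 1; ring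
    have e7 : (S * R) ^ ((1:ℝ)/2) * r ^ (γ - 1/2) ≤ r * S + R := by
      have h3 : r ^ (γ - 1/2) ≤ r ^ ((1:ℝ)/2) := Real.rpow_le_rpow_of_exponent_le hr (by linarith)
      calc (S * R) ^ ((1:ℝ)/2) * r ^ (γ - 1/2) ≤ (S * R) ^ ((1:ℝ)/2) * r ^ ((1:ℝ)/2) := by gcongr
        _ = (r * S * R) ^ ((1:ℝ)/2) := by
            rw [← Real.mul_rpow h0.le hr0.le]; congr 1; ring
        _ = Real.sqrt (r * S * R) := (Real.sqrt_eq_rpow _).symm
        _ ≤ r * S + R := by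
            apply Real.sqrt_le_iff.2
            constructor
            · positivity
            · nlinarith [mul_nonneg hr0.le hS, mul_nonneg (mul_nonneg hr0.le hS) hR,
                sq_nonneg (r * S), sq_nonneg R]
    rw [e4, e1, e6]
    calc κ ^ (1 - 2 * γ) * X ^ (1 - 2 * γ) * ((S * R) ^ ((1:ℝ)/2) * (S * R) ^ (γ - 1/2))
        ≤ κ ^ (1 - 2 * γ) * X ^ (1 - 2 * γ) * ((S * R) ^ ((1:ℝ)/2) *
          (κ ^ (-cm * (2 * γ - 1)) * X ^ (2 * γ - 1) * r ^ (γ - 1/2))) := by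
          rw [← e3]; gcongr
      _ = κ ^ (1 - 2 * γ) * κ ^ (-cm * (2 * γ - 1)) * (X ^ (1 - 2 * γ) * X ^ (2 * γ - 1)) *
          ((S * R) ^ ((1:ℝ)/2) * r ^ (γ - 1/2)) := by ring
      _ ≤ κ ^ (1 - 2 * γ) * κ ^ (-cm * (2 * γ - 1)) * (r * S + R) := by
          rw [e5, mul_one]; gcongr

/-- bounded `rp` gives a bounded divisor sum -/
theorem divs (n : ℕ) (hn : 0 < n) (C1 : ℝ) (h : rp n ≤ C1) :
    ∑ d ∈ n.divisors, (1 : ℝ) / d ≤ Real.exp (2 * C1) := by
  have h1 := ds_main n hn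
  have h2 : Real.exp (-(2 * C1)) ≤ (Nat.totient n : ℝ) / n := by
    have h3 : (Nat.totient n : ℝ) / n = ∏ p ∈ n.primeFactors, (1 - ((p : ℝ))⁻¹) := by
      have := Nat.totient_eq_mul_prod_factors n
      have h4 : ((Nat.totient n : ℚ) : ℝ) = ((n * ∏ p ∈ n.primeFactors, (1 - ((p : ℚ))⁻¹) : ℚ) : ℝ) := by
        rw [this]
      push_cast at h4
      rw [h4]
      field_simp
    rw [h3]
    have h5 : Real.exp (-(2 * rp n)) ≤ ∏ p ∈ n.primeFactors, (1 - ((p : ℝ))⁻¹) := by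
      unfold rp
      rw [Finset.mul_sum, ← Finset.sum_neg_distrib, Real.exp_sum]
      apply Finset.prod_le_prod (fun p _ => (Real.exp_pos _).le)
      intro p hp
      have hp2 : (2 : ℝ) ≤ p := by exact_mod_cast (Nat.prime_of_mem_primeFactors hp).two_le
      set t : ℝ := ((p : ℝ))⁻¹ with ht
      have ht0 : 0 < t := by positivity
      have ht1 : t ≤ 1/2 := by
        rw [ht, inv_le_comm₀ (by positivity) (by norm_num)]; norm_num; exact_mod_cast hp2
      rw [one_div, ← ht, Real.exp_neg, inv_le_comm₀ (Real.exp_pos _) (by linarith)]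
      have h6 : (1 - t)⁻¹ ≤ 2 * t + 1 := by
        rw [inv_le_iff_one_le_mul₀ (by linarith)]
        nlinarith
      exact h6.trans (Real.add_one_le_exp _)
    exact le_trans (Real.exp_le_exp.2 (by linarith)) h5
  have h0 : 0 ≤ ∑ d ∈ n.divisors, (1 : ℝ) / d := Finset.sum_nonneg (fun d _ => by positivity)
  have h7 : (∑ d ∈ n.divisors, (1 : ℝ) / d) * Real.exp (-(2 * C1)) ≤ 1 :=
    (mul_le_mul_of_nonneg_left h2 h0).trans h1
  rw [Real.exp_neg] at h7
  rwa [← div_eq_mul_inv, div_le_one (Real.exp_pos _)] at h7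

/-- Step 0 -/
theorem stepZero (sbc : SBC) (γ C1 : ℝ) (hγ : 1/2 < γ) (hγ' : γ ≤ 5/9) :
    ∃ C : ℝ, 0 < C ∧ ∀ Q D0 Y : ℝ, Real.exp 9 ≤ Q → 0 < Y → 1 ≤ D0 →
    ∀ (V W : Finset ℕ) (G : Finset (ℕ × ℕ)),
    (∀ v ∈ V, 0 < v ∧ rp v ≤ C1) → (∀ w ∈ W, 0 < w ∧ rp w ≤ C1) →
    (∀ z ∈ G, z.1 ∈ V ∧ z.2 ∈ W ∧ Y ≤ ((z.1.lcm z.2 : ℕ) : ℝ) ∧
      ((z.1.lcm z.2 : ℕ) : ℝ) < 2 * Y ∧ D0 < (smp Q (cu z) : ℝ) * smp Q (cv z)) →
    ∑ z ∈ G, (cg z : ℝ) ≤
      C * Q ^ C * D0 ^ (-(1 / Real.log Q)) * Y ^ (1 - 2 * γ) * (ms V * ms W) ^ γ := by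
  classical
  obtain ⟨C, hC, h⟩ := sbc γ C1 hγ hγ'
  refine ⟨2 * C, by positivity, ?_⟩
  intro Q D0 Y hQ hY hD V W G hV hW hG
  have hQ1 : 1 ≤ Q := le_trans (Real.one_le_exp (by norm_num)) hQ
  have hQ0 : 0 < Q := by linarith
  have hlQ : 0 < Real.log Q := by
    have := (Real.le_log_iff_exp_le hQ0).2 hQ
    linarith
  have hms : 0 ≤ ms V * ms W := by
    apply mul_nonneg <;> exact Finset.sum_nonneg (fun _ _ => Nat.cast_nonneg _)
  have h1 : ∑ z ∈ G, (cg z : ℝ) ≤ D0 ^ (-(1 / Real.log Q)) *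
      ∑ z ∈ G, (cg z : ℝ) * ((smp Q (cu z) : ℝ) * smp Q (cv z)) ^ (1 / Real.log Q) := by
    rw [Finset.mul_sum]
    apply Finset.sum_le_sum
    intro z hz
    obtain ⟨_, _, _, _, hz5⟩ := hG z hz
    have h2 : D0 ^ (1 / Real.log Q) ≤
        ((smp Q (cu z) : ℝ) * smp Q (cv z)) ^ (1 / Real.log Q) :=
      Real.rpow_le_rpow (by linarith) hz5.le (by positivity)
    have h3 : 0 < D0 ^ (1 / Real.log Q) := by positivity
    rw [Real.rpow_neg (by linarith)]
    rw [inv_mul_eq_div, le_div_iff₀ h3]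
    exact mul_le_mul_of_nonneg_left h2 (Nat.cast_nonneg _)
  have h4 : ∑ z ∈ G, (cg z : ℝ) * ((smp Q (cu z) : ℝ) * smp Q (cv z)) ^ (1 / Real.log Q) ≤
      ∑ z ∈ prs V W Y ∪ prs V W (2 * Y),
        (cg z : ℝ) * ((smp Q (cu z) : ℝ) * smp Q (cv z)) ^ (1 / Real.log Q) := by
    apply Finset.sum_le_sum_of_subset_of_nonneg
    · intro z hz
      obtain ⟨hz1, hz2, hz3, hz4, _⟩ := hG z hz
      rw [Finset.mem_union]
      unfold prs
      simp only [Finset.mem_filter, Finset.mem_product]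
      rcases hz3.lt_or_eq with h5 | h5
      · right
        exact ⟨⟨hz1, hz2⟩, by linarith, hz4.le⟩
      · left
        exact ⟨⟨hz1, hz2⟩, by linarith, h5.symm.le⟩
    · intro z _ _
      positivity
  have h5 := Finset.sum_union_inter (s₁ := prs V W Y) (s₂ := prs V W (2 * Y))
    (f := fun z => (cg z : ℝ) * ((smp Q (cu z) : ℝ) * smp Q (cv z)) ^ (1 / Real.log Q))
  have h6 : 0 ≤ ∑ z ∈ prs V W Y ∩ prs V W (2 * Y),
      (cg z : ℝ) * ((smp Q (cu z) : ℝ) * smp Q (cv z)) ^ (1 / Real.log Q) :=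
    Finset.sum_nonneg (fun _ _ => by positivity)
  have h7 := h Q hQ V W Y hY hV hW
  have h8 := h Q hQ V W (2 * Y) (by positivity) hV hW
  have h9 : (2 * Y) ^ (1 - 2 * γ) ≤ Y ^ (1 - 2 * γ) :=
    Real.rpow_le_rpow_of_nonpos hY (by linarith) (by linarith)
  have h10 : C * Q ^ C * (2 * Y) ^ (1 - 2 * γ) * (ms V * ms W) ^ γ ≤
      C * Q ^ C * Y ^ (1 - 2 * γ) * (ms V * ms W) ^ γ := by gcongr
  have h11 : Q ^ C ≤ Q ^ (2 * C) := Real.rpow_le_rpow_of_exponent_le hQ1 (by linarith)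
  have hD1 : 0 ≤ D0 ^ (-(1 / Real.log Q)) := by positivity
  calc ∑ z ∈ G, (cg z : ℝ) ≤ D0 ^ (-(1 / Real.log Q)) *
      ∑ z ∈ G, (cg z : ℝ) * ((smp Q (cu z) : ℝ) * smp Q (cv z)) ^ (1 / Real.log Q) := h1
    _ ≤ D0 ^ (-(1 / Real.log Q)) * (2 * (C * Q ^ C * Y ^ (1 - 2 * γ) * (ms V * ms W) ^ γ)) := by
        gcongr
        linarith
    _ = (2 * C) * Q ^ C * D0 ^ (-(1 / Real.log Q)) * Y ^ (1 - 2 * γ) * (ms V * ms W) ^ γ := by ring
    _ ≤ _ := by gcongr

/-- summation of the pointwise bound -/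
theorem ptSum (pt : Pt) (Y K : ℝ) (hY : 0 < Y) (N : Finset ℕ) (A h : ℕ → ℕ)
    (G : Finset (ℕ × ℕ)) (S : ℕ → Finset ℕ)
    (hN : ∀ n ∈ N, 0 < n ∧ 0 < A n ∧ 0 < h n)
    (hG : ∀ z ∈ G, z.1 ∈ N ∧ 0 < z.2 ∧ Y ≤ ((z.1.lcm z.2 : ℕ) : ℝ) ∧
      ((z.1.lcm z.2 : ℕ) : ℝ) < 2 * Y ∧ A z.1 ∣ cu z ∧ h z.1 ∣ cv z ∧ cu z / A z.1 ∈ S z.1)
    (hK0 : 0 ≤ K)
    (hK : ∀ z ∈ G, 3 * Y / (h z.1 * A z.1) * ∑ a ∈ S z.1, (1 : ℝ) / a ≤ K * z.1) :
    ∑ z ∈ G, (cg z : ℝ) ≤ K * ms N := by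
  classical
  rw [← Finset.sum_fiberwise_of_maps_to (s := G) (t := N) (g := fun z => z.1)
    (fun z hz => (hG z hz).1) (fun z => (cg z : ℝ))]
  unfold ms
  rw [Finset.mul_sum]
  apply Finset.sum_le_sum
  intro n hn
  obtain ⟨hn0, hA, hh⟩ := hN n hn
  rcases (G.filter (fun z => z.1 = n)).eq_empty_or_nonempty with he | ⟨z0, hz0⟩
  · rw [he, Finset.sum_empty]; positivity
  · rw [Finset.mem_filter] at hz0
    have hk := hK z0 hz0.1
    rw [hz0.2] at hk
    refine le_trans ?_ hk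
    have hinj : Set.InjOn (fun z : ℕ × ℕ => z.2) (G.filter (fun z => z.1 = n)) := by
      intro z hz w hw hzw
      rw [Finset.coe_filter, Set.mem_ofPred_eq] at hz hw
      exact Prod.ext (hz.2.trans hw.2.symm) hzw
    have h1 : ∑ z ∈ G.filter (fun z => z.1 = n), (cg z : ℝ) =
        ∑ m ∈ (G.filter (fun z => z.1 = n)).image (fun z => z.2), ((n.gcd m : ℕ) : ℝ) := by
      rw [Finset.sum_image hinj]
      apply Finset.sum_congr rfl
      intro z hz
      rw [Finset.mem_filter] at hz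
      unfold cg
      rw [hz.2]
    rw [h1]
    apply pt Y n (A n) (h n) _ (S n) hY hn0 hA hh
    intro m hm
    rw [Finset.mem_image] at hm
    obtain ⟨z, hz, rfl⟩ := hm
    rw [Finset.mem_filter] at hz
    obtain ⟨hz, rfl⟩ := hz
    obtain ⟨_, h2, h3, h4, h5, h6, h7⟩ := hG z hz
    exact ⟨h2, h3, h4, h5, h6, h7⟩

/-- the swapped pairs -/
theorem cg_swap (z : ℕ × ℕ) : cg z.swap = cg z := by
  unfold cg; simp [Nat.gcd_comm]

theorem cu_swap (z : ℕ × ℕ) : cu z.swap = cv z := by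
  unfold cu cv; simp [Nat.gcd_comm]

theorem cv_swap (z : ℕ × ℕ) : cv z.swap = cu z := by
  unfold cu cv; simp [Nat.gcd_comm]

/-- summation of the pointwise bound, second coordinate -/
theorem ptSum2 (pt : Pt) (Y K : ℝ) (hY : 0 < Y) (M : Finset ℕ) (A h : ℕ → ℕ)
    (G : Finset (ℕ × ℕ)) (S : ℕ → Finset ℕ)
    (hM : ∀ n ∈ M, 0 < n ∧ 0 < A n ∧ 0 < h n)
    (hG : ∀ z ∈ G, z.2 ∈ M ∧ 0 < z.1 ∧ Y ≤ ((z.1.lcm z.2 : ℕ) : ℝ) ∧
      ((z.1.lcm z.2 : ℕ) : ℝ) < 2 * Y ∧ A z.2 ∣ cv z ∧ h z.2 ∣ cu z ∧ cv z / A z.2 ∈ S z.2)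
    (hK0 : 0 ≤ K)
    (hK : ∀ z ∈ G, 3 * Y / (h z.2 * A z.2) * ∑ a ∈ S z.2, (1 : ℝ) / a ≤ K * z.2) :
    ∑ z ∈ G, (cg z : ℝ) ≤ K * ms M := by
  classical
  have h1 : ∑ z ∈ G, (cg z : ℝ) = ∑ z ∈ G.image Prod.swap, (cg z : ℝ) := by
    rw [Finset.sum_image (fun a _ b _ h => Prod.swap_injective h)]
    exact Finset.sum_congr rfl (fun z _ => by rw [cg_swap])
  rw [h1]
  apply ptSum pt Y K hY M A h _ S hM _ hK0
  · intro z hz
    rw [Finset.mem_image] at hz
    obtain ⟨w, hw, rfl⟩ := hz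
    exact hK w hw
  · intro z hz
    rw [Finset.mem_image] at hz
    obtain ⟨w, hw, rfl⟩ := hz
    obtain ⟨h2, h3, h4, h5, h6, h7, h8⟩ := hG w hw
    rw [cu_swap, cv_swap, Prod.fst_swap, Prod.snd_swap, Nat.lcm_comm]
    exact ⟨h2, h3, h4, h5, h6, h7, h8⟩

end Pool.Agent.MP_0863b8.C2

end

section

set_option autoImplicit false

namespace Pool.Agent.MP_0863b8.C2

open Pool.Agent.MP_0863b8 F G

theorem pt : Pt := by
  intro Y n A h E S hY hn hA hh hE
  classical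
  rw [← Finset.sum_fiberwise_of_maps_to (s := E) (t := S) (g := fun m => n / n.gcd m / A)
    (fun m hm => (hE m hm).2.2.2.2.2), Finset.mul_sum]
  refine Finset.sum_le_sum fun a _ => ?_
  set Ea := E.filter (fun m => n / n.gcd m / A = a) with hEa
  have hnR : (0:ℝ) < n := by exact_mod_cast hn
  have hAR : (0:ℝ) < A := by exact_mod_cast hA
  have hhR : (0:ℝ) < h := by exact_mod_cast hh
  rcases Finset.eq_empty_or_nonempty Ea with h0 | hne
  · rw [h0, Finset.sum_empty]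
    positivity
  -- facts for elements of `Ea`
  have hgpos : ∀ m, 0 < n.gcd m := fun m => Nat.gcd_pos_of_pos_left m hn
  have hfact : ∀ m ∈ Ea, n = n.gcd m * (A * a) ∧ m = n.gcd m * (h * (m / n.gcd m / h)) ∧
      Y ≤ (n:ℝ) * (h * (m / n.gcd m / h : ℕ)) ∧ (n:ℝ) * (h * (m / n.gcd m / h : ℕ)) < 2 * Y ∧
      0 < m / n.gcd m / h := by
    intro m hm
    rw [hEa, Finset.mem_filter] at hm
    obtain ⟨hmE, hma⟩ := hm
    obtain ⟨hm0, h1, h2, h3, h4, _⟩ := hE m hmE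
    have e1 : n / n.gcd m = A * a := by
      rw [← hma, Nat.mul_div_cancel' h3]
    have e2 : m / n.gcd m = h * (m / n.gcd m / h) := (Nat.mul_div_cancel' h4).symm
    have e3 : n = n.gcd m * (A * a) := by
      rw [← e1, Nat.mul_div_cancel' (Nat.gcd_dvd_left n m)]
    have e4 : m = n.gcd m * (h * (m / n.gcd m / h)) := by
      rw [← e2, Nat.mul_div_cancel' (Nat.gcd_dvd_right n m)]
    have e5 : n.lcm m = n * (h * (m / n.gcd m / h)) := by
      rw [← e2, Nat.lcm, Nat.mul_div_assoc _ (Nat.gcd_dvd_right n m)]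
    have e5' : ((n.lcm m : ℕ) : ℝ) = (n:ℝ) * (h * (m / n.gcd m / h : ℕ)) := by
      rw [e5]; push_cast; ring
    refine ⟨e3, e4, e5' ▸ h1, e5' ▸ h2, ?_⟩
    rcases Nat.eq_zero_or_pos (m / n.gcd m / h) with h0 | h0
    · rw [h0, Nat.mul_zero, Nat.mul_zero] at e4
      omega
    · exact h0
  have ha : 0 < a := by
    obtain ⟨m, hm⟩ := hne
    have := (hfact m hm).1
    rcases Nat.eq_zero_or_pos a with h0 | h0
    · rw [h0, Nat.mul_zero, Nat.mul_zero] at this; omega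
    · exact h0
  have haR : (0:ℝ) < a := by exact_mod_cast ha
  have hgc : ∀ m ∈ Ea, ((n.gcd m : ℕ) : ℝ) = n / (A * a) := by
    intro m hm
    have h1 : (n:ℝ) = (n.gcd m : ℕ) * (A * a) := by
      have := (hfact m hm).1
      exact_mod_cast this
    rw [eq_div_iff (by positivity)]
    exact h1.symm
  rw [Finset.sum_congr rfl hgc, Finset.sum_const, nsmul_eq_mul]
  -- the cardinality
  set x : ℝ := Y / (n * h) with hx
  have hxpos : 0 < x := by positivity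
  have hcard : ((Ea.card : ℕ) : ℝ) ≤ 3 * x := by
    have hinj : Set.InjOn (fun m => m / n.gcd m / h) (Ea : Set ℕ) := by
      intro m hm m' hm' hmm
      have f1 := hfact m hm
      have f2 := hfact m' hm'
      have hg : n.gcd m = n.gcd m' := by
        have h1 : n.gcd m * (A * a) = n.gcd m' * (A * a) := by rw [← f1.1, ← f2.1]
        exact Nat.eq_of_mul_eq_mul_right (Nat.mul_pos hA ha) h1
      have hmm' : m / n.gcd m / h = m' / n.gcd m' / h := hmm
      rw [f1.2.1, f2.2.1, hmm', hg]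
    have hmaps : ∀ m ∈ Ea, (fun m => m / n.gcd m / h) m ∈ Finset.Ico ⌈x⌉₊ ⌈2 * x⌉₊ := by
      intro m hm
      obtain ⟨_, _, h1, h2, _⟩ := hfact m hm
      rw [Finset.mem_Ico]
      constructor
      · rw [Nat.ceil_le, hx, div_le_iff₀ (by positivity)]
        calc Y ≤ (n:ℝ) * (h * (m / n.gcd m / h : ℕ)) := h1
          _ = _ := by ring
      · rw [Nat.lt_ceil, hx, ← mul_div_assoc, lt_div_iff₀ (by positivity)]
        calc ((m / n.gcd m / h : ℕ) : ℝ) * (n * h) = (n:ℝ) * (h * (m / n.gcd m / h : ℕ)) := by ring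
          _ < _ := h2
    have hc1 : Ea.card ≤ (Finset.Ico ⌈x⌉₊ ⌈2 * x⌉₊).card :=
      Finset.card_le_card_of_injOn _ hmaps hinj
    rw [Nat.card_Ico] at hc1
    have hle : ⌈x⌉₊ ≤ ⌈2 * x⌉₊ := Nat.ceil_mono (by linarith)
    have hc2 : ((Ea.card : ℕ) : ℝ) ≤ (⌈2 * x⌉₊ : ℝ) - ⌈x⌉₊ := by
      rw [← Nat.cast_sub hle]; exact_mod_cast hc1
    have h3 : (⌈2 * x⌉₊ : ℝ) < 2 * x + 1 := Nat.ceil_lt_add_one (by linarith)
    have h4 : x ≤ (⌈x⌉₊ : ℝ) := Nat.le_ceil x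
    have h5 : 1 ≤ 2 * x := by
      obtain ⟨m, hm⟩ := hne
      obtain ⟨_, _, _, h2, h6⟩ := hfact m hm
      have h7 : (1:ℝ) ≤ (m / n.gcd m / h : ℕ) := by exact_mod_cast h6
      have h8 : ((m / n.gcd m / h : ℕ) : ℝ) < 2 * x := by
        rw [hx, ← mul_div_assoc, lt_div_iff₀ (by positivity)]
        calc ((m / n.gcd m / h : ℕ) : ℝ) * (n * h) = (n:ℝ) * (h * (m / n.gcd m / h : ℕ)) := by ring
          _ < _ := h2
      linarith
    linarith
  calc ((Ea.card : ℕ) : ℝ) * (n / (A * a)) ≤ 3 * x * (n / (A * a)) :=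
        mul_le_mul_of_nonneg_right hcard (by positivity)
    _ = 3 * Y / (h * A) * (1 / a) := by
        rw [hx]; field_simp

end Pool.Agent.MP_0863b8.C2

end

section

/-!
MP_0863b8_nt, CASE II (thick extras): Rankin's trick (statement `Rank` of `Defs.lean`).
-/

set_option autoImplicit false

namespace Pool.Agent.MP_0863b8.C2

open Pool.Agent.MP_0863b8 F G

/-- `n ↦ n ^ t` as a monoid homomorphism -/
noncomputable def powHom (t : ℝ) : ℕ →* ℝ where
  toFun n := (n : ℝ) ^ t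
  map_one' := by simp
  map_mul' a b := by
    push_cast
    exact Real.mul_rpow (Nat.cast_nonneg _) (Nat.cast_nonneg _)

lemma powHom_apply (t : ℝ) (n : ℕ) : powHom t n = (n : ℝ) ^ t := rfl

/-- the Rankin sum over smooth numbers is at most the Euler product -/
lemma sum_smooth_le (t : ℝ) (ht : t ≤ -(1 / 2)) (N : ℕ) (S : Finset ℕ)
    (hS : ∀ a ∈ S, a ∈ N.smoothNumbers) :
    ∑ a ∈ S, (a : ℝ) ^ t ≤ ∏ p ∈ N.primesBelow, (1 - (p : ℝ) ^ t)⁻¹ := by
  have hlt : ∀ {p : ℕ}, p.Prime → ‖powHom t p‖ < 1 := by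
    intro p hp
    have hp1 : (1 : ℝ) < p := by exact_mod_cast hp.one_lt
    rw [powHom_apply, Real.norm_eq_abs, abs_of_nonneg (Real.rpow_nonneg (Nat.cast_nonneg _) _)]
    exact Real.rpow_lt_one_of_one_lt_of_neg hp1 (by linarith)
  obtain ⟨-, h2⟩ := EulerProduct.summable_and_hasSum_smoothNumbers_prod_primesBelow_geometric
    hlt N
  have h3 := sum_le_hasSum (S.subtype (fun a => a ∈ N.smoothNumbers))
    (fun (m : N.smoothNumbers) _ => by
      show (0 : ℝ) ≤ powHom t m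
      rw [powHom_apply]
      exact Real.rpow_nonneg (Nat.cast_nonneg _) _) h2
  have h4 : ∑ m ∈ S.subtype (fun a => a ∈ N.smoothNumbers), powHom t m = ∑ a ∈ S, (a : ℝ) ^ t := by
    have := Finset.sum_subtype_of_mem (fun a : ℕ => powHom t a) hS
    simpa [powHom_apply] using this
  rw [← h4]
  simpa [powHom_apply] using h3

lemma inv_one_sub_le (x : ℝ) (h0 : 0 ≤ x) (h1 : x ≤ 3 / 4) : (1 - x)⁻¹ ≤ Real.exp (4 * x) := by
  have h2 : 0 < 1 - x := by linarith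
  rw [inv_le_iff_one_le_mul₀ h2]
  have h3 : 4 * x + 1 ≤ Real.exp (4 * x) := Real.add_one_le_exp _
  nlinarith

lemma rpow_le_three_quarters (t : ℝ) (ht : t ≤ -(1 / 2)) (p : ℕ) (hp : 2 ≤ p) :
    (p : ℝ) ^ t ≤ 3 / 4 := by
  have hp' : (2 : ℝ) ≤ p := by exact_mod_cast hp
  have h1 : (p : ℝ) ^ t ≤ (p : ℝ) ^ (-(1 / 2) : ℝ) :=
    Real.rpow_le_rpow_of_exponent_le (by linarith) ht
  have h2 : (p : ℝ) ^ (-(1 / 2) : ℝ) ≤ 3 / 4 := by
    rw [Real.rpow_neg (by linarith), ← Real.sqrt_eq_rpow]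
    have h3 : (4 / 3 : ℝ) ≤ √(p : ℝ) := by
      apply Real.le_sqrt_of_sq_le
      nlinarith
    calc (√(p : ℝ))⁻¹ ≤ (4 / 3 : ℝ)⁻¹ := by
          apply inv_anti₀ (by norm_num) h3
      _ = 3 / 4 := by norm_num
  linarith

lemma sum_inv_primes_le (N : ℕ) :
    ∑ p ∈ (N + 1).primesBelow, (1 : ℝ) / p ≤ 1 + Real.log N := by
  have h1 : ∑ p ∈ (N + 1).primesBelow, (1 : ℝ) / p ≤ ∑ d ∈ Finset.Icc 1 N, (1 : ℝ) / d := by
    apply Finset.sum_le_sum_of_subset_of_nonneg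
    · intro p hp
      rw [Nat.mem_primesBelow] at hp
      rw [Finset.mem_Icc]
      exact ⟨hp.2.one_lt.le, by omega⟩
    · intro i _ _
      positivity
  have h2 := harmonic_le_one_add_log N
  have h3 : ((harmonic N : ℚ) : ℝ) = ∑ d ∈ Finset.Icc 1 N, (1 : ℝ) / d := by
    rw [harmonic_eq_sum_Icc]
    push_cast
    simp [one_div]
  rw [h3] at h2
  linarith

/-- **RANK** (F4): Rankin's trick. -/
theorem rank : Rank := by
  refine ⟨Real.exp 48, fun A hA S hS => ?_⟩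
  have hA0 : 0 < A := lt_of_lt_of_le (Real.exp_pos _) hA
  set L := Real.log A with hL
  have hL48 : 48 ≤ L := by
    rw [hL, Real.le_log_iff_exp_le hA0]
    exact hA
  set s : ℝ := 1 / (2 * L) with hs
  have hs0 : 0 < s := by positivity
  have hs1 : s ≤ 1 / 2 := by
    rw [hs]
    apply one_div_le_one_div_of_le (by norm_num)
    linarith
  set N := ⌊A ^ 2⌋₊ with hN
  have hsm : ∀ a ∈ S, a ∈ (N + 1).smoothNumbers := by
    intro a ha
    rw [Nat.mem_smoothNumbers']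
    intro p hp hpa
    have := (hS a ha).2 p hp hpa
    have h2 : p ≤ N := by
      rw [hN]
      exact Nat.le_floor this
    omega
  -- the pointwise Rankin bound
  have hpt : ∀ a ∈ S, (1 : ℝ) / a ≤ Real.exp (-(L ^ 2 / 2)) * (a : ℝ) ^ (s - 1) := by
    intro a ha
    have h1 := (hS a ha).1
    have ha0 : (0 : ℝ) < a := lt_trans (Real.exp_pos _) h1
    have hlog : L ^ 3 ≤ Real.log a := by
      rw [Real.le_log_iff_exp_le ha0]
      exact h1.le
    have h2 : Real.exp (L ^ 2 / 2) ≤ (a : ℝ) ^ s := by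
      rw [Real.rpow_def_of_pos ha0]
      apply Real.exp_le_exp.mpr
      have h3 : L ^ 2 / 2 = L ^ 3 * s := by
        rw [hs]
        field_simp
      rw [h3]
      exact mul_le_mul_of_nonneg_right hlog hs0.le
    have h4 : (a : ℝ) ^ (s - 1) = (a : ℝ) ^ s / a := by
      rw [Real.rpow_sub ha0, Real.rpow_one]
    rw [h4, Real.exp_neg]
    rw [← div_eq_inv_mul, div_div, div_le_div_iff₀ ha0 (by positivity)]
    have h5 : Real.exp (L ^ 2 / 2) * a ≤ (a : ℝ) ^ s * a :=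
      mul_le_mul_of_nonneg_right h2 ha0.le
    nlinarith [h5]
  -- the Euler product
  have hprod : ∏ p ∈ (N + 1).primesBelow, (1 - (p : ℝ) ^ (s - 1))⁻¹ ≤
      Real.exp (4 * Real.exp 1 * (1 + 2 * L)) := by
    have h1 : ∏ p ∈ (N + 1).primesBelow, (1 - (p : ℝ) ^ (s - 1))⁻¹ ≤
        ∏ p ∈ (N + 1).primesBelow, Real.exp (4 * Real.exp 1 * (1 / p)) := by
      apply Finset.prod_le_prod
      · intro p hp
        rw [Nat.mem_primesBelow] at hp
        have := rpow_le_three_quarters (s - 1) (by linarith) p hp.2.two_le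
        rw [inv_nonneg]
        linarith
      · intro p hp
        rw [Nat.mem_primesBelow] at hp
        have hp2 : (2 : ℝ) ≤ p := by exact_mod_cast hp.2.two_le
        have hp0 : (0 : ℝ) < p := by linarith
        have h3 := rpow_le_three_quarters (s - 1) (by linarith) p hp.2.two_le
        refine (inv_one_sub_le _ (Real.rpow_nonneg hp0.le _) h3).trans ?_
        apply Real.exp_le_exp.mpr
        have h4 : (p : ℝ) ^ (s - 1) = (p : ℝ) ^ s / p := by
          rw [Real.rpow_sub hp0, Real.rpow_one]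
        have h5 : (p : ℝ) ^ s ≤ Real.exp 1 := by
          rw [Real.rpow_def_of_pos hp0]
          apply Real.exp_le_exp.mpr
          have h6 : (p : ℝ) ≤ A ^ 2 := by
            have h7 : p ≤ N := by omega
            calc (p : ℝ) ≤ N := by exact_mod_cast h7
              _ ≤ A ^ 2 := Nat.floor_le (by positivity)
          have h8 : Real.log p ≤ 2 * L := by
            calc Real.log p ≤ Real.log (A ^ 2) := Real.log_le_log hp0 h6
              _ = 2 * L := by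
                rw [Real.log_pow]
                norm_num
                rfl
          calc Real.log p * s ≤ 2 * L * s := mul_le_mul_of_nonneg_right h8 hs0.le
            _ = 1 := by
              rw [hs]
              field_simp
        rw [h4]
        have h9 : (p : ℝ) ^ s / p ≤ Real.exp 1 / p := by
          apply div_le_div_of_nonneg_right h5 hp0.le
        calc 4 * ((p : ℝ) ^ s / p) ≤ 4 * (Real.exp 1 / p) := by linarith
          _ = 4 * Real.exp 1 * (1 / p) := by ring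
    refine h1.trans ?_
    rw [← Real.exp_sum, ← Finset.mul_sum]
    apply Real.exp_le_exp.mpr
    apply mul_le_mul_of_nonneg_left _ (by positivity)
    refine (sum_inv_primes_le N).trans ?_
    have hN0 : 0 ≤ A ^ 2 := by positivity
    have h2 : Real.log N ≤ 2 * L := by
      rcases Nat.eq_zero_or_pos N with h0 | h0
      · rw [h0]
        simp
        linarith
      · have h0' : (0 : ℝ) < N := by exact_mod_cast h0
        calc Real.log N ≤ Real.log (A ^ 2) := Real.log_le_log h0' (Nat.floor_le hN0)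
          _ = 2 * L := by
            rw [Real.log_pow]
            norm_num
            rfl
    linarith
  calc ∑ a ∈ S, (1 : ℝ) / a ≤ ∑ a ∈ S, Real.exp (-(L ^ 2 / 2)) * (a : ℝ) ^ (s - 1) :=
        Finset.sum_le_sum hpt
    _ = Real.exp (-(L ^ 2 / 2)) * ∑ a ∈ S, (a : ℝ) ^ (s - 1) := by rw [Finset.mul_sum]
    _ ≤ Real.exp (-(L ^ 2 / 2)) * Real.exp (4 * Real.exp 1 * (1 + 2 * L)) := by
        apply mul_le_mul_of_nonneg_left _ (Real.exp_pos _).le
        exact (sum_smooth_le (s - 1) (by linarith) (N + 1) S hsm).trans hprod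
    _ = Real.exp (-(L ^ 2 / 2) + 4 * Real.exp 1 * (1 + 2 * L)) := by rw [Real.exp_add]
    _ ≤ Real.exp (-L) := by
        apply Real.exp_le_exp.mpr
        have he : Real.exp 1 < 2.7182818286 := Real.exp_one_lt_d9
        have h1 : 4 * Real.exp 1 * (1 + 2 * L) ≤ 11 * (1 + 2 * L) := by
          apply mul_le_mul_of_nonneg_right _ (by linarith)
          linarith
        nlinarith
    _ = 1 / A := by
        rw [Real.exp_neg, hL, Real.exp_log hA0, one_div]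

end Pool.Agent.MP_0863b8.C2

end

section

/-!
MP_0863b8_nt, CASE II, F2: the small prime bonus.
-/

set_option autoImplicit false

namespace Pool.Agent.MP_0863b8.C2

open Pool.Agent.MP_0863b8 F G

/-! ### Auxiliary facts -/

private theorem sb_geo_aux (ρ : ℝ) (h0 : 0 ≤ ρ) (h1 : ρ < 1) (s : Finset ℕ) :
    ∑ k ∈ s, ρ ^ k ≤ (1 - ρ)⁻¹ := by
  rw [← tsum_geometric_of_lt_one h0 h1]
  exact (summable_geometric_of_lt_one h0 h1).sum_le_tsum s (fun i _ => by positivity)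

private theorem sb_dist_cast (i j : ℕ) : |(i : ℝ) - j| = ((Nat.dist i j : ℕ) : ℝ) := by
  rcases le_total i j with h | h
  · rw [Nat.dist_eq_sub_of_le h, Nat.cast_sub h, abs_sub_comm, abs_of_nonneg]
    exact sub_nonneg.2 (by exact_mod_cast h)
  · rw [Nat.dist_eq_sub_of_le_right h, Nat.cast_sub h, abs_of_nonneg]
    exact sub_nonneg.2 (by exact_mod_cast h)

/-- sum of `ρ ^ |i - j|` over `j` -/
private theorem sb_geo (ρ : ℝ) (h0 : 0 ≤ ρ) (h1 : ρ < 1) (i N : ℕ) :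
    ∑ j ∈ Finset.range N, ρ ^ Nat.dist i j ≤ 2 * (1 - ρ)⁻¹ := by
  have e1 : ∀ j ∈ Finset.range N, ρ ^ Nat.dist i j ≤
      (if j ≤ i then ρ ^ (i - j) else 0) + (if i < j then ρ ^ (j - i) else 0) := by
    intro j _
    rcases lt_or_ge i j with h | h
    · rw [if_neg (by omega), if_pos h, zero_add, Nat.dist_eq_sub_of_le h.le]
    · rw [if_pos h, if_neg (by omega), add_zero, Nat.dist_eq_sub_of_le_right h]
  refine (Finset.sum_le_sum e1).trans ?_
  rw [Finset.sum_add_distrib, ← Finset.sum_filter, ← Finset.sum_filter, two_mul]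
  refine add_le_add ?_ ?_
  · have hinj : Set.InjOn (fun j => i - j) ((Finset.range N).filter fun j => j ≤ i) := by
      intro a ha b hb hab
      rw [Finset.mem_coe, Finset.mem_filter] at ha hb
      simp only at hab
      omega
    rw [← Finset.sum_image (f := fun k => ρ ^ k) hinj]
    exact sb_geo_aux ρ h0 h1 _
  · have hinj : Set.InjOn (fun j => j - i) ((Finset.range N).filter fun j => i < j) := by
      intro a ha b hb hab
      rw [Finset.mem_coe, Finset.mem_filter] at ha hb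
      simp only at hab
      omega
    rw [← Finset.sum_image (f := fun k => ρ ^ k) hinj]
    exact sb_geo_aux ρ h0 h1 _

private theorem sb_amgm {x y γ : ℝ} (hg : 1/2 < γ) (hx : 0 ≤ x) (hy : 0 ≤ y) (hx1 : x ≤ 1)
    (hy1 : y ≤ 1) : (x * y) ^ γ ≤ (x + y) / 2 := by
  have h1 : (x * y) ^ γ ≤ (x * y) ^ ((1:ℝ)/2) :=
    Real.rpow_le_rpow_of_exponent_ge' (mul_nonneg hx hy) (mul_le_one₀ hx1 hy hy1) (by norm_num)
      hg.le
  refine h1.trans ?_
  rw [← Real.sqrt_eq_rpow]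
  apply Real.sqrt_le_iff.mpr
  constructor
  · positivity
  · nlinarith [sq_nonneg (x - y)]

private theorem sb_rp_mono (u v : ℕ) (h : u ∣ v) (hv : 0 < v) : rp u ≤ rp v := by
  unfold rp
  refine Finset.sum_le_sum_of_subset_of_nonneg ?_ (fun p _ _ => by positivity)
  exact Nat.primeFactors_mono h hv.ne'

private theorem sb_part_pos (l i : ℕ) (V : Finset ℕ) (C1 : ℝ)
    (hV : ∀ v ∈ V, 0 < v ∧ rp v ≤ C1) : ∀ u ∈ part l i V, 0 < u ∧ rp u ≤ C1 := by
  intro u hu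
  unfold part at hu
  rw [Finset.mem_image] at hu
  obtain ⟨v, hv, rfl⟩ := hu
  rw [Finset.mem_filter] at hv
  have hd : l ^ i ∣ v := by
    have := Nat.ordProj_dvd v l
    rwa [hv.2] at this
  have hv0 := (hV v hv.1).1
  have hpos : 0 < v / l ^ i := Nat.div_pos (Nat.le_of_dvd hv0 hd) (Nat.pos_of_dvd_of_pos hd hv0)
  refine ⟨hpos, le_trans ?_ (hV v hv.1).2⟩
  exact sb_rp_mono _ _ (Nat.div_dvd_of_dvd hd) hv0

private theorem sb_expo (l : ℝ) (hl : 0 < l) (γ : ℝ) (i j : ℕ) :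
    l ^ (i + j) * (((l ^ (max i j))⁻¹) ^ (2 * (1 - γ)) *
      ((l ^ i)⁻¹ * (l ^ j)⁻¹) ^ γ) =
    l ^ (-((1 - γ) * |(i:ℝ) - j|)) := by
  have e1 : l ^ (i + j) = l ^ (((i:ℝ) + j)) := by
    rw [← Real.rpow_natCast]; push_cast; rfl
  have e3 : ((l ^ (max i j))⁻¹) ^ (2 * (1 - γ)) =
      l ^ (-(((max i j : ℕ) : ℝ) * (2 * (1 - γ)))) := by
    rw [← Real.rpow_natCast, ← Real.rpow_neg hl.le, ← Real.rpow_mul hl.le]
    congr 1
    ring
  have e4 : ((l ^ i)⁻¹ * (l ^ j)⁻¹) ^ γ = l ^ (-(((i:ℝ) + j) * γ)) := by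
    rw [← mul_inv, ← pow_add, ← Real.rpow_natCast, ← Real.rpow_neg hl.le, ← Real.rpow_mul hl.le]
    congr 1
    push_cast
    ring
  rw [e1, e3, e4, ← Real.rpow_add hl, ← Real.rpow_add hl]
  congr 1
  rcases le_total i j with h | h
  · have h' : (i:ℝ) ≤ j := by exact_mod_cast h
    rw [abs_of_nonpos (by linarith), max_eq_right h]
    ring
  · have h' : (j:ℝ) ≤ i := by exact_mod_cast h
    rw [abs_of_nonneg (by linarith), max_eq_left h]
    ring

private theorem sb_piece (l i j : ℕ) (hl : l.Prime) (γ L D : ℝ) (hL : 0 ≤ L)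
    (V W : Finset ℕ) (hV : 0 < ms V) (hW : 0 < ms W) :
    (l:ℝ) ^ (i + j) * (D * potG γ (L / (l:ℝ) ^ (max i j)) (part l i V) (part l j W)) =
      D * potG γ L V W * ((l:ℝ) ^ (-((1 - γ) * |(i:ℝ) - j|)) *
        (share l i V * share l j W) ^ γ) := by
  have hl0 : (0:ℝ) < l := by exact_mod_cast hl.pos
  rw [← sb_expo (l:ℝ) hl0 γ i j]
  have hx : 0 ≤ share l i V := div_nonneg (StepAux.ms_nonneg _) hV.le
  have hy : 0 ≤ share l j W := div_nonneg (StepAux.ms_nonneg _) hW.le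
  have eV : ms (part l i V) = ms V * share l i V * ((l:ℝ) ^ i)⁻¹ := by
    rw [StepAux.ms_part l i hl V, share]
    field_simp
  have eW : ms (part l j W) = ms W * share l j W * ((l:ℝ) ^ j)⁻¹ := by
    rw [StepAux.ms_part l j hl W, share]
    field_simp
  have e2 : (L / (l:ℝ) ^ (max i j)) ^ (2 * (1 - γ)) =
      L ^ (2 * (1 - γ)) * (((l:ℝ) ^ (max i j))⁻¹) ^ (2 * (1 - γ)) := by
    rw [div_eq_mul_inv]
    exact Real.mul_rpow hL (by positivity)
  have e3 : (ms (part l i V) * ms (part l j W)) ^ γ =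
      (ms V * ms W) ^ γ * (share l i V * share l j W) ^ γ *
        (((l:ℝ) ^ i)⁻¹ * ((l:ℝ) ^ j)⁻¹) ^ γ := by
    rw [← Real.mul_rpow (by positivity) (by positivity), ← Real.mul_rpow (by positivity)
      (by positivity), eV, eW]
    congr 1
    ring
  unfold potG
  rw [e2, e3]
  ring

/-! ### The weight -/

/-- the weight of a pair; `q = log Q` -/
private noncomputable def wg (q : ℝ) (P : Finset ℕ) (t : ℕ × ℕ) : ℝ :=
  ∏ p ∈ P, (p : ℝ) ^ (|(t.1.factorization p : ℝ) - t.2.factorization p| / q)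

private theorem wg_nonneg (q : ℝ) (P : Finset ℕ) (t : ℕ × ℕ) : 0 ≤ wg q P t :=
  Finset.prod_nonneg fun p _ => by positivity

/-- splitting of the weighted sum at a prime -/
private theorem sb_split (q : ℝ) (l : ℕ) (hl : l.Prime) (P : Finset ℕ) (hlP : l ∉ P)
    (V W : Finset ℕ) (L : ℝ) (N : ℕ)
    (hV : ∀ v ∈ V, 0 < v ∧ v.factorization l < N) (hW : ∀ w ∈ W, 0 < w ∧ w.factorization l < N) :
    ∑ t ∈ prs V W L, ((t.1 : ℝ) * t.2) * wg q (insert l P) t ≤
      ∑ i ∈ Finset.range N, ∑ j ∈ Finset.range N, (l:ℝ) ^ (|(i:ℝ) - j| / q) *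
        ((l:ℝ) ^ (i + j) * ∑ t ∈ prs (part l i V) (part l j W) (L / (l:ℝ) ^ (max i j)),
          ((t.1 : ℝ) * t.2) * wg q P t) := by
  classical
  have hl0 : 0 < l := hl.pos
  have hlR : (0:ℝ) < l := by exact_mod_cast hl0
  set S := prs V W L with hS
  have memS : ∀ t, t ∈ S ↔ (t.1 ∈ V ∧ t.2 ∈ W) ∧ L / 2 < ((t.1.lcm t.2 : ℕ) : ℝ) ∧
      ((t.1.lcm t.2 : ℕ) : ℝ) ≤ L := by
    intro t
    rw [hS]
    unfold prs
    rw [Finset.mem_filter, Finset.mem_product]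
  set f : ℕ × ℕ → ℕ × ℕ := fun t => (t.1.factorization l, t.2.factorization l) with hf
  have hmaps : ∀ t ∈ S, f t ∈ (Finset.range N ×ˢ Finset.range N : Finset (ℕ × ℕ)) := by
    intro t ht
    rw [memS] at ht
    rw [Finset.mem_product, Finset.mem_range, Finset.mem_range]
    exact ⟨(hV _ ht.1.1).2, (hW _ ht.1.2).2⟩
  rw [← Finset.sum_fiberwise_of_maps_to hmaps, Finset.sum_product]
  refine Finset.sum_le_sum fun i _ => Finset.sum_le_sum fun j _ => ?_
  -- the map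
  set g : ℕ × ℕ → ℕ × ℕ := fun t => (t.1 / l ^ i, t.2 / l ^ j) with hg
  -- facts about one pair of the fibre
  have key : ∀ t ∈ S.filter (fun t => f t = (i, j)),
      ((t.1 : ℝ) * t.2) * wg q (insert l P) t =
        (l:ℝ) ^ (|(i:ℝ) - j| / q) * (l:ℝ) ^ (i + j) *
          ((((g t).1 : ℝ) * (g t).2) * wg q P (g t)) ∧
      g t ∈ prs (part l i V) (part l j W) (L / (l:ℝ) ^ (max i j)) := by
    intro t ht
    rw [Finset.mem_filter, memS] at ht
    obtain ⟨⟨⟨hv, hw⟩, hL1, hL2⟩, hij⟩ := ht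
    obtain ⟨v, w⟩ := t
    simp only [hf, Prod.mk.injEq] at hij hv hw hL1 hL2
    obtain ⟨hi, hj⟩ := hij
    have hv0 := (hV v hv).1
    have hw0 := (hW w hw).1
    set v' := v / l ^ i with hv'
    set w' := w / l ^ j with hw'
    have ev : v = l ^ i * v' := by
      rw [hv', ← hi, mul_comm]
      exact (Nat.div_mul_cancel (Nat.ordProj_dvd v l)).symm
    have ew : w = l ^ j * w' := by
      rw [hw', ← hj, mul_comm]
      exact (Nat.div_mul_cancel (Nat.ordProj_dvd w l)).symm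
    have hv'l : ¬ l ∣ v' := by
      rw [hv', ← hi]
      exact Nat.not_dvd_ordCompl hl hv0.ne'
    have hw'l : ¬ l ∣ w' := by
      rw [hw', ← hj]
      exact Nat.not_dvd_ordCompl hl hw0.ne'
    have hv'0 : 0 < v' := Nat.pos_of_ne_zero fun h => hv'l (by rw [h]; exact dvd_zero l)
    have hw'0 : 0 < w' := Nat.pos_of_ne_zero fun h => hw'l (by rw [h]; exact dvd_zero l)
    have hgg := gcd_split hl hv'l hw'l i j
    rw [← ev, ← ew] at hgg
    have hlcm : v.lcm w = l ^ (max i j) * v'.lcm w' := by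
      have h1 := Nat.gcd_mul_lcm v w
      have h2 := Nat.gcd_mul_lcm v' w'
      have h3 : 0 < l ^ (min i j) * v'.gcd w' :=
        Nat.mul_pos (pow_pos hl0 _) (Nat.gcd_pos_of_pos_left _ hv'0)
      apply Nat.eq_of_mul_eq_mul_left h3
      rw [← hgg, h1, hgg]
      have h4 : l ^ i * l ^ j = l ^ (min i j) * l ^ (max i j) := by
        rw [← pow_add, ← pow_add]
        congr 1
        omega
      calc v * w = (l ^ i * v') * (l ^ j * w') := by rw [← ev, ← ew]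
        _ = (l ^ i * l ^ j) * (v' * w') := by ring
        _ = (l ^ (min i j) * l ^ (max i j)) * (v'.gcd w' * v'.lcm w') := by rw [h4, h2]
        _ = _ := by ring
    have hpow : (0:ℝ) < (l:ℝ) ^ (max i j) := by positivity
    have hlcmR : ((v.lcm w : ℕ) : ℝ) = (l:ℝ) ^ (max i j) * ((v'.lcm w' : ℕ) : ℝ) := by
      rw [hlcm]; push_cast; ring
    -- the factorizations at the other primes
    have hfac : ∀ p ∈ P, v.factorization p = v'.factorization p ∧
        w.factorization p = w'.factorization p := by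
      intro p hp
      have hpl : p ≠ l := fun h => hlP (h ▸ hp)
      constructor
      · conv_lhs => rw [ev]
        rw [Nat.factorization_mul (pow_pos hl0 i).ne' hv'0.ne', Finsupp.add_apply,
          hl.factorization_pow, Finsupp.single_eq_of_ne hpl, zero_add]
      · conv_lhs => rw [ew]
        rw [Nat.factorization_mul (pow_pos hl0 j).ne' hw'0.ne', Finsupp.add_apply,
          hl.factorization_pow, Finsupp.single_eq_of_ne hpl, zero_add]
    refine ⟨?_, ?_⟩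
    · show ((v:ℝ) * w) * wg q (insert l P) (v, w) = (l:ℝ) ^ (|(i:ℝ) - j| / q) * (l:ℝ) ^ (i + j) *
        (((v':ℝ) * w') * wg q P (v', w'))
      have e1 : (v:ℝ) = (l:ℝ) ^ i * v' := by
        conv_lhs => rw [ev]
        push_cast; ring
      have e2 : (w:ℝ) = (l:ℝ) ^ j * w' := by
        conv_lhs => rw [ew]
        push_cast; ring
      have e3 : wg q (insert l P) (v, w) = (l:ℝ) ^ (|(i:ℝ) - j| / q) * wg q P (v', w') := by
        unfold wg
        rw [Finset.prod_insert hlP]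
        congr 1
        · simp only [hi, hj]
        · refine Finset.prod_congr rfl fun p hp => ?_
          simp only [(hfac p hp).1, (hfac p hp).2]
      rw [e3, e1, e2, pow_add]
      ring
    · show (v', w') ∈ _
      unfold prs
      rw [Finset.mem_filter, Finset.mem_product]
      refine ⟨⟨?_, ?_⟩, ?_, ?_⟩
      · unfold part
        exact Finset.mem_image.2 ⟨v, Finset.mem_filter.2 ⟨hv, hi⟩, rfl⟩
      · unfold part
        exact Finset.mem_image.2 ⟨w, Finset.mem_filter.2 ⟨hw, hj⟩, rfl⟩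
      · show L / (l:ℝ) ^ (max i j) / 2 < ((v'.lcm w' : ℕ) : ℝ)
        rw [hlcmR] at hL1
        rw [div_div, mul_comm, ← div_div, div_lt_iff₀ hpow]
        linarith
      · show ((v'.lcm w' : ℕ) : ℝ) ≤ L / (l:ℝ) ^ (max i j)
        rw [hlcmR] at hL2
        rw [le_div_iff₀ hpow]
        linarith
  have hinj : Set.InjOn g (S.filter (fun t => f t = (i, j)) : Finset (ℕ × ℕ)) := by
    intro t ht t' ht' heq
    rw [Finset.mem_coe, Finset.mem_filter] at ht ht'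
    obtain ⟨v, w⟩ := t
    obtain ⟨v', w'⟩ := t'
    simp only [hf, hg, Prod.mk.injEq] at ht ht' heq ⊢
    obtain ⟨-, h1, h2⟩ := ht
    obtain ⟨-, h1', h2'⟩ := ht'
    have e1 : v = v / l ^ i * l ^ i := by
      rw [← h1]; exact (Nat.div_mul_cancel (Nat.ordProj_dvd v l)).symm
    have e2 : w = w / l ^ j * l ^ j := by
      rw [← h2]; exact (Nat.div_mul_cancel (Nat.ordProj_dvd w l)).symm
    have e1' : v' = v' / l ^ i * l ^ i := by
      rw [← h1']; exact (Nat.div_mul_cancel (Nat.ordProj_dvd v' l)).symm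
    have e2' : w' = w' / l ^ j * l ^ j := by
      rw [← h2']; exact (Nat.div_mul_cancel (Nat.ordProj_dvd w' l)).symm
    exact ⟨by rw [e1, e1', heq.1], by rw [e2, e2', heq.2]⟩
  rw [Finset.sum_congr rfl (fun t ht => (key t ht).1), ← Finset.mul_sum, ← mul_assoc]
  refine mul_le_mul_of_nonneg_left ?_ (by positivity)
  rw [← Finset.sum_image (f := fun t : ℕ × ℕ => ((t.1:ℝ) * t.2) * wg q P t) hinj]
  refine Finset.sum_le_sum_of_subset_of_nonneg ?_
    (fun t _ _ => mul_nonneg (by positivity) (wg_nonneg _ _ _))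
  intro t ht
  obtain ⟨s, hs, rfl⟩ := Finset.mem_image.1 ht
  exact (key s hs).2

/-! ### The node factor -/

/-- the node factor at a prime `l ≤ Q` -/
private theorem sb_node (γ : ℝ) (hγ : 1/2 < γ) (hγ1 : γ ≤ 5/9) : ∃ K : ℝ, 0 < K ∧
    ∀ q : ℝ, 9 ≤ q → ∀ l : ℕ, l.Prime → Real.log l ≤ q → ∀ N : ℕ, 0 < N → ∀ x y : ℕ → ℝ,
    (∀ i, 0 ≤ x i) → (∀ i, 0 ≤ y i) →
    ∑ i ∈ Finset.range N, x i ≤ 1 → ∑ i ∈ Finset.range N, y i ≤ 1 →
    ∑ i ∈ Finset.range N, ∑ j ∈ Finset.range N,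
      (l:ℝ) ^ (|(i:ℝ) - j| / q) * ((l:ℝ) ^ (-((1 - γ) * |(i:ℝ) - j|)) * (x i * y j) ^ γ) ≤
      Real.exp (K / l) := by
  obtain ⟨C, c, hC, hc, hnode⟩ := G.node γ hγ hγ1
  set ρ : ℝ := (2:ℝ) ^ (-(1/3 : ℝ)) with hρ
  have hρ0 : 0 < ρ := by positivity
  have hρ1 : ρ < 1 := Real.rpow_lt_one_of_one_lt_of_neg (by norm_num) (by norm_num)
  set K2 : ℝ := 2 * (1 - ρ)⁻¹ with hK2
  have hK2p : 0 < K2 := by
    have : 0 < 1 - ρ := by linarith
    positivity
  refine ⟨C * Real.exp (9/4) + 2 * K2, by positivity, ?_⟩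
  intro q hq l hl hlq N hN x y hx hy hxs hys
  have hl0 : (0:ℝ) < l := by exact_mod_cast hl.pos
  have hl1 : (1:ℝ) ≤ l := by exact_mod_cast hl.one_lt.le
  have hq0 : 0 < q := by linarith
  have hs : 1 / q ≤ 1 / 9 := one_div_le_one_div_of_le (by norm_num) hq
  have hs0 : 0 < 1 / q := by positivity
  have hγ0 : 0 < 1 - γ := by linarith
  have hx1 : ∀ i ∈ Finset.range N, x i ≤ 1 := fun i hi =>
    (Finset.single_le_sum (fun i _ => hx i) hi).trans hxs
  have hy1 : ∀ i ∈ Finset.range N, y i ≤ 1 := fun i hi =>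
    (Finset.single_le_sum (fun i _ => hy i) hi).trans hys
  by_cases h3 : 3 ≤ l
  · -- the node inequality
    set θ : ℝ := (1 - γ - 1 / q) / (1 - γ) with hθ
    have hθ' : θ = 1 - (1 / q) / (1 - γ) := by rw [hθ]; field_simp
    have hq' : (1 / q) / (1 - γ) ≤ 1 / 4 := by
      rw [div_le_iff₀ hγ0]
      linarith
    have hθ1 : 3 / 4 ≤ θ := by rw [hθ']; linarith
    set l' : ℝ := (l:ℝ) ^ θ with hl'
    have hl3 : (3:ℝ) ≤ l := by exact_mod_cast h3
    have hl'2 : 2 ≤ l' := by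
      have h1 : (3:ℝ) ^ ((3:ℝ)/4) ≤ l' := by
        calc (3:ℝ) ^ ((3:ℝ)/4) ≤ (l:ℝ) ^ ((3:ℝ)/4) :=
              Real.rpow_le_rpow (by norm_num) hl3 (by norm_num)
          _ ≤ _ := Real.rpow_le_rpow_of_exponent_le hl1 hθ1
      refine le_trans ?_ h1
      have h2 : (2:ℝ) = (16:ℝ) ^ ((1:ℝ)/4) := by
        rw [show (16:ℝ) = 2 ^ (4:ℝ) by norm_num, ← Real.rpow_mul (by norm_num)]
        norm_num
      have h4 : (3:ℝ) ^ ((3:ℝ)/4) = (27:ℝ) ^ ((1:ℝ)/4) := by
        rw [show (27:ℝ) = 3 ^ (3:ℝ) by norm_num, ← Real.rpow_mul (by norm_num)]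
        norm_num
      rw [h4]
      conv_lhs => rw [h2]
      exact Real.rpow_le_rpow (by norm_num) (by norm_num) (by norm_num)
    obtain ⟨m, hmN, hm⟩ := hnode l' hl'2 N hN x y hx hy hxs hys
    have e1 : ∀ i j : ℕ, (l:ℝ) ^ (|(i:ℝ) - j| / q) *
        ((l:ℝ) ^ (-((1 - γ) * |(i:ℝ) - j|)) * (x i * y j) ^ γ) =
        l' ^ (-((1 - γ) * |(i:ℝ) - j|)) * (x i * y j) ^ γ := by
      intro i j
      rw [← mul_assoc, ← Real.rpow_add hl0, hl', ← Real.rpow_mul hl0.le]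
      congr 2
      rw [hθ]
      field_simp
      ring
    simp only [e1]
    refine hm.trans ?_
    have h4 : C / l' ≤ (C * Real.exp (9/4)) / l := by
      have h5 : (l:ℝ) ≤ Real.exp (9/4) * l' := by
        have h6 : Real.exp (-(9/4)) * l ≤ l' := by
          rw [hl', hθ', Real.rpow_sub hl0, Real.rpow_one, div_eq_mul_inv, mul_comm]
          refine mul_le_mul_of_nonneg_left ?_ hl0.le
          rw [Real.exp_neg]
          apply inv_anti₀ (by positivity)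
          rw [Real.rpow_def_of_pos hl0]
          apply Real.exp_le_exp.2
          have h7 : Real.log l * (1 / q) ≤ 1 := by
            rw [mul_one_div, div_le_one hq0]
            exact hlq
          have h8 : Real.log l * (1 / q / (1 - γ)) = (Real.log l * (1 / q)) / (1 - γ) := by ring
          rw [h8, div_le_iff₀ hγ0]
          linarith
        calc (l:ℝ) = Real.exp (9/4) * (Real.exp (-(9/4)) * l) := by
              rw [← mul_assoc, ← Real.exp_add]; norm_num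
          _ ≤ _ := mul_le_mul_of_nonneg_left h6 (by positivity)
      rw [div_le_div_iff₀ (by linarith) hl0]
      calc C * l ≤ C * (Real.exp (9/4) * l') := mul_le_mul_of_nonneg_left h5 hC.le
        _ = _ := by ring
    have h5 : 0 ≤ c * ((1 - x m) + (1 - y m)) := by
      have a1 := hx1 m (Finset.mem_range.2 hmN)
      have a2 := hy1 m (Finset.mem_range.2 hmN)
      exact mul_nonneg hc.le (by linarith)
    have h6 : (C * Real.exp (9/4)) / l ≤ (C * Real.exp (9/4) + 2 * K2) / l := by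
      gcongr
      linarith
    have h7 := Real.add_one_le_exp ((C * Real.exp (9/4) + 2 * K2) / l)
    linarith
  · -- the prime `2`
    have hl2 : l = 2 := by
      have := hl.two_le
      omega
    subst hl2
    have e1 : ∀ i ∈ Finset.range N, ∀ j ∈ Finset.range N, ((2:ℕ):ℝ) ^ (|(i:ℝ) - j| / q) *
        (((2:ℕ):ℝ) ^ (-((1 - γ) * |(i:ℝ) - j|)) * (x i * y j) ^ γ) ≤
        ρ ^ Nat.dist i j * (x i / 2) + ρ ^ Nat.dist i j * (y j / 2) := by
      intro i hi j hj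
      rw [← mul_assoc, ← Real.rpow_add hl0]
      have h4 : ((2:ℕ):ℝ) ^ (|(i:ℝ) - j| / q + -((1 - γ) * |(i:ℝ) - j|)) ≤
          ρ ^ Nat.dist i j := by
        rw [hρ, ← Real.rpow_natCast, ← Real.rpow_mul (by norm_num), ← sb_dist_cast]
        push_cast
        apply Real.rpow_le_rpow_of_exponent_le (by norm_num)
        have h5 : |(i:ℝ) - j| / q = |(i:ℝ) - j| * (1 / q) := by ring
        rw [h5]
        have h6 := abs_nonneg ((i:ℝ) - j)
        nlinarith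
      have h5 := sb_amgm hγ (hx i) (hy j) (hx1 i hi) (hy1 j hj)
      calc _ ≤ ρ ^ Nat.dist i j * ((x i + y j) / 2) :=
            mul_le_mul h4 h5 (Real.rpow_nonneg (mul_nonneg (hx i) (hy j)) _) (by positivity)
        _ = _ := by ring
    have e2 : ∑ i ∈ Finset.range N, ∑ j ∈ Finset.range N, ρ ^ Nat.dist i j * (x i / 2) ≤
        K2 / 2 := by
      calc ∑ i ∈ Finset.range N, ∑ j ∈ Finset.range N, ρ ^ Nat.dist i j * (x i / 2)
          = ∑ i ∈ Finset.range N, (∑ j ∈ Finset.range N, ρ ^ Nat.dist i j) * (x i / 2) := by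
            refine Finset.sum_congr rfl fun i _ => ?_
            rw [Finset.sum_mul]
        _ ≤ ∑ i ∈ Finset.range N, K2 * (x i / 2) := by
            refine Finset.sum_le_sum fun i _ => ?_
            exact mul_le_mul_of_nonneg_right (sb_geo ρ hρ0.le hρ1 i N) (by
              have := hx i; positivity)
        _ = K2 / 2 * ∑ i ∈ Finset.range N, x i := by
            rw [Finset.mul_sum]
            refine Finset.sum_congr rfl fun i _ => ?_
            ring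
        _ ≤ K2 / 2 * 1 := mul_le_mul_of_nonneg_left hxs (by positivity)
        _ = K2 / 2 := by ring
    have e3 : ∑ i ∈ Finset.range N, ∑ j ∈ Finset.range N, ρ ^ Nat.dist i j * (y j / 2) ≤
        K2 / 2 := by
      rw [Finset.sum_comm]
      calc ∑ j ∈ Finset.range N, ∑ i ∈ Finset.range N, ρ ^ Nat.dist i j * (y j / 2)
          = ∑ j ∈ Finset.range N, (∑ i ∈ Finset.range N, ρ ^ Nat.dist j i) * (y j / 2) := by
            refine Finset.sum_congr rfl fun j _ => ?_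
            rw [Finset.sum_mul]
            refine Finset.sum_congr rfl fun i _ => ?_
            rw [Nat.dist_comm]
        _ ≤ ∑ j ∈ Finset.range N, K2 * (y j / 2) := by
            refine Finset.sum_le_sum fun j _ => ?_
            exact mul_le_mul_of_nonneg_right (sb_geo ρ hρ0.le hρ1 j N) (by
              have := hy j; positivity)
        _ = K2 / 2 * ∑ j ∈ Finset.range N, y j := by
            rw [Finset.mul_sum]
            refine Finset.sum_congr rfl fun j _ => ?_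
            ring
        _ ≤ K2 / 2 * 1 := mul_le_mul_of_nonneg_left hys (by positivity)
        _ = K2 / 2 := by ring
    have e4 : ∑ i ∈ Finset.range N, ∑ j ∈ Finset.range N, ((2:ℕ):ℝ) ^ (|(i:ℝ) - j| / q) *
        (((2:ℕ):ℝ) ^ (-((1 - γ) * |(i:ℝ) - j|)) * (x i * y j) ^ γ) ≤ K2 := by
      calc _ ≤ ∑ i ∈ Finset.range N, ∑ j ∈ Finset.range N,
            (ρ ^ Nat.dist i j * (x i / 2) + ρ ^ Nat.dist i j * (y j / 2)) :=
            Finset.sum_le_sum fun i hi => Finset.sum_le_sum fun j hj => e1 i hi j hj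
        _ = ∑ i ∈ Finset.range N, ∑ j ∈ Finset.range N, ρ ^ Nat.dist i j * (x i / 2) +
            ∑ i ∈ Finset.range N, ∑ j ∈ Finset.range N, ρ ^ Nat.dist i j * (y j / 2) := by
            rw [← Finset.sum_add_distrib]
            refine Finset.sum_congr rfl fun i _ => ?_
            rw [Finset.sum_add_distrib]
        _ ≤ K2 / 2 + K2 / 2 := add_le_add e2 e3
        _ = K2 := by ring
    refine e4.trans ?_
    have h6 : K2 ≤ (C * Real.exp (9/4) + 2 * K2) / ((2:ℕ):ℝ) := by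
      have : 0 < C * Real.exp (9/4) := by positivity
      rw [le_div_iff₀ (by norm_num)]
      push_cast
      linarith
    have h7 := Real.add_one_le_exp ((C * Real.exp (9/4) + 2 * K2) / ((2:ℕ):ℝ))
    linarith

/-- **F2**, the small prime bonus -/
theorem sb : SB := by
  classical
  intro γ C1 hγ hγ1
  obtain ⟨D, hD, htree⟩ := G.tree (G.step G.node) (G.fin (G.step G.node) G.base) γ C1 hγ hγ1
  obtain ⟨K, hK, hnode⟩ := sb_node γ hγ hγ1
  refine ⟨max D K, lt_max_of_lt_left hD, ?_⟩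
  intro Q hQ P
  have hq : 9 ≤ Real.log Q := by
    rw [Real.le_log_iff_exp_le (lt_of_lt_of_le (Real.exp_pos _) hQ)]
    exact hQ
  set q := Real.log Q with hqdef
  have hQ0 : 0 < Q := lt_of_lt_of_le (Real.exp_pos _) hQ
  have main : (∀ p ∈ P, p.Prime ∧ (p : ℝ) ≤ Q) → ∀ (V W : Finset ℕ) (L : ℝ), 0 ≤ L →
      (∀ v ∈ V, 0 < v ∧ rp v ≤ C1) → (∀ w ∈ W, 0 < w ∧ rp w ≤ C1) →
      ∑ t ∈ prs V W L, ((t.1 : ℝ) * t.2) * wg q P t ≤
        D * Real.exp (∑ p ∈ P, K / p) * potG γ L V W := by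
    induction P using Finset.induction_on with
    | empty =>
      intro _ V W L hL hV hW
      have h1 := htree V W L hL hV hW
      have h2 : ∑ t ∈ prs V W L, ((t.1 : ℝ) * t.2) * wg q ∅ t = en Set.univ V W L Set.univ := by
        unfold en prs wg
        refine Finset.sum_congr ?_ (fun t _ => by simp)
        ext t
        simp
      rw [h2]
      simpa using h1
    | insert l P hl ih =>
      intro hP V W L hL hV hW
      have hlp : l.Prime := (hP l (Finset.mem_insert_self _ _)).1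
      have hlQ : (l:ℝ) ≤ Q := (hP l (Finset.mem_insert_self _ _)).2
      have hl0 : (0 : ℝ) < l := by exact_mod_cast hlp.pos
      have ih' := ih (fun p hp => hP p (Finset.mem_insert_of_mem hp))
      have hγ0 : γ ≠ 0 := by linarith
      have hE : 0 ≤ D * Real.exp (∑ p ∈ insert l P, K / p) := by positivity
      by_cases hVe : V = ∅
      · have h0 := G.fin_potG_nonneg (γ := γ) hL V W
        have h1 : prs V W L = ∅ := by
          subst hVe
          unfold prs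
          simp
        rw [h1, Finset.sum_empty]
        exact mul_nonneg hE h0
      by_cases hWe : W = ∅
      · have h0 := G.fin_potG_nonneg (γ := γ) hL V W
        have h1 : prs V W L = ∅ := by
          subst hWe
          unfold prs
          simp
        rw [h1, Finset.sum_empty]
        exact mul_nonneg hE h0
      have hVn : V.Nonempty := Finset.nonempty_iff_ne_empty.mpr hVe
      have hWn : W.Nonempty := Finset.nonempty_iff_ne_empty.mpr hWe
      have hVc : 0 < ms V := StepAux.ms_pos hVn (fun v hv => (hV v hv).1)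
      have hWc : 0 < ms W := StepAux.ms_pos hWn (fun v hv => (hW v hv).1)
      set N : ℕ := (V ∪ W).sup (fun v => v.factorization l) + 1 with hN
      have hVN : ∀ v ∈ V, 0 < v ∧ v.factorization l < N := by
        intro v hv
        refine ⟨(hV v hv).1, ?_⟩
        have := Finset.le_sup (f := fun v : ℕ => v.factorization l)
          (Finset.mem_union_left W hv)
        omega
      have hWN : ∀ w ∈ W, 0 < w ∧ w.factorization l < N := by
        intro v hv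
        refine ⟨(hW v hv).1, ?_⟩
        have := Finset.le_sup (f := fun v : ℕ => v.factorization l)
          (Finset.mem_union_right V hv)
        omega
      have hlq : Real.log l ≤ q := Real.log_le_log hl0 hlQ
      have hn := hnode q hq l hlp hlq N (by omega)
        (fun i => share l i V) (fun j => share l j W)
        (fun i => div_nonneg (StepAux.ms_nonneg _) hVc.le)
        (fun i => div_nonneg (StepAux.ms_nonneg _) hWc.le)
        (StepAux.sum_share_le l N V hVc) (StepAux.sum_share_le l N W hWc)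
      set E : ℝ := D * Real.exp (∑ p ∈ P, K / p) with hEdef
      have hE0 : 0 ≤ E := by positivity
      have hpot : 0 ≤ potG γ L V W := G.fin_potG_nonneg hL V W
      calc ∑ t ∈ prs V W L, ((t.1 : ℝ) * t.2) * wg q (insert l P) t
          ≤ ∑ i ∈ Finset.range N, ∑ j ∈ Finset.range N, (l:ℝ) ^ (|(i:ℝ) - j| / q) *
            ((l:ℝ) ^ (i + j) * ∑ t ∈ prs (part l i V) (part l j W) (L / (l:ℝ) ^ (max i j)),
              ((t.1 : ℝ) * t.2) * wg q P t) := sb_split q l hlp P hl V W L N hVN hWN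
        _ ≤ ∑ i ∈ Finset.range N, ∑ j ∈ Finset.range N, (E * potG γ L V W) *
            ((l:ℝ) ^ (|(i:ℝ) - j| / q) * ((l:ℝ) ^ (-((1 - γ) * |(i:ℝ) - j|)) *
              (share l i V * share l j W) ^ γ)) := by
            refine Finset.sum_le_sum (fun i _ => Finset.sum_le_sum (fun j _ => ?_))
            have h1 := ih' (part l i V) (part l j W) (L / (l:ℝ) ^ (max i j)) (by positivity)
              (sb_part_pos l i V C1 hV) (sb_part_pos l j W C1 hW)
            have h2 := sb_piece l i j hlp γ L E hL V W hVc hWc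
            calc (l:ℝ) ^ (|(i:ℝ) - j| / q) *
                ((l:ℝ) ^ (i + j) * ∑ t ∈ prs (part l i V) (part l j W) (L / (l:ℝ) ^ (max i j)),
                  ((t.1 : ℝ) * t.2) * wg q P t)
                ≤ (l:ℝ) ^ (|(i:ℝ) - j| / q) * ((l:ℝ) ^ (i + j) *
                  (E * potG γ (L / (l:ℝ) ^ (max i j)) (part l i V) (part l j W))) := by
                  gcongr
              _ = _ := by rw [h2]; ring
        _ = (E * potG γ L V W) * ∑ i ∈ Finset.range N, ∑ j ∈ Finset.range N,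
            ((l:ℝ) ^ (|(i:ℝ) - j| / q) * ((l:ℝ) ^ (-((1 - γ) * |(i:ℝ) - j|)) *
              (share l i V * share l j W) ^ γ)) := by
            rw [Finset.mul_sum]
            refine Finset.sum_congr rfl (fun i _ => ?_)
            rw [Finset.mul_sum]
        _ ≤ (E * potG γ L V W) * Real.exp (K / l) :=
            mul_le_mul_of_nonneg_left hn (mul_nonneg hE0 hpot)
        _ = _ := by
            rw [Finset.sum_insert hl, Real.exp_add, hEdef]
            ring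
  intro hP V W L hL hV hW
  refine (main hP V W L hL hV hW).trans ?_
  refine mul_le_mul_of_nonneg_right ?_ (G.fin_potG_nonneg hL V W)
  have h0 : 0 ≤ ∑ p ∈ P, (1:ℝ) / p := Finset.sum_nonneg fun p _ => by positivity
  have h1 : ∑ p ∈ P, K / (p:ℝ) = K * ∑ p ∈ P, (1:ℝ) / p := by
    rw [Finset.mul_sum]
    refine Finset.sum_congr rfl fun p _ => ?_
    ring
  rw [h1]
  gcongr
  · exact le_max_left _ _
  · exact le_max_right _ _

end Pool.Agent.MP_0863b8.C2

end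

section

/-!
MP_0863b8_nt, CLASSIFICATION (Theorem 4.8 of `PROOF.md`): definitions and statements.

`PairCL`: two levels, one dyadic depth.  `ClassCL`: a whole system.
-/

set_option autoImplicit false

namespace Pool.Agent.MP_0863b8.CL

open Finset
open F (ms)
open C1 (Dp rd)

/-! ### Parameters -/

/-- the exponent `γ` belonging to the label exponent `s` -/
noncomputable def gS (s : ℝ) : ℝ := 1 / 2 + s / 20000

/-- the exponent of the thresholds of the hub theorem -/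
noncomputable def eS (s : ℝ) : ℝ := H.eg (gS s)

/-- the exponent of the cut -/
noncomputable def aS (s : ℝ) : ℝ := 2 / H.cg (gS s)

/-- the cut `Q` -/
noncomputable def qS (s κ : ℝ) : ℕ := ⌈κ ^ (-(aS s))⌉₊

/-- exponent of the bound for the largest prime factor -/
noncomputable def cS (s : ℝ) : ℝ := 2 * (aS s + 1)

/-- the exponent `c0` (thickness) -/
noncomputable def tS (s : ℝ) : ℝ := s / 4000

/-- admissible sets -/
def VV (C1 : ℝ) (P : ℕ) (V : Finset ℕ) : Prop :=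
  ∀ v ∈ V, 0 < v ∧ rp v ≤ C1 ∧ ∀ p ∈ v.primeFactors, p ≤ P

/-! ### Two levels, one depth -/

open Classical in
/-- the aligned pairs of depth `κ` -/
noncomputable def edges (κ X θ : ℝ) (V W : Finset ℕ) : Finset (ℕ × ℕ) :=
  (V ×ˢ W).filter (fun z => Dp κ X z ∧ z.1 ≠ z.2 ∧
    nd ((((rd z).1 : ℝ) - (rd z).2) * θ) ≤ 4 * κ)

/-- the leaf prime: largest prime factor of the hub part (`0` if there is none) -/
noncomputable def lp (e : ℝ) (P : ℕ) (V : Finset ℕ) (m : ℕ) : ℕ :=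
  (H.hb e 0 P V m).primeFactors.sup id

/-- `n` is above `m` at the leaf prime `q > q0` of `m ∈ W` -/
def Rel1 (e : ℝ) (P : ℕ) (W : Finset ℕ) (q0 n m : ℕ) : Prop :=
  q0 < lp e P W m ∧ R.hi (lp e P W m) n = R.hi (lp e P W m) m ∧
    n.factorization (lp e P W m) = m.factorization (lp e P W m) + 1

/-- relevant pairs -/
def RelP (s κ : ℝ) (P : ℕ) (V W : Finset ℕ) (z : ℕ × ℕ) : Prop :=
  Rel1 (eS s) P W (qS s κ) z.1 z.2 ∨ Rel1 (eS s) P V (qS s κ) z.2 z.1

/-- bound for the largest prime factor -/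
def PB (s X r : ℝ) (z : ℕ × ℕ) : Prop :=
  ∀ p : ℕ, p.Prime → p ∣ (rd z).1 * (rd z).2 →
    (p : ℝ) ≤ (min (X / z.1) (r * X / z.2)) ^ (cS s)

/-- a label -/
def LabP (s κ θ : ℝ) (z : ℕ × ℕ) : Prop :=
  ∃ (b : ℕ) (c : ℤ), 0 < b ∧ Int.gcd b c = 1 ∧ (b : ℝ) ≤ κ ^ (-s) ∧
    |θ - c / b| * (max (rd z).1 (rd z).2 : ℕ) ≤ κ ^ (1 - s)

/-- good pairs for the cut `qS s κ` -/
def GoodP (s κ : ℝ) (P : ℕ) (V W : Finset ℕ) (z : ℕ × ℕ) : Prop :=
  H.Good (eS s) (qS s κ) P V W z.1 z.2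

/-- the extras of the first, second coordinate; the hub parts -/
noncomputable def AP (s κ : ℝ) (P : ℕ) (V : Finset ℕ) (n : ℕ) : ℕ := H.ex (eS s) (qS s κ) P V n

noncomputable def hP (s κ : ℝ) (P : ℕ) (V : Finset ℕ) (n : ℕ) : ℕ := H.hb (eS s) (qS s κ) P V n

/-- thick vertices: `A_n h_n > X / n` -/
def Thk (s κ X : ℝ) (P : ℕ) (V : Finset ℕ) (n : ℕ) : Prop :=
  X / n < (AP s κ P V n : ℝ) * hP s κ P V n

/-- N: from the tree bound to masses -/
def NeglCL : Prop :=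
  ∀ (γ κ X r cm a b : ℝ), 1/2 < γ → γ ≤ 1 → 0 < κ → κ ≤ 1 → 0 < X → 1 ≤ r → 0 ≤ cm →
    0 ≤ a → 0 ≤ b → a ≤ κ ^ (-cm) * X → b ≤ κ ^ (-cm) * (r * X) →
    (κ * X) ^ (1 - 2 * γ) * (a * b) ^ γ ≤
      2 * κ ^ (-((2 * γ - 1) * (1 + cm))) * (r * a + b)

open Classical in
/-- P1: the bad pairs -/
def BadCL : Prop :=
  ∀ s C1 : ℝ, 0 < s → s ≤ 1 → ∃ κ0 C : ℝ, 0 < κ0 ∧ κ0 ≤ 1 ∧ 0 < C ∧
    ∀ (κ X : ℝ) (P : ℕ) (V W : Finset ℕ), 0 < κ → κ ≤ κ0 → 0 < X → VV C1 P V → VV C1 P W →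
    ∑ z ∈ (V ×ˢ W).filter (fun z => Dp κ X z ∧ ¬ GoodP s κ P V W z),
      ((z.1.gcd z.2 : ℕ) : ℝ) ≤
    C * κ ^ (2:ℝ) * (κ * X) ^ (1 - 2 * gS s) * (ms V * ms W) ^ (gS s)

/-- P2: sum over the divisors -/
def DivCL : Prop :=
  ∀ C1 : ℝ, ∃ C : ℝ, 0 < C ∧ ∀ n : ℕ, 0 < n → rp n ≤ C1 → ∑ d ∈ n.divisors, (1 : ℝ) / d ≤ C

open Classical in
/-- P3: the good pairs with a thick vertex -/
def ThkCL : Prop :=
  ∀ s C1 : ℝ, 0 < s → s ≤ 1 → ∃ C : ℝ, 0 < C ∧
    ∀ (κ X : ℝ) (P : ℕ) (V W : Finset ℕ), 0 < κ → 0 < X → VV C1 P V → VV C1 P W →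
    ∑ z ∈ (V ×ˢ W).filter (fun z => Dp κ X z ∧ GoodP s κ P V W z ∧
        (Thk s κ X P V z.1 ∨ Thk s κ X P W z.2)), ((z.1.gcd z.2 : ℕ) : ℝ) ≤
    C * κ * (ms V + ms W)

/-- P4: the structure of one good pair without thick vertices -/
def OneCL : Prop :=
  ∀ s : ℝ, 0 < s → s ≤ 1 → ∃ κ0 : ℝ, 0 < κ0 ∧
    ∀ (κ X r : ℝ) (P : ℕ) (V W : Finset ℕ) (z : ℕ × ℕ), 0 < κ → κ ≤ κ0 → 0 < X → 1 ≤ r →
    z.1 ∈ V → z.2 ∈ W → 0 < z.1 → 0 < z.2 → (∀ p ∈ z.1.primeFactors, p ≤ P) →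
    (∀ p ∈ z.2.primeFactors, p ≤ P) → Dp κ X z → GoodP s κ P V W z →
    ¬ Thk s κ X P V z.1 → ¬ Thk s κ X P W z.2 → ¬ RelP s κ P V W z →
    PB s X r z ∧
    ∀ p : ℕ, p.Prime → p ∣ (rd z).1 * (rd z).2 →
      p ≤ max (max (AP s κ P V z.1) (AP s κ P W z.2)) (qS s κ)

open Classical in
/-- P5: aligned, unlabelled pairs with small primes (from `C1.CaseI`) -/
def SmCL : Prop :=
  ∀ s C1 : ℝ, 0 < s → s ≤ 1 → ∃ κ0 C : ℝ, 0 < κ0 ∧ κ0 ≤ 1 ∧ 0 < C ∧
    ∀ (κ X θ : ℝ) (P : ℕ) (V W : Finset ℕ), 0 < κ → κ ≤ κ0 → 0 < X → VV C1 P V → VV C1 P W →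
    ∑ z ∈ (edges κ X θ V W).filter (fun z => ¬ LabP s κ θ z ∧
        ∀ p : ℕ, p.Prime → p ∣ (rd z).1 * (rd z).2 → (p : ℝ) ≤ Real.exp (κ ^ (-(tS s)))),
      ((z.1.gcd z.2 : ℕ) : ℝ) ≤
    C * κ ^ (s / 20) * (κ * X) ^ (1 - 2 * gS s) * (ms V * ms W) ^ (gS s)

open Classical in
/-- P6: aligned, unlabelled good pairs with a large prime, all primes at most the extras (from
`C2.ThmII`) -/
def BgCL : Prop :=
  ∀ s C1 : ℝ, 0 < s → s ≤ 1 → ∃ κ0 c' : ℝ, 0 < κ0 ∧ κ0 ≤ 1 ∧ 0 < c' ∧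
    ∀ (κ X θ r : ℝ) (P : ℕ) (V W : Finset ℕ), 0 < κ → κ ≤ κ0 → 0 < X → 1 ≤ r →
    VV C1 P V → VV C1 P W → ms V ≤ κ ^ (-1 : ℝ) * X → ms W ≤ κ ^ (-1 : ℝ) * (r * X) →
    ∑ z ∈ (edges κ X θ V W).filter (fun z => ¬ LabP s κ θ z ∧ GoodP s κ P V W z ∧
        ¬ (∀ p : ℕ, p.Prime → p ∣ (rd z).1 * (rd z).2 → (p : ℝ) ≤ Real.exp (κ ^ (-(tS s)))) ∧
        ∀ p : ℕ, p.Prime → p ∣ (rd z).1 * (rd z).2 →
          p ≤ max (max (AP s κ P V z.1) (AP s κ P W z.2)) (qS s κ)),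
      ((z.1.gcd z.2 : ℕ) : ℝ) ≤ κ ^ c' * (r * ms V + ms W)

open Classical in
/-- P: two levels, one depth -/
def PairCL : Prop :=
  ∀ s C1 : ℝ, 0 < s → s ≤ 1 → ∃ κ0 c' : ℝ, 0 < κ0 ∧ κ0 ≤ 1 ∧ 0 < c' ∧
    ∀ (κ X θ r : ℝ) (P : ℕ) (V W : Finset ℕ), 0 < κ → κ ≤ κ0 → 0 < X → 1 ≤ r →
    VV C1 P V → VV C1 P W → ms V ≤ κ ^ (-1 : ℝ) * X → ms W ≤ κ ^ (-1 : ℝ) * (r * X) →
    ∑ z ∈ (edges κ X θ V W).filter (fun z => ¬ RelP s κ P V W z ∧ ¬ (LabP s κ θ z ∧ PB s X r z)),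
      ((z.1.gcd z.2 : ℕ) : ℝ) ≤ κ ^ c' * (r * ms V + ms W)

/-! ### Systems -/

/-- radius of the arcs of `n` -/
noncomputable def rad (ρ : ℝ) (lev : ℕ → ℕ) (n : ℕ) : ℝ := ρ / 2 ^ lev n

/-- the half measure of `n` -/
noncomputable def mu (ρ : ℝ) (lev : ℕ → ℕ) (n : ℕ) : ℝ := (n : ℝ) * rad ρ lev n

/-- the depth of a pair -/
noncomputable def dep (ρ : ℝ) (lev : ℕ → ℕ) (z : ℕ × ℕ) : ℝ :=
  ((z.1.lcm z.2 : ℕ) : ℝ) * max (rad ρ lev z.1) (rad ρ lev z.2)

/-- the energy of a pair -/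
noncomputable def ene (ρ : ℝ) (lev : ℕ → ℕ) (z : ℕ × ℕ) : ℝ :=
  ((z.1.gcd z.2 : ℕ) : ℝ) * min (rad ρ lev z.1) (rad ρ lev z.2)

/-- the level ratio -/
noncomputable def rat (lev : ℕ → ℕ) (z : ℕ × ℕ) : ℝ :=
  2 ^ (max (lev z.1) (lev z.2) - min (lev z.1) (lev z.2))

/-- the threshold `κ_M` -/
noncomputable def kM (κ0 a M : ℝ) : ℝ := κ0 * (1 + M) ^ (-a)

/-- explained pairs: `K` = depth -/
def ExplS (s C6 θ ρ : ℝ) (lev : ℕ → ℕ) (z : ℕ × ℕ) : Prop :=
  rat lev z ≤ dep ρ lev z ^ (-s) ∧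
  (∀ p : ℕ, p.Prime → p ∣ (rd z).1 * (rd z).2 →
    (p : ℝ) ≤ (min (1 / mu ρ lev z.1) (1 / mu ρ lev z.2)) ^ C6) ∧
  ∃ (b : ℕ) (c : ℤ), 0 < b ∧ Int.gcd b c = 1 ∧ (b : ℝ) ≤ dep ρ lev z ^ (-s) ∧
    |θ - c / b| * (max (rd z).1 (rd z).2 : ℕ) ≤ dep ρ lev z ^ (1 - s)

open Classical in
/-- Q1: far levels: `E ≤ C κ^(-ε) r^(-(1-γ)) (M M')^γ` for the pairs of depth `κ` -/
def FarCL : Prop :=
  ∀ γ C1 : ℝ, 1/2 < γ → γ ≤ 5/9 → ∃ C : ℝ, 0 < C ∧ ∀ (κ X : ℝ) (V W : Finset ℕ),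
    0 < κ → 0 < X → (∀ v ∈ V, 0 < v ∧ rp v ≤ C1) → (∀ w ∈ W, 0 < w ∧ rp w ≤ C1) →
    ∑ z ∈ (V ×ˢ W).filter (fun z => Dp κ X z), ((z.1.gcd z.2 : ℕ) : ℝ) ≤
      C * (κ * X) ^ (1 - 2 * γ) * (ms V * ms W) ^ γ

open Classical in
/-- Q2: generic pairs of depth in `[κ1, 1]`, whole system -/
def GenCL : Prop :=
  ∀ γ C1 : ℝ, 1/2 < γ → γ ≤ 5/9 → ∃ C : ℝ, 0 < C ∧
    ∀ (S : Finset ℕ) (lev : ℕ → ℕ) (ρ κ1 : ℝ), 0 < ρ → 0 < κ1 → κ1 ≤ 1 →
    (∀ n ∈ S, 0 < n ∧ rp n ≤ C1) →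
    ∑ z ∈ (S ×ˢ S).filter (fun z => κ1 ≤ dep ρ lev z ∧ dep ρ lev z < 1), ene ρ lev z ≤
      C * κ1 ^ (-(2 * (2 * γ - 1))) * (∑ n ∈ S, mu ρ lev n) ^ (2 * γ)


/-- the vertices of level `k` -/
noncomputable def lvl (S : Finset ℕ) (lev : ℕ → ℕ) (k : ℕ) : Finset ℕ :=
  S.filter (fun n => lev n = k)

open Classical in
/-- the relevant primes of a system -/
noncomputable def pS (s : ℝ) (P0 : ℕ) (κM ρ : ℝ) (S : Finset ℕ) (lev : ℕ → ℕ) (m : ℕ) : ℕ :=
  if (lp (eS s) (S.sup id) (lvl S lev (lev m)) m).Prime ∧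
      P0 < lp (eS s) (S.sup id) (lvl S lev (lev m)) m ∧
      (lp (eS s) (S.sup id) (lvl S lev (lev m)) m : ℝ) * mu ρ lev m ≤ κM then
    lp (eS s) (S.sup id) (lvl S lev (lev m)) m
  else 0

open Classical in
/-- the exceptional pairs of levels `k, l` and depth `κ` -/
noncomputable def exc (s C6 θ ρ κ : ℝ) (p : ℕ → ℕ) (S : Finset ℕ) (lev : ℕ → ℕ) (k l : ℕ) :
    Finset (ℕ × ℕ) :=
  (S ×ˢ S).filter (fun z => (lev z.1 = k ∧ lev z.2 = l) ∧ (κ ≤ dep ρ lev z ∧ dep ρ lev z < 2 * κ) ∧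
    z.1 ≠ z.2 ∧ nd ((((rd z).1 : ℝ) - (rd z).2) * θ) ≤ 2 * dep ρ lev z ∧
    ¬ R.Rel p z.1 z.2 ∧ ¬ R.Rel p z.2 z.1 ∧ ¬ ExplS s C6 θ ρ lev z)

/-- Q3: two levels `k ≤ l` of a system, one depth -/
def LevLeCL : Prop :=
  ∀ s C1 : ℝ, 0 < s → s ≤ 1 → ∀ P0 : ℕ, ∃ κ0 c' : ℝ, 0 < κ0 ∧ κ0 ≤ 1 ∧ 0 < c' ∧
    ∀ (κ κM ρ θ : ℝ) (S : Finset ℕ) (lev : ℕ → ℕ) (k l : ℕ), 0 < κ → κ ≤ κ0 → 2 * κ ≤ κM →
    0 < ρ → (∀ n ∈ S, 0 < n ∧ rp n ≤ C1) → ∑ n ∈ S, mu ρ lev n ≤ κ⁻¹ → k ≤ l →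
    ∑ z ∈ exc s (cS (s / 2)) θ ρ κ (pS (s / 2) P0 κM ρ S lev) S lev k l, ene ρ lev z ≤
      κ ^ c' * ((2:ℝ) ^ (l - k)) ^ (-c') *
        (∑ n ∈ lvl S lev k, mu ρ lev n + ∑ n ∈ lvl S lev l, mu ρ lev n)

/-- Q4: symmetry of the exceptional pairs -/
def SymCL : Prop :=
  ∀ (s C6 θ ρ κ : ℝ) (p : ℕ → ℕ) (S : Finset ℕ) (lev : ℕ → ℕ) (k l : ℕ),
    ∑ z ∈ exc s C6 θ ρ κ p S lev k l, ene ρ lev z = ∑ z ∈ exc s C6 θ ρ κ p S lev l k, ene ρ lev z

/-- Q5: summation over the levels -/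
def LevSumCL : Prop :=
  ∀ c : ℝ, 0 < c → ∃ C : ℝ, 0 < C ∧ ∀ (S : Finset ℕ) (lev : ℕ → ℕ) (f : ℕ → ℝ) (N : ℕ),
    (∀ n, 0 ≤ f n) → (∀ n ∈ S, lev n < N) →
    ∑ k ∈ range N, ∑ l ∈ range N, ((2:ℝ) ^ (max k l - min k l)) ^ (-c) *
      (∑ n ∈ lvl S lev k, f n + ∑ n ∈ lvl S lev l, f n) ≤ C * ∑ n ∈ S, f n

open Classical in
/-- **Theorem 4.8**: the classification -/
def ClassCL : Prop :=
  ∀ s C1 : ℝ, 0 < s → s ≤ 1 → ∀ P0 : ℕ, ∃ κ0 C6 a : ℝ, 0 < κ0 ∧ κ0 ≤ 1 ∧ 0 < C6 ∧ 0 < a ∧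
    ∀ κ1 : ℝ, 0 < κ1 → κ1 ≤ κ0 → ∀ (S : Finset ℕ) (lev : ℕ → ℕ) (ρ θ : ℝ), 0 < ρ →
    (∀ n ∈ S, 0 < n ∧ rp n ≤ C1) → ∃ p : ℕ → ℕ,
      (∀ m ∈ S, p m = 0 ∨ ((p m).Prime ∧ P0 < p m ∧
        (p m : ℝ) * mu ρ lev m ≤ kM κ1 a (∑ n ∈ S, mu ρ lev n))) ∧
      ∑ z ∈ (S ×ˢ S).filter (fun z => z.1 ≠ z.2 ∧
          dep ρ lev z < kM κ1 a (∑ n ∈ S, mu ρ lev n) ∧
          nd ((((rd z).1 : ℝ) - (rd z).2) * θ) ≤ 2 * dep ρ lev z ∧
          ¬ R.Rel p z.1 z.2 ∧ ¬ R.Rel p z.2 z.1 ∧ ¬ ExplS s C6 θ ρ lev z), ene ρ lev z ≤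
        ∑ n ∈ S, mu ρ lev n

end Pool.Agent.MP_0863b8.CL

end
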