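import Pool.Agent.Work.MP_0863b8_nt.Bd.B05
import Pool.Agent.Work.MP_0863b8_nt.Bd.B03

/-! Bundle of small proof modules (one section per former module). -/

section

/-!
MP_0863b8_nt, CASE II (thick extras): the sum over the negligible special numbers
(statement `SPS` of `Defs.lean`), from Rankin's trick.
-/

set_option autoImplicit false

namespace Pool.Agent.MP_0863b8.C2

open Pool.Agent.MP_0863b8 F G

lemma sps_asymp : ∀ᶠ x : ℝ in Filter.atTop,
    1 / x + (2 * (Real.log x) ^ 3 + 1) * x ^ (-(1 / 30) : ℝ) ≤ x ^ (-(1 / 31) : ℝ) := by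
  have h1 : ∀ᶠ x : ℝ in Filter.atTop, ‖Real.log x ^ (3 : ℝ)‖ ≤ (1 / 4) * ‖x ^ (1 / 930 : ℝ)‖ :=
    (isLittleO_log_rpow_rpow_atTop (3 : ℝ) (show (0 : ℝ) < 1 / 930 by norm_num)).def
      (show (0 : ℝ) < 1 / 4 by norm_num)
  have h2 : ∀ᶠ x : ℝ in Filter.atTop, 4 ≤ x ^ (1 / 930 : ℝ) :=
    (tendsto_rpow_atTop (show (0 : ℝ) < 1 / 930 by norm_num)).eventually_ge_atTop 4
  filter_upwards [h1, h2, Filter.eventually_ge_atTop (1 : ℝ)] with x hx1 hx2 hx3
  have hx0 : 0 < x := by linarith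
  have e1 : Real.log x ^ (3 : ℝ) = (Real.log x) ^ 3 := by
    exact_mod_cast Real.rpow_natCast (Real.log x) 3
  have e2 : ‖x ^ (1 / 930 : ℝ)‖ = x ^ (1 / 930 : ℝ) := by
    rw [Real.norm_eq_abs, abs_of_nonneg (Real.rpow_nonneg hx0.le _)]
  rw [e1, e2] at hx1
  have hlog : (Real.log x) ^ 3 ≤ 1 / 4 * x ^ (1 / 930 : ℝ) := (le_abs_self _).trans hx1
  have hinv : 1 / x ≤ x ^ (-(1 / 30) : ℝ) := by
    have : 1 / x = x ^ (-1 : ℝ) := by
      rw [Real.rpow_neg hx0.le, Real.rpow_one, one_div]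
    rw [this]
    apply Real.rpow_le_rpow_of_exponent_le hx3
    norm_num
  have hp : 0 ≤ x ^ (-(1 / 30) : ℝ) := Real.rpow_nonneg hx0.le _
  have hmul : x ^ (1 / 930 : ℝ) * x ^ (-(1 / 30) : ℝ) = x ^ (-(1 / 31) : ℝ) := by
    rw [← Real.rpow_add hx0]
    norm_num
  calc 1 / x + (2 * (Real.log x) ^ 3 + 1) * x ^ (-(1 / 30) : ℝ)
      ≤ x ^ (-(1 / 30) : ℝ) + (2 * (Real.log x) ^ 3 + 1) * x ^ (-(1 / 30) : ℝ) := by linarith
    _ = (2 * (Real.log x) ^ 3 + 2) * x ^ (-(1 / 30) : ℝ) := by ring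
    _ ≤ x ^ (1 / 930 : ℝ) * x ^ (-(1 / 30) : ℝ) := by
        apply mul_le_mul_of_nonneg_right _ hp
        linarith
    _ = x ^ (-(1 / 31) : ℝ) := hmul

open Classical in
/-- one sparse scale -/
lemma sum_scale_le (θ κ c4 : ℝ) (i k : ℕ) (S : Finset ℕ)
    (hS : ∀ a ∈ S, 0 < a ∧ Nat.log 2 a = k ∧ Spec θ κ c4 i a ∧ SparseScale θ κ c4 i k) :
    ∑ a ∈ S, (1 : ℝ) / a ≤ ((2 : ℝ) ^ i) ^ (-(1 / 30) : ℝ) := by
  rcases S.eq_empty_or_nonempty with h0 | ⟨a0, ha0⟩
  · rw [h0, Finset.sum_empty]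
    positivity
  · have hsp := (hS a0 ha0).2.2.2
    have hsub : S ⊆ (Finset.Ico (2 ^ k) (2 ^ (k + 1))).filter (fun a => Spec θ κ c4 i a) := by
      intro a ha
      obtain ⟨h1, h2, h3, -⟩ := hS a ha
      rw [Finset.mem_filter, Finset.mem_Ico]
      refine ⟨⟨?_, ?_⟩, h3⟩
      · rw [← h2]
        exact Nat.pow_log_le_self 2 h1.ne'
      · rw [← h2]
        exact Nat.lt_pow_succ_log_self (by norm_num) a
    have hcard : (S.card : ℝ) ≤ ((2 : ℝ) ^ i) ^ (-(1 / 30) : ℝ) * 2 ^ k := by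
      have h4 : (S.card : ℝ) ≤
          (((Finset.Ico (2 ^ k) (2 ^ (k + 1))).filter (fun a => Spec θ κ c4 i a)).card : ℝ) := by
        exact_mod_cast Finset.card_le_card hsub
      exact h4.trans (by unfold SparseScale at hsp; convert hsp)
    have h5 : ∀ a ∈ S, (1 : ℝ) / a ≤ 1 / 2 ^ k := by
      intro a ha
      have h6 := hsub ha
      rw [Finset.mem_filter, Finset.mem_Ico] at h6
      apply one_div_le_one_div_of_le (by positivity)
      exact_mod_cast h6.1.1
    calc ∑ a ∈ S, (1 : ℝ) / a ≤ ∑ a ∈ S, (1 : ℝ) / 2 ^ k := Finset.sum_le_sum h5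
      _ = S.card * (1 / 2 ^ k) := by rw [Finset.sum_const, nsmul_eq_mul]
      _ ≤ (((2 : ℝ) ^ i) ^ (-(1 / 30) : ℝ) * 2 ^ k) * (1 / 2 ^ k) := by
          apply mul_le_mul_of_nonneg_right hcard
          positivity
      _ = ((2 : ℝ) ^ i) ^ (-(1 / 30) : ℝ) := by
          field_simp

open Classical in
/-- **SPS**: the sum over the negligible special numbers. -/
theorem sps (h : Rank) : SPS := by
  obtain ⟨A0, hA0⟩ := h
  have ht : Filter.Tendsto (fun i : ℕ => (2 : ℝ) ^ i) Filter.atTop Filter.atTop :=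
    tendsto_pow_atTop_atTop_of_one_lt (by norm_num)
  have hev := (ht.eventually sps_asymp).and (ht.eventually_ge_atTop A0)
  obtain ⟨i0, hi0⟩ := Filter.eventually_atTop.mp hev
  refine ⟨i0, fun i hi θ κ c4 S hS => ?_⟩
  obtain ⟨has, hA⟩ := hi0 i hi
  set B : ℝ := (2 : ℝ) ^ i with hB
  have hB1 : 1 ≤ B := one_le_pow₀ (by norm_num)
  have hL0 : 0 ≤ Real.log B := Real.log_nonneg hB1
  set S1 := S.filter (fun a : ℕ => Real.exp ((Real.log B) ^ 3) < a) with hS1
  set S2 := S.filter (fun a : ℕ => ¬ Real.exp ((Real.log B) ^ 3) < a) with hS2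
  have hsplit : ∑ a ∈ S, (1 : ℝ) / a = ∑ a ∈ S1, (1 : ℝ) / a + ∑ a ∈ S2, (1 : ℝ) / a :=
    (Finset.sum_filter_add_sum_filter_not S _ _).symm
  have b1 : ∑ a ∈ S1, (1 : ℝ) / a ≤ 1 / B := by
    apply hA0 B hA S1
    intro a ha
    rw [hS1, Finset.mem_filter] at ha
    exact ⟨ha.2, (hS a ha.1).2.2⟩
  set K := ⌊2 * (Real.log B) ^ 3⌋₊ with hK
  have hmaps : ∀ a ∈ S2, Nat.log 2 a ∈ Finset.range (K + 1) := by
    intro a ha
    rw [hS2, Finset.mem_filter] at ha
    obtain ⟨ha1, ha2⟩ := ha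
    have ha0 := (hS a ha1).1
    rw [Finset.mem_range]
    have h1 : Nat.log 2 a ≤ K := by
      rw [hK]
      apply Nat.le_floor
      have h2 : (2 : ℝ) ^ (Nat.log 2 a) ≤ a := by
        exact_mod_cast Nat.pow_log_le_self 2 ha0.ne'
      have h3 : (2 : ℝ) ^ (Nat.log 2 a) ≤ Real.exp ((Real.log B) ^ 3) :=
        h2.trans (not_lt.mp ha2)
      have h4 := Real.log_le_log (by positivity) h3
      rw [Real.log_pow, Real.log_exp] at h4
      have h5 : (1 / 2 : ℝ) ≤ Real.log 2 := by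
        have := Real.log_two_gt_d9
        linarith
      have h6 : (Nat.log 2 a : ℝ) * (1 / 2) ≤ (Nat.log 2 a : ℝ) * Real.log 2 :=
        mul_le_mul_of_nonneg_left h5 (Nat.cast_nonneg _)
      linarith
    omega
  have b2 : ∑ a ∈ S2, (1 : ℝ) / a ≤ (2 * (Real.log B) ^ 3 + 1) * B ^ (-(1 / 30) : ℝ) := by
    rw [← Finset.sum_fiberwise_of_maps_to hmaps]
    have h1 : ∀ k ∈ Finset.range (K + 1),
        ∑ a ∈ S2.filter (fun a => Nat.log 2 a = k), (1 : ℝ) / a ≤ B ^ (-(1 / 30) : ℝ) := by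
      intro k _
      apply sum_scale_le θ κ c4 i k
      intro a ha
      rw [Finset.mem_filter] at ha
      obtain ⟨ha1, ha2⟩ := ha
      rw [hS2, Finset.mem_filter] at ha1
      obtain ⟨ha3, ha4⟩ := ha1
      obtain ⟨h3, ⟨h4, h5⟩, -⟩ := hS a ha3
      refine ⟨h3, ha2, h4, ?_⟩
      rcases h5 with h5 | h5
      · rw [← ha2]
        exact h5
      · exact absurd h5 ha4
    refine (Finset.sum_le_sum h1).trans ?_
    rw [Finset.sum_const, Finset.card_range, nsmul_eq_mul]
    apply mul_le_mul_of_nonneg_right _ (Real.rpow_nonneg (by linarith) _)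
    push_cast
    have := Nat.floor_le (show 0 ≤ 2 * (Real.log B) ^ 3 by positivity)
    linarith
  rw [hsplit]
  linarith

end Pool.Agent.MP_0863b8.C2

end

section

/-!
MP_0863b8_nt, CASE II, Step 3: a dense box makes `a` and `b` special.
-/

set_option autoImplicit false

namespace Pool.Agent.MP_0863b8.C2

open Pool.Agent.MP_0863b8 F G

/-- one side -/
theorem spe_side (κ c4 θ : ℝ) (a b i j : ℕ) (hκ : 0 < κ) (hκ1 : κ ≤ 1 / 160000)
    (h44 : c4 ≤ 1 / 4) (hi : 100 * κ ^ (-c4) ≤ (2 : ℝ) ^ i) (S : Finset (ℕ × ℕ))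
    (hS : ∀ z ∈ S, z.1 ∈ Finset.Ico (2 ^ i) (2 ^ (i + 1)) ∧
      z.2 ∈ Finset.Ico (2 ^ j) (2 ^ (j + 1)) ∧ nd (((a : ℝ) * z.1 - b * z.2) * θ) ≤ 4 * κ)
    (hc : κ ^ c4 * 2 ^ (i + j) ≤ S.card) : Spec θ κ c4 i a := by
  classical
  have hd : 0 < κ ^ c4 := Real.rpow_pos_of_pos hκ _
  obtain ⟨y0, hy0, hy1⟩ : ∃ y ∈ Finset.Ico (2 ^ j) (2 ^ (j + 1)),
      κ ^ c4 * 2 ^ i ≤ ((S.filter (fun z => z.2 = y)).card : ℝ) := by
    by_contra hcon
    push Not at hcon
    have h1 : S.card = ∑ y ∈ Finset.Ico (2 ^ j) (2 ^ (j + 1)),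
        (S.filter (fun z => z.2 = y)).card :=
      Finset.card_eq_sum_card_fiberwise (fun z hz => (hS z hz).2.1)
    have hne : (Finset.Ico (2 ^ j) (2 ^ (j + 1))).Nonempty :=
      Finset.nonempty_Ico.mpr (Nat.pow_lt_pow_right (by norm_num) (Nat.lt_succ_self j))
    have h2 : (S.card : ℝ) < ∑ _y ∈ Finset.Ico (2 ^ j) (2 ^ (j + 1)), κ ^ c4 * 2 ^ i := by
      rw [h1]; push_cast
      exact Finset.sum_lt_sum_of_nonempty hne hcon
    rw [Finset.sum_const, Nat.card_Ico, nsmul_eq_mul] at h2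
    have h3 : ((2 ^ (j + 1) - 2 ^ j : ℕ) : ℝ) = 2 ^ j := by
      have : 2 ^ (j + 1) - 2 ^ j = 2 ^ j := by rw [pow_succ]; omega
      rw [this]; push_cast; ring
    rw [h3] at h2
    have h4 : κ ^ c4 * 2 ^ (i + j) = 2 ^ j * (κ ^ c4 * 2 ^ i) := by rw [pow_add]; ring
    rw [h4] at hc
    linarith
  set F0 := S.filter (fun z => z.2 = y0) with hF0
  set X0 := F0.image Prod.fst with hX0
  have hcard : X0.card = F0.card := by
    apply Finset.card_image_of_injOn
    intro z hz w hw hzw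
    have h1 := (Finset.mem_filter.mp hz).2
    have h2 := (Finset.mem_filter.mp hw).2
    exact Prod.ext hzw (h1.trans h2.symm)
  have hX : ∀ x ∈ X0, x ∈ Finset.Ico (2 ^ i) (2 ^ (i + 1)) ∧
      nd (((a : ℝ) * x - b * y0) * θ) ≤ 4 * κ := by
    intro x hx
    obtain ⟨z, hz, rfl⟩ := Finset.mem_image.mp hx
    obtain ⟨hz1, hz2⟩ := Finset.mem_filter.mp hz
    have := hS z hz1
    rw [← hz2]
    exact ⟨this.1, this.2.2⟩
  have e1 : κ = κ ^ c4 * κ ^ (1 - c4) := by
    rw [← Real.rpow_add hκ]; simp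
  have e2 : κ ^ (1 - c4) ≤ 1 / 400 := by
    have h1 : κ ^ (1 - c4) ≤ κ ^ (1 / 2 : ℝ) :=
      Real.rpow_le_rpow_of_exponent_ge hκ (by linarith) (by linarith)
    have h2 : κ ^ (1 / 2 : ℝ) ≤ 1 / 400 := by
      rw [← Real.sqrt_eq_rpow]
      rw [Real.sqrt_le_left (by norm_num)]
      linarith
    exact h1.trans h2
  obtain ⟨q, hq1, hq2, hq3⟩ := oneDim (κ ^ c4) (4 * κ) ((2 : ℝ) ^ i) ((a : ℝ) * θ)
    ((b : ℝ) * y0 * θ) X0 hd (by positivity)
    (by
      calc 4 * κ = κ ^ c4 * (4 * κ ^ (1 - c4)) := by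
            conv_lhs => rw [e1]
            ring
        _ ≤ κ ^ c4 * (1 / 100) := mul_le_mul_of_nonneg_left (by linarith) hd.le
        _ = κ ^ c4 / 100 := by ring)
    (by
      rw [Real.rpow_neg hκ.le] at hi
      rw [div_eq_mul_inv]; exact hi)
    (by
      intro y hy y' hy'
      have h1 := (Finset.mem_Ico.mp (hX y hy).1).2
      have h2 := (Finset.mem_Ico.mp (hX y' hy').1).1
      have h1' : (y : ℝ) < 2 ^ (i + 1) := by exact_mod_cast h1
      have h2' : (2 : ℝ) ^ i ≤ y' := by exact_mod_cast h2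
      rw [pow_succ] at h1'
      linarith)
    (by
      intro y hy
      have := (hX y hy).2
      have e : (y : ℝ) * (a * θ) - b * y0 * θ = ((a : ℝ) * y - b * y0) * θ := by ring
      rw [e]; exact this)
    (by rw [hcard]; exact hy1)
  refine ⟨q, hq1, ?_, ?_⟩
  · rw [Real.rpow_neg hκ.le, ← div_eq_mul_inv]; exact hq2
  · have e : (q : ℝ) * a * θ = q * (a * θ) := by ring
    rw [e]
    refine hq3.trans (le_of_eq ?_)
    unfold epsI
    have h2 : κ ^ (1 - c4) = κ / κ ^ c4 := by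
      rw [Real.rpow_sub hκ, Real.rpow_one]
    rw [h2]
    field_simp
    norm_num

theorem spe : Spe := by
  classical
  intro c4 c0 h4 h44 h0
  have hT := tendsto_rpow_neg_nhdsGT_zero (y := -c0) (by linarith)
  have hlo := (isLittleO_rpow_exp_pos_mul_atTop (c4 / c0) (b := 1 / 2) (by norm_num)).def
    (c := 1 / 100) (by norm_num)
  have hev := hT.eventually hlo
  obtain ⟨u, hu, hsub⟩ := mem_nhdsGT_iff_exists_Ioc_subset.mp hev
  have hu0 : 0 < u := hu
  refine ⟨min u (1 / 160000), by positivity, ?_⟩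
  intro κ hκ hκ0 θ a b i j hi hj hbox
  have hκu : κ ≤ u := hκ0.trans (min_le_left _ _)
  have hκ1 : κ ≤ 1 / 160000 := hκ0.trans (min_le_right _ _)
  have h1 := hsub ⟨hκ, hκu⟩
  have h2 : 100 * κ ^ (-c4) ≤ Real.exp (κ ^ (-c0) / 2) := by
    have h3 : ‖(κ ^ (-c0)) ^ (c4 / c0)‖ ≤ 1 / 100 * ‖Real.exp (1 / 2 * κ ^ (-c0))‖ := h1
    have h4 : (κ ^ (-c0)) ^ (c4 / c0) = κ ^ (-c4) := by
      rw [← Real.rpow_mul hκ.le]
      congr 1
      field_simp
    rw [h4, Real.norm_of_nonneg (by positivity), Real.norm_of_nonneg (Real.exp_pos _).le] at h3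
    have h5 : 1 / 2 * κ ^ (-c0) = κ ^ (-c0) / 2 := by ring
    rw [h5] at h3
    linarith
  have hS : ∀ z ∈ box2 θ κ a b i j, z.1 ∈ Finset.Ico (2 ^ i) (2 ^ (i + 1)) ∧
      z.2 ∈ Finset.Ico (2 ^ j) (2 ^ (j + 1)) ∧ nd (((a : ℝ) * z.1 - b * z.2) * θ) ≤ 4 * κ := by
    intro z hz
    unfold box2 at hz
    rw [Finset.mem_filter, Finset.mem_product] at hz
    exact ⟨hz.1.1, hz.1.2, hz.2⟩
  refine ⟨spe_side κ c4 θ a b i j hκ hκ1 h44 (h2.trans hi) _ hS hbox, ?_⟩
  refine spe_side κ c4 θ b a j i hκ hκ1 h44 (h2.trans hj)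
    ((box2 θ κ a b i j).image Prod.swap) ?_ ?_
  · intro z hz
    obtain ⟨w, hw, rfl⟩ := Finset.mem_image.mp hz
    obtain ⟨k1, k2, k3⟩ := hS w hw
    refine ⟨k2, k1, ?_⟩
    have e : ((b : ℝ) * (w.swap.1 : ℕ) - a * (w.swap.2 : ℕ)) * θ =
        -(((a : ℝ) * w.1 - b * w.2) * θ) := by
      simp only [Prod.fst_swap, Prod.snd_swap]; ring
    rw [e, nd_neg]
    exact k3
  · rw [Finset.card_image_of_injective _ Prod.swap_injective, add_comm j i]
    exact hbox

end Pool.Agent.MP_0863b8.C2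

end

section

set_option autoImplicit false

namespace Pool.Agent.MP_0863b8.H

open Finset

theorem BadGGH_aux_sum (t : ℝ) (N : ℕ) (x : ℕ → ℝ) (h1 : ∑ a ∈ range N, x a = 1)
    (ht : IsTop t N x 0) : ∑ a ∈ range N, (if a = 0 then 0 else x a) ≤ t := by
  obtain ⟨hN, h2, _⟩ := ht
  unfold TL at h2
  rw [← Finset.range_eq_Ico, h1, mul_one] at h2
  refine le_trans (le_of_eq ?_) h2
  rw [Finset.range_eq_Ico, Finset.sum_eq_sum_Ico_succ_bot hN]
  simp only [if_true, zero_add]
  apply Finset.sum_congr rfl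
  intro a ha
  rw [Finset.mem_Ico] at ha
  rw [if_neg (by omega)]

theorem pr_BadGGH (h : SchurH) : BadGGH := by
  classical
  intro γ hγ1 hγ2
  obtain ⟨C, hC, hS⟩ := h γ hγ1 hγ2
  refine ⟨C, hC, ?_⟩
  intro p hp N x y H K hP
  have hp0 : 0 < p := by linarith
  set t := p ^ (eg γ - 1) with ht
  have ht0 : 0 < t := Real.rpow_pos_of_pos hp0 _
  set x' : ℕ → ℝ := fun a => if a = 0 then 0 else x a with hx'
  set y' : ℕ → ℝ := fun a => if a = 0 then 0 else y a with hy'
  have hx0 : ∀ a, 0 ≤ x' a := by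
    intro a; simp only [hx']; split_ifs; exacts [le_rfl, hP.x0 a]
  have hy0 : ∀ a, 0 ≤ y' a := by
    intro a; simp only [hy']; split_ifs; exacts [le_rfl, hP.y0 a]
  have hsx : ∑ a ∈ range N, x' a ≤ t := BadGGH_aux_sum t N x hP.x1 hP.tx
  have hsy : ∑ a ∈ range N, y' a ≤ t := BadGGH_aux_sum t N y hP.y1 hP.ty
  have hkn : ∀ a b : ℕ, 0 ≤ kn γ p a b := fun a b => (Real.rpow_pos_of_pos hp0 _).le
  have h1 := hS p hp N 0 x' y' (range N ×ˢ range N) hx0 hy0 (by
    intro z hz
    rw [Finset.mem_product, Finset.mem_range, Finset.mem_range] at hz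
    refine ⟨hz.1, hz.2, ?_⟩
    simp)
  have h2 : BS γ p N x y H K 0 0 ≤
      ∑ z ∈ range N ×ˢ range N, kn γ p z.1 z.2 * (x' z.1 * y' z.2) ^ γ := by
    rw [Finset.sum_product]
    unfold BS
    apply Finset.sum_le_sum
    intro a _
    apply Finset.sum_le_sum
    intro b _
    split_ifs with hg
    · exact mul_nonneg (hkn a b) (Real.rpow_nonneg (mul_nonneg (hx0 a) (hy0 b)) _)
    · have ha : a ≠ 0 := by
        intro h0
        exact hg (Or.inr (Or.inl ⟨rfl, Or.inl ⟨h0, Nat.zero_le _⟩⟩))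
      have hb : b ≠ 0 := by
        intro h0
        exact hg (Or.inr (Or.inl ⟨rfl, Or.inr ⟨h0, Nat.zero_le _⟩⟩))
      simp [hx', hy', ha, hb]
  refine h2.trans (h1.trans ?_)
  have h3 : ((∑ a ∈ range N, x' a) * ∑ a ∈ range N, y' a) ^ γ ≤ t ^ (2 * γ) := by
    have h4 : (∑ a ∈ range N, x' a) * ∑ a ∈ range N, y' a ≤ t ^ (2:ℝ) := by
      have : t ^ (2:ℝ) = t * t := by
        rw [Real.rpow_two]; ring
      rw [this]
      exact mul_le_mul hsx hsy (Finset.sum_nonneg (fun a _ => hy0 a)) ht0.le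
    calc ((∑ a ∈ range N, x' a) * ∑ a ∈ range N, y' a) ^ γ ≤ (t ^ (2:ℝ)) ^ γ :=
          Real.rpow_le_rpow (mul_nonneg (Finset.sum_nonneg (fun a _ => hx0 a))
            (Finset.sum_nonneg (fun a _ => hy0 a))) h4 (by linarith)
      _ = t ^ (2 * γ) := by rw [← Real.rpow_mul ht0.le]
  have h5 : p ^ (-((1 - γ) * ((0:ℕ):ℝ))) = 1 := by simp
  rw [h5, mul_one]
  exact mul_le_mul_of_nonneg_left h3 hC.le

end Pool.Agent.MP_0863b8.H

end

section

/-!
MP_0863b8_nt, item BadGenH (canonical hub theorem): general bound for the bad sum.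
-/

set_option autoImplicit false

namespace Pool.Agent.MP_0863b8.H

open Finset

theorem BadGenH_kn0 (γ p : ℝ) (hp : 2 ≤ p) (a b : ℕ) : 0 ≤ kn γ p a b :=
  Real.rpow_nonneg (by linarith) _

/-- the Schur bound for a double sum -/
theorem BadGenH_schur {γ C p : ℝ} (N : ℕ)
    (hS : ∀ (N d : ℕ) (x y : ℕ → ℝ)
    (A : Finset (ℕ × ℕ)), (∀ a, 0 ≤ x a) → (∀ a, 0 ≤ y a) →
    (∀ z ∈ A, z.1 < N ∧ z.2 < N ∧ (d:ℝ) ≤ |(z.1:ℝ) - z.2|) →
    ∑ z ∈ A, kn γ p z.1 z.2 * (x z.1 * y z.2) ^ γ ≤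
      C * p ^ (-((1 - γ) * d)) * ((∑ a ∈ range N, x a) * ∑ a ∈ range N, y a) ^ γ)
    (x y : ℕ → ℝ) (hx : ∀ a, 0 ≤ x a) (hy : ∀ a, 0 ≤ y a) (t : ℝ) (hγ : 0 ≤ γ) (hC : 0 ≤ C)
    (ht : (∑ a ∈ range N, x a) * ∑ a ∈ range N, y a ≤ t) :
    ∑ a ∈ range N, ∑ b ∈ range N, kn γ p a b * (x a * y b) ^ γ ≤ C * t ^ γ := by
  have h := hS N 0 x y (range N ×ˢ range N) hx hy (by
    intro z hz
    rw [mem_product, mem_range, mem_range] at hz
    exact ⟨hz.1, hz.2, by simp⟩)
  rw [Finset.sum_product] at h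
  refine h.trans ?_
  simp only [Nat.cast_zero, mul_zero, neg_zero, Real.rpow_zero, mul_one]
  apply mul_le_mul_of_nonneg_left _ hC
  apply Real.rpow_le_rpow _ ht hγ
  exact mul_nonneg (Finset.sum_nonneg fun a _ => hx a) (Finset.sum_nonneg fun a _ => hy a)

theorem BadGenH_offdiag {γ C p : ℝ} (N : ℕ)
    (hS : ∀ (N d : ℕ) (x y : ℕ → ℝ)
    (A : Finset (ℕ × ℕ)), (∀ a, 0 ≤ x a) → (∀ a, 0 ≤ y a) →
    (∀ z ∈ A, z.1 < N ∧ z.2 < N ∧ (d:ℝ) ≤ |(z.1:ℝ) - z.2|) →
    ∑ z ∈ A, kn γ p z.1 z.2 * (x z.1 * y z.2) ^ γ ≤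
      C * p ^ (-((1 - γ) * d)) * ((∑ a ∈ range N, x a) * ∑ a ∈ range N, y a) ^ γ)
    (x y : ℕ → ℝ) (hx : ∀ a, 0 ≤ x a) (hy : ∀ a, 0 ≤ y a)
    (hx1 : ∑ a ∈ range N, x a = 1) (hy1 : ∑ a ∈ range N, y a = 1) :
    ∑ a ∈ range N, ∑ b ∈ range N, (if a ≠ b then kn γ p a b * (x a * y b) ^ γ else 0) ≤
      C * p ^ (-(1 - γ)) := by
  have h := hS N 1 x y ((range N ×ˢ range N).filter (fun z => z.1 ≠ z.2)) hx hy (by
    intro z hz
    rw [mem_filter, mem_product, mem_range, mem_range] at hz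
    refine ⟨hz.1.1, hz.1.2, ?_⟩
    have h1 : (z.1 : ℤ) - z.2 ≠ 0 := by
      intro h
      apply hz.2
      omega
    have h2 : 1 ≤ |(z.1 : ℤ) - z.2| := Int.one_le_abs h1
    have h3 : ((1 : ℤ) : ℝ) ≤ ((|(z.1 : ℤ) - z.2| : ℤ) : ℝ) := by exact_mod_cast h2
    push_cast at h3 ⊢
    exact h3)
  rw [Finset.sum_filter, Finset.sum_product] at h
  refine h.trans ?_
  rw [hx1, hy1]
  simp

theorem BadGenH_nn (x : ℕ → ℝ) (P : ℕ → Prop) [DecidablePred P] (hx : ∀ a, 0 ≤ x a) (a : ℕ) :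
    0 ≤ (if P a then x a else 0) := by
  split_ifs
  · exact hx a
  · exact le_rfl

open Classical in
/-- general statement: bounded pairs -/
theorem BadGenH_main {γ C p : ℝ} (hγ : 1/2 < γ) (hγ' : γ ≤ 5/9) (hC : 0 < C) (hp : 2 ≤ p)
    (hS : ∀ (N d : ℕ) (x y : ℕ → ℝ)
    (A : Finset (ℕ × ℕ)), (∀ a, 0 ≤ x a) → (∀ a, 0 ≤ y a) →
    (∀ z ∈ A, z.1 < N ∧ z.2 < N ∧ (d:ℝ) ≤ |(z.1:ℝ) - z.2|) →
    ∑ z ∈ A, kn γ p z.1 z.2 * (x z.1 * y z.2) ^ γ ≤
      C * p ^ (-((1 - γ) * d)) * ((∑ a ∈ range N, x a) * ∑ a ∈ range N, y a) ^ γ)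
    (t : ℝ) (ht : 0 ≤ t) (N : ℕ) (x y : ℕ → ℝ) (f g : ℕ) (H K : Prop)
    (hP : Prof t N x y f g) (hH : H → HubR t N x f) (hK : K → HubR t N y g) :
    BS γ p N x y H K f g ≤ 4 * C * (p ^ (-(1 - γ)) + t ^ γ) := by
  obtain ⟨x0, y0, x1, y1, tx, ty⟩ := hP
  have hγ0 : 0 ≤ γ := by linarith
  -- the tail
  have tail : ∀ (x : ℕ → ℝ) (f : ℕ), (∀ a, 0 ≤ x a) → ∑ a ∈ range N, x a = 1 →
      IsTop t N x f → ∑ a ∈ range N, (if f < a then x a else 0) ≤ t := by
    intro x f x0 x1 tx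
    have e1 : ∑ a ∈ range N, (if f < a then x a else 0) = TL N x (f + 1) := by
      unfold TL
      rw [← Finset.sum_filter]
      apply Finset.sum_congr _ fun _ _ => rfl
      ext a
      simp only [mem_filter, mem_range, mem_Ico]
      omega
    rw [e1]
    have e2 : TL N x f ≤ 1 := by
      rw [← x1]
      unfold TL
      apply Finset.sum_le_sum_of_subset_of_nonneg
      · intro a ha
        rw [mem_Ico] at ha
        rw [mem_range]
        exact ha.2
      · intro a _ _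
        exact x0 a
    calc TL N x (f + 1) ≤ t * TL N x f := tx.2.1
      _ ≤ t * 1 := mul_le_mul_of_nonneg_left e2 ht
      _ = t := mul_one t
  -- the head
  have head : ∀ (x : ℕ → ℝ) (f : ℕ) (H : Prop), ∑ a ∈ range N, x a = 1 →
      IsTop t N x f → (H → HubR t N x f) →
      ∑ a ∈ range N, (if H ∧ a < f then x a else 0) ≤ t := by
    intro x f H x1 tx hH
    by_cases h : H
    · have e1 : ∑ a ∈ range N, (if H ∧ a < f then x a else 0) = 1 - TL N x f := by
        have e2 : ∑ a ∈ range N, x a = ∑ a ∈ range f, x a + TL N x f := by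
          unfold TL
          rw [Finset.sum_range_add_sum_Ico _ tx.1.le]
        have e3 : ∑ a ∈ range N, (if H ∧ a < f then x a else 0) = ∑ a ∈ range f, x a := by
          rw [← Finset.sum_filter]
          apply Finset.sum_congr _ fun _ _ => rfl
          ext a
          simp only [mem_filter, mem_range]
          have := tx.1
          constructor
          · rintro ⟨-, -, h⟩
            exact h
          · intro h'
            exact ⟨by omega, h, h'⟩
        rw [e3]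
        linarith
      rw [e1]
      exact (hH h).2
    · have : ∑ a ∈ range N, (if H ∧ a < f then x a else 0) = 0 := by
        apply Finset.sum_eq_zero
        intro a _
        rw [if_neg]
        rintro ⟨h', -⟩
        exact h h'
      rw [this]
      exact ht
  have b1 := BadGenH_offdiag N hS x y x0 y0 x1 y1
  have b2 := BadGenH_schur N hS (fun a => if f < a then x a else 0) y
    (BadGenH_nn x (fun a => f < a) x0) y0 t hγ0 hC.le (by rw [y1, mul_one]; exact tail x f x0 x1 tx)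
  have b3 := BadGenH_schur N hS x (fun a => if g < a then y a else 0)
    x0 (BadGenH_nn y (fun a => g < a) y0) t hγ0 hC.le (by rw [x1, one_mul]; exact tail y g y0 y1 ty)
  have b4 := BadGenH_schur N hS (fun a => if H ∧ a < f then x a else 0) y
    (BadGenH_nn x (fun a => H ∧ a < f) x0) y0 t hγ0 hC.le
    (by rw [y1, mul_one]; exact head x f H x1 tx hH)
  have b5 := BadGenH_schur N hS x (fun a => if K ∧ a < g then y a else 0)
    x0 (BadGenH_nn y (fun a => K ∧ a < g) y0) t hγ0 hC.le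
    (by rw [x1, one_mul]; exact head y g K y1 ty hK)
  have hle : BS γ p N x y H K f g ≤
      ∑ a ∈ range N, ∑ b ∈ range N, ((if a ≠ b then kn γ p a b * (x a * y b) ^ γ else 0) +
        kn γ p a b * ((if f < a then x a else 0) * y b) ^ γ +
        kn γ p a b * (x a * (if g < b then y b else 0)) ^ γ +
        kn γ p a b * ((if H ∧ a < f then x a else 0) * y b) ^ γ +
        kn γ p a b * (x a * (if K ∧ b < g then y b else 0)) ^ γ) := by
    unfold BS
    refine Finset.sum_le_sum fun a _ => Finset.sum_le_sum fun b _ => ?_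
    have hk := BadGenH_kn0 γ p hp a b
    have n1 : 0 ≤ (if a ≠ b then kn γ p a b * (x a * y b) ^ γ else 0) := by
      split_ifs
      · exact mul_nonneg hk (Real.rpow_nonneg (mul_nonneg (x0 a) (y0 b)) _)
      · exact le_rfl
    have n2 : 0 ≤ kn γ p a b * ((if f < a then x a else 0) * y b) ^ γ :=
      mul_nonneg hk (Real.rpow_nonneg (mul_nonneg (BadGenH_nn x (fun a => f < a) x0 a) (y0 b)) _)
    have n3 : 0 ≤ kn γ p a b * (x a * (if g < b then y b else 0)) ^ γ :=
      mul_nonneg hk (Real.rpow_nonneg (mul_nonneg (x0 a) (BadGenH_nn y (fun a => g < a) y0 b)) _)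
    have n4 : 0 ≤ kn γ p a b * ((if H ∧ a < f then x a else 0) * y b) ^ γ :=
      mul_nonneg hk (Real.rpow_nonneg (mul_nonneg (BadGenH_nn x (fun a => H ∧ a < f) x0 a) (y0 b)) _)
    have n5 : 0 ≤ kn γ p a b * (x a * (if K ∧ b < g then y b else 0)) ^ γ :=
      mul_nonneg hk (Real.rpow_nonneg (mul_nonneg (x0 a) (BadGenH_nn y (fun a => K ∧ a < g) y0 b)) _)
    by_cases hg : gv H K f g a b
    · rw [if_pos hg]
      positivity
    · rw [if_neg hg]
      by_cases hab : a ≠ b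
      · rw [if_pos hab] at n1 ⊢
        linarith
      · have hab' : a = b := not_not.mp hab
        by_cases hf : f < a
        · have e : kn γ p a b * ((if f < a then x a else 0) * y b) ^ γ =
              kn γ p a b * (x a * y b) ^ γ := by rw [if_pos hf]
          linarith
        by_cases hg' : g < b
        · have e : kn γ p a b * (x a * (if g < b then y b else 0)) ^ γ =
              kn γ p a b * (x a * y b) ^ γ := by rw [if_pos hg']
          linarith
        by_cases hh : H ∧ a < f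
        · have e : kn γ p a b * ((if H ∧ a < f then x a else 0) * y b) ^ γ =
              kn γ p a b * (x a * y b) ^ γ := by rw [if_pos hh]
          linarith
        by_cases hk' : K ∧ b < g
        · have e : kn γ p a b * (x a * (if K ∧ b < g then y b else 0)) ^ γ =
              kn γ p a b * (x a * y b) ^ γ := by rw [if_pos hk']
          linarith
        exact absurd (Or.inl ⟨hab', not_lt.mp hf, not_lt.mp hg', hh, hk'⟩) hg
  refine hle.trans ?_
  simp only [Finset.sum_add_distrib]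
  have hpp : 0 ≤ p ^ (-(1 - γ)) := Real.rpow_nonneg (by linarith) _
  have htt : 0 ≤ t ^ γ := Real.rpow_nonneg ht _
  have hCp : 0 ≤ C * p ^ (-(1 - γ)) := mul_nonneg hC.le hpp
  calc _ ≤ C * p ^ (-(1 - γ)) + C * t ^ γ + C * t ^ γ + C * t ^ γ + C * t ^ γ := by
        exact add_le_add (add_le_add (add_le_add (add_le_add b1 b2) b3) b4) b5
    _ ≤ 4 * C * (p ^ (-(1 - γ)) + t ^ γ) := by nlinarith

theorem pr_BadGenH (h : SchurH) : BadGenH := by
  intro γ hγ hγ'
  obtain ⟨C, hC, hS⟩ := h γ hγ hγ'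
  refine ⟨4 * C, by positivity, fun p hp N x y f g H K _ hP hH hK => ?_⟩
  exact BadGenH_main hγ hγ' hC hp (hS p hp) _ (Real.rpow_nonneg (by linarith) _) N x y f g H K
    hP hH hK

end Pool.Agent.MP_0863b8.H

end

section

set_option autoImplicit false

namespace Pool.Agent.MP_0863b8.H

open Finset

namespace BadHHH_aux

theorem sum_gt (N f : ℕ) (x : ℕ → ℝ) :
    ∑ a ∈ range N, (if f < a then x a else 0) = TL N x (f + 1) := by
  unfold TL
  rw [← Finset.sum_filter]
  refine Finset.sum_congr ?_ fun _ _ => rfl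
  ext a
  simp only [Finset.mem_filter, Finset.mem_range, Finset.mem_Ico]
  omega

theorem sum_ge (N f : ℕ) (x : ℕ → ℝ) :
    ∑ a ∈ range N, (if f ≤ a then x a else 0) = TL N x f := by
  unfold TL
  rw [← Finset.sum_filter]
  refine Finset.sum_congr ?_ fun _ _ => rfl
  ext a
  simp only [Finset.mem_filter, Finset.mem_range, Finset.mem_Ico]
  omega

theorem sum_lt (N f : ℕ) (x : ℕ → ℝ) :
    ∑ a ∈ range N, (if a < f then x a else 0) = ∑ a ∈ range N, x a - TL N x f := by
  rw [← sum_ge, ← Finset.sum_sub_distrib]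
  refine Finset.sum_congr rfl fun a _ => ?_
  by_cases h : a < f
  · rw [if_pos h, if_neg (by omega), sub_zero]
  · rw [if_neg h, if_pos (by omega), sub_self]

end BadHHH_aux

open BadHHH_aux in
theorem pr_BadHHH (h : SchurH) : BadHHH := by
  classical
  intro γ hγ1 hγ2
  obtain ⟨C, hC, hS⟩ := h γ hγ1 hγ2
  refine ⟨2 * C, by positivity, ?_⟩
  intro p hp N x y f H K hH hK hP hx hy
  have hp0 : (0:ℝ) ≤ p := by linarith
  have hγ0 : (0:ℝ) ≤ γ := by linarith
  set t : ℝ := p ^ (eg γ - 1) with ht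
  have ht0 : 0 ≤ t := Real.rpow_nonneg hp0 _
  have hkn : ∀ a b : ℕ, 0 ≤ kn γ p a b := fun a b => Real.rpow_nonneg hp0 _
  have hT : ∀ a b : ℕ, 0 ≤ kn γ p a b * (x a * y b) ^ γ := fun a b =>
    mul_nonneg (hkn a b) (Real.rpow_nonneg (mul_nonneg (hP.x0 a) (hP.y0 b)) _)
  -- the Schur bound for restricted sums
  have key : ∀ (P Q : ℕ → Prop) [DecidablePred P] [DecidablePred Q] (d : ℕ) (sx sy : ℝ),
      ∑ a ∈ range N, (if P a then x a else 0) ≤ sx →
      ∑ b ∈ range N, (if Q b then y b else 0) ≤ sy →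
      ∑ z ∈ (range N ×ˢ range N).filter
        (fun z => P z.1 ∧ Q z.2 ∧ (d:ℝ) ≤ |(z.1:ℝ) - z.2|),
        kn γ p z.1 z.2 * (x z.1 * y z.2) ^ γ ≤ C * p ^ (-((1 - γ) * d)) * (sx * sy) ^ γ := by
    intro P Q _ _ d sx sy h1 h2
    have h3 := hS p hp N d (fun a => if P a then x a else 0) (fun b => if Q b then y b else 0)
      ((range N ×ˢ range N).filter
        (fun z => P z.1 ∧ Q z.2 ∧ (d:ℝ) ≤ |(z.1:ℝ) - z.2|))
      (fun a => by split_ifs; exacts [hP.x0 a, le_rfl])
      (fun a => by split_ifs; exacts [hP.y0 a, le_rfl])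
      (fun z hz => by
        simp only [Finset.mem_filter, Finset.mem_product, Finset.mem_range] at hz
        exact ⟨hz.1.1, hz.1.2, hz.2.2.2⟩)
    have h4 : ∑ z ∈ (range N ×ˢ range N).filter
        (fun z => P z.1 ∧ Q z.2 ∧ (d:ℝ) ≤ |(z.1:ℝ) - z.2|),
        kn γ p z.1 z.2 * (x z.1 * y z.2) ^ γ =
        ∑ z ∈ (range N ×ˢ range N).filter
        (fun z => P z.1 ∧ Q z.2 ∧ (d:ℝ) ≤ |(z.1:ℝ) - z.2|),
        kn γ p z.1 z.2 * ((if P z.1 then x z.1 else 0) * (if Q z.2 then y z.2 else 0)) ^ γ := by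
      refine Finset.sum_congr rfl fun z hz => ?_
      simp only [Finset.mem_filter] at hz
      rw [if_pos hz.2.1, if_pos hz.2.2.1]
    rw [h4]
    refine h3.trans ?_
    have h5 : 0 ≤ ∑ a ∈ range N, (if P a then x a else 0) :=
      Finset.sum_nonneg fun a _ => by split_ifs; exacts [hP.x0 a, le_rfl]
    have h6 : 0 ≤ ∑ a ∈ range N, (if Q a then y a else 0) :=
      Finset.sum_nonneg fun a _ => by split_ifs; exacts [hP.y0 a, le_rfl]
    refine mul_le_mul_of_nonneg_left ?_ (mul_nonneg hC.le (Real.rpow_nonneg hp0 _))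
    exact Real.rpow_le_rpow (mul_nonneg h5 h6) (mul_le_mul h1 h2 h6 (h5.trans h1)) hγ0
  have hTLx : TL N x f ≤ 1 := by
    have := sum_lt N f x
    rw [hP.x1] at this
    have h5 : 0 ≤ ∑ a ∈ range N, (if a < f then x a else 0) :=
      Finset.sum_nonneg fun a _ => by split_ifs; exacts [hP.x0 a, le_rfl]
    linarith
  have hTLy : TL N y f ≤ 1 := by
    have := sum_lt N f y
    rw [hP.y1] at this
    have h5 : 0 ≤ ∑ a ∈ range N, (if a < f then y a else 0) :=
      Finset.sum_nonneg fun a _ => by split_ifs; exacts [hP.y0 a, le_rfl]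
    linarith
  have gx : ∑ a ∈ range N, (if f < a then x a else 0) ≤ t := by
    rw [sum_gt]
    refine hP.tx.2.1.trans ?_
    calc t * TL N x f ≤ t * 1 := mul_le_mul_of_nonneg_left hTLx ht0
      _ = t := mul_one t
  have gy : ∑ a ∈ range N, (if f < a then y a else 0) ≤ t := by
    rw [sum_gt]
    refine hP.ty.2.1.trans ?_
    calc t * TL N y f ≤ t * 1 := mul_le_mul_of_nonneg_left hTLy ht0
      _ = t := mul_one t
  have lx : ∑ a ∈ range N, (if a < f then x a else 0) ≤ t := by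
    rw [sum_lt, hP.x1]; exact hx.2
  have ly : ∑ a ∈ range N, (if a < f then y a else 0) ≤ t := by
    rw [sum_lt, hP.y1]; exact hy.2
  have ex' : ∑ a ∈ range N, (if f ≤ a then x a else 0) ≤ 1 := by
    rw [sum_ge]; exact hTLx
  have ey' : ∑ a ∈ range N, (if f ≤ a then y a else 0) ≤ 1 := by
    rw [sum_ge]; exact hTLy
  have b1 := key (fun a => f < a) (fun b => f < b) 0 t t gx gy
  have b2 := key (fun a => a < f) (fun b => b < f) 0 t t lx ly
  have b3 := key (fun a => a < f) (fun b => f ≤ b) 2 t 1 lx ey'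
  have b4 := key (fun a => f ≤ a) (fun b => b < f) 2 1 t ex' ly
  have hBS : BS γ p N x y H K f f ≤
      (∑ z ∈ (range N ×ˢ range N).filter
        (fun z => f < z.1 ∧ f < z.2 ∧ ((0:ℕ):ℝ) ≤ |(z.1:ℝ) - z.2|),
        kn γ p z.1 z.2 * (x z.1 * y z.2) ^ γ) +
      (∑ z ∈ (range N ×ˢ range N).filter
        (fun z => z.1 < f ∧ z.2 < f ∧ ((0:ℕ):ℝ) ≤ |(z.1:ℝ) - z.2|),
        kn γ p z.1 z.2 * (x z.1 * y z.2) ^ γ) +
      (∑ z ∈ (range N ×ˢ range N).filter
        (fun z => z.1 < f ∧ f ≤ z.2 ∧ ((2:ℕ):ℝ) ≤ |(z.1:ℝ) - z.2|),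
        kn γ p z.1 z.2 * (x z.1 * y z.2) ^ γ) +
      (∑ z ∈ (range N ×ˢ range N).filter
        (fun z => f ≤ z.1 ∧ z.2 < f ∧ ((2:ℕ):ℝ) ≤ |(z.1:ℝ) - z.2|),
        kn γ p z.1 z.2 * (x z.1 * y z.2) ^ γ) := by
    unfold BS
    rw [← Finset.sum_product', Finset.sum_filter, Finset.sum_filter, Finset.sum_filter,
      Finset.sum_filter, ← Finset.sum_add_distrib, ← Finset.sum_add_distrib,
      ← Finset.sum_add_distrib]
    refine Finset.sum_le_sum fun z _ => ?_
    obtain ⟨a, b⟩ := z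
    dsimp only
    have hTab := hT a b
    have q1 : 0 ≤ (if f < a ∧ f < b ∧ ((0:ℕ):ℝ) ≤ |(a:ℝ) - b| then
      kn γ p a b * (x a * y b) ^ γ else 0) := by split_ifs; exacts [hTab, le_rfl]
    have q2 : 0 ≤ (if a < f ∧ b < f ∧ ((0:ℕ):ℝ) ≤ |(a:ℝ) - b| then
      kn γ p a b * (x a * y b) ^ γ else 0) := by split_ifs; exacts [hTab, le_rfl]
    have q3 : 0 ≤ (if a < f ∧ f ≤ b ∧ ((2:ℕ):ℝ) ≤ |(a:ℝ) - b| then
      kn γ p a b * (x a * y b) ^ γ else 0) := by split_ifs; exacts [hTab, le_rfl]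
    have q4 : 0 ≤ (if f ≤ a ∧ b < f ∧ ((2:ℕ):ℝ) ≤ |(a:ℝ) - b| then
      kn γ p a b * (x a * y b) ^ γ else 0) := by split_ifs; exacts [hTab, le_rfl]
    by_cases hgv : gv H K f f a b
    · rw [if_pos hgv]; linarith
    rw [if_neg hgv]
    -- case distinction
    by_cases ha : a < f
    · by_cases hb : b < f
      · have : a < f ∧ b < f ∧ ((0:ℕ):ℝ) ≤ |(a:ℝ) - b| :=
          ⟨ha, hb, by rw [Nat.cast_zero]; exact abs_nonneg _⟩
        rw [if_pos this] at q2 ⊢
        linarith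
      · have hab : a + 2 ≤ b := by
          by_contra hcon
          apply hgv
          right; right
          exact ⟨hH, hK, rfl, Or.inl ⟨by omega, by omega⟩⟩
        have : a < f ∧ f ≤ b ∧ ((2:ℕ):ℝ) ≤ |(a:ℝ) - b| := by
          refine ⟨ha, by omega, ?_⟩
          have h1 : ((a + 2 : ℕ):ℝ) ≤ (b:ℝ) := by exact_mod_cast hab
          push_cast at h1 ⊢
          rw [abs_sub_comm]
          exact le_trans (by linarith) (le_abs_self _)
        rw [if_pos this] at q3 ⊢
        linarith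
    · by_cases hb : b < f
      · have hab : b + 2 ≤ a := by
          by_contra hcon
          apply hgv
          right; right
          exact ⟨hH, hK, rfl, Or.inr ⟨by omega, by omega⟩⟩
        have : f ≤ a ∧ b < f ∧ ((2:ℕ):ℝ) ≤ |(a:ℝ) - b| := by
          refine ⟨by omega, hb, ?_⟩
          have h1 : ((b + 2 : ℕ):ℝ) ≤ (a:ℝ) := by exact_mod_cast hab
          push_cast at h1 ⊢
          exact le_trans (by linarith) (le_abs_self _)
        rw [if_pos this] at q4 ⊢
        linarith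
      · have hab : f < a ∧ f < b := by
          by_contra hcon
          apply hgv
          right; left
          refine ⟨rfl, ?_⟩
          by_cases h1 : a = f
          · exact Or.inl ⟨h1, by omega⟩
          · exact Or.inr ⟨by omega, by omega⟩
        have : f < a ∧ f < b ∧ ((0:ℕ):ℝ) ≤ |(a:ℝ) - b| :=
          ⟨hab.1, hab.2, by rw [Nat.cast_zero]; exact abs_nonneg _⟩
        rw [if_pos this] at q1 ⊢
        linarith
  have e1 : (p:ℝ) ^ (-((1 - γ) * ((0:ℕ):ℝ))) = 1 := by simp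
  have e2 : (p:ℝ) ^ (-((1 - γ) * ((2:ℕ):ℝ))) = p ^ (-(2 * (1 - γ))) := by
    congr 1; push_cast; ring
  have e3 : (t * t) ^ γ = t ^ (2 * γ) := by
    rw [← pow_two, ← Real.rpow_natCast, ← Real.rpow_mul ht0]
    norm_num
  rw [e1, e3] at b1 b2
  rw [e2, mul_one] at b3
  rw [e2, one_mul] at b4
  linarith

end Pool.Agent.MP_0863b8.H

end

section

/-!
MP_0863b8_nt, item BadSameH (canonical hub theorem): the bad sum when the largest cells agree.
-/

set_option autoImplicit false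

namespace Pool.Agent.MP_0863b8.H

open Finset

/-- the terms -/
noncomputable def BadSameH_T (γ p : ℝ) (u v : ℕ → ℝ) (a b : ℕ) : ℝ :=
  kn γ p a b * (u a * v b) ^ γ

theorem BadSameH_T_nn {γ p : ℝ} (hp : 2 ≤ p) {u v : ℕ → ℝ} (hu : ∀ a, 0 ≤ u a)
    (hv : ∀ a, 0 ≤ v a) (a b : ℕ) : 0 ≤ BadSameH_T γ p u v a b :=
  mul_nonneg (Real.rpow_nonneg (by linarith) _) (Real.rpow_nonneg (mul_nonneg (hu a) (hv b)) _)

theorem BadSameH_O_nn {γ p : ℝ} (hp : 2 ≤ p) {u v : ℕ → ℝ} (hu : ∀ a, 0 ≤ u a)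
    (hv : ∀ a, 0 ≤ v a) (a b : ℕ) : 0 ≤ (if a ≠ b then BadSameH_T γ p u v a b else 0) := by
  split_ifs
  · exact BadSameH_T_nn hp hu hv a b
  · exact le_rfl

/-- the Schur hypothesis for fixed `γ`, `p` -/
def BadSameH_S (γ C p : ℝ) : Prop := ∀ (N d : ℕ) (x y : ℕ → ℝ)
    (A : Finset (ℕ × ℕ)), (∀ a, 0 ≤ x a) → (∀ a, 0 ≤ y a) →
    (∀ z ∈ A, z.1 < N ∧ z.2 < N ∧ (d:ℝ) ≤ |(z.1:ℝ) - z.2|) →
    ∑ z ∈ A, kn γ p z.1 z.2 * (x z.1 * y z.2) ^ γ ≤
      C * p ^ (-((1 - γ) * d)) * ((∑ a ∈ range N, x a) * ∑ a ∈ range N, y a) ^ γ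

theorem BadSameH_all {γ C p : ℝ} (N : ℕ) (hS : BadSameH_S γ C p)
    {u v : ℕ → ℝ} (hu : ∀ a, 0 ≤ u a) (hv : ∀ a, 0 ≤ v a) {s : ℝ} (hγ : 0 ≤ γ) (hC : 0 ≤ C)
    (hs : (∑ a ∈ range N, u a) * ∑ a ∈ range N, v a ≤ s) :
    ∑ a ∈ range N, ∑ b ∈ range N, BadSameH_T γ p u v a b ≤ C * s ^ γ := by
  have h := hS N 0 u v (range N ×ˢ range N) hu hv (by
    intro z hz
    rw [mem_product, mem_range, mem_range] at hz
    exact ⟨hz.1, hz.2, by simp⟩)
  rw [Finset.sum_product] at h
  refine h.trans ?_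
  simp only [Nat.cast_zero, mul_zero, neg_zero, Real.rpow_zero, mul_one]
  apply mul_le_mul_of_nonneg_left _ hC
  apply Real.rpow_le_rpow _ hs hγ
  exact mul_nonneg (Finset.sum_nonneg fun a _ => hu a) (Finset.sum_nonneg fun a _ => hv a)

theorem BadSameH_off {γ C p : ℝ} (hp : 2 ≤ p) (N : ℕ) (hS : BadSameH_S γ C p)
    {u v : ℕ → ℝ} (hu : ∀ a, 0 ≤ u a) (hv : ∀ a, 0 ≤ v a) {s : ℝ} (hγ : 0 ≤ γ) (hC : 0 ≤ C)
    (hs : (∑ a ∈ range N, u a) * ∑ a ∈ range N, v a ≤ s) :
    ∑ a ∈ range N, ∑ b ∈ range N, (if a ≠ b then BadSameH_T γ p u v a b else 0) ≤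
      C * p ^ (-(1 - γ)) * s ^ γ := by
  have h := hS N 1 u v ((range N ×ˢ range N).filter (fun z => z.1 ≠ z.2)) hu hv (by
    intro z hz
    rw [mem_filter, mem_product, mem_range, mem_range] at hz
    refine ⟨hz.1.1, hz.1.2, ?_⟩
    have h1 : (z.1 : ℤ) - z.2 ≠ 0 := by
      intro h
      apply hz.2
      omega
    have h2 : 1 ≤ |(z.1 : ℤ) - z.2| := Int.one_le_abs h1
    have h3 : ((1 : ℤ) : ℝ) ≤ ((|(z.1 : ℤ) - z.2| : ℤ) : ℝ) := by exact_mod_cast h2
    push_cast at h3 ⊢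
    exact h3)
  rw [Finset.sum_filter, Finset.sum_product] at h
  refine h.trans ?_
  simp only [Nat.cast_one, mul_one]
  apply mul_le_mul_of_nonneg_left _ (mul_nonneg hC (Real.rpow_nonneg (by linarith) _))
  apply Real.rpow_le_rpow _ hs hγ
  exact mul_nonneg (Finset.sum_nonneg fun a _ => hu a) (Finset.sum_nonneg fun a _ => hv a)

open Classical in
/-- restriction of a sequence -/
noncomputable def BadSameH_r (x : ℕ → ℝ) (P : ℕ → Prop) (a : ℕ) : ℝ := if P a then x a else 0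

theorem BadSameH_r_nn {x : ℕ → ℝ} (P : ℕ → Prop) (hx : ∀ a, 0 ≤ x a) (a : ℕ) :
    0 ≤ BadSameH_r x P a := by
  unfold BadSameH_r
  split_ifs
  · exact hx a
  · exact le_rfl

theorem BadSameH_r_pos {x : ℕ → ℝ} {P : ℕ → Prop} {a : ℕ} (h : P a) : BadSameH_r x P a = x a := by
  unfold BadSameH_r
  rw [if_pos h]

theorem BadSameH_r_sum (x : ℕ → ℝ) (P : ℕ → Prop) [DecidablePred P] (s : Finset ℕ) :
    ∑ a ∈ s, BadSameH_r x P a = ∑ a ∈ s.filter P, x a := by
  rw [Finset.sum_filter]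
  refine Finset.sum_congr rfl fun a _ => ?_
  unfold BadSameH_r
  by_cases h : P a
  · rw [if_pos h, if_pos h]
  · rw [if_neg h, if_neg h]

/-- facts about one sequence -/
theorem BadSameH_seq {t : ℝ} (ht : 0 ≤ t) (ht4 : t ≤ 1/4) {N : ℕ} {x : ℕ → ℝ} {f i : ℕ}
    (x0 : ∀ a, 0 ≤ x a) (x1 : ∑ a ∈ range N, x a = 1) (tx : IsTop t N x f) (H : Prop)
    (hH : H → HubR t N x f) (hi : i ≤ f) :
    0 ≤ 1 - cs N x f i ∧
    ∑ a ∈ range N, BadSameH_r x (fun a => min a f ≠ i) a = 1 - cs N x f i ∧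
    ∑ a ∈ range N, BadSameH_r x (fun a => f < a) a ≤ t ∧
    ∑ a ∈ range N, BadSameH_r x (fun a => H ∧ a < f) a ≤ t ∧
    ∑ a ∈ range N, BadSameH_r x (fun a => i < f ∧ H ∧ a < f) a ≤ t * (4/3 * (1 - cs N x f i)) := by
  classical
  have hfN := tx.1
  have hsplit : ∑ a ∈ range f, x a + TL N x f = 1 := by
    unfold TL
    rw [Finset.sum_range_add_sum_Ico x hfN.le, x1]
  have hTL0 : 0 ≤ TL N x f := Finset.sum_nonneg fun a _ => x0 a
  have hhead0 : 0 ≤ ∑ a ∈ range f, x a := Finset.sum_nonneg fun a _ => x0 a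
  have hcell : ∑ a ∈ range N, BadSameH_r x (fun a => min a f = i) a = cs N x f i := by
    rw [BadSameH_r_sum]
    unfold cs
    by_cases h1 : i < f
    · rw [if_pos h1]
      have h2 : (range N).filter (fun a => min a f = i) = {i} := by
        ext a
        rw [mem_filter, mem_range, mem_singleton]
        constructor
        · rintro ⟨-, h⟩
          omega
        · rintro rfl
          omega
      rw [h2, Finset.sum_singleton]
    · have h3 : i = f := by omega
      rw [if_neg h1, if_pos h3]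
      unfold TL
      apply Finset.sum_congr _ fun _ _ => rfl
      ext a
      rw [mem_filter, mem_range, mem_Ico]
      omega
  have hcompl : ∑ a ∈ range N, BadSameH_r x (fun a => min a f ≠ i) a +
      ∑ a ∈ range N, BadSameH_r x (fun a => min a f = i) a = 1 := by
    rw [← Finset.sum_add_distrib, ← x1]
    refine Finset.sum_congr rfl fun a _ => ?_
    unfold BadSameH_r
    by_cases h : min a f = i
    · rw [if_neg (not_not.mpr h), if_pos h, zero_add]
    · rw [if_pos h, if_neg h, add_zero]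
  have hz : 0 ≤ 1 - cs N x f i := by
    rw [← hcell]
    have : 0 ≤ ∑ a ∈ range N, BadSameH_r x (fun a => min a f ≠ i) a :=
      Finset.sum_nonneg fun a _ => BadSameH_r_nn _ x0 a
    linarith
  have hhead : ∑ a ∈ range N, BadSameH_r x (fun a => a < f) a = 1 - TL N x f := by
    have h1 : ∑ a ∈ range N, BadSameH_r x (fun a => a < f) a = ∑ a ∈ range f, x a := by
      rw [BadSameH_r_sum]
      apply Finset.sum_congr _ fun _ _ => rfl
      ext a
      rw [mem_filter, mem_range, mem_range]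
      omega
    rw [h1]
    linarith
  refine ⟨hz, ?_, ?_, ?_, ?_⟩
  · rw [← hcell]
    linarith
  · have e1 : ∑ a ∈ range N, BadSameH_r x (fun a => f < a) a = TL N x (f + 1) := by
      rw [BadSameH_r_sum]
      unfold TL
      apply Finset.sum_congr _ fun _ _ => rfl
      ext a
      simp only [mem_filter, mem_range, mem_Ico]
      omega
    rw [e1]
    have e2 : TL N x f ≤ 1 := by linarith
    calc TL N x (f + 1) ≤ t * TL N x f := tx.2.1
      _ ≤ t * 1 := mul_le_mul_of_nonneg_left e2 ht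
      _ = t := mul_one t
  · by_cases h : H
    · have h1 : ∀ a, BadSameH_r x (fun a => H ∧ a < f) a = BadSameH_r x (fun a => a < f) a := by
        intro a
        unfold BadSameH_r
        simp [h]
      rw [Finset.sum_congr rfl fun a _ => h1 a, hhead]
      exact (hH h).2
    · have h1 : ∀ a, BadSameH_r x (fun a => H ∧ a < f) a = 0 := by
        intro a
        unfold BadSameH_r
        simp [h]
      rw [Finset.sum_congr rfl fun a _ => h1 a, Finset.sum_const_zero]
      exact ht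
  · by_cases h : i < f ∧ H
    · have h1 : ∀ a, BadSameH_r x (fun a => i < f ∧ H ∧ a < f) a =
          BadSameH_r x (fun a => a < f) a := by
        intro a
        unfold BadSameH_r
        simp [h.1, h.2]
      rw [Finset.sum_congr rfl fun a _ => h1 a, hhead]
      have h2 : 1 - TL N x f ≤ t := (hH h.2).2
      have h3 : cs N x f i = x i := by
        unfold cs
        rw [if_pos h.1]
      have h4 : x i ≤ ∑ a ∈ range f, x a :=
        Finset.single_le_sum (fun a _ => x0 a) (Finset.mem_range.2 h.1)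
      have h5 : 3/4 ≤ 1 - cs N x f i := by
        rw [h3]
        linarith
      calc 1 - TL N x f ≤ t := h2
        _ = t * 1 := (mul_one t).symm
        _ ≤ t * (4/3 * (1 - cs N x f i)) := by
          apply mul_le_mul_of_nonneg_left _ ht
          linarith
    · have h1 : ∀ a, BadSameH_r x (fun a => i < f ∧ H ∧ a < f) a = 0 := by
        intro a
        unfold BadSameH_r
        rw [if_neg]
        rintro ⟨h2, h3, -⟩
        exact h ⟨h2, h3⟩
      rw [Finset.sum_congr rfl fun a _ => h1 a, Finset.sum_const_zero]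
      exact mul_nonneg ht (mul_nonneg (by norm_num) hz)

theorem BadSameH_point {γ p : ℝ} (hp : 2 ≤ p) {x y : ℕ → ℝ} (x0 : ∀ a, 0 ≤ x a)
    (y0 : ∀ a, 0 ≤ y a) (f g i : ℕ) (H K : Prop) (hi : i ≤ f) (hj : i ≤ g) (a b : ℕ)
    (hbad : ¬ gv H K f g a b) :
    kn γ p a b * (x a * y b) ^ γ ≤
      (if a ≠ b then BadSameH_T γ p (BadSameH_r x fun a => min a f ≠ i) y a b else 0) +
      (if a ≠ b then BadSameH_T γ p x (BadSameH_r y fun b => min b g ≠ i) a b else 0) +
      (if a ≠ b then BadSameH_T γ p (BadSameH_r x fun a => f < a) y a b else 0) +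
      (if a ≠ b then BadSameH_T γ p x (BadSameH_r y fun b => g < b) a b else 0) +
      BadSameH_T γ p (BadSameH_r x fun a => f < a) (BadSameH_r y fun b => g < b) a b +
      BadSameH_T γ p (BadSameH_r x fun a => f < a) (BadSameH_r y fun b => min b g ≠ i) a b +
      BadSameH_T γ p (BadSameH_r x fun a => min a f ≠ i) (BadSameH_r y fun b => g < b) a b +
      BadSameH_T γ p (BadSameH_r x fun a => H ∧ a < f) (BadSameH_r y fun b => min b g ≠ i) a b +
      BadSameH_T γ p (BadSameH_r x fun a => min a f ≠ i) (BadSameH_r y fun b => K ∧ b < g) a b +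
      BadSameH_T γ p (BadSameH_r x fun a => i < f ∧ H ∧ a < f) y a b +
      BadSameH_T γ p x (BadSameH_r y fun b => i < g ∧ K ∧ b < g) a b := by
  have xn := fun P : ℕ → Prop => BadSameH_r_nn (x := x) P x0
  have yn := fun P : ℕ → Prop => BadSameH_r_nn (x := y) P y0
  have n1 := BadSameH_O_nn (γ := γ) hp (xn fun a => min a f ≠ i) y0 a b
  have n2 := BadSameH_O_nn (γ := γ) hp x0 (yn fun b => min b g ≠ i) a b
  have n3 := BadSameH_O_nn (γ := γ) hp (xn fun a => f < a) y0 a b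
  have n4 := BadSameH_O_nn (γ := γ) hp x0 (yn fun b => g < b) a b
  have n5 := BadSameH_T_nn (γ := γ) hp (xn fun a => f < a) (yn fun b => g < b) a b
  have n6 := BadSameH_T_nn (γ := γ) hp (xn fun a => f < a) (yn fun b => min b g ≠ i) a b
  have n7 := BadSameH_T_nn (γ := γ) hp (xn fun a => min a f ≠ i) (yn fun b => g < b) a b
  have n8 := BadSameH_T_nn (γ := γ) hp (xn fun a => H ∧ a < f) (yn fun b => min b g ≠ i) a b
  have n9 := BadSameH_T_nn (γ := γ) hp (xn fun a => min a f ≠ i) (yn fun b => K ∧ b < g) a b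
  have n10 := BadSameH_T_nn (γ := γ) hp (xn fun a => i < f ∧ H ∧ a < f) y0 a b
  have n11 := BadSameH_T_nn (γ := γ) hp x0 (yn fun b => i < g ∧ K ∧ b < g) a b
  have key : ∀ (P Q : ℕ → Prop), P a → Q b →
      BadSameH_T γ p (BadSameH_r x P) (BadSameH_r y Q) a b = kn γ p a b * (x a * y b) ^ γ := by
    intro P Q h1 h2
    unfold BadSameH_T
    rw [BadSameH_r_pos h1, BadSameH_r_pos h2]
  have keyl : ∀ (P : ℕ → Prop), P a →
      BadSameH_T γ p (BadSameH_r x P) y a b = kn γ p a b * (x a * y b) ^ γ := by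
    intro P h1
    unfold BadSameH_T
    rw [BadSameH_r_pos h1]
  have keyr : ∀ (Q : ℕ → Prop), Q b →
      BadSameH_T γ p x (BadSameH_r y Q) a b = kn γ p a b * (x a * y b) ^ γ := by
    intro P h1
    unfold BadSameH_T
    rw [BadSameH_r_pos h1]
  by_cases hab : a ≠ b
  · rw [if_pos hab] at n1 n2 n3 n4
    rw [if_pos hab, if_pos hab, if_pos hab, if_pos hab]
    by_cases h1 : min a f ≠ i
    · have e := keyl (fun a => min a f ≠ i) h1
      linarith
    by_cases h2 : min b g ≠ i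
    · have e := keyr (fun b => min b g ≠ i) h2
      linarith
    by_cases h3 : f < a
    · have e := keyl (fun a => f < a) h3
      linarith
    have h4 : g < b := by omega
    have e := keyr (fun b => g < b) h4
    linarith
  · have hab' : a = b := not_not.mp hab
    by_cases h1 : f < a
    · by_cases h2 : min b g ≠ i
      · have e := key (fun a => f < a) (fun b => min b g ≠ i) h1 h2
        linarith
      · have h3 : g < b := by omega
        have e := key (fun a => f < a) (fun b => g < b) h1 h3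
        linarith
    by_cases h2 : g < b
    · have h3 : min a f ≠ i := by omega
      have e := key (fun a => min a f ≠ i) (fun b => g < b) h3 h2
      linarith
    by_cases h3 : H ∧ a < f
    · by_cases h4 : i < f
      · have e := keyl (fun a => i < f ∧ H ∧ a < f) ⟨h4, h3⟩
        linarith
      · have h5 : min b g ≠ i := by
          have := h3.2
          omega
        have e := key (fun a => H ∧ a < f) (fun b => min b g ≠ i) h3 h5
        linarith
    by_cases h4 : K ∧ b < g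
    · by_cases h5 : i < g
      · have e := keyr (fun b => i < g ∧ K ∧ b < g) ⟨h5, h4⟩
        linarith
      · have h6 : min a f ≠ i := by
          have := h4.2
          omega
        have e := key (fun a => min a f ≠ i) (fun b => K ∧ b < g) h6 h4
        linarith
    exact absurd (Or.inl ⟨hab', not_lt.mp h1, not_lt.mp h2, h3, h4⟩) hbad

theorem BadSameH_fin (C q T Z W' S : ℝ) (hC : 0 ≤ C) (hq : 0 ≤ q) (hT : 0 ≤ T) (hZ : 0 ≤ Z)
    (hW : 0 ≤ W') (hS : 0 ≤ S) :
    C * q * Z + C * q * W' + C * q * T + C * q * T + C * S +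
        C * (T * W') + C * (T * Z) + C * (T * W') + C * (T * Z) +
        C * (4/3 * (T * Z)) + C * (4/3 * (T * W')) ≤
    4 * C * ((q + T) * (Z + W') + q * T + S) := by
  have k1 : 0 ≤ C * (q * Z) := by positivity
  have k2 : 0 ≤ C * (q * W') := by positivity
  have k3 : 0 ≤ C * (T * Z) := by positivity
  have k4 : 0 ≤ C * (T * W') := by positivity
  have k5 : 0 ≤ C * (q * T) := by positivity
  have k6 : 0 ≤ C * S := by positivity
  have e : 4 * C * ((q + T) * (Z + W') + q * T + S) =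
      4 * (C * (q * Z)) + 4 * (C * (q * W')) + 4 * (C * (T * Z)) + 4 * (C * (T * W')) +
      4 * (C * (q * T)) + 4 * (C * S) := by ring
  have e' : C * q * Z + C * q * W' + C * q * T + C * q * T + C * S +
        C * (T * W') + C * (T * Z) + C * (T * W') + C * (T * Z) +
        C * (4/3 * (T * Z)) + C * (4/3 * (T * W')) =
      C * (q * Z) + C * (q * W') + 2 * (C * (q * T)) + C * S + (2 + 4/3) * (C * (T * Z)) +
      (2 + 4/3) * (C * (T * W')) := by ring
  rw [e, e']
  linarith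

theorem pr_BadSameH (h : SchurH) : BadSameH := by
  classical
  intro γ hγ hγ'
  obtain ⟨C, hC, hS0⟩ := h γ hγ hγ'
  refine ⟨4 * C, by positivity, fun p hp N x y f g i H K ht4 hP hH hK hi hj => ?_⟩
  have hS : BadSameH_S γ C p := hS0 p hp
  set t : ℝ := p ^ (eg γ - 1) with ht_def
  have ht : 0 ≤ t := Real.rpow_nonneg (by linarith) _
  obtain ⟨x0, y0, x1, y1, tx, ty⟩ := hP
  have hγ0 : 0 ≤ γ := by linarith
  obtain ⟨hz, sx1, sx2, sx3, sx4⟩ := BadSameH_seq ht ht4 x0 x1 tx H hH hi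
  obtain ⟨hw, sy1, sy2, sy3, sy4⟩ := BadSameH_seq ht ht4 y0 y1 ty K hK hj
  set z : ℝ := 1 - cs N x f i with hz_def
  set w : ℝ := 1 - cs N y g i with hw_def
  set q : ℝ := p ^ (-(1 - γ)) with hq_def
  have hq : 0 ≤ q := Real.rpow_nonneg (by linarith) _
  have xn := fun P : ℕ → Prop => BadSameH_r_nn (x := x) P x0
  have yn := fun P : ℕ → Prop => BadSameH_r_nn (x := y) P y0
  have sn : ∀ (u : ℕ → ℝ), (∀ a, 0 ≤ u a) → 0 ≤ ∑ a ∈ range N, u a :=
    fun u hu => Finset.sum_nonneg fun a _ => hu a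
  have b1 := BadSameH_off hp N hS (xn fun a => min a f ≠ i) y0 (s := z) hγ0 hC.le
    (by rw [sx1, y1, mul_one])
  have b2 := BadSameH_off hp N hS x0 (yn fun b => min b g ≠ i) (s := w) hγ0 hC.le
    (by rw [sy1, x1, one_mul])
  have b3 := BadSameH_off hp N hS (xn fun a => f < a) y0 (s := t) hγ0 hC.le
    (by rw [y1, mul_one]; exact sx2)
  have b4 := BadSameH_off hp N hS x0 (yn fun b => g < b) (s := t) hγ0 hC.le
    (by rw [x1, one_mul]; exact sy2)
  have b5 := BadSameH_all N hS (xn fun a => f < a) (yn fun b => g < b) (s := t * t) hγ0 hC.le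
    (mul_le_mul sx2 sy2 (sn _ (yn _)) ht)
  have b6 := BadSameH_all N hS (xn fun a => f < a) (yn fun b => min b g ≠ i) (s := t * w) hγ0
    hC.le (mul_le_mul sx2 sy1.le (sn _ (yn _)) ht)
  have b7 := BadSameH_all N hS (xn fun a => min a f ≠ i) (yn fun b => g < b) (s := z * t) hγ0
    hC.le (mul_le_mul sx1.le sy2 (sn _ (yn _)) hz)
  have b8 := BadSameH_all N hS (xn fun a => H ∧ a < f) (yn fun b => min b g ≠ i) (s := t * w)
    hγ0 hC.le (mul_le_mul sx3 sy1.le (sn _ (yn _)) ht)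
  have b9 := BadSameH_all N hS (xn fun a => min a f ≠ i) (yn fun b => K ∧ b < g) (s := z * t)
    hγ0 hC.le (mul_le_mul sx1.le sy3 (sn _ (yn _)) hz)
  have b10 := BadSameH_all N hS (xn fun a => i < f ∧ H ∧ a < f) y0 (s := t * (4/3 * z)) hγ0
    hC.le (by rw [y1, mul_one]; exact sx4)
  have b11 := BadSameH_all N hS x0 (yn fun b => i < g ∧ K ∧ b < g) (s := t * (4/3 * w)) hγ0
    hC.le (by rw [x1, one_mul]; exact sy4)
  have hle : BS γ p N x y H K f g ≤ ∑ a ∈ range N, ∑ b ∈ range N,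
      ((if a ≠ b then BadSameH_T γ p (BadSameH_r x fun a => min a f ≠ i) y a b else 0) +
      (if a ≠ b then BadSameH_T γ p x (BadSameH_r y fun b => min b g ≠ i) a b else 0) +
      (if a ≠ b then BadSameH_T γ p (BadSameH_r x fun a => f < a) y a b else 0) +
      (if a ≠ b then BadSameH_T γ p x (BadSameH_r y fun b => g < b) a b else 0) +
      BadSameH_T γ p (BadSameH_r x fun a => f < a) (BadSameH_r y fun b => g < b) a b +
      BadSameH_T γ p (BadSameH_r x fun a => f < a) (BadSameH_r y fun b => min b g ≠ i) a b +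
      BadSameH_T γ p (BadSameH_r x fun a => min a f ≠ i) (BadSameH_r y fun b => g < b) a b +
      BadSameH_T γ p (BadSameH_r x fun a => H ∧ a < f) (BadSameH_r y fun b => min b g ≠ i) a b +
      BadSameH_T γ p (BadSameH_r x fun a => min a f ≠ i) (BadSameH_r y fun b => K ∧ b < g) a b +
      BadSameH_T γ p (BadSameH_r x fun a => i < f ∧ H ∧ a < f) y a b +
      BadSameH_T γ p x (BadSameH_r y fun b => i < g ∧ K ∧ b < g) a b) := by
    unfold BS
    refine Finset.sum_le_sum fun a _ => Finset.sum_le_sum fun b _ => ?_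
    by_cases hg : gv H K f g a b
    · rw [if_pos hg]
      have n1 := BadSameH_O_nn (γ := γ) hp (xn fun a => min a f ≠ i) y0 a b
      have n2 := BadSameH_O_nn (γ := γ) hp x0 (yn fun b => min b g ≠ i) a b
      have n3 := BadSameH_O_nn (γ := γ) hp (xn fun a => f < a) y0 a b
      have n4 := BadSameH_O_nn (γ := γ) hp x0 (yn fun b => g < b) a b
      have n5 := BadSameH_T_nn (γ := γ) hp (xn fun a => f < a) (yn fun b => g < b) a b
      have n6 := BadSameH_T_nn (γ := γ) hp (xn fun a => f < a) (yn fun b => min b g ≠ i) a b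
      have n7 := BadSameH_T_nn (γ := γ) hp (xn fun a => min a f ≠ i) (yn fun b => g < b) a b
      have n8 := BadSameH_T_nn (γ := γ) hp (xn fun a => H ∧ a < f) (yn fun b => min b g ≠ i) a b
      have n9 := BadSameH_T_nn (γ := γ) hp (xn fun a => min a f ≠ i) (yn fun b => K ∧ b < g) a b
      have n10 := BadSameH_T_nn (γ := γ) hp (xn fun a => i < f ∧ H ∧ a < f) y0 a b
      have n11 := BadSameH_T_nn (γ := γ) hp x0 (yn fun b => i < g ∧ K ∧ b < g) a b
      linarith
    · rw [if_neg hg]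
      exact BadSameH_point hp x0 y0 f g i H K hi hj a b hg
  refine hle.trans ?_
  simp only [Finset.sum_add_distrib]
  have m1 : (t * t) ^ γ = t ^ (2 * γ) := by
    have : t * t = t ^ (2:ℝ) := by rw [Real.rpow_two]; ring
    rw [this, ← Real.rpow_mul ht]
  have m2 : (t * w) ^ γ = t ^ γ * w ^ γ := Real.mul_rpow ht hw
  have m3 : (z * t) ^ γ = t ^ γ * z ^ γ := by rw [Real.mul_rpow hz ht, mul_comm]
  have m4 : (4/3 : ℝ) ^ γ ≤ 4/3 := by
    calc (4/3 : ℝ) ^ γ ≤ (4/3 : ℝ) ^ (1:ℝ) :=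
          Real.rpow_le_rpow_of_exponent_le (by norm_num) (by linarith)
      _ = 4/3 := Real.rpow_one _
  have tg : 0 ≤ t ^ γ := Real.rpow_nonneg ht _
  have zg : 0 ≤ z ^ γ := Real.rpow_nonneg hz _
  have wg : 0 ≤ w ^ γ := Real.rpow_nonneg hw _
  have m5 : (t * (4/3 * z)) ^ γ ≤ 4/3 * (t ^ γ * z ^ γ) := by
    rw [Real.mul_rpow ht (by positivity), Real.mul_rpow (by norm_num) hz]
    have := mul_le_mul_of_nonneg_right m4 (mul_nonneg tg zg)
    linarith
  have m6 : (t * (4/3 * w)) ^ γ ≤ 4/3 * (t ^ γ * w ^ γ) := by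
    rw [Real.mul_rpow ht (by positivity), Real.mul_rpow (by norm_num) hw]
    have := mul_le_mul_of_nonneg_right m4 (mul_nonneg tg wg)
    linarith
  rw [m1] at b5
  rw [m2] at b6 b8
  rw [m3] at b7 b9
  have b10' := b10.trans (mul_le_mul_of_nonneg_left m5 hC.le)
  have b11' := b11.trans (mul_le_mul_of_nonneg_left m6 hC.le)
  have t2 : 0 ≤ t ^ (2 * γ) := Real.rpow_nonneg ht _
  refine le_trans ?_ (BadSameH_fin C q (t ^ γ) (z ^ γ) (w ^ γ) (t ^ (2 * γ)) hC.le hq tg zg wg t2)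
  exact add_le_add (add_le_add (add_le_add (add_le_add (add_le_add (add_le_add (add_le_add
          (add_le_add (add_le_add (add_le_add b1 b2) b3) b4) b5) b6) b7) b8) b9) b10') b11'

end Pool.Agent.MP_0863b8.H

end

section

/-!
# The canonical hub theorem: the energy of the bad pairs
-/

set_option autoImplicit false

namespace Pool.Agent.MP_0863b8.H

open Finset
open F (ms en)
open G (potG)

/-- the product of the losses -/
noncomputable def BadStmtPr (c : ℝ) (P : ℕ) : ℝ := ∏ k ∈ range P, (1 + ((k + 1 : ℕ) : ℝ) ^ (-1 - c))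

theorem BadStmtPr_pos (c : ℝ) (P : ℕ) : 1 ≤ BadStmtPr c P := by
  unfold BadStmtPr
  induction P with
  | zero => simp
  | succ P ih =>
    rw [Finset.prod_range_succ]
    have h1 : (0:ℝ) ≤ ((P + 1 : ℕ) : ℝ) ^ (-1 - c) := Real.rpow_nonneg (Nat.cast_nonneg _) _
    nlinarith

theorem BadStmtPr_le (c : ℝ) (hc : 0 < c) (P : ℕ) :
    BadStmtPr c P ≤ Real.exp (∑' k : ℕ, ((k + 1 : ℕ) : ℝ) ^ (-1 - c)) := by
  have hsum : Summable (fun k : ℕ => ((k : ℕ) : ℝ) ^ (-1 - c)) :=
    Real.summable_nat_rpow.2 (by linarith)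
  have hsum' : Summable (fun k : ℕ => ((k + 1 : ℕ) : ℝ) ^ (-1 - c)) :=
    (summable_nat_add_iff 1).2 hsum
  have h0 : ∀ k : ℕ, (0:ℝ) ≤ ((k + 1 : ℕ) : ℝ) ^ (-1 - c) := fun k =>
    Real.rpow_nonneg (Nat.cast_nonneg _) _
  unfold BadStmtPr
  calc ∏ k ∈ range P, (1 + ((k + 1 : ℕ) : ℝ) ^ (-1 - c))
      ≤ ∏ k ∈ range P, Real.exp (((k + 1 : ℕ) : ℝ) ^ (-1 - c)) := by
        refine Finset.prod_le_prod (fun k _ => by have := h0 k; linarith) (fun k _ => ?_)
        have := Real.add_one_le_exp (((k + 1 : ℕ) : ℝ) ^ (-1 - c))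
        linarith
    _ = Real.exp (∑ k ∈ range P, ((k + 1 : ℕ) : ℝ) ^ (-1 - c)) := by rw [Real.exp_sum]
    _ ≤ Real.exp (∑' k : ℕ, ((k + 1 : ℕ) : ℝ) ^ (-1 - c)) :=
        Real.exp_le_exp.2 (hsum'.sum_le_tsum _ (fun k _ => h0 k))

theorem BadStmt_bad_else (e : ℝ) (Q P : ℕ) (V W : Finset ℕ) (L : ℝ)
    (h : ¬ ((P + 1).Prime ∧ Q < P + 1)) : bad e Q (P + 1) V W L = bad e Q P V W L := by
  classical
  unfold bad
  refine Finset.sum_congr (Finset.filter_congr fun z _ => ?_) (fun _ _ => rfl)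
  rw [Good, if_neg h]

theorem BadStmt_bad_zero (e : ℝ) (Q : ℕ) (V W : Finset ℕ) (L : ℝ) : bad e Q 0 V W L = 0 := by
  classical
  unfold bad
  refine Finset.sum_eq_zero fun z hz => ?_
  exact absurd (by rw [Good]; trivial) (Finset.mem_filter.1 hz).2.2.2

theorem pr_BadStmt (m2 : MassCmp) (m6 : StepBad) : BadStmt := by
  intro γ C1 h1 h2
  obtain ⟨CT, hCT, p0, hstep⟩ := m6 γ C1 h1 h2
  obtain ⟨m2a, m2b⟩ := m2
  have hc : 0 < cg γ := by unfold cg; linarith
  have hγ : 0 ≤ γ := by linarith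
  obtain ⟨S, hS⟩ : ∃ S : ℝ, S = ∑' k : ℕ, ((k + 1 : ℕ) : ℝ) ^ (-1 - cg γ) := ⟨_, rfl⟩
  refine ⟨CT * Real.exp S * (Real.exp (2 * C1) * Real.exp (2 * C1)) ^ γ, by positivity,
    max p0 1, fun Q P hQ V W L hV hW hL => ?_⟩
  have hQ1 : 1 ≤ Q := le_trans (le_max_right _ _) hQ
  have hQp : p0 ≤ Q := le_trans (le_max_left _ _) hQ
  have hQr : 0 ≤ (Q:ℝ) ^ (-cg γ) := Real.rpow_nonneg (Nat.cast_nonneg _) _
  have key : ∀ P : ℕ, ∀ (V W : Finset ℕ) (L : ℝ), (∀ v ∈ V, 0 < v ∧ rp v ≤ C1) →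
      (∀ w ∈ W, 0 < w ∧ rp w ≤ C1) → 0 ≤ L → bad (eg γ) Q P V W L ≤
        (CT * (Q:ℝ) ^ (-cg γ) * BadStmtPr (cg γ) P) * L ^ (2 * (1 - γ)) *
          (mt P V * mt P W) ^ γ := by
    intro P
    induction P with
    | zero =>
      intro V W L hV hW hL
      rw [BadStmt_bad_zero]
      have h3 := BadStmtPr_pos (cg γ) 0
      have h4 : 0 ≤ L ^ (2 * (1 - γ)) := Real.rpow_nonneg hL _
      have h5 : 0 ≤ (mt 0 V * mt 0 W) ^ γ :=
        Real.rpow_nonneg (mul_nonneg (m2a 0 V).1 (m2a 0 W).1) _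
      have h6 : 0 ≤ BadStmtPr (cg γ) 0 := by linarith
      positivity
    | succ P ih =>
      intro V W L hV hW hL
      have h3 := BadStmtPr_pos (cg γ) P
      have h4 : 0 ≤ L ^ (2 * (1 - γ)) := Real.rpow_nonneg hL _
      have h5 : (0:ℝ) ≤ ((P + 1 : ℕ) : ℝ) ^ (-1 - cg γ) := Real.rpow_nonneg (Nat.cast_nonneg _) _
      have hpr : BadStmtPr (cg γ) (P + 1) =
          BadStmtPr (cg γ) P * (1 + ((P + 1 : ℕ) : ℝ) ^ (-1 - cg γ)) := by
        unfold BadStmtPr
        rw [Finset.prod_range_succ]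
      by_cases hP : (P + 1).Prime ∧ Q < P + 1
      · have h6 := hstep Q P hQp hQ1 hP.1 hP.2 (CT * (Q:ℝ) ^ (-cg γ) * BadStmtPr (cg γ) P)
          (le_mul_of_one_le_right (mul_nonneg hCT.le hQr) h3) ih V W L hV hW hL
        rw [hpr]
        refine le_trans h6 (le_of_eq ?_)
        ring
      · rw [BadStmt_bad_else _ _ _ _ _ _ hP]
        refine le_trans (ih V W L hV hW hL) ?_
        have h7 : BadStmtPr (cg γ) P ≤ BadStmtPr (cg γ) (P + 1) := by
          rw [hpr]
          nlinarith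
        have h8 : (mt P V * mt P W) ^ γ ≤ (mt (P + 1) V * mt (P + 1) W) ^ γ := by
          refine Real.rpow_le_rpow (mul_nonneg (m2a P V).1 (m2a P W).1) ?_ hγ
          exact mul_le_mul (m2a P V).2.1 (m2a P W).2.1 (m2a P W).1 (m2a (P + 1) V).1
        have h9 : 0 ≤ (mt P V * mt P W) ^ γ :=
          Real.rpow_nonneg (mul_nonneg (m2a P V).1 (m2a P W).1) _
        refine mul_le_mul ?_ h8 h9 ?_
        · refine mul_le_mul_of_nonneg_right ?_ h4
          exact mul_le_mul_of_nonneg_left h7 (mul_nonneg hCT.le hQr)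
        · have : 0 ≤ BadStmtPr (cg γ) (P + 1) := by linarith
          positivity
  refine le_trans (key P V W L hV hW hL) ?_
  have hpr : BadStmtPr (cg γ) P ≤ Real.exp S := by
    rw [hS]
    exact BadStmtPr_le (cg γ) hc P
  have hms : ∀ V : Finset ℕ, 0 ≤ ms V := fun V => by
    unfold F.ms
    exact Finset.sum_nonneg fun v _ => Nat.cast_nonneg v
  have hm : (mt P V * mt P W) ^ γ ≤
      (Real.exp (2 * C1) * Real.exp (2 * C1)) ^ γ * (ms V * ms W) ^ γ := by
    rw [← Real.mul_rpow (by positivity) (mul_nonneg (hms V) (hms W))]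
    refine Real.rpow_le_rpow (mul_nonneg (m2a P V).1 (m2a P W).1) ?_ hγ
    calc mt P V * mt P W ≤ (Real.exp (2 * C1) * ms V) * (Real.exp (2 * C1) * ms W) :=
          mul_le_mul (m2b C1 P V fun n hn => (hV n hn).2) (m2b C1 P W fun n hn => (hW n hn).2)
            (m2a P W).1 (mul_nonneg (Real.exp_pos _).le (hms V))
      _ = Real.exp (2 * C1) * Real.exp (2 * C1) * (ms V * ms W) := by ring
  have h4 : 0 ≤ L ^ (2 * (1 - γ)) := Real.rpow_nonneg hL _
  have h9 : 0 ≤ (mt P V * mt P W) ^ γ :=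
    Real.rpow_nonneg (mul_nonneg (m2a P V).1 (m2a P W).1) _
  have hpr0 : 0 ≤ BadStmtPr (cg γ) P := by
    have := BadStmtPr_pos (cg γ) P
    linarith
  unfold G.potG
  calc CT * (Q:ℝ) ^ (-cg γ) * BadStmtPr (cg γ) P * L ^ (2 * (1 - γ)) * (mt P V * mt P W) ^ γ
      ≤ CT * (Q:ℝ) ^ (-cg γ) * Real.exp S * L ^ (2 * (1 - γ)) *
        ((Real.exp (2 * C1) * Real.exp (2 * C1)) ^ γ * (ms V * ms W) ^ γ) := by
        refine mul_le_mul ?_ hm h9 (by positivity)
        refine mul_le_mul_of_nonneg_right ?_ h4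
        exact mul_le_mul_of_nonneg_left hpr (mul_nonneg hCT.le hQr)
    _ = CT * Real.exp S * (Real.exp (2 * C1) * Real.exp (2 * C1)) ^ γ * (Q:ℝ) ^ (-cg γ) *
        (L ^ (2 * (1 - γ)) * (ms V * ms W) ^ γ) := by ring

end Pool.Agent.MP_0863b8.H

end

section

/-!
MP_0863b8_nt, block H, item CellElt: elements of cells.
-/

set_option autoImplicit false

namespace Pool.Agent.MP_0863b8.H

theorem ce_rp_mono (u v : ℕ) (h : u ∣ v) (hv : v ≠ 0) : rp u ≤ rp v := by
  unfold rp
  exact Finset.sum_le_sum_of_subset_of_nonneg (Nat.primeFactors_mono h hv)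
    (fun p _ _ => by positivity)

theorem pr_CellElt : CellElt := by
  intro e C1 p i C hp hC n hn
  unfold cell at hn
  rw [Finset.mem_image] at hn
  obtain ⟨m, hm, rfl⟩ := hn
  rw [Finset.mem_filter] at hm
  obtain ⟨hmC, hlev⟩ := hm
  obtain ⟨hm0, hmr⟩ := hC m hmC
  have hle : i ≤ m.factorization p := by
    rw [← hlev]; exact min_le_left _ _
  have hdvd : p ^ i ∣ m := (pow_dvd_pow p hle).trans (Nat.ordProj_dvd m p)
  have hq : m / p ^ i ∣ m := Nat.div_dvd_of_dvd hdvd
  refine ⟨Nat.div_pos (Nat.le_of_dvd hm0 hdvd) (pow_pos hp.pos i), ?_⟩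
  exact (ce_rp_mono _ _ hq hm0.ne').trans hmr

end Pool.Agent.MP_0863b8.H

end

section

/-!
MP_0863b8_nt, item CellH: the cell inequality.
-/

set_option autoImplicit false

namespace Pool.Agent.MP_0863b8.H

open Finset

namespace CellH_aux

theorem max_pos {M : ℕ} {u : ℕ → ℝ} {i : ℕ} (hs : ∑ a ∈ range M, u a = 1)
    (hmax : ∀ a < M, u a ≤ u i) : 0 < u i := by
  by_contra hcon
  have h1 : ∑ a ∈ range M, u a ≤ 0 :=
    Finset.sum_nonpos (fun a ha => le_trans (hmax a (Finset.mem_range.mp ha)) (not_lt.mp hcon))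
  linarith

theorem le_one {M : ℕ} {u : ℕ → ℝ} (h0 : ∀ a, 0 ≤ u a) (hs : ∑ a ∈ range M, u a = 1)
    {i : ℕ} (hi : i < M) : u i ≤ 1 := by
  rw [← hs]
  exact Finset.single_le_sum (fun a _ => h0 a) (Finset.mem_range.mpr hi)

theorem exists_max {M : ℕ} (hM : 0 < M) (u : ℕ → ℝ) : ∃ i < M, ∀ a < M, u a ≤ u i := by
  obtain ⟨i, hi, him⟩ := Finset.exists_max_image (range M) u ⟨0, Finset.mem_range.mpr hM⟩
  exact ⟨i, Finset.mem_range.mp hi, fun a ha => him a (Finset.mem_range.mpr ha)⟩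

theorem cs_gt {N : ℕ} {x : ℕ → ℝ} {f i : ℕ} (h : f < i) : cs N x f i = 0 := by
  unfold cs
  rw [if_neg (by omega), if_neg (by omega)]

theorem cs_self {N : ℕ} {x : ℕ → ℝ} {f : ℕ} : cs N x f f = TL N x f := by
  unfold cs
  rw [if_neg (by omega), if_pos rfl]

/-- in a hub the largest cell is the top one -/
theorem hub_max {t : ℝ} {N : ℕ} {x : ℕ → ℝ} {f i : ℕ} (ht : t ≤ 1 / 4)
    (hH : HubR t N x f) (hs : ∀ a ≠ f, cs N x f a ≤ t) (him : cs N x f f ≤ cs N x f i) : i = f := by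
  by_contra hne
  have h1 := hs i hne
  have h2 : 1 - TL N x f ≤ t := hH.2
  rw [cs_self] at him
  linarith

end CellH_aux

open CellH_aux in
theorem pr_CellH (h2 : DiagH) (h3 : DiagNeH) (h4 : BadGenH) (h5 : BadSameH) (h6 : BadGGH)
    (h7 : BadHHH) (h8 : GoodNHH) (h9 : GoodHHH) (h10 : CellShareH) (h11 : PowH) : CellH := by
  intro γ hγ1 hγ2
  obtain ⟨c2, hc2, hc2', h2⟩ := h2 γ hγ1 hγ2
  obtain ⟨c3, hc3, h3⟩ := h3 γ hγ1 hγ2
  obtain ⟨C4, hC4, h4⟩ := h4 γ hγ1 hγ2
  obtain ⟨C5, hC5, h5⟩ := h5 γ hγ1 hγ2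
  obtain ⟨C6, hC6, h6⟩ := h6 γ hγ1 hγ2
  obtain ⟨C7, hC7, h7⟩ := h7 γ hγ1 hγ2
  obtain ⟨p9, h9⟩ := h9 γ hγ1 hγ2
  obtain ⟨pA, hpA2, hA⟩ := h11 γ C6 1 hγ1 hγ2 hC6 one_pos
  obtain ⟨pB, hpB2, hB⟩ := h11 γ C7 (1/2) hγ1 hγ2 hC7 (by norm_num)
  obtain ⟨pC, hpC2, hC⟩ := h11 γ C4 c3 hγ1 hγ2 hC4 hc3
  obtain ⟨pD, hpD2, hD⟩ := h11 γ (2 * C5) c2 hγ1 hγ2 (by positivity) hc2
  refine ⟨max (max (max pA pB) (max pC pD)) p9, le_trans hpA2 (by simp), ?_⟩
  intro p hp N x y f g hP
  have hpA : pA ≤ p := le_trans (by simp) hp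
  have hpB : pB ≤ p := le_trans (by simp) hp
  have hpC : pC ≤ p := le_trans (by simp) hp
  have hpD : pD ≤ p := le_trans (by simp) hp
  have hp9 : p9 ≤ p := le_trans (by simp) hp
  have hp2 : 2 ≤ p := le_trans hpA2 hpA
  have hp0 : 0 < p := by linarith
  obtain ⟨ht4, -, -, hA4⟩ := hA p hpA
  obtain ⟨-, -, -, hB4⟩ := hB p hpB
  obtain ⟨-, hC2, -, -⟩ := hC p hpC
  obtain ⟨-, -, hD3, -⟩ := hD p hpD
  have ht0 : 0 < p ^ (eg γ - 1) := Real.rpow_pos_of_pos hp0 _
  have hcg0 : 0 < p ^ cg γ := Real.rpow_pos_of_pos hp0 _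
  have he0 : 0 < p ^ (-1 - cg γ) := Real.rpow_pos_of_pos hp0 _
  have hγ0 : 0 < γ := by linarith
  obtain ⟨hx0, hxs, hxf0, hxh, hxm⟩ := h10 _ N x f ht0 ht4 hP.x0 hP.x1 hP.tx
  obtain ⟨hy0, hys, hyf0, hyh, hym⟩ := h10 _ N y g ht0 ht4 hP.y0 hP.y1 hP.ty
  set t := p ^ (eg γ - 1) with htdef
  by_cases hfg0 : f = 0 ∧ g = 0
  · -- case A
    obtain ⟨rfl, rfl⟩ := hfg0
    have hG := h8 γ p N x y 0 0 (HubR t N x 0 ∧ HubR t N y 0) hγ0 hp2 hP.x0 hP.y0
      (fun h => by have := h.1.1.1; omega)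
    rw [max_self, Finset.sum_range_succ, Finset.sum_range_zero, hxf0 rfl, hyf0 rfl, mul_one,
      Real.one_rpow, zero_add] at hG
    have hBd := h6 p hp2 N x y (HubR t N x 0) (HubR t N y 0) hP
    have h1 : p ^ cg γ * BS γ p N x y (HubR t N x 0) (HubR t N y 0) 0 0 ≤
        C6 * (p ^ cg γ * (p ^ (-(2 * (1 - γ))) * t ^ γ + t ^ (2 * γ))) := by
      have h2 : p ^ cg γ * BS γ p N x y (HubR t N x 0) (HubR t N y 0) 0 0 ≤
          p ^ cg γ * (C6 * t ^ (2 * γ)) := mul_le_mul_of_nonneg_left hBd hcg0.le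
      have h3 : 0 ≤ C6 * (p ^ cg γ * (p ^ (-(2 * (1 - γ))) * t ^ γ)) := by positivity
      nlinarith
    linarith
  · by_cases hHH : (HubR t N x f ∧ HubR t N y g) ∧ f = g
    · -- case B
      obtain ⟨⟨hHx, hHy⟩, rfl⟩ := hHH
      have hG := h9 p hp9 N x y f (HubR t N x f ∧ HubR t N y f) hP hHx hHy
      have hBd := h7 p hp2 N x y f (HubR t N x f) (HubR t N y f) hHx hHy hP hHx hHy
      have h1 : p ^ cg γ * BS γ p N x y (HubR t N x f) (HubR t N y f) f f ≤
          p ^ cg γ * (C7 * (p ^ (-(2 * (1 - γ))) * t ^ γ + t ^ (2 * γ))) :=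
        mul_le_mul_of_nonneg_left hBd hcg0.le
      have h2 : p ^ cg γ * (C7 * (p ^ (-(2 * (1 - γ))) * t ^ γ + t ^ (2 * γ))) =
          C7 * (p ^ cg γ * (p ^ (-(2 * (1 - γ))) * t ^ γ + t ^ (2 * γ))) := by ring
      linarith
    · -- case C
      have hG := h8 γ p N x y f g (HubR t N x f ∧ HubR t N y g) hγ0 hp2 hP.x0 hP.y0 hHH
      have hsx := hxs (max f g + 1) (by omega)
      have hsy := hys (max f g + 1) (by omega)
      obtain ⟨i, hiM, him⟩ := exists_max (M := max f g + 1) (by omega) (cs N x f)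
      obtain ⟨j, hjM, hjm⟩ := exists_max (M := max f g + 1) (by omega) (cs N y g)
      by_cases hij : i = j
      · subst hij
        have hif : i ≤ f := by
          by_contra hcon
          have := max_pos hsx him
          rw [cs_gt (by omega)] at this
          exact lt_irrefl _ this
        have hig : i ≤ g := by
          by_contra hcon
          have := max_pos hsy hjm
          rw [cs_gt (by omega)] at this
          exact lt_irrefl _ this
        have hz1 : cs N x f i ≤ 1 := le_one hx0 hsx hiM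
        have hw1 : cs N y g i ≤ 1 := le_one hy0 hsy hjM
        have hD2 := h2 (max f g + 1) (cs N x f) (cs N y g) (1 - cs N x f i) (1 - cs N y g i)
          hx0 hy0 hsx.le hsy.le (by linarith) (by linarith [hx0 i]) (by linarith)
          (by linarith [hy0 i]) (fun a ha => by linarith [him a ha])
          (fun a ha => by linarith [hjm a ha])
        have hxi : HubR t N x f → i = f := fun hH =>
          hub_max ht4 hH (hxh hH) (him f (by omega))
        have hyi : HubR t N y g → i = g := fun hH =>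
          hub_max ht4 hH (hyh hH) (hjm g (by omega))
        have hs : t / 2 ≤ (1 - cs N x f i) + (1 - cs N y g i) := by
          by_cases hmx : 1 ≤ f ∧ ¬ HubR t N x f
          · have := hxm hmx.1 hmx.2 i
            linarith
          by_cases hmy : 1 ≤ g ∧ ¬ HubR t N y g
          · have := hym hmy.1 hmy.2 i
            linarith
          exfalso
          push Not at hmx hmy
          rcases Nat.eq_zero_or_pos f with hf0 | hf0
          · have hg0 : 1 ≤ g := by
              by_contra hcon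
              exact hfg0 ⟨hf0, by omega⟩
            have := hyi (hmy hg0)
            omega
          · have hHx := hmx hf0
            have hfi := hxi hHx
            rcases Nat.eq_zero_or_pos g with hg0 | hg0
            · omega
            · have hHy := hmy hg0
              have hgi := hyi hHy
              exact hHH ⟨⟨hHx, hHy⟩, by omega⟩
        have hBd := h5 p hp2 N x y f g i (HubR t N x f) (HubR t N y g) ht4 hP id id hif hig
        have hz0 : 0 ≤ 1 - cs N x f i := by linarith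
        have hw0 : 0 ≤ 1 - cs N y g i := by linarith
        have hD3' := hD3 ((1 - cs N x f i) + (1 - cs N y g i)) hs (by linarith [hx0 i, hy0 i])
        set z := 1 - cs N x f i with hz
        set w := 1 - cs N y g i with hw
        have hzw : z ^ γ + w ^ γ ≤ 2 * (z + w) ^ γ := by
          have e1 : z ^ γ ≤ (z + w) ^ γ := Real.rpow_le_rpow hz0 (by linarith) hγ0.le
          have e2 : w ^ γ ≤ (z + w) ^ γ := Real.rpow_le_rpow hw0 (by linarith) hγ0.le
          linarith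
        have hA0 : 0 ≤ p ^ (-(1 - γ)) + t ^ γ := by positivity
        have hB0 : 0 ≤ p ^ (-(1 - γ)) * t ^ γ + t ^ (2 * γ) := by positivity
        have h1 : BS γ p N x y (HubR t N x f) (HubR t N y g) f g ≤
            (2 * C5) * ((p ^ (-(1 - γ)) + t ^ γ) * (z + w) ^ γ + p ^ (-(1 - γ)) * t ^ γ +
              t ^ (2 * γ)) := by
          have e1 : (p ^ (-(1 - γ)) + t ^ γ) * (z ^ γ + w ^ γ) ≤
              (p ^ (-(1 - γ)) + t ^ γ) * (2 * (z + w) ^ γ) :=
            mul_le_mul_of_nonneg_left hzw hA0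
          have e2 : C5 * ((p ^ (-(1 - γ)) + t ^ γ) * (z ^ γ + w ^ γ) +
              p ^ (-(1 - γ)) * t ^ γ + t ^ (2 * γ)) ≤
              C5 * ((p ^ (-(1 - γ)) + t ^ γ) * (2 * (z + w) ^ γ) +
              2 * (p ^ (-(1 - γ)) * t ^ γ + t ^ (2 * γ))) :=
            mul_le_mul_of_nonneg_left (by linarith) hC5.le
          calc BS γ p N x y (HubR t N x f) (HubR t N y g) f g
              ≤ _ := hBd
            _ ≤ _ := e2
            _ = _ := by ring
        have h3 : p ^ cg γ * BS γ p N x y (HubR t N x f) (HubR t N y g) f g ≤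
            p ^ cg γ * ((2 * C5) * ((p ^ (-(1 - γ)) + t ^ γ) * (z + w) ^ γ +
              p ^ (-(1 - γ)) * t ^ γ + t ^ (2 * γ))) :=
          mul_le_mul_of_nonneg_left h1 hcg0.le
        have h4 : p ^ cg γ * ((2 * C5) * ((p ^ (-(1 - γ)) + t ^ γ) * (z + w) ^ γ +
              p ^ (-(1 - γ)) * t ^ γ + t ^ (2 * γ))) =
            (2 * C5) * (p ^ cg γ * ((p ^ (-(1 - γ)) + t ^ γ) * (z + w) ^ γ +
              p ^ (-(1 - γ)) * t ^ γ + t ^ (2 * γ))) := by ring
        linarith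
      · have hN := h3 (max f g + 1) (cs N x f) (cs N y g) i j hx0 hy0 hsx.le hsy.le hiM hjM hij
          him hjm
        have hBd := h4 p hp2 N x y f g (HubR t N x f) (HubR t N y g) ht4 hP id id
        have h1 : p ^ cg γ * BS γ p N x y (HubR t N x f) (HubR t N y g) f g ≤
            p ^ cg γ * (C4 * (p ^ (-(1 - γ)) + t ^ γ)) :=
          mul_le_mul_of_nonneg_left hBd hcg0.le
        have h2 : p ^ cg γ * (C4 * (p ^ (-(1 - γ)) + t ^ γ)) =
            C4 * (p ^ cg γ * (p ^ (-(1 - γ)) + t ^ γ)) := by ring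
        linarith

end Pool.Agent.MP_0863b8.H

end

section

/-!
MP_0863b8_nt: M1, the weight of a cell
-/

set_option autoImplicit false

namespace Pool.Agent.MP_0863b8.H

open Finset

namespace NCellMass

lemma wt_succ_mem {P n : ℕ} (h : P + 1 ∈ n.primeFactors) :
    wt (P + 1) n = wt P n * (1 + 2 / ((P + 1 : ℕ) : ℝ)) := by
  have h1 : n.primeFactors.filter (fun q => q ≤ P + 1) =
      insert (P + 1) (n.primeFactors.filter (fun q => q ≤ P)) := by
    ext q
    simp only [Finset.mem_filter, Finset.mem_insert]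
    constructor
    · rintro ⟨h2, h3⟩
      rcases Nat.lt_or_ge q (P + 1) with h4 | h4
      · exact Or.inr ⟨h2, by omega⟩
      · exact Or.inl (by omega)
    · rintro (rfl | ⟨h2, h3⟩)
      · exact ⟨h, le_rfl⟩
      · exact ⟨h2, by omega⟩
  have h2 : P + 1 ∉ n.primeFactors.filter (fun q => q ≤ P) := by
    simp
  rw [wt, wt, h1, Finset.prod_insert h2]
  ring

lemma wt_succ_not_mem {P n : ℕ} (h : P + 1 ∉ n.primeFactors) : wt (P + 1) n = wt P n := by
  have h1 : n.primeFactors.filter (fun q => q ≤ P + 1) =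
      n.primeFactors.filter (fun q => q ≤ P) := by
    ext q
    simp only [Finset.mem_filter]
    constructor
    · rintro ⟨h2, h3⟩
      refine ⟨h2, ?_⟩
      rcases Nat.lt_or_ge q (P + 1) with h4 | h4
      · omega
      · have : q = P + 1 := by omega
        subst this
        exact absurd h2 h
    · rintro ⟨h2, h3⟩
      exact ⟨h2, by omega⟩
  rw [wt, wt, h1]

lemma wt_nonneg (P n : ℕ) : 0 ≤ wt P n :=
  mul_nonneg (Nat.cast_nonneg _) (Finset.prod_nonneg fun q _ => by positivity)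

lemma wt_le_succ (P n : ℕ) : wt P n ≤ wt (P + 1) n := by
  by_cases h : P + 1 ∈ n.primeFactors
  · rw [wt_succ_mem h]
    have h1 : (0 : ℝ) ≤ 2 / ((P + 1 : ℕ) : ℝ) := by positivity
    nlinarith [wt_nonneg P n]
  · rw [wt_succ_not_mem h]

lemma wt_div {P n i : ℕ} (hp : (P + 1).Prime) (hn : 0 < n) (hd : (P + 1) ^ i ∣ n) :
    wt P (n / (P + 1) ^ i) * ((P + 1 : ℕ) : ℝ) ^ i = wt P n := by
  obtain ⟨m, rfl⟩ := hd
  have hpi : 0 < (P + 1) ^ i := pow_pos (Nat.succ_pos P) i
  have hm : m ≠ 0 := by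
    rintro rfl
    simp at hn
  rw [Nat.mul_div_cancel_left _ hpi]
  have h1 : ((P + 1) ^ i * m).primeFactors.filter (fun q => q ≤ P) =
      m.primeFactors.filter (fun q => q ≤ P) := by
    ext q
    simp only [Finset.mem_filter]
    rw [Nat.primeFactors_mul hpi.ne' hm, Finset.mem_union]
    constructor
    · rintro ⟨h2 | h2, h3⟩
      · exfalso
        have h4 := Nat.prime_of_mem_primeFactors h2
        have h5 := Nat.dvd_of_mem_primeFactors h2
        have h6 := h4.dvd_of_dvd_pow h5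
        have h7 := (Nat.prime_dvd_prime_iff_eq h4 hp).mp h6
        omega
      · exact ⟨h2, h3⟩
    · rintro ⟨h2, h3⟩
      exact ⟨Or.inr h2, h3⟩
  rw [wt, wt, h1, Nat.cast_mul, Nat.cast_pow]
  ring

lemma main {P i : ℕ} {F : Finset ℕ} (hp : (P + 1).Prime) (hF : ∀ n ∈ F, 0 < n ∧
    i ≤ n.factorization (P + 1)) :
    mt P (F.image (fun n => n / (P + 1) ^ i)) * ((P + 1 : ℕ) : ℝ) ^ i *
      (if i = 0 then 1 else 1 + 2 / ((P + 1 : ℕ) : ℝ)) ≤ mt (P + 1) F := by
  have hdvd : ∀ n ∈ F, (P + 1) ^ i ∣ n := fun n hn =>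
    (hp.pow_dvd_iff_le_factorization (hF n hn).1.ne').2 (hF n hn).2
  have hinj : Set.InjOn (fun n => n / (P + 1) ^ i) (F : Set ℕ) := by
    intro a ha b hb hab
    simp only at hab
    rw [← Nat.div_mul_cancel (hdvd a ha), ← Nat.div_mul_cancel (hdvd b hb), hab]
  rw [mt, Finset.sum_image hinj, mt, Finset.sum_mul, Finset.sum_mul]
  refine Finset.sum_le_sum fun n hn => ?_
  rw [wt_div hp (hF n hn).1 (hdvd n hn)]
  by_cases hi : i = 0
  · rw [if_pos hi, mul_one]
    exact wt_le_succ P n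
  · rw [if_neg hi]
    apply le_of_eq
    symm
    apply wt_succ_mem
    rw [Nat.mem_primeFactors]
    refine ⟨hp, ?_, (hF n hn).1.ne'⟩
    exact (dvd_pow_self _ hi).trans (hdvd n hn)

end NCellMass

open NCellMass in
theorem pr_CellMass : CellMass := by
  intro e P C i hp hC
  have hF : ∀ n ∈ C.filter (fun n => lev e (P + 1) C n = i), 0 < n ∧
      i ≤ n.factorization (P + 1) := by
    intro n hn
    rw [Finset.mem_filter] at hn
    refine ⟨hC n hn.1, ?_⟩
    rw [← hn.2]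
    exact min_le_left _ _
  have h1 := NCellMass.main hp hF
  refine le_trans h1 ?_
  rcases lt_trichotomy i (top e (P + 1) C) with h | h | h
  · rw [if_pos h, sh]
    apply le_of_eq
    congr 1
    ext n
    simp only [Finset.mem_filter, lev]
    constructor
    · rintro ⟨h2, h3⟩
      exact ⟨h2, by omega⟩
    · rintro ⟨h2, h3⟩
      exact ⟨h2, by omega⟩
  · rw [if_neg (by omega), if_pos h, tl]
    apply le_of_eq
    congr 1
    ext n
    simp only [Finset.mem_filter, lev]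
    constructor
    · rintro ⟨h2, h3⟩
      exact ⟨h2, by omega⟩
    · rintro ⟨h2, h3⟩
      exact ⟨h2, by omega⟩
  · rw [if_neg (by omega), if_neg (by omega)]
    have h2 : C.filter (fun n => lev e (P + 1) C n = i) = ∅ := by
      rw [Finset.filter_eq_empty_iff]
      intro n _
      simp only [lev]
      omega
    rw [h2, mt, Finset.sum_empty]

end Pool.Agent.MP_0863b8.H

end

section

/-!
MP_0863b8_nt, item CellShareH: shares of the cells.
-/

set_option autoImplicit false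

namespace Pool.Agent.MP_0863b8.H

open Finset

theorem CellShareH_TL_nonneg {N : ℕ} {x : ℕ → ℝ} (hx : ∀ a, 0 ≤ x a) (k : ℕ) : 0 ≤ TL N x k :=
  Finset.sum_nonneg fun a _ => hx a

theorem CellShareH_split {N : ℕ} {x : ℕ → ℝ} {k : ℕ} (hk : k ≤ N)
    (h1 : ∑ a ∈ range N, x a = 1) : ∑ a ∈ range k, x a + TL N x k = 1 := by
  unfold TL
  rw [Finset.sum_range_add_sum_Ico x hk, h1]

theorem CellShareH_succ {N : ℕ} (x : ℕ → ℝ) {k : ℕ} (hk : k < N) :
    TL N x k = x k + TL N x (k + 1) := by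
  unfold TL
  exact Finset.sum_eq_sum_Ico_succ_bot hk x

theorem pr_CellShareH : CellShareH := by
  intro t N x f ht0 ht hx hsum htop
  obtain ⟨hfN, -, htop2⟩ := htop
  have hTf := CellShareH_split hfN.le hsum
  have h0 : ∀ a, 0 ≤ cs N x f a := by
    intro a
    unfold cs
    split_ifs
    · exact hx a
    · exact CellShareH_TL_nonneg hx f
    · exact le_rfl
  refine ⟨h0, ?_, ?_, ?_, ?_⟩
  · intro M hM
    have h1 : ∑ a ∈ range (f + 1), cs N x f a = ∑ a ∈ range M, cs N x f a := by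
      refine Finset.sum_subset ?_ ?_
      · intro a ha
        rw [Finset.mem_range] at ha ⊢
        omega
      · intro a _ ha
        rw [Finset.mem_range] at ha
        unfold cs
        rw [if_neg (by omega), if_neg (by omega)]
    rw [← h1, Finset.sum_range_succ]
    have h2 : ∑ a ∈ range f, cs N x f a = ∑ a ∈ range f, x a := by
      refine Finset.sum_congr rfl fun a ha => ?_
      rw [Finset.mem_range] at ha
      unfold cs
      rw [if_pos ha]
    have h3 : cs N x f f = TL N x f := by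
      unfold cs
      rw [if_neg (lt_irrefl f), if_pos rfl]
    rw [h2, h3, hTf]
  · intro hf
    subst hf
    rw [Finset.sum_range_zero, zero_add] at hTf
    unfold cs
    rw [if_neg (lt_irrefl 0), if_pos rfl, hTf]
  · rintro ⟨-, hhub⟩ a ha
    unfold cs
    by_cases h1 : a < f
    · rw [if_pos h1]
      have h2 : x a ≤ ∑ a ∈ range f, x a :=
        Finset.single_le_sum (fun i _ => hx i) (Finset.mem_range.2 h1)
      linarith
    · rw [if_neg h1, if_neg ha]
      exact ht0.le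
  · intro hf hnh a
    have hnh' : t < 1 - TL N x f := by
      by_contra h
      exact hnh ⟨hf, not_lt.1 h⟩
    unfold cs
    by_cases h1 : a < f
    · rw [if_pos h1]
      have haN : a < N := h1.trans hfN
      have h2 := htop2 a h1
      have h3 := CellShareH_succ x haN
      have h4 := CellShareH_split haN.le hsum
      have h5 : 0 ≤ ∑ a ∈ range a, x a := Finset.sum_nonneg fun i _ => hx i
      have h6 := CellShareH_TL_nonneg (N := N) hx (a + 1)
      by_cases h7 : x a ≤ 1 / 2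
      · linarith
      · have h8 : 1 / 2 < TL N x a := by linarith
        have h9 : t / 2 < TL N x (a + 1) := by
          have h10 : t * (1 / 2) ≤ t * TL N x a := mul_le_mul_of_nonneg_left h8.le ht0.le
          linarith
        linarith
    · rw [if_neg h1]
      by_cases h2 : a = f
      · rw [if_pos h2]
        linarith
      · rw [if_neg h2]
        linarith

end Pool.Agent.MP_0863b8.H

end

section

set_option autoImplicit false

namespace Pool.Agent.MP_0863b8.H

open Finset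

private theorem dg_one (γ : ℝ) (h1 : 1/2 < γ) (h2 : γ ≤ 5/9) (N : ℕ) (u : ℕ → ℝ) (z : ℝ)
    (hu : ∀ a, 0 ≤ u a) (hs : ∑ a ∈ range N, u a ≤ 1) (hz1 : z ≤ 1)
    (hb : ∀ a < N, u a ≤ 1 - z) :
    ∑ a ∈ range N, (u a) ^ (2 * γ) ≤ 1 - (2 * γ - 1) * z := by
  have hr : 0 ≤ 1 - (2 * γ - 1) * z := by nlinarith
  have key : ∀ a ∈ range N, (u a) ^ (2 * γ) ≤ u a * (1 - (2 * γ - 1) * z) := by
    intro a ha
    have ha' := Finset.mem_range.mp ha
    have e1 : (u a) ^ (2 * γ) = u a * (u a) ^ (2 * γ - 1) := by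
      rcases eq_or_lt_of_le (hu a) with h0 | h0
      · rw [← h0, Real.zero_rpow (by linarith)]
        simp
      · have : (2 * γ) = 1 + (2 * γ - 1) := by ring
        conv_lhs => rw [this]
        rw [Real.rpow_add h0, Real.rpow_one]
    rw [e1]
    apply mul_le_mul_of_nonneg_left _ (hu a)
    have e2 : (u a) ^ (2 * γ - 1) ≤ (1 - z) ^ (2 * γ - 1) :=
      Real.rpow_le_rpow (hu a) (hb a ha') (by linarith)
    have e3 : (1 + (-z)) ^ (2 * γ - 1) ≤ 1 + (2 * γ - 1) * (-z) :=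
      rpow_one_add_le_one_add_mul_self (by linarith) (by linarith) (by linarith)
    have e4 : (1 + (-z)) = 1 - z := by ring
    rw [e4] at e3
    linarith
  calc ∑ a ∈ range N, (u a) ^ (2 * γ)
      ≤ ∑ a ∈ range N, u a * (1 - (2 * γ - 1) * z) := Finset.sum_le_sum key
    _ = (∑ a ∈ range N, u a) * (1 - (2 * γ - 1) * z) := by rw [Finset.sum_mul]
    _ ≤ 1 * (1 - (2 * γ - 1) * z) := mul_le_mul_of_nonneg_right hs hr
    _ = 1 - (2 * γ - 1) * z := one_mul _

theorem pr_DiagH : DiagH := by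
  intro γ h1 h2
  refine ⟨(2 * γ - 1) / 2, by linarith, by linarith, ?_⟩
  intro N u v z w hu hv hsu hsv _ hz1 _ hw1 hbu hbv
  have hA := dg_one γ h1 h2 N u z hu hsu hz1 hbu
  have hB := dg_one γ h1 h2 N v w hv hsv hw1 hbv
  have key : ∀ a ∈ range N, (u a * v a) ^ γ ≤ ((u a) ^ (2 * γ) + (v a) ^ (2 * γ)) / 2 := by
    intro a _
    rw [Real.mul_rpow (hu a) (hv a)]
    have e1 : (u a) ^ (2 * γ) = ((u a) ^ γ) ^ 2 := by
      rw [← Real.rpow_natCast, ← Real.rpow_mul (hu a)]
      congr 1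
      push_cast
      ring
    have e2 : (v a) ^ (2 * γ) = ((v a) ^ γ) ^ 2 := by
      rw [← Real.rpow_natCast, ← Real.rpow_mul (hv a)]
      congr 1
      push_cast
      ring
    rw [e1, e2]
    nlinarith [sq_nonneg ((u a) ^ γ - (v a) ^ γ)]
  have hsum := Finset.sum_le_sum key
  rw [← Finset.sum_div, Finset.sum_add_distrib] at hsum
  linarith

end Pool.Agent.MP_0863b8.H

end

section

set_option autoImplicit false

namespace Pool.Agent.MP_0863b8.H

open Finset

theorem pr_DiagNeH (h : DiagH) : DiagNeH := by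
  intro γ hγ1 hγ2
  obtain ⟨c, hc0, hc1, hc⟩ := h γ hγ1 hγ2
  refine ⟨c / 8, by positivity, ?_⟩
  intro N u v i j hu hv hu1 hv1 hi hj hij hui hvj
  have hiN : i ∈ range N := Finset.mem_range.mpr hi
  have hjN : j ∈ range N := Finset.mem_range.mpr hj
  have hub : ∀ a < N, u a ≤ 1 := fun a ha =>
    (Finset.single_le_sum (fun b _ => hu b) (Finset.mem_range.mpr ha)).trans hu1
  have hvb : ∀ a < N, v a ≤ 1 := fun a ha =>
    (Finset.single_le_sum (fun b _ => hv b) (Finset.mem_range.mpr ha)).trans hv1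
  by_cases h1 : u i ≤ 7 / 8
  · have := hc N u v (1 / 8) 0 hu hv hu1 hv1 (by norm_num) (by norm_num) (by norm_num) (by norm_num)
      (fun a ha => (hui a ha).trans (by linarith)) (fun a ha => by simpa using hvb a ha)
    linarith
  by_cases h2 : v j ≤ 7 / 8
  · have := hc N u v 0 (1 / 8) hu hv hu1 hv1 (by norm_num) (by norm_num) (by norm_num) (by norm_num)
      (fun a ha => by simpa using hub a ha) (fun a ha => (hvj a ha).trans (by linarith))
    linarith
  push Not at h1 h2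
  have key : ∀ a ∈ range N, (u a * v a) ^ γ ≤ Real.sqrt (u a * v a) := by
    intro a ha
    have ha' := Finset.mem_range.mp ha
    rw [Real.sqrt_eq_rpow]
    apply Real.rpow_le_rpow_of_exponent_ge' (mul_nonneg (hu a) (hv a))
    · exact mul_le_one₀ (hub a ha') (hv a) (hvb a ha')
    · norm_num
    · linarith
  have hjN' : j ∈ (range N).erase i := Finset.mem_erase.mpr ⟨hij.symm, hjN⟩
  have split : ∀ F : ℕ → ℝ, ∑ a ∈ range N, F a
      = F i + (F j + ∑ a ∈ ((range N).erase i).erase j, F a) := by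
    intro F
    rw [Finset.add_sum_erase _ _ hjN', Finset.add_sum_erase _ _ hiN]
  have hsu := split u
  have hsv := split v
  have hpu : 0 ≤ ∑ a ∈ ((range N).erase i).erase j, u a := Finset.sum_nonneg fun a _ => hu a
  have hpv : 0 ≤ ∑ a ∈ ((range N).erase i).erase j, v a := Finset.sum_nonneg fun a _ => hv a
  have hti : Real.sqrt (u i * v i) ≤ 0.354 := by
    rw [Real.sqrt_le_left (by norm_num)]
    have : v i ≤ 1 / 8 := by have := hv i; linarith
    nlinarith [hub i hi, hu i, hv i]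
  have htj : Real.sqrt (u j * v j) ≤ 0.354 := by
    rw [Real.sqrt_le_left (by norm_num)]
    have : u j ≤ 1 / 8 := by have := hu j; linarith
    nlinarith [hvb j hj, hu j, hv j]
  have htr : ∑ a ∈ ((range N).erase i).erase j, Real.sqrt (u a * v a)
      ≤ ∑ a ∈ ((range N).erase i).erase j, (u a + v a) / 2 := by
    apply Finset.sum_le_sum
    intro a _
    have h3 := hu a
    have h4 := hv a
    rw [Real.sqrt_le_left (by linarith)]
    nlinarith [sq_nonneg (u a - v a)]
  rw [← Finset.sum_div, Finset.sum_add_distrib] at htr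
  have hmain : ∑ a ∈ range N, (u a * v a) ^ γ ≤ ∑ a ∈ range N, Real.sqrt (u a * v a) :=
    Finset.sum_le_sum key
  have hss := split fun a => Real.sqrt (u a * v a)
  have hui0 := hu j
  have hvi0 := hv i
  linarith

end Pool.Agent.MP_0863b8.H

end

section

/-!
MP_0863b8_nt, canonical hub theorem: properties of `ex` and `hb` (item ExHb).
-/

set_option autoImplicit false

namespace Pool.Agent.MP_0863b8.H
namespace NExHb

lemma ex_zero (e : ℝ) (Q : ℕ) (C : Finset ℕ) (n : ℕ) : ex e Q 0 C n = 1 := by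
  simp [ex]

lemma hb_zero (e : ℝ) (Q : ℕ) (C : Finset ℕ) (n : ℕ) : hb e Q 0 C n = 1 := by
  simp [hb]

lemma ex_succ (e : ℝ) (Q P : ℕ) (C : Finset ℕ) (n : ℕ) (h : (P + 1).Prime ∧ Q < P + 1) :
    ex e Q (P + 1) C n =
      (P + 1) ^ (n.factorization (P + 1) - lev e (P + 1) C n) *
      ex e Q P (cell e (P + 1) (lev e (P + 1) C n) C) (n / (P + 1) ^ (lev e (P + 1) C n)) := by
  rw [ex, if_pos h]

lemma ex_succ_neg (e : ℝ) (Q P : ℕ) (C : Finset ℕ) (n : ℕ) (h : ¬ ((P + 1).Prime ∧ Q < P + 1)) :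
    ex e Q (P + 1) C n = ex e Q P C n := by
  rw [ex, if_neg h]

open Classical in
lemma hb_succ (e : ℝ) (Q P : ℕ) (C : Finset ℕ) (n : ℕ) (h : (P + 1).Prime ∧ Q < P + 1) :
    hb e Q (P + 1) C n =
      (if Hub e (P + 1) C ∧ n.factorization (P + 1) + 1 = top e (P + 1) C then P + 1 else 1) *
      hb e Q P (cell e (P + 1) (lev e (P + 1) C n) C) (n / (P + 1) ^ (lev e (P + 1) C n)) := by
  rw [hb, if_pos h]

lemma hb_succ_neg (e : ℝ) (Q P : ℕ) (C : Finset ℕ) (n : ℕ) (h : ¬ ((P + 1).Prime ∧ Q < P + 1)) :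
    hb e Q (P + 1) C n = hb e Q P C n := by
  rw [hb, if_neg h]

lemma lev_le (e : ℝ) (p : ℕ) (C : Finset ℕ) (n : ℕ) : lev e p C n ≤ n.factorization p :=
  min_le_left _ _

lemma rest_pos (e : ℝ) (p : ℕ) (C : Finset ℕ) (n : ℕ) (hn : 0 < n) (hp : p.Prime) :
    0 < n / p ^ (lev e p C n) := by
  apply Nat.div_pos
  · apply Nat.le_of_dvd hn
    exact (pow_dvd_pow p (lev_le e p C n)).trans (Nat.ordProj_dvd n p)
  · exact pow_pos hp.pos _

lemma ex_pos (e : ℝ) (Q P : ℕ) : ∀ (C : Finset ℕ) (n : ℕ), 0 < n → 0 < ex e Q P C n := by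
  induction P with
  | zero => intro C n _; rw [ex_zero]; norm_num
  | succ P ih =>
    intro C n hn
    by_cases h : (P + 1).Prime ∧ Q < P + 1
    · rw [ex_succ e Q P C n h]
      exact Nat.mul_pos (pow_pos (Nat.succ_pos P) _) (ih _ _ (rest_pos e _ C n hn h.1))
    · rw [ex_succ_neg e Q P C n h]
      exact ih _ _ hn

lemma hb_pos (e : ℝ) (Q P : ℕ) : ∀ (C : Finset ℕ) (n : ℕ), 0 < n → 0 < hb e Q P C n := by
  classical
  induction P with
  | zero => intro C n _; rw [hb_zero]; norm_num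
  | succ P ih =>
    intro C n hn
    by_cases h : (P + 1).Prime ∧ Q < P + 1
    · rw [hb_succ e Q P C n h]
      refine Nat.mul_pos ?_ (ih _ _ (rest_pos e _ C n hn h.1))
      split_ifs <;> omega
    · rw [hb_succ_neg e Q P C n h]
      exact ih _ _ hn

lemma ex_primes (e : ℝ) (Q P : ℕ) : ∀ (C : Finset ℕ) (n p : ℕ), p ∣ ex e Q P C n → p.Prime →
    Q < p ∧ p ≤ P := by
  induction P with
  | zero =>
    intro C n p h hp
    rw [ex_zero] at h
    exact absurd (Nat.dvd_one.mp h) hp.one_lt.ne'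
  | succ P ih =>
    intro C n p hd hp
    by_cases h : (P + 1).Prime ∧ Q < P + 1
    · rw [ex_succ e Q P C n h] at hd
      rcases (Nat.Prime.dvd_mul hp).mp hd with h1 | h1
      · have := (Nat.prime_dvd_prime_iff_eq hp h.1).mp (hp.dvd_of_dvd_pow h1)
        subst this
        exact ⟨h.2, le_refl _⟩
      · have := ih _ _ _ h1 hp
        omega
    · rw [ex_succ_neg e Q P C n h] at hd
      have := ih _ _ _ hd hp
      omega

lemma hb_primes (e : ℝ) (Q P : ℕ) : ∀ (C : Finset ℕ) (n p : ℕ), p ∣ hb e Q P C n → p.Prime →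
    Q < p ∧ p ≤ P := by
  classical
  induction P with
  | zero =>
    intro C n p h hp
    rw [hb_zero] at h
    exact absurd (Nat.dvd_one.mp h) hp.one_lt.ne'
  | succ P ih =>
    intro C n p hd hp
    by_cases h : (P + 1).Prime ∧ Q < P + 1
    · rw [hb_succ e Q P C n h] at hd
      rcases (Nat.Prime.dvd_mul hp).mp hd with h1 | h1
      · split_ifs at h1
        · have := (Nat.prime_dvd_prime_iff_eq hp h.1).mp h1
          subst this
          exact ⟨h.2, le_refl _⟩
        · exact absurd (Nat.dvd_one.mp h1) hp.one_lt.ne'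
      · have := ih _ _ _ h1 hp
        omega
    · rw [hb_succ_neg e Q P C n h] at hd
      have := ih _ _ _ hd hp
      omega

lemma ex_fac (e : ℝ) (Q P : ℕ) (C : Finset ℕ) (n p : ℕ) (h : P < p) :
    (ex e Q P C n).factorization p = 0 := by
  by_cases hp : p.Prime
  · apply Nat.factorization_eq_zero_of_not_dvd
    intro hd
    have := ex_primes e Q P C n p hd hp
    omega
  · exact Nat.factorization_eq_zero_of_not_prime _ hp

lemma hb_fac (e : ℝ) (Q P : ℕ) (C : Finset ℕ) (n p : ℕ) (h : P < p) :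
    (hb e Q P C n).factorization p = 0 := by
  by_cases hp : p.Prime
  · apply Nat.factorization_eq_zero_of_not_dvd
    intro hd
    have := hb_primes e Q P C n p hd hp
    omega
  · exact Nat.factorization_eq_zero_of_not_prime _ hp

lemma ex_dvd (e : ℝ) (Q P : ℕ) : ∀ (C : Finset ℕ) (n : ℕ), 0 < n → ex e Q P C n ∣ n := by
  induction P with
  | zero => intro C n _; rw [ex_zero]; exact one_dvd _
  | succ P ih =>
    intro C n hn
    by_cases h : (P + 1).Prime ∧ Q < P + 1
    · rw [ex_succ e Q P C n h]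
      have hl := lev_le e (P + 1) C n
      have hd : (P + 1) ^ (lev e (P + 1) C n) ∣ n :=
        (pow_dvd_pow (P + 1) hl).trans (Nat.ordProj_dvd n (P + 1))
      have h1 : n / (P + 1) ^ (lev e (P + 1) C n) ∣ n := Nat.div_dvd_of_dvd hd
      refine Dvd.dvd.trans ?_ h1
      apply Nat.Coprime.mul_dvd_of_dvd_of_dvd
      · apply Nat.Coprime.pow_left
        rw [Nat.Prime.coprime_iff_not_dvd h.1]
        intro hd2
        have := ex_primes e Q P _ _ _ hd2 h.1
        omega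
      · apply Nat.dvd_div_of_mul_dvd
        rw [← pow_add]
        have : lev e (P + 1) C n + (n.factorization (P + 1) - lev e (P + 1) C n) =
          n.factorization (P + 1) := by omega
        rw [this]
        exact Nat.ordProj_dvd n (P + 1)
      · exact ih _ _ (rest_pos e _ C n hn h.1)
    · rw [ex_succ_neg e Q P C n h]
      exact ih _ _ hn

lemma ex_cmp (e : ℝ) (Q P : ℕ) : ∀ (C : Finset ℕ) (n : ℕ), 0 < n → ∀ p : ℕ, Q < p →
    (ex e Q P C n).factorization p = (ex e 0 P C n).factorization p := by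
  induction P with
  | zero => intro C n _ p _; rw [ex_zero, ex_zero]
  | succ P ih =>
    intro C n hn p hp
    by_cases h1 : (P + 1).Prime
    · by_cases h2 : Q < P + 1
      · rw [ex_succ e Q P C n ⟨h1, h2⟩, ex_succ e 0 P C n ⟨h1, by omega⟩]
        have hr := rest_pos e (P + 1) C n hn h1
        rw [Nat.factorization_mul (pow_pos (Nat.succ_pos P) _).ne' (ex_pos e Q P _ _ hr).ne',
          Nat.factorization_mul (pow_pos (Nat.succ_pos P) _).ne' (ex_pos e 0 P _ _ hr).ne']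
        simp only [Finsupp.add_apply]
        rw [ih _ _ hr p hp]
      · rw [ex_fac e Q (P + 1) C n p (by omega), ex_fac e 0 (P + 1) C n p (by omega)]
    · rw [ex_succ_neg e Q P C n (fun h => h1 h.1), ex_succ_neg e 0 P C n (fun h => h1 h.1)]
      exact ih _ _ hn p hp

lemma hb_cmp (e : ℝ) (Q P : ℕ) : ∀ (C : Finset ℕ) (n : ℕ), 0 < n → ∀ p : ℕ, Q < p →
    (hb e Q P C n).factorization p = (hb e 0 P C n).factorization p := by
  classical
  induction P with
  | zero => intro C n _ p _; rw [hb_zero, hb_zero]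
  | succ P ih =>
    intro C n hn p hp
    by_cases h1 : (P + 1).Prime
    · by_cases h2 : Q < P + 1
      · rw [hb_succ e Q P C n ⟨h1, h2⟩, hb_succ e 0 P C n ⟨h1, by omega⟩]
        have hr := rest_pos e (P + 1) C n hn h1
        have hc : (if Hub e (P + 1) C ∧ n.factorization (P + 1) + 1 = top e (P + 1) C
            then P + 1 else 1) ≠ 0 := by
          split_ifs <;> omega
        rw [Nat.factorization_mul hc (hb_pos e Q P _ _ hr).ne',
          Nat.factorization_mul hc (hb_pos e 0 P _ _ hr).ne']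
        simp only [Finsupp.add_apply]
        rw [ih _ _ hr p hp]
      · rw [hb_fac e Q (P + 1) C n p (by omega), hb_fac e 0 (P + 1) C n p (by omega)]
    · rw [hb_succ_neg e Q P C n (fun h => h1 h.1), hb_succ_neg e 0 P C n (fun h => h1 h.1)]
      exact ih _ _ hn p hp

end NExHb

theorem pr_ExHb : ExHb := by
  intro e Q P V n hn
  exact ⟨NExHb.ex_pos e Q P V n hn, NExHb.hb_pos e Q P V n hn, NExHb.ex_dvd e Q P V n hn,
    fun p hd hp => NExHb.ex_primes e Q P V n p hd hp,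
    fun p hd hp => NExHb.hb_primes e Q P V n p hd hp,
    fun p hp => ⟨NExHb.ex_cmp e Q P V n hn p hp, NExHb.hb_cmp e Q P V n hn p hp⟩⟩

end Pool.Agent.MP_0863b8.H

end

section

set_option autoImplicit false

namespace Pool.Agent.MP_0863b8.H

open Finset

namespace GoodHHH_aux

/-- the sum of the small cells -/
theorem sum_small {γ : ℝ} (h1 : 1/2 ≤ γ) (n : ℕ) (x y : ℕ → ℝ) (hx : ∀ a, 0 ≤ x a)
    (hy : ∀ a, 0 ≤ y a) :
    ∑ i ∈ range n, (x i * y i) ^ γ ≤
      ((∑ i ∈ range n, x i) * (∑ i ∈ range n, y i)) ^ γ := by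
  set z := ∑ i ∈ range n, x i with hz
  set w := ∑ i ∈ range n, y i with hw
  have hγ : 0 < γ := by linarith
  have hz0 : 0 ≤ z := Finset.sum_nonneg fun i _ => hx i
  have hw0 : 0 ≤ w := Finset.sum_nonneg fun i _ => hy i
  have hxz : ∀ i ∈ range n, x i ≤ z := fun i hi =>
    Finset.single_le_sum (f := x) (fun i _ => hx i) hi
  have hyw : ∀ i ∈ range n, y i ≤ w := fun i hi =>
    Finset.single_le_sum (f := y) (fun i _ => hy i) hi
  rcases hz0.eq_or_lt with hz1 | hz1
  · have : ∀ i ∈ range n, (x i * y i) ^ γ = 0 := by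
      intro i hi
      have : x i = 0 := le_antisymm (by rw [hz1]; exact hxz i hi) (hx i)
      rw [this, zero_mul, Real.zero_rpow hγ.ne']
    rw [Finset.sum_congr rfl this, Finset.sum_const_zero]
    positivity
  rcases hw0.eq_or_lt with hw1 | hw1
  · have : ∀ i ∈ range n, (x i * y i) ^ γ = 0 := by
      intro i hi
      have : y i = 0 := le_antisymm (by rw [hw1]; exact hyw i hi) (hy i)
      rw [this, mul_zero, Real.zero_rpow hγ.ne']
    rw [Finset.sum_congr rfl this, Finset.sum_const_zero]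
    positivity
  have key : ∀ i ∈ range n, (x i * y i) ^ γ ≤ (z * w) ^ γ * ((x i / z + y i / w) / 2) := by
    intro i hi
    have e1 : x i * y i = (z * w) * ((x i / z) * (y i / w)) := by
      field_simp
    have a0 : 0 ≤ x i / z := div_nonneg (hx i) hz0
    have b0 : 0 ≤ y i / w := div_nonneg (hy i) hw0
    have a1 : x i / z ≤ 1 := (div_le_one hz1).mpr (hxz i hi)
    have b1 : y i / w ≤ 1 := (div_le_one hw1).mpr (hyw i hi)
    rw [e1, Real.mul_rpow (by positivity) (by positivity)]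
    apply mul_le_mul_of_nonneg_left _ (by positivity)
    calc ((x i / z) * (y i / w)) ^ γ ≤ ((x i / z) * (y i / w)) ^ (1/2 : ℝ) := by
          rcases (mul_nonneg a0 b0).eq_or_lt with h0 | h0
          · rw [← h0, Real.zero_rpow hγ.ne', Real.zero_rpow (by norm_num)]
          · exact Real.rpow_le_rpow_of_exponent_ge h0 (mul_le_one₀ a1 b0 b1) h1
      _ ≤ (x i / z + y i / w) / 2 := by
          have := Real.geom_mean_le_arith_mean2_weighted (w₁ := 1/2) (w₂ := 1/2)
            (by norm_num) (by norm_num) a0 b0 (by norm_num)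
          rw [Real.mul_rpow a0 b0]
          linarith
  calc ∑ i ∈ range n, (x i * y i) ^ γ
      ≤ ∑ i ∈ range n, (z * w) ^ γ * ((x i / z + y i / w) / 2) := Finset.sum_le_sum key
    _ = (z * w) ^ γ * ((∑ i ∈ range n, x i) / z + (∑ i ∈ range n, y i) / w) / 2 := by
        rw [← Finset.mul_sum, ← Finset.sum_div, Finset.sum_add_distrib, ← Finset.sum_div,
          ← Finset.sum_div]
        ring
    _ = (z * w) ^ γ := by
        rw [← hz, ← hw, div_self hz1.ne', div_self hw1.ne']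
        ring

theorem om_nonneg {γ p : ℝ} (hp : 0 < p) (i : ℕ) : 0 ≤ om γ p i := by
  unfold om; split_ifs <;> positivity

theorem om_le_one {γ p : ℝ} (hγ : 0 ≤ γ) (hp : 0 < p) (i : ℕ) : om γ p i ≤ 1 := by
  unfold om
  split_ifs
  · exact le_rfl
  · apply Real.rpow_le_one_of_one_le_of_nonpos
    · have : 0 < 2 / p := by positivity
      linarith
    · linarith

/-- the loss of the open cell -/
theorem om_sq {γ p : ℝ} (h1 : 1/2 ≤ γ) (hp : 0 < p) (i : ℕ) (hi : i ≠ 0) :
    om γ p i * om γ p i ≤ 1 - 4 * γ / p + (4 * γ / p) ^ 2 := by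
  unfold om
  rw [if_neg hi]
  have hu : 0 < 2 / p := by positivity
  have e : (1 + 2 / p) ^ (-γ) * (1 + 2 / p) ^ (-γ) = ((1 + 2 / p) ^ (2 * γ))⁻¹ := by
    rw [← Real.rpow_add (by linarith), ← Real.rpow_neg (by linarith)]
    congr 1; ring
  rw [e]
  have hB : 1 + 4 * γ / p ≤ (1 + 2 / p) ^ (2 * γ) := by
    have := one_add_mul_self_le_rpow_one_add (s := 2 / p) (p := 2 * γ) (by linarith) (by linarith)
    calc 1 + 4 * γ / p = 1 + 2 * γ * (2 / p) := by ring
      _ ≤ _ := this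
  have ha : 0 ≤ 4 * γ / p := by positivity
  set a := 4 * γ / p with haa
  calc ((1 + 2 / p) ^ (2 * γ))⁻¹ ≤ (1 + a)⁻¹ := inv_anti₀ (by linarith) hB
    _ ≤ 1 - a + a ^ 2 := by
        rw [inv_le_iff_one_le_mul₀ (by linarith)]
        nlinarith [pow_nonneg ha 3]

/-- the numerical estimate of the open cell -/
theorem open_cell {γ z w t a : ℝ} (hγ : 0 < γ) (h2 : γ ≤ 1) (hz0 : 0 ≤ z) (hw0 : 0 ≤ w)
    (hzt : z ≤ t) (hwt : w ≤ t) (ht : t ≤ 1 / 20) (ha0 : 0 ≤ a) :
    (1 - a + a ^ 2) * ((1 - γ * z) * (1 - γ * w)) ≤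
      1 - γ * (z + w) + t ^ 2 - a + a * (γ * (z + w)) + a ^ 2 := by
  have z1 : 0 ≤ γ * z := mul_nonneg hγ.le hz0
  have w1 : 0 ≤ γ * w := mul_nonneg hγ.le hw0
  have z2 : γ * z ≤ z := mul_le_of_le_one_left hz0 h2
  have w2 : γ * w ≤ w := mul_le_of_le_one_left hw0 h2
  have zw : (γ * z) * (γ * w) ≤ t * t :=
    mul_le_mul (z2.trans hzt) (w2.trans hwt) w1 (hz0.trans hzt)
  have zw0 : 0 ≤ (γ * z) * (γ * w) := mul_nonneg z1 w1
  have g2 : 0 ≤ 1 - γ * w := by linarith
  have g3 : (1 - γ * z) * (1 - γ * w) ≤ 1 :=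
    mul_le_one₀ (by linarith) g2 (by linarith)
  have g4 : (1 - γ * z) * (1 - γ * w) = 1 - γ * (z + w) + (γ * z) * (γ * w) := by ring
  have g7 : a ^ 2 * ((1 - γ * z) * (1 - γ * w)) ≤ a ^ 2 :=
    mul_le_of_le_one_right (sq_nonneg a) g3
  have g8 : 0 ≤ a * ((γ * z) * (γ * w)) := mul_nonneg ha0 zw0
  calc (1 - a + a ^ 2) * ((1 - γ * z) * (1 - γ * w))
      = (1 - γ * (z + w)) + (γ * z) * (γ * w) - a + a * (γ * (z + w)) -
        a * ((γ * z) * (γ * w)) + a ^ 2 * ((1 - γ * z) * (1 - γ * w)) := by ring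
    _ ≤ _ := by
      have e : t ^ 2 = t * t := sq t
      rw [e]
      linarith

theorem f2_aux {γ z w t a p : ℝ} (hγ : 0 < γ) (h2 : γ ≤ 5 / 9) (hz0 : 0 ≤ z) (hw0 : 0 ≤ w)
    (hzt : z ≤ t) (hwt : w ≤ t) (ht : t ≤ 1 / 20) (hp : 0 < p) (ha : a ≤ (20 / 9) / p) :
    a * (γ * (z + w)) ≤ 1 / (4 * p) := by
  have g1 : γ * (z + w) ≤ 1 / 18 := by
    calc γ * (z + w) ≤ (5 / 9) * (1 / 10) :=
        mul_le_mul h2 (by linarith) (by linarith) (by norm_num)
      _ = 1 / 18 := by norm_num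
  have g2 : 0 ≤ γ * (z + w) := mul_nonneg hγ.le (by linarith)
  have g3 : 0 < 1 / p := by positivity
  calc a * (γ * (z + w)) ≤ (20 / 9) / p * (1 / 18) :=
        mul_le_mul ha g1 g2 (by positivity)
    _ = (10 / 81) * (1 / p) := by ring
    _ ≤ (1 / 4) * (1 / p) := by linarith
    _ = 1 / (4 * p) := by field_simp

theorem f3_aux {a p : ℝ} (hp : 20 ≤ p) (ha0 : 0 ≤ a) (ha : a ≤ (20 / 9) / p) :
    a ^ 2 ≤ 1 / (4 * p) := by
  have hp' : 0 < p := by linarith
  have g3 : 0 < 1 / p := by positivity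
  have g4 : 1 / p ≤ 1 / 20 := one_div_le_one_div_of_le (by norm_num) hp
  have g5 : (1 / p) * (1 / p) ≤ (1 / 20) * (1 / p) := mul_le_mul_of_nonneg_right g4 g3.le
  calc a ^ 2 ≤ ((20 / 9) / p) ^ 2 := pow_le_pow_left₀ ha0 ha 2
    _ = (400 / 81) * ((1 / p) * (1 / p)) := by ring
    _ ≤ (1 / 4) * (1 / p) := by linarith
    _ = 1 / (4 * p) := by field_simp

end GoodHHH_aux

open GoodHHH_aux in
theorem pr_GoodHHH : GoodHHH := by
  classical
  intro γ h1 h2
  have he : eg γ = (2 * γ - 1) / 4 := rfl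
  -- choice of `p0`
  have t1 : ∀ᶠ p : ℝ in Filter.atTop, p ^ (-(1 - eg γ)) < 1 / 20 := by
    have := tendsto_rpow_neg_atTop (y := 1 - eg γ) (by rw [he]; linarith)
    exact this.eventually (gt_mem_nhds (by norm_num))
  have t2 : ∀ᶠ p : ℝ in Filter.atTop, p ^ (-(1 - 2 * eg γ)) < 1 / 4 := by
    have := tendsto_rpow_neg_atTop (y := 1 - 2 * eg γ) (by rw [he]; linarith)
    exact this.eventually (gt_mem_nhds (by norm_num))
  have t3 : ∀ᶠ p : ℝ in Filter.atTop, p ^ (-(2 * γ * (1 - eg γ) - 1)) < 1 / 4 := by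
    have := tendsto_rpow_neg_atTop (y := 2 * γ * (1 - eg γ) - 1) (by rw [he]; nlinarith)
    exact this.eventually (gt_mem_nhds (by norm_num))
  obtain ⟨p0, hp0⟩ := Filter.eventually_atTop.mp
    (((t1.and t2).and t3).and (Filter.eventually_ge_atTop (20 : ℝ)))
  refine ⟨p0, ?_⟩
  intro p hp N x y f H hprof hx hy
  obtain ⟨⟨⟨c1, c2⟩, c3⟩, c4⟩ := hp0 p hp
  have hp' : 0 < p := by linarith
  have hγ : 0 < γ := by linarith
  set t := p ^ (eg γ - 1) with ht
  have ht0 : 0 < t := Real.rpow_pos_of_pos hp' _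
  have c1' : t ≤ 1 / 20 := by
    have : t = p ^ (-(1 - eg γ)) := by rw [ht]; congr 1; ring
    rw [this]; exact c1.le
  have c2' : t ^ 2 ≤ 1 / (4 * p) := by
    have : t ^ 2 = p ^ (-(1 - 2 * eg γ)) * p⁻¹ := by
      rw [ht, ← Real.rpow_natCast, ← Real.rpow_mul hp'.le, ← Real.rpow_neg_one,
        ← Real.rpow_add hp']
      congr 1; push_cast; ring
    rw [this]
    calc p ^ (-(1 - 2 * eg γ)) * p⁻¹ ≤ 1 / 4 * p⁻¹ := by gcongr
      _ = 1 / (4 * p) := by field_simp
  have c3' : t ^ (2 * γ) ≤ 1 / (4 * p) := by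
    have : t ^ (2 * γ) = p ^ (-(2 * γ * (1 - eg γ) - 1)) * p⁻¹ := by
      rw [ht, ← Real.rpow_mul hp'.le, ← Real.rpow_neg_one, ← Real.rpow_add hp']
      congr 1; ring
    rw [this]
    calc p ^ (-(2 * γ * (1 - eg γ) - 1)) * p⁻¹ ≤ 1 / 4 * p⁻¹ := by gcongr
      _ = 1 / (4 * p) := by field_simp
  obtain ⟨hf1, hz⟩ := hx
  obtain ⟨-, hw⟩ := hy
  obtain ⟨m, rfl⟩ : ∃ m, f = m + 1 := ⟨f - 1, by omega⟩
  have hmN : m + 1 < N := hprof.tx.1
  have split : ∀ u : ℕ → ℝ, ∑ i ∈ range N, u i = ∑ i ∈ range (m + 1), u i + TL N u (m + 1) := by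
    intro u
    unfold TL
    rw [Finset.range_eq_Ico, Finset.range_eq_Ico,
      Finset.sum_Ico_consecutive u (Nat.zero_le _) hmN.le]
  have sx := split x
  have sy := split y
  rw [hprof.x1] at sx
  rw [hprof.y1] at sy
  set z := ∑ i ∈ range (m + 1), x i with hzd
  set w := ∑ i ∈ range (m + 1), y i with hwd
  have hz0 : 0 ≤ z := Finset.sum_nonneg fun i _ => hprof.x0 i
  have hw0 : 0 ≤ w := Finset.sum_nonneg fun i _ => hprof.y0 i
  have hTx : TL N x (m + 1) = 1 - z := by linarith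
  have hTy : TL N y (m + 1) = 1 - w := by linarith
  have hzt : z ≤ t := by linarith
  have hwt : w ≤ t := by linarith
  have hxm : x m ≤ z := Finset.single_le_sum (f := x) (fun i _ => hprof.x0 i)
    (Finset.mem_range.mpr (Nat.lt_succ_self m))
  have hym : y m ≤ w := Finset.single_le_sum (f := y) (fun i _ => hprof.y0 i)
    (Finset.mem_range.mpr (Nat.lt_succ_self m))
  -- the terms
  set T : ℕ → ℕ → ℝ := fun i j =>
    kn γ p i j * (om γ p i * om γ p j) * (cs N x (m + 1) i * cs N y (m + 1) j) ^ γ with hT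
  have hcx : ∀ i, 0 ≤ cs N x (m + 1) i := by
    intro i; unfold cs
    split_ifs
    · exact hprof.x0 i
    · rw [hTx]; linarith
    · exact le_rfl
  have hcy : ∀ i, 0 ≤ cs N y (m + 1) i := by
    intro i; unfold cs
    split_ifs
    · exact hprof.y0 i
    · rw [hTy]; linarith
    · exact le_rfl
  have hT0 : ∀ i j, 0 ≤ T i j := by
    intro i j
    have := om_nonneg (γ := γ) hp' i
    have := om_nonneg (γ := γ) hp' j
    have := hcx i
    have := hcy j
    have : 0 ≤ kn γ p i j := Real.rpow_nonneg hp'.le _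
    simp only [hT]
    positivity
  have hGS : GS γ p N x y H (m + 1) (m + 1) ≤
      ∑ i ∈ range (m + 2), T i i + T m (m + 1) + T (m + 1) m := by
    unfold GS
    have step : ∀ i ∈ range (m + 1 + 1), ∀ j ∈ range (m + 1 + 1),
        (if gc H (m + 1) (m + 1) i j then T i j else 0) ≤
          (if i = j then T i i else 0) + (if i = m then (if j = m + 1 then T m (m + 1) else 0)
            else 0) + (if i = m + 1 then (if j = m then T (m + 1) m else 0) else 0) := by
      intro i _ j _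
      have a1 : 0 ≤ (if i = j then T i i else 0) := by split_ifs <;> simp [hT0]
      have a2 : 0 ≤ (if i = m then (if j = m + 1 then T m (m + 1) else 0) else 0) := by
        split_ifs <;> simp [hT0]
      have a3 : 0 ≤ (if i = m + 1 then (if j = m then T (m + 1) m else 0) else 0) := by
        split_ifs <;> simp [hT0]
      by_cases hg : gc H (m + 1) (m + 1) i j
      · rw [if_pos hg]
        rcases hg with ⟨h, _, _⟩ | ⟨_, _, ⟨h3, h4⟩ | ⟨h3, h4⟩⟩
        · subst h
          rw [if_pos rfl] at a1 ⊢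
          linarith
        · have h3' : i = m := by omega
          subst h3' h4
          rw [if_pos rfl, if_pos rfl] at a2 ⊢
          linarith
        · have h4' : j = m := by omega
          subst h3 h4'
          rw [if_pos rfl, if_pos rfl] at a3 ⊢
          linarith
      · rw [if_neg hg]
        linarith
    calc _ ≤ ∑ i ∈ range (m + 1 + 1), ∑ j ∈ range (m + 1 + 1),
          ((if i = j then T i i else 0) + (if i = m then (if j = m + 1 then T m (m + 1) else 0)
            else 0) + (if i = m + 1 then (if j = m then T (m + 1) m else 0) else 0)) :=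
          Finset.sum_le_sum fun i hi => Finset.sum_le_sum fun j hj => step i hi j hj
      _ = _ := by
          simp only [Finset.sum_add_distrib]
          congr 1
          · congr 1
            · apply Finset.sum_congr rfl
              intro i hi
              rw [Finset.sum_ite_eq, if_pos hi]
            · rw [Finset.sum_eq_single m]
              · rw [Finset.sum_eq_single (m + 1)]
                · simp
                · intro j _ hj; simp [hj]
                · simp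
              · intro i _ hi; simp [hi]
              · intro h; exact absurd (Finset.mem_range.mpr (by omega)) h
          · rw [Finset.sum_eq_single (m + 1)]
            · rw [Finset.sum_eq_single m]
              · simp
              · intro j _ hj; simp [hj]
              · intro h; exact absurd (Finset.mem_range.mpr (by omega)) h
            · intro i _ hi; simp [hi]
            · simp
  rw [Finset.sum_range_succ] at hGS
  -- diagonal, small cells
  have kn1 : ∀ i : ℕ, kn γ p i i = 1 := by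
    intro i; unfold kn; simp
  have hb1 : ∑ i ∈ range (m + 1), T i i ≤ 1 / (4 * p) := by
    have : ∀ i ∈ range (m + 1), T i i ≤ (x i * y i) ^ γ := by
      intro i hi
      have hi' : i < m + 1 := Finset.mem_range.mp hi
      simp only [hT, kn1]
      have e1 : cs N x (m + 1) i = x i := by unfold cs; rw [if_pos hi']
      have e2 : cs N y (m + 1) i = y i := by unfold cs; rw [if_pos hi']
      rw [e1, e2, one_mul]
      have hxy : 0 ≤ x i * y i := mul_nonneg (hprof.x0 i) (hprof.y0 i)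
      have hoo : om γ p i * om γ p i ≤ 1 :=
        mul_le_one₀ (om_le_one hγ.le hp' i) (om_nonneg hp' i) (om_le_one hγ.le hp' i)
      calc om γ p i * om γ p i * (x i * y i) ^ γ ≤ 1 * (x i * y i) ^ γ := by gcongr
        _ = _ := one_mul _
    calc ∑ i ∈ range (m + 1), T i i ≤ ∑ i ∈ range (m + 1), (x i * y i) ^ γ :=
          Finset.sum_le_sum this
      _ ≤ (z * w) ^ γ := sum_small h1.le _ x y hprof.x0 hprof.y0
      _ ≤ (t * t) ^ γ := by gcongr
      _ = t ^ (2 * γ) := by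
          rw [two_mul, Real.rpow_add ht0, Real.mul_rpow ht0.le ht0.le]
      _ ≤ _ := c3'
  -- the open cell
  have ha : 4 * γ / p ≤ (20 / 9) / p := by
    gcongr; linarith
  have ha0 : 0 ≤ 4 * γ / p := by positivity
  have hb2 : T (m + 1) (m + 1) ≤
      (1 - 4 * γ / p + (4 * γ / p) ^ 2) * ((1 - γ * z) * (1 - γ * w)) := by
    simp only [hT, kn1, one_mul]
    have e1 : cs N x (m + 1) (m + 1) = 1 - z := by
      unfold cs; rw [if_neg (lt_irrefl _), if_pos rfl, hTx]
    have e2 : cs N y (m + 1) (m + 1) = 1 - w := by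
      unfold cs; rw [if_neg (lt_irrefl _), if_pos rfl, hTy]
    rw [e1, e2, Real.mul_rpow (by linarith) (by linarith)]
    have b1 : (1 - z) ^ γ ≤ 1 - γ * z := by
      have := rpow_one_add_le_one_add_mul_self (s := -z) (p := γ) (by linarith) hγ.le
        (by linarith)
      calc (1 - z) ^ γ = (1 + -z) ^ γ := by ring_nf
        _ ≤ 1 + γ * -z := this
        _ = _ := by ring
    have b2 : (1 - w) ^ γ ≤ 1 - γ * w := by
      have := rpow_one_add_le_one_add_mul_self (s := -w) (p := γ) (by linarith) hγ.le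
        (by linarith)
      calc (1 - w) ^ γ = (1 + -w) ^ γ := by ring_nf
        _ ≤ 1 + γ * -w := this
        _ = _ := by ring
    have b3 : 0 ≤ (1 - z) ^ γ := Real.rpow_nonneg (by linarith) _
    have b4 : 0 ≤ (1 - w) ^ γ := Real.rpow_nonneg (by linarith) _
    have b5 := om_sq h1.le hp' (m + 1) (Nat.succ_ne_zero m)
    have b6 : 0 ≤ om γ p (m + 1) * om γ p (m + 1) :=
      mul_nonneg (om_nonneg hp' _) (om_nonneg hp' _)
    have b7 : 0 ≤ 1 - γ * z := b3.trans b1
    have b8 : 0 ≤ 1 - 4 * γ / p + (4 * γ / p) ^ 2 := b6.trans b5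
    gcongr
  -- neighbouring cells
  have key : ∀ s : ℝ, 0 ≤ s → p ^ (-(1 - γ)) * s ^ γ ≤ γ * s + (1 - γ) / p := by
    intro s hs
    have := Real.geom_mean_le_arith_mean2_weighted (w₁ := γ) (w₂ := 1 - γ) hγ.le (by linarith)
      hs (inv_nonneg.mpr hp'.le) (by ring)
    rw [Real.inv_rpow hp'.le, ← Real.rpow_neg hp'.le] at this
    calc p ^ (-(1 - γ)) * s ^ γ = s ^ γ * p ^ (-(1 - γ)) := mul_comm _ _
      _ ≤ γ * s + (1 - γ) * p⁻¹ := this
      _ = _ := by rw [div_eq_mul_inv]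
  have hb3 : T m (m + 1) ≤ γ * z + (1 - γ) / p := by
    simp only [hT]
    have e0 : kn γ p m (m + 1 : ℕ) = p ^ (-(1 - γ)) := by
      unfold kn
      congr 1
      push_cast
      rw [show (m : ℝ) - (m + 1) = -1 by ring, abs_neg, abs_one, mul_one]
    have e1 : cs N x (m + 1) m = x m := by unfold cs; rw [if_pos (Nat.lt_succ_self m)]
    have e2 : cs N y (m + 1) (m + 1) = 1 - w := by
      unfold cs; rw [if_neg (lt_irrefl _), if_pos rfl, hTy]
    have e3 := hprof.x0 m
    have hoo : om γ p m * om γ p (m + 1) ≤ 1 :=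
      mul_le_one₀ (om_le_one hγ.le hp' _) (om_nonneg hp' _) (om_le_one hγ.le hp' _)
    have e4 : x m * (1 - w) ≤ z :=
      (mul_le_of_le_one_right e3 (by linarith)).trans hxm
    have e5 : 0 ≤ x m * (1 - w) := mul_nonneg e3 (by linarith)
    have e6 : 0 ≤ p ^ (-(1 - γ)) := Real.rpow_nonneg hp'.le _
    rw [e0, e1, e2]
    calc p ^ (-(1 - γ)) * (om γ p m * om γ p (m + 1)) * (x m * (1 - w)) ^ γ
        ≤ p ^ (-(1 - γ)) * 1 * z ^ γ := by gcongr
      _ ≤ _ := by rw [mul_one]; exact key z hz0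
  have hb4 : T (m + 1) m ≤ γ * w + (1 - γ) / p := by
    simp only [hT]
    have e0 : kn γ p (m + 1 : ℕ) m = p ^ (-(1 - γ)) := by
      unfold kn
      congr 1
      push_cast
      rw [show (m : ℝ) + 1 - m = 1 by ring, abs_one, mul_one]
    have e1 : cs N y (m + 1) m = y m := by unfold cs; rw [if_pos (Nat.lt_succ_self m)]
    have e2 : cs N x (m + 1) (m + 1) = 1 - z := by
      unfold cs; rw [if_neg (lt_irrefl _), if_pos rfl, hTx]
    have e3 := hprof.y0 m
    have hoo : om γ p (m + 1) * om γ p m ≤ 1 :=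
      mul_le_one₀ (om_le_one hγ.le hp' _) (om_nonneg hp' _) (om_le_one hγ.le hp' _)
    have e4 : (1 - z) * y m ≤ w :=
      (mul_le_of_le_one_left e3 (by linarith)).trans hym
    have e5 : 0 ≤ (1 - z) * y m := mul_nonneg (by linarith) e3
    have e6 : 0 ≤ p ^ (-(1 - γ)) := Real.rpow_nonneg hp'.le _
    rw [e0, e1, e2]
    calc p ^ (-(1 - γ)) * (om γ p (m + 1) * om γ p m) * ((1 - z) * y m) ^ γ
        ≤ p ^ (-(1 - γ)) * 1 * w ^ γ := by gcongr
      _ ≤ _ := by rw [mul_one]; exact key w hw0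
  -- conclusion
  have hpc : 0 ≤ p ^ (-1 - cg γ) := Real.rpow_nonneg hp'.le _
  set a := 4 * γ / p with haa
  have q0 : 0 < 1 / p := by positivity
  have f1 : (1 - a + a ^ 2) * ((1 - γ * z) * (1 - γ * w)) ≤
      1 - γ * (z + w) + t ^ 2 - a + a * (γ * (z + w)) + a ^ 2 :=
    open_cell hγ (by linarith) hz0 hw0 hzt hwt c1' ha0
  have f2 : a * (γ * (z + w)) ≤ 1 / (4 * p) := f2_aux hγ (by linarith) hz0 hw0 hzt hwt c1' hp' ha
  have f3 : a ^ 2 ≤ 1 / (4 * p) := f3_aux c4 ha0 ha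
  have f4 : -a + 2 * ((1 - γ) / p) ≤ -(1 / p) := by
    have : -a + 2 * ((1 - γ) / p) = (2 - 6 * γ) * (1 / p) := by
      rw [haa]; field_simp; ring
    rw [this]
    have g1 : (2 - 6 * γ) ≤ -1 := by linarith
    calc (2 - 6 * γ) * (1 / p) ≤ (-1) * (1 / p) := mul_le_mul_of_nonneg_right g1 q0.le
      _ = -(1 / p) := by ring
  have f5 : 4 * (1 / (4 * p)) = 1 / p := by field_simp
  have f6 : T (m + 1) (m + 1) ≤ 1 - γ * (z + w) + t ^ 2 - a + a * (γ * (z + w)) + a ^ 2 :=
    hb2.trans f1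
  calc GS γ p N x y H (m + 1) (m + 1)
      ≤ ∑ i ∈ range (m + 1), T i i + T (m + 1) (m + 1) + T m (m + 1) + T (m + 1) m := hGS
    _ ≤ 1 / (4 * p) + (1 - γ * (z + w) + t ^ 2 - a + a * (γ * (z + w)) + a ^ 2) +
        (γ * z + (1 - γ) / p) + (γ * w + (1 - γ) / p) := by gcongr
    _ = 1 + 1 / (4 * p) + t ^ 2 + a * (γ * (z + w)) + a ^ 2 + (-a + 2 * ((1 - γ) / p)) := by ring
    _ ≤ 1 + 1 / (4 * p) + 1 / (4 * p) + 1 / (4 * p) + 1 / (4 * p) + -(1 / p) := by gcongr
    _ = 1 := by linarith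
    _ ≤ _ := by linarith

end Pool.Agent.MP_0863b8.H

end

section

set_option autoImplicit false

namespace Pool.Agent.MP_0863b8.H

open Finset

private theorem nhh_cs_nonneg (N : ℕ) (x : ℕ → ℝ) (f : ℕ) (hx : ∀ a, 0 ≤ x a) (a : ℕ) :
    0 ≤ cs N x f a := by
  unfold cs TL
  split_ifs
  · exact hx a
  · exact Finset.sum_nonneg (fun i _ => hx i)
  · exact le_rfl

private theorem nhh_om (γ p : ℝ) (hγ : 0 < γ) (hp : 2 ≤ p) (i : ℕ) :
    0 ≤ om γ p i ∧ om γ p i ≤ 1 := by
  unfold om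
  split_ifs
  · exact ⟨zero_le_one, le_rfl⟩
  · have h1 : (0:ℝ) ≤ 2 / p := by positivity
    refine ⟨Real.rpow_nonneg (by linarith) _, ?_⟩
    exact Real.rpow_le_one_of_one_le_of_nonpos (by linarith) (by linarith)

private theorem nhh_kn (γ p : ℝ) (i : ℕ) : kn γ p i i = 1 := by
  unfold kn
  simp

open Classical in
theorem pr_GoodNHH : GoodNHH := by
  intro γ p N x y f g H hγ hp hx hy hH
  have hc : ∀ a, 0 ≤ (cs N x f a * cs N y g a) ^ γ := fun a =>
    Real.rpow_nonneg (mul_nonneg (nhh_cs_nonneg N x f hx a) (nhh_cs_nonneg N y g hy a)) _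
  have hterm : ∀ i ∈ range (f + 1), (∑ j ∈ range (g + 1),
      if gc H f g i j then kn γ p i j * (om γ p i * om γ p j) * (cs N x f i * cs N y g j) ^ γ
      else 0) ≤ (cs N x f i * cs N y g i) ^ γ := by
    intro i hi
    have h1 : ∀ j ∈ range (g + 1),
        (if gc H f g i j then kn γ p i j * (om γ p i * om γ p j) * (cs N x f i * cs N y g j) ^ γ
        else 0) ≤ if j = i then (cs N x f i * cs N y g i) ^ γ else 0 := by
      intro j hj
      by_cases hg : gc H f g i j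
      · have hij : i = j := by
          rcases hg with ⟨h, _, _⟩ | ⟨h1, h2, _⟩
          · exact h
          · exact absurd ⟨h1, h2⟩ hH
        subst hij
        rw [if_pos hg, if_pos rfl, nhh_kn, one_mul]
        have ho := nhh_om γ p hγ hp i
        have : om γ p i * om γ p i ≤ 1 := by nlinarith [ho.1, ho.2]
        calc om γ p i * om γ p i * (cs N x f i * cs N y g i) ^ γ
            ≤ 1 * (cs N x f i * cs N y g i) ^ γ := mul_le_mul_of_nonneg_right this (hc i)
          _ = _ := one_mul _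
      · rw [if_neg hg]
        split_ifs
        · exact hc i
        · exact le_rfl
    refine (Finset.sum_le_sum h1).trans ?_
    rw [Finset.sum_ite_eq']
    split_ifs
    · exact le_rfl
    · exact hc i
  unfold GS
  refine (Finset.sum_le_sum hterm).trans ?_
  refine Finset.sum_le_sum_of_subset_of_nonneg ?_ (fun a _ _ => hc a)
  intro a ha
  rw [Finset.mem_range] at ha ⊢
  have := le_max_left f g
  omega

end Pool.Agent.MP_0863b8.H

end
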