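import Pool.Agent.Work.MP_0863b8_nt.Bd.B05
import Pool.Agent.Work.MP_0863b8_nt.Bd.B02
import Pool.Agent.Work.MP_0863b8_nt.Bd.B03
import Pool.Agent.Work.MP_0863b8_nt.Bd.B06
import Pool.Agent.Work.MP_0863b8_nt.Bd.B01

/-! Bundle of small proof modules (one section per former module). -/

section

/-!
MP_0863b8_nt, canonical hub theorem, item GoodStruct.
-/

set_option autoImplicit false

namespace Pool.Agent.MP_0863b8.H

theorem gstr_key (Q X A : ℕ) (hX : 0 < X) (hA : 0 < A)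
    (h1 : ∀ p : ℕ, p.Prime → Q < p → X.factorization p = A.factorization p)
    (h2 : ∀ p : ℕ, p.Prime → p ∣ A → Q < p) :
    ∃ s : ℕ, 0 < s ∧ (∀ p ∈ s.primeFactors, p ≤ Q) ∧ X = s * A := by
  have hd : A ∣ X := by
    rw [← Nat.factorization_prime_le_iff_dvd hA.ne' hX.ne']
    intro p hp
    rcases Nat.lt_or_ge Q p with h | h
    · exact (h1 p hp h).ge
    · have h3 : ¬ p ∣ A := fun h4 => absurd (h2 p hp h4) (not_lt.mpr h)
      rw [Nat.factorization_eq_zero_of_not_dvd h3]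
      exact Nat.zero_le _
  obtain ⟨s, hs⟩ := hd
  have hs0 : s ≠ 0 := by
    rintro rfl
    simp at hs
    omega
  refine ⟨s, Nat.pos_of_ne_zero hs0, ?_, by rw [hs, Nat.mul_comm]⟩
  intro p hp
  by_contra hlt
  push Not at hlt
  have hpp := Nat.prime_of_mem_primeFactors hp
  have hps := Nat.dvd_of_mem_primeFactors hp
  have h4 := h1 p hpp hlt
  rw [hs, Nat.factorization_mul hA.ne' hs0, Finsupp.add_apply] at h4
  have h5 := hpp.factorization_pos_of_dvd hs0 hps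
  omega

theorem gstr_gcd (n m p : ℕ) (hn : 0 < n) (hm : 0 < m) :
    (n / n.gcd m).factorization p = n.factorization p - m.factorization p := by
  rw [Nat.factorization_div (Nat.gcd_dvd_left n m), Nat.factorization_gcd hn.ne' hm.ne']
  simp only [Finsupp.tsub_apply, Finsupp.inf_apply]
  omega

theorem pr_GoodStruct (m8 : GoodVal) (m9 : ExHb) : GoodStruct := by
  intro e Q P V W n m hn hm hnV hmW hnP hmP hG
  have h8 := m8 e Q P V W n m hn hm hnV hmW hG
  obtain ⟨a1, a2, -, a4, a5, -⟩ := m9 e Q P V n hn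
  obtain ⟨b1, b2, -, b4, b5, -⟩ := m9 e Q P W m hm
  have hX : 0 < n / n.gcd m :=
    Nat.div_pos (Nat.gcd_le_left m hn) (Nat.gcd_pos_of_pos_left m hn)
  have hY : 0 < m / n.gcd m :=
    Nat.div_pos (Nat.gcd_le_right n hm) (Nat.gcd_pos_of_pos_left m hn)
  have hfac : ∀ (k p : ℕ), (∀ q ∈ k.primeFactors, q ≤ P) → P < p → k.factorization p = 0 := by
    intro k p hk hp
    by_contra h
    have : p ∈ k.primeFactors := by
      rw [← Nat.support_factorization]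
      exact Finsupp.mem_support_iff.mpr h
    exact absurd (hk p this) (not_le.mpr hp)
  have hgen : ∀ (x y : ℕ), 0 < x → 0 < y → (∀ p : ℕ, p ∣ x → p.Prime → Q < p ∧ p ≤ P) →
      (∀ p : ℕ, p ∣ y → p.Prime → Q < p ∧ p ≤ P) →
      (∀ p : ℕ, p.Prime → p ∣ x * y → Q < p ∧ p ≤ P) := by
    intro x y _ _ h1 h2 p hp hd
    rcases (Nat.Prime.dvd_mul hp).mp hd with h | h
    · exact h1 p h hp
    · exact h2 p h hp
  obtain ⟨s, hs0, hsQ, hs⟩ := gstr_key Q (n / n.gcd m) (ex e Q P V n * hb e Q P W m) hX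
    (Nat.mul_pos a1 b2) (by
      intro p hp hQp
      rw [gstr_gcd n m p hn hm, Nat.factorization_mul a1.ne' b2.ne', Finsupp.add_apply]
      rcases Nat.lt_or_ge P p with h | h
      · rw [hfac n p hnP h]
        have h3 : ¬ p ∣ ex e Q P V n := fun h4 => absurd (a4 p h4 hp).2 (not_le.mpr h)
        have h5 : ¬ p ∣ hb e Q P W m := fun h4 => absurd (b5 p h4 hp).2 (not_le.mpr h)
        rw [Nat.factorization_eq_zero_of_not_dvd h3, Nat.factorization_eq_zero_of_not_dvd h5]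
        simp
      · exact (h8 p hp hQp h).1) (fun p hp hd => (hgen _ _ a1 b2 a4 b5 p hp hd).1)
  obtain ⟨t, ht0, htQ, ht⟩ := gstr_key Q (m / n.gcd m) (ex e Q P W m * hb e Q P V n) hY
    (Nat.mul_pos b1 a2) (by
      intro p hp hQp
      rw [Nat.gcd_comm n m, gstr_gcd m n p hm hn, Nat.factorization_mul b1.ne' a2.ne',
        Finsupp.add_apply]
      rcases Nat.lt_or_ge P p with h | h
      · rw [hfac m p hmP h]
        have h3 : ¬ p ∣ ex e Q P W m := fun h4 => absurd (b4 p h4 hp).2 (not_le.mpr h)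
        have h5 : ¬ p ∣ hb e Q P V n := fun h4 => absurd (a5 p h4 hp).2 (not_le.mpr h)
        rw [Nat.factorization_eq_zero_of_not_dvd h3, Nat.factorization_eq_zero_of_not_dvd h5]
        simp
      · exact (h8 p hp hQp h).2.1) (fun p hp hd => (hgen _ _ b1 a2 b4 a5 p hp hd).1)
  exact ⟨s, t, hs0, ht0, hsQ, htQ, by rw [hs, Nat.mul_assoc], by rw [ht, Nat.mul_assoc]⟩

end Pool.Agent.MP_0863b8.H

end

section

/-!
MP_0863b8_nt: item MassCmp of the canonical hub theorem.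
-/

set_option autoImplicit false

namespace Pool.Agent.MP_0863b8.H

open Finset
open F (ms en)

lemma mc_fac_one (q : ℕ) : (1:ℝ) ≤ 1 + 2 / (q:ℝ) := by
  have : (0:ℝ) ≤ 2 / (q:ℝ) := by positivity
  linarith

lemma mc_prod_one (s : Finset ℕ) : (1:ℝ) ≤ ∏ q ∈ s, (1 + 2 / (q:ℝ)) := by
  induction s using Finset.induction_on with
  | empty => simp
  | insert a s ha ih =>
    rw [Finset.prod_insert ha]
    have h1 := mc_fac_one a
    nlinarith

lemma mc_prod_mono (s t : Finset ℕ) (h : s ⊆ t) :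
    ∏ q ∈ s, (1 + 2 / (q:ℝ)) ≤ ∏ q ∈ t, (1 + 2 / (q:ℝ)) := by
  rw [← Finset.prod_sdiff h]
  have h1 := mc_prod_one (t \ s)
  have h2 := mc_prod_one s
  nlinarith

lemma mc_wt_nonneg (P n : ℕ) : 0 ≤ wt P n := by
  unfold wt
  have := mc_prod_one (n.primeFactors.filter (fun q => q ≤ P))
  have h2 : (0:ℝ) ≤ (n:ℝ) := Nat.cast_nonneg n
  exact mul_nonneg h2 (by linarith)

lemma mc_wt_succ (P n : ℕ) : wt P n ≤ wt (P + 1) n := by
  unfold wt
  have h2 : (0:ℝ) ≤ (n:ℝ) := Nat.cast_nonneg n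
  refine mul_le_mul_of_nonneg_left (mc_prod_mono _ _ ?_) h2
  intro q hq
  rw [Finset.mem_filter] at hq ⊢
  exact ⟨hq.1, by omega⟩

lemma mc_wt_ge (P n : ℕ) : (n:ℝ) ≤ wt P n := by
  unfold wt
  have := mc_prod_one (n.primeFactors.filter (fun q => q ≤ P))
  have h2 : (0:ℝ) ≤ (n:ℝ) := Nat.cast_nonneg n
  nlinarith

lemma mc_prod_exp (s : Finset ℕ) :
    ∏ q ∈ s, (1 + 2 / (q:ℝ)) ≤ Real.exp (2 * ∑ q ∈ s, (1:ℝ) / q) := by
  rw [Finset.mul_sum, Real.exp_sum]
  refine Finset.prod_le_prod (fun q _ => ?_) (fun q _ => ?_)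
  · have := mc_fac_one q
    linarith
  · have h := Real.add_one_le_exp (2 * ((1:ℝ) / q))
    have h2 : 2 * ((1:ℝ) / q) = 2 / (q:ℝ) := by ring
    rw [h2] at h ⊢
    linarith

lemma mc_wt_le (P n : ℕ) : wt P n ≤ Real.exp (2 * rp n) * n := by
  unfold wt
  have h2 : (0:ℝ) ≤ (n:ℝ) := Nat.cast_nonneg n
  rw [mul_comm]
  refine mul_le_mul_of_nonneg_right ?_ h2
  refine le_trans (mc_prod_mono _ n.primeFactors (Finset.filter_subset _ _)) ?_
  exact mc_prod_exp n.primeFactors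

theorem pr_MassCmp : MassCmp := by
  refine ⟨fun P C => ⟨?_, ?_, ?_⟩, fun C1 P C hC => ?_⟩
  · exact Finset.sum_nonneg (fun n _ => mc_wt_nonneg P n)
  · exact Finset.sum_le_sum (fun n _ => mc_wt_succ P n)
  · exact Finset.sum_le_sum (fun n _ => mc_wt_ge P n)
  · unfold mt ms
    rw [Finset.mul_sum]
    refine Finset.sum_le_sum (fun n hn => ?_)
    refine le_trans (mc_wt_le P n) ?_
    have h2 : (0:ℝ) ≤ (n:ℝ) := Nat.cast_nonneg n
    refine mul_le_mul_of_nonneg_right ?_ h2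
    exact Real.exp_le_exp.mpr (by linarith [hC n hn])

end Pool.Agent.MP_0863b8.H

end

section

/-!
MP_0863b8_nt: item PowH of H/Defs.lean, comparison of the powers of `p`.
-/

set_option autoImplicit false

namespace Pool.Agent.MP_0863b8.H

private theorem powH_le {p κ E : ℝ} (hp : 2 ≤ p) (h : E ≤ -κ) : p ^ E ≤ p ^ (-κ) :=
  Real.rpow_le_rpow_of_exponent_le (by linarith) h

private theorem powH_exists {κ m : ℝ} (hκ : 0 < κ) (hm : 0 < m) :
    ∃ q : ℝ, ∀ p : ℝ, q ≤ p → p ^ (-κ) ≤ m := by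
  have hT := tendsto_rpow_neg_atTop hκ
  obtain ⟨q, hq⟩ := Filter.eventually_atTop.mp (hT.eventually (gt_mem_nhds hm))
  exact ⟨q, fun p hp => (hq p hp).le⟩

theorem pr_PowH : PowH := by
  intro γ C δ h1 h2 hC hδ
  have hε : 0 < 2 * γ - 1 := by linarith
  have hκ0 : 0 < (2 * γ - 1) / 32 := by positivity
  have hm : 0 < min (1/4 : ℝ) (δ / (8 * C)) := by positivity
  obtain ⟨q, hq⟩ := powH_exists hκ0 hm
  refine ⟨max 2 q, le_max_left _ _, fun p hp => ?_⟩
  have hp2 : 2 ≤ p := le_trans (le_max_left _ _) hp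
  have hp0 : 0 < p := by linarith
  have hw := hq p (le_trans (le_max_right _ _) hp)
  generalize hκ : (2 * γ - 1) / 32 = κ at hw hκ0
  have hw1 : p ^ (-κ) ≤ 1/4 := le_trans hw (min_le_left _ _)
  have hw2 : C * (8 * p ^ (-κ)) ≤ δ := by
    have h := le_trans hw (min_le_right _ _)
    rw [le_div_iff₀ (by positivity)] at h
    linarith
  have hwpos : 0 < p ^ (-κ) := Real.rpow_pos_of_pos hp0 _
  -- the exponents
  have hE0 : eg γ - 1 ≤ -κ := by unfold eg; nlinarith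
  have hE1 : cg γ + -(1 - γ) ≤ -κ := by unfold cg; nlinarith
  have hE2 : cg γ + (eg γ - 1) * γ ≤ -κ := by unfold cg eg; nlinarith
  have hE3 : cg γ + (-(1 - γ) + (eg γ - 1) * (γ - 1)) ≤ -κ := by unfold cg eg; nlinarith
  have hE4 : cg γ + (eg γ - 1) * (2 * γ - 1) ≤ -κ := by unfold cg eg; nlinarith
  have hE5 : cg γ + (-(2 * (1 - γ)) + (eg γ - 1) * γ) + (1 + cg γ) ≤ -κ := by
    unfold cg eg; nlinarith
  have hE6 : cg γ + (eg γ - 1) * (2 * γ) + (1 + cg γ) ≤ -κ := by unfold cg eg; nlinarith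
  have hc0 : 0 < p ^ cg γ := Real.rpow_pos_of_pos hp0 _
  have ht0 : 0 < p ^ (eg γ - 1) := Real.rpow_pos_of_pos hp0 _
  have hmul : ∀ x y : ℝ, p ^ x * p ^ y = p ^ (x + y) := fun x y => (Real.rpow_add hp0 x y).symm
  have hpow : ∀ x y : ℝ, (p ^ x) ^ y = p ^ (x * y) := fun x y => (Real.rpow_mul hp0.le x y).symm
  refine ⟨le_trans (powH_le hp2 hE0) hw1, ?_, ?_, ?_⟩
  · have e1 : p ^ cg γ * (p ^ (-(1 - γ)) + (p ^ (eg γ - 1)) ^ γ) =
        p ^ (cg γ + -(1 - γ)) + p ^ (cg γ + (eg γ - 1) * γ) := by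
      rw [mul_add, hpow, hmul, hmul]
    rw [e1]
    have a1 := powH_le hp2 hE1
    have a2 := powH_le hp2 hE2
    have : C * (p ^ (cg γ + -(1 - γ)) + p ^ (cg γ + (eg γ - 1) * γ)) ≤ C * (8 * p ^ (-κ)) := by
      apply mul_le_mul_of_nonneg_left _ hC.le
      linarith
    linarith
  · intro s hs1 hs2
    have hs0 : 0 < s := by linarith
    -- s ^ γ ≤ 2 * s * t ^ (γ - 1)
    have hsg : s ^ γ ≤ 2 * s * (p ^ (eg γ - 1)) ^ (γ - 1) := by
      have b1 : s ^ γ = s * s ^ (γ - 1) := by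
        rw [← Real.rpow_one_add' hs0.le (by linarith)]
        congr 1; ring
      have b2 : s ^ (γ - 1) ≤ (p ^ (eg γ - 1) / 2) ^ (γ - 1) :=
        Real.rpow_le_rpow_of_nonpos (by positivity) hs1 (by linarith)
      have b3 : (p ^ (eg γ - 1) / 2) ^ (γ - 1) =
          (p ^ (eg γ - 1)) ^ (γ - 1) * 2 ^ (1 - γ) := by
        rw [Real.div_rpow ht0.le (by norm_num), div_eq_mul_inv,
          ← Real.rpow_neg (by norm_num)]
        congr 2; ring
      have b4 : (2:ℝ) ^ (1 - γ) ≤ 2 := by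
        calc (2:ℝ) ^ (1 - γ) ≤ 2 ^ (1:ℝ) :=
              Real.rpow_le_rpow_of_exponent_le (by norm_num) (by linarith)
          _ = 2 := Real.rpow_one 2
      have b5 : 0 < (p ^ (eg γ - 1)) ^ (γ - 1) := Real.rpow_pos_of_pos ht0 _
      rw [b1]
      calc s * s ^ (γ - 1) ≤ s * ((p ^ (eg γ - 1)) ^ (γ - 1) * 2 ^ (1 - γ)) := by
            rw [← b3]; exact mul_le_mul_of_nonneg_left b2 hs0.le
        _ ≤ s * ((p ^ (eg γ - 1)) ^ (γ - 1) * 2) := by
            apply mul_le_mul_of_nonneg_left _ hs0.le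
            exact mul_le_mul_of_nonneg_left b4 b5.le
        _ = 2 * s * (p ^ (eg γ - 1)) ^ (γ - 1) := by ring
    have a3 := powH_le hp2 hE3
    have a4 := powH_le hp2 hE4
    -- first product
    have c1 : p ^ cg γ * ((p ^ (-(1 - γ)) + (p ^ (eg γ - 1)) ^ γ) * s ^ γ) ≤
        2 * s * (2 * p ^ (-κ)) := by
      have d1 : p ^ cg γ * ((p ^ (-(1 - γ)) + (p ^ (eg γ - 1)) ^ γ) * s ^ γ) ≤
          p ^ cg γ * ((p ^ (-(1 - γ)) + (p ^ (eg γ - 1)) ^ γ) *
            (2 * s * (p ^ (eg γ - 1)) ^ (γ - 1))) := by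
        apply mul_le_mul_of_nonneg_left _ hc0.le
        apply mul_le_mul_of_nonneg_left hsg
        positivity
      have d2 : p ^ cg γ * ((p ^ (-(1 - γ)) + (p ^ (eg γ - 1)) ^ γ) *
            (2 * s * (p ^ (eg γ - 1)) ^ (γ - 1))) =
          2 * s * (p ^ (cg γ + (-(1 - γ) + (eg γ - 1) * (γ - 1))) +
            p ^ (cg γ + (eg γ - 1) * (2 * γ - 1))) := by
        have f1 : p ^ (cg γ + (-(1 - γ) + (eg γ - 1) * (γ - 1))) =
            p ^ cg γ * (p ^ (-(1 - γ)) * (p ^ (eg γ - 1)) ^ (γ - 1)) := by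
          rw [hpow, hmul, hmul]
        have f2 : p ^ (cg γ + (eg γ - 1) * (2 * γ - 1)) =
            p ^ cg γ * ((p ^ (eg γ - 1)) ^ γ * (p ^ (eg γ - 1)) ^ (γ - 1)) := by
          rw [hpow, hpow, hmul, hmul]
          congr 1; ring
        rw [f1, f2]; ring
      rw [d2] at d1
      refine le_trans d1 ?_
      apply mul_le_mul_of_nonneg_left _ (by positivity)
      linarith
    have c2 : p ^ cg γ * (p ^ (-(1 - γ)) * (p ^ (eg γ - 1)) ^ γ) ≤ 2 * s * p ^ (-κ) := by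
      have f1 : p ^ cg γ * (p ^ (-(1 - γ)) * (p ^ (eg γ - 1)) ^ γ) =
          p ^ (eg γ - 1) * p ^ (cg γ + (-(1 - γ) + (eg γ - 1) * (γ - 1))) := by
        rw [hpow, hmul, hmul, hmul]
        congr 1; ring
      rw [f1]
      exact mul_le_mul (by linarith) a3 (Real.rpow_pos_of_pos hp0 _).le (by positivity)
    have c3 : p ^ cg γ * (p ^ (eg γ - 1)) ^ (2 * γ) ≤ 2 * s * p ^ (-κ) := by
      have f1 : p ^ cg γ * (p ^ (eg γ - 1)) ^ (2 * γ) =
          p ^ (eg γ - 1) * p ^ (cg γ + (eg γ - 1) * (2 * γ - 1)) := by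
        rw [hpow, hmul, hmul]
        congr 1; ring
      rw [f1]
      exact mul_le_mul (by linarith) a4 (Real.rpow_pos_of_pos hp0 _).le (by positivity)
    have c4 : p ^ cg γ * ((p ^ (-(1 - γ)) + (p ^ (eg γ - 1)) ^ γ) * s ^ γ +
        p ^ (-(1 - γ)) * (p ^ (eg γ - 1)) ^ γ + (p ^ (eg γ - 1)) ^ (2 * γ)) ≤
        s * (8 * p ^ (-κ)) := by
      have e1 : p ^ cg γ * ((p ^ (-(1 - γ)) + (p ^ (eg γ - 1)) ^ γ) * s ^ γ +
          p ^ (-(1 - γ)) * (p ^ (eg γ - 1)) ^ γ + (p ^ (eg γ - 1)) ^ (2 * γ)) =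
          p ^ cg γ * ((p ^ (-(1 - γ)) + (p ^ (eg γ - 1)) ^ γ) * s ^ γ) +
          p ^ cg γ * (p ^ (-(1 - γ)) * (p ^ (eg γ - 1)) ^ γ) +
          p ^ cg γ * (p ^ (eg γ - 1)) ^ (2 * γ) := by ring
      rw [e1]; linarith
    calc C * (p ^ cg γ * ((p ^ (-(1 - γ)) + (p ^ (eg γ - 1)) ^ γ) * s ^ γ +
        p ^ (-(1 - γ)) * (p ^ (eg γ - 1)) ^ γ + (p ^ (eg γ - 1)) ^ (2 * γ)))
        ≤ C * (s * (8 * p ^ (-κ))) := mul_le_mul_of_nonneg_left c4 hC.le
      _ = C * (8 * p ^ (-κ)) * s := by ring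
      _ ≤ δ * s := mul_le_mul_of_nonneg_right hw2 hs0.le
  · have a5 := powH_le hp2 hE5
    have a6 := powH_le hp2 hE6
    have hq0 : 0 < p ^ (-1 - cg γ) := Real.rpow_pos_of_pos hp0 _
    have f1 : p ^ cg γ * (p ^ (-(2 * (1 - γ))) * (p ^ (eg γ - 1)) ^ γ +
        (p ^ (eg γ - 1)) ^ (2 * γ)) =
        (p ^ (cg γ + (-(2 * (1 - γ)) + (eg γ - 1) * γ) + (1 + cg γ)) +
          p ^ (cg γ + (eg γ - 1) * (2 * γ) + (1 + cg γ))) * p ^ (-1 - cg γ) := by
      rw [add_mul, hmul, hmul, mul_add, hpow, hpow, hmul, hmul, hmul]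
      congr 2 <;> ring
    rw [f1]
    calc C * ((p ^ (cg γ + (-(2 * (1 - γ)) + (eg γ - 1) * γ) + (1 + cg γ)) +
          p ^ (cg γ + (eg γ - 1) * (2 * γ) + (1 + cg γ))) * p ^ (-1 - cg γ))
        ≤ C * ((8 * p ^ (-κ)) * p ^ (-1 - cg γ)) := by
          apply mul_le_mul_of_nonneg_left _ hC.le
          apply mul_le_mul_of_nonneg_right _ hq0.le
          linarith
      _ = C * (8 * p ^ (-κ)) * p ^ (-1 - cg γ) := by ring
      _ ≤ δ * p ^ (-1 - cg γ) := mul_le_mul_of_nonneg_right hw2 hq0.le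

end Pool.Agent.MP_0863b8.H

end

section

set_option autoImplicit false

namespace Pool.Agent.MP_0863b8.H

open Finset

namespace SchurHAux

/-- sum of powers over an image -/
lemma geo_aux (r : ℝ) (h0 : 0 < r) (h1 : r < 1) (d : ℕ) (s : Finset ℕ) (f : ℕ → ℕ)
    (hf : Set.InjOn f s) (hd : ∀ b ∈ s, d ≤ f b) :
    ∑ b ∈ s, r ^ (f b) ≤ r ^ d / (1 - r) := by
  classical
  have h2 : ∑ b ∈ s, r ^ (f b) = r ^ d * ∑ k ∈ s.image (fun b => f b - d), r ^ k := by
    rw [Finset.sum_image, Finset.mul_sum]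
    · apply Finset.sum_congr rfl
      intro b hb
      rw [← pow_add]
      congr 1
      have := hd b hb
      omega
    · intro b hb c hc hbc
      apply hf hb hc
      have h3 := hd b hb
      have h4 := hd c hc
      simp only at hbc
      omega
  have h3 : ∑ k ∈ s.image (fun b => f b - d), r ^ k ≤ (1 - r)⁻¹ := by
    rw [← tsum_geometric_of_lt_one h0.le h1]
    apply Summable.sum_le_tsum
    · intro i _
      positivity
    · exact summable_geometric_of_lt_one h0.le h1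
  rw [h2, div_eq_mul_inv]
  exact mul_le_mul_of_nonneg_left h3 (by positivity)

lemma kn_pos (γ p : ℝ) (hp : 0 < p) (a b : ℕ) : 0 < kn γ p a b := by
  unfold kn
  positivity

lemma kn_symm (γ p : ℝ) (a b : ℕ) : kn γ p a b = kn γ p b a := by
  unfold kn
  rw [abs_sub_comm]

lemma kn_eq (γ p : ℝ) (hp : 0 < p) (a b : ℕ) (h : b ≤ a) :
    kn γ p a b = (p ^ (-(1 - γ))) ^ (a - b) := by
  unfold kn
  rw [← Real.rpow_natCast, ← Real.rpow_mul hp.le]
  congr 1
  rw [Nat.cast_sub h, abs_of_nonneg]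
  · ring
  · have : (b:ℝ) ≤ a := by exact_mod_cast h
    linarith

/-- row sums -/
lemma row (γ p : ℝ) (hp : 0 < p) (h1 : p ^ (-(1 - γ)) < 1) (d a : ℕ) (s : Finset ℕ)
    (hs : ∀ b ∈ s, (d:ℝ) ≤ |(a:ℝ) - b|) :
    ∑ b ∈ s, kn γ p a b ≤ 2 * ((p ^ (-(1 - γ))) ^ d / (1 - p ^ (-(1 - γ)))) := by
  classical
  have h0 : 0 < p ^ (-(1 - γ)) := by positivity
  rw [← Finset.sum_filter_add_sum_filter_not s (fun b => b ≤ a)]
  have e1 : ∑ b ∈ s with b ≤ a, kn γ p a b ≤ (p ^ (-(1 - γ))) ^ d / (1 - p ^ (-(1 - γ))) := by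
    calc ∑ b ∈ s with b ≤ a, kn γ p a b = ∑ b ∈ s with b ≤ a, (p ^ (-(1 - γ))) ^ (a - b) := by
          apply Finset.sum_congr rfl
          intro b hb
          exact kn_eq γ p hp a b (Finset.mem_filter.1 hb).2
      _ ≤ _ := by
          apply geo_aux _ h0 h1 d _ (fun b => a - b)
          · intro b hb c hc hbc
            have h3 := (Finset.mem_filter.1 hb).2
            have h4 := (Finset.mem_filter.1 hc).2
            simp only at hbc
            omega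
          · intro b hb
            have h3 := (Finset.mem_filter.1 hb).2
            have h4 := hs b (Finset.mem_filter.1 hb).1
            rw [abs_of_nonneg, ← Nat.cast_sub h3] at h4
            · exact_mod_cast h4
            · have : (b:ℝ) ≤ a := by exact_mod_cast h3
              linarith
  have e2 : ∑ b ∈ s with ¬ b ≤ a, kn γ p a b ≤
      (p ^ (-(1 - γ))) ^ d / (1 - p ^ (-(1 - γ))) := by
    calc ∑ b ∈ s with ¬ b ≤ a, kn γ p a b =
          ∑ b ∈ s with ¬ b ≤ a, (p ^ (-(1 - γ))) ^ (b - a) := by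
          apply Finset.sum_congr rfl
          intro b hb
          have h3 := (Finset.mem_filter.1 hb).2
          rw [kn_symm]
          exact kn_eq γ p hp b a (by omega)
      _ ≤ _ := by
          apply geo_aux _ h0 h1 d _ (fun b => b - a)
          · intro b hb c hc hbc
            have h3 := (Finset.mem_filter.1 hb).2
            have h4 := (Finset.mem_filter.1 hc).2
            simp only at hbc
            omega
          · intro b hb
            have h3 := (Finset.mem_filter.1 hb).2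
            have h3' : a ≤ b := by omega
            have h4 := hs b (Finset.mem_filter.1 hb).1
            rw [abs_sub_comm, abs_of_nonneg, ← Nat.cast_sub h3'] at h4
            · exact_mod_cast h4
            · have : (a:ℝ) ≤ b := by exact_mod_cast h3'
              linarith
  linarith

lemma amgm (γ u v : ℝ) (hg : 1/2 < γ) (hu : 0 ≤ u) (hu1 : u ≤ 1) (hv : 0 ≤ v) (hv1 : v ≤ 1) :
    (u * v) ^ γ ≤ (u + v) / 2 := by
  rw [Real.mul_rpow hu hv]
  have h1 : u ^ γ * v ^ γ ≤ ((u ^ γ) ^ 2 + (v ^ γ) ^ 2) / 2 := by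
    nlinarith [sq_nonneg (u ^ γ - v ^ γ)]
  have h2 : ∀ w : ℝ, 0 ≤ w → w ≤ 1 → (w ^ γ) ^ 2 ≤ w := by
    intro w hw hw1
    rw [← Real.rpow_natCast, ← Real.rpow_mul hw]
    calc w ^ (γ * ((2:ℕ):ℝ)) ≤ w ^ (1:ℝ) := by
          apply Real.rpow_le_rpow_of_exponent_ge' hw hw1 (by norm_num)
          push_cast
          linarith
      _ = w := Real.rpow_one w
  linarith [h2 u hu hu1, h2 v hv hv1]

end SchurHAux

open SchurHAux in
theorem pr_SchurH : SchurH := by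
  classical
  intro γ hg1 hg2
  have hq : (2:ℝ) ^ (-(1 - γ)) < 1 := by
    apply Real.rpow_lt_one_of_one_lt_of_neg (by norm_num)
    linarith
  refine ⟨2 / (1 - 2 ^ (-(1 - γ))), ?_, ?_⟩
  · apply div_pos (by norm_num)
    linarith
  intro p hp N d x y A hx hy hA
  have hp0 : 0 < p := by linarith
  have hr1 : p ^ (-(1 - γ)) < 1 := by
    apply Real.rpow_lt_one_of_one_lt_of_neg (by linarith)
    linarith
  have hr2 : p ^ (-(1 - γ)) ≤ 2 ^ (-(1 - γ)) := by
    apply Real.rpow_le_rpow_of_nonpos (by norm_num) hp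
    linarith
  set S := ∑ a ∈ range N, x a with hS
  set T := ∑ a ∈ range N, y a with hT
  have hS0 : 0 ≤ S := Finset.sum_nonneg (fun a _ => hx a)
  have hT0 : 0 ≤ T := Finset.sum_nonneg (fun a _ => hy a)
  have hxS : ∀ a < N, x a ≤ S := fun a ha =>
    Finset.single_le_sum (f := x) (fun i _ => hx i) (Finset.mem_range.2 ha)
  have hyT : ∀ a < N, y a ≤ T := fun a ha =>
    Finset.single_le_sum (f := y) (fun i _ => hy i) (Finset.mem_range.2 ha)
  have hg0 : γ ≠ 0 := by linarith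
  have hC0 : 0 ≤ 2 / (1 - (2:ℝ) ^ (-(1 - γ))) := by
    apply div_nonneg (by norm_num)
    linarith
  have hR0 : 0 ≤ 2 / (1 - (2:ℝ) ^ (-(1 - γ))) * p ^ (-((1 - γ) * d)) * (S * T) ^ γ := by
    have := Real.rpow_nonneg (mul_nonneg hS0 hT0) γ
    have := Real.rpow_nonneg hp0.le (-((1 - γ) * d))
    positivity
  by_cases hz : S * T = 0
  · have : ∑ z ∈ A, kn γ p z.1 z.2 * (x z.1 * y z.2) ^ γ = 0 := by
      apply Finset.sum_eq_zero
      intro z hz'
      obtain ⟨h1, h2, -⟩ := hA z hz'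
      have : x z.1 * y z.2 = 0 := by
        rcases mul_eq_zero.1 hz with h | h
        · have h3 := hxS _ h1
          rw [h] at h3
          rw [le_antisymm h3 (hx _), zero_mul]
        · have h3 := hyT _ h2
          rw [h] at h3
          rw [le_antisymm h3 (hy _), mul_zero]
      rw [this, Real.zero_rpow hg0, mul_zero]
    rw [this]
    exact hR0
  have hS1 : 0 < S := lt_of_le_of_ne hS0 (fun h => hz (by rw [← h, zero_mul]))
  have hT1 : 0 < T := lt_of_le_of_ne hT0 (fun h => hz (by rw [← h, mul_zero]))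
  set K := 2 * ((p ^ (-(1 - γ))) ^ d / (1 - p ^ (-(1 - γ)))) with hK
  -- pointwise
  have key : ∀ z ∈ A, kn γ p z.1 z.2 * (x z.1 * y z.2) ^ γ ≤
      (S * T) ^ γ * (kn γ p z.1 z.2 * ((x z.1 / S + y z.2 / T) / 2)) := by
    intro z hz'
    obtain ⟨h1, h2, -⟩ := hA z hz'
    have e1 : x z.1 * y z.2 = (S * T) * (x z.1 / S * (y z.2 / T)) := by
      field_simp
    have e2 := amgm γ (x z.1 / S) (y z.2 / T) hg1 (div_nonneg (hx _) hS0)
      ((div_le_one hS1).2 (hxS _ h1)) (div_nonneg (hy _) hT0) ((div_le_one hT1).2 (hyT _ h2))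
    rw [e1, Real.mul_rpow (mul_nonneg hS0 hT0)
      (mul_nonneg (div_nonneg (hx _) hS0) (div_nonneg (hy _) hT0))]
    have e3 := mul_le_mul_of_nonneg_left e2 (mul_nonneg (kn_pos γ p hp0 z.1 z.2).le
      (Real.rpow_nonneg (mul_nonneg hS0 hT0) γ))
    calc _ = kn γ p z.1 z.2 * (S * T) ^ γ * (x z.1 / S * (y z.2 / T)) ^ γ := by ring
      _ ≤ _ := e3
      _ = _ := by ring
  -- fibres over the first coordinate
  have f1 : ∑ z ∈ A, kn γ p z.1 z.2 * (x z.1 / S) ≤ K := by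
    have hm : ∀ z ∈ A, z.1 ∈ range N := fun z hz' => Finset.mem_range.2 (hA z hz').1
    rw [← Finset.sum_fiberwise_of_maps_to hm]
    calc ∑ a ∈ range N, ∑ z ∈ A with z.1 = a, kn γ p z.1 z.2 * (x z.1 / S)
        ≤ ∑ a ∈ range N, K * (x a / S) := by
          apply Finset.sum_le_sum
          intro a _
          have h3 : ∑ z ∈ A with z.1 = a, kn γ p z.1 z.2 * (x z.1 / S) =
              (∑ b ∈ (A.filter (fun z => z.1 = a)).image Prod.snd, kn γ p a b) * (x a / S) := by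
            rw [Finset.sum_image, Finset.sum_mul]
            · apply Finset.sum_congr rfl
              intro z hz'
              rw [(Finset.mem_filter.1 hz').2]
            · intro z hz' w hw hzw
              have h5 := (Finset.mem_filter.1 hz').2
              have h6 := (Finset.mem_filter.1 hw).2
              exact Prod.ext (h5.trans h6.symm) hzw
          rw [h3]
          apply mul_le_mul_of_nonneg_right _ (div_nonneg (hx _) hS0)
          apply row γ p hp0 hr1 d a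
          intro b hb
          obtain ⟨z, hz', rfl⟩ := Finset.mem_image.1 hb
          have h5 := (Finset.mem_filter.1 hz').2
          have h6 := (hA z (Finset.mem_filter.1 hz').1).2.2
          rw [h5] at h6
          exact h6
      _ = K := by
          rw [← Finset.mul_sum, ← Finset.sum_div, ← hS, div_self hS1.ne', mul_one]
  have f2 : ∑ z ∈ A, kn γ p z.1 z.2 * (y z.2 / T) ≤ K := by
    have hm : ∀ z ∈ A, z.2 ∈ range N := fun z hz' => Finset.mem_range.2 (hA z hz').2.1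
    rw [← Finset.sum_fiberwise_of_maps_to hm]
    calc ∑ a ∈ range N, ∑ z ∈ A with z.2 = a, kn γ p z.1 z.2 * (y z.2 / T)
        ≤ ∑ a ∈ range N, K * (y a / T) := by
          apply Finset.sum_le_sum
          intro a _
          have h3 : ∑ z ∈ A with z.2 = a, kn γ p z.1 z.2 * (y z.2 / T) =
              (∑ b ∈ (A.filter (fun z => z.2 = a)).image Prod.fst, kn γ p a b) * (y a / T) := by
            rw [Finset.sum_image, Finset.sum_mul]
            · apply Finset.sum_congr rfl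
              intro z hz'
              rw [(Finset.mem_filter.1 hz').2, kn_symm]
            · intro z hz' w hw hzw
              have h5 := (Finset.mem_filter.1 hz').2
              have h6 := (Finset.mem_filter.1 hw).2
              exact Prod.ext hzw (h5.trans h6.symm)
          rw [h3]
          apply mul_le_mul_of_nonneg_right _ (div_nonneg (hy _) hT0)
          apply row γ p hp0 hr1 d a
          intro b hb
          obtain ⟨z, hz', rfl⟩ := Finset.mem_image.1 hb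
          have h5 := (Finset.mem_filter.1 hz').2
          have h6 := (hA z (Finset.mem_filter.1 hz').1).2.2
          rw [h5, abs_sub_comm] at h6
          exact h6
      _ = K := by
          rw [← Finset.mul_sum, ← Finset.sum_div, ← hT, div_self hT1.ne', mul_one]
  have hpow : (p ^ (-(1 - γ))) ^ d = p ^ (-((1 - γ) * d)) := by
    rw [← Real.rpow_natCast, ← Real.rpow_mul hp0.le]
    congr 1
    ring
  have hKle : K ≤ 2 / (1 - (2:ℝ) ^ (-(1 - γ))) * p ^ (-((1 - γ) * d)) := by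
    rw [hK, hpow]
    have h7 : p ^ (-((1 - γ) * d)) / (1 - p ^ (-(1 - γ))) ≤
        p ^ (-((1 - γ) * d)) / (1 - 2 ^ (-(1 - γ))) := by
      apply div_le_div_of_nonneg_left _ (by linarith) (by linarith)
      positivity
    calc _ ≤ 2 * (p ^ (-((1 - γ) * d)) / (1 - 2 ^ (-(1 - γ)))) := by linarith
      _ = _ := by ring
  calc ∑ z ∈ A, kn γ p z.1 z.2 * (x z.1 * y z.2) ^ γ
      ≤ ∑ z ∈ A, (S * T) ^ γ * (kn γ p z.1 z.2 * ((x z.1 / S + y z.2 / T) / 2)) :=
        Finset.sum_le_sum key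
    _ = (S * T) ^ γ * ((∑ z ∈ A, kn γ p z.1 z.2 * (x z.1 / S) +
          ∑ z ∈ A, kn γ p z.1 z.2 * (y z.2 / T)) / 2) := by
        rw [← Finset.mul_sum, ← Finset.sum_add_distrib, Finset.sum_div]
        congr 1
        apply Finset.sum_congr rfl
        intro z _
        ring
    _ ≤ (S * T) ^ γ * K := by
        apply mul_le_mul_of_nonneg_left _ (Real.rpow_nonneg (mul_nonneg hS0 hT0) γ)
        linarith
    _ ≤ (S * T) ^ γ * (2 / (1 - (2:ℝ) ^ (-(1 - γ))) * p ^ (-((1 - γ) * d))) :=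
        mul_le_mul_of_nonneg_left hKle (Real.rpow_nonneg (mul_nonneg hS0 hT0) γ)
    _ = _ := by ring

end Pool.Agent.MP_0863b8.H

end

section

set_option autoImplicit false

namespace Pool.Agent.MP_0863b8.H

open Finset

theorem SP_wt_pos (P n : ℕ) (hn : 0 < n) : 0 < wt P n := by
  unfold wt
  refine mul_pos (by exact_mod_cast hn) (Finset.prod_pos fun q _ => ?_)
  positivity

theorem SP_mt_nonneg (P : ℕ) (C : Finset ℕ) (h : ∀ n ∈ C, 0 < n) : 0 ≤ mt P C :=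
  Finset.sum_nonneg fun n hn => (SP_wt_pos P n (h n hn)).le

theorem SP_sum_sh (p N k : ℕ) (C : Finset ℕ) (h : ∀ n ∈ C, n.factorization p < N) :
    ∑ a ∈ Finset.Ico k N, sh p a C = tl p k C := by
  unfold sh tl mt
  rw [← Finset.sum_fiberwise_of_maps_to (s := C.filter (fun n => k ≤ n.factorization p))
    (t := Finset.Ico k N) (g := fun n => n.factorization p)]
  · refine Finset.sum_congr rfl fun a ha => ?_
    refine Finset.sum_congr ?_ fun _ _ => rfl
    ext n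
    simp only [Finset.mem_filter, Finset.mem_Ico] at ha ⊢
    constructor
    · rintro ⟨h1, h2⟩
      exact ⟨⟨h1, by omega⟩, h2⟩
    · rintro ⟨⟨h1, _⟩, h2⟩
      exact ⟨h1, h2⟩
  · intro n hn
    rw [Finset.mem_filter] at hn
    rw [Finset.mem_Ico]
    exact ⟨hn.2, h n hn.1⟩

theorem pr_ShareProf : ShareProf := by
  intro e p N C hp hC hne
  have hpos : 0 < mt p C := by
    unfold mt
    exact Finset.sum_pos (fun n hn => SP_wt_pos p n (hC n hn).1) hne
  have hN : 1 ≤ N := by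
    obtain ⟨n, hn⟩ := hne
    have := (hC n hn).2
    omega
  have hTL : ∀ k, TL N (fun a => sh p a C / mt p C) k = tl p k C / mt p C := by
    intro k
    unfold TL
    rw [← Finset.sum_div, SP_sum_sh p N k C (fun n hn => (hC n hn).2)]
  have htl0 : tl p 0 C = mt p C := by
    unfold tl
    congr 1
    exact Finset.filter_true_of_mem fun n _ => Nat.zero_le _
  have htlN : tl p N C = 0 := by
    unfold tl mt
    rw [Finset.filter_false_of_mem, Finset.sum_empty]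
    intro n hn h
    have := (hC n hn).2
    omega
  have hp0 : (0:ℝ) < (p:ℝ) ^ (e - 1) := Real.rpow_pos_of_pos (by exact_mod_cast hp.pos) _
  have htlnn : ∀ k, 0 ≤ tl p k C := fun k =>
    SP_mt_nonneg p _ fun n hn => (hC n (Finset.mem_filter.mp hn).1).1
  have hmem : N - 1 ∈ {k : ℕ | tl p (k + 1) C ≤ (p:ℝ) ^ (e - 1) * tl p k C} := by
    change tl p (N - 1 + 1) C ≤ _
    rw [Nat.sub_add_cancel hN, htlN]
    exact mul_nonneg hp0.le (htlnn _)
  have htop : top e p C ≤ N - 1 := Nat.sInf_le hmem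
  refine ⟨fun a => div_nonneg (SP_mt_nonneg p _ fun n hn =>
    (hC n (Finset.mem_filter.mp hn).1).1) hpos.le, ?_, ⟨by omega, ?_, ?_⟩, hTL, ?_⟩
  · have := hTL 0
    unfold TL at this
    rw [Nat.Ico_zero_eq_range] at this
    rw [this, htl0, div_self hpos.ne']
  · rw [hTL, hTL, ← mul_div_assoc]
    have h1 : top e p C ∈ {k : ℕ | tl p (k + 1) C ≤ (p:ℝ) ^ (e - 1) * tl p k C} :=
      Nat.sInf_mem ⟨_, hmem⟩
    exact div_le_div_of_nonneg_right h1 hpos.le
  · intro k hk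
    rw [hTL, hTL, ← mul_div_assoc]
    have h1 : k ∉ {k : ℕ | tl p (k + 1) C ≤ (p:ℝ) ^ (e - 1) * tl p k C} :=
      Nat.notMem_of_lt_sInf hk
    have h2 : (p:ℝ) ^ (e - 1) * tl p k C < tl p (k + 1) C := not_le.mp h1
    exact div_lt_div_of_pos_right h2 hpos
  · unfold Hub HubR
    rw [hTL]
    refine and_congr_right fun _ => ?_
    rw [show (1:ℝ) - tl p (top e p C) C / mt p C = (mt p C - tl p (top e p C) C) / mt p C by
      rw [sub_div, div_self hpos.ne'], div_le_iff₀ hpos]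

end Pool.Agent.MP_0863b8.H

end

section

/-!
MP_0863b8_nt: splitting of the bad pairs at a prime (item SplitBad).
-/

set_option autoImplicit false

namespace Pool.Agent.MP_0863b8.H

open Finset
open F (ms en)
open G (potG)

namespace SplitBad_aux

/-- the lcm after division by powers of `p` -/
theorem lcm_div {p : ℕ} (hp : p.Prime) {n m i j : ℕ} (n0 : 0 < n) (m0 : 0 < m)
    (hn : p ^ i ∣ n) (hm : p ^ j ∣ m)
    (h : i = j ∨ (n.factorization p = i ∧ m.factorization p = j)) :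
    n.lcm m = p ^ (max i j) * (n / p ^ i).lcm (m / p ^ j) := by
  have hp0 : 0 < p := hp.pos
  rcases h with h | ⟨hi, hj⟩
  · subst h
    have en : n = p ^ i * (n / p ^ i) := (Nat.mul_div_cancel' hn).symm
    have em : m = p ^ i * (m / p ^ i) := (Nat.mul_div_cancel' hm).symm
    rw [max_self, ← Nat.lcm_mul_left, ← en, ← em]
  · set n' := n / p ^ i with hn'
    set m' := m / p ^ j with hm'
    have en : n = p ^ i * n' := (Nat.mul_div_cancel' hn).symm
    have em : m = p ^ j * m' := (Nat.mul_div_cancel' hm).symm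
    have hn'l : ¬ p ∣ n' := by
      rw [hn', ← hi]
      exact Nat.not_dvd_ordCompl hp n0.ne'
    have hm'l : ¬ p ∣ m' := by
      rw [hm', ← hj]
      exact Nat.not_dvd_ordCompl hp m0.ne'
    have hn'0 : 0 < n' := Nat.pos_of_ne_zero fun h => hn'l (by rw [h]; exact dvd_zero p)
    have hgg := gcd_split hp hn'l hm'l i j
    rw [← en, ← em] at hgg
    have h1 := Nat.gcd_mul_lcm n m
    have h2 := Nat.gcd_mul_lcm n' m'
    have h3 : 0 < p ^ (min i j) * n'.gcd m' :=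
      Nat.mul_pos (pow_pos hp0 _) (Nat.gcd_pos_of_pos_left _ hn'0)
    apply Nat.eq_of_mul_eq_mul_left h3
    rw [← hgg, h1, hgg]
    have h4 : p ^ i * p ^ j = p ^ (min i j) * p ^ (max i j) := by
      rw [← pow_add, ← pow_add]
      congr 1
      omega
    calc n * m = (p ^ i * n') * (p ^ j * m') := by rw [← en, ← em]
      _ = (p ^ i * p ^ j) * (n' * m') := by ring
      _ = (p ^ (min i j) * p ^ (max i j)) * (n'.gcd m' * n'.lcm m') := by rw [h4, h2]
      _ = _ := by ring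

/-- one fibre -/
theorem fib (p i j : ℕ) (S T : Finset (ℕ × ℕ))
    (h : ∀ t ∈ S, p ^ i ∣ t.1 ∧ p ^ j ∣ t.2 ∧ (t.1 / p ^ i, t.2 / p ^ j) ∈ T) :
    ∑ t ∈ S, (t.1 : ℝ) * t.2 ≤ (p : ℝ) ^ (i + j) * ∑ t ∈ T, (t.1 : ℝ) * t.2 := by
  classical
  set g : ℕ × ℕ → ℕ × ℕ := fun t => (t.1 / p ^ i, t.2 / p ^ j) with hg
  have hinj : Set.InjOn g (S : Set (ℕ × ℕ)) := by
    intro t ht t' ht' heq
    have a := h t (Finset.mem_coe.1 ht)
    have a' := h t' (Finset.mem_coe.1 ht')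
    simp only [hg, Prod.mk.injEq] at heq
    apply Prod.ext
    · rw [← Nat.mul_div_cancel' a.1, ← Nat.mul_div_cancel' a'.1, heq.1]
    · rw [← Nat.mul_div_cancel' a.2.1, ← Nat.mul_div_cancel' a'.2.1, heq.2]
  have hval : ∀ t ∈ S, (t.1 : ℝ) * t.2 = (p : ℝ) ^ (i + j) * (((g t).1 : ℝ) * (g t).2) := by
    intro t ht
    have a := h t ht
    have e1 : (t.1 : ℝ) = (p : ℝ) ^ i * ((t.1 / p ^ i : ℕ) : ℝ) := by
      conv_lhs => rw [← Nat.mul_div_cancel' a.1]
      push_cast; ring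
    have e2 : (t.2 : ℝ) = (p : ℝ) ^ j * ((t.2 / p ^ j : ℕ) : ℝ) := by
      conv_lhs => rw [← Nat.mul_div_cancel' a.2.1]
      push_cast; ring
    show (t.1 : ℝ) * t.2 = (p : ℝ) ^ (i + j) * (((t.1 / p ^ i : ℕ) : ℝ) * ((t.2 / p ^ j : ℕ) : ℝ))
    rw [e1, e2, pow_add]
    ring
  rw [Finset.sum_congr rfl hval, ← Finset.mul_sum]
  refine mul_le_mul_of_nonneg_left ?_ (by positivity)
  rw [← Finset.sum_image (f := fun t : ℕ × ℕ => (t.1:ℝ) * t.2) hinj]
  refine Finset.sum_le_sum_of_subset_of_nonneg ?_ (fun t _ _ => by positivity)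
  intro t ht
  obtain ⟨s, hs, rfl⟩ := Finset.mem_image.1 ht
  exact (h s hs).2.2

/-- one fibre, `en` -/
theorem fib_en (p i j : ℕ) (S : Finset (ℕ × ℕ)) (P : Set ℕ) (V W : Finset ℕ) (L : ℝ)
    (Q : Set (ℕ × ℕ))
    (h : ∀ t ∈ S, p ^ i ∣ t.1 ∧ p ^ j ∣ t.2 ∧ t.1 / p ^ i ∈ V ∧ t.2 / p ^ j ∈ W ∧
      L / 2 < (((t.1 / p ^ i).lcm (t.2 / p ^ j) : ℕ) : ℝ) ∧
      (((t.1 / p ^ i).lcm (t.2 / p ^ j) : ℕ) : ℝ) ≤ L ∧
      ((t.1 / p ^ i) / (t.1 / p ^ i).gcd (t.2 / p ^ j),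
        (t.2 / p ^ j) / (t.1 / p ^ i).gcd (t.2 / p ^ j)) ∈ Q ∧
      ∀ q ∈ ((t.1 / p ^ i).gcd (t.2 / p ^ j)).primeFactors, q ∈ P) :
    ∑ t ∈ S, (t.1 : ℝ) * t.2 ≤ (p : ℝ) ^ (i + j) * en P V W L Q := by
  classical
  unfold en
  apply fib
  intro t ht
  obtain ⟨h1, h2, h3, h4, h5⟩ := h t ht
  exact ⟨h1, h2, Finset.mem_filter.2 ⟨Finset.mem_product.2 ⟨h3, h4⟩, h5⟩⟩

/-- the bounds for the lcm of the divided pair -/
theorem lcm_bd {p k : ℕ} (hp : 0 < p) {L : ℝ} {x y : ℕ} (h : x = p ^ k * y)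
    (h1 : L / 2 < (x : ℝ)) (h2 : (x : ℝ) ≤ L) :
    L / (p : ℝ) ^ k / 2 < (y : ℝ) ∧ (y : ℝ) ≤ L / (p : ℝ) ^ k := by
  have hpk : (0:ℝ) < (p : ℝ) ^ k := by
    have : (0:ℝ) < p := by exact_mod_cast hp
    positivity
  have hx : (x : ℝ) = (p : ℝ) ^ k * y := by rw [h]; push_cast; ring
  rw [hx] at h1 h2
  constructor
  · rw [div_div, mul_comm, ← div_div, div_lt_iff₀ hpk]
    linarith
  · rw [le_div_iff₀ hpk]
    linarith

/-- good pairs of valuations give good pairs of cells -/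
theorem gc_of_gv {H K : Prop} {f g a b : ℕ} (h : gv H K f g a b) :
    gc (H ∧ K) f g (min a f) (min b g) ∧ (min a f = min b g ∨ (min a f = a ∧ min b g = b)) := by
  rcases h with ⟨h1, h2, h3, -⟩ | ⟨h1, h2⟩ | ⟨hH, hK, h1, h2⟩
  · exact ⟨Or.inl ⟨by omega, by omega, by omega⟩, by omega⟩
  · exact ⟨Or.inl ⟨by omega, by omega, by omega⟩, by omega⟩
  · exact ⟨Or.inr ⟨⟨hH, hK⟩, h1, by omega⟩, by omega⟩

end SplitBad_aux

open SplitBad_aux in
theorem pr_SplitBad : SplitBad := by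
  classical
  intro e Q P N V W L hp hQ hV hW
  have hp0 : 0 < P + 1 := hp.pos
  set S := (V ×ˢ W).filter (fun z => L / 2 < ((z.1.lcm z.2 : ℕ) : ℝ) ∧
      ((z.1.lcm z.2 : ℕ) : ℝ) ≤ L ∧ ¬ Good e Q (P + 1) V W z.1 z.2) with hS
  have hbad : bad e Q (P + 1) V W L = ∑ t ∈ S, (t.1 : ℝ) * t.2 := by
    unfold bad
    rw [hS]
  rw [hbad, ← Finset.sum_filter_add_sum_filter_not S
    (fun z => ¬ gat e (P + 1) V W z.1 z.2)]
  refine add_le_add ?_ ?_
  · -- not good at `P + 1`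
    set f : ℕ × ℕ → ℕ × ℕ := fun t => (t.1.factorization (P + 1), t.2.factorization (P + 1)) with hf
    have hmaps : ∀ t ∈ S.filter (fun z => ¬ gat e (P + 1) V W z.1 z.2),
        f t ∈ (Finset.range N ×ˢ Finset.range N : Finset (ℕ × ℕ)) := by
      intro t ht
      rw [Finset.mem_filter, hS, Finset.mem_filter, Finset.mem_product] at ht
      rw [Finset.mem_product, Finset.mem_range, Finset.mem_range]
      exact ⟨(hV _ ht.1.1.1).2, (hW _ ht.1.1.2).2⟩
    rw [← Finset.sum_fiberwise_of_maps_to hmaps, Finset.sum_product]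
    refine Finset.sum_le_sum fun a _ => Finset.sum_le_sum fun b _ => ?_
    split_ifs with hgv
    · refine le_of_eq (Finset.sum_eq_zero ?_)
      intro t ht
      exfalso
      rw [Finset.mem_filter, Finset.mem_filter] at ht
      obtain ⟨⟨-, h1⟩, h2⟩ := ht
      apply h1
      simp only [hf, Prod.mk.injEq] at h2
      unfold gat
      rw [h2.1, h2.2]
      exact hgv
    · apply fib_en
      intro t ht
      rw [Finset.mem_filter, Finset.mem_filter, hS, Finset.mem_filter, Finset.mem_product] at ht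
      obtain ⟨⟨⟨⟨hv, hw⟩, hL1, hL2, -⟩, -⟩, h2⟩ := ht
      simp only [hf, Prod.mk.injEq] at h2
      obtain ⟨ha, hb⟩ := h2
      have d1 : (P + 1) ^ a ∣ t.1 := by rw [← ha]; exact Nat.ordProj_dvd _ _
      have d2 : (P + 1) ^ b ∣ t.2 := by rw [← hb]; exact Nat.ordProj_dvd _ _
      have hl := lcm_div hp (hV _ hv).1 (hW _ hw).1 d1 d2 (Or.inr ⟨ha, hb⟩)
      have hbd := lcm_bd hp0 hl hL1 hL2
      refine ⟨d1, d2, ?_, ?_, hbd.1, hbd.2, Set.mem_univ _, fun _ _ => Set.mem_univ _⟩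
      · unfold part
        exact Finset.mem_image.2 ⟨t.1, Finset.mem_filter.2 ⟨hv, ha⟩, rfl⟩
      · unfold part
        exact Finset.mem_image.2 ⟨t.2, Finset.mem_filter.2 ⟨hw, hb⟩, rfl⟩
  · -- good at `P + 1`
    set f : ℕ × ℕ → ℕ × ℕ := fun t => (lev e (P + 1) V t.1, lev e (P + 1) W t.2) with hf
    have hmaps : ∀ t ∈ S.filter (fun z => ¬ ¬ gat e (P + 1) V W z.1 z.2),
        f t ∈ (Finset.range (top e (P + 1) V + 1) ×ˢ Finset.range (top e (P + 1) W + 1) :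
          Finset (ℕ × ℕ)) := by
      intro t _
      rw [Finset.mem_product, Finset.mem_range, Finset.mem_range]
      exact ⟨Nat.lt_succ_of_le (min_le_right _ _), Nat.lt_succ_of_le (min_le_right _ _)⟩
    rw [← Finset.sum_fiberwise_of_maps_to hmaps, Finset.sum_product]
    refine Finset.sum_le_sum fun i _ => Finset.sum_le_sum fun j _ => ?_
    split_ifs with hgc
    · unfold bad
      apply fib
      intro t ht
      rw [Finset.mem_filter, Finset.mem_filter, hS, Finset.mem_filter, Finset.mem_product] at ht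
      obtain ⟨⟨⟨⟨hv, hw⟩, hL1, hL2, hG⟩, hg⟩, h2⟩ := ht
      simp only [hf, Prod.mk.injEq] at h2
      obtain ⟨hi, hj⟩ := h2
      rw [not_not] at hg
      have hGG : ¬ Good e Q P (cell e (P + 1) i V) (cell e (P + 1) j W)
          (t.1 / (P + 1) ^ i) (t.2 / (P + 1) ^ j) := by
        intro hh
        apply hG
        rw [Good, if_pos ⟨hp, hQ⟩]
        refine ⟨hg, ?_⟩
        rw [hi, hj]
        exact hh
      have hgv := gc_of_gv (show gv (Hub e (P + 1) V) (Hub e (P + 1) W) (top e (P + 1) V)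
        (top e (P + 1) W) (t.1.factorization (P + 1)) (t.2.factorization (P + 1)) from hg)
      have hi' : min (t.1.factorization (P + 1)) (top e (P + 1) V) = i := hi
      have hj' : min (t.2.factorization (P + 1)) (top e (P + 1) W) = j := hj
      rw [hi', hj'] at hgv
      have d1 : (P + 1) ^ i ∣ t.1 :=
        (pow_dvd_pow _ (by omega)).trans (Nat.ordProj_dvd t.1 (P + 1))
      have d2 : (P + 1) ^ j ∣ t.2 :=
        (pow_dvd_pow _ (by omega)).trans (Nat.ordProj_dvd t.2 (P + 1))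
      refine ⟨d1, d2, ?_⟩
      have hl := lcm_div hp (hV _ hv).1 (hW _ hw).1 d1 d2 (by
        rcases hgv.2 with h | ⟨h, h'⟩
        · exact Or.inl h
        · exact Or.inr ⟨h.symm, h'.symm⟩)
      have hbd := lcm_bd hp0 hl hL1 hL2
      rw [Finset.mem_filter, Finset.mem_product]
      refine ⟨⟨?_, ?_⟩, hbd.1, hbd.2, hGG⟩
      · unfold cell
        exact Finset.mem_image.2 ⟨t.1, Finset.mem_filter.2 ⟨hv, hi⟩, rfl⟩
      · unfold cell
        exact Finset.mem_image.2 ⟨t.2, Finset.mem_filter.2 ⟨hw, hj⟩, rfl⟩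
    · refine le_of_eq (Finset.sum_eq_zero ?_)
      intro t ht
      exfalso
      rw [Finset.mem_filter, Finset.mem_filter] at ht
      obtain ⟨⟨-, hg⟩, h2⟩ := ht
      rw [not_not] at hg
      simp only [hf, Prod.mk.injEq] at h2
      apply hgc
      have hgv := gc_of_gv (show gv (Hub e (P + 1) V) (Hub e (P + 1) W) (top e (P + 1) V)
        (top e (P + 1) W) (t.1.factorization (P + 1)) (t.2.factorization (P + 1)) from hg)
      have hi' : min (t.1.factorization (P + 1)) (top e (P + 1) V) = i := h2.1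
      have hj' : min (t.2.factorization (P + 1)) (top e (P + 1) W) = j := h2.2
      rw [hi', hj'] at hgv
      exact hgv.1

end Pool.Agent.MP_0863b8.H

end

section

/-!
MP_0863b8_nt, canonical hub theorem, item StepBad: the induction step.
-/

set_option autoImplicit false

namespace Pool.Agent.MP_0863b8.H

open Finset
open F (ms en)
open G (potG)

private theorem sb_rp_mono (u v : ℕ) (h : u ∣ v) (hv : 0 < v) : rp u ≤ rp v := by
  unfold rp
  refine sum_le_sum_of_subset_of_nonneg ?_ (fun p _ _ => by positivity)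
  exact Nat.primeFactors_mono h hv.ne'

private theorem sb_part_pos (l i : ℕ) (V : Finset ℕ) (C1 : ℝ)
    (hV : ∀ v ∈ V, 0 < v ∧ rp v ≤ C1) : ∀ u ∈ part l i V, 0 < u ∧ rp u ≤ C1 := by
  intro u hu
  unfold part at hu
  rw [mem_image] at hu
  obtain ⟨v, hv, rfl⟩ := hu
  rw [mem_filter] at hv
  have hd : l ^ i ∣ v := by
    have := Nat.ordProj_dvd v l
    rwa [hv.2] at this
  have hv0 := (hV v hv.1).1
  have hpos : 0 < v / l ^ i := Nat.div_pos (Nat.le_of_dvd hv0 hd) (Nat.pos_of_dvd_of_pos hd hv0)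
  refine ⟨hpos, le_trans ?_ (hV v hv.1).2⟩
  exact sb_rp_mono _ _ (Nat.div_dvd_of_dvd hd) hv0

private theorem sb_expo (l : ℝ) (hl : 0 < l) (γ : ℝ) (i j : ℕ) :
    l ^ (i + j) * (((l ^ (max i j))⁻¹) ^ (2 * (1 - γ)) *
      ((l ^ i)⁻¹ * (l ^ j)⁻¹) ^ γ) = kn γ l i j := by
  unfold kn
  have e1 : l ^ (i + j) = l ^ (((i:ℝ) + j)) := by
    rw [← Real.rpow_natCast]; push_cast; rfl
  have e3 : ((l ^ (max i j))⁻¹) ^ (2 * (1 - γ)) =
      l ^ (-(((max i j : ℕ) : ℝ) * (2 * (1 - γ)))) := by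
    rw [← Real.rpow_natCast, ← Real.rpow_neg hl.le, ← Real.rpow_mul hl.le]
    congr 1
    ring
  have e4 : ((l ^ i)⁻¹ * (l ^ j)⁻¹) ^ γ = l ^ (-(((i:ℝ) + j) * γ)) := by
    rw [← mul_inv, ← pow_add, ← Real.rpow_natCast, ← Real.rpow_neg hl.le, ← Real.rpow_mul hl.le]
    congr 1
    push_cast
    ring
  rw [e1, e3, e4, ← Real.rpow_add hl, ← Real.rpow_add hl]
  congr 1
  rcases le_total i j with h | h
  · have h' : (i:ℝ) ≤ j := by exact_mod_cast h
    rw [abs_of_nonpos (by linarith), max_eq_right h]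
    ring
  · have h' : (j:ℝ) ≤ i := by exact_mod_cast h
    rw [abs_of_nonneg (by linarith), max_eq_left h]
    ring

/-- the general piece: `m1 ≤ X * x / l^i * o1`, `m2 ≤ Y * y / l^j * o2` -/
private theorem sb_piece (l : ℝ) (hl : 0 < l) (γ L E : ℝ) (hγ : 0 < γ) (hL : 0 ≤ L) (hE : 0 ≤ E)
    (i j : ℕ) (m1 m2 X Y x y o1 o2 : ℝ) (h1 : 0 ≤ m1) (h2 : 0 ≤ m2) (hX : 0 ≤ X) (hY : 0 ≤ Y)
    (hx : 0 ≤ x) (hy : 0 ≤ y) (ho1 : 0 ≤ o1) (ho2 : 0 ≤ o2)
    (hm1 : m1 ≤ X * x * (l ^ i)⁻¹ * o1) (hm2 : m2 ≤ Y * y * (l ^ j)⁻¹ * o2) :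
    l ^ (i + j) * (E * (L / l ^ (max i j)) ^ (2 * (1 - γ)) * (m1 * m2) ^ γ) ≤
      E * L ^ (2 * (1 - γ)) * (X * Y) ^ γ *
        (kn γ l i j * (o1 ^ γ * o2 ^ γ) * (x * y) ^ γ) := by
  rw [← sb_expo l hl γ i j]
  have e2 : (L / l ^ (max i j)) ^ (2 * (1 - γ)) =
      L ^ (2 * (1 - γ)) * ((l ^ (max i j))⁻¹) ^ (2 * (1 - γ)) := by
    rw [div_eq_mul_inv]
    exact Real.mul_rpow hL (by positivity)
  have e3 : (m1 * m2) ^ γ ≤ (X * Y) ^ γ * (x * y) ^ γ * ((l ^ i)⁻¹ * (l ^ j)⁻¹) ^ γ *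
      (o1 ^ γ * o2 ^ γ) := by
    rw [← Real.mul_rpow (by positivity) (by positivity), ← Real.mul_rpow (by positivity)
      (by positivity), ← Real.mul_rpow ho1 ho2, ← Real.mul_rpow (by positivity) (by positivity)]
    refine Real.rpow_le_rpow (by positivity) ?_ hγ.le
    calc m1 * m2 ≤ (X * x * (l ^ i)⁻¹ * o1) * (Y * y * (l ^ j)⁻¹ * o2) :=
          mul_le_mul hm1 hm2 h2 (by positivity)
      _ = _ := by ring
  rw [e2]
  have h0 : 0 ≤ l ^ (i + j) * (E * (L ^ (2 * (1 - γ)) * ((l ^ (max i j))⁻¹) ^ (2 * (1 - γ)))) := by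
    have := Real.rpow_nonneg hL (2 * (1 - γ))
    positivity
  calc l ^ (i + j) * (E * (L ^ (2 * (1 - γ)) * ((l ^ (max i j))⁻¹) ^ (2 * (1 - γ))) *
        (m1 * m2) ^ γ)
      = l ^ (i + j) * (E * (L ^ (2 * (1 - γ)) * ((l ^ (max i j))⁻¹) ^ (2 * (1 - γ)))) *
        (m1 * m2) ^ γ := by ring
    _ ≤ l ^ (i + j) * (E * (L ^ (2 * (1 - γ)) * ((l ^ (max i j))⁻¹) ^ (2 * (1 - γ)))) *
        ((X * Y) ^ γ * (x * y) ^ γ * ((l ^ i)⁻¹ * (l ^ j)⁻¹) ^ γ *
      (o1 ^ γ * o2 ^ γ)) := mul_le_mul_of_nonneg_left e3 h0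
    _ = _ := by ring

private theorem sb_filter_nonneg (m2 : MassCmp) (p a : ℕ) (C : Finset ℕ) : 0 ≤ sh p a C :=
  (m2.1 p _).1

private theorem sb_om (γ p : ℝ) (hp : 0 < p) (i : ℕ) :
    ((if i = 0 then (1:ℝ) else 1 + 2 / p)⁻¹) ^ γ = om γ p i := by
  unfold om
  split_ifs with h
  · simp
  · rw [Real.inv_rpow (by positivity), Real.rpow_neg (by positivity)]

theorem pr_StepBad (hT : G.TreeG) (hc : CellH) (m1 : CellMass) (m2 : MassCmp) (m3 : ShareProf)
    (m4 : SplitBad) (m5 : CellElt) : StepBad := by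
  classical
  intro γ C1 hγ hγ1
  obtain ⟨CT, hCT, htree⟩ := hT γ C1 hγ hγ1
  obtain ⟨p0, hp02, hcell⟩ := hc γ hγ hγ1
  refine ⟨CT, hCT, ⌈p0⌉₊, ?_⟩
  intro Q P hp0Q hQ1 hp hQP D hD IH V W L hV hW hL
  have hγ0 : 0 < γ := by linarith
  have hQ0 : (0:ℝ) < Q := by exact_mod_cast hQ1
  have hD0 : 0 ≤ D := le_trans (by positivity) hD
  set p : ℕ := P + 1 with hpdef
  have hpR : (0:ℝ) < (p:ℝ) := by exact_mod_cast hp.pos
  have hp0 : p0 ≤ (p:ℝ) := by
    have h1 : p0 ≤ (⌈p0⌉₊ : ℝ) := Nat.le_ceil p0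
    have h2 : ((⌈p0⌉₊ : ℕ) : ℝ) ≤ (p:ℝ) := by exact_mod_cast (hp0Q.trans hQP.le)
    linarith
  have hrhs : 0 ≤ D * (1 + (p : ℝ) ^ (-1 - cg γ)) * L ^ (2 * (1 - γ)) *
          (mt p V * mt p W) ^ γ := by
    have hV0 := (m2.1 p V).1
    have hW0 := (m2.1 p W).1
    positivity
  by_cases hVe : V = ∅
  · have : bad (eg γ) Q p V W L = 0 := by
      subst hVe
      simp [bad]
    rw [this]
    exact hrhs
  by_cases hWe : W = ∅
  · have : bad (eg γ) Q p V W L = 0 := by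
      subst hWe
      simp [bad]
    rw [this]
    exact hrhs
  have hVn : V.Nonempty := Finset.nonempty_iff_ne_empty.mpr hVe
  have hWn : W.Nonempty := Finset.nonempty_iff_ne_empty.mpr hWe
  have hmpos : ∀ C : Finset ℕ, C.Nonempty → (∀ n ∈ C, 0 < n) → 0 < mt p C := by
    intro C hC hpos
    unfold mt
    refine Finset.sum_pos (fun n hn => ?_) hC
    unfold wt
    have : (0:ℝ) < n := by exact_mod_cast hpos n hn
    refine mul_pos this (Finset.prod_pos (fun q _ => ?_))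
    positivity
  have hVc : 0 < mt p V := hmpos V hVn (fun v hv => (hV v hv).1)
  have hWc : 0 < mt p W := hmpos W hWn (fun v hv => (hW v hv).1)
  set N : ℕ := (V ∪ W).sup (fun v => v.factorization p) + 1 with hN
  have hVN : ∀ v ∈ V, 0 < v ∧ v.factorization p < N := by
    intro v hv
    refine ⟨(hV v hv).1, ?_⟩
    have := Finset.le_sup (f := fun v : ℕ => v.factorization p)
      (Finset.mem_union_left W hv)
    omega
  have hWN : ∀ w ∈ W, 0 < w ∧ w.factorization p < N := by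
    intro v hv
    refine ⟨(hW v hv).1, ?_⟩
    have := Finset.le_sup (f := fun v : ℕ => v.factorization p)
      (Finset.mem_union_right V hv)
    omega
  have hsplit := m4 (eg γ) Q P N V W L hp hQP hVN hWN
  rw [← hpdef] at hsplit
  obtain ⟨x0, x1, tx, tlx, hubx⟩ := m3 (eg γ) p N V hp hVN hVn
  obtain ⟨y0, y1, ty, tly, huby⟩ := m3 (eg γ) p N W hp hWN hWn
  set x : ℕ → ℝ := fun a => sh p a V / mt p V with hx
  set y : ℕ → ℝ := fun a => sh p a W / mt p W with hy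
  set f : ℕ := top (eg γ) p V with hf
  set g : ℕ := top (eg γ) p W with hg
  have hprof : Prof ((p:ℝ) ^ (eg γ - 1)) N x y f g := ⟨x0, y0, x1, y1, tx, ty⟩
  have hmain := hcell (p:ℝ) hp0 N x y f g hprof
  set X : ℝ := L ^ (2 * (1 - γ)) * (mt p V * mt p W) ^ γ with hX
  have hX0 : 0 ≤ X := by
    have := Real.rpow_nonneg hL (2 * (1 - γ))
    positivity
  have eH : Hub (eg γ) p V = HubR ((p:ℝ) ^ (eg γ - 1)) N x f := propext hubx
  have eK : Hub (eg γ) p W = HubR ((p:ℝ) ^ (eg γ - 1)) N y g := propext huby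
  rw [← eH, ← eK] at hmain
  -- masses of parts
  have hpart : ∀ (C : Finset ℕ), 0 < mt p C → ∀ a : ℕ,
      ms (part p a C) ≤ mt p C * (sh p a C / mt p C) * ((p:ℝ) ^ a)⁻¹ * 1 := by
    intro C hC a
    rw [F.StepAux.ms_part p a hp C, mul_div_cancel₀ _ hC.ne', mul_one, div_eq_mul_inv]
    refine mul_le_mul_of_nonneg_right ?_ (by positivity)
    exact (m2.1 p _).2.2
  -- masses of cells
  have hcl : ∀ (C : Finset ℕ), (∀ n ∈ C, 0 < n ∧ n.factorization p < N) → 0 < mt p C →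
      (∀ k, TL N (fun a => sh p a C / mt p C) k = tl p k C / mt p C) → ∀ i : ℕ,
      mt P (cell (eg γ) p i C) ≤
        mt p C * cs N (fun a => sh p a C / mt p C) (top (eg γ) p C) i * ((p:ℝ) ^ i)⁻¹ *
          (if i = 0 then (1:ℝ) else 1 + 2 / (p:ℝ))⁻¹ := by
    intro C hC0 hC hTL i
    have h := m1 (eg γ) P C i hp (fun n hn => (hC0 n hn).1)
    rw [← hpdef] at h
    have e : (if i < top (eg γ) p C then sh p i C
        else if i = top (eg γ) p C then tl p i C else 0) =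
        mt p C * cs N (fun a => sh p a C / mt p C) (top (eg γ) p C) i := by
      unfold cs
      split_ifs with h1 h2
      · rw [mul_div_cancel₀ _ hC.ne']
      · rw [← h2, hTL, mul_div_cancel₀ _ hC.ne']
      · rw [mul_zero]
    rw [e] at h
    have hw : (0:ℝ) < (if i = 0 then (1:ℝ) else 1 + 2 / (p:ℝ)) := by
      split_ifs <;> positivity
    have hpi : (0:ℝ) < (p:ℝ) ^ i := by positivity
    rw [← div_eq_mul_inv, ← div_eq_mul_inv, le_div_iff₀ hw, le_div_iff₀ hpi]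
    calc mt P (cell (eg γ) p i C) * (if i = 0 then (1:ℝ) else 1 + 2 / (p:ℝ)) * (p:ℝ) ^ i
        = mt P (cell (eg γ) p i C) * (p:ℝ) ^ i * (if i = 0 then (1:ℝ) else 1 + 2 / (p:ℝ)) := by
          ring
      _ ≤ _ := h
  have hcs0 : ∀ (z : ℕ → ℝ), (∀ a, 0 ≤ z a) → ∀ f i : ℕ, 0 ≤ cs N z f i := by
    intro z hz f i
    unfold cs
    split_ifs
    · exact hz i
    · exact Finset.sum_nonneg (fun a _ => hz a)
    · exact le_refl _
  -- first sum
  have hfirst : (∑ a ∈ range N, ∑ b ∈ range N,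
        if gv (Hub (eg γ) p V) (Hub (eg γ) p W) f g a b then 0
        else (p : ℝ) ^ (a + b) *
          en Set.univ (part p a V) (part p b W)
            (L / (p : ℝ) ^ (max a b)) Set.univ) ≤
      CT * X * BS γ p N x y (Hub (eg γ) p V) (Hub (eg γ) p W) f g := by
    unfold BS
    rw [Finset.mul_sum]
    refine Finset.sum_le_sum (fun a _ => ?_)
    rw [Finset.mul_sum]
    refine Finset.sum_le_sum (fun b _ => ?_)
    split_ifs with hgv
    · simp
    · have hLp : 0 ≤ L / (p : ℝ) ^ (max a b) := by positivity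
      have ht := htree (part p a V) (part p b W) (L / (p : ℝ) ^ (max a b)) hLp
        (sb_part_pos p a V C1 hV) (sb_part_pos p b W C1 hW)
      have hpc := sb_piece (p:ℝ) hpR γ L CT hγ0 hL hCT.le a b (ms (part p a V))
        (ms (part p b W)) (mt p V) (mt p W) (x a) (y b) 1 1
        (F.StepAux.ms_nonneg _) (F.StepAux.ms_nonneg _) hVc.le hWc.le (x0 a) (y0 b)
        zero_le_one zero_le_one (hpart V hVc a) (hpart W hWc b)
      calc (p : ℝ) ^ (a + b) * en Set.univ (part p a V) (part p b W)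
            (L / (p : ℝ) ^ (max a b)) Set.univ
          ≤ (p : ℝ) ^ (a + b) * (CT * potG γ (L / (p : ℝ) ^ (max a b)) (part p a V)
              (part p b W)) := mul_le_mul_of_nonneg_left ht (by positivity)
        _ = (p:ℝ) ^ (a + b) * (CT * (L / (p:ℝ) ^ (max a b)) ^ (2 * (1 - γ)) *
              (ms (part p a V) * ms (part p b W)) ^ γ) := by
            unfold potG
            ring
        _ ≤ _ := hpc
        _ = _ := by
            rw [hX, Real.one_rpow]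
            ring
  -- second sum
  have hsecond : (∑ i ∈ range (f + 1), ∑ j ∈ range (g + 1),
        if gc (Hub (eg γ) p V ∧ Hub (eg γ) p W) f g i j then
          (p : ℝ) ^ (i + j) *
          bad (eg γ) Q P (cell (eg γ) p i V) (cell (eg γ) p j W)
            (L / (p : ℝ) ^ (max i j))
        else 0) ≤
      D * X * GS γ p N x y (Hub (eg γ) p V ∧ Hub (eg γ) p W) f g := by
    unfold GS
    rw [Finset.mul_sum]
    refine Finset.sum_le_sum (fun a _ => ?_)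
    rw [Finset.mul_sum]
    refine Finset.sum_le_sum (fun b _ => ?_)
    split_ifs with hgc
    · have hLp : 0 ≤ L / (p : ℝ) ^ (max a b) := by positivity
      have ht := IH (cell (eg γ) p a V) (cell (eg γ) p b W) (L / (p : ℝ) ^ (max a b))
        (m5 (eg γ) C1 p a V hp hV) (m5 (eg γ) C1 p b W hp hW) hLp
      have hw : ∀ i : ℕ, (0:ℝ) ≤ (if i = 0 then (1:ℝ) else 1 + 2 / (p:ℝ))⁻¹ := by
        intro i
        split_ifs <;> positivity
      have hpc := sb_piece (p:ℝ) hpR γ L D hγ0 hL hD0 a b (mt P (cell (eg γ) p a V))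
        (mt P (cell (eg γ) p b W)) (mt p V) (mt p W) (cs N x f a) (cs N y g b) _ _
        (m2.1 P _).1 (m2.1 P _).1 hVc.le hWc.le (hcs0 x x0 f a) (hcs0 y y0 g b)
        (hw a) (hw b) (hcl V hVN hVc tlx a) (hcl W hWN hWc tly b)
      rw [sb_om γ p hpR a, sb_om γ p hpR b] at hpc
      calc (p : ℝ) ^ (a + b) * bad (eg γ) Q P (cell (eg γ) p a V) (cell (eg γ) p b W)
            (L / (p : ℝ) ^ (max a b))
          ≤ (p : ℝ) ^ (a + b) * (D * (L / (p:ℝ) ^ (max a b)) ^ (2 * (1 - γ)) *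
              (mt P (cell (eg γ) p a V) * mt P (cell (eg γ) p b W)) ^ γ) :=
            mul_le_mul_of_nonneg_left ht (by positivity)
        _ ≤ _ := hpc
        _ = _ := by
            rw [hX]
            ring
    · simp
  have hBS0 : 0 ≤ BS γ p N x y (Hub (eg γ) p V) (Hub (eg γ) p W) f g := by
    unfold BS
    refine Finset.sum_nonneg (fun a _ => Finset.sum_nonneg (fun b _ => ?_))
    split_ifs
    · exact le_refl _
    · have := mul_nonneg (x0 a) (y0 b)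
      unfold kn
      exact mul_nonneg (Real.rpow_nonneg hpR.le _) (Real.rpow_nonneg this _)
  -- CT <= D p^c
  have hcg : 0 ≤ cg γ := by unfold cg; linarith
  have hCTD : CT ≤ D * (p:ℝ) ^ cg γ := by
    have hq : (Q:ℝ) ^ cg γ ≤ (p:ℝ) ^ cg γ :=
      Real.rpow_le_rpow hQ0.le (by exact_mod_cast hQP.le) hcg
    calc CT = CT * (Q:ℝ) ^ (-cg γ) * (Q:ℝ) ^ cg γ := by
          rw [mul_assoc, ← Real.rpow_add hQ0]
          simp
      _ ≤ D * (Q:ℝ) ^ cg γ := mul_le_mul_of_nonneg_right hD (Real.rpow_nonneg hQ0.le _)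
      _ ≤ D * (p:ℝ) ^ cg γ := mul_le_mul_of_nonneg_left hq hD0
  calc bad (eg γ) Q p V W L
      ≤ CT * X * BS γ p N x y (Hub (eg γ) p V) (Hub (eg γ) p W) f g +
        D * X * GS γ p N x y (Hub (eg γ) p V ∧ Hub (eg γ) p W) f g :=
        hsplit.trans (add_le_add hfirst hsecond)
    _ ≤ D * (p:ℝ) ^ cg γ * X * BS γ p N x y (Hub (eg γ) p V) (Hub (eg γ) p W) f g +
        D * X * GS γ p N x y (Hub (eg γ) p V ∧ Hub (eg γ) p W) f g := by
        gcongr
    _ = D * X * (GS γ p N x y (Hub (eg γ) p V ∧ Hub (eg γ) p W) f g +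
        (p:ℝ) ^ cg γ * BS γ p N x y (Hub (eg γ) p V) (Hub (eg γ) p W) f g) := by ring
    _ ≤ D * X * (1 + (p:ℝ) ^ (-1 - cg γ)) :=
        mul_le_mul_of_nonneg_left hmain (by positivity)
    _ = _ := by
        rw [hX]
        ring

end Pool.Agent.MP_0863b8.H

end

section

/-!
MP_0863b8_nt, RECURSION block: the induction, final part.
-/

set_option autoImplicit false

namespace Pool.Agent.MP_0863b8.R

open MeasureTheory Classical

/-- the node inequality, by induction on the size of the node -/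
theorem node_step (hPS : PSStmt) (hBud : BudStmt) (hNum : NumStmt)
    {P : ℕ} (hP : 0 < P) {c Cr C1 α0 κ K1 η : ℝ} (hc0 : 0 ≤ c) (hc1 : c < 1 / 2)
    (hCr : 0 ≤ Cr) (hκ : 0 < κ) (hα0 : Real.sqrt C1 ≤ α0) (hK1 : 1 ≤ K1)
    (hη0 : 0 ≤ η) (hη : 4 * (Real.exp (2 * κ / P) / (2 * κ)) ≤ η ^ 2)
    (hK2 : K1 ^ c * η ≤ 1 / 20) (hK3 : K1 ^ (c - 1 / 2) ≤ 1 / 20)
    (δ : ℝ) (μ : ℕ → ℝ) (S : Finset ℕ) (K : ℕ → ℕ → ℤ → Prop)
    (p : ℕ → ℕ) (e : ℕ → ℕ → ℝ) (K' : ℕ → ℕ → ℕ → ℤ → Prop)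
    (hS : ∀ m ∈ S, 0 < m ∧ 0 < μ m ∧ μ m < 1 / 2)
    (hK : ∀ m ∈ S, ∀ v r, K m v r → v ∣ m)
    (hp : ∀ m ∈ S, p m = 0 ∨ ((p m).Prime ∧ P < p m))
    (he : ∀ n m, 0 ≤ e n m)
    (hpair : ∀ q, ∀ n ∈ S, ∀ m ∈ S, Ag q n m → ¬ Rel p n m → ¬ Rel p m n →
      ov δ μ K q n m ≤ Cr * ((2 * μ n) * (2 * μ m)) + e n m)
    (hmu : ∀ n0 ∈ S, ∀ m0 ∈ S, Rel p n0 m0 → ∀ m ∈ Lset p S m0, (p m0 : ℝ) * μ m < 1 / 2)
    (hK' : ∀ n0 ∈ S, ∀ m0 ∈ S, Rel p n0 m0 → ∀ m ∈ Lset p S m0, ∀ v r,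
      K' m0 (m / fac p m0) v r → Sm (p m0) v →
        ∃ r0, K m v r0 ∧ r ≡ (p m0 : ℤ) * r0 [ZMOD (v : ℤ)])
    (IH : ∀ n0 ∈ S, ∀ m0 ∈ S, Rel p n0 m0 →
      Claim P c Cr C1 α0 κ ((p m0 : ℝ) * δ) (muY p μ m0) (SY p S m0) (K' m0)) :
    ∀ (k : ℕ) (N : Finset ℕ) (q : ℕ) (b : ℝ), N.card ≤ k → 0 ≤ b → Nd P S q b N →
      Real.sqrt (En δ μ K q N) ≤ Real.sqrt Cr * mass μ N +
        (α0 * Real.exp (κ * b)) * (1 + mass μ S) ^ c * Real.sqrt (mass μ N) +
        Real.sqrt (∑ n ∈ N, ∑ m ∈ N, e n m) := by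
  intro k
  induction k with
  | zero =>
    intro N q b hcard _ _
    have : N = ∅ := Finset.card_eq_zero.1 (Nat.le_zero.1 hcard)
    subst this
    simp [En, mass]
  | succ k ihk =>
    intro N q b hcard hb hN
    have hμN : ∀ n ∈ N, 0 ≤ μ n := fun n hn => (hS n (hN.sub hn)).2.1.le
    have hμS : ∀ n ∈ S, 0 ≤ μ n := fun n hn => (hS n hn).2.1.le
    have hMN : 0 ≤ mass μ N := mass_nonneg' hμN
    have hMS : mass μ N ≤ mass μ S := mass_mono' hμS hN.sub
    have hs0 : 0 ≤ Real.sqrt C1 := Real.sqrt_nonneg _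
    have hα00 : 0 ≤ α0 := hs0.trans hα0
    set ps : ℝ := (1 + mass μ S) ^ c with hps
    have hps0 : 0 ≤ ps := Real.rpow_nonneg (by linarith) _
    set al : ℝ := α0 * Real.exp (κ * b) with hal
    have hal0 : 0 ≤ al := by positivity
    set V : ℝ := ∑ n ∈ N, ∑ m ∈ N, e n m with hV
    have hV0 : 0 ≤ V := Finset.sum_nonneg fun n _ => Finset.sum_nonneg fun m _ => he n m
    -- representatives
    have hdat : ∀ i ∈ Idx p N, ∃ m0, m0 ∈ N ∧ (∃ n0 ∈ N, Rel p n0 m0) ∧ key p m0 = i ∧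
      Lk p N i = Lset p S m0 ∧ p m0 = i.1 ∧ hi i.1 m0 = i.2.1 ∧
        m0.factorization i.1 = i.2.2 := by
      intro i hix
      obtain ⟨-, -, -, m0, h1, n0, h2, h3, h4, h5, h6, h7, h8⟩ := idx_data hp hN hix
      exact ⟨m0, h1, ⟨n0, h2, h3⟩, h4, h5, h6, h7, h8⟩
    choose! rep hrep using hdat
    have hpr : ∀ i ∈ Idx p N, i.1.Prime ∧ P < i.1 ∧ i.1 < q := by
      intro i hix
      obtain ⟨h1, h2, h3, -⟩ := idx_data hp hN hix
      exact ⟨h1, h2, h3⟩
    have hLsub : ∀ i, Lk p N i ⊆ N := fun i => Finset.filter_subset _ _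
    have hTsub : ∀ i, Tset N i ⊆ N := fun i => Finset.filter_subset _ _
    set bf : ℕ × (ℕ →₀ ℕ) × ℕ → ℝ := fun i => b - bdg2 P i.1 q (rep i) with hbf
    have hbf0 : ∀ i ∈ Idx p N, 0 ≤ bf i ∧ bf i ≤ b := by
      intro i hix
      have h1 := hN.bd (rep i) (hrep i hix).1
      have h2 := bdg_add P (hpr i hix).2.2.le (rep i)
      have h3 := bdg_nonneg P i.1 (rep i)
      have h4 := bdg2_nonneg P i.1 q (rep i)
      simp only [hbf]
      constructor <;> linarith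
    set Xf : ℕ × (ℕ →₀ ℕ) × ℕ → ℝ := fun i =>
      Real.sqrt (En ((p (rep i) : ℝ) * δ) (muY p μ (rep i)) (K' (rep i)) i.1
        (SY p S (rep i))) with hXf
    set Yf : ℕ × (ℕ →₀ ℕ) × ℕ → ℝ := fun i => Real.sqrt (En δ μ K i.1 (Tset N i)) with hYf
    set Wf : ℕ × (ℕ →₀ ℕ) × ℕ → ℝ := fun i =>
      ∑ n ∈ Tset N i, ∑ m ∈ Tset N i, e n m with hWf
    set af : ℕ × (ℕ →₀ ℕ) × ℕ → ℝ := fun i =>
      α0 * Real.exp (κ * bf i) + Real.sqrt C1 with haf
    -- product inequality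
    have hprod : ∀ i ∈ Idx p N, ∑ m ∈ Lk p N i, ∑ n ∈ Tset N i, ov δ μ K q m n ≤
        1 / (i.1:ℝ) * (Xf i * Yf i) := by
      intro i hix
      obtain ⟨hr1, ⟨n0, hn0, hrel⟩, hr3, hr4, hr5, hr6, hr7⟩ := hrep i hix
      obtain ⟨hq1, hq2, hq3⟩ := hpr i hix
      have hPS' := hPS δ μ K (fun m v r => K' (rep i) m v r ∧ Sm (p (rep i)) v) (p (rep i))
        ((rep i).factorization (p (rep i)))
        (Lset p S (rep i)) (Tset N i) (by rw [hr5]; exact hq1) ?_ ?_ ?_ ?_ ?_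
      rw [En_restrict] at hPS'
      · calc ∑ m ∈ Lk p N i, ∑ n ∈ Tset N i, ov δ μ K q m n
            ≤ ∑ m ∈ Lk p N i, ∑ n ∈ Tset N i, ov δ μ K (p (rep i)) m n := by
              refine Finset.sum_le_sum fun m _ => Finset.sum_le_sum fun n _ => ?_
              apply ov_mono
              rw [hr5]
              exact hq3.le
          _ ≤ _ := by
              rw [hr4]
              refine hPS'.trans (le_of_eq ?_)
              simp only [hXf, hYf]
              rw [← hr5]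
              rfl
      · intro m hm
        have hm1 : m ∈ S := (Finset.mem_filter.1 hm).1
        refine ⟨(hS m hm1).1, (fac_dvd hm).2.1, ?_⟩
        exact hmu n0 (hN.sub hn0) (rep i) (hN.sub hr1) hrel m hm
      · intro m hm v r hk
        exact hK m (Finset.mem_filter.1 hm).1 v r hk
      · intro m hm v r hk
        exact ⟨hk.2, hK' n0 (hN.sub hn0) (rep i) (hN.sub hr1) hrel m hm v r hk.1 hk.2⟩
      · intro n hn
        refine ⟨(hS n (hN.sub (hTsub i hn))).1, ?_⟩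
        rw [hr5, hr7]
        exact (Finset.mem_filter.1 hn).2.2
      · intro n hn v r hk
        exact hK n (hN.sub (hTsub i hn)) v r hk
    -- the numerical lemma
    have hT_le : ∀ i, mass μ (Tset N i) ≤ mass μ N := fun i => mass_mono' hμN (hTsub i)
    have hnum := hNum (ℕ × (ℕ →₀ ℕ) × ℕ) (Idx p N) c K1 η (Real.sqrt Cr) al ps (mass μ N)
      (mass μ S) V (fun i => (i.1:ℝ)) (fun i => mass μ (Lk p N i))
      (fun i => mass μ (Tset N i)) Xf Yf af Wf hc0 hc1 hK1 hη0 (Real.sqrt_nonneg _) hal0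
      hMN hMS hV0 hps hK2 hK3 ?_ ?_ ?_ ?_ ?_ ?_ ?_
    · -- conclusion
      have hdec := En_decomp δ μ K q N p e Cr he (fun n hn m hm h1 h2 =>
        hpair q n (hN.sub hn) m (hN.sub hm) (hN.ag n hn m hm) h1 h2)
      have h2sum : 2 * ∑ i ∈ Idx p N, ∑ m ∈ Lk p N i, ∑ n ∈ Tset N i, ov δ μ K q m n ≤
          ∑ i ∈ Idx p N, 2 / (i.1:ℝ) * (Xf i * Yf i) := by
        rw [Finset.mul_sum]
        refine Finset.sum_le_sum fun i hix => ?_
        have := hprod i hix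
        calc 2 * ∑ m ∈ Lk p N i, ∑ n ∈ Tset N i, ov δ μ K q m n
            ≤ 2 * (1 / (i.1:ℝ) * (Xf i * Yf i)) := by linarith
          _ = _ := by ring
      have hsC : Real.sqrt Cr ^ 2 = Cr := Real.sq_sqrt hCr
      have hsM : Real.sqrt (mass μ N) ^ 2 = mass μ N := Real.sq_sqrt hMN
      have hsV : Real.sqrt V ^ 2 = V := Real.sq_sqrt hV0
      rw [hsC] at hnum
      rw [Real.sqrt_le_iff]
      refine ⟨by positivity, ?_⟩
      have hexp : (Real.sqrt Cr * mass μ N + al * ps * Real.sqrt (mass μ N) + Real.sqrt V) ^ 2 =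
          Cr * mass μ N ^ 2 + al ^ 2 * ps ^ 2 * mass μ N + V +
          2 * Real.sqrt Cr * al * ps * (mass μ N * Real.sqrt (mass μ N)) +
          2 * Real.sqrt Cr * mass μ N * Real.sqrt V +
          2 * al * ps * (Real.sqrt (mass μ N) * Real.sqrt V) := by
        have : (Real.sqrt Cr * mass μ N + al * ps * Real.sqrt (mass μ N) + Real.sqrt V) ^ 2 =
          Real.sqrt Cr ^ 2 * mass μ N ^ 2 + al ^ 2 * ps ^ 2 * Real.sqrt (mass μ N) ^ 2 +
          Real.sqrt V ^ 2 +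
          2 * Real.sqrt Cr * al * ps * (mass μ N * Real.sqrt (mass μ N)) +
          2 * Real.sqrt Cr * mass μ N * Real.sqrt V +
          2 * al * ps * (Real.sqrt (mass μ N) * Real.sqrt V) := by ring
        rw [this, hsC, hsM, hsV]
      rw [hexp]
      linarith
    · -- ranges
      intro i hix
      obtain ⟨hq1, hq2, hq3⟩ := hpr i hix
      refine ⟨by exact_mod_cast hq1.one_lt.le, mass_nonneg' fun n hn => hμN n (hLsub i hn),
        mass_nonneg' fun n hn => hμN n (hTsub i hn), hT_le i,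
        Finset.sum_nonneg fun n _ => Finset.sum_nonneg fun m _ => he n m, ?_, ?_, ?_⟩
      · simp only [hWf, hV]
        calc ∑ n ∈ Tset N i, ∑ m ∈ Tset N i, e n m
            ≤ ∑ n ∈ Tset N i, ∑ m ∈ N, e n m :=
              Finset.sum_le_sum fun n _ => Finset.sum_le_sum_of_subset_of_nonneg (hTsub i)
                fun m _ _ => he n m
          _ ≤ ∑ n ∈ N, ∑ m ∈ N, e n m :=
              Finset.sum_le_sum_of_subset_of_nonneg (hTsub i)
                fun n _ _ => Finset.sum_nonneg fun m _ => he n m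
      · simp only [haf]
        positivity
      · simp only [haf, hal]
        have h1 : Real.exp (κ * bf i) ≤ Real.exp (κ * b) :=
          Real.exp_le_exp.2 (mul_le_mul_of_nonneg_left (hbf0 i hix).2 hκ.le)
        have h2 : 1 ≤ Real.exp (κ * b) := Real.one_le_exp (by positivity)
        have h3 := mul_le_mul_of_nonneg_left h1 hα00
        have h4 := mul_le_mul_of_nonneg_left h2 hα00
        linarith
    · -- the bound for `X`
      intro i hix
      obtain ⟨hr1, ⟨n0, hn0, hrel⟩, hr3, hr4, hr5, hr6, hr7⟩ := hrep i hix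
      obtain ⟨hq1, hq2, hq3⟩ := hpr i hix
      refine ⟨Real.sqrt_nonneg _, ?_⟩
      have := IH n0 (hN.sub hn0) (rep i) (hN.sub hr1) hrel i.1 (bf i) (hbf0 i hix).1
        (by rw [← hr5]; exact ag_SY) ?_
      · rw [mass_SY, hr5, ← hr4] at this
        simp only [hXf, haf]
        rw [hr5]
        exact this
      · intro m' hm'
        unfold SY at hm'
        rw [Finset.mem_image] at hm'
        obtain ⟨m, hm, rfl⟩ := hm'
        have hmN : m ∈ N := by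
          rw [← hr4] at hm
          exact hLsub i hm
        have hm0 : m ≠ 0 := (hS m (hN.sub hmN)).1.ne'
        have h1 : bdg P i.1 (m / fac p (rep i)) ≤ bdg P i.1 m :=
          bdg_dvd P i.1 (Nat.div_dvd_of_dvd (fac_dvd hm).1) hm0
        have h2 := bdg_add P hq3.le m
        have h3 := hN.bd m hmN
        have h4 : bdg2 P i.1 q m = bdg2 P i.1 q (rep i) := by
          apply bdg2_congr
          rw [← hr5]
          exact (fac_dvd hm).2.2
        simp only [hbf]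
        linarith
    · -- the bound for `Y`
      intro i hix
      refine ⟨Real.sqrt_nonneg _, ?_⟩
      exact ihk (Tset N i) i.1 b (by have := card_T_lt (p := p) (N := N) hix; omega) hb
        (node_T hp hN hix)
    · exact sum_L p hμN
    · exact sum_LT μ N p hμN
    · -- budget sum for the masses
      have := bud_sum hBud hp hN hP κ α0 η C1 hκ hα0 hη rep
        (fun i hix => ⟨(hrep i hix).1, (hrep i hix).2.2.2.2.2.1⟩) (fun n => 2 * μ n)
        (fun n hn => by have := hμN n hn; positivity)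
      simp only [haf, hbf, hal]
      exact this
    · -- budget sum for the exceptional parts
      have := bud_sum hBud hp hN hP κ α0 η C1 hκ hα0 hη rep
        (fun i hix => ⟨(hrep i hix).1, (hrep i hix).2.2.2.2.2.1⟩) (fun n => ∑ m ∈ N, e n m)
        (fun n hn => Finset.sum_nonneg fun m _ => he n m)
      simp only [haf, hbf, hal, hV]
      refine le_trans (Finset.sum_le_sum fun i hix => ?_) this
      have hq0 : (0:ℝ) < i.1 := by exact_mod_cast (hpr i hix).1.pos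
      apply div_le_div_of_nonneg_right _ hq0.le
      apply mul_le_mul_of_nonneg_left _ (sq_nonneg _)
      exact Finset.sum_le_sum fun n _ => Finset.sum_le_sum_of_subset_of_nonneg (hTsub i)
        fun m _ _ => he n m

end Pool.Agent.MP_0863b8.R

end

section

/-! MP_0863b8_nt: CASE I is proved. -/

namespace Pool.Agent.MP_0863b8.C1

theorem caseI : CaseI := pr_CaseI (pr_Sum (pr_Box pr_Dens)) pr_Big

end Pool.Agent.MP_0863b8.C1

end

section

/-!
MP_0863b8_nt, CASE II: the assembly (Theorem II).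
-/

set_option autoImplicit false

namespace Pool.Agent.MP_0863b8.C2

open Pool.Agent.MP_0863b8 F G Filter Topology

/-- the facts about one remaining edge -/
structure Rem (x Y : ℝ) (z : ℕ × ℕ) (A h A' h' : ℕ → ℕ) : Prop where
  r1 : Real.exp 1 * A z.1 ≤ Real.exp (x / 50) * A' z.2
  r2 : Real.exp 1 * A' z.2 ≤ Real.exp (x / 50) * A z.1
  r3 : Real.exp 1 * Real.exp (0.98 * x) ≤ A z.1
  r4 : Real.exp 1 * Real.exp (0.98 * x) ≤ A' z.2
  r5 : Y ≤ Real.exp (0.03 * x) * h z.1 * A z.1 * z.1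
  r6 : Y ≤ Real.exp (0.03 * x) * h' z.2 * A' z.2 * z.2

/-- one side of `Rem` -/
theorem rem_side (κ c3 x Y : ℝ) (n v A h A' sv : ℕ) (hκ : 0 < κ)
    (e1 : c3 * Real.log (1 / κ) + 1 ≤ x / 100) (hn : 0 < n) (hh : 0 < h)
    (hv : v = sv * A' * h) (hY : Y ≤ (n : ℝ) * v)
    (hthin : κ ^ c3 * A * h * n ≤ Y) (hsv : (sv : ℝ) ≤ Real.exp (x / 100)) :
    Real.exp 1 * A ≤ Real.exp (x / 50) * A' := by
  apply fact1 κ c3 x A A' sv hκ (Nat.cast_nonneg _) (Nat.cast_nonneg _) e1 _ hsv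
  have h1 : κ ^ c3 * A * h * n ≤ n * (sv * A' * h) := by
    refine hthin.trans (hY.trans (le_of_eq ?_))
    rw [hv]; push_cast; ring
  have hn' : (0 : ℝ) < n := by exact_mod_cast hn
  have hh' : (0 : ℝ) < h := by exact_mod_cast hh
  have h2 : (κ ^ c3 * A) * (h * n) ≤ (sv * A') * (h * n) := by nlinarith
  exact le_of_mul_le_mul_right h2 (by positivity)

theorem rem_five (x Y : ℝ) (n v A h A' sv : ℕ)
    (hv : v = sv * A' * h) (hY : Y ≤ (n : ℝ) * v) (hsv : (sv : ℝ) ≤ Real.exp (x / 100))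
    (h1 : Real.exp 1 * A' ≤ Real.exp (x / 50) * A) :
    Y ≤ Real.exp (0.03 * x) * h * A * n := by
  have h2 : (A' : ℝ) ≤ Real.exp (x / 50) * A := by
    have : (1 : ℝ) ≤ Real.exp 1 := Real.one_le_exp (by norm_num)
    have h3 : (0 : ℝ) ≤ A' := Nat.cast_nonneg _
    nlinarith
  calc Y ≤ n * v := hY
    _ = n * (sv * A' * h) := by rw [hv]; push_cast; ring
    _ ≤ n * (Real.exp (x / 100) * (Real.exp (x / 50) * A) * h) := by gcongr
    _ = Real.exp (x / 100 + x / 50) * h * A * n := by rw [Real.exp_add]; ring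
    _ = Real.exp (0.03 * x) * h * A * n := by
        congr 4; ring

/-- all facts for an edge which survives Steps 0 and 1 -/
theorem rem_of (θ κ X r Q C1 cm c3 x : ℝ) (N M : Finset ℕ) (A h A' h' : ℕ → ℕ)
    (G : Finset (ℕ × ℕ)) (hκ : 0 < κ) (hx : 100 ≤ x)
    (hc : Conf θ κ X r Q (Real.exp x) C1 cm N M A h A' h' G)
    (e1 : c3 * Real.log (1 / κ) + 1 ≤ x / 100) (z : ℕ × ℕ) (hz : z ∈ G)
    (hsmall : (smp Q (cu z) : ℝ) * smp Q (cv z) ≤ Real.exp (x / 100))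
    (hs : ∀ su : ℕ, su ∣ cu z → (∀ p : ℕ, p.Prime → p ∣ su → (p : ℝ) ≤ Q) → su ≤ smp Q (cu z))
    (hs' : ∀ su : ℕ, su ∣ cv z → (∀ p : ℕ, p.Prime → p ∣ su → (p : ℝ) ≤ Q) → su ≤ smp Q (cv z))
    (hp : 1 ≤ smp Q (cu z)) (hp' : 1 ≤ smp Q (cv z))
    (t1 : κ ^ c3 * A z.1 * h z.1 * z.1 ≤ κ * X)
    (t2 : κ ^ c3 * A' z.2 * h' z.2 * z.2 ≤ κ * X) : Rem x (κ * X) z A h A' h' := by
  obtain ⟨hzN, hzM⟩ := hc.hG z hz
  obtain ⟨hn0, _, hA0, hh0, _⟩ := hc.hN _ hzN
  obtain ⟨hm0, _, hA0', hh0', _⟩ := hc.hM _ hzM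
  obtain ⟨su, sv, hu, hv, hpr⟩ := hc.I3 z hz
  obtain ⟨i1, _⟩ := hc.I1 z hz
  have hlcm1 : ((z.1.lcm z.2 : ℕ) : ℝ) = (z.1 : ℝ) * cv z := by
    rw [← Nat.cast_mul]
    congr 1
    unfold Nat.lcm cv
    exact Nat.mul_div_assoc _ (Nat.gcd_dvd_right _ _)
  have hlcm2 : ((z.1.lcm z.2 : ℕ) : ℝ) = (z.2 : ℝ) * cu z := by
    rw [← Nat.cast_mul]
    congr 1
    unfold Nat.lcm cu
    rw [mul_comm]
    exact Nat.mul_div_assoc _ (Nat.gcd_dvd_left _ _)
  have hsu : (su : ℝ) ≤ Real.exp (x / 100) := by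
    have h1 : su ≤ smp Q (cu z) := hs su (by rw [hu, mul_assoc]; exact dvd_mul_right _ _)
      (fun p hp hd => hpr p hp (hd.mul_right sv))
    have h2 : (su : ℝ) ≤ smp Q (cu z) := by exact_mod_cast h1
    have h3 : (1 : ℝ) ≤ smp Q (cv z) := by exact_mod_cast hp'
    nlinarith
  have hsv : (sv : ℝ) ≤ Real.exp (x / 100) := by
    have h1 : sv ≤ smp Q (cv z) := hs' sv (by rw [hv, mul_assoc]; exact dvd_mul_right _ _)
      (fun p hp hd => hpr p hp (hd.mul_left su))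
    have h2 : (sv : ℝ) ≤ smp Q (cv z) := by exact_mod_cast h1
    have h3 : (1 : ℝ) ≤ smp Q (cu z) := by exact_mod_cast hp
    nlinarith
  have r1 := rem_side κ c3 x (κ * X) z.1 (cv z) (A z.1) (h z.1) (A' z.2) sv hκ e1 hn0 hh0 hv
    (by rw [← hlcm1]; exact i1) t1 hsv
  have r2 := rem_side κ c3 x (κ * X) z.2 (cu z) (A' z.2) (h' z.2) (A z.1) su hκ e1 hm0 hh0' hu
    (by rw [← hlcm2]; exact i1) t2 hsu
  have hmax : Real.exp x ≤ A z.1 ∨ Real.exp x ≤ A' z.2 := by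
    have := (hc.I4 z hz).2
    rcases le_total (A z.1) (A' z.2) with h | h
    · right; rwa [max_eq_right h] at this
    · left; rwa [max_eq_left h] at this
  have r3 := fact2 x (A z.1) (A' z.2) r2 hmax (by linarith)
  have r4 := fact2 x (A' z.2) (A z.1) r1 hmax.symm (by linarith)
  exact ⟨r1, r2, r3, r4,
    rem_five x (κ * X) z.1 (cv z) (A z.1) (h z.1) (A' z.2) sv hv
      (by rw [← hlcm1]; exact i1) hsv r2,
    rem_five x (κ * X) z.2 (cu z) (A' z.2) (h' z.2) (A z.1) su hu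
      (by rw [← hlcm2]; exact i1) hsu r1⟩

/-- smooth divisors divide the smooth part -/
theorem smp_le (Q : ℝ) (n s : ℕ) (hn : 0 < n) (hs : s ∣ n)
    (hp : ∀ p : ℕ, p.Prime → p ∣ s → (p : ℝ) ≤ Q) : s ≤ smp Q n := by
  have hs0 : s ≠ 0 := fun h => by rw [h] at hs; exact hn.ne' (zero_dvd_iff.1 hs)
  have h1 : s = ∏ p ∈ s.primeFactors, p ^ s.factorization p :=
    (Nat.prod_factorization_pow_eq_self hs0).symm
  have hsub : s.primeFactors ⊆ n.primeFactors.filter (fun p : ℕ => (p : ℝ) ≤ Q) := by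
    intro p hp'
    rw [Finset.mem_filter]
    exact ⟨Nat.primeFactors_mono hs hn.ne' hp',
      hp p (Nat.prime_of_mem_primeFactors hp') (Nat.dvd_of_mem_primeFactors hp')⟩
  unfold smp
  calc s = ∏ p ∈ s.primeFactors, p ^ s.factorization p := h1
    _ ≤ ∏ p ∈ s.primeFactors, p ^ n.factorization p := by
        apply Finset.prod_le_prod' 
        intro p hp'
        apply Nat.pow_le_pow_right (Nat.prime_of_mem_primeFactors hp').pos
        exact (Nat.factorization_le_iff_dvd hs0 hn.ne').2 hs p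
    _ ≤ ∏ p ∈ n.primeFactors.filter (fun p : ℕ => (p : ℝ) ≤ Q), p ^ n.factorization p := by
        apply Finset.prod_le_prod_of_subset_of_one_le' hsub
        intro p hp' _
        rw [Finset.mem_filter] at hp'
        exact Nat.one_le_pow _ _ (Nat.prime_of_mem_primeFactors hp'.1).pos

theorem smp_pos (Q : ℝ) (n : ℕ) : 1 ≤ smp Q n := by
  unfold smp
  apply Finset.one_le_prod'
  intro p hp'
  rw [Finset.mem_filter] at hp'
  exact Nat.one_le_pow _ _ (Nat.prime_of_mem_primeFactors hp'.1).pos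

end Pool.Agent.MP_0863b8.C2

end

section

/-!
MP_0863b8_nt, CLASSIFICATION in the form used by the assembly.
-/

set_option autoImplicit false

namespace Pool.Agent.MP_0863b8.CL

open Finset
open C1 (Dp rd)

/-- the classification in terms of `K.dep`, `K.ene`, `K.Expl`; `Z` contains the negligible pairs
and the pairs with depth in `[κ_M, 1/4)` -/
def ClsK : Prop :=
  ∀ cs C1 : ℝ, 0 < cs → cs ≤ 1 → ∀ (P : ℕ) (κb : ℝ), 0 < κb →
    ∃ κ0 C : ℝ, 0 < κ0 ∧ κ0 ≤ κb ∧ 0 < C ∧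
    ∀ (S : Finset ℕ) (lev : ℕ → ℕ) (ρ θ : ℝ), 0 < ρ → (∀ n ∈ S, 0 < n ∧ rp n ≤ C1) →
    ∃ (p : ℕ → ℕ) (Z : Finset (ℕ × ℕ)),
      Z ⊆ S ×ˢ S ∧
      (∀ m ∈ S, p m = 0 ∨ ((p m).Prime ∧ P < p m ∧ (p m : ℝ) * mu ρ lev m ≤ κ0)) ∧
      ∑ z ∈ Z, K.ene (mu ρ lev) z.1 z.2 ≤
        C * (1 + ∑ n ∈ S, mu ρ lev n) ^ ((1:ℝ) / 4) * ∑ n ∈ S, mu ρ lev n ∧
      ∀ n ∈ S, ∀ m ∈ S, n ≠ m → (n, m) ∉ Z → K.dep (mu ρ lev) n m < 1 / 4 →
        nd ((((n / n.gcd m : ℕ) : ℝ) - ((m / n.gcd m : ℕ) : ℝ)) * θ) ≤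
          2 * K.dep (mu ρ lev) n m →
        K.dep (mu ρ lev) n m ≤ κ0 ∧
        (R.Rel p n m ∨ R.Rel p m n ∨
          ∃ (b : ℕ) (c : ℤ), K.Expl cs θ (mu ρ lev) n m b c)

theorem mu_pos {ρ : ℝ} {lev : ℕ → ℕ} {n : ℕ} (hρ : 0 < ρ) (hn : 0 < n) : 0 < mu ρ lev n := by
  unfold mu rad
  have : (0:ℝ) < n := by exact_mod_cast hn
  positivity

theorem rad_pos {ρ : ℝ} {lev : ℕ → ℕ} {n : ℕ} (hρ : 0 < ρ) : 0 < rad ρ lev n := by
  unfold rad
  positivity

theorem lcm_eq_left (n m : ℕ) : ((n.lcm m : ℕ) : ℝ) = ((m / n.gcd m : ℕ) : ℝ) * n := by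
  have : n.lcm m = (m / n.gcd m) * n := by
    rw [Nat.lcm, Nat.mul_div_assoc n (Nat.gcd_dvd_right n m), mul_comm]
  rw [this]
  push_cast
  ring

theorem lcm_eq_right (n m : ℕ) : ((n.lcm m : ℕ) : ℝ) = ((n / n.gcd m : ℕ) : ℝ) * m := by
  have : n.lcm m = (n / n.gcd m) * m := by
    rw [Nat.lcm, Nat.mul_comm n m, Nat.mul_div_assoc m (Nat.gcd_dvd_left n m), mul_comm]
  rw [this]
  push_cast
  ring

theorem dep_eq (ρ : ℝ) (lev : ℕ → ℕ) (n m : ℕ) :
    K.dep (mu ρ lev) n m = dep ρ lev (n, m) := by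
  unfold K.dep dep mu
  have hl : (0:ℝ) ≤ ((n.lcm m : ℕ) : ℝ) := Nat.cast_nonneg _
  show max _ _ = ((n.lcm m : ℕ) : ℝ) * max (rad ρ lev n) (rad ρ lev m)
  rw [mul_max_of_nonneg _ _ hl]
  congr 1
  · rw [lcm_eq_left]; ring
  · rw [lcm_eq_right]; ring

theorem ene_eq (ρ : ℝ) (lev : ℕ → ℕ) (n m : ℕ) (hn : 0 < n) (hm : 0 < m) :
    K.ene (mu ρ lev) n m = ene ρ lev (n, m) := by
  unfold K.ene ene mu
  have hg0 : 0 < n.gcd m := Nat.gcd_pos_of_pos_left _ hn
  have hg : (0:ℝ) ≤ ((n.gcd m : ℕ) : ℝ) := Nat.cast_nonneg _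
  show min _ _ = ((n.gcd m : ℕ) : ℝ) * min (rad ρ lev n) (rad ρ lev m)
  rw [mul_min_of_nonneg _ _ hg]
  have hu : 0 < n / n.gcd m := Nat.div_pos (Nat.le_of_dvd hn (Nat.gcd_dvd_left n m)) hg0
  have hv : 0 < m / n.gcd m := Nat.div_pos (Nat.le_of_dvd hm (Nat.gcd_dvd_right n m)) hg0
  have e1 : (n:ℝ) = ((n.gcd m : ℕ) : ℝ) * ((n / n.gcd m : ℕ) : ℝ) := by
    exact_mod_cast (Nat.mul_div_cancel' (Nat.gcd_dvd_left n m)).symm
  have e2 : (m:ℝ) = ((n.gcd m : ℕ) : ℝ) * ((m / n.gcd m : ℕ) : ℝ) := by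
    exact_mod_cast (Nat.mul_div_cancel' (Nat.gcd_dvd_right n m)).symm
  have hu' : ((n / n.gcd m : ℕ) : ℝ) ≠ 0 := by exact_mod_cast hu.ne'
  have hv' : ((m / n.gcd m : ℕ) : ℝ) ≠ 0 := by exact_mod_cast hv.ne'
  congr 1
  · rw [div_eq_iff hu']
    conv_lhs => rw [e1]
    ring
  · rw [div_eq_iff hv']
    conv_lhs => rw [e2]
    ring

theorem kM_pos {κ a M : ℝ} (hκ : 0 < κ) (hM : 0 ≤ M) : 0 < kM κ a M := by
  unfold kM
  have : (0:ℝ) < 1 + M := by linarith
  positivity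

theorem kM_le {κ a M : ℝ} (hκ : 0 < κ) (ha : 0 < a) (hM : 0 ≤ M) : kM κ a M ≤ κ := by
  unfold kM
  have h1 : (1 + M) ^ (-a) ≤ 1 := Real.rpow_le_one_of_one_le_of_nonpos (by linarith) (by linarith)
  nlinarith

/-- the ratio condition -/
theorem hr_of_rat {s ρ : ℝ} {lev : ℕ → ℕ} {n m : ℕ} (hρ : 0 < ρ) (hn : 0 < n) (hm : 0 < m)
    (h : rat lev (n, m) ≤ dep ρ lev (n, m) ^ (-s)) :
    K.dep (mu ρ lev) n m ^ (1 + s) ≤
      min (((m / n.gcd m : ℕ) : ℝ) * mu ρ lev n) (((n / n.gcd m : ℕ) : ℝ) * mu ρ lev m) := by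
  have hl : (0:ℝ) < ((n.lcm m : ℕ) : ℝ) := by exact_mod_cast Nat.lcm_pos hn hm
  have e1 : ((m / n.gcd m : ℕ) : ℝ) * mu ρ lev n = ((n.lcm m : ℕ) : ℝ) * rad ρ lev n := by
    rw [lcm_eq_left]; unfold mu; ring
  have e2 : ((n / n.gcd m : ℕ) : ℝ) * mu ρ lev m = ((n.lcm m : ℕ) : ℝ) * rad ρ lev m := by
    rw [lcm_eq_right]; unfold mu; ring
  rw [e1, e2, dep_eq, ← mul_min_of_nonneg _ _ hl.le]
  have hd : 0 < dep ρ lev (n, m) := by
    unfold dep
    exact mul_pos hl (lt_max_of_lt_left (rad_pos hρ))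
  have hmin : 0 < min (rad ρ lev n) (rad ρ lev m) := lt_min (rad_pos hρ) (rad_pos hρ)
  have hrat : rat lev (n, m) * min (rad ρ lev n) (rad ρ lev m) =
      max (rad ρ lev n) (rad ρ lev m) := by
    unfold rat rad
    show (2:ℝ) ^ (max (lev n) (lev m) - min (lev n) (lev m)) * _ = _
    rcases le_total (lev n) (lev m) with hle | hle
    · have h2 : (2:ℝ) ^ lev m = 2 ^ (lev m - lev n) * 2 ^ lev n := by
        rw [← pow_add]; congr 1; omega
      have h3 : ρ / 2 ^ lev m ≤ ρ / 2 ^ lev n := by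
        apply div_le_div_of_nonneg_left hρ.le (by positivity)
        exact pow_le_pow_right₀ (by norm_num) hle
      rw [max_eq_right hle, min_eq_left hle, min_eq_right h3, max_eq_left h3, h2]
      field_simp
    · have h2 : (2:ℝ) ^ lev n = 2 ^ (lev n - lev m) * 2 ^ lev m := by
        rw [← pow_add]; congr 1; omega
      have h3 : ρ / 2 ^ lev n ≤ ρ / 2 ^ lev m := by
        apply div_le_div_of_nonneg_left hρ.le (by positivity)
        exact pow_le_pow_right₀ (by norm_num) hle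
      rw [max_eq_left hle, min_eq_right hle, min_eq_left h3, max_eq_right h3, h2]
      field_simp
  have hds : 0 < dep ρ lev (n, m) ^ s := Real.rpow_pos_of_pos hd _
  have h4 : dep ρ lev (n, m) ^ s * rat lev (n, m) ≤ 1 := by
    calc dep ρ lev (n, m) ^ s * rat lev (n, m) ≤
        dep ρ lev (n, m) ^ s * dep ρ lev (n, m) ^ (-s) := mul_le_mul_of_nonneg_left h hds.le
      _ = 1 := by rw [← Real.rpow_add hd]; simp
  rw [Real.rpow_add hd, Real.rpow_one]
  have e3 : dep ρ lev (n, m) = ((n.lcm m : ℕ) : ℝ) *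
      (rat lev (n, m) * min (rad ρ lev n) (rad ρ lev m)) := by
    rw [hrat]; rfl
  calc dep ρ lev (n, m) * dep ρ lev (n, m) ^ s
      = ((n.lcm m : ℕ) : ℝ) * (rat lev (n, m) * min (rad ρ lev n) (rad ρ lev m)) *
        dep ρ lev (n, m) ^ s := by rw [← e3]
    _ = ((n.lcm m : ℕ) : ℝ) * min (rad ρ lev n) (rad ρ lev m) *
        (dep ρ lev (n, m) ^ s * rat lev (n, m)) := by ring
    _ ≤ ((n.lcm m : ℕ) : ℝ) * min (rad ρ lev n) (rad ρ lev m) * 1 :=
        mul_le_mul_of_nonneg_left h4 (by positivity)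
    _ = _ := by ring

theorem dep_pos {ρ : ℝ} {lev : ℕ → ℕ} {n m : ℕ} (hρ : 0 < ρ) (hn : 0 < n) (hm : 0 < m) :
    0 < dep ρ lev (n, m) := by
  unfold dep
  have hl : (0:ℝ) < ((n.lcm m : ℕ) : ℝ) := by exact_mod_cast Nat.lcm_pos hn hm
  exact mul_pos hl (lt_max_of_lt_left (rad_pos hρ))

theorem clsK (h : ClassCL) (g : GenCL) : ClsK := by
  classical
  intro cs C1 hcs hcs1 P κb hκb
  obtain ⟨κ0', C6, a, hκ0, hκ1, hC6, ha, hcl⟩ := h cs C1 hcs hcs1 P
  set κ := min κ0' κb with hκdef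
  have hκ : 0 < κ := lt_min hκ0 hκb
  have hκle : κ ≤ κ0' := min_le_left _ _
  have hκle1 : κ ≤ 1 := hκle.trans hκ1
  set η : ℝ := min (1/18) (1 / (8 * (2 * a + 1))) with hη
  have hη0 : 0 < η := lt_min (by norm_num) (by positivity)
  have hη1 : η ≤ 1/18 := min_le_left _ _
  have hη2 : 2 * η * (2 * a + 1) ≤ 1/4 := by
    have h1 : η ≤ 1 / (8 * (2 * a + 1)) := min_le_right _ _
    have h2 : η * (8 * (2 * a + 1)) ≤ 1 := by
      rw [le_div_iff₀ (by positivity)] at h1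
      exact h1
    nlinarith
  obtain ⟨C, hC, hgen⟩ := g (1/2 + η) C1 (by linarith) (by linarith)
  refine ⟨κ, C * κ ^ (-(4 * η)) + 1, hκ, min_le_right _ _, by positivity, ?_⟩
  intro S lev ρ θ hρ hS
  obtain ⟨p, hp, hsum⟩ := hcl κ hκ hκle S lev ρ θ hρ hS
  set M := ∑ n ∈ S, mu ρ lev n with hM
  have hM0 : 0 ≤ M := Finset.sum_nonneg fun n hn => (mu_pos hρ (hS n hn).1).le
  have hkM0 : 0 < kM κ a M := kM_pos hκ hM0
  have hkM1 : kM κ a M ≤ κ := kM_le hκ ha hM0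
  set Z1 := (S ×ˢ S).filter (fun z => kM κ a M ≤ dep ρ lev z ∧ dep ρ lev z < 1) with hZ1
  set Z2 := (S ×ˢ S).filter (fun z => z.1 ≠ z.2 ∧
          dep ρ lev z < kM κ a M ∧
          nd ((((rd z).1 : ℝ) - (rd z).2) * θ) ≤ 2 * dep ρ lev z ∧
          ¬ R.Rel p z.1 z.2 ∧ ¬ R.Rel p z.2 z.1 ∧ ¬ ExplS cs C6 θ ρ lev z) with hZ2
  refine ⟨p, Z1 ∪ Z2, ?_, ?_, ?_, ?_⟩
  · exact Finset.union_subset (Finset.filter_subset _ _) (Finset.filter_subset _ _)
  · intro m hm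
    rcases hp m hm with h1 | ⟨h1, h2, h3⟩
    · exact Or.inl h1
    · exact Or.inr ⟨h1, h2, h3.trans hkM1⟩
  · have hene : ∀ z ∈ Z1 ∪ Z2, K.ene (mu ρ lev) z.1 z.2 = ene ρ lev z := by
      intro z hz
      have hz' : z ∈ S ×ˢ S := by
        rcases Finset.mem_union.1 hz with h1 | h1
        · exact (Finset.mem_filter.1 h1).1
        · exact (Finset.mem_filter.1 h1).1
      rw [Finset.mem_product] at hz'
      exact ene_eq ρ lev z.1 z.2 (hS _ hz'.1).1 (hS _ hz'.2).1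
    rw [Finset.sum_congr rfl hene]
    have hnn : ∀ z, 0 ≤ ene ρ lev z := by
      intro z
      unfold ene
      exact mul_nonneg (Nat.cast_nonneg _) (le_min (rad_pos hρ).le (rad_pos hρ).le)
    have h1 : ∑ z ∈ Z1 ∪ Z2, ene ρ lev z ≤ ∑ z ∈ Z1, ene ρ lev z + ∑ z ∈ Z2, ene ρ lev z := by
      have := Finset.sum_union_inter (s₁ := Z1) (s₂ := Z2) (f := ene ρ lev)
      have h2 : 0 ≤ ∑ z ∈ Z1 ∩ Z2, ene ρ lev z := Finset.sum_nonneg fun _ _ => hnn _
      linarith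
    have h2 := hgen S lev ρ (kM κ a M) hρ hkM0 (hkM1.trans hκle1) hS
    have h3 : ∑ z ∈ Z2, ene ρ lev z ≤ M := hsum
    have hM1 : (0:ℝ) < 1 + M := by linarith
    have h4 : C * kM κ a M ^ (-(2 * (2 * (1/2 + η) - 1))) * M ^ (2 * (1/2 + η)) ≤
        C * κ ^ (-(4 * η)) * ((1 + M) ^ ((1:ℝ)/4) * M) := by
      have e1 : (-(2 * (2 * (1/2 + η) - 1))) = -(4 * η) := by ring
      have e2 : 2 * (1/2 + η) = 1 + 2 * η := by ring
      rw [e1, e2]
      have e3 : kM κ a M ^ (-(4 * η)) = κ ^ (-(4 * η)) * (1 + M) ^ (4 * a * η) := by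
        unfold kM
        rw [Real.mul_rpow hκ.le (Real.rpow_nonneg hM1.le _), ← Real.rpow_mul hM1.le]
        congr 2
        ring
      rcases hM0.eq_or_lt with hMz | hMp
      · rw [← hMz]
        rw [Real.zero_rpow (by linarith)]
        simp
      have e4 : M ^ (1 + 2 * η) ≤ M * (1 + M) ^ (2 * η) := by
        rw [Real.rpow_add hMp, Real.rpow_one]
        exact mul_le_mul_of_nonneg_left
          (Real.rpow_le_rpow hM0 (by linarith) (by linarith)) hM0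
      have e5 : (1 + M) ^ (4 * a * η) * (1 + M) ^ (2 * η) ≤ (1 + M) ^ ((1:ℝ)/4) := by
        rw [← Real.rpow_add hM1]
        apply Real.rpow_le_rpow_of_exponent_le (by linarith)
        linarith
      rw [e3]
      calc C * (κ ^ (-(4 * η)) * (1 + M) ^ (4 * a * η)) * M ^ (1 + 2 * η)
          ≤ C * (κ ^ (-(4 * η)) * (1 + M) ^ (4 * a * η)) * (M * (1 + M) ^ (2 * η)) :=
            mul_le_mul_of_nonneg_left e4 (by positivity)
        _ = C * κ ^ (-(4 * η)) * (((1 + M) ^ (4 * a * η) * (1 + M) ^ (2 * η)) * M) := by ring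
        _ ≤ C * κ ^ (-(4 * η)) * ((1 + M) ^ ((1:ℝ)/4) * M) := by
            apply mul_le_mul_of_nonneg_left _ (by positivity)
            exact mul_le_mul_of_nonneg_right e5 hM0
    have h5 : M ≤ (1 + M) ^ ((1:ℝ)/4) * M := by
      have : (1:ℝ) ≤ (1 + M) ^ ((1:ℝ)/4) := Real.one_le_rpow (by linarith) (by norm_num)
      nlinarith
    have h6 : ∑ z ∈ Z1, ene ρ lev z ≤
        C * kM κ a M ^ (-(2 * (2 * (1/2 + η) - 1))) * M ^ (2 * (1/2 + η)) := h2
    calc ∑ z ∈ Z1 ∪ Z2, ene ρ lev z ≤ ∑ z ∈ Z1, ene ρ lev z + ∑ z ∈ Z2, ene ρ lev z := h1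
      _ ≤ C * κ ^ (-(4 * η)) * ((1 + M) ^ ((1:ℝ)/4) * M) + (1 + M) ^ ((1:ℝ)/4) * M := by
          linarith
      _ = (C * κ ^ (-(4 * η)) + 1) * (1 + M) ^ ((1:ℝ) / 4) * M := by ring
  · intro n hn m hm hnm hZ hd hal
    have hn0 := (hS n hn).1
    have hm0 := (hS m hm).1
    rw [dep_eq] at hd hal ⊢
    have hmem : (n, m) ∈ S ×ˢ S := Finset.mem_product.2 ⟨hn, hm⟩
    have hlt : dep ρ lev (n, m) < kM κ a M := by
      by_contra hcon
      apply hZ
      apply Finset.mem_union_left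
      rw [hZ1, Finset.mem_filter]
      exact ⟨hmem, not_lt.1 hcon, by linarith⟩
    refine ⟨hlt.le.trans hkM1, ?_⟩
    by_contra hcon
    push Not at hcon
    obtain ⟨hr1, hr2, hex⟩ := hcon
    apply hZ
    apply Finset.mem_union_right
    rw [hZ2, Finset.mem_filter]
    refine ⟨hmem, hnm, hlt, hal, hr1, hr2, ?_⟩
    intro hE
    obtain ⟨hrat, -, b, c, hb, hbc, hb2, hth⟩ := hE
    apply hex b c
    refine ⟨hb, hbc, ?_, ?_, ?_⟩
    · rw [dep_eq]; exact hb2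
    · rw [dep_eq]; exact hth
    · exact hr_of_rat hρ hn0 hm0 hrat

end Pool.Agent.MP_0863b8.CL

end

section

/-!
MP_0863b8_nt, classification, item P1 (`BadCL`): the bad pairs.
-/

set_option autoImplicit false

namespace Pool.Agent.MP_0863b8.CL

open Finset
open F (ms)
open C1 (Dp rd)

lemma ms_nonneg' (V : Finset ℕ) : 0 ≤ ms V := by
  unfold F.ms
  exact Finset.sum_nonneg (fun v _ => Nat.cast_nonneg v)

open Classical in
/-- bad pairs of depth `κ` in terms of `H.bad` -/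
lemma sum_bad_le (s κ X : ℝ) (P : ℕ) (V W : Finset ℕ) (h0 : 0 < κ * X) :
    ∑ z ∈ (V ×ˢ W).filter (fun z => Dp κ X z ∧ ¬ GoodP s κ P V W z), ((z.1.gcd z.2 : ℕ) : ℝ) ≤
      (H.bad (eS s) (qS s κ) P V W (2 * (κ * X)) + H.bad (eS s) (qS s κ) P V W (κ * X)) /
        (κ * X) := by
  rw [le_div_iff₀ h0, Finset.sum_mul]
  have hpt : ∀ z ∈ (V ×ˢ W).filter (fun z => Dp κ X z ∧ ¬ GoodP s κ P V W z),
      ((z.1.gcd z.2 : ℕ) : ℝ) * (κ * X) ≤ (z.1 : ℝ) * z.2 := by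
    intro z hz
    rw [Finset.mem_filter] at hz
    have h1 := hz.2.1.1
    have h2 : ((z.1.gcd z.2 : ℕ) : ℝ) * ((z.1.lcm z.2 : ℕ) : ℝ) = (z.1 : ℝ) * z.2 := by
      exact_mod_cast Nat.gcd_mul_lcm z.1 z.2
    rw [← h2]
    exact mul_le_mul_of_nonneg_left h1 (Nat.cast_nonneg _)
  refine (Finset.sum_le_sum hpt).trans ?_
  unfold H.bad
  have hsub : (V ×ˢ W).filter (fun z => Dp κ X z ∧ ¬ GoodP s κ P V W z) ⊆
      (V ×ˢ W).filter (fun z => 2 * (κ * X) / 2 < ((z.1.lcm z.2 : ℕ) : ℝ) ∧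
        ((z.1.lcm z.2 : ℕ) : ℝ) ≤ 2 * (κ * X) ∧ ¬ H.Good (eS s) (qS s κ) P V W z.1 z.2) ∪
      (V ×ˢ W).filter (fun z => κ * X / 2 < ((z.1.lcm z.2 : ℕ) : ℝ) ∧
        ((z.1.lcm z.2 : ℕ) : ℝ) ≤ κ * X ∧ ¬ H.Good (eS s) (qS s κ) P V W z.1 z.2) := by
    intro z hz
    rw [Finset.mem_filter] at hz
    obtain ⟨hz1, ⟨hz2, hz3⟩, hz4⟩ := hz
    rw [Finset.mem_union, Finset.mem_filter, Finset.mem_filter]
    rcases le_or_gt ((z.1.lcm z.2 : ℕ) : ℝ) (κ * X) with h | h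
    · right
      exact ⟨hz1, by linarith, h, hz4⟩
    · left
      exact ⟨hz1, by linarith, hz3.le, hz4⟩
  refine (Finset.sum_le_sum_of_subset_of_nonneg hsub (fun z _ _ => by positivity)).trans ?_
  have h3 := Finset.sum_union_inter (s₁ := (V ×ˢ W).filter
      (fun z => 2 * (κ * X) / 2 < ((z.1.lcm z.2 : ℕ) : ℝ) ∧
        ((z.1.lcm z.2 : ℕ) : ℝ) ≤ 2 * (κ * X) ∧ ¬ H.Good (eS s) (qS s κ) P V W z.1 z.2))
    (s₂ := (V ×ˢ W).filter (fun z => κ * X / 2 < ((z.1.lcm z.2 : ℕ) : ℝ) ∧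
        ((z.1.lcm z.2 : ℕ) : ℝ) ≤ κ * X ∧ ¬ H.Good (eS s) (qS s κ) P V W z.1 z.2))
    (f := fun z : ℕ × ℕ => (z.1 : ℝ) * z.2)
  rw [← h3]
  have h4 : 0 ≤ ∑ z ∈ (V ×ˢ W).filter
      (fun z => 2 * (κ * X) / 2 < ((z.1.lcm z.2 : ℕ) : ℝ) ∧
        ((z.1.lcm z.2 : ℕ) : ℝ) ≤ 2 * (κ * X) ∧ ¬ H.Good (eS s) (qS s κ) P V W z.1 z.2) ∩
    (V ×ˢ W).filter (fun z => κ * X / 2 < ((z.1.lcm z.2 : ℕ) : ℝ) ∧
        ((z.1.lcm z.2 : ℕ) : ℝ) ≤ κ * X ∧ ¬ H.Good (eS s) (qS s κ) P V W z.1 z.2),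
      (z.1 : ℝ) * z.2 := Finset.sum_nonneg (fun z _ => by positivity)
  linarith

theorem pr_BadCL (h : H.BadStmt) : BadCL := by
  intro s C1 hs hs1
  have hg1 : 1 / 2 < gS s := by
    unfold gS
    linarith
  have hg2 : gS s ≤ 5 / 9 := by
    unfold gS
    linarith
  obtain ⟨K, hK, Q0, hQ0⟩ := h (gS s) C1 hg1 hg2
  have hcg : 0 < H.cg (gS s) := by
    unfold H.cg
    linarith
  have haS : 0 < aS s := by
    unfold aS
    positivity
  refine ⟨min 1 (((Q0 : ℝ) + 1) ^ (-(1 / aS s))), 3 * K, ?_, min_le_left _ _, by positivity, ?_⟩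
  · apply lt_min one_pos
    positivity
  intro κ X P V W hκ hκ0 hX hV hW
  have hκX : 0 < κ * X := by positivity
  have hκ1 : κ ≤ ((Q0 : ℝ) + 1) ^ (-(1 / aS s)) := hκ0.trans (min_le_right _ _)
  have hpow : (Q0 : ℝ) + 1 ≤ κ ^ (-(aS s)) := by
    have h1 : (((Q0 : ℝ) + 1) ^ (-(1 / aS s))) ^ (-(aS s)) ≤ κ ^ (-(aS s)) :=
      Real.rpow_le_rpow_of_nonpos hκ hκ1 (by linarith)
    have h2 : (((Q0 : ℝ) + 1) ^ (-(1 / aS s))) ^ (-(aS s)) = (Q0 : ℝ) + 1 := by
      rw [← Real.rpow_mul (by positivity)]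
      have h3 : -(1 / aS s) * -(aS s) = 1 := by
        field_simp
      rw [h3, Real.rpow_one]
    rw [h2] at h1
    exact h1
  have hQle : κ ^ (-(aS s)) ≤ (qS s κ : ℝ) := by
    unfold qS
    exact Nat.le_ceil _
  have hQ : Q0 ≤ qS s κ := by
    have : (Q0 : ℝ) ≤ (qS s κ : ℝ) := by linarith
    exact_mod_cast this
  have hQcg : ((qS s κ : ℕ) : ℝ) ^ (-H.cg (gS s)) ≤ κ ^ (2 : ℝ) := by
    have h1 : ((qS s κ : ℕ) : ℝ) ^ (-H.cg (gS s)) ≤ (κ ^ (-(aS s))) ^ (-H.cg (gS s)) :=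
      Real.rpow_le_rpow_of_nonpos (by positivity) hQle (by linarith)
    have h2 : (κ ^ (-(aS s))) ^ (-H.cg (gS s)) = κ ^ (2 : ℝ) := by
      rw [← Real.rpow_mul hκ.le]
      congr 1
      unfold aS
      field_simp
    rw [h2] at h1
    exact h1
  have hV' : ∀ v ∈ V, 0 < v ∧ rp v ≤ C1 := fun v hv => ⟨(hV v hv).1, (hV v hv).2.1⟩
  have hW' : ∀ w ∈ W, 0 < w ∧ rp w ≤ C1 := fun w hw => ⟨(hW w hw).1, (hW w hw).2.1⟩
  have b1 := hQ0 (qS s κ) P hQ V W (2 * (κ * X)) hV' hW' (by positivity)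
  have b2 := hQ0 (qS s κ) P hQ V W (κ * X) hV' hW' (by positivity)
  have hM : 0 ≤ (ms V * ms W) ^ (gS s) :=
    Real.rpow_nonneg (mul_nonneg (ms_nonneg' V) (ms_nonneg' W)) _
  set M := (ms V * ms W) ^ (gS s) with hMdef
  have hpot1 : G.potG (gS s) (2 * (κ * X)) V W ≤ 2 * (κ * X) ^ (2 * (1 - gS s)) * M := by
    unfold G.potG
    rw [Real.mul_rpow (by norm_num) hκX.le]
    have h5 : (2 : ℝ) ^ (2 * (1 - gS s)) ≤ 2 := by
      calc (2 : ℝ) ^ (2 * (1 - gS s)) ≤ (2 : ℝ) ^ (1 : ℝ) := by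
            apply Real.rpow_le_rpow_of_exponent_le (by norm_num)
            linarith
        _ = 2 := Real.rpow_one _
    have h6 : 0 ≤ (κ * X) ^ (2 * (1 - gS s)) := Real.rpow_nonneg hκX.le _
    have h7 : (2 : ℝ) ^ (2 * (1 - gS s)) * (κ * X) ^ (2 * (1 - gS s)) ≤
        2 * (κ * X) ^ (2 * (1 - gS s)) := mul_le_mul_of_nonneg_right h5 h6
    exact mul_le_mul_of_nonneg_right h7 hM
  have hpot2 : G.potG (gS s) (κ * X) V W = (κ * X) ^ (2 * (1 - gS s)) * M := rfl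
  have hsum : H.bad (eS s) (qS s κ) P V W (2 * (κ * X)) + H.bad (eS s) (qS s κ) P V W (κ * X) ≤
      K * κ ^ (2 : ℝ) * (3 * (κ * X) ^ (2 * (1 - gS s)) * M) := by
    have h8 : 0 ≤ (κ * X) ^ (2 * (1 - gS s)) * M := mul_nonneg (Real.rpow_nonneg hκX.le _) hM
    have h9 : K * ((qS s κ : ℕ) : ℝ) ^ (-H.cg (gS s)) ≤ K * κ ^ (2 : ℝ) :=
      mul_le_mul_of_nonneg_left hQcg hK.le
    have h10 : 0 ≤ K * ((qS s κ : ℕ) : ℝ) ^ (-H.cg (gS s)) :=
      mul_nonneg hK.le (Real.rpow_nonneg (Nat.cast_nonneg _) _)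
    have c1 : H.bad (eS s) (qS s κ) P V W (2 * (κ * X)) ≤
        K * κ ^ (2 : ℝ) * (2 * (κ * X) ^ (2 * (1 - gS s)) * M) := by
      calc H.bad (eS s) (qS s κ) P V W (2 * (κ * X))
          ≤ K * ((qS s κ : ℕ) : ℝ) ^ (-H.cg (gS s)) * G.potG (gS s) (2 * (κ * X)) V W := b1
        _ ≤ K * ((qS s κ : ℕ) : ℝ) ^ (-H.cg (gS s)) * (2 * (κ * X) ^ (2 * (1 - gS s)) * M) :=
            mul_le_mul_of_nonneg_left hpot1 h10
        _ ≤ K * κ ^ (2 : ℝ) * (2 * (κ * X) ^ (2 * (1 - gS s)) * M) := by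
            apply mul_le_mul_of_nonneg_right h9
            linarith
    have c2 : H.bad (eS s) (qS s κ) P V W (κ * X) ≤
        K * κ ^ (2 : ℝ) * ((κ * X) ^ (2 * (1 - gS s)) * M) := by
      calc H.bad (eS s) (qS s κ) P V W (κ * X)
          ≤ K * ((qS s κ : ℕ) : ℝ) ^ (-H.cg (gS s)) * G.potG (gS s) (κ * X) V W := b2
        _ = K * ((qS s κ : ℕ) : ℝ) ^ (-H.cg (gS s)) * ((κ * X) ^ (2 * (1 - gS s)) * M) := by
            rw [hpot2]
        _ ≤ K * κ ^ (2 : ℝ) * ((κ * X) ^ (2 * (1 - gS s)) * M) :=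
            mul_le_mul_of_nonneg_right h9 h8
    calc H.bad (eS s) (qS s κ) P V W (2 * (κ * X)) + H.bad (eS s) (qS s κ) P V W (κ * X)
        ≤ K * κ ^ (2 : ℝ) * (2 * (κ * X) ^ (2 * (1 - gS s)) * M) +
          K * κ ^ (2 : ℝ) * ((κ * X) ^ (2 * (1 - gS s)) * M) := add_le_add c1 c2
      _ = K * κ ^ (2 : ℝ) * (3 * (κ * X) ^ (2 * (1 - gS s)) * M) := by ring
  refine (sum_bad_le s κ X P V W hκX).trans ?_
  rw [div_le_iff₀ hκX]
  refine hsum.trans (le_of_eq ?_)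
  have h11 : (κ * X) ^ (2 * (1 - gS s)) = (κ * X) ^ (1 - 2 * gS s) * (κ * X) := by
    nth_rewrite 3 [← Real.rpow_one (κ * X)]
    rw [← Real.rpow_add hκX]
    congr 1
    ring
  rw [h11]
  ring

end Pool.Agent.MP_0863b8.CL

end

section

set_option autoImplicit false

namespace Pool.Agent.MP_0863b8.CL

open Finset
open F (ms)
open C1 (Dp rd)

namespace BgCL_aux

theorem pow_exp {a t : ℝ} (ht : 0 < t) :
    ∀ᶠ y : ℝ in Filter.atTop, y ^ a ≤ Real.exp (y ^ t) := by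
  have h1 := (isLittleO_rpow_exp_atTop (a / t)).bound (c := 1) one_pos
  have h2 := (tendsto_rpow_atTop ht).eventually h1
  filter_upwards [h2, Filter.eventually_ge_atTop (0 : ℝ)] with y hy hy0
  rw [← Real.rpow_mul hy0, mul_div_cancel₀ _ ht.ne', one_mul, Real.norm_eq_abs, Real.norm_eq_abs,
    abs_of_nonneg (Real.rpow_nonneg hy0 _), abs_of_pos (Real.exp_pos _)] at hy
  exact hy

end BgCL_aux

open BgCL_aux in
theorem pr_BgCL (h : C2.ThmII) (hs : H.GoodStruct) (he : H.ExHb) : BgCL := by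
  classical
  intro s C1 hs0 hs1
  have hg : gS s = 1 / 2 + s / 20000 := rfl
  have ht : tS s = s / 4000 := rfl
  have hcg : H.cg (gS s) = s / 160000 := by
    unfold H.cg; rw [hg]; ring
  have ha : 0 < aS s := by
    unfold aS; rw [hcg]; positivity
  obtain ⟨κT, c', hκT, hc', hT⟩ := h (gS s) (s / 8) 1 (tS s) 1 C1 (aS s + 1)
    (by rw [hg]; linarith) (by rw [hg]; linarith) (by linarith) (by linarith) one_pos
    (by rw [ht]; linarith) zero_le_one (by linarith) (by rw [hg, ht]; nlinarith)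
  have E1 : ∀ᶠ y : ℝ in Filter.atTop, 4 ≤ y ^ (3 * s / 4) :=
    (tendsto_rpow_atTop (by linarith)).eventually_ge_atTop 4
  have E2 : ∀ᶠ y : ℝ in Filter.atTop, 32 ≤ y ^ (7 * s / 8) :=
    (tendsto_rpow_atTop (by linarith)).eventually_ge_atTop 32
  have E3 : ∀ᶠ y : ℝ in Filter.atTop, y ^ (aS s + 1) ≤ Real.exp (y ^ (tS s)) :=
    pow_exp (by rw [ht]; linarith)
  obtain ⟨y0, hy0⟩ := Filter.eventually_atTop.mp (((E1.and E2).and E3))
  refine ⟨min κT (min (1 / 2) (1 / max y0 1)), c', ?_, ?_, hc', ?_⟩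
  · positivity
  · exact (min_le_right _ _).trans ((min_le_left _ _).trans (by norm_num))
  intro κ X θ r P V W hκ hκ0 hX hr hV hW hmV hmW
  have hκT' : κ ≤ κT := hκ0.trans (min_le_left _ _)
  have hκ2 : κ ≤ 1 / 2 := hκ0.trans ((min_le_right _ _).trans (min_le_left _ _))
  have hκy : y0 ≤ κ⁻¹ := by
    have h1 : κ ≤ 1 / max y0 1 := hκ0.trans ((min_le_right _ _).trans (min_le_right _ _))
    have h2 : 0 < max y0 1 := by positivity
    have h3 : max y0 1 ≤ κ⁻¹ := by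
      rw [le_inv_comm₀ h2 hκ]
      rw [one_div] at h1; exact h1
    exact (le_max_left _ _).trans h3
  obtain ⟨⟨e1, e2⟩, e3⟩ := hy0 κ⁻¹ hκy
  have hinv : ∀ b : ℝ, κ⁻¹ ^ b = κ ^ (-b) := fun b => by
    rw [Real.inv_rpow hκ.le, Real.rpow_neg hκ.le]
  rw [hinv] at e1 e2 e3
  rw [hinv] at e3
  have hκ1 : κ ≤ 1 := by linarith
  -- the cut
  have hQ : (qS s κ : ℝ) ≤ κ ^ (-(aS s + 1)) := by
    unfold qS
    have h1 : 1 ≤ κ ^ (-(aS s)) := Real.one_le_rpow_of_pos_of_le_one_of_nonpos hκ hκ1 (by linarith)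
    have h2 : (⌈κ ^ (-(aS s))⌉₊ : ℝ) < κ ^ (-(aS s)) + 1 :=
      Nat.ceil_lt_add_one (by linarith)
    have h3 : κ ^ (-(aS s + 1)) = κ ^ (-(aS s)) * κ⁻¹ := by
      rw [← Real.rpow_neg_one, ← Real.rpow_add hκ]; congr 1; ring
    have h4 : 2 ≤ κ⁻¹ := by
      rw [le_inv_comm₀ (by norm_num) hκ]; linarith
    rw [h3]
    nlinarith
  set G : Finset (ℕ × ℕ) := (edges κ X θ V W).filter (fun z => ¬ LabP s κ θ z ∧
      GoodP s κ P V W z ∧
      ¬ (∀ p : ℕ, p.Prime → p ∣ (rd z).1 * (rd z).2 → (p : ℝ) ≤ Real.exp (κ ^ (-(tS s)))) ∧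
      ∀ p : ℕ, p.Prime → p ∣ (rd z).1 * (rd z).2 →
        p ≤ max (max (AP s κ P V z.1) (AP s κ P W z.2)) (qS s κ)) with hG
  have mem : ∀ z ∈ G, (z.1 ∈ V ∧ z.2 ∈ W) ∧ (Dp κ X z ∧ z.1 ≠ z.2 ∧
      nd ((((rd z).1 : ℝ) - (rd z).2) * θ) ≤ 4 * κ) ∧ ¬ LabP s κ θ z ∧
      GoodP s κ P V W z ∧
      ¬ (∀ p : ℕ, p.Prime → p ∣ (rd z).1 * (rd z).2 → (p : ℝ) ≤ Real.exp (κ ^ (-(tS s)))) ∧
      ∀ p : ℕ, p.Prime → p ∣ (rd z).1 * (rd z).2 →
        p ≤ max (max (AP s κ P V z.1) (AP s κ P W z.2)) (qS s κ) := by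
    intro z hz
    rw [hG, Finset.mem_filter, edges, Finset.mem_filter, Finset.mem_product] at hz
    exact ⟨hz.1.1, hz.1.2, hz.2⟩
  have hConf : C2.Conf θ κ X r (κ ^ (-(aS s + 1))) (Real.exp (κ ^ (-(tS s)))) C1 1 V W
      (AP s κ P V) (hP s κ P V) (AP s κ P W) (hP s κ P W) G := by
    refine ⟨fun z hz => (mem z hz).1, ?_, ?_, fun z hz => (mem z hz).2.1.1,
      fun z hz => (mem z hz).2.1.2.2, ?_, ?_, hmV, hmW⟩
    · intro n hn
      obtain ⟨a1, a2, a3⟩ := hV n hn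
      obtain ⟨b1, b2, b3, -⟩ := he (eS s) (qS s κ) P V n a1
      exact ⟨a1, a2, b1, b2, b3⟩
    · intro n hn
      obtain ⟨a1, a2, a3⟩ := hW n hn
      obtain ⟨b1, b2, b3, -⟩ := he (eS s) (qS s κ) P W n a1
      exact ⟨a1, a2, b1, b2, b3⟩
    · intro z hz
      obtain ⟨⟨z1, z2⟩, -, -, hgood, -⟩ := mem z hz
      obtain ⟨a1, -, a3⟩ := hV _ z1
      obtain ⟨b1, -, b3⟩ := hW _ z2
      obtain ⟨su, sv, hsu, hsv, psu, psv, e1, e2⟩ :=
        hs (eS s) (qS s κ) P V W z.1 z.2 a1 b1 z1 z2 a3 b3 hgood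
      refine ⟨su, sv, e1, e2, ?_⟩
      intro p hp hdvd
      have : p ≤ qS s κ := by
        rcases hp.dvd_mul.mp hdvd with h1 | h1
        · exact psu p (Nat.mem_primeFactors.mpr ⟨hp, h1, hsu.ne'⟩)
        · exact psv p (Nat.mem_primeFactors.mpr ⟨hp, h1, hsv.ne'⟩)
      exact (Nat.cast_le.mpr this).trans hQ
    · intro z hz
      obtain ⟨-, -, -, -, hbig, hall⟩ := mem z hz
      push Not at hbig
      obtain ⟨p, hp, hpd, hpb⟩ := hbig
      have h1 := hall p hp hpd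
      have hQp : ((qS s κ : ℕ) : ℝ) < p := (hQ.trans e3).trans_lt hpb
      have hQp' : qS s κ < p := by exact_mod_cast hQp
      have h2 : p ≤ max (AP s κ P V z.1) (AP s κ P W z.2) := by
        rcases le_max_iff.mp h1 with h | h
        · exact h
        · exact absurd h (not_le.mpr hQp')
      refine ⟨?_, ?_⟩
      · intro q hq hqd
        rcases le_max_iff.mp (hall q hq hqd) with h | h
        · exact h
        · exact h.trans (hQp'.le.trans h2)
      · exact hpb.le.trans (Nat.cast_le.mpr h2)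
  have hfin := hT κ θ X r V W (AP s κ P V) (hP s κ P V) (AP s κ P W) (hP s κ P W) G hκ hκT' hX hr
    hConf
  rw [Finset.filter_true_of_mem] at hfin
  · exact hfin
  intro z hz hex
  obtain ⟨⟨z1, z2⟩, -, hlab, -⟩ := mem z hz
  apply hlab
  obtain ⟨q, c, hq, hq4, hgcd, hθ⟩ := hex
  refine ⟨q, c, hq, hgcd, ?_, ?_⟩
  · have h1 : κ ^ (-s) = κ ^ (-(3 * s / 4)) * κ ^ (-(2 * (s / 8))) := by
      rw [← Real.rpow_add hκ]; congr 1; ring
    rw [h1]
    exact hq4.trans (mul_le_mul_of_nonneg_right e1 (Real.rpow_nonneg hκ.le _))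
  · have hpos : (0 : ℝ) < ((max (C2.cu z) (C2.cv z) : ℕ) : ℝ) := by
      have a1 := (hV _ z1).1
      have : 0 < C2.cu z := Nat.div_pos (Nat.gcd_le_left _ a1) (Nat.gcd_pos_of_pos_left _ a1)
      exact_mod_cast lt_of_lt_of_le this (le_max_left _ _)
    have h1 : κ ^ (1 - s) = κ ^ (-(7 * s / 8)) * κ ^ (1 - s / 8) := by
      rw [← Real.rpow_add hκ]; congr 1; ring
    rw [h1]
    change |θ - c / q| * ((max (C2.cu z) (C2.cv z) : ℕ) : ℝ) ≤ _
    calc |θ - c / q| * ((max (C2.cu z) (C2.cv z) : ℕ) : ℝ)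
        ≤ 32 * κ ^ (1 - s / 8) / ((max (C2.cu z) (C2.cv z) : ℕ) : ℝ) *
          ((max (C2.cu z) (C2.cv z) : ℕ) : ℝ) := mul_le_mul_of_nonneg_right hθ hpos.le
      _ = 32 * κ ^ (1 - s / 8) := by field_simp
      _ ≤ _ := mul_le_mul_of_nonneg_right e2 (Real.rpow_nonneg hκ.le _)

end Pool.Agent.MP_0863b8.CL

end

section

set_option autoImplicit false

namespace Pool.Agent.MP_0863b8.CL

open Finset
open F (ms)
open C1 (Dp rd)

theorem ClassCL_exists_j (κM d : ℝ) (hd : 0 < d) (h : d < κM) :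
    ∃ j : ℕ, κM / 2 ^ (j + 1) ≤ d ∧ d < 2 * (κM / 2 ^ (j + 1)) := by
  classical
  have hex : ∃ j : ℕ, κM / 2 ^ (j + 1) ≤ d := by
    obtain ⟨n, hn⟩ := pow_unbounded_of_one_lt (κM / d) (by norm_num : (1:ℝ) < 2)
    refine ⟨n, ?_⟩
    rw [div_lt_iff₀ hd] at hn
    rw [div_le_iff₀ (by positivity)]
    have : (2:ℝ) ^ n ≤ 2 ^ (n + 1) := pow_le_pow_right₀ (by norm_num) (Nat.le_succ n)
    nlinarith
  have key : ∀ j : ℕ, 2 * (κM / 2 ^ (j + 1)) = κM / 2 ^ j := by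
    intro j
    rw [pow_succ]
    field_simp
  refine ⟨Nat.find hex, Nat.find_spec hex, ?_⟩
  rcases Nat.eq_zero_or_pos (Nat.find hex) with h0 | h0
  · rw [h0, key]; simpa using h
  · obtain ⟨m, hm⟩ := Nat.exists_eq_succ_of_ne_zero h0.ne'
    have h1 := Nat.find_min hex (m := m) (by omega)
    rw [not_le] at h1
    rw [hm, key]
    exact h1

theorem ClassCL_geom (r : ℝ) (hr : 0 < r) (hr1 : r < 1) (J : ℕ) :
    ∑ j ∈ range J, r ^ (j + 1) ≤ 1 / (1 - r) := by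
  have h1 : ∑ j ∈ range J, r ^ (j + 1) ≤ ∑ j ∈ range J, r ^ j := by
    apply Finset.sum_le_sum
    intro j _
    rw [pow_succ]
    have : 0 ≤ r ^ j := by positivity
    nlinarith
  have h2 : (1 - r) * ∑ j ∈ range J, r ^ j = 1 - r ^ J := by
    have := mul_neg_geom_sum r J
    linarith
  have h3 : 0 ≤ r ^ J := by positivity
  have h4 : 0 < 1 - r := by linarith
  refine h1.trans ?_
  rw [le_div_iff₀ h4]
  linarith

theorem ClassCL_mu_nonneg (ρ : ℝ) (hρ : 0 < ρ) (lev : ℕ → ℕ) (n : ℕ) : 0 ≤ mu ρ lev n := by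
  unfold mu rad; positivity

theorem ClassCL_ene_nonneg (ρ : ℝ) (hρ : 0 < ρ) (lev : ℕ → ℕ) (z : ℕ × ℕ) :
    0 ≤ ene ρ lev z := by
  unfold ene rad
  apply mul_nonneg (Nat.cast_nonneg _)
  apply le_min <;> positivity

theorem ClassCL_dep_pos (ρ : ℝ) (hρ : 0 < ρ) (lev : ℕ → ℕ) (z : ℕ × ℕ) (h1 : 0 < z.1)
    (h2 : 0 < z.2) : 0 < dep ρ lev z := by
  unfold dep rad
  apply mul_pos
  · exact_mod_cast Nat.lcm_pos h1 h2
  · exact lt_of_lt_of_le (by positivity) (le_max_left _ _)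

theorem pr_ClassCL (h : LevLeCL) (h2 : SymCL) (h3 : LevSumCL) : ClassCL := by
  classical
  intro s C1 hs hs1 P0
  obtain ⟨κ0, c', hκ0, hκ01, hc', hLev⟩ := h s C1 hs hs1 P0
  obtain ⟨C, hC, hSum⟩ := h3 c' hc'
  set r : ℝ := ((2:ℝ) ^ c')⁻¹ with hr
  have h2c : 1 < (2:ℝ) ^ c' := Real.one_lt_rpow (by norm_num) hc'
  have hr0 : 0 < r := by rw [hr]; positivity
  have hr1 : r < 1 := inv_lt_one_of_one_lt₀ h2c
  set C3 : ℝ := 1 / (1 - r) with hC3
  have hC30 : 0 < C3 := by rw [hC3]; apply div_pos one_pos; linarith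
  set K : ℝ := C * C3 with hK
  have hK0 : 0 < K := mul_pos hC hC30
  refine ⟨min κ0 (K ^ (-(1 / c'))), cS (s / 2), 1, lt_min hκ0 (Real.rpow_pos_of_pos hK0 _),
    (min_le_left _ _).trans hκ01, ?_, one_pos, ?_⟩
  · unfold cS aS gS H.cg
    have : 0 < 2 / ((2 * (1 / 2 + s / 2 / 20000) - 1) / 16) := by
      apply div_pos (by norm_num)
      linarith
    linarith
  intro κ1 hκ1 hκ1' S lev ρ θ hρ hS
  set M : ℝ := ∑ n ∈ S, mu ρ lev n with hM
  have hM0 : 0 ≤ M := Finset.sum_nonneg (fun n _ => ClassCL_mu_nonneg ρ hρ lev n)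
  set κM : ℝ := kM κ1 1 M with hκM
  have hκMe : κM = κ1 * (1 + M)⁻¹ := by
    rw [hκM]; unfold kM; rw [Real.rpow_neg_one]
  have hκM0 : 0 < κM := by rw [hκMe]; positivity
  have hinv : (1 + M)⁻¹ ≤ 1 := inv_le_one_of_one_le₀ (by linarith)
  have hκM1 : κM ≤ κ1 := by
    rw [hκMe]; nlinarith
  have hκ10 : κ1 ≤ κ0 := hκ1'.trans (min_le_left _ _)
  have hκ11 : κ1 ≤ 1 := hκ10.trans hκ01
  have hKc : κ1 ^ c' ≤ K⁻¹ := by
    have h1 : κ1 ^ c' ≤ (K ^ (-(1 / c'))) ^ c' :=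
      Real.rpow_le_rpow hκ1.le (hκ1'.trans (min_le_right _ _)) hc'.le
    rw [← Real.rpow_mul hK0.le] at h1
    have : -(1 / c') * c' = -1 := by field_simp
    rw [this, Real.rpow_neg_one] at h1
    exact h1
  set p := pS (s / 2) P0 κM ρ S lev with hp
  refine ⟨p, ?_, ?_⟩
  · intro m _
    rw [hp]
    unfold pS
    split_ifs with hc
    · exact Or.inr hc
    · exact Or.inl rfl
  -- the dyadic index
  have hj : ∀ z : ℕ × ℕ, ∃ j : ℕ, 0 < dep ρ lev z → dep ρ lev z < κM →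
      κM / 2 ^ (j + 1) ≤ dep ρ lev z ∧ dep ρ lev z < 2 * (κM / 2 ^ (j + 1)) := by
    intro z
    by_cases hz : 0 < dep ρ lev z ∧ dep ρ lev z < κM
    · obtain ⟨j, hj⟩ := ClassCL_exists_j κM _ hz.1 hz.2
      exact ⟨j, fun _ _ => hj⟩
    · exact ⟨0, fun a b => absurd ⟨a, b⟩ hz⟩
  choose j hj using hj
  set J : ℕ := (S ×ˢ S).sup j + 1 with hJ
  set N : ℕ := S.sup lev + 1 with hN
  set Fi := (S ×ˢ S).filter (fun z => z.1 ≠ z.2 ∧ dep ρ lev z < κM ∧
          nd ((((rd z).1 : ℝ) - (rd z).2) * θ) ≤ 2 * dep ρ lev z ∧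
          ¬ R.Rel p z.1 z.2 ∧ ¬ R.Rel p z.2 z.1 ∧ ¬ ExplS s (cS (s / 2)) θ ρ lev z) with hFi
  have hmaps : ∀ z ∈ Fi, (j z, (lev z.1, lev z.2)) ∈ range J ×ˢ (range N ×ˢ range N) := by
    intro z hz
    have hz1 := (Finset.mem_filter.mp hz).1
    have hz2 := Finset.mem_product.mp hz1
    simp only [Finset.mem_product, Finset.mem_range]
    refine ⟨?_, ?_, ?_⟩
    · exact Nat.lt_succ_of_le (Finset.le_sup (f := j) hz1)
    · exact Nat.lt_succ_of_le (Finset.le_sup (f := lev) hz2.1)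
    · exact Nat.lt_succ_of_le (Finset.le_sup (f := lev) hz2.2)
  have hfib := Finset.sum_fiberwise_of_maps_to (f := fun z => ene ρ lev z) hmaps
  rw [← hfib, Finset.sum_product]
  have hpair : ∀ i : ℕ, ∀ k l : ℕ,
      ∑ z ∈ Fi.filter (fun z => (j z, (lev z.1, lev z.2)) = (i, (k, l))), ene ρ lev z ≤
        (κM / 2 ^ (i + 1)) ^ c' * (((2:ℝ) ^ (max k l - min k l)) ^ (-c') *
        (∑ n ∈ lvl S lev k, mu ρ lev n + ∑ n ∈ lvl S lev l, mu ρ lev n)) := by
    intro i k l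
    set κ : ℝ := κM / 2 ^ (i + 1) with hκ
    have h2i : (2:ℝ) ≤ 2 ^ (i + 1) := by
      calc (2:ℝ) = 2 ^ 1 := by norm_num
        _ ≤ 2 ^ (i + 1) := pow_le_pow_right₀ (by norm_num) (by omega)
    have hκp : 0 < κ := by rw [hκ]; positivity
    have h2κ : 2 * κ ≤ κM := by
      rw [hκ, ← mul_div_assoc, div_le_iff₀ (by positivity)]
      nlinarith
    have hκle : κ ≤ κ0 := by linarith
    have hMκ : M ≤ κ⁻¹ := by
      have h5 : κM ≤ (1 + M)⁻¹ := by
        rw [hκMe]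
        have : 0 ≤ (1 + M)⁻¹ := by positivity
        nlinarith
      have h6 : κ ≤ (1 + M)⁻¹ := by linarith
      have h7 : 1 + M ≤ κ⁻¹ := by
        rw [le_inv_comm₀ (by positivity) hκp]
        exact h6
      linarith
    have hsub : Fi.filter (fun z => (j z, (lev z.1, lev z.2)) = (i, (k, l))) ⊆
        exc s (cS (s / 2)) θ ρ κ p S lev k l := by
      intro z hz
      obtain ⟨hz1, hz2⟩ := Finset.mem_filter.mp hz
      obtain ⟨hz3, hz4⟩ := Finset.mem_filter.mp hz1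
      have hz5 := Finset.mem_product.mp hz3
      simp only [Prod.mk.injEq] at hz2
      have hdp : 0 < dep ρ lev z :=
        ClassCL_dep_pos ρ hρ lev z (hS _ hz5.1).1 (hS _ hz5.2).1
      have hjz := hj z hdp hz4.2.1
      rw [hz2.1] at hjz
      unfold exc
      rw [Finset.mem_filter]
      exact ⟨hz3, hz2.2, hjz, hz4.1, hz4.2.2.1, hz4.2.2.2.1, hz4.2.2.2.2.1, hz4.2.2.2.2.2⟩
    refine (Finset.sum_le_sum_of_subset_of_nonneg hsub
      (fun z _ _ => ClassCL_ene_nonneg ρ hρ lev z)).trans ?_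
    rcases le_total k l with hkl | hkl
    · have := hLev κ κM ρ θ S lev k l hκp hκle h2κ hρ hS hMκ hkl
      rw [max_eq_right hkl, min_eq_left hkl, ← mul_assoc]
      exact this
    · rw [h2 s (cS (s / 2)) θ ρ κ p S lev k l]
      have := hLev κ κM ρ θ S lev l k hκp hκle h2κ hρ hS hMκ hkl
      rw [max_eq_left hkl, min_eq_right hkl, ← mul_assoc, add_comm]
      exact this
  have hone : ∀ i : ℕ, ∑ y ∈ range N ×ˢ range N,
      ∑ z ∈ Fi.filter (fun z => (j z, (lev z.1, lev z.2)) = (i, y)), ene ρ lev z ≤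
        (κM / 2 ^ (i + 1)) ^ c' * (C * M) := by
    intro i
    rw [Finset.sum_product]
    have h5 := hSum S lev (fun n => mu ρ lev n) N (fun n => ClassCL_mu_nonneg ρ hρ lev n)
      (fun n hn => Nat.lt_succ_of_le (Finset.le_sup (f := lev) hn))
    calc ∑ k ∈ range N, ∑ l ∈ range N,
          ∑ z ∈ Fi.filter (fun z => (j z, (lev z.1, lev z.2)) = (i, (k, l))), ene ρ lev z
        ≤ ∑ k ∈ range N, ∑ l ∈ range N, (κM / 2 ^ (i + 1)) ^ c' *
          (((2:ℝ) ^ (max k l - min k l)) ^ (-c') *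
          (∑ n ∈ lvl S lev k, mu ρ lev n + ∑ n ∈ lvl S lev l, mu ρ lev n)) :=
          Finset.sum_le_sum (fun k _ => Finset.sum_le_sum (fun l _ => hpair i k l))
      _ = (κM / 2 ^ (i + 1)) ^ c' * ∑ k ∈ range N, ∑ l ∈ range N,
          (((2:ℝ) ^ (max k l - min k l)) ^ (-c') *
          (∑ n ∈ lvl S lev k, mu ρ lev n + ∑ n ∈ lvl S lev l, mu ρ lev n)) := by
          rw [Finset.mul_sum]
          apply Finset.sum_congr rfl
          intro k _
          rw [Finset.mul_sum]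
      _ ≤ (κM / 2 ^ (i + 1)) ^ c' * (C * M) :=
          mul_le_mul_of_nonneg_left h5 (by positivity)
  refine (Finset.sum_le_sum (fun i _ => hone i)).trans ?_
  have hpow : ∀ i : ℕ, (κM / 2 ^ (i + 1)) ^ c' = κM ^ c' * r ^ (i + 1) := by
    intro i
    rw [Real.div_rpow hκM0.le (by positivity), hr, inv_pow, div_eq_mul_inv]
    congr 2
    rw [← Real.rpow_natCast, ← Real.rpow_natCast, ← Real.rpow_mul (by norm_num),
      ← Real.rpow_mul (by norm_num), mul_comm]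
  calc ∑ i ∈ range J, (κM / 2 ^ (i + 1)) ^ c' * (C * M)
      = (∑ i ∈ range J, r ^ (i + 1)) * (κM ^ c' * (C * M)) := by
        rw [Finset.sum_mul]
        apply Finset.sum_congr rfl
        intro i _
        rw [hpow i]; ring
    _ ≤ C3 * (κM ^ c' * (C * M)) :=
        mul_le_mul_of_nonneg_right (ClassCL_geom r hr0 hr1 J) (by positivity)
    _ ≤ C3 * (K⁻¹ * (C * M)) := by
        apply mul_le_mul_of_nonneg_left _ hC30.le
        apply mul_le_mul_of_nonneg_right _ (by positivity)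
        exact (Real.rpow_le_rpow hκM0.le hκM1 hc'.le).trans hKc
    _ = M := by
        rw [hK]
        field_simp

end Pool.Agent.MP_0863b8.CL

end

section

/-!
MP_0863b8_nt, classification, item P2 (`DivCL`): sum over the divisors.
-/

set_option autoImplicit false

namespace Pool.Agent.MP_0863b8.CL

open Finset

lemma exp_neg_four_le (x : ℝ) (h0 : 0 ≤ x) (h1 : x ≤ 1 / 2) : Real.exp (-(4 * x)) ≤ 1 - x := by
  have h2 : 0 < 1 - x := by linarith
  rw [Real.exp_neg]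
  have h3 : 4 * x + 1 ≤ Real.exp (4 * x) := Real.add_one_le_exp _
  have h4 : 0 < Real.exp (4 * x) := Real.exp_pos _
  rw [inv_le_iff_one_le_mul₀ h4]
  nlinarith

lemma totient_div_ge (n : ℕ) (hn : 0 < n) :
    Real.exp (-(4 * rp n)) ≤ (Nat.totient n : ℝ) / n := by
  have hn' : (0 : ℝ) < n := by exact_mod_cast hn
  have h1 : (Nat.totient n : ℝ) = n * ∏ p ∈ n.primeFactors, (1 - (p : ℝ)⁻¹) := by
    have := Nat.totient_eq_mul_prod_factors n
    have h2 := congrArg (fun q : ℚ => (q : ℝ)) this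
    push_cast at h2
    exact h2
  rw [h1, mul_div_cancel_left₀ _ hn'.ne']
  have h3 : Real.exp (-(4 * rp n)) = ∏ p ∈ n.primeFactors, Real.exp (-(4 * (1 / (p : ℝ)))) := by
    rw [← Real.exp_sum]
    congr 1
    unfold rp
    rw [Finset.mul_sum, ← Finset.sum_neg_distrib]
  rw [h3]
  apply Finset.prod_le_prod
  · intro p _
    exact (Real.exp_pos _).le
  · intro p hp
    have hp2 : (2 : ℝ) ≤ p := by exact_mod_cast (Nat.prime_of_mem_primeFactors hp).two_le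
    have := exp_neg_four_le (1 / (p : ℝ)) (by positivity) (by
      apply one_div_le_one_div_of_le (by norm_num) hp2)
    rw [one_div] at this ⊢
    exact this

theorem pr_DivCL : DivCL := by
  intro C1
  refine ⟨Real.exp (4 * C1), Real.exp_pos _, fun n hn hr => ?_⟩
  have h1 : Real.exp (-(4 * C1)) ≤ (Nat.totient n : ℝ) / n := by
    refine le_trans ?_ (totient_div_ge n hn)
    apply Real.exp_le_exp.mpr
    linarith
  have h2 := (divsum (Real.exp (-(4 * C1))) n (Real.exp_pos _) hn h1).1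
  refine h2.trans (le_of_eq ?_)
  rw [Real.exp_neg, one_div, inv_inv]

end Pool.Agent.MP_0863b8.CL

end

section

/-!
MP_0863b8_nt, block CL, item FarCL: pairs of one depth, from the tree inequality.
-/

set_option autoImplicit false

namespace Pool.Agent.MP_0863b8.CL

open Finset
open F (ms)
open C1 (Dp rd)

namespace FarAux

lemma ms_nn (N : Finset ℕ) : 0 ≤ ms N := Finset.sum_nonneg fun _ _ => Nat.cast_nonneg _

open Classical in
/-- `en` with trivial conditions -/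
lemma en_eq (V W : Finset ℕ) (L : ℝ) :
    F.en Set.univ V W L Set.univ = ∑ t ∈ (V ×ˢ W).filter (fun t =>
      L / 2 < ((t.1.lcm t.2 : ℕ) : ℝ) ∧ ((t.1.lcm t.2 : ℕ) : ℝ) ≤ L), (t.1 : ℝ) * t.2 := by
  unfold F.en
  refine Finset.sum_congr ?_ fun _ _ => rfl
  ext t
  simp

end FarAux

open FarAux in
open Classical in
theorem pr_FarCL (h : G.TreeG) : FarCL := by
  intro γ C1 hγ1 hγ2
  obtain ⟨C, hC, hT⟩ := h γ C1 hγ1 hγ2
  refine ⟨5 * C, by positivity, ?_⟩
  intro κ X V W hκ hX hV hW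
  set Z : ℝ := κ * X with hZ
  have hZ0 : 0 < Z := mul_pos hκ hX
  have hM0 : 0 ≤ (ms V * ms W) ^ γ := Real.rpow_nonneg (mul_nonneg (ms_nn _) (ms_nn _)) _
  set S := (V ×ˢ W).filter (fun z => Dp κ X z) with hS
  set S1 := (V ×ˢ W).filter (fun t => (2 * Z) / 2 < ((t.1.lcm t.2 : ℕ) : ℝ) ∧
    ((t.1.lcm t.2 : ℕ) : ℝ) ≤ 2 * Z) with hS1
  set S2 := (V ×ˢ W).filter (fun t => Z / 2 < ((t.1.lcm t.2 : ℕ) : ℝ) ∧
    ((t.1.lcm t.2 : ℕ) : ℝ) ≤ Z) with hS2
  have hsub : S ⊆ S1 ∪ S2 := by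
    intro z hz
    rw [hS, mem_filter] at hz
    obtain ⟨hz, h1, h2⟩ := hz
    rw [mem_union, hS1, hS2, mem_filter, mem_filter]
    have h1' : Z ≤ ((z.1.lcm z.2 : ℕ) : ℝ) := h1
    have h2' : ((z.1.lcm z.2 : ℕ) : ℝ) < 2 * Z := by
      calc ((z.1.lcm z.2 : ℕ) : ℝ) < _ := h2
        _ = 2 * Z := by rw [hZ]
    rcases lt_or_eq_of_le h1' with h3 | h3
    · left; exact ⟨hz, by linarith, h2'.le⟩
    · right; exact ⟨hz, by linarith, h3.symm.le⟩
  have hgcd : ∀ z ∈ S, ((z.1.gcd z.2 : ℕ) : ℝ) ≤ (1 / Z) * ((z.1 : ℝ) * z.2) := by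
    intro z hz
    rw [hS, mem_filter] at hz
    obtain ⟨-, h1, -⟩ := hz
    have h1' : Z ≤ ((z.1.lcm z.2 : ℕ) : ℝ) := h1
    have h3 : ((z.1.gcd z.2 : ℕ) : ℝ) * ((z.1.lcm z.2 : ℕ) : ℝ) = (z.1 : ℝ) * z.2 := by
      exact_mod_cast Nat.gcd_mul_lcm z.1 z.2
    rw [← h3, one_div, inv_mul_eq_div, le_div_iff₀ hZ0]
    exact mul_le_mul_of_nonneg_left h1' (Nat.cast_nonneg _)
  have e1 : ∑ z ∈ S1, ((z.1 : ℝ) * z.2) ≤ C * G.potG γ (2 * Z) V W := by
    rw [hS1, ← en_eq]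
    exact hT V W (2 * Z) (by positivity) hV hW
  have e2 : ∑ z ∈ S2, ((z.1 : ℝ) * z.2) ≤ C * G.potG γ Z V W := by
    rw [hS2, ← en_eq]
    exact hT V W Z hZ0.le hV hW
  have p1 : (2 * Z) ^ (2 * (1 - γ)) ≤ 4 * Z ^ (2 * (1 - γ)) := by
    rw [Real.mul_rpow (by norm_num) hZ0.le]
    refine mul_le_mul_of_nonneg_right ?_ (Real.rpow_nonneg hZ0.le _)
    calc (2:ℝ) ^ (2 * (1 - γ)) ≤ (2:ℝ) ^ (2:ℝ) :=
          Real.rpow_le_rpow_of_exponent_le (by norm_num) (by linarith)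
      _ = 4 := by norm_num
  have p2 : (1 / Z) * Z ^ (2 * (1 - γ)) = Z ^ (1 - 2 * γ) := by
    rw [one_div, ← Real.rpow_neg_one, ← Real.rpow_add hZ0]
    congr 1; ring
  calc ∑ z ∈ S, ((z.1.gcd z.2 : ℕ) : ℝ) ≤ ∑ z ∈ S, (1 / Z) * ((z.1 : ℝ) * z.2) :=
        sum_le_sum hgcd
    _ = (1 / Z) * ∑ z ∈ S, ((z.1 : ℝ) * z.2) := by rw [mul_sum]
    _ ≤ (1 / Z) * (∑ z ∈ S1, ((z.1 : ℝ) * z.2) + ∑ z ∈ S2, ((z.1 : ℝ) * z.2)) := by
        refine mul_le_mul_of_nonneg_left ?_ (by positivity)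
        calc ∑ z ∈ S, ((z.1 : ℝ) * z.2) ≤ ∑ z ∈ S1 ∪ S2, ((z.1 : ℝ) * z.2) :=
              sum_le_sum_of_subset_of_nonneg hsub fun z _ _ => by positivity
          _ ≤ _ := by
              rw [← sum_union_inter]
              have : 0 ≤ ∑ z ∈ S1 ∩ S2, ((z.1 : ℝ) * z.2) := sum_nonneg fun z _ => by positivity
              linarith
    _ ≤ (1 / Z) * (C * (4 * Z ^ (2 * (1 - γ)) * (ms V * ms W) ^ γ) +
          C * (Z ^ (2 * (1 - γ)) * (ms V * ms W) ^ γ)) := by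
        refine mul_le_mul_of_nonneg_left (add_le_add (e1.trans ?_) e2) (by positivity)
        refine mul_le_mul_of_nonneg_left ?_ hC.le
        unfold G.potG
        exact mul_le_mul_of_nonneg_right p1 hM0
    _ = 5 * C * ((1 / Z) * Z ^ (2 * (1 - γ))) * (ms V * ms W) ^ γ := by ring
    _ = _ := by rw [p2]

end Pool.Agent.MP_0863b8.CL

end
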