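import Mathlib
import Pool.Agent.Work.MP_0863b8_nt.Bd.B06
import Pool.Agent.Work.MP_0863b8_nt.Bd.B01
import Pool.Agent.Work.MP_0863b8_nt.Bd.B07
import Pool.Agent.Work.MP_0863b8_nt.Bd.B08
import Pool.Agent.Work.MP_0863b8_nt.Bd.B04
import Pool.Agent.Work.MP_0863b8_nt.Bd.B05

/-! Bundle of small proof modules (one section per former module). -/

section

/-!
MP_0863b8_nt, block CL, item GenCL: generic pairs of depth in `[κ1, 1)` of a whole system.
-/

set_option autoImplicit false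

namespace Pool.Agent.MP_0863b8.CL

open Finset
open F (ms)
open C1 (Dp rd)

namespace GenAux

open Classical in
theorem cover {α ι : Type*} (T : Finset α) (I : Finset ι) (E : ι → Finset α) (f : α → ℝ)
    (hf : ∀ z, 0 ≤ f z) (h : ∀ z ∈ T, ∃ i ∈ I, z ∈ E i) :
    ∑ z ∈ T, f z ≤ ∑ i ∈ I, ∑ z ∈ E i, f z := by
  have hsub : T ⊆ I.biUnion E := fun z hz => by
    obtain ⟨i, hi, hz'⟩ := h z hz
    exact mem_biUnion.mpr ⟨i, hi, hz'⟩
  calc ∑ z ∈ T, f z ≤ ∑ z ∈ I.biUnion E, f z :=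
        sum_le_sum_of_subset_of_nonneg hsub fun z _ _ => hf z
    _ ≤ ∑ z ∈ I.biUnion E, ∑ i ∈ I, (if z ∈ E i then f z else 0) := by
        refine sum_le_sum fun z hz => ?_
        obtain ⟨i, hi, hz'⟩ := mem_biUnion.mp hz
        calc f z = (if z ∈ E i then f z else 0) := by rw [if_pos hz']
          _ ≤ _ := single_le_sum (f := fun i => if z ∈ E i then f z else 0)
            (fun i _ => by split_ifs; exacts [hf z, le_rfl]) hi
    _ = ∑ i ∈ I, ∑ z ∈ I.biUnion E, (if z ∈ E i then f z else 0) := sum_comm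
    _ = ∑ i ∈ I, ∑ z ∈ E i, f z := by
        refine sum_congr rfl fun i hi => ?_
        rw [← sum_filter]
        refine sum_congr ?_ fun _ _ => rfl
        ext z
        simp only [mem_filter, mem_biUnion]
        exact ⟨fun hz => hz.2, fun hz => ⟨⟨i, hi, hz⟩, hz⟩⟩

theorem pow_id {γ κ A B m : ℝ} (hκ : 0 < κ) (hA : 0 < A) (hB : 0 < B) (hm : 0 ≤ m) :
    B⁻¹ * ((κ * A) ^ (1 - 2 * γ) * (A * B * m) ^ γ) =
      κ ^ (1 - 2 * γ) * (B / A) ^ (-(1 - γ)) * m ^ γ := by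
  have h1 : (κ * A) ^ (1 - 2 * γ) = κ ^ (1 - 2 * γ) * A ^ (1 - 2 * γ) :=
    Real.mul_rpow hκ.le hA.le
  have h2 : (A * B * m) ^ γ = A ^ γ * B ^ γ * m ^ γ := by
    rw [Real.mul_rpow (by positivity) hm, Real.mul_rpow hA.le hB.le]
  have h3 : (B / A) ^ (-(1 - γ)) = B ^ (-(1 - γ)) * A ^ (1 - γ) := by
    rw [Real.div_rpow hB.le hA.le, Real.rpow_neg hA.le (1 - γ), div_inv_eq_mul]
  have h4 : A ^ (1 - γ) = A ^ (1 - 2 * γ) * A ^ γ := by
    rw [← Real.rpow_add hA]; congr 1; ring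
  have h5 : B ^ (-(1 - γ)) = B⁻¹ * B ^ γ := by
    rw [← Real.rpow_neg_one, ← Real.rpow_add hB]; congr 1; ring
  rw [h1, h2, h3, h4, h5]; ring

theorem mul_pow_le {γ x y M : ℝ} (hγ : 1/2 < γ) (hx : 0 ≤ x) (hy : 0 ≤ y) (hxM : x ≤ M)
    (hyM : y ≤ M) : (x * y) ^ γ ≤ M ^ (2 * γ - 1) * (x + y) := by
  have hM : 0 ≤ M := hx.trans hxM
  have h1 : (x * y) ^ γ = (x * y) ^ (γ - 1/2) * (x * y) ^ (1/2 : ℝ) := by
    rw [← Real.rpow_add_of_nonneg (by positivity) (by linarith) (by norm_num)]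
    congr 1; ring
  have h2 : (x * y) ^ (1/2 : ℝ) ≤ x + y := by
    rw [← Real.sqrt_eq_rpow, Real.sqrt_le_left (by positivity)]
    nlinarith [mul_nonneg hx hy]
  have h3 : (x * y) ^ (γ - 1/2) ≤ M ^ (2 * γ - 1) := by
    calc (x * y) ^ (γ - 1/2) ≤ (M * M) ^ (γ - 1/2) :=
          Real.rpow_le_rpow (by positivity) (mul_le_mul hxM hyM hy hM) (by linarith)
      _ = M ^ (2 * γ - 1) := by
          rw [Real.mul_rpow hM hM, ← Real.rpow_add_of_nonneg hM (by linarith) (by linarith)]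
          congr 1; ring
  rw [h1]
  exact mul_le_mul h3 h2 (Real.rpow_nonneg (by positivity) _) (Real.rpow_nonneg hM _)

theorem geom_le {q : ℝ} (h0 : 0 ≤ q) (h1 : q < 1) (J : ℕ) :
    ∑ j ∈ range J, q ^ j ≤ (1 - q)⁻¹ := by
  rw [← tsum_geometric_of_lt_one h0 h1]
  exact (summable_geometric_of_lt_one h0 h1).sum_le_tsum _ fun i _ => pow_nonneg h0 i

theorem mu_nonneg {ρ : ℝ} (hρ : 0 < ρ) (lev : ℕ → ℕ) (n : ℕ) : 0 ≤ mu ρ lev n := by
  unfold mu rad; positivity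

theorem ene_nonneg {ρ : ℝ} (hρ : 0 < ρ) (lev : ℕ → ℕ) (z : ℕ × ℕ) : 0 ≤ ene ρ lev z := by
  unfold ene rad
  refine mul_nonneg (Nat.cast_nonneg _) (le_min ?_ ?_) <;> positivity

theorem ms_lvl {ρ : ℝ} (hρ : 0 < ρ) (S : Finset ℕ) (lev : ℕ → ℕ) (k : ℕ) :
    ms (lvl S lev k) = 2 ^ k / ρ * ∑ n ∈ lvl S lev k, mu ρ lev n := by
  unfold ms
  rw [mul_sum]
  refine sum_congr rfl fun n hn => ?_
  have h : lev n = k := (mem_filter.mp hn).2
  unfold mu rad
  rw [h]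
  field_simp

theorem min_div {ρ : ℝ} (hρ : 0 < ρ) (k l : ℕ) :
    min (ρ / 2 ^ k) (ρ / 2 ^ l) = (2 ^ (max k l) / ρ : ℝ)⁻¹ := by
  rw [inv_div]
  rcases le_total k l with h | h
  · rw [max_eq_right h]
    exact min_eq_right (div_le_div_of_nonneg_left hρ.le (by positivity)
      (pow_le_pow_right₀ (by norm_num) h))
  · rw [max_eq_left h]
    exact min_eq_left (div_le_div_of_nonneg_left hρ.le (by positivity)
      (pow_le_pow_right₀ (by norm_num) h))

theorem max_div {ρ : ℝ} (hρ : 0 < ρ) (k l : ℕ) :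
    max (ρ / 2 ^ k) (ρ / 2 ^ l) = (2 ^ (min k l) / ρ : ℝ)⁻¹ := by
  rw [inv_div]
  rcases le_total k l with h | h
  · rw [min_eq_left h]
    exact max_eq_left (div_le_div_of_nonneg_left hρ.le (by positivity)
      (pow_le_pow_right₀ (by norm_num) h))
  · rw [min_eq_right h]
    exact max_eq_right (div_le_div_of_nonneg_left hρ.le (by positivity)
      (pow_le_pow_right₀ (by norm_num) h))

open Classical in
/-- two levels, one depth -/
theorem term {γ C C1 ρ κ : ℝ}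
    (hfar : ∀ (κ X : ℝ) (V W : Finset ℕ),
      0 < κ → 0 < X → (∀ v ∈ V, 0 < v ∧ rp v ≤ C1) → (∀ w ∈ W, 0 < w ∧ rp w ≤ C1) →
      ∑ z ∈ (V ×ˢ W).filter (fun z => Dp κ X z), ((z.1.gcd z.2 : ℕ) : ℝ) ≤
        C * (κ * X) ^ (1 - 2 * γ) * (ms V * ms W) ^ γ)
    (hρ : 0 < ρ) (hκ : 0 < κ) (S : Finset ℕ) (lev : ℕ → ℕ)
    (hS : ∀ n ∈ S, 0 < n ∧ rp n ≤ C1) (k l : ℕ) :
    ∑ z ∈ (lvl S lev k ×ˢ lvl S lev l).filter (fun z => Dp κ (2 ^ (min k l) / ρ) z),
      ene ρ lev z ≤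
    C * κ ^ (1 - 2 * γ) * (((2:ℝ) ^ (max k l - min k l)) ^ (-(1 - γ)) *
      ((∑ n ∈ lvl S lev k, mu ρ lev n) * ∑ n ∈ lvl S lev l, mu ρ lev n) ^ γ) := by
  set Mk := ∑ n ∈ lvl S lev k, mu ρ lev n with hMk
  set Ml := ∑ n ∈ lvl S lev l, mu ρ lev n with hMl
  have hk0 : 0 ≤ Mk := sum_nonneg fun n _ => mu_nonneg hρ lev n
  have hl0 : 0 ≤ Ml := sum_nonneg fun n _ => mu_nonneg hρ lev n
  set A : ℝ := 2 ^ (min k l) / ρ with hA
  set B : ℝ := 2 ^ (max k l) / ρ with hB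
  have hA0 : 0 < A := by positivity
  have hB0 : 0 < B := by positivity
  have hf := hfar κ A (lvl S lev k) (lvl S lev l) hκ hA0
    (fun v hv => hS v (mem_filter.mp hv).1) (fun v hv => hS v (mem_filter.mp hv).1)
  have e1 : ∑ z ∈ (lvl S lev k ×ˢ lvl S lev l).filter (fun z => Dp κ A z), ene ρ lev z =
      B⁻¹ * ∑ z ∈ (lvl S lev k ×ˢ lvl S lev l).filter (fun z => Dp κ A z),
        ((z.1.gcd z.2 : ℕ) : ℝ) := by
    rw [mul_sum]
    refine sum_congr rfl fun z hz => ?_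
    have hz1 := (mem_product.mp (mem_filter.mp hz).1)
    have h1 : lev z.1 = k := (mem_filter.mp hz1.1).2
    have h2 : lev z.2 = l := (mem_filter.mp hz1.2).2
    unfold ene rad
    rw [h1, h2, min_div hρ, mul_comm]
  have e2 : ms (lvl S lev k) * ms (lvl S lev l) = A * B * (Mk * Ml) := by
    rw [ms_lvl hρ, ms_lvl hρ, ← hMk, ← hMl]
    have : (2:ℝ) ^ k * 2 ^ l = 2 ^ (min k l) * 2 ^ (max k l) := by
      rw [← pow_add, ← pow_add, min_add_max]
    rw [hA, hB]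
    calc (2:ℝ) ^ k / ρ * Mk * (2 ^ l / ρ * Ml) = (2 ^ k * 2 ^ l) / (ρ * ρ) * (Mk * Ml) := by
          field_simp
      _ = _ := by rw [this]; field_simp
  have e3 : B / A = (2:ℝ) ^ (max k l - min k l) := by
    rw [hA, hB, div_div_div_cancel_right₀ hρ.ne']
    rw [pow_sub₀ _ (by norm_num) (min_le_max), div_eq_mul_inv]
  rw [e1]
  calc B⁻¹ * ∑ z ∈ (lvl S lev k ×ˢ lvl S lev l).filter (fun z => Dp κ A z),
        ((z.1.gcd z.2 : ℕ) : ℝ)
      ≤ B⁻¹ * (C * (κ * A) ^ (1 - 2 * γ) * (ms (lvl S lev k) * ms (lvl S lev l)) ^ γ) :=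
        mul_le_mul_of_nonneg_left hf (by positivity)
    _ = C * (B⁻¹ * ((κ * A) ^ (1 - 2 * γ) * (A * B * (Mk * Ml)) ^ γ)) := by rw [e2]; ring
    _ = C * (κ ^ (1 - 2 * γ) * (B / A) ^ (-(1 - γ)) * (Mk * Ml) ^ γ) := by
        rw [pow_id hκ hA0 hB0 (by positivity)]
    _ = _ := by rw [e3]; ring

end GenAux

open GenAux in
open Classical in
theorem pr_GenCL (h : FarCL) (hl : LevSumCL) : GenCL := by
  intro γ C1 hγ1 hγ2
  obtain ⟨C, hC, hfar⟩ := h γ C1 hγ1 hγ2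
  obtain ⟨C', hC', hlev⟩ := hl (1 - γ) (by linarith)
  set q : ℝ := (2:ℝ) ^ (1 - 2 * γ) with hq
  have hq0 : 0 < q := Real.rpow_pos_of_pos (by norm_num) _
  have hq1 : q < 1 := Real.rpow_lt_one_of_one_lt_of_neg (by norm_num) (by linarith)
  have hG : 0 < (1 - q)⁻¹ := inv_pos.mpr (by linarith)
  refine ⟨C * (1 - q)⁻¹ * C', by positivity, ?_⟩
  intro S lev ρ κ1 hρ hκ1 hκ1' hS
  set M : ℝ := ∑ n ∈ S, mu ρ lev n with hM
  have hM0 : 0 ≤ M := sum_nonneg fun n _ => mu_nonneg hρ lev n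
  set N : ℕ := S.sup lev + 1 with hN
  have hNS : ∀ n ∈ S, lev n < N := fun n hn => Nat.lt_succ_of_le (le_sup (f := lev) hn)
  obtain ⟨J, hJ⟩ := pow_unbounded_of_one_lt (1 / κ1) (one_lt_two (α := ℝ))
  have hJ' : 1 ≤ 2 ^ J * κ1 := by
    have := (div_lt_iff₀ hκ1).mp hJ
    linarith
  have hMlvl : ∀ k, ∑ n ∈ lvl S lev k, mu ρ lev n ≤ M := fun k =>
    sum_le_sum_of_subset_of_nonneg (filter_subset _ _) fun n _ _ => mu_nonneg hρ lev n
  have hMlvl0 : ∀ k, 0 ≤ ∑ n ∈ lvl S lev k, mu ρ lev n := fun k =>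
    sum_nonneg fun n _ => mu_nonneg hρ lev n
  have hpow : ∀ j : ℕ, (2 ^ j * κ1) ^ (1 - 2 * γ) = q ^ j * κ1 ^ (1 - 2 * γ) := by
    intro j
    rw [Real.mul_rpow (by positivity) hκ1.le, hq, ← Real.rpow_natCast, ← Real.rpow_natCast,
      ← Real.rpow_mul (by norm_num), ← Real.rpow_mul (by norm_num), mul_comm (j:ℝ)]
  have hcov := cover
    ((S ×ˢ S).filter (fun z => κ1 ≤ dep ρ lev z ∧ dep ρ lev z < 1))
    ((range N ×ˢ range N) ×ˢ range J)
    (fun i => (lvl S lev i.1.1 ×ˢ lvl S lev i.1.2).filter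
      (fun z => Dp (2 ^ i.2 * κ1) (2 ^ (min i.1.1 i.1.2) / ρ) z))
    (ene ρ lev) (ene_nonneg hρ lev) (by
      intro z hz
      obtain ⟨hz1, hz2, hz3⟩ := mem_filter.mp hz
      obtain ⟨hS1, hS2⟩ := mem_product.mp hz1
      obtain ⟨j, hj1, hj2⟩ := exists_nat_pow_near (x := dep ρ lev z / κ1) (y := (2:ℝ))
        ((one_le_div hκ1).mpr hz2) (by norm_num)
      rw [le_div_iff₀ hκ1] at hj1
      rw [div_lt_iff₀ hκ1] at hj2
      have hjJ : j < J := by
        by_contra hcon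
        push Not at hcon
        have : (2:ℝ) ^ J ≤ 2 ^ j := pow_le_pow_right₀ (by norm_num) hcon
        have := mul_le_mul_of_nonneg_right this hκ1.le
        linarith
      refine ⟨((lev z.1, lev z.2), j), ?_, ?_⟩
      · simp only [mem_product, mem_range]
        exact ⟨⟨hNS _ hS1, hNS _ hS2⟩, hjJ⟩
      · rw [mem_filter]
        refine ⟨mem_product.mpr ⟨mem_filter.mpr ⟨hS1, rfl⟩, mem_filter.mpr ⟨hS2, rfl⟩⟩, ?_⟩
        have hA0 : (0:ℝ) < 2 ^ (min (lev z.1) (lev z.2)) / ρ := by positivity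
        have hd : dep ρ lev z =
            ((z.1.lcm z.2 : ℕ) : ℝ) * (2 ^ (min (lev z.1) (lev z.2)) / ρ)⁻¹ := by
          unfold dep rad; rw [max_div hρ]
        rw [hd, ← div_eq_mul_inv] at hj1 hj2
        refine ⟨(le_div_iff₀ hA0).mp hj1, ?_⟩
        have h5 := (div_lt_iff₀ hA0).mp hj2
        calc ((z.1.lcm z.2 : ℕ) : ℝ) < _ := h5
          _ = _ := by rw [pow_succ]; ring)
  refine hcov.trans ?_
  rw [sum_product, sum_product]
  have hterm : ∀ k ∈ range N, ∀ l ∈ range N,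
      ∑ j ∈ range J, ∑ z ∈ (lvl S lev k ×ˢ lvl S lev l).filter
        (fun z => Dp (2 ^ j * κ1) (2 ^ (min k l) / ρ) z), ene ρ lev z ≤
      (C * (1 - q)⁻¹ * κ1 ^ (1 - 2 * γ) * M ^ (2 * γ - 1)) *
        (((2:ℝ) ^ (max k l - min k l)) ^ (-(1 - γ)) *
          (∑ n ∈ lvl S lev k, mu ρ lev n + ∑ n ∈ lvl S lev l, mu ρ lev n)) := by
    intro k _ l _
    have hR : 0 ≤ ((2:ℝ) ^ (max k l - min k l)) ^ (-(1 - γ)) := Real.rpow_nonneg (by positivity) _
    have hK : 0 ≤ κ1 ^ (1 - 2 * γ) := Real.rpow_nonneg hκ1.le _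
    have hmp := mul_pow_le hγ1 (hMlvl0 k) (hMlvl0 l) (hMlvl k) (hMlvl l)
    have hmp0 : 0 ≤ ((∑ n ∈ lvl S lev k, mu ρ lev n) * ∑ n ∈ lvl S lev l, mu ρ lev n) ^ γ :=
      Real.rpow_nonneg (mul_nonneg (hMlvl0 k) (hMlvl0 l)) _
    calc ∑ j ∈ range J, ∑ z ∈ (lvl S lev k ×ˢ lvl S lev l).filter
          (fun z => Dp (2 ^ j * κ1) (2 ^ (min k l) / ρ) z), ene ρ lev z
        ≤ ∑ j ∈ range J, C * (2 ^ j * κ1) ^ (1 - 2 * γ) *
          (((2:ℝ) ^ (max k l - min k l)) ^ (-(1 - γ)) *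
          ((∑ n ∈ lvl S lev k, mu ρ lev n) * ∑ n ∈ lvl S lev l, mu ρ lev n) ^ γ) :=
          sum_le_sum fun j _ => term hfar hρ (by positivity) S lev hS k l
      _ = (∑ j ∈ range J, q ^ j) * (C * κ1 ^ (1 - 2 * γ) *
          (((2:ℝ) ^ (max k l - min k l)) ^ (-(1 - γ)) *
          ((∑ n ∈ lvl S lev k, mu ρ lev n) * ∑ n ∈ lvl S lev l, mu ρ lev n) ^ γ)) := by
          rw [sum_mul (range J)]
          refine sum_congr rfl fun j _ => ?_
          rw [hpow]; ring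
      _ ≤ (1 - q)⁻¹ * (C * κ1 ^ (1 - 2 * γ) *
          (((2:ℝ) ^ (max k l - min k l)) ^ (-(1 - γ)) *
          (M ^ (2 * γ - 1) *
            (∑ n ∈ lvl S lev k, mu ρ lev n + ∑ n ∈ lvl S lev l, mu ρ lev n)))) := by
          refine mul_le_mul (geom_le hq0.le hq1 J) ?_ (by positivity) hG.le
          refine mul_le_mul_of_nonneg_left ?_ (by positivity)
          exact mul_le_mul_of_nonneg_left hmp hR
      _ = _ := by ring
  have hMp : 0 ≤ M ^ (2 * γ - 1) := Real.rpow_nonneg hM0 _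
  have hK : 0 ≤ κ1 ^ (1 - 2 * γ) := Real.rpow_nonneg hκ1.le _
  have hK2 : κ1 ^ (1 - 2 * γ) ≤ κ1 ^ (-(2 * (2 * γ - 1))) :=
    Real.rpow_le_rpow_of_exponent_ge hκ1 hκ1' (by linarith)
  refine (sum_le_sum (fun k hk => sum_le_sum (fun l hl => hterm k hk l hl))).trans ?_
  calc ∑ k ∈ range N, ∑ l ∈ range N,
        (C * (1 - q)⁻¹ * κ1 ^ (1 - 2 * γ) * M ^ (2 * γ - 1)) *
        (((2:ℝ) ^ (max k l - min k l)) ^ (-(1 - γ)) *
          (∑ n ∈ lvl S lev k, mu ρ lev n + ∑ n ∈ lvl S lev l, mu ρ lev n))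
      = (C * (1 - q)⁻¹ * κ1 ^ (1 - 2 * γ) * M ^ (2 * γ - 1)) *
        ∑ k ∈ range N, ∑ l ∈ range N, (((2:ℝ) ^ (max k l - min k l)) ^ (-(1 - γ)) *
          (∑ n ∈ lvl S lev k, mu ρ lev n + ∑ n ∈ lvl S lev l, mu ρ lev n)) := by
        simp only [mul_sum]
    _ ≤ (C * (1 - q)⁻¹ * κ1 ^ (1 - 2 * γ) * M ^ (2 * γ - 1)) * (C' * M) :=
        mul_le_mul_of_nonneg_left (hlev S lev (mu ρ lev) N (mu_nonneg hρ lev) hNS)
          (by positivity)
    _ = C * (1 - q)⁻¹ * C' * κ1 ^ (1 - 2 * γ) * (M ^ (2 * γ - 1) * M) := by ring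
    _ = C * (1 - q)⁻¹ * C' * κ1 ^ (1 - 2 * γ) * M ^ (2 * γ) := by
        rw [← Real.rpow_add_one' hM0 (by linarith)]
        congr 2; ring
    _ ≤ C * (1 - q)⁻¹ * C' * κ1 ^ (-(2 * (2 * γ - 1))) * M ^ (2 * γ) := by
        refine mul_le_mul_of_nonneg_right ?_ (Real.rpow_nonneg hM0 _)
        exact mul_le_mul_of_nonneg_left hK2 (by positivity)

end Pool.Agent.MP_0863b8.CL

end

section

set_option autoImplicit false

namespace Pool.Agent.MP_0863b8.CL

open Finset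
open F (ms)
open C1 (Dp rd)

/-! ### The leaf prime of a relevant pair -/

private theorem lvle_prime (e : ℝ) (P : ℕ) (W : Finset ℕ) (m : ℕ) (h : lp e P W m ≠ 0) :
    (lp e P W m).Prime := by
  unfold lp at h ⊢
  by_cases hne : (H.hb e 0 P W m).primeFactors.Nonempty
  · obtain ⟨i, hi, hsup⟩ := Finset.exists_mem_eq_sup _ hne id
    rw [hsup]
    exact Nat.prime_of_mem_primeFactors hi
  · rw [Finset.not_nonempty_iff_eq_empty] at hne
    rw [hne] at h
    exact absurd rfl h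

private theorem lvle_lcm (n m : ℕ) (hn : 0 < n) : n / n.gcd m * m = n.lcm m := by
  have hg : 0 < n.gcd m := Nat.gcd_pos_of_pos_left m hn
  have h1 : n.gcd m * n.lcm m = n * m := Nat.gcd_mul_lcm n m
  have h2 : n.gcd m * (n / n.gcd m) = n := Nat.mul_div_cancel' (Nat.gcd_dvd_left n m)
  refine Nat.eq_of_mul_eq_mul_left hg ?_
  rw [h1, ← mul_assoc, h2]

private theorem lvle_q (q n m : ℕ) (hn : 0 < n) (hm : 0 < m) (hq : q.Prime)
    (h : n.factorization q = m.factorization q + 1) : q * m ≤ n.lcm m := by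
  have hg : 0 < n.gcd m := Nat.gcd_pos_of_pos_left m hn
  have h1 : (n / n.gcd m).factorization q = 1 := by
    rw [Nat.factorization_div (Nat.gcd_dvd_left n m), Nat.factorization_gcd hn.ne' hm.ne']
    simp only [Finsupp.coe_tsub, Pi.sub_apply, Finsupp.inf_apply]
    rw [h]
    have : min (m.factorization q + 1) (m.factorization q) = m.factorization q :=
      min_eq_right (Nat.le_succ _)
    rw [this]
    omega
  have h2 : q ∣ n / n.gcd m := Nat.dvd_of_factorization_pos (by rw [h1]; norm_num)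
  have h3 : 0 < n / n.gcd m := Nat.div_pos (Nat.le_of_dvd hn (Nat.gcd_dvd_left n m)) hg
  rw [← lvle_lcm n m hn]
  exact Nat.mul_le_mul_right m (Nat.le_of_dvd h3 h2)

/-! ### Levels -/

private theorem lvle_pow (s κ : ℝ) (hs : 0 < s) (hκ : 0 < κ) (hκ4 : κ ≤ 1 / 4)
    (d : ℝ) (hd0 : κ ≤ d) (hd : d < 2 * κ) : κ ^ (-(s / 2)) ≤ d ^ (-s) := by
  have hd1 : 0 < d := hκ.trans_le hd0
  have h1 : (2 * κ) ^ (-s) ≤ d ^ (-s) :=
    Real.rpow_le_rpow_of_nonpos hd1 hd.le (by linarith)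
  have h2 : κ ^ (-(s / 2)) ≤ (2 * κ) ^ (-s) := by
    have h3 : κ ^ (-(s / 2)) = (κ ^ ((1:ℝ) / 2)) ^ (-s) := by
      rw [← Real.rpow_mul hκ.le]; congr 1; ring
    rw [h3]
    refine Real.rpow_le_rpow_of_nonpos (by linarith) ?_ (by linarith)
    rw [← Real.sqrt_eq_rpow]
    refine Real.le_sqrt_of_sq_le ?_
    nlinarith
  exact h2.trans h1

open Classical in
private theorem lvle_dep (ρ : ℝ) (hρ : 0 < ρ) (lev : ℕ → ℕ) (k l : ℕ) (hkl : k ≤ l) (z : ℕ × ℕ)
    (h1 : lev z.1 = k) (h2 : lev z.2 = l) :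
    dep ρ lev z = ((z.1.lcm z.2 : ℕ) : ℝ) / (2 ^ k / ρ) ∧
    ene ρ lev z = ((z.1.gcd z.2 : ℕ) : ℝ) / (2 ^ (l - k) * (2 ^ k / ρ)) := by
  have hk : (0:ℝ) < 2 ^ k := by positivity
  have hl : (0:ℝ) < 2 ^ l := by positivity
  have hle : ρ / 2 ^ l ≤ ρ / 2 ^ k :=
    div_le_div_of_nonneg_left hρ.le hk (pow_le_pow_right₀ (by norm_num) hkl)
  have hrl : (2:ℝ) ^ (l - k) * (2 ^ k / ρ) = 2 ^ l / ρ := by
    rw [mul_div_assoc', ← pow_add, Nat.sub_add_cancel hkl]
  constructor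
  · unfold dep rad
    rw [h1, h2, max_eq_left hle]
    field_simp
  · unfold ene rad
    rw [h1, h2, min_eq_right hle, hrl]
    field_simp

private theorem lvle_ms (ρ : ℝ) (hρ : 0 < ρ) (lev : ℕ → ℕ) (S : Finset ℕ) (k : ℕ) :
    ms (lvl S lev k) = (2 ^ k / ρ) * ∑ n ∈ lvl S lev k, mu ρ lev n := by
  unfold ms
  rw [Finset.mul_sum]
  refine Finset.sum_congr rfl fun n hn => ?_
  unfold lvl at hn
  rw [Finset.mem_filter] at hn
  unfold mu rad
  rw [hn.2]
  have : (0:ℝ) < 2 ^ k := by positivity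
  field_simp

private theorem lvle_mu_nonneg (ρ : ℝ) (hρ : 0 < ρ) (lev : ℕ → ℕ) (n : ℕ) : 0 ≤ mu ρ lev n := by
  unfold mu rad
  positivity

open Classical in
private theorem lvle_pS (s : ℝ) (P0 : ℕ) (κM ρ κ : ℝ) (S : Finset ℕ) (lev : ℕ → ℕ)
    (n m : ℕ) (hn : 0 < n) (hm : 0 < m) (q0 : ℕ) (hq0 : P0 ≤ q0)
    (hrel : Rel1 (eS s) (S.sup id) (lvl S lev (lev m)) q0 n m)
    (hb : ((n.lcm m : ℕ) : ℝ) * rad ρ lev m < 2 * κ) (hrad : 0 ≤ rad ρ lev m) (hκM : 2 * κ ≤ κM) :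
    R.Rel (pS s P0 κM ρ S lev) n m := by
  obtain ⟨h1, h2, h3⟩ := hrel
  have hpr := lvle_prime (eS s) (S.sup id) (lvl S lev (lev m)) m (by omega)
  have hq := lvle_q _ n m hn hm hpr h3
  have hp : pS s P0 κM ρ S lev m = lp (eS s) (S.sup id) (lvl S lev (lev m)) m := by
    unfold pS
    rw [if_pos]
    refine ⟨hpr, by omega, ?_⟩
    have hqR : ((lp (eS s) (S.sup id) (lvl S lev (lev m)) m : ℕ) : ℝ) * m ≤
        ((n.lcm m : ℕ) : ℝ) := by exact_mod_cast hq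
    unfold mu
    calc ((lp (eS s) (S.sup id) (lvl S lev (lev m)) m : ℕ) : ℝ) * ((m:ℝ) * rad ρ lev m)
        = ((lp (eS s) (S.sup id) (lvl S lev (lev m)) m : ℕ) : ℝ) * m * rad ρ lev m := by ring
      _ ≤ ((n.lcm m : ℕ) : ℝ) * rad ρ lev m := mul_le_mul_of_nonneg_right hqR hrad
      _ ≤ κM := hb.le.trans hκM
  refine ⟨?_, ?_⟩
  · rw [hp]; exact h2
  · rw [hp]; exact h3

open Classical in
theorem pr_LevLeCL (h : PairCL) (hf : FarCL) : LevLeCL := by
  intro s C1 hs hs1 P0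
  obtain ⟨κa, c1, hκa, hκa1, hc1, hP⟩ := h (s / 2) C1 (by linarith) (by linarith)
  have hγ1 : 1 / 2 < gS s := by unfold gS; linarith
  have hγ2 : gS s ≤ 5 / 9 := by unfold gS; linarith
  obtain ⟨C, hC, hF⟩ := hf (gS s) C1 hγ1 hγ2
  -- thresholds
  set κb : ℝ := (1 / (C + 1)) ^ (25 / s) with hκb
  have hκb0 : 0 < κb := Real.rpow_pos_of_pos (by positivity) _
  set a : ℝ := aS (s / 2) with ha
  have ha0 : 0 < a := by
    rw [ha]; unfold aS H.cg gS
    have : 0 < (2 * (1 / 2 + s / 2 / 20000) - 1) / 16 := by linarith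
    positivity
  set κp : ℝ := ((P0:ℝ) + 1) ^ (-(1 / a)) with hκp
  have hP01 : (0:ℝ) < (P0:ℝ) + 1 := by positivity
  have hκp0 : 0 < κp := Real.rpow_pos_of_pos hP01 _
  refine ⟨min (min κa (1 / 4)) (min κb κp), min (c1 / 2) (s / 20),
    lt_min (lt_min hκa (by norm_num)) (lt_min hκb0 hκp0),
    (min_le_left _ _).trans ((min_le_left _ _).trans hκa1),
    lt_min (by linarith) (by linarith), ?_⟩
  intro κ κM ρ θ S lev k l hκ hκ0 hκM hρ hS hmu hkl
  have hκa' : κ ≤ κa := hκ0.trans ((min_le_left _ _).trans (min_le_left _ _))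
  have hκ4 : κ ≤ 1 / 4 := hκ0.trans ((min_le_left _ _).trans (min_le_right _ _))
  have hκb' : κ ≤ κb := hκ0.trans ((min_le_right _ _).trans (min_le_left _ _))
  have hκp' : κ ≤ κp := hκ0.trans ((min_le_right _ _).trans (min_le_right _ _))
  have hκ1 : κ ≤ 1 := by linarith
  set c' : ℝ := min (c1 / 2) (s / 20) with hc'
  have hc'1 : c' ≤ c1 / 2 := min_le_left _ _
  have hc's : c' ≤ s / 20 := min_le_right _ _
  have hc'0 : 0 < c' := lt_min (by linarith) (by linarith)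
  set X : ℝ := 2 ^ k / ρ with hX
  set r : ℝ := 2 ^ (l - k) with hr
  set V := lvl S lev k with hV
  set W := lvl S lev l with hW
  have hX0 : 0 < X := by positivity
  have hr1 : 1 ≤ r := one_le_pow₀ (by norm_num)
  have hr0 : 0 < r := by linarith
  have hrX0 : 0 < r * X := by positivity
  have hrX : r * X = 2 ^ l / ρ := by
    rw [hr, hX, mul_div_assoc', ← pow_add, Nat.sub_add_cancel hkl]
  set Mk : ℝ := ∑ n ∈ V, mu ρ lev n with hMk
  set Ml : ℝ := ∑ n ∈ W, mu ρ lev n with hMl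
  have hmu0 := lvle_mu_nonneg ρ hρ lev
  have hMk0 : 0 ≤ Mk := Finset.sum_nonneg fun n _ => hmu0 n
  have hMl0 : 0 ≤ Ml := Finset.sum_nonneg fun n _ => hmu0 n
  have hMkκ : Mk ≤ κ⁻¹ := (Finset.sum_le_sum_of_subset_of_nonneg (Finset.filter_subset _ _)
    (fun n _ _ => hmu0 n)).trans hmu
  have hMlκ : Ml ≤ κ⁻¹ := (Finset.sum_le_sum_of_subset_of_nonneg (Finset.filter_subset _ _)
    (fun n _ _ => hmu0 n)).trans hmu
  have hmsV : ms V = X * Mk := lvle_ms ρ hρ lev S k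
  have hmsW : ms W = r * X * Ml := by rw [hrX]; exact lvle_ms ρ hρ lev S l
  have hVS : ∀ v ∈ V, 0 < v ∧ rp v ≤ C1 := fun v hv => hS v (Finset.mem_filter.mp hv).1
  have hWS : ∀ v ∈ W, 0 < v ∧ rp v ≤ C1 := fun v hv => hS v (Finset.mem_filter.mp hv).1
  have hsup : ∀ v ∈ S, ∀ p ∈ v.primeFactors, p ≤ S.sup id := fun v hv p hp =>
    (Nat.le_of_dvd (hS v hv).1 (Nat.dvd_of_mem_primeFactors hp)).trans
      (Finset.le_sup (f := id) hv)
  -- reduction to a sum of gcd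
  have hred : ∀ B : ℝ, (∑ z ∈ exc s (cS (s / 2)) θ ρ κ (pS (s / 2) P0 κM ρ S lev) S lev k l,
      ((z.1.gcd z.2 : ℕ) : ℝ)) ≤ r * X * B →
      ∑ z ∈ exc s (cS (s / 2)) θ ρ κ (pS (s / 2) P0 κM ρ S lev) S lev k l, ene ρ lev z ≤ B := by
    intro B hB
    have h1 : ∑ z ∈ exc s (cS (s / 2)) θ ρ κ (pS (s / 2) P0 κM ρ S lev) S lev k l, ene ρ lev z
        = (∑ z ∈ exc s (cS (s / 2)) θ ρ κ (pS (s / 2) P0 κM ρ S lev) S lev k l,
          ((z.1.gcd z.2 : ℕ) : ℝ)) / (r * X) := by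
      rw [Finset.sum_div]
      refine Finset.sum_congr rfl fun z hz => ?_
      unfold exc at hz
      rw [Finset.mem_filter] at hz
      exact (lvle_dep ρ hρ lev k l hkl z hz.2.1.1 hz.2.1.2).2
    rw [h1, div_le_iff₀ hrX0]
    linarith
  refine hred _ ?_
  -- membership
  have hmem : ∀ z ∈ exc s (cS (s / 2)) θ ρ κ (pS (s / 2) P0 κM ρ S lev) S lev k l,
      z ∈ V ×ˢ W ∧ Dp κ X z := by
    intro z hz
    unfold exc at hz
    rw [Finset.mem_filter, Finset.mem_product] at hz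
    obtain ⟨⟨hz1, hz2⟩, ⟨hk, hl⟩, ⟨hd1, hd2⟩, _⟩ := hz
    have hdep := (lvle_dep ρ hρ lev k l hkl z hk hl).1
    rw [hdep] at hd1 hd2
    rw [le_div_iff₀ hX0] at hd1
    rw [div_lt_iff₀ hX0] at hd2
    refine ⟨Finset.mem_product.mpr ⟨Finset.mem_filter.mpr ⟨hz1, hk⟩,
      Finset.mem_filter.mpr ⟨hz2, hl⟩⟩, hd1, by linarith⟩
  by_cases hcase : r ≤ κ ^ (-(s / 2))
  · -- near levels
    have hq0 : P0 ≤ qS (s / 2) κ := by
      have h1 : ((P0:ℝ) + 1) ≤ κ ^ (-a) := by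
        have h2 : κp ^ (-a) ≤ κ ^ (-a) :=
          Real.rpow_le_rpow_of_nonpos hκ hκp' (by linarith)
        have h3 : κp ^ (-a) = (P0:ℝ) + 1 := by
          rw [hκp, ← Real.rpow_mul hP01.le]
          have : -(1 / a) * -a = 1 := by field_simp
          rw [this, Real.rpow_one]
        rwa [h3] at h2
      have h4 : ((P0:ℝ)) ≤ ((qS (s / 2) κ : ℕ) : ℝ) := by
        unfold qS
        rw [← ha]
        have := Nat.le_ceil (κ ^ (-a))
        linarith
      exact_mod_cast h4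
    have hsub : exc s (cS (s / 2)) θ ρ κ (pS (s / 2) P0 κM ρ S lev) S lev k l ⊆
        (edges κ X θ V W).filter (fun z => ¬ RelP (s / 2) κ (S.sup id) V W z ∧
          ¬ (LabP (s / 2) κ θ z ∧ PB (s / 2) X r z)) := by
      intro z hz
      obtain ⟨hzVW, hzD⟩ := hmem z hz
      unfold exc at hz
      rw [Finset.mem_filter, Finset.mem_product] at hz
      obtain ⟨⟨hz1, hz2⟩, ⟨hk, hl⟩, ⟨hd1, hd2⟩, hne, hnd, hR1, hR2, hE⟩ := hz
      have hn0 := (hS _ hz1).1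
      have hm0 := (hS _ hz2).1
      have hdep := (lvle_dep ρ hρ lev k l hkl z hk hl).1
      rw [Finset.mem_filter]
      refine ⟨?_, ?_, ?_⟩
      · unfold edges
        rw [Finset.mem_filter]
        exact ⟨hzVW, hzD, hne, by linarith⟩
      · intro hrel
        rcases hrel with hrel | hrel
        · apply hR1
          rw [hW, ← hl] at hrel
          refine lvle_pS (s / 2) P0 κM ρ κ S lev z.1 z.2 hn0 hm0 _ hq0 hrel ?_ ?_ hκM
          · have h1 : rad ρ lev z.2 ≤ max (rad ρ lev z.1) (rad ρ lev z.2) := le_max_right _ _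
            have h2 : ((z.1.lcm z.2 : ℕ) : ℝ) * rad ρ lev z.2 ≤ dep ρ lev z := by
              unfold dep
              exact mul_le_mul_of_nonneg_left h1 (Nat.cast_nonneg _)
            linarith
          · unfold rad; positivity
        · apply hR2
          rw [hV, ← hk] at hrel
          refine lvle_pS (s / 2) P0 κM ρ κ S lev z.2 z.1 hm0 hn0 _ hq0 hrel ?_ ?_ hκM
          · have h1 : rad ρ lev z.1 ≤ max (rad ρ lev z.1) (rad ρ lev z.2) := le_max_left _ _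
            have h2 : ((z.1.lcm z.2 : ℕ) : ℝ) * rad ρ lev z.1 ≤ dep ρ lev z := by
              unfold dep
              exact mul_le_mul_of_nonneg_left h1 (Nat.cast_nonneg _)
            rw [Nat.lcm_comm]
            linarith
          · unfold rad; positivity
      · rintro ⟨⟨b, c, hb0, hbc, hb, hbθ⟩, hPB⟩
        apply hE
        have hpw := lvle_pow s κ hs hκ hκ4 (dep ρ lev z) hd1 hd2
        have hrat : rat lev z = r := by
          unfold rat
          rw [hk, hl, max_eq_right hkl, min_eq_left hkl]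
        have hmu1 : 1 / mu ρ lev z.1 = X / z.1 := by
          unfold mu rad
          rw [hk, hX]
          have : (0:ℝ) < z.1 := by exact_mod_cast hn0
          have h2k : (0:ℝ) < 2 ^ k := by positivity
          field_simp
        have hmu2 : 1 / mu ρ lev z.2 = r * X / z.2 := by
          unfold mu rad
          rw [hl, hrX]
          have : (0:ℝ) < z.2 := by exact_mod_cast hm0
          have h2k : (0:ℝ) < 2 ^ l := by positivity
          field_simp
        refine ⟨by rw [hrat]; exact hcase.trans hpw, ?_, b, c, hb0, hbc, hb.trans hpw, ?_⟩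
        · rw [hmu1, hmu2]
          exact hPB
        · refine hbθ.trans ?_
          calc κ ^ (1 - s / 2) ≤ κ ^ (1 - s) :=
                Real.rpow_le_rpow_of_exponent_ge hκ hκ1 (by linarith)
            _ ≤ dep ρ lev z ^ (1 - s) := Real.rpow_le_rpow hκ.le hd1 (by linarith)
    have hκinv : κ ^ (-1 : ℝ) = κ⁻¹ := Real.rpow_neg_one κ
    have hmain := hP κ X θ r (S.sup id) V W hκ hκa' hX0 hr1
      (fun v hv => ⟨(hVS v hv).1, (hVS v hv).2, hsup v (Finset.mem_filter.mp hv).1⟩)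
      (fun v hv => ⟨(hWS v hv).1, (hWS v hv).2, hsup v (Finset.mem_filter.mp hv).1⟩)
      (by rw [hmsV, hκinv, mul_comm X]; exact mul_le_mul_of_nonneg_right hMkκ hX0.le)
      (by rw [hmsW, hκinv, mul_comm (r * X)]; exact mul_le_mul_of_nonneg_right hMlκ hrX0.le)
    have hle : κ ^ c1 ≤ κ ^ c' * r ^ (-c') := by
      have h1 : (κ ^ (-(s / 2))) ^ (-c') ≤ r ^ (-c') :=
        Real.rpow_le_rpow_of_nonpos hr0 hcase (by linarith)
      have h2 : (κ ^ (-(s / 2))) ^ (-c') = κ ^ (s / 2 * c') := by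
        rw [← Real.rpow_mul hκ.le]; congr 1; ring
      rw [h2] at h1
      calc κ ^ c1 ≤ κ ^ (c' + s / 2 * c') :=
            Real.rpow_le_rpow_of_exponent_ge hκ hκ1 (by nlinarith)
        _ = κ ^ c' * κ ^ (s / 2 * c') := Real.rpow_add hκ _ _
        _ ≤ κ ^ c' * r ^ (-c') := mul_le_mul_of_nonneg_left h1 (Real.rpow_nonneg hκ.le _)
    calc (∑ z ∈ exc s (cS (s / 2)) θ ρ κ (pS (s / 2) P0 κM ρ S lev) S lev k l,
          ((z.1.gcd z.2 : ℕ) : ℝ))
        ≤ ∑ z ∈ (edges κ X θ V W).filter (fun z => ¬ RelP (s / 2) κ (S.sup id) V W z ∧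
          ¬ (LabP (s / 2) κ θ z ∧ PB (s / 2) X r z)), ((z.1.gcd z.2 : ℕ) : ℝ) :=
          Finset.sum_le_sum_of_subset_of_nonneg hsub (fun _ _ _ => Nat.cast_nonneg _)
      _ ≤ κ ^ c1 * (r * ms V + ms W) := hmain
      _ = r * X * (κ ^ c1 * (Mk + Ml)) := by rw [hmsV, hmsW]; ring
      _ ≤ r * X * (κ ^ c' * r ^ (-c') * (Mk + Ml)) :=
          mul_le_mul_of_nonneg_left (mul_le_mul_of_nonneg_right hle (by linarith)) hrX0.le
  · -- far levels
    rw [not_le] at hcase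
    have hfar := hF κ X V W hκ hX0 hVS hWS
    set γ : ℝ := gS s with hγ
    have hγv : γ = 1 / 2 + s / 20000 := rfl
    have hsub : exc s (cS (s / 2)) θ ρ κ (pS (s / 2) P0 κM ρ S lev) S lev k l ⊆
        (V ×ˢ W).filter (fun z => Dp κ X z) := by
      intro z hz
      rw [Finset.mem_filter]
      exact hmem z hz
    -- powers
    have hpow1 : (κ * X) ^ (1 - 2 * γ) * (ms V * ms W) ^ γ =
        r * X * (κ ^ (1 - 2 * γ) * r ^ (γ - 1) * (Mk * Ml) ^ γ) := by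
      have e0 : ((X * X) * r * (Mk * Ml)) ^ γ = X ^ γ * X ^ γ * r ^ γ * (Mk * Ml) ^ γ := by
        rw [Real.mul_rpow (by positivity) (by positivity), Real.mul_rpow (by positivity) hr0.le,
          Real.mul_rpow hX0.le hX0.le]
      rw [hmsV, hmsW, show X * Mk * (r * X * Ml) = (X * X) * r * (Mk * Ml) by ring, e0,
        Real.mul_rpow hκ.le hX0.le]
      have e1 : X ^ (1 - 2 * γ) * (X ^ γ * X ^ γ) = X := by
        rw [← Real.rpow_add hX0, ← Real.rpow_add hX0]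
        rw [show 1 - 2 * γ + (γ + γ) = 1 by ring, Real.rpow_one]
      have e2 : r ^ γ = r * r ^ (γ - 1) := by
        conv_rhs => rw [show r * r ^ (γ - 1) = r ^ (1:ℝ) * r ^ (γ - 1) by rw [Real.rpow_one]]
        rw [← Real.rpow_add hr0]; congr 1; ring
      calc κ ^ (1 - 2 * γ) * X ^ (1 - 2 * γ) * (X ^ γ * X ^ γ * r ^ γ * (Mk * Ml) ^ γ)
          = (X ^ (1 - 2 * γ) * (X ^ γ * X ^ γ)) * (κ ^ (1 - 2 * γ) * r ^ γ * (Mk * Ml) ^ γ) := by
            ring
        _ = X * (κ ^ (1 - 2 * γ) * (r * r ^ (γ - 1)) * (Mk * Ml) ^ γ) := by rw [e1, e2]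
        _ = r * X * (κ ^ (1 - 2 * γ) * r ^ (γ - 1) * (Mk * Ml) ^ γ) := by ring
    have hMM : (Mk * Ml) ^ γ ≤ κ ^ (1 - 2 * γ) * (Mk + Ml) := by
      set m : ℝ := max Mk Ml with hm
      have hm0 : 0 ≤ m := hMk0.trans (le_max_left _ _)
      have hmκ : m ≤ κ⁻¹ := max_le hMkκ hMlκ
      have hms : m ≤ Mk + Ml := max_le (by linarith) (by linarith)
      rcases hm0.eq_or_lt with h0 | h0
      · have hMk' : Mk = 0 := le_antisymm (h0 ▸ le_max_left _ _) hMk0
        rw [hMk', zero_mul, Real.zero_rpow (by linarith)]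
        exact mul_nonneg (Real.rpow_nonneg hκ.le _) (by linarith)
      · have h1 : (Mk * Ml) ^ γ ≤ (m * m) ^ γ :=
          Real.rpow_le_rpow (mul_nonneg hMk0 hMl0)
            (mul_le_mul (le_max_left _ _) (le_max_right _ _) hMl0 hm0) (by linarith)
        have h2 : (m * m) ^ γ = m ^ (2 * γ - 1) * m := by
          rw [Real.mul_rpow hm0 hm0, ← Real.rpow_add h0]
          conv_rhs => rw [show m ^ (2 * γ - 1) * m = m ^ (2 * γ - 1) * m ^ (1:ℝ) by
            rw [Real.rpow_one]]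
          rw [← Real.rpow_add h0]; congr 1; ring
        have h3 : m ^ (2 * γ - 1) ≤ κ ^ (1 - 2 * γ) := by
          have : (κ⁻¹) ^ (2 * γ - 1) = κ ^ (1 - 2 * γ) := by
            rw [Real.inv_rpow hκ.le, ← Real.rpow_neg hκ.le]; congr 1; ring
          rw [← this]
          exact Real.rpow_le_rpow hm0 hmκ (by linarith)
        rw [h2] at h1
        exact h1.trans (mul_le_mul h3 hms hm0 (Real.rpow_nonneg hκ.le _))
    -- gain
    have hr5 : r ^ (γ - 1) ≤ r ^ (-c') * κ ^ (s / 10) := by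
      have h1 : r ^ (γ - 1) ≤ r ^ (-(1/5) : ℝ) * r ^ (-(1/5) : ℝ) := by
        rw [← Real.rpow_add hr0]
        exact Real.rpow_le_rpow_of_exponent_le hr1 (by linarith)
      have h2 : r ^ (-(1/5) : ℝ) ≤ κ ^ (s / 10) := by
        have : κ ^ (s / 10) = (κ ^ (-(s / 2))) ^ (-(1/5) : ℝ) := by
          rw [← Real.rpow_mul hκ.le]; congr 1; ring
        rw [this]
        exact Real.rpow_le_rpow_of_nonpos (Real.rpow_pos_of_pos hκ _) hcase.le
          (by norm_num)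
      have h3 : r ^ (-(1/5) : ℝ) ≤ r ^ (-c') :=
        Real.rpow_le_rpow_of_exponent_le hr1 (by linarith)
      exact h1.trans (mul_le_mul h3 h2 (Real.rpow_nonneg hr0.le _) (Real.rpow_nonneg hr0.le _))
    have hCκ : C * (κ ^ (1 - 2 * γ) * κ ^ (1 - 2 * γ) * κ ^ (s / 10)) ≤ κ ^ c' := by
      have h1 : κ ^ (1 - 2 * γ) * κ ^ (1 - 2 * γ) * κ ^ (s / 10) ≤ κ ^ c' * κ ^ (s / 25) := by
        rw [← Real.rpow_add hκ, ← Real.rpow_add hκ, ← Real.rpow_add hκ]
        exact Real.rpow_le_rpow_of_exponent_ge hκ hκ1 (by rw [hγv]; linarith)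
      have h2 : κ ^ (s / 25) ≤ 1 / (C + 1) := by
        have h3 : κ ^ (s / 25) ≤ κb ^ (s / 25) :=
          Real.rpow_le_rpow hκ.le hκb' (by positivity)
        have h4 : κb ^ (s / 25) = 1 / (C + 1) := by
          rw [hκb, ← Real.rpow_mul (by positivity)]
          have : 25 / s * (s / 25) = 1 := by field_simp
          rw [this, Real.rpow_one]
        rwa [h4] at h3
      have h5 : C * κ ^ (s / 25) ≤ 1 := by
        calc C * κ ^ (s / 25) ≤ C * (1 / (C + 1)) := mul_le_mul_of_nonneg_left h2 hC.le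
          _ ≤ 1 := by rw [mul_one_div, div_le_one (by linarith)]; linarith
      calc C * (κ ^ (1 - 2 * γ) * κ ^ (1 - 2 * γ) * κ ^ (s / 10))
          ≤ C * (κ ^ c' * κ ^ (s / 25)) := mul_le_mul_of_nonneg_left h1 hC.le
        _ = κ ^ c' * (C * κ ^ (s / 25)) := by ring
        _ ≤ κ ^ c' * 1 := mul_le_mul_of_nonneg_left h5 (Real.rpow_nonneg hκ.le _)
        _ = κ ^ c' := mul_one _
    have hk0 : 0 ≤ κ ^ (1 - 2 * γ) := Real.rpow_nonneg hκ.le _
    calc (∑ z ∈ exc s (cS (s / 2)) θ ρ κ (pS (s / 2) P0 κM ρ S lev) S lev k l,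
          ((z.1.gcd z.2 : ℕ) : ℝ))
        ≤ ∑ z ∈ (V ×ˢ W).filter (fun z => Dp κ X z), ((z.1.gcd z.2 : ℕ) : ℝ) :=
          Finset.sum_le_sum_of_subset_of_nonneg hsub (fun _ _ _ => Nat.cast_nonneg _)
      _ ≤ C * (κ * X) ^ (1 - 2 * γ) * (ms V * ms W) ^ γ := hfar
      _ = C * ((κ * X) ^ (1 - 2 * γ) * (ms V * ms W) ^ γ) := by ring
      _ = r * X * (C * (κ ^ (1 - 2 * γ) * r ^ (γ - 1) * (Mk * Ml) ^ γ)) := by rw [hpow1]; ring
      _ ≤ r * X * (C * (κ ^ (1 - 2 * γ) * (r ^ (-c') * κ ^ (s / 10)) *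
            (κ ^ (1 - 2 * γ) * (Mk + Ml)))) := by
          refine mul_le_mul_of_nonneg_left (mul_le_mul_of_nonneg_left ?_ hC.le) hrX0.le
          refine mul_le_mul (mul_le_mul_of_nonneg_left hr5 hk0) hMM
            (Real.rpow_nonneg (mul_nonneg hMk0 hMl0) _) ?_
          exact mul_nonneg hk0 (mul_nonneg (Real.rpow_nonneg hr0.le _) (Real.rpow_nonneg hκ.le _))
      _ = r * X * (C * (κ ^ (1 - 2 * γ) * κ ^ (1 - 2 * γ) * κ ^ (s / 10)) * r ^ (-c') *
            (Mk + Ml)) := by ring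
      _ ≤ r * X * (κ ^ c' * r ^ (-c') * (Mk + Ml)) := by
          refine mul_le_mul_of_nonneg_left (mul_le_mul_of_nonneg_right
            (mul_le_mul_of_nonneg_right hCκ (Real.rpow_nonneg hr0.le _)) (by linarith)) hrX0.le

end Pool.Agent.MP_0863b8.CL

end

section

/-!
MP_0863b8_nt, classification, item LevSumCL.
-/

set_option autoImplicit false

namespace Pool.Agent.MP_0863b8.CL

open Finset

theorem lscl_geom (q : ℝ) (h0 : 0 ≤ q) (h1 : q < 1) (J : Finset ℕ) :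
    ∑ j ∈ J, q ^ j ≤ (1 - q)⁻¹ := by
  rw [← tsum_geometric_of_lt_one h0 h1]
  exact (summable_geometric_of_lt_one h0 h1).sum_le_tsum J (fun i _ => pow_nonneg h0 i)

theorem lscl_inj (q : ℝ) (h0 : 0 ≤ q) (h1 : q < 1) (F : Finset ℕ) (g : ℕ → ℕ)
    (hg : Set.InjOn g F) : ∑ l ∈ F, q ^ (g l) ≤ (1 - q)⁻¹ := by
  rw [← Finset.sum_image (f := fun j => q ^ j) hg]
  exact lscl_geom q h0 h1 _

theorem lscl_row (q : ℝ) (h0 : 0 ≤ q) (h1 : q < 1) (N k : ℕ) :
    ∑ l ∈ range N, q ^ (max k l - min k l) ≤ 2 * (1 - q)⁻¹ := by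
  rw [← Finset.sum_filter_add_sum_filter_not (range N) (fun l => l ≤ k)]
  have h2 : ∑ l ∈ (range N).filter (fun l => l ≤ k), q ^ (max k l - min k l) ≤ (1 - q)⁻¹ := by
    refine lscl_inj q h0 h1 _ (fun l => max k l - min k l) ?_
    intro a ha b hb hab
    simp only [Finset.coe_filter, Set.mem_ofPred_eq] at ha hb
    simp only at hab
    omega
  have h3 : ∑ l ∈ (range N).filter (fun l => ¬ l ≤ k), q ^ (max k l - min k l) ≤
      (1 - q)⁻¹ := by
    refine lscl_inj q h0 h1 _ (fun l => max k l - min k l) ?_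
    intro a ha b hb hab
    simp only [Finset.coe_filter, Set.mem_ofPred_eq] at ha hb
    simp only at hab
    omega
  linarith

theorem pr_LevSumCL : LevSumCL := by
  intro c hc
  have hq0 : (0:ℝ) < (2:ℝ) ^ (-c) := Real.rpow_pos_of_pos (by norm_num) _
  have hq1 : (2:ℝ) ^ (-c) < 1 := Real.rpow_lt_one_of_one_lt_of_neg (by norm_num) (by linarith)
  refine ⟨4 * (1 - (2:ℝ) ^ (-c))⁻¹, by
    have : 0 < (1 - (2:ℝ) ^ (-c))⁻¹ := inv_pos.mpr (by linarith)
    linarith, ?_⟩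
  intro S lev f N hf hN
  set q : ℝ := (2:ℝ) ^ (-c) with hq
  set m : ℕ → ℝ := fun k => ∑ n ∈ lvl S lev k, f n with hm
  have hm0 : ∀ k, 0 ≤ m k := fun k => Finset.sum_nonneg (fun n _ => hf n)
  have hpow : ∀ j : ℕ, ((2:ℝ) ^ j) ^ (-c) = q ^ j := by
    intro j
    rw [hq, ← Real.rpow_natCast, ← Real.rpow_natCast, ← Real.rpow_mul (by norm_num),
      ← Real.rpow_mul (by norm_num), mul_comm]
  have hS : ∑ k ∈ range N, m k = ∑ n ∈ S, f n := by
    rw [hm]
    exact Finset.sum_fiberwise_of_maps_to (fun n hn => Finset.mem_range.mpr (hN n hn)) f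
  have h1 : ∑ k ∈ range N, ∑ l ∈ range N, ((2:ℝ) ^ (max k l - min k l)) ^ (-c) *
      (∑ n ∈ lvl S lev k, f n + ∑ n ∈ lvl S lev l, f n) =
      ∑ k ∈ range N, ∑ l ∈ range N, q ^ (max k l - min k l) * m k +
      ∑ k ∈ range N, ∑ l ∈ range N, q ^ (max k l - min k l) * m l := by
    rw [← Finset.sum_add_distrib]
    refine Finset.sum_congr rfl (fun k _ => ?_)
    rw [← Finset.sum_add_distrib]
    refine Finset.sum_congr rfl (fun l _ => ?_)
    rw [hpow, mul_add]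
  have h2 : ∑ k ∈ range N, ∑ l ∈ range N, q ^ (max k l - min k l) * m l =
      ∑ k ∈ range N, ∑ l ∈ range N, q ^ (max k l - min k l) * m k := by
    rw [Finset.sum_comm]
    refine Finset.sum_congr rfl (fun k _ => Finset.sum_congr rfl (fun l _ => ?_))
    rw [max_comm, min_comm]
  have h3 : ∑ k ∈ range N, ∑ l ∈ range N, q ^ (max k l - min k l) * m k ≤
      ∑ k ∈ range N, 2 * (1 - q)⁻¹ * m k := by
    refine Finset.sum_le_sum (fun k _ => ?_)
    rw [← Finset.sum_mul]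
    exact mul_le_mul_of_nonneg_right (lscl_row q hq0.le hq1 N k) (hm0 k)
  rw [← Finset.mul_sum, hS] at h3
  rw [h1, h2]
  linarith

end Pool.Agent.MP_0863b8.CL

end

section

set_option autoImplicit false

namespace Pool.Agent.MP_0863b8.CL

theorem pr_NeglCL : NeglCL := by
  intro γ κ X r cm a b hγ1 hγ2 hκ hκ1 hX hr hcm ha hb haX hbX
  have hr0 : 0 < r := by linarith
  set M : ℝ := max (r * a) b with hM
  set T : ℝ := κ ^ (-cm) * (r * X) with hT
  have hra : r * a ≤ M := le_max_left _ _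
  have hbM : b ≤ M := le_max_right _ _
  have hM0 : 0 ≤ M := hb.trans hbM
  have hκc : 0 < κ ^ (-cm) := Real.rpow_pos_of_pos hκ _
  have hT0 : 0 < T := by positivity
  have hMT : M ≤ T := by
    refine max_le ?_ hbX
    calc r * a ≤ r * (κ ^ (-cm) * X) := mul_le_mul_of_nonneg_left haX hr0.le
      _ = T := by rw [hT]; ring
  have hMs : M ≤ r * a + b := by
    refine max_le ?_ ?_
    · linarith
    · have : 0 ≤ r * a := by positivity
      linarith
  have hab : a * b ≤ M ^ 2 / r := by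
    rw [le_div_iff₀ hr0]
    calc a * b * r = (r * a) * b := by ring
      _ ≤ M * M := mul_le_mul hra hbM hb hM0
      _ = M ^ 2 := by ring
  have h1 : (a * b) ^ γ ≤ M * T ^ (2 * γ - 1) * r ^ (-γ) := by
    have h2 : (a * b) ^ γ ≤ (M ^ 2 / r) ^ γ :=
      Real.rpow_le_rpow (mul_nonneg ha hb) hab (by linarith)
    refine h2.trans ?_
    rw [Real.div_rpow (by positivity) hr0.le, ← Real.rpow_natCast, ← Real.rpow_mul hM0,
      Real.rpow_neg hr0.le, div_eq_mul_inv]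
    refine mul_le_mul_of_nonneg_right ?_ (inv_nonneg.2 (Real.rpow_nonneg hr0.le _))
    rcases hM0.eq_or_lt with h0 | h0
    · rw [← h0, Real.zero_rpow (by push_cast; linarith), zero_mul]
    · have h3 : M ^ (((2:ℕ):ℝ) * γ) = M * M ^ (2 * γ - 1) := by
        rw [← Real.rpow_one_add' hM0 (by linarith)]
        congr 1
        push_cast; ring
      rw [h3]
      exact mul_le_mul_of_nonneg_left (Real.rpow_le_rpow hM0 hMT (by linarith)) hM0
  have hκX : (κ * X) ^ (1 - 2 * γ) = κ ^ (1 - 2 * γ) * X ^ (1 - 2 * γ) :=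
    Real.mul_rpow hκ.le hX.le
  have hTe : T ^ (2 * γ - 1) = κ ^ (-cm * (2 * γ - 1)) * (r ^ (2 * γ - 1) * X ^ (2 * γ - 1)) := by
    rw [hT, Real.mul_rpow hκc.le (by positivity), Real.mul_rpow hr0.le hX.le, ← Real.rpow_mul hκ.le]
  have e1 : κ ^ (1 - 2 * γ) * κ ^ (-cm * (2 * γ - 1)) = κ ^ (-((2 * γ - 1) * (1 + cm))) := by
    rw [← Real.rpow_add hκ]; congr 1; ring
  have e2 : X ^ (1 - 2 * γ) * X ^ (2 * γ - 1) = 1 := by
    rw [← Real.rpow_add hX]
    have : 1 - 2 * γ + (2 * γ - 1) = 0 := by ring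
    rw [this, Real.rpow_zero]
  have e3 : r ^ (2 * γ - 1) * r ^ (-γ) ≤ 1 := by
    rw [← Real.rpow_add hr0]
    exact Real.rpow_le_one_of_one_le_of_nonpos hr (by linarith)
  have hK : 0 ≤ κ ^ (-((2 * γ - 1) * (1 + cm))) := Real.rpow_nonneg hκ.le _
  calc (κ * X) ^ (1 - 2 * γ) * (a * b) ^ γ
      ≤ (κ * X) ^ (1 - 2 * γ) * (M * T ^ (2 * γ - 1) * r ^ (-γ)) :=
        mul_le_mul_of_nonneg_left h1 (Real.rpow_nonneg (by positivity) _)
    _ = (κ ^ (1 - 2 * γ) * κ ^ (-cm * (2 * γ - 1))) * (X ^ (1 - 2 * γ) * X ^ (2 * γ - 1)) *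
        (r ^ (2 * γ - 1) * r ^ (-γ)) * M := by
        rw [hκX, hTe]; ring
    _ = κ ^ (-((2 * γ - 1) * (1 + cm))) * (r ^ (2 * γ - 1) * r ^ (-γ)) * M := by
        rw [e1, e2, mul_one]
    _ ≤ κ ^ (-((2 * γ - 1) * (1 + cm))) * 1 * (r * a + b) := by
        refine mul_le_mul (mul_le_mul_of_nonneg_left e3 hK) hMs hM0 (by positivity)
    _ ≤ 2 * κ ^ (-((2 * γ - 1) * (1 + cm))) * (r * a + b) := by
        rw [mul_one]
        have : 0 ≤ r * a + b := by positivity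
        have h4 := mul_nonneg hK this
        nlinarith

end Pool.Agent.MP_0863b8.CL

end

section

/-!
MP_0863b8_nt, item OneCL (classification): the structure of one good pair without thick vertices.
-/

set_option autoImplicit false

namespace Pool.Agent.MP_0863b8.CL

open Finset
open F (ms)
open C1 (Dp rd)

theorem OneCL_fac {n m q p : ℕ} (hn : 0 < n) (hm : 0 < m) (hp : p.Prime) (hqp : q < p)
    (hmax : ∀ p : ℕ, p.Prime → p ∣ n / n.gcd m * (m / n.gcd m) → p ≤ q) :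
    n.factorization p = m.factorization p := by
  have hg : 0 < n.gcd m := Nat.gcd_pos_of_pos_left _ hn
  have h1 : ¬ p ∣ n / n.gcd m := fun h => absurd (hmax p hp (Dvd.dvd.mul_right h _)) (by omega)
  have h2 : ¬ p ∣ m / n.gcd m := fun h => absurd (hmax p hp (Dvd.dvd.mul_left h _)) (by omega)
  have hu : 0 < n / n.gcd m := Nat.div_pos (Nat.gcd_le_left _ hn) hg
  have hv : 0 < m / n.gcd m := Nat.div_pos (Nat.gcd_le_right _ hm) hg
  have e1 : n / n.gcd m * n.gcd m = n := Nat.div_mul_cancel (Nat.gcd_dvd_left n m)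
  have e2 : m / n.gcd m * n.gcd m = m := Nat.div_mul_cancel (Nat.gcd_dvd_right n m)
  have f1 : n.factorization p = (n.gcd m).factorization p := by
    conv_lhs => rw [← e1]
    rw [Nat.factorization_mul hu.ne' hg.ne', Finsupp.add_apply,
      Nat.factorization_eq_zero_of_not_dvd h1, zero_add]
  have f2 : m.factorization p = (n.gcd m).factorization p := by
    conv_lhs => rw [← e2]
    rw [Nat.factorization_mul hv.ne' hg.ne', Finsupp.add_apply,
      Nat.factorization_eq_zero_of_not_dvd h2, zero_add]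
  rw [f1, f2]

theorem OneCL_hi {n m q : ℕ} (hn : 0 < n) (hm : 0 < m)
    (hmax : ∀ p : ℕ, p.Prime → p ∣ n / n.gcd m * (m / n.gcd m) → p ≤ q) :
    R.hi q n = R.hi q m := by
  unfold R.hi
  ext p
  by_cases h : q < p
  · rw [Finsupp.filter_apply_pos _ _ h, Finsupp.filter_apply_pos _ _ h]
    by_cases hp : p.Prime
    · exact OneCL_fac hn hm hp h hmax
    · rw [Nat.factorization_eq_zero_of_not_prime _ hp,
        Nat.factorization_eq_zero_of_not_prime _ hp]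
  · rw [Finsupp.filter_apply_neg _ _ h, Finsupp.filter_apply_neg _ _ h]

theorem OneCL_core (he : H.ExHb) {e : ℝ} {Q P : ℕ} {W : Finset ℕ} {n m q s A : ℕ}
    (hn : 0 < n) (hm : 0 < m) (hs : 0 < s) (hsQ : ∀ p ∈ s.primeFactors, p ≤ Q) (hA : 0 < A)
    (hu : n / n.gcd m = s * A * H.hb e Q P W m) (hq : q.Prime) (hqu : q ∣ n / n.gcd m)
    (hqQ : Q < q) (hqA : A < q)
    (hmax : ∀ p : ℕ, p.Prime → p ∣ n / n.gcd m * (m / n.gcd m) → p ≤ q)
    (hval : q ∣ H.hb e Q P W m → n.factorization q = m.factorization q + 1) :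
    Rel1 e P W Q n m := by
  obtain ⟨-, hb0, -, -, -, hfac⟩ := he e Q P W m hm
  obtain ⟨-, hb00, -, -, -, -⟩ := he e 0 P W m hm
  have hqh : q ∣ H.hb e Q P W m := by
    rw [hu] at hqu
    rcases (Nat.Prime.dvd_mul hq).1 hqu with h | h
    · rcases (Nat.Prime.dvd_mul hq).1 h with h | h
      · exact absurd (hsQ q (Nat.mem_primeFactors.2 ⟨hq, h, hs.ne'⟩)) (by omega)
      · exact absurd (Nat.le_of_dvd hA h) (by omega)
    · exact h
  have hlp : lp e P W m = q := by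
    unfold lp
    apply le_antisymm
    · apply Finset.sup_le
      intro p hp
      show p ≤ q
      by_contra hcon
      push Not at hcon
      have hp' := Nat.mem_primeFactors.1 hp
      have h1 : (H.hb e 0 P W m).factorization p ≠ 0 := by
        have := (hp'.1.dvd_iff_one_le_factorization hb00.ne').1 hp'.2.1
        omega
      rw [← (hfac p (by omega)).2] at h1
      have h2 : p ∣ H.hb e Q P W m := Nat.dvd_of_factorization_pos h1
      have h3 : p ∣ n / n.gcd m := by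
        rw [hu]
        exact Dvd.dvd.mul_left h2 _
      exact absurd (hmax p hp'.1 (Dvd.dvd.mul_right h3 _)) (by omega)
    · have h1 : (H.hb e Q P W m).factorization q ≠ 0 := by
        have := (hq.dvd_iff_one_le_factorization hb0.ne').1 hqh
        omega
      rw [(hfac q hqQ).2] at h1
      have h2 : q ∈ (H.hb e 0 P W m).primeFactors :=
        Nat.mem_primeFactors.2 ⟨hq, Nat.dvd_of_factorization_pos h1, hb00.ne'⟩
      exact Finset.le_sup (f := id) h2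
  unfold Rel1
  rw [hlp]
  exact ⟨hqQ, OneCL_hi hn hm hmax, hval hqh⟩

theorem OneCL_Q {a κ : ℝ} (ha : 0 < a) (hκ : 0 < κ) (hκ4 : κ ≤ 1/4) :
    ((⌈κ ^ (-a)⌉₊ : ℕ) : ℝ) ≤ (1 / (2 * κ)) ^ (2 * (a + 1)) := by
  have h1 : 0 ≤ κ ^ (-a) := Real.rpow_nonneg hκ.le _
  have h2 : 1 ≤ κ ^ (-a) := by
    rw [Real.rpow_neg hκ.le]
    exact (one_le_inv₀ (Real.rpow_pos_of_pos hκ _)).2
      (Real.rpow_le_one hκ.le (by linarith) ha.le)
  have h3 : ((⌈κ ^ (-a)⌉₊ : ℕ) : ℝ) < κ ^ (-a) + 1 := Nat.ceil_lt_add_one h1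
  have h4 : (1 / (2 * κ)) ^ (2 * (a + 1)) = ((1 / (2 * κ)) ^ (2:ℝ)) ^ (a + 1) := by
    rw [← Real.rpow_mul (by positivity)]
  have h5 : κ⁻¹ ≤ (1 / (2 * κ)) ^ (2:ℝ) := by
    rw [Real.rpow_two, inv_eq_one_div, div_pow, one_pow, div_le_div_iff₀ hκ (by positivity)]
    nlinarith
  have h6 : (κ⁻¹) ^ (a + 1) = κ ^ (-a) * κ⁻¹ := by
    rw [Real.rpow_add (inv_pos.2 hκ), Real.rpow_one, Real.inv_rpow hκ.le, Real.rpow_neg hκ.le]
  have h7 : κ ^ (-a) * κ⁻¹ ≤ (1 / (2 * κ)) ^ (2 * (a + 1)) := by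
    rw [h4, ← h6]
    exact Real.rpow_le_rpow (inv_pos.2 hκ).le h5 (by linarith)
  have h8 : (4:ℝ) ≤ κ⁻¹ := by
    rw [le_inv_comm₀ (by norm_num) hκ]
    linarith
  have h9 : κ ^ (-a) * 4 ≤ κ ^ (-a) * κ⁻¹ := mul_le_mul_of_nonneg_left h8 h1
  linarith

theorem pr_OneCL (hs : H.GoodStruct) (hv : H.GoodVal) (he : H.ExHb) : OneCL := by
  intro s hs0 hs1
  refine ⟨1/4, by norm_num, ?_⟩
  intro κ X r P V W z hκ hκ4 hX hr hzV hzW hn hm hnP hmP hD hG hT1 hT2 hrel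
  set n := z.1 with hn_def
  set m := z.2 with hm_def
  set Q := qS s κ with hQ
  have hG' : H.Good (eS s) Q P V W n m := hG
  obtain ⟨s1, t1, hs1p, ht1p, hs1Q, ht1Q, hu, hv'⟩ :=
    hs (eS s) Q P V W n m hn hm hzV hzW hnP hmP hG'
  have hval := hv (eS s) Q P V W n m hn hm hzV hzW hG'
  obtain ⟨hA0, hh0, -, -, -, -⟩ := he (eS s) Q P V n hn
  obtain ⟨hB0, hk0, -, -, -, -⟩ := he (eS s) Q P W m hm
  have hg : 0 < n.gcd m := Nat.gcd_pos_of_pos_left _ hn
  have hun : n / n.gcd m ∣ n := Nat.div_dvd_of_dvd (Nat.gcd_dvd_left n m)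
  have hvm : m / n.gcd m ∣ m := Nat.div_dvd_of_dvd (Nat.gcd_dvd_right n m)
  have hupos : 0 < n / n.gcd m := Nat.div_pos (Nat.gcd_le_left _ hn) hg
  have hvpos : 0 < m / n.gcd m := Nat.div_pos (Nat.gcd_le_right _ hm) hg
  have hrd1 : (rd z).1 = n / n.gcd m := rfl
  have hrd2 : (rd z).2 = m / n.gcd m := rfl
  -- all primes are small
  have hprimes : ∀ p : ℕ, p.Prime → p ∣ n / n.gcd m * (m / n.gcd m) →
      p ≤ max (max (AP s κ P V n) (AP s κ P W m)) Q := by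
    by_contra hcon
    push Not at hcon
    obtain ⟨p, hp, hpd, hpl⟩ := hcon
    have huv0 : n / n.gcd m * (m / n.gcd m) ≠ 0 := (Nat.mul_pos hupos hvpos).ne'
    obtain ⟨q, hqmem, hqmax⟩ := Finset.exists_max_image
      (n / n.gcd m * (m / n.gcd m)).primeFactors id ⟨p, Nat.mem_primeFactors.2 ⟨hp, hpd, huv0⟩⟩
    have hq := Nat.mem_primeFactors.1 hqmem
    have hmax : ∀ p : ℕ, p.Prime → p ∣ n / n.gcd m * (m / n.gcd m) → p ≤ q := by
      intro p' hp' hd'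
      exact hqmax p' (Nat.mem_primeFactors.2 ⟨hp', hd', huv0⟩)
    have hpq : p ≤ q := hmax p hp hpd
    have hql : max (max (AP s κ P V n) (AP s κ P W m)) Q < q := lt_of_lt_of_le hpl hpq
    have hq1 : AP s κ P V n < q := lt_of_le_of_lt ((le_max_left _ _).trans (le_max_left _ _)) hql
    have hq2 : AP s κ P W m < q := lt_of_le_of_lt ((le_max_right _ _).trans (le_max_left _ _)) hql
    have hq3 : Q < q := lt_of_le_of_lt (le_max_right _ _) hql
    rcases (Nat.Prime.dvd_mul hq.1).1 hq.2.1 with hqu | hqv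
    · have hqP : q ≤ P := hnP q (Nat.mem_primeFactors.2 ⟨hq.1, hqu.trans hun, hn.ne'⟩)
      have hv1 := hval q hq.1 hq3 hqP
      exact hrel (Or.inl (OneCL_core he hn hm hs1p hs1Q hA0 hu hq.1 hqu hq3 hq1 hmax hv1.2.2.2.1))
    · have hqP : q ≤ P := hmP q (Nat.mem_primeFactors.2 ⟨hq.1, hqv.trans hvm, hm.ne'⟩)
      have hv1 := hval q hq.1 hq3 hqP
      have hcomm : n.gcd m = m.gcd n := Nat.gcd_comm n m
      rw [hcomm] at hv' hqv hmax
      have hmax' : ∀ p : ℕ, p.Prime → p ∣ m / m.gcd n * (n / m.gcd n) → p ≤ q := by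
        intro p' hp' hd'
        rw [mul_comm] at hd'
        exact hmax p' hp' hd'
      exact hrel (Or.inr (OneCL_core he hm hn ht1p ht1Q hB0 hv' hq.1 hqv hq3 hq2 hmax'
        hv1.2.2.2.2))
  refine ⟨?_, fun p hp hpd => hprimes p hp hpd⟩
  -- the bound
  have hnR : (0:ℝ) < n := by exact_mod_cast hn
  have hmR : (0:ℝ) < m := by exact_mod_cast hm
  have hlcm : ((n.lcm m : ℕ) : ℝ) < 2 * (κ * X) := hD.2
  have hlcm_pos : 0 < n.lcm m := Nat.lcm_pos hn hm
  have hnl : (n:ℝ) ≤ (n.lcm m : ℕ) := by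
    exact_mod_cast Nat.le_of_dvd hlcm_pos (Nat.dvd_lcm_left n m)
  have hml : (m:ℝ) ≤ (n.lcm m : ℕ) := by
    exact_mod_cast Nat.le_of_dvd hlcm_pos (Nat.dvd_lcm_right n m)
  have hul : n / n.gcd m * m = n.lcm m := by
    rw [Nat.lcm, Nat.mul_div_right_comm (Nat.gcd_dvd_left n m)]
  have hvl : m / n.gcd m * n = n.lcm m := by
    rw [Nat.lcm, mul_comm n m, Nat.mul_div_right_comm (Nat.gcd_dvd_right n m)]
  have hulR : ((n / n.gcd m : ℕ) : ℝ) * m < 2 * (κ * X) := by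
    rw [← hul] at hlcm
    push_cast at hlcm ⊢
    exact_mod_cast hlcm
  have hvlR : ((m / n.gcd m : ℕ) : ℝ) * n < 2 * (κ * X) := by
    rw [← hvl] at hlcm
    push_cast at hlcm ⊢
    exact_mod_cast hlcm
  have hkX : 2 * (κ * X) ≤ X := by nlinarith
  have hXn : 1 / (2 * κ) < X / n := by
    rw [div_lt_div_iff₀ (by positivity) hnR]
    linarith
  have hXm : 1 / (2 * κ) < X / m := by
    rw [div_lt_div_iff₀ (by positivity) hmR]
    linarith
  have hrX : X / m ≤ r * X / m := by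
    apply div_le_div_of_nonneg_right _ hmR.le
    nlinarith
  have h2k : (1:ℝ) ≤ 1 / (2 * κ) := by
    rw [le_div_iff₀ (by positivity)]
    linarith
  have hAn : (AP s κ P V n : ℝ) ≤ X / n := by
    have h1 : ¬ X / n < (AP s κ P V n : ℝ) * hP s κ P V n := hT1
    have h2 : (1:ℝ) ≤ hP s κ P V n := by exact_mod_cast hh0
    have h3 : (0:ℝ) ≤ AP s κ P V n := Nat.cast_nonneg _
    nlinarith
  have hAm : (AP s κ P W m : ℝ) ≤ X / m := by
    have h1 : ¬ X / m < (AP s κ P W m : ℝ) * hP s κ P W m := hT2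
    have h2 : (1:ℝ) ≤ hP s κ P W m := by exact_mod_cast hk0
    have h3 : (0:ℝ) ≤ AP s κ P W m := Nat.cast_nonneg _
    nlinarith
  have hAnu : AP s κ P V n ≤ n / n.gcd m := by
    rw [hu]
    have : AP s κ P V n ∣ s1 * H.ex (eS s) Q P V n * H.hb (eS s) Q P W m :=
      Dvd.dvd.mul_right (Dvd.intro_left _ rfl) _
    exact Nat.le_of_dvd (by positivity) this
  have hAmv : AP s κ P W m ≤ m / n.gcd m := by
    rw [hv']
    have : AP s κ P W m ∣ t1 * H.ex (eS s) Q P W m * H.hb (eS s) Q P V n :=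
      Dvd.dvd.mul_right (Dvd.intro_left _ rfl) _
    exact Nat.le_of_dvd (by positivity) this
  have hAnm : (AP s κ P V n : ℝ) ≤ X / m := by
    have h1 : (AP s κ P V n : ℝ) ≤ ((n / n.gcd m : ℕ) : ℝ) := by exact_mod_cast hAnu
    rw [le_div_iff₀ hmR]
    nlinarith
  have hAmn : (AP s κ P W m : ℝ) ≤ X / n := by
    have h1 : (AP s κ P W m : ℝ) ≤ ((m / n.gcd m : ℕ) : ℝ) := by exact_mod_cast hAmv
    rw [le_div_iff₀ hnR]
    nlinarith
  set B : ℝ := min (X / n) (r * X / m) with hB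
  have hBk : 1 / (2 * κ) ≤ B := le_min hXn.le (hXm.le.trans hrX)
  have hB1 : 1 ≤ B := h2k.trans hBk
  have hgS : 0 < H.cg (gS s) := by
    unfold H.cg gS
    have : 0 < s / 20000 := by positivity
    linarith
  have haS : 0 < aS s := by
    unfold aS
    positivity
  have hcS : 1 ≤ cS s := by
    unfold cS
    linarith
  have hBc : B ≤ B ^ (cS s) := by
    calc B = B ^ (1:ℝ) := (Real.rpow_one B).symm
      _ ≤ B ^ (cS s) := Real.rpow_le_rpow_of_exponent_le hB1 hcS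
  have hQB : (Q:ℝ) ≤ B ^ (cS s) := by
    calc (Q:ℝ) ≤ (1 / (2 * κ)) ^ (2 * (aS s + 1)) := OneCL_Q haS hκ hκ4
      _ ≤ B ^ (cS s) := Real.rpow_le_rpow (by positivity) hBk (by linarith)
  intro p hp hpd
  show (p:ℝ) ≤ B ^ (cS s)
  have h1 := hprimes p hp hpd
  rcases le_max_iff.1 h1 with h | h
  · rcases le_max_iff.1 h with h | h
    · have h2 : (p:ℝ) ≤ AP s κ P V n := by exact_mod_cast h
      exact (h2.trans (le_min hAn (hAnm.trans hrX))).trans hBc
    · have h2 : (p:ℝ) ≤ AP s κ P W m := by exact_mod_cast h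
      exact (h2.trans (le_min hAmn (hAm.trans hrX))).trans hBc
  · have h2 : (p:ℝ) ≤ Q := by exact_mod_cast h
    exact h2.trans hQB

end Pool.Agent.MP_0863b8.CL

end

section

/-!
MP_0863b8_nt, item PairCL: classification for two levels and one depth.
-/

set_option autoImplicit false

namespace Pool.Agent.MP_0863b8.CL

open Finset
open F (ms)
open C1 (Dp rd)

namespace PairCL_aux

theorem sum_le_four (F A B C D : Finset (ℕ × ℕ)) (f : ℕ × ℕ → ℝ) (hf : ∀ z, 0 ≤ f z)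
    (h : ∀ z ∈ F, z ∈ A ∨ z ∈ B ∨ z ∈ C ∨ z ∈ D) :
    ∑ z ∈ F, f z ≤ ∑ z ∈ A, f z + ∑ z ∈ B, f z + ∑ z ∈ C, f z + ∑ z ∈ D, f z := by
  classical
  have h1 : ∑ z ∈ F, f z ≤ ∑ z ∈ A ∪ B ∪ C ∪ D, f z := by
    refine Finset.sum_le_sum_of_subset_of_nonneg ?_ (fun z _ _ => hf z)
    intro z hz
    have := h z hz
    simp only [Finset.mem_union]
    tauto
  have h2 : ∀ U U' : Finset (ℕ × ℕ), ∑ z ∈ U ∪ U', f z ≤ ∑ z ∈ U, f z + ∑ z ∈ U', f z := by
    intro U U'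
    rw [← Finset.sum_union_inter]
    have : 0 ≤ ∑ z ∈ U ∩ U', f z := Finset.sum_nonneg (fun z _ => hf z)
    linarith
  have h3 := h2 (A ∪ B ∪ C) D
  have h4 := h2 (A ∪ B) C
  have h5 := h2 A B
  linarith

theorem ms_nonneg (V : Finset ℕ) : 0 ≤ ms V :=
  Finset.sum_nonneg (fun v _ => Nat.cast_nonneg v)

end PairCL_aux

open PairCL_aux in
theorem pr_PairCL (h0 : NeglCL) (h1 : BadCL) (h3 : ThkCL) (h4 : OneCL) (h5 : SmCL) (h6 : BgCL) :
    PairCL := by
  classical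
  intro s C1 hs hs1
  obtain ⟨κB, CB, hκB, hκB1, hCB, hB⟩ := h1 s C1 hs hs1
  obtain ⟨CT, hCT, hT⟩ := h3 s C1 hs hs1
  obtain ⟨κO, hκO, hO⟩ := h4 s hs hs1
  obtain ⟨κS, CS, hκS, hκS1, hCS, hS⟩ := h5 s C1 hs hs1
  obtain ⟨κG, cG, hκG, hκG1, hcG, hG⟩ := h6 s C1 hs hs1
  set c : ℝ := min cG (s / 40) with hcdef
  have hc : 0 < c := lt_min hcG (by positivity)
  have hccG : c ≤ cG := min_le_left _ _
  have hcs : c ≤ s / 40 := min_le_right _ _
  set K : ℝ := 2 * CB + CT + 2 * CS + 1 with hKdef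
  have hK1 : 1 ≤ K := by
    rw [hKdef]
    linarith
  have hK0 : 0 < K := by linarith
  refine ⟨min (min κB κO) (min (min κS κG) (K ^ (-(2 / c)))), c / 2, ?_, ?_, by positivity, ?_⟩
  · exact lt_min (lt_min hκB hκO) (lt_min (lt_min hκS hκG) (Real.rpow_pos_of_pos hK0 _))
  · exact le_trans (min_le_left _ _) (le_trans (min_le_left _ _) hκB1)
  intro κ X θ r P V W hκ hκ0 hX hr hV hW hVm hWm
  have hκB' : κ ≤ κB := le_trans hκ0 (le_trans (min_le_left _ _) (min_le_left _ _))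
  have hκO' : κ ≤ κO := le_trans hκ0 (le_trans (min_le_left _ _) (min_le_right _ _))
  have hκS' : κ ≤ κS := le_trans hκ0
    (le_trans (min_le_right _ _) (le_trans (min_le_left _ _) (min_le_left _ _)))
  have hκG' : κ ≤ κG := le_trans hκ0
    (le_trans (min_le_right _ _) (le_trans (min_le_left _ _) (min_le_right _ _)))
  have hκK' : κ ≤ K ^ (-(2 / c)) := le_trans hκ0
    (le_trans (min_le_right _ _) (min_le_right _ _))
  have hκ1 : κ ≤ 1 := le_trans hκB' hκB1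
  have hmV := ms_nonneg V
  have hmW := ms_nonneg W
  have eB := hB κ X P V W hκ hκB' hX hV hW
  have eT := hT κ X P V W hκ hX hV hW
  have eS := hS κ X θ P V W hκ hκS' hX hV hW
  have eG := hG κ X θ r P V W hκ hκG' hX hr hV hW hVm hWm
  have eN := h0 (gS s) κ X r 1 (ms V) (ms W) (by unfold gS; linarith [div_pos hs (by norm_num : (0:ℝ) < 20000)])
    (by unfold gS; linarith) hκ hκ1 hX hr (by norm_num) hmV hmW hVm hWm
  refine le_trans (sum_le_four _ _ _ _ _ _ (fun z => Nat.cast_nonneg _) ?_)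
    (le_trans (add_le_add (add_le_add (add_le_add eB eT) eS) eG) ?_)
  · intro z hz
    rw [Finset.mem_filter] at hz
    obtain ⟨hze, hnR, hnL⟩ := hz
    have hze' := hze
    unfold edges at hze'
    rw [Finset.mem_filter] at hze'
    obtain ⟨hzVW, hDp, hne, hnd⟩ := hze'
    have hzV := (Finset.mem_product.mp hzVW).1
    have hzW := (Finset.mem_product.mp hzVW).2
    by_cases hgood : GoodP s κ P V W z
    · by_cases hthk : Thk s κ X P V z.1 ∨ Thk s κ X P W z.2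
      · right; left
        rw [Finset.mem_filter]
        exact ⟨hzVW, hDp, hgood, hthk⟩
      · have hthk1 : ¬ Thk s κ X P V z.1 := fun h => hthk (Or.inl h)
        have hthk2 : ¬ Thk s κ X P W z.2 := fun h => hthk (Or.inr h)
        obtain ⟨hPB, hpr⟩ := hO κ X r P V W z hκ hκO' hX hr hzV hzW (hV _ hzV).1 (hW _ hzW).1
          (hV _ hzV).2.2 (hW _ hzW).2.2 hDp hgood hthk1 hthk2 hnR
        have hnLab : ¬ LabP s κ θ z := fun h => hnL ⟨h, hPB⟩
        by_cases hsm : ∀ p : ℕ, p.Prime → p ∣ (rd z).1 * (rd z).2 →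
            (p : ℝ) ≤ Real.exp (κ ^ (-(tS s)))
        · right; right; left
          rw [Finset.mem_filter]
          exact ⟨hze, hnLab, hsm⟩
        · right; right; right
          rw [Finset.mem_filter]
          exact ⟨hze, hnLab, hgood, hsm, hpr⟩
    · left
      rw [Finset.mem_filter]
      exact ⟨hzVW, hDp, hgood⟩
  · set T : ℝ := r * ms V + ms W with hTdef
    have hT0 : 0 ≤ T := by positivity
    have hVT : ms V + ms W ≤ T := by
      rw [hTdef]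
      nlinarith
    set N : ℝ := (κ * X) ^ (1 - 2 * gS s) * (ms V * ms W) ^ (gS s) with hNdef
    have hN0 : 0 ≤ N := by positivity
    have hexp : -((2 * gS s - 1) * (1 + 1)) = -(s / 5000) := by
      unfold gS
      ring
    rw [hexp] at eN
    have hpow : ∀ a : ℝ, c ≤ a → κ ^ a ≤ κ ^ c := fun a ha =>
      Real.rpow_le_rpow_of_exponent_ge hκ hκ1 ha
    have hκc0 : 0 < κ ^ c := Real.rpow_pos_of_pos hκ _
    have hκs0 : 0 < κ ^ (-(s / 5000)) := Real.rpow_pos_of_pos hκ _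
    have t1 : CB * κ ^ (2:ℝ) * (κ * X) ^ (1 - 2 * gS s) * (ms V * ms W) ^ (gS s) ≤
        2 * CB * (κ ^ c * T) := by
      have e1 : CB * κ ^ (2:ℝ) * (κ * X) ^ (1 - 2 * gS s) * (ms V * ms W) ^ (gS s) =
          CB * κ ^ (2:ℝ) * N := by rw [hNdef]; ring
      rw [e1]
      have e2 : CB * κ ^ (2:ℝ) * N ≤ CB * κ ^ (2:ℝ) * (2 * κ ^ (-(s / 5000)) * T) :=
        mul_le_mul_of_nonneg_left eN (by positivity)
      have e3 : κ ^ (2:ℝ) * κ ^ (-(s / 5000)) ≤ κ ^ c := by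
        rw [← Real.rpow_add hκ]
        exact hpow _ (by linarith)
      have e4 : CB * κ ^ (2:ℝ) * (2 * κ ^ (-(s / 5000)) * T) =
          2 * CB * ((κ ^ (2:ℝ) * κ ^ (-(s / 5000))) * T) := by ring
      rw [e4] at e2
      refine le_trans e2 ?_
      exact mul_le_mul_of_nonneg_left (mul_le_mul_of_nonneg_right e3 hT0) (by positivity)
    have t2 : CT * κ * (ms V + ms W) ≤ CT * (κ ^ c * T) := by
      have e1 : κ ≤ κ ^ c := by
        have := hpow 1 (by linarith)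
        rwa [Real.rpow_one] at this
      have e2 : κ * (ms V + ms W) ≤ κ ^ c * T :=
        mul_le_mul e1 hVT (by positivity) hκc0.le
      calc CT * κ * (ms V + ms W) = CT * (κ * (ms V + ms W)) := by ring
        _ ≤ _ := mul_le_mul_of_nonneg_left e2 hCT.le
    have t3 : CS * κ ^ (s / 20) * (κ * X) ^ (1 - 2 * gS s) * (ms V * ms W) ^ (gS s) ≤
        2 * CS * (κ ^ c * T) := by
      have e1 : CS * κ ^ (s / 20) * (κ * X) ^ (1 - 2 * gS s) * (ms V * ms W) ^ (gS s) =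
          CS * κ ^ (s / 20) * N := by rw [hNdef]; ring
      rw [e1]
      have e2 : CS * κ ^ (s / 20) * N ≤ CS * κ ^ (s / 20) * (2 * κ ^ (-(s / 5000)) * T) :=
        mul_le_mul_of_nonneg_left eN (by positivity)
      have e3 : κ ^ (s / 20) * κ ^ (-(s / 5000)) ≤ κ ^ c := by
        rw [← Real.rpow_add hκ]
        exact hpow _ (by linarith)
      have e4 : CS * κ ^ (s / 20) * (2 * κ ^ (-(s / 5000)) * T) =
          2 * CS * ((κ ^ (s / 20) * κ ^ (-(s / 5000))) * T) := by ring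
      rw [e4] at e2
      refine le_trans e2 ?_
      exact mul_le_mul_of_nonneg_left (mul_le_mul_of_nonneg_right e3 hT0) (by positivity)
    have t4 : κ ^ cG * T ≤ κ ^ c * T := mul_le_mul_of_nonneg_right (hpow _ hccG) hT0
    have hfin : K * κ ^ (c / 2) ≤ 1 := by
      have e1 : κ ^ (c / 2) ≤ (K ^ (-(2 / c))) ^ (c / 2) :=
        Real.rpow_le_rpow hκ.le hκK' (by positivity)
      have e2 : (K ^ (-(2 / c))) ^ (c / 2) = K⁻¹ := by
        rw [← Real.rpow_mul hK0.le]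
        have : -(2 / c) * (c / 2) = -1 := by field_simp
        rw [this, Real.rpow_neg_one]
      rw [e2] at e1
      calc K * κ ^ (c / 2) ≤ K * K⁻¹ := mul_le_mul_of_nonneg_left e1 hK0.le
        _ = 1 := mul_inv_cancel₀ hK0.ne'
    have hcc : κ ^ c = κ ^ (c / 2) * κ ^ (c / 2) := by
      rw [← Real.rpow_add hκ]
      congr 1
      ring
    have hhalf0 : 0 < κ ^ (c / 2) := Real.rpow_pos_of_pos hκ _
    calc _ ≤ 2 * CB * (κ ^ c * T) + CT * (κ ^ c * T) + 2 * CS * (κ ^ c * T) + κ ^ c * T := by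
          linarith
      _ = (K * κ ^ (c / 2)) * (κ ^ (c / 2) * T) := by
          rw [hKdef, hcc]
          ring
      _ ≤ 1 * (κ ^ (c / 2) * T) := mul_le_mul_of_nonneg_right hfin (by positivity)
      _ = κ ^ (c / 2) * T := one_mul _

end Pool.Agent.MP_0863b8.CL

end

section

/-!
MP_0863b8_nt, item SmCL: aligned, unlabelled pairs with small primes, from `C1.CaseI`.
-/

set_option autoImplicit false

namespace Pool.Agent.MP_0863b8.CL

open Finset
open F (ms)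
open C1 (Dp rd)

theorem SmCL_rd_ne (z : ℕ × ℕ) (h : z.1 ≠ z.2) : (rd z).1 ≠ (rd z).2 := by
  intro he
  apply h
  have h1 : z.1 = z.1.gcd z.2 * (z.1 / z.1.gcd z.2) :=
    (Nat.mul_div_cancel' (Nat.gcd_dvd_left _ _)).symm
  have h2 : z.2 = z.1.gcd z.2 * (z.2 / z.1.gcd z.2) :=
    (Nat.mul_div_cancel' (Nat.gcd_dvd_right _ _)).symm
  have he' : z.1 / z.1.gcd z.2 = z.2 / z.1.gcd z.2 := he
  calc z.1 = z.1.gcd z.2 * (z.1 / z.1.gcd z.2) := h1
    _ = z.1.gcd z.2 * (z.2 / z.1.gcd z.2) := by rw [he']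
    _ = z.2 := h2.symm

theorem pr_SmCL (h : C1.CaseI) : SmCL := by
  classical
  intro s D1 hs hs1
  obtain ⟨κ0, C, hκ0, hC, hmain⟩ := h (gS s) (tS s) s D1
    (by unfold gS; linarith [hs]) (by unfold gS; linarith [hs1])
    (by unfold tS; positivity) hs hs1
  refine ⟨min κ0 1, C, lt_min hκ0 one_pos, min_le_right _ _, hC, ?_⟩
  intro κ X θ P V W hκ hκ1 hX hV hW
  have hk0 : κ ≤ κ0 := hκ1.trans (min_le_left _ _)
  have hk1 : κ ≤ 1 := hκ1.trans (min_le_right _ _)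
  have hb := hmain κ hκ hk0 θ X hX V W
    (fun v hv => ⟨(hV v hv).1, (hV v hv).2.1⟩) (fun w hw => ⟨(hW w hw).1, (hW w hw).2.1⟩)
  have hsub : (edges κ X θ V W).filter (fun z => ¬ LabP s κ θ z ∧
        ∀ p : ℕ, p.Prime → p ∣ (rd z).1 * (rd z).2 → (p : ℝ) ≤ Real.exp (κ ^ (-(tS s))))
      ⊆ (V ×ˢ W).filter (fun z => Dp κ X z ∧ C1.UX s θ κ (rd z) ∧
        ∀ p : ℕ, p.Prime → p ∣ (rd z).1 * (rd z).2 → (p : ℝ) ≤ Real.exp (κ ^ (-(tS s)))) := by
    intro z hz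
    rw [mem_filter] at hz
    obtain ⟨hz1, hz2, hz3⟩ := hz
    unfold edges at hz1
    rw [mem_filter] at hz1
    obtain ⟨hz4, hz5, hz6, hz7⟩ := hz1
    rw [mem_filter]
    exact ⟨hz4, hz5, ⟨SmCL_rd_ne z hz6, hz7, hz2⟩, hz3⟩
  have hmsV : 0 ≤ ms V := Finset.sum_nonneg fun v _ => Nat.cast_nonneg v
  have hmsW : 0 ≤ ms W := Finset.sum_nonneg fun v _ => Nat.cast_nonneg v
  have hexp : κ ^ ((1 - gS s) / 4 * s - 6 * tS s) ≤ κ ^ (s / 20) := by
    apply Real.rpow_le_rpow_of_exponent_ge hκ hk1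
    unfold gS tS
    nlinarith [hs, hs1, mul_pos hs hs]
  refine (Finset.sum_le_sum_of_subset_of_nonneg hsub
    (fun z _ _ => Nat.cast_nonneg _)).trans (hb.trans ?_)
  have h1 : 0 ≤ (κ * X) ^ (1 - 2 * gS s) := Real.rpow_nonneg (mul_pos hκ hX).le _
  have h2 : 0 ≤ (ms V * ms W) ^ (gS s) := Real.rpow_nonneg (mul_nonneg hmsV hmsW) _
  exact mul_le_mul_of_nonneg_right (mul_le_mul_of_nonneg_right
    (mul_le_mul_of_nonneg_left hexp hC.le) h1) h2

end Pool.Agent.MP_0863b8.CL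

end

section

set_option autoImplicit false

namespace Pool.Agent.MP_0863b8.CL

open Finset
open F (ms)
open C1 (Dp rd)

private theorem rd_swap1 (z : ℕ × ℕ) : (rd z.swap).1 = (rd z).2 := by
  simp [rd, Nat.gcd_comm]

private theorem rd_swap2 (z : ℕ × ℕ) : (rd z.swap).2 = (rd z).1 := by
  simp [rd, Nat.gcd_comm]

private theorem dep_swap (ρ : ℝ) (lev : ℕ → ℕ) (z : ℕ × ℕ) :
    dep ρ lev z.swap = dep ρ lev z := by
  simp [dep, Nat.lcm_comm, max_comm]

private theorem ene_swap (ρ : ℝ) (lev : ℕ → ℕ) (z : ℕ × ℕ) :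
    ene ρ lev z.swap = ene ρ lev z := by
  simp [ene, Nat.gcd_comm, min_comm]

private theorem rat_swap (lev : ℕ → ℕ) (z : ℕ × ℕ) :
    rat lev z.swap = rat lev z := by
  simp [rat, max_comm, min_comm]

private theorem expl_swap (s C6 θ ρ : ℝ) (lev : ℕ → ℕ) (z : ℕ × ℕ) :
    ExplS s C6 θ ρ lev z.swap ↔ ExplS s C6 θ ρ lev z := by
  unfold ExplS
  rw [dep_swap, rat_swap, rd_swap1, rd_swap2, Prod.fst_swap, Prod.snd_swap,
    mul_comm (rd z).2 (rd z).1, min_comm (1 / mu ρ lev z.2), max_comm (rd z).2]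

private theorem mem_exc_swap (s C6 θ ρ κ : ℝ) (p : ℕ → ℕ) (S : Finset ℕ) (lev : ℕ → ℕ) (k l : ℕ)
    (z : ℕ × ℕ) (hz : z ∈ exc s C6 θ ρ κ p S lev k l) :
    z.swap ∈ exc s C6 θ ρ κ p S lev l k := by
  unfold exc at hz ⊢
  simp only [mem_filter, mem_product] at hz ⊢
  obtain ⟨⟨h1, h2⟩, ⟨h3, h4⟩, h5, h6, h7, h8, h9, h10⟩ := hz
  refine ⟨⟨by simpa using h2, by simpa using h1⟩, ⟨by simpa using h4, by simpa using h3⟩, ?_, ?_,
    ?_, ?_, ?_, ?_⟩
  · rw [dep_swap]; exact h5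
  · simpa using h6.symm
  · rw [dep_swap, rd_swap1, rd_swap2]
    rw [← nd_neg]
    convert h7 using 2
    ring
  · simpa using h9
  · simpa using h8
  · rw [expl_swap]; exact h10

theorem pr_SymCL : SymCL := by
  intro s C6 θ ρ κ p S lev k l
  refine Finset.sum_bij (fun z _ => z.swap) ?_ ?_ ?_ ?_
  · intro z hz
    exact mem_exc_swap s C6 θ ρ κ p S lev k l z hz
  · intro a _ b _ hab
    exact Prod.swap_injective hab
  · intro b hb
    exact ⟨b.swap, mem_exc_swap s C6 θ ρ κ p S lev l k b hb, Prod.swap_swap b⟩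
  · intro z _
    exact (ene_swap ρ lev z).symm

end Pool.Agent.MP_0863b8.CL

end

section

/-!
MP_0863b8_nt: item ThkCL (good pairs with a thick vertex).
-/

set_option autoImplicit false

namespace Pool.Agent.MP_0863b8.CL

open Finset
open F (ms)
open C1 (Dp rd)

/-- the sum over one row -/
theorem thk_row (hp : C2.Pt) (κ X C : ℝ) (n A h : ℕ) (E : Finset ℕ) (hκ : 0 < κ) (hX : 0 < X)
    (hn : 0 < n) (hA : 0 < A) (hh : 0 < h) (hC : 0 < C) (hD : ∑ d ∈ n.divisors, (1 : ℝ) / d ≤ C)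
    (hthk : X / n < (A : ℝ) * h)
    (hE : ∀ m ∈ E, 0 < m ∧ κ * X ≤ ((n.lcm m : ℕ) : ℝ) ∧ ((n.lcm m : ℕ) : ℝ) < 2 * (κ * X) ∧
      A ∣ n / n.gcd m ∧ h ∣ m / n.gcd m) :
    ∑ m ∈ E, ((n.gcd m : ℕ) : ℝ) ≤ 3 * C * κ * n := by
  have h1 := hp (κ * X) n A h E n.divisors (mul_pos hκ hX) hn hA hh (by
    intro m hm
    obtain ⟨h2, h3, h4, h5, h6⟩ := hE m hm
    refine ⟨h2, h3, h4, h5, h6, ?_⟩
    rw [Nat.mem_divisors]
    refine ⟨?_, hn.ne'⟩
    exact (Nat.div_dvd_of_dvd h5).trans (Nat.div_dvd_of_dvd (Nat.gcd_dvd_left n m)))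
  refine h1.trans ?_
  have hAr : (0 : ℝ) < A := by exact_mod_cast hA
  have hhr : (0 : ℝ) < h := by exact_mod_cast hh
  have hnr : (0 : ℝ) < n := by exact_mod_cast hn
  have h7 : X ≤ n * ((h : ℝ) * A) := by
    rw [div_lt_iff₀ hnr] at hthk
    nlinarith
  have h8 : 3 * (κ * X) / ((h : ℝ) * A) ≤ 3 * κ * n := by
    rw [div_le_iff₀ (by positivity)]
    nlinarith [mul_le_mul_of_nonneg_left h7 hκ.le]
  have h9 : (0 : ℝ) ≤ 3 * (κ * X) / ((h : ℝ) * A) := by positivity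
  calc 3 * (κ * X) / ((h : ℝ) * A) * ∑ a ∈ n.divisors, (1 : ℝ) / a
      ≤ 3 * (κ * X) / ((h : ℝ) * A) * C := mul_le_mul_of_nonneg_left hD h9
    _ ≤ 3 * κ * n * C := mul_le_mul_of_nonneg_right h8 hC.le
    _ = 3 * C * κ * n := by ring

theorem pr_ThkCL (hs : H.GoodStruct) (he : H.ExHb) (hp : C2.Pt) (hd : DivCL) : ThkCL := by
  classical
  intro s C1 _ _
  obtain ⟨C, hC, hdiv⟩ := hd C1
  refine ⟨3 * C, by positivity, ?_⟩
  intro κ X P V W hκ hX hV hW
  -- the structure of good pairs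
  have hst : ∀ n ∈ V, ∀ m ∈ W, GoodP s κ P V W (n, m) →
      AP s κ P V n ∣ n / n.gcd m ∧ hP s κ P V n ∣ m / n.gcd m ∧
      AP s κ P W m ∣ m / n.gcd m ∧ hP s κ P W m ∣ n / n.gcd m := by
    intro n hn m hm hg
    obtain ⟨a, b, _, _, _, _, h1, h2⟩ := hs (eS s) (qS s κ) P V W n m (hV n hn).1 (hW m hm).1
      hn hm (hV n hn).2.2 (hW m hm).2.2 hg
    refine ⟨?_, ?_, ?_, ?_⟩
    · rw [h1]; exact ⟨a * H.hb (eS s) (qS s κ) P W m, by unfold AP; ring⟩
    · rw [h2]; exact ⟨b * H.ex (eS s) (qS s κ) P W m, by unfold hP; ring⟩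
    · rw [h2]; exact ⟨b * H.hb (eS s) (qS s κ) P V n, by unfold AP; ring⟩
    · rw [h1]; exact ⟨a * H.ex (eS s) (qS s κ) P V n, by unfold hP; ring⟩
  -- rows
  have row1 : ∀ n ∈ V, Thk s κ X P V n →
      ∑ m ∈ W.filter (fun m => Dp κ X (n, m) ∧ GoodP s κ P V W (n, m)),
        ((n.gcd m : ℕ) : ℝ) ≤ 3 * C * κ * n := by
    intro n hn ht
    obtain ⟨hA, hH, _⟩ := he (eS s) (qS s κ) P V n (hV n hn).1
    refine thk_row hp κ X C n (AP s κ P V n) (hP s κ P V n) _ hκ hX (hV n hn).1 hA hH hC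
      (hdiv n (hV n hn).1 (hV n hn).2.1) ht ?_
    intro m hm
    rw [mem_filter] at hm
    obtain ⟨hmW, hdp, hg⟩ := hm
    obtain ⟨h1, h2, _, _⟩ := hst n hn m hmW hg
    exact ⟨(hW m hmW).1, hdp.1, hdp.2, h1, h2⟩
  have row2 : ∀ m ∈ W, Thk s κ X P W m →
      ∑ n ∈ V.filter (fun n => Dp κ X (n, m) ∧ GoodP s κ P V W (n, m)),
        ((n.gcd m : ℕ) : ℝ) ≤ 3 * C * κ * m := by
    intro m hm ht
    obtain ⟨hA, hH, _⟩ := he (eS s) (qS s κ) P W m (hW m hm).1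
    have h0 := thk_row hp κ X C m (AP s κ P W m) (hP s κ P W m)
      (V.filter (fun n => Dp κ X (n, m) ∧ GoodP s κ P V W (n, m))) hκ hX (hW m hm).1 hA hH hC
      (hdiv m (hW m hm).1 (hW m hm).2.1) ht (by
        intro n hn
        rw [mem_filter] at hn
        obtain ⟨hnV, hdp, hg⟩ := hn
        obtain ⟨_, _, h3, h4⟩ := hst n hnV m hm hg
        refine ⟨(hV n hnV).1, ?_, ?_, ?_, ?_⟩
        · rw [Nat.lcm_comm]; exact hdp.1
        · rw [Nat.lcm_comm]; exact hdp.2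
        · rw [Nat.gcd_comm]; exact h3
        · rw [Nat.gcd_comm]; exact h4)
    refine le_trans (le_of_eq ?_) h0
    refine sum_congr rfl fun n _ => ?_
    rw [Nat.gcd_comm]
  -- the two parts
  have part1 : ∑ z ∈ (V ×ˢ W).filter (fun z => (Dp κ X z ∧ GoodP s κ P V W z) ∧
      Thk s κ X P V z.1), ((z.1.gcd z.2 : ℕ) : ℝ) ≤ 3 * C * κ * ms V := by
    rw [sum_filter, sum_product]
    unfold F.ms
    rw [mul_sum]
    refine sum_le_sum fun n hn => ?_
    by_cases ht : Thk s κ X P V n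
    · refine le_trans (le_of_eq ?_) (row1 n hn ht)
      rw [sum_filter]
      refine sum_congr rfl fun m _ => ?_
      simp only [ht, and_true]
    · have h0 : ∑ m ∈ W, (if (Dp κ X (n, m) ∧ GoodP s κ P V W (n, m)) ∧ Thk s κ X P V n then
          ((n.gcd m : ℕ) : ℝ) else 0) = 0 := by
        refine sum_eq_zero fun m _ => ?_
        simp only [ht, and_false, if_false]
      refine le_trans (le_of_eq h0) ?_
      positivity
  have part2 : ∑ z ∈ (V ×ˢ W).filter (fun z => (Dp κ X z ∧ GoodP s κ P V W z) ∧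
      Thk s κ X P W z.2), ((z.1.gcd z.2 : ℕ) : ℝ) ≤ 3 * C * κ * ms W := by
    rw [sum_filter, sum_product_right]
    unfold F.ms
    rw [mul_sum]
    refine sum_le_sum fun m hm => ?_
    by_cases ht : Thk s κ X P W m
    · refine le_trans (le_of_eq ?_) (row2 m hm ht)
      rw [sum_filter]
      refine sum_congr rfl fun n _ => ?_
      simp only [ht, and_true]
    · have h0 : ∑ n ∈ V, (if (Dp κ X (n, m) ∧ GoodP s κ P V W (n, m)) ∧ Thk s κ X P W m then
          ((n.gcd m : ℕ) : ℝ) else 0) = 0 := by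
        refine sum_eq_zero fun n _ => ?_
        simp only [ht, and_false, if_false]
      refine le_trans (le_of_eq h0) ?_
      positivity
  have hsub : (V ×ˢ W).filter (fun z => Dp κ X z ∧ GoodP s κ P V W z ∧
        (Thk s κ X P V z.1 ∨ Thk s κ X P W z.2)) ⊆
      (V ×ˢ W).filter (fun z => (Dp κ X z ∧ GoodP s κ P V W z) ∧ Thk s κ X P V z.1) ∪
      (V ×ˢ W).filter (fun z => (Dp κ X z ∧ GoodP s κ P V W z) ∧ Thk s κ X P W z.2) := by
    intro z hz
    rw [mem_filter] at hz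
    obtain ⟨hz0, h1, h2, h3⟩ := hz
    rw [mem_union, mem_filter, mem_filter]
    rcases h3 with h3 | h3
    · exact Or.inl ⟨hz0, ⟨h1, h2⟩, h3⟩
    · exact Or.inr ⟨hz0, ⟨h1, h2⟩, h3⟩
  calc ∑ z ∈ (V ×ˢ W).filter (fun z => Dp κ X z ∧ GoodP s κ P V W z ∧
        (Thk s κ X P V z.1 ∨ Thk s κ X P W z.2)), ((z.1.gcd z.2 : ℕ) : ℝ)
      ≤ ∑ z ∈ (V ×ˢ W).filter (fun z => (Dp κ X z ∧ GoodP s κ P V W z) ∧ Thk s κ X P V z.1) ∪
        (V ×ˢ W).filter (fun z => (Dp κ X z ∧ GoodP s κ P V W z) ∧ Thk s κ X P W z.2),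
          ((z.1.gcd z.2 : ℕ) : ℝ) :=
        sum_le_sum_of_subset_of_nonneg hsub fun z _ _ => Nat.cast_nonneg _
    _ ≤ ∑ z ∈ (V ×ˢ W).filter (fun z => (Dp κ X z ∧ GoodP s κ P V W z) ∧ Thk s κ X P V z.1),
          ((z.1.gcd z.2 : ℕ) : ℝ) +
        ∑ z ∈ (V ×ˢ W).filter (fun z => (Dp κ X z ∧ GoodP s κ P V W z) ∧ Thk s κ X P W z.2),
          ((z.1.gcd z.2 : ℕ) : ℝ) := by
        rw [← sum_union_inter]
        exact le_add_of_nonneg_right (sum_nonneg fun z _ => Nat.cast_nonneg _)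
    _ ≤ 3 * C * κ * ms V + 3 * C * κ * ms W := add_le_add part1 part2
    _ = 3 * C * κ * (ms V + ms W) := by ring

end Pool.Agent.MP_0863b8.CL

end

section

/-!
MP_0863b8_nt, full answer: statement of the assembly of the systems (sections 6, 7 of `PROOF.md`,
with the windows of `K/Defs.lean`).

Proof plan (helper19): strong induction on `S.card`, for all `lev ρ δ q0`.

* `p` from `CL.ClassCL` (`s` small, `P0 := P`, `κ1` small), child systems: for a key with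
  `q = p m0`, `f = R.fac p m0`: target `q δ`, `ρ' = q f ρ`, `lev' m' = lev (f m')`, set
  `R.SY p S m0`, `q0' = q` (`R.muY p (mu ρ lev) m0 = mu ρ' lev'` as functions).  A child has fewer
  vertices (the vertex `n0` with `R.Rel p n0 m0` is not in `R.Lset p S m0`).
* `Ch m = {1} ∪ q • Ch' (m / f)`.
* `e n m`: `2 μ n` if `n = m`; `6 ene` if `dep < 1/4` and (mid depth, or exceptional pair of
  `ClassCL`, or `K.Unk`), else `0`.
-/

set_option autoImplicit false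

namespace Pool.Agent.MP_0863b8.FIN

open MeasureTheory Filter

/-- **ASM**: every dyadic system has chains of spaces, and is good with its kills. -/
def AsmStmt : Prop :=
  ∀ (C1 cs Ws L0 : ℝ) (P : ℕ), 0 < cs → cs ≤ 1/20 → 2 ^ 20 ≤ L0 → ∃ C : ℝ, 0 ≤ C ∧
    ∀ (S : Finset ℕ) (lev : ℕ → ℕ) (ρ δ : ℝ) (q0 : ℕ), 0 < ρ →
    (∀ n ∈ S, 0 < n ∧ rp n ≤ C1 ∧ CL.mu ρ lev n < 1/2) →
    (∀ n ∈ S, ∀ m ∈ S, R.Ag q0 n m) →
    ∃ Ch : ℕ → Finset ℕ, (∀ m ∈ S, 1 ∈ Ch m) ∧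
      (∀ m ∈ S, ∀ D ∈ Ch m, ∀ D' ∈ Ch m, D ∣ D' ∨ D' ∣ D) ∧
      R.OK P (1/8) 12 C δ (CL.mu ρ lev) S (K.Kc L0 cs Ws q0 δ (CL.mu ρ lev) Ch)

end Pool.Agent.MP_0863b8.FIN

end

section

/-!
MP_0863b8_nt, canonical hub theorem: the valuations of good pairs (item GoodVal).
-/

set_option autoImplicit false

namespace Pool.Agent.MP_0863b8.H
namespace NGoodVal

open NExHb

lemma mem_cell (e : ℝ) (p : ℕ) (C : Finset ℕ) (n : ℕ) (hn : n ∈ C) :
    n / p ^ (lev e p C n) ∈ cell e p (lev e p C n) C := by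
  unfold cell
  exact Finset.mem_image.mpr ⟨n, Finset.mem_filter.mpr ⟨hn, rfl⟩, rfl⟩

lemma fac_rest (e : ℝ) (q : ℕ) (C : Finset ℕ) (n p : ℕ) (hq : q.Prime) (hpq : p ≠ q) :
    (n / q ^ (lev e q C n)).factorization p = n.factorization p := by
  have hd : q ^ (lev e q C n) ∣ n :=
    (pow_dvd_pow q (lev_le e q C n)).trans (Nat.ordProj_dvd n q)
  rw [Nat.factorization_div hd, hq.factorization_pow]
  simp [Finsupp.single_apply, Ne.symm hpq]

lemma ex_fac_ne (e : ℝ) (Q P : ℕ) (C : Finset ℕ) (n p : ℕ) (hn : 0 < n)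
    (h : (P + 1).Prime ∧ Q < P + 1) (hp : p ≠ P + 1) :
    (ex e Q (P + 1) C n).factorization p =
      (ex e Q P (cell e (P + 1) (lev e (P + 1) C n) C)
        (n / (P + 1) ^ (lev e (P + 1) C n))).factorization p := by
  rw [ex_succ e Q P C n h]
  have hr := rest_pos e (P + 1) C n hn h.1
  rw [Nat.factorization_mul (pow_pos (Nat.succ_pos P) _).ne' (ex_pos e Q P _ _ hr).ne',
    h.1.factorization_pow]
  simp [Finsupp.single_apply, Ne.symm hp]

lemma ex_fac_eq (e : ℝ) (Q P : ℕ) (C : Finset ℕ) (n : ℕ) (hn : 0 < n)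
    (h : (P + 1).Prime ∧ Q < P + 1) :
    (ex e Q (P + 1) C n).factorization (P + 1) =
      n.factorization (P + 1) - lev e (P + 1) C n := by
  rw [ex_succ e Q P C n h]
  have hr := rest_pos e (P + 1) C n hn h.1
  rw [Nat.factorization_mul (pow_pos (Nat.succ_pos P) _).ne' (ex_pos e Q P _ _ hr).ne',
    h.1.factorization_pow]
  simp only [Finsupp.add_apply, Finsupp.single_apply, if_true]
  rw [ex_fac e Q P _ _ (P + 1) (Nat.lt_succ_self P)]
  rfl

open Classical in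
lemma hb_fac_ne (e : ℝ) (Q P : ℕ) (C : Finset ℕ) (n p : ℕ) (hn : 0 < n)
    (h : (P + 1).Prime ∧ Q < P + 1) (hp : p ≠ P + 1) :
    (hb e Q (P + 1) C n).factorization p =
      (hb e Q P (cell e (P + 1) (lev e (P + 1) C n) C)
        (n / (P + 1) ^ (lev e (P + 1) C n))).factorization p := by
  rw [hb_succ e Q P C n h]
  have hr := rest_pos e (P + 1) C n hn h.1
  by_cases hc : Hub e (P + 1) C ∧ n.factorization (P + 1) + 1 = top e (P + 1) C
  · rw [if_pos hc, Nat.factorization_mul (Nat.succ_ne_zero P) (hb_pos e Q P _ _ hr).ne',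
      h.1.factorization]
    simp [Finsupp.single_apply, Ne.symm hp]
  · rw [if_neg hc, one_mul]

open Classical in
lemma hb_fac_eq (e : ℝ) (Q P : ℕ) (C : Finset ℕ) (n : ℕ) (hn : 0 < n)
    (h : (P + 1).Prime ∧ Q < P + 1) :
    (hb e Q (P + 1) C n).factorization (P + 1) =
      if Hub e (P + 1) C ∧ n.factorization (P + 1) + 1 = top e (P + 1) C then 1 else 0 := by
  rw [hb_succ e Q P C n h]
  have hr := rest_pos e (P + 1) C n hn h.1
  by_cases hc : Hub e (P + 1) C ∧ n.factorization (P + 1) + 1 = top e (P + 1) C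
  · rw [if_pos hc, if_pos hc,
      Nat.factorization_mul (Nat.succ_ne_zero P) (hb_pos e Q P _ _ hr).ne',
      h.1.factorization]
    simp only [Finsupp.add_apply, Finsupp.single_apply, if_true]
    rw [hb_fac e Q P _ _ (P + 1) (Nat.lt_succ_self P)]
  · rw [if_neg hc, if_neg hc, one_mul]
    exact hb_fac e Q P _ _ (P + 1) (Nat.lt_succ_self P)

lemma dvd_of_fac {p x : ℕ} (hx : 0 < x) (hp : p.Prime) : p ∣ x ↔ x.factorization p ≠ 0 := by
  constructor
  · intro h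
    have := (hp.dvd_iff_one_le_factorization hx.ne').mp h
    omega
  · intro h
    exact (hp.dvd_iff_one_le_factorization hx.ne').mpr (by omega)

/-- the arithmetic of the good pairs of valuations -/
lemma gv_arith (H K : Prop) [Decidable H] [Decidable K] (f g a b : ℕ) (h : gv H K f g a b) :
    a - b = (a - min a f) + (if K ∧ b + 1 = g then 1 else 0) ∧
    b - a = (b - min b g) + (if H ∧ a + 1 = f then 1 else 0) ∧
    ((K ∧ b + 1 = g) → a = b + 1) ∧ ((H ∧ a + 1 = f) → b = a + 1) := by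
  unfold gv at h
  rcases h with ⟨h1, h2, h3, h4, h5⟩ | ⟨h1, h2⟩ | ⟨h1, h2, h3, h4⟩
  · have n1 : ¬ (K ∧ b + 1 = g) := fun hh => h5 ⟨hh.1, by omega⟩
    have n2 : ¬ (H ∧ a + 1 = f) := fun hh => h4 ⟨hh.1, by omega⟩
    rw [if_neg n1, if_neg n2]
    exact ⟨by omega, by omega, fun hh => absurd hh n1, fun hh => absurd hh n2⟩
  · have n1 : ¬ (K ∧ b + 1 = g) := fun hh => by omega
    have n2 : ¬ (H ∧ a + 1 = f) := fun hh => by omega
    rw [if_neg n1, if_neg n2]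
    exact ⟨by omega, by omega, fun hh => absurd hh n1, fun hh => absurd hh n2⟩
  · simp only [h1, h2, true_and]
    refine ⟨?_, ?_, ?_, ?_⟩
    · split_ifs <;> omega
    · split_ifs <;> omega
    · intro hh
      omega
    · intro hh
      omega

lemma main (e : ℝ) (Q P : ℕ) : ∀ (V W : Finset ℕ) (n m : ℕ), 0 < n → 0 < m → n ∈ V → m ∈ W →
    Good e Q P V W n m → ∀ p : ℕ, p.Prime → Q < p → p ≤ P →
    n.factorization p - m.factorization p =
      (ex e Q P V n).factorization p + (hb e Q P W m).factorization p ∧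
    m.factorization p - n.factorization p =
      (ex e Q P W m).factorization p + (hb e Q P V n).factorization p ∧
    (hb e Q P V n).factorization p ≤ 1 ∧
    (p ∣ hb e Q P W m → n.factorization p = m.factorization p + 1) ∧
    (p ∣ hb e Q P V n → m.factorization p = n.factorization p + 1) := by
  classical
  induction P with
  | zero =>
    intro V W n m _ _ _ _ _ p hp _ h0
    have := hp.pos
    omega
  | succ P ih =>
    intro V W n m hn hm hV hW hG p hp hQ hle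
    by_cases h : (P + 1).Prime ∧ Q < P + 1
    · rw [Good, if_pos h] at hG
      obtain ⟨hg, hG⟩ := hG
      have hrn := rest_pos e (P + 1) V n hn h.1
      have hrm := rest_pos e (P + 1) W m hm h.1
      by_cases hpq : p = P + 1
      · subst hpq
        have h1 := gv_arith _ _ _ _ _ _ hg
        have hbn := hb_pos e Q (P + 1) V n hn
        have hbm := hb_pos e Q (P + 1) W m hm
        rw [dvd_of_fac hbn hp, dvd_of_fac hbm hp,
          ex_fac_eq e Q P V n hn h, ex_fac_eq e Q P W m hm h,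
          hb_fac_eq e Q P V n hn h, hb_fac_eq e Q P W m hm h]
        unfold lev
        obtain ⟨h1, h2, h3, h4⟩ := h1
        refine ⟨h1, h2, ?_, ?_, ?_⟩
        · split_ifs <;> omega
        · intro hh
          apply h3
          by_contra hc
          rw [if_neg hc] at hh
          exact hh rfl
        · intro hh
          apply h4
          by_contra hc
          rw [if_neg hc] at hh
          exact hh rfl
      · have h2 := ih _ _ _ _ hrn hrm (mem_cell e (P + 1) V n hV) (mem_cell e (P + 1) W m hW)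
          hG p hp hQ (by omega)
        have hbn := hb_pos e Q (P + 1) V n hn
        have hbm := hb_pos e Q (P + 1) W m hm
        have hbn' := hb_pos e Q P (cell e (P + 1) (lev e (P + 1) V n) V) _ hrn
        have hbm' := hb_pos e Q P (cell e (P + 1) (lev e (P + 1) W m) W) _ hrm
        rw [dvd_of_fac hbn' hp, dvd_of_fac hbm' hp, fac_rest e (P + 1) V n p h.1 hpq,
          fac_rest e (P + 1) W m p h.1 hpq] at h2
        rw [dvd_of_fac hbn hp, dvd_of_fac hbm hp, ex_fac_ne e Q P V n p hn h hpq,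
          ex_fac_ne e Q P W m p hm h hpq, hb_fac_ne e Q P V n p hn h hpq,
          hb_fac_ne e Q P W m p hm h hpq]
        exact h2
    · rw [Good, if_neg h] at hG
      have hpP : p ≤ P := by
        by_contra hc
        have : p = P + 1 := by omega
        subst this
        exact h ⟨hp, hQ⟩
      have h2 := ih V W n m hn hm hV hW hG p hp hQ hpP
      rw [ex_succ_neg e Q P V n h, ex_succ_neg e Q P W m h, hb_succ_neg e Q P V n h,
        hb_succ_neg e Q P W m h]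
      exact h2

end NGoodVal

theorem pr_GoodVal : GoodVal := by
  intro e Q P V W n m hn hm hV hW hG p hp hQ hle
  exact NGoodVal.main e Q P V W n m hn hm hV hW hG p hp hQ hle

end Pool.Agent.MP_0863b8.H

end

section

/-!
MP_0863b8_nt, RECURSION block: the theorem.
-/

set_option autoImplicit false

namespace Pool.Agent.MP_0863b8.R

open MeasureTheory Classical

theorem claim_of_OK (hPS : PSStmt) (hBud : BudStmt) (hNum : NumStmt)
    {P : ℕ} (hP : 0 < P) {c Cr C1 α0 κ K1 η : ℝ} (hc0 : 0 ≤ c) (hc1 : c < 1 / 2)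
    (hCr : 0 ≤ Cr) (hC1 : 0 ≤ C1) (hκ : 0 < κ) (hα0 : Real.sqrt C1 ≤ α0) (hK1 : 1 ≤ K1)
    (hη0 : 0 ≤ η) (hη : 4 * (Real.exp (2 * κ / P) / (2 * κ)) ≤ η ^ 2)
    (hK2 : K1 ^ c * η ≤ 1 / 20) (hK3 : K1 ^ (c - 1 / 2) ≤ 1 / 20)
    (δ : ℝ) (μ : ℕ → ℝ) (S : Finset ℕ) (K : ℕ → ℕ → ℤ → Prop)
    (h : OK P c Cr C1 δ μ S K) : Claim P c Cr C1 α0 κ δ μ S K := by
  induction h with
  | mk δ μ S K p e K' hS hK hp he hsum hpair hmu hK' hsub IH =>
    intro q b hb hag hbd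
    have hN : Nd P S q b S := ⟨fun _ h => h, hag, fun _ _ m hm _ => hm, hbd⟩
    have h1 := node_step hPS hBud hNum hP hc0 hc1 hCr hκ hα0 hK1 hη0 hη hK2 hK3 δ μ S K p e K'
      hS hK hp he hpair hmu hK' IH S.card S q b le_rfl hb hN
    refine h1.trans ?_
    have hM : 0 ≤ mass μ S := mass_nonneg' fun n hn => (hS n hn).2.1.le
    have h2 : Real.sqrt (∑ n ∈ S, ∑ m ∈ S, e n m) ≤
        Real.sqrt C1 * (1 + mass μ S) ^ c * Real.sqrt (mass μ S) := by
      calc Real.sqrt (∑ n ∈ S, ∑ m ∈ S, e n m)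
          ≤ Real.sqrt (C1 * (1 + mass μ S) ^ (2 * c) * mass μ S) := Real.sqrt_le_sqrt hsum
        _ = Real.sqrt C1 * (1 + mass μ S) ^ c * Real.sqrt (mass μ S) := by
            rw [Real.sqrt_mul (by positivity), Real.sqrt_mul hC1]
            congr 2
            rw [mul_comm 2 c, Real.rpow_mul (by linarith)]
            rw [Real.sqrt_eq_iff_mul_self_eq (by positivity) (by positivity)]
            rw [Real.rpow_two, pow_two]
    linarith [h2]

theorem rec_stmt (hPS : PSStmt) (hBud : BudStmt) (hNum : NumStmt) : RecStmt := by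
  intro c hc0 hc1
  -- constants
  set K1 : ℝ := (20:ℝ) ^ (1 / (1 / 2 - c)) with hK1
  have hd : 0 < 1 / 2 - c := by linarith
  have hK11 : 1 ≤ K1 := Real.one_le_rpow (by norm_num) (by positivity)
  have hK10 : 0 < K1 := by linarith
  have hK3 : K1 ^ (c - 1 / 2) ≤ 1 / 20 := by
    rw [hK1, ← Real.rpow_mul (by norm_num)]
    have : 1 / (1 / 2 - c) * (c - 1 / 2) = -1 := by
      rw [show c - 1 / 2 = -(1 / 2 - c) by ring, mul_neg, one_div_mul_cancel hd.ne']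
    rw [this, Real.rpow_neg_one]
    norm_num
  set A : ℝ := K1 ^ c with hA
  have hA0 : 0 < A := Real.rpow_pos_of_pos hK10 _
  set η : ℝ := 1 / (20 * A) with hη
  have hη0 : 0 < η := by positivity
  have hK2 : K1 ^ c * η ≤ 1 / 20 := by
    rw [← hA, hη]
    apply le_of_eq
    field_simp
  set κ : ℝ := 16 / η ^ 2 with hκ
  have hκ0 : 0 < κ := by positivity
  obtain ⟨P0, hP0⟩ := exists_nat_gt κ
  refine ⟨P0, ?_⟩
  intro P hPP Cr C1 B hCr hC1 hB
  have hPκ : κ ≤ (P:ℝ) := hP0.le.trans (by exact_mod_cast hPP)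
  have hPpos : (0:ℝ) < P := lt_of_lt_of_le hκ0 hPκ
  have hPn : 0 < P := by exact_mod_cast hPpos
  have hη2 : 4 * (Real.exp (2 * κ / P) / (2 * κ)) ≤ η ^ 2 := by
    have h1 : 2 * κ / P ≤ 2 := by
      rw [div_le_iff₀ hPpos]
      linarith
    have h2 : Real.exp (2 * κ / P) ≤ 8 := by
      calc Real.exp (2 * κ / P) ≤ Real.exp 2 := Real.exp_le_exp.2 h1
        _ = Real.exp 1 ^ 2 := by rw [← Real.exp_nat_mul]; norm_num
        _ ≤ 2.7182818286 ^ 2 := pow_le_pow_left₀ (Real.exp_pos _).le Real.exp_one_lt_d9.le 2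
        _ ≤ 8 := by norm_num
    calc 4 * (Real.exp (2 * κ / P) / (2 * κ)) ≤ 4 * (8 / (2 * κ)) := by
          apply mul_le_mul_of_nonneg_left _ (by norm_num)
          apply div_le_div_of_nonneg_right h2 (by positivity)
      _ = η ^ 2 := by
          have h3 : κ * η ^ 2 = 16 := by
            rw [hκ, div_mul_cancel₀ _ (by positivity)]
          have h4 : κ ≠ 0 := hκ0.ne'
          have h5 : 4 * (8 / (2 * κ)) = 16 / κ := by
            rw [mul_div_assoc', show (4:ℝ) * 8 = 2 * 16 by norm_num, mul_div_mul_left _ _ two_ne_zero]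
          rw [h5, div_eq_iff h4]
          linarith
  set α0 : ℝ := Real.sqrt C1 with hα0
  have hα00 : 0 ≤ α0 := Real.sqrt_nonneg _
  set D : ℝ := α0 * Real.exp (κ * B) + Real.sqrt C1 with hD
  have hD0 : 0 ≤ D := by positivity
  refine ⟨2 * Cr + 2 * D ^ 2 + 1, by positivity, ?_⟩
  intro δ μ S K hOK hbud q hag
  have hμ : ∀ n ∈ S, 0 ≤ μ n := by
    cases hOK with
    | mk _ _ _ _ p e K' hS => exact fun n hn => (hS n hn).2.1.le
  have hM : 0 ≤ mass μ S := mass_nonneg' hμ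
  have hcl := claim_of_OK hPS hBud hNum hPn hc0 hc1 hCr hC1 hκ0 le_rfl hK11 hη0.le hη2 hK2 hK3
    δ μ S K hOK q B hB hag (by
      intro n hn
      refine le_trans ?_ (hbud n hn)
      unfold bdg
      apply Finset.sum_le_sum_of_subset_of_nonneg
      · intro r hr
        rw [Finset.mem_filter] at hr ⊢
        exact ⟨hr.1, hr.2.1⟩
      · intro _ _ _
        positivity)
  rw [← hα0] at hcl
  set M : ℝ := mass μ S with hMdef
  set ps : ℝ := (1 + M) ^ c with hps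
  have hps0 : 0 ≤ ps := Real.rpow_nonneg (by linarith) _
  have hps2 : ps ^ 2 = (1 + M) ^ (2 * c) := by
    rw [hps, mul_comm 2 c, Real.rpow_mul (by linarith), Real.rpow_two]
  have hE : En δ μ K q S ≤ (Real.sqrt Cr * M + D * ps * Real.sqrt M) ^ 2 := by
    rw [Real.sqrt_le_iff] at hcl
    exact hcl.2
  have hsC : Real.sqrt Cr ^ 2 = Cr := Real.sq_sqrt hCr
  have hsM : Real.sqrt M ^ 2 = M := Real.sq_sqrt hM
  have h2 : (Real.sqrt Cr * M + D * ps * Real.sqrt M) ^ 2 ≤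
      2 * (Real.sqrt Cr * M) ^ 2 + 2 * (D * ps * Real.sqrt M) ^ 2 := by
    nlinarith [sq_nonneg (Real.sqrt Cr * M - D * ps * Real.sqrt M)]
  have h3 : 2 * (Real.sqrt Cr * M) ^ 2 + 2 * (D * ps * Real.sqrt M) ^ 2 =
      2 * Cr * M ^ 2 + 2 * D ^ 2 * ((1 + M) ^ (2 * c) * M) := by
    rw [mul_pow, mul_pow, mul_pow, hsC, hsM, hps2]
    ring
  have h4 : 0 ≤ (1 + M) ^ (2 * c) * M := by positivity
  have h5 : 0 ≤ M ^ 2 := sq_nonneg M
  have h6 : 0 ≤ D ^ 2 := sq_nonneg D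
  have h7 := mul_nonneg h6 h5
  have h8 := mul_nonneg hCr h4
  have h9 : (2 * Cr + 2 * D ^ 2 + 1) * (M ^ 2 + (1 + M) ^ (2 * c) * M) =
      2 * Cr * M ^ 2 + 2 * D ^ 2 * ((1 + M) ^ (2 * c) * M) + 2 * (Cr * ((1 + M) ^ (2 * c) * M))
      + 2 * (D ^ 2 * M ^ 2) + M ^ 2 + (1 + M) ^ (2 * c) * M := by ring
  rw [h9]
  linarith

end Pool.Agent.MP_0863b8.R

end

section

/-!
MP_0863b8_nt, CASE II: Theorem II.
-/

set_option autoImplicit false

namespace Pool.Agent.MP_0863b8.C2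

open Pool.Agent.MP_0863b8 F G Filter Topology

/-- dyadic consequences of `Rem` -/
theorem rem_log (x : ℝ) (A A' : ℕ) (hx : 100 ≤ x)
    (r1 : Real.exp 1 * A ≤ Real.exp (x / 50) * A')
    (r3 : Real.exp 1 * Real.exp (0.98 * x) ≤ A) (r4 : Real.exp 1 * Real.exp (0.98 * x) ≤ A') :
    (A : ℝ) < 2 * 2 ^ (Nat.log 2 A) ∧ Real.exp (0.98 * x) ≤ 2 ^ (Nat.log 2 A) ∧
    (2 : ℝ) ^ (Nat.log 2 A) ≤ Real.exp (x / 50) * 2 ^ (Nat.log 2 A') ∧
    Nat.log 2 A ≤ Nat.log 2 A' + ⌈x⌉₊ ∧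
    (A : ℝ) ≤ ((2 : ℝ) ^ (Nat.log 2 A')) ^ 2 := by
  have he : (2 : ℝ) < Real.exp 1 := by
    have := Real.exp_one_gt_d9; linarith
  have hA0 : 0 < A := by
    have : (0 : ℝ) < A := lt_of_lt_of_le (by positivity) r3
    exact_mod_cast this
  have hA0' : 0 < A' := by
    have : (0 : ℝ) < A' := lt_of_lt_of_le (by positivity) r4
    exact_mod_cast this
  have h1 : (A : ℝ) < 2 * 2 ^ (Nat.log 2 A) := by
    have := Nat.lt_pow_succ_log_self (b := 2) (by norm_num) A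
    have h2 : (A : ℝ) < 2 ^ (Nat.log 2 A).succ := by exact_mod_cast this
    rw [pow_succ] at h2
    linarith
  have h1' : (A' : ℝ) < 2 * 2 ^ (Nat.log 2 A') := by
    have := Nat.lt_pow_succ_log_self (b := 2) (by norm_num) A'
    have h2 : (A' : ℝ) < 2 ^ (Nat.log 2 A').succ := by exact_mod_cast this
    rw [pow_succ] at h2
    linarith
  have h2 : (2 : ℝ) ^ (Nat.log 2 A) ≤ A := by
    exact_mod_cast Nat.pow_log_le_self 2 hA0.ne'
  have hE : 0 < Real.exp (0.98 * x) := Real.exp_pos _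
  have h3 : Real.exp (0.98 * x) ≤ 2 ^ (Nat.log 2 A) := by nlinarith
  have h3' : Real.exp (0.98 * x) ≤ 2 ^ (Nat.log 2 A') := by nlinarith
  have hE5 : 0 < Real.exp (x / 50) := Real.exp_pos _
  have hA1 : (A : ℝ) ≤ Real.exp (x / 50) * 2 ^ (Nat.log 2 A') := by
    have h5 : Real.exp (x / 50) * A' ≤ Real.exp (x / 50) * (2 * 2 ^ (Nat.log 2 A')) := by
      gcongr
    have h6 : (0 : ℝ) ≤ A := Nat.cast_nonneg _
    nlinarith
  have h4 : (2 : ℝ) ^ (Nat.log 2 A) ≤ Real.exp (x / 50) * 2 ^ (Nat.log 2 A') := h2.trans hA1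
  refine ⟨h1, h3, h4, ?_, ?_⟩
  · have h5 : Real.exp (x / 50) ≤ 2 ^ ⌈x⌉₊ := by
      have h6 : Real.exp (x / 50) ≤ (2 : ℝ) ^ x := by
        rw [Real.rpow_def_of_pos (by norm_num), Real.exp_le_exp]
        have := Real.log_two_gt_d9
        nlinarith
      refine h6.trans ?_
      rw [← Real.rpow_natCast]
      exact Real.rpow_le_rpow_of_exponent_le (by norm_num) (Nat.le_ceil x)
    have h7 : (2 : ℝ) ^ (Nat.log 2 A) ≤ 2 ^ (Nat.log 2 A' + ⌈x⌉₊) := by
      rw [pow_add, mul_comm]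
      exact h4.trans (mul_le_mul_of_nonneg_right h5 (by positivity))
    have h8 : 2 ^ (Nat.log 2 A) ≤ 2 ^ (Nat.log 2 A' + ⌈x⌉₊) := by exact_mod_cast h7
    exact (Nat.pow_le_pow_iff_right (by norm_num)).1 h8
  · rw [sq]
    refine hA1.trans (mul_le_mul_of_nonneg_right (le_trans ?_ h3') (by positivity))
    exact Real.exp_le_exp.2 (by linarith)

/-- numeric inequality of Step 3 -/
theorem num3 (x B : ℝ) (hx : 100 ≤ x) (hB : Real.exp (0.98 * x) ≤ B) :
    Real.exp (0.03 * x) * B ^ (-(1 / 31) : ℝ) ≤ Real.exp (-0.001 * x) := by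
  have h1 : B ^ (-(1 / 31) : ℝ) ≤ (Real.exp (0.98 * x)) ^ (-(1 / 31) : ℝ) :=
    Real.rpow_le_rpow_of_nonpos (Real.exp_pos _) hB (by norm_num)
  rw [← Real.exp_mul] at h1
  calc Real.exp (0.03 * x) * B ^ (-(1 / 31) : ℝ)
      ≤ Real.exp (0.03 * x) * Real.exp (0.98 * x * (-(1 / 31))) := by gcongr
    _ = Real.exp (0.03 * x + 0.98 * x * (-(1 / 31))) := (Real.exp_add _ _).symm
    _ ≤ Real.exp (-0.001 * x) := Real.exp_le_exp.2 (by linarith)

open Classical in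
/-- the sets of the negligible special numbers dividing `n` -/
noncomputable def badS (θ κ c4 : ℝ) (n A : ℕ) : Finset ℕ :=
  n.divisors.filter (fun a => 0 < a ∧ BadA θ κ c4 (Nat.log 2 A) a ∧
    ∀ p : ℕ, p.Prime → p ∣ a → (p : ℝ) ≤ ((2 : ℝ) ^ (Nat.log 2 A)) ^ 2)

/-- pointwise inequality of Step 3 -/
theorem pt3 (x Y θ κ c4 : ℝ) (n A h i0 : ℕ)
    (hi0 : ∀ i : ℕ, i0 ≤ i → ∀ (θ κ c4 : ℝ) (S : Finset ℕ),
      (∀ a ∈ S, 0 < a ∧ BadA θ κ c4 i a ∧
        ∀ p : ℕ, p.Prime → p ∣ a → (p : ℝ) ≤ ((2 : ℝ) ^ i) ^ 2) →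
      ∑ a ∈ S, (1 : ℝ) / a ≤ ((2 : ℝ) ^ i) ^ (-(1 / 31) : ℝ))
    (hx : 100 ≤ x) (hxi : (i0 : ℝ) ≤ x) (hA0 : 0 < A) (hh0 : 0 < h)
    (hA : Real.exp (0.98 * x) ≤ 2 ^ (Nat.log 2 A))
    (hY : Y ≤ Real.exp (0.03 * x) * h * A * n) :
    3 * Y / (h * A) * ∑ a ∈ badS θ κ c4 n A, (1 : ℝ) / a ≤ 3 * Real.exp (-0.001 * x) * n := by
  have hi : i0 ≤ Nat.log 2 A := by
    have h1 : (2 : ℝ) ^ i0 ≤ 2 ^ (Nat.log 2 A) := by
      refine le_trans ?_ hA
      rw [← Real.rpow_natCast, Real.rpow_def_of_pos (by norm_num), Real.exp_le_exp]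
      have := Real.log_two_lt_d9
      have h2 := Real.log_two_gt_d9
      have h3 : (0 : ℝ) ≤ i0 := Nat.cast_nonneg _
      nlinarith
    have h2 : 2 ^ i0 ≤ 2 ^ (Nat.log 2 A) := by exact_mod_cast h1
    exact (Nat.pow_le_pow_iff_right (by norm_num)).1 h2
  have hs := hi0 (Nat.log 2 A) hi θ κ c4 (badS θ κ c4 n A) (by
    intro a ha
    simp only [badS, Finset.mem_filter] at ha
    exact ha.2)
  have hs0 : 0 ≤ ∑ a ∈ badS θ κ c4 n A, (1 : ℝ) / a :=
    Finset.sum_nonneg (fun _ _ => by positivity)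
  have hA0' : (0 : ℝ) < A := by exact_mod_cast hA0
  have hh0' : (0 : ℝ) < h := by exact_mod_cast hh0
  have h1 : 3 * Y / (h * A) ≤ 3 * (Real.exp (0.03 * x) * n) := by
    rw [div_le_iff₀ (by positivity)]
    nlinarith
  have h2 := num3 x _ hx hA
  calc 3 * Y / (h * A) * ∑ a ∈ badS θ κ c4 n A, (1 : ℝ) / a
      ≤ 3 * (Real.exp (0.03 * x) * n) * ((2 : ℝ) ^ (Nat.log 2 A)) ^ (-(1 / 31) : ℝ) := by
        apply mul_le_mul h1 hs hs0 (by positivity)
    _ = 3 * (Real.exp (0.03 * x) * ((2 : ℝ) ^ (Nat.log 2 A)) ^ (-(1 / 31) : ℝ)) * n := by ring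
    _ ≤ 3 * Real.exp (-0.001 * x) * n := by gcongr

/-- pointwise inequality of Step 1 -/
theorem pt1 (Y κ c3 C1 : ℝ) (n A h : ℕ) (hκ : 0 < κ) (hn : 0 < n) (hrp : rp n ≤ C1)
    (hA0 : 0 < A) (hh0 : 0 < h) (hY : Y < κ ^ c3 * A * h * n) :
    3 * Y / (h * A) * ∑ a ∈ n.divisors, (1 : ℝ) / a ≤ 3 * Real.exp (2 * C1) * κ ^ c3 * n := by
  have hs := divs n hn C1 hrp
  have hs0 : 0 ≤ ∑ a ∈ n.divisors, (1 : ℝ) / a := Finset.sum_nonneg (fun _ _ => by positivity)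
  have hA0' : (0 : ℝ) < A := by exact_mod_cast hA0
  have hh0' : (0 : ℝ) < h := by exact_mod_cast hh0
  have h1 : 3 * Y / (h * A) ≤ 3 * (κ ^ c3 * n) := by
    rw [div_le_iff₀ (by positivity)]
    nlinarith
  calc 3 * Y / (h * A) * ∑ a ∈ n.divisors, (1 : ℝ) / a
      ≤ 3 * (κ ^ c3 * n) * Real.exp (2 * C1) := mul_le_mul h1 hs hs0 (by positivity)
    _ = _ := by ring

/-- basic arithmetic of an edge -/
theorem conf_arith (θ κ X r Q Ast C1 cm : ℝ) (N M : Finset ℕ) (A h A' h' : ℕ → ℕ)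
    (G : Finset (ℕ × ℕ)) (hc : Conf θ κ X r Q Ast C1 cm N M A h A' h' G) (z : ℕ × ℕ)
    (hz : z ∈ G) :
    A z.1 ∣ cu z ∧ h z.1 ∣ cv z ∧ A' z.2 ∣ cv z ∧ h' z.2 ∣ cu z ∧
    cu z = cu z / A z.1 * A z.1 ∧ cv z = cv z / A' z.2 * A' z.2 ∧
    (cu z / A z.1).gcd (cv z / A' z.2) = 1 ∧ 0 < cu z / A z.1 ∧ 0 < cv z / A' z.2 ∧
    cu z / A z.1 ∈ (z.1).divisors ∧ cv z / A' z.2 ∈ (z.2).divisors ∧
    cu z / A z.1 ∣ cu z ∧ cv z / A' z.2 ∣ cv z := by
  obtain ⟨hzN, hzM⟩ := hc.hG z hz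
  obtain ⟨hn0, _, hA0, hh0, _⟩ := hc.hN _ hzN
  obtain ⟨hm0, _, hA0', hh0', _⟩ := hc.hM _ hzM
  obtain ⟨su, sv, hu, hv, hpr⟩ := hc.I3 z hz
  have hg : 0 < z.1.gcd z.2 := Nat.gcd_pos_of_pos_left _ hn0
  have hcu0 : 0 < cu z := Nat.div_pos (Nat.le_of_dvd hn0 (Nat.gcd_dvd_left _ _)) hg
  have hcv0 : 0 < cv z := Nat.div_pos (Nat.le_of_dvd hm0 (Nat.gcd_dvd_right _ _)) hg
  have d1 : A z.1 ∣ cu z := ⟨su * h' z.2, by rw [hu]; ring⟩
  have d2 : h z.1 ∣ cv z := ⟨sv * A' z.2, by rw [hv]; ring⟩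
  have d3 : A' z.2 ∣ cv z := ⟨sv * h z.1, by rw [hv]; ring⟩
  have d4 : h' z.2 ∣ cu z := ⟨su * A z.1, by rw [hu]; ring⟩
  have e1 : cu z / A z.1 ∣ cu z := Nat.div_dvd_of_dvd d1
  have e2 : cv z / A' z.2 ∣ cv z := Nat.div_dvd_of_dvd d3
  have hcop : (cu z).gcd (cv z) = 1 := Nat.coprime_div_gcd_div_gcd hg
  refine ⟨d1, d2, d3, d4, (Nat.div_mul_cancel d1).symm, (Nat.div_mul_cancel d3).symm, ?_, ?_, ?_,
    ?_, ?_, e1, e2⟩
  · exact Nat.Coprime.of_dvd e1 e2 hcop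
  · exact Nat.div_pos (Nat.le_of_dvd hcu0 d1) hA0
  · exact Nat.div_pos (Nat.le_of_dvd hcv0 d3) hA0'
  · rw [Nat.mem_divisors]
    exact ⟨e1.trans (Nat.div_dvd_of_dvd (Nat.gcd_dvd_left _ _)), hn0.ne'⟩
  · rw [Nat.mem_divisors]
    exact ⟨e2.trans (Nat.div_dvd_of_dvd (Nat.gcd_dvd_right _ _)), hm0.ne'⟩

end Pool.Agent.MP_0863b8.C2

end

section

/-!
MP_0863b8_nt, full answer: the kept sets of one block, from `AsmStmt`, the recursion theorem, and the
density of the kept sets.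
-/

set_option autoImplicit false

namespace Pool.Agent.MP_0863b8.FIN

open MeasureTheory Filter

theorem one_sub_ge_exp {x : ℝ} (h0 : 0 ≤ x) (h1 : x ≤ 1 / 2) : Real.exp (-(2 * x)) ≤ 1 - x := by
  have h2 : Real.exp (2 * x) * (1 - x) ≥ 1 := by
    have h3 : 1 + 2 * x ≤ Real.exp (2 * x) := by
      have := Real.add_one_le_exp (2 * x)
      linarith
    have h4 : (1 + 2 * x) * (1 - x) ≤ Real.exp (2 * x) * (1 - x) :=
      mul_le_mul_of_nonneg_right h3 (by linarith)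
    nlinarith
  rw [Real.exp_neg]
  rw [inv_le_iff_one_le_mul₀ (Real.exp_pos _)]
  linarith

/-- the totient quotient in terms of `rp` -/
theorem totient_ge (n : ℕ) (C1 : ℝ) (hn : 0 < n) (h : rp n ≤ C1) :
    Real.exp (-(2 * C1)) ≤ (Nat.totient n : ℝ) / n := by
  have h1 : (Nat.totient n : ℝ) = n * ∏ p ∈ n.primeFactors, (1 - ((p : ℝ))⁻¹) := by
    have := Nat.totient_eq_mul_prod_factors n
    have h2 : ((Nat.totient n : ℚ) : ℝ) = ((n * ∏ p ∈ n.primeFactors, (1 - (p : ℚ)⁻¹) : ℚ) : ℝ) := by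
      rw [this]
    push_cast at h2
    exact h2
  have hn' : (0 : ℝ) < n := by exact_mod_cast hn
  rw [h1, mul_div_cancel_left₀ _ hn'.ne']
  calc Real.exp (-(2 * C1)) ≤ Real.exp (-(2 * rp n)) := by
        apply Real.exp_le_exp.mpr
        linarith
    _ = ∏ p ∈ n.primeFactors, Real.exp (-(2 * (1 / (p : ℝ)))) := by
        rw [← Real.exp_sum]
        congr 1
        unfold rp
        rw [Finset.mul_sum, Finset.sum_neg_distrib]
    _ ≤ ∏ p ∈ n.primeFactors, (1 - ((p : ℝ))⁻¹) := by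
        apply Finset.prod_le_prod
        · intro p _
          positivity
        · intro p hp
          have hp2 : 2 ≤ p := (Nat.prime_of_mem_primeFactors hp).two_le
          have hp2' : (2 : ℝ) ≤ p := by exact_mod_cast hp2
          rw [← one_div]
          apply one_sub_ge_exp (by positivity)
          rw [div_le_div_iff₀ (by linarith) (by norm_num)]
          linarith

theorem mu_eq (lev : ℕ → ℕ) : CL.mu 1 lev = mu lev := by
  funext n
  unfold CL.mu CL.rad mu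
  rw [one_div, one_div, inv_pow]

/-- two numbers agree at all primes above all elements of the set -/
theorem ag_sup (S : Finset ℕ) (hS : ∀ n ∈ S, 0 < n) :
    ∀ n ∈ S, ∀ m ∈ S, R.Ag (S.sup id + 1) n m := by
  intro n hn m hm r _ hr
  have h : ∀ k ∈ S, k.factorization r = 0 := by
    intro k hk
    apply Nat.factorization_eq_zero_of_not_dvd
    intro hd
    have h1 : r ≤ k := Nat.le_of_dvd (hS k hk) hd
    have h2 : k ≤ S.sup id := Finset.le_sup (f := id) hk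
    omega
  rw [h n hn, h m hm]

/-- **The kept sets.** -/
theorem kept (hA : AsmStmt) (hR : R.RecStmt) (hM : K.MultK) (hF : K.FirstK) : KeptStmt := by
  classical
  intro C1
  obtain ⟨L00, c1, hL00, hc1, hFk⟩ := hF (Real.exp (-(2 * C1))) (Real.exp_pos _)
  obtain ⟨Ws, hMk⟩ := hM (1 / 20) (by norm_num) le_rfl
  have hMk' := hMk Ws le_rfl
  obtain ⟨P, hPk⟩ := hR (1 / 8) (by norm_num) (by norm_num)
  set L0 : ℝ := max L00 (2 ^ 20) with hL0
  obtain ⟨Ca, hCa, hAk⟩ := hA C1 (1 / 20) Ws L0 P (by norm_num) le_rfl (le_max_right _ _)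
  set Bd : ℝ := max C1 0 with hBd
  obtain ⟨C, hC, hCk⟩ := hPk P le_rfl 12 Ca Bd (by norm_num) hCa (le_max_right _ _)
  choose n0 hn0 using hFk
  refine ⟨C * (2 ^ 2 + (1 + 2) ^ (2 * (1/8 : ℝ)) * 2), c1,
    fun a b => if h : 0 ≤ a ∧ a < b ∧ b ≤ 1 then n0 a b h.1 h.2.1 h.2.2 else 0,
    by positivity, hc1, ?_⟩
  intro δ S lev hS hsum
  have hpos : ∀ n ∈ S, 0 < mu lev n := by
    intro n hn
    have : (0 : ℝ) < n := by exact_mod_cast (hS n hn).1
    unfold mu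
    positivity
  have hag := ag_sup S (fun n hn => (hS n hn).1)
  obtain ⟨Ch, hCh1, hCh2, hOK⟩ := hAk S lev 1 δ (S.sup id + 1) one_pos
    (by
      intro n hn
      refine ⟨(hS n hn).1, (hS n hn).2.1, ?_⟩
      rw [mu_eq]
      linarith [(hS n hn).2.2]) hag
  rw [mu_eq] at hOK
  set Kl := K.Kc L0 (1 / 20) Ws (S.sup id + 1) δ (mu lev) Ch with hKl
  refine ⟨fun n => R.Bs δ (mu lev) Kl (S.sup id + 1) n, ?_, ?_, ?_⟩
  · intro n _
    refine ⟨(R.ItP2.isOpen_Bs _ _ _ _ _).measurableSet, ?_⟩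
    intro t ht
    obtain ⟨k, hk, _⟩ := ht
    refine lt_of_le_of_lt ?_ hk
    exact round_le _ _
  · have h1 := hCk δ (mu lev) S Kl hOK
      (by
        intro n hn
        refine le_trans ?_ (le_trans (hS n hn).2.1 (le_max_left _ _))
        unfold rp
        apply Finset.sum_le_sum_of_subset_of_nonneg (Finset.filter_subset _ _)
        intro p _ _
        positivity) (S.sup id + 1) hag
    have hm : R.mass (mu lev) S ≤ 2 := by
      unfold R.mass
      rw [← Finset.mul_sum]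
      linarith
    have hm0 : 0 ≤ R.mass (mu lev) S := by
      unfold R.mass
      exact Finset.sum_nonneg (fun n hn => by linarith [hpos n hn])
    refine le_trans h1 ?_
    apply mul_le_mul_of_nonneg_left _ hC.le
    apply add_le_add
    · exact pow_le_pow_left₀ hm0 hm 2
    · apply mul_le_mul _ hm hm0 (by positivity)
      exact Real.rpow_le_rpow (by linarith) (by linarith) (by norm_num)
  · intro a b ha hab hb n hn hnn
    have hnn' : n0 a b ha hab hb ≤ n := by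
      have h3 : (if h : 0 ≤ a ∧ a < b ∧ b ≤ 1 then n0 a b h.1 h.2.1 h.2.2 else 0) ≤ n := hnn
      have h4 : 0 ≤ a ∧ a < b ∧ b ≤ 1 := ⟨ha, hab, hb⟩
      rw [dif_pos h4] at h3
      exact h3
    have h1 := hn0 a b ha hab hb n hnn' (totient_ge n C1 (hS n hn).1 (hS n hn).2.1) L0 δ (mu lev) Kl
      (S.sup id + 1) (le_max_left _ _) (hpos n hn) (by linarith [(hS n hn).2.2])
      (by
        intro v
        obtain ⟨A, hA1, hA2⟩ := hMk' L0 δ (S.sup id + 1) (mu lev) Ch n (hS n hn).1 (hpos n hn)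
          (hCh2 n hn) v
        refine ⟨A, hA1, ?_⟩
        intro r hr
        obtain ⟨hvn, hSm, D, hD, hDp, b', c', hLab, hWin, hdv⟩ := hr
        exact ⟨hvn, hWin.h0, hA2 r ⟨hvn, hSm, D, hD, hDp, b', c', hLab, hWin, hdv⟩⟩)
    calc c1 * (b - a) * mu lev n = c1 * mu lev n * (b - a) := by ring
      _ ≤ _ := h1

end Pool.Agent.MP_0863b8.FIN

end

section

/-!
MP_0863b8_nt: statement of the non-recursive part of `AsmStmt`: relevant primes and exceptional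
energies of one system, for all possible chains.
-/

set_option autoImplicit false

namespace Pool.Agent.MP_0863b8.FIN

/-- the relevant primes and the exceptional overlaps of one system -/
def PairA : Prop :=
  ∀ (C1 cs Ws L0 : ℝ) (P : ℕ), 0 < cs → cs ≤ 1/20 → 2 ^ 20 ≤ L0 → ∃ C : ℝ, 0 ≤ C ∧
    ∀ (S : Finset ℕ) (lev : ℕ → ℕ) (ρ δ : ℝ) (q0 : ℕ), 0 < ρ →
    (∀ n ∈ S, 0 < n ∧ rp n ≤ C1 ∧ CL.mu ρ lev n < 1/2) →
    (∀ n ∈ S, ∀ m ∈ S, R.Ag q0 n m) →
    ∃ (p : ℕ → ℕ) (e : ℕ → ℕ → ℝ),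
      (∀ m ∈ S, p m = 0 ∨ ((p m).Prime ∧ P < p m ∧ (p m : ℝ) * CL.mu ρ lev m < 1/2)) ∧
      (∀ n m, 0 ≤ e n m) ∧
      ∑ n ∈ S, ∑ m ∈ S, e n m ≤
        C * (1 + R.mass (CL.mu ρ lev) S) ^ (2 * (1/8 : ℝ)) * R.mass (CL.mu ρ lev) S ∧
      ∀ Ch : ℕ → Finset ℕ, (∀ m ∈ S, 1 ∈ Ch m) →
        ∀ q, ∀ n ∈ S, ∀ m ∈ S, R.Ag q n m → ¬ R.Rel p n m → ¬ R.Rel p m n →
          R.ov δ (CL.mu ρ lev) (K.Kc L0 cs Ws q0 δ (CL.mu ρ lev) Ch) q n m ≤
            12 * ((2 * CL.mu ρ lev n) * (2 * CL.mu ρ lev m)) + e n m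

end Pool.Agent.MP_0863b8.FIN

end

section

/-! MP_0863b8_nt: the canonical hub theorem, assembled. -/

set_option autoImplicit false

namespace Pool.Agent.MP_0863b8.H

theorem treeG : G.TreeG := by
  have hs : G.StepG := G.step G.node
  exact G.tree hs (G.fin hs G.base)

theorem cellH : CellH :=
  pr_CellH pr_DiagH (pr_DiagNeH pr_DiagH) (pr_BadGenH pr_SchurH) (pr_BadSameH pr_SchurH)
    (pr_BadGGH pr_SchurH) (pr_BadHHH pr_SchurH) pr_GoodNHH pr_GoodHHH pr_CellShareH pr_PowH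

theorem badStmt : BadStmt :=
  pr_BadStmt pr_MassCmp
    (pr_StepBad treeG cellH pr_CellMass pr_MassCmp pr_ShareProf pr_SplitBad pr_CellElt)

theorem goodVal : GoodVal := pr_GoodVal

theorem exHb : ExHb := pr_ExHb

theorem goodStruct : GoodStruct := pr_GoodStruct goodVal exHb

end Pool.Agent.MP_0863b8.H

end
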