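import Pool.Agent.Work.MP_0863b8_nt.Bd.B09
import Pool.Agent.Work.MP_0863b8_nt.Bd.B04
import Pool.Agent.Work.MP_0863b8_nt.Bd.B05
import Pool.Agent.Work.MP_0863b8_nt.Bd.B08
import Pool.Agent.Work.MP_0863b8_nt.Overlap
import Pool.Agent.Work.MP_0863b8_nt.Bd.B06
import Pool.Agent.Work.MP_0863b8_nt.Bd.B07

/-! Bundle of small proof modules (one section per former module). -/

section

/-!
MP_0863b8_nt, RECURSION block: everything together.
-/

set_option autoImplicit false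

namespace Pool.Agent.MP_0863b8.R

/-- the product inequality -/
theorem psStmt : PSStmt := ps p1 p2 p3 p4 p5

/-- **The recursion theorem**, without hypotheses. -/
theorem recStmt : RecStmt := rec_stmt psStmt bud num

end Pool.Agent.MP_0863b8.R

end

section

/-!
MP_0863b8_nt: the non-recursive part of the assembly (`FIN.PairA`).
-/

set_option autoImplicit false

namespace Pool.Agent.MP_0863b8.FIN

open MeasureTheory

namespace ItPairA

theorem ov_diag (δ : ℝ) (μ : ℕ → ℝ) (K : ℕ → ℕ → ℤ → Prop) (q n : ℕ) (hn : 0 < n)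
    (hμ : 0 ≤ μ n) : R.ov δ μ K q n n ≤ 6 * μ n := by
  obtain ⟨-, h2⟩ := single δ (μ n) n 0 1 hn hμ
  refine le_trans ?_ h2
  unfold R.ov
  apply ENNReal.toReal_mono
  · have h : volume (Bset δ (μ n) n 0 1) ≤ volume (Set.Ico (0:ℝ) 1) := by
      apply measure_mono
      rintro t ⟨h0, h1, _⟩
      exact ⟨h0, h1⟩
    rw [Real.volume_Ico] at h
    exact ne_of_lt (lt_of_le_of_lt h ENNReal.ofReal_lt_top)
  · apply measure_mono
    rintro t ⟨⟨⟨k, hk, _⟩, _⟩, h0, h1⟩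
    exact ⟨h0, h1, k, by simp, hk⟩

theorem ov_empty (δ : ℝ) (μ : ℕ → ℝ) (K : ℕ → ℕ → ℤ → Prop) (q n m : ℕ)
    (h : R.Bs δ μ K q n ∩ R.Bs δ μ K q m = ∅) : R.ov δ μ K q n m = 0 := by
  unfold R.ov
  rw [h]
  simp

theorem ene_nonneg (μ : ℕ → ℝ) (hμ : ∀ n, 0 ≤ μ n) (n m : ℕ) : 0 ≤ K.ene μ n m := by
  unfold K.ene
  exact le_min (div_nonneg (hμ n) (Nat.cast_nonneg _)) (div_nonneg (hμ m) (Nat.cast_nonneg _))

theorem mu_nonneg (ρ : ℝ) (hρ : 0 < ρ) (lev : ℕ → ℕ) (n : ℕ) : 0 ≤ CL.mu ρ lev n := by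
  unfold CL.mu CL.rad
  positivity

end ItPairA

open ItPairA in
/-- the non-recursive part -/
theorem pairA (hC : CL.ClsK) (hDiv : CL.DivCL) (hOv : K.OvK) (hKill : K.KillK) (hSum : K.SumK) :
    PairA := by
  classical
  intro C1 cs Ws L0 P hcs hcs' hL0
  obtain ⟨Cd, hCd, hdiv⟩ := hDiv C1
  obtain ⟨κk, hκk, hkill⟩ := hKill cs Ws L0 hcs hcs'
  obtain ⟨κs, Cs, hκs, hCs, hsum⟩ := hSum cs L0 Cd hcs hcs' hL0
  obtain ⟨κ0, C, hκ0, hκb, hC0, hcl⟩ := hC cs C1 hcs (by linarith) P (min κk (min κs (1/4)))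
    (lt_min hκk (lt_min hκs (by norm_num)))
  have hk1 : κ0 ≤ κk := hκb.trans (min_le_left _ _)
  have hk2 : κ0 ≤ κs := hκb.trans ((min_le_right _ _).trans (min_le_left _ _))
  have hk3 : κ0 ≤ 1/4 := hκb.trans ((min_le_right _ _).trans (min_le_right _ _))
  refine ⟨6 + 6 * C + 6 * Cs, by positivity, ?_⟩
  intro S lev ρ δ q0 hρ hS hag0
  obtain ⟨p, Z, hZS, hp, hZ, hcls⟩ := hcl S lev ρ δ hρ (fun n hn => ⟨(hS n hn).1, (hS n hn).2.1⟩)
  set μ := CL.mu ρ lev with hμdef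
  have hμ0 : ∀ n, 0 ≤ μ n := fun n => mu_nonneg ρ hρ lev n
  have hμp : ∀ n ∈ S, 0 < μ n := fun n hn => CL.mu_pos hρ (hS n hn).1
  have hen : ∀ n m, 0 ≤ K.ene μ n m := ene_nonneg μ hμ0
  refine ⟨p, fun n m => (if n = m then 6 * μ n else 0) +
    (if (n, m) ∈ Z then 6 * K.ene μ n m else 0) +
    (if K.Unk cs L0 κs δ μ n m then 6 * K.ene μ n m else 0), ?_, ?_, ?_, ?_⟩
  · intro m hm
    rcases hp m hm with h | ⟨h1, h2, h3⟩
    · exact Or.inl h
    · exact Or.inr ⟨h1, h2, by linarith⟩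
  · intro n m
    have h1 := hμ0 n
    have h2 := hen n m
    apply add_nonneg
    · apply add_nonneg
      · split_ifs
        · positivity
        · exact le_rfl
      · split_ifs
        · positivity
        · exact le_rfl
    · split_ifs
      · positivity
      · exact le_rfl
  · -- the sum
    set M := ∑ n ∈ S, μ n with hM
    have hM0 : 0 ≤ M := Finset.sum_nonneg (fun n _ => hμ0 n)
    have hmass : R.mass μ S = 2 * M := by
      unfold R.mass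
      rw [hM, Finset.mul_sum]
    have h1 : ∑ n ∈ S, ∑ m ∈ S, (if n = m then 6 * μ n else 0) = 6 * M := by
      rw [hM, Finset.mul_sum]
      apply Finset.sum_congr rfl
      intro n hn
      rw [Finset.sum_ite_eq, if_pos hn]
    have h2 : ∑ n ∈ S, ∑ m ∈ S, (if (n, m) ∈ Z then 6 * K.ene μ n m else 0) =
        6 * ∑ z ∈ Z, K.ene μ z.1 z.2 := by
      rw [← Finset.sum_product' S S (fun n m => if (n, m) ∈ Z then 6 * K.ene μ n m else 0)]
      rw [← Finset.sum_filter, Finset.mul_sum]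
      apply Finset.sum_congr _ (fun _ _ => rfl)
      ext z
      rw [Finset.mem_filter]
      exact ⟨fun h => h.2, fun h => ⟨hZS h, h⟩⟩
    have h3 : ∑ n ∈ S, ∑ m ∈ S, (if K.Unk cs L0 κs δ μ n m then 6 * K.ene μ n m else 0) =
        6 * ∑ z ∈ (S ×ˢ S).filter (fun z => K.Unk cs L0 κs δ μ z.1 z.2), K.ene μ z.1 z.2 := by
      rw [← Finset.sum_product' S S (fun n m => if K.Unk cs L0 κs δ μ n m then
        6 * K.ene μ n m else 0)]
      rw [← Finset.sum_filter, Finset.mul_sum]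
    have h4 := hsum δ μ S (fun n hn => ⟨(hS n hn).1, hμp n hn,
      hdiv n (hS n hn).1 (hS n hn).2.1⟩)
    have h5 : (1:ℝ) ≤ (1 + 2 * M) ^ ((1:ℝ)/4) := Real.one_le_rpow (by linarith) (by norm_num)
    have h6 : (1 + M) ^ ((1:ℝ)/4) ≤ (1 + 2 * M) ^ ((1:ℝ)/4) :=
      Real.rpow_le_rpow (by linarith) (by linarith) (by norm_num)
    have h7 : (2 * (1/8 : ℝ)) = (1:ℝ)/4 := by norm_num
    rw [hmass, h7]
    simp only [Finset.sum_add_distrib]
    rw [h1, h2, h3]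
    have e1 : 6 * M ≤ 6 * ((1 + 2 * M) ^ ((1:ℝ)/4) * (2 * M)) := by nlinarith
    have e2 : 6 * ∑ z ∈ Z, K.ene μ z.1 z.2 ≤ 6 * C * ((1 + 2 * M) ^ ((1:ℝ)/4) * (2 * M)) := by
      have h8 : C * (1 + M) ^ ((1:ℝ)/4) * M ≤ C * ((1 + 2 * M) ^ ((1:ℝ)/4) * (2 * M)) := by
        rw [mul_assoc]
        apply mul_le_mul_of_nonneg_left _ hC0.le
        apply mul_le_mul h6 (by linarith) hM0 (by linarith)
      linarith
    have e3 : 6 * ∑ z ∈ (S ×ˢ S).filter (fun z => K.Unk cs L0 κs δ μ z.1 z.2),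
        K.ene μ z.1 z.2 ≤ 6 * Cs * ((1 + 2 * M) ^ ((1:ℝ)/4) * (2 * M)) := by
      have h8 : Cs * M ≤ Cs * ((1 + 2 * M) ^ ((1:ℝ)/4) * (2 * M)) := by
        apply mul_le_mul_of_nonneg_left _ hCs.le
        nlinarith
      linarith
    linarith
  · -- the pairs
    intro Ch hCh q n hn m hm hag hr1 hr2
    have hn0 := (hS n hn).1
    have hm0 := (hS m hm).1
    have hμn := hμp n hn
    have hμm := hμp m hm
    have hpos : 0 ≤ 12 * ((2 * μ n) * (2 * μ m)) := by positivity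
    have p1 : 0 ≤ (if n = m then 6 * μ n else 0) := by
      split_ifs
      · positivity
      · exact le_rfl
    have p2 : 0 ≤ (if (n, m) ∈ Z then 6 * K.ene μ n m else 0) := by
      have := hen n m
      split_ifs
      · positivity
      · exact le_rfl
    have p3 : 0 ≤ (if K.Unk cs L0 κs δ μ n m then 6 * K.ene μ n m else 0) := by
      have := hen n m
      split_ifs
      · positivity
      · exact le_rfl
    show R.ov δ μ (K.Kc L0 cs Ws q0 δ μ Ch) q n m ≤ 12 * ((2 * μ n) * (2 * μ m)) +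
      ((if n = m then 6 * μ n else 0) + (if (n, m) ∈ Z then 6 * K.ene μ n m else 0) +
        (if K.Unk cs L0 κs δ μ n m then 6 * K.ene μ n m else 0))
    by_cases hnm : n = m
    · subst hnm
      have h1 := ov_diag δ μ (K.Kc L0 cs Ws q0 δ μ Ch) q n hn0 hμn.le
      rw [if_pos rfl]
      linarith
    obtain ⟨o1, o2, o3⟩ := hOv δ μ (K.Kc L0 cs Ws q0 δ μ Ch) q n m hn0 hm0 hnm hμn hμm
    rcases le_or_gt (1/4) (K.dep μ n m) with hd | hd
    · have h1 := o1 hd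
      have h2 : 48 * μ n * μ m = 12 * ((2 * μ n) * (2 * μ m)) := by ring
      linarith
    · have h1 := o2 hd
      by_cases hz : (n, m) ∈ Z
      · rw [if_pos hz] at p2 ⊢
        linarith
      rcases (R.Bs δ μ (K.Kc L0 cs Ws q0 δ μ Ch) q n ∩
        R.Bs δ μ (K.Kc L0 cs Ws q0 δ μ Ch) q m).eq_empty_or_nonempty with he | hne
      · rw [ov_empty _ _ _ _ _ _ he]
        linarith
      · have hal := o3 hd hne
        obtain ⟨hdk, hcase⟩ := hcls n hn m hm hnm hz hd hal.le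
        rcases hcase with h | h | ⟨b, c, hE⟩
        · exact absurd h hr1
        · exact absurd h hr2
        · by_cases hw : K.Win L0 δ (μ n) 1 b c (n / n.gcd m) ∨
            K.Win L0 δ (μ m) 1 b c (m / n.gcd m)
          · have hem := hkill δ μ Ch q q0 n m b c hn0 hm0 hμn hμm (hCh n hn) (hCh m hm) hag
              (hag0 n hn m hm) (hdk.trans hk1) hE hw
            rw [ov_empty _ _ _ _ _ _ hem]
            linarith
          · rw [not_or] at hw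
            have hU : K.Unk cs L0 κs δ μ n m :=
              ⟨hnm, hdk.trans hk2, hal.le, b, c, hE, hw.1, hw.2⟩
            rw [if_pos hU] at p3 ⊢
            linarith

end Pool.Agent.MP_0863b8.FIN

end

section

/-!
MP_0863b8_nt, CASE II: Theorem II, the last step.
-/

set_option autoImplicit false

namespace Pool.Agent.MP_0863b8.C2

open Pool.Agent.MP_0863b8 F G Filter Topology

theorem sum_union_le' {α : Type*} [DecidableEq α] (s t : Finset α) (f : α → ℝ)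
    (hf : ∀ z, 0 ≤ f z) : ∑ z ∈ s ∪ t, f z ≤ ∑ z ∈ s, f z + ∑ z ∈ t, f z := by
  have h := Finset.sum_union_inter (s₁ := s) (s₂ := t) (f := f)
  have h2 : 0 ≤ ∑ z ∈ s ∩ t, f z := Finset.sum_nonneg (fun z _ => hf z)
  linarith

/-- the primes of the reduced cofactors -/
theorem prime_bound (x : ℝ) (A A' : ℕ) (hx : 100 ≤ x)
    (hA : (A : ℝ) < 2 * 2 ^ (Nat.log 2 A)) (hB : Real.exp (0.98 * x) ≤ 2 ^ (Nat.log 2 A))
    (hA' : (A' : ℝ) ≤ ((2 : ℝ) ^ (Nat.log 2 A)) ^ 2) (p : ℕ) (hp : p ≤ max A A') :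
    (p : ℝ) ≤ ((2 : ℝ) ^ (Nat.log 2 A)) ^ 2 := by
  have h1 : (2 : ℝ) ≤ 2 ^ (Nat.log 2 A) := by
    have h2 : Real.exp 1 ≤ Real.exp (0.98 * x) := Real.exp_le_exp.2 (by linarith)
    have := Real.exp_one_gt_d9
    linarith
  have h3 : (A : ℝ) ≤ ((2 : ℝ) ^ (Nat.log 2 A)) ^ 2 := by rw [sq]; nlinarith
  rcases le_total A A' with h | h
  · rw [max_eq_right h] at hp
    exact le_trans (by exact_mod_cast hp) hA'
  · rw [max_eq_left h] at hp
    exact le_trans (by exact_mod_cast hp) h3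

theorem thmII (sbc : SBC) (sps : SPS) (lab : Lab) (spe : Spe) (pt : Pt) (dns2 : Dns2) :
    ThmII := by
  classical
  intro γ c4 c3 c0 cm C1 C2 hγ hγ' hc4 hc4' hc3 hc0 hcm hC2 hcond
  obtain ⟨Cz, hCz, hZ⟩ := stepZero sbc γ C1 hγ hγ'
  obtain ⟨Cd, hCd, hD⟩ := dns2 γ C1 hγ hγ'
  obtain ⟨κl, hκl, hL⟩ := lab c4 c0 hc4 hc4' hc0
  obtain ⟨κs, hκs, hS⟩ := spe c4 c0 hc4 hc4' hc0
  obtain ⟨i0, hi0⟩ := sps
  have hmin : 0 < min c0 c3 := lt_min hc0 hc3
  obtain ⟨c', hc'⟩ : ∃ c' : ℝ, c' = min c0 c3 / 4 := ⟨_, rfl⟩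
  have hc'0 : 0 < c' := by rw [hc']; positivity
  have hc'1 : 2 * c' < c3 := by
    have := min_le_right c0 c3
    rw [hc']; linarith
  have hc'2 : 2 * c' < c0 := by
    have := min_le_left c0 c3
    rw [hc']; linarith
  obtain ⟨a0, ha0⟩ : ∃ a0 : ℝ, a0 = 1 - 2 * γ - cm * (2 * γ - 1) := ⟨_, rfl⟩
  have hexp2 : 2 * c' < -c0 + c4 * ((1 - γ) / 2) + a0 := by
    rw [ha0]
    have : c4 * (1 - γ) / 2 = c4 * ((1 - γ) / 2) := by ring
    rw [this] at hcond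
    linarith
  have hev : ∀ᶠ κ : ℝ in 𝓝[>] 0, κ ≤ 1 / 2 ∧ κ ≤ κl ∧ κ ≤ κs ∧
      (100 + i0 : ℝ) ≤ κ ^ (-c0) ∧ c3 * Real.log (1 / κ) + 1 ≤ (1 / 100) * κ ^ (-c0) ∧
      Real.exp 9 ≤ κ ^ (-C2) ∧
      Cz * (κ ^ (-C2)) ^ Cz * (Real.exp (κ ^ (-c0) / 100)) ^ (-(1 / Real.log (κ ^ (-C2)))) *
        κ ^ a0 ≤ κ ^ (2 * c') ∧
      3 * Real.exp (2 * C1) * κ ^ c3 ≤ κ ^ (2 * c') ∧
      3 * Cd * κ ^ (-c0 + c4 * ((1 - γ) / 2) + a0) ≤ κ ^ (2 * c') ∧
      3 * Real.exp (-0.001 * κ ^ (-c0)) ≤ κ ^ (2 * c') ∧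
      6 * κ ^ (2 * c') ≤ κ ^ c' := by
    filter_upwards [evLe (1/2) (by norm_num), evLe κl hκl, evLe κs hκs, evX c0 (100 + i0) hc0,
      evLog c0 c3 (1/100) hc0 (by norm_num), evX C2 (Real.exp 9) hC2,
      evZero c0 C2 Cz a0 (2 * c') hc0 hC2 hCz, evPow (3 * Real.exp (2 * C1)) c3 (2 * c') hc'1,
      evPow (3 * Cd) _ (2 * c') hexp2, evExp c0 0.001 (2 * c' + 1) hc0 (by norm_num),
      evPow 3 (2 * c' + 1) (2 * c') (by linarith), evPow 6 (2 * c') c' (by linarith)]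
      with κ h1 h2 h3 h4 h5 h6 h7 h8 h9 h10 h11 h12
    refine ⟨h1, h2, h3, h4, h5, h6, h7, h8, h9, ?_, h12⟩
    have : -(0.001 : ℝ) * κ ^ (-c0) = -0.001 * κ ^ (-c0) := by norm_num
    rw [this] at h10
    linarith
  obtain ⟨κ0, hκ0, hev⟩ := evOut _ hev
  refine ⟨κ0, c', hκ0, hc'0, ?_⟩
  intro κ θ X r N M A h A' h' G hκ hκκ0 hX hr hconf
  obtain ⟨k1, k2, k3, k4, k5, k6, k7, k8, k9, k10, k11⟩ := hev κ hκ hκκ0
  obtain ⟨x, hx⟩ : ∃ x : ℝ, x = κ ^ (-c0) := ⟨_, rfl⟩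
  obtain ⟨Q, hQ⟩ : ∃ Q : ℝ, Q = κ ^ (-C2) := ⟨_, rfl⟩
  rw [← hx] at k4 k5 k7 k10
  rw [← hQ] at k6 k7
  rw [← hx, ← hQ] at hconf
  have hi0R : (0 : ℝ) ≤ i0 := Nat.cast_nonneg _
  have hx100 : 100 ≤ x := by linarith
  have hxi0 : (i0 : ℝ) ≤ x := by linarith
  have hκ1 : κ < 1 := by linarith
  have e1 : c3 * Real.log (1 / κ) + 1 ≤ x / 100 := by linarith
  have hY : 0 < κ * X := by positivity
  have hN0 : 0 ≤ ms N := Finset.sum_nonneg (fun _ _ => Nat.cast_nonneg _)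
  have hM0 : 0 ≤ ms M := Finset.sum_nonneg (fun _ _ => Nat.cast_nonneg _)
  have hmass := mass γ κ cm X r (ms N) (ms M) hγ hγ' hκ hX hr hN0 hM0 hconf.mN hconf.mM
  rw [← ha0] at hmass
  have hrS : ms N ≤ r * ms N + ms M := by nlinarith
  have hRS : ms M ≤ r * ms N + ms M := by nlinarith
  have hT0 : 0 ≤ r * ms N + ms M := by positivity
  have hV : ∀ v ∈ N, 0 < v ∧ rp v ≤ C1 := fun v hv => ⟨(hconf.hN v hv).1, (hconf.hN v hv).2.1⟩
  have hW : ∀ v ∈ M, 0 < v ∧ rp v ≤ C1 := fun v hv => ⟨(hconf.hM v hv).1, (hconf.hM v hv).2.1⟩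
  set G0 := G.filter (fun z => Real.exp (x / 100) < (smp Q (cu z) : ℝ) * smp Q (cv z)) with hG0
  set G1 := G.filter (fun z => κ * X < κ ^ c3 * A z.1 * h z.1 * z.1) with hG1
  set G1' := G.filter (fun z => κ * X < κ ^ c3 * A' z.2 * h' z.2 * z.2) with hG1'
  set Gr := G.filter (fun z => (smp Q (cu z) : ℝ) * smp Q (cv z) ≤ Real.exp (x / 100) ∧
    κ ^ c3 * A z.1 * h z.1 * z.1 ≤ κ * X ∧ κ ^ c3 * A' z.2 * h' z.2 * z.2 ≤ κ * X) with hGr
  set G2 := Gr.filter (fun z => ((box2 θ κ (cu z / A z.1) (cv z / A' z.2) (Nat.log 2 (A z.1))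
    (Nat.log 2 (A' z.2))).card : ℝ) ≤
      κ ^ c4 * 2 ^ (Nat.log 2 (A z.1) + Nat.log 2 (A' z.2))) with hG2
  set G3 := Gr.filter (fun z => BadA θ κ c4 (Nat.log 2 (A z.1)) (cu z / A z.1)) with hG3
  set G3' := Gr.filter (fun z => BadA θ κ c4 (Nat.log 2 (A' z.2)) (cv z / A' z.2)) with hG3'
  have hrem : ∀ z ∈ Gr, z ∈ G ∧ Rem x (κ * X) z A h A' h' := by
    intro z hz
    rw [hGr, Finset.mem_filter] at hz
    obtain ⟨hz, t0, t1, t2⟩ := hz
    have hzN := (hconf.hN _ (hconf.hG z hz).1).1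
    have hzM := (hconf.hM _ (hconf.hG z hz).2).1
    have hcu0 : 0 < cu z := Nat.div_pos (Nat.le_of_dvd hzN (Nat.gcd_dvd_left _ _))
      (Nat.gcd_pos_of_pos_left _ hzN)
    have hcv0 : 0 < cv z := Nat.div_pos (Nat.le_of_dvd hzM (Nat.gcd_dvd_right _ _))
      (Nat.gcd_pos_of_pos_left _ hzN)
    exact ⟨hz, rem_of θ κ X r Q C1 cm c3 x N M A h A' h' G hκ hx100 hconf e1 z hz t0
      (fun su hd hp => smp_le Q _ su hcu0 hd hp) (fun su hd hp => smp_le Q _ su hcv0 hd hp)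
      (smp_pos Q _) (smp_pos Q _) t1 t2⟩
  -- Step 0
  have P0 : ∑ z ∈ G0, (cg z : ℝ) ≤ κ ^ (2 * c') * (r * ms N + ms M) := by
    have h1 := hZ Q (Real.exp (x / 100)) (κ * X) k6 hY (Real.one_le_exp (by linarith)) N M G0
      hV hW (by
        intro z hz
        rw [hG0, Finset.mem_filter] at hz
        exact ⟨(hconf.hG z hz.1).1, (hconf.hG z hz.1).2, (hconf.I1 z hz.1).1,
          (hconf.I1 z hz.1).2, hz.2⟩)
    refine h1.trans ?_
    have hQ0 : 0 ≤ Q := by rw [hQ]; positivity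
    calc Cz * Q ^ Cz * Real.exp (x / 100) ^ (-(1 / Real.log Q)) * (κ * X) ^ (1 - 2 * γ) *
          (ms N * ms M) ^ γ
        = Cz * Q ^ Cz * Real.exp (x / 100) ^ (-(1 / Real.log Q)) * ((κ * X) ^ (1 - 2 * γ) *
          (ms N * ms M) ^ γ) := by ring
      _ ≤ Cz * Q ^ Cz * Real.exp (x / 100) ^ (-(1 / Real.log Q)) *
          (κ ^ a0 * (r * ms N + ms M)) := by gcongr
      _ = (Cz * Q ^ Cz * Real.exp (x / 100) ^ (-(1 / Real.log Q)) * κ ^ a0) *
          (r * ms N + ms M) := by ring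
      _ ≤ κ ^ (2 * c') * (r * ms N + ms M) := by gcongr
  -- Step 1
  have P1 : ∑ z ∈ G1, (cg z : ℝ) ≤ κ ^ (2 * c') * (r * ms N + ms M) := by
    have h1 := ptSum pt (κ * X) (3 * Real.exp (2 * C1) * κ ^ c3) hY N A h G1
      (fun n => n.divisors) (fun n hn => ⟨(hconf.hN n hn).1, (hconf.hN n hn).2.2.1,
        (hconf.hN n hn).2.2.2.1⟩) (by
        intro z hz
        rw [hG1, Finset.mem_filter] at hz
        obtain ⟨q1, q2, q3, q4, q5, q6, q7, q8, q9, q10, q11, q12, q13⟩ :=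
          conf_arith θ κ X r Q _ C1 cm N M A h A' h' G hconf z hz.1
        exact ⟨(hconf.hG z hz.1).1, (hconf.hM _ (hconf.hG z hz.1).2).1, (hconf.I1 z hz.1).1,
          (hconf.I1 z hz.1).2, q1, q2, q10⟩) (by positivity) (by
        intro z hz
        rw [hG1, Finset.mem_filter] at hz
        obtain ⟨s1, s2, s3, s4, s5⟩ := hconf.hN _ (hconf.hG z hz.1).1
        exact pt1 (κ * X) κ c3 C1 z.1 (A z.1) (h z.1) hκ s1 s2 s3 s4 hz.2)
    calc ∑ z ∈ G1, (cg z : ℝ) ≤ 3 * Real.exp (2 * C1) * κ ^ c3 * ms N := h1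
      _ ≤ κ ^ (2 * c') * (r * ms N + ms M) := by
          apply mul_le_mul k8 hrS hN0 (by positivity)
  have P1' : ∑ z ∈ G1', (cg z : ℝ) ≤ κ ^ (2 * c') * (r * ms N + ms M) := by
    have h1 := ptSum2 pt (κ * X) (3 * Real.exp (2 * C1) * κ ^ c3) hY M A' h' G1'
      (fun n => n.divisors) (fun n hn => ⟨(hconf.hM n hn).1, (hconf.hM n hn).2.2.1,
        (hconf.hM n hn).2.2.2.1⟩) (by
        intro z hz
        rw [hG1', Finset.mem_filter] at hz
        obtain ⟨q1, q2, q3, q4, q5, q6, q7, q8, q9, q10, q11, q12, q13⟩ :=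
          conf_arith θ κ X r Q _ C1 cm N M A h A' h' G hconf z hz.1
        exact ⟨(hconf.hG z hz.1).2, (hconf.hN _ (hconf.hG z hz.1).1).1, (hconf.I1 z hz.1).1,
          (hconf.I1 z hz.1).2, q3, q4, q11⟩) (by positivity) (by
        intro z hz
        rw [hG1', Finset.mem_filter] at hz
        obtain ⟨s1, s2, s3, s4, s5⟩ := hconf.hM _ (hconf.hG z hz.1).2
        exact pt1 (κ * X) κ c3 C1 z.2 (A' z.2) (h' z.2) hκ s1 s2 s3 s4 hz.2)
    calc ∑ z ∈ G1', (cg z : ℝ) ≤ 3 * Real.exp (2 * C1) * κ ^ c3 * ms M := h1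
      _ ≤ κ ^ (2 * c') * (r * ms N + ms M) := by
          apply mul_le_mul k8 hRS hM0 (by positivity)
  -- Step 2
  have P2 : ∑ z ∈ G2, (cg z : ℝ) ≤ κ ^ (2 * c') * (r * ms N + ms M) := by
    have hT1 : κ ^ c4 ≤ 1 := Real.rpow_le_one hκ.le hκ1.le hc4.le
    have h1 := hD θ κ (κ * X) (κ ^ c4) ⌈x⌉₊ N M A A' G2 hY (by positivity) hT1
      (fun n hn => ⟨(hconf.hN n hn).1, (hconf.hN n hn).2.1, (hconf.hN n hn).2.2.1,
        (hconf.hN n hn).2.2.2.2⟩)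
      (fun n hn => ⟨(hconf.hM n hn).1, (hconf.hM n hn).2.1, (hconf.hM n hn).2.2.1,
        (hconf.hM n hn).2.2.2.2⟩) (by
        intro z hz
        rw [hG2, Finset.mem_filter] at hz
        obtain ⟨hzr, hzb⟩ := hz
        obtain ⟨hz, hR⟩ := hrem z hzr
        obtain ⟨q1, q2, q3, q4, q5, q6, q7, q8, q9, q10, q11, q12, q13⟩ :=
          conf_arith θ κ X r Q _ C1 cm N M A h A' h' G hconf z hz
        obtain ⟨_, _, _, l1, _⟩ := rem_log x (A z.1) (A' z.2) hx100 hR.r1 hR.r3 hR.r4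
        obtain ⟨_, _, _, l2, _⟩ := rem_log x (A' z.2) (A z.1) hx100 hR.r2 hR.r4 hR.r3
        exact ⟨(hconf.hG z hz).1, (hconf.hG z hz).2, (hconf.I1 z hz).1,
          (hconf.I1 z hz).2, q1, q3, hconf.I2 z hz, l1, l2, hzb⟩)
    refine h1.trans ?_
    have hs : (2 * (⌈x⌉₊ : ℝ) + 1) ≤ 3 * x := by
      have := (Nat.ceil_lt_add_one (by linarith : 0 ≤ x)).le
      linarith
    have hpow : (κ ^ c4) ^ ((1 - γ) / 2) = κ ^ (c4 * ((1 - γ) / 2)) := by
      rw [← Real.rpow_mul hκ.le]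
    calc Cd * (2 * (⌈x⌉₊ : ℝ) + 1) * (κ ^ c4) ^ ((1 - γ) / 2) * (κ * X) ^ (1 - 2 * γ) *
          (ms N * ms M) ^ γ
        = Cd * (2 * (⌈x⌉₊ : ℝ) + 1) * (κ ^ c4) ^ ((1 - γ) / 2) * ((κ * X) ^ (1 - 2 * γ) *
          (ms N * ms M) ^ γ) := by ring
      _ ≤ Cd * (3 * x) * (κ ^ c4) ^ ((1 - γ) / 2) * (κ ^ a0 * (r * ms N + ms M)) := by gcongr
      _ = 3 * Cd * κ ^ (-c0 + c4 * ((1 - γ) / 2) + a0) * (r * ms N + ms M) := by
          rw [hpow, Real.rpow_add hκ, Real.rpow_add hκ, ← hx]; ring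
      _ ≤ κ ^ (2 * c') * (r * ms N + ms M) := by gcongr
  -- Step 3
  have P3 : ∑ z ∈ G3, (cg z : ℝ) ≤ κ ^ (2 * c') * (r * ms N + ms M) := by
    have h1 := ptSum pt (κ * X) (3 * Real.exp (-0.001 * x)) hY N A h G3
      (fun n => badS θ κ c4 n (A n)) (fun n hn => ⟨(hconf.hN n hn).1, (hconf.hN n hn).2.2.1,
        (hconf.hN n hn).2.2.2.1⟩) (by
        intro z hz
        rw [hG3, Finset.mem_filter] at hz
        obtain ⟨hzr, hzb⟩ := hz
        obtain ⟨hz, hR⟩ := hrem z hzr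
        obtain ⟨q1, q2, q3, q4, q5, q6, q7, q8, q9, q10, q11, q12, q13⟩ :=
          conf_arith θ κ X r Q _ C1 cm N M A h A' h' G hconf z hz
        obtain ⟨l1, l2, _, _, _⟩ := rem_log x (A z.1) (A' z.2) hx100 hR.r1 hR.r3 hR.r4
        obtain ⟨_, _, _, _, l5⟩ := rem_log x (A' z.2) (A z.1) hx100 hR.r2 hR.r4 hR.r3
        refine ⟨(hconf.hG z hz).1, (hconf.hM _ (hconf.hG z hz).2).1, (hconf.I1 z hz).1,
          (hconf.I1 z hz).2, q1, q2, ?_⟩
        simp only [badS, Finset.mem_filter]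
        refine ⟨q10, q8, hzb, ?_⟩
        intro p hp hpa
        exact prime_bound x (A z.1) (A' z.2) hx100 l1 l2 l5 p
          ((hconf.I4 z hz).1 p hp ((hpa.trans q12).mul_right _))) (by positivity) (by
        intro z hz
        rw [hG3, Finset.mem_filter] at hz
        obtain ⟨hzr, hzb⟩ := hz
        obtain ⟨hz, hR⟩ := hrem z hzr
        obtain ⟨s1, s2, s3, s4, s5⟩ := hconf.hN _ (hconf.hG z hz).1
        obtain ⟨l1, l2, _, _, _⟩ := rem_log x (A z.1) (A' z.2) hx100 hR.r1 hR.r3 hR.r4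
        exact pt3 x (κ * X) θ κ c4 z.1 (A z.1) (h z.1) i0 hi0 hx100 hxi0 s3 s4 l2 hR.r5)
    calc ∑ z ∈ G3, (cg z : ℝ) ≤ 3 * Real.exp (-0.001 * x) * ms N := h1
      _ ≤ κ ^ (2 * c') * (r * ms N + ms M) := by
          apply mul_le_mul k10 hrS hN0 (by positivity)
  have P3' : ∑ z ∈ G3', (cg z : ℝ) ≤ κ ^ (2 * c') * (r * ms N + ms M) := by
    have h1 := ptSum2 pt (κ * X) (3 * Real.exp (-0.001 * x)) hY M A' h' G3'
      (fun n => badS θ κ c4 n (A' n)) (fun n hn => ⟨(hconf.hM n hn).1, (hconf.hM n hn).2.2.1,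
        (hconf.hM n hn).2.2.2.1⟩) (by
        intro z hz
        rw [hG3', Finset.mem_filter] at hz
        obtain ⟨hzr, hzb⟩ := hz
        obtain ⟨hz, hR⟩ := hrem z hzr
        obtain ⟨q1, q2, q3, q4, q5, q6, q7, q8, q9, q10, q11, q12, q13⟩ :=
          conf_arith θ κ X r Q _ C1 cm N M A h A' h' G hconf z hz
        obtain ⟨l1, l2, _, _, _⟩ := rem_log x (A' z.2) (A z.1) hx100 hR.r2 hR.r4 hR.r3
        obtain ⟨_, _, _, _, l5⟩ := rem_log x (A z.1) (A' z.2) hx100 hR.r1 hR.r3 hR.r4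
        refine ⟨(hconf.hG z hz).2, (hconf.hN _ (hconf.hG z hz).1).1, (hconf.I1 z hz).1,
          (hconf.I1 z hz).2, q3, q4, ?_⟩
        simp only [badS, Finset.mem_filter]
        refine ⟨q11, q9, hzb, ?_⟩
        intro p hp hpa
        exact prime_bound x (A' z.2) (A z.1) hx100 l1 l2 l5 p
          (by rw [max_comm]; exact (hconf.I4 z hz).1 p hp ((hpa.trans q13).mul_left _)))
      (by positivity) (by
        intro z hz
        rw [hG3', Finset.mem_filter] at hz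
        obtain ⟨hzr, hzb⟩ := hz
        obtain ⟨hz, hR⟩ := hrem z hzr
        obtain ⟨s1, s2, s3, s4, s5⟩ := hconf.hM _ (hconf.hG z hz).2
        obtain ⟨l1, l2, _, _, _⟩ := rem_log x (A' z.2) (A z.1) hx100 hR.r2 hR.r4 hR.r3
        exact pt3 x (κ * X) θ κ c4 z.2 (A' z.2) (h' z.2) i0 hi0 hx100 hxi0 s3 s4 l2 hR.r6)
    calc ∑ z ∈ G3', (cg z : ℝ) ≤ 3 * Real.exp (-0.001 * x) * ms M := h1
      _ ≤ κ ^ (2 * c') * (r * ms N + ms M) := by
          apply mul_le_mul k10 hRS hM0 (by positivity)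
  -- the cover
  have hcover : G.filter (fun z => ¬ Expl θ κ c4 z) ⊆ G0 ∪ (G1 ∪ (G1' ∪ (G2 ∪ (G3 ∪ G3')))) := by
    intro z hz
    rw [Finset.mem_filter] at hz
    obtain ⟨hz, hne⟩ := hz
    by_contra hnot
    simp only [Finset.mem_union, not_or] at hnot
    obtain ⟨n0, n1, n1', n2, n3, n3'⟩ := hnot
    have hzr : z ∈ Gr := by
      rw [hGr, Finset.mem_filter]
      refine ⟨hz, ?_, ?_, ?_⟩
      · by_contra hh
        exact n0 (by rw [hG0, Finset.mem_filter]; exact ⟨hz, not_le.1 hh⟩)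
      · by_contra hh
        exact n1 (by rw [hG1, Finset.mem_filter]; exact ⟨hz, not_le.1 hh⟩)
      · by_contra hh
        exact n1' (by rw [hG1', Finset.mem_filter]; exact ⟨hz, not_le.1 hh⟩)
    have m2 : ¬ ((box2 θ κ (cu z / A z.1) (cv z / A' z.2) (Nat.log 2 (A z.1))
      (Nat.log 2 (A' z.2))).card : ℝ) ≤
        κ ^ c4 * 2 ^ (Nat.log 2 (A z.1) + Nat.log 2 (A' z.2)) := fun hh =>
      n2 (by rw [hG2, Finset.mem_filter]; exact ⟨hzr, hh⟩)
    have m3 : ¬ BadA θ κ c4 (Nat.log 2 (A z.1)) (cu z / A z.1) := fun hh =>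
      n3 (by rw [hG3, Finset.mem_filter]; exact ⟨hzr, hh⟩)
    have m3' : ¬ BadA θ κ c4 (Nat.log 2 (A' z.2)) (cv z / A' z.2) := fun hh =>
      n3' (by rw [hG3', Finset.mem_filter]; exact ⟨hzr, hh⟩)
    obtain ⟨_, hR⟩ := hrem z hzr
    obtain ⟨l1, l2, l3, _, _⟩ := rem_log x (A z.1) (A' z.2) hx100 hR.r1 hR.r3 hR.r4
    obtain ⟨l1', l2', l3', _, _⟩ := rem_log x (A' z.2) (A z.1) hx100 hR.r2 hR.r4 hR.r3
    obtain ⟨q1, q2, q3, q4, q5, q6, q7, q8, q9, q10, q11, q12, q13⟩ :=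
      conf_arith θ κ X r Q _ C1 cm N M A h A' h' G hconf z hz
    have hi2 : Real.exp (κ ^ (-c0) / 2) ≤ (2 : ℝ) ^ (Nat.log 2 (A z.1)) := by
      rw [← hx]
      exact le_trans (Real.exp_le_exp.2 (by linarith)) l2
    have hj2 : Real.exp (κ ^ (-c0) / 2) ≤ (2 : ℝ) ^ (Nat.log 2 (A' z.2)) := by
      rw [← hx]
      exact le_trans (Real.exp_le_exp.2 (by linarith)) l2'
    obtain ⟨sp1, sp2⟩ := hS κ hκ k3 θ (cu z / A z.1) (cv z / A' z.2) _ _ hi2 hj2 (not_le.1 m2).le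
    obtain ⟨qa, ha, ca, w1, w2, w3, w4, w5, w6, w7⟩ := hL κ hκ k2 θ _ _ hi2 q8 sp1 m3
    obtain ⟨qb, hb, cb, y1, y2, y3, y4, y5, y6, y7⟩ := hL κ hκ k2 θ _ _ hj2 q9 sp2 m3'
    exact hne (explain θ κ c4 x z (A z.1) (A' z.2) (cu z / A z.1) (cv z / A' z.2) _ _
      qa ha qb hb ca cb hκ hκ1 (by linarith) hx100 q5 q6 q7 q8 q9
      (hconf.hN _ (hconf.hG z hz).1).2.2.1 (hconf.hM _ (hconf.hG z hz).2).2.2.1 l1 l1' l2 l2' l3 l3'
      w1 w2 w3 w4 w5 w6 w7 y1 y2 y3 y4 y5 y6 y7)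
  have hcg : ∀ z : ℕ × ℕ, (0 : ℝ) ≤ cg z := fun z => Nat.cast_nonneg _
  calc ∑ z ∈ G.filter (fun z => ¬ Expl θ κ c4 z), (cg z : ℝ)
      ≤ ∑ z ∈ G0 ∪ (G1 ∪ (G1' ∪ (G2 ∪ (G3 ∪ G3')))), (cg z : ℝ) :=
        Finset.sum_le_sum_of_subset_of_nonneg hcover (fun z _ _ => hcg z)
    _ ≤ ∑ z ∈ G0, (cg z : ℝ) + (∑ z ∈ G1, (cg z : ℝ) + (∑ z ∈ G1', (cg z : ℝ) +
        (∑ z ∈ G2, (cg z : ℝ) + (∑ z ∈ G3, (cg z : ℝ) + ∑ z ∈ G3', (cg z : ℝ))))) := by
        refine (sum_union_le' _ _ _ hcg).trans (add_le_add le_rfl ?_)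
        refine (sum_union_le' _ _ _ hcg).trans (add_le_add le_rfl ?_)
        refine (sum_union_le' _ _ _ hcg).trans (add_le_add le_rfl ?_)
        refine (sum_union_le' _ _ _ hcg).trans (add_le_add le_rfl ?_)
        exact sum_union_le' _ _ _ hcg
    _ ≤ 6 * κ ^ (2 * c') * (r * ms N + ms M) := by linarith
    _ ≤ κ ^ c' * (r * ms N + ms M) := by gcongr

end Pool.Agent.MP_0863b8.C2

end

section

/-!
MP_0863b8_nt, full answer: assembly of the systems (induction on the number of vertices).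
-/

set_option autoImplicit false

namespace Pool.Agent.MP_0863b8.FIN

open MeasureTheory Classical

namespace ItAsm

theorem mu_pos (lev : ℕ → ℕ) (ρ : ℝ) (hρ : 0 < ρ) (n : ℕ) (hn : 0 < n) :
    0 < CL.mu ρ lev n := by
  unfold CL.mu CL.rad
  have : (0:ℝ) < n := by exact_mod_cast hn
  positivity

theorem rel_ne {p : ℕ → ℕ} {n m : ℕ} (h : R.Rel p n m) : p m ≠ 0 := by
  intro h0
  have := h.2
  rw [h0, Nat.factorization_zero_right, Nat.factorization_zero_right] at this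
  omega

theorem fac_congr {p : ℕ → ℕ} {n m : ℕ} (h : R.key p n = R.key p m) :
    R.fac p n = R.fac p m := by
  obtain ⟨h1, -, h3⟩ := R.key_eq h
  unfold R.fac
  rw [h1, h3]

theorem muY_congr {p : ℕ → ℕ} (μ : ℕ → ℝ) {n m : ℕ} (h : R.key p n = R.key p m) :
    R.muY p μ n = R.muY p μ m := by
  obtain ⟨h1, -, -⟩ := R.key_eq h
  unfold R.muY
  rw [h1, fac_congr h]

theorem SY_congr {p : ℕ → ℕ} (S : Finset ℕ) {n m : ℕ} (h : R.key p n = R.key p m) :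
    R.SY p S n = R.SY p S m := by
  unfold R.SY R.Lset
  rw [h, fac_congr h]

theorem rel_congr {p : ℕ → ℕ} {a n m : ℕ} (h : R.key p n = R.key p m) :
    R.Rel p a n ↔ R.Rel p a m := by
  obtain ⟨h1, h2, h3⟩ := R.key_eq h
  unfold R.Rel
  rw [h1, h2, h3]

theorem card_SY_lt {p : ℕ → ℕ} {S : Finset ℕ} {m0 n0 : ℕ} (hn0 : n0 ∈ S)
    (hrel : R.Rel p n0 m0) : (R.SY p S m0).card < S.card := by
  unfold R.SY
  refine lt_of_le_of_lt Finset.card_image_le ?_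
  apply Finset.card_lt_card
  refine ⟨fun m hm => ?_, fun h => ?_⟩
  · unfold R.Lset at hm
    exact (Finset.mem_filter.1 hm).1
  · have := h hn0
    unfold R.Lset at this
    have hk := (Finset.mem_filter.1 this).2
    obtain ⟨-, -, h3⟩ := R.key_eq hk
    have := hrel.2
    omega

theorem muY_mu (lev : ℕ → ℕ) (ρ : ℝ) (p : ℕ → ℕ) (m0 : ℕ) :
    R.muY p (CL.mu ρ lev) m0 =
      CL.mu (ρ * p m0 * R.fac p m0) (fun m' => lev (R.fac p m0 * m')) := by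
  funext m'
  unfold R.muY CL.mu CL.rad
  push_cast
  ring

theorem rp_dvd {n m : ℕ} (h : n ∣ m) (hm : m ≠ 0) : rp n ≤ rp m := by
  unfold rp
  apply Finset.sum_le_sum_of_subset_of_nonneg (Nat.primeFactors_mono h hm)
  intro _ _ _
  positivity

/-- representatives of the classes -/
noncomputable def rep (p : ℕ → ℕ) (S : Finset ℕ) (i : ℕ × (ℕ →₀ ℕ) × ℕ) : ℕ :=
  if h : ∃ m ∈ S, R.key p m = i ∧ ∃ n0 ∈ S, R.Rel p n0 m then h.choose else 0

theorem rep_spec {p : ℕ → ℕ} {S : Finset ℕ} {m : ℕ} (hm : m ∈ S)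
    (h : ∃ n0 ∈ S, R.Rel p n0 m) :
    rep p S (R.key p m) ∈ S ∧ R.key p (rep p S (R.key p m)) = R.key p m ∧
      ∃ n0 ∈ S, R.Rel p n0 (rep p S (R.key p m)) := by
  have h' : ∃ m' ∈ S, R.key p m' = R.key p m ∧ ∃ n0 ∈ S, R.Rel p n0 m' := ⟨m, hm, rfl, h⟩
  unfold rep
  rw [dif_pos h']
  exact h'.choose_spec

theorem step (hLift : K.LiftK) {P : ℕ} {C1 cs Ws L0 C : ℝ}
    (hA : ∀ (S : Finset ℕ) (lev : ℕ → ℕ) (ρ δ : ℝ) (q0 : ℕ), 0 < ρ →
      (∀ n ∈ S, 0 < n ∧ rp n ≤ C1 ∧ CL.mu ρ lev n < 1/2) →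
      (∀ n ∈ S, ∀ m ∈ S, R.Ag q0 n m) →
      ∃ (p : ℕ → ℕ) (e : ℕ → ℕ → ℝ),
        (∀ m ∈ S, p m = 0 ∨ ((p m).Prime ∧ P < p m ∧ (p m : ℝ) * CL.mu ρ lev m < 1/2)) ∧
        (∀ n m, 0 ≤ e n m) ∧
        ∑ n ∈ S, ∑ m ∈ S, e n m ≤
          C * (1 + R.mass (CL.mu ρ lev) S) ^ (2 * (1/8 : ℝ)) * R.mass (CL.mu ρ lev) S ∧
        ∀ Ch : ℕ → Finset ℕ, (∀ m ∈ S, 1 ∈ Ch m) →
          ∀ q, ∀ n ∈ S, ∀ m ∈ S, R.Ag q n m → ¬ R.Rel p n m → ¬ R.Rel p m n →
            R.ov δ (CL.mu ρ lev) (K.Kc L0 cs Ws q0 δ (CL.mu ρ lev) Ch) q n m ≤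
              12 * ((2 * CL.mu ρ lev n) * (2 * CL.mu ρ lev m)) + e n m) :
    ∀ (k : ℕ) (S : Finset ℕ) (lev : ℕ → ℕ) (ρ δ : ℝ) (q0 : ℕ), S.card = k → 0 < ρ →
      (∀ n ∈ S, 0 < n ∧ rp n ≤ C1 ∧ CL.mu ρ lev n < 1/2) →
      (∀ n ∈ S, ∀ m ∈ S, R.Ag q0 n m) →
      ∃ Ch : ℕ → Finset ℕ, (∀ m ∈ S, 1 ∈ Ch m) ∧
        (∀ m ∈ S, ∀ D ∈ Ch m, ∀ D' ∈ Ch m, D ∣ D' ∨ D' ∣ D) ∧
        R.OK P (1/8) 12 C δ (CL.mu ρ lev) S (K.Kc L0 cs Ws q0 δ (CL.mu ρ lev) Ch) := by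
  intro k
  induction k using Nat.strong_induction_on with
  | _ k IH =>
  intro S lev ρ δ q0 hcard hρ hS hag
  obtain ⟨p, e, hp, he, hsum, hpair⟩ := hA S lev ρ δ q0 hρ hS hag
  set μ := CL.mu ρ lev with hμdef
  have hμp : ∀ n ∈ S, 0 < μ n := fun n hn => mu_pos lev ρ hρ n (hS n hn).1
  -- the new spaces
  have hnew : ∀ m0 : ℕ, m0 ∈ S → (∃ n0 ∈ S, R.Rel p n0 m0) →
      ∃ Ch : ℕ → Finset ℕ, (∀ m ∈ R.SY p S m0, 1 ∈ Ch m) ∧
        (∀ m ∈ R.SY p S m0, ∀ D ∈ Ch m, ∀ D' ∈ Ch m, D ∣ D' ∨ D' ∣ D) ∧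
        R.OK P (1/8) 12 C ((p m0 : ℝ) * δ) (R.muY p μ m0) (R.SY p S m0)
          (K.Kc L0 cs Ws (p m0) ((p m0 : ℝ) * δ) (R.muY p μ m0) Ch) := by
    intro m0 hm0 ⟨n0, hn0, hrel⟩
    have hpm : (p m0).Prime ∧ P < p m0 ∧ (p m0 : ℝ) * μ m0 < 1 / 2 := by
      rcases hp m0 hm0 with h | h
      · exact absurd h (rel_ne hrel)
      · exact h
    have hp0 : (0:ℝ) < p m0 := by exact_mod_cast hpm.1.pos
    have hf0 : 0 < R.fac p m0 := pow_pos hpm.1.pos _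
    have hfR : (0:ℝ) < R.fac p m0 := by exact_mod_cast hf0
    have hlt := card_SY_lt hn0 hrel
    rw [hcard] at hlt
    rw [hμdef, muY_mu]
    refine IH _ hlt (R.SY p S m0) _ _ _ _ rfl (by positivity) ?_ R.ag_SY
    rw [← muY_mu, ← hμdef]
    intro n hn
    unfold R.SY at hn
    rw [Finset.mem_image] at hn
    obtain ⟨m, hm, rfl⟩ := hn
    have hmS : m ∈ S := (Finset.mem_filter.1 hm).1
    have hfd := (R.fac_dvd hm).1
    have hm0' := (hS m hmS).1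
    refine ⟨Nat.div_pos (Nat.le_of_dvd hm0' hfd) hf0, ?_, ?_⟩
    · exact (rp_dvd (Nat.div_dvd_of_dvd hfd) hm0'.ne').trans (hS m hmS).2.1
    · unfold R.muY
      rw [R.fac_mul hm]
      have hk : R.key p m = R.key p m0 := (Finset.mem_filter.1 hm).2
      obtain ⟨k1, -, -⟩ := R.key_eq hk
      rcases hp m hmS with h | h
      · rw [k1] at h
        exact absurd h (rel_ne hrel)
      · rw [k1] at h
        exact h.2.2
  choose! ChY hChY using hnew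
  set cond : ℕ → Prop := fun n => ∃ n0 ∈ S, R.Rel p n0 n with hcond
  set rp' : ℕ → ℕ := fun n => rep p S (R.key p n) with hrp'
  set Ch : ℕ → Finset ℕ := fun n => insert 1
    (if cond n then (ChY (rp' n) (n / R.fac p n)).image (fun D => p n * D) else ∅) with hCh
  have hprime : ∀ n ∈ S, cond n → (p n).Prime ∧ P < p n ∧ (p n : ℝ) * μ n < 1 / 2 := by
    rintro n hn ⟨n0, -, hrel⟩
    rcases hp n hn with h | h
    · exact absurd h (rel_ne hrel)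
    · exact h
  have hrep : ∀ n ∈ S, cond n → rp' n ∈ S ∧ R.key p (rp' n) = R.key p n ∧ cond (rp' n) :=
    fun n hn hc => rep_spec hn hc
  have hmem : ∀ n ∈ S, cond n → n / R.fac p n ∈ R.SY p S (rp' n) := by
    intro n hn hc
    obtain ⟨r1, r2, r3⟩ := hrep n hn hc
    unfold R.SY
    rw [Finset.mem_image]
    refine ⟨n, Finset.mem_filter.2 ⟨hn, r2.symm⟩, ?_⟩
    rw [fac_congr r2]
  have h1 : ∀ m ∈ S, 1 ∈ Ch m := by
    intro m _
    simp only [hCh]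
    exact Finset.mem_insert_self _ _
  refine ⟨Ch, h1, ?_, ?_⟩
  · -- chains
    intro m hm D hD D' hD'
    simp only [hCh] at hD hD'
    rw [Finset.mem_insert] at hD hD'
    rcases hD with rfl | hD
    · exact Or.inl (one_dvd _)
    rcases hD' with rfl | hD'
    · exact Or.inr (one_dvd _)
    split_ifs at hD hD' with hc
    · rw [Finset.mem_image] at hD hD'
      obtain ⟨E, hE, rfl⟩ := hD
      obtain ⟨E', hE', rfl⟩ := hD'
      obtain ⟨r1, r2, r3⟩ := hrep m hm hc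
      rcases (hChY (rp' m) r1 r3).2.1 _ (hmem m hm hc) E hE E' hE' with h | h
      · exact Or.inl (Nat.mul_dvd_mul_left _ h)
      · exact Or.inr (Nat.mul_dvd_mul_left _ h)
    · simp at hD
  refine R.OK.mk δ μ S _ p e
    (fun m0 => K.Kc L0 cs Ws (p m0) ((p m0 : ℝ) * δ) (R.muY p μ m0) (ChY (rp' m0)))
    ?_ ?_ ?_ ?_ ?_ ?_ ?_ ?_ ?_
  · intro m hm
    exact ⟨(hS m hm).1, hμp m hm, (hS m hm).2.2⟩
  · intro m _ v r h
    exact h.1
  · intro m hm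
    rcases hp m hm with h | h
    · exact Or.inl h
    · exact Or.inr ⟨h.1, h.2.1⟩
  · exact he
  · exact hsum
  · intro q n hn m hm hq hr1 hr2
    exact hpair Ch h1 q n hn m hm hq hr1 hr2
  · -- masses of the new spaces
    intro n0 hn0 m0 hm0 hrel m hm
    have hmS : m ∈ S := (Finset.mem_filter.1 hm).1
    have hk : R.key p m = R.key p m0 := (Finset.mem_filter.1 hm).2
    obtain ⟨k1, -, -⟩ := R.key_eq hk
    have hc : cond m := ⟨n0, hn0, (rel_congr hk).2 hrel⟩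
    have := (hprime m hmS hc).2.2
    rw [← k1]
    exact this
  · -- kills of the new spaces
    intro n0 hn0 m0 hm0 hrel m hm v r hkill _
    have hmS : m ∈ S := (Finset.mem_filter.1 hm).1
    have hk : R.key p m = R.key p m0 := (Finset.mem_filter.1 hm).2
    obtain ⟨k1, -, -⟩ := R.key_eq hk
    have hc : cond m := ⟨n0, hn0, (rel_congr hk).2 hrel⟩
    have hrpe : rp' m = rp' m0 := by
      simp only [hrp']
      rw [hk]
    have hq := hprime m hmS hc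
    rw [k1] at hq
    have hfe : R.fac p m = R.fac p m0 := fac_congr hk
    have hlt : p m0 ≤ q0 := by
      by_contra hge
      push Not at hge
      have := hag n0 hn0 m0 hm0 (p m0) hq.1 hge.le
      have h2 := hrel.2
      omega
    have hfm : R.fac p m0 * (m / R.fac p m0) = m := R.fac_mul hm
    have := hLift L0 cs Ws (p m0) q0 δ μ (R.fac p m0) (m / R.fac p m0) Ch (ChY (rp' m0)) hq.1
      hlt ?_ v r hkill
    · rw [hfm] at this
      exact this.2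
    · intro D hD
      rw [hfm]
      simp only [hCh]
      rw [if_pos hc, k1, hrpe, hfe]
      exact Finset.mem_insert_of_mem (Finset.mem_image_of_mem _ hD)
  · -- the new spaces are OK
    intro n0 hn0 m0 hm0 hrel
    have hc : cond m0 := ⟨n0, hn0, hrel⟩
    obtain ⟨r1, r2, r3⟩ := hrep m0 hm0 hc
    have := (hChY (rp' m0) r1 r3).2.2
    rw [(R.key_eq r2).1, SY_congr S r2] at this
    rw [muY_congr μ r2] at this
    exact this

end ItAsm

theorem asm (h : PairA) (hLift : K.LiftK) : AsmStmt := by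
  intro C1 cs Ws L0 P hcs hcs1 hL0
  obtain ⟨C, hC, hA⟩ := h C1 cs Ws L0 P hcs hcs1 hL0
  refine ⟨C, hC, ?_⟩
  intro S lev ρ δ q0 hρ hS hag
  exact ItAsm.step hLift hA S.card S lev ρ δ q0 rfl hρ hS hag

end Pool.Agent.MP_0863b8.FIN

end

section

/-!
MP_0863b8_nt, CASE II: Theorem II without hypotheses.
-/

set_option autoImplicit false

namespace Pool.Agent.MP_0863b8.C2

/-- **THEOREM II** (thick extras). -/
theorem thmII_holds : ThmII := thmII (sbc sb) (sps rank) lab spe pt (dns2 dns)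

end Pool.Agent.MP_0863b8.C2

end

section

/-! MP_0863b8_nt: the classification theorem, assembled. -/

set_option autoImplicit false

namespace Pool.Agent.MP_0863b8.CL

theorem pairCL : PairCL :=
  pr_PairCL pr_NeglCL (pr_BadCL H.badStmt)
    (pr_ThkCL H.goodStruct H.exHb C2.pt pr_DivCL)
    (pr_OneCL H.goodStruct H.goodVal H.exHb) (pr_SmCL C1.caseI)
    (pr_BgCL C2.thmII_holds H.goodStruct H.exHb)

theorem farCL : FarCL := pr_FarCL H.treeG

theorem genCL : GenCL := pr_GenCL farCL pr_LevSumCL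

theorem classCL : ClassCL := pr_ClassCL (pr_LevLeCL pairCL farCL) pr_SymCL pr_LevSumCL

/-- the classification in the form of the assembly -/
theorem clsK_holds : ClsK := clsK classCL genCL

theorem divCL : DivCL := pr_DivCL

end Pool.Agent.MP_0863b8.CL

end
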